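import Pool.Agent.Work.MP_dd0ddf_al.AR.CW

/-!
# Every nondegenerate skew-Hermitian form is isometric to a standard form
-/

set_option linter.unusedSectionVars false

namespace Pool.Agent.Work.MP_dd0ddf_al.AR

open scoped SchwartzMap Matrix.Norms.Elementwise ComplexConjugate ContDiff Topology LineDeriv
open Matrix MeasureTheory Filter

noncomputable section

variable {n : ℕ}

/-- `skJ J v w = v · (J conj w)` -/
private theorem skJ_eq (J : Mat n) (v w : Fin n → ℂ) :
    skJ J v w = v ⬝ᵥ (J *ᵥ (fun l => conj (w l))) := by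
  unfold skJ dotProduct mulVec dotProduct
  refine Finset.sum_congr rfl fun j _ => ?_
  rw [Finset.mul_sum]
  refine Finset.sum_congr rfl fun l _ => ?_
  ring

private theorem skf_eq (ε : Fin n → ℝ) (v w : Fin n → ℂ) :
    skf ε v w = skJ (diagonal fun j => Complex.I * (ε j : ℂ)) v w := by
  rw [skJ_eq]
  unfold skf dotProduct
  rw [Finset.mul_sum]
  refine Finset.sum_congr rfl fun j _ => ?_
  rw [mulVec_diagonal]
  ring

private theorem conj_mulVec (A : Mat n) (w : Fin n → ℂ) :
    (fun l => conj ((A *ᵥ w) l)) = (A.map conj) *ᵥ (fun l => conj (w l)) := by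
  funext l
  unfold mulVec dotProduct
  rw [map_sum]
  refine Finset.sum_congr rfl fun j _ => ?_
  rw [map_mul]
  rfl

private theorem skJ_conj (J K A : Mat n) (h : Aᵀ * J * A.map conj = K) (v w : Fin n → ℂ) :
    skJ J (A *ᵥ v) (A *ᵥ w) = skJ K v w := by
  rw [skJ_eq, skJ_eq, conj_mulVec, ← h, ← Matrix.mulVec_mulVec, ← Matrix.mulVec_mulVec,
    Matrix.dotProduct_mulVec v, Matrix.vecMul_transpose]

theorem exists_diag (J : Mat n) (hJ : Jᴴ = -J) (hdet : J.det ≠ 0) :
    ∃ (ε : Fin n → ℝ) (A : GLn n), IsDiag J ε A := by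
  have hH : ((-Complex.I) • J).IsHermitian := by
    unfold Matrix.IsHermitian
    rw [conjTranspose_smul, hJ]
    simp
  set M : Mat n := (-Complex.I) • J with hM
  have hJM : J = Complex.I • M := by
    rw [hM, smul_smul]
    simp
  have hMdet : M.det ≠ 0 := by
    rw [hM, det_smul]
    exact mul_ne_zero (pow_ne_zero _ (neg_ne_zero.2 Complex.I_ne_zero)) hdet
  set lam : Fin n → ℝ := hH.eigenvalues with hlam
  have hlam0 : ∀ i, lam i ≠ 0 := by
    intro i h0
    apply hMdet
    rw [hH.det_eq_prod_eigenvalues]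
    exact Finset.prod_eq_zero (Finset.mem_univ i) (by rw [← hlam, h0]; simp)
  set U : Mat n := (hH.eigenvectorUnitary : Mat n) with hU
  have hsp : M = U * diagonal (fun i => (lam i : ℂ)) * Uᴴ := by
    have h1 := hH.spectral_theorem
    rw [Unitary.conjStarAlgAut_apply] at h1
    exact h1
  have hUU : U * Uᴴ = 1 := by
    have h1 : (hH.eigenvectorUnitary : Mat n) * star (hH.eigenvectorUnitary : Mat n) = 1 :=
      Unitary.coe_mul_star_self _
    exact h1
  have hUU' : Uᴴ * U = 1 := by
    have h1 : star (hH.eigenvectorUnitary : Mat n) * (hH.eigenvectorUnitary : Mat n) = 1 :=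
      Unitary.coe_star_mul_self _
    exact h1
  set r : Fin n → ℂ := fun i => ((Real.sqrt |lam i| : ℝ) : ℂ) with hr
  have hr0 : ∀ i, r i ≠ 0 := by
    intro i
    rw [hr]
    exact Complex.ofReal_ne_zero.2 (Real.sqrt_ne_zero'.2 (abs_pos.2 (hlam0 i)))
  -- `B = diag r * Uᴴ`, `A = conj B`
  set B : Mat n := diagonal r * Uᴴ with hB
  have hBinv : B * (U * diagonal (fun i => (r i)⁻¹)) = 1 := by
    rw [hB]
    calc diagonal r * Uᴴ * (U * diagonal fun i => (r i)⁻¹)
        = diagonal r * (Uᴴ * U) * diagonal (fun i => (r i)⁻¹) := by noncomm_ring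
      _ = 1 := by
        rw [hUU', Matrix.mul_one, diagonal_mul_diagonal]
        have : (fun i => r i * (r i)⁻¹) = fun _ => (1 : ℂ) := by
          funext i
          exact mul_inv_cancel₀ (hr0 i)
        rw [this, diagonal_one]
  have hBdet : B.det ≠ 0 := by
    intro h0
    have h1 := congrArg Matrix.det hBinv
    rw [det_mul, h0, zero_mul, det_one] at h1
    exact zero_ne_one h1
  have hAdet : (B.map conj).det ≠ 0 := by
    have h1 : (B.map (starRingEnd ℂ)).det = starRingEnd ℂ B.det :=
      (RingHom.map_det (starRingEnd ℂ) B).symm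
    rw [h1]
    intro h2
    apply hBdet
    have h3 := congrArg (starRingEnd ℂ) h2
    rwa [starRingEnd_self_apply, map_zero] at h3
  refine ⟨fun i => SignType.sign (lam i), (Matrix.GeneralLinearGroup.mkOfDetNeZero _ hAdet),
    ⟨fun j => ?_, fun v w => ?_⟩⟩
  · rcases lt_or_gt_of_ne (hlam0 j) with h | h
    · right
      rw [sign_neg h]
      simp
    · left
      rw [sign_pos h]
      simp
  · rw [skf_eq]
    apply skJ_conj
    show (B.map conj)ᵀ * _ * (B.map conj).map conj = J
    have h1 : (B.map conj)ᵀ = Bᴴ := by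
      ext i j
      simp [conjTranspose_apply]
    have h2 : (B.map conj).map conj = B := by
      ext i j
      simp
    rw [h1, h2, hJM, hsp, hB, conjTranspose_mul, conjTranspose_conjTranspose,
      diagonal_conjTranspose]
    have h3 : diagonal (star r) * (diagonal fun j => Complex.I *
        (((SignType.sign (lam j) : ℝ)) : ℂ)) * diagonal r =
        Complex.I • diagonal (fun i => (lam i : ℂ)) := by
      rw [diagonal_mul_diagonal, diagonal_mul_diagonal, ← diagonal_smul]
      congr 1
      funext i
      simp only [Pi.star_apply, Pi.smul_apply, smul_eq_mul]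
      have h4 : star (r i) = r i := by
        rw [hr]
        simp
      rw [h4]
      have h5 : r i * r i = ((|lam i| : ℝ) : ℂ) := by
        rw [hr]
        push_cast
        rw [← Complex.ofReal_mul, Real.mul_self_sqrt (abs_nonneg _)]
      have h6 : ((|lam i| : ℝ) : ℂ) * (((SignType.sign (lam i) : ℝ)) : ℂ) = (lam i : ℂ) := by
        rw [← Complex.ofReal_mul, mul_comm, sign_mul_abs]
      calc r i * (Complex.I * (((SignType.sign (lam i) : ℝ)) : ℂ)) * r i
          = Complex.I * (r i * r i * (((SignType.sign (lam i) : ℝ)) : ℂ)) := by ring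
        _ = _ := by rw [h5, h6]
    calc U * diagonal (star r) * (diagonal fun j => Complex.I *
          (((SignType.sign (lam j) : ℝ)) : ℂ)) * (diagonal r * Uᴴ)
        = U * (diagonal (star r) * (diagonal fun j => Complex.I *
          (((SignType.sign (lam j) : ℝ)) : ℂ)) * diagonal r) * Uᴴ := by noncomm_ring
      _ = Complex.I • (U * diagonal (fun i => (lam i : ℂ)) * Uᴴ) := by
        rw [h3, Matrix.mul_smul, Matrix.smul_mul]

end

end Pool.Agent.Work.MP_dd0ddf_al.AR
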