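import Pool.Agent.Work.MP_dd0ddf_al.AR.AOde

/-!
# MP_dd0ddf_al, archimedean part, block R, module AIdx


The first index with leading growth (qualitative system: all bounds allowed).

PROOF. Suppose first that `SmA B w Λ k i` holds for all `k, i`.  Claim: there are `δ_0 ≥ δ_1 ≥ ... > 0` depending only on `Λ`, `c` with: for
all `i`, `|B t i (w k)| ≤ C e^((Λ - δ_k) t)` (`C` may depend on `i, k`).  Strong induction on `k`: `h(t) = B t i (w k)`, `h' = c_k h + g`,
`g(t) = B t i (H (w k) - c_k w_k)`, `|g(t)| ≤ C' e^((Λ - δ')t)`, `δ' = δ_(k-1)` (`1/2` for `k = 0`): induction and `S.nbe (Λ + 1/2)` with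
`h1 (Λ + 1/2)`.  If `Re c_k < Λ`: `ode_up` with `θ = Λ - δ_k`, `δ_k = min δ' (Λ - Re c_k) / 2`.  If `Re c_k ≥ Λ`: `ode_lim` with
`β = Λ - δ'`; the limit `L` of `e^(-c_k t)h(t)` is `0` because `SmA B w Λ k i`; so `|h| ≤ C e^((Λ - δ')t)`, `δ_k = δ'`.  Hence by `S.gen` all
`v ∈ VV` and all `i` have bounds with the exponent `Λ - δ`, `δ = min` of the `δ_k` and `1/2`, so `BdA (Λ - δ)`, contradicting `h2`.
So there are `k, i` with `¬ SmA B w Λ k i`; let `j` be the smallest such `k` (`Finset` minimum or `WellFounded.min`).  For `k < j`: `SmA` for all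
`i`, and by the same induction (restricted to indices `< j`) the bounds with uniform exponents `Λ - δ_k` hold for `k < j`.  Index `j`:
`h' = c_j h + g`, `|g| ≤ C' e^((Λ-δ')t)`.  If `Re c_j < Λ`: `ode_up` gives `SmA B w Λ j i` for all `i`: contradiction.  If `Re c_j > Λ`:
`ode_lim`, and the limit is `0` because `|h(t)| ≤ C e^(Nt)` with `Λ < N < Re c_j` (`h1`), so again `SmA B w Λ j i` for all `i`:
contradiction.  So `Re c_j = Λ`.
-/

set_option linter.unusedSectionVars false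

namespace Pool.Agent.Work.MP_dd0ddf_al.AR

open scoped SchwartzMap Matrix.Norms.Elementwise ComplexConjugate ContDiff Topology
open Matrix MeasureTheory Filter Asymptotics

noncomputable section

variable {n : ℕ}

private def US {I V : Type*} [AddCommGroup V] [Module ℂ V] (B : ℝ → I → V →ₗ[ℂ] ℂ) (θ : ℝ) :
    Submodule ℂ V where
  carrier := {v | ∀ i, ∃ C : ℝ, ∀ t : ℝ, 0 ≤ t → ‖B t i v‖ ≤ C * Real.exp (θ * t)}
  add_mem' := by
    intro u v hu hv i
    obtain ⟨C, hC⟩ := hu i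
    obtain ⟨D, hD⟩ := hv i
    refine ⟨C + D, fun t ht => ?_⟩
    rw [map_add, add_mul]
    exact (norm_add_le _ _).trans (add_le_add (hC t ht) (hD t ht))
  zero_mem' := by
    intro i
    refine ⟨0, fun t _ => ?_⟩
    rw [map_zero, norm_zero, zero_mul]
  smul_mem' := by
    intro r v hv i
    obtain ⟨C, hC⟩ := hv i
    refine ⟨‖r‖ * C, fun t ht => ?_⟩
    rw [map_smul, norm_smul, mul_assoc]
    exact mul_le_mul_of_nonneg_left (hC t ht) (norm_nonneg r)

private theorem mem_US {I V : Type*} [AddCommGroup V] [Module ℂ V] {B : ℝ → I → V →ₗ[ℂ] ℂ}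
    {θ : ℝ} {v : V} : v ∈ US B θ ↔
      ∀ i, ∃ C : ℝ, ∀ t : ℝ, 0 ≤ t → ‖B t i v‖ ≤ C * Real.exp (θ * t) := Iff.rfl

private theorem US_mono {I V : Type*} [AddCommGroup V] [Module ℂ V] {B : ℝ → I → V →ₗ[ℂ] ℂ}
    {θ θ' : ℝ} (h : θ ≤ θ') : US B θ ≤ US B θ' := by
  intro v hv
  rw [mem_US] at hv ⊢
  intro i
  obtain ⟨C, hC⟩ := hv i
  have hC0 : 0 ≤ C := by
    have := (norm_nonneg _).trans (hC 0 le_rfl)
    simpa using this
  refine ⟨C, fun t ht => (hC t ht).trans ?_⟩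
  exact mul_le_mul_of_nonneg_left (Real.exp_le_exp.2 (mul_le_mul_of_nonneg_right h ht)) hC0

private theorem step_low {I V : Type*} [AddCommGroup V] [Module ℂ V] {VV : Submodule ℂ V}
    {B : ℝ → I → V →ₗ[ℂ] ℂ} {H : V →ₗ[ℂ] V} {nb : Submodule ℂ V} {m : ℕ} {w : Fin m → V}
    {c : Fin m → ℂ} (S : ASys VV B H nb w c (allC I)) {Λ δ' : ℝ} (hδ' : 0 < δ') {j : Fin m}
    (hsp : Submodule.span ℂ (w '' {k | k < j}) ⊔ nb ≤ US B (Λ - δ')) (hc : (c j).re < Λ) :
    w j ∈ US B (Λ - min δ' (Λ - (c j).re) / 2) := by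
  rw [mem_US]
  intro i
  have hmem := hsp (S.tri j)
  obtain ⟨K, hK⟩ := (mem_US.1 hmem) i
  have hK0 : 0 ≤ K := by
    have := (norm_nonneg _).trans (hK 0 le_rfl)
    simpa using this
  have hd : ∀ t, HasDerivAt (fun s => B s i (w j))
      (c j * B t i (w j) + B t i (H (w j) - c j • w j)) t := by
    intro t
    have h1 := S.der t i (w j) (S.wV j)
    have h2 : B t i (H (w j)) = c j * B t i (w j) + B t i (H (w j) - c j • w j) := by
      rw [map_sub, map_smul, smul_eq_mul]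
      ring
    rwa [h2] at h1
  have hm : 0 < min δ' (Λ - (c j).re) := lt_min hδ' (by linarith)
  have hm1 : min δ' (Λ - (c j).re) ≤ δ' := min_le_left _ _
  have hm2 : min δ' (Λ - (c j).re) ≤ Λ - (c j).re := min_le_right _ _
  refine ⟨_, fun t ht => ode_up (h := fun s => B s i (w j))
    (g := fun s => B s i (H (w j) - c j • w j)) (θ := Λ - min δ' (Λ - (c j).re) / 2)
    (β := Λ - δ') hd hK le_rfl hK0 ?_ ?_ t ht⟩
  · linarith
  · linarith

private theorem step_high {I V : Type*} [AddCommGroup V] [Module ℂ V] {VV : Submodule ℂ V}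
    {B : ℝ → I → V →ₗ[ℂ] ℂ} {H : V →ₗ[ℂ] V} {nb : Submodule ℂ V} {m : ℕ} {w : Fin m → V}
    {c : Fin m → ℂ} (S : ASys VV B H nb w c (allC I)) {Λ δ' : ℝ} (hδ' : 0 < δ') {j : Fin m}
    (hsp : Submodule.span ℂ (w '' {k | k < j}) ⊔ nb ≤ US B (Λ - δ')) (hc : Λ ≤ (c j).re)
    (hN : ∀ i, ∃ (N C : ℝ), N < (c j).re ∧ ∀ t : ℝ, 0 ≤ t → ‖B t i (w j)‖ ≤ C * Real.exp (N * t)) :
    w j ∈ US B (Λ - δ') := by
  rw [mem_US]
  intro i
  have hmem := hsp (S.tri j)
  obtain ⟨K, hK⟩ := (mem_US.1 hmem) i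
  have hK0 : 0 ≤ K := by
    have := (norm_nonneg _).trans (hK 0 le_rfl)
    simpa using this
  have hd : ∀ t, HasDerivAt (fun s => B s i (w j))
      (c j * B t i (w j) + B t i (H (w j) - c j • w j)) t := by
    intro t
    have h1 := S.der t i (w j) (S.wV j)
    have h2 : B t i (H (w j)) = c j * B t i (w j) + B t i (H (w j) - c j • w j) := by
      rw [map_sub, map_smul, smul_eq_mul]
      ring
    rwa [h2] at h1
  obtain ⟨L, hL1, hL2, -⟩ := ode_lim (h := fun s => B s i (w j))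
    (g := fun s => B s i (H (w j) - c j • w j)) (β := Λ - δ') hd hK hK0 (by linarith)
  obtain ⟨N, C, hNc, hNb⟩ := hN i
  have hL0 : L = 0 := by
    refine tendsto_nhds_unique hL1 ?_
    rw [tendsto_zero_iff_norm_tendsto_zero]
    have hlim : Tendsto (fun t : ℝ => C * Real.exp (-((c j).re - N) * t)) atTop (𝓝 0) := by
      have h1 : Tendsto (fun t : ℝ => -((c j).re - N) * t) atTop atBot := by
        refine Tendsto.const_mul_atTop_of_neg (by linarith) tendsto_id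
      have h2 := (Real.tendsto_exp_atBot.comp h1).const_mul C
      simpa using h2
    refine squeeze_zero' (Eventually.of_forall fun t => norm_nonneg _) ?_ hlim
    filter_upwards [eventually_ge_atTop (0 : ℝ)] with t ht
    rw [norm_mul, Complex.norm_exp]
    have h3 : (-(c j * (t : ℂ))).re = -((c j).re * t) := by simp
    rw [h3]
    calc Real.exp (-((c j).re * t)) * ‖B t i (w j)‖
        ≤ Real.exp (-((c j).re * t)) * (C * Real.exp (N * t)) :=
          mul_le_mul_of_nonneg_left (hNb t ht) (Real.exp_pos _).le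
      _ = C * Real.exp (-((c j).re - N) * t) := by
          rw [mul_left_comm, ← Real.exp_add]
          congr 2
          ring
  refine ⟨K / ((c j).re - (Λ - δ')), fun t ht => ?_⟩
  have h5 := hL2 t ht
  rw [hL0, zero_mul, sub_zero] at h5
  exact h5

private theorem low_span {I V : Type*} [AddCommGroup V] [Module ℂ V] {VV : Submodule ℂ V}
    {B : ℝ → I → V →ₗ[ℂ] ℂ} {H : V →ₗ[ℂ] V} {nb : Submodule ℂ V} {m : ℕ} {w : Fin m → V}
    {c : Fin m → ℂ} (S : ASys VV B H nb w c (allC I)) {Λ : ℝ}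
    (h1 : ∀ N : ℝ, Λ < N → BdA VV B (allC I) N) {δ : ℝ} (hδ : δ ≤ 1 / 2) :
    nb ≤ US B (Λ - δ) := by
  intro v hv
  refine US_mono (θ := Λ - 1 / 2) (by linarith) ?_
  rw [mem_US]
  intro i
  obtain ⟨κ, -, hκ⟩ := S.nbe (Λ + 1 / 2) (h1 _ (by linarith)) v hv
  refine ⟨κ i, fun t ht => ?_⟩
  have := hκ i t ht
  have h2 : (Λ + 1 / 2 - 1) = Λ - 1 / 2 := by ring
  rwa [h2] at this

private theorem claim {I V : Type*} [AddCommGroup V] [Module ℂ V] {VV : Submodule ℂ V}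
    {B : ℝ → I → V →ₗ[ℂ] ℂ} {H : V →ₗ[ℂ] V} {nb : Submodule ℂ V} {m : ℕ} {w : Fin m → V}
    {c : Fin m → ℂ} (S : ASys VV B H nb w c (allC I)) {Λ : ℝ}
    (h1 : ∀ N : ℝ, Λ < N → BdA VV B (allC I) N) (r : ℕ) (hr : r ≤ m)
    (hs : ∀ k : Fin m, k.val < r → ∀ i, SmA B w Λ k i) :
    ∃ δ : ℝ, 0 < δ ∧ δ ≤ 1 / 2 ∧ ∀ k : Fin m, k.val < r → w k ∈ US B (Λ - δ) := by
  induction r with
  | zero => exact ⟨1 / 2, by norm_num, le_rfl, fun k hk => absurd hk (Nat.not_lt_zero _)⟩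
  | succ r ih =>
    obtain ⟨δ', hδ0, hδ1, hδ⟩ := ih (by omega) fun k hk => hs k (by omega)
    set j : Fin m := ⟨r, by omega⟩ with hj
    have hsp : Submodule.span ℂ (w '' {k | k < j}) ⊔ nb ≤ US B (Λ - δ') := by
      refine sup_le ?_ (low_span S h1 hδ1)
      rw [Submodule.span_le]
      rintro _ ⟨k, hk, rfl⟩
      exact hδ k hk
    have hjr : ∀ k : Fin m, k.val < r + 1 → k.val < r ∨ k = j := by
      intro k hk
      rcases Nat.lt_succ_iff_lt_or_eq.1 hk with h | h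
      · exact Or.inl h
      · exact Or.inr (Fin.ext h)
    rcases lt_or_ge (c j).re Λ with hc | hc
    · have hm : 0 < min δ' (Λ - (c j).re) := lt_min hδ0 (by linarith)
      have hm1 : min δ' (Λ - (c j).re) ≤ δ' := min_le_left _ _
      refine ⟨min δ' (Λ - (c j).re) / 2, by linarith, by linarith, fun k hk => ?_⟩
      rcases hjr k hk with h | h
      · exact US_mono (by linarith) (hδ k h)
      · rw [h]
        exact step_low S hδ0 hsp hc
    · refine ⟨δ', hδ0, hδ1, fun k hk => ?_⟩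
      rcases hjr k hk with h | h
      · exact hδ k h
      · rw [h]
        refine step_high S hδ0 hsp hc fun i => ?_
        obtain ⟨δ2, C, h2, h3⟩ := hs j (by simp [hj]) i
        exact ⟨Λ - δ2, C, by linarith, h3⟩

theorem asy_index {I V : Type*} [AddCommGroup V] [Module ℂ V] {VV : Submodule ℂ V}
    {B : ℝ → I → V →ₗ[ℂ] ℂ} {H : V →ₗ[ℂ] V} {nb : Submodule ℂ V} {m : ℕ} {w : Fin m → V}
    {c : Fin m → ℂ} (S : ASys VV B H nb w c (allC I)) {Λ : ℝ}
    (h1 : ∀ N : ℝ, Λ < N → BdA VV B (allC I) N)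
    (h2 : ∀ N : ℝ, N < Λ → ¬ BdA VV B (allC I) N) :
    ∃ j : Fin m, (c j).re = Λ ∧ (∀ k : Fin m, k < j → ∀ i, SmA B w Λ k i) ∧
      ∃ i, ¬ SmA B w Λ j i := by
  classical
  by_cases hall : ∀ (r : ℕ) (hr : r < m), ∀ i, SmA B w Λ ⟨r, hr⟩ i
  · exfalso
    obtain ⟨δ, hδ0, hδ1, hδ⟩ := claim S h1 m le_rfl fun k _ i => hall k.val k.isLt i
    refine h2 (Λ - δ) (by linarith) fun v hv => ?_
    have hle : Submodule.span ℂ (Set.range w) ⊔ nb ≤ US B (Λ - δ) := by
      refine sup_le ?_ (low_span S h1 hδ1)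
      rw [Submodule.span_le]
      rintro _ ⟨k, rfl⟩
      exact hδ k k.isLt
    have hv' := hle (S.gen hv)
    rw [mem_US] at hv'
    choose κ hκ using hv'
    refine ⟨κ, fun i => ?_, hκ⟩
    have := (norm_nonneg _).trans (hκ i 0 le_rfl)
    simpa using this
  · have hex : ∃ r : ℕ, ∃ hr : r < m, ∃ i, ¬ SmA B w Λ ⟨r, hr⟩ i := by
      by_contra hne
      apply hall
      intro r hr i
      by_contra hS
      exact hne ⟨r, hr, i, hS⟩
    obtain ⟨hr, hi⟩ := Nat.find_spec hex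
    set r := Nat.find hex with hrdef
    have hmin : ∀ k : Fin m, k.val < r → ∀ i, SmA B w Λ k i := by
      intro k hk i
      by_contra hS
      exact Nat.find_min hex hk ⟨k.isLt, i, hS⟩
    obtain ⟨δ', hδ0, hδ1, hδ⟩ := claim S h1 r hr.le hmin
    have hsp : Submodule.span ℂ (w '' {k | k < (⟨r, hr⟩ : Fin m)}) ⊔ nb ≤ US B (Λ - δ') := by
      refine sup_le ?_ (low_span S h1 hδ1)
      rw [Submodule.span_le]
      rintro _ ⟨k, hk, rfl⟩
      exact hδ k hk
    have hno : ∀ δ : ℝ, 0 < δ → w ⟨r, hr⟩ ∉ US B (Λ - δ) := by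
      intro δ hd hmem
      obtain ⟨i, hi⟩ := hi
      obtain ⟨C, hC⟩ := (mem_US.1 hmem) i
      exact hi ⟨δ, C, hd, hC⟩
    refine ⟨⟨r, hr⟩, ?_, fun k hk => hmin k hk, hi⟩
    rcases lt_trichotomy (c ⟨r, hr⟩).re Λ with hc | hc | hc
    · exfalso
      have hm : 0 < min δ' (Λ - (c ⟨r, hr⟩).re) := lt_min hδ0 (by linarith)
      exact hno _ (half_pos hm) (step_low S hδ0 hsp hc)
    · exact hc
    · exfalso
      refine hno δ' hδ0 (step_high S hδ0 hsp hc.le fun i => ?_)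
      obtain ⟨κ, -, hκ⟩ := h1 ((Λ + (c ⟨r, hr⟩).re) / 2) (by linarith) _ (S.wV ⟨r, hr⟩)
      exact ⟨(Λ + (c ⟨r, hr⟩).re) / 2, κ i, by linarith, hκ i⟩

end

end Pool.Agent.Work.MP_dd0ddf_al.AR
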