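import Pool.Agent.Work.MP_dd0ddf_al.AR.AOde

/-!
# MP_dd0ddf_al, archimedean part, block R, module ALim


The leading coefficient, with bounds in the class `CC`.

PROOF. `asy_nb`: `h1 (Λ + 1/2)` and `S.nbe` give `|B t i ν| ≤ C e^((Λ - 1/2)t)`, times `|e^(-zt)| = e^(-Λt)`.
`asy_limit`: Claim: for `k < j` there are `δ_k > 0` and `κ_k ∈ CC` with `|B t i (w k)| ≤ κ_k i e^((Λ - δ_k)t)` for all `i`, `t ≥ 0`.  Strong
induction: `h' = c_k h + g`, `|g(t)| ≤ κ' i e^((Λ-δ')t)` by induction and `S.nbe (Λ + 1/2)` (`tri`, as in `ADrop`).  If `Re c_k < Λ`: `ode_up` with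
`θ = Λ - δ_k`, `δ_k = min δ' (Λ - Re c_k)/2`, `K0` from `S.init`.  If `Re c_k ≥ Λ`: `ode_lim`, the limit is `0` by `hk k i` (`SmA`), so
`|h(t)| ≤ κ' i/(Re c_k - Λ + δ') e^((Λ - δ')t)`.
Index `j`: `h' = c_j h + g`, `|g(t)| ≤ κ' i e^((Λ-δ')t)`, `Re c_j = Λ`; `ode_lim`: `U i := L`, `|U i| ≤ κ0 i + κ' i/δ'` (in `CC`), and if `U i = 0`
then `|h(t)| ≤ κ' i/δ' e^((Λ - δ')t)`: `SmA B w Λ j i`.  (Choose `U` with `choose`.)
-/

set_option linter.unusedSectionVars false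

namespace Pool.Agent.Work.MP_dd0ddf_al.AR

open scoped SchwartzMap Matrix.Norms.Elementwise ComplexConjugate ContDiff Topology
open Matrix MeasureTheory Filter Asymptotics

noncomputable section

variable {n : ℕ}

private def Bd {I V : Type*} [AddCommGroup V] [Module ℂ V]
    (B : ℝ → I → V →ₗ[ℂ] ℂ) (CC : Set (I → ℝ)) (θ : ℝ) (v : V) : Prop :=
  ∃ κ ∈ CC, ∀ i, ∀ t : ℝ, 0 ≤ t → ‖B t i v‖ ≤ κ i * Real.exp (θ * t)

private theorem Bd.mono {I V : Type*} [AddCommGroup V] [Module ℂ V]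
    {B : ℝ → I → V →ₗ[ℂ] ℂ} {CC : Set (I → ℝ)} (hC : ∀ κ ∈ CC, ∀ i, 0 ≤ κ i)
    {θ θ' : ℝ} {v : V} (h : Bd B CC θ v) (hθ : θ ≤ θ') : Bd B CC θ' v := by
  obtain ⟨κ, hκ, hb⟩ := h
  refine ⟨κ, hκ, fun i t ht => (hb i t ht).trans ?_⟩
  exact mul_le_mul_of_nonneg_left
    (Real.exp_le_exp.2 (mul_le_mul_of_nonneg_right hθ ht)) (hC κ hκ i)

/-- the vectors whose coefficients grow strictly slower than `e^(Λ t)`, with bounds in `CC` -/
private def BdL {I V : Type*} [AddCommGroup V] [Module ℂ V] {VV : Submodule ℂ V}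
    {B : ℝ → I → V →ₗ[ℂ] ℂ} {H : V →ₗ[ℂ] V} {nb : Submodule ℂ V} {m : ℕ} {w : Fin m → V}
    {c : Fin m → ℂ} {CC : Set (I → ℝ)} (S : ASys VV B H nb w c CC) (Λ : ℝ) : Submodule ℂ V where
  carrier := {v | ∃ δ : ℝ, 0 < δ ∧ Bd B CC (Λ - δ) v}
  add_mem' := by
    rintro u v ⟨δ, hδ, hu⟩ ⟨δ', hδ', hv⟩
    have hu' : Bd B CC (Λ - min δ δ') u :=
      Bd.mono S.nonneg hu (sub_le_sub_left (min_le_left _ _) _)
    have hv' : Bd B CC (Λ - min δ δ') v :=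
      Bd.mono S.nonneg hv (sub_le_sub_left (min_le_right _ _) _)
    obtain ⟨κ, hκ, hu⟩ := hu'
    obtain ⟨κ', hκ', hv⟩ := hv'
    refine ⟨min δ δ', lt_min hδ hδ', fun i => κ i + κ' i, S.add κ hκ κ' hκ', fun i t ht => ?_⟩
    rw [map_add, add_mul]
    exact (norm_add_le _ _).trans (add_le_add (hu i t ht) (hv i t ht))
  zero_mem' := by
    obtain ⟨κ, hκ, -⟩ := S.init 0 VV.zero_mem
    refine ⟨1, one_pos, fun i => 0 * κ i, S.smul 0 le_rfl κ hκ, fun i t ht => ?_⟩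
    show _ ≤ 0 * κ i * Real.exp ((Λ - 1) * t)
    rw [map_zero, norm_zero, zero_mul, zero_mul]
  smul_mem' := by
    rintro a v ⟨δ, hδ, κ, hκ, hv⟩
    refine ⟨δ, hδ, fun i => ‖a‖ * κ i, S.smul ‖a‖ (norm_nonneg _) κ hκ, fun i t ht => ?_⟩
    rw [map_smul, norm_smul, mul_assoc]
    exact mul_le_mul_of_nonneg_left (hv i t ht) (norm_nonneg _)

private theorem tendsto_exp_mul {f : ℝ → ℂ} {C β : ℝ} {z : ℂ}
    (hb : ∀ t : ℝ, 0 ≤ t → ‖f t‖ ≤ C * Real.exp (β * t)) (hz : β < z.re) :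
    Tendsto (fun t : ℝ => Complex.exp (-(z * t)) * f t) atTop (𝓝 0) := by
  have h1 : Tendsto (fun t : ℝ => C * Real.exp (-((z.re - β) * t))) atTop (𝓝 0) := by
    have h2 : Tendsto (fun t : ℝ => (z.re - β) * t) atTop atTop :=
      tendsto_id.const_mul_atTop (sub_pos.2 hz)
    have h3 := (Real.tendsto_exp_neg_atTop_nhds_zero.comp h2).const_mul C
    rw [mul_zero] at h3
    exact h3
  refine squeeze_zero_norm' ?_ h1
  filter_upwards [eventually_ge_atTop (0 : ℝ)] with t ht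
  have e1 : ‖Complex.exp (-(z * t))‖ = Real.exp (-(z.re * t)) := by
    rw [Complex.norm_exp]
    congr 1
    simp
  have e2 : C * Real.exp (-((z.re - β) * t)) = Real.exp (-(z.re * t)) * (C * Real.exp (β * t)) := by
    rw [mul_left_comm, ← Real.exp_add]
    congr 2
    ring
  rw [norm_mul, e1, e2]
  exact mul_le_mul_of_nonneg_left (hb t ht) (Real.exp_pos _).le

private theorem nb_bd {I V : Type*} [AddCommGroup V] [Module ℂ V] {VV : Submodule ℂ V}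
    {B : ℝ → I → V →ₗ[ℂ] ℂ} {H : V →ₗ[ℂ] V} {nb : Submodule ℂ V} {m : ℕ} {w : Fin m → V}
    {c : Fin m → ℂ} {CC : Set (I → ℝ)} (S : ASys VV B H nb w c CC) {Λ : ℝ}
    (h1 : ∀ N : ℝ, Λ < N → BdA VV B CC N) {ν : V} (hν : ν ∈ nb) : Bd B CC (Λ - 1 / 2) ν := by
  obtain ⟨κ, hκ, hb⟩ := S.nbe (Λ + 1 / 2) (h1 _ (by linarith)) ν hν
  refine ⟨κ, hκ, fun i t ht => ?_⟩
  have h := hb i t ht
  have e : Λ + 1 / 2 - 1 = Λ - 1 / 2 := by ring
  rwa [e] at h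

theorem asy_nb {I V : Type*} [AddCommGroup V] [Module ℂ V] {VV : Submodule ℂ V}
    {B : ℝ → I → V →ₗ[ℂ] ℂ} {H : V →ₗ[ℂ] V} {nb : Submodule ℂ V} {m : ℕ} {w : Fin m → V}
    {c : Fin m → ℂ} {CC : Set (I → ℝ)} (S : ASys VV B H nb w c CC) {Λ : ℝ}
    (h1 : ∀ N : ℝ, Λ < N → BdA VV B CC N) {z : ℂ} (hz : z.re = Λ) (ν : V) (hν : ν ∈ nb) (i : I) :
    Tendsto (fun t : ℝ => Complex.exp (-(z * t)) * B t i ν) atTop (𝓝 0) := by
  obtain ⟨κ, -, hb⟩ := nb_bd S h1 hν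
  exact tendsto_exp_mul (hb i) (by linarith)

theorem asy_limit {I V : Type*} [AddCommGroup V] [Module ℂ V] {VV : Submodule ℂ V}
    {B : ℝ → I → V →ₗ[ℂ] ℂ} {H : V →ₗ[ℂ] V} {nb : Submodule ℂ V} {m : ℕ} {w : Fin m → V}
    {c : Fin m → ℂ} {CC : Set (I → ℝ)} (S : ASys VV B H nb w c CC) {Λ : ℝ}
    (h1 : ∀ N : ℝ, Λ < N → BdA VV B CC N) (j : Fin m) (hj : (c j).re = Λ)
    (hk : ∀ k : Fin m, k < j → ∀ i, SmA B w Λ k i) :
    ∃ U : I → ℂ,
      (∀ i, Tendsto (fun t : ℝ => Complex.exp (-(c j * t)) * B t i (w j)) atTop (𝓝 (U i))) ∧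
      (∃ κ ∈ CC, ∀ i, ‖U i‖ ≤ κ i) ∧ ∀ i, U i = 0 → SmA B w Λ j i := by
  have hC := S.nonneg
  have hnb : nb ≤ BdL S Λ := by
    intro ν hν
    exact ⟨1 / 2, by norm_num, nb_bd S h1 hν⟩
  have hd : ∀ (k : Fin m) (i : I), ∀ t, HasDerivAt (fun s : ℝ => B s i (w k))
      (c k * B t i (w k) + B t i (H (w k) - c k • w k)) t := by
    intro k i t
    have h := S.der t i (w k) (S.wV k)
    have e : B t i (H (w k)) = c k * B t i (w k) + B t i (H (w k) - c k • w k) := by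
      rw [map_sub, map_smul, smul_eq_mul]
      ring
    rwa [e] at h
  have hsp : ∀ k : Fin m, (∀ l, l < k → w l ∈ BdL S Λ) → H (w k) - c k • w k ∈ BdL S Λ := by
    intro k hkl
    have hle : Submodule.span ℂ (w '' {l | l < k}) ⊔ nb ≤ BdL S Λ := by
      refine sup_le ?_ hnb
      rw [Submodule.span_le]
      rintro _ ⟨l, hl, rfl⟩
      exact hkl l hl
    exact hle (S.tri k)
  have claim : ∀ k : Fin m, k < j → w k ∈ BdL S Λ := by
    intro k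
    induction k using WellFoundedLT.induction with
    | ind k ih =>
      intro hkj
      obtain ⟨δ', hδ', κ', hκ', hb⟩ := hsp k (fun l hl => ih l hl (hl.trans hkj))
      obtain ⟨κ0, hκ0, hb0⟩ := S.init (w k) (S.wV k)
      rcases lt_or_ge (c k).re Λ with hc | hc
      · obtain ⟨θ, hθ1, hθ2⟩ := exists_between (max_lt (show Λ - δ' < Λ by linarith) hc)
        have hβ : Λ - δ' < θ := lt_of_le_of_lt (le_max_left _ _) hθ1
        have hcθ : (c k).re < θ := lt_of_le_of_lt (le_max_right _ _) hθ1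
        have hpos : 0 ≤ (θ - max (Λ - δ') (c k).re)⁻¹ := inv_nonneg.2 (sub_nonneg.2 hθ1.le)
        refine ⟨Λ - θ, by linarith, fun i => κ0 i + (θ - max (Λ - δ') (c k).re)⁻¹ * κ' i,
          S.add κ0 hκ0 _ (S.smul _ hpos κ' hκ'), fun i t ht => ?_⟩
        have h := ode_up (hd k i) (hb i) (hb0 i) (hC κ' hκ' i) hcθ hβ t ht
        have e : κ' i / (θ - max (Λ - δ') (c k).re) =
            (θ - max (Λ - δ') (c k).re)⁻¹ * κ' i := by
          rw [div_eq_mul_inv, mul_comm]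
        rw [e] at h
        have e2 : Λ - (Λ - θ) = θ := by ring
        rwa [e2]
      · have hβ : Λ - δ' < (c k).re := by linarith
        have hpos : 0 ≤ ((c k).re - (Λ - δ'))⁻¹ := inv_nonneg.2 (sub_nonneg.2 hβ.le)
        refine ⟨δ', hδ', fun i => ((c k).re - (Λ - δ'))⁻¹ * κ' i, S.smul _ hpos κ' hκ',
          fun i t ht => ?_⟩
        obtain ⟨L, hL, hLb, -⟩ := ode_lim (hd k i) (hb i) (hC κ' hκ' i) hβ
        obtain ⟨δ, C, hδ, hs⟩ := hk k hkj i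
        have hL0 : L = 0 := tendsto_nhds_unique hL (tendsto_exp_mul hs (by linarith))
        have h := hLb t ht
        rw [hL0, zero_mul, sub_zero] at h
        have e : κ' i / ((c k).re - (Λ - δ')) = ((c k).re - (Λ - δ'))⁻¹ * κ' i := by
          rw [div_eq_mul_inv, mul_comm]
        rwa [e] at h
  obtain ⟨δ', hδ', κ', hκ', hb⟩ := hsp j claim
  obtain ⟨κ0, hκ0, hb0⟩ := S.init (w j) (S.wV j)
  have hβ : Λ - δ' < (c j).re := by linarith
  have hpos : 0 ≤ ((c j).re - (Λ - δ'))⁻¹ := inv_nonneg.2 (sub_nonneg.2 hβ.le)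
  choose U hU1 hU2 hU3 using fun i => ode_lim (hd j i) (hb i) (hC κ' hκ' i) hβ
  refine ⟨U, hU1, ⟨fun i => κ0 i + ((c j).re - (Λ - δ'))⁻¹ * κ' i,
    S.add κ0 hκ0 _ (S.smul _ hpos κ' hκ'), fun i => ?_⟩, fun i hi => ?_⟩
  · have h := hU3 i
    have e : κ' i / ((c j).re - (Λ - δ')) = ((c j).re - (Λ - δ'))⁻¹ * κ' i := by
      rw [div_eq_mul_inv, mul_comm]
    rw [e] at h
    exact h.trans (add_le_add (hb0 i) le_rfl)
  · refine ⟨δ', κ' i / ((c j).re - (Λ - δ')), hδ', fun t ht => ?_⟩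
    have h := hU2 i t ht
    rw [hi, zero_mul, sub_zero] at h
    exact h

end

end Pool.Agent.Work.MP_dd0ddf_al.AR
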