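import Pool.Agent.Work.MP_dd0ddf_al.AR.RKDefs

/-!
# MP_dd0ddf_al, archimedean part, block R, module KInvx


Every continuous seminorm is bounded by a continuous `K`-invariant one.

PROOF. `q v = ⨆ k : KU n, p (π k v)`.  By `hπ.growth` and `KU_entry` (`‖k‖ ≤ 1`, `‖k⁻¹‖ ≤ 1` in the sup norm, `KU_inv`)
`p (π k v) ≤ 2^N q0 v` with a continuous seminorm `q0`.  So the supremum is bounded, `q` is a seminorm
(`Seminorm.of` with `ciSup_le`, `le_ciSup`), `q ≤ 2^N q0`, hence continuous (`Seminorm.continuous_of_le` or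
`Seminorm.cont_of_...`), `K`-invariant (`Equiv.mulRight` reindexing: `π (k k0) v = π k (π k0 v)`), and `p ≤ q` (`k = 1`).
For `n = 0` nothing changes.
-/

set_option linter.unusedSectionVars false

namespace Pool.Agent.Work.MP_dd0ddf_al.AR

open scoped SchwartzMap Matrix.Norms.Elementwise ComplexConjugate ContDiff Topology
open Matrix MeasureTheory Filter Asymptotics

noncomputable section

variable {n : ℕ} {P : Type*} [AddCommGroup P] [Module ℂ P] [UniformSpace P] [IsUniformAddGroup P]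
  [ContinuousSMul ℂ P] [PolynormableSpace ℂ P] [T2Space P] [CompleteSpace P]
  [FirstCountableTopology P]

private theorem kx_bound (π : GLn n →* (P →L[ℂ] P)) (hπ : IsCW π) (p : Seminorm ℂ P)
    (hp : Continuous p) : ∃ q : Seminorm ℂ P, Continuous q ∧
      ∀ (k : KU n) (v : P), p (π (k : GLn n) v) ≤ q v := by
  obtain ⟨N, q0, hq0, h⟩ := hπ.growth p hp
  have e : ∀ v, ((2 ^ N : NNReal) • q0) v = (2 ^ N : ℝ) * q0 v := by
    intro v
    rw [Seminorm.smul_apply, NNReal.smul_def, smul_eq_mul]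
    norm_num
  refine ⟨(2 ^ N : NNReal) • q0, ?_, fun k v => ?_⟩
  · have : ⇑((2 ^ N : NNReal) • q0) = fun v => (2 ^ N : ℝ) * q0 v := funext e
    rw [this]
    exact continuous_const.mul hq0
  · refine (h k v).trans ?_
    rw [e]
    have h3 : ‖((k : GLn n) : Mat n)‖ ≤ 1 := by
      rw [Matrix.norm_le_iff zero_le_one]
      exact KU_entry k
    have h4 : ‖(((k : GLn n)⁻¹ : GLn n) : Mat n)‖ ≤ 1 := by
      rw [Matrix.norm_le_iff zero_le_one]
      intro i j
      exact KU_entry k⁻¹ i j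
    have h5 : ‖((k : GLn n) : Mat n)‖ + ‖(((k : GLn n)⁻¹ : GLn n) : Mat n)‖ ≤ 2 := by
      linarith
    exact mul_le_mul_of_nonneg_right (pow_le_pow_left₀ (by positivity) h5 N) (apply_nonneg q0 v)

theorem exists_KInv (π : GLn n →* (P →L[ℂ] P)) (hπ : IsCW π) (p : Seminorm ℂ P)
    (hp : Continuous p) : ∃ q : Seminorm ℂ P, Continuous q ∧ KInv π q ∧ ∀ v, p v ≤ q v := by
  obtain ⟨q0, hq0, hb⟩ := kx_bound π hπ p hp
  have hbdd : ∀ v : P, BddAbove (Set.range fun k : KU n => p (π (k : GLn n) v)) := by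
    intro v
    refine ⟨q0 v, ?_⟩
    rintro _ ⟨k, rfl⟩
    exact hb k v
  obtain ⟨q, hq⟩ : ∃ q : Seminorm ℂ P, ∀ v, q v = ⨆ k : KU n, p (π (k : GLn n) v) := by
    refine ⟨Seminorm.of (fun v => ⨆ k : KU n, p (π (k : GLn n) v)) ?_ ?_, fun v => rfl⟩
    · intro v w
      refine ciSup_le fun k => ?_
      rw [map_add]
      refine (map_add_le_add p _ _).trans ?_
      exact add_le_add (le_ciSup (hbdd v) k) (le_ciSup (hbdd w) k)
    · intro c v
      have e : ∀ k : KU n, p (π (k : GLn n) (c • v)) = ‖c‖ * p (π (k : GLn n) v) := by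
        intro k
        rw [map_smul, map_smul_eq_mul]
      simp only [e]
      rw [Real.mul_iSup_of_nonneg (norm_nonneg c)]
  have hle : q ≤ q0 := by
    intro v
    rw [hq]
    exact ciSup_le fun k => hb k v
  refine ⟨q, Seminorm.continuous_of_le hq0 hle, ?_, fun v => ?_⟩
  · intro k0 v
    rw [hq, hq]
    have e : ∀ k : KU n, p (π (k : GLn n) (π (k0 : GLn n) v)) =
        p (π ((Equiv.mulRight k0 k : KU n) : GLn n) v) := by
      intro k
      rw [Equiv.coe_mulRight, Subgroup.coe_mul, map_mul]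
      rfl
    simp only [e]
    exact (Equiv.mulRight k0).iSup_comp (g := fun k : KU n => p (π (k : GLn n) v))
  · rw [hq]
    refine le_ciSup_of_le (hbdd v) 1 ?_
    simp

end

end Pool.Agent.Work.MP_dd0ddf_al.AR
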