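import Pool.Agent.Work.MP_dd0ddf_al.AR.KHB
import Pool.Agent.Work.MP_dd0ddf_al.AR.KInvx

/-!
# MP_dd0ddf_al, archimedean part, block R, module AGro


Exponential bounds along `aa t`.

PROOF. `aa n t = diag(e^(t(n-i)))`, its inverse `diag(e^(-t(n-i)))` (`Matrix.exp_diagonal`; `expG (-Y)` is the inverse: `Matrix.exp_neg`), so for
`t ≥ 0` the sup norms are `≤ e^(nt)` and `≤ 1`, the sum is `≤ 2 e^(nt)`.  `hπ.growth p`: `p(π(aa t)v) ≤ (2 e^(nt))^N q(v) = 2^N e^(nNt) q(v)`; replace `q` by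
`2^N q` (a continuous seminorm).  `YK_bound`: `functional_bound` and `exists_KInv`.
-/

set_option linter.unusedSectionVars false

namespace Pool.Agent.Work.MP_dd0ddf_al.AR

open scoped SchwartzMap Matrix.Norms.Elementwise ComplexConjugate ContDiff Topology
open Matrix MeasureTheory Filter Asymptotics

noncomputable section

variable {n : ℕ} {P : Type*} [AddCommGroup P] [Module ℂ P] [UniformSpace P] [IsUniformAddGroup P]
  [ContinuousSMul ℂ P] [PolynormableSpace ℂ P] [T2Space P] [CompleteSpace P]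
  [FirstCountableTopology P]

private theorem aa_coe (n : ℕ) (t : ℝ) : ((aa n t : GLn n) : Mat n) =
    Matrix.diagonal fun i : Fin n => Complex.exp ((t : ℂ) * ((n : ℂ) - (i : ℕ))) := by
  unfold aa
  rw [coe_expG]
  unfold H0
  rw [← Matrix.diagonal_smul, Matrix.exp_diagonal]
  congr 1
  funext i
  rw [Pi.coe_exp, Complex.exp_eq_exp_ℂ]
  congr 1

private theorem aa_inv_coe (n : ℕ) (t : ℝ) : (((aa n t)⁻¹ : GLn n) : Mat n) =
    Matrix.diagonal fun i : Fin n => Complex.exp (-((t : ℂ) * ((n : ℂ) - (i : ℕ)))) := by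
  rw [Matrix.coe_units_inv]
  apply Matrix.inv_eq_right_inv
  rw [aa_coe, Matrix.diagonal_mul_diagonal]
  rw [← Matrix.diagonal_one]
  congr 1
  funext i
  rw [← Complex.exp_add, add_neg_cancel, Complex.exp_zero]

private theorem aa_norm (n : ℕ) {t : ℝ} (ht : 0 ≤ t) : ‖((aa n t : GLn n) : Mat n)‖ +
    ‖(((aa n t)⁻¹ : GLn n) : Mat n)‖ ≤ 2 * Real.exp (n * t) := by
  have h0 : 1 ≤ Real.exp (n * t) := Real.one_le_exp (by positivity)
  have h1 : ‖((aa n t : GLn n) : Mat n)‖ ≤ Real.exp (n * t) := by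
    rw [Matrix.norm_le_iff (by positivity)]
    intro i j
    rw [aa_coe, Matrix.diagonal_apply]
    split_ifs with h
    · rw [Complex.norm_exp]
      apply Real.exp_le_exp.2
      have h2 : ((t : ℂ) * ((n : ℂ) - (i : ℕ))).re = t * ((n : ℝ) - (i : ℕ)) := by
        rw [Complex.re_ofReal_mul]
        simp
      rw [h2]
      have h3 : (0 : ℝ) ≤ ((i : ℕ) : ℝ) := Nat.cast_nonneg _
      nlinarith
    · rw [norm_zero]
      positivity
  have h2 : ‖(((aa n t)⁻¹ : GLn n) : Mat n)‖ ≤ 1 := by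
    rw [Matrix.norm_le_iff zero_le_one]
    intro i j
    rw [aa_inv_coe, Matrix.diagonal_apply]
    split_ifs with h
    · rw [Complex.norm_exp, ← Real.exp_zero]
      apply Real.exp_le_exp.2
      have h2 : (-((t : ℂ) * ((n : ℂ) - (i : ℕ)))).re = -(t * ((n : ℝ) - (i : ℕ))) := by
        rw [Complex.neg_re, Complex.re_ofReal_mul]
        simp
      rw [h2]
      have h3 : ((i : ℕ) : ℝ) ≤ n := by exact_mod_cast i.2.le
      have h4 : 0 ≤ t * ((n : ℝ) - (i : ℕ)) := mul_nonneg ht (by linarith)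
      linarith
    · rw [norm_zero]
      exact zero_le_one
  linarith

theorem aa_growth (π : GLn n →* (P →L[ℂ] P)) (hπ : IsCW π) (p : Seminorm ℂ P)
    (hp : Continuous p) : ∃ (N : ℝ) (q : Seminorm ℂ P), Continuous q ∧
      ∀ (t : ℝ), 0 ≤ t → ∀ v : P, p (π (aa n t) v) ≤ Real.exp (N * t) * q v := by
  obtain ⟨N, q0, hq0, h⟩ := hπ.growth p hp
  have e : ∀ v, ((2 ^ N : NNReal) • q0) v = (2 ^ N : ℝ) * q0 v := by
    intro v
    rw [_root_.smul_apply, NNReal.smul_def, smul_eq_mul]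
    norm_num
  refine ⟨N * n, (2 ^ N : NNReal) • q0, ?_, fun t ht v => ?_⟩
  · have : ⇑((2 ^ N : NNReal) • q0) = fun v => (2 ^ N : ℝ) * q0 v := funext e
    rw [this]
    exact continuous_const.mul hq0
  · refine (h (aa n t) v).trans ?_
    rw [e]
    calc (‖((aa n t : GLn n) : Mat n)‖ + ‖(((aa n t)⁻¹ : GLn n) : Mat n)‖) ^ N * q0 v
        ≤ (2 * Real.exp (n * t)) ^ N * q0 v :=
          mul_le_mul_of_nonneg_right (pow_le_pow_left₀ (by positivity) (aa_norm n ht) N)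
            (apply_nonneg q0 v)
      _ = Real.exp (N * n * t) * (2 ^ N * q0 v) := by
          rw [mul_pow, ← Real.exp_nat_mul, mul_assoc (N : ℝ) (n : ℝ) t]
          ring

theorem functional_KInv (π : GLn n →* (P →L[ℂ] P)) (hπ : IsCW π) (l : P →L[ℂ] ℂ) :
    ∃ p : Seminorm ℂ P, Continuous p ∧ KInv π p ∧ ∀ v, ‖l v‖ ≤ p v := by
  obtain ⟨q, hq, hK, h⟩ := exists_KInv π hπ ((normSeminorm ℂ ℂ).comp (l : P →ₗ[ℂ] ℂ))
    (continuous_norm.comp l.continuous)
  exact ⟨q, hq, hK, h⟩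

end

end Pool.Agent.Work.MP_dd0ddf_al.AR
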