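import Pool.Agent.Work.MP_dd0ddf_al.AR.RDefs

/-!
# MP_dd0ddf_al, archimedean part, block R, module RLR


Relations between `d`, `Lo`, `Ro`.

PROOF. `d_eq_sum`: `Y = ∑ (Re Y_ij E_ij + Im Y_ij (I E_ij))` (real linear combinations, `hd.add`, `hd.smul`, induction over finite
sums; `d 0 = 0` from `hd.smul 0`), and `d(E_ij) = Lo + Ro`, `d(I E_ij) = I (Lo - Ro)` by definition.
Commutators: expand the definitions; `hd.br` with `E_ij E_kl = δ_jk E_il`: e.g.
`4 [Lo_ij, Lo_kl] = [d E_ij, d E_kl] - I [d E_ij, d(I E_kl)] - I [d(I E_ij), d E_kl] - [d(I E_ij), d(I E_kl)]`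
`= d[E_ij,E_kl] - I d(I [E_ij,E_kl]) - I d(I [E_ij,E_kl]) + d[E_ij,E_kl] = 2 (d C - I d(I C))`, `C = [E_ij,E_kl] = δ_jk E_il - δ_li E_kj`,
which is `4` times the `ℂ`-linear part of `d C`.  Similarly for `Ro`; for `[Lo, Ro]` the terms cancel.  (All maps are continuous linear
maps, so scalars and sums can be moved freely.)
`aa_Lo`: `aa n t = diag(e^(t(n-i)))` (`Matrix.exp_diagonal`), so `aa E_ij aa⁻¹ = e^(t(j-i)) E_ij`, with a REAL scalar; `hd.Ad`, `hd.smul`.
-/

set_option linter.unusedSectionVars false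

namespace Pool.Agent.Work.MP_dd0ddf_al.AR

open scoped SchwartzMap Matrix.Norms.Elementwise ComplexConjugate ContDiff Topology
open Matrix MeasureTheory Filter Asymptotics

noncomputable section

variable {n : ℕ} {P : Type*} [AddCommGroup P] [Module ℂ P] [UniformSpace P] [IsUniformAddGroup P]
  [ContinuousSMul ℂ P] [PolynormableSpace ℂ P] [T2Space P] [CompleteSpace P]
  [FirstCountableTopology P]

private theorem rlr_sum (π : GLn n →* (P →L[ℂ] P)) (d : Mat n → P →L[ℂ] P) (hd : Der π d)
    (v : P) {ι : Type*} (s : Finset ι) (f : ι → Mat n) :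
    d (∑ x ∈ s, f x) v = ∑ x ∈ s, d (f x) v := by
  classical
  induction s using Finset.induction_on with
  | empty =>
    rw [Finset.sum_empty, Finset.sum_empty]
    have h := hd.smul 0 (0 : Mat n) v
    rw [zero_smul, Complex.ofReal_zero, zero_smul] at h
    exact h
  | insert a s ha ih =>
    rw [Finset.sum_insert ha, Finset.sum_insert ha, hd.add, ih]

private theorem rlr_single (π : GLn n →* (P →L[ℂ] P)) (d : Mat n → P →L[ℂ] P) (hd : Der π d)
    (i j : Fin n) (z : ℂ) (v : P) :
    d (Matrix.single i j z) v = (z.re : ℂ) • d (Matrix.single i j 1) v +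
      (z.im : ℂ) • d (Matrix.single i j Complex.I) v := by
  rw [← hd.smul, ← hd.smul, ← hd.add, Matrix.smul_single, Matrix.smul_single,
    ← Matrix.single_add]
  congr 2
  congr 1
  apply Complex.ext <;> simp

private theorem rlr_neg (π : GLn n →* (P →L[ℂ] P)) (d : Mat n → P →L[ℂ] P) (hd : Der π d)
    (i j : Fin n) (v : P) :
    d (Matrix.single i j (-1)) v = - d (Matrix.single i j 1) v := by
  rw [rlr_single π d hd i j (-1) v]
  simp

theorem d_eq_sum (π : GLn n →* (P →L[ℂ] P)) (d : Mat n → P →L[ℂ] P) (hd : Der π d)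
    (Y : Mat n) (v : P) :
    d Y v = ∑ i, ∑ j, (Y i j • Lo d i j v + conj (Y i j) • Ro d i j v) := by
  have h1 : Y = ∑ i, ∑ j, Matrix.single i j (Y i j) := Matrix.matrix_eq_sum_single Y
  conv_lhs => rw [h1]
  rw [rlr_sum π d hd]
  refine Finset.sum_congr rfl fun i _ => ?_
  rw [rlr_sum π d hd]
  refine Finset.sum_congr rfl fun j _ => ?_
  rw [rlr_single π d hd i j (Y i j) v]
  unfold Lo Ro
  simp only [_root_.smul_apply, _root_.sub_apply, _root_.add_apply]
  set z := Y i j
  set x := d (Matrix.single i j 1) v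
  set y := d (Matrix.single i j Complex.I) v
  have hr : (z.re : ℂ) = (1 / 2) * (z + conj z) := by
    rw [Complex.add_conj]
    push_cast
    ring
  have hi : (z.im : ℂ) = -(1 / 2) * Complex.I * (z - conj z) := by
    rw [Complex.sub_conj]
    have : Complex.I * Complex.I = -1 := Complex.I_mul_I
    push_cast
    linear_combination (z.im : ℂ) * this
  rw [hr, hi]
  module

private theorem rlr_br (π : GLn n →* (P →L[ℂ] P)) (d : Mat n → P →L[ℂ] P) (hd : Der π d)
    (i j k l : Fin n) (a b : ℂ) (v : P) :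
    d (Matrix.single i j a) (d (Matrix.single k l b) v) -
      d (Matrix.single k l b) (d (Matrix.single i j a) v) =
    (if j = k then d (Matrix.single i l (a * b)) v else 0) -
      (if l = i then d (Matrix.single k j (a * b)) v else 0) := by
  rw [hd.br]
  have hz : d 0 v = 0 := by
    have h := hd.smul 0 (0 : Mat n) v
    rw [zero_smul, Complex.ofReal_zero, zero_smul] at h
    exact h
  have hsub : ∀ A B : Mat n, d (A - B) v = d A v - d B v := by
    intro A B
    have h := hd.add A ((-1 : ℝ) • B) v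
    rw [hd.smul, Complex.ofReal_neg, Complex.ofReal_one, neg_one_smul, neg_one_smul,
      ← sub_eq_add_neg, ← sub_eq_add_neg] at h
    exact h
  rw [hsub]
  congr 1
  · by_cases h : j = k
    · subst h
      rw [if_pos rfl, Matrix.single_mul_single_same]
    · rw [if_neg h, Matrix.single_mul_single_of_ne _ _ _ _ h, hz]
  · by_cases h : l = i
    · subst h
      rw [if_pos rfl, Matrix.single_mul_single_same, mul_comm]
    · rw [if_neg h, Matrix.single_mul_single_of_ne _ _ _ _ h, hz]

private theorem rlr_all (π : GLn n →* (P →L[ℂ] P)) (d : Mat n → P →L[ℂ] P) (hd : Der π d)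
    (i j k l : Fin n) (v : P) : ∃ c c' : P,
    (d (Matrix.single i j 1) (d (Matrix.single k l 1) v) -
      d (Matrix.single k l 1) (d (Matrix.single i j 1) v) = c) ∧
    (d (Matrix.single i j 1) (d (Matrix.single k l Complex.I) v) -
      d (Matrix.single k l Complex.I) (d (Matrix.single i j 1) v) = c') ∧
    (d (Matrix.single i j Complex.I) (d (Matrix.single k l 1) v) -
      d (Matrix.single k l 1) (d (Matrix.single i j Complex.I) v) = c') ∧
    (d (Matrix.single i j Complex.I) (d (Matrix.single k l Complex.I) v) -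
      d (Matrix.single k l Complex.I) (d (Matrix.single i j Complex.I) v) = -c) ∧
    (if j = k then Lo d i l v else 0) - (if l = i then Lo d k j v else 0) =
      (1 / 2 : ℂ) • (c - Complex.I • c') ∧
    (if j = k then Ro d i l v else 0) - (if l = i then Ro d k j v else 0) =
      (1 / 2 : ℂ) • (c + Complex.I • c') := by
  refine ⟨_, _, rfl, rfl, ?_, ?_, ?_, ?_⟩
  · rw [rlr_br π d hd, rlr_br π d hd, mul_one, one_mul]
  · rw [rlr_br π d hd, rlr_br π d hd, mul_one, Complex.I_mul_I, rlr_neg π d hd, rlr_neg π d hd]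
    split_ifs <;> simp
    abel
  · rw [rlr_br π d hd, rlr_br π d hd, mul_one, one_mul]
    unfold Lo
    simp only [_root_.smul_apply, _root_.sub_apply]
    split_ifs <;> module
  · rw [rlr_br π d hd, rlr_br π d hd, mul_one, one_mul]
    unfold Ro
    simp only [_root_.smul_apply, _root_.add_apply]
    split_ifs <;> module

private theorem rlr_I (x : P) : Complex.I • Complex.I • x = -x := by
  rw [smul_smul, Complex.I_mul_I, neg_one_smul]

theorem Lo_Lo (π : GLn n →* (P →L[ℂ] P)) (d : Mat n → P →L[ℂ] P) (hd : Der π d)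
    (i j k l : Fin n) (v : P) : Lo d i j (Lo d k l v) - Lo d k l (Lo d i j v) =
      (if j = k then Lo d i l v else 0) - (if l = i then Lo d k j v else 0) := by
  obtain ⟨c, c', h1, h2, h3, h4, h5, -⟩ := rlr_all π d hd i j k l v
  rw [h5]
  unfold Lo
  simp only [_root_.smul_apply, _root_.sub_apply, map_smul, map_sub]
  linear_combination (norm := module) (1 / 4 : ℂ) • h1 - (Complex.I / 4) • h2 - (Complex.I / 4) • h3 +
    (Complex.I * Complex.I / 4) • h4 - (1 / 4 : ℂ) • rlr_I c

theorem Ro_Ro (π : GLn n →* (P →L[ℂ] P)) (d : Mat n → P →L[ℂ] P) (hd : Der π d)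
    (i j k l : Fin n) (v : P) : Ro d i j (Ro d k l v) - Ro d k l (Ro d i j v) =
      (if j = k then Ro d i l v else 0) - (if l = i then Ro d k j v else 0) := by
  obtain ⟨c, c', h1, h2, h3, h4, -, h5⟩ := rlr_all π d hd i j k l v
  rw [h5]
  unfold Ro
  simp only [_root_.smul_apply, _root_.add_apply, map_smul, map_add]
  linear_combination (norm := module) (1 / 4 : ℂ) • h1 + (Complex.I / 4) • h2 + (Complex.I / 4) • h3 +
    (Complex.I * Complex.I / 4) • h4 - (1 / 4 : ℂ) • rlr_I c

theorem Lo_Ro (π : GLn n →* (P →L[ℂ] P)) (d : Mat n → P →L[ℂ] P) (hd : Der π d)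
    (i j k l : Fin n) (v : P) : Lo d i j (Ro d k l v) = Ro d k l (Lo d i j v) := by
  obtain ⟨c, c', h1, h2, h3, h4, -, -⟩ := rlr_all π d hd i j k l v
  unfold Lo Ro
  simp only [_root_.smul_apply, _root_.add_apply, _root_.sub_apply, map_smul, map_add, map_sub]
  linear_combination (norm := module) (1 / 4 : ℂ) • h1 + (Complex.I / 4) • h2 - (Complex.I / 4) • h3 -
    (Complex.I * Complex.I / 4) • h4 + (1 / 4 : ℂ) • rlr_I c

private theorem rlr_aa (t : ℝ) : ((aa n t : GLn n) : Mat n) =
    Matrix.diagonal fun i : Fin n => (Real.exp (t * ((n : ℝ) - (i : ℕ))) : ℂ) := by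
  unfold aa H0
  rw [coe_expG]
  have h1 : t • Matrix.diagonal (fun i : Fin n => (n : ℂ) - ((i : ℕ) : ℂ)) =
      Matrix.diagonal (t • fun i : Fin n => (n : ℂ) - ((i : ℕ) : ℂ)) := by
    rw [← Matrix.diagonal_smul]
  rw [h1, Matrix.exp_diagonal]
  congr 1
  funext i
  rw [Pi.coe_exp, ← Complex.exp_eq_exp_ℂ, Pi.smul_apply, Complex.real_smul]
  push_cast
  rfl

private theorem rlr_conj (t : ℝ) (i j : Fin n) (z : ℂ) :
    ((aa n t : GLn n) : Mat n) * Matrix.single i j z * (((aa n t)⁻¹ : GLn n) : Mat n) =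
      (Real.exp (t * ((j : ℕ) - (i : ℕ) : ℝ))) • Matrix.single i j z := by
  rw [Units.mul_inv_eq_iff_eq_mul, rlr_aa, Matrix.smul_single]
  ext a b
  rw [Matrix.diagonal_mul, Matrix.mul_diagonal]
  by_cases hab : i = a ∧ j = b
  · obtain ⟨rfl, rfl⟩ := hab
    rw [Matrix.single_apply_same, Matrix.single_apply_same, Complex.real_smul, mul_right_comm,
      ← Complex.ofReal_mul, ← Real.exp_add]
    congr 3
    ring
  · rw [Matrix.single_apply_of_ne _ _ _ _ _ hab, Matrix.single_apply_of_ne _ _ _ _ _ hab,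
      mul_zero, zero_mul]

theorem aa_Lo (π : GLn n →* (P →L[ℂ] P)) (d : Mat n → P →L[ℂ] P) (hd : Der π d)
    (i j : Fin n) (t : ℝ) (v : P) : π (aa n t) (Lo d i j v) =
      (Real.exp (t * ((j : ℕ) - (i : ℕ) : ℝ)) : ℂ) • Lo d i j (π (aa n t) v) := by
  unfold Lo
  simp only [_root_.smul_apply, _root_.sub_apply, map_smul, map_sub]
  rw [hd.Ad, hd.Ad, rlr_conj, rlr_conj, hd.smul, hd.smul]
  module

theorem aa_Ro (π : GLn n →* (P →L[ℂ] P)) (d : Mat n → P →L[ℂ] P) (hd : Der π d)
    (i j : Fin n) (t : ℝ) (v : P) : π (aa n t) (Ro d i j v) =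
      (Real.exp (t * ((j : ℕ) - (i : ℕ) : ℝ)) : ℂ) • Ro d i j (π (aa n t) v) := by
  unfold Ro
  simp only [_root_.smul_apply, _root_.add_apply, map_smul, map_add]
  rw [hd.Ad, hd.Ad, rlr_conj, rlr_conj, hd.smul, hd.smul]
  module

end

end Pool.Agent.Work.MP_dd0ddf_al.AR
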