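import Pool.Agent.Work.MP_dd0ddf_al.AR.KDx
import Pool.Agent.Work.MP_dd0ddf_al.AR.RLR

/-!
# MP_dd0ddf_al, archimedean part, block R, module ANbf


The coefficients of `nbar V`.

PROOF. `aa_Lo` (with `i = a`, `j = b`): `π(aa t)(Lo_ab v) = e^(-t(a-b)) Lo_ab (π(aa t) v)`, `Lo_ab = (Lo_ab - Ro_ba) + Ro_ba`, and by
`aa_Ro` (with `i = b`, `j = a`) `π(aa t)(Ro_ba v) = e^(t(a-b)) Ro_ba(π(aa t)v)`, i.e. `Ro_ba (π(aa t)v) = e^(-t(a-b)) π(aa t)(Ro_ba v)`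
(multiply by the inverse scalar).  Apply `l`.  The same with `Lo`, `Ro` exchanged: `Ro_ab = -(Lo_ba - Ro_ab) + Lo_ba`.
`d_H0`: `d_eq_sum` for `Y = H0 n` (diagonal with real entries, `conj = id`).
`nbV_le`: `VK_LR`.
-/

set_option linter.unusedSectionVars false

namespace Pool.Agent.Work.MP_dd0ddf_al.AR

open scoped SchwartzMap Matrix.Norms.Elementwise ComplexConjugate ContDiff Topology
open Matrix MeasureTheory Filter Asymptotics

noncomputable section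

variable {n : ℕ} {P : Type*} [AddCommGroup P] [Module ℂ P] [UniformSpace P] [IsUniformAddGroup P]
  [ContinuousSMul ℂ P] [PolynormableSpace ℂ P] [T2Space P] [CompleteSpace P]
  [FirstCountableTopology P]

theorem nbf_L (π : GLn n →* (P →L[ℂ] P)) (d : Mat n → P →L[ℂ] P) (hd : Der π d) (a b : Fin n)
    (l : P →L[ℂ] ℂ) (v : P) (t : ℝ) : l (π (aa n t) (Lo d a b v)) =
      (Real.exp (-(t * ((a : ℕ) - (b : ℕ) : ℝ))) : ℂ) *
        (l.comp (Lo d a b - Ro d b a)) (π (aa n t) v) +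
      (Real.exp (-(2 * t * ((a : ℕ) - (b : ℕ) : ℝ))) : ℂ) * l (π (aa n t) (Ro d b a v)) := by
  rw [aa_Lo π d hd a b t v, aa_Ro π d hd b a t v, map_smul, map_smul, smul_eq_mul, smul_eq_mul]
  have e1 : (l.comp (Lo d a b - Ro d b a)) (π (aa n t) v) =
      l (Lo d a b (π (aa n t) v)) - l (Ro d b a (π (aa n t) v)) := by
    rw [ContinuousLinearMap.comp_apply, _root_.sub_apply, map_sub]
  rw [e1, ← mul_assoc, ← Complex.ofReal_mul, ← Real.exp_add]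
  have e2 : t * ((b : ℕ) - (a : ℕ) : ℝ) = -(t * ((a : ℕ) - (b : ℕ) : ℝ)) := by ring
  have e3 : -(2 * t * ((a : ℕ) - (b : ℕ) : ℝ)) + t * ((a : ℕ) - (b : ℕ) : ℝ) =
      -(t * ((a : ℕ) - (b : ℕ) : ℝ)) := by ring
  rw [e2, e3]
  ring

theorem nbf_R (π : GLn n →* (P →L[ℂ] P)) (d : Mat n → P →L[ℂ] P) (hd : Der π d) (a b : Fin n)
    (l : P →L[ℂ] ℂ) (v : P) (t : ℝ) : l (π (aa n t) (Ro d a b v)) =
      -((Real.exp (-(t * ((a : ℕ) - (b : ℕ) : ℝ))) : ℂ) *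
        (l.comp (Lo d b a - Ro d a b)) (π (aa n t) v)) +
      (Real.exp (-(2 * t * ((a : ℕ) - (b : ℕ) : ℝ))) : ℂ) * l (π (aa n t) (Lo d b a v)) := by
  rw [aa_Ro π d hd a b t v, aa_Lo π d hd b a t v, map_smul, map_smul, smul_eq_mul, smul_eq_mul]
  have e1 : (l.comp (Lo d b a - Ro d a b)) (π (aa n t) v) =
      l (Lo d b a (π (aa n t) v)) - l (Ro d a b (π (aa n t) v)) := by
    rw [ContinuousLinearMap.comp_apply, _root_.sub_apply, map_sub]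
  have e4 : ((Real.exp (-(2 * t * ((a : ℕ) - (b : ℕ) : ℝ))) : ℝ) : ℂ) *
      (((Real.exp (t * ((a : ℕ) - (b : ℕ) : ℝ)) : ℝ) : ℂ) * l (Lo d b a (π (aa n t) v))) =
      ((Real.exp (-(2 * t * ((a : ℕ) - (b : ℕ) : ℝ)) + t * ((a : ℕ) - (b : ℕ) : ℝ)) : ℝ) : ℂ) *
        l (Lo d b a (π (aa n t) v)) := by
    rw [Real.exp_add, Complex.ofReal_mul]
    ring
  rw [e1, e4]
  have e2 : t * ((b : ℕ) - (a : ℕ) : ℝ) = -(t * ((a : ℕ) - (b : ℕ) : ℝ)) := by ring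
  have e3 : -(2 * t * ((a : ℕ) - (b : ℕ) : ℝ)) + t * ((a : ℕ) - (b : ℕ) : ℝ) =
      -(t * ((a : ℕ) - (b : ℕ) : ℝ)) := by ring
  rw [e2, e3]
  ring

theorem d_H0 (π : GLn n →* (P →L[ℂ] P)) (d : Mat n → P →L[ℂ] P) (hd : Der π d) (v : P) :
    d (H0 n) v = ∑ i : Fin n, ((n : ℂ) - (i : ℕ)) • (Lo d i i v + Ro d i i v) := by
  rw [d_eq_sum π d hd]
  refine Finset.sum_congr rfl fun i _ => ?_
  rw [Finset.sum_eq_single i]
  · have h : H0 n i i = (n : ℂ) - ((i : ℕ) : ℂ) := by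
      unfold H0
      rw [Matrix.diagonal_apply_eq]
    rw [h, smul_add]
    simp
  · intro j _ hj
    have h : H0 n i j = 0 := by
      unfold H0
      rw [Matrix.diagonal_apply_ne _ (Ne.symm hj)]
    rw [h]
    simp
  · intro h
    exact absurd (Finset.mem_univ i) h

theorem nbV_le (π : GLn n →* (P →L[ℂ] P)) (d : Mat n → P →L[ℂ] P) (hd : Der π d) :
    nbV π d ≤ VK π := by
  refine Submodule.span_le.mpr ?_
  rintro x ⟨i, j, -, v, hv, rfl | rfl⟩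
  · exact (VK_LR π d hd i j hv).1
  · exact (VK_LR π d hd i j hv).2

end

end Pool.Agent.Work.MP_dd0ddf_al.AR
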