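import Pool.Agent.Work.MP_dd0ddf_al.AR.RKDefs

/-!
# MP_dd0ddf_al, archimedean part, block R, module KPc


`PK n d` is finite dimensional, with dimension polynomial in `d`.

PROOF. If `totalDegree q ≤ d`, every monomial of `q` has all exponents `≤ d`, so
`f k = ∑_m coeff m q * ∏ x, (evv k x)^(m x)` lies in the span of the functions
`k ↦ ∏ x : Vars n, (evv k x)^(m x : ℕ)`, `m : Vars n → Fin (d+1)`: a finite family of
`(d+1)^(Fintype.card (Vars n))` functions.  So `PK n d` is contained in a finite dimensional space of dimension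
`≤ (d+1)^M`, `M = Fintype.card (Vars n)` (`finrank_span_le_card`, `Submodule.finrank_mono`,
`Submodule.finiteDimensional_of_le`).
-/

set_option linter.unusedSectionVars false

namespace Pool.Agent.Work.MP_dd0ddf_al.AR

open scoped SchwartzMap Matrix.Norms.Elementwise ComplexConjugate ContDiff Topology
open Matrix MeasureTheory Filter Asymptotics

noncomputable section

variable {n : ℕ}

private def kpcF (n d : ℕ) (m : Vars n → Fin (d + 1)) : KU n → ℂ :=
  fun k => ∏ x, evv ((k : GLn n) : Mat n) x ^ (m x : ℕ)

private theorem kpc_le (n d : ℕ) : PK n d ≤ Submodule.span ℂ (Set.range (kpcF n d)) := by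
  rintro f ⟨q, hq, hf⟩
  have h1 : ∀ m ∈ q.support, ∀ x, m x < d + 1 := by
    intro m hm x
    have h2 := (MvPolynomial.le_totalDegree hm).trans hq
    by_cases h0 : m x = 0
    · omega
    · have h3 : m x ≤ m.sum fun _ a => a :=
        Finset.single_le_sum (f := fun x => m x) (fun _ _ => Nat.zero_le _)
          (Finsupp.mem_support_iff.2 h0)
      omega
  have h2 : f = ∑ m ∈ q.support.attach, (MvPolynomial.coeff m.1 q) •
      kpcF n d (fun x => ⟨m.1 x, h1 m.1 m.2 x⟩) := by
    funext k
    rw [hf k, MvPolynomial.eval_eq', ← Finset.sum_attach, Finset.sum_apply]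
    rfl
  rw [h2]
  exact Submodule.sum_mem _ fun m _ =>
    Submodule.smul_mem _ _ (Submodule.subset_span (Set.mem_range_self _))

private theorem kpc_fin (n d : ℕ) :
    FiniteDimensional ℂ (Submodule.span ℂ (Set.range (kpcF n d))) :=
  FiniteDimensional.span_of_finite ℂ (Set.finite_range _)

instance PK_finite (n d : ℕ) : FiniteDimensional ℂ (PK n d) := by
  have := kpc_fin n d
  exact Submodule.finiteDimensional_of_le (kpc_le n d)

theorem PK_finrank (n : ℕ) : ∃ M : ℕ, ∀ d : ℕ, Module.finrank ℂ (PK n d) ≤ (d + 1) ^ M := by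
  refine ⟨Fintype.card (Vars n), fun d => ?_⟩
  have := kpc_fin n d
  refine (Submodule.finrank_mono (kpc_le n d)).trans ?_
  refine (finrank_range_le_card (R := ℂ) (kpcF n d)).trans ?_
  rw [Fintype.card_fun, Fintype.card_fin]

end

end Pool.Agent.Work.MP_dd0ddf_al.AR
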