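import Pool.Agent.Work.MP_dd0ddf_al.AR.RKDefs

/-!
# MP_dd0ddf_al, archimedean part, block R, module KPd


Elements of `PK n d` are continuous functions on the compact group `K`, hence bounded, and limits.

PROOF. `k ↦ evv k x` is continuous (`continuous_coeK`, `Complex.continuous_conj`), so is `eval (evv k) q`
(`MvPolynomial.continuous_eval` composed with a continuous map into `Vars n → ℂ`).  Bounded: compactness
(`IsCompact.exists_bound_of_continuousOn` on `univ`).
`PK_lim`: `PK n d` is a finite dimensional subspace of the Hausdorff topological vector space `KU n → ℂ` (product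
topology), so it is closed (`Submodule.closed_of_finiteDimensional`); take `FiniteDimensional` as an explicit
hypothesis `h`; `tendsto_pi_nhds`, `IsClosed.mem_of_tendsto`.
-/

set_option linter.unusedSectionVars false

namespace Pool.Agent.Work.MP_dd0ddf_al.AR

open scoped SchwartzMap Matrix.Norms.Elementwise ComplexConjugate ContDiff Topology
open Matrix MeasureTheory Filter Asymptotics

noncomputable section

variable {n : ℕ}

theorem PK_cont {d : ℕ} {f : KU n → ℂ} (hf : f ∈ PK n d) : Continuous f := by
  obtain ⟨q, -, hf⟩ := hf
  have h1 : f = fun k : KU n => MvPolynomial.eval (evv ((k : GLn n) : Mat n)) q := funext hf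
  rw [h1]
  have h2 : Continuous fun k : KU n => evv ((k : GLn n) : Mat n) := by
    refine continuous_pi fun i => ?_
    rcases i with p | p
    · exact (continuous_apply p.2).comp ((continuous_apply p.1).comp continuous_coeK)
    · exact Complex.continuous_conj.comp
        ((continuous_apply p.2).comp ((continuous_apply p.1).comp continuous_coeK))
  exact (MvPolynomial.continuous_eval q).comp h2

theorem bdd_of_cont {f : KU n → ℂ} (hf : Continuous f) : ∃ B : ℝ, ∀ k, ‖f k‖ ≤ B := by
  obtain ⟨B, hB⟩ := isCompact_univ.exists_bound_of_continuousOn (hf.continuousOn (s := Set.univ))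
  exact ⟨B, fun k => hB k (Set.mem_univ k)⟩

theorem PK_lim {d : ℕ} (h : FiniteDimensional ℂ (PK n d)) {ι : Type*} {F : Filter ι} [F.NeBot]
    {f : ι → KU n → ℂ} {g : KU n → ℂ} (hf : ∀ i, f i ∈ PK n d)
    (hg : ∀ k, Tendsto (fun i => f i k) F (𝓝 (g k))) : g ∈ PK n d := by
  have hc : IsClosed ((PK n d : Submodule ℂ (KU n → ℂ)) : Set (KU n → ℂ)) :=
    Submodule.closed_of_finiteDimensional _
  have ht : Tendsto f F (𝓝 g) := tendsto_pi_nhds.2 hg
  exact hc.mem_of_tendsto ht (Filter.Eventually.of_forall hf)

end

end Pool.Agent.Work.MP_dd0ddf_al.AR
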