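import Pool.Agent.Work.MP_dd0ddf_al.AR.KPa
import Pool.Agent.Work.MP_dd0ddf_al.AR.KPc
import Pool.Agent.Work.MP_dd0ddf_al.AR.KPd
import Pool.Agent.Work.MP_dd0ddf_al.AR.RLR

/-!
# MP_dd0ddf_al, archimedean part, block R, module KKx


`K` and `k_ℂ` (spanned by `Lo_ij - Ro_ji`) preserve `Xd π D` and `Yd π D`.

PROOF. `Xd_K`, `Yd_K`: `l(π k (π k0 v)) = l(π (k k0) v)` and `(l ∘ π k0)(π k v) = l(π (k0 k) v)`: `PK_right`, `PK_left`.
For `Z` with `Zᴴ = -Z`: `expG (τ • Z) ∈ KU n` for all real `τ` (`exp(τZ)^* exp(τZ) = exp(-τZ) exp(τZ) = 1`,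
`Matrix.exp_conjTranspose`, `Matrix.exp_add_of_commute` or `NormedSpace.exp_neg`; `mkK`).  `l(π k (d Z v))` is the limit
of `τ⁻¹ (l(π k (π (exp τZ) v)) - l(π k v))`, functions of `k` in `PK n D`; `PK_lim` (with `PK_finite`).  The same for
`(l ∘ d Z)(π k v) = lim τ⁻¹ (l(π (exp τZ) (π k v)) - l(π k v))`.  For `i ≠ j` (or all `i, j`): with `Z1 = E_ij - E_ji`,
`Z2 = I (E_ij + E_ji)`: `d Z1 = (Lo_ij - Ro_ji) - (Lo_ji - Ro_ij)`, `d Z2 = I ((Lo_ij - Ro_ji) + (Lo_ji - Ro_ij))`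
(`d_eq_sum` or directly from the definitions of `Lo`, `Ro` and additivity), so
`Lo_ij - Ro_ji = (1/2)(d Z1 - I d Z2)`.
-/

set_option linter.unusedSectionVars false

namespace Pool.Agent.Work.MP_dd0ddf_al.AR

open scoped SchwartzMap Matrix.Norms.Elementwise ComplexConjugate ContDiff Topology
open Matrix MeasureTheory Filter Asymptotics

noncomputable section

variable {n : ℕ} {P : Type*} [AddCommGroup P] [Module ℂ P] [UniformSpace P] [IsUniformAddGroup P]
  [ContinuousSMul ℂ P] [PolynormableSpace ℂ P] [T2Space P] [CompleteSpace P]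
  [FirstCountableTopology P]

theorem Xd_K (π : GLn n →* (P →L[ℂ] P)) (k : KU n) {D : ℕ} {v : P} (hv : v ∈ Xd π D) :
    π (k : GLn n) v ∈ Xd π D := by
  intro l
  have h := PK_right (hv l) k
  have h1 : (fun k' : KU n => l (π ((k' * k : KU n) : GLn n) v)) =
      fun k' : KU n => l (π (k' : GLn n) (π (k : GLn n) v)) := by
    funext k'
    rw [Subgroup.coe_mul, map_mul]
    rfl
  rw [← h1]
  exact h

theorem Yd_K (π : GLn n →* (P →L[ℂ] P)) (k : KU n) {D : ℕ} {l : P →L[ℂ] ℂ} (hl : l ∈ Yd π D) :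
    l.comp (π (k : GLn n)) ∈ Yd π D := by
  intro v
  have h := PK_left (hl v) k
  have h1 : (fun k' : KU n => l (π ((k * k' : KU n) : GLn n) v)) =
      fun k' : KU n => (l.comp (π (k : GLn n))) (π (k' : GLn n) v) := by
    funext k'
    rw [Subgroup.coe_mul, map_mul]
    rfl
  rw [← h1]
  exact h

theorem expG_mem_KU (Z : Mat n) (hZ : Zᴴ = -Z) (τ : ℝ) : expG (τ • Z) ∈ KU n := by
  have h1 : (NormedSpace.exp (τ • Z))ᴴ * NormedSpace.exp (τ • Z) = 1 := by
    rw [← Matrix.exp_conjTranspose, ← Matrix.exp_add_of_commute]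
    · rw [Matrix.conjTranspose_smul, hZ, smul_neg, star_trivial, neg_add_cancel,
        NormedSpace.exp_zero]
    · rw [Matrix.conjTranspose_smul, hZ, smul_neg, star_trivial]
      exact (Commute.refl (τ • Z)).neg_left
  have h2 : ((mkK (NormedSpace.exp (τ • Z)) h1 : KU n) : GLn n) = expG (τ • Z) := by
    apply Units.ext
    rw [coe_mkK, coe_expG]
  rw [← h2]
  exact (mkK (NormedSpace.exp (τ • Z)) h1).2

omit [CompleteSpace P] [FirstCountableTopology P] [PolynormableSpace ℂ P] [T2Space P] in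
private theorem kkx_LR (π : GLn n →* (P →L[ℂ] P)) (d : Mat n → P →L[ℂ] P) (hd : Der π d)
    (i j : Fin n) (v : P) : Lo d i j v - Ro d j i v =
      (1 / 2 : ℂ) • (d (Matrix.single i j 1 - Matrix.single j i 1) v -
        Complex.I • d (Matrix.single i j Complex.I + Matrix.single j i Complex.I) v) := by
  have hneg : ∀ (Y : Mat n) (v : P), d (-Y) v = - d Y v := by
    intro Y v
    have h := hd.smul (-1) Y v
    rw [neg_one_smul] at h
    rw [h, Complex.ofReal_neg, Complex.ofReal_one, neg_one_smul]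
  have h1 : d (Matrix.single i j 1 - Matrix.single j i 1) v =
      d (Matrix.single i j 1) v - d (Matrix.single j i 1) v := by
    rw [sub_eq_add_neg, hd.add, hneg, sub_eq_add_neg]
  rw [h1, hd.add]
  change (1 / 2 : ℂ) • (d (Matrix.single i j 1) v - Complex.I • d (Matrix.single i j Complex.I) v) -
    (1 / 2 : ℂ) • (d (Matrix.single j i 1) v + Complex.I • d (Matrix.single j i Complex.I) v) = _
  module

private theorem kkx_Z1 (i j : Fin n) :
    (Matrix.single i j (1 : ℂ) - Matrix.single j i 1)ᴴ =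
      -(Matrix.single i j (1 : ℂ) - Matrix.single j i 1) := by
  rw [Matrix.conjTranspose_sub, Matrix.conjTranspose_single, Matrix.conjTranspose_single,
    star_one, neg_sub]

private theorem kkx_Z2 (i j : Fin n) :
    (Matrix.single i j Complex.I + Matrix.single j i Complex.I)ᴴ =
      -(Matrix.single i j Complex.I + Matrix.single j i Complex.I) := by
  have h : star Complex.I = -Complex.I := Complex.conj_I
  rw [Matrix.conjTranspose_add, Matrix.conjTranspose_single, Matrix.conjTranspose_single, h,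
    neg_add, ← Matrix.single_neg, ← Matrix.single_neg, add_comm]

private theorem kkx_X (π : GLn n →* (P →L[ℂ] P)) (d : Mat n → P →L[ℂ] P) (hd : Der π d)
    {Z : Mat n} (hZ : Zᴴ = -Z) {D : ℕ} {v : P} (hv : v ∈ Xd π D) : d Z v ∈ Xd π D := by
  intro l
  refine PK_lim (PK_finite n D) (F := 𝓝[≠] (0 : ℝ))
    (f := fun τ k => l (π (k : GLn n) (((τ : ℂ)⁻¹) • (π (expG (τ • Z)) v - v)))) ?_ ?_
  · intro τ
    have h1 : ((τ : ℂ)⁻¹) • (π (expG (τ • Z)) v - v) ∈ Xd π D :=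
      (Xd π D).smul_mem _ ((Xd π D).sub_mem (Xd_K π ⟨_, expG_mem_KU Z hZ τ⟩ hv) hv)
    exact h1 l
  · intro k
    exact ((l.comp (π (k : GLn n))).continuous.tendsto _).comp (hd.lim Z v)

private theorem kkx_Y (π : GLn n →* (P →L[ℂ] P)) (d : Mat n → P →L[ℂ] P) (hd : Der π d)
    {Z : Mat n} (hZ : Zᴴ = -Z) {D : ℕ} {l : P →L[ℂ] ℂ} (hl : l ∈ Yd π D) :
    l.comp (d Z) ∈ Yd π D := by
  intro v
  refine PK_lim (PK_finite n D) (F := 𝓝[≠] (0 : ℝ))
    (f := fun τ k => (((τ : ℂ)⁻¹) • (l.comp (π (expG (τ • Z))) - l)) (π (k : GLn n) v)) ?_ ?_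
  · intro τ
    have h1 : ((τ : ℂ)⁻¹) • (l.comp (π (expG (τ • Z))) - l) ∈ Yd π D :=
      (Yd π D).smul_mem _ ((Yd π D).sub_mem (Yd_K π ⟨_, expG_mem_KU Z hZ τ⟩ hl) hl)
    exact h1 v
  · intro k
    have h1 := (l.continuous.tendsto _).comp (hd.lim Z (π (k : GLn n) v))
    refine h1.congr fun τ => ?_
    change l (((τ : ℂ)⁻¹) • (π (expG (τ • Z)) (π (k : GLn n) v) - π (k : GLn n) v)) =
      ((τ : ℂ)⁻¹) • (l (π (expG (τ • Z)) (π (k : GLn n) v)) - l (π (k : GLn n) v))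
    rw [map_smul, map_sub]

theorem Xd_k (π : GLn n →* (P →L[ℂ] P)) (d : Mat n → P →L[ℂ] P) (hd : Der π d) (i j : Fin n)
    {D : ℕ} {v : P} (hv : v ∈ Xd π D) : Lo d i j v - Ro d j i v ∈ Xd π D := by
  rw [kkx_LR π d hd]
  exact (Xd π D).smul_mem _ ((Xd π D).sub_mem (kkx_X π d hd (kkx_Z1 i j) hv)
    ((Xd π D).smul_mem _ (kkx_X π d hd (kkx_Z2 i j) hv)))

theorem Yd_k (π : GLn n →* (P →L[ℂ] P)) (d : Mat n → P →L[ℂ] P) (hd : Der π d) (i j : Fin n)
    {D : ℕ} {l : P →L[ℂ] ℂ} (hl : l ∈ Yd π D) :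
    l.comp (Lo d i j - Ro d j i) ∈ Yd π D := by
  have h1 : l.comp (Lo d i j - Ro d j i) = (1 / 2 : ℂ) •
      (l.comp (d (Matrix.single i j 1 - Matrix.single j i 1)) -
        Complex.I • l.comp (d (Matrix.single i j Complex.I + Matrix.single j i Complex.I))) := by
    ext v
    change l (Lo d i j v - Ro d j i v) = (1 / 2 : ℂ) •
      (l (d (Matrix.single i j 1 - Matrix.single j i 1) v) -
        Complex.I • l (d (Matrix.single i j Complex.I + Matrix.single j i Complex.I) v))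
    rw [kkx_LR π d hd, map_smul, map_sub, map_smul]
  rw [h1]
  exact (Yd π D).smul_mem _ ((Yd π D).sub_mem (kkx_Y π d hd (kkx_Z1 i j) hl)
    ((Yd π D).smul_mem _ (kkx_Y π d hd (kkx_Z2 i j) hl)))

end

end Pool.Agent.Work.MP_dd0ddf_al.AR
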