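import Pool.Agent.Work.MP_dd0ddf_al.AR.ACon
import Pool.Agent.Work.MP_dd0ddf_al.AR.ANbf
import Pool.Agent.Work.MP_dd0ddf_al.AR.AGro
import Pool.Agent.Work.MP_dd0ddf_al.AR.KKx

/-!
# MP_dd0ddf_al, archimedean part, block R, module ASysD


The qualitative systems: functionals in `Yd π D` (for fixed `D`), and in `YK π`.

PROOF. Both with `CC = allC`.  `der`: `hd.deriv (f i) (H0 n) v t` (`aa n s = expG (s • H0 n)`; `(d (H0 n)).toLinearMap`).  `init`: take `κ i = |B 0 i v|`.  `nonneg, add,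
smul`: clear.  `nbV`: `nbV_le`.  `nbe`: let all coefficients be `O(e^(Nt))`.  For a generator `Lo_ab v`, `b < a`, `v ∈ VK`: by `nbf_L` the coefficient at
`l` is `e^(-t(a-b)) l'(π(aa t)v) + e^(-2t(a-b)) l(π(aa t)(Ro_ba v))` with `l' = l ∘ (Lo_ab - Ro_ba)` again in `Yd π D` (`Yd_k`) (for `YK`: `mem_YK`
and `Yd_k`), and `a - b ≥ 1`: so it is bounded by `(κ(l') + κ''(l)) e^((N-1)t)` where `κ` is the bound for `v` (at the index `l'`) and `κ''` the
bound for `Ro_ba v ∈ VK` (`e^(-2t(a-b)) ≤ e^(-t)`).  The same for `Ro_ab v`.  Extend to the span (`Submodule.span_induction`: sums, multiples).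
`tri`: from `hL`, `hR` and `d_H0`: `d (H0) w_j = ∑ (n-i)(Lo_ii w_j + Ro_ii w_j) ≡ ∑ (n-i)(α i j + β i j) w_j`.
`wV`, `gen`: hypotheses.
-/

set_option linter.unusedSectionVars false

namespace Pool.Agent.Work.MP_dd0ddf_al.AR

open scoped SchwartzMap Matrix.Norms.Elementwise ComplexConjugate ContDiff Topology
open Matrix MeasureTheory Filter Asymptotics

noncomputable section

variable {n : ℕ} {P : Type*} [AddCommGroup P] [Module ℂ P] [UniformSpace P] [IsUniformAddGroup P]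
  [ContinuousSMul ℂ P] [PolynormableSpace ℂ P] [T2Space P] [CompleteSpace P]
  [FirstCountableTopology P]

private theorem asd_exp {a b : Fin n} (hab : b < a) {t : ℝ} (ht : 0 ≤ t) :
    Real.exp (-(t * ((a : ℕ) - (b : ℕ) : ℝ))) ≤ Real.exp (-t) ∧
      Real.exp (-(2 * t * ((a : ℕ) - (b : ℕ) : ℝ))) ≤ Real.exp (-t) := by
  have h1 : (1 : ℝ) ≤ ((a : ℕ) - (b : ℕ) : ℝ) := by
    have h2 : (b : ℕ) + 1 ≤ (a : ℕ) := hab
    have h3 : (((b : ℕ) + 1 : ℕ) : ℝ) ≤ ((a : ℕ) : ℝ) := Nat.cast_le.2 h2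
    push_cast at h3
    linarith
  constructor <;> apply Real.exp_le_exp.2 <;> nlinarith

private theorem asd_bd {x y z : ℂ} {e1 e2 k1 k2 N t : ℝ} (h1 : 0 ≤ e1) (h2 : 0 ≤ e2)
    (h3 : e1 ≤ Real.exp (-t)) (h4 : e2 ≤ Real.exp (-t))
    (hx : ‖x‖ ≤ e1 * ‖y‖ + e2 * ‖z‖) (hy : ‖y‖ ≤ k1 * Real.exp (N * t))
    (hz : ‖z‖ ≤ k2 * Real.exp (N * t)) : ‖x‖ ≤ (k1 + k2) * Real.exp ((N - 1) * t) := by
  have h5 : Real.exp ((N - 1) * t) = Real.exp (-t) * Real.exp (N * t) := by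
    rw [← Real.exp_add]
    congr 1
    ring
  have h6 : e1 * ‖y‖ ≤ Real.exp (-t) * (k1 * Real.exp (N * t)) :=
    mul_le_mul h3 hy (norm_nonneg _) (Real.exp_pos _).le
  have h7 : e2 * ‖z‖ ≤ Real.exp (-t) * (k2 * Real.exp (N * t)) :=
    mul_le_mul h4 hz (norm_nonneg _) (Real.exp_pos _).le
  rw [h5]
  linarith

private theorem asysG (π : GLn n →* (P →L[ℂ] P)) (d : Mat n → P →L[ℂ] P)
    (hd : Der π d) {m : ℕ} (w : Fin m → P) (α β : Fin n → Fin m → ℂ) (hw : ∀ j, w j ∈ VK π)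
    (hL : ∀ i j, Lo d i i (w j) - α i j • w j ∈ Submodule.span ℂ (w '' {k | k < j}) ⊔ nbV π d)
    (hR : ∀ i j, Ro d i i (w j) - β i j • w j ∈ Submodule.span ℂ (w '' {k | k < j}) ⊔ nbV π d)
    (hg : VK π ≤ Submodule.span ℂ (Set.range w) ⊔ nbV π d) {I : Type*} (f : I → P →L[ℂ] ℂ)
    (hf : ∀ (a b : Fin n) (i : I), ∃ i' : I, f i' = (f i).comp (Lo d a b - Ro d b a)) :
    ASys (VK π) (BtI π f) (d (H0 n)).toLinearMap (nbV π d) w
      (fun j => ∑ i : Fin n, ((n : ℂ) - (i : ℕ)) * (α i j + β i j)) (allC I) where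
  nonneg := fun κ hκ i => hκ i
  add := fun κ hκ κ' hκ' i => add_nonneg (hκ i) (hκ' i)
  smul := fun r hr κ hκ i => mul_nonneg hr (hκ i)
  der := fun t i v _ => hd.deriv (f i) (H0 n) v t
  init := fun v _ => ⟨fun i => ‖BtI π f 0 i v‖, fun i => norm_nonneg _, fun i => le_rfl⟩
  nbV := nbV_le π d hd
  wV := hw
  nbe := by
    intro N hN ν hν
    induction hν using Submodule.span_induction with
    | mem x hx =>
      obtain ⟨a, b, hab, v, hv, hx⟩ := hx
      obtain ⟨κ1, hκ1, h1⟩ := hN v hv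
      rcases hx with hx | hx
      · obtain ⟨κ2, hκ2, h2⟩ := hN (Ro d b a v) (VK_LR π d hd b a hv).2
        choose g hgg using hf a b
        refine ⟨fun i => κ1 (g i) + κ2 i, fun i => add_nonneg (hκ1 _) (hκ2 _), fun i t ht => ?_⟩
        refine asd_bd (Real.exp_pos _).le (Real.exp_pos _).le (asd_exp hab ht).1
          (asd_exp hab ht).2 ?_ (h1 (g i) t ht) (h2 i t ht)
        change ‖f i (π (aa n t) x)‖ ≤ _ * ‖f (g i) (π (aa n t) v)‖ +
          _ * ‖f i (π (aa n t) (Ro d b a v))‖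
        rw [hx, nbf_L π d hd, hgg]
        refine (norm_add_le _ _).trans (le_of_eq ?_)
        rw [norm_mul, norm_mul, Complex.norm_real, Complex.norm_real, Real.norm_eq_abs,
          Real.norm_eq_abs, Real.abs_exp, Real.abs_exp]
      · obtain ⟨κ2, hκ2, h2⟩ := hN (Lo d b a v) (VK_LR π d hd b a hv).1
        choose g hgg using hf b a
        refine ⟨fun i => κ1 (g i) + κ2 i, fun i => add_nonneg (hκ1 _) (hκ2 _), fun i t ht => ?_⟩
        refine asd_bd (Real.exp_pos _).le (Real.exp_pos _).le (asd_exp hab ht).1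
          (asd_exp hab ht).2 ?_ (h1 (g i) t ht) (h2 i t ht)
        change ‖f i (π (aa n t) x)‖ ≤ _ * ‖f (g i) (π (aa n t) v)‖ +
          _ * ‖f i (π (aa n t) (Lo d b a v))‖
        rw [hx, nbf_R π d hd, hgg]
        refine (norm_add_le _ _).trans (le_of_eq ?_)
        rw [norm_neg, norm_mul, norm_mul, Complex.norm_real, Complex.norm_real, Real.norm_eq_abs,
          Real.norm_eq_abs, Real.abs_exp, Real.abs_exp]
    | zero =>
      refine ⟨fun _ => 0, fun _ => le_rfl, fun i t ht => ?_⟩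
      rw [map_zero, norm_zero, zero_mul]
    | add x y _ _ hx hy =>
      obtain ⟨κ1, hκ1, h1⟩ := hx
      obtain ⟨κ2, hκ2, h2⟩ := hy
      refine ⟨fun i => κ1 i + κ2 i, fun i => add_nonneg (hκ1 i) (hκ2 i), fun i t ht => ?_⟩
      rw [map_add, add_mul]
      exact (norm_add_le _ _).trans (add_le_add (h1 i t ht) (h2 i t ht))
    | smul c x _ hx =>
      obtain ⟨κ1, hκ1, h1⟩ := hx
      refine ⟨fun i => ‖c‖ * κ1 i, fun i => mul_nonneg (norm_nonneg _) (hκ1 i),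
        fun i t ht => ?_⟩
      rw [map_smul, norm_smul, mul_assoc]
      exact mul_le_mul_of_nonneg_left (h1 i t ht) (norm_nonneg _)
  tri := by
    intro j
    have h1 : (d (H0 n)).toLinearMap (w j) -
        (∑ i : Fin n, ((n : ℂ) - (i : ℕ)) * (α i j + β i j)) • w j =
        ∑ i : Fin n, ((n : ℂ) - (i : ℕ)) •
          ((Lo d i i (w j) - α i j • w j) + (Ro d i i (w j) - β i j • w j)) := by
      change d (H0 n) (w j) - _ = _
      rw [d_H0 π d hd, Finset.sum_smul, ← Finset.sum_sub_distrib]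
      refine Finset.sum_congr rfl fun i _ => ?_
      module
    rw [h1]
    exact Submodule.sum_mem _ fun i _ => Submodule.smul_mem _ _
      (Submodule.add_mem _ (hL i j) (hR i j))
  gen := hg

theorem asysD (π : GLn n →* (P →L[ℂ] P)) (hπ : IsCW π) (d : Mat n → P →L[ℂ] P)
    (hd : Der π d) {m : ℕ} (w : Fin m → P) (α β : Fin n → Fin m → ℂ) (hw : ∀ j, w j ∈ VK π)
    (hL : ∀ i j, Lo d i i (w j) - α i j • w j ∈ Submodule.span ℂ (w '' {k | k < j}) ⊔ nbV π d)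
    (hR : ∀ i j, Ro d i i (w j) - β i j • w j ∈ Submodule.span ℂ (w '' {k | k < j}) ⊔ nbV π d)
    (hg : VK π ≤ Submodule.span ℂ (Set.range w) ⊔ nbV π d) (D : ℕ) :
    ASys (VK π) (BtI π (fun l : Yd π D => (l : P →L[ℂ] ℂ))) (d (H0 n)).toLinearMap (nbV π d) w
      (fun j => ∑ i : Fin n, ((n : ℂ) - (i : ℕ)) * (α i j + β i j)) (allC _) :=
  asysG π d hd w α β hw hL hR hg _ fun a b l => ⟨⟨_, Yd_k π d hd a b l.2⟩, rfl⟩

theorem asysY (π : GLn n →* (P →L[ℂ] P)) (hπ : IsCW π) (d : Mat n → P →L[ℂ] P)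
    (hd : Der π d) {m : ℕ} (w : Fin m → P) (α β : Fin n → Fin m → ℂ) (hw : ∀ j, w j ∈ VK π)
    (hL : ∀ i j, Lo d i i (w j) - α i j • w j ∈ Submodule.span ℂ (w '' {k | k < j}) ⊔ nbV π d)
    (hR : ∀ i j, Ro d i i (w j) - β i j • w j ∈ Submodule.span ℂ (w '' {k | k < j}) ⊔ nbV π d)
    (hg : VK π ≤ Submodule.span ℂ (Set.range w) ⊔ nbV π d) :
    ASys (VK π) (BtI π (fun l : YK π => (l : P →L[ℂ] ℂ))) (d (H0 n)).toLinearMap (nbV π d) w
      (fun j => ∑ i : Fin n, ((n : ℂ) - (i : ℕ)) * (α i j + β i j)) (allC _) := by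
  refine asysG π d hd w α β hw hL hR hg _ fun a b l => ?_
  obtain ⟨D, hD⟩ := mem_YK.1 l.2
  exact ⟨⟨_, mem_YK.2 ⟨D, Yd_k π d hd a b hD⟩⟩, rfl⟩

end

end Pool.Agent.Work.MP_dd0ddf_al.AR
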