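import Pool.Agent.Work.MP_dd0ddf_al.AR.KPh
import Pool.Agent.Work.MP_dd0ddf_al.AR.KKx
import Pool.Agent.Work.MP_dd0ddf_al.AR.RLR

/-!
# MP_dd0ddf_al, archimedean part, block R, module KBn


Bernstein inequality for `k_ℂ` acting on `Yd π D`.

PROOF. Let `w ∈ ℂ^n`, `|w| = 1`, `Z = I w w^*`, so `exp(sZ) = eK w hw s` (`exp_rank1`).  For `v ∈ P` let
`f k = l (π k v)`, in `PK n D`, `|f| ≤ c p(v)` (`p` is `K`-invariant).  By `hd.deriv` at `τ = 0` the function
`s ↦ f(eK w hw s) = l(π (exp sZ) v)` has derivative `l(d Z v)` at `0`; `bern_fun`: `|l(d Z v)| ≤ (2D+1) D c p(v)`.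
Now `Lo_ij - Ro_ji` is a combination of such `d Z`: for `i ≠ j` and `ζ ∈ {1, I, -1, -I}` put
`w_ζ = (e_i + ζ e_j)/√2`; `E_ij = (1/2) ∑_ζ ζ w_ζ w_ζ^*` (`(w_ζ w_ζ^*)_ij = conj ζ / 2`, and `∑ ζ = ∑ ζ^2 = 0`); with
`K_ab = Lo_ab - Ro_ba` one has `d(I Q) = I ∑_ab Q_ab K_ab` for hermitian `Q` (`d_eq_sum`:
`d(I Q) = ∑ (I Q_ab Lo_ab + conj(I Q_ab) Ro_ab)`, `conj(I Q_ab) = -I Q_ba`), so
`K_ij = (1/2) ∑_ζ ζ (-I) d(I w_ζ w_ζ^*)`, hence `|l(K_ij v)| ≤ 2 (2D+1) D c p(v)`; for `i = j`: `K_ii = -I d(I e_i e_i^*)`.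
-/

set_option linter.unusedSectionVars false

namespace Pool.Agent.Work.MP_dd0ddf_al.AR

open scoped SchwartzMap Matrix.Norms.Elementwise ComplexConjugate ContDiff Topology
open Matrix MeasureTheory Filter Asymptotics

noncomputable section

variable {n : ℕ} {P : Type*} [AddCommGroup P] [Module ℂ P] [UniformSpace P] [IsUniformAddGroup P]
  [ContinuousSMul ℂ P] [PolynormableSpace ℂ P] [T2Space P] [CompleteSpace P]
  [FirstCountableTopology P]

private theorem bern_w (π : GLn n →* (P →L[ℂ] P)) (d : Mat n → P →L[ℂ] P) (hd : Der π d)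
    (p : Seminorm ℂ P) (hp : KInv π p) {D : ℕ} {l : P →L[ℂ] ℂ} (hl : l ∈ Yd π D) {c : ℝ}
    (hc : ∀ v, ‖l v‖ ≤ c * p v) (w : Fin n → ℂ) (hw : star w ⬝ᵥ w = 1) (v : P) :
    ‖l (d (Complex.I • Matrix.vecMulVec w (star w)) v)‖ ≤ (2 * D + 1) * D * (c * p v) := by
  have hf : (fun k : KU n => l (π (k : GLn n) v)) ∈ PK n D := hl v
  have hB : ∀ k : KU n, ‖(fun k : KU n => l (π (k : GLn n) v)) k‖ ≤ c * p v := by
    intro k
    refine (hc _).trans ?_
    rw [hp k v]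
  refine bern_fun hf hB w hw ?_
  have h := hd.deriv l (Complex.I • Matrix.vecMulVec w (star w)) v 0
  have e0 : expG ((0 : ℝ) • (Complex.I • Matrix.vecMulVec w (star w)) : Mat n) = 1 := by
    rw [zero_smul]
    refine Units.ext ?_
    rw [coe_expG, NormedSpace.exp_zero]
    rfl
  rw [e0, map_one] at h
  have e : (fun τ : ℝ => l (π (expG (τ • (Complex.I • Matrix.vecMulVec w (star w)))) v)) =
      fun s : ℝ => l (π ((eK w hw s : KU n) : GLn n) v) := by
    funext s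
    rw [exp_rank1 w hw s]
  rw [e] at h
  exact h

private theorem d_herm (π : GLn n →* (P →L[ℂ] P)) (d : Mat n → P →L[ℂ] P) (hd : Der π d)
    (l : P →L[ℂ] ℂ) (w : Fin n → ℂ) (v : P) :
    l (d (Complex.I • Matrix.vecMulVec w (star w)) v) =
      Complex.I * ∑ a, ∑ b, w a * conj (w b) * l (Lo d a b v - Ro d b a v) := by
  rw [d_eq_sum π d hd]
  simp only [map_sum, map_add, map_smul, map_sub, smul_eq_mul, Finset.sum_add_distrib]
  have e2 : (∑ a : Fin n, ∑ b : Fin n,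
      (conj ((Complex.I • Matrix.vecMulVec w (star w)) a b)) * l (Ro d a b v)) =
      ∑ a : Fin n, ∑ b : Fin n,
        (conj ((Complex.I • Matrix.vecMulVec w (star w)) b a)) * l (Ro d b a v) :=
    Finset.sum_comm
  rw [e2, Finset.mul_sum, ← Finset.sum_add_distrib]
  refine Finset.sum_congr rfl fun a _ => ?_
  rw [Finset.mul_sum, ← Finset.sum_add_distrib]
  refine Finset.sum_congr rfl fun b _ => ?_
  simp only [Matrix.smul_apply, Matrix.vecMulVec_apply, Pi.star_apply, smul_eq_mul, map_mul,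
    Complex.conj_I, RCLike.star_def, Complex.conj_conj]
  ring

private theorem bern_all (π : GLn n →* (P →L[ℂ] P)) (d : Mat n → P →L[ℂ] P) (hd : Der π d)
    (p : Seminorm ℂ P) (hp : KInv π p) {D : ℕ} {l : P →L[ℂ] ℂ} (hl : l ∈ Yd π D) {c : ℝ}
    (hc : ∀ v, ‖l v‖ ≤ c * p v) (w : Fin n → ℂ) (v : P) :
    ‖∑ a, ∑ b, w a * conj (w b) * l (Lo d a b v - Ro d b a v)‖ ≤
      (∑ a, ‖w a‖ ^ 2) * ((2 * D + 1) * D * (c * p v)) := by
  by_cases h0 : (∑ a, ‖w a‖ ^ 2) = 0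
  · have hw : ∀ a, w a = 0 := by
      intro a
      have h1 := (Finset.sum_eq_zero_iff_of_nonneg (fun a _ => by positivity)).mp h0 a
        (Finset.mem_univ a)
      have h2 : ‖w a‖ = 0 := by
        have := pow_eq_zero_iff (two_ne_zero) |>.mp h1
        exact this
      exact norm_eq_zero.mp h2
    simp [hw]
  have hN : 0 < ∑ a, ‖w a‖ ^ 2 :=
    lt_of_le_of_ne (Finset.sum_nonneg fun a _ => by positivity) (Ne.symm h0)
  obtain ⟨N, hNe⟩ : ∃ N, N = ∑ a, ‖w a‖ ^ 2 := ⟨_, rfl⟩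
  rw [← hNe] at hN h0 ⊢
  obtain ⟨r, hr⟩ : ∃ r, r = (Real.sqrt N)⁻¹ := ⟨_, rfl⟩
  have hr2 : r * r = N⁻¹ := by
    rw [hr, ← mul_inv, Real.mul_self_sqrt hN.le]
  have hw' : star (fun a => (r : ℂ) * w a) ⬝ᵥ (fun a => (r : ℂ) * w a) = 1 := by
    simp only [dotProduct, Pi.star_apply, star_mul', RCLike.star_def, Complex.conj_ofReal]
    have : ∀ a, (r : ℂ) * conj (w a) * ((r : ℂ) * w a) = ((N⁻¹ * ‖w a‖ ^ 2 : ℝ) : ℂ) := by
      intro a
      have h1 : conj (w a) * w a = ((‖w a‖ ^ 2 : ℝ) : ℂ) := by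
        rw [Complex.conj_mul']
        push_cast
        rfl
      calc (r : ℂ) * conj (w a) * ((r : ℂ) * w a) = ((r * r : ℝ) : ℂ) * (conj (w a) * w a) := by
            push_cast
            ring
        _ = _ := by
            rw [h1, hr2]
            push_cast
            ring
    simp only [this]
    rw [← Complex.ofReal_sum, ← Finset.mul_sum, ← hNe, inv_mul_cancel₀ h0, Complex.ofReal_one]
  have hb := bern_w π d hd p hp hl hc _ hw' v
  rw [d_herm π d hd, norm_mul, Complex.norm_I, one_mul] at hb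
  have e : (∑ a, ∑ b, (fun a => (r : ℂ) * w a) a * conj ((fun a => (r : ℂ) * w a) b) *
      l (Lo d a b v - Ro d b a v)) =
      ((N⁻¹ : ℝ) : ℂ) * ∑ a, ∑ b, w a * conj (w b) * l (Lo d a b v - Ro d b a v) := by
    rw [Finset.mul_sum]
    refine Finset.sum_congr rfl fun a _ => ?_
    rw [Finset.mul_sum]
    refine Finset.sum_congr rfl fun b _ => ?_
    rw [← hr2, map_mul, Complex.conj_ofReal]
    push_cast
    ring
  rw [e, norm_mul, Complex.norm_real, Real.norm_of_nonneg (inv_nonneg.mpr hN.le)] at hb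
  rwa [inv_mul_le_iff₀ hN] at hb

theorem bernstein (π : GLn n →* (P →L[ℂ] P)) (d : Mat n → P →L[ℂ] P) (hd : Der π d) :
    ∃ (C : ℝ) (M : ℕ), ∀ p : Seminorm ℂ P, KInv π p → ∀ D : ℕ, ∀ l ∈ Yd π D, ∀ c : ℝ,
      (∀ v, ‖l v‖ ≤ c * p v) → ∀ (i j : Fin n) (v : P),
        ‖l (Lo d i j v - Ro d j i v)‖ ≤ C * (1 + (D : ℝ)) ^ M * c * p v := by
  refine ⟨8, 2, ?_⟩
  intro p hp D l hl c hc i j v
  obtain ⟨K, hK⟩ : ∃ K : Fin n → Fin n → ℂ, K = fun a b => l (Lo d a b v - Ro d b a v) := ⟨_, rfl⟩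
  obtain ⟨R, hR⟩ : ∃ R : ℝ, R = (2 * D + 1) * D * (c * p v) := ⟨_, rfl⟩
  have hcp : 0 ≤ c * p v := (norm_nonneg _).trans (hc v)
  have hR0 : 0 ≤ R := by
    rw [hR]
    positivity
  have hall : ∀ w : Fin n → ℂ, ‖∑ a, ∑ b, w a * conj (w b) * K a b‖ ≤ (∑ a, ‖w a‖ ^ 2) * R := by
    intro w
    have := bern_all π d hd p hp hl hc w v
    rw [hR, hK]
    exact this
  have hq : ∀ ζ : ℂ, ‖ζ‖ = 1 →
      (∑ a, ∑ b, (Pi.single i (1 : ℂ) + ζ • Pi.single j (1 : ℂ) : Fin n → ℂ) a *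
        conj ((Pi.single i (1 : ℂ) + ζ • Pi.single j (1 : ℂ) : Fin n → ℂ) b) * K a b) =
      K i i + conj ζ * K i j + ζ * K j i + ζ * conj ζ * K j j := by
    intro ζ _
    have h1 : ∀ a b : Fin n, (Pi.single i (1 : ℂ) + ζ • Pi.single j (1 : ℂ) : Fin n → ℂ) a *
        conj ((Pi.single i (1 : ℂ) + ζ • Pi.single j (1 : ℂ) : Fin n → ℂ) b) * K a b =
        (if a = i then (1 : ℂ) else 0) * ((if b = i then (1 : ℂ) else 0) * K a b) +
        (if a = i then (1 : ℂ) else 0) * ((if b = j then (1 : ℂ) else 0) * (conj ζ * K a b)) +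
        (if a = j then (1 : ℂ) else 0) * ((if b = i then (1 : ℂ) else 0) * (ζ * K a b)) +
        (if a = j then (1 : ℂ) else 0) * ((if b = j then (1 : ℂ) else 0) *
          (ζ * conj ζ * K a b)) := by
      intro a b
      simp only [Pi.add_apply, Pi.smul_apply, Pi.single_apply, smul_eq_mul, map_add, map_mul]
      have e1 : conj (if b = i then (1 : ℂ) else 0) = (if b = i then (1 : ℂ) else 0) := by
        split_ifs <;> simp
      have e2 : conj (if b = j then (1 : ℂ) else 0) = (if b = j then (1 : ℂ) else 0) := by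
        split_ifs <;> simp
      rw [e1, e2]
      ring
    simp only [h1, Finset.sum_add_distrib]
    simp
  have hn : ∀ ζ : ℂ, ‖ζ‖ = 1 →
      (∑ a, ‖(Pi.single i (1 : ℂ) + ζ • Pi.single j (1 : ℂ) : Fin n → ℂ) a‖ ^ 2) ≤ 4 := by
    intro ζ hζ
    have h1 : ∀ a : Fin n, ‖(Pi.single i (1 : ℂ) + ζ • Pi.single j (1 : ℂ) : Fin n → ℂ) a‖ ^ 2 ≤
        (if a = i then 2 else 0) + (if a = j then 2 else 0) := by
      intro a
      simp only [Pi.add_apply, Pi.smul_apply, Pi.single_apply, smul_eq_mul]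
      by_cases h1 : a = i <;> by_cases h3 : a = j
      · rw [if_pos h1, if_pos h3, if_pos h1, if_pos h3, mul_one]
        have := norm_add_le (1 : ℂ) ζ
        rw [norm_one, hζ] at this
        have h0 := norm_nonneg ((1 : ℂ) + ζ)
        nlinarith
      · rw [if_pos h1, if_neg h3, if_pos h1, if_neg h3, mul_zero, add_zero, norm_one]
        norm_num
      · rw [if_neg h1, if_pos h3, if_neg h1, if_pos h3, mul_one, zero_add, hζ]
        norm_num
      · rw [if_neg h1, if_neg h3, if_neg h1, if_neg h3, mul_zero, zero_add, norm_zero]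
        norm_num
    refine (Finset.sum_le_sum fun a _ => h1 a).trans ?_
    rw [Finset.sum_add_distrib]
    simp
    norm_num
  have hz : ∀ ζ : ℂ, ‖ζ‖ = 1 →
      ‖K i i + conj ζ * K i j + ζ * K j i + ζ * conj ζ * K j j‖ ≤ 4 * R := by
    intro ζ hζ
    rw [← hq ζ hζ]
    exact (hall _).trans (mul_le_mul_of_nonneg_right (hn ζ hζ) hR0)
  have z1 := hz 1 norm_one
  have z2 := hz (-1) (by simp)
  have z3 := hz Complex.I Complex.norm_I
  have z4 := hz (-Complex.I) (by simp)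
  have hI : Complex.I * Complex.I = -1 := Complex.I_mul_I
  have e : 4 * K i j =
      (K i i + conj (1 : ℂ) * K i j + 1 * K j i + 1 * conj (1 : ℂ) * K j j) -
      (K i i + conj (-1 : ℂ) * K i j + (-1) * K j i + (-1) * conj (-1 : ℂ) * K j j) +
      Complex.I * (K i i + conj Complex.I * K i j + Complex.I * K j i +
        Complex.I * conj Complex.I * K j j) -
      Complex.I * (K i i + conj (-Complex.I) * K i j + (-Complex.I) * K j i +
        (-Complex.I) * conj (-Complex.I) * K j j) := by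
    simp only [map_neg, map_one, Complex.conj_I]
    linear_combination (2 * K i j - 2 * K j i) * hI
  have hfin : ‖4 * K i j‖ ≤ 4 * R + 4 * R + 4 * R + 4 * R := by
    rw [e]
    refine (norm_sub_le _ _).trans (add_le_add ((norm_add_le _ _).trans (add_le_add
      ((norm_sub_le _ _).trans (add_le_add z1 z2)) ?_)) ?_)
    · rw [norm_mul, Complex.norm_I, one_mul]
      exact z3
    · rw [norm_mul, Complex.norm_I, one_mul]
      exact z4
  have h4 : ‖K i j‖ ≤ 4 * R := by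
    rw [norm_mul] at hfin
    have : ‖(4 : ℂ)‖ = 4 := by simp
    rw [this] at hfin
    linarith
  have hgoal : ‖l (Lo d i j v - Ro d j i v)‖ ≤ 4 * R := by
    have := h4
    rw [hK] at this
    exact this
  refine hgoal.trans ?_
  rw [hR]
  have hD : (0 : ℝ) ≤ D := Nat.cast_nonneg D
  have : 4 * ((2 * (D : ℝ) + 1) * D) ≤ 8 * (1 + (D : ℝ)) ^ 2 := by nlinarith
  calc 4 * ((2 * (D : ℝ) + 1) * D * (c * p v)) = 4 * ((2 * (D : ℝ) + 1) * D) * (c * p v) := by ring
    _ ≤ 8 * (1 + (D : ℝ)) ^ 2 * (c * p v) := mul_le_mul_of_nonneg_right this hcp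
    _ = 8 * (1 + (D : ℝ)) ^ 2 * c * p v := by ring

end

end Pool.Agent.Work.MP_dd0ddf_al.AR
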