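import Pool.Agent.Work.MP_dd0ddf_al.AR.ACon
import Pool.Agent.Work.MP_dd0ddf_al.AR.ANbf
import Pool.Agent.Work.MP_dd0ddf_al.AR.AGro
import Pool.Agent.Work.MP_dd0ddf_al.AR.KKx
import Pool.Agent.Work.MP_dd0ddf_al.AR.KBn

/-!
# MP_dd0ddf_al, archimedean part, block R, module ASysP


The quantitative system: triples `(D, l, c)`, bounds polynomial in `D` and linear in `c`.

PROOF. As in `ASysD`, but with constants.  `init`: `|l v| ≤ c p(v)`: `κ i = p v * i.c` (`C = p v`, `M = 0`; `π(aa 0) = 1`: `expG 0 = 1`).  `add`: `C (1+D)^M c +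
C' (1+D)^M' c ≤ (C + C')(1+D)^(M+M') c` as `1 + D ≥ 1`.  `nbe` on a generator `Lo_ab v`: the functional `l' = l ∘ (Lo_ab - Ro_ba)` satisfies
`|l'| ≤ C_B (1+D)^(M_B) c p` (`bernstein`; replace `C_B` by `max C_B 0`) and `l' ∈ Yd π D` (`Yd_k`), so `i' = (D, l', C_B (1+D)^(M_B) c)` is an index and the
bound `κ(i') ≤ C (1+D)^M C_B (1+D)^(M_B) c` is again in the class.  `der`, `tri`, `gen`, `wV`: as in `ASysD`.
`bdP`: some exponent works: `aa_growth p` gives `|l(π(aa t)v)| ≤ c p(π(aa t)v) ≤ c q(v) e^(Nt)`: `κ i = q v * i.c`.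
-/

set_option linter.unusedSectionVars false

namespace Pool.Agent.Work.MP_dd0ddf_al.AR

open scoped SchwartzMap Matrix.Norms.Elementwise ComplexConjugate ContDiff Topology
open Matrix MeasureTheory Filter Asymptotics

noncomputable section

variable {n : ℕ} {P : Type*} [AddCommGroup P] [Module ℂ P] [UniformSpace P] [IsUniformAddGroup P]
  [ContinuousSMul ℂ P] [PolynormableSpace ℂ P] [T2Space P] [CompleteSpace P]
  [FirstCountableTopology P]

private theorem ccp_add {π : GLn n →* (P →L[ℂ] P)} {p : Seminorm ℂ P} {κ κ' : IdxP π p → ℝ}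
    (h : κ ∈ CCp π p) (h' : κ' ∈ CCp π p) : (fun i => κ i + κ' i) ∈ CCp π p := by
  obtain ⟨h0, C, M, hC, hB⟩ := h
  obtain ⟨h0', C', M', hC', hB'⟩ := h'
  refine ⟨fun i => add_nonneg (h0 i) (h0' i), C + C', M + M', add_nonneg hC hC', fun i => ?_⟩
  have hc := i.c0
  have h1 : (1 : ℝ) ≤ 1 + (i.D : ℝ) := le_add_of_nonneg_right (Nat.cast_nonneg _)
  have h2 : (1 + (i.D : ℝ)) ^ M ≤ (1 + (i.D : ℝ)) ^ (M + M') := pow_le_pow_right₀ h1 (by omega)
  have h3 : (1 + (i.D : ℝ)) ^ M' ≤ (1 + (i.D : ℝ)) ^ (M + M') := pow_le_pow_right₀ h1 (by omega)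
  have h4 := mul_le_mul_of_nonneg_right (mul_le_mul_of_nonneg_left h2 hC) hc
  have h5 := mul_le_mul_of_nonneg_right (mul_le_mul_of_nonneg_left h3 hC') hc
  calc κ i + κ' i ≤ C * (1 + (i.D : ℝ)) ^ (M + M') * i.c + C' * (1 + (i.D : ℝ)) ^ (M + M') * i.c :=
        add_le_add ((hB i).trans h4) ((hB' i).trans h5)
    _ = (C + C') * (1 + (i.D : ℝ)) ^ (M + M') * i.c := by ring

private theorem ccp_smul {π : GLn n →* (P →L[ℂ] P)} {p : Seminorm ℂ P} {κ : IdxP π p → ℝ}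
    {r : ℝ} (hr : 0 ≤ r) (h : κ ∈ CCp π p) : (fun i => r * κ i) ∈ CCp π p := by
  obtain ⟨h0, C, M, hC, hB⟩ := h
  refine ⟨fun i => mul_nonneg hr (h0 i), r * C, M, mul_nonneg hr hC, fun i => ?_⟩
  calc r * κ i ≤ r * (C * (1 + (i.D : ℝ)) ^ M * i.c) := mul_le_mul_of_nonneg_left (hB i) hr
    _ = r * C * (1 + (i.D : ℝ)) ^ M * i.c := by ring

private theorem ccp_lin {π : GLn n →* (P →L[ℂ] P)} {p : Seminorm ℂ P} {r : ℝ} (hr : 0 ≤ r) :
    (fun i : IdxP π p => r * i.c) ∈ CCp π p :=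
  ⟨fun i => mul_nonneg hr i.c0, r, 0, hr, fun i => by rw [pow_zero, mul_one]⟩

/-- the new index -/
private def newI {π : GLn n →* (P →L[ℂ] P)} {p : Seminorm ℂ P} (i : IdxP π p)
    (l' : P →L[ℂ] ℂ) (C : ℝ) (hC : 0 ≤ C) (M : ℕ) (h1 : l' ∈ Yd π i.D)
    (h2 : ∀ v, ‖l' v‖ ≤ C * (1 + (i.D : ℝ)) ^ M * i.c * p v) : IdxP π p :=
  ⟨i.D, l', C * (1 + (i.D : ℝ)) ^ M * i.c, h1,
    mul_nonneg (mul_nonneg hC (pow_nonneg (by positivity) _)) i.c0, h2⟩

private theorem exp_le_aux {a b : Fin n} (hab : b < a) {t : ℝ} (ht : 0 ≤ t) :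
    Real.exp (-(t * ((a : ℕ) - (b : ℕ) : ℝ))) ≤ Real.exp (-t) ∧
      Real.exp (-(2 * t * ((a : ℕ) - (b : ℕ) : ℝ))) ≤ Real.exp (-t) := by
  have h1 : (1 : ℝ) ≤ ((a : ℕ) - (b : ℕ) : ℝ) := by
    have h2 : (b : ℕ) + 1 ≤ (a : ℕ) := hab
    have h3 : (((b : ℕ) + 1 : ℕ) : ℝ) ≤ ((a : ℕ) : ℝ) := Nat.cast_le.mpr h2
    push_cast at h3
    linarith
  constructor <;> apply Real.exp_le_exp.mpr <;> nlinarith

/-- the estimate for a generator: `x = e^(-t(a-b)) l' v + e^(-2t(a-b)) l v2` -/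
private theorem gen_bound {π : GLn n →* (P →L[ℂ] P)} {p : Seminorm ℂ P} {N : ℝ}
    (hN : BdA (VK π) (BtI π (fun i : IdxP π p => i.l)) (CCp π p) N) {v v2 : P} (hv : v ∈ VK π)
    (hv2 : v2 ∈ VK π) {a b : Fin n} (hab : b < a) (x : P) (T : P →L[ℂ] P) {C : ℝ} (hC : 0 ≤ C)
    {M : ℕ} (h1 : ∀ i : IdxP π p, i.l.comp T ∈ Yd π i.D)
    (h2 : ∀ (i : IdxP π p) (v : P), ‖(i.l.comp T) v‖ ≤ C * (1 + (i.D : ℝ)) ^ M * i.c * p v)
    (hx : ∀ (l : P →L[ℂ] ℂ) (t : ℝ), ‖l (π (aa n t) x)‖ ≤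
      Real.exp (-(t * ((a : ℕ) - (b : ℕ) : ℝ))) * ‖(l.comp T) (π (aa n t) v)‖ +
        Real.exp (-(2 * t * ((a : ℕ) - (b : ℕ) : ℝ))) * ‖l (π (aa n t) v2)‖) :
    ∃ κ ∈ CCp π p, ∀ i, ∀ t : ℝ, 0 ≤ t →
      ‖BtI π (fun i : IdxP π p => i.l) t i x‖ ≤ κ i * Real.exp ((N - 1) * t) := by
  obtain ⟨κ1, hκ1, hb1⟩ := hN v hv
  obtain ⟨κ2, hκ2, hb2⟩ := hN v2 hv2
  have hk : (fun i : IdxP π p => κ1 (newI i (i.l.comp T) C hC M (h1 i) (h2 i))) ∈ CCp π p := by
    obtain ⟨h0, C1, M1, hC1, hB1⟩ := hκ1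
    refine ⟨fun i => h0 _, C1 * C, M1 + M, mul_nonneg hC1 hC, fun i => ?_⟩
    refine (hB1 _).trans (le_of_eq ?_)
    show C1 * (1 + (i.D : ℝ)) ^ M1 * (C * (1 + (i.D : ℝ)) ^ M * i.c) = _
    rw [pow_add]
    ring
  refine ⟨_, ccp_add hk hκ2, fun i t ht => ?_⟩
  have e1 := hb1 (newI i (i.l.comp T) C hC M (h1 i) (h2 i)) t ht
  have e2 := hb2 i t ht
  have e3 := hx i.l t
  obtain ⟨e4, e5⟩ := exp_le_aux hab ht
  change ‖(i.l.comp T) (π (aa n t) v)‖ ≤ _ at e1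
  change ‖i.l (π (aa n t) v2)‖ ≤ _ at e2
  change ‖i.l (π (aa n t) x)‖ ≤ _
  have e6 : Real.exp ((N - 1) * t) = Real.exp (-t) * Real.exp (N * t) := by
    rw [← Real.exp_add]
    congr 1
    ring
  refine e3.trans ?_
  have e7 := mul_le_mul e4 e1 (norm_nonneg _) (Real.exp_nonneg _)
  have e8 := mul_le_mul e5 e2 (norm_nonneg _) (Real.exp_nonneg _)
  refine (add_le_add e7 e8).trans (le_of_eq ?_)
  rw [e6]
  ring

theorem asysP (π : GLn n →* (P →L[ℂ] P)) (hπ : IsCW π) (d : Mat n → P →L[ℂ] P)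
    (hd : Der π d) {m : ℕ} (w : Fin m → P) (α β : Fin n → Fin m → ℂ) (hw : ∀ j, w j ∈ VK π)
    (hL : ∀ i j, Lo d i i (w j) - α i j • w j ∈ Submodule.span ℂ (w '' {k | k < j}) ⊔ nbV π d)
    (hR : ∀ i j, Ro d i i (w j) - β i j • w j ∈ Submodule.span ℂ (w '' {k | k < j}) ⊔ nbV π d)
    (hg : VK π ≤ Submodule.span ℂ (Set.range w) ⊔ nbV π d) (p : Seminorm ℂ P)
    (hp : Continuous p) (hpK : KInv π p) :
    ASys (VK π) (BtI π (fun i : IdxP π p => i.l)) (d (H0 n)).toLinearMap (nbV π d) w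
      (fun j => ∑ i : Fin n, ((n : ℂ) - (i : ℕ)) * (α i j + β i j)) (CCp π p) := by
  refine
    { nonneg := fun κ hκ => hκ.1
      add := fun κ hκ κ' hκ' => ccp_add hκ hκ'
      smul := fun r hr κ hκ => ccp_smul hr hκ
      der := fun t i v _ => hd.deriv i.l (H0 n) v t
      init := ?_
      nbV := nbV_le π d hd
      wV := hw
      nbe := ?_
      tri := ?_
      gen := hg }
  · intro v _
    refine ⟨fun i => p v * i.c, ccp_lin (apply_nonneg p v), fun i => ?_⟩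
    have h0 : π (aa n 0) v = v := by
      have h1 : aa n 0 = 1 := by
        unfold aa
        rw [zero_smul]
        refine Units.ext ?_
        rw [coe_expG, NormedSpace.exp_zero]
        rfl
      rw [h1, map_one]
      rfl
    show ‖i.l (π (aa n 0) v)‖ ≤ p v * i.c
    rw [h0, mul_comm]
    exact i.le v
  · intro N hN ν hν
    obtain ⟨C, M, hCM⟩ := bernstein π d hd
    have hC : ∀ (i : IdxP π p) (a b : Fin n) (v : P), ‖i.l (Lo d a b v - Ro d b a v)‖ ≤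
        max C 0 * (1 + (i.D : ℝ)) ^ M * i.c * p v := by
      intro i a b v
      refine (hCM p hpK i.D i.l i.mem i.c i.le a b v).trans ?_
      have h1 : 0 ≤ (1 + (i.D : ℝ)) ^ M := by positivity
      exact mul_le_mul_of_nonneg_right (mul_le_mul_of_nonneg_right
        (mul_le_mul_of_nonneg_right (le_max_left _ _) h1) i.c0) (apply_nonneg p v)
    refine Submodule.span_induction (p := fun ν _ => ∃ κ ∈ CCp π p, ∀ i, ∀ t : ℝ, 0 ≤ t →
      ‖BtI π (fun i : IdxP π p => i.l) t i ν‖ ≤ κ i * Real.exp ((N - 1) * t)) ?_ ?_ ?_ ?_ hν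
    · rintro x ⟨a, b, hab, v, hv, hx | hx⟩
      · refine gen_bound hN hv (VK_LR π d hd b a hv).2 hab x (Lo d a b - Ro d b a)
          (le_max_right C 0) (M := M) (fun i => Yd_k π d hd a b i.mem) (fun i v => hC i a b v) ?_
        intro l t
        rw [hx, nbf_L π d hd a b l v t]
        refine (norm_add_le _ _).trans (le_of_eq ?_)
        rw [norm_mul, norm_mul, Complex.norm_real, Complex.norm_real,
          Real.norm_of_nonneg (Real.exp_nonneg _), Real.norm_of_nonneg (Real.exp_nonneg _)]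
      · refine gen_bound hN hv (VK_LR π d hd b a hv).1 hab x (Lo d b a - Ro d a b)
          (le_max_right C 0) (M := M) (fun i => Yd_k π d hd b a i.mem) (fun i v => hC i b a v) ?_
        intro l t
        rw [hx, nbf_R π d hd a b l v t]
        refine (norm_add_le _ _).trans (le_of_eq ?_)
        rw [norm_neg, norm_mul, norm_mul, Complex.norm_real, Complex.norm_real,
          Real.norm_of_nonneg (Real.exp_nonneg _), Real.norm_of_nonneg (Real.exp_nonneg _)]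
    · refine ⟨fun i => 0 * i.c, ccp_lin le_rfl, fun i t _ => ?_⟩
      rw [map_zero, norm_zero]
      show (0 : ℝ) ≤ 0 * i.c * Real.exp ((N - 1) * t)
      rw [zero_mul, zero_mul]
    · rintro x y _ _ ⟨κ, hκ, hx⟩ ⟨κ', hκ', hy⟩
      refine ⟨_, ccp_add hκ hκ', fun i t ht => ?_⟩
      rw [map_add]
      refine (norm_add_le _ _).trans ((add_le_add (hx i t ht) (hy i t ht)).trans (le_of_eq ?_))
      show _ = (κ i + κ' i) * Real.exp ((N - 1) * t)
      rw [add_mul]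
    · rintro r x _ ⟨κ, hκ, hx⟩
      refine ⟨_, ccp_smul (norm_nonneg r) hκ, fun i t ht => ?_⟩
      rw [map_smul, smul_eq_mul, norm_mul]
      refine (mul_le_mul_of_nonneg_left (hx i t ht) (norm_nonneg r)).trans (le_of_eq ?_)
      show _ = ‖r‖ * κ i * Real.exp ((N - 1) * t)
      rw [mul_assoc]
  · intro j
    show d (H0 n) (w j) - _ ∈ _
    rw [d_H0 π d hd, Finset.sum_smul, ← Finset.sum_sub_distrib]
    refine Submodule.sum_mem _ fun i _ => ?_
    have h1 : ((n : ℂ) - (i : ℕ)) • (Lo d i i (w j) + Ro d i i (w j)) -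
        (((n : ℂ) - (i : ℕ)) * (α i j + β i j)) • w j =
        ((n : ℂ) - (i : ℕ)) • ((Lo d i i (w j) - α i j • w j) +
          (Ro d i i (w j) - β i j • w j)) := by
      module
    rw [h1]
    exact Submodule.smul_mem _ _ (Submodule.add_mem _ (hL i j) (hR i j))

theorem bdP (π : GLn n →* (P →L[ℂ] P)) (hπ : IsCW π) (p : Seminorm ℂ P) (hp : Continuous p) :
    ∃ N : ℝ, BdA (VK π) (BtI π (fun i : IdxP π p => i.l)) (CCp π p) N := by
  obtain ⟨N, q, -, hq⟩ := aa_growth π hπ p hp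
  refine ⟨N, fun v _ => ⟨fun i => q v * i.c, ccp_lin (apply_nonneg q v), fun i t ht => ?_⟩⟩
  show ‖i.l (π (aa n t) v)‖ ≤ q v * i.c * Real.exp (N * t)
  refine (i.le _).trans ((mul_le_mul_of_nonneg_left (hq t ht v) i.c0).trans (le_of_eq ?_))
  ring

end

end Pool.Agent.Work.MP_dd0ddf_al.AR
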