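import Pool.Agent.Work.MP_dd0ddf_al.AR.ADrop
import Pool.Agent.Work.MP_dd0ddf_al.AR.AIdx
import Pool.Agent.Work.MP_dd0ddf_al.AR.ALim
import Pool.Agent.Work.MP_dd0ddf_al.AR.ASysD
import Pool.Agent.Work.MP_dd0ddf_al.AR.ASysP

/-!
# MP_dd0ddf_al, archimedean part, block R, module ACbe


The leading coefficient is a continuous `B`-eigenvector.

PROOF. Let `c_j = ∑ (n-i)(α i j + β i j)`.  `asy_index` for `asysY` gives `j` with `Re c_j = Λ`, `SmA` for all `k < j` and all `l ∈ YK`, and some `l0 ∈ YK`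
with `¬ SmA ... j l0`.  `asy_limit` for `asysY` (`CC = allC`) gives `U : YK π → ℂ`, `U l = lim e^(-c_j t) l(π(aa t) w_j)`.  `U` is linear (limits of linear
expressions, uniqueness): `U : YK π →ₗ[ℂ] ℂ`; extend it to `u : (P →L[ℂ] ℂ) →ₗ[ℂ] ℂ` (`LinearMap.exists_extend`).
`ne`: `U l0 ≠ 0`, otherwise `SmA`.
`wt`: `l ∘ Lo_ii ∈ YK` (`YK_LR`), and `(l ∘ Lo_ii)(π(aa t)w_j) = l(Lo_ii(π(aa t)w_j)) = l(π(aa t)(Lo_ii w_j))` (`aa_Lo` with `i = j`: the scalar is `e^0 = 1`),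
`Lo_ii w_j = α i j w_j + x`, `x ∈ span{w_k : k < j} + nbV`; `e^(-c_j t) l(π(aa t)x) → 0`: for `nbV` by `asy_nb`, for `w_k`, `k < j`, by `SmA` (`|e^(-c_j t)| = e^(-Λt)`).
So `u(l ∘ Lo_ii) = α i j u(l)`; the same for `Ro_ii`, `β`.
`nil`: for `i < k`: `(l ∘ Lo_ik)(π(aa t)w_j) = l(Lo_ik(π(aa t)w_j)) = e^(-t(k-i)) l(π(aa t)(Lo_ik w_j))` (`aa_Lo`, inverse scalar), `Lo_ik w_j ∈ VK` (`VK_LR`), and
`|l(π(aa t)(Lo_ik w_j))| ≤ C e^((Λ+1/2)t)` (`h1`), so `e^(-c_j t)` times it tends to `0` (`k - i ≥ 1`).  The same for `Ro`.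
`bound`: let `p` be continuous and `K`-invariant.  `bdP`: `BdA N_p` for `asysP`; `asy_all` for `asysP` with this `Λ`: `hz`: for an index `i = (D, l, c)` and `k`
with `Re c_k > Λ`: `l ∈ YK`, by `h1` `|l(π(aa t)w_k)| ≤ C e^(Nt)` with `Λ < N < Re c_k`, so `e^(-c_k t) l(π(aa t)w_k) → 0`.  So `BdA N` for `asysP` for all `N > Λ`.
`asy_limit` for `asysP` (`hk` from the qualitative `SmA` at `l ∈ YK`) gives `U' : IdxP → ℂ`, with `U' (D,l,c) = U l` (uniqueness of limits) and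
`|U'| ≤ κ i ≤ C(1+D)^M c`.
-/

set_option linter.unusedSectionVars false

namespace Pool.Agent.Work.MP_dd0ddf_al.AR

open scoped SchwartzMap Matrix.Norms.Elementwise ComplexConjugate ContDiff Topology
open Matrix MeasureTheory Filter Asymptotics

noncomputable section

variable {n : ℕ} {P : Type*} [AddCommGroup P] [Module ℂ P] [UniformSpace P] [IsUniformAddGroup P]
  [ContinuousSMul ℂ P] [PolynormableSpace ℂ P] [T2Space P] [CompleteSpace P]
  [FirstCountableTopology P]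

private theorem ac_norm (z : ℂ) (t : ℝ) :
    ‖Complex.exp (-(z * t))‖ = Real.exp (-(z.re * t)) := by
  rw [Complex.norm_exp]
  simp

private theorem ac_tend {F : ℝ → ℂ} {K δ : ℝ} (hδ : 0 < δ)
    (h : ∀ t : ℝ, 0 ≤ t → ‖F t‖ ≤ K * Real.exp (-(δ * t))) : Tendsto F atTop (𝓝 0) := by
  have h1 : Tendsto (fun t : ℝ => K * Real.exp (-(δ * t))) atTop (𝓝 (K * 0)) :=
    (Real.tendsto_exp_neg_atTop_nhds_zero.comp (tendsto_id.const_mul_atTop hδ)).const_mul K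
  rw [mul_zero] at h1
  exact squeeze_zero_norm' ((eventually_ge_atTop 0).mono fun t ht => h t ht) h1

private theorem ac_tend2 {F : ℝ → ℂ} {z : ℂ} {K N : ℝ} (hN : N < z.re)
    (h : ∀ t : ℝ, 0 ≤ t → ‖F t‖ ≤ K * Real.exp (N * t)) :
    Tendsto (fun t : ℝ => Complex.exp (-(z * t)) * F t) atTop (𝓝 0) := by
  refine ac_tend (K := K) (δ := z.re - N) (sub_pos.2 hN) fun t ht => ?_
  rw [norm_mul, ac_norm]
  calc Real.exp (-(z.re * t)) * ‖F t‖ ≤ Real.exp (-(z.re * t)) * (K * Real.exp (N * t)) :=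
        mul_le_mul_of_nonneg_left (h t ht) (Real.exp_pos _).le
    _ = K * (Real.exp (-(z.re * t)) * Real.exp (N * t)) := by ring
    _ = K * Real.exp (-((z.re - N) * t)) := by
        rw [← Real.exp_add]
        congr 2
        ring

theorem CBE_of_Lam (π : GLn n →* (P →L[ℂ] P)) (hπ : IsCW π) (d : Mat n → P →L[ℂ] P)
    (hd : Der π d) {m : ℕ} (w : Fin m → P) (α β : Fin n → Fin m → ℂ) (hw : ∀ j, w j ∈ VK π)
    (hL : ∀ i j, Lo d i i (w j) - α i j • w j ∈ Submodule.span ℂ (w '' {k | k < j}) ⊔ nbV π d)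
    (hR : ∀ i j, Ro d i i (w j) - β i j • w j ∈ Submodule.span ℂ (w '' {k | k < j}) ⊔ nbV π d)
    (hg : VK π ≤ Submodule.span ℂ (Set.range w) ⊔ nbV π d) (Λ : ℝ)
    (h1 : ∀ N : ℝ, Λ < N →
      BdA (VK π) (BtI π (fun l : YK π => (l : P →L[ℂ] ℂ))) (allC _) N)
    (h2 : ∀ N : ℝ, N < Λ →
      ¬ BdA (VK π) (BtI π (fun l : YK π => (l : P →L[ℂ] ℂ))) (allC _) N) :
    ∃ (u : (P →L[ℂ] ℂ) →ₗ[ℂ] ℂ) (a b : Fin n → ℂ), CBE π d u a b := by
  obtain ⟨c, hc⟩ : ∃ c : Fin m → ℂ,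
      c = fun j => ∑ i : Fin n, ((n : ℂ) - (i : ℕ)) * (α i j + β i j) := ⟨_, rfl⟩
  have S := asysY π hπ d hd w α β hw hL hR hg
  rw [← hc] at S
  obtain ⟨j, hj, hsm, i0, hi0⟩ := asy_index S h1 h2
  obtain ⟨U, hU, -, hU0⟩ := asy_limit S h1 j hj hsm
  -- small vectors
  have hsmall : ∀ l : YK π, ∀ x ∈ Submodule.span ℂ (w '' {k | k < j}) ⊔ nbV π d,
      Tendsto (fun t : ℝ => Complex.exp (-(c j * t)) *
        BtI π (fun l : YK π => (l : P →L[ℂ] ℂ)) t l x) atTop (𝓝 0) := by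
    intro l
    let T : Submodule ℂ P :=
      { carrier := {x | Tendsto (fun t : ℝ => Complex.exp (-(c j * t)) *
          BtI π (fun l : YK π => (l : P →L[ℂ] ℂ)) t l x) atTop (𝓝 0)}
        add_mem' := by
          intro x y hx hy
          have h := Tendsto.add hx hy
          rw [add_zero] at h
          refine h.congr fun t => ?_
          rw [map_add, mul_add]
        zero_mem' := by
          show Tendsto _ _ _
          simp only [map_zero, mul_zero]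
          exact tendsto_const_nhds
        smul_mem' := by
          intro a x hx
          have h := Tendsto.const_mul a hx
          rw [mul_zero] at h
          refine h.congr fun t => ?_
          rw [map_smul, smul_eq_mul]
          ring }
    have hT : Submodule.span ℂ (w '' {k | k < j}) ⊔ nbV π d ≤ T := by
      refine sup_le (Submodule.span_le.2 ?_) fun x hx => ?_
      · rintro _ ⟨k, hk, rfl⟩
        obtain ⟨δ, C, hδ, hC⟩ := hsm k hk l
        exact ac_tend2 (N := Λ - δ) (by rw [hj]; linarith) hC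
      · exact asy_nb S h1 hj x hx l
    exact fun x hx => hT hx
  -- the linear functional
  let U' : YK π →ₗ[ℂ] ℂ :=
    { toFun := U
      map_add' := by
        intro x y
        refine tendsto_nhds_unique (hU (x + y)) (((hU x).add (hU y)).congr fun t => ?_)
        rw [← mul_add]
        rfl
      map_smul' := by
        intro a x
        refine tendsto_nhds_unique (hU (a • x)) (((hU x).const_mul a).congr fun t => ?_)
        show a * (_ * (x : P →L[ℂ] ℂ) (π (aa n t) (w j))) =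
          _ * (a * (x : P →L[ℂ] ℂ) (π (aa n t) (w j)))
        ring }
  obtain ⟨u, hu⟩ := LinearMap.exists_extend U'
  have hu' : ∀ (l : P →L[ℂ] ℂ) (hl : l ∈ YK π), u l = U ⟨l, hl⟩ := by
    intro l hl
    exact LinearMap.congr_fun hu ⟨l, hl⟩
  -- uniqueness
  have huniq : ∀ (l : P →L[ℂ] ℂ) (hl : l ∈ YK π) (L : ℂ),
      Tendsto (fun t : ℝ => Complex.exp (-(c j * t)) * l (π (aa n t) (w j))) atTop (𝓝 L) →
        u l = L := by
    intro l hl L h
    rw [hu' l hl]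
    exact tendsto_nhds_unique (hU ⟨l, hl⟩) h
  have hwt : ∀ (A : P →L[ℂ] P) (a : ℂ) (l : P →L[ℂ] ℂ) (hl : l ∈ YK π)
      (hl' : l.comp A ∈ YK π) (hA : ∀ t : ℝ, A (π (aa n t) (w j)) = π (aa n t) (A (w j)))
      (hx : A (w j) - a • w j ∈ Submodule.span ℂ (w '' {k | k < j}) ⊔ nbV π d),
      u (l.comp A) = a * u l := by
    intro A a l hl hl' hA hx
    rw [hu' l hl]
    refine huniq _ hl' _ ?_
    have h3 := ((hU ⟨l, hl⟩).const_mul a).add (hsmall ⟨l, hl⟩ _ hx)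
    rw [add_zero] at h3
    refine h3.congr fun t => ?_
    show a * (_ * l (π (aa n t) (w j))) + _ * l (π (aa n t) (A (w j) - a • w j)) =
      _ * l (A (π (aa n t) (w j)))
    rw [hA, map_sub, map_sub, map_smul, map_smul, smul_eq_mul]
    ring
  have hnil : ∀ (A : P →L[ℂ] P) (l : P →L[ℂ] ℂ) (hl : l ∈ YK π) (hl' : l.comp A ∈ YK π)
      (hv : A (w j) ∈ VK π) (r : ℝ) (hr : 1 ≤ r)
      (hA : ∀ t : ℝ, π (aa n t) (A (w j)) = (Real.exp (t * r) : ℂ) • A (π (aa n t) (w j))),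
      u (l.comp A) = 0 := by
    intro A l hl hl' hv r hr hA
    refine huniq _ hl' _ ?_
    obtain ⟨κ, hκ, hb⟩ := h1 (Λ + 1 / 2) (by linarith) _ hv
    refine ac_tend2 (K := κ ⟨l, hl⟩) (N := Λ - 1 / 2) (by rw [hj]; linarith) fun t ht => ?_
    have h3 : A (π (aa n t) (w j)) = (Real.exp (-(t * r)) : ℂ) • π (aa n t) (A (w j)) := by
      rw [hA, smul_smul, ← Complex.ofReal_mul, ← Real.exp_add, neg_add_cancel, Real.exp_zero,
        Complex.ofReal_one, one_smul]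
    show ‖l (A (π (aa n t) (w j)))‖ ≤ _
    have h4 : ‖l (π (aa n t) (A (w j)))‖ ≤ κ ⟨l, hl⟩ * Real.exp ((Λ + 1 / 2) * t) :=
      hb ⟨l, hl⟩ t ht
    rw [h3, map_smul, norm_smul, Complex.norm_real, Real.norm_of_nonneg (Real.exp_pos _).le]
    have h5 : 0 ≤ κ ⟨l, hl⟩ := hκ _
    calc Real.exp (-(t * r)) * ‖l (π (aa n t) (A (w j)))‖
        ≤ Real.exp (-t) * (κ ⟨l, hl⟩ * Real.exp ((Λ + 1 / 2) * t)) := by
          refine mul_le_mul (Real.exp_le_exp.2 ?_) h4 (norm_nonneg _) (Real.exp_pos _).le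
          nlinarith
      _ = κ ⟨l, hl⟩ * (Real.exp (-t) * Real.exp ((Λ + 1 / 2) * t)) := by ring
      _ = κ ⟨l, hl⟩ * Real.exp ((Λ - 1 / 2) * t) := by
          rw [← Real.exp_add]
          congr 2
          ring
  refine ⟨u, fun i => α i j, fun i => β i j, ?_, ?_, ?_, ?_⟩
  · -- bound
    intro p hp hpK
    obtain ⟨N0, hN0⟩ := bdP π hπ p hp
    have Sp := asysP π hπ d hd w α β hw hL hR hg p hp hpK
    rw [← hc] at Sp
    have hmem : ∀ i : IdxP π p, i.l ∈ YK π := fun i => mem_YK.2 ⟨i.D, i.mem⟩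
    have hz : ∀ (i : IdxP π p) (k : Fin m), Λ < (c k).re →
        Tendsto (fun t : ℝ => Complex.exp (-(c k * t)) *
          BtI π (fun i : IdxP π p => i.l) t i (w k)) atTop (𝓝 0) := by
      intro i k hk
      obtain ⟨κ, -, hb⟩ := h1 ((Λ + (c k).re) / 2) (by linarith) _ (hw k)
      exact ac_tend2 (K := κ ⟨i.l, hmem i⟩) (N := (Λ + (c k).re) / 2) (by linarith)
        fun t ht => hb ⟨i.l, hmem i⟩ t ht
    have h1p : ∀ N : ℝ, Λ < N → BdA (VK π) (BtI π (fun i : IdxP π p => i.l)) (CCp π p) N :=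
      fun N hN => asy_all Sp hN0 hz N hN
    obtain ⟨Up, hUp, ⟨κ, ⟨-, C, M, hC, hκ⟩, hUκ⟩, -⟩ := asy_limit Sp h1p j hj
      (fun k hk i => hsm k hk ⟨i.l, hmem i⟩)
    refine ⟨C, M, fun D l hl e he0 he => ?_⟩
    have h3 : u l = Up ⟨D, l, e, hl, he0, he⟩ :=
      huniq l (mem_YK.2 ⟨D, hl⟩) _ (hUp ⟨D, l, e, hl, he0, he⟩)
    rw [h3]
    exact (hUκ _).trans (hκ _)
  · -- nil
    intro i k hik l hl
    obtain ⟨hl1, hl2⟩ := YK_LR π d hd i k hl
    obtain ⟨hv1, hv2⟩ := VK_LR π d hd i k (hw j)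
    have hr : (1 : ℝ) ≤ ((k : ℕ) : ℝ) - ((i : ℕ) : ℝ) := by
      have h3 : (i : ℕ) + 1 ≤ (k : ℕ) := hik
      have h4 : ((i : ℕ) : ℝ) + 1 ≤ ((k : ℕ) : ℝ) := by exact_mod_cast h3
      linarith
    exact ⟨hnil (Lo d i k) l hl hl1 hv1 _ hr fun t => aa_Lo π d hd i k t _,
      hnil (Ro d i k) l hl hl2 hv2 _ hr fun t => aa_Ro π d hd i k t _⟩
  · -- wt
    intro i l hl
    obtain ⟨hl1, hl2⟩ := YK_LR π d hd i i hl
    refine ⟨hwt (Lo d i i) (α i j) l hl hl1 (fun t => ?_) (hL i j),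
      hwt (Ro d i i) (β i j) l hl hl2 (fun t => ?_) (hR i j)⟩
    · rw [aa_Lo π d hd i i t, sub_self, mul_zero, Real.exp_zero, Complex.ofReal_one, one_smul]
    · rw [aa_Ro π d hd i i t, sub_self, mul_zero, Real.exp_zero, Complex.ofReal_one, one_smul]
  · -- ne
    refine ⟨i0.1, i0.2, fun h => hi0 (hU0 i0 ?_)⟩
    rw [← h, hu' i0.1 i0.2]

end

end Pool.Agent.Work.MP_dd0ddf_al.AR
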