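import Pool.Agent.Work.MP_dd0ddf_al.AR.RDefs

/-!
# MP_dd0ddf_al, archimedean part, block R, module KHB


Consequences of the Hahn-Banach theorem.

PROOF. `exists_functional`: `Module.Dual.exists_continuous_extension_of_le_seminorm` (Mathlib,
`Analysis/LocallyConvex/HahnBanach.lean`) applied to the subspace `ℂ x` and `c x ↦ c p(x)`.  If `p x = 0` take `l = 0`.
`ext_functional`: if `x ≠ y` choose a continuous seminorm with `p (x - y) ≠ 0` (`T2Space` and `PolynormableSpace`; or
`SeparatingDual`).  `seminorm_le`: from `exists_functional`.  `dense_of_functional`: if the closure of `S` is not everything,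
there is a continuous functional vanishing on `S`, nonzero (use `exists_functional` on the quotient, or: for `x` not in the
closure there is a continuous seminorm `p` with `p (x - s) ≥ 1` for all `s ∈ S`; the functional `s + c x ↦ c` on `S + ℂ x`
satisfies `|c| ≤ p(s + c x)`; extend).  `continuous_of_seminorm`: `PolynormableSpace.withSeminorms` and
`WithSeminorms.continuous_of_isBounded` / `WithSeminorms.continuous_of_isBounded` or directly at `0`.
-/

set_option linter.unusedSectionVars false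

namespace Pool.Agent.Work.MP_dd0ddf_al.AR

open scoped SchwartzMap Matrix.Norms.Elementwise ComplexConjugate ContDiff Topology
open Matrix MeasureTheory Filter Asymptotics

noncomputable section

variable {n : ℕ} {P : Type*} [AddCommGroup P] [Module ℂ P] [UniformSpace P] [IsUniformAddGroup P]
  [ContinuousSMul ℂ P] [PolynormableSpace ℂ P] [T2Space P] [CompleteSpace P]
  [FirstCountableTopology P]

theorem exists_functional (p : Seminorm ℂ P) (hp : Continuous p) (x : P) :
    ∃ l : P →L[ℂ] ℂ, (∀ v, ‖l v‖ ≤ p v) ∧ l x = p x := by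
  by_cases hx : x = 0
  · refine ⟨0, fun v => ?_, ?_⟩
    · rw [_root_.zero_apply, norm_zero]
      exact apply_nonneg p v
    · rw [_root_.zero_apply, hx, map_zero, Complex.ofReal_zero]
  let e := LinearEquiv.toSpanNonzeroSingleton ℂ P x hx
  let f : Module.Dual ℂ (Submodule.span ℂ {x}) := (p x : ℂ) • e.symm.toLinearMap
  have he : ∀ s : Submodule.span ℂ {x}, (e.symm s) • x = (s : P) := by
    intro s
    have h1 := congrArg Subtype.val (e.apply_symm_apply s)
    rw [← h1]
    rfl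
  have hf : ∀ s, f s = (p x : ℂ) * e.symm s := fun _ => rfl
  have hle : ∀ s, ‖f s‖ ≤ p s := by
    intro s
    rw [hf, ← he s, map_smul_eq_mul, norm_mul, Complex.norm_real, Real.norm_eq_abs,
      abs_of_nonneg (apply_nonneg p x), mul_comm]
  obtain ⟨g, hg, hgp⟩ := Module.Dual.exists_continuous_extension_of_le_seminorm _ f hp hle
  refine ⟨g, hgp, ?_⟩
  have h2 := hg ⟨x, Submodule.mem_span_singleton_self x⟩
  rw [hf] at h2
  have h3 : e.symm ⟨x, Submodule.mem_span_singleton_self x⟩ = 1 := by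
    rw [LinearEquiv.symm_apply_eq]
    apply Subtype.ext
    change x = (1 : ℂ) • x
    rw [one_smul]
  rw [h3, mul_one] at h2
  exact h2

theorem ext_functional {x y : P} (h : ∀ l : P →L[ℂ] ℂ, l x = l y) : x = y := by
  by_contra hne
  obtain ⟨⟨p, hp⟩, hpx⟩ := (PolynormableSpace.withSeminorms ℂ P).separating_of_T1 (x - y)
    (sub_ne_zero.2 hne)
  obtain ⟨l, -, hl⟩ := exists_functional p hp (x - y)
  rw [map_sub, h l, sub_self] at hl
  exact hpx (by exact_mod_cast hl.symm)

theorem seminorm_le (p : Seminorm ℂ P) (hp : Continuous p) (x : P) (B : ℝ)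
    (h : ∀ l : P →L[ℂ] ℂ, (∀ v, ‖l v‖ ≤ p v) → ‖l x‖ ≤ B) : p x ≤ B := by
  obtain ⟨l, hl, hlx⟩ := exists_functional p hp x
  have h1 := h l hl
  rwa [hlx, Complex.norm_real, Real.norm_eq_abs, abs_of_nonneg (apply_nonneg p x)] at h1

theorem dense_of_functional (S : Submodule ℂ P)
    (h : ∀ l : P →L[ℂ] ℂ, (∀ v ∈ S, l v = 0) → l = 0) : Dense (S : Set P) := by
  intro x
  by_contra hx
  have hU : (closure (S : Set P))ᶜ ∈ 𝓝 x := isClosed_closure.isOpen_compl.mem_nhds hx
  obtain ⟨T, r, hr, hT⟩ := ((PolynormableSpace.withSeminorms ℂ P).mem_nhds_iff x _).1 hU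
  set q : Seminorm ℂ P := T.sup (fun p : {p : Seminorm ℂ P // Continuous p} => p.1) with hq
  have hqc : Continuous q := by
    refine Finset.sup_induction (p := fun q : Seminorm ℂ P => Continuous q) ?_ ?_ ?_
    · exact continuous_const
    · intro a ha b hb
      exact ha.sup hb
    · intro b _
      exact b.2
  have hqx : ∀ s ∈ S, r ≤ q (x - s) := by
    intro s hs
    by_contra hlt
    push Not at hlt
    have h1 : s ∈ q.ball x r := by
      rw [Seminorm.mem_ball, ← neg_sub, map_neg_eq_map]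
      exact hlt
    exact hT h1 (subset_closure hs)
  have hxS : x ∉ (⟨S, 0⟩ : P →ₗ.[ℂ] ℂ).domain := fun hxS => hx (subset_closure hxS)
  let g : P →ₗ.[ℂ] ℂ := LinearPMap.supSpanSingleton (⟨S, 0⟩ : P →ₗ.[ℂ] ℂ) x (r : ℂ) hxS
  have hg : ∀ v : g.domain, ‖g.toFun v‖ ≤ q v := by
    rintro ⟨v, hv⟩
    obtain ⟨s, hs, y, hy, rfl⟩ := Submodule.mem_sup.1 hv
    obtain ⟨c, rfl⟩ := Submodule.mem_span_singleton.1 hy
    have h2 : g.toFun ⟨s + c • x, hv⟩ = c * (r : ℂ) := by
      have h3 := LinearPMap.supSpanSingleton_apply_mk (⟨S, 0⟩ : P →ₗ.[ℂ] ℂ) x (r : ℂ) hxS s hs c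
      have h4 : g.toFun ⟨s + c • x, hv⟩ =
          (⟨S, 0⟩ : P →ₗ.[ℂ] ℂ) ⟨s, hs⟩ + c • (r : ℂ) := h3
      rw [h4, smul_eq_mul]
      have h5 : (⟨S, 0⟩ : P →ₗ.[ℂ] ℂ) ⟨s, hs⟩ = 0 := rfl
      rw [h5, zero_add]
    rw [h2, norm_mul, Complex.norm_real, Real.norm_eq_abs, abs_of_pos hr]
    by_cases hc : c = 0
    · have h0 : ‖c‖ * r = 0 := by rw [hc, norm_zero, zero_mul]
      rw [h0]
      exact apply_nonneg q _
    · have h6 := hqx (-(c⁻¹ • s)) (S.neg_mem (S.smul_mem _ hs))
      have h7 : s + c • x = c • (x - -(c⁻¹ • s)) := by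
        rw [sub_neg_eq_add, smul_add, smul_smul, mul_inv_cancel₀ hc, one_smul, add_comm]
      change ‖c‖ * r ≤ q (s + c • x)
      rw [h7, map_smul_eq_mul]
      exact mul_le_mul_of_nonneg_left h6 (norm_nonneg c)
  obtain ⟨l, hl, -⟩ :=
    Module.Dual.exists_continuous_extension_of_le_seminorm g.domain g.toFun hqc hg
  have hSg : ∀ v ∈ S, ∀ c : ℂ, v + c • x ∈ g.domain := fun v hv c =>
    Submodule.add_mem_sup hv (Submodule.smul_mem _ c (Submodule.mem_span_singleton_self x))
  have hval : ∀ v (hv : v ∈ S) (c : ℂ), l (v + c • x) = c * (r : ℂ) := by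
    intro v hv c
    have h8 := hl ⟨v + c • x, hSg v hv c⟩
    have h3 := LinearPMap.supSpanSingleton_apply_mk (⟨S, 0⟩ : P →ₗ.[ℂ] ℂ) x (r : ℂ) hxS v hv c
    have h4 : g.toFun ⟨v + c • x, hSg v hv c⟩ =
        (⟨S, 0⟩ : P →ₗ.[ℂ] ℂ) ⟨v, hv⟩ + c • (r : ℂ) := h3
    have h5 : (⟨S, 0⟩ : P →ₗ.[ℂ] ℂ) ⟨v, hv⟩ = 0 := rfl
    rw [h4, h5, zero_add, smul_eq_mul] at h8
    exact h8
  have hl0 : l = 0 := by
    apply h
    intro v hv
    have h9 := hval v hv 0
    rwa [zero_smul, add_zero, zero_mul] at h9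
  have h10 := hval 0 S.zero_mem 1
  rw [hl0, _root_.zero_apply, one_mul] at h10
  exact hr.ne (by exact_mod_cast h10)

theorem continuous_of_seminorm (T : P →ₗ[ℂ] P)
    (h : ∀ p : Seminorm ℂ P, Continuous p → ∃ q : Seminorm ℂ P, Continuous q ∧
      ∀ v, p (T v) ≤ q v) : Continuous T := by
  refine WithSeminorms.continuous_of_isBounded (PolynormableSpace.withSeminorms ℂ P)
    (PolynormableSpace.withSeminorms ℂ P) T ?_
  rintro ⟨p, hp⟩
  obtain ⟨q, hq, hpq⟩ := h p hp
  refine ⟨{⟨q, hq⟩}, 1, ?_⟩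
  intro v
  rw [Finset.sup_singleton, one_smul]
  exact hpq v

/-- every continuous functional is bounded by a continuous seminorm -/
theorem functional_bound (l : P →L[ℂ] ℂ) :
    ∃ p : Seminorm ℂ P, Continuous p ∧ ∀ v, ‖l v‖ ≤ p v := by
  refine ⟨(normSeminorm ℂ ℂ).comp l.toLinearMap, ?_, fun v => le_rfl⟩
  exact l.continuous.norm

end

end Pool.Agent.Work.MP_dd0ddf_al.AR
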