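import Pool.Agent.Work.MP_dd0ddf_al.AR.RKDefs

/-!
# MP_dd0ddf_al, archimedean part, block R, module KPb


`PK` is stable under conjugation and `k ↦ k⁻¹`, products add degrees; constants and entries.

PROOF. `conj`: if `f k = eval (evv k) q`, then `conj (f k) = eval (evv k) q'`, where `q'` = `q` with conjugated
coefficients (`MvPolynomial.map (starRingEnd ℂ)`) and the variables `inl`, `inr` exchanged
(`MvPolynomial.rename Sum.swap`); total degrees do not increase (`totalDegree_rename_le`, and for `map`: the support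
of `map f q` is contained in the support of `q`).  `inv`: `(k⁻¹)_ij = conj (k_ji)` (`KU_inv`), so
`evv (k⁻¹) (inl (i,j)) = evv k (inr (j,i))`, `evv (k⁻¹) (inr (i,j)) = evv k (inl (j,i))`: `rename` again.
`mul`: `totalDegree_mul`.  Entries: `X (inl (i,j))`, `totalDegree_X`; constants `C c`.
-/

set_option linter.unusedSectionVars false

namespace Pool.Agent.Work.MP_dd0ddf_al.AR

open scoped SchwartzMap Matrix.Norms.Elementwise ComplexConjugate ContDiff Topology
open Matrix MeasureTheory Filter Asymptotics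

noncomputable section

variable {n : ℕ}

private theorem conj_evv (g : Mat n) (x : Vars n) : conj (evv g x) = evv g (Sum.swap x) := by
  rcases x with p | p
  · rfl
  · exact Complex.conj_conj _

private theorem td_map_le (q : MvPolynomial (Vars n) ℂ) :
    (MvPolynomial.map (starRingEnd ℂ) q).totalDegree ≤ q.totalDegree := by
  classical
  rw [MvPolynomial.totalDegree, MvPolynomial.totalDegree]
  exact Finset.sup_mono (MvPolynomial.support_map_subset (starRingEnd ℂ) q)

theorem PK_conj {d : ℕ} {f : KU n → ℂ} (hf : f ∈ PK n d) : (fun k => conj (f k)) ∈ PK n d := by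
  obtain ⟨q, hq, hf⟩ := hf
  refine ⟨MvPolynomial.rename Sum.swap (MvPolynomial.map (starRingEnd ℂ) q),
    (MvPolynomial.totalDegree_rename_le _ _).trans ((td_map_le q).trans hq), ?_⟩
  intro k
  show conj (f k) = _
  rw [hf, MvPolynomial.eval_rename, MvPolynomial.eval_map]
  have h1 := MvPolynomial.eval₂_comp_left (starRingEnd ℂ) (RingHom.id ℂ)
    (evv ((k : GLn n) : Mat n)) q
  have h2 : (starRingEnd ℂ) ∘ (evv ((k : GLn n) : Mat n)) = evv ((k : GLn n) : Mat n) ∘ Sum.swap := by
    funext x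
    exact conj_evv _ x
  rw [h2, RingHom.comp_id] at h1
  exact h1

theorem PK_inv {d : ℕ} {f : KU n → ℂ} (hf : f ∈ PK n d) : (fun k => f k⁻¹) ∈ PK n d := by
  obtain ⟨q, hq, hf⟩ := hf
  refine ⟨MvPolynomial.rename (Sum.elim (fun p => Sum.inr p.swap) (fun p => Sum.inl p.swap)) q,
    (MvPolynomial.totalDegree_rename_le _ _).trans hq, ?_⟩
  intro k
  show f k⁻¹ = _
  rw [hf, MvPolynomial.eval_rename]
  have h1 : (((k⁻¹ : KU n) : GLn n) : Mat n) = (((k : GLn n) : Mat n))ᴴ := KU_inv k
  rw [h1]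
  congr 2
  funext x
  rcases x with p | p
  · rfl
  · exact Complex.conj_conj _

theorem PK_mul {d e : ℕ} {f g : KU n → ℂ} (hf : f ∈ PK n d) (hg : g ∈ PK n e) :
    (fun k => f k * g k) ∈ PK n (d + e) := by
  obtain ⟨q, hq, hf⟩ := hf
  obtain ⟨r, hr, hg⟩ := hg
  refine ⟨q * r, (MvPolynomial.totalDegree_mul q r).trans (add_le_add hq hr), ?_⟩
  intro k
  show f k * g k = _
  rw [hf, hg, map_mul]

theorem PK_const (d : ℕ) (c : ℂ) : (fun _ : KU n => c) ∈ PK n d := by
  refine ⟨MvPolynomial.C c, ?_, ?_⟩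
  · rw [MvPolynomial.totalDegree_C]
    exact Nat.zero_le d
  · intro k
    rw [MvPolynomial.eval_C]

theorem PK_entry (i j : Fin n) : (fun k : KU n => ((k : GLn n) : Mat n) i j) ∈ PK n 1 := by
  refine ⟨MvPolynomial.X (Sum.inl (i, j)), ?_, ?_⟩
  · rw [MvPolynomial.totalDegree_X]
  · intro k
    rw [MvPolynomial.eval_X]
    rfl

theorem PK_entry_conj (i j : Fin n) :
    (fun k : KU n => conj (((k : GLn n) : Mat n) i j)) ∈ PK n 1 := by
  refine ⟨MvPolynomial.X (Sum.inr (i, j)), ?_, ?_⟩
  · rw [MvPolynomial.totalDegree_X]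
  · intro k
    rw [MvPolynomial.eval_X]
    rfl

end

end Pool.Agent.Work.MP_dd0ddf_al.AR
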