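import Pool.Agent.Work.MP_dd0ddf_al.AR.KPa
import Pool.Agent.Work.MP_dd0ddf_al.AR.KPb
import Pool.Agent.Work.MP_dd0ddf_al.AR.KPc
import Pool.Agent.Work.MP_dd0ddf_al.AR.KPd

/-!
# MP_dd0ddf_al, archimedean part, block R, module KPf


The reproducing kernel of `PK n d` in `L²(K)`.

PROOF. On the finite dimensional space `PK n d` the form `<f, g> = ∫ conj (f k) g k` is a positive definite hermitian
form (`f` continuous, `∫ |f|^2 = 0 ⇒ f = 0`; muK is positive on open sets).  Choose an orthonormal basis `e_j`, `j < m`,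
`m = finrank` (e.g. make `PK n d` an inner product space by `InnerProductSpace.ofCore` and use
`stdOrthonormalBasis`; or Gram-Schmidt).  Put `κ = ∑ j, conj (e_j 1) e_j`.  For `f = ∑ c_j e_j`:
`∫ conj κ f = ∑ e_j(1) c_j = f 1`.  `∫ |κ|^2 = κ(1) = ∑ |e_j 1|^2`.  For `k0 ∈ K` the functions `e_j(k0 ·)` are again an
orthonormal basis of `PK n d` (`PK_left`, left invariance of `muK`), and the sum `∑ |e_j(1)|^2` does not depend on
the orthonormal basis (it is `sup |f 1|^2` over `∫|f|^2 ≤ 1`, or: both kernels represent the functional `f ↦ f 1`, so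
they are equal, and their values at `1` are equal); so `∑ |e_j(k0)|^2 = ∑ |e_j(1)|^2`, and integrating over `k0` gives
`m`.  `PK_sup`: for `f ∈ PK n d` and `k0`, apply the kernel to `f(k0 ·)` and Cauchy-Schwarz
(`integral_mul_le_Lp_mul_Lq_of_nonneg` or `MeasureTheory.integral_mul_norm_le_Lp_mul_Lq`, or by hand from
`2|ab| ≤ s|a|^2 + |b|^2/s`), left invariance of `muK`.
-/

set_option linter.unusedSectionVars false

namespace Pool.Agent.Work.MP_dd0ddf_al.AR

open scoped SchwartzMap Matrix.Norms.Elementwise ComplexConjugate ContDiff Topology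
open Matrix MeasureTheory Filter Asymptotics

noncomputable section

variable {n : ℕ}

private theorem kf_int {f : KU n → ℂ} (hf : Continuous f) : Integrable f (muK n) :=
  hf.integrable_of_hasCompactSupport (HasCompactSupport.of_compactSpace f)

private theorem kf_inner {f g : KU n → ℂ} (hf : Continuous f) (hg : Continuous g) :
    inner ℂ (ContinuousMap.toLp 2 (muK n) ℂ (⟨f, hf⟩ : C(KU n, ℂ)))
      (ContinuousMap.toLp 2 (muK n) ℂ (⟨g, hg⟩ : C(KU n, ℂ))) =
      ∫ k, conj (f k) * g k ∂(muK n) := by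
  rw [ContinuousMap.inner_toLp]
  refine integral_congr_ae (Eventually.of_forall fun k => ?_)
  exact mul_comm _ _

private theorem kf_sq {f : KU n → ℂ} :
    ∫ k, conj (f k) * f k ∂(muK n) = ((∫ k, ‖f k‖ ^ 2 ∂(muK n) : ℝ) : ℂ) := by
  refine Eq.trans (integral_congr_ae (Eventually.of_forall fun k => ?_)) integral_complex_ofReal
  show conj (f k) * f k = ((‖f k‖ ^ 2 : ℝ) : ℂ)
  rw [Complex.conj_mul']
  push_cast
  rfl

private theorem kf_cs {f g : KU n → ℂ} (hf : Continuous f) (hg : Continuous g) :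
    ‖∫ k, conj (f k) * g k ∂(muK n)‖ ^ 2 ≤
      (∫ k, ‖f k‖ ^ 2 ∂(muK n)) * ∫ k, ‖g k‖ ^ 2 ∂(muK n) := by
  have h1 := norm_inner_le_norm (𝕜 := ℂ) (ContinuousMap.toLp 2 (muK n) ℂ (⟨f, hf⟩ : C(KU n, ℂ)))
    (ContinuousMap.toLp 2 (muK n) ℂ (⟨g, hg⟩ : C(KU n, ℂ)))
  rw [kf_inner hf hg] at h1
  have h2 : ∀ (u : KU n → ℂ) (hu : Continuous u),
      ‖ContinuousMap.toLp 2 (muK n) ℂ (⟨u, hu⟩ : C(KU n, ℂ))‖ ^ 2 =
        ∫ k, ‖u k‖ ^ 2 ∂(muK n) := by
    intro u hu
    have h3 := inner_self_eq_norm_sq_to_K (𝕜 := ℂ)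
      (ContinuousMap.toLp 2 (muK n) ℂ (⟨u, hu⟩ : C(KU n, ℂ)))
    rw [kf_inner hu hu, kf_sq] at h3
    have h4 : ((∫ k, ‖u k‖ ^ 2 ∂(muK n) : ℝ) : ℂ) =
      ((‖ContinuousMap.toLp 2 (muK n) ℂ (⟨u, hu⟩ : C(KU n, ℂ))‖ ^ 2 : ℝ) : ℂ) := by
      rw [h3]
      push_cast
      rfl
    exact (Complex.ofReal_injective h4).symm
  rw [← h2 f hf, ← h2 g hg, ← mul_pow]
  exact pow_le_pow_left₀ (norm_nonneg _) h1 2

/-- `PK n d` in `L²(K)` -/
private def kfL (n d : ℕ) : PK n d →ₗ[ℂ] Lp ℂ 2 (muK n) where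
  toFun f := ContinuousMap.toLp 2 (muK n) ℂ (⟨f.1, PK_cont f.2⟩ : C(KU n, ℂ))
  map_add' f g := by
    rw [← map_add]
    rfl
  map_smul' c f := by
    rw [RingHom.id_apply, ← map_smul]
    rfl

private theorem kfL_inj (n d : ℕ) : Function.Injective (kfL n d) := by
  intro f g h
  have h1 := ContinuousMap.toLp_injective (p := 2) (𝕜 := ℂ) (muK n) h
  have h2 : f.1 = g.1 := congrArg (fun u : C(KU n, ℂ) => (u : KU n → ℂ)) h1
  exact Subtype.ext h2

private theorem kf_onb (n d : ℕ) : ∃ e : Fin (Module.finrank ℂ (PK n d)) → KU n → ℂ,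
    (∀ j, e j ∈ PK n d) ∧
    (∀ j, ∫ k, conj (e j k) * e j k ∂(muK n) = 1) ∧
    (∀ f ∈ PK n d, ∀ k, f k = ∑ j, (∫ x, conj (e j x) * f x ∂(muK n)) * e j k) := by
  have hfr : Module.finrank ℂ (LinearMap.range (kfL n d)) = Module.finrank ℂ (PK n d) :=
    LinearMap.finrank_range_of_inj (kfL_inj n d)
  have b := (stdOrthonormalBasis ℂ (LinearMap.range (kfL n d))).reindex (finCongr hfr)
  have hv : ∀ j, ∃ v : PK n d, kfL n d v = (b j : Lp ℂ 2 (muK n)) := fun j => (b j).2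
  choose v hv using hv
  refine ⟨fun j => (v j).1, fun j => (v j).2, fun j => ?_, fun f hf k => ?_⟩
  · rw [← kf_inner (PK_cont (v j).2) (PK_cont (v j).2)]
    have h1 : inner ℂ (kfL n d (v j)) (kfL n d (v j)) = (1 : ℂ) := by
      rw [hv, ← Submodule.coe_inner, inner_self_eq_norm_sq_to_K, b.orthonormal.1 j]
      simp
    exact h1
  · have h1 := congrArg Subtype.val
      (b.sum_repr' ⟨kfL n d ⟨f, hf⟩, LinearMap.mem_range_self _ _⟩)
    rw [Submodule.coe_sum] at h1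
    have h2 : kfL n d (∑ j, (∫ x, conj ((v j).1 x) * f x ∂(muK n)) • v j) =
        kfL n d ⟨f, hf⟩ := by
      rw [map_sum]
      refine Eq.trans (Finset.sum_congr rfl fun j _ => ?_) h1
      rw [map_smul, Submodule.coe_smul, hv, Submodule.coe_inner, ← hv]
      congr 1
      exact (kf_inner (PK_cont (v j).2) (PK_cont hf)).symm
    have h3 := congrArg (fun u : PK n d => u.1 k) (kfL_inj n d h2)
    simp only at h3
    rw [← h3, Submodule.coe_sum, Finset.sum_apply]
    rfl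

private theorem kf_rep {d m : ℕ} {e : Fin m → KU n → ℂ} (he : ∀ j, e j ∈ PK n d)
    (hexp : ∀ f ∈ PK n d, ∀ k, f k = ∑ j, (∫ x, conj (e j x) * f x ∂(muK n)) * e j k)
    {f : KU n → ℂ} (hf : f ∈ PK n d) (k0 : KU n) :
    f k0 = ∫ k, conj (∑ j, conj (e j k0) * e j k) * f k ∂(muK n) := by
  have h1 : (fun k => conj (∑ j, conj (e j k0) * e j k) * f k) =
      fun k => ∑ j, e j k0 * (conj (e j k) * f k) := by
    funext k
    rw [map_sum, Finset.sum_mul]
    refine Finset.sum_congr rfl fun j _ => ?_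
    rw [map_mul, Complex.conj_conj]
    ring
  have hint : ∀ j, Integrable (fun k => conj (e j k) * f k) (muK n) := fun j =>
    kf_int ((Complex.continuous_conj.comp (PK_cont (he j))).mul (PK_cont hf))
  rw [h1, integral_finsetSum _ fun j _ => (hint j).const_mul _, hexp f hf k0]
  refine Finset.sum_congr rfl fun j _ => ?_
  rw [integral_const_mul, mul_comm]

private theorem kf_mem {d m : ℕ} {e : Fin m → KU n → ℂ} (he : ∀ j, e j ∈ PK n d) (k0 : KU n) :
    (fun k => ∑ j, conj (e j k0) * e j k) ∈ PK n d := by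
  have h1 : (fun k => ∑ j, conj (e j k0) * e j k) = ∑ j, conj (e j k0) • e j := by
    funext k
    rw [Finset.sum_apply]
    rfl
  rw [h1]
  exact Submodule.sum_mem _ fun j _ => Submodule.smul_mem _ _ (he j)

private theorem kf_diag {d m : ℕ} {e : Fin m → KU n → ℂ} (he : ∀ j, e j ∈ PK n d)
    (hexp : ∀ f ∈ PK n d, ∀ k, f k = ∑ j, (∫ x, conj (e j x) * f x ∂(muK n)) * e j k)
    (k0 : KU n) :
    (∑ j, conj (e j k0) * e j k0) = ∑ j, conj (e j 1) * e j 1 := by
  have h0 := kf_mem he (1 : KU n)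
  have h1 := PK_left (kf_mem he k0) k0
  have h2 := kf_rep he hexp h1 1
  have h3 : (∑ j, conj (e j 1) * e j 1) =
      ∫ k, conj (∑ j, conj (e j k0) * e j (k0 * k)) * (∑ j, conj (e j 1) * e j k) ∂(muK n) := by
    have h4 := kf_rep he hexp (PK_left h0 k0⁻¹) k0
    rw [inv_mul_cancel] at h4
    rw [h4, ← integral_mul_left_eq_self _ k0]
    refine integral_congr_ae (Eventually.of_forall fun k => ?_)
    simp only [inv_mul_cancel_left]
  have h5 : conj (∑ j, conj (e j 1) * e j 1) = ∑ j, conj (e j 1) * e j 1 := by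
    rw [map_sum]
    refine Finset.sum_congr rfl fun j _ => ?_
    rw [map_mul, Complex.conj_conj, mul_comm]
  rw [← h5, h3, ← integral_conj]
  have h6 : (∑ j, conj (e j k0) * e j k0) =
      ∫ k, conj (∑ j, conj (e j 1) * e j k) * (∑ j, conj (e j k0) * e j (k0 * k)) ∂(muK n) := by
    rw [← h2, mul_one]
  rw [h6]
  refine integral_congr_ae (Eventually.of_forall fun k => ?_)
  show _ = conj (conj _ * _)
  rw [map_mul, Complex.conj_conj, mul_comm]

theorem PK_kernel (n d : ℕ) : ∃ κ ∈ PK n d,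
    (∀ f ∈ PK n d, f 1 = ∫ k, conj (κ k) * f k ∂(muK n)) ∧
    ∫ k, ‖κ k‖ ^ 2 ∂(muK n) = Module.finrank ℂ (PK n d) := by
  obtain ⟨e, he, hn, hexp⟩ := kf_onb n d
  refine ⟨fun k => ∑ j, conj (e j 1) * e j k, kf_mem he 1, fun f hf => kf_rep he hexp hf 1, ?_⟩
  have h1 := kf_rep he hexp (kf_mem he (1 : KU n)) 1
  rw [kf_sq] at h1
  have h2 : (∑ j, conj (e j 1) * e j 1) = (Module.finrank ℂ (PK n d) : ℂ) := by
    have h3 : ∫ k, (∑ j, conj (e j k) * e j k) ∂(muK n) = (Module.finrank ℂ (PK n d) : ℂ) := by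
      have hint : ∀ j, Integrable (fun k => conj (e j k) * e j k) (muK n) := fun j =>
        kf_int ((Complex.continuous_conj.comp (PK_cont (he j))).mul (PK_cont (he j)))
      rw [integral_finsetSum _ fun j _ => hint j]
      simp only [hn]
      simp
    rw [← h3]
    simp only [kf_diag he hexp]
    simp
  rw [h2] at h1
  exact_mod_cast h1.symm

theorem PK_sup {d : ℕ} {f : KU n → ℂ} (hf : f ∈ PK n d) (k0 : KU n) :
    ‖f k0‖ ^ 2 ≤ Module.finrank ℂ (PK n d) * ∫ k, ‖f k‖ ^ 2 ∂(muK n) := by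
  obtain ⟨κ, hκ, h1, h2⟩ := PK_kernel n d
  have h3 := h1 _ (PK_left hf k0)
  simp only [mul_one] at h3
  have h4 := kf_cs (PK_cont hκ) (PK_cont (PK_left hf k0))
  rw [← h3, h2, integral_mul_left_eq_self (fun k => ‖f k‖ ^ 2) k0] at h4
  exact h4

end

end Pool.Agent.Work.MP_dd0ddf_al.AR
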