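import Pool.Agent.Work.MP_dd0ddf_al.AR.RKDefs
import Pool.Agent.Work.MP_dd0ddf_al.AR.KHB

/-!
# MP_dd0ddf_al, archimedean part, block R, module KWI


Weak integrals of continuous compactly supported functions with values in a Frechet space.

PROOF. `P` is first countable and polynormable: there is a sequence of continuous seminorms `p_0 ≤ p_1 ≤ ...` such that every
neighbourhood of `0` contains a ball `{p_m < r}` (take a countable basis `U_m` of neighbourhoods of `0`, for each a continuous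
seminorm whose ball is in `U_m`, `PolynormableSpace.withSeminorms`, and finite sums).  `K = tsupport φ` is compact, `φ(K)`
is compact.  For each `m` cover `K` by finitely many measurable disjoint pieces `A` on which
`p_m (φ z - φ z_A) ≤ 1/(m+1)` (cover the compact set `K` by open sets where the oscillation is small, finite subcover,
disjointify), and put `S_m = ∑_A μ(A).toReal • φ(z_A)`.  For `l` with `|l| ≤ p_m`: `|l(S_m) - ∫ l(φ)| ≤ μ(K)/(m+1)`
(`setIntegral`, the pieces cover `K`).  For `m ≤ m'` and `|l| ≤ p_m ≤ p_m'`: `|l(S_m - S_m')| ≤ 2 μ(K)/(m+1)`; by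
`exists_functional` `p_m(S_m - S_m') ≤ 2 μ(K)/(m+1)`.  So `S_m` is a Cauchy sequence; `P` is complete: limit `x`.  Every
continuous `l` satisfies `|l| ≤ C p_m` for some `m, C`, so `l(S_m') → ∫ l(φ)`, hence `l x = ∫ l(φ)`.
-/

set_option linter.unusedSectionVars false

namespace Pool.Agent.Work.MP_dd0ddf_al.AR

open scoped SchwartzMap Matrix.Norms.Elementwise ComplexConjugate ContDiff Topology
open Matrix MeasureTheory Filter Asymptotics

noncomputable section

variable {n : ℕ} {P : Type*} [AddCommGroup P] [Module ℂ P] [UniformSpace P] [IsUniformAddGroup P]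
  [ContinuousSMul ℂ P] [PolynormableSpace ℂ P] [T2Space P] [CompleteSpace P]
  [FirstCountableTopology P]

private theorem kw_sup_cont (s : Finset {p : Seminorm ℂ P // Continuous p}) :
    Continuous (⇑(s.sup (fun p : {p : Seminorm ℂ P // Continuous p} => (p.1 : Seminorm ℂ P)))) := by
  classical
  induction s using Finset.induction_on with
  | empty =>
    rw [Finset.sup_empty]
    exact continuous_const
  | insert a s _ ih =>
    rw [Finset.sup_insert, Seminorm.coe_sup]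
    exact a.2.sup ih

private theorem kw_ball {U : Set P} (hU : U ∈ 𝓝 (0 : P)) :
    ∃ p : Seminorm ℂ P, Continuous p ∧ ∃ r : ℝ, 0 < r ∧ ∀ x, p x < r → x ∈ U := by
  obtain ⟨s, r, hr, h⟩ := ((PolynormableSpace.withSeminorms ℂ P).mem_nhds_iff 0 U).1 hU
  refine ⟨_, kw_sup_cont s, r, hr, fun x hx => h ?_⟩
  rw [Seminorm.mem_ball_zero]
  exact hx

private theorem kw_cover {Z : Type*} [TopologicalSpace Z] [MeasurableSpace Z] [BorelSpace Z]
    (μ : Measure Z) [IsFiniteMeasureOnCompacts μ] (φ : Z → P) (hφ : Continuous φ)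
    (hc : HasCompactSupport φ) (p : Seminorm ℂ P) (hp : Continuous p) {δ : ℝ} (hδ : 0 < δ) :
    ∃ x : P, ∀ l : P →L[ℂ] ℂ, (∀ v, ‖l v‖ ≤ p v) →
      ‖l x - ∫ z, l (φ z) ∂μ‖ ≤ δ * μ.real (tsupport φ) := by
  have hK : IsCompact (tsupport φ) := hc
  have hKm : MeasurableSet (tsupport φ) := (isClosed_tsupport φ).measurableSet
  have hfin : μ (tsupport φ) < ⊤ := hK.measure_lt_top
  have hint : ∀ l : P →L[ℂ] ℂ, Integrable (fun z => l (φ z)) μ := fun l =>
    (l.continuous.comp hφ).integrable_of_hasCompactSupport (hc.comp_left (map_zero l))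
  have key : ∃ t : Set Z, MeasurableSet t ∧ tsupport φ ⊆ t ∧ ∀ A : Set Z, MeasurableSet A →
      A ⊆ t → A ⊆ tsupport φ → ∃ x : P, ∀ l : P →L[ℂ] ℂ, (∀ v, ‖l v‖ ≤ p v) →
        ‖l x - ∫ z in A, l (φ z) ∂μ‖ ≤ δ * μ.real A := by
    refine hK.induction_on (p := fun s => ∃ t : Set Z, MeasurableSet t ∧ s ⊆ t ∧
      ∀ A : Set Z, MeasurableSet A → A ⊆ t → A ⊆ tsupport φ → ∃ x : P, ∀ l : P →L[ℂ] ℂ,
        (∀ v, ‖l v‖ ≤ p v) → ‖l x - ∫ z in A, l (φ z) ∂μ‖ ≤ δ * μ.real A) ?_ ?_ ?_ ?_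
    · refine ⟨∅, MeasurableSet.empty, le_rfl, fun A _ hA _ => ⟨0, fun l _ => ?_⟩⟩
      rw [Set.subset_empty_iff.1 hA]
      simp
    · rintro s t hst ⟨u, hu, htu, h⟩
      exact ⟨u, hu, hst.trans htu, h⟩
    · rintro s t ⟨u, hu, hsu, h⟩ ⟨u', hu', htu, h'⟩
      refine ⟨u ∪ u', hu.union hu', Set.union_subset_union hsu htu, fun A hA hAu hAK => ?_⟩
      obtain ⟨x, hx⟩ := h (A ∩ u) (hA.inter hu) Set.inter_subset_right
        (Set.inter_subset_left.trans hAK)
      obtain ⟨x', hx'⟩ := h' (A \ u) (hA.diff hu) (by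
        intro z hz
        rcases hAu hz.1 with h1 | h1
        · exact absurd h1 hz.2
        · exact h1) (Set.sdiff_subset.trans hAK)
      refine ⟨x + x', fun l hl => ?_⟩
      have e1 : ∫ z in A, l (φ z) ∂μ =
          (∫ z in A ∩ u, l (φ z) ∂μ) + ∫ z in A \ u, l (φ z) ∂μ :=
        (integral_inter_add_sdiff hu (hint l).integrableOn).symm
      have hAfin : μ A ≠ ⊤ := ((measure_mono hAK).trans_lt hfin).ne
      have e2 : μ.real A = μ.real (A ∩ u) + μ.real (A \ u) :=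
        (measureReal_inter_add_sdiff hu hAfin).symm
      have e3 : l (x + x') - ∫ z in A, l (φ z) ∂μ =
          (l x - ∫ z in A ∩ u, l (φ z) ∂μ) + (l x' - ∫ z in A \ u, l (φ z) ∂μ) := by
        rw [map_add, e1]
        ring
      rw [e3, e2, mul_add]
      exact (norm_add_le _ _).trans (add_le_add (hx l hl) (hx' l hl))
    · intro z0 _
      have hopen : IsOpen {z | p (φ z - φ z0) < δ} :=
        isOpen_lt (hp.comp (hφ.sub continuous_const)) continuous_const
      refine ⟨{z | p (φ z - φ z0) < δ}, mem_nhdsWithin_of_mem_nhds (hopen.mem_nhds ?_),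
        {z | p (φ z - φ z0) < δ}, hopen.measurableSet, le_rfl, fun A hA hAt hAK => ?_⟩
      · show p (φ z0 - φ z0) < δ
        rw [sub_self, map_zero]
        exact hδ
      · have hAfin : μ A < ⊤ := (measure_mono hAK).trans_lt hfin
        refine ⟨((μ.real A : ℝ) : ℂ) • φ z0, fun l hl => ?_⟩
        have e1 : l (((μ.real A : ℝ) : ℂ) • φ z0) = ∫ _ in A, l (φ z0) ∂μ := by
          rw [setIntegral_const, map_smul, smul_eq_mul, Complex.real_smul]
        have e2 : l (((μ.real A : ℝ) : ℂ) • φ z0) - ∫ z in A, l (φ z) ∂μ =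
            ∫ z in A, (l (φ z0) - l (φ z)) ∂μ := by
          rw [e1, integral_sub (integrableOn_const (C := l (φ z0)) hAfin.ne).integrable (hint l).integrableOn]
        rw [e2]
        refine norm_setIntegral_le_of_norm_le_const hAfin (fun z hz => ?_)
        rw [← map_sub]
        refine (hl _).trans ?_
        rw [← neg_sub, map_neg_eq_map]
        exact (hAt hz).le
  obtain ⟨t, _, hKt, h⟩ := key
  obtain ⟨x, hx⟩ := h _ hKm hKt le_rfl
  refine ⟨x, fun l hl => ?_⟩
  have e : ∫ z, l (φ z) ∂μ = ∫ z in tsupport φ, l (φ z) ∂μ := by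
    refine (setIntegral_eq_integral_of_forall_compl_eq_zero fun z hz => ?_).symm
    rw [image_eq_zero_of_notMem_tsupport hz, map_zero]
  rw [e]
  exact hx l hl

theorem weak_integral {Z : Type*} [TopologicalSpace Z] [MeasurableSpace Z] [BorelSpace Z]
    (μ : Measure Z) [IsFiniteMeasureOnCompacts μ] (φ : Z → P) (hφ : Continuous φ)
    (hc : HasCompactSupport φ) :
    ∃ x : P, ∀ l : P →L[ℂ] ℂ, l x = ∫ z, l (φ z) ∂μ := by
  let A : {p : Seminorm ℂ P // Continuous p} × {ε : ℝ // 0 < ε} → Set P := fun i =>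
    {x | ∀ l : P →L[ℂ] ℂ, (∀ v, ‖l v‖ ≤ i.1.1 v) → ‖l x - ∫ z, l (φ z) ∂μ‖ ≤ i.2.1}
  have hne : ∀ i, (A i).Nonempty := by
    rintro ⟨⟨p, hp⟩, ⟨ε, hε⟩⟩
    have hM : 0 ≤ μ.real (tsupport φ) := measureReal_nonneg
    obtain ⟨x, hx⟩ := kw_cover μ φ hφ hc p hp (δ := ε / (μ.real (tsupport φ) + 1)) (by positivity)
    refine ⟨x, fun l hl => (hx l hl).trans ?_⟩
    show ε / (μ.real (tsupport φ) + 1) * μ.real (tsupport φ) ≤ ε
    rw [div_mul_eq_mul_div, div_le_iff₀ (by positivity)]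
    nlinarith
  have hmono : ∀ i j : {p : Seminorm ℂ P // Continuous p} × {ε : ℝ // 0 < ε},
      (∀ v, i.1.1 v ≤ j.1.1 v) → j.2.1 ≤ i.2.1 → A j ⊆ A i := by
    intro i j h1 h2 x hx l hl
    exact (hx l fun v => (hl v).trans (h1 v)).trans h2
  have hdir : Directed (· ≥ ·) fun i => 𝓟 (A i) := by
    intro i j
    refine ⟨(⟨i.1.1 ⊔ j.1.1, ?_⟩, ⟨min i.2.1 j.2.1, lt_min i.2.2 j.2.2⟩), ?_, ?_⟩
    · rw [Seminorm.coe_sup]
      exact i.1.2.sup j.1.2
    · show 𝓟 _ ≤ 𝓟 _
      rw [principal_mono]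
      refine hmono _ _ (fun v => ?_) (min_le_left _ _)
      exact le_max_left _ _
    · show 𝓟 _ ≤ 𝓟 _
      rw [principal_mono]
      refine hmono _ _ (fun v => ?_) (min_le_right _ _)
      exact le_max_right _ _
  have : Nonempty ({p : Seminorm ℂ P // Continuous p} × {ε : ℝ // 0 < ε}) :=
    ⟨(⟨0, continuous_const⟩, ⟨1, one_pos⟩)⟩
  have hF : (⨅ i, 𝓟 (A i)).NeBot :=
    iInf_neBot_of_directed' hdir fun i => principal_neBot_iff.2 (hne i)
  have hmem : ∀ i, A i ∈ ⨅ i, 𝓟 (A i) := fun i =>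
    mem_iInf_of_mem i (mem_principal_self _)
  have hC : Cauchy (⨅ i, 𝓟 (A i)) := by
    rw [cauchy_iff]
    refine ⟨hF, fun s hs => ?_⟩
    rw [uniformity_eq_comap_nhds_zero, mem_comap] at hs
    obtain ⟨U, hU, hUs⟩ := hs
    obtain ⟨p, hp, r, hr, h⟩ := kw_ball hU
    refine ⟨A (⟨p, hp⟩, ⟨r / 4, by positivity⟩), hmem _, ?_⟩
    rintro ⟨x, y⟩ ⟨hx, hy⟩
    apply hUs
    show y - x ∈ U
    apply h
    have h1 : p (y - x) ≤ r / 2 := by
      refine seminorm_le p hp (y - x) (r / 2) fun l hl => ?_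
      have h2 : ‖l x - ∫ z, l (φ z) ∂μ‖ ≤ r / 4 := hx l hl
      have h3 : ‖l y - ∫ z, l (φ z) ∂μ‖ ≤ r / 4 := hy l hl
      have e : l (y - x) = (l y - ∫ z, l (φ z) ∂μ) - (l x - ∫ z, l (φ z) ∂μ) := by
        rw [map_sub]
        ring
      rw [e]
      refine (norm_sub_le _ _).trans ?_
      linarith
    linarith
  obtain ⟨x, hx⟩ := CompleteSpace.complete hC
  refine ⟨x, fun l => ?_⟩
  obtain ⟨p, hp, hl⟩ := functional_bound l
  have h0 : ‖l x - ∫ z, l (φ z) ∂μ‖ ≤ 0 := by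
    refine le_of_forall_pos_le_add fun ε hε => ?_
    have h1 : A (⟨p, hp⟩, ⟨ε / 2, by positivity⟩) ∈ ⨅ i, 𝓟 (A i) := hmem _
    have h2 : {y | ‖l x - l y‖ < ε / 2} ∈ ⨅ i, 𝓟 (A i) := by
      apply hx
      have hop : IsOpen {y | ‖l x - l y‖ < ε / 2} :=
        isOpen_lt (continuous_const.sub l.continuous).norm continuous_const
      refine hop.mem_nhds ?_
      show ‖l x - l x‖ < ε / 2
      rw [sub_self, norm_zero]
      positivity
    obtain ⟨y, hy1, hy2⟩ := hF.nonempty_of_mem (inter_mem h1 h2)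
    have h3 : ‖l y - ∫ z, l (φ z) ∂μ‖ ≤ ε / 2 := hy1 l hl
    have h4 : ‖l x - l y‖ < ε / 2 := hy2
    have e : l x - ∫ z, l (φ z) ∂μ = (l x - l y) + (l y - ∫ z, l (φ z) ∂μ) := by ring
    rw [e]
    refine (norm_add_le _ _).trans ?_
    linarith
  have h1 := norm_le_zero_iff.1 h0
  exact sub_eq_zero.1 h1

end

end Pool.Agent.Work.MP_dd0ddf_al.AR
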