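import Pool.Agent.Work.MP_dd0ddf_al.AR.KPa
import Pool.Agent.Work.MP_dd0ddf_al.AR.KPb
import Pool.Agent.Work.MP_dd0ddf_al.AR.KPc
import Pool.Agent.Work.MP_dd0ddf_al.AR.KPd
import Pool.Agent.Work.MP_dd0ddf_al.AR.KPf
import Pool.Agent.Work.MP_dd0ddf_al.AR.KWI
import Pool.Agent.Work.MP_dd0ddf_al.AR.KHB
import Pool.Agent.Work.MP_dd0ddf_al.AR.KInvx

/-!
# MP_dd0ddf_al, archimedean part, block R, module KED


The projections `E_D : P → Xd π D`.

PROOF. Let `κ` be the kernel of `PK n D` (`PK_kernel`).  For `v ∈ P` the function `k ↦ conj (κ k) • π k v` is continuous on the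
compact space `K` (`hπ.cont`), so by `weak_integral` there is `E v` with `l (E v) = ∫ conj (κ k) l(π k v)` for all `l`; `E` is
linear (`ext_functional`).  For a continuous `K`-invariant seminorm `p` and `|l| ≤ p`:
`|l(E v)| ≤ ∫ |κ| p(π k v) = p(v) ∫ |κ|`, so `p(E v) ≤ p(v) ∫ |κ|` (`seminorm_le`), and
`∫ |κ| ≤ (∫ |κ|^2)^(1/2) = (finrank)^(1/2) ≤ (D+1)^M` (`PK_finrank`; Cauchy-Schwarz for a probability measure, or
`|κ| ≤ (1 + |κ|^2)/2`, which gives the polynomial bound directly).  Continuity of `E`: `continuous_of_seminorm` with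
`exists_KInv`.
`E v ∈ Xd π D`: `l(π k' (E v)) = ∫ conj (κ k) l(π (k' k) v) dk = ∫ conj (κ (k'⁻¹ k)) l(π k v) dk` (left invariance); as a
function of `k'` the integrand is in `PK n D` for each `k` (`PK_inv`, `PK_right`, `PK_conj`): `κ(k'⁻¹ k)`; the integral over `k` of
such functions is in `PK n D`: expand in a basis `f_j` of `PK n D`, `conj (κ (k'⁻¹ k)) = ∑ c_j(k) f_j(k')` with `c_j` continuous
(solve with points `k_i` separating `PK n D`), or use that a finite dimensional subspace is closed and convex, or: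
a linear functional on functions vanishing on `PK n D`, supported on finitely many points, commutes with the integral.
`E v = v` for `v ∈ Xd π D`: `l(E v) = ∫ conj κ(k) l(π k v) = l(π 1 v)` by the kernel property.
`l ∘ E ∈ Yd π D` for all `l`: `l(E(π k' v)) = ∫ conj (κ k) l(π(k k') v) = ∫ conj (κ (k k'⁻¹)) l(π k v) dk` (right invariance),
in `PK n D` as a function of `k'`.  `l ∘ E = l` for `l ∈ Yd π D`: kernel property again.
-/

set_option linter.unusedSectionVars false

namespace Pool.Agent.Work.MP_dd0ddf_al.AR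

open scoped SchwartzMap Matrix.Norms.Elementwise ComplexConjugate ContDiff Topology
open Matrix MeasureTheory Filter Asymptotics

noncomputable section

variable {n : ℕ} {P : Type*} [AddCommGroup P] [Module ℂ P] [UniformSpace P] [IsUniformAddGroup P]
  [ContinuousSMul ℂ P] [PolynormableSpace ℂ P] [T2Space P] [CompleteSpace P]
  [FirstCountableTopology P]

private theorem int_cont {f : KU n → ℂ} (hf : Continuous f) : Integrable f (muK n) :=
  hf.integrable_of_hasCompactSupport (HasCompactSupport.of_compactSpace _)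

private theorem int_contR {f : KU n → ℝ} (hf : Continuous f) : Integrable f (muK n) :=
  hf.integrable_of_hasCompactSupport (HasCompactSupport.of_compactSpace _)

/-- averages of elements of `PK n D` are in `PK n D` -/
private theorem int_mem_PK {D : ℕ} (H : KU n → KU n → ℂ) (h1 : ∀ k, H k ∈ PK n D)
    (h2 : ∀ k', Continuous fun k => H k k') :
    (fun k' => ∫ k, H k k' ∂(muK n)) ∈ PK n D := by
  classical
  let Φ : KU n → PK n D := fun k => ⟨H k, h1 k⟩
  have hΦ : Continuous Φ := Continuous.subtype_mk (continuous_pi h2) _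
  let b := Module.finBasis ℂ (PK n D)
  have hc : ∀ j, Continuous fun k => b.coord j (Φ k) := fun j =>
    (LinearMap.continuous_of_finiteDimensional (b.coord j)).comp hΦ
  have h3 : (fun k' => ∫ k, H k k' ∂(muK n)) =
      ∑ j, (∫ k, b.coord j (Φ k) ∂(muK n)) • (b j : KU n → ℂ) := by
    funext k'
    have h4 : ∀ k, H k k' = ∑ j, b.coord j (Φ k) * (b j : KU n → ℂ) k' := by
      intro k
      have h5 : (Φ k : KU n → ℂ) = ∑ j, b.coord j (Φ k) • (b j : KU n → ℂ) := by
        have h6 : ((∑ j, b.repr (Φ k) j • b j : PK n D) : KU n → ℂ) = (Φ k : KU n → ℂ) :=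
          congrArg Subtype.val (b.sum_repr (Φ k))
        rw [← h6, Submodule.coe_sum]
        exact Finset.sum_congr rfl fun j _ => rfl
      have h7 := congrFun h5 k'
      rw [Finset.sum_apply] at h7
      exact h7
    rw [Finset.sum_apply]
    simp only [Pi.smul_apply, smul_eq_mul]
    simp_rw [h4]
    rw [integral_finsetSum]
    · refine Finset.sum_congr rfl fun j _ => ?_
      rw [integral_mul_const]
    · intro j _
      exact int_cont ((hc j).mul continuous_const)
  rw [h3]
  exact Submodule.sum_mem _ fun j _ => Submodule.smul_mem _ _ (b j).2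

private theorem orbit_cont (π : GLn n →* (P →L[ℂ] P)) (hπ : IsCW π) (v : P) :
    Continuous fun k : KU n => π (k : GLn n) v :=
  hπ.cont.comp (continuous_subtype_val.prodMk continuous_const)

private theorem exists_E0 (π : GLn n →* (P →L[ℂ] P)) (hπ : IsCW π) (κ : KU n → ℂ)
    (hκ : Continuous κ) :
    ∃ E : P →ₗ[ℂ] P, ∀ (v : P) (l : P →L[ℂ] ℂ),
      l (E v) = ∫ k, conj (κ k) * l (π (k : GLn n) v) ∂(muK n) := by
  have h : ∀ v : P, ∃ x : P, ∀ l : P →L[ℂ] ℂ,
      l x = ∫ k, conj (κ k) * l (π (k : GLn n) v) ∂(muK n) := by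
    intro v
    obtain ⟨x, hx⟩ := weak_integral (muK n) (fun k : KU n => conj (κ k) • π (k : GLn n) v)
      ((Complex.continuous_conj.comp hκ).smul (orbit_cont π hπ v))
      (HasCompactSupport.of_compactSpace _)
    refine ⟨x, fun l => ?_⟩
    rw [hx l]
    refine integral_congr_ae (Eventually.of_forall fun k => ?_)
    show l (conj (κ k) • π (k : GLn n) v) = conj (κ k) * l (π (k : GLn n) v)
    rw [map_smul, smul_eq_mul]
  choose E hE using h
  have hi : ∀ (v : P) (l : P →L[ℂ] ℂ),
      Integrable (fun k : KU n => conj (κ k) * l (π (k : GLn n) v)) (muK n) := fun v l =>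
    int_cont ((Complex.continuous_conj.comp hκ).mul (l.continuous.comp (orbit_cont π hπ v)))
  refine ⟨{ toFun := E, map_add' := ?_, map_smul' := ?_ }, hE⟩
  · intro v w
    apply ext_functional
    intro l
    rw [map_add, hE, hE, hE, ← integral_add (hi v l) (hi w l)]
    refine integral_congr_ae (Eventually.of_forall fun k => ?_)
    show conj (κ k) * l (π (k : GLn n) (v + w)) = _
    rw [map_add, map_add, mul_add]
  · intro c v
    apply ext_functional
    intro l
    rw [RingHom.id_apply, map_smul, hE, hE, smul_eq_mul, ← integral_const_mul]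
    refine integral_congr_ae (Eventually.of_forall fun k => ?_)
    show conj (κ k) * l (π (k : GLn n) (c • v)) = _
    rw [map_smul, map_smul, smul_eq_mul]
    ring

private theorem E0_bound (π : GLn n →* (P →L[ℂ] P)) (κ : KU n → ℂ)
    (hκ : Continuous κ) (E : P →ₗ[ℂ] P)
    (hE : ∀ (v : P) (l : P →L[ℂ] ℂ),
      l (E v) = ∫ k, conj (κ k) * l (π (k : GLn n) v) ∂(muK n)) (p : Seminorm ℂ P)
    (hp : Continuous p) (hK : KInv π p) (v : P) : p (E v) ≤ (∫ k, ‖κ k‖ ∂(muK n)) * p v := by
  apply seminorm_le p hp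
  intro l hl
  rw [hE, ← integral_mul_const]
  refine norm_integral_le_of_norm_le ((int_contR hκ.norm).mul_const _)
    (Eventually.of_forall fun k => ?_)
  rw [norm_mul, RCLike.norm_conj]
  refine mul_le_mul_of_nonneg_left ?_ (norm_nonneg _)
  exact (hl _).trans (hK k v).le

theorem exists_ED (π : GLn n →* (P →L[ℂ] P)) (hπ : IsCW π) :
    ∃ (E : ℕ → P →L[ℂ] P) (C : ℝ) (M : ℕ), (∀ D v, E D v ∈ Xd π D) ∧
      (∀ D, ∀ v ∈ Xd π D, E D v = v) ∧ (∀ (D : ℕ) (l : P →L[ℂ] ℂ), l.comp (E D) ∈ Yd π D) ∧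
      (∀ D, ∀ l ∈ Yd π D, l.comp (E D) = l) ∧
      ∀ p : Seminorm ℂ P, Continuous p → KInv π p → ∀ (D : ℕ) (v : P),
        p (E D v) ≤ C * (1 + (D : ℝ)) ^ M * p v := by
  choose κ hκP hκf hκn using fun D : ℕ => PK_kernel n D
  have hκc : ∀ D, Continuous (κ D) := fun D => PK_cont (hκP D)
  choose E0 hE0 using fun D : ℕ => exists_E0 π hπ (κ D) (hκc D)
  have hb := fun D : ℕ => E0_bound π (κ D) (hκc D) (E0 D) (hE0 D)
  have hcont : ∀ D, Continuous (E0 D) := by
    intro D
    apply continuous_of_seminorm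
    intro p hp
    obtain ⟨q, hq, hqK, hpq⟩ := exists_KInv π hπ p hp
    have hI : 0 ≤ ∫ k, ‖κ D k‖ ∂(muK n) := integral_nonneg fun k => norm_nonneg _
    have hco : ∀ v, (Real.toNNReal (∫ k, ‖κ D k‖ ∂(muK n)) • q : Seminorm ℂ P) v =
        (∫ k, ‖κ D k‖ ∂(muK n)) * q v := fun v => by
      rw [_root_.smul_apply, NNReal.smul_def, Real.coe_toNNReal _ hI, smul_eq_mul]
    refine ⟨Real.toNNReal (∫ k, ‖κ D k‖ ∂(muK n)) • q, ?_, fun v => ?_⟩
    · have : ((Real.toNNReal (∫ k, ‖κ D k‖ ∂(muK n)) • q : Seminorm ℂ P) : P → ℝ) =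
          fun v => (∫ k, ‖κ D k‖ ∂(muK n)) * q v := funext hco
      rw [this]
      exact continuous_const.mul hq
    · rw [hco]
      exact (hpq _).trans (hb D q hq hqK v)
  obtain ⟨M, hM⟩ := PK_finrank n
  have hmul : ∀ (k k' : KU n) (v : P),
      π (k : GLn n) (π (k' : GLn n) v) = π ((k * k' : KU n) : GLn n) v := by
    intro k k' v
    rw [Subgroup.coe_mul, map_mul]
    rfl
  refine ⟨fun D => ⟨E0 D, hcont D⟩, 1, M, ?_, ?_, ?_, ?_, ?_⟩
  · intro D v l
    have h1 : (fun k' : KU n => l (π (k' : GLn n) (E0 D v))) = fun k' : KU n =>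
        ∫ k, conj (κ D (k'⁻¹ * k)) * l (π (k : GLn n) v) ∂(muK n) := by
      funext k'
      have h2 := hE0 D v (l.comp (π (k' : GLn n)))
      have h3 : l (π (k' : GLn n) (E0 D v)) =
          ∫ k, conj (κ D k) * l (π ((k' * k : KU n) : GLn n) v) ∂(muK n) := by
        refine Eq.trans h2 (integral_congr_ae (Eventually.of_forall fun k => ?_))
        show conj (κ D k) * l (π (k' : GLn n) (π (k : GLn n) v)) = _
        rw [hmul]
      rw [h3, ← integral_mul_left_eq_self
        (fun k : KU n => conj (κ D (k'⁻¹ * k)) * l (π (k : GLn n) v)) k']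
      refine integral_congr_ae (Eventually.of_forall fun k => ?_)
      show _ = conj (κ D (k'⁻¹ * (k' * k))) * l (π ((k' * k : KU n) : GLn n) v)
      rw [inv_mul_cancel_left]
    show (fun k' : KU n => l (π (k' : GLn n) (E0 D v))) ∈ PK n D
    rw [h1]
    refine int_mem_PK (fun k k' => conj (κ D (k'⁻¹ * k)) * l (π (k : GLn n) v)) ?_ ?_
    · intro k
      have h4 := (PK n D).smul_mem (l (π (k : GLn n) v)) (PK_conj (PK_inv (PK_right (hκP D) k)))
      convert h4 using 1
      funext k'
      show _ = l (π (k : GLn n) v) * conj (κ D (k'⁻¹ * k))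
      ring
    · intro k'
      exact (Complex.continuous_conj.comp ((hκc D).comp (continuous_const_mul _))).mul
        (l.continuous.comp (orbit_cont π hπ v))
  · intro D v hv
    apply ext_functional
    intro l
    show l (E0 D v) = l v
    rw [hE0 D v l, ← hκf D _ (hv l)]
    show l (π ((1 : KU n) : GLn n) v) = l v
    rw [Subgroup.coe_one, map_one]
    rfl
  · intro D l v
    have h1 : (fun k' : KU n => l (E0 D (π (k' : GLn n) v))) = fun k' : KU n =>
        ∫ k, conj (κ D (k * k'⁻¹)) * l (π (k : GLn n) v) ∂(muK n) := by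
      funext k'
      rw [hE0 D (π (k' : GLn n) v) l, ← integral_mul_right_eq_self
        (fun k : KU n => conj (κ D (k * k'⁻¹)) * l (π (k : GLn n) v)) k']
      refine integral_congr_ae (Eventually.of_forall fun k => ?_)
      show conj (κ D k) * l (π (k : GLn n) (π (k' : GLn n) v)) =
        conj (κ D (k * k' * k'⁻¹)) * l (π ((k * k' : KU n) : GLn n) v)
      rw [mul_inv_cancel_right, hmul]
    show (fun k' : KU n => l (E0 D (π (k' : GLn n) v))) ∈ PK n D
    rw [h1]
    refine int_mem_PK (fun k k' => conj (κ D (k * k'⁻¹)) * l (π (k : GLn n) v)) ?_ ?_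
    · intro k
      have h4 := (PK n D).smul_mem (l (π (k : GLn n) v)) (PK_conj (PK_inv (PK_left (hκP D) k)))
      convert h4 using 1
      funext k'
      show _ = l (π (k : GLn n) v) * conj (κ D (k * k'⁻¹))
      ring
    · intro k'
      exact (Complex.continuous_conj.comp ((hκc D).comp (continuous_mul_const _))).mul
        (l.continuous.comp (orbit_cont π hπ v))
  · intro D l hl
    ext v
    show l (E0 D v) = l v
    rw [hE0 D v l, ← hκf D _ (hl v)]
    show l (π ((1 : KU n) : GLn n) v) = l v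
    rw [Subgroup.coe_one, map_one]
    rfl
  · intro p hp hK D v
    refine (hb D p hp hK v).trans (mul_le_mul_of_nonneg_right ?_ (apply_nonneg p v))
    have h1 : ∫ k, ‖κ D k‖ ∂(muK n) ≤ ∫ k, (1 + ‖κ D k‖ ^ 2) / 2 ∂(muK n) := by
      refine integral_mono (int_contR (hκc D).norm)
        (int_contR ((continuous_const.add ((hκc D).norm.pow 2)).div_const 2)) fun k => ?_
      show ‖κ D k‖ ≤ (1 + ‖κ D k‖ ^ 2) / 2
      nlinarith [sq_nonneg (‖κ D k‖ - 1)]
    have h2 : ∫ k, (1 + ‖κ D k‖ ^ 2) / 2 ∂(muK n) =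
        ((1 : ℝ) + (Module.finrank ℂ (PK n D) : ℝ)) / 2 := by
      have h7 : Integrable (fun k => ‖κ D k‖ ^ 2) (muK n) := int_contR ((hκc D).norm.pow 2)
      rw [integral_div, integral_add (integrable_const 1) h7, hκn D]
      simp
    have h3 : (Module.finrank ℂ (PK n D) : ℝ) ≤ (1 + (D : ℝ)) ^ M := by
      have h4 := hM D
      have h5 : ((Module.finrank ℂ (PK n D) : ℕ) : ℝ) ≤ (((D + 1) ^ M : ℕ) : ℝ) :=
        Nat.cast_le.mpr h4
      push_cast at h5
      rw [add_comm (1 : ℝ)]
      exact h5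
    have h6 : (1 : ℝ) ≤ (1 + (D : ℝ)) ^ M := one_le_pow₀ (by linarith [Nat.cast_nonneg (α := ℝ) D])
    rw [h2] at h1
    linarith

end

end Pool.Agent.Work.MP_dd0ddf_al.AR
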