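import Pool.Agent.Work.MP_dd0ddf_al.AR.KPb
import Pool.Agent.Work.MP_dd0ddf_al.AR.KPd

/-!
# MP_dd0ddf_al, archimedean part, block R, module KPe


Polynomial functions are dense in `C(K)` (Stone-Weierstrass), and orthogonality to them.

PROOF. The set of `f : C(KU n, ℂ)` with `(f : KU n → ℂ) ∈ PK n d` for some `d` is a star subalgebra (`PK_mul`,
`PK_conj`, `PK_const`, `PK_mono`) which separates points: if `k ≠ k'` some entry differs (`PK_entry`; `Subtype.ext`,
`Units.ext`, `Matrix.ext`).  `ContinuousMap.starSubalgebra_topologicalClosure_eq_top_of_separatesPoints`, then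
`Metric.mem_closure_iff` in `C(KU n, ℂ)`.
`PK_orth`: choose for `ε > 0` a polynomial `g` with `|conj f - g| < ε`; `∫ |f|^2 = ∫ f (conj f - g) ≤ ε ∫ |f|`, hence
`∫ |f|^2 = 0`, and `f = 0` since `f` is continuous and `muK n` is a Haar measure (positive on open sets):
`Continuous.integral_pos_of_hasCompactSupport_nonneg_nonzero` or
`MeasureTheory.Measure.eq_of_ae_eq` / `Continuous.ae_eq_iff_eq`.
-/

set_option linter.unusedSectionVars false

namespace Pool.Agent.Work.MP_dd0ddf_al.AR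

open scoped SchwartzMap Matrix.Norms.Elementwise ComplexConjugate ContDiff Topology
open Matrix MeasureTheory Filter Asymptotics

noncomputable section

variable {n : ℕ}

private def polyA (n : ℕ) : StarSubalgebra ℂ C(KU n, ℂ) where
  carrier := {f | ∃ d : ℕ, (f : KU n → ℂ) ∈ PK n d}
  mul_mem' := by
    rintro f g ⟨d, hd⟩ ⟨e, he⟩
    exact ⟨d + e, PK_mul hd he⟩
  one_mem' := ⟨0, PK_const 0 1⟩
  add_mem' := by
    rintro f g ⟨d, hd⟩ ⟨e, he⟩
    exact ⟨max d e, (PK n _).add_mem (PK_mono (le_max_left d e) hd)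
      (PK_mono (le_max_right d e) he)⟩
  zero_mem' := ⟨0, PK_const 0 0⟩
  algebraMap_mem' := fun c => ⟨0, PK_const 0 c⟩
  star_mem' := by
    rintro f ⟨d, hd⟩
    exact ⟨d, PK_conj hd⟩

private theorem polyA_sep (n : ℕ) : (polyA n).SeparatesPoints := by
  intro k k' hkk
  have h1 : ∃ i j, ((k : GLn n) : Mat n) i j ≠ ((k' : GLn n) : Mat n) i j := by
    by_contra h
    push Not at h
    apply hkk
    apply Subtype.ext
    apply Units.ext
    ext i j
    exact h i j
  obtain ⟨i, j, hij⟩ := h1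
  have hc : Continuous fun k : KU n => ((k : GLn n) : Mat n) i j :=
    (continuous_apply j).comp ((continuous_apply i).comp continuous_coeK)
  exact ⟨fun k => ((k : GLn n) : Mat n) i j, ⟨⟨_, hc⟩, ⟨1, PK_entry i j⟩, rfl⟩, hij⟩

theorem PK_dense (f : KU n → ℂ) (hf : Continuous f) (ε : ℝ) (hε : 0 < ε) :
    ∃ d : ℕ, ∃ g ∈ PK n d, ∀ k, ‖f k - g k‖ < ε := by
  have h1 := ContinuousMap.starSubalgebra_topologicalClosure_eq_top_of_separatesPoints
    (polyA n) (polyA_sep n)
  have h2 : (⟨f, hf⟩ : C(KU n, ℂ)) ∈ (polyA n).topologicalClosure := by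
    rw [h1]
    trivial
  have h3 : (⟨f, hf⟩ : C(KU n, ℂ)) ∈ closure ((polyA n : StarSubalgebra ℂ C(KU n, ℂ)) :
      Set C(KU n, ℂ)) := h2
  obtain ⟨g, ⟨d, hd⟩, hg⟩ := Metric.mem_closure_iff.1 h3 ε hε
  refine ⟨d, g, hd, fun k => ?_⟩
  have h4 := (ContinuousMap.dist_apply_le_dist (f := (⟨f, hf⟩ : C(KU n, ℂ))) (g := g)
    k).trans_lt hg
  rw [dist_eq_norm] at h4
  exact h4

theorem PK_orth (f : KU n → ℂ) (hf : Continuous f)
    (h : ∀ d : ℕ, ∀ g ∈ PK n d, ∫ k, g k * f k ∂(muK n) = 0) : ∀ k, f k = 0 := by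
  obtain ⟨B, hB⟩ := bdd_of_cont hf
  have hB0 : 0 ≤ B := (norm_nonneg _).trans (hB 1)
  have hI : ∀ {u : KU n → ℂ}, Continuous u → Integrable u (muK n) := by
    intro u hu
    exact hu.integrable_of_hasCompactSupport (HasCompactSupport.of_compactSpace u)
  have hcf : Continuous fun k => conj (f k) := Complex.continuous_conj.comp hf
  have h1 : ∀ ε : ℝ, 0 < ε → ‖∫ k, conj (f k) * f k ∂(muK n)‖ ≤ ε * B := by
    intro ε hε
    obtain ⟨d, g, hg, hgε⟩ := PK_dense (fun k => conj (f k)) hcf ε hε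
    have hgc : Continuous g := PK_cont hg
    have e1 : ∫ k, conj (f k) * f k ∂(muK n) = ∫ k, (conj (f k) - g k) * f k ∂(muK n) := by
      have e2 : ∀ k, conj (f k) * f k = (conj (f k) - g k) * f k + g k * f k := by
        intro k
        ring
      have i1 : Integrable (fun k => (conj (f k) - g k) * f k) (muK n) :=
        hI ((hcf.sub hgc).mul hf)
      have i2 : Integrable (fun k => g k * f k) (muK n) := hI (hgc.mul hf)
      rw [integral_congr_ae (Filter.Eventually.of_forall e2), integral_add i1 i2, h d g hg,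
        add_zero]
    rw [e1]
    have e3 := norm_integral_le_of_norm_le_const (μ := muK n)
      (f := fun k => (conj (f k) - g k) * f k) (C := ε * B)
      (Filter.Eventually.of_forall fun k => by
        rw [norm_mul]
        exact mul_le_mul (hgε k).le (hB k) (norm_nonneg _) hε.le)
    rw [probReal_univ, mul_one] at e3
    exact e3
  have h2 : ∫ k, conj (f k) * f k ∂(muK n) = 0 := by
    rw [← norm_le_zero_iff]
    refine le_of_forall_pos_le_add fun δ hδ => ?_
    have h3 := h1 (δ / (B + 1)) (by positivity)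
    refine h3.trans ?_
    rw [zero_add, div_mul_eq_mul_div, div_le_iff₀ (by positivity)]
    nlinarith
  have h3 : ∫ k, ‖f k‖ ^ 2 ∂(muK n) = 0 := by
    have e1 : ∀ k, conj (f k) * f k = ((‖f k‖ ^ 2 : ℝ) : ℂ) := by
      intro k
      rw [← Complex.normSq_eq_conj_mul_self, Complex.normSq_eq_norm_sq]
    have e2 : ∫ k, ((‖f k‖ ^ 2 : ℝ) : ℂ) ∂(muK n) = ((∫ k, ‖f k‖ ^ 2 ∂(muK n) : ℝ) : ℂ) :=
      integral_complex_ofReal
    rw [integral_congr_ae (Filter.Eventually.of_forall e1), e2] at h2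
    exact Complex.ofReal_eq_zero.1 h2
  have hc2 : Continuous fun k => ‖f k‖ ^ 2 := hf.norm.pow 2
  have hi2 : Integrable (fun k => ‖f k‖ ^ 2) (muK n) :=
    hc2.integrable_of_hasCompactSupport (HasCompactSupport.of_compactSpace _)
  have h4 := (integral_eq_zero_iff_of_nonneg (fun k => sq_nonneg ‖f k‖) hi2).1 h3
  have h5 := (Continuous.ae_eq_iff_eq (μ := muK n) hc2 continuous_zero).1 h4
  intro k
  have h6 : ‖f k‖ ^ 2 = 0 := congrFun h5 k
  exact norm_eq_zero.1 (pow_eq_zero_iff (two_ne_zero) |>.1 h6)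

end

end Pool.Agent.Work.MP_dd0ddf_al.AR
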