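import Pool.Agent.Work.MP_dd0ddf_al.AR.KPa
import Pool.Agent.Work.MP_dd0ddf_al.AR.KPb
import Pool.Agent.Work.MP_dd0ddf_al.AR.KPd
import Pool.Agent.Work.MP_dd0ddf_al.AR.KPe
import Pool.Agent.Work.MP_dd0ddf_al.AR.KWI
import Pool.Agent.Work.MP_dd0ddf_al.AR.KHB

/-!
# MP_dd0ddf_al, archimedean part, block R, module KVd


`K`-finite vectors are dense.

PROOF. `dense_of_functional`: let `l` be a continuous functional vanishing on `VK π`.  Let `v ∈ P`, `g ∈ PK n d`.  By
`weak_integral` (the function `k ↦ g k • π k v` is continuous on the compact space `K`) there is `x` with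
`l'(x) = ∫ g k l'(π k v)` for all `l'`.  `x ∈ Xd π d`: `l'(π k' x) = ∫ g k l'(π(k' k) v) dk = ∫ g(k'⁻¹ k) l'(π k v) dk`, and
`k' ↦ g(k'⁻¹ k)` is in `PK n d` for each `k` (`PK_inv`, `PK_right`); the integral over `k` stays in the finite dimensional
space `PK n d` (write `g(k'⁻¹ k) = eval (evv (k'⁻¹ k)) q`, a finite sum of products of a function of `k'` in `PK n d` and
a continuous function of `k`; or by duality with finitely supported functionals on functions on `K`).  So
`0 = l x = ∫ g k l(π k v)` for all polynomials `g`; the function `k ↦ l(π k v)` is continuous, so it is `0` by `PK_orth`, in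
particular `l v = 0`.  Hence `l = 0`.
-/

set_option linter.unusedSectionVars false

namespace Pool.Agent.Work.MP_dd0ddf_al.AR

open scoped SchwartzMap Matrix.Norms.Elementwise ComplexConjugate ContDiff Topology
open Matrix MeasureTheory Filter Asymptotics

noncomputable section

variable {n : ℕ} {P : Type*} [AddCommGroup P] [Module ℂ P] [UniformSpace P] [IsUniformAddGroup P]
  [ContinuousSMul ℂ P] [PolynormableSpace ℂ P] [T2Space P] [CompleteSpace P]
  [FirstCountableTopology P]

/-- sums of products of polynomial functions of degree at most `d` and continuous functions -/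
private def TT (n d : ℕ) : Submodule ℂ (KU n → KU n → ℂ) :=
  Submodule.span ℂ {F | ∃ a ∈ PK n d, ∃ b : KU n → ℂ, Continuous b ∧ F = fun k' k => a k' * b k}

private theorem TT_mono {d e : ℕ} (h : d ≤ e) : TT n d ≤ TT n e := by
  refine Submodule.span_mono ?_
  rintro F ⟨a, ha, b, hb, rfl⟩
  exact ⟨a, PK_mono h ha, b, hb, rfl⟩

private theorem TT_mul {d e : ℕ} {F G : KU n → KU n → ℂ} (hF : F ∈ TT n d) (hG : G ∈ TT n e) :
    F * G ∈ TT n (d + e) := by
  have h : F * G ∈ TT n d * TT n e := Submodule.mul_mem_mul hF hG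
  unfold TT at h
  rw [Submodule.span_mul_span] at h
  refine Submodule.span_mono ?_ h
  rintro _ ⟨_, ⟨a, ha, b, hb, rfl⟩, _, ⟨a', ha', b', hb', rfl⟩, rfl⟩
  refine ⟨fun k => a k * a' k, PK_mul ha ha', fun k => b k * b' k, hb.mul hb', ?_⟩
  funext k' k
  simp only [Pi.mul_apply]
  ring

private theorem TT_one : (1 : KU n → KU n → ℂ) ∈ TT n 0 := by
  refine Submodule.subset_span ⟨fun _ => 1, PK_const 0 1, fun _ => 1, continuous_const, ?_⟩
  funext k' k
  simp

private theorem TT_pow {d : ℕ} {F : KU n → KU n → ℂ} (hF : F ∈ TT n d) (m : ℕ) :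
    F ^ m ∈ TT n (m * d) := by
  induction m with
  | zero => simpa using TT_one
  | succ m ih =>
    rw [pow_succ, add_mul, one_mul]
    exact TT_mul ih hF

private theorem TT_prod {ι : Type*} (s : Finset ι) (F : ι → KU n → KU n → ℂ) (m : ι → ℕ)
    (h : ∀ i ∈ s, F i ∈ TT n 1) : (∏ i ∈ s, F i ^ m i) ∈ TT n (∑ i ∈ s, m i) := by
  classical
  induction s using Finset.induction_on with
  | empty => simpa using TT_one
  | insert i s hi ih =>
    rw [Finset.prod_insert hi, Finset.sum_insert hi]
    refine TT_mul ?_ (ih fun j hj => h j (Finset.mem_insert_of_mem hj))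
    have := TT_pow (h i (Finset.mem_insert_self i s)) (m i)
    rwa [mul_one] at this

private theorem cont_entry (i j : Fin n) :
    Continuous fun k : KU n => ((k : GLn n) : Mat n) i j :=
  continuous_coeK.matrix_elem i j

private theorem TT_var (x : Vars n) :
    (fun k' k : KU n => evv ((((k'⁻¹ * k : KU n) : GLn n) : Mat n)) x) ∈ TT n 1 := by
  have hent : ∀ (k' k : KU n) (i j : Fin n), (((k'⁻¹ * k : KU n) : GLn n) : Mat n) i j =
      ∑ l, conj (((k' : GLn n) : Mat n) l i) * ((k : GLn n) : Mat n) l j := by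
    intro k' k i j
    have e : (((k'⁻¹ * k : KU n) : GLn n) : Mat n) =
        (((k' : GLn n) : Mat n))ᴴ * ((k : GLn n) : Mat n) := by
      rw [← KU_inv k']
      rfl
    rw [e, Matrix.mul_apply]
    rfl
  rcases x with ⟨i, j⟩ | ⟨i, j⟩
  · have e : (fun k' k : KU n => evv ((((k'⁻¹ * k : KU n) : GLn n) : Mat n)) (Sum.inl (i, j))) =
        ∑ l, fun k' k : KU n => conj (((k' : GLn n) : Mat n) l i) *
          ((k : GLn n) : Mat n) l j := by
      funext k' k
      simp only [Finset.sum_apply]
      exact hent k' k i j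
    rw [e]
    refine Submodule.sum_mem _ fun l _ => Submodule.subset_span ⟨_, PK_entry_conj l i, _,
      cont_entry l j, rfl⟩
  · have e : (fun k' k : KU n => evv ((((k'⁻¹ * k : KU n) : GLn n) : Mat n)) (Sum.inr (i, j))) =
        ∑ l, fun k' k : KU n => (((k' : GLn n) : Mat n) l i) *
          conj (((k : GLn n) : Mat n) l j) := by
      funext k' k
      simp only [Finset.sum_apply]
      change conj ((((k'⁻¹ * k : KU n) : GLn n) : Mat n) i j) = _
      rw [hent k' k i j, map_sum]
      refine Finset.sum_congr rfl fun l _ => ?_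
      rw [map_mul, Complex.conj_conj]
    rw [e]
    refine Submodule.sum_mem _ fun l _ => Submodule.subset_span ⟨_, PK_entry l i, _,
      Complex.continuous_conj.comp (cont_entry l j), rfl⟩

private theorem TT_poly {d : ℕ} {g : KU n → ℂ} (hg : g ∈ PK n d) :
    (fun k' k : KU n => g (k'⁻¹ * k)) ∈ TT n d := by
  obtain ⟨q, hq, hgq⟩ := hg
  have e : (fun k' k : KU n => g (k'⁻¹ * k)) = ∑ m ∈ q.support, q.coeff m •
      ∏ x ∈ m.support,
        (fun k' k : KU n => evv ((((k'⁻¹ * k : KU n) : GLn n) : Mat n)) x) ^ m x := by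
    funext k' k
    rw [hgq, MvPolynomial.eval_eq]
    simp only [Finset.sum_apply, Pi.smul_apply, Finset.prod_apply, Pi.pow_apply, smul_eq_mul]
  rw [e]
  refine Submodule.sum_mem _ fun m hm => Submodule.smul_mem _ _ ?_
  refine TT_mono ?_ (TT_prod m.support _ m fun x _ => TT_var x)
  exact (MvPolynomial.le_totalDegree hm).trans hq

private theorem int_cont {f : KU n → ℂ} (hf : Continuous f) : Integrable f (muK n) :=
  hf.integrable_of_hasCompactSupport (HasCompactSupport.of_compactSpace f)

private theorem TT_int {d : ℕ} {F : KU n → KU n → ℂ} (hF : F ∈ TT n d) {h : KU n → ℂ}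
    (hh : Continuous h) : (∀ k', Continuous (F k')) ∧
      (fun k' => ∫ k, F k' k * h k ∂(muK n)) ∈ PK n d := by
  induction hF using Submodule.span_induction with
  | mem F hF =>
    obtain ⟨a, ha, b, hb, rfl⟩ := hF
    refine ⟨fun k' => continuous_const.mul hb, ?_⟩
    have e : (fun k' => ∫ k, a k' * b k * h k ∂(muK n)) =
        (∫ k, b k * h k ∂(muK n)) • a := by
      funext k'
      rw [Pi.smul_apply, smul_eq_mul, mul_comm, ← integral_const_mul]
      simp only [mul_assoc]
    rw [e]
    exact Submodule.smul_mem _ _ ha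
  | zero =>
    refine ⟨fun k' => continuous_const, ?_⟩
    have e : (fun k' : KU n => ∫ k, (0 : KU n → KU n → ℂ) k' k * h k ∂(muK n)) = 0 := by
      funext k'
      simp
    rw [e]
    exact Submodule.zero_mem _
  | add F G _ _ hF hG =>
    refine ⟨fun k' => (hF.1 k').add (hG.1 k'), ?_⟩
    have e : (fun k' : KU n => ∫ k, (F + G) k' k * h k ∂(muK n)) =
        (fun k' => ∫ k, F k' k * h k ∂(muK n)) + (fun k' => ∫ k, G k' k * h k ∂(muK n)) := by
      funext k'
      change (∫ k, (F k' k + G k' k) * h k ∂(muK n)) =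
        (∫ k, F k' k * h k ∂(muK n)) + ∫ k, G k' k * h k ∂(muK n)
      have h1 : Integrable (fun k => F k' k * h k) (muK n) := int_cont ((hF.1 k').mul hh)
      have h2 : Integrable (fun k => G k' k * h k) (muK n) := int_cont ((hG.1 k').mul hh)
      rw [← integral_add h1 h2]
      simp only [add_mul]
    rw [e]
    exact Submodule.add_mem _ hF.2 hG.2
  | smul c F _ hF =>
    refine ⟨fun k' => continuous_const.mul (hF.1 k'), ?_⟩
    have e : (fun k' : KU n => ∫ k, (c • F) k' k * h k ∂(muK n)) =
        c • (fun k' => ∫ k, F k' k * h k ∂(muK n)) := by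
      funext k'
      change (∫ k, (c * F k' k) * h k ∂(muK n)) = c * ∫ k, F k' k * h k ∂(muK n)
      rw [← integral_const_mul]
      simp only [mul_assoc]
    rw [e]
    exact Submodule.smul_mem _ _ hF.2

theorem VK_dense (π : GLn n →* (P →L[ℂ] P)) (hπ : IsCW π) : Dense (VK π : Set P) := by
  refine dense_of_functional (VK π) fun l hl => ?_
  ext v
  have horb : Continuous fun k : KU n => π (k : GLn n) v :=
    hπ.cont.comp (continuous_subtype_val.prodMk continuous_const)
  have hz : ∀ k : KU n, l (π (k : GLn n) v) = 0 := by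
    refine PK_orth (fun k : KU n => l (π (k : GLn n) v)) (l.continuous.comp horb)
      fun d g hg => ?_
    obtain ⟨x, hx⟩ := weak_integral (muK n) (fun k : KU n => g k • π (k : GLn n) v)
      ((PK_cont hg).smul horb) (HasCompactSupport.of_compactSpace _)
    have hx' : ∀ l' : P →L[ℂ] ℂ, l' x = ∫ k, g k * l' (π (k : GLn n) v) ∂(muK n) := by
      intro l'
      rw [hx l']
      simp only [map_smul, smul_eq_mul]
    have hmem : x ∈ Xd π d := by
      intro l'
      have e : (fun k' : KU n => l' (π (k' : GLn n) x)) =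
          fun k' : KU n => ∫ k, g (k'⁻¹ * k) * l' (π (k : GLn n) v) ∂(muK n) := by
        funext k'
        have h1 := hx' (l'.comp (π (k' : GLn n)))
        rw [ContinuousLinearMap.comp_apply] at h1
        rw [h1, ← integral_mul_left_eq_self
          (fun k : KU n => g (k'⁻¹ * k) * l' (π (k : GLn n) v)) k']
        refine integral_congr_ae (Filter.Eventually.of_forall fun k => ?_)
        simp only [ContinuousLinearMap.comp_apply, inv_mul_cancel_left]
        rw [Subgroup.coe_mul, map_mul]
        rfl
      rw [e]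
      exact (TT_int (TT_poly hg) (l'.continuous.comp horb)).2
    rw [← hx' l]
    exact hl x (mem_VK.2 ⟨d, hmem⟩)
  have h1 := hz 1
  rw [Subgroup.coe_one, map_one] at h1
  simpa using h1

end

end Pool.Agent.Work.MP_dd0ddf_al.AR
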