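import Pool.Agent.Work.MP_dd0ddf_al.AR.RKDefs

/-!
# MP_dd0ddf_al, archimedean part, block R, module KAdm


`Hom_K(σ, π)` is finite dimensional for every finite dimensional continuous representation `σ` of `K` (in `IsCW` this is
assumed for irreducible `σ` only).

PROOF. Strong induction on `m`.  `m = 0`: the source is zero.  If `IrrK σ`: `hπ.adm`.  Otherwise (`0 < m`) there is an invariant
`S`, `S ≠ ⊥`, `S ≠ ⊤`.  Choose a basis of `S` and extend (or choose linear equivalences `S ≃ (Fin m1 → ℂ)`,
`(Fin m → ℂ) ⧸ S ≃ (Fin m2 → ℂ)`, `m1, m2 < m`): the restriction `σ1` of `σ` to `S` and the quotient `σ2` are continuous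
representations by matrices (`LinearMap.toMatrix'` of the transported maps; continuity: entries are values of fixed linear
functionals at `σ k *ᵥ w`, which are continuous).  The restriction map `HomK σ π → HomK σ1 π`, `T ↦ T ∘ (inclusion)`, is
linear, its kernel consists of the `T` vanishing on `S`, which factor through the quotient: the kernel embeds in
`HomK σ2 π`.  Both are finite dimensional by induction; so is `HomK σ π`
(`Module.Finite` of kernel and range: `Submodule.fg_of_fg_map_of_fg_inf_ker` or
`FiniteDimensional` from a linear map with finite dimensional kernel and target: `Module.Finite.of_...`,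
e.g. `LinearMap.quotKerEquivRange`).
-/

set_option linter.unusedSectionVars false

namespace Pool.Agent.Work.MP_dd0ddf_al.AR

open scoped SchwartzMap Matrix.Norms.Elementwise ComplexConjugate ContDiff Topology
open Matrix MeasureTheory Filter Asymptotics

noncomputable section

variable {n : ℕ} {P : Type*} [AddCommGroup P] [Module ℂ P] [UniformSpace P] [IsUniformAddGroup P]
  [ContinuousSMul ℂ P] [PolynormableSpace ℂ P] [T2Space P] [CompleteSpace P]
  [FirstCountableTopology P]

/-- equivariant linear maps, for a representation on an abstract space -/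
private def HomE {W : Type*} [AddCommGroup W] [Module ℂ W] (ρ : KU n → (W →ₗ[ℂ] W))
    (π : GLn n →* (P →L[ℂ] P)) : Submodule ℂ (W →ₗ[ℂ] P) where
  carrier := {T | ∀ (k : KU n) (w : W), T (ρ k w) = π (k : GLn n) (T w)}
  add_mem' := by
    intro T T' hT hT' k w
    simp only [LinearMap.add_apply, map_add]
    rw [hT k w, hT' k w]
  zero_mem' := by
    intro k w
    simp
  smul_mem' := by
    intro c T hT k w
    simp only [LinearMap.smul_apply, map_smul]
    rw [hT k w]

/-- transport to matrices -/
private theorem fin_homE (π : GLn n →* (P →L[ℂ] P)) {m' : ℕ}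
    (ih : ∀ σ' : KU n →* Matrix (Fin m') (Fin m') ℂ, Continuous σ' →
      FiniteDimensional ℂ (HomK σ' π))
    {W : Type*} [AddCommGroup W] [Module ℂ W] (e : W ≃ₗ[ℂ] (Fin m' → ℂ))
    (ρ : KU n → (W →ₗ[ℂ] W)) (h1 : ρ 1 = LinearMap.id)
    (hm : ∀ k l, ρ (k * l) = (ρ k).comp (ρ l))
    (hc : ∀ w i, Continuous fun k => e (ρ k w) i) :
    (HomE ρ π).FG := by
  let σ' : KU n →* Matrix (Fin m') (Fin m') ℂ :=
    { toFun := fun k => LinearMap.toMatrix' ((e.toLinearMap.comp (ρ k)).comp e.symm.toLinearMap)
      map_one' := by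
        rw [h1]
        have : (e.toLinearMap.comp LinearMap.id).comp e.symm.toLinearMap = LinearMap.id := by
          ext x
          simp
        rw [this, LinearMap.toMatrix'_id]
      map_mul' := by
        intro k l
        rw [hm, ← LinearMap.toMatrix'_comp]
        congr 1
        ext x
        simp }
  have hσ' : Continuous σ' := by
    refine continuous_matrix fun i j => ?_
    have : (fun k => σ' k i j) = fun k => e (ρ k (e.symm (Pi.single j 1))) i := by
      funext k
      simp [σ', LinearMap.toMatrix'_apply]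
    rw [this]
    exact hc _ _
  have hfin := ih σ' hσ'
  have hmul : ∀ (k : KU n) (w : Fin m' → ℂ), σ' k *ᵥ w = e (ρ k (e.symm w)) := by
    intro k w
    show LinearMap.toMatrix' _ *ᵥ w = _
    rw [LinearMap.toMatrix'_mulVec]
    rfl
  have hle : HomE ρ π ≤ (HomK σ' π).map (LinearMap.lcomp ℂ P e.toLinearMap) := by
    intro T hT
    refine ⟨T.comp e.symm.toLinearMap, ?_, ?_⟩
    · intro k w
      rw [hmul]
      simp only [LinearMap.comp_apply, LinearEquiv.coe_coe, LinearEquiv.symm_apply_apply]
      exact hT k _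
    · ext w
      simp
  have hfg : (HomK σ' π).FG := Module.Finite.iff_fg.mp hfin
  exact (hfg.map _).of_le hle

theorem adm_all (π : GLn n →* (P →L[ℂ] P)) (hπ : IsCW π) (m : ℕ)
    (σ : KU n →* Matrix (Fin m) (Fin m) ℂ) (hσ : Continuous σ) :
    FiniteDimensional ℂ (HomK σ π) := by
  induction m using Nat.strong_induction_on with
  | _ m ih =>
  rcases Nat.eq_zero_or_pos m with rfl | hm
  · have : Subsingleton ((Fin 0 → ℂ) →ₗ[ℂ] P) :=
      ⟨fun f g => LinearMap.ext fun x => by rw [Subsingleton.elim x 0, map_zero, map_zero]⟩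
    exact Module.Finite.iff_fg.mpr (by
      have : HomK σ π = ⊥ := Subsingleton.elim _ _
      rw [this]
      exact Submodule.fg_bot)
  by_cases hirr : IrrK σ
  · exact hπ.adm m σ hσ hirr
  obtain ⟨S, hS, hSb, hSt⟩ : ∃ S : Submodule ℂ (Fin m → ℂ),
      (∀ (k : KU n), ∀ w ∈ S, σ k *ᵥ w ∈ S) ∧ S ≠ ⊥ ∧ S ≠ ⊤ := by
    unfold IrrK at hirr
    push Not at hirr
    exact hirr hm
  have hrS : Module.finrank ℂ S < m := by
    have := Submodule.finrank_lt hSt
    simpa using this
  have hrQ : Module.finrank ℂ ((Fin m → ℂ) ⧸ S) < m := by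
    have h1 := Submodule.finrank_quotient_add_finrank S
    have h2 : 0 < Module.finrank ℂ S := by
      rw [Nat.pos_iff_ne_zero, Ne, Submodule.finrank_eq_zero]
      exact hSb
    have h3 : Module.finrank ℂ (Fin m → ℂ) = m := by simp
    omega
  -- the two representations
  let ρ1 : KU n → (S →ₗ[ℂ] S) := fun k => (Matrix.toLin' (σ k)).restrict (fun w hw => by
    rw [Matrix.toLin'_apply]
    exact hS k w hw)
  let ρ2 : KU n → (((Fin m → ℂ) ⧸ S) →ₗ[ℂ] ((Fin m → ℂ) ⧸ S)) := fun k =>
    S.mapQ S (Matrix.toLin' (σ k)) (fun w hw => by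
      show Matrix.toLin' (σ k) w ∈ S
      rw [Matrix.toLin'_apply]
      exact hS k w hw)
  have hcv : ∀ w : Fin m → ℂ, Continuous fun k => σ k *ᵥ w := fun w =>
    hσ.matrix_mulVec continuous_const
  have f1 : (HomE ρ1 π).FG := by
    refine fin_homE π (ih _ hrS) (Module.finBasis ℂ S).equivFun ρ1 ?_ ?_ ?_
    · ext x : 2
      simp [ρ1]
    · intro k l
      ext x : 2
      simp [ρ1]
    · intro w i
      have hcont : Continuous ((Module.finBasis ℂ S).equivFun.toLinearMap) :=
        LinearMap.continuous_of_finiteDimensional _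
      refine (continuous_apply i).comp (hcont.comp ?_)
      refine Continuous.subtype_mk ?_ _
      show Continuous fun k => Matrix.toLin' (σ k) (w : Fin m → ℂ)
      simp only [Matrix.toLin'_apply]
      exact hcv _
  have f2 : (HomE ρ2 π).FG := by
    refine fin_homE π (ih _ hrQ) (Module.finBasis ℂ ((Fin m → ℂ) ⧸ S)).equivFun ρ2 ?_ ?_ ?_
    · ext x : 2
      simp [ρ2]
    · intro k l
      refine LinearMap.ext fun w => ?_
      obtain ⟨w, rfl⟩ := S.mkQ_surjective w
      simp [ρ2]
    · intro w i
      obtain ⟨w, rfl⟩ := S.mkQ_surjective w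
      have hcont : Continuous ((Module.finBasis ℂ ((Fin m → ℂ) ⧸ S)).equivFun.toLinearMap.comp
          S.mkQ) :=
        LinearMap.continuous_of_finiteDimensional _
      exact (continuous_apply i).comp (hcont.comp (hcv w))
  refine Module.Finite.iff_fg.mpr ?_
  refine Submodule.fg_of_fg_map_of_fg_inf_ker (LinearMap.lcomp ℂ P S.subtype) ?_ ?_
  · refine f1.of_le ?_
    rintro _ ⟨T, hT, rfl⟩
    intro k w
    have := hT k (w : Fin m → ℂ)
    simpa [ρ1] using this
  · refine (f2.map (LinearMap.lcomp ℂ P S.mkQ)).of_le ?_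
    rintro T ⟨hT, hk⟩
    have hk' : S ≤ LinearMap.ker T := by
      intro w hw
      have := LinearMap.congr_fun (LinearMap.mem_ker.mp hk) ⟨w, hw⟩
      simpa using this
    refine ⟨S.liftQ T hk', ?_, ?_⟩
    · intro k w
      obtain ⟨w, rfl⟩ := S.mkQ_surjective w
      have := hT k w
      simpa [ρ2] using this
    · ext w
      simp

end

end Pool.Agent.Work.MP_dd0ddf_al.AR
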