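import Pool.Agent.Work.MP_dd0ddf_al.AR.KPa
import Pool.Agent.Work.MP_dd0ddf_al.AR.KPc
import Pool.Agent.Work.MP_dd0ddf_al.AR.KPd
import Pool.Agent.Work.MP_dd0ddf_al.AR.KAdm
import Pool.Agent.Work.MP_dd0ddf_al.AR.KHB

/-!
# MP_dd0ddf_al, archimedean part, block R, module KXf


`Xd π D` is finite dimensional.

PROOF. Let `F = PK n D`, `m = finrank`, with a basis `f_1, ..., f_m`.  For `k0 ∈ K` let `σ(k0)` be the matrix with
`f_i(k k0) = ∑ j, σ(k0)_ij f_j(k)`... choose the convention which makes the following work.  The space `F` of functions on `K` has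
evaluations spanning its dual: there are `k_1, ..., k_m ∈ K` such that `f ↦ (f(k_j))_j` is injective on `F` (the common kernel of
all evaluations is `0`; `F` is finite dimensional).  Let `F' = Module.Dual ℂ F`, `K` acts on it by `(k0 ξ)(f) = ξ(f(k0 ·))`
(`PK_left`), `k0 ev_k = ev_(k0 k)`.  For `v ∈ Xd π D` there is a unique linear map `T_v : F' → P` with `T_v(ev_k) = π k v` for
all `k`: write `ξ = ∑ c_j(ξ) ev_(k_j)` with linear coefficients `c_j` (dual basis adapted to the `k_j`) and put
`T_v(ξ) = ∑ c_j(ξ) π(k_j) v`; for every continuous functional `l`, `l(T_v(ξ)) = ξ(k ↦ l(π k v))` (as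
`k ↦ l(π k v)` is in `F`), so `T_v(ev_k) = π k v` by `ext_functional`, and `T_v(k0 ξ) = π(k0) T_v(ξ)` since both sides have the
same values under all `l`.  `v ↦ T_v` is linear and injective (`T_v(ev_1) = v`).  Transport `F'` to `Fin m → ℂ` by a basis:
`σ : KU n →* Matrix (Fin m) (Fin m) ℂ`, continuous (matrix entries are finite linear combinations of functions
`k0 ↦ f(k0 k_j)`, `f ∈ F`, `PK_cont`).  So `Xd π D` embeds in `HomK σ π`, finite dimensional by `adm_all`.
-/

set_option linter.unusedSectionVars false

namespace Pool.Agent.Work.MP_dd0ddf_al.AR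

open scoped SchwartzMap Matrix.Norms.Elementwise ComplexConjugate ContDiff Topology
open Matrix MeasureTheory Filter Asymptotics

noncomputable section

variable {n : ℕ} {P : Type*} [AddCommGroup P] [Module ℂ P] [UniformSpace P] [IsUniformAddGroup P]
  [ContinuousSMul ℂ P] [PolynormableSpace ℂ P] [T2Space P] [CompleteSpace P]
  [FirstCountableTopology P]

/-- interpolation: a finite dimensional space of functions has a basis which is dual to points -/
private theorem kxf_interp {X : Type*} : ∀ (N : ℕ) (F : Submodule ℂ (X → ℂ)),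
    FiniteDimensional ℂ F → Module.finrank ℂ F ≤ N →
    ∃ (m : ℕ) (x : Fin m → X) (e : Fin m → X → ℂ), (∀ i, e i ∈ F) ∧
      (∀ i j, e i (x j) = if i = j then 1 else 0) ∧ ∀ f ∈ F, ∀ k, f k = ∑ j, f (x j) * e j k := by
  intro N
  induction N with
  | zero =>
    intro F hF hN
    have h0 : F = ⊥ := Submodule.finrank_eq_zero.1 (Nat.le_zero.1 hN)
    refine ⟨0, Fin.elim0, Fin.elim0, fun i => i.elim0, fun i => i.elim0, ?_⟩
    intro f hf k
    rw [h0, Submodule.mem_bot] at hf
    simp [hf]
  | succ N ih =>
    intro F hF hN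
    by_cases h0 : F = ⊥
    · refine ⟨0, Fin.elim0, Fin.elim0, fun i => i.elim0, fun i => i.elim0, ?_⟩
      intro f hf k
      rw [h0, Submodule.mem_bot] at hf
      simp [hf]
    · obtain ⟨f, hf, hf0⟩ := (Submodule.ne_bot_iff F).1 h0
      obtain ⟨x0, hx0⟩ := Function.ne_iff.1 hf0
      rw [Pi.zero_apply] at hx0
      obtain ⟨F', hF'⟩ : ∃ F' : Submodule ℂ (X → ℂ),
          F' = F ⊓ LinearMap.ker (LinearMap.proj x0 : (X → ℂ) →ₗ[ℂ] ℂ) := ⟨_, rfl⟩
      have hmem : ∀ g, g ∈ F' ↔ g ∈ F ∧ g x0 = 0 := by
        intro g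
        rw [hF', Submodule.mem_inf, LinearMap.mem_ker]
        rfl
      have hlt : F' < F := by
        refine lt_of_le_of_ne (by rw [hF']; exact inf_le_left) ?_
        intro h
        rw [← h, hmem] at hf
        exact hx0 hf.2
      have hlt' := Submodule.finrank_lt_finrank_of_lt hlt
      have hfd : FiniteDimensional ℂ F' := Submodule.finiteDimensional_of_le hlt.le
      obtain ⟨m, x, e, h1, h2, h3⟩ := ih F' hfd (by omega)
      obtain ⟨e0, he0⟩ : ∃ e0 : X → ℂ, e0 = (f x0)⁻¹ • (f - ∑ j, f (x j) • e j) := ⟨_, rfl⟩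
      have he0F : e0 ∈ F := by
        rw [he0]
        exact F.smul_mem _ (F.sub_mem hf (F.sum_mem fun j _ =>
          F.smul_mem _ ((hmem _).1 (h1 j)).1))
      have hval : ∀ k, e0 k = (f x0)⁻¹ * (f k - ∑ j, f (x j) * e j k) := by
        intro k
        rw [he0, Pi.smul_apply, Pi.sub_apply, Finset.sum_apply, smul_eq_mul]
        rfl
      have he00 : e0 x0 = 1 := by
        rw [hval]
        have h4 : ∑ j, f (x j) * e j x0 = 0 := by
          apply Finset.sum_eq_zero
          intro j _
          rw [((hmem _).1 (h1 j)).2, mul_zero]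
        rw [h4, sub_zero, inv_mul_cancel₀ hx0]
      have he0x : ∀ i, e0 (x i) = 0 := by
        intro i
        rw [hval]
        have h4 : ∑ j, f (x j) * e j (x i) = f (x i) := by
          rw [Finset.sum_eq_single i]
          · rw [h2, if_pos rfl, mul_one]
          · intro j _ hji
            rw [h2, if_neg hji, mul_zero]
          · intro h
            exact absurd (Finset.mem_univ i) h
        rw [h4, sub_self, mul_zero]
      refine ⟨m + 1, Fin.cons x0 x, Fin.cons e0 e, ?_, ?_, ?_⟩
      · intro i
        refine Fin.cases ?_ (fun i => ?_) i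
        · exact he0F
        · exact ((hmem _).1 (h1 i)).1
      · intro i j
        refine Fin.cases ?_ (fun i => ?_) i
        · refine Fin.cases ?_ (fun j => ?_) j
          · simpa using he00
          · rw [Fin.cons_zero, Fin.cons_succ, he0x, if_neg (Fin.succ_ne_zero j).symm]
        · refine Fin.cases ?_ (fun j => ?_) j
          · rw [Fin.cons_zero, Fin.cons_succ, ((hmem _).1 (h1 i)).2,
              if_neg (Fin.succ_ne_zero i)]
          · rw [Fin.cons_succ, Fin.cons_succ, h2]
            simp [Fin.succ_inj]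
      · intro g hg k
        have hg' : g - g x0 • e0 ∈ F' := by
          rw [hmem]
          refine ⟨F.sub_mem hg (F.smul_mem _ he0F), ?_⟩
          rw [Pi.sub_apply, Pi.smul_apply, he00, smul_eq_mul, mul_one, sub_self]
        have h4 := h3 _ hg' k
        simp only [Pi.sub_apply, Pi.smul_apply, smul_eq_mul, he0x, mul_zero, sub_zero] at h4
        rw [Fin.sum_univ_succ]
        simp only [Fin.cons_zero, Fin.cons_succ]
        rw [← h4]
        ring

theorem Xd_finite (π : GLn n →* (P →L[ℂ] P)) (hπ : IsCW π) (D : ℕ) :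
    FiniteDimensional ℂ (Xd π D) := by
  obtain ⟨m, x, e, h1, h2, h3⟩ := kxf_interp (Module.finrank ℂ (PK n D)) (PK n D)
    (PK_finite n D) le_rfl
  let σ : KU n →* Matrix (Fin m) (Fin m) ℂ :=
    { toFun := fun k0 => Matrix.of fun i j => e i (k0 * x j)
      map_one' := by
        ext i j
        rw [Matrix.of_apply, one_mul, h2, Matrix.one_apply]
      map_mul' := by
        intro k0 k1
        ext i j
        rw [Matrix.mul_apply]
        simp only [Matrix.of_apply]
        rw [mul_assoc]
        exact h3 _ (PK_left (h1 i) k0) (k1 * x j) }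
  have hσ : ∀ k0 i j, σ k0 i j = e i (k0 * x j) := fun _ _ _ => rfl
  have hσc : Continuous σ := by
    refine continuous_matrix fun i j => ?_
    exact (PK_cont (h1 i)).comp (continuous_mul_const (x j))
  have := adm_all π hπ m σ hσc
  have hrep : ∀ v ∈ Xd π D, ∀ k : KU n,
      π (k : GLn n) v = ∑ i, e i k • π ((x i : KU n) : GLn n) v := by
    intro v hv k
    apply ext_functional
    intro l
    rw [map_sum, h3 _ (hv l) k]
    refine Finset.sum_congr rfl fun i _ => ?_
    rw [map_smul, smul_eq_mul, mul_comm]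
  let T : P → (Fin m → ℂ) →ₗ[ℂ] P := fun v =>
    ∑ j, (LinearMap.proj j : (Fin m → ℂ) →ₗ[ℂ] ℂ).smulRight (π ((x j : KU n) : GLn n) v)
  have hT : ∀ v w, T v w = ∑ j, w j • π ((x j : KU n) : GLn n) v := by
    intro v w
    simp [T]
  have hmul : ∀ (k k' : KU n) (v : P), π ((k * k' : KU n) : GLn n) v =
      π (k : GLn n) (π (k' : GLn n) v) := by
    intro k k' v
    rw [Subgroup.coe_mul, map_mul]
    rfl
  have hTeq : ∀ v ∈ Xd π D, T v ∈ HomK σ π := by
    intro v hv k w
    rw [hT, hT, map_sum]
    have e1 : ∀ j, π (k : GLn n) (w j • π ((x j : KU n) : GLn n) v) =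
        ∑ i, (w j * e i (k * x j)) • π ((x i : KU n) : GLn n) v := by
      intro j
      rw [map_smul, ← hmul, hrep v hv (k * x j), Finset.smul_sum]
      exact Finset.sum_congr rfl fun i _ => smul_smul _ _ _
    simp only [e1]
    rw [Finset.sum_comm]
    refine Finset.sum_congr rfl fun i _ => ?_
    rw [← Finset.sum_smul]
    congr 1
    rw [Matrix.mulVec, dotProduct]
    refine Finset.sum_congr rfl fun j _ => ?_
    rw [hσ, mul_comm]
  let Φ : Xd π D →ₗ[ℂ] HomK σ π :=
    { toFun := fun v => ⟨T v.1, hTeq v.1 v.2⟩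
      map_add' := by
        intro v w
        apply Subtype.ext
        apply LinearMap.ext
        intro u
        change T (v.1 + w.1) u = T v.1 u + T w.1 u
        rw [hT, hT, hT, ← Finset.sum_add_distrib]
        refine Finset.sum_congr rfl fun j _ => ?_
        rw [map_add, smul_add]
      map_smul' := by
        intro c v
        apply Subtype.ext
        apply LinearMap.ext
        intro u
        change T (c • v.1) u = c • T v.1 u
        rw [hT, hT, Finset.smul_sum]
        refine Finset.sum_congr rfl fun j _ => ?_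
        rw [map_smul, smul_comm] }
  have hinj : Function.Injective Φ := by
    rw [← LinearMap.ker_eq_bot, LinearMap.ker_eq_bot']
    intro v hv
    have h4 : T v.1 = 0 := congrArg Subtype.val hv
    have h5 := hrep v.1 v.2 1
    rw [← hT v.1 (fun i => e i 1), h4, LinearMap.zero_apply] at h5
    apply Subtype.ext
    rw [Subgroup.coe_one, map_one] at h5
    exact h5
  exact FiniteDimensional.of_injective Φ hinj

end

end Pool.Agent.Work.MP_dd0ddf_al.AR
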