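import Pool.Agent.Work.MP_dd0ddf_al.AR.KXf
import Pool.Agent.Work.MP_dd0ddf_al.AR.KED

/-!
# MP_dd0ddf_al, archimedean part, block R, module KYf


`Yd π D` is finite dimensional, and the pairing of `Yd π D` and `Xd π D` is perfect.

PROOF. Take `E` from `exists_ED`.  Restriction to `Xd π D` is injective on `Yd π D`: if `l = 0` on `Xd π D` then
`l = l ∘ E_D = 0`.  So `Yd π D` embeds in the dual of the finite dimensional space `Xd π D`.  `Yd_sep`: the injectivity.
`Xd_rep`: a linear functional `β` on `Yd π D` (given as a linear functional on `P'`) is the evaluation at some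
`x ∈ Xd π D`: the map `Xd π D → Dual(Yd π D)`, `x ↦ (l ↦ l x)`, is injective (if `l x = 0` for all `l ∈ Yd π D`, then for every
continuous `l`: `l x = l(E_D x) = (l ∘ E_D) x = 0`, so `x = 0` by `ext_functional`) and
`finrank Dual(Yd) = finrank Yd ≤ finrank Xd`, so it is surjective.
-/

set_option linter.unusedSectionVars false

namespace Pool.Agent.Work.MP_dd0ddf_al.AR

open scoped SchwartzMap Matrix.Norms.Elementwise ComplexConjugate ContDiff Topology
open Matrix MeasureTheory Filter Asymptotics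

noncomputable section

variable {n : ℕ} {P : Type*} [AddCommGroup P] [Module ℂ P] [UniformSpace P] [IsUniformAddGroup P]
  [ContinuousSMul ℂ P] [PolynormableSpace ℂ P] [T2Space P] [CompleteSpace P]
  [FirstCountableTopology P]

private theorem surj_gen {V W : Type*} [AddCommGroup V] [Module ℂ V] [AddCommGroup W]
    [Module ℂ W] [FiniteDimensional ℂ V] [FiniteDimensional ℂ W] (B : V →ₗ[ℂ] Module.Dual ℂ W)
    (hB : Function.Injective B) (hB' : ∀ w, (∀ v, B v w = 0) → w = 0) :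
    Function.Surjective B := by
  have h1 : Module.finrank ℂ V ≤ Module.finrank ℂ (Module.Dual ℂ W) :=
    LinearMap.finrank_le_finrank_of_injective hB
  have h2 : Module.finrank ℂ W ≤ Module.finrank ℂ (Module.Dual ℂ V) := by
    refine LinearMap.finrank_le_finrank_of_injective (f := B.flip) ?_
    rw [injective_iff_map_eq_zero]
    intro w hw
    exact hB' w fun v => LinearMap.congr_fun hw v
  rw [Subspace.dual_finrank_eq] at h1 h2
  have h3 : Module.finrank ℂ V = Module.finrank ℂ (Module.Dual ℂ W) := by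
    rw [Subspace.dual_finrank_eq]
    exact le_antisymm h1 h2
  exact (LinearMap.injective_iff_surjective_of_finrank_eq_finrank h3).1 hB

private theorem rep_gen {V F : Type*} [AddCommGroup V] [Module ℂ V] [AddCommGroup F]
    [Module ℂ F] (b : F →ₗ[ℂ] V →ₗ[ℂ] ℂ) (X : Submodule ℂ V) (Y : Submodule ℂ F)
    (hX : FiniteDimensional ℂ X) (hY : FiniteDimensional ℂ Y)
    (h1 : ∀ x ∈ X, (∀ l ∈ Y, b l x = 0) → x = 0) (h2 : ∀ l ∈ Y, (∀ x ∈ X, b l x = 0) → l = 0)
    (β : F →ₗ[ℂ] ℂ) : ∃ x ∈ X, ∀ l ∈ Y, b l x = β l := by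
  set B : X →ₗ[ℂ] Module.Dual ℂ Y := (b.flip.comp X.subtype).compr₂ LinearMap.id |>.compl₁₂
    LinearMap.id Y.subtype with hB
  have hBa : ∀ (x : X) (l : Y), B x l = b l x := fun x l => rfl
  have hsur : Function.Surjective B := by
    refine surj_gen B ?_ ?_
    · rw [injective_iff_map_eq_zero]
      intro x hx
      apply Subtype.ext
      apply h1 x x.2
      intro l hl
      exact LinearMap.congr_fun hx ⟨l, hl⟩
    · intro l hl
      apply Subtype.ext
      apply h2 l l.2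
      intro v hv
      exact hl ⟨v, hv⟩
  obtain ⟨x, hx⟩ := hsur (β.comp Y.subtype)
  refine ⟨x, x.2, ?_⟩
  intro l hl
  exact LinearMap.congr_fun hx ⟨l, hl⟩

private theorem Yd_sep' (π : GLn n →* (P →L[ℂ] P)) (hπ : IsCW π) (D : ℕ) (l : P →L[ℂ] ℂ)
    (hl : l ∈ Yd π D) (h : ∀ v ∈ Xd π D, l v = 0) : l = 0 := by
  obtain ⟨E, -, -, h1, -, -, h4, -⟩ := exists_ED π hπ
  rw [← h4 D l hl]
  ext v
  exact h _ (h1 D v)

private def resY (π : GLn n →* (P →L[ℂ] P)) (D : ℕ) :
    Yd π D →ₗ[ℂ] Module.Dual ℂ (Xd π D) where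
  toFun l := (l : P →L[ℂ] ℂ).toLinearMap.comp (Xd π D).subtype
  map_add' := by
    intro l m
    ext x
    simp
  map_smul' := by
    intro c l
    ext x
    simp

private theorem resY_inj (π : GLn n →* (P →L[ℂ] P)) (hπ : IsCW π) (D : ℕ) :
    Function.Injective (resY π D) := by
  rw [injective_iff_map_eq_zero]
  intro l hl
  apply Subtype.ext
  apply Yd_sep' π hπ D l l.2
  intro v hv
  exact LinearMap.congr_fun hl ⟨v, hv⟩

theorem Yd_finite (π : GLn n →* (P →L[ℂ] P)) (hπ : IsCW π) (D : ℕ) :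
    FiniteDimensional ℂ (Yd π D) := by
  have : FiniteDimensional ℂ (Xd π D) := Xd_finite π hπ D
  exact FiniteDimensional.of_injective (resY π D) (resY_inj π hπ D)

theorem Yd_sep (π : GLn n →* (P →L[ℂ] P)) (hπ : IsCW π) (D : ℕ) (l : P →L[ℂ] ℂ)
    (hl : l ∈ Yd π D) (h : ∀ v ∈ Xd π D, l v = 0) : l = 0 :=
  Yd_sep' π hπ D l hl h

theorem Xd_sep (π : GLn n →* (P →L[ℂ] P)) (hπ : IsCW π) (D : ℕ) (v : P)
    (hv : v ∈ Xd π D) (h : ∀ l ∈ Yd π D, l v = 0) : v = 0 := by
  obtain ⟨E, -, -, -, h2, h3, -, -⟩ := exists_ED π hπ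
  apply ext_functional
  intro l
  rw [map_zero, ← h2 D v hv]
  exact h _ (h3 D l)

theorem Xd_rep (π : GLn n →* (P →L[ℂ] P)) (hπ : IsCW π) (D : ℕ)
    (β : (P →L[ℂ] ℂ) →ₗ[ℂ] ℂ) : ∃ x ∈ Xd π D, ∀ l ∈ Yd π D, l x = β l := by
  have hX : FiniteDimensional ℂ (Xd π D) := Xd_finite π hπ D
  have hY : FiniteDimensional ℂ (Yd π D) := Yd_finite π hπ D
  have key := rep_gen (F := P →L[ℂ] ℂ) (ContinuousLinearMap.coeLM ℂ) (Xd π D) (Yd π D) hX hY
    (fun x hx h => Xd_sep π hπ D x hx h) (fun l hl h => Yd_sep' π hπ D l hl h) β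
  exact key

end

end Pool.Agent.Work.MP_dd0ddf_al.AR
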