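import Pool.Agent.Work.MP_dd0ddf_al.AR.RGe
import Pool.Agent.Work.MP_dd0ddf_al.CW.RadI

/-!
# MP_dd0ddf_al, archimedean part, block R, module RR1

No coefficient decays faster than all exponentials (helper29).

PROOF. Case `n = 0`: `GLn 0` is trivial, so `π (aa 0 t) = 1`; choose `v ∈ VK π` with `l v ≠ 0` (`VK_dense`, otherwise `l = 0` by continuity); the function is a nonzero
constant, not `O(exp(-t))`: `m = l`, `N = -1`.
Case `0 < n`: assume the contrary (`by_contra`, `push_neg`): for all `m ∈ Yd π D`, `v ∈ VK π`, `N`: `m(π(aa n t) v) = O(exp(N t))` at infinity.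
`exists_Xd_ne`: `Xd π D0 ≠ ⊥`.  `h_i = n - i` is injective; `Λ = Yd π D` is finite dimensional (`Yd_finite`) and stable under `l ↦ l ∘ (Lo_ij - Ro_ji)` (`Yd_k`); `radSys`.
`CW.radI` with `V0 = vV0 π D0` (`vV0_fin`, `vV0_Z`); hdec: for `m : ℕ` the bound for `t ≥ T` from the assumption with `N = -m` (`aa_eq`, `rB_apply`), and on the compact
interval `[1, T]` by continuity (`hd.deriv` gives differentiability, so continuity) and `exp(-m t) ≥ exp(-m T)`.
So `l(π(aa n t) (wd w v)) = 0` for all words, `v ∈ vV0 π D0`, `t > 0`; at `t = 1`: `l(π(aa n 1) s) = 0` for all `s ∈ genS π d hd D0`, which is dense (`genS_dense`), so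
`l ∘ π(aa n 1) = 0`, so `l = 0` (`π(aa n 1)` is surjective with inverse `π((aa n 1)⁻¹)`), a contradiction.
-/

set_option linter.unusedSectionVars false

namespace Pool.Agent.Work.MP_dd0ddf_al.AR

open scoped SchwartzMap Matrix.Norms.Elementwise ComplexConjugate ContDiff Topology
open Matrix MeasureTheory Filter Asymptotics

noncomputable section

variable {n : ℕ} {P : Type*} [AddCommGroup P] [Module ℂ P] [UniformSpace P] [IsUniformAddGroup P]
  [ContinuousSMul ℂ P] [PolynormableSpace ℂ P] [T2Space P] [CompleteSpace P]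
  [FirstCountableTopology P]

private theorem rr1_dec (f : ℝ → ℂ) (hf : Continuous f) (m : ℕ)
    (h : f =O[atTop] fun t : ℝ => Real.exp (-(m : ℝ) * t)) :
    ∃ C : ℝ, ∀ t : ℝ, 1 ≤ t → ‖f t‖ ≤ C * Real.exp (-(m : ℝ) * t) := by
  obtain ⟨C, hC⟩ := isBigO_iff.1 h
  obtain ⟨T, hT⟩ := eventually_atTop.1 hC
  obtain ⟨M, hM⟩ := (isCompact_Icc (a := (1 : ℝ)) (b := max T 1)).exists_bound_of_continuousOn
    hf.continuousOn
  refine ⟨|C| + |M| * Real.exp ((m : ℝ) * max T 1), fun t ht => ?_⟩
  have e0 : 0 < Real.exp (-(m : ℝ) * t) := Real.exp_pos _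
  rcases le_total (max T 1) t with h1 | h1
  · have h2 := hT t ((le_max_left _ _).trans h1)
    rw [Real.norm_eq_abs, abs_of_pos e0] at h2
    refine h2.trans (mul_le_mul_of_nonneg_right ?_ e0.le)
    have : 0 ≤ |M| * Real.exp ((m : ℝ) * max T 1) := by positivity
    linarith [le_abs_self C]
  · have h2 := hM t ⟨ht, h1⟩
    have h3 : 1 ≤ Real.exp ((m : ℝ) * max T 1) * Real.exp (-(m : ℝ) * t) := by
      rw [← Real.exp_add]
      apply Real.one_le_exp
      have : (0 : ℝ) ≤ m := Nat.cast_nonneg m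
      nlinarith
    have h4 : |M| ≤ |M| * (Real.exp ((m : ℝ) * max T 1) * Real.exp (-(m : ℝ) * t)) :=
      le_mul_of_one_le_right (abs_nonneg M) h3
    have h5 : 0 ≤ |C| * Real.exp (-(m : ℝ) * t) := by positivity
    calc ‖f t‖ ≤ |M| := h2.trans (le_abs_self M)
      _ ≤ (|C| + |M| * Real.exp ((m : ℝ) * max T 1)) * Real.exp (-(m : ℝ) * t) := by
        rw [add_mul, mul_assoc]
        linarith

private theorem rr1_ext (S : Set P) (hS : Dense S) (l : P →L[ℂ] ℂ) (h : ∀ s ∈ S, l s = 0) :
    l = 0 := by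
  have h1 : (l : P → ℂ) = fun _ => 0 := Continuous.ext_on hS l.continuous continuous_const
    (fun s hs => h s hs)
  ext v
  exact congrFun h1 v

/-- some coefficient in `Yd π D` does not decay faster than all exponentials -/
theorem no_superexp (π : GLn n →* (P →L[ℂ] P)) (hπ : IsCW π) (d : Mat n → P →L[ℂ] P)
    (hd : Der π d) (D : ℕ) (l : P →L[ℂ] ℂ) (hl : l ∈ Yd π D) (hl0 : l ≠ 0) :
    ∃ m ∈ Yd π D, ∃ v ∈ VK π, ∃ N : ℝ,
      ¬ ((fun t : ℝ => m (π (aa n t) v)) =O[atTop] fun t : ℝ => Real.exp (N * t)) := by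
  rcases Nat.eq_zero_or_pos n with hn | hn
  · subst hn
    have h1 : ∃ v ∈ VK π, l v ≠ 0 := by
      by_contra hcon
      push Not at hcon
      exact hl0 (rr1_ext _ (VK_dense π hπ) l hcon)
    obtain ⟨v, hv, hv0⟩ := h1
    refine ⟨l, hl, v, hv, -1, fun hO => ?_⟩
    have haa : ∀ t : ℝ, aa 0 t = 1 := fun t => Units.ext (Subsingleton.elim _ _)
    have hf : (fun t : ℝ => l (π (aa 0 t) v)) = fun _ => l v := by
      funext t
      rw [haa t, map_one]
      rfl
    rw [hf] at hO
    have h2 : Tendsto (fun t : ℝ => Real.exp (-1 * t)) atTop (𝓝 0) := by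
      have := Real.tendsto_exp_neg_atTop_nhds_zero
      simpa using this
    have h3 := hO.trans_tendsto h2
    exact hv0 (tendsto_nhds_unique tendsto_const_nhds h3)
  · by_contra hcon
    push Not at hcon
    have hh : Function.Injective fun i : Fin n => (n : ℝ) - (i : ℕ) := by
      intro i j hij
      have : ((i : ℕ) : ℝ) = ((j : ℕ) : ℝ) := by
        have h := hij
        simp only at h
        linarith
      exact Fin.ext (by exact_mod_cast this)
    have hΛ : ∀ i j, ∀ l ∈ Yd π D, l.comp (Lo d i j - Ro d j i) ∈ Yd π D :=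
      fun i j l hl => Yd_k π d hd i j hl
    have rs := radSys π hπ d hd (fun i : Fin n => (n : ℝ) - (i : ℕ)) hh (Yd π D) hΛ
    obtain ⟨D0, h0⟩ := exists_Xd_ne π hπ
    have := Yd_finite π hπ D
    have := vV0_fin π hπ D0
    have hdec : ∀ (l : Yd π D) (y : VK π) (m : ℕ), ∃ C : ℝ, ∀ t : ℝ, 1 ≤ t →
        ‖rB π (fun i : Fin n => (n : ℝ) - (i : ℕ)) (Yd π D) t l y‖ ≤
          C * Real.exp (-(m : ℝ) * t) := by
      intro l y m
      refine rr1_dec _ ?_ m ?_
      · exact continuous_iff_continuousAt.2 fun t => (rs.der t l y).continuousAt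
      · have h1 := hcon l l.2 y y.2 (-(m : ℝ))
        have h2 : (fun t : ℝ => rB π (fun i : Fin n => (n : ℝ) - (i : ℕ)) (Yd π D) t l y) =
            fun t : ℝ => (l : P →L[ℂ] ℂ) (π (aa n t) (y : P)) := by
          funext t
          rw [rB_apply, aa_eq]
        rw [h2]
        exact h1
    have key := CW.radI hn rs (V0 := vV0 π D0) (fun i j v hv => vV0_Z π d hd D0 i j hv) hdec
    obtain ⟨a, ha⟩ : ∃ a : GLn n,
        a = expG ((1 : ℝ) • CW.Hd fun i : Fin n => (n : ℝ) - (i : ℕ)) := ⟨_, rfl⟩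
    have hz : ∀ s ∈ (genS π d hd D0 : Set P), (l.comp (π a)) s = 0 := by
      intro s hs
      have hs' : s ∈ genS π d hd D0 := hs
      unfold genS at hs'
      induction hs' using Submodule.span_induction with
      | mem x hx =>
        obtain ⟨w, v, hv, rfl⟩ := hx
        have h1 := key ⟨l, hl⟩ v hv w 1 one_pos
        rw [rB_apply] at h1
        rw [ha]
        exact h1
      | zero => exact map_zero _
      | add x y hx hy h1 h2 =>
        rw [map_add, h1 hx, h2 hy, add_zero]
      | smul c x hx h1 => rw [map_smul, h1 hx, smul_zero]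
    have h2 := rr1_ext _ (genS_dense hn π hπ d hd D0 h0) (l.comp (π a)) hz
    apply hl0
    ext v
    have h3 : (l.comp (π a)) (π a⁻¹ v) = 0 := by rw [h2]; rfl
    have h4 : π a (π a⁻¹ v) = v := by
      have h5 : π a * π a⁻¹ = 1 := by rw [← map_mul, mul_inv_cancel, map_one]
      exact congrFun (congrArg DFunLike.coe h5) v
    rw [ContinuousLinearMap.comp_apply, h4] at h3
    exact h3

end

end Pool.Agent.Work.MP_dd0ddf_al.AR
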