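import Pool.Agent.Work.MP_dd0ddf_al.AR.ADrop
import Pool.Agent.Work.MP_dd0ddf_al.AR.ASysD
import Pool.Agent.Work.MP_dd0ddf_al.AR.KXf
import Pool.Agent.Work.MP_dd0ddf_al.AR.KED
import Pool.Agent.Work.MP_dd0ddf_al.AR.KYf
import Pool.Agent.Work.MP_dd0ddf_al.AR.KVd
import Pool.Agent.Work.MP_dd0ddf_al.AR.RR1

/-!
# MP_dd0ddf_al, archimedean part, block R, module ALam


The leading exponent `Λ`.

PROOF. Let `c_j` be the diagonal coefficients and `ρ` an upper bound of all `Re c_j`.  Fix `D`.  `Yd π D` is finite dimensional (`Yd_finite`); for a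
basis `l_1, ..., l_r` take continuous `K`-invariant seminorms `p_a ≥ |l_a|` (`functional_KInv`) and `aa_growth`: there is `N_D` with all `l_a(π(aa t)v) =
O(e^(N_D t))`, so `BdA` holds for the system `asysD` and `N_D` (for a general `l = ∑ x_a l_a`; `allC` allows any dependence on `l`).  By `asy_all`
with `Λ := ρ` (hypothesis `hz` is empty) `BdA N` holds for all `N > ρ`, for the system of `Yd π D`, for all `D`; hence for the system of `YK π`
(`mem_YK`; choose `κ(l)` = the bound for some `D` with `l ∈ Yd π D`: `BdA` with `allC` says: for all `v` there is, for every `l`, a constant).  So the set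
`G = {N | BdA (YK-system) N}` is nonempty and upward closed (`e^(Nt)` is monotone in `N`).
It is bounded below: `P ≠ 0` (`hπ.nontriv`), so there is a nonzero continuous functional, and some `Yd π D ≠ 0`: if all `Yd π D = 0`, then for
every `l` and `D`: `l ∘ E_D = 0`, so `l = 0` on `VK π`, which is dense (`VK_dense`), so all `l = 0`, contradiction to `ext_functional`.  Take
`l ∈ Yd π D`, `l ≠ 0`; `no_superexp` gives `m ∈ Yd π D`, `v ∈ VK`, `N0` with `m(π(aa t)v)` not `O(e^(N0 t))`; then `N ∉ G` for `N ≤ N0`.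
`Λ = sInf G`: for `N > Λ` there is `N' ∈ G`, `N' < N`, so `N ∈ G`; for `N < Λ`, `N ∉ G`.
-/

set_option linter.unusedSectionVars false

namespace Pool.Agent.Work.MP_dd0ddf_al.AR

open scoped SchwartzMap Matrix.Norms.Elementwise ComplexConjugate ContDiff Topology
open Matrix MeasureTheory Filter Asymptotics

noncomputable section

variable {n : ℕ} {P : Type*} [AddCommGroup P] [Module ℂ P] [UniformSpace P] [IsUniformAddGroup P]
  [ContinuousSMul ℂ P] [PolynormableSpace ℂ P] [T2Space P] [CompleteSpace P]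
  [FirstCountableTopology P]

private theorem BdA_mono {I V : Type*} [AddCommGroup V] [Module ℂ V] {VV : Submodule ℂ V}
    {B : ℝ → I → V →ₗ[ℂ] ℂ} {N N' : ℝ} (h : BdA VV B (allC I) N) (hN : N ≤ N') :
    BdA VV B (allC I) N' := by
  intro v hv
  obtain ⟨κ, hκ, hb⟩ := h v hv
  refine ⟨κ, hκ, fun i t ht => (hb i t ht).trans ?_⟩
  exact mul_le_mul_of_nonneg_left
    (Real.exp_le_exp.2 (mul_le_mul_of_nonneg_right hN ht)) (hκ i)

private theorem init_growth (π : GLn n →* (P →L[ℂ] P)) (hπ : IsCW π) (D : ℕ) :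
    ∃ N : ℝ, BdA (VK π) (BtI π (fun l : Yd π D => (l : P →L[ℂ] ℂ))) (allC _) N := by
  have hfin : FiniteDimensional ℂ (Yd π D) := Yd_finite π hπ D
  have hfree : Module.Free ℂ (Yd π D) := Module.Free.of_divisionRing ℂ (Yd π D)
  have hone : ∀ l : P →L[ℂ] ℂ, ∃ (N : ℝ) (q : Seminorm ℂ P), ∀ (t : ℝ), 0 ≤ t → ∀ v : P,
      ‖l (π (aa n t) v)‖ ≤ Real.exp (N * t) * q v := by
    intro l
    obtain ⟨p, hp, -, hlp⟩ := functional_KInv π hπ l
    obtain ⟨N, q, -, hq⟩ := aa_growth π hπ p hp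
    exact ⟨N, q, fun t ht v => (hlp _).trans (hq t ht v)⟩
  let b := Module.finBasis ℂ (Yd π D)
  choose N q hq using fun i => hone ((b i : Yd π D) : P →L[ℂ] ℂ)
  refine ⟨∑ i, |N i|, ?_⟩
  intro v _
  refine ⟨fun l => ∑ i, ‖b.repr l i‖ * q i v, fun l => Finset.sum_nonneg fun i _ =>
    mul_nonneg (norm_nonneg _) (apply_nonneg _ _), ?_⟩
  intro l t ht
  have h1 : BtI π (fun l : Yd π D => (l : P →L[ℂ] ℂ)) t l v =
      ∑ i, b.repr l i * ((b i : Yd π D) : P →L[ℂ] ℂ) (π (aa n t) v) := by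
    have h2 : (l : P →L[ℂ] ℂ) = ∑ i, b.repr l i • ((b i : Yd π D) : P →L[ℂ] ℂ) := by
      have h3 := congrArg (fun x : Yd π D => (x : P →L[ℂ] ℂ)) (b.sum_repr l)
      simp only [Submodule.coe_sum, Submodule.coe_smul] at h3
      exact h3.symm
    have h4 : BtI π (fun l : Yd π D => (l : P →L[ℂ] ℂ)) t l v =
      (l : P →L[ℂ] ℂ) (π (aa n t) v) := rfl
    rw [h4]
    conv_lhs => rw [h2]
    rw [_root_.sum_apply]
    rfl
  rw [h1, Finset.sum_mul]
  refine (norm_sum_le _ _).trans (Finset.sum_le_sum fun i _ => ?_)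
  rw [norm_mul, mul_assoc]
  refine mul_le_mul_of_nonneg_left ?_ (norm_nonneg _)
  refine (hq i t ht v).trans ?_
  rw [mul_comm]
  refine mul_le_mul_of_nonneg_left ?_ (apply_nonneg _ _)
  refine Real.exp_le_exp.2 (mul_le_mul_of_nonneg_right ?_ ht)
  exact (le_abs_self _).trans
    (Finset.single_le_sum (f := fun i => |N i|) (fun i _ => abs_nonneg _) (Finset.mem_univ i))

private theorem exists_Yd_ne (π : GLn n →* (P →L[ℂ] P)) (hπ : IsCW π) :
    ∃ (D : ℕ), ∃ l ∈ Yd π D, l ≠ 0 := by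
  by_contra hno
  push Not at hno
  obtain ⟨E, -, -, -, h2, h3, -, -⟩ := exists_ED π hπ
  have hl0 : ∀ l : P →L[ℂ] ℂ, l = 0 := by
    intro l
    have h4 : ∀ v ∈ VK π, l v = 0 := by
      intro v hv
      obtain ⟨D, hD⟩ := mem_VK.1 hv
      have h5 := hno D _ (h3 D l)
      have h6 := congrArg (fun m : P →L[ℂ] ℂ => m v) h5
      have h7 : l (E D v) = 0 := h6
      rwa [h2 D v hD] at h7
    have h8 := Continuous.ext_on (VK_dense π hπ) l.continuous continuous_zero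
      (fun v hv => h4 v hv)
    exact ContinuousLinearMap.ext fun v => congrFun h8 v
  obtain ⟨x, y, hxy⟩ := hπ.nontriv
  exact hxy (ext_functional fun l => by rw [hl0 l]; rfl)

theorem exists_Lam (π : GLn n →* (P →L[ℂ] P)) (hπ : IsCW π) (d : Mat n → P →L[ℂ] P)
    (hd : Der π d) {m : ℕ} (w : Fin m → P) (α β : Fin n → Fin m → ℂ) (hw : ∀ j, w j ∈ VK π)
    (hL : ∀ i j, Lo d i i (w j) - α i j • w j ∈ Submodule.span ℂ (w '' {k | k < j}) ⊔ nbV π d)
    (hR : ∀ i j, Ro d i i (w j) - β i j • w j ∈ Submodule.span ℂ (w '' {k | k < j}) ⊔ nbV π d)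
    (hg : VK π ≤ Submodule.span ℂ (Set.range w) ⊔ nbV π d) :
    ∃ Λ : ℝ, (∀ N : ℝ, Λ < N →
        BdA (VK π) (BtI π (fun l : YK π => (l : P →L[ℂ] ℂ))) (allC _) N) ∧
      ∀ N : ℝ, N < Λ →
        ¬ BdA (VK π) (BtI π (fun l : YK π => (l : P →L[ℂ] ℂ))) (allC _) N := by
  classical
  -- the bounds for `Yd π D`
  obtain ⟨ρ, hρ⟩ : ∃ ρ : ℝ, ∀ j : Fin m,
      (∑ i : Fin n, ((n : ℂ) - (i : ℕ)) * (α i j + β i j)).re ≤ ρ := by
    refine ⟨∑ j, |(∑ i : Fin n, ((n : ℂ) - (i : ℕ)) * (α i j + β i j)).re|, fun j => ?_⟩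
    exact (le_abs_self _).trans (Finset.single_le_sum
      (f := fun j => |(∑ i : Fin n, ((n : ℂ) - (i : ℕ)) * (α i j + β i j)).re|)
      (fun j _ => abs_nonneg _) (Finset.mem_univ j))
  have hD : ∀ (D : ℕ) (N' : ℝ), ρ < N' →
      BdA (VK π) (BtI π (fun l : Yd π D => (l : P →L[ℂ] ℂ))) (allC _) N' := by
    intro D N' hN'
    obtain ⟨N, hN⟩ := init_growth π hπ D
    exact asy_all (asysD π hπ d hd w α β hw hL hR hg D) hN
      (fun i j hj => absurd hj (not_lt.2 (hρ j))) N' hN'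
  have hY : ∀ N' : ℝ, ρ < N' →
      BdA (VK π) (BtI π (fun l : YK π => (l : P →L[ℂ] ℂ))) (allC _) N' := by
    intro N' hN' v hv
    have h1 : ∀ l : YK π, ∃ κ : ℝ, 0 ≤ κ ∧ ∀ t : ℝ, 0 ≤ t →
        ‖(l : P →L[ℂ] ℂ) (π (aa n t) v)‖ ≤ κ * Real.exp (N' * t) := by
      intro l
      obtain ⟨D, hlD⟩ := mem_YK.1 l.2
      obtain ⟨κ, hκ, hb⟩ := hD D N' hN' v hv
      exact ⟨κ ⟨l, hlD⟩, hκ _, fun t ht => hb ⟨l, hlD⟩ t ht⟩
    choose κ hκ hb using h1
    exact ⟨κ, hκ, fun l t ht => hb l t ht⟩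
  -- not too small
  obtain ⟨D, l, hl, hl0⟩ := exists_Yd_ne π hπ
  obtain ⟨m', hm', v, hv, N0, hN0⟩ := no_superexp π hπ d hd D l hl hl0
  have hlow : ∀ N : ℝ, N ≤ N0 →
      ¬ BdA (VK π) (BtI π (fun l : YK π => (l : P →L[ℂ] ℂ))) (allC _) N := by
    intro N hN hB
    obtain ⟨κ, hκ, hb⟩ := BdA_mono hB hN v hv
    apply hN0
    refine IsBigO.of_bound (κ ⟨m', mem_YK.2 ⟨D, hm'⟩⟩) ?_
    filter_upwards [eventually_ge_atTop (0 : ℝ)] with t ht
    have h2 := hb ⟨m', mem_YK.2 ⟨D, hm'⟩⟩ t ht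
    rw [Real.norm_of_nonneg (Real.exp_pos _).le]
    exact h2
  set G : Set ℝ :=
    {N | BdA (VK π) (BtI π (fun l : YK π => (l : P →L[ℂ] ℂ))) (allC _) N} with hG
  have hne : G.Nonempty := ⟨ρ + 1, hY (ρ + 1) (by linarith)⟩
  have hbd : BddBelow G := by
    refine ⟨N0, fun N hN => ?_⟩
    by_contra h
    exact hlow N (not_le.1 h).le hN
  refine ⟨sInf G, ?_, ?_⟩
  · intro N hN
    obtain ⟨N', hN', hlt⟩ := exists_lt_of_csInf_lt hne hN
    exact BdA_mono hN' hlt.le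
  · intro N hN h
    exact absurd (csInf_le hbd (show N ∈ G from h)) (not_le.2 hN)

end

end Pool.Agent.Work.MP_dd0ddf_al.AR
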