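import Pool.Agent.Work.MP_dd0ddf_al.AR.ATriC
import Pool.Agent.Work.MP_dd0ddf_al.AR.ALam
import Pool.Agent.Work.MP_dd0ddf_al.AR.ACbe

/-!
# Block R5 of MP_dd0ddf_al (archimedean part): existence of a continuous `B`-eigenvector
-/

set_option linter.unusedSectionVars false

namespace Pool.Agent.Work.MP_dd0ddf_al.AR

open scoped SchwartzMap Matrix.Norms.Elementwise ComplexConjugate ContDiff Topology
open Matrix MeasureTheory Filter Asymptotics

noncomputable section

variable {n : ℕ} {P : Type*} [AddCommGroup P] [Module ℂ P] [UniformSpace P] [IsUniformAddGroup P]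
  [ContinuousSMul ℂ P] [PolynormableSpace ℂ P] [T2Space P] [CompleteSpace P]
  [FirstCountableTopology P]

/-- existence of a continuous `B`-eigenvector (leading asymptotic coefficient) -/
theorem exists_CBE (π : GLn n →* (P →L[ℂ] P)) (hπ : IsCW π) (d : Mat n → P →L[ℂ] P)
    (hd : Der π d) : ∃ (u : (P →L[ℂ] ℂ) →ₗ[ℂ] ℂ) (a b : Fin n → ℂ), CBE π d u a b := by
  obtain ⟨m, w, α, β, hw, hL, hR, hg⟩ := exists_tri π hπ d hd
  obtain ⟨Λ, h1, h2⟩ := exists_Lam π hπ d hd w α β hw hL hR hg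
  exact CBE_of_Lam π hπ d hd w α β hw hL hR hg Λ h1 h2

end

end Pool.Agent.Work.MP_dd0ddf_al.AR
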