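import Pool.Agent.Work.MP_dd0ddf_al.AR.RKDefs

/-!
# MP_dd0ddf_al, archimedean part, block R6 (sorting): definitions

* `cs2`: Casimir operator; `LfS`: locally finite semisimple representation of `sl_2`;
  `Prj`: the projectors on its isotypic components; `Rel2`: relations of `sl_2 × sl_2`;
* `yo π T`: the operator `l ↦ l ∘ T` on the `K`-finite functionals `YK π` (if it preserves them);
  `yL π d i j = - yo π (Lo d i j)`, `yR π d i j = - yo π (Ro d i j)`: the contragredient
  representation; `MY π`: the dual of `YK π`; `mL`, `mR`: representation on `MY π`,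
  `(mL i j x)(l) = x(l ∘ Lo i j)`;
* `Pgr π x`: `x ∈ MY π` has polynomial growth (the condition `CBE.bound`);
* `swa a i j`: the reflected weight.
-/

set_option linter.unusedSectionVars false

namespace Pool.Agent.Work.MP_dd0ddf_al.AR

open scoped SchwartzMap Matrix.Norms.Elementwise ComplexConjugate ContDiff Topology
open Matrix MeasureTheory Filter

noncomputable section

section sl2

variable {V : Type*} [AddCommGroup V] [Module ℂ V]

/-- the Casimir operator of `sl_2` -/
def cs2 (E F H : Module.End ℂ V) : Module.End ℂ V := H * H + 2 • H + 4 • (F * E)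

/-- locally finite semisimple representation of `sl_2` -/
structure LfS (E F H : Module.End ℂ V) : Prop where
  he : H * E - E * H = 2 • E
  hf : H * F - F * H = -(2 • F)
  ef : E * F - F * E = H
  lf : ∀ v : V, ∃ S : Submodule ℂ V, FiniteDimensional ℂ S ∧ v ∈ S ∧
    ∀ w ∈ S, E w ∈ S ∧ F w ∈ S ∧ H w ∈ S
  ss : ∀ (c : ℂ) (v : V), (cs2 E F H - c • 1) ((cs2 E F H - c • 1) v) = 0 →
    (cs2 E F H - c • 1) v = 0

/-- the projectors on the isotypic components of a locally finite semisimple representation of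
`sl_2` -/
structure Prj (E F H : Module.End ℂ V) (pr : ℕ → Module.End ℂ V) : Prop where
  mul : ∀ l m, pr l * pr m = if l = m then pr l else 0
  fin : ∀ v : V, ∃ N : ℕ, (∀ l, N ≤ l → pr l v = 0) ∧ ∑ l ∈ Finset.range N, pr l v = v
  cas : ∀ l : ℕ, cs2 E F H * pr l = ((l : ℂ) * (l + 2)) • pr l
  com : ∀ T : Module.End ℂ V, T * cs2 E F H = cs2 E F H * T → ∀ l, T * pr l = pr l * T
  stab : ∀ S : Submodule ℂ V, (∀ v ∈ S, cs2 E F H v ∈ S) → ∀ l, ∀ v ∈ S, pr l v ∈ S
  wt : ∀ (φ : V →ₗ[ℂ] ℂ) (l : ℕ) (κ : ℂ), (∀ v, φ (pr l (H v)) = κ * φ (pr l v)) →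
    (∃ v, φ (pr l v) ≠ 0) → ∃ j : ℕ, j ≤ l ∧ κ = (l : ℂ) - 2 * j

/-- the relations of `sl_2 × sl_2` -/
structure Rel2 (e f h e' f' h' : Module.End ℂ V) : Prop where
  he : h * e - e * h = 2 • e
  hf : h * f - f * h = -(2 • f)
  ef : e * f - f * e = h
  he' : h' * e' - e' * h' = 2 • e'
  hf' : h' * f' - f' * h' = -(2 • f')
  ef' : e' * f' - f' * e' = h'
  cm : ∀ x ∈ ({e, f, h} : Set (Module.End ℂ V)), ∀ y ∈ ({e', f', h'} : Set (Module.End ℂ V)),
    x * y = y * x

end sl2

variable {n : ℕ}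

/-- the reflected weight -/
def swa (a : Fin n → ℂ) (i j : Fin n) : Fin n → ℂ :=
  fun q => if q = i then a j - 1 else if q = j then a i + 1 else a q

section Rep

variable {P : Type*} [AddCommGroup P] [Module ℂ P] [TopologicalSpace P]

/-- the additive group structure of `YK π` (instance search does not find it in linear maps) -/
instance acgYK (π : GLn n →* (P →L[ℂ] P)) : AddCommGroup (YK π) :=
  { (YK π).addCommMonoid with
    neg := fun x => -x
    sub := fun x y => x - y
    sub_eq_add_neg := fun x y => by exact sub_eq_add_neg x y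
    zsmul := fun n x => n • x
    zsmul_zero' := fun x => by exact zero_zsmul x
    zsmul_succ' := fun n x => by exact SubNegMonoid.zsmul_succ' n x
    zsmul_neg' := fun n x => by exact SubNegMonoid.zsmul_neg' n x
    neg_add_cancel := fun x => by exact neg_add_cancel x }

open Classical in
/-- the operator `l ↦ l ∘ T` on the `K`-finite functionals (if it preserves them) -/
def yo (π : GLn n →* (P →L[ℂ] P)) (T : P →L[ℂ] P) : Module.End ℂ (YK π) :=
  if h : ∀ l ∈ YK π, l.comp T ∈ YK π then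
    { toFun := fun l => ⟨(l : P →L[ℂ] ℂ).comp T, h l l.2⟩
      map_add' := fun l m => by
        apply Subtype.ext
        ext v
        rfl
      map_smul' := fun c l => by
        apply Subtype.ext
        ext v
        rfl }
  else 0

theorem yo_apply {π : GLn n →* (P →L[ℂ] P)} {T : P →L[ℂ] P}
    (h : ∀ l ∈ YK π, l.comp T ∈ YK π) (l : YK π) :
    ((yo π T l : YK π) : P →L[ℂ] ℂ) = (l : P →L[ℂ] ℂ).comp T := by
  unfold yo
  rw [dif_pos h]
  rfl

variable [IsTopologicalAddGroup P] [ContinuousSMul ℂ P]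

/-- contragredient action of the `ℂ`-linear part on the `K`-finite functionals -/
def yL (π : GLn n →* (P →L[ℂ] P)) (d : Mat n → P →L[ℂ] P) (i j : Fin n) : Module.End ℂ (YK π) :=
  -yo π (Lo d i j)

/-- contragredient action of the antilinear part on the `K`-finite functionals -/
def yR (π : GLn n →* (P →L[ℂ] P)) (d : Mat n → P →L[ℂ] P) (i j : Fin n) : Module.End ℂ (YK π) :=
  -yo π (Ro d i j)

/-- linear functionals on the `K`-finite functionals (formal vectors) -/
abbrev MY (π : GLn n →* (P →L[ℂ] P)) := Module.Dual ℂ (YK π)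

/-- action of the `ℂ`-linear part on formal vectors -/
def mL (π : GLn n →* (P →L[ℂ] P)) (d : Mat n → P →L[ℂ] P) (i j : Fin n) :
    Module.End ℂ (MY π) := -(yL π d i j).dualMap

/-- action of the antilinear part on formal vectors -/
def mR (π : GLn n →* (P →L[ℂ] P)) (d : Mat n → P →L[ℂ] P) (i j : Fin n) :
    Module.End ℂ (MY π) := -(yR π d i j).dualMap

/-- compact `sl_2`: `E`, on functionals -/
def yE (π : GLn n →* (P →L[ℂ] P)) (d : Mat n → P →L[ℂ] P) (i j : Fin n) : Module.End ℂ (YK π) :=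
  yL π d i j - yR π d j i

/-- compact `sl_2`: `H`, on functionals -/
def yH (π : GLn n →* (P →L[ℂ] P)) (d : Mat n → P →L[ℂ] P) (i j : Fin n) : Module.End ℂ (YK π) :=
  (yL π d i i - yL π d j j) - (yR π d i i - yR π d j j)

/-- `x` has polynomial growth -/
def Pgr (π : GLn n →* (P →L[ℂ] P)) (x : MY π) : Prop :=
  ∀ p : Seminorm ℂ P, Continuous p → KInv π p → ∃ (C : ℝ) (M : ℕ), ∀ D : ℕ,
    ∀ l : YK π, (l : P →L[ℂ] ℂ) ∈ Yd π D → ∀ c : ℝ, (∀ v, ‖(l : P →L[ℂ] ℂ) v‖ ≤ c * p v) →
      ‖x l‖ ≤ C * (1 + (D : ℝ)) ^ M * c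

end Rep

end

end Pool.Agent.Work.MP_dd0ddf_al.AR
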