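import Pool.Agent.Work.MP_dd0ddf_al.AR.KPa
import Pool.Agent.Work.MP_dd0ddf_al.AR.KPb
import Pool.Agent.Work.MP_dd0ddf_al.AR.RLR

/-!
# MP_dd0ddf_al, archimedean part, block R, module KDx


The derived representation raises the `K`-degree by at most `2`.

PROOF. Let `v ∈ Xd π D`, `k ∈ K`.  By `hd.Ad`: `π k (d Y v) = d (k Y k⁻¹) (π k v)`, and by `d_eq_sum`
`= ∑_ij ((k Y k⁻¹)_ij Lo_ij (π k v) + conj((k Y k⁻¹)_ij) Ro_ij (π k v))`.  For a continuous functional `l`: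
`l(π k (d Y v)) = ∑_ij (k Y k⁻¹)_ij (l ∘ Lo_ij)(π k v) + ...`.  The entries of `k Y k⁻¹` are in `PK n 2` as functions of `k`
(`(k Y k⁻¹)_ij = ∑ k_ia Y_ab conj(k_jb)`, `KU_inv`, `PK_entry`, `PK_entry_conj`, `PK_mul`), the functions
`k ↦ (l ∘ Lo_ij)(π k v)` are in `PK n D`; products are in `PK n (D+2)` (`PK_mul`).
`Yd`: for `l ∈ Yd π D`, `l(d Y (π k v)) = l(π k (d (k⁻¹ Y k) v)) = ∑_ij (k⁻¹ Y k)_ij l(π k (Lo_ij v)) + ...`, the same.
The statements for `Lo`, `Ro` follow from their definitions (`Submodule` operations).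
-/

set_option linter.unusedSectionVars false

namespace Pool.Agent.Work.MP_dd0ddf_al.AR

open scoped SchwartzMap Matrix.Norms.Elementwise ComplexConjugate ContDiff Topology
open Matrix MeasureTheory Filter Asymptotics

noncomputable section

variable {n : ℕ} {P : Type*} [AddCommGroup P] [Module ℂ P] [UniformSpace P] [IsUniformAddGroup P]
  [ContinuousSMul ℂ P] [PolynormableSpace ℂ P] [T2Space P] [CompleteSpace P]
  [FirstCountableTopology P]

omit [AddCommGroup P] [Module ℂ P] [UniformSpace P] [IsUniformAddGroup P]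
  [ContinuousSMul ℂ P] [PolynormableSpace ℂ P] [T2Space P] [CompleteSpace P]
  [FirstCountableTopology P] in
private theorem PK_sum {D : ℕ} {ι : Type*} (s : Finset ι) (f : ι → KU n → ℂ)
    (h : ∀ i ∈ s, f i ∈ PK n D) : (fun k => ∑ i ∈ s, f i k) ∈ PK n D := by
  have h1 := (PK n D).sum_mem h
  have h2 : (∑ i ∈ s, f i) = fun k => ∑ i ∈ s, f i k := by
    funext k
    rw [Finset.sum_apply]
  rwa [h2] at h1

omit [AddCommGroup P] [Module ℂ P] [UniformSpace P] [IsUniformAddGroup P]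
  [ContinuousSMul ℂ P] [PolynormableSpace ℂ P] [T2Space P] [CompleteSpace P]
  [FirstCountableTopology P] in
private theorem PK_two {f g : KU n → ℂ} (hf : f ∈ PK n 1) (hg : g ∈ PK n 1) (c : ℂ) :
    (fun k => f k * c * g k) ∈ PK n 2 := by
  have h1 : (fun k => f k * g k) ∈ PK n (1 + 1) := PK_mul hf hg
  have h2 := (PK n 2).smul_mem c h1
  have h3 : (c • fun k => f k * g k) = fun k => f k * c * g k := by
    funext k
    simp only [Pi.smul_apply, smul_eq_mul]
    ring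
  rwa [h3] at h2

omit [AddCommGroup P] [Module ℂ P] [UniformSpace P] [IsUniformAddGroup P]
  [ContinuousSMul ℂ P] [PolynormableSpace ℂ P] [T2Space P] [CompleteSpace P]
  [FirstCountableTopology P] in
private theorem conjL (Y : Mat n) (i j : Fin n) :
    (fun k : KU n => (((k : GLn n) : Mat n) * Y * (((k : GLn n)⁻¹ : GLn n) : Mat n)) i j) ∈
      PK n 2 := by
  have h : (fun k : KU n => (((k : GLn n) : Mat n) * Y * (((k : GLn n)⁻¹ : GLn n) : Mat n)) i j) =
      fun k : KU n => ∑ b, ∑ a, ((k : GLn n) : Mat n) i a * Y a b *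
        conj (((k : GLn n) : Mat n) j b) := by
    funext k
    rw [KU_inv]
    simp only [Matrix.mul_apply, Matrix.conjTranspose_apply, Finset.sum_mul]
    rfl
  rw [h]
  refine PK_sum _ _ fun b _ => PK_sum _ _ fun a _ => ?_
  exact PK_two (PK_entry i a) (PK_entry_conj j b) (Y a b)

omit [AddCommGroup P] [Module ℂ P] [UniformSpace P] [IsUniformAddGroup P]
  [ContinuousSMul ℂ P] [PolynormableSpace ℂ P] [T2Space P] [CompleteSpace P]
  [FirstCountableTopology P] in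
private theorem conjR (Y : Mat n) (i j : Fin n) :
    (fun k : KU n => ((((k : GLn n)⁻¹ : GLn n) : Mat n) * Y * ((k : GLn n) : Mat n)) i j) ∈
      PK n 2 := by
  have h : (fun k : KU n => ((((k : GLn n)⁻¹ : GLn n) : Mat n) * Y * ((k : GLn n) : Mat n)) i j) =
      fun k : KU n => ∑ b, ∑ a, conj (((k : GLn n) : Mat n) a i) * Y a b *
        ((k : GLn n) : Mat n) b j := by
    funext k
    rw [KU_inv]
    simp only [Matrix.mul_apply, Matrix.conjTranspose_apply, Finset.sum_mul]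
    rfl
  rw [h]
  refine PK_sum _ _ fun b _ => PK_sum _ _ fun a _ => ?_
  exact PK_two (PK_entry_conj a i) (PK_entry b j) (Y a b)

theorem Xd_d (π : GLn n →* (P →L[ℂ] P)) (d : Mat n → P →L[ℂ] P) (hd : Der π d) (Y : Mat n)
    {D : ℕ} {v : P} (hv : v ∈ Xd π D) : d Y v ∈ Xd π (D + 2) := by
  intro l
  have h : (fun k : KU n => l (π (k : GLn n) (d Y v))) = fun k : KU n => ∑ i, ∑ j,
      ((((k : GLn n) : Mat n) * Y * (((k : GLn n)⁻¹ : GLn n) : Mat n)) i j *
        (l.comp (Lo d i j)) (π (k : GLn n) v) +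
      conj ((((k : GLn n) : Mat n) * Y * (((k : GLn n)⁻¹ : GLn n) : Mat n)) i j) *
        (l.comp (Ro d i j)) (π (k : GLn n) v)) := by
    funext k
    rw [hd.Ad, d_eq_sum π d hd, map_sum]
    refine Finset.sum_congr rfl fun i _ => ?_
    rw [map_sum]
    refine Finset.sum_congr rfl fun j _ => ?_
    rw [map_add, map_smul, map_smul, smul_eq_mul, smul_eq_mul]
    rfl
  rw [h]
  refine PK_sum _ _ fun i _ => PK_sum _ _ fun j _ => ?_
  have e : D + 2 = 2 + D := by omega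
  rw [e]
  refine (PK n (2 + D)).add_mem (x := fun k : KU n =>
      (((k : GLn n) : Mat n) * Y * (((k : GLn n)⁻¹ : GLn n) : Mat n)) i j *
        (l.comp (Lo d i j)) (π (k : GLn n) v))
    (y := fun k : KU n =>
      conj ((((k : GLn n) : Mat n) * Y * (((k : GLn n)⁻¹ : GLn n) : Mat n)) i j) *
        (l.comp (Ro d i j)) (π (k : GLn n) v)) ?_ ?_
  · exact PK_mul (conjL Y i j) (hv (l.comp (Lo d i j)))
  · exact PK_mul (PK_conj (conjL Y i j)) (hv (l.comp (Ro d i j)))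

theorem Yd_d (π : GLn n →* (P →L[ℂ] P)) (d : Mat n → P →L[ℂ] P) (hd : Der π d) (Y : Mat n)
    {D : ℕ} {l : P →L[ℂ] ℂ} (hl : l ∈ Yd π D) : l.comp (d Y) ∈ Yd π (D + 2) := by
  intro v
  have h : (fun k : KU n => (l.comp (d Y)) (π (k : GLn n) v)) = fun k : KU n => ∑ i, ∑ j,
      (((((k : GLn n)⁻¹ : GLn n) : Mat n) * Y * ((k : GLn n) : Mat n)) i j *
        l (π (k : GLn n) (Lo d i j v)) +
      conj (((((k : GLn n)⁻¹ : GLn n) : Mat n) * Y * ((k : GLn n) : Mat n)) i j) *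
        l (π (k : GLn n) (Ro d i j v))) := by
    funext k
    have h1 : ((k : GLn n) : Mat n) * (((k : GLn n)⁻¹ : GLn n) : Mat n) = 1 := by
      rw [← Units.val_mul, mul_inv_cancel, Units.val_one]
    have h2 : ((k : GLn n) : Mat n) *
        ((((k : GLn n)⁻¹ : GLn n) : Mat n) * Y * ((k : GLn n) : Mat n)) *
          (((k : GLn n)⁻¹ : GLn n) : Mat n) = Y := by
      calc ((k : GLn n) : Mat n) *
        ((((k : GLn n)⁻¹ : GLn n) : Mat n) * Y * ((k : GLn n) : Mat n)) *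
          (((k : GLn n)⁻¹ : GLn n) : Mat n)
          = (((k : GLn n) : Mat n) * (((k : GLn n)⁻¹ : GLn n) : Mat n)) * Y *
              (((k : GLn n) : Mat n) * (((k : GLn n)⁻¹ : GLn n) : Mat n)) := by
            simp only [Matrix.mul_assoc]
        _ = Y := by rw [h1, Matrix.one_mul, Matrix.mul_one]
    have h3 := hd.Ad (k : GLn n)
      ((((k : GLn n)⁻¹ : GLn n) : Mat n) * Y * ((k : GLn n) : Mat n)) v
    rw [h2] at h3
    show l (d Y (π (k : GLn n) v)) = _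
    rw [← h3, d_eq_sum π d hd, map_sum, map_sum]
    refine Finset.sum_congr rfl fun i _ => ?_
    rw [map_sum, map_sum]
    refine Finset.sum_congr rfl fun j _ => ?_
    rw [map_add, map_add, map_smul, map_smul, map_smul, map_smul, smul_eq_mul, smul_eq_mul]
  rw [h]
  refine PK_sum _ _ fun i _ => PK_sum _ _ fun j _ => ?_
  have e : D + 2 = 2 + D := by omega
  rw [e]
  refine (PK n (2 + D)).add_mem (x := fun k : KU n =>
      ((((k : GLn n)⁻¹ : GLn n) : Mat n) * Y * ((k : GLn n) : Mat n)) i j *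
        l (π (k : GLn n) (Lo d i j v)))
    (y := fun k : KU n =>
      conj (((((k : GLn n)⁻¹ : GLn n) : Mat n) * Y * ((k : GLn n) : Mat n)) i j) *
        l (π (k : GLn n) (Ro d i j v))) ?_ ?_
  · exact PK_mul (conjR Y i j) (hl (Lo d i j v))
  · exact PK_mul (PK_conj (conjR Y i j)) (hl (Ro d i j v))

theorem Xd_LR (π : GLn n →* (P →L[ℂ] P)) (d : Mat n → P →L[ℂ] P) (hd : Der π d) (i j : Fin n)
    {D : ℕ} {v : P} (hv : v ∈ Xd π D) : Lo d i j v ∈ Xd π (D + 2) ∧ Ro d i j v ∈ Xd π (D + 2) := by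
  have h1 := Xd_d π d hd (Matrix.single i j 1) hv
  have h2 := Xd_d π d hd (Matrix.single i j Complex.I) hv
  exact ⟨(Xd π (D + 2)).smul_mem _ ((Xd π (D + 2)).sub_mem h1 ((Xd π (D + 2)).smul_mem _ h2)),
    (Xd π (D + 2)).smul_mem _ ((Xd π (D + 2)).add_mem h1 ((Xd π (D + 2)).smul_mem _ h2))⟩

theorem Yd_LR (π : GLn n →* (P →L[ℂ] P)) (d : Mat n → P →L[ℂ] P) (hd : Der π d) (i j : Fin n)
    {D : ℕ} {l : P →L[ℂ] ℂ} (hl : l ∈ Yd π D) :
    l.comp (Lo d i j) ∈ Yd π (D + 2) ∧ l.comp (Ro d i j) ∈ Yd π (D + 2) := by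
  have h1 := Yd_d π d hd (Matrix.single i j 1) hl
  have h2 := Yd_d π d hd (Matrix.single i j Complex.I) hl
  have e1 : l.comp (Lo d i j) = (1 / 2 : ℂ) • (l.comp (d (Matrix.single i j 1)) -
      Complex.I • l.comp (d (Matrix.single i j Complex.I))) := by
    ext v
    simp [Lo]
  have e2 : l.comp (Ro d i j) = (1 / 2 : ℂ) • (l.comp (d (Matrix.single i j 1)) +
      Complex.I • l.comp (d (Matrix.single i j Complex.I))) := by
    ext v
    simp [Ro]
  rw [e1, e2]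
  exact ⟨(Yd π (D + 2)).smul_mem _ ((Yd π (D + 2)).sub_mem h1 ((Yd π (D + 2)).smul_mem _ h2)),
    (Yd π (D + 2)).smul_mem _ ((Yd π (D + 2)).add_mem h1 ((Yd π (D + 2)).smul_mem _ h2))⟩

theorem VK_LR (π : GLn n →* (P →L[ℂ] P)) (d : Mat n → P →L[ℂ] P) (hd : Der π d) (i j : Fin n)
    {v : P} (hv : v ∈ VK π) : Lo d i j v ∈ VK π ∧ Ro d i j v ∈ VK π := by
  obtain ⟨D, hD⟩ := mem_VK.mp hv
  have h := Xd_LR π d hd i j hD
  exact ⟨mem_VK.mpr ⟨_, h.1⟩, mem_VK.mpr ⟨_, h.2⟩⟩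

theorem YK_LR (π : GLn n →* (P →L[ℂ] P)) (d : Mat n → P →L[ℂ] P) (hd : Der π d) (i j : Fin n)
    {l : P →L[ℂ] ℂ} (hl : l ∈ YK π) :
    l.comp (Lo d i j) ∈ YK π ∧ l.comp (Ro d i j) ∈ YK π := by
  obtain ⟨D, hD⟩ := mem_YK.mp hl
  have h := Yd_LR π d hd i j hD
  exact ⟨mem_YK.mpr ⟨_, h.1⟩, mem_YK.mpr ⟨_, h.2⟩⟩

end

end Pool.Agent.Work.MP_dd0ddf_al.AR
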