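import Pool.Agent.Work.MP_dd0ddf_al.AR.KPc
import Pool.Agent.Work.MP_dd0ddf_al.AR.KPd

/-!
# MP_dd0ddf_al, archimedean part, block R, module KPh


Bernstein inequality for polynomials on `K` along the circle groups `s ↦ exp(i s w w^*)`, `|w| = 1`.

PROOF. `eK_unitary`: `Q = w w^*` satisfies `Q^* = Q`, `Q^2 = Q`, so `(1 + (z-1)Q)^* (1 + (z-1)Q) = 1 + (z + conj z - 2 +
|z-1|^2) Q = 1` for `|z| = 1`.  `exp_rank1`: `exp(s I Q) = 1 + (e^(is) - 1) Q` (both sides are one parameter groups with
the same derivative; or the power series with `Q^m = Q`: `NormedSpace.exp_eq_tsum`; or diagonalise; or uniqueness: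
`HasDerivAt` of `s ↦ exp(-s I Q)(1 + (e^(is) - 1) Q)` is `0`).
`bern_fun`: the entries of `eK w hw s` are `a_ij + b_ij e^(is)`, their conjugates `conj a_ij + conj b_ij e^(-is)`.  So
`f (eK w hw s) = ∑_(m = -d)^d c_m e^(ims)` for some `c_m`: prove by induction: the set of functions of `s` of this form with
bound `d` on the frequencies is closed under sums and products add the bounds.  Then
`c_m = (1/2π) ∫_0^(2π) f (eK s) e^(-ims) ds` (orthogonality, `integral_exp_mul_complex`), so `|c_m| ≤ B`, and the derivative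
at `0` is `∑ i m c_m`, of norm `≤ (2d+1) d B`.
-/

set_option linter.unusedSectionVars false

namespace Pool.Agent.Work.MP_dd0ddf_al.AR

open scoped SchwartzMap Matrix.Norms.Elementwise ComplexConjugate ContDiff Topology
open Matrix MeasureTheory Filter Asymptotics

noncomputable section

variable {n : ℕ}

set_option backward.isDefEq.respectTransparency false in
private theorem kh_exp (Q : Matrix (Fin n) (Fin n) ℂ) (hQ : Q * Q = Q) (c : ℂ) :
    NormedSpace.exp (c • Q) = 1 + (Complex.exp c - 1) • Q := by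
  letI : SeminormedRing (Matrix (Fin n) (Fin n) ℂ) := Matrix.linftyOpSemiNormedRing
  letI : NormedRing (Matrix (Fin n) (Fin n) ℂ) := Matrix.linftyOpNormedRing
  letI : NormedAlgebra ℂ (Matrix (Fin n) (Fin n) ℂ) := Matrix.linftyOpNormedAlgebra
  have h1 := NormedSpace.exp_series_hasSum_exp' (𝕂 := ℂ) (c • Q)
  have hc := NormedSpace.exp_series_hasSum_exp' (𝕂 := ℂ) c
  have h2 : HasSum (fun k : ℕ => ((k.factorial : ℂ)⁻¹ • c ^ k) • Q) (NormedSpace.exp c • Q) :=
    hc.smul_const Q
  have h3 : HasSum (fun k : ℕ => if k = 0 then (1 - Q) else 0) (1 - Q) := hasSum_ite_eq 0 _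
  have h4 := h2.add h3
  have hpow : ∀ k : ℕ, Q ^ (k + 1) = Q := by
    intro k
    induction k with
    | zero => rw [zero_add, pow_one]
    | succ k ih => rw [pow_succ, ih, hQ]
  have h5 : (fun k : ℕ => (k.factorial : ℂ)⁻¹ • (c • Q) ^ k) =
      fun k : ℕ => ((k.factorial : ℂ)⁻¹ • c ^ k) • Q + (if k = 0 then (1 - Q) else 0) := by
    funext k
    rcases k with _ | k
    · simp
    · rw [if_neg (Nat.succ_ne_zero k), add_zero, smul_pow, hpow, smul_smul, smul_eq_mul]
  rw [h5] at h1
  rw [h1.unique h4, ← Complex.exp_eq_exp_ℂ, sub_smul, one_smul]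
  abel

private theorem kh_herm (w : Fin n → ℂ) :
    (Matrix.vecMulVec w (star w) : Mat n)ᴴ = Matrix.vecMulVec w (star w) := by
  rw [Matrix.conjTranspose_vecMulVec, star_star]

private theorem kh_idem (w : Fin n → ℂ) (hw : star w ⬝ᵥ w = 1) :
    (Matrix.vecMulVec w (star w) : Mat n) * Matrix.vecMulVec w (star w) =
      Matrix.vecMulVec w (star w) := by
  rw [Matrix.vecMulVec_mul_vecMulVec, hw, one_smul]

private theorem kh_norm (s : ℝ) :
    conj (Complex.exp (Complex.I * s)) * Complex.exp (Complex.I * s) = 1 := by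
  rw [← Complex.exp_conj, ← Complex.exp_add, map_mul, Complex.conj_I, Complex.conj_ofReal,
    neg_mul, neg_add_cancel, Complex.exp_zero]

private theorem kh_mul (Q : Mat n) (hQ : Q * Q = Q) (a b : ℂ) :
    (1 + a • Q) * (1 + b • Q) = 1 + (a + b + a * b) • Q := by
  rw [add_mul, mul_add, mul_add, one_mul, mul_one, one_mul, smul_mul_smul_comm, hQ, add_smul,
    add_smul]
  abel

theorem eK_unitary (w : Fin n → ℂ) (hw : star w ⬝ᵥ w = 1) (s : ℝ) :
    (1 + (Complex.exp (Complex.I * s) - 1) • Matrix.vecMulVec w (star w) : Mat n)ᴴ *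
      (1 + (Complex.exp (Complex.I * s) - 1) • Matrix.vecMulVec w (star w)) = 1 := by
  rw [Matrix.conjTranspose_add, Matrix.conjTranspose_one, Matrix.conjTranspose_smul, kh_herm,
    kh_mul _ (kh_idem w hw)]
  have h : star (Complex.exp (Complex.I * s) - 1) + (Complex.exp (Complex.I * s) - 1) +
      star (Complex.exp (Complex.I * s) - 1) * (Complex.exp (Complex.I * s) - 1) = 0 := by
    have h1 := kh_norm s
    rw [star_sub, star_one]
    have h2 : star (Complex.exp (Complex.I * s)) = conj (Complex.exp (Complex.I * s)) := rfl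
    rw [h2]
    linear_combination h1
  rw [h, zero_smul, add_zero]

/-- the circle group `s ↦ exp(i s w w^*)` in `K` -/
def eK (w : Fin n → ℂ) (hw : star w ⬝ᵥ w = 1) (s : ℝ) : KU n :=
  mkK (1 + (Complex.exp (Complex.I * s) - 1) • Matrix.vecMulVec w (star w)) (eK_unitary w hw s)

theorem exp_rank1 (w : Fin n → ℂ) (hw : star w ⬝ᵥ w = 1) (s : ℝ) :
    expG (s • (Complex.I • Matrix.vecMulVec w (star w))) = ((eK w hw s : KU n) : GLn n) := by
  apply Units.ext
  rw [coe_expG]
  have h1 : (s • (Complex.I • Matrix.vecMulVec w (star w)) : Mat n) =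
      (Complex.I * s) • Matrix.vecMulVec w (star w) := by
    ext i j
    simp only [Matrix.smul_apply, Complex.real_smul, smul_eq_mul]
    ring
  rw [h1]
  exact kh_exp _ (kh_idem w hw) _

/-- trigonometric polynomials of degree at most `d` -/
private def TPP (d : ℕ) (g : ℝ → ℂ) : Prop :=
  ∃ Q : Polynomial ℂ, Q.natDegree ≤ 2 * d ∧
    ∀ s : ℝ, Complex.exp (Complex.I * s) ^ d * g s = Q.eval (Complex.exp (Complex.I * s))

private theorem tpp_add {d : ℕ} {g h : ℝ → ℂ} (hg : TPP d g) (hh : TPP d h) :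
    TPP d (fun s => g s + h s) := by
  obtain ⟨Q, hQ, h1⟩ := hg
  obtain ⟨R, hR, h2⟩ := hh
  refine ⟨Q + R, Polynomial.natDegree_add_le_of_degree_le hQ hR, fun s => ?_⟩
  rw [mul_add, h1, h2, Polynomial.eval_add]

private theorem tpp_mono {d e : ℕ} (hde : d ≤ e) {g : ℝ → ℂ} (hg : TPP d g) : TPP e g := by
  obtain ⟨Q, hQ, h1⟩ := hg
  refine ⟨Polynomial.X ^ (e - d) * Q, ?_, fun s => ?_⟩
  · refine (Polynomial.natDegree_mul_le).trans ?_
    rw [Polynomial.natDegree_X_pow]
    omega
  · rw [Polynomial.eval_mul, Polynomial.eval_pow, Polynomial.eval_X, ← h1, ← mul_assoc, ← pow_add,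
      Nat.sub_add_cancel hde]

private theorem tpp_mul {d e : ℕ} {g h : ℝ → ℂ} (hg : TPP d g) (hh : TPP e h) :
    TPP (d + e) (fun s => g s * h s) := by
  obtain ⟨Q, hQ, h1⟩ := hg
  obtain ⟨R, hR, h2⟩ := hh
  refine ⟨Q * R, (Polynomial.natDegree_mul_le).trans (by omega), fun s => ?_⟩
  rw [Polynomial.eval_mul, ← h1, ← h2, pow_add]
  ring

private theorem tpp_const (c : ℂ) : TPP 0 (fun _ => c) := by
  refine ⟨Polynomial.C c, by simp, fun s => ?_⟩
  rw [Polynomial.eval_C, pow_zero, one_mul]

private theorem tpp_pow {g : ℝ → ℂ} (hg : TPP 1 g) (k : ℕ) : TPP k (fun s => g s ^ k) := by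
  induction k with
  | zero =>
    simp only [pow_zero]
    exact tpp_const 1
  | succ k ih =>
    simp only [pow_succ]
    exact tpp_mul ih hg

private theorem tpp_prod {ι : Type*} (t : Finset ι) (k : ι → ℕ) (g : ι → ℝ → ℂ)
    (hg : ∀ i, TPP (k i) (g i)) : TPP (∑ i ∈ t, k i) (fun s => ∏ i ∈ t, g i s) := by
  classical
  induction t using Finset.induction_on with
  | empty =>
    simp only [Finset.sum_empty, Finset.prod_empty]
    exact tpp_const 1
  | insert a t ha ih =>
    rw [Finset.sum_insert ha]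
    simp only [Finset.prod_insert ha]
    exact tpp_mul (hg a) ih

private theorem tpp_sum {ι : Type*} (t : Finset ι) (d : ℕ) (g : ι → ℝ → ℂ)
    (hg : ∀ i ∈ t, TPP d (g i)) : TPP d (fun s => ∑ i ∈ t, g i s) := by
  classical
  induction t using Finset.induction_on with
  | empty =>
    simp only [Finset.sum_empty]
    exact tpp_mono (Nat.zero_le d) (tpp_const 0)
  | insert a t ha ih =>
    simp only [Finset.sum_insert ha]
    exact tpp_add (hg a (Finset.mem_insert_self a t))
      (ih fun i hi => hg i (Finset.mem_insert_of_mem hi))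

private theorem tpp_entry (w : Fin n → ℂ) (hw : star w ⬝ᵥ w = 1) (x : Vars n) :
    TPP 1 (fun s => evv (((eK w hw s : KU n) : GLn n) : Mat n) x) := by
  have he : ∀ (s : ℝ) (i j : Fin n), ((((eK w hw s : KU n) : GLn n) : Mat n)) i j =
      ((1 : Mat n) i j - Matrix.vecMulVec w (star w) i j) +
        Complex.exp (Complex.I * s) * Matrix.vecMulVec w (star w) i j := by
    intro s i j
    have h1 : (((eK w hw s : KU n) : GLn n) : Mat n) =
      1 + (Complex.exp (Complex.I * s) - 1) • Matrix.vecMulVec w (star w) := coe_mkK _ _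
    rw [h1, Matrix.add_apply, Matrix.smul_apply, smul_eq_mul]
    ring
  rcases x with ⟨i, j⟩ | ⟨i, j⟩
  · refine ⟨Polynomial.C ((1 : Mat n) i j - Matrix.vecMulVec w (star w) i j) * Polynomial.X +
      Polynomial.C (Matrix.vecMulVec w (star w) i j) * Polynomial.X ^ 2, ?_, fun s => ?_⟩
    · refine Polynomial.natDegree_add_le_of_degree_le ?_ (Polynomial.natDegree_C_mul_X_pow_le _ _)
      exact (Polynomial.natDegree_C_mul_le _ _).trans (by rw [Polynomial.natDegree_X]; norm_num)
    · show Complex.exp (Complex.I * s) ^ 1 * (((eK w hw s : KU n) : GLn n) : Mat n) i j = _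
      rw [he]
      simp only [Polynomial.eval_add, Polynomial.eval_mul, Polynomial.eval_C, Polynomial.eval_X,
        Polynomial.eval_pow]
      ring
  · refine ⟨Polynomial.C (conj ((1 : Mat n) i j - Matrix.vecMulVec w (star w) i j)) *
      Polynomial.X + Polynomial.C (conj (Matrix.vecMulVec w (star w) i j)), ?_, fun s => ?_⟩
    · refine Polynomial.natDegree_add_le_of_degree_le ?_ ?_
      · exact (Polynomial.natDegree_C_mul_le _ _).trans (by rw [Polynomial.natDegree_X]; norm_num)
      · rw [Polynomial.natDegree_C]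
        norm_num
    · show Complex.exp (Complex.I * s) ^ 1 *
        conj ((((eK w hw s : KU n) : GLn n) : Mat n) i j) = _
      rw [he, map_add, map_mul]
      simp only [Polynomial.eval_add, Polynomial.eval_mul, Polynomial.eval_C, Polynomial.eval_X]
      linear_combination (conj (Matrix.vecMulVec w (star w) i j)) * kh_norm s

private theorem tpp_PK {d : ℕ} {f : KU n → ℂ} (hf : f ∈ PK n d) (w : Fin n → ℂ)
    (hw : star w ⬝ᵥ w = 1) : TPP d (fun s => f (eK w hw s)) := by
  obtain ⟨p, hp, h1⟩ := hf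
  have h2 : (fun s : ℝ => f (eK w hw s)) = fun s : ℝ => ∑ m ∈ p.support,
      p.coeff m * ∏ x, evv (((eK w hw s : KU n) : GLn n) : Mat n) x ^ m x := by
    funext s
    rw [h1, MvPolynomial.eval_eq']
  rw [h2]
  refine tpp_sum _ _ _ fun m hm => ?_
  have h3 : (∑ x, m x) ≤ d := by
    refine le_trans ?_ hp
    have h4 := MvPolynomial.le_totalDegree hm
    rwa [Finsupp.sum_fintype _ _ (fun _ => rfl)] at h4
  have h5 := tpp_mul (tpp_const (p.coeff m)) (tpp_prod Finset.univ (fun x => m x)
    (fun x s => evv (((eK w hw s : KU n) : GLn n) : Mat n) x ^ m x)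
    fun x => tpp_pow (tpp_entry w hw x) (m x))
  exact tpp_mono (by omega) h5

private theorem kh_iter (Q : Polynomial ℂ) (j : ℕ) :
    iteratedDeriv j (fun z => Q.eval z) 0 = j.factorial * Q.coeff j := by
  have h1 : ∀ (j : ℕ) (Q : Polynomial ℂ), iteratedDeriv j (fun z => Q.eval z) =
      fun z => (Polynomial.derivative^[j] Q).eval z := by
    intro j
    induction j with
    | zero =>
      intro Q
      rw [iteratedDeriv_zero]
      rfl
    | succ j ih =>
      intro Q
      rw [iteratedDeriv_succ', Function.iterate_succ_apply, ← ih]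
      congr 1
      funext z
      exact Q.deriv
  rw [h1]
  show (Polynomial.derivative^[j] Q).eval 0 = _
  rw [← Polynomial.coeff_zero_eq_eval_zero, Polynomial.coeff_iterate_derivative, zero_add,
    Nat.descFactorial_self, nsmul_eq_mul]

private theorem kh_coeff (Q : Polynomial ℂ) {B : ℝ}
    (hB : ∀ s : ℝ, ‖Q.eval (Complex.exp (Complex.I * s))‖ ≤ B) (j : ℕ) : ‖Q.coeff j‖ ≤ B := by
  have h1 := Complex.norm_iteratedDeriv_le_of_forall_mem_sphere_norm_le (c := 0) (R := 1) (C := B)
    (f := fun z => Q.eval z) j one_pos Q.differentiable.diffContOnCl (by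
      intro z hz
      rw [mem_sphere_zero_iff_norm] at hz
      have h2 := Complex.norm_mul_exp_arg_mul_I z
      rw [hz, Complex.ofReal_one, one_mul, mul_comm] at h2
      have h3 := hB z.arg
      rwa [h2] at h3)
  rw [kh_iter, norm_mul, one_pow, div_one, Complex.norm_natCast] at h1
  have h2 : (0 : ℝ) < j.factorial := by positivity
  exact le_of_mul_le_mul_left h1 h2

theorem bern_fun {d : ℕ} {f : KU n → ℂ} (hf : f ∈ PK n d) {B : ℝ} (hB : ∀ k, ‖f k‖ ≤ B)
    (w : Fin n → ℂ) (hw : star w ⬝ᵥ w = 1) {D : ℂ}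
    (hD : HasDerivAt (fun s : ℝ => f (eK w hw s)) D 0) : ‖D‖ ≤ (2 * d + 1) * d * B := by
  obtain ⟨Q, hQ, h1⟩ := tpp_PK hf w hw
  have hz : ∀ s : ℝ, ‖Complex.exp (Complex.I * s)‖ = 1 := by
    intro s
    rw [mul_comm, Complex.norm_exp_ofReal_mul_I]
  have hcoef : ∀ j, ‖Q.coeff j‖ ≤ B := by
    refine kh_coeff Q fun s => ?_
    rw [← h1, norm_mul, norm_pow, hz, one_pow, one_mul]
    exact hB _
  have h2 : (fun s : ℝ => f (eK w hw s)) = fun s : ℝ => ∑ j ∈ Finset.range (2 * d + 1),
      Q.coeff j * Complex.exp ((Complex.I * ((j : ℂ) - d)) * s) := by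
    funext s
    have h3 := h1 s
    rw [Polynomial.eval_eq_sum_range' (Nat.lt_succ_of_le hQ)] at h3
    have h4 : Complex.exp (Complex.I * s) ^ d ≠ 0 := pow_ne_zero _ (Complex.exp_ne_zero _)
    apply mul_left_cancel₀ h4
    rw [h3, Finset.mul_sum]
    refine Finset.sum_congr rfl fun j _ => ?_
    have e1 : Complex.exp (Complex.I * s) ^ j = Complex.exp (Complex.I * s) ^ d *
        Complex.exp ((Complex.I * ((j : ℂ) - d)) * s) := by
      rw [← Complex.exp_nat_mul, ← Complex.exp_nat_mul, ← Complex.exp_add]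
      congr 1
      ring
    rw [e1]
    ring
  have h5 : HasDerivAt (fun s : ℝ => ∑ j ∈ Finset.range (2 * d + 1),
      Q.coeff j * Complex.exp ((Complex.I * ((j : ℂ) - d)) * s))
      (∑ j ∈ Finset.range (2 * d + 1), Q.coeff j * (Complex.I * ((j : ℂ) - d))) 0 := by
    refine HasDerivAt.fun_sum fun j _ => ?_
    have h6 := (((hasDerivAt_id' (0 : ℝ)).ofReal_comp).const_mul
      (Complex.I * ((j : ℂ) - d))).cexp.const_mul (Q.coeff j)
    simp only [Complex.ofReal_zero, mul_zero, Complex.exp_zero, one_mul, Complex.ofReal_one,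
      mul_one] at h6
    exact h6
  rw [h2] at hD
  rw [hD.unique h5]
  have hB0 : 0 ≤ B := (norm_nonneg _).trans (hB 1)
  calc ‖∑ j ∈ Finset.range (2 * d + 1), Q.coeff j * (Complex.I * ((j : ℂ) - d))‖
      ≤ ∑ j ∈ Finset.range (2 * d + 1), B * d := by
        refine norm_sum_le_of_le _ fun j hj => ?_
        rw [norm_mul, norm_mul, Complex.norm_I, one_mul]
        refine mul_le_mul (hcoef j) ?_ (norm_nonneg _) hB0
        have h7 : ((j : ℂ) - d) = (((j : ℝ) - d : ℝ) : ℂ) := by push_cast; rfl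
        rw [h7, Complex.norm_real, Real.norm_eq_abs, abs_le]
        have h8 : (j : ℝ) ≤ 2 * d := by
          have := Finset.mem_range.1 hj
          have h9 : j ≤ 2 * d := by omega
          exact_mod_cast h9
        have h9 : (0 : ℝ) ≤ j := Nat.cast_nonneg j
        constructor <;> linarith
    _ = (2 * d + 1) * d * B := by
        rw [Finset.sum_const, Finset.card_range, nsmul_eq_mul]
        push_cast
        ring

end

end Pool.Agent.Work.MP_dd0ddf_al.AR
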