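import Pool.Agent.Work.MP_dd0ddf_al.AR.KPa
import Pool.Agent.Work.MP_dd0ddf_al.AR.KPb
import Pool.Agent.Work.MP_dd0ddf_al.AR.KPc
import Pool.Agent.Work.MP_dd0ddf_al.AR.KPd
import Pool.Agent.Work.MP_dd0ddf_al.AR.KPe
import Pool.Agent.Work.MP_dd0ddf_al.AR.KPf
import Pool.Agent.Work.MP_dd0ddf_al.AR.KPh
import Pool.Agent.Work.MP_dd0ddf_al.AR.KWI
import Pool.Agent.Work.MP_dd0ddf_al.AR.KHB
import Pool.Agent.Work.MP_dd0ddf_al.AR.KInvx
import Pool.Agent.Work.MP_dd0ddf_al.AR.KAdm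
import Pool.Agent.Work.MP_dd0ddf_al.AR.KXf
import Pool.Agent.Work.MP_dd0ddf_al.AR.KED
import Pool.Agent.Work.MP_dd0ddf_al.AR.KYf
import Pool.Agent.Work.MP_dd0ddf_al.AR.KVd
import Pool.Agent.Work.MP_dd0ddf_al.AR.KDx
import Pool.Agent.Work.MP_dd0ddf_al.AR.KKx
import Pool.Agent.Work.MP_dd0ddf_al.AR.KBn
import Pool.Agent.Work.MP_dd0ddf_al.AR.RLR

/-!
# Block K of MP_dd0ddf_al (archimedean part): all facts about `K`
-/

set_option linter.unusedSectionVars false

namespace Pool.Agent.Work.MP_dd0ddf_al.AR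

open scoped SchwartzMap Matrix.Norms.Elementwise ComplexConjugate ContDiff Topology
open Matrix MeasureTheory Filter Asymptotics

noncomputable section

variable {n : ℕ} {P : Type*} [AddCommGroup P] [Module ℂ P] [UniformSpace P] [IsUniformAddGroup P]
  [ContinuousSMul ℂ P] [PolynormableSpace ℂ P] [T2Space P] [CompleteSpace P]
  [FirstCountableTopology P]



end

end Pool.Agent.Work.MP_dd0ddf_al.AR
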