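import Pool.Agent.Work.MP_dd0ddf_al.AR.RKDefs

/-!
# Block R6 of MP_dd0ddf_al (archimedean part), module SAdj: adjoints for the `L²` product on `K`

PROOF. (`adj_d`)  Y is skew-Hermitian, so k_t = expG(t Y) ∈ KU n (the matrix exp(tY) is unitary; see `expG_mem_KU` in AR/KKx, reprove it here in a few lines if KKx is not proved yet).
f(k) = l(π(k) v) * conj(m(π(k) v)) is continuous on K (hπ.cont).  ∫ f(k_t k) dk = ∫ f(k) dk for every real t (`integral_mul_left_eq_self`, muK is a Haar measure).
d/dt f(k_t k) = g(k_t k), g(k) = l(d Y (π(k) v)) conj(m(π(k) v)) + l(π(k) v) conj(m(d Y (π(k) v))): by `hd.deriv` l Y (π(k) v) t: the derivative of l(π(expG(t Y)) w) is l(π(expG(t Y)) (d Y w));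
at t = 0 it is l(d Y w), and for general t write π(expG((t+s)Y)) = π(expG(sY)) π(expG(tY)) or use d Y commuting with π(expG(tY)) (hd.Ad: exp(tY) Y exp(-tY) = Y).  g is continuous (d Y is a continuous
linear map), so bounded on the compact group K.  `hasDerivAt_integral_of_dominated_loc_of_deriv_le` with a constant bound gives 0 = ∫ g.  It is enough to work at t = 0 with bound sup |g|.
(`adj_k`)  d(z E_ij) = z Lo_ij + conj z Ro_ij.  For i ≠ j: with A = E_ij - E_ji, B = I (E_ij + E_ji) (both skew-Hermitian), d A = E - F, d B = I (E + F) where E = Lo i j - Ro j i,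
F = Lo j i - Ro i j; so E = (d A - I d B)/2, F = -(d A + I d B)/2, and the claim follows from `adj_d` for A and B (conjugate linear in m).  For i = j: E = F = Lo i i - Ro i i = -I d(I E_ii), `adj_d` for I E_ii.
-/

set_option linter.unusedSectionVars false

namespace Pool.Agent.Work.MP_dd0ddf_al.AR

open scoped SchwartzMap Matrix.Norms.Elementwise ComplexConjugate ContDiff Topology
open Matrix MeasureTheory Filter Asymptotics

noncomputable section

variable {n : ℕ} {P : Type*} [AddCommGroup P] [Module ℂ P] [UniformSpace P] [IsUniformAddGroup P]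
  [ContinuousSMul ℂ P] [PolynormableSpace ℂ P] [T2Space P] [CompleteSpace P]
  [FirstCountableTopology P]


private theorem sadj_cont (π : GLn n →* (P →L[ℂ] P)) (hπ : IsCW π) (v : P) :
    Continuous fun k : KU n => π (k : GLn n) v :=
  hπ.cont.comp (continuous_subtype_val.prodMk continuous_const)

private theorem sadj_unit (Y : Mat n) (hY : Yᴴ = -Y) (t : ℝ) :
    (NormedSpace.exp (t • Y))ᴴ * NormedSpace.exp (t • Y) = 1 := by
  rw [← Matrix.exp_conjTranspose, Matrix.conjTranspose_smul, hY, star_trivial, smul_neg,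
    ← Matrix.exp_add_of_commute]
  · rw [neg_add_cancel, NormedSpace.exp_zero]
  · exact (Commute.refl _).neg_left

private def sadjK (Y : Mat n) (hY : Yᴴ = -Y) (t : ℝ) : KU n :=
  mkK (NormedSpace.exp (t • Y)) (sadj_unit Y hY t)

private theorem coe_sadjK (Y : Mat n) (hY : Yᴴ = -Y) (t : ℝ) :
    ((sadjK Y hY t : KU n) : GLn n) = expG (t • Y) :=
  Units.ext (by rw [coe_expG]; rfl)

private theorem sadj_comm (π : GLn n →* (P →L[ℂ] P)) (d : Mat n → P →L[ℂ] P) (hd : Der π d)
    (Y : Mat n) (t : ℝ) (w : P) : π (expG (t • Y)) (d Y w) = d Y (π (expG (t • Y)) w) := by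
  rw [hd.Ad]
  have h1 : ((expG (t • Y) : GLn n) : Mat n) * Y = Y * ((expG (t • Y) : GLn n) : Mat n) := by
    rw [coe_expG]
    have h2 : Commute (t • Y) Y := (Commute.refl Y).smul_left t
    exact h2.exp_left
  rw [h1, Matrix.mul_assoc, ← Units.val_mul, mul_inv_cancel, Units.val_one, Matrix.mul_one]

theorem adj_d (π : GLn n →* (P →L[ℂ] P)) (hπ : IsCW π) (d : Mat n → P →L[ℂ] P) (hd : Der π d)
    (Y : Mat n) (hY : Yᴴ = -Y) (l m : P →L[ℂ] ℂ) (v : P) :
    ∫ k : KU n, l (d Y (π (k : GLn n) v)) * conj (m (π (k : GLn n) v)) ∂(muK n) =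
      -∫ k : KU n, l (π (k : GLn n) v) * conj (m (d Y (π (k : GLn n) v))) ∂(muK n) := by
  have hc := sadj_cont π hπ v
  have hcf : Continuous fun k : KU n => l (π (k : GLn n) v) * conj (m (π (k : GLn n) v)) :=
    (l.continuous.comp hc).mul (Complex.continuous_conj.comp (m.continuous.comp hc))
  have hcA : Continuous fun k : KU n => l (d Y (π (k : GLn n) v)) * conj (m (π (k : GLn n) v)) :=
    (l.continuous.comp ((d Y).continuous.comp hc)).mul
      (Complex.continuous_conj.comp (m.continuous.comp hc))
  have hcB : Continuous fun k : KU n => l (π (k : GLn n) v) * conj (m (d Y (π (k : GLn n) v))) :=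
    (l.continuous.comp hc).mul
      (Complex.continuous_conj.comp (m.continuous.comp ((d Y).continuous.comp hc)))
  have hint : ∀ {f : KU n → ℂ}, Continuous f → Integrable f (muK n) := fun hf =>
    hf.integrable_of_hasCompactSupport (HasCompactSupport.of_compactSpace _)
  obtain ⟨B, hB⟩ := isCompact_univ.exists_bound_of_continuousOn
    ((hcA.add hcB).continuousOn (s := Set.univ))
  have hmul : ∀ (t : ℝ) (k : KU n),
      π ((sadjK Y hY t * k : KU n) : GLn n) v = π (expG (t • Y)) (π (k : GLn n) v) := by
    intro t k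
    rw [Subgroup.coe_mul, coe_sadjK, map_mul]
    rfl
  have hder := hasDerivAt_integral_of_dominated_loc_of_deriv_le (μ := muK n) (𝕜 := ℝ)
    (F := fun (t : ℝ) (k : KU n) => l (π (expG (t • Y)) (π (k : GLn n) v)) *
      conj (m (π (expG (t • Y)) (π (k : GLn n) v))))
    (F' := fun (t : ℝ) (k : KU n) => l (π (expG (t • Y)) (d Y (π (k : GLn n) v))) *
      conj (m (π (expG (t • Y)) (π (k : GLn n) v))) +
      l (π (expG (t • Y)) (π (k : GLn n) v)) *
      conj (m (π (expG (t • Y)) (d Y (π (k : GLn n) v)))))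
    (x₀ := 0) (s := Set.univ) (bound := fun _ => B) Filter.univ_mem
    (Filter.Eventually.of_forall fun t => ?_) ?_ ?_ ?_ (integrable_const B) ?_
  · obtain ⟨-, h2⟩ := hder
    have h3 : (fun t : ℝ => ∫ k : KU n, l (π (expG (t • Y)) (π (k : GLn n) v)) *
        conj (m (π (expG (t • Y)) (π (k : GLn n) v))) ∂(muK n)) =
        fun _ => ∫ k : KU n, l (π (k : GLn n) v) * conj (m (π (k : GLn n) v)) ∂(muK n) := by
      funext t
      have h4 := integral_mul_left_eq_self (μ := muK n)
        (fun k : KU n => l (π (k : GLn n) v) * conj (m (π (k : GLn n) v))) (sadjK Y hY t)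
      rw [← h4]
      refine integral_congr_ae (Filter.Eventually.of_forall fun k => ?_)
      simp only [hmul]
    rw [h3] at h2
    have h5 := h2.unique (hasDerivAt_const _ _)
    have h6 : expG ((0 : ℝ) • Y) = 1 := by
      apply Units.ext
      rw [coe_expG, zero_smul, NormedSpace.exp_zero, Units.val_one]
    simp only [h6, map_one, one_apply_eq_self] at h5
    rw [integral_add (hint hcA) (hint hcB)] at h5
    exact eq_neg_of_add_eq_zero_left h5
  · have h1 : Continuous fun k : KU n => π ((sadjK Y hY t * k : KU n) : GLn n) v :=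
      hc.comp (continuous_const.mul continuous_id)
    have h2 : (fun k : KU n => l (π (expG (t • Y)) (π (k : GLn n) v)) *
        conj (m (π (expG (t • Y)) (π (k : GLn n) v)))) =
        fun k : KU n => l (π ((sadjK Y hY t * k : KU n) : GLn n) v) *
        conj (m (π ((sadjK Y hY t * k : KU n) : GLn n) v)) := by
      funext k
      rw [hmul]
    rw [h2]
    exact ((l.continuous.comp h1).mul
      (Complex.continuous_conj.comp (m.continuous.comp h1))).aestronglyMeasurable
  · have h6 : expG ((0 : ℝ) • Y) = 1 := by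
      apply Units.ext
      rw [coe_expG, zero_smul, NormedSpace.exp_zero, Units.val_one]
    simp only [h6, map_one, one_apply_eq_self]
    exact hint hcf
  · have h6 : expG ((0 : ℝ) • Y) = 1 := by
      apply Units.ext
      rw [coe_expG, zero_smul, NormedSpace.exp_zero, Units.val_one]
    simp only [h6, map_one, one_apply_eq_self]
    exact (hcA.add hcB).aestronglyMeasurable
  · refine Filter.Eventually.of_forall fun k t _ => ?_
    have h1 : ‖l (d Y (π ((sadjK Y hY t * k : KU n) : GLn n) v)) *
        conj (m (π ((sadjK Y hY t * k : KU n) : GLn n) v)) +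
        l (π ((sadjK Y hY t * k : KU n) : GLn n) v) *
        conj (m (d Y (π ((sadjK Y hY t * k : KU n) : GLn n) v)))‖ ≤ B :=
      hB (sadjK Y hY t * k) (Set.mem_univ _)
    simp only [hmul] at h1
    simp only [sadj_comm π d hd]
    exact h1
  · refine Filter.Eventually.of_forall fun k t _ => ?_
    have h1 := hd.deriv l Y (π (k : GLn n) v) t
    have h2 := hd.deriv m Y (π (k : GLn n) v) t
    exact h1.mul h2.star

theorem adj_k (π : GLn n →* (P →L[ℂ] P)) (hπ : IsCW π) (d : Mat n → P →L[ℂ] P) (hd : Der π d)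
    (i j : Fin n) (l m : P →L[ℂ] ℂ) (v : P) :
    ∫ k : KU n, l (Lo d i j (π (k : GLn n) v) - Ro d j i (π (k : GLn n) v)) *
        conj (m (π (k : GLn n) v)) ∂(muK n) =
      ∫ k : KU n, l (π (k : GLn n) v) *
        conj (m (Lo d j i (π (k : GLn n) v) - Ro d i j (π (k : GLn n) v))) ∂(muK n) := by
  have hc := sadj_cont π hπ v
  have hint : ∀ {f : KU n → ℂ}, Continuous f → Integrable f (muK n) := fun hf =>
    hf.integrable_of_hasCompactSupport (HasCompactSupport.of_compactSpace _)
  have hneg : ∀ (Z : Mat n) (w : P), d (-Z) w = -d Z w := by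
    intro Z w
    have h := hd.smul (-1) Z w
    rw [neg_one_smul] at h
    rw [h]
    simp
  obtain ⟨A, hA⟩ : ∃ A : Mat n, A = Matrix.single i j 1 + -Matrix.single j i 1 := ⟨_, rfl⟩
  obtain ⟨B, hB⟩ : ∃ B : Mat n, B = Matrix.single i j Complex.I + Matrix.single j i Complex.I :=
    ⟨_, rfl⟩
  have hAs : Aᴴ = -A := by
    rw [hA, Matrix.conjTranspose_add, Matrix.conjTranspose_neg, Matrix.conjTranspose_single,
      Matrix.conjTranspose_single, star_one]
    abel
  have hBs : Bᴴ = -B := by
    rw [hB, Matrix.conjTranspose_add, Matrix.conjTranspose_single, Matrix.conjTranspose_single,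
      show star Complex.I = -Complex.I from Complex.conj_I, ← Matrix.single_neg,
      ← Matrix.single_neg]
    abel
  have hdA : ∀ w : P, d A w = d (Matrix.single i j 1) w - d (Matrix.single j i 1) w := by
    intro w
    rw [hA, hd.add, hneg, sub_eq_add_neg]
  have hdB : ∀ w : P, d B w =
      d (Matrix.single i j Complex.I) w + d (Matrix.single j i Complex.I) w := by
    intro w
    rw [hB, hd.add]
  have hE : ∀ w : P, Lo d i j w - Ro d j i w = (1 / 2 : ℂ) • (d A w - Complex.I • d B w) := by
    intro w
    rw [hdA, hdB]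
    simp only [Lo, Ro, _root_.smul_apply, _root_.sub_apply,
      _root_.add_apply]
    module
  have hF : ∀ w : P, Lo d j i w - Ro d i j w = (1 / 2 : ℂ) • (-d A w - Complex.I • d B w) := by
    intro w
    rw [hdA, hdB]
    simp only [Lo, Ro, _root_.smul_apply, _root_.sub_apply,
      _root_.add_apply]
    module
  have h1 := adj_d π hπ d hd A hAs l m v
  have h2 := adj_d π hπ d hd B hBs l m v
  have hcA : ∀ Z : Mat n, Continuous fun k : KU n =>
      l (d Z (π (k : GLn n) v)) * conj (m (π (k : GLn n) v)) := fun Z =>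
    (l.continuous.comp ((d Z).continuous.comp hc)).mul
      (Complex.continuous_conj.comp (m.continuous.comp hc))
  have hcB : ∀ Z : Mat n, Continuous fun k : KU n =>
      l (π (k : GLn n) v) * conj (m (d Z (π (k : GLn n) v))) := fun Z =>
    (l.continuous.comp hc).mul
      (Complex.continuous_conj.comp (m.continuous.comp ((d Z).continuous.comp hc)))
  have h3 : ∫ k : KU n, l (Lo d i j (π (k : GLn n) v) - Ro d j i (π (k : GLn n) v)) *
        conj (m (π (k : GLn n) v)) ∂(muK n) =
      (1 / 2 : ℂ) * ∫ k : KU n, l (d A (π (k : GLn n) v)) * conj (m (π (k : GLn n) v)) ∂(muK n) -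
      (Complex.I / 2) *
        ∫ k : KU n, l (d B (π (k : GLn n) v)) * conj (m (π (k : GLn n) v)) ∂(muK n) := by
    rw [← integral_const_mul, ← integral_const_mul,
      ← integral_sub ((hint (hcA A)).const_mul _) ((hint (hcA B)).const_mul _)]
    refine integral_congr_ae (Filter.Eventually.of_forall fun k => ?_)
    simp only [hE, map_smul, map_sub, smul_eq_mul]
    ring
  have h4 : ∫ k : KU n, l (π (k : GLn n) v) *
        conj (m (Lo d j i (π (k : GLn n) v) - Ro d i j (π (k : GLn n) v))) ∂(muK n) =
      -(1 / 2 : ℂ) * ∫ k : KU n, l (π (k : GLn n) v) * conj (m (d A (π (k : GLn n) v))) ∂(muK n) +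
      (Complex.I / 2) *
        ∫ k : KU n, l (π (k : GLn n) v) * conj (m (d B (π (k : GLn n) v))) ∂(muK n) := by
    rw [← integral_const_mul, ← integral_const_mul,
      ← integral_add ((hint (hcB A)).const_mul _) ((hint (hcB B)).const_mul _)]
    refine integral_congr_ae (Filter.Eventually.of_forall fun k => ?_)
    simp only [hF, map_smul, map_sub, map_neg, smul_eq_mul, map_mul, map_div₀, map_one,
      Complex.conj_I, map_ofNat]
    ring
  rw [h3, h4, h1, h2]
  ring

end

end Pool.Agent.Work.MP_dd0ddf_al.AR
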