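import Pool.Agent.Work.MP_dd0ddf_al.AR.SBase
import Pool.Agent.Work.MP_dd0ddf_al.AR.RKFacts
import Pool.Agent.Work.MP_dd0ddf_al.CW.Defs

/-!
# Block R6 of MP_dd0ddf_al (archimedean part), module SRel: relations on the `K`-finite functionals

PROOF. `YK_LR` gives that `l ∘ Lo i j`, `l ∘ Ro i j` stay in `YK`, so `yo_apply` computes `yL`, `yR`: (yL i j y)(v) = - y(Lo i j v).
Then yL i j (yL k l y) = y ∘ Lo k l ∘ Lo i j (two signs), so (yL i j * yL k l - yL k l * yL i j) y = y ∘ (Lo k l Lo i j - Lo i j Lo k l) = - y ∘ [Lo i j, Lo k l] (`Lo_Lo`) which is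
(if j = k then yL i l else 0) - (if i = l then yL k j else 0) applied to y.  The same for `Ro_Ro`, and `Lo_Ro` (the two copies commute).  `mgg` follows by transposing (dualMap reverses products).
-/

set_option linter.unusedSectionVars false

namespace Pool.Agent.Work.MP_dd0ddf_al.AR

open scoped SchwartzMap Matrix.Norms.Elementwise ComplexConjugate ContDiff Topology
open Matrix MeasureTheory Filter Asymptotics

noncomputable section

variable {n : ℕ} {P : Type*} [AddCommGroup P] [Module ℂ P] [UniformSpace P] [IsUniformAddGroup P]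
  [ContinuousSMul ℂ P] [PolynormableSpace ℂ P] [T2Space P] [CompleteSpace P]
  [FirstCountableTopology P]


/-- the value of `yL` -/
theorem yL_apply (π : GLn n →* (P →L[ℂ] P)) (d : Mat n → P →L[ℂ] P) (hd : Der π d) (i j : Fin n)
    (y : YK π) (v : P) :
    ((yL π d i j y : YK π) : P →L[ℂ] ℂ) v = -(y : P →L[ℂ] ℂ) (Lo d i j v) := by
  have h1 : ((yL π d i j y : YK π) : P →L[ℂ] ℂ) v =
      -(((yo π (Lo d i j) y : YK π) : P →L[ℂ] ℂ) v) := rfl
  rw [h1, yo_apply (fun l hl => (YK_LR π d hd i j hl).1)]
  rfl

/-- the value of `yR` -/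
theorem yR_apply (π : GLn n →* (P →L[ℂ] P)) (d : Mat n → P →L[ℂ] P) (hd : Der π d) (i j : Fin n)
    (y : YK π) (v : P) :
    ((yR π d i j y : YK π) : P →L[ℂ] ℂ) v = -(y : P →L[ℂ] ℂ) (Ro d i j v) := by
  have h1 : ((yR π d i j y : YK π) : P →L[ℂ] ℂ) v =
      -(((yo π (Ro d i j) y : YK π) : P →L[ℂ] ℂ) v) := rfl
  rw [h1, yo_apply (fun l hl => (YK_LR π d hd i j hl).2)]
  rfl

private theorem ite_apply {π : GLn n →* (P →L[ℂ] P)} (p : Prop) [Decidable p]
    (T : Module.End ℂ (YK π)) (y : YK π) (v : P) (c : ℂ)
    (h : ((T y : YK π) : P →L[ℂ] ℂ) v = c) :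
    (((if p then T else 0 : Module.End ℂ (YK π)) y : YK π) : P →L[ℂ] ℂ) v =
      if p then c else 0 := by
  split_ifs
  · exact h
  · rfl

/-- the contragredient representation of `gl_n × gl_n` on `YK π` -/
theorem ygg (π : GLn n →* (P →L[ℂ] P)) (d : Mat n → P →L[ℂ] P) (hd : Der π d) :
    CW.GG (yL π d) (yR π d) := by
  refine ⟨fun i j k l => ?_, fun i j k l => ?_, fun i j k l => ?_⟩
  · refine LinearMap.ext fun y => Subtype.ext (ContinuousLinearMap.ext fun v => ?_)
    change ((yL π d i j (yL π d k l y) : YK π) : P →L[ℂ] ℂ) v -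
      ((yL π d k l (yL π d i j y) : YK π) : P →L[ℂ] ℂ) v =
      (((if j = k then yL π d i l else 0 : Module.End ℂ (YK π)) y : YK π) : P →L[ℂ] ℂ) v -
        (((if i = l then yL π d k j else 0 : Module.End ℂ (YK π)) y : YK π) : P →L[ℂ] ℂ) v
    rw [ite_apply _ _ y v _ (yL_apply π d hd i l y v), ite_apply _ _ y v _ (yL_apply π d hd k j y v),
      yL_apply π d hd, yL_apply π d hd, yL_apply π d hd, yL_apply π d hd]
    have h := congrArg (y : P →L[ℂ] ℂ) (Lo_Lo π d hd i j k l v)
    rw [map_sub, map_sub] at h
    have e1 : (y : P →L[ℂ] ℂ) (if j = k then Lo d i l v else 0) =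
        if j = k then (y : P →L[ℂ] ℂ) (Lo d i l v) else 0 := by
      split_ifs
      · rfl
      · exact map_zero _
    have e2 : (y : P →L[ℂ] ℂ) (if l = i then Lo d k j v else 0) =
        if i = l then (y : P →L[ℂ] ℂ) (Lo d k j v) else 0 := by
      by_cases h1 : l = i
      · rw [if_pos h1, if_pos h1.symm]
      · rw [if_neg h1, if_neg (fun h2 => h1 h2.symm)]
        exact map_zero _
    rw [e1, e2] at h
    split_ifs at h ⊢ <;> linear_combination -h
  · refine LinearMap.ext fun y => Subtype.ext (ContinuousLinearMap.ext fun v => ?_)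
    change ((yR π d i j (yR π d k l y) : YK π) : P →L[ℂ] ℂ) v -
      ((yR π d k l (yR π d i j y) : YK π) : P →L[ℂ] ℂ) v =
      (((if j = k then yR π d i l else 0 : Module.End ℂ (YK π)) y : YK π) : P →L[ℂ] ℂ) v -
        (((if i = l then yR π d k j else 0 : Module.End ℂ (YK π)) y : YK π) : P →L[ℂ] ℂ) v
    rw [ite_apply _ _ y v _ (yR_apply π d hd i l y v), ite_apply _ _ y v _ (yR_apply π d hd k j y v),
      yR_apply π d hd, yR_apply π d hd, yR_apply π d hd, yR_apply π d hd]
    have h := congrArg (y : P →L[ℂ] ℂ) (Ro_Ro π d hd i j k l v)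
    rw [map_sub, map_sub] at h
    have e1 : (y : P →L[ℂ] ℂ) (if j = k then Ro d i l v else 0) =
        if j = k then (y : P →L[ℂ] ℂ) (Ro d i l v) else 0 := by
      split_ifs
      · rfl
      · exact map_zero _
    have e2 : (y : P →L[ℂ] ℂ) (if l = i then Ro d k j v else 0) =
        if i = l then (y : P →L[ℂ] ℂ) (Ro d k j v) else 0 := by
      by_cases h1 : l = i
      · rw [if_pos h1, if_pos h1.symm]
      · rw [if_neg h1, if_neg (fun h2 => h1 h2.symm)]
        exact map_zero _
    rw [e1, e2] at h
    split_ifs at h ⊢ <;> linear_combination -h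
  · refine LinearMap.ext fun y => Subtype.ext (ContinuousLinearMap.ext fun v => ?_)
    change ((yL π d i j (yR π d k l y) : YK π) : P →L[ℂ] ℂ) v =
      ((yR π d k l (yL π d i j y) : YK π) : P →L[ℂ] ℂ) v
    rw [yL_apply π d hd, yR_apply π d hd, yR_apply π d hd, yL_apply π d hd, neg_neg, neg_neg,
      Lo_Ro π d hd]

/-- the representation of `gl_n × gl_n` on the dual of `YK π` -/
theorem mgg (π : GLn n →* (P →L[ℂ] P)) (d : Mat n → P →L[ℂ] P) (hd : Der π d) :
    CW.GG (mL π d) (mR π d) := by
  obtain ⟨hL, hR, hLR⟩ := ygg π d hd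
  refine ⟨fun i j k l => ?_, fun i j k l => ?_, fun i j k l => ?_⟩
  · refine LinearMap.ext fun x => LinearMap.ext fun y => ?_
    have h := congrArg (fun T : Module.End ℂ (YK π) => x (T y)) (hL i j k l)
    have e1 : ((mL π d i j * mL π d k l - mL π d k l * mL π d i j) x) y =
        x (yL π d k l (yL π d i j y)) - x (yL π d i j (yL π d k l y)) := by
      change -(-(x (yL π d k l (yL π d i j y)))) - -(-(x (yL π d i j (yL π d k l y)))) = _
      rw [neg_neg, neg_neg]
    have e2 : x ((yL π d i j * yL π d k l - yL π d k l * yL π d i j) y) =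
        x (yL π d i j (yL π d k l y)) - x (yL π d k l (yL π d i j y)) := by
      change x (yL π d i j (yL π d k l y) - yL π d k l (yL π d i j y)) = _
      rw [map_sub]
    have e3 : x (((if j = k then yL π d i l else 0) - (if i = l then yL π d k j else 0)) y) =
        (if j = k then x (yL π d i l y) else 0) - (if i = l then x (yL π d k j y) else 0) := by
      change x ((if j = k then yL π d i l else 0 : Module.End ℂ (YK π)) y -
        (if i = l then yL π d k j else 0 : Module.End ℂ (YK π)) y) = _
      rw [map_sub]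
      congr 1 <;> split_ifs <;> first | rfl | exact map_zero _
    have e4 : ((((if j = k then mL π d i l else 0) - (if i = l then mL π d k j else 0) :
        Module.End ℂ (MY π))) x) y =
        (if j = k then -(x (yL π d i l y)) else 0) - (if i = l then -(x (yL π d k j y)) else 0) := by
      change ((if j = k then mL π d i l else 0 : Module.End ℂ (MY π)) x) y -
        ((if i = l then mL π d k j else 0 : Module.End ℂ (MY π)) x) y = _
      congr 1 <;> split_ifs <;> rfl
    rw [e2, e3] at h
    rw [e1, e4]
    split_ifs at h ⊢ <;> linear_combination -h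
  · refine LinearMap.ext fun x => LinearMap.ext fun y => ?_
    have h := congrArg (fun T : Module.End ℂ (YK π) => x (T y)) (hR i j k l)
    have e1 : ((mR π d i j * mR π d k l - mR π d k l * mR π d i j) x) y =
        x (yR π d k l (yR π d i j y)) - x (yR π d i j (yR π d k l y)) := by
      change -(-(x (yR π d k l (yR π d i j y)))) - -(-(x (yR π d i j (yR π d k l y)))) = _
      rw [neg_neg, neg_neg]
    have e2 : x ((yR π d i j * yR π d k l - yR π d k l * yR π d i j) y) =
        x (yR π d i j (yR π d k l y)) - x (yR π d k l (yR π d i j y)) := by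
      change x (yR π d i j (yR π d k l y) - yR π d k l (yR π d i j y)) = _
      rw [map_sub]
    have e3 : x (((if j = k then yR π d i l else 0) - (if i = l then yR π d k j else 0)) y) =
        (if j = k then x (yR π d i l y) else 0) - (if i = l then x (yR π d k j y) else 0) := by
      change x ((if j = k then yR π d i l else 0 : Module.End ℂ (YK π)) y -
        (if i = l then yR π d k j else 0 : Module.End ℂ (YK π)) y) = _
      rw [map_sub]
      congr 1 <;> split_ifs <;> first | rfl | exact map_zero _
    have e4 : ((((if j = k then mR π d i l else 0) - (if i = l then mR π d k j else 0) :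
        Module.End ℂ (MY π))) x) y =
        (if j = k then -(x (yR π d i l y)) else 0) - (if i = l then -(x (yR π d k j y)) else 0) := by
      change ((if j = k then mR π d i l else 0 : Module.End ℂ (MY π)) x) y -
        ((if i = l then mR π d k j else 0 : Module.End ℂ (MY π)) x) y = _
      congr 1 <;> split_ifs <;> rfl
    rw [e2, e3] at h
    rw [e1, e4]
    split_ifs at h ⊢ <;> linear_combination -h
  · refine LinearMap.ext fun x => LinearMap.ext fun y => ?_
    have h := congrArg (fun T : Module.End ℂ (YK π) => x (T y)) (hLR i j k l)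
    change -(-(x (yR π d k l (yL π d i j y)))) = -(-(x (yL π d i j (yR π d k l y))))
    rw [neg_neg, neg_neg]
    exact h.symm

end

end Pool.Agent.Work.MP_dd0ddf_al.AR
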