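import Pool.Agent.Work.MP_dd0ddf_al.AR.SBase
import Pool.Agent.Work.MP_dd0ddf_al.AR.SRel
import Pool.Agent.Work.MP_dd0ddf_al.AR.SAdj

/-!
# Block R6 of MP_dd0ddf_al (archimedean part), module SCas: the Casimir operator is symmetric

PROOF. For y, z ∈ YK put ⟨y,z⟩ = ∫ y(π(k) v) conj(z(π(k) v)) dk.  By `adj_k` and `yL_apply`, `yR_apply`: ⟨yE i j y, z⟩ = ⟨y, yE j i z⟩ and ⟨yH i j y, z⟩ = ⟨y, yH i j z⟩
(yH i j = (yL i i - yR i i) - (yL j j - yR j j); use `adj_k` with i = j twice; the integrands are continuous on the compact group, hence integrable).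
cs2 E F H = H * H + 2 • H + 4 • (F * E) with E = yE i j, F = yE j i: ⟨H H y, z⟩ = ⟨y, H H z⟩, ⟨F E y, z⟩ = ⟨E y, E z⟩ = ⟨y, F E z⟩.
-/

set_option linter.unusedSectionVars false

namespace Pool.Agent.Work.MP_dd0ddf_al.AR

open scoped SchwartzMap Matrix.Norms.Elementwise ComplexConjugate ContDiff Topology
open Matrix MeasureTheory Filter Asymptotics

noncomputable section

variable {n : ℕ} {P : Type*} [AddCommGroup P] [Module ℂ P] [UniformSpace P] [IsUniformAddGroup P]
  [ContinuousSMul ℂ P] [PolynormableSpace ℂ P] [T2Space P] [CompleteSpace P]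
  [FirstCountableTopology P]


/-- the Casimir operator of the compact `sl_2` at the places `i, j` -/
def yC (π : GLn n →* (P →L[ℂ] P)) (d : Mat n → P →L[ℂ] P) (i j : Fin n) : Module.End ℂ (YK π) :=
  cs2 (yE π d i j) (yE π d j i) (yH π d i j)

/-- the scalar product of two functionals along the orbit of `v` -/
private def ipv (π : GLn n →* (P →L[ℂ] P)) (v : P) (y z : P →L[ℂ] ℂ) : ℂ :=
  ∫ k : KU n, y (π (k : GLn n) v) * conj (z (π (k : GLn n) v)) ∂(muK n)

private theorem ipv_int {π : GLn n →* (P →L[ℂ] P)} (hπ : IsCW π) (v : P) (y z : P →L[ℂ] ℂ) :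
    Integrable (fun k : KU n => y (π (k : GLn n) v) * conj (z (π (k : GLn n) v))) (muK n) := by
  have horb : Continuous fun k : KU n => π (k : GLn n) v :=
    hπ.cont.comp (continuous_subtype_val.prodMk continuous_const)
  have hc : Continuous fun k : KU n => y (π (k : GLn n) v) * conj (z (π (k : GLn n) v)) :=
    (y.continuous.comp horb).mul (Complex.continuous_conj.comp (z.continuous.comp horb))
  exact hc.integrable_of_hasCompactSupport (HasCompactSupport.of_compactSpace _)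

private theorem ipv_add_left {π : GLn n →* (P →L[ℂ] P)} (hπ : IsCW π) (v : P)
    (y y' z : P →L[ℂ] ℂ) : ipv π v (y + y') z = ipv π v y z + ipv π v y' z := by
  unfold ipv
  rw [← integral_add (ipv_int hπ v y z) (ipv_int hπ v y' z)]
  refine integral_congr_ae (Filter.Eventually.of_forall fun k => ?_)
  simp only [ContinuousLinearMap.add_apply]
  ring

private theorem ipv_add_right {π : GLn n →* (P →L[ℂ] P)} (hπ : IsCW π) (v : P)
    (y z z' : P →L[ℂ] ℂ) : ipv π v y (z + z') = ipv π v y z + ipv π v y z' := by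
  unfold ipv
  rw [← integral_add (ipv_int hπ v y z) (ipv_int hπ v y z')]
  refine integral_congr_ae (Filter.Eventually.of_forall fun k => ?_)
  simp only [ContinuousLinearMap.add_apply, map_add]
  ring

private theorem ipv_neg_left {π : GLn n →* (P →L[ℂ] P)} (v : P)
    (y z : P →L[ℂ] ℂ) : ipv π v (-y) z = -ipv π v y z := by
  unfold ipv
  rw [← integral_neg]
  refine integral_congr_ae (Filter.Eventually.of_forall fun k => ?_)
  simp only [ContinuousLinearMap.neg_apply]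
  ring

private theorem ipv_neg_right {π : GLn n →* (P →L[ℂ] P)} (v : P)
    (y z : P →L[ℂ] ℂ) : ipv π v y (-z) = -ipv π v y z := by
  unfold ipv
  rw [← integral_neg]
  refine integral_congr_ae (Filter.Eventually.of_forall fun k => ?_)
  simp only [ContinuousLinearMap.neg_apply, map_neg]
  ring

/-- `T'` is the adjoint of `T` -/
private def Adj (π : GLn n →* (P →L[ℂ] P)) (T T' : Module.End ℂ (YK π)) : Prop :=
  ∀ (y z : YK π) (v : P), ipv π v ((T y : YK π) : P →L[ℂ] ℂ) (z : P →L[ℂ] ℂ) =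
    ipv π v (y : P →L[ℂ] ℂ) ((T' z : YK π) : P →L[ℂ] ℂ)

private theorem Adj.add {π : GLn n →* (P →L[ℂ] P)} (hπ : IsCW π)
    {T T' S S' : Module.End ℂ (YK π)} (h : Adj π T T') (h' : Adj π S S') :
    Adj π (T + S) (T' + S') := by
  intro y z v
  change ipv π v (((T y : YK π) : P →L[ℂ] ℂ) + ((S y : YK π) : P →L[ℂ] ℂ)) _ =
    ipv π v _ (((T' z : YK π) : P →L[ℂ] ℂ) + ((S' z : YK π) : P →L[ℂ] ℂ))
  rw [ipv_add_left hπ, ipv_add_right hπ, h y z v, h' y z v]

private theorem Adj.sub {π : GLn n →* (P →L[ℂ] P)} (hπ : IsCW π)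
    {T T' S S' : Module.End ℂ (YK π)} (h : Adj π T T') (h' : Adj π S S') :
    Adj π (T - S) (T' - S') := by
  intro y z v
  have e1 : (((T - S) y : YK π) : P →L[ℂ] ℂ) =
      ((T y : YK π) : P →L[ℂ] ℂ) + -((S y : YK π) : P →L[ℂ] ℂ) := by
    rw [← sub_eq_add_neg]
    rfl
  have e2 : (((T' - S') z : YK π) : P →L[ℂ] ℂ) =
      ((T' z : YK π) : P →L[ℂ] ℂ) + -((S' z : YK π) : P →L[ℂ] ℂ) := by
    rw [← sub_eq_add_neg]
    rfl
  rw [e1, e2, ipv_add_left hπ, ipv_add_right hπ, ipv_neg_left, ipv_neg_right, h y z v, h' y z v]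

private theorem Adj.mul {π : GLn n →* (P →L[ℂ] P)}
    {T T' S S' : Module.End ℂ (YK π)} (h : Adj π T T') (h' : Adj π S S') :
    Adj π (T * S) (S' * T') := by
  intro y z v
  change ipv π v ((T (S y) : YK π) : P →L[ℂ] ℂ) _ = ipv π v _ ((S' (T' z) : YK π) : P →L[ℂ] ℂ)
  rw [h (S y) z v, h' y (T' z) v]

private theorem Adj.two {π : GLn n →* (P →L[ℂ] P)} (hπ : IsCW π)
    {T T' : Module.End ℂ (YK π)} (h : Adj π T T') : Adj π (2 • T) (2 • T') := by
  rw [two_nsmul, two_nsmul]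
  exact Adj.add hπ h h

private theorem Adj.four {π : GLn n →* (P →L[ℂ] P)} (hπ : IsCW π)
    {T T' : Module.End ℂ (YK π)} (h : Adj π T T') : Adj π (4 • T) (4 • T') := by
  have e : ∀ U : Module.End ℂ (YK π), 4 • U = 2 • (2 • U) := fun U => by
    rw [← mul_nsmul]
  rw [e, e]
  exact Adj.two hπ (Adj.two hπ h)

private theorem adj_E {π : GLn n →* (P →L[ℂ] P)} (hπ : IsCW π) {d : Mat n → P →L[ℂ] P}
    (hd : Der π d) (i j : Fin n) : Adj π (yE π d i j) (yE π d j i) := by
  intro y z v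
  have e1 : ∀ (i j : Fin n) (y : YK π) (w : P), ((yE π d i j y : YK π) : P →L[ℂ] ℂ) w =
      -(y : P →L[ℂ] ℂ) (Lo d i j w - Ro d j i w) := by
    intro i j y w
    have h : ((yE π d i j y : YK π) : P →L[ℂ] ℂ) w =
        ((yL π d i j y : YK π) : P →L[ℂ] ℂ) w - ((yR π d j i y : YK π) : P →L[ℂ] ℂ) w := rfl
    rw [h, yL_apply π d hd, yR_apply π d hd, map_sub]
    ring
  unfold ipv
  have h := adj_k π hπ d hd i j (y : P →L[ℂ] ℂ) (z : P →L[ℂ] ℂ) v
  simp only [e1, map_neg, neg_mul, mul_neg, integral_neg]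
  rw [h]

private theorem yH_eq (π : GLn n →* (P →L[ℂ] P)) (d : Mat n → P →L[ℂ] P) (i j : Fin n) :
    yH π d i j = yE π d i i - yE π d j j := by
  unfold yH yE
  abel

theorem sym_C (π : GLn n →* (P →L[ℂ] P)) (hπ : IsCW π) (d : Mat n → P →L[ℂ] P) (hd : Der π d)
    (i j : Fin n) (y z : YK π) (v : P) :
    ∫ k : KU n, ((yC π d i j y : YK π) : P →L[ℂ] ℂ) (π (k : GLn n) v) *
        conj ((z : P →L[ℂ] ℂ) (π (k : GLn n) v)) ∂(muK n) =
      ∫ k : KU n, (y : P →L[ℂ] ℂ) (π (k : GLn n) v) *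
        conj (((yC π d i j z : YK π) : P →L[ℂ] ℂ) (π (k : GLn n) v)) ∂(muK n) := by
  have hH : Adj π (yH π d i j) (yH π d i j) := by
    rw [yH_eq]
    exact Adj.sub hπ (adj_E hπ hd i i) (adj_E hπ hd j j)
  have hC : Adj π (yC π d i j) (yC π d i j) := by
    unfold yC cs2
    exact Adj.add hπ (Adj.add hπ (Adj.mul hH hH) (Adj.two hπ hH))
      (Adj.four hπ (Adj.mul (adj_E hπ hd j i) (adj_E hπ hd i j)))
  exact hC y z v

end

end Pool.Agent.Work.MP_dd0ddf_al.AR
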