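import Pool.Agent.Work.MP_dd0ddf_al.AR.SBase
import Pool.Agent.Work.MP_dd0ddf_al.AR.SRel
import Pool.Agent.Work.MP_dd0ddf_al.AR.SCas
import Pool.Agent.Work.MP_dd0ddf_al.AR.RKFacts

/-!
# Block R6 of MP_dd0ddf_al (archimedean part), module SNorm: bounds for combinations of projectors

PROOF.  For v ∈ P put ⟨y,z⟩ = ∫ y(π(k) v) conj(z(π(k) v)) dk (y, z ∈ YK; integrands continuous).  By `sym_C` and hpr.cas (C pr l = l(l+2) pr l, C = yC π d i j, real distinct eigenvalues) ⟨pr l y, pr m z⟩ = 0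
for l ≠ m.  Let y' = ∑_{l<N} c l • pr l y.  Choose N' ≥ N with y = ∑_{l<N'} pr l y (hpr.fin).  Then ⟨y',y'⟩ = ∑_{l<N} |c l|² ⟨pr l y, pr l y⟩ ≤ ∑_{l<N'} ⟨pr l y, pr l y⟩ = ⟨y,y⟩
= ∫ |y(π(k) v)|² dk ≤ (B p(v))² as |y(π(k) v)| ≤ B p(π(k) v) = B p(v) (KInv) and muK is a probability measure.
y' ∈ Yd π D: hpr.stab for S = (Yd π D).comap (YK π).subtype, which is stable under yC (`Yd_k`).  So k ↦ y'(π(k) v) is in PK n D, and `PK_sup` at k0 = 1: |y'(v)|² ≤ finrank(PK n D) ⟨y',y'⟩ ≤ (D+1)^M (B p v)²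
(`PK_finrank`), and √((D+1)^M) ≤ (D+1)^M.
-/

set_option linter.unusedSectionVars false

namespace Pool.Agent.Work.MP_dd0ddf_al.AR

open scoped SchwartzMap Matrix.Norms.Elementwise ComplexConjugate ContDiff Topology
open Matrix MeasureTheory Filter Asymptotics

noncomputable section

variable {n : ℕ} {P : Type*} [AddCommGroup P] [Module ℂ P] [UniformSpace P] [IsUniformAddGroup P]
  [ContinuousSMul ℂ P] [PolynormableSpace ℂ P] [T2Space P] [CompleteSpace P]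
  [FirstCountableTopology P]


private theorem sn_int {f : KU n → ℂ} (hf : Continuous f) : Integrable f (muK n) :=
  hf.integrable_of_hasCompactSupport (HasCompactSupport.of_compactSpace _)

private theorem sn_intR {f : KU n → ℝ} (hf : Continuous f) : Integrable f (muK n) :=
  hf.integrable_of_hasCompactSupport (HasCompactSupport.of_compactSpace _)

private theorem pyth {g : ℕ → KU n → ℂ} (hg : ∀ l, Continuous (g l))
    (hort : ∀ l m, l ≠ m → ∫ k, g l k * conj (g m k) ∂(muK n) = 0) (c : ℕ → ℂ) (N : ℕ) :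
    ∫ k, ‖∑ l ∈ Finset.range N, c l * g l k‖ ^ 2 ∂(muK n) =
      ∑ l ∈ Finset.range N, ‖c l‖ ^ 2 * ∫ k, ‖g l k‖ ^ 2 ∂(muK n) := by
  induction N with
  | zero => simp
  | succ N ih =>
    have hS : Continuous fun k => ∑ l ∈ Finset.range N, c l * g l k :=
      continuous_finsetSum _ fun l _ => continuous_const.mul (hg l)
    have hN : Continuous fun k => c N * g N k := continuous_const.mul (hg N)
    have h1 : ∀ k, ‖∑ l ∈ Finset.range (N + 1), c l * g l k‖ ^ 2 =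
        (‖∑ l ∈ Finset.range N, c l * g l k‖ ^ 2 + ‖c N‖ ^ 2 * ‖g N k‖ ^ 2) +
          2 * ((∑ l ∈ Finset.range N, c l * g l k) * conj (c N * g N k)).re := by
      intro k
      rw [Finset.sum_range_succ, ← Complex.normSq_eq_norm_sq, Complex.normSq_add,
        Complex.normSq_eq_norm_sq, Complex.normSq_eq_norm_sq, norm_mul, mul_pow]
    have h2 : ∫ k, (∑ l ∈ Finset.range N, c l * g l k) * conj (c N * g N k) ∂(muK n) = 0 := by
      have h3 : ∀ k, (∑ l ∈ Finset.range N, c l * g l k) * conj (c N * g N k) =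
          ∑ l ∈ Finset.range N, (c l * conj (c N)) * (g l k * conj (g N k)) := by
        intro k
        rw [Finset.sum_mul]
        refine Finset.sum_congr rfl fun l _ => ?_
        rw [map_mul]
        ring
      simp_rw [h3]
      rw [integral_finsetSum]
      · refine Finset.sum_eq_zero fun l hl => ?_
        rw [integral_const_mul, hort l N (by have := Finset.mem_range.1 hl; omega), mul_zero]
      · intro l _
        exact sn_int (continuous_const.mul ((hg l).mul (Complex.continuous_conj.comp (hg N))))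
    have hF : Integrable (fun k => (∑ l ∈ Finset.range N, c l * g l k) * conj (c N * g N k))
        (muK n) := sn_int (hS.mul (Complex.continuous_conj.comp hN))
    have h4 : ∫ k, ((∑ l ∈ Finset.range N, c l * g l k) * conj (c N * g N k)).re ∂(muK n) = 0 := by
      have h5 := integral_re hF
      have h6 : (∫ k, RCLike.re ((∑ l ∈ Finset.range N, c l * g l k) * conj (c N * g N k))
          ∂(muK n)) = 0 := by
        rw [h5, h2, map_zero]
      exact h6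
    simp_rw [h1]
    have i1 : Integrable (fun k => ‖∑ l ∈ Finset.range N, c l * g l k‖ ^ 2) (muK n) :=
      sn_intR (hS.norm.pow 2)
    have i2 : Integrable (fun k => ‖c N‖ ^ 2 * ‖g N k‖ ^ 2) (muK n) :=
      sn_intR (continuous_const.mul ((hg N).norm.pow 2))
    have i3 : Integrable (fun k => 2 * ((∑ l ∈ Finset.range N, c l * g l k) *
        conj (c N * g N k)).re) (muK n) :=
      sn_intR (continuous_const.mul (Complex.continuous_re.comp
        (hS.mul (Complex.continuous_conj.comp hN))))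
    have i12 : Integrable (fun k => ‖∑ l ∈ Finset.range N, c l * g l k‖ ^ 2 +
        ‖c N‖ ^ 2 * ‖g N k‖ ^ 2) (muK n) := i1.add i2
    rw [integral_add i12 i3, integral_add i1 i2, integral_const_mul, integral_const_mul,
      h4, mul_zero, add_zero, ih, Finset.sum_range_succ]

private def ev (π : GLn n →* (P →L[ℂ] P)) (v : P) : YK π →ₗ[ℂ] ℂ where
  toFun := fun y => (y : P →L[ℂ] ℂ) v
  map_add' := fun _ _ => rfl
  map_smul' := fun _ _ => rfl

private theorem yE_stab (π : GLn n →* (P →L[ℂ] P)) (d : Mat n → P →L[ℂ] P) (hd : Der π d)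
    (i j : Fin n) {D : ℕ} {y : YK π} (hy : (y : P →L[ℂ] ℂ) ∈ Yd π D) :
    ((yE π d i j y : YK π) : P →L[ℂ] ℂ) ∈ Yd π D := by
  have h1 : ((yE π d i j y : YK π) : P →L[ℂ] ℂ) =
      (-1 : ℂ) • (y : P →L[ℂ] ℂ).comp (Lo d i j - Ro d j i) := by
    ext v
    have h2 : ((yE π d i j y : YK π) : P →L[ℂ] ℂ) v =
        ((yL π d i j y : YK π) : P →L[ℂ] ℂ) v - ((yR π d j i y : YK π) : P →L[ℂ] ℂ) v := rfl
    rw [h2, yL_apply π d hd, yR_apply π d hd]
    show _ = (-1 : ℂ) * (y : P →L[ℂ] ℂ) (Lo d i j v - Ro d j i v)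
    rw [map_sub]
    ring
  rw [h1]
  exact (Yd π D).smul_mem _ (Yd_k π d hd i j hy)

private theorem yH_stab (π : GLn n →* (P →L[ℂ] P)) (d : Mat n → P →L[ℂ] P) (hd : Der π d)
    (i j : Fin n) {D : ℕ} {y : YK π} (hy : (y : P →L[ℂ] ℂ) ∈ Yd π D) :
    ((yH π d i j y : YK π) : P →L[ℂ] ℂ) ∈ Yd π D := by
  have h1 : ((yH π d i j y : YK π) : P →L[ℂ] ℂ) =
      ((yE π d i i y : YK π) : P →L[ℂ] ℂ) + (-1 : ℂ) • ((yE π d j j y : YK π) : P →L[ℂ] ℂ) := by
    ext v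
    have h2 : ((yH π d i j y : YK π) : P →L[ℂ] ℂ) v =
        (((yL π d i i y : YK π) : P →L[ℂ] ℂ) v - ((yL π d j j y : YK π) : P →L[ℂ] ℂ) v) -
        (((yR π d i i y : YK π) : P →L[ℂ] ℂ) v - ((yR π d j j y : YK π) : P →L[ℂ] ℂ) v) := rfl
    rw [h2]
    show _ = (((yL π d i i y : YK π) : P →L[ℂ] ℂ) v - ((yR π d i i y : YK π) : P →L[ℂ] ℂ) v) +
      (-1 : ℂ) * (((yL π d j j y : YK π) : P →L[ℂ] ℂ) v - ((yR π d j j y : YK π) : P →L[ℂ] ℂ) v)
    ring
  rw [h1]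
  exact (Yd π D).add_mem (yE_stab π d hd i i hy) ((Yd π D).smul_mem _ (yE_stab π d hd j j hy))

private theorem yC_stab (π : GLn n →* (P →L[ℂ] P)) (d : Mat n → P →L[ℂ] P) (hd : Der π d)
    (i j : Fin n) {D : ℕ} {y : YK π} (hy : (y : P →L[ℂ] ℂ) ∈ Yd π D) :
    ((cs2 (yE π d i j) (yE π d j i) (yH π d i j) y : YK π) : P →L[ℂ] ℂ) ∈ Yd π D := by
  have h1 : ((cs2 (yE π d i j) (yE π d j i) (yH π d i j) y : YK π) : P →L[ℂ] ℂ) =
      (((yH π d i j (yH π d i j y) : YK π) : P →L[ℂ] ℂ) +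
        (2 : ℂ) • ((yH π d i j y : YK π) : P →L[ℂ] ℂ)) +
        (4 : ℂ) • ((yE π d j i (yE π d i j y) : YK π) : P →L[ℂ] ℂ) := by
    have h2 : cs2 (yE π d i j) (yE π d j i) (yH π d i j) y =
        yH π d i j (yH π d i j y) + (2 : ℕ) • yH π d i j y +
          (4 : ℕ) • yE π d j i (yE π d i j y) := rfl
    rw [h2]
    ext v
    have hR : ((((yH π d i j (yH π d i j y) : YK π) : P →L[ℂ] ℂ) +
        (2 : ℂ) • ((yH π d i j y : YK π) : P →L[ℂ] ℂ)) +
        (4 : ℂ) • ((yE π d j i (yE π d i j y) : YK π) : P →L[ℂ] ℂ)) v =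
        (ev π v (yH π d i j (yH π d i j y)) + (2 : ℂ) * ev π v (yH π d i j y)) +
          (4 : ℂ) * ev π v (yE π d j i (yE π d i j y)) := rfl
    have hLe : ∀ w : YK π, (w : P →L[ℂ] ℂ) v = ev π v w := fun _ => rfl
    rw [hR, hLe, map_add, map_add, map_nsmul, map_nsmul, nsmul_eq_mul, nsmul_eq_mul]
    push_cast
    rfl
  rw [h1]
  exact (Yd π D).add_mem ((Yd π D).add_mem (yH_stab π d hd i j (yH_stab π d hd i j hy))
    ((Yd π D).smul_mem _ (yH_stab π d hd i j hy)))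
    ((Yd π D).smul_mem _ (yE_stab π d hd j i (yE_stab π d hd i j hy)))

theorem norm_pr (π : GLn n →* (P →L[ℂ] P)) (hπ : IsCW π) (d : Mat n → P →L[ℂ] P) (hd : Der π d)
    (i j : Fin n) (pr : ℕ → Module.End ℂ (YK π))
    (hpr : Prj (yE π d i j) (yE π d j i) (yH π d i j) pr) :
    ∃ M : ℕ, ∀ c : ℕ → ℂ, (∀ l, ‖c l‖ ≤ 1) → ∀ (D : ℕ) (y : YK π), (y : P →L[ℂ] ℂ) ∈ Yd π D →
      ∀ (N : ℕ) (p : Seminorm ℂ P), KInv π p → ∀ B : ℝ,
        (∀ v, ‖(y : P →L[ℂ] ℂ) v‖ ≤ B * p v) → ∀ v : P,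
          ‖((∑ l ∈ Finset.range N, c l • pr l y : YK π) : P →L[ℂ] ℂ) v‖ ≤
            ((D : ℝ) + 1) ^ M * (B * p v) := by
  obtain ⟨M, hM⟩ := PK_finrank n
  refine ⟨M, ?_⟩
  intro c hc D y hy N p hp B hB v
  have horb : Continuous fun k : KU n => π (k : GLn n) v :=
    hπ.cont.comp (continuous_subtype_val.prodMk continuous_const)
  set g : ℕ → KU n → ℂ := fun l k => ((pr l y : YK π) : P →L[ℂ] ℂ) (π (k : GLn n) v) with hg
  have hgc : ∀ l, Continuous (g l) := fun l => ((pr l y : YK π) : P →L[ℂ] ℂ).continuous.comp horb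
  have hcas : ∀ l, yC π d i j (pr l y) = ((l : ℂ) * (l + 2)) • pr l y := fun l =>
    LinearMap.congr_fun (hpr.cas l) y
  have hort : ∀ l m, l ≠ m → ∫ k, g l k * conj (g m k) ∂(muK n) = 0 := by
    intro l m hlm
    have h1 := sym_C π hπ d hd i j (pr l y) (pr m y) v
    rw [hcas l, hcas m] at h1
    have h2 : ∀ k : KU n, ((((l : ℂ) * (l + 2)) • pr l y : YK π) : P →L[ℂ] ℂ) (π (k : GLn n) v) *
        conj (((pr m y : YK π) : P →L[ℂ] ℂ) (π (k : GLn n) v)) =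
          ((l : ℂ) * (l + 2)) * (g l k * conj (g m k)) := by
      intro k
      show (((l : ℂ) * (l + 2)) * g l k) * conj (g m k) = _
      ring
    have h3 : ∀ k : KU n, ((pr l y : YK π) : P →L[ℂ] ℂ) (π (k : GLn n) v) *
        conj (((((m : ℂ) * (m + 2)) • pr m y : YK π) : P →L[ℂ] ℂ) (π (k : GLn n) v)) =
          ((m : ℂ) * (m + 2)) * (g l k * conj (g m k)) := by
      intro k
      show g l k * conj (((m : ℂ) * (m + 2)) * g m k) = _
      have h4 : conj (m : ℂ) = m := Complex.conj_natCast m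
      have h5 : conj (2 : ℂ) = 2 := Complex.conj_ofNat 2
      rw [map_mul, map_mul, map_add, h4, h5]
      ring
    simp_rw [h2, h3] at h1
    rw [integral_const_mul, integral_const_mul] at h1
    have h4 : ((l : ℂ) * (l + 2) - (m : ℂ) * (m + 2)) * ∫ k, g l k * conj (g m k) ∂(muK n) = 0 := by
      rw [sub_mul, h1, sub_self]
    rcases mul_eq_zero.1 h4 with h5 | h5
    · exfalso
      have h6 : (l : ℂ) * (l + 2) = (m : ℂ) * (m + 2) := sub_eq_zero.1 h5
      have h7 : l * (l + 2) = m * (m + 2) := by exact_mod_cast h6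
      apply hlm
      nlinarith
    · exact h5
  have hJ : ∀ l, 0 ≤ ∫ k, ‖g l k‖ ^ 2 ∂(muK n) := fun l =>
    integral_nonneg fun k => by positivity
  -- values
  have hval : ∀ (c : ℕ → ℂ) (N : ℕ) (w : P),
      ((∑ l ∈ Finset.range N, c l • pr l y : YK π) : P →L[ℂ] ℂ) w =
        ∑ l ∈ Finset.range N, c l * ((pr l y : YK π) : P →L[ℂ] ℂ) w := by
    intro c N w
    have h1 : ((∑ l ∈ Finset.range N, c l • pr l y : YK π) : P →L[ℂ] ℂ) w =
      ev π w (∑ l ∈ Finset.range N, c l • pr l y) := rfl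
    rw [h1, map_sum]
    refine Finset.sum_congr rfl fun l _ => ?_
    rw [map_smul]
    rfl
  -- norm of `y`
  obtain ⟨N1, hN1, hN1s⟩ := hpr.fin y
  have hysum : y = ∑ l ∈ Finset.range (max N N1), (1 : ℂ) • pr l y := by
    have h1 : ∑ l ∈ Finset.range (max N N1), (1 : ℂ) • pr l y =
        ∑ l ∈ Finset.range N1, pr l y := by
      have h2 : ∑ l ∈ Finset.range N1, pr l y = ∑ l ∈ Finset.range (max N N1), pr l y := by
        refine Finset.sum_subset (Finset.range_mono (le_max_right _ _)) fun l _ hl => ?_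
        exact hN1 l (by simpa using hl)
      rw [h2]
      exact Finset.sum_congr rfl fun l _ => one_smul _ _
    rw [h1, hN1s]
  have hy2 : ∫ k : KU n, ‖(y : P →L[ℂ] ℂ) (π (k : GLn n) v)‖ ^ 2 ∂(muK n) =
      ∑ l ∈ Finset.range (max N N1), ∫ k, ‖g l k‖ ^ 2 ∂(muK n) := by
    have h1 := pyth hgc hort (fun _ => 1) (max N N1)
    have h2 : ∀ k : KU n, (y : P →L[ℂ] ℂ) (π (k : GLn n) v) =
        ∑ l ∈ Finset.range (max N N1), (1 : ℂ) * g l k := by
      intro k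
      have h3 := hval (fun _ => 1) (max N N1) (π (k : GLn n) v)
      rw [← hysum] at h3
      exact h3
    simp_rw [h2]
    rw [h1]
    refine Finset.sum_congr rfl fun l _ => ?_
    rw [norm_one, one_pow, one_mul]
  set y' : YK π := ∑ l ∈ Finset.range N, c l • pr l y with hy'
  have hy'2 : ∫ k : KU n, ‖(y' : P →L[ℂ] ℂ) (π (k : GLn n) v)‖ ^ 2 ∂(muK n) =
      ∑ l ∈ Finset.range N, ‖c l‖ ^ 2 * ∫ k, ‖g l k‖ ^ 2 ∂(muK n) := by
    rw [← pyth hgc hort c N]
    refine integral_congr_ae (Filter.Eventually.of_forall fun k => ?_)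
    show ‖(y' : P →L[ℂ] ℂ) (π (k : GLn n) v)‖ ^ 2 = _
    rw [hy', hval c N]
  have hle : ∫ k : KU n, ‖(y' : P →L[ℂ] ℂ) (π (k : GLn n) v)‖ ^ 2 ∂(muK n) ≤
      ∫ k : KU n, ‖(y : P →L[ℂ] ℂ) (π (k : GLn n) v)‖ ^ 2 ∂(muK n) := by
    rw [hy2, hy'2]
    calc ∑ l ∈ Finset.range N, ‖c l‖ ^ 2 * ∫ k, ‖g l k‖ ^ 2 ∂(muK n)
        ≤ ∑ l ∈ Finset.range N, ∫ k, ‖g l k‖ ^ 2 ∂(muK n) := by
          refine Finset.sum_le_sum fun l _ => ?_
          have h1 : ‖c l‖ ^ 2 ≤ 1 := pow_le_one₀ (norm_nonneg _) (hc l)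
          calc _ ≤ 1 * ∫ k, ‖g l k‖ ^ 2 ∂(muK n) := mul_le_mul_of_nonneg_right h1 (hJ l)
            _ = _ := one_mul _
      _ ≤ _ := Finset.sum_le_sum_of_subset_of_nonneg (Finset.range_mono (le_max_left _ _))
          fun l _ _ => hJ l
  have hB0 : 0 ≤ B * p v := (norm_nonneg _).trans (hB v)
  have hyB : ∫ k : KU n, ‖(y : P →L[ℂ] ℂ) (π (k : GLn n) v)‖ ^ 2 ∂(muK n) ≤ (B * p v) ^ 2 := by
    have h1 : ∫ k : KU n, ‖(y : P →L[ℂ] ℂ) (π (k : GLn n) v)‖ ^ 2 ∂(muK n) ≤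
        ∫ _k : KU n, (B * p v) ^ 2 ∂(muK n) := by
      refine integral_mono (sn_intR (((y : P →L[ℂ] ℂ).continuous.comp horb).norm.pow 2))
        (integrable_const _) fun k => ?_
      show ‖(y : P →L[ℂ] ℂ) (π (k : GLn n) v)‖ ^ 2 ≤ (B * p v) ^ 2
      have h2 := hB (π (k : GLn n) v)
      rw [hp k v] at h2
      exact pow_le_pow_left₀ (norm_nonneg _) h2 2
    simpa using h1
  -- `y'` has degree at most `D`
  have hy'D : (y' : P →L[ℂ] ℂ) ∈ Yd π D := by
    have h1 : ∀ l, ((pr l y : YK π) : P →L[ℂ] ℂ) ∈ Yd π D := by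
      intro l
      exact hpr.stab ((Yd π D).comap (YK π).subtype)
        (fun z hz => yC_stab π d hd i j hz) l y hy
    have h2 : (y' : P →L[ℂ] ℂ) = ∑ l ∈ Finset.range N, c l • ((pr l y : YK π) : P →L[ℂ] ℂ) := by
      ext w
      rw [hy', hval c N, _root_.sum_apply]
      rfl
    rw [h2]
    exact (Yd π D).sum_mem fun l _ => (Yd π D).smul_mem _ (h1 l)
  have hsup := PK_sup (hy'D v) 1
  have h1v : ((y' : P →L[ℂ] ℂ) (π (((1 : KU n) : GLn n)) v)) = (y' : P →L[ℂ] ℂ) v := by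
    rw [Subgroup.coe_one, map_one]
    rfl
  rw [h1v] at hsup
  have hfin : (Module.finrank ℂ (PK n D) : ℝ) ≤ ((D : ℝ) + 1) ^ M := by
    exact_mod_cast hM D
  have hpos : (1 : ℝ) ≤ ((D : ℝ) + 1) ^ M := one_le_pow₀ (by linarith [Nat.cast_nonneg (α := ℝ) D])
  have hI0 : 0 ≤ ∫ k : KU n, ‖(y' : P →L[ℂ] ℂ) (π (k : GLn n) v)‖ ^ 2 ∂(muK n) :=
    integral_nonneg fun k => by positivity
  have hfinal : ‖(y' : P →L[ℂ] ℂ) v‖ ^ 2 ≤ (((D : ℝ) + 1) ^ M * (B * p v)) ^ 2 := by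
    calc ‖(y' : P →L[ℂ] ℂ) v‖ ^ 2
        ≤ Module.finrank ℂ (PK n D) *
          ∫ k : KU n, ‖(y' : P →L[ℂ] ℂ) (π (k : GLn n) v)‖ ^ 2 ∂(muK n) := hsup
      _ ≤ ((D : ℝ) + 1) ^ M * (B * p v) ^ 2 :=
          mul_le_mul hfin (hle.trans hyB) hI0 (by positivity)
      _ ≤ ((D : ℝ) + 1) ^ M * (((D : ℝ) + 1) ^ M * (B * p v) ^ 2) :=
          mul_le_mul_of_nonneg_left (le_mul_of_one_le_left (sq_nonneg _) hpos) (by positivity)
      _ = _ := by ring
  exact abs_le_of_sq_le_sq' hfinal (by positivity) |>.2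

end

end Pool.Agent.Work.MP_dd0ddf_al.AR
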