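import Pool.Agent.Work.MP_dd0ddf_al.AR.SBase

/-!
# Block R6 of MP_dd0ddf_al (archimedean part), module SSl: finite dimensional theory of `sl_2`

C = cs2 E F H = H² + 2H + 4FE = H² - 2H + 4EF commutes with E, F, H (noncommutative ring computation from he, hf, ef).
PROOF of `highest`. S_c = {v : C v = c v} ∩ S (S from lf, a finite dimensional E, F, H stable subspace containing v): a nonzero finite dimensional subspace, stable under E, F, H.
(1) Let w ∈ S_c, w ≠ 0, H w = λ w.  The vectors E^k w have weights λ + 2k; they are linearly independent as long as they are nonzero, so there is k with E^k w ≠ 0, E^(k+1) w = 0.  With x = E^k w, μ = λ + 2k: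
C x = μ(μ+2) x (as C = H² + 2H + 4FE), so c = μ(μ+2).  E F^(r+1) x = (r+1)(μ - r) F^r x (induction); there is r with F^r x ≠ 0, F^(r+1) x = 0, so μ = r is a natural number.
(2) the same with F: F^k w ≠ 0, F^(k+1) w = 0, λ - 2k = -r' with r' a natural number and c = r'(r'+2) (C = H² - 2H + 4EF).  As c = l(l+2) = μ(μ+2) = r'(r'+2) with natural numbers, l = μ = r'.
So λ = l - 2k and |λ| ≤ l, λ = l - 2j with 0 ≤ j ≤ l.
`eig_nat`: an eigenvector w of H in S_c exists (ℂ is algebraically closed, S_c is finite dimensional and nonzero, `Module.End.exists_eigenvalue` for the restriction), use (1).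
`wt_form`: let φ(H v) = κ φ(v) for all v with C v = l(l+2) v, and φ(v) ≠ 0 for one such v.  T = S_c (c = l(l+2), S for this v) is finite dimensional and H-stable.  φ|_T is a nonzero functional
with φ ∘ (H - κ) = 0 on T, so H - κ is not surjective on T, hence not injective: there is an eigenvector of H in T with eigenvalue κ; use (2).
(Mathlib's `IsSl2Triple.HasPrimitiveVectorWith.exists_nat` may be used as well.)
-/

set_option linter.unusedSectionVars false

namespace Pool.Agent.Work.MP_dd0ddf_al.AR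

open scoped SchwartzMap Matrix.Norms.Elementwise ComplexConjugate ContDiff Topology
open Matrix MeasureTheory Filter Asymptotics

noncomputable section

variable {V : Type*} [AddCommGroup V] [Module ℂ V] {E F H : Module.End ℂ V}

theorem cs2_comm (h : LfS E F H) : E * cs2 E F H = cs2 E F H * E ∧
    F * cs2 E F H = cs2 E F H * F ∧ H * cs2 E F H = cs2 E F H * H := by
  have he := h.he
  have hf := h.hf
  have ef := h.ef
  unfold cs2
  refine ⟨?_, ?_, ?_⟩
  · linear_combination (norm := noncomm_ring) -(he * H) - H * he + 4 • (ef * E)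
  · linear_combination (norm := noncomm_ring) -(hf * H) - H * hf - 4 • (F * ef)
  · linear_combination (norm := noncomm_ring) 4 • (hf * E) + 4 • (F * he)

private theorem ssl_step {A B : Module.End ℂ V} {s : ℂ} (hT : ∀ x, B (A x) = A (B x) + s • A x)
    {w : V} {lam : ℂ} (hH : B w = lam • w) (k : ℕ) :
    B ((A ^ k) w) = (lam + k * s) • (A ^ k) w := by
  induction k with
  | zero =>
    rw [pow_zero, Module.End.one_apply, hH]
    simp
  | succ k ih =>
    rw [pow_succ', Module.End.mul_apply, hT, ih, map_smul, ← add_smul]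
    congr 1
    push_cast
    ring

private theorem ssl_top {A B : Module.End ℂ V} {s : ℂ} (hs : s ≠ 0)
    (hT : ∀ x, B (A x) = A (B x) + s • A x) {S : Submodule ℂ V} (hfd : FiniteDimensional ℂ S)
    (hS : ∀ x ∈ S, A x ∈ S) {w : V} (hw : w ∈ S) (h0 : w ≠ 0) {lam : ℂ} (hH : B w = lam • w) :
    ∃ k : ℕ, (A ^ k) w ≠ 0 ∧ A ((A ^ k) w) = 0 := by
  classical
  have hmem : ∀ k : ℕ, (A ^ k) w ∈ S := by
    intro k
    induction k with
    | zero => exact hw
    | succ k ih =>
      rw [pow_succ', Module.End.mul_apply]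
      exact hS _ ih
  have hex : ∃ k : ℕ, (A ^ k) w = 0 := by
    by_contra hcon
    push Not at hcon
    have h1 : LinearIndependent ℂ (fun k : ℕ => (A ^ k) w) := by
      refine Module.End.eigenvectors_linearIndependent' B (fun k : ℕ => lam + k * s) ?_ _ ?_
      · intro a b hab
        have h2 : (a : ℂ) * s = (b : ℂ) * s := add_left_cancel hab
        exact_mod_cast mul_right_cancel₀ hs h2
      · intro k
        exact ⟨Module.End.mem_eigenspace_iff.2 (ssl_step hT hH k), hcon k⟩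
    have h2 : LinearIndependent ℂ (fun k : ℕ => (⟨(A ^ k) w, hmem k⟩ : S)) :=
      LinearIndependent.of_comp S.subtype h1
    have h3 : Finite ℕ := h2.finite
    exact not_finite ℕ
  have hk0 : Nat.find hex ≠ 0 := by
    intro h1
    have h2 := Nat.find_spec hex
    rw [h1, pow_zero] at h2
    exact h0 h2
  obtain ⟨k, hk⟩ := Nat.exists_eq_succ_of_ne_zero hk0
  refine ⟨k, Nat.find_min hex (by omega), ?_⟩
  have h2 := Nat.find_spec hex
  rw [hk, Nat.succ_eq_add_one, pow_succ', Module.End.mul_apply] at h2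
  exact h2

private theorem ssl_he (h : LfS E F H) (x : V) : H (E x) = E (H x) + (2 : ℂ) • E x := by
  have h1 := congrArg (fun T : Module.End ℂ V => T x) h.he
  simp only [LinearMap.sub_apply, Module.End.mul_apply] at h1
  have h2 : (2 • E : Module.End ℂ V) x = (2 : ℂ) • E x := by
    rw [two_smul, two_smul, LinearMap.add_apply]
  rw [h2] at h1
  rw [← h1]
  abel

private theorem ssl_hf (h : LfS E F H) (x : V) : H (F x) = F (H x) + (-2 : ℂ) • F x := by
  have h1 := congrArg (fun T : Module.End ℂ V => T x) h.hf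
  simp only [LinearMap.sub_apply, Module.End.mul_apply] at h1
  have h2 : (-(2 • F) : Module.End ℂ V) x = (-2 : ℂ) • F x := by
    rw [LinearMap.neg_apply, two_smul, LinearMap.add_apply, neg_smul, two_smul]
  rw [h2] at h1
  rw [← h1]
  abel

private theorem ssl_ef (h : LfS E F H) (x : V) : E (F x) = F (E x) + H x := by
  have h1 := congrArg (fun T : Module.End ℂ V => T x) h.ef
  simp only [LinearMap.sub_apply, Module.End.mul_apply] at h1
  rw [← h1]
  abel

private theorem ssl_cs (x : V) : cs2 E F H x = H (H x) + (2 : ℂ) • H x + (4 : ℂ) • F (E x) := by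
  unfold cs2
  have h2 : (2 • H : Module.End ℂ V) x = (2 : ℂ) • H x := by
    rw [two_smul, two_smul, LinearMap.add_apply]
  have h4 : (4 • (F * E) : Module.End ℂ V) x = (4 : ℂ) • F (E x) := by
    have h5 : (4 • (F * E) : Module.End ℂ V) x = 4 • F (E x) := rfl
    rw [h5]
    module
  rw [LinearMap.add_apply, LinearMap.add_apply, h2, h4]
  rfl

private theorem ssl_swap (h : LfS E F H) : LfS F E (-H) ∧ cs2 F E (-H) = cs2 E F H := by
  have hc : cs2 F E (-H) = cs2 E F H := by
    unfold cs2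
    have ef := h.ef
    linear_combination (norm := noncomm_ring) 4 • ef
  refine ⟨⟨?_, ?_, ?_, ?_, ?_⟩, hc⟩
  · have hf := h.hf
    linear_combination (norm := noncomm_ring) -hf
  · have he := h.he
    linear_combination (norm := noncomm_ring) -he
  · have ef := h.ef
    linear_combination (norm := noncomm_ring) -ef
  · intro v
    obtain ⟨S, hfd, hv, hS⟩ := h.lf v
    refine ⟨S, hfd, hv, fun w hw => ?_⟩
    obtain ⟨h1, h2, h3⟩ := hS w hw
    exact ⟨h2, h1, S.neg_mem h3⟩
  · rw [hc]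
    exact h.ss

private theorem ssl_nat (h : LfS E F H) {c lam : ℂ} {w : V} (h0 : w ≠ 0)
    (hC : cs2 E F H w = c • w) (hH : H w = lam • w) :
    ∃ l k : ℕ, c = (l : ℂ) * (l + 2) ∧ lam + 2 * k = l := by
  obtain ⟨S, hfd, hwS, hS⟩ := h.lf w
  obtain ⟨k, hk, hk0⟩ := ssl_top (A := E) (B := H) (s := 2) two_ne_zero (ssl_he h) hfd
    (fun x hx => (hS x hx).1) hwS h0 hH
  have hkH := ssl_step (ssl_he h) hH k
  have hmem : ∀ j : ℕ, (E ^ j) w ∈ S := by
    intro j
    induction j with
    | zero => exact hwS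
    | succ j ih =>
      rw [pow_succ', Module.End.mul_apply]
      exact (hS _ ih).1
  have hCk : ∀ j : ℕ, cs2 E F H ((E ^ j) w) = c • (E ^ j) w := by
    intro j
    induction j with
    | zero => exact hC
    | succ j ih =>
      rw [pow_succ', Module.End.mul_apply]
      have h1 := congrArg (fun T : Module.End ℂ V => T ((E ^ j) w)) (cs2_comm h).1
      simp only [Module.End.mul_apply] at h1
      rw [← h1, ih, map_smul]
  obtain ⟨x, hx⟩ : ∃ x, x = (E ^ k) w := ⟨_, rfl⟩
  obtain ⟨μ, hμ⟩ : ∃ μ : ℂ, μ = lam + k * 2 := ⟨_, rfl⟩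
  have hCx := hCk k
  have hxS := hmem k
  rw [← hx] at hk hk0 hkH hCx hxS
  rw [← hμ] at hkH
  have hc : c = μ * (μ + 2) := by
    rw [ssl_cs, hk0, map_zero, smul_zero, add_zero, hkH, map_smul, hkH, smul_smul, smul_smul,
      ← add_smul] at hCx
    have h1 := smul_left_injective ℂ hk hCx
    have h2 : μ * μ + 2 * μ = c := h1
    rw [← h2]
    ring
  obtain ⟨r, hr, hr0⟩ := ssl_top (A := F) (B := H) (s := -2) (by norm_num) (ssl_hf h) hfd
    (fun x hx => (hS x hx).2.1) hxS hk hkH
  have hE : ∀ j : ℕ, E ((F ^ (j + 1)) x) = (((j : ℂ) + 1) * (μ - j)) • (F ^ j) x := by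
    intro j
    induction j with
    | zero =>
      rw [zero_add, pow_one, pow_zero, Module.End.one_apply, ssl_ef h, hk0, map_zero, zero_add,
        hkH]
      simp
    | succ j ih =>
      rw [pow_succ', Module.End.mul_apply, ssl_ef h, ih, map_smul,
        ssl_step (ssl_hf h) hkH (j + 1)]
      have h2 : F ((F ^ j) x) = (F ^ (j + 1)) x := by
        rw [pow_succ', Module.End.mul_apply]
      rw [h2, ← add_smul]
      congr 1
      push_cast
      ring
  have hμr : μ = r := by
    have h1 := hE r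
    rw [pow_succ', Module.End.mul_apply, hr0, map_zero] at h1
    have h2 := (smul_eq_zero.1 h1.symm).resolve_right hr
    have h3 : (r : ℂ) + 1 ≠ 0 := by exact_mod_cast Nat.succ_ne_zero r
    exact sub_eq_zero.1 ((mul_eq_zero.1 h2).resolve_left h3)
  refine ⟨r, k, ?_, ?_⟩
  · rw [hc, hμr]
  · rw [← hμr, hμ]
    ring

private theorem ssl_inj {l l' : ℕ} (h : (l : ℂ) * (l + 2) = (l' : ℂ) * (l' + 2)) : l = l' := by
  have h1 : l * (l + 2) = l' * (l' + 2) := by exact_mod_cast h
  have h2 : (l + 1) * (l + 1) = (l' + 1) * (l' + 1) := by linarith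
  have h3 := Nat.mul_self_inj.1 h2
  omega

theorem eig_wt (h : LfS E F H) (c lam : ℂ) (w : V) (h0 : w ≠ 0) (hC : cs2 E F H w = c • w)
    (hH : H w = lam • w) : ∃ l j : ℕ, j ≤ l ∧ c = (l : ℂ) * (l + 2) ∧ lam = (l : ℂ) - 2 * j := by
  obtain ⟨l, k, hc, hk⟩ := ssl_nat h h0 hC hH
  have hs := ssl_swap h
  obtain ⟨l', k', hc', hk'⟩ := ssl_nat hs.1 (c := c) (lam := -lam) h0 (by rw [hs.2]; exact hC)
    (by rw [LinearMap.neg_apply, hH, neg_smul])
  have hl : l = l' := ssl_inj (hc.symm.trans hc')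
  subst hl
  have h1 : (2 * (k + k') : ℂ) = 2 * l := by linear_combination hk + hk'
  have h2 : 2 * (k + k') = 2 * l := by exact_mod_cast h1
  exact ⟨l, k, by omega, hc, by linear_combination hk⟩

private theorem ssl_sub (h : LfS E F H) (c : ℂ) (v : V) (hv : cs2 E F H v = c • v) :
    ∃ T : Submodule ℂ V, FiniteDimensional ℂ T ∧ v ∈ T ∧ (∀ x ∈ T, H x ∈ T) ∧
      ∀ x ∈ T, cs2 E F H x = c • x := by
  obtain ⟨S, hfd, hvS, hS⟩ := h.lf v
  refine ⟨S ⊓ LinearMap.ker (cs2 E F H - c • 1), ?_, ?_, ?_, ?_⟩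
  · exact Submodule.finiteDimensional_of_le inf_le_left
  · refine ⟨hvS, ?_⟩
    rw [SetLike.mem_coe, LinearMap.mem_ker, LinearMap.sub_apply, hv]
    exact sub_self _
  · rintro x ⟨hx, hx'⟩
    refine ⟨(hS x hx).2.2, ?_⟩
    rw [SetLike.mem_coe, LinearMap.mem_ker, LinearMap.sub_apply] at hx' ⊢
    have h1 := congrArg (fun T : Module.End ℂ V => T x) (cs2_comm h).2.2
    simp only [Module.End.mul_apply] at h1
    have h2 : cs2 E F H x = c • x := sub_eq_zero.1 hx'
    rw [← h1, h2, map_smul]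
    exact sub_self _
  · rintro x ⟨hx, hx'⟩
    rw [SetLike.mem_coe, LinearMap.mem_ker, LinearMap.sub_apply] at hx'
    exact sub_eq_zero.1 hx'

theorem eig_nat (h : LfS E F H) (c : ℂ) (v : V) (hv : cs2 E F H v = c • v) (h0 : v ≠ 0) :
    ∃ l : ℕ, c = (l : ℂ) * (l + 2) := by
  obtain ⟨T, hfd, hvT, hT, hTc⟩ := ssl_sub h c v hv
  have hnt : Nontrivial T := ⟨⟨⟨v, hvT⟩, 0, fun h1 => h0 (congrArg Subtype.val h1)⟩⟩
  obtain ⟨lam, hlam⟩ := Module.End.exists_eigenvalue (H.restrict hT)
  obtain ⟨w, hw⟩ := hlam.exists_hasEigenvector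
  have h1 := congrArg Subtype.val (Module.End.mem_eigenspace_iff.1 hw.1)
  have h2 : H w.1 = lam • w.1 := h1
  have h3 : w.1 ≠ 0 := fun h4 => hw.2 (Subtype.ext h4)
  obtain ⟨l, -, -, hc, -⟩ := eig_wt h c lam w.1 h3 (hTc w.1 w.2) h2
  exact ⟨l, hc⟩

theorem wt_form (h : LfS E F H) (l : ℕ) (φ : V →ₗ[ℂ] ℂ) (κ : ℂ)
    (hφ : ∀ v, cs2 E F H v = ((l : ℂ) * (l + 2)) • v → φ (H v) = κ * φ v)
    (hne : ∃ v, cs2 E F H v = ((l : ℂ) * (l + 2)) • v ∧ φ v ≠ 0) :
    ∃ j : ℕ, j ≤ l ∧ κ = (l : ℂ) - 2 * j := by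
  obtain ⟨v, hv, hφv⟩ := hne
  obtain ⟨T, hfd, hvT, hT, hTc⟩ := ssl_sub h _ v hv
  obtain ⟨G, hG⟩ : ∃ G : T →ₗ[ℂ] T, G = H.restrict hT - κ • LinearMap.id := ⟨_, rfl⟩
  have hGφ : ∀ x : T, φ ((G x : T) : V) = 0 := by
    intro x
    have h1 : ((G x : T) : V) = H x.1 - κ • x.1 := by
      rw [hG]
      rfl
    rw [h1, map_sub, map_smul, hφ x.1 (hTc x.1 x.2), smul_eq_mul, sub_self]
  have hns : ¬ Function.Surjective G := by
    intro hsur
    obtain ⟨x, hx⟩ := hsur ⟨v, hvT⟩
    have h1 := hGφ x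
    rw [hx] at h1
    exact hφv h1
  have hni : ¬ Function.Injective G := fun hi => hns (LinearMap.injective_iff_surjective.1 hi)
  have hker : LinearMap.ker G ≠ ⊥ := fun hb => hni (LinearMap.ker_eq_bot.1 hb)
  obtain ⟨w, hw, hw0⟩ := Submodule.exists_mem_ne_zero_of_ne_bot hker
  have h2 : H w.1 = κ • w.1 := by
    have h3 := congrArg Subtype.val (LinearMap.mem_ker.1 hw)
    rw [hG] at h3
    exact sub_eq_zero.1 h3
  have h3 : w.1 ≠ 0 := fun h4 => hw0 (Subtype.ext h4)
  obtain ⟨l', j, hj, hc, hκ⟩ := eig_wt h _ κ w.1 h3 (hTc w.1 w.2) h2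
  have hl : l = l' := ssl_inj hc
  subst hl
  exact ⟨j, hj, hκ⟩

end

end Pool.Agent.Work.MP_dd0ddf_al.AR
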