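import Pool.Agent.Work.MP_dd0ddf_al.AR.SBase
import Pool.Agent.Work.MP_dd0ddf_al.AR.SRel
import Pool.Agent.Work.MP_dd0ddf_al.AR.SSl
import Pool.Agent.Work.MP_dd0ddf_al.AR.SNorm
import Pool.Agent.Work.MP_dd0ddf_al.AR.RKFacts

/-!
# Block R6 of MP_dd0ddf_al (archimedean part), module SBd: polynomial growth of the new vectors

PROOF.  Write E = mL i j - mR j i on MY; (E^q x)(y) = x(y ∘ (Lo i j - Ro j i)^q) = (-1)^q x((yE i j)^q y); pr l commutes with yE (hpr.com and `cs2_comm` or directly), so (E^q (pr l).dualMap x)(y) = (-1)^q x(pr l ((yE)^q y)).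
For y ∈ YK: y = ∑_{l<N} pr l y (fin), so x'(y) = ∑_{l<N} ((pr l).dualMap x')(y) = ∑_{l<N} c l (E^q ((pr l).dualMap x))(y) = (-1)^q x(∑_{l<N} c l pr l (yE^q y)).
Let y ∈ Yd π D, |y(v)| ≤ c p(v).  By `bernstein` applied q times |(yE^q y)(v)| ≤ (C0 (1+D)^M0)^q c p(v) (WLOG C0 ≥ 0 and c ≥ 0 or use |.|; note c p(v) ≥ 0 for all v), and yE^q y ∈ Yd π D (`Yd_k`).
`norm_pr` bounds z = ∑_{l<N} c l pr l (yE^q y) by (D+1)^M1 (C0 (1+D)^M0)^q c p(v), z ∈ Yd π D (hpr.stab), and the growth of x finishes.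
The lemma E^q commutes etc.: pr l commutes with yE i j since yE i j commutes with cs2 (`hlfs`).
-/

set_option linter.unusedSectionVars false

namespace Pool.Agent.Work.MP_dd0ddf_al.AR

open scoped SchwartzMap Matrix.Norms.Elementwise ComplexConjugate ContDiff Topology
open Matrix MeasureTheory Filter Asymptotics

noncomputable section

variable {n : ℕ} {P : Type*} [AddCommGroup P] [Module ℂ P] [UniformSpace P] [IsUniformAddGroup P]
  [ContinuousSMul ℂ P] [PolynormableSpace ℂ P] [T2Space P] [CompleteSpace P]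
  [FirstCountableTopology P]


private theorem sb_yE (π : GLn n →* (P →L[ℂ] P)) (d : Mat n → P →L[ℂ] P) (hd : Der π d)
    (i j : Fin n) (y : YK π) (v : P) :
    ((yE π d i j y : YK π) : P →L[ℂ] ℂ) v = -(y : P →L[ℂ] ℂ) (Lo d i j v - Ro d j i v) := by
  change ((yL π d i j y : YK π) : P →L[ℂ] ℂ) v - ((yR π d j i y : YK π) : P →L[ℂ] ℂ) v = _
  rw [yL_apply π d hd, yR_apply π d hd, map_sub]
  ring

private theorem sb_yH (π : GLn n →* (P →L[ℂ] P)) (d : Mat n → P →L[ℂ] P) (i j : Fin n) :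
    yH π d i j = yE π d i i - yE π d j j := by
  unfold yH yE
  abel

private theorem sb_mem (π : GLn n →* (P →L[ℂ] P)) (d : Mat n → P →L[ℂ] P) (hd : Der π d)
    (i j : Fin n) {D : ℕ} {y : YK π} (hy : (y : P →L[ℂ] ℂ) ∈ Yd π D) :
    ((yE π d i j y : YK π) : P →L[ℂ] ℂ) ∈ Yd π D := by
  have h := (Yd π D).neg_mem (Yd_k π d hd i j hy)
  have e : ((yE π d i j y : YK π) : P →L[ℂ] ℂ) =
      -((y : P →L[ℂ] ℂ).comp (Lo d i j - Ro d j i)) := by
    ext v
    rw [sb_yE π d hd]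
    rfl
  rw [e]
  exact h

private theorem sb_memH (π : GLn n →* (P →L[ℂ] P)) (d : Mat n → P →L[ℂ] P) (hd : Der π d)
    (i j : Fin n) {D : ℕ} {y : YK π} (hy : (y : P →L[ℂ] ℂ) ∈ Yd π D) :
    ((yH π d i j y : YK π) : P →L[ℂ] ℂ) ∈ Yd π D := by
  rw [sb_yH]
  exact (Yd π D).sub_mem (sb_mem π d hd i i hy) (sb_mem π d hd j j hy)

private theorem sb_cs (π : GLn n →* (P →L[ℂ] P)) (d : Mat n → P →L[ℂ] P) (hd : Der π d)
    (i j : Fin n) {D : ℕ} {y : YK π} (hy : (y : P →L[ℂ] ℂ) ∈ Yd π D) :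
    ((cs2 (yE π d i j) (yE π d j i) (yH π d i j) y : YK π) : P →L[ℂ] ℂ) ∈ Yd π D := by
  have e : cs2 (yE π d i j) (yE π d j i) (yH π d i j) y =
      yH π d i j (yH π d i j y) + 2 • yH π d i j y + 4 • yE π d j i (yE π d i j y) := rfl
  rw [e]
  have h1 := sb_memH π d hd i j hy
  have h2 := sb_memH π d hd i j h1
  have h3 := sb_mem π d hd j i (sb_mem π d hd i j hy)
  exact (Yd π D).add_mem ((Yd π D).add_mem h2 ((Yd π D).nsmul_mem h1 2))
    ((Yd π D).nsmul_mem h3 4)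

private theorem sb_pow (π : GLn n →* (P →L[ℂ] P)) (d : Mat n → P →L[ℂ] P)
    (i j : Fin n) (q : ℕ) (z : MY π) (y : YK π) :
    (((mL π d i j - mR π d j i) ^ q) z) y = (-1) ^ q * z (((yE π d i j) ^ q) y) := by
  induction q generalizing z with
  | zero =>
    rw [pow_zero, pow_zero, pow_zero, one_mul]
    rfl
  | succ q ih =>
    rw [pow_succ, Module.End.mul_apply, ih, pow_succ' (yE π d i j), Module.End.mul_apply]
    have : ((mL π d i j - mR π d j i) z) (((yE π d i j) ^ q) y) =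
        -z (yE π d i j (((yE π d i j) ^ q) y)) := by
      generalize (((yE π d i j) ^ q) y) = w
      change (-(z (yL π d i j w))) - (-(z (yR π d j i w))) = -z (yL π d i j w - yR π d j i w)
      rw [map_sub]
      ring
    rw [this]
    ring

theorem pgr_comb (π : GLn n →* (P →L[ℂ] P)) (hπ : IsCW π) (d : Mat n → P →L[ℂ] P)
    (hd : Der π d) (i j : Fin n) (hlfs : LfS (yE π d i j) (yE π d j i) (yH π d i j))
    (pr : ℕ → Module.End ℂ (YK π))
    (hpr : Prj (yE π d i j) (yE π d j i) (yH π d i j) pr) (c : ℕ → ℂ) (hc : ∀ l, ‖c l‖ ≤ 1)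
    (q : ℕ) (x x' : MY π) (hx : Pgr π x)
    (hxx : ∀ l, (pr l).dualMap x' =
      c l • ((mL π d i j - mR π d j i) ^ q) ((pr l).dualMap x)) : Pgr π x' := by
  intro p hp hK
  obtain ⟨C, M, hC⟩ := hx p hp hK
  obtain ⟨C0, M0, hB⟩ := bernstein π d hd
  obtain ⟨M1, hN⟩ := norm_pr π hπ d hd i j pr hpr
  refine ⟨C * C0 ^ q, M + M1 + M0 * q, ?_⟩
  intro D y hy c0 hy0
  -- the powers of `yE`
  have hpow : ∀ r : ℕ, ((((yE π d i j) ^ r) y : YK π) : P →L[ℂ] ℂ) ∈ Yd π D ∧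
      ∀ v, ‖((((yE π d i j) ^ r) y : YK π) : P →L[ℂ] ℂ) v‖ ≤
        (C0 * (1 + (D : ℝ)) ^ M0) ^ r * c0 * p v := by
    intro r
    induction r with
    | zero =>
      rw [pow_zero, pow_zero, one_mul]
      exact ⟨hy, hy0⟩
    | succ r ih =>
      rw [pow_succ' (yE π d i j), Module.End.mul_apply]
      refine ⟨sb_mem π d hd i j ih.1, ?_⟩
      intro v
      rw [sb_yE π d hd, norm_neg]
      have := hB p hK D _ ih.1 _ ih.2 i j v
      refine this.trans (le_of_eq ?_)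
      rw [pow_succ]
      ring
  obtain ⟨N, -, hN2⟩ := hpr.fin y
  have hz : x' y = (-1) ^ q * x (∑ l ∈ Finset.range N, c l • pr l (((yE π d i j) ^ q) y)) := by
    conv_lhs => rw [← hN2]
    rw [map_sum, map_sum, Finset.mul_sum]
    refine Finset.sum_congr rfl fun l _ => ?_
    have h1 : x' (pr l y) = ((pr l).dualMap x') y := rfl
    rw [h1, hxx, LinearMap.smul_apply, sb_pow, map_smul, smul_eq_mul, smul_eq_mul]
    have h2 : ((pr l).dualMap x) (((yE π d i j) ^ q) y) = x (pr l (((yE π d i j) ^ q) y)) := rfl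
    rw [h2]
    ring
  have hmem : ((∑ l ∈ Finset.range N, c l • pr l (((yE π d i j) ^ q) y) : YK π) :
      P →L[ℂ] ℂ) ∈ Yd π D := by
    have h1 := hpr.stab ((Yd π D).comap (YK π).subtype)
      (fun v hv => sb_cs π d hd i j (D := D) (y := v) hv)
    have h2 : (∑ l ∈ Finset.range N, c l • pr l (((yE π d i j) ^ q) y) : YK π) ∈
        (Yd π D).comap (YK π).subtype :=
      Submodule.sum_mem _ fun l _ => Submodule.smul_mem _ _ (h1 l _ (hpow q).1)
    exact h2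
  have hb := hN c hc D _ (hpow q).1 N p hK ((C0 * (1 + (D : ℝ)) ^ M0) ^ q * c0) (hpow q).2
  have hfin := hC D _ hmem (((D : ℝ) + 1) ^ M1 * ((C0 * (1 + (D : ℝ)) ^ M0) ^ q * c0)) (by
    intro v
    refine (hb v).trans (le_of_eq ?_)
    ring)
  rw [hz, norm_mul, norm_pow, norm_neg, norm_one, one_pow, one_mul]
  refine hfin.trans (le_of_eq ?_)
  rw [mul_pow, pow_add, pow_add, pow_mul, add_comm (D : ℝ) 1]
  ring

end

end Pool.Agent.Work.MP_dd0ddf_al.AR
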