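import Pool.Agent.Work.MP_dd0ddf_al.CW.Slm

/-!
# Block R6 of MP_dd0ddf_al (archimedean part), module SLm: `CW.slm` with bounded coefficients

PROOF.  Copy the proof of `CW.slm` (CW/Slm.lean; its private lemmas have to be copied too).  There c = slC q S (or c = 1 if all Pi T u = 0): products of factors (S + l + 2)/(S - l - 2), l = q + 2i ≥ 0.
If Re S < 0: |S + l + 2|² - |S - l - 2|² = 4 (l+2) Re S < 0, so every factor has norm ≤ 1 and ‖c T‖ ≤ 1.  The condition hne follows from Re S < 0.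
-/

set_option linter.unusedSectionVars false

namespace Pool.Agent.Work.MP_dd0ddf_al.AR

open scoped SchwartzMap Matrix.Norms.Elementwise ComplexConjugate ContDiff Topology
open Matrix MeasureTheory Filter Asymptotics

noncomputable section

variable {M : Type*} [AddCommGroup M] [Module ℂ M] {e f h e' f' h' : Module.End ℂ M}
  {Pi : ℕ → Module.End ℂ M}

private theorem slm_cancel {a : ℂ} (ha : a ≠ 0) {x y : M} (h : a • x = a • y) : x = y :=
  smul_right_injective M ha h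

private theorem slm_a (P0 : Module.End ℂ M) (u um : M) (κ S : ℂ) (c d : ℕ → ℂ)
    (hd2 : ∀ T, d T = if 2 ≤ T then c (T - 2) else 0)
    (hum : ∀ T, Pi T um = c T • Pi T u)
    (gx : ∀ T : ℕ, 2 ≤ T → (2 * (T : ℂ) * (T + 1)) • Pi T (P0 (Pi (T - 2) u)) =
      ((S + T) * ((T : ℂ) ^ 2 - κ ^ 2)) • Pi T u)
    (gz : ∀ T : ℕ, (2 * ((T : ℂ) + 1) * (T + 2)) • Pi T (P0 (Pi (T + 2) u)) =
      ((S - T - 2) * (((T : ℂ) + 2) ^ 2 - κ ^ 2)) • Pi T u)
    (gy : ∀ T : ℕ, ((T : ℂ) * (T + 2)) • Pi T (P0 (Pi T u)) = (κ ^ 2 * S) • Pi T u)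
    (gy0 : Pi 0 (P0 (Pi 0 u)) = 0)
    (g7 : ∀ (T : ℕ) (w : M), Pi T (P0 w) = Pi T (P0 (Pi T w)) + Pi T (P0 (Pi (T + 2) w)) +
      (if 2 ≤ T then Pi T (P0 (Pi (T - 2) w)) else 0))
    (g9 : Pi 0 u = 0 ∨ κ = 0)
    (r1 : ∀ T : ℕ, (c (T + 2) * (S - T - 2)) • Pi T u = (c T * (S + T + 2)) • Pi T u)
    (r2 : ∀ T : ℕ, (d T * (S + T) * ((T : ℂ) ^ 2 - κ ^ 2)) • Pi T u =
      (c T * (S - T) * ((T : ℂ) ^ 2 - κ ^ 2)) • Pi T u) (T : ℕ) :
    Pi T (P0 um) = ((S + 2) * c T) • Pi T u := by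
  have hsum : Pi T (P0 um) = c T • Pi T (P0 (Pi T u)) + c (T + 2) • Pi T (P0 (Pi (T + 2) u)) +
      d T • Pi T (P0 (Pi (T - 2) u)) := by
    rw [g7 T um, hum T, hum (T + 2), hd2 T]
    split_ifs with h
    · rw [hum (T - 2)]
      simp only [map_smul]
    · simp only [map_smul, zero_smul]
  have hx : d T • ((2 * (T : ℂ) * (T + 1)) • Pi T (P0 (Pi (T - 2) u))) =
      (d T * (S + T) * ((T : ℂ) ^ 2 - κ ^ 2)) • Pi T u := by
    by_cases h : 2 ≤ T
    · rw [gx T h, smul_smul, mul_assoc]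
    · rw [hd2 T, if_neg h]
      simp only [zero_smul, zero_mul]
  rw [hsum]
  rcases Nat.eq_zero_or_pos T with h0 | h0
  · subst h0
    have hd0 : d 0 = 0 := by rw [hd2 0, if_neg (by omega)]
    rw [gy0, hd0, smul_zero, zero_smul, zero_add, add_zero]
    have h1 := gz 0
    have h2 := r1 0
    rcases g9 with h9 | h9
    · rw [h9, smul_zero] at h1
      have h3 : Pi 0 (P0 (Pi (0 + 2) u)) = 0 := by
        refine (smul_eq_zero.1 h1).resolve_left ?_
        norm_num
      rw [h3, h9, smul_zero, smul_zero]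
    · subst h9
      refine slm_cancel (a := 4) (by norm_num) ?_
      push_cast at h1 h2
      linear_combination (norm := module) (c (0 + 2)) • h1 + (4 : ℂ) • h2
  · have hT : (T : ℂ) ≠ 0 := by exact_mod_cast h0.ne'
    have hT1 : (T : ℂ) + 1 ≠ 0 := by exact_mod_cast Nat.succ_ne_zero T
    have hT2 : (T : ℂ) + 2 ≠ 0 := by exact_mod_cast (Nat.succ_ne_zero (T + 1))
    have hN : 2 * (T : ℂ) * (T + 1) * (T + 2) ≠ 0 := by
      refine mul_ne_zero (mul_ne_zero (mul_ne_zero (by norm_num) hT) hT1) hT2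
    refine slm_cancel hN ?_
    have h1 := gz T
    have h2 := r1 T
    have h3 := r2 T
    have h4 := gy T
    linear_combination (norm := module) ((T : ℂ) + 2) • hx + (2 * ((T : ℂ) + 1) * c T) • h4 +
      ((T : ℂ) * c (T + 2)) • h1 + ((T : ℂ) + 2) • h3 +
      ((T : ℂ) * (((T : ℂ) + 2) ^ 2 - κ ^ 2)) • h2

private theorem slm_b (A P P0 : Module.End ℂ M) (u um : M) (κ S : ℂ) (c d : ℕ → ℂ)
    (hd2 : ∀ T, d T = if 2 ≤ T then c (T - 2) else 0)
    (hum : ∀ T, Pi T um = c T • Pi T u)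
    (g1 : ∀ T l : ℕ, (4 : ℂ) • A (Pi T (P0 (Pi l u))) =
      (4 * κ - (T : ℂ) * (T + 2) + l * (l + 2)) • Pi T (P (Pi l u)))
    (gx : ∀ T : ℕ, 2 ≤ T → (2 * (T : ℂ) * (T + 1)) • Pi T (P0 (Pi (T - 2) u)) =
      ((S + T) * ((T : ℂ) ^ 2 - κ ^ 2)) • Pi T u)
    (gz : ∀ T : ℕ, (2 * ((T : ℂ) + 1) * (T + 2)) • Pi T (P0 (Pi (T + 2) u)) =
      ((S - T - 2) * (((T : ℂ) + 2) ^ 2 - κ ^ 2)) • Pi T u)
    (g2 : ∀ T, Pi T (P u) = -(A (Pi T u)))
    (g3 : ∀ T : ℕ, ((T : ℂ) * (T + 2)) • Pi T (P (Pi T u)) = (κ * S) • A (Pi T u))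
    (g4 : Pi 0 (P (Pi 0 u)) = 0)
    (g6 : ∀ T : ℕ, κ = T → A (Pi T u) = 0 ∧ ∀ l, Pi T (P (Pi l u)) = 0)
    (g7 : ∀ (T : ℕ) (w : M), Pi T (P w) = Pi T (P (Pi T w)) + Pi T (P (Pi (T + 2) w)) +
      (if 2 ≤ T then Pi T (P (Pi (T - 2) w)) else 0))
    (g8 : ∀ T : ℕ, κ = -((T : ℂ) + 2) → Pi T u = 0 ∧ Pi (T - 2) u = 0)
    (g9 : Pi 0 u = 0 ∨ κ = 0)
    (r1 : ∀ T : ℕ, (c (T + 2) * (S - T - 2)) • Pi T u = (c T * (S + T + 2)) • Pi T u)
    (r2 : ∀ T : ℕ, (d T * (S + T) * ((T : ℂ) ^ 2 - κ ^ 2)) • Pi T u =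
      (c T * (S - T) * ((T : ℂ) ^ 2 - κ ^ 2)) • Pi T u) (T : ℕ) :
    Pi T (P um) = c T • A (Pi T u) := by
  have hsum : Pi T (P um) = c T • Pi T (P (Pi T u)) + c (T + 2) • Pi T (P (Pi (T + 2) u)) +
      d T • Pi T (P (Pi (T - 2) u)) := by
    rw [g7 T um, hum T, hum (T + 2), hd2 T]
    split_ifs with h
    · rw [hum (T - 2)]
      simp only [map_smul]
    · simp only [map_smul, zero_smul]
  rw [hsum]
  by_cases hk : κ = T
  · obtain ⟨h1, h2⟩ := g6 T hk
    rw [h1, h2, h2, h2]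
    simp only [smul_zero, add_zero]
  by_cases hk2 : κ = -((T : ℂ) + 2)
  · obtain ⟨h1, h2⟩ := g8 T hk2
    have h3 := g7 T u
    rw [g2 T, h1, h2] at h3
    simp only [map_zero, neg_zero, ite_self, add_zero, zero_add] at h3
    rw [h1, h2, ← h3]
    simp only [map_zero, smul_zero, add_zero]
  have hTk : (T : ℂ) - κ ≠ 0 := fun h => hk (by linear_combination -h)
  have hTk2 : (T : ℂ) + 2 + κ ≠ 0 := fun h => hk2 (by linear_combination h)
  have hz : (2 * ((T : ℂ) + 1) * (T + 2)) • Pi T (P (Pi (T + 2) u)) =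
      ((S - T - 2) * ((T : ℂ) + 2 - κ)) • A (Pi T u) := by
    have h1 := g1 T (T + 2)
    have h2 := congrArg A (gz T)
    rw [map_smul, map_smul] at h2
    refine slm_cancel (a := 4 * ((T : ℂ) + 2 + κ)) (mul_ne_zero (by norm_num) hTk2) ?_
    push_cast at h1
    linear_combination (norm := module) (-(2 * ((T : ℂ) + 1) * (T + 2))) • h1 + (4 : ℂ) • h2
  have hx : d T • ((2 * (T : ℂ) * (T + 1)) • Pi T (P (Pi (T - 2) u))) =
      (-(d T * (S + T) * ((T : ℂ) + κ))) • A (Pi T u) := by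
    by_cases h : 2 ≤ T
    · have h1 := g1 T (T - 2)
      have h2 := congrArg A (gx T h)
      rw [map_smul, map_smul] at h2
      refine slm_cancel (a := -(4 * ((T : ℂ) - κ)))
        (neg_ne_zero.2 (mul_ne_zero (by norm_num) hTk)) ?_
      rw [Nat.cast_sub h] at h1
      push_cast at h1
      linear_combination (norm := module) (-(d T * (2 * (T : ℂ) * (T + 1)))) • h1 + (4 * d T) • h2
    · rw [hd2 T, if_neg h]
      simp only [zero_smul, zero_mul, neg_zero]
  have hr1 := congrArg A (r1 T)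
  rw [map_smul, map_smul] at hr1
  have hr2 : (d T * (S + T) * ((T : ℂ) + κ)) • A (Pi T u) =
      (c T * (S - T) * ((T : ℂ) + κ)) • A (Pi T u) := by
    have h1 := congrArg A (r2 T)
    rw [map_smul, map_smul] at h1
    refine slm_cancel hTk ?_
    linear_combination (norm := module) h1
  rcases Nat.eq_zero_or_pos T with h0 | h0
  · subst h0
    have hd0 : d 0 = 0 := by rw [hd2 0, if_neg (by omega)]
    have h9 : Pi 0 u = 0 := by
      rcases g9 with h9 | h9
      · exact h9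
      · exfalso
        apply hk
        rw [h9]
        norm_num
    rw [h9, map_zero, smul_zero] at hz
    have h3 : Pi 0 (P (Pi (0 + 2) u)) = 0 := by
      refine (smul_eq_zero.1 hz).resolve_left ?_
      norm_num
    rw [g4, hd0, h3, h9]
    simp only [map_zero, smul_zero, add_zero]
  · have hT : (T : ℂ) ≠ 0 := by exact_mod_cast h0.ne'
    have hT1 : (T : ℂ) + 1 ≠ 0 := by exact_mod_cast Nat.succ_ne_zero T
    have hT2 : (T : ℂ) + 2 ≠ 0 := by exact_mod_cast (Nat.succ_ne_zero (T + 1))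
    have hN : 2 * (T : ℂ) * (T + 1) * (T + 2) ≠ 0 := by
      refine mul_ne_zero (mul_ne_zero (mul_ne_zero (by norm_num) hT) hT1) hT2
    refine slm_cancel hN ?_
    have h4 := g3 T
    linear_combination (norm := module) ((T : ℂ) + 2) • hx + (2 * ((T : ℂ) + 1) * c T) • h4 +
      ((T : ℂ) * c (T + 2)) • hz - ((T : ℂ) + 2) • hr2 +
      ((T : ℂ) * ((T : ℂ) + 2 - κ)) • hr1

/-- weights of the isotypic components of type `T` -/
private theorem slm_wt (hS : CW.SlS e f h e' f' h' Pi) (T : ℕ) (w : M) (κ : ℂ)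
    (hw : (h - h') w = κ • w) (hk : ∀ j : ℕ, j ≤ T → κ ≠ (T : ℂ) - 2 * j) : Pi T w = 0 := by
  by_contra h0
  have h1 : (h - h') (Pi T w) = κ • Pi T w := by
    have h2 := hS.p4 (h - h') (by simp) T
    have h3 := LinearMap.congr_fun h2 w
    change (h - h') (Pi T w) = Pi T ((h - h') w) at h3
    rw [h3, hw, map_smul]
  obtain ⟨j, hj, hj2⟩ := hS.p6 T w κ h1 h0
  exact hk j hj hj2

private theorem slm_Pp (hS : CW.SlS e f h e' f' h' Pi) (v : M) (κ : ℂ)
    (hv : (h - h') v = κ • v) : (h - h') ((e + f') v) = (κ + 2) • (e + f') v := by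
  have a1 := LinearMap.congr_fun hS.he v
  have a2 := LinearMap.congr_fun hS.hf' v
  have a3 := LinearMap.congr_fun (hS.cm h (by simp) f' (by simp)) v
  have a4 := LinearMap.congr_fun (hS.cm e (by simp) h' (by simp)) v
  have a5 := congrArg (e + f') hv
  simp only [LinearMap.sub_apply, LinearMap.add_apply, Module.End.mul_apply, map_add, map_sub,
    map_smul, LinearMap.smul_apply, LinearMap.neg_apply] at a1 a2 a3 a4 a5 ⊢
  linear_combination (norm := module) a1 - a2 + a3 + a4 + a5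

private theorem slm_Pm (hS : CW.SlS e f h e' f' h' Pi) (v : M) (κ : ℂ)
    (hv : (h - h') v = κ • v) : (h - h') ((f + e') v) = (κ - 2) • (f + e') v := by
  have a1 := LinearMap.congr_fun hS.hf v
  have a2 := LinearMap.congr_fun hS.he' v
  have a3 := LinearMap.congr_fun (hS.cm h (by simp) e' (by simp)) v
  have a4 := LinearMap.congr_fun (hS.cm f (by simp) h' (by simp)) v
  have a5 := congrArg (f + e') hv
  simp only [LinearMap.sub_apply, LinearMap.add_apply, Module.End.mul_apply, map_add, map_sub,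
    map_smul, LinearMap.smul_apply, LinearMap.neg_apply] at a1 a2 a3 a4 a5 ⊢
  linear_combination (norm := module) a1 - a2 + a3 + a4 + a5

private theorem slm_p7 (hS : CW.SlS e f h e' f' h' Pi) {x y : Module.End ℂ M}
    (hx : x ∈ ({e, f, h, e', f', h'} : Set (Module.End ℂ M)))
    (hy : y ∈ ({e, f, h, e', f', h'} : Set (Module.End ℂ M))) (T : ℕ) (w : M) :
    Pi T ((x + y) w) = Pi T ((x + y) (Pi T w)) + Pi T ((x + y) (Pi (T + 2) w)) +
      (if 2 ≤ T then Pi T ((x + y) (Pi (T - 2) w)) else 0) := by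
  have h1 := hS.p7 x hx T w
  have h2 := hS.p7 y hy T w
  simp only [LinearMap.add_apply, map_add]
  rw [h1, h2]
  split_ifs
  · abel
  · abel

/-- the coefficients -/
private def slC (q : ℕ) (S : ℂ) (T : ℕ) : ℂ :=
  if q ≤ T ∧ Even (T - q) then
    ∏ i ∈ Finset.range ((T - q) / 2), (S + (q + 2 * i : ℕ) + 2) / (S - (q + 2 * i : ℕ) - 2)
  else 0

private theorem slC_q (q : ℕ) (S : ℂ) (m : ℕ) : slC q S (q + 2 * m) =
    ∏ i ∈ Finset.range m, (S + (q + 2 * i : ℕ) + 2) / (S - (q + 2 * i : ℕ) - 2) := by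
  unfold slC
  rw [if_pos ⟨Nat.le_add_right _ _, by rw [Nat.add_sub_cancel_left]; exact even_two_mul m⟩,
    Nat.add_sub_cancel_left, Nat.mul_div_cancel_left _ (by norm_num)]

private theorem slC_succ (q : ℕ) (S : ℂ) (hne : ∀ l : ℕ, S ≠ (l : ℂ) + 2) (m : ℕ) :
    slC q S (q + 2 * m + 2) * (S - (q + 2 * m : ℕ) - 2) =
      slC q S (q + 2 * m) * (S + (q + 2 * m : ℕ) + 2) := by
  have h1 : q + 2 * m + 2 = q + 2 * (m + 1) := by ring
  rw [h1, slC_q, slC_q, Finset.prod_range_succ]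
  have h2 : S - (q + 2 * m : ℕ) - 2 ≠ 0 := by
    intro h
    exact hne (q + 2 * m) (by linear_combination h)
  field_simp

private theorem slC_norm (q : ℕ) (S : ℂ) (hneg : S.re < 0) (T : ℕ) : ‖slC q S T‖ ≤ 1 := by
  unfold slC
  split_ifs with h
  · rw [norm_prod]
    refine Finset.prod_le_one (fun i _ => norm_nonneg _) fun i _ => ?_
    rw [norm_div]
    have hre : (0 : ℝ) ≤ ((q + 2 * i : ℕ) : ℝ) := Nat.cast_nonneg _
    have hle : ‖S + (q + 2 * i : ℕ) + 2‖ ≤ ‖S - (q + 2 * i : ℕ) - 2‖ := by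
      rw [← sq_le_sq₀ (norm_nonneg _) (norm_nonneg _), ← Complex.normSq_eq_norm_sq,
        ← Complex.normSq_eq_norm_sq, Complex.normSq_apply, Complex.normSq_apply]
      simp only [Complex.add_re, Complex.sub_re, Complex.add_im, Complex.sub_im,
        Complex.natCast_re, Complex.natCast_im, Complex.re_ofNat, Complex.im_ofNat]
      nlinarith [mul_nonneg hre (neg_nonneg.2 hneg.le)]
    exact div_le_one_of_le₀ hle (norm_nonneg _)
  · rw [norm_zero]
    exact zero_le_one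

theorem slm_bdd (hS : CW.SlS e f h e' f' h' Pi) (u : M) (κ S : ℂ) (hH : (h - h') u = κ • u)
    (hp : (e + f') u = -((e - f') u)) (hm : (f + e') u = (f - e') u)
    (h0 : (h + h') u = (S - 2) • u) (hneg : S.re < 0) :
    ∃ (c : ℕ → ℂ) (um : M), (∀ T, ‖c T‖ ≤ 1) ∧ (∀ T, Pi T um = c T • Pi T u) ∧
      (h - h') um = κ • um ∧ (e + f') um = (e - f') um ∧ (f + e') um = -((f - e') um) ∧
      (h + h') um = (S + 2) • um ∧
      ∀ T, Pi T u ≠ 0 → c T = 0 → ∃ l0 p r : ℕ, S = -(l0 : ℂ) ∧ l0 ≤ T ∧ 1 ≤ p ∧ 1 ≤ r ∧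
        (l0 : ℂ) = κ + 2 * p ∧ (l0 : ℂ) = -κ + 2 * r := by
  have hne : ∀ l : ℕ, S ≠ (l : ℂ) + 2 := by
    intro l hl
    have h1 : S.re = (l : ℝ) + 2 := by
      rw [hl]
      simp
    have h2 : (0 : ℝ) ≤ (l : ℝ) := Nat.cast_nonneg l
    linarith
  by_cases hu : ∀ T, Pi T u = 0
  · refine ⟨fun _ => 1, 0, ?_, ?_, ?_, ?_, ?_, ?_, ?_⟩
    · intro T
      rw [norm_one]
    · intro T
      rw [hu T, map_zero, smul_zero]
    · rw [map_zero, smul_zero]
    · rw [map_zero, map_zero]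
    · rw [map_zero, map_zero, neg_zero]
    · rw [map_zero, smul_zero]
    · intro T hT
      exact absurd (hu T) hT
  push Not at hu
  obtain ⟨T0, hT0⟩ := hu
  have hcomm : ∀ x ∈ ({e - f', f - e', h - h'} : Set (Module.End ℂ M)), ∀ (l : ℕ) (w : M),
      x (Pi l w) = Pi l (x w) := by
    intro x hx l w
    exact LinearMap.congr_fun (hS.p4 x hx l) w
  have hHT : ∀ T, (h - h') (Pi T u) = κ • Pi T u := by
    intro T
    rw [hcomm (h - h') (by simp), hH, map_smul]
  have hpar : ∀ T, Pi T u ≠ 0 → ∃ j : ℕ, j ≤ T ∧ κ = (T : ℂ) - 2 * j := fun T hT =>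
    hS.p6 T u κ (hHT T) hT
  have hidem : ∀ (l : ℕ) (w : M), Pi l (Pi l w) = Pi l w := by
    intro l w
    have h1 := hS.p1 l l
    rw [if_pos rfl] at h1
    exact LinearMap.congr_fun h1 w
  -- the integer `κ`
  obtain ⟨j0, hj0, hκ0⟩ := hpar T0 hT0
  obtain ⟨k, hk⟩ : ∃ k : ℤ, κ = k := ⟨(T0 : ℤ) - 2 * j0, by rw [hκ0]; push_cast; ring⟩
  obtain ⟨q, hq⟩ : ∃ q : ℕ, q = k.natAbs := ⟨_, rfl⟩
  have hform : ∀ T, Pi T u ≠ 0 → ∃ m : ℕ, T = q + 2 * m := by
    intro T hT
    obtain ⟨j, hj, hj2⟩ := hpar T hT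
    rw [hk] at hj2
    have h1 : k = (T : ℤ) - 2 * j := by exact_mod_cast hj2
    have h2 : ∃ m : ℤ, (T : ℤ) = q + 2 * m ∧ 0 ≤ m := by
      rcases le_total 0 k with h3 | h3
      · refine ⟨j, ?_, by positivity⟩
        rw [hq, Int.natCast_natAbs, abs_of_nonneg h3]
        omega
      · refine ⟨(T : ℤ) - j, ?_, by omega⟩
        rw [hq, Int.natCast_natAbs, abs_of_nonpos h3]
        omega
    obtain ⟨m, hm1, hm2⟩ := h2
    exact ⟨m.toNat, by omega⟩
  have hqκ : (q : ℂ) ^ 2 = κ ^ 2 := by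
    have h1 : ((q : ℤ)) ^ 2 = k ^ 2 := by
      rw [hq, Int.natCast_natAbs, sq_abs]
    rw [hk]
    exact_mod_cast h1
  obtain ⟨c, hc⟩ : ∃ c : ℕ → ℂ, c = slC q S := ⟨_, rfl⟩
  obtain ⟨d, hd⟩ : ∃ d : ℕ → ℂ, ∀ T, d T = if 2 ≤ T then c (T - 2) else 0 := ⟨_, fun _ => rfl⟩
  obtain ⟨um, hum0⟩ := hS.p3 fun T => c T • Pi T u
  have hum : ∀ T, Pi T um = c T • Pi T u := by
    intro T
    rw [hum0 T, map_smul, hidem]
  have hr1 : ∀ T : ℕ, (c (T + 2) * (S - T - 2)) • Pi T u = (c T * (S + T + 2)) • Pi T u := by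
    intro T
    by_cases hT : Pi T u = 0
    · rw [hT, smul_zero, smul_zero]
    · obtain ⟨m, rfl⟩ := hform T hT
      rw [hc, slC_succ q S hne m]
  have hr2 : ∀ T : ℕ, (d T * (S + T) * ((T : ℂ) ^ 2 - κ ^ 2)) • Pi T u =
      (c T * (S - T) * ((T : ℂ) ^ 2 - κ ^ 2)) • Pi T u := by
    intro T
    by_cases hT : Pi T u = 0
    · rw [hT, smul_zero, smul_zero]
    · obtain ⟨m, rfl⟩ := hform T hT
      rcases Nat.eq_zero_or_pos m with h1 | h1
      · subst h1
        rw [Nat.mul_zero, Nat.add_zero, hqκ, sub_self, mul_zero, mul_zero]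
      · obtain ⟨m, rfl⟩ : ∃ m', m = m' + 1 := ⟨m - 1, by omega⟩
        have h2 : q + 2 * (m + 1) = q + 2 * m + 2 := by ring
        rw [hd, if_pos (by omega), h2, Nat.add_sub_cancel, hc]
        have h3 := slC_succ q S hne m
        congr 1
        have h4 : ((q + 2 * m + 2 : ℕ) : ℂ) = ((q + 2 * m : ℕ) : ℂ) + 2 := by push_cast; ring
        rw [h4]
        linear_combination (-(((q + 2 * m : ℕ) : ℂ) + 2) ^ 2 + κ ^ 2) * h3
  have hsso := CW.sso hS u κ S hH hp hm h0
  have hgx : ∀ T : ℕ, 2 ≤ T → (2 * (T : ℂ) * (T + 1)) • Pi T ((h + h') (Pi (T - 2) u)) =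
      ((S + T) * ((T : ℂ) ^ 2 - κ ^ 2)) • Pi T u := fun T => (hsso T).1
  have hgz := fun T : ℕ => (hsso T).2.1
  have hgy := fun T : ℕ => (hsso T).2.2.1
  have hg9 : Pi 0 u = 0 ∨ κ = 0 := by
    by_cases h1 : Pi 0 u = 0
    · exact Or.inl h1
    · obtain ⟨j, hj, hj2⟩ := hpar 0 h1
      have h2 : j = 0 := by omega
      right
      rw [hj2, h2]
      simp
  have hA := slm_a (h + h') u um κ S c d hd hum hgx hgz hgy ((hsso 0).2.2.2.2.2 rfl).1
    (slm_p7 hS (by simp) (by simp)) hg9 hr1 hr2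
  have hsmall : ∀ (T l : ℕ), Pi l u ≠ 0 → κ = -((T : ℂ) + 2) → T < l := by
    intro T l hl hkT
    obtain ⟨j, hj, hj2⟩ := hpar l hl
    rw [hkT] at hj2
    have h1 : -((T : ℤ) + 2) = (l : ℤ) - 2 * j := by exact_mod_cast hj2
    omega
  have hsmall' : ∀ (T l : ℕ), Pi l u ≠ 0 → -κ = -((T : ℂ) + 2) → T < l := by
    intro T l hl hkT
    obtain ⟨j, hj, hj2⟩ := hpar l hl
    have hkT' : κ = (T : ℂ) + 2 := by linear_combination -hkT
    rw [hkT'] at hj2
    have h1 : (T : ℤ) + 2 = (l : ℤ) - 2 * j := by exact_mod_cast hj2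
    omega
  have hB := slm_b (e - f') (e + f') (h + h') u um κ S c d hd hum
    (by
      intro T l
      obtain ⟨h1, h2, -⟩ := CW.swe hS l T (Pi l u) (hidem l u) κ (hHT l)
      rw [h2]
      linear_combination (norm := module) h1)
    hgx hgz
    (by
      intro T
      rw [hp, map_neg, hcomm (e - f') (by simp)])
    (fun T => (hsso T).2.2.2.1)
    ((hsso 0).2.2.2.2.2 rfl).2.1
    (by
      intro T hkT
      have h1 : ∀ j : ℕ, j ≤ T → κ + 2 ≠ (T : ℂ) - 2 * j := by
        intro j _ h2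
        rw [hkT] at h2
        have h3 : (T : ℤ) + 2 = (T : ℤ) - 2 * j := by exact_mod_cast h2
        omega
      constructor
      · have h2 := (CW.swe_wt hS T (Pi T u) (hidem T u) κ (hHT T))
        rw [← h2.2.2.1]
        exact slm_wt hS T _ _ h2.1 h1
      · intro l
        exact slm_wt hS T _ _ (slm_Pp hS _ κ (hHT l)) h1)
    (slm_p7 hS (by simp) (by simp))
    (by
      intro T hkT
      constructor
      · by_contra h1
        have h2 := hsmall T T h1 hkT
        omega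
      · by_contra h1
        have h2 := hsmall T (T - 2) h1 hkT
        omega)
    hg9 hr1 hr2
  have hsq : (-κ) ^ 2 = κ ^ 2 := by ring
  have hC := slm_b (-(f - e')) (f + e') (h + h') u um (-κ) S c d hd hum
    (by
      intro T l
      obtain ⟨-, -, h1, h2, -⟩ := CW.swe hS l T (Pi l u) (hidem l u) κ (hHT l)
      rw [LinearMap.neg_apply, h2]
      linear_combination (norm := module) -h1)
    (by rw [hsq]; exact hgx) (by rw [hsq]; exact hgz)
    (by
      intro T
      rw [hm, LinearMap.neg_apply, neg_neg, hcomm (f - e') (by simp)])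
    (by
      intro T
      rw [(hsso T).2.2.2.2.1, LinearMap.neg_apply]
      module)
    ((hsso 0).2.2.2.2.2 rfl).2.2
    (by
      intro T hkT
      have h1 : ∀ j : ℕ, j ≤ T → κ - 2 ≠ (T : ℂ) - 2 * j := by
        intro j hj h2
        have hkT' : κ = -(T : ℂ) := by linear_combination -hkT
        rw [hkT'] at h2
        have h3 : -(T : ℤ) - 2 = (T : ℤ) - 2 * j := by exact_mod_cast h2
        omega
      constructor
      · have h2 := (CW.swe_wt hS T (Pi T u) (hidem T u) κ (hHT T))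
        rw [LinearMap.neg_apply, ← h2.2.2.2.1, neg_eq_zero]
        exact slm_wt hS T _ _ h2.2.1 h1
      · intro l
        exact slm_wt hS T _ _ (slm_Pm hS _ κ (hHT l)) h1)
    (slm_p7 hS (by simp) (by simp))
    (by
      intro T hkT
      constructor
      · by_contra h1
        have h2 := hsmall' T T h1 hkT
        omega
      · by_contra h1
        have h2 := hsmall' T (T - 2) h1 hkT
        omega)
    (by
      rcases hg9 with h1 | h1
      · exact Or.inl h1
      · exact Or.inr (by rw [h1, neg_zero]))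
    hr1 (by rw [hsq]; exact hr2)
  have hext : ∀ x y : M, (∀ T, Pi T x = Pi T y) → x = y := by
    intro x y hxy
    have h1 := hS.p2 (x - y) fun T => by rw [map_sub, hxy T, sub_self]
    exact sub_eq_zero.1 h1
  refine ⟨c, um, fun T => by rw [hc]; exact slC_norm q S hneg T, hum, ?_, ?_, ?_, ?_, ?_⟩
  · apply hext
    intro T
    rw [← hcomm (h - h') (by simp), hum, map_smul, map_smul, hHT, hum, smul_comm]
  · apply hext
    intro T
    rw [hB T, ← hcomm (e - f') (by simp), hum, map_smul]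
  · apply hext
    intro T
    rw [hC T, map_neg, ← hcomm (f - e') (by simp), hum, map_smul, LinearMap.neg_apply, smul_neg]
  · apply hext
    intro T
    rw [hA T, map_smul, hum, smul_smul]
  · intro T hT hcT
    obtain ⟨m, rfl⟩ := hform T hT
    rw [hc, slC_q, Finset.prod_eq_zero_iff] at hcT
    obtain ⟨i, hi, hi2⟩ := hcT
    rw [Finset.mem_range] at hi
    have h1 : S + (q + 2 * i : ℕ) + 2 = 0 := by
      rcases div_eq_zero_iff.1 hi2 with h1 | h1
      · exact h1
      · exact absurd (by linear_combination h1) (hne (q + 2 * i))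
    rcases le_total 0 k with h3 | h3
    · have h4 : κ = q := by
        have h5 : (q : ℤ) = k := by rw [hq, Int.natCast_natAbs, abs_of_nonneg h3]
        rw [hk, ← h5]
        norm_cast
      refine ⟨q + 2 * i + 2, i + 1, q + i + 1, ?_, by omega, by omega, by omega, ?_, ?_⟩
      · push_cast at h1 ⊢
        linear_combination h1
      · rw [h4]
        push_cast
        ring
      · rw [h4]
        push_cast
        ring
    · have h4 : κ = -(q : ℂ) := by
        have h5 : (q : ℤ) = -k := by rw [hq, Int.natCast_natAbs, abs_of_nonpos h3]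
        have h6 : k = -(q : ℤ) := by omega
        rw [hk, h6]
        push_cast
        rfl
      refine ⟨q + 2 * i + 2, q + i + 1, i + 1, ?_, by omega, by omega, by omega, ?_, ?_⟩
      · push_cast at h1 ⊢
        linear_combination h1
      · rw [h4]
        push_cast
        ring
      · rw [h4]
        push_cast
        ring

end

end Pool.Agent.Work.MP_dd0ddf_al.AR
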