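import Pool.Agent.Work.MP_dd0ddf_al.CW.Slp

/-!
# Block R6 of MP_dd0ddf_al (archimedean part), module SLp: `CW.slp` with bounded coefficients

PROOF.  Copy the proof of `CW.slp` (CW/Slp.lean; its private lemmas have to be copied too).  There the coefficients are products of factors
(l+2-l0)(l+2+κ) / ((l+2-κ)(l+2+l0)), l = l0 + 2i, with κ real, l0 = κ + 2p = -κ + 2r, so |κ| < l0; as 0 < l+2-l0 ≤ l+2-κ and 0 < l+2+κ ≤ l+2+l0 every factor has norm ≤ 1, so ‖c T‖ ≤ 1.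
-/

set_option linter.unusedSectionVars false

namespace Pool.Agent.Work.MP_dd0ddf_al.AR

open scoped SchwartzMap Matrix.Norms.Elementwise ComplexConjugate ContDiff Topology
open Matrix MeasureTheory Filter Asymptotics

noncomputable section

variable {M : Type*} [AddCommGroup M] [Module ℂ M] {e f h e' f' h' : Module.End ℂ M}
  {Pi : ℕ → Module.End ℂ M}

theorem slp_bdd (hS : CW.SlS e f h e' f' h' Pi) (u : M) (κ S : ℂ) (hH : (h - h') u = κ • u)
    (hp : (e + f') u = -((e - f') u)) (hm : (f + e') u = (f - e') u)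
    (h0 : (h + h') u = (S - 2) • u) (l0 p r : ℕ) (hl : S = -(l0 : ℂ)) (hp1 : 1 ≤ p) (hr1 : 1 ≤ r)
    (h1 : (l0 : ℂ) = κ + 2 * p) (h2 : (l0 : ℂ) = -κ + 2 * r) (hz : ∀ T < l0, Pi T u = 0) :
    ∃ (c : ℕ → ℂ) (up : M), (∀ T, ‖c T‖ ≤ 1) ∧
      (∀ T, Pi T up = c T • ((e - f') ^ p) (Pi T u)) ∧
      (h - h') up = (l0 : ℂ) • up ∧ (e + f') up = -((e - f') up) ∧ (f + e') up = (f - e') up ∧
      (h + h') up = (-κ - 2) • up ∧ (u ≠ 0 → up ≠ 0) :=
  CW.slpB hS u κ S hH hp hm h0 l0 p r hl hp1 hr1 h1 h2 hz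

end

end Pool.Agent.Work.MP_dd0ddf_al.AR
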