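import Pool.Agent.Work.MP_dd0ddf_al.AR.SBase
import Pool.Agent.Work.MP_dd0ddf_al.AR.SLm
import Pool.Agent.Work.MP_dd0ddf_al.AR.SLp
import Pool.Agent.Work.MP_dd0ddf_al.CW.Sfin

/-!
# Block R6 of MP_dd0ddf_al (archimedean part), module SBet: `CW.sfin` with more information

PROOF.  Copy the proof of `CW.sfin` (CW/Sfin.lean, with its private lemmas), with `slm_bdd`, `slp_bdd` instead of `CW.slm`, `CW.slp` (Re S = (a i - a j + b i - b j + 2).re < 0).
Case um ≠ 0: first alternative (W um ≠ 0 as W is invertible).  Case um = 0: second alternative with q = p ≥ 1, a j - 1 - a i = p (shown in the proof of `sfin`).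
The weights: `swa a i j` is the function `cha a i j (a j - 1) (a i + 1)` of the proof of `sfin`.
-/

set_option linter.unusedSectionVars false

namespace Pool.Agent.Work.MP_dd0ddf_al.AR

open scoped SchwartzMap Matrix.Norms.Elementwise ComplexConjugate ContDiff Topology
open Matrix MeasureTheory Filter Asymptotics

noncomputable section

variable {n : ℕ} {M : Type*} [AddCommGroup M] [Module ℂ M]

private theorem sf_trans {Pi : ℕ → Module.End ℂ M} (p2 : ∀ w, (∀ l, Pi l w = 0) → w = 0)
    {X Y : Module.End ℂ M} (hX : ∀ l, X * Pi l = Pi l * X) (hXY : X * Y = Y * X) {u w : M}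
    {μ : ℂ} (hu : X u = μ • u) {c : ℕ → ℂ} (hw : ∀ l, Pi l w = c l • Y (Pi l u)) :
    X w = μ • w := by
  rw [← sub_eq_zero]
  apply p2
  intro l
  have h1 : Pi l (X w) = X (Pi l w) :=
    (congrArg (fun T : Module.End ℂ M => T w) (hX l)).symm
  have h2 : X (Y (Pi l u)) = Y (X (Pi l u)) :=
    congrArg (fun T : Module.End ℂ M => T (Pi l u)) hXY
  have h3 : X (Pi l u) = Pi l (X u) := congrArg (fun T : Module.End ℂ M => T u) (hX l)
  rw [map_sub, h1, map_smul, hw l, map_smul, h2, h3, hu, map_smul, map_smul]
  module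

private theorem sf_pm {P Q : Module.End ℂ M} {x : M} {α β : ℂ} (h1 : (P - Q) x = α • x)
    (h2 : (P + Q) x = β • x) :
    P x = ((α + β) / 2) • x ∧ Q x = ((β - α) / 2) • x := by
  have e1 : P x - Q x = α • x := h1
  have e2 : P x + Q x = β • x := h2
  constructor
  · have e3 : P x = (1 / 2 : ℂ) • ((P x - Q x) + (P x + Q x)) := by module
    rw [e3, e1, e2]
    module
  · have e3 : Q x = (1 / 2 : ℂ) • ((P x + Q x) - (P x - Q x)) := by module
    rw [e3, e1, e2]
    module

private theorem sf_z1 {P Q : Module.End ℂ M} {x : M} (h : (P + Q) x = (P - Q) x) : Q x = 0 := by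
  have e1 : P x + Q x = P x - Q x := h
  have e3 : Q x = (1 / 2 : ℂ) • ((P x + Q x) - (P x - Q x)) := by module
  rw [e3, e1, sub_self, smul_zero]

private theorem sf_z2 {P Q : Module.End ℂ M} {x : M} (h : (P + Q) x = -((P - Q) x)) :
    P x = 0 := by
  have e1 : P x + Q x = -(P x - Q x) := h
  have e3 : P x = (1 / 2 : ℂ) • ((P x + Q x) + (P x - Q x)) := by module
  rw [e3, e1, neg_add_cancel, smul_zero]

private def cha (a : Fin n → ℂ) (i j : Fin n) (x y : ℂ) : Fin n → ℂ :=
  fun q => if q = i then x else if q = j then y else a q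

private theorem cha_i (a : Fin n → ℂ) (i j : Fin n) (x y : ℂ) : cha a i j x y i = x := by
  unfold cha
  rw [if_pos rfl]

private theorem cha_j (a : Fin n → ℂ) {i j : Fin n} (h : i ≠ j) (x y : ℂ) :
    cha a i j x y j = y := by
  unfold cha
  rw [if_neg h.symm, if_pos rfl]

private theorem cha_q (a : Fin n → ℂ) {i j q : Fin n} (h : q ≠ i) (h' : q ≠ j) (x y : ℂ) :
    cha a i j x y q = a q := by
  unfold cha
  rw [if_neg h, if_neg h']

private theorem sf_swap {i j : Fin n} (hij : (j : ℕ) = i + 1) {P Q : Fin n} (hPQ : P < Q)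
    (hne : (P, Q) ≠ (i, j)) :
    Equiv.swap i j P < Equiv.swap i j Q ∧ (Equiv.swap i j P, Equiv.swap i j Q) ≠ (i, j) := by
  have hlt : i < j := by
    rw [Fin.lt_def]
    omega
  have hlt' : (P : ℕ) < Q := hPQ
  by_cases h1 : P = i
  · subst h1
    have h2 : Q ≠ j := fun h => hne (by rw [h])
    have h3 : Q ≠ P := ne_of_gt hPQ
    rw [Equiv.swap_apply_left, Equiv.swap_apply_of_ne_of_ne h3 h2]
    have h4 : (Q : ℕ) ≠ j := fun h => h2 (Fin.ext h)
    refine ⟨?_, fun h => ?_⟩
    · rw [Fin.lt_def]
      omega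
    · exact absurd (congrArg Prod.fst h) (ne_of_gt hlt)
  · by_cases h2 : P = j
    · subst h2
      have h3 : Q ≠ P := ne_of_gt hPQ
      have h4 : Q ≠ i := ne_of_gt (hlt.trans hPQ)
      rw [Equiv.swap_apply_right, Equiv.swap_apply_of_ne_of_ne h4 h3]
      refine ⟨hlt.trans hPQ, fun h => ?_⟩
      exact absurd (congrArg Prod.snd h) h3
    · rw [Equiv.swap_apply_of_ne_of_ne h1 h2]
      refine ⟨?_, fun h => absurd (congrArg Prod.fst h) h1⟩
      by_cases h3 : Q = i
      · subst h3
        rw [Equiv.swap_apply_left]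
        exact hPQ.trans hlt
      · by_cases h4 : Q = j
        · subst h4
          rw [Equiv.swap_apply_right]
          have h5 : (P : ℕ) ≠ i := fun h => h1 (Fin.ext h)
          rw [Fin.lt_def]
          omega
        · rw [Equiv.swap_apply_of_ne_of_ne h3 h4]
          exact hPQ

private theorem sf_nsmul {L R : Fin n → Fin n → Module.End ℂ M} {i j : Fin n} {x : M} (c : ℂ)
    (hx : CW.Nst L R i j x) : CW.Nst L R i j (c • x) := by
  intro p q h1 h2
  rw [map_smul, map_smul, (hx p q h1 h2).1, (hx p q h1 h2).2, smul_zero]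
  exact ⟨rfl, rfl⟩

private theorem sf_nE {L R : Fin n → Fin n → Module.End ℂ M} (gg : CW.GG L R) {i j : Fin n}
    (hij : (j : ℕ) = i + 1) {x : M} (hx : CW.Nst L R i j x) :
    CW.Nst L R i j ((L i j - R j i) x) := by
  have hlt : i < j := by
    rw [Fin.lt_def]
    omega
  intro p q hpq hne
  have hpq' : (p : ℕ) < q := hpq
  obtain ⟨hL, hR⟩ := hx p q hpq hne
  constructor
  · have h1 : L p q (L i j x) - L i j (L p q x) =
        ((if q = i then L p j else 0) - (if p = j then L i q else 0) : Module.End ℂ M) x :=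
      congrArg (fun T : Module.End ℂ M => T x) (gg.LL p q i j)
    have h2 : L p q (R j i x) = R j i (L p q x) :=
      congrArg (fun T : Module.End ℂ M => T x) (gg.LR p q j i)
    rw [LinearMap.sub_apply, map_sub, h2, hL, map_zero, sub_zero]
    rw [hL, map_zero, sub_zero, LinearMap.sub_apply] at h1
    rw [h1]
    have h3 : (if q = i then L p j else 0 : Module.End ℂ M) x = 0 := by
      split_ifs with h
      · subst h
        exact (hx p j (hpq.trans hlt) (fun h => absurd (congrArg Prod.fst h) (ne_of_lt hpq))).1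
      · rfl
    have h4 : (if p = j then L i q else 0 : Module.End ℂ M) x = 0 := by
      split_ifs with h
      · subst h
        exact (hx i q (hlt.trans hpq) (fun h => absurd (congrArg Prod.snd h) (ne_of_gt hpq))).1
      · rfl
    rw [h3, h4, sub_self]
  · have h1 : R p q (R j i x) - R j i (R p q x) =
        ((if q = j then R p i else 0) - (if p = i then R j q else 0) : Module.End ℂ M) x :=
      congrArg (fun T : Module.End ℂ M => T x) (gg.RR p q j i)
    have h2 : L i j (R p q x) = R p q (L i j x) :=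
      congrArg (fun T : Module.End ℂ M => T x) (gg.LR i j p q)
    rw [LinearMap.sub_apply, map_sub, ← h2, hR, map_zero, zero_sub]
    rw [hR, map_zero, sub_zero, LinearMap.sub_apply] at h1
    rw [h1]
    have h3 : (if q = j then R p i else 0 : Module.End ℂ M) x = 0 := by
      split_ifs with h
      · subst h
        have h5 : p ≠ i := fun h => hne (by rw [h])
        have h6 : (p : ℕ) ≠ i := fun h => h5 (Fin.ext h)
        have h7 : p < i := by
          rw [Fin.lt_def]
          omega
        exact (hx p i h7 (fun h => absurd (congrArg Prod.fst h) h5)).2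
      · rfl
    have h4 : (if p = i then R j q else 0 : Module.End ℂ M) x = 0 := by
      split_ifs with h
      · subst h
        have h5 : q ≠ j := fun h => hne (by rw [h])
        have h6 : (q : ℕ) ≠ j := fun h => h5 (Fin.ext h)
        have h7 : j < q := by
          rw [Fin.lt_def]
          omega
        exact (hx j q h7 (fun h => absurd (congrArg Prod.fst h) (ne_of_gt hlt))).2
      · rfl
    rw [h3, h4, sub_self, neg_zero]

private theorem sf_nEp {L R : Fin n → Fin n → Module.End ℂ M} (gg : CW.GG L R) {i j : Fin n}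
    (hij : (j : ℕ) = i + 1) {x : M} (hx : CW.Nst L R i j x) (p : ℕ) :
    CW.Nst L R i j (((L i j - R j i) ^ p) x) := by
  induction p with
  | zero => exact hx
  | succ p ih =>
    rw [pow_succ', Module.End.mul_apply]
    exact sf_nE gg hij ih

private theorem sf_id (b : Fin n → ℂ) {i j : Fin n} (hne : i ≠ j) :
    cha b i j (b i) (b j) = b := by
  funext q
  by_cases hqi : q = i
  · subst hqi
    rw [cha_i]
  · by_cases hqj : q = j
    · subst hqj
      rw [cha_j b hne]
    · rw [cha_q b hqi hqj]

theorem sbet {L R : Fin n → Fin n → Module.End ℂ M} (gg : CW.GG L R) (i j : Fin n)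
    (hij : (j : ℕ) = i + 1) {Pi : ℕ → Module.End ℂ M} {W W' : Module.End ℂ M}
    (ks : CW.KS L R i j Pi W W') (a b : Fin n → ℂ) (u : M) (hu0 : u ≠ 0) (hu : CW.HV L R a b u)
    (hneg : (a i - a j + b i - b j + 2).re < 0) :
    ∃ c : ℕ → ℂ, (∀ l, ‖c l‖ ≤ 1) ∧
      ((∃ um : M, (∀ l, Pi l um = c l • Pi l u) ∧ W um ≠ 0 ∧
          CW.HV L R (swa a i j) (swa b i j) (W um)) ∨
        ∃ (up : M) (q : ℕ), 1 ≤ q ∧ a j - 1 - a i = (q : ℂ) ∧
          (∀ l, Pi l up = c l • ((L i j - R j i) ^ q) (Pi l u)) ∧ up ≠ 0 ∧
          CW.HV L R (swa a i j) b up) := by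
  have hlt : i < j := by
    rw [Fin.lt_def]
    omega
  have hij' : i ≠ j := ne_of_lt hlt
  have hL : ∀ p, L p p u = a p • u := fun p => (hu.2 p).1
  have hR : ∀ p, R p p u = b p • u := fun p => (hu.2 p).2
  have he : L i j u = 0 := (hu.1 i j hlt).1
  have he' : R i j u = 0 := (hu.1 i j hlt).2
  have hNu : CW.Nst L R i j u := fun p q hpq _ => hu.1 p q hpq
  have hNPi : ∀ l, CW.Nst L R i j (Pi l u) := (ks.nst u).1 hNu
  have q1 : (L i i - L j j - (R i i - R j j)) u = (a i - a j - (b i - b j)) • u := by
    simp only [LinearMap.sub_apply, hL, hR]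
    module
  have q2 : (L i j + R j i) u = -((L i j - R j i) u) := by
    simp only [LinearMap.sub_apply, LinearMap.add_apply, he]
    module
  have q3 : (L j i + R i j) u = (L j i - R i j) u := by
    simp only [LinearMap.sub_apply, LinearMap.add_apply, he']
    module
  have q4 : (L i i - L j j + (R i i - R j j)) u = (a i - a j + b i - b j + 2 - 2) • u := by
    simp only [LinearMap.sub_apply, LinearMap.add_apply, hL, hR]
    module
  have q5 : ∀ l : ℕ, a i - a j + b i - b j + 2 ≠ (l : ℂ) + 2 := by
    intro l hl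
    have h1 := congrArg Complex.re hl
    have h2 : (0 : ℝ) ≤ l := Nat.cast_nonneg l
    simp only [Complex.add_re, Complex.sub_re, Complex.natCast_re, Complex.re_ofNat] at h1 hneg
    linarith
  obtain ⟨c, um, hcb, hc, hH, hE, hF, h0, hlast⟩ := CW.slmB ks.sl u _ _ q1 q2 q3 q4 q5
  have hcb1 := hcb hneg
  by_cases hum : um = 0
  · -- the left reflected vector
    obtain ⟨T, hT⟩ : ∃ T, Pi T u ≠ 0 := by
      by_contra h
      push Not at h
      exact hu0 (ks.sl.p2 u h)
    have hcz : ∀ T, Pi T u ≠ 0 → c T = 0 := by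
      intro T hT
      have h1 := hc T
      rw [hum, map_zero] at h1
      rcases smul_eq_zero.1 h1.symm with h2 | h2
      · exact h2
      · exact absurd h2 hT
    obtain ⟨l0, p, r, hS, hl0T, hp1, hr1, hk1, hk2⟩ := hlast T hT (hcz T hT)
    have hz : ∀ T' < l0, Pi T' u = 0 := by
      intro T' hT'
      by_contra hne
      obtain ⟨l0', _, _, hS', hl0', _⟩ := hlast T' hne (hcz T' hne)
      rw [hS] at hS'
      have h1 : (l0 : ℂ) = l0' := neg_inj.1 hS'
      have h2 : l0 = l0' := Nat.cast_injective h1
      omega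
    obtain ⟨c', up, hcb', hc', hH', hE', hF', h0', hup⟩ :=
      CW.slpB ks.sl u _ _ q1 q2 q3 q4 l0 p r hS hp1 hr1 hk1 hk2 hz
    have eup : L i j up = 0 := sf_z2 hE'
    have eup' : R i j up = 0 := sf_z1 hF'
    obtain ⟨hh, hh'⟩ := sf_pm hH' h0'
    have cE1 : (L i i + L j j) * (L i j - R j i) = (L i j - R j i) * (L i i + L j j) := by
      have h1 := gg.LL i i i j
      have h2 := gg.LL j j i j
      rw [if_pos rfl, if_neg hij'] at h1
      rw [if_neg hij'.symm, if_pos rfl] at h2
      have h3 := gg.LR i i j i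
      have h4 := gg.LR j j j i
      rw [sub_eq_iff_eq_add] at h1 h2
      rw [add_mul, mul_sub, mul_sub, sub_mul, mul_add, mul_add, h1, h2, h3, h4]
      abel
    have cE2 : (R i i + R j j) * (L i j - R j i) = (L i j - R j i) * (R i i + R j j) := by
      have h1 := gg.RR i i j i
      have h2 := gg.RR j j j i
      rw [if_neg hij', if_pos rfl] at h1
      rw [if_pos rfl, if_neg hij'.symm] at h2
      have h3 := gg.LR i j i i
      have h4 := gg.LR i j j j
      rw [sub_eq_iff_eq_add] at h1 h2
      rw [add_mul, mul_sub, mul_sub, sub_mul, mul_add, mul_add, h1, h2, h3, h4]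
      abel
    have cE3 : ∀ q, q ≠ i → q ≠ j → L q q * (L i j - R j i) = (L i j - R j i) * L q q := by
      intro q hqi hqj
      have h1 := gg.LL q q i j
      rw [if_neg hqi, if_neg hqj, sub_self, sub_eq_zero] at h1
      rw [mul_sub, sub_mul, h1, gg.LR q q j i]
    have cE4 : ∀ q, q ≠ i → q ≠ j → R q q * (L i j - R j i) = (L i j - R j i) * R q q := by
      intro q hqi hqj
      have h1 := gg.RR q q j i
      rw [if_neg hqj, if_neg hqi, sub_self, sub_eq_zero] at h1
      rw [mul_sub, sub_mul, h1, ← gg.LR i j q q]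
    have pc : ∀ {X : Module.End ℂ M}, X * (L i j - R j i) = (L i j - R j i) * X →
        X * (L i j - R j i) ^ p = (L i j - R j i) ^ p * X := fun {X} h =>
      (show Commute X (L i j - R j i) from h).pow_right p
    have s1 : (L i i + L j j) up = (a i + a j) • up := by
      refine sf_trans ks.sl.p2 (fun l => (ks.cas l).1) (pc cE1) (u := u) ?_ hc'
      rw [LinearMap.add_apply, hL, hL]
      module
    have s2 : (R i i + R j j) up = (b i + b j) • up := by
      refine sf_trans ks.sl.p2 (fun l => (ks.cas l).2) (pc cE2) (u := u) ?_ hc'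
      rw [LinearMap.add_apply, hR, hR]
      module
    obtain ⟨t1, t2⟩ := sf_pm hh s1
    obtain ⟨t3, t4⟩ := sf_pm hh' s2
    have hl0 : (l0 : ℂ) = -(a i - a j + b i - b j + 2) := by
      rw [hS, neg_neg]
    have hNup : CW.Nst L R i j up := by
      rw [ks.nst]
      intro l
      rw [hc' l]
      exact sf_nsmul _ (sf_nEp gg hij (hNPi l) p)
    have hfin : ∀ B : Fin n → ℂ, B = cha b i j (b i) (b j) →
        CW.HV L R (swa a i j) B up → CW.HV L R (swa a i j) b up := by
      intro B hB h
      rw [hB, sf_id b hij'] at h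
      exact h
    refine ⟨c', hcb', Or.inr ⟨up, p, hp1, ?_, hc', hup hu0, hfin _ rfl ?_⟩⟩
    · have h2 : (2 : ℂ) * (a j - 1 - a i) = 2 * p := by
        linear_combination hk1 - hl0
      exact mul_left_cancel₀ two_ne_zero h2
    change CW.HV L R (cha a i j (a j - 1) (a i + 1)) (cha b i j (b i) (b j)) up
    refine ⟨?_, ?_⟩
    · intro P Q hPQ
      by_cases h1 : (P, Q) = (i, j)
      · have h2 : P = i := congrArg Prod.fst h1
        have h3 : Q = j := congrArg Prod.snd h1
        rw [h2, h3]
        exact ⟨eup, eup'⟩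
      · exact hNup P Q hPQ h1
    · intro q
      by_cases hqi : q = i
      · subst hqi
        rw [cha_i, cha_i, t1, t3]
        constructor
        · congr 1
          rw [hl0]
          ring
        · congr 1
          rw [hl0]
          ring
      · by_cases hqj : q = j
        · subst hqj
          rw [cha_j a hij', cha_j b hij', t2, t4]
          constructor
          · congr 1
            rw [hl0]
            ring
          · congr 1
            rw [hl0]
            ring
        · rw [cha_q a hqi hqj, cha_q b hqi hqj]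
          exact ⟨sf_trans ks.sl.p2 (fun l => (ks.car q l hqi hqj).1) (pc (cE3 q hqi hqj))
            (hL q) hc', sf_trans ks.sl.p2 (fun l => (ks.car q l hqi hqj).2)
            (pc (cE4 q hqi hqj)) (hR q) hc'⟩
  · -- the right reflected vector
    have fum' : R j i um = 0 := sf_z1 hE
    have fum : L j i um = 0 := sf_z2 hF
    obtain ⟨hh, hh'⟩ := sf_pm hH h0
    have hc1 : ∀ l, Pi l um = c l • (1 : Module.End ℂ M) (Pi l u) := hc
    have s1 : (L i i + L j j) um = (a i + a j) • um := by
      refine sf_trans ks.sl.p2 (fun l => (ks.cas l).1) (Y := 1) (by rw [mul_one, one_mul])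
        (u := u) ?_ hc1
      rw [LinearMap.add_apply, hL, hL]
      module
    have s2 : (R i i + R j j) um = (b i + b j) • um := by
      refine sf_trans ks.sl.p2 (fun l => (ks.cas l).2) (Y := 1) (by rw [mul_one, one_mul])
        (u := u) ?_ hc1
      rw [LinearMap.add_apply, hR, hR]
      module
    obtain ⟨t1, t2⟩ := sf_pm hh s1
    obtain ⟨t3, t4⟩ := sf_pm hh' s2
    have hNum : CW.Nst L R i j um := by
      rw [ks.nst]
      intro l
      rw [hc l]
      exact sf_nsmul _ (hNPi l)
    have hWL : ∀ P Q, ∃ d : ℂ, (P = Q → d = 1) ∧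
        L P Q (W um) = d • W (L (Equiv.swap i j P) (Equiv.swap i j Q) um) := by
      intro P Q
      obtain ⟨d, hd0, hd1, hd⟩ := ks.cl (Equiv.swap i j P) (Equiv.swap i j Q)
      refine ⟨d⁻¹, fun h => ?_, ?_⟩
      · rw [hd1 (by rw [h]), inv_one]
      · rw [Equiv.swap_apply_self, Equiv.swap_apply_self] at hd
        have h1 : W (L (Equiv.swap i j P) (Equiv.swap i j Q) um) = d • L P Q (W um) :=
          congrArg (fun T : Module.End ℂ M => T um) hd
        rw [h1, smul_smul, inv_mul_cancel₀ hd0, one_smul]
    have hWR : ∀ P Q, ∃ d : ℂ, (P = Q → d = 1) ∧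
        R P Q (W um) = d • W (R (Equiv.swap i j P) (Equiv.swap i j Q) um) := by
      intro P Q
      obtain ⟨d, hd0, hd1, hd⟩ := ks.cr (Equiv.swap i j P) (Equiv.swap i j Q)
      refine ⟨d⁻¹, fun h => ?_, ?_⟩
      · rw [hd1 (by rw [h]), inv_one]
      · rw [Equiv.swap_apply_self, Equiv.swap_apply_self] at hd
        have h1 : W (R (Equiv.swap i j P) (Equiv.swap i j Q) um) = d • R P Q (W um) :=
          congrArg (fun T : Module.End ℂ M => T um) hd
        rw [h1, smul_smul, inv_mul_cancel₀ hd0, one_smul]
    have hWL1 : ∀ P, L P P (W um) = W (L (Equiv.swap i j P) (Equiv.swap i j P) um) := by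
      intro P
      obtain ⟨d, h1, h2⟩ := hWL P P
      rw [h2, h1 rfl, one_smul]
    have hWR1 : ∀ P, R P P (W um) = W (R (Equiv.swap i j P) (Equiv.swap i j P) um) := by
      intro P
      obtain ⟨d, h1, h2⟩ := hWR P P
      rw [h2, h1 rfl, one_smul]
    refine ⟨c, hcb1, Or.inl ⟨um, hc, ?_, ?_, ?_⟩⟩
    · intro h
      apply hum
      have h1 : W' (W um) = um := congrArg (fun T : Module.End ℂ M => T um) ks.ww'
      rw [← h1, h, map_zero]
    · intro P Q hPQ
      obtain ⟨d, _, h1⟩ := hWL P Q
      obtain ⟨d', _, h1'⟩ := hWR P Q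
      by_cases h2 : (P, Q) = (i, j)
      · have h3 : P = i := congrArg Prod.fst h2
        have h4 : Q = j := congrArg Prod.snd h2
        subst h3 h4
        rw [Equiv.swap_apply_left, Equiv.swap_apply_right] at h1 h1'
        rw [h1, h1', fum, fum', map_zero, smul_zero, smul_zero]
        exact ⟨rfl, rfl⟩
      · obtain ⟨h3, h4⟩ := sf_swap hij hPQ h2
        obtain ⟨h5, h6⟩ := hNum _ _ h3 h4
        rw [h1, h1', h5, h6, map_zero, smul_zero, smul_zero]
        exact ⟨rfl, rfl⟩
    · intro q
      change L q q (W um) = cha a i j (a j - 1) (a i + 1) q • W um ∧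
        R q q (W um) = cha b i j (b j - 1) (b i + 1) q • W um
      rw [hWL1, hWR1]
      by_cases hqi : q = i
      · subst hqi
        rw [cha_i, cha_i, Equiv.swap_apply_left, t2, t4, map_smul, map_smul]
        constructor
        · congr 1
          ring
        · congr 1
          ring
      · by_cases hqj : q = j
        · subst hqj
          rw [cha_j a hij', cha_j b hij', Equiv.swap_apply_right, t1, t3, map_smul, map_smul]
          constructor
          · congr 1
            ring
          · congr 1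
            ring
        · rw [cha_q a hqi hqj, cha_q b hqi hqj, Equiv.swap_apply_of_ne_of_ne hqi hqj]
          have h1 : L q q um = a q • um :=
            sf_trans ks.sl.p2 (fun l => (ks.car q l hqi hqj).1) (Y := 1)
              (by rw [mul_one, one_mul]) (hL q) hc1
          have h2 : R q q um = b q • um :=
            sf_trans ks.sl.p2 (fun l => (ks.car q l hqi hqj).2) (Y := 1)
              (by rw [mul_one, one_mul]) (hR q) hc1
          rw [h1, h2, map_smul, map_smul]
          exact ⟨rfl, rfl⟩

end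

end Pool.Agent.Work.MP_dd0ddf_al.AR
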