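import Pool.Agent.Work.MP_dd0ddf_al.AR.SBase
import Pool.Agent.Work.MP_dd0ddf_al.AR.SRel
import Pool.Agent.Work.MP_dd0ddf_al.CW.Defs

/-!
# Block R6 of MP_dd0ddf_al (archimedean part), module SCbe: `CBE` in terms of the dual of `YK π`

PROOF.  (to) x = u.comp (YK π).subtype: growth = CBE.bound, x ≠ 0 by CBE.ne, (mL i j x)(y) = x(y ∘ Lo i j) (signs cancel, `yL_apply`), so HV is CBE.nil and CBE.wt.
(of) extend x to a linear functional u on P →L[ℂ] ℂ (`LinearMap.exists_extend`); on YK π it is x, and l ∘ Lo i j ∈ YK π for l ∈ YK π (`YK_LR` in AR/KDx).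
-/

set_option linter.unusedSectionVars false

namespace Pool.Agent.Work.MP_dd0ddf_al.AR

open scoped SchwartzMap Matrix.Norms.Elementwise ComplexConjugate ContDiff Topology
open Matrix MeasureTheory Filter Asymptotics

noncomputable section

variable {n : ℕ} {P : Type*} [AddCommGroup P] [Module ℂ P] [UniformSpace P] [IsUniformAddGroup P]
  [ContinuousSMul ℂ P] [PolynormableSpace ℂ P] [T2Space P] [CompleteSpace P]
  [FirstCountableTopology P]


private theorem mL_val (π : GLn n →* (P →L[ℂ] P)) (d : Mat n → P →L[ℂ] P) (hd : Der π d)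
    (i j : Fin n) (x : MY π) (y : YK π) :
    (mL π d i j x) y = x ⟨(y : P →L[ℂ] ℂ).comp (Lo d i j), (YK_LR π d hd i j y.2).1⟩ := by
  have h1 : (mL π d i j x) y = -(-(x (yo π (Lo d i j) y))) := by
    change -(x (-(yo π (Lo d i j) y))) = _
    rw [map_neg]
  rw [h1, neg_neg]
  congr 1
  exact Subtype.ext (yo_apply (fun l hl => (YK_LR π d hd i j hl).1) y)

private theorem mR_val (π : GLn n →* (P →L[ℂ] P)) (d : Mat n → P →L[ℂ] P) (hd : Der π d)
    (i j : Fin n) (x : MY π) (y : YK π) :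
    (mR π d i j x) y = x ⟨(y : P →L[ℂ] ℂ).comp (Ro d i j), (YK_LR π d hd i j y.2).2⟩ := by
  have h1 : (mR π d i j x) y = -(-(x (yo π (Ro d i j) y))) := by
    change -(x (-(yo π (Ro d i j) y))) = _
    rw [map_neg]
  rw [h1, neg_neg]
  congr 1
  exact Subtype.ext (yo_apply (fun l hl => (YK_LR π d hd i j hl).2) y)

theorem cbe_to (π : GLn n →* (P →L[ℂ] P)) (d : Mat n → P →L[ℂ] P) (hd : Der π d)
    (u : (P →L[ℂ] ℂ) →ₗ[ℂ] ℂ) (a b : Fin n → ℂ) (hu : CBE π d u a b) :
    ∃ x : MY π, x ≠ 0 ∧ Pgr π x ∧ CW.HV (mL π d) (mR π d) a b x := by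
  let x : MY π :=
    { toFun := fun l => u (l : P →L[ℂ] ℂ)
      map_add' := fun l m => map_add u _ _
      map_smul' := fun c l => map_smul u c _ }
  have hx : ∀ l : YK π, x l = u (l : P →L[ℂ] ℂ) := fun l => rfl
  refine ⟨x, ?_, ?_, ?_⟩
  · obtain ⟨l, hl, hne⟩ := hu.ne
    intro h0
    apply hne
    have h1 := congrArg (fun z : MY π => z ⟨l, hl⟩) h0
    exact h1
  · intro p hp hK
    by_cases hp0 : ∃ v, p v ≠ 0
    · obtain ⟨v0, hv0⟩ := hp0
      obtain ⟨C, M, hCM⟩ := hu.bound p hp hK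
      refine ⟨C, M, fun D l hl c hc => ?_⟩
      have hc0 : 0 ≤ c := by
        have h1 : 0 < p v0 := lt_of_le_of_ne (apply_nonneg p v0) (Ne.symm hv0)
        have h2 := le_trans (norm_nonneg _) (hc v0)
        by_contra hcc
        have h3 : c * p v0 < 0 := mul_neg_of_neg_of_pos (not_le.mp hcc) h1
        linarith
      exact hCM D l hl c hc0 hc
    · have hp1 : ∀ v, p v = 0 := fun v => by
        by_contra h
        exact hp0 ⟨v, h⟩
      refine ⟨0, 0, fun D l hl c hc => ?_⟩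
      have h1 : (l : P →L[ℂ] ℂ) = 0 := by
        ext v
        have h2 := hc v
        rw [hp1 v, mul_zero] at h2
        simpa using h2
      rw [hx, h1, map_zero]
      simp
  · refine ⟨fun p q hpq => ⟨?_, ?_⟩, fun p => ⟨?_, ?_⟩⟩
    · refine LinearMap.ext fun y => ?_
      rw [mL_val π d hd]
      exact (hu.nil p q hpq y y.2).1
    · refine LinearMap.ext fun y => ?_
      rw [mR_val π d hd]
      exact (hu.nil p q hpq y y.2).2
    · refine LinearMap.ext fun y => ?_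
      rw [mL_val π d hd]
      exact (hu.wt p y y.2).1
    · refine LinearMap.ext fun y => ?_
      rw [mR_val π d hd]
      exact (hu.wt p y y.2).2

theorem cbe_of (π : GLn n →* (P →L[ℂ] P)) (d : Mat n → P →L[ℂ] P) (hd : Der π d)
    (a b : Fin n → ℂ) (x : MY π) (h0 : x ≠ 0) (hg : Pgr π x)
    (hx : CW.HV (mL π d) (mR π d) a b x) :
    ∃ u : (P →L[ℂ] ℂ) →ₗ[ℂ] ℂ, CBE π d u a b := by
  obtain ⟨u, hu⟩ := LinearMap.exists_extend (p := YK π)
    ({ toFun := fun l => x l
       map_add' := fun l m => map_add x _ _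
       map_smul' := fun c l => map_smul x c _ } : YK π →ₗ[ℂ] ℂ)
  have hux : ∀ l (hl : l ∈ YK π), u l = x ⟨l, hl⟩ := fun l hl =>
    congrArg (fun z : YK π →ₗ[ℂ] ℂ => z ⟨l, hl⟩) hu
  obtain ⟨hn, hw⟩ := hx
  refine ⟨u, ⟨?_, ?_, ?_, ?_⟩⟩
  · intro p hp hK
    obtain ⟨C, M, hCM⟩ := hg p hp hK
    refine ⟨C, M, fun D l hl c _ hc => ?_⟩
    have hlY : l ∈ YK π := mem_YK.mpr ⟨D, hl⟩
    rw [hux l hlY]
    exact hCM D ⟨l, hlY⟩ hl c hc
  · intro i j hij l hl
    have h1 := congrArg (fun z : MY π => z ⟨l, hl⟩) (hn i j hij).1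
    have h2 := congrArg (fun z : MY π => z ⟨l, hl⟩) (hn i j hij).2
    simp only [mL_val π d hd, mR_val π d hd] at h1 h2
    refine ⟨?_, ?_⟩
    · rw [hux _ (YK_LR π d hd i j hl).1]
      exact h1
    · rw [hux _ (YK_LR π d hd i j hl).2]
      exact h2
  · intro i l hl
    have h1 := congrArg (fun z : MY π => z ⟨l, hl⟩) (hw i).1
    have h2 := congrArg (fun z : MY π => z ⟨l, hl⟩) (hw i).2
    simp only [mL_val π d hd, mR_val π d hd] at h1 h2
    refine ⟨?_, ?_⟩
    · rw [hux _ (YK_LR π d hd i i hl).1, hux l hl]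
      exact h1
    · rw [hux _ (YK_LR π d hd i i hl).2, hux l hl]
      exact h2
  · by_contra hne
    apply h0
    refine LinearMap.ext fun y => ?_
    by_contra hy
    apply hne
    refine ⟨y, y.2, ?_⟩
    rw [hux _ y.2]
    exact hy

end

end Pool.Agent.Work.MP_dd0ddf_al.AR
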