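import Pool.Agent.Work.MP_dd0ddf_al.AR.SBase

/-!
# Block R6 of MP_dd0ddf_al (archimedean part), module SLoc: locality of vector operators

Notation: E = e - f', F = f - e', H = h - h', P = e + f', Q = f + e', Z = h + h'.
Relations: [H,E]=2E, [H,F]=-2F, [E,F]=H, [E,P]=0, [F,P]=-Z, [H,P]=2P, [E,Z]=-2P, [F,Z]=2Q, [H,Z]=0, [E,Q]=Z, [F,Q]=0, [H,Q]=-2Q.
C = cs2 E F H = H²+2H+4FE commutes with E, F, H; z = H Z + 2 F P + 2 E Q commutes with E, F, H, hence with C.
[C,P] = 4HP - 4ZE,  [C,[C,P]] = 8(CP + PC) - 16 E z;   [C,[C,Q]] = 8(CQ + QC) - 16 F z;   [C,[C,Z]] = 8(CZ + ZC) - 16 H z   (z commutes with E, F, H).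
(All these are identities in the associative algebra generated by E, F, H, P, Q, Z with the relations above: prove them by expanding, `noncomm_ring` after rewriting every product into a normal form, or
`linear_combination (norm := noncomm_ring) ...` with the relations multiplied from the left and from the right.  If an ordering differs by a constant, check it with care.)
PROOF.  Let X be P, Q or Z, K = E z, F z or H z (K commutes with C, so pr l K pr m = K pr l pr m = 0 for l ≠ m by com and mul).  Multiply [C,[C,X]] = C²X - 2CXC + XC² by pr l from the left and pr m from the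
right: with c = l(l+2), c' = m(m+2) (C pr m = c' pr m; pr l C = C pr l = c pr l by com): (c - c')² pr l X pr m = 8 (c + c') pr l X pr m.
(c-c')² - 8(c+c') = ((x-y)²-4)((x+y)²-4) with x = l+1, y = m+1, which is not 0 if |l-m| is not 0 or 2 (x+y ≥ 3 if l ≠ m; if l = m+1, m = 0 or l=0, m=1: x + y = 3, (x-y)² = 1, fine).  So pr l X pr m = 0.
For X = E, F, H: X commutes with C and pr l X pr m = X pr l pr m = 0 for l ≠ m.  Finally e = (E+P)/2, f' = (P-E)/2, f = (F+Q)/2, e' = (Q-F)/2, h = (H+Z)/2, h' = (Z-H)/2.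
-/

set_option linter.unusedSectionVars false

namespace Pool.Agent.Work.MP_dd0ddf_al.AR

open scoped SchwartzMap Matrix.Norms.Elementwise ComplexConjugate ContDiff Topology
open Matrix MeasureTheory Filter Asymptotics

noncomputable section

variable {V : Type*} [AddCommGroup V] [Module ℂ V] {e f h e' f' h' : Module.End ℂ V}
  {pr : ℕ → Module.End ℂ V}


private theorem SLoc_key {A : Type*} [Ring A] {E F H P Q Z : A}
    (hEF : E * F = F * E + H) (hHE : E * H = H * E - 2 • E) (hHF : H * F = F * H - 2 • F)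
    (hPE : P * E = E * P) (hPF : P * F = F * P + Z) (hPH : P * H = H * P - 2 • P)
    (hZE : Z * E = E * Z + 2 • P) (hZF : Z * F = F * Z - 2 • Q) (hZH : Z * H = H * Z)
    (hQE : Q * E = E * Q - Z) (hQF : Q * F = F * Q) (hQH : Q * H = H * Q + 2 • Q)
    (C z : A) (hC : C = H * H + 2 • H + 4 • (F * E))
    (hz : z = H * Z + 2 • (F * P) + 2 • (E * Q)) :
    (C * E = E * C ∧ C * F = F * C ∧ C * H = H * C) ∧
    (z * E = E * z ∧ z * F = F * z ∧ z * H = H * z) ∧
    C * C * P - 2 • (C * P * C) + P * C * C = 8 • (C * P + P * C) - 16 • (E * z) ∧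
    C * C * Q - 2 • (C * Q * C) + Q * C * C = 8 • (C * Q + Q * C) - 16 • (F * z) ∧
    C * C * Z - 2 • (C * Z * C) + Z * C * C = 8 • (C * Z + Z * C) - 16 • (H * z) := by
  have hEF' : ∀ w, E * (F * w) = F * (E * w) + H * w := fun w => by
    rw [← mul_assoc, hEF, add_mul, mul_assoc]
  have hHE' : ∀ w, E * (H * w) = H * (E * w) - 2 • (E * w) := fun w => by
    rw [← mul_assoc, hHE, sub_mul, mul_assoc, smul_mul_assoc]
  have hHF' : ∀ w, H * (F * w) = F * (H * w) - 2 • (F * w) := fun w => by
    rw [← mul_assoc, hHF, sub_mul, mul_assoc, smul_mul_assoc]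
  have hPE' : ∀ w, P * (E * w) = E * (P * w) := fun w => by
    rw [← mul_assoc, hPE, mul_assoc]
  have hPF' : ∀ w, P * (F * w) = F * (P * w) + Z * w := fun w => by
    rw [← mul_assoc, hPF, add_mul, mul_assoc]
  have hPH' : ∀ w, P * (H * w) = H * (P * w) - 2 • (P * w) := fun w => by
    rw [← mul_assoc, hPH, sub_mul, mul_assoc, smul_mul_assoc]
  have hZE' : ∀ w, Z * (E * w) = E * (Z * w) + 2 • (P * w) := fun w => by
    rw [← mul_assoc, hZE, add_mul, mul_assoc, smul_mul_assoc]
  have hZF' : ∀ w, Z * (F * w) = F * (Z * w) - 2 • (Q * w) := fun w => by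
    rw [← mul_assoc, hZF, sub_mul, mul_assoc, smul_mul_assoc]
  have hZH' : ∀ w, Z * (H * w) = H * (Z * w) := fun w => by
    rw [← mul_assoc, hZH, mul_assoc]
  have hQE' : ∀ w, Q * (E * w) = E * (Q * w) - Z * w := fun w => by
    rw [← mul_assoc, hQE, sub_mul, mul_assoc]
  have hQF' : ∀ w, Q * (F * w) = F * (Q * w) := fun w => by
    rw [← mul_assoc, hQF, mul_assoc]
  have hQH' : ∀ w, Q * (H * w) = H * (Q * w) + 2 • (Q * w) := fun w => by
    rw [← mul_assoc, hQH, add_mul, mul_assoc, smul_mul_assoc]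
  subst hC hz
  refine ⟨⟨?_, ?_, ?_⟩, ⟨?_, ?_, ?_⟩, ?_, ?_, ?_⟩ <;>
  · simp only [mul_add, add_mul, mul_sub, sub_mul, mul_smul_comm, smul_mul_assoc, smul_add,
      smul_sub, mul_assoc, hEF, hHE, hHF, hPE, hPF, hPH, hZE, hZF, hZH, hQE, hQF, hQH,
      hEF', hHE', hHF', hPE', hPF', hPH', hZE', hZF', hZH', hQE', hQF', hQH']
    try abel

private theorem SLoc_van {C X K p q : Module.End ℂ V} {c c' : ℂ}
    (hCp : p * C = c • p) (hCq : C * q = c' • q) (hK : K * q = q * K) (hpq : p * q = 0)
    (hrel : C * C * X - 2 • (C * X * C) + X * C * C = 8 • (C * X + X * C) - 16 • K)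
    (hne : (c - c') ^ 2 - 8 * (c + c') ≠ 0) : p * X * q = 0 := by
  have h1 : p * (C * C * X - 2 • (C * X * C) + X * C * C) * q =
      p * (8 • (C * X + X * C) - 16 • K) * q := by rw [hrel]
  have a1 : p * (C * C * X) * q = (c * c) • (p * X * q) := by
    calc p * (C * C * X) * q = (p * C) * C * X * q := by simp only [mul_assoc]
      _ = _ := by
        rw [hCp, smul_mul_assoc, hCp, smul_smul, smul_mul_assoc, smul_mul_assoc]
  have a2 : p * (C * X * C) * q = (c * c') • (p * X * q) := by
    calc p * (C * X * C) * q = (p * C) * X * (C * q) := by simp only [mul_assoc]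
      _ = _ := by
        rw [hCp, hCq, smul_mul_assoc, smul_mul_assoc, mul_smul_comm, smul_smul]
  have a3 : p * (X * C * C) * q = (c' * c') • (p * X * q) := by
    calc p * (X * C * C) * q = p * X * (C * (C * q)) := by simp only [mul_assoc]
      _ = _ := by
        rw [hCq, mul_smul_comm, hCq, smul_smul, mul_smul_comm]
  have a4 : p * (C * X) * q = c • (p * X * q) := by
    calc p * (C * X) * q = (p * C) * X * q := by simp only [mul_assoc]
      _ = _ := by
        rw [hCp, smul_mul_assoc, smul_mul_assoc]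
  have a5 : p * (X * C) * q = c' • (p * X * q) := by
    calc p * (X * C) * q = p * X * (C * q) := by simp only [mul_assoc]
      _ = _ := by
        rw [hCq, mul_smul_comm]
  have a6 : p * K * q = 0 := by
    rw [mul_assoc, hK, ← mul_assoc, hpq, zero_mul]
  have h2 : ((c - c') ^ 2 - 8 * (c + c')) • (p * X * q) = 0 := by
    simp only [mul_add, mul_sub, add_mul, sub_mul, mul_smul_comm, smul_mul_assoc] at h1
    rw [a1, a2, a3, a4, a5, a6] at h1
    have h3 := sub_eq_zero.mpr h1
    rw [← h3]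
    module
  exact (smul_eq_zero.mp h2).resolve_left hne

private theorem SLoc_ne (l m : ℕ) (h1 : l ≠ m) (h2 : l ≠ m + 2) (h3 : m ≠ l + 2) :
    (((l : ℂ) * (l + 2)) - ((m : ℂ) * (m + 2))) ^ 2 -
      8 * (((l : ℂ) * (l + 2)) + ((m : ℂ) * (m + 2))) ≠ 0 := by
  have e : (((l : ℂ) * (l + 2)) - ((m : ℂ) * (m + 2))) ^ 2 -
      8 * (((l : ℂ) * (l + 2)) + ((m : ℂ) * (m + 2))) =
      (((l : ℂ) - m - 2) * ((l : ℂ) - m + 2)) * (((l : ℂ) + m) * ((l : ℂ) + m + 4)) := by ring
  rw [e]
  have b1 : (l : ℂ) - m - 2 ≠ 0 := by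
    intro h
    apply h2
    have : (l : ℂ) = ((m + 2 : ℕ) : ℂ) := by
      push_cast
      linear_combination h
    exact_mod_cast this
  have b2 : (l : ℂ) - m + 2 ≠ 0 := by
    intro h
    apply h3
    have : (m : ℂ) = ((l + 2 : ℕ) : ℂ) := by
      push_cast
      linear_combination -h
    exact_mod_cast this
  have b3 : (l : ℂ) + m ≠ 0 := by
    intro h
    have : ((l + m : ℕ) : ℂ) = 0 := by
      push_cast
      exact h
    have h' : l + m = 0 := by exact_mod_cast this
    omega
  have b4 : (l : ℂ) + m + 4 ≠ 0 := by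
    intro h
    have : ((l + m + 4 : ℕ) : ℂ) = 0 := by
      push_cast
      exact h
    have h' : l + m + 4 = 0 := by exact_mod_cast this
    omega
  exact mul_ne_zero (mul_ne_zero b1 b2) (mul_ne_zero b3 b4)

theorem loc (hr : Rel2 e f h e' f' h') (hp : Prj (e - f') (f - e') (h - h') pr)
    (x : Module.End ℂ V) (hx : x ∈ ({e, f, h, e', f', h'} : Set (Module.End ℂ V))) (l m : ℕ)
    (h1 : l ≠ m) (h2 : l ≠ m + 2) (h3 : m ≠ l + 2) : pr l * x * pr m = 0 := by
  have cm1 := fun x hx y hy => hr.cm x hx y hy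
  have e1 := cm1 e (by simp) e' (by simp)
  have e2 := cm1 e (by simp) f' (by simp)
  have e3 := cm1 e (by simp) h' (by simp)
  have f1 := cm1 f (by simp) e' (by simp)
  have f2 := cm1 f (by simp) f' (by simp)
  have f3 := cm1 f (by simp) h' (by simp)
  have g1 := cm1 h (by simp) e' (by simp)
  have g2 := cm1 h (by simp) f' (by simp)
  have g3 := cm1 h (by simp) h' (by simp)
  have r1 : h * e = e * h + 2 • e := eq_add_of_sub_eq' hr.he
  have r2 : h * f = f * h - 2 • f := by
    rw [sub_eq_add_neg]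
    exact eq_add_of_sub_eq' hr.hf
  have r3 : e * f = f * e + h := eq_add_of_sub_eq' hr.ef
  have r1' : h' * e' = e' * h' + 2 • e' := eq_add_of_sub_eq' hr.he'
  have r2' : h' * f' = f' * h' - 2 • f' := by
    rw [sub_eq_add_neg]
    exact eq_add_of_sub_eq' hr.hf'
  have r3' : e' * f' = f' * e' + h' := eq_add_of_sub_eq' hr.ef'
  obtain ⟨⟨c1, c2, c3⟩, ⟨z1, z2, z3⟩, kP, kQ, kZ⟩ := SLoc_key (E := e - f') (F := f - e')
    (H := h - h') (P := e + f') (Q := f + e') (Z := h + h')
    (by simp only [mul_add, add_mul, mul_sub, sub_mul, e1, e2, e3, f1, f2, f3, g1, g2, g3, r1, r2,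
          r3, r1', r2', r3', smul_add, smul_sub]; abel)
    (by simp only [mul_add, add_mul, mul_sub, sub_mul, e1, e2, e3, f1, f2, f3, g1, g2, g3, r1, r2,
          r3, r1', r2', r3', smul_add, smul_sub]; abel)
    (by simp only [mul_add, add_mul, mul_sub, sub_mul, e1, e2, e3, f1, f2, f3, g1, g2, g3, r1, r2,
          r3, r1', r2', r3', smul_add, smul_sub]; abel)
    (by simp only [mul_add, add_mul, mul_sub, sub_mul, e1, e2, e3, f1, f2, f3, g1, g2, g3, r1, r2,
          r3, r1', r2', r3', smul_add, smul_sub]; abel)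
    (by simp only [mul_add, add_mul, mul_sub, sub_mul, e1, e2, e3, f1, f2, f3, g1, g2, g3, r1, r2,
          r3, r1', r2', r3', smul_add, smul_sub]; abel)
    (by simp only [mul_add, add_mul, mul_sub, sub_mul, e1, e2, e3, f1, f2, f3, g1, g2, g3, r1, r2,
          r3, r1', r2', r3', smul_add, smul_sub]; abel)
    (by simp only [mul_add, add_mul, mul_sub, sub_mul, e1, e2, e3, f1, f2, f3, g1, g2, g3, r1, r2,
          r3, r1', r2', r3', smul_add, smul_sub]; abel)
    (by simp only [mul_add, add_mul, mul_sub, sub_mul, e1, e2, e3, f1, f2, f3, g1, g2, g3, r1, r2,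
          r3, r1', r2', r3', smul_add, smul_sub]; abel)
    (by simp only [mul_add, add_mul, mul_sub, sub_mul, e1, e2, e3, f1, f2, f3, g1, g2, g3, r1, r2,
          r3, r1', r2', r3', smul_add, smul_sub]; abel)
    (by simp only [mul_add, add_mul, mul_sub, sub_mul, e1, e2, e3, f1, f2, f3, g1, g2, g3, r1, r2,
          r3, r1', r2', r3', smul_add, smul_sub]; abel)
    (by simp only [mul_add, add_mul, mul_sub, sub_mul, e1, e2, e3, f1, f2, f3, g1, g2, g3, r1, r2,
          r3, r1', r2', r3', smul_add, smul_sub]; abel)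
    (by simp only [mul_add, add_mul, mul_sub, sub_mul, e1, e2, e3, f1, f2, f3, g1, g2, g3, r1, r2,
          r3, r1', r2', r3', smul_add, smul_sub]; abel)
    (cs2 (e - f') (f - e') (h - h')) _ rfl rfl
  generalize hzd : (h - h') * (h + h') + 2 • ((f - e') * (e + f')) + 2 • ((e - f') * (f + e')) = z
    at *
  generalize hCd : cs2 (e - f') (f - e') (h - h') = C at *
  have hzC : z * C = C * z := by
    rw [← hCd, cs2]
    simp only [mul_add, add_mul, mul_smul_comm, smul_mul_assoc]
    rw [← mul_assoc z (h - h'), z3, mul_assoc (h - h') z, z3, ← mul_assoc (h - h') (h - h'),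
      ← mul_assoc z (f - e'), z2, mul_assoc (f - e') z, z1, ← mul_assoc (f - e') (e - f')]
  have hCC : C * C = C * C := rfl
  have hco := hp.com
  have hca := hp.cas
  rw [hCd] at hco hca
  have hpl : pr l * C = ((l : ℂ) * (l + 2)) • pr l := by
    rw [← hco C rfl l, hca l]
  have hpm : C * pr m = ((m : ℂ) * (m + 2)) • pr m := hca m
  have hlm : pr l * pr m = 0 := by
    rw [hp.mul, if_neg h1]
  have hne := SLoc_ne l m h1 h2 h3
  have vP := SLoc_van hpl hpm (hco ((e - f') * z) (by rw [mul_assoc, hzC, ← mul_assoc, ← c1,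
    mul_assoc]) m) hlm kP hne
  have vQ := SLoc_van hpl hpm (hco ((f - e') * z) (by rw [mul_assoc, hzC, ← mul_assoc, ← c2,
    mul_assoc]) m) hlm kQ hne
  have vZ := SLoc_van hpl hpm (hco ((h - h') * z) (by rw [mul_assoc, hzC, ← mul_assoc, ← c3,
    mul_assoc]) m) hlm kZ hne
  have w : ∀ X, C * X = X * C → pr l * X * pr m = 0 := by
    intro X hX
    rw [mul_assoc, hco X hX.symm m, ← mul_assoc, hlm, zero_mul]
  have wE := w _ c1
  have wF := w _ c2
  have wH := w _ c3
  simp only [mul_add, add_mul, mul_sub, sub_mul] at vP vQ vZ wE wF wH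
  have two : ∀ a b : Module.End ℂ V, a + b = 0 → a - b = 0 → a = 0 ∧ b = 0 := by
    intro a b hab hab'
    have ha : (2 : ℂ) • a = 0 := by
      have : (2 : ℂ) • a = (a + b) + (a - b) := by module
      rw [this, hab, hab', add_zero]
    have ha' : a = 0 := (smul_eq_zero.mp ha).resolve_left two_ne_zero
    refine ⟨ha', ?_⟩
    rw [ha', zero_add] at hab
    exact hab
  have t1 := two _ _ vP wE
  have t2 := two _ _ vQ wF
  have t3 := two _ _ vZ wH
  simp only [Set.mem_insert_iff, Set.mem_singleton_iff] at hx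
  rcases hx with rfl | rfl | rfl | rfl | rfl | rfl
  · exact t1.1
  · exact t2.1
  · exact t3.1
  · exact t2.2
  · exact t1.2
  · exact t3.2

end

end Pool.Agent.Work.MP_dd0ddf_al.AR
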