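import Pool.Agent.Work.MP_dd0ddf_al.AR.SBase

/-!
# Block R6 of MP_dd0ddf_al (archimedean part), module SDec: projectors of a diagonalizable operator

C is a locally finite operator on V (hlf), semisimple (hss: (C - c)² v = 0 implies (C - c) v = 0), and all its eigenvalues are of the form ev l, ev injective.
PROOF.  V_l = ker(C - ev l) (= Module.End.eigenspace C (ev l)) are independent (`Module.End.eigenspaces_iSupIndep`).  They span V: let v ∈ S, S finite dimensional, C-stable.  The minimal polynomial
q of C|_S is a product of linear factors (X - c), c eigenvalues (so c = ev l for some l), and by hss it is squarefree: if (X-c)² divides q, apply q/(X-c)² to w ∈ S: (C-c)²(...)w = 0 so (C-c)(...) w = 0,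
contradiction to minimality.  (Alternatively use `Module.End.iSup_maxGenEigenspace_eq_top` for C|_S (finite dimensional, algebraically closed), and maxGenEigenspace C c = eigenspace C c by hss:
(C - c)^k v = 0 implies (C - c) v = 0 by induction on k.)  So V = ⊕ V_l is an internal direct sum (`DirectSum.isInternal_submodule_of_iSupIndep_of_iSup_eq_top`), pr l = the l-th component:
v = ∑ v_l (finite), pr l v = v_l.
mul, fin, cas: clear.  com: T C = C T implies T V_l ⊆ V_l, hence T pr l = pr l T.  stab: let S' be a C-stable subspace, v ∈ S', v = ∑_{m<N} pr m v; the Lagrange polynomial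
L = ∏_{m<N, m≠l} (C - ev m)/(ev l - ev m) satisfies L v = pr l v (if l < N; otherwise pr l v = 0) and L v ∈ S'.
-/

set_option linter.unusedSectionVars false

namespace Pool.Agent.Work.MP_dd0ddf_al.AR

open scoped SchwartzMap Matrix.Norms.Elementwise ComplexConjugate ContDiff Topology
open Matrix MeasureTheory Filter Asymptotics

noncomputable section

variable {V : Type*} [AddCommGroup V] [Module ℂ V]

private theorem sdec_eval (C : Module.End ℂ V) (q : Polynomial ℂ) {c : ℂ} {x : V}
    (h : C x = c • x) : Polynomial.aeval C q x = q.eval c • x := by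
  have hpow : ∀ n : ℕ, (C ^ n) x = c ^ n • x := by
    intro n
    induction n with
    | zero => rw [pow_zero, pow_zero, one_smul]; rfl
    | succ n ih => rw [pow_succ', Module.End.mul_apply, ih, map_smul, h, smul_smul, pow_succ]
  rw [Polynomial.aeval_eq_sum_range, Polynomial.eval_eq_sum_range, LinearMap.sum_apply,
    Finset.sum_smul]
  refine Finset.sum_congr rfl fun n _ => ?_
  rw [LinearMap.smul_apply, hpow, smul_smul]

private theorem sdec_mem (C : Module.End ℂ V) (q : Polynomial ℂ) {S : Submodule ℂ V}
    (hS : ∀ v ∈ S, C v ∈ S) {x : V} (hx : x ∈ S) : Polynomial.aeval C q x ∈ S := by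
  have hpow : ∀ n : ℕ, (C ^ n) x ∈ S := by
    intro n
    induction n with
    | zero => exact hx
    | succ n ih => rw [pow_succ', Module.End.mul_apply]; exact hS _ ih
  rw [Polynomial.aeval_eq_sum_range, LinearMap.sum_apply]
  refine S.sum_mem fun n _ => ?_
  rw [LinearMap.smul_apply]
  exact S.smul_mem _ (hpow n)

private theorem sdec_top (C : Module.End ℂ V) (ev : ℕ → ℂ)
    (hlf : ∀ v : V, ∃ S : Submodule ℂ V, FiniteDimensional ℂ S ∧ v ∈ S ∧ ∀ w ∈ S, C w ∈ S)
    (hss : ∀ (c : ℂ) (v : V), (C - c • 1) ((C - c • 1) v) = 0 → (C - c • 1) v = 0)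
    (heig : ∀ (c : ℂ) (v : V), C v = c • v → v ≠ 0 → ∃ l : ℕ, c = ev l) :
    ⨆ l, Module.End.eigenspace C (ev l) = ⊤ := by
  rw [eq_top_iff]
  intro v _
  obtain ⟨S, hfd, hv, hS⟩ := hlf v
  have h1 := Module.End.iSup_maxGenEigenspace_eq_top (C.restrict hS)
  have h2 : (⟨v, hv⟩ : S) ∈ ⨆ c : ℂ, Module.End.maxGenEigenspace (C.restrict hS) c := by
    rw [h1]
    trivial
  have hle : (⨆ c : ℂ, Module.End.maxGenEigenspace (C.restrict hS) c) ≤
      (⨆ l, Module.End.eigenspace C (ev l)).comap S.subtype := by
    refine iSup_le fun c => ?_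
    intro x hx
    rw [Module.End.mem_maxGenEigenspace] at hx
    obtain ⟨k, hk⟩ := hx
    have h3 : ∀ (k : ℕ) (y : S), ((((C.restrict hS - c • 1) ^ k) y : S) : V) =
        ((C - c • 1) ^ k) (y : V) := by
      intro k
      induction k with
      | zero => intro y; rfl
      | succ k ih =>
        intro y
        rw [pow_succ, pow_succ, Module.End.mul_apply, Module.End.mul_apply, ih]
        rfl
    have h4 : ((C - c • 1) ^ k) (x : V) = 0 := by
      rw [← h3, hk]
      rfl
    have h5 : ∀ (k : ℕ), ((C - c • 1) ^ (k + 1)) (x : V) = 0 → (C - c • 1) (x : V) = 0 := by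
      intro k
      induction k with
      | zero => intro h; rwa [zero_add, pow_one] at h
      | succ k ih =>
        intro h
        apply ih
        rw [pow_succ', Module.End.mul_apply]
        apply hss
        rw [pow_succ', pow_succ', Module.End.mul_apply, Module.End.mul_apply] at h
        exact h
    have h6 : (C - c • 1) (x : V) = 0 := by
      rcases Nat.eq_zero_or_pos k with hk0 | hk0
      · rw [hk0, pow_zero] at h4
        have h7 : (x : V) = 0 := h4
        rw [h7, map_zero]
      · obtain ⟨m, rfl⟩ := Nat.exists_eq_succ_of_ne_zero hk0.ne'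
        exact h5 m h4
    have h7 : C (x : V) = c • (x : V) := by
      rw [LinearMap.sub_apply, sub_eq_zero] at h6
      exact h6
    rw [Submodule.mem_comap]
    by_cases hx0 : (x : V) = 0
    · change (x : V) ∈ _
      rw [hx0]
      exact Submodule.zero_mem _
    · obtain ⟨l, rfl⟩ := heig c x h7 hx0
      exact Submodule.mem_iSup_of_mem l (Module.End.mem_eigenspace_iff.2 h7)
  exact hle h2

theorem exists_dec (C : Module.End ℂ V) (ev : ℕ → ℂ) (hev : Function.Injective ev)
    (hlf : ∀ v : V, ∃ S : Submodule ℂ V, FiniteDimensional ℂ S ∧ v ∈ S ∧ ∀ w ∈ S, C w ∈ S)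
    (hss : ∀ (c : ℂ) (v : V), (C - c • 1) ((C - c • 1) v) = 0 → (C - c • 1) v = 0)
    (heig : ∀ (c : ℂ) (v : V), C v = c • v → v ≠ 0 → ∃ l : ℕ, c = ev l) :
    ∃ pr : ℕ → Module.End ℂ V, (∀ l m, pr l * pr m = if l = m then pr l else 0) ∧
      (∀ v : V, ∃ N : ℕ, (∀ l, N ≤ l → pr l v = 0) ∧ ∑ l ∈ Finset.range N, pr l v = v) ∧
      (∀ l : ℕ, C * pr l = ev l • pr l) ∧
      (∀ (l : ℕ) (v : V), C v = ev l • v → pr l v = v) ∧
      (∀ T : Module.End ℂ V, T * C = C * T → ∀ l, T * pr l = pr l * T) ∧
      (∀ S : Submodule ℂ V, (∀ v ∈ S, C v ∈ S) → ∀ l, ∀ v ∈ S, pr l v ∈ S) := by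
  classical
  let A : ℕ → Submodule ℂ V := fun l => Module.End.eigenspace C (ev l)
  have hind : iSupIndep A := (Module.End.eigenspaces_iSupIndep C).comp hev
  have htop : iSup A = ⊤ := sdec_top C ev hlf hss heig
  have hint := DirectSum.isInternal_submodule_of_iSupIndep_of_iSup_eq_top hind htop
  let _ := hint.chooseDecomposition
  let pr : ℕ → Module.End ℂ V := fun l =>
    (A l).subtype ∘ₗ DirectSum.component ℂ ℕ (fun i => A i) l ∘ₗ
      (DirectSum.decomposeLinearEquiv A).toLinearMap
  have hpr : ∀ l v, pr l v = (DirectSum.decompose A v l : V) := fun _ _ => rfl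
  have hmem : ∀ l v, pr l v ∈ A l := fun l v => (DirectSum.decompose A v l).2
  have hsame : ∀ l, ∀ v ∈ A l, pr l v = v := fun l v hv =>
    DirectSum.decompose_of_mem_same A hv
  have hne : ∀ l m, l ≠ m → ∀ v ∈ A m, pr l v = 0 := fun l m hlm v hv =>
    DirectSum.decompose_of_mem_ne A hv (Ne.symm hlm)
  have hC : ∀ l, ∀ v ∈ A l, C v = ev l • v := fun l v hv => Module.End.mem_eigenspace_iff.1 hv
  have hfin : ∀ v : V, ∃ N : ℕ, (∀ l, N ≤ l → pr l v = 0) ∧
      ∑ l ∈ Finset.range N, pr l v = v := by
    intro v
    have h1 : ∀ l, (DirectSum.decompose A v).support.sup id + 1 ≤ l → pr l v = 0 := by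
      intro l hl
      rw [hpr]
      have h2 : l ∉ (DirectSum.decompose A v).support := by
        intro h3
        have h4 : id l ≤ (DirectSum.decompose A v).support.sup id := Finset.le_sup h3
        have h5 : l ≤ (DirectSum.decompose A v).support.sup id := h4
        omega
      rw [DFinsupp.notMem_support_iff.1 h2]
      rfl
    refine ⟨(DirectSum.decompose A v).support.sup id + 1, h1, ?_⟩
    conv_rhs => rw [← DirectSum.sum_support_decompose A v]
    symm
    refine Finset.sum_subset ?_ ?_
    · intro l hl
      rw [Finset.mem_range]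
      have h4 : id l ≤ (DirectSum.decompose A v).support.sup id := Finset.le_sup hl
      exact Nat.lt_succ_of_le h4
    · intro l _ hl
      rw [DFinsupp.notMem_support_iff.1 hl]
      rfl
  refine ⟨pr, ?_, hfin, ?_, ?_, ?_, ?_⟩
  · intro l m
    ext v
    rw [Module.End.mul_apply]
    by_cases hlm : l = m
    · rw [if_pos hlm, hlm]
      exact hsame m _ (hmem m v)
    · rw [if_neg hlm]
      exact hne l m hlm _ (hmem m v)
  · intro l
    ext v
    rw [Module.End.mul_apply, LinearMap.smul_apply]
    exact hC l _ (hmem l v)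
  · intro l v hv
    exact hsame l v (Module.End.mem_eigenspace_iff.2 hv)
  · intro T hT l
    ext v
    rw [Module.End.mul_apply, Module.End.mul_apply]
    obtain ⟨N, hN, hsum⟩ := hfin v
    have hTm : ∀ m, ∀ w ∈ A m, T w ∈ A m := by
      intro m w hw
      rw [Module.End.mem_eigenspace_iff]
      have h1 := congrArg (fun Q : Module.End ℂ V => Q w) hT
      simp only [Module.End.mul_apply] at h1
      rw [← h1, hC m w hw, map_smul]
    have h2 : pr l (T v) = ∑ m ∈ Finset.range N, pr l (T (pr m v)) := by
      conv_lhs => rw [← hsum]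
      rw [map_sum, map_sum]
    rw [h2]
    by_cases hl : l < N
    · rw [Finset.sum_eq_single l]
      · exact (hsame l _ (hTm l _ (hmem l v))).symm
      · intro m _ hm
        exact hne l m (Ne.symm hm) _ (hTm m _ (hmem m v))
      · intro h
        exact absurd (Finset.mem_range.2 hl) h
    · rw [hN l (by omega), map_zero]
      symm
      refine Finset.sum_eq_zero fun m hm => ?_
      rw [Finset.mem_range] at hm
      exact hne l m (by omega) _ (hTm m _ (hmem m v))
  · intro S hS l v hv
    obtain ⟨N, hN, hsum⟩ := hfin v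
    by_cases hl : l < N
    · let q : Polynomial ℂ := ∏ m ∈ (Finset.range N).erase l, (Polynomial.X - Polynomial.C (ev m))
      have hq0 : q.eval (ev l) ≠ 0 := by
        rw [Polynomial.eval_prod, Finset.prod_ne_zero_iff]
        intro m hm
        rw [Polynomial.eval_sub, Polynomial.eval_X, Polynomial.eval_C, sub_ne_zero]
        intro h
        exact (Finset.mem_erase.1 hm).1 (hev h).symm
      have hqm : ∀ m ∈ Finset.range N, m ≠ l → q.eval (ev m) = 0 := by
        intro m hm hml
        rw [Polynomial.eval_prod]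
        refine Finset.prod_eq_zero (Finset.mem_erase.2 ⟨hml, hm⟩) ?_
        rw [Polynomial.eval_sub, Polynomial.eval_X, Polynomial.eval_C, sub_self]
      have h1 : Polynomial.aeval C q v = q.eval (ev l) • pr l v := by
        conv_lhs => rw [← hsum]
        rw [map_sum, Finset.sum_eq_single l]
        · exact sdec_eval C q (hC l _ (hmem l v))
        · intro m hm hml
          rw [sdec_eval C q (hC m _ (hmem m v)), hqm m hm hml, zero_smul]
        · intro h
          exact absurd (Finset.mem_range.2 hl) h
      have h2 := sdec_mem C q hS hv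
      rw [h1] at h2
      have h3 := S.smul_mem (q.eval (ev l))⁻¹ h2
      rwa [smul_smul, inv_mul_cancel₀ hq0, one_smul] at h3
    · rw [hN l (by omega)]
      exact S.zero_mem

end

end Pool.Agent.Work.MP_dd0ddf_al.AR
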