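import Pool.Agent.Work.MP_dd0ddf_al.AR.SBase
import Pool.Agent.Work.MP_dd0ddf_al.AR.SSl
import Pool.Agent.Work.MP_dd0ddf_al.AR.SDec

/-!
# Block R6 of MP_dd0ddf_al (archimedean part), module SPrj: projectors on isotypic components

PROOF.  `exists_dec` for C = cs2 E F H, ev l = l(l+2) (injective on natural numbers), hlf from h.lf (cs2 preserves S), hss = h.ss, heig = `eig_nat h`.  All fields of `Prj` except wt are given.
wt: apply `wt_form` to φ ∘ pr l: for v with C v = l(l+2) v: pr l v = v and C (H v) = l(l+2) H v; the hypothesis φ(pr l (H v)) = κ φ(pr l v) is given, and the vector v with φ(pr l v) ≠ 0 can be replaced by pr l v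
(cas, mul).
-/

set_option linter.unusedSectionVars false

namespace Pool.Agent.Work.MP_dd0ddf_al.AR

open scoped SchwartzMap Matrix.Norms.Elementwise ComplexConjugate ContDiff Topology
open Matrix MeasureTheory Filter Asymptotics

noncomputable section

variable {V : Type*} [AddCommGroup V] [Module ℂ V] {E F H : Module.End ℂ V}

theorem exists_prj (h : LfS E F H) : ∃ pr : ℕ → Module.End ℂ V, Prj E F H pr := by
  have hev : Function.Injective (fun l : ℕ => (l : ℂ) * (l + 2)) := by
    intro l m hlm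
    have h1 : (l : ℂ) * (l + 2) = (m : ℂ) * (m + 2) := hlm
    have h2 : l * (l + 2) = m * (m + 2) := by exact_mod_cast h1
    have h3 : (l + 1) * (l + 1) = (m + 1) * (m + 1) := by linarith
    have h4 := Nat.mul_self_inj.1 h3
    omega
  have hlf : ∀ v : V, ∃ S : Submodule ℂ V, FiniteDimensional ℂ S ∧ v ∈ S ∧
      ∀ w ∈ S, cs2 E F H w ∈ S := by
    intro v
    obtain ⟨S, hfd, hv, hS⟩ := h.lf v
    refine ⟨S, hfd, hv, fun w hw => ?_⟩
    have h1 : cs2 E F H w = H (H w) + 2 • H w + 4 • F (E w) := rfl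
    rw [h1]
    exact S.add_mem (S.add_mem (hS _ (hS w hw).2.2).2.2 (S.smul_of_tower_mem 2 (hS w hw).2.2))
      (S.smul_of_tower_mem 4 (hS _ (hS w hw).1).2.1)
  obtain ⟨pr, h1, h2, h3, h4, h5, h6⟩ := exists_dec (cs2 E F H)
    (fun l : ℕ => (l : ℂ) * (l + 2)) hev hlf h.ss
    (fun c v hv h0 => eig_nat h c v hv h0)
  refine ⟨pr, h1, h2, h3, h5, h6, ?_⟩
  intro φ l κ hφ hne
  obtain ⟨v, hv⟩ := hne
  refine wt_form h l (φ ∘ₗ pr l) κ (fun w _ => hφ w) ⟨pr l v, ?_, ?_⟩
  · have e := congrArg (fun T : Module.End ℂ V => T v) (h3 l)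
    exact e
  · have e := congrArg (fun T : Module.End ℂ V => T v) (h1 l l)
    simp only [if_pos, Module.End.mul_apply] at e
    change φ (pr l (pr l v)) ≠ 0
    rw [e]
    exact hv

end

end Pool.Agent.Work.MP_dd0ddf_al.AR
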