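import Pool.Agent.Work.MP_dd0ddf_al.AR.SBase
import Pool.Agent.Work.MP_dd0ddf_al.AR.SPrj
import Pool.Agent.Work.MP_dd0ddf_al.AR.SLoc
import Pool.Agent.Work.MP_dd0ddf_al.CW.Defs

/-!
# Block R6 of MP_dd0ddf_al (archimedean part), module SDual: passing to the dual space

(X.dualMap φ = φ ∘ X, (X * Y).dualMap = Y.dualMap * X.dualMap.)  M = Dual V, operators L = -(l).dualMap etc. again satisfy the same relations.
PROOF.  pr from `exists_prj`.  E = l i j - r j i, F = l j i - r i j, H.
sl: he ... cm: transpose the relations given by gg (for i ≠ j, from hij).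
p1: transpose mul.  p2: φ ∘ pr k = 0 for all k implies φ = 0 since v = ∑ pr k v (fin).
p3: given x : ℕ → M, put w(v) = ∑_{k<N} (x k)(pr k v), N = N(v) from fin (independent of N; e.g. w(v) = ∑ᶠ k, x k (pr k v), or finsum/Finsupp; linear); w(pr k v) = x k (pr k v) by mul.
p4: pr k commutes with E, F, H (com: E, F, H commute with cs2, `cs2_comm`).
p5: (h-h') on M is -H^t, (f-e')(e-f') is F^t E^t = (E F)^t; so the operator is (H² - 2H + 4EF)^t = (cs2 E F H)^t since EF - FE = H; transpose cas and com.
p6: (h-h')(Pi l w) = κ Pi l w means -w(pr l (H v)) = κ w(pr l v) for all v (pr l commutes with H): Prj.wt gives -κ = l - 2j, κ = l - 2(l-j).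
p7: evaluate at v: w(x (pr m v)) (up to sign) and x(pr m v) = ∑_k pr k (x (pr m v)), only k = m, m+2, m-2 contribute (`loc`, fin).
ww, ww': transpose h1, h2.  cl, cr with c = 1: transpose hl, hr.
nst: N = the set of l p q, r p q with p < q, (p,q) ≠ (i,j).  Nst x means x ∘ n = 0 for n ∈ N, i.e. x vanishes on S = span of the ranges of the n ∈ N.  S is stable under E, F, H: n v with [E, n], [F, n], [H, n] ∈ span N
(for n = l p q: [l i j, l p q] = δ_jp l i q - δ_qi l p j, both in N, [l j i, l p q] = δ_ip l j q - δ_qj l p i: p = i: q > j; q = j: p < i; r and l commute; similarly n = r p q; j = i+1 is used), so under cs2, so under pr k (stab).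
Hence x|_S = 0 iff x ∘ pr k|_S = 0 for all k.
car, cas: l q q commutes with E, F, H for q ≠ i, j, and l i i + l j j commutes with E, F, H; use com and transpose.
-/

set_option linter.unusedSectionVars false

namespace Pool.Agent.Work.MP_dd0ddf_al.AR

open scoped SchwartzMap Matrix.Norms.Elementwise ComplexConjugate ContDiff Topology
open Matrix MeasureTheory Filter Asymptotics

noncomputable section

variable {n : ℕ} {V : Type*} [AddCommGroup V] [Module ℂ V]

private theorem dm_mul (A B : Module.End ℂ V) :
    (A * B).dualMap = (B.dualMap * A.dualMap : Module.End ℂ (Module.Dual ℂ V)) := by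
  ext φ v
  rfl

private theorem dm_sub (A B : Module.End ℂ V) :
    (A - B).dualMap = (A.dualMap - B.dualMap : Module.End ℂ (Module.Dual ℂ V)) := by
  ext φ v
  simp [LinearMap.dualMap_apply]

private theorem dm_add (A B : Module.End ℂ V) :
    (A + B).dualMap = (A.dualMap + B.dualMap : Module.End ℂ (Module.Dual ℂ V)) := by
  ext φ v
  simp [LinearMap.dualMap_apply]

private theorem dm_neg (A : Module.End ℂ V) :
    (-A).dualMap = (-A.dualMap : Module.End ℂ (Module.Dual ℂ V)) := by
  ext φ v
  simp [LinearMap.dualMap_apply]

private theorem dm_smul (c : ℂ) (A : Module.End ℂ V) :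
    (c • A).dualMap = (c • A.dualMap : Module.End ℂ (Module.Dual ℂ V)) := by
  ext φ v
  simp [LinearMap.dualMap_apply]

private theorem dm_zero : (0 : Module.End ℂ V).dualMap = (0 : Module.End ℂ (Module.Dual ℂ V)) := by
  ext φ v
  simp [LinearMap.dualMap_apply]

private theorem dm_one : (1 : Module.End ℂ V).dualMap = (1 : Module.End ℂ (Module.Dual ℂ V)) := by
  ext φ v
  rfl

private theorem dm_ite (c : Prop) [Decidable c] (A : Module.End ℂ V) :
    (if c then A else 0).dualMap =
      ((if c then A.dualMap else 0) : Module.End ℂ (Module.Dual ℂ V)) := by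
  split_ifs
  · rfl
  · exact dm_zero

private theorem nn (A B : Module.End ℂ V) :
    ((-A.dualMap) * (-B.dualMap) : Module.End ℂ (Module.Dual ℂ V)) = (B * A).dualMap := by
  ext φ v
  simp [LinearMap.dualMap_apply]

private theorem nr (A B : Module.End ℂ V) :
    ((-A.dualMap) * B.dualMap : Module.End ℂ (Module.Dual ℂ V)) = -(B * A).dualMap := by
  ext φ v
  simp [LinearMap.dualMap_apply]

private theorem rn (A B : Module.End ℂ V) :
    (A.dualMap * (-B.dualMap) : Module.End ℂ (Module.Dual ℂ V)) = -(B * A).dualMap := by
  ext φ v
  simp [LinearMap.dualMap_apply]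

private theorem cs2_dual {E F H : Module.End ℂ V} (h : LfS E F H) :
    ((-H.dualMap) * (-H.dualMap) + 2 • (-H.dualMap) + 4 • ((-F.dualMap) * (-E.dualMap)) :
      Module.End ℂ (Module.Dual ℂ V)) = (cs2 E F H).dualMap := by
  ext φ v
  have h1 := congrArg φ (LinearMap.congr_fun h.ef v)
  simp only [LinearMap.sub_apply, Module.End.mul_apply, map_sub] at h1
  unfold cs2
  rw [show (4 : ℕ) = 2 + 2 from rfl]
  simp only [nn, add_smul, two_smul, LinearMap.add_apply, LinearMap.neg_apply,
    LinearMap.dualMap_apply, Module.End.mul_apply, map_add]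
  linear_combination 4 * h1

private theorem gg_dual {l r : Fin n → Fin n → Module.End ℂ V} (gg : CW.GG l r) :
    CW.GG (fun p q => (-(l p q).dualMap : Module.End ℂ (Module.Dual ℂ V)))
      (fun p q => (-(r p q).dualMap : Module.End ℂ (Module.Dual ℂ V))) := by
  refine ⟨?_, ?_, ?_⟩
  · intro i j k m
    ext φ v
    have h := congrArg φ (LinearMap.congr_fun (gg.LL i j k m) v)
    split_ifs at h ⊢ <;>
      simp only [LinearMap.sub_apply, LinearMap.zero_apply, Module.End.mul_apply, map_sub,
        map_zero, LinearMap.neg_apply, LinearMap.dualMap_apply, nn] at h ⊢ <;>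
      linear_combination -h
  · intro i j k m
    ext φ v
    have h := congrArg φ (LinearMap.congr_fun (gg.RR i j k m) v)
    split_ifs at h ⊢ <;>
      simp only [LinearMap.sub_apply, LinearMap.zero_apply, Module.End.mul_apply, map_sub,
        map_zero, LinearMap.neg_apply, LinearMap.dualMap_apply, nn] at h ⊢ <;>
      linear_combination -h
  · intro i j k m
    show ((-(l i j).dualMap) * (-(r k m).dualMap) : Module.End ℂ (Module.Dual ℂ V)) =
      (-(r k m).dualMap) * (-(l i j).dualMap)
    rw [nn, nn, gg.LR i j k m]

private theorem rel2_of_gg {l r : Fin n → Fin n → Module.End ℂ V} (gg : CW.GG l r)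
    {i j : Fin n} (hij : i ≠ j) :
    Rel2 (l i j) (l j i) (l i i - l j j) (r i j) (r j i) (r i i - r j j) := by
  have hji : j ≠ i := hij.symm
  have a1 := gg.LL i i i j
  have a2 := gg.LL j j i j
  have a3 := gg.LL i i j i
  have a4 := gg.LL j j j i
  have a5 := gg.LL i j j i
  have b1 := gg.RR i i i j
  have b2 := gg.RR j j i j
  have b3 := gg.RR i i j i
  have b4 := gg.RR j j j i
  have b5 := gg.RR i j j i
  simp only [if_true, hij, hji, if_false, sub_zero, zero_sub] at a1 a2 a3 a4 a5 b1 b2 b3 b4 b5
  refine ⟨?_, ?_, ?_, ?_, ?_, ?_, ?_⟩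
  · have : (l i i - l j j) * l i j - l i j * (l i i - l j j) =
        (l i i * l i j - l i j * l i i) - (l j j * l i j - l i j * l j j) := by noncomm_ring
    rw [this, a1, a2, two_smul]
    abel
  · have : (l i i - l j j) * l j i - l j i * (l i i - l j j) =
        (l i i * l j i - l j i * l i i) - (l j j * l j i - l j i * l j j) := by noncomm_ring
    rw [this, a3, a4, two_smul]
    abel
  · exact a5
  · have : (r i i - r j j) * r i j - r i j * (r i i - r j j) =
        (r i i * r i j - r i j * r i i) - (r j j * r i j - r i j * r j j) := by noncomm_ring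
    rw [this, b1, b2, two_smul]
    abel
  · have : (r i i - r j j) * r j i - r j i * (r i i - r j j) =
        (r i i * r j i - r j i * r i i) - (r j j * r j i - r j i * r j j) := by noncomm_ring
    rw [this, b3, b4, two_smul]
    abel
  · exact b5
  · intro x hx y hy
    have c := gg.LR
    simp only [Set.mem_insert_iff, Set.mem_singleton_iff] at hx hy
    rcases hx with rfl | rfl | rfl <;> rcases hy with rfl | rfl | rfl <;>
      (simp only [sub_mul, mul_sub, c] <;> abel)

/-- the subspace spanned by the images of the other raising operators -/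
private def Sn (l r : Fin n → Fin n → Module.End ℂ V) (i j : Fin n) : Submodule ℂ V :=
  Submodule.span ℂ {v | ∃ p q : Fin n, p < q ∧ (p, q) ≠ (i, j) ∧
    ∃ u : V, v = l p q u ∨ v = r p q u}

private theorem nst_iff (l r : Fin n → Fin n → Module.End ℂ V) (i j : Fin n)
    (x : Module.Dual ℂ V) :
    CW.Nst (fun p q => (-(l p q).dualMap : Module.End ℂ (Module.Dual ℂ V)))
      (fun p q => (-(r p q).dualMap : Module.End ℂ (Module.Dual ℂ V))) i j x ↔
      ∀ v ∈ Sn l r i j, x v = 0 := by
  constructor
  · intro h v hv
    induction hv using Submodule.span_induction with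
    | mem v hv =>
      obtain ⟨p, q, hpq, hne, u, hu⟩ := hv
      obtain ⟨h1, h2⟩ := h p q hpq hne
      rcases hu with rfl | rfl
      · have := LinearMap.congr_fun h1 u
        simpa [LinearMap.dualMap_apply] using this
      · have := LinearMap.congr_fun h2 u
        simpa [LinearMap.dualMap_apply] using this
    | zero => exact map_zero x
    | add a b _ _ ha hb => rw [map_add, ha, hb, add_zero]
    | smul c a _ ha => rw [map_smul, ha, smul_zero]
  · intro h p q hpq hne
    constructor
    · ext u
      have := h (l p q u) (Submodule.subset_span ⟨p, q, hpq, hne, u, Or.inl rfl⟩)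
      simpa [LinearMap.dualMap_apply] using this
    · ext u
      have := h (r p q u) (Submodule.subset_span ⟨p, q, hpq, hne, u, Or.inr rfl⟩)
      simpa [LinearMap.dualMap_apply] using this

private theorem ite_mem {S : Submodule ℂ V} {c : Prop} [Decidable c] {A : Module.End ℂ V} {v : V}
    (h : c → A v ∈ S) : (if c then A else 0 : Module.End ℂ V) v ∈ S := by
  split_ifs with hc
  · exact h hc
  · exact S.zero_mem

private theorem Sn_stab {l r : Fin n → Fin n → Module.End ℂ V} (gg : CW.GG l r) {i j : Fin n}
    (hij : (j : ℕ) = i + 1) (a b : Fin n) (ha : a = i ∨ a = j) (hb : b = i ∨ b = j) :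
    ∀ v ∈ Sn l r i j, l a b v ∈ Sn l r i j ∧ r a b v ∈ Sn l r i j := by
  have key1 : ∀ p q : Fin n, p < q → (p, q) ≠ (i, j) → b = p → a < q ∧ (a, q) ≠ (i, j) := by
    intro p q hpq hne hbp
    have hqj : (j : ℕ) < q := by
      have h1 : (p : ℕ) < q := hpq
      rcases hb with h | h
      · have hpi : p = i := by rw [← hbp, h]
        have : (q : ℕ) ≠ j := by
          intro hq
          exact hne (by rw [hpi, Fin.ext hq])
        rw [hpi] at h1
        omega
      · have hpj : p = j := by rw [← hbp, h]
        rw [hpj] at h1
        exact h1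
    constructor
    · rw [Fin.lt_def]
      rcases ha with h | h <;> rw [h] <;> omega
    · intro h
      have := congrArg Prod.snd h
      simp only at this
      rw [this] at hqj
      omega
  have key2 : ∀ p q : Fin n, p < q → (p, q) ≠ (i, j) → a = q → p < b ∧ (p, b) ≠ (i, j) := by
    intro p q hpq hne hbp
    have hpi : (p : ℕ) < i := by
      have h1 : (p : ℕ) < q := hpq
      rcases ha with h | h
      · have hqi : q = i := by rw [← hbp, h]
        rw [hqi] at h1
        exact h1
      · have hqj : q = j := by rw [← hbp, h]
        have : (p : ℕ) ≠ i := by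
          intro hp
          exact hne (by rw [hqj, Fin.ext hp])
        rw [hqj] at h1
        omega
    constructor
    · rw [Fin.lt_def]
      rcases hb with h | h <;> rw [h] <;> omega
    · intro h
      have := congrArg Prod.fst h
      simp only at this
      rw [this] at hpi
      omega
  intro v hv
  induction hv using Submodule.span_induction with
  | mem v hv =>
    obtain ⟨p, q, hpq, hne, u, hu⟩ := hv
    rcases hu with rfl | rfl
    · constructor
      · have h := LinearMap.congr_fun (gg.LL a b p q) u
        simp only [LinearMap.sub_apply, Module.End.mul_apply] at h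
        have h' : l a b (l p q u) = l p q (l a b u) +
            ((if b = p then l a q else 0 : Module.End ℂ V) u -
              (if a = q then l p b else 0 : Module.End ℂ V) u) := by
          rw [← h]
          abel
        rw [h']
        refine Submodule.add_mem _ (Submodule.subset_span ⟨p, q, hpq, hne, _, Or.inl rfl⟩)
          (Submodule.sub_mem _ (ite_mem fun hc => ?_) (ite_mem fun hc => ?_))
        · obtain ⟨h1, h2⟩ := key1 p q hpq hne hc
          exact Submodule.subset_span ⟨a, q, h1, h2, u, Or.inl rfl⟩
        · obtain ⟨h1, h2⟩ := key2 p q hpq hne hc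
          exact Submodule.subset_span ⟨p, b, h1, h2, u, Or.inl rfl⟩
      · have h := LinearMap.congr_fun (gg.LR p q a b) u
        simp only [Module.End.mul_apply] at h
        rw [← h]
        exact Submodule.subset_span ⟨p, q, hpq, hne, _, Or.inl rfl⟩
    · constructor
      · have h := LinearMap.congr_fun (gg.LR a b p q) u
        simp only [Module.End.mul_apply] at h
        rw [h]
        exact Submodule.subset_span ⟨p, q, hpq, hne, _, Or.inr rfl⟩
      · have h := LinearMap.congr_fun (gg.RR a b p q) u
        simp only [LinearMap.sub_apply, Module.End.mul_apply] at h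
        have h' : r a b (r p q u) = r p q (r a b u) +
            ((if b = p then r a q else 0 : Module.End ℂ V) u -
              (if a = q then r p b else 0 : Module.End ℂ V) u) := by
          rw [← h]
          abel
        rw [h']
        refine Submodule.add_mem _ (Submodule.subset_span ⟨p, q, hpq, hne, _, Or.inr rfl⟩)
          (Submodule.sub_mem _ (ite_mem fun hc => ?_) (ite_mem fun hc => ?_))
        · obtain ⟨h1, h2⟩ := key1 p q hpq hne hc
          exact Submodule.subset_span ⟨a, q, h1, h2, u, Or.inr rfl⟩
        · obtain ⟨h1, h2⟩ := key2 p q hpq hne hc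
          exact Submodule.subset_span ⟨p, b, h1, h2, u, Or.inr rfl⟩
  | zero => exact ⟨by rw [map_zero]; exact Submodule.zero_mem _,
      by rw [map_zero]; exact Submodule.zero_mem _⟩
  | add x y _ _ hx hy => exact ⟨by rw [map_add]; exact Submodule.add_mem _ hx.1 hy.1,
      by rw [map_add]; exact Submodule.add_mem _ hx.2 hy.2⟩
  | smul c x _ hx => exact ⟨by rw [map_smul]; exact Submodule.smul_mem _ _ hx.1,
      by rw [map_smul]; exact Submodule.smul_mem _ _ hx.2⟩

private theorem cs_of_comm {E F H T : Module.End ℂ V} (hE : T * E = E * T) (hF : T * F = F * T)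
    (hH : T * H = H * T) : T * cs2 E F H = cs2 E F H * T := by
  unfold cs2
  have h1 : T * (H * H) = H * H * T := by rw [← mul_assoc, hH, mul_assoc, hH, mul_assoc]
  have h2 : T * (F * E) = F * E * T := by rw [← mul_assoc, hF, mul_assoc, hE, mul_assoc]
  rw [mul_add, mul_add, add_mul, add_mul, mul_smul_comm, mul_smul_comm, smul_mul_assoc,
    smul_mul_assoc, h1, h2, hH]

/-- glueing of functionals -/
private theorem glue {E F H : Module.End ℂ V} {pr : ℕ → Module.End ℂ V} (hp : Prj E F H pr)
    (x : ℕ → Module.Dual ℂ V) : ∃ w : Module.Dual ℂ V, ∀ k v, w (pr k v) = x k (pr k v) := by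
  choose N hN hN' using hp.fin
  have key : ∀ v M, N v ≤ M → ∑ k ∈ Finset.range (N v), x k (pr k v) =
      ∑ k ∈ Finset.range M, x k (pr k v) := by
    intro v M hM
    apply Finset.sum_subset (Finset.range_mono hM)
    intro k _ hk
    rw [hN v k (by simpa using hk), map_zero]
  refine ⟨{ toFun := fun v => ∑ k ∈ Finset.range (N v), x k (pr k v)
            map_add' := ?_
            map_smul' := ?_ }, ?_⟩
  · intro u v
    have h1 := key (u + v) (N (u + v) + N u + N v) (by omega)
    have h2 := key u (N (u + v) + N u + N v) (by omega)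
    have h3 := key v (N (u + v) + N u + N v) (by omega)
    rw [h1, h2, h3, ← Finset.sum_add_distrib]
    exact Finset.sum_congr rfl fun k _ => by rw [map_add, map_add]
  · intro c v
    have h1 := key (c • v) (N (c • v) + N v) (by omega)
    have h2 := key v (N (c • v) + N v) (by omega)
    rw [h1, h2, Finset.smul_sum]
    exact Finset.sum_congr rfl fun k _ => by rw [map_smul, map_smul]; rfl
  · intro k v
    have h1 := key (pr k v) (N (pr k v) + k + 1) (by omega)
    show ∑ k' ∈ Finset.range (N (pr k v)), x k' (pr k' (pr k v)) = x k (pr k v)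
    rw [h1, Finset.sum_eq_single k]
    · have := LinearMap.congr_fun (hp.mul k k) v
      rw [if_pos rfl] at this
      rw [← Module.End.mul_apply, this]
    · intro m _ hm
      have := LinearMap.congr_fun (hp.mul m k) v
      rw [if_neg hm] at this
      rw [← Module.End.mul_apply, this]
      simp
    · intro hk
      exfalso
      apply hk
      rw [Finset.mem_range]
      omega

private theorem sep {E F H : Module.End ℂ V} {pr : ℕ → Module.End ℂ V} (hp : Prj E F H pr)
    (w : Module.Dual ℂ V) (v : V) (h : ∀ k, w (pr k v) = 0) : w v = 0 := by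
  obtain ⟨N, _, hN⟩ := hp.fin v
  rw [← hN, map_sum]
  exact Finset.sum_eq_zero fun k _ => h k

/-- the components of `u` if only three of them can be nonzero -/
private theorem three {E F H : Module.End ℂ V} {pr : ℕ → Module.End ℂ V} (hp : Prj E F H pr)
    (w : Module.Dual ℂ V) (u : V) (m : ℕ)
    (h : ∀ k, k ≠ m → k ≠ m + 2 → m ≠ k + 2 → pr k u = 0) :
    w u = w (pr m u) + w (pr (m + 2) u) + (if 2 ≤ m then w (pr (m - 2) u) else 0) := by
  obtain ⟨N, hN0, hN⟩ := hp.fin u
  have h1 : w u = ∑ k ∈ Finset.range (N + m + 3), w (pr k u) := by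
    conv_lhs => rw [← hN]
    rw [map_sum]
    apply Finset.sum_subset (Finset.range_mono (by omega))
    intro k _ hk
    rw [hN0 k (by simpa using hk), map_zero]
  rw [h1]
  by_cases h2 : 2 ≤ m
  · rw [if_pos h2]
    have hs : ∑ k ∈ Finset.range (N + m + 3), w (pr k u) =
        ∑ k ∈ ({m, m + 2, m - 2} : Finset ℕ), w (pr k u) := by
      symm
      apply Finset.sum_subset
      · intro k hk
        simp only [Finset.mem_insert, Finset.mem_singleton] at hk
        rw [Finset.mem_range]
        omega
      · intro k _ hk
        simp only [Finset.mem_insert, Finset.mem_singleton, not_or] at hk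
        rw [h k hk.1 hk.2.1 (by omega), map_zero]
    rw [hs, Finset.sum_insert (by simp; omega), Finset.sum_insert (by simp; omega),
      Finset.sum_singleton, add_assoc]
  · rw [if_neg h2]
    have hs : ∑ k ∈ Finset.range (N + m + 3), w (pr k u) =
        ∑ k ∈ ({m, m + 2} : Finset ℕ), w (pr k u) := by
      symm
      apply Finset.sum_subset
      · intro k hk
        simp only [Finset.mem_insert, Finset.mem_singleton] at hk
        rw [Finset.mem_range]
        omega
      · intro k _ hk
        simp only [Finset.mem_insert, Finset.mem_singleton, not_or] at hk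
        rw [h k hk.1 hk.2 (by omega), map_zero]
    rw [hs, Finset.sum_insert (by simp), Finset.sum_singleton, add_zero]

theorem ks_dual (l r : Fin n → Fin n → Module.End ℂ V) (gg : CW.GG l r) (i j : Fin n)
    (hij : (j : ℕ) = i + 1)
    (h : LfS (l i j - r j i) (l j i - r i j) ((l i i - l j j) - (r i i - r j j)))
    (om om' : Module.End ℂ V) (h1 : om * om' = 1) (h2 : om' * om = 1)
    (hl : ∀ p q, l p q * om = om * l (Equiv.swap i j p) (Equiv.swap i j q))
    (hr : ∀ p q, r p q * om = om * r (Equiv.swap i j p) (Equiv.swap i j q)) :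
    ∃ pr : ℕ → Module.End ℂ V,
      Prj (l i j - r j i) (l j i - r i j) ((l i i - l j j) - (r i i - r j j)) pr ∧
      CW.KS (fun p q => -(l p q).dualMap) (fun p q => -(r p q).dualMap) i j
        (fun k => (pr k).dualMap) om.dualMap om'.dualMap := by
  obtain ⟨pr, hp⟩ := exists_prj h
  have hne : i ≠ j := by
    intro hh
    rw [hh] at hij
    omega
  have hne' : j ≠ i := hne.symm
  have rel := rel2_of_gg gg hne
  have reld := rel2_of_gg (gg_dual gg) hne
  have hcomm := cs2_comm h
  set E := l i j - r j i with hE
  set F := l j i - r i j with hF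
  set H := (l i i - l j j) - (r i i - r j j) with hH
  have cE := hp.com E hcomm.1
  have cF := hp.com F hcomm.2.1
  have cH := hp.com H hcomm.2.2
  have cC := hp.com (cs2 E F H) rfl
  -- the images of E, F, H
  have eE : ((-(l i j).dualMap) - (-(r j i).dualMap) : Module.End ℂ (Module.Dual ℂ V)) =
      -E.dualMap := by
    rw [hE, dm_sub]
    abel
  have eF : ((-(l j i).dualMap) - (-(r i j).dualMap) : Module.End ℂ (Module.Dual ℂ V)) =
      -F.dualMap := by
    rw [hF, dm_sub]
    abel
  have eH : (((-(l i i).dualMap) - (-(l j j).dualMap)) - ((-(r i i).dualMap) - (-(r j j).dualMap)) :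
      Module.End ℂ (Module.Dual ℂ V)) = -H.dualMap := by
    rw [hH, dm_sub, dm_sub, dm_sub]
    abel
  have tr : ∀ T : Module.End ℂ V, (∀ k, T * pr k = pr k * T) → ∀ k,
      ((-T.dualMap) * (pr k).dualMap : Module.End ℂ (Module.Dual ℂ V)) =
        (pr k).dualMap * (-T.dualMap) := by
    intro T hT k
    rw [nr, rn, hT k]
  refine ⟨pr, hp, ?_⟩
  have hsl : CW.SlS (-(l i j).dualMap : Module.End ℂ (Module.Dual ℂ V)) (-(l j i).dualMap)
      ((-(l i i).dualMap) - (-(l j j).dualMap)) (-(r i j).dualMap) (-(r j i).dualMap)
      ((-(r i i).dualMap) - (-(r j j).dualMap)) (fun k => (pr k).dualMap) := by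
    refine ⟨reld.he, reld.hf, reld.ef, reld.he', reld.hf', reld.ef', reld.cm, ?_, ?_, ?_, ?_, ?_,
      ?_, ?_⟩
    · intro a b
      show (pr a).dualMap * (pr b).dualMap = if a = b then (pr a).dualMap else 0
      rw [← dm_mul, hp.mul b a]
      by_cases hab : a = b
      · rw [if_pos hab.symm, if_pos hab, hab]
      · rw [if_neg (Ne.symm hab), if_neg hab, dm_zero]
    · intro w hw
      ext v
      exact sep hp w v fun k => LinearMap.congr_fun (hw k) v
    · intro x
      obtain ⟨w, hw⟩ := glue hp x
      refine ⟨w, fun k => ?_⟩
      ext v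
      exact hw k v
    · intro x hx k
      simp only [Set.mem_insert_iff, Set.mem_singleton_iff] at hx
      rw [eE, eF, eH] at hx
      rcases hx with rfl | rfl | rfl
      · exact tr E cE k
      · exact tr F cF k
      · exact tr H cH k
    · intro k
      rw [eE, eF, eH]
      rw [cs2_dual h, ← dm_mul, ← cC k, hp.cas k, dm_smul]
    · intro k w κ hk hw
      rw [eH] at hk
      have hv : ∃ v, w (pr k v) ≠ 0 := by
        by_contra hcon
        push Not at hcon
        exact hw (by ext v; exact hcon v)
      obtain ⟨m, hm, hκ⟩ := hp.wt w k (-κ) (fun v => by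
        have := LinearMap.congr_fun hk v
        simp only [LinearMap.neg_apply, LinearMap.dualMap_apply, LinearMap.smul_apply,
          smul_eq_mul] at this
        rw [neg_mul, ← this, neg_neg]) hv
      refine ⟨k - m, Nat.sub_le _ _, ?_⟩
      rw [Nat.cast_sub hm]
      linear_combination -hκ
    · have key : ∀ x ∈ ({l i j, l j i, l i i - l j j, r i j, r j i, r i i - r j j} :
          Set (Module.End ℂ V)), ∀ (m : ℕ) (w : Module.Dual ℂ V),
          (pr m).dualMap ((-x.dualMap) w) = (pr m).dualMap ((-x.dualMap) ((pr m).dualMap w)) +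
            (pr m).dualMap ((-x.dualMap) ((pr (m + 2)).dualMap w)) +
            (if 2 ≤ m then (pr m).dualMap ((-x.dualMap) ((pr (m - 2)).dualMap w)) else 0) := by
        intro x hx m w
        ext v
        have h3 := three hp w (x (pr m v)) m (fun k hk1 hk2 hk3 => by
          have := LinearMap.congr_fun (loc rel hp x hx k m hk1 hk2 hk3) v
          simpa [Module.End.mul_apply] using this)
        by_cases h2 : 2 ≤ m
        · rw [if_pos h2] at h3 ⊢
          simp only [LinearMap.add_apply, LinearMap.neg_apply, LinearMap.dualMap_apply]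
          rw [h3]
          ring
        · rw [if_neg h2] at h3 ⊢
          simp only [LinearMap.add_apply, LinearMap.neg_apply, LinearMap.dualMap_apply,
            LinearMap.zero_apply]
          rw [h3]
          ring
      have ed : ∀ A B : Module.End ℂ V, ((-A.dualMap) - (-B.dualMap) :
          Module.End ℂ (Module.Dual ℂ V)) = -(A - B).dualMap := by
        intro A B
        rw [dm_sub]
        abel
      intro x hx m w
      simp only [Set.mem_insert_iff, Set.mem_singleton_iff] at hx
      rw [ed, ed] at hx
      rcases hx with rfl | rfl | rfl | rfl | rfl | rfl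
      · exact key _ (by simp) m w
      · exact key _ (by simp) m w
      · exact key _ (by simp) m w
      · exact key _ (by simp) m w
      · exact key _ (by simp) m w
      · exact key _ (by simp) m w
  refine ⟨hsl, ?_, ?_, ?_, ?_, ?_, ?_, ?_⟩
  · rw [← dm_mul, h2, dm_one]
  · rw [← dm_mul, h1, dm_one]
  · intro p q
    refine ⟨1, one_ne_zero, fun _ => rfl, ?_⟩
    show om.dualMap * (-(l p q).dualMap) = (1 : ℂ) • ((-(l (Equiv.swap i j p)
      (Equiv.swap i j q)).dualMap) * om.dualMap)
    rw [one_smul, rn, nr, hl p q]
  · intro p q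
    refine ⟨1, one_ne_zero, fun _ => rfl, ?_⟩
    show om.dualMap * (-(r p q).dualMap) = (1 : ℂ) • ((-(r (Equiv.swap i j p)
      (Equiv.swap i j q)).dualMap) * om.dualMap)
    rw [one_smul, rn, nr, hr p q]
  · intro x
    have st := Sn_stab gg hij
    have sE : ∀ v ∈ Sn l r i j, E v ∈ Sn l r i j := by
      intro v hv
      rw [hE, LinearMap.sub_apply]
      exact Submodule.sub_mem _ (st i j (Or.inl rfl) (Or.inr rfl) v hv).1
        (st j i (Or.inr rfl) (Or.inl rfl) v hv).2
    have sF : ∀ v ∈ Sn l r i j, F v ∈ Sn l r i j := by
      intro v hv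
      rw [hF, LinearMap.sub_apply]
      exact Submodule.sub_mem _ (st j i (Or.inr rfl) (Or.inl rfl) v hv).1
        (st i j (Or.inl rfl) (Or.inr rfl) v hv).2
    have sH : ∀ v ∈ Sn l r i j, H v ∈ Sn l r i j := by
      intro v hv
      rw [hH, LinearMap.sub_apply, LinearMap.sub_apply, LinearMap.sub_apply]
      exact Submodule.sub_mem _
        (Submodule.sub_mem _ (st i i (Or.inl rfl) (Or.inl rfl) v hv).1
          (st j j (Or.inr rfl) (Or.inr rfl) v hv).1)
        (Submodule.sub_mem _ (st i i (Or.inl rfl) (Or.inl rfl) v hv).2
          (st j j (Or.inr rfl) (Or.inr rfl) v hv).2)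
    have sC : ∀ v ∈ Sn l r i j, cs2 E F H v ∈ Sn l r i j := by
      intro v hv
      unfold cs2
      simp only [LinearMap.add_apply, LinearMap.smul_apply, Module.End.mul_apply]
      exact Submodule.add_mem _ (Submodule.add_mem _ (sH _ (sH _ hv))
        (Submodule.smul_of_tower_mem _ _ (sH _ hv)))
        (Submodule.smul_of_tower_mem _ _ (sF _ (sE _ hv)))
    have sP := hp.stab (Sn l r i j) sC
    rw [nst_iff]
    constructor
    · intro hx k
      rw [nst_iff]
      intro v hv
      exact hx _ (sP k v hv)
    · intro hx v hv
      apply sep hp x v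
      intro k
      have := hx k
      rw [nst_iff] at this
      exact this v hv
  · intro q k hqi hqj
    have e1 : l q q * cs2 E F H = cs2 E F H * l q q := by
      apply cs_of_comm
      · have a := gg.LL q q i j
        have b := gg.LR q q j i
        simp only [hqi, hqj, if_false, sub_zero] at a
        rw [hE, mul_sub, sub_mul, b, sub_eq_zero.mp a]
      · have a := gg.LL q q j i
        have b := gg.LR q q i j
        simp only [hqi, hqj, if_false, sub_zero] at a
        rw [hF, mul_sub, sub_mul, b, sub_eq_zero.mp a]
      · have a := gg.LL q q i i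
        have a' := gg.LL q q j j
        have b := gg.LR q q i i
        have b' := gg.LR q q j j
        simp only [hqi, hqj, if_false, sub_zero] at a a'
        rw [hH, mul_sub, sub_mul, mul_sub, sub_mul, mul_sub, sub_mul, b, b', sub_eq_zero.mp a,
          sub_eq_zero.mp a']
    have e2 : r q q * cs2 E F H = cs2 E F H * r q q := by
      apply cs_of_comm
      · have a := gg.RR q q j i
        have b := gg.LR i j q q
        simp only [hqi, hqj, if_false, sub_zero] at a
        rw [hE, mul_sub, sub_mul, ← b, sub_eq_zero.mp a]
      · have a := gg.RR q q i j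
        have b := gg.LR j i q q
        simp only [hqi, hqj, if_false, sub_zero] at a
        rw [hF, mul_sub, sub_mul, ← b, sub_eq_zero.mp a]
      · have a := gg.RR q q i i
        have a' := gg.RR q q j j
        have b := gg.LR i i q q
        have b' := gg.LR j j q q
        simp only [hqi, hqj, if_false, sub_zero] at a a'
        rw [hH, mul_sub, sub_mul, mul_sub, sub_mul, mul_sub, sub_mul, ← b, ← b',
          sub_eq_zero.mp a, sub_eq_zero.mp a']
    exact ⟨tr _ (hp.com _ e1) k, tr _ (hp.com _ e2) k⟩
  · intro k
    have hmul : ∀ A B C : Module.End ℂ V, (A + B) * C - C * (A + B) =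
        (A * C - C * A) + (B * C - C * B) := by
      intro A B C
      noncomm_ring
    have e1 : (l i i + l j j) * cs2 E F H = cs2 E F H * (l i i + l j j) := by
      have c1 : (l i i + l j j) * l i j = l i j * (l i i + l j j) := by
        have a := gg.LL i i i j
        have a' := gg.LL j j i j
        simp only [if_true, hne, hne', if_false, sub_zero, zero_sub] at a a'
        rw [← sub_eq_zero, hmul, a, a', add_neg_cancel]
      have c2 : (l i i + l j j) * l j i = l j i * (l i i + l j j) := by
        have a := gg.LL i i j i
        have a' := gg.LL j j j i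
        simp only [if_true, hne, hne', if_false, sub_zero, zero_sub] at a a'
        rw [← sub_eq_zero, hmul, a, a', neg_add_cancel]
      have c3 : (l i i + l j j) * l i i = l i i * (l i i + l j j) := by
        have a' := gg.LL j j i i
        simp only [hne', if_false, sub_zero] at a'
        rw [← sub_eq_zero, hmul, a', sub_self, add_zero]
      have c4 : (l i i + l j j) * l j j = l j j * (l i i + l j j) := by
        have a' := gg.LL i i j j
        simp only [hne, if_false, sub_zero] at a'
        rw [← sub_eq_zero, hmul, a', sub_self, add_zero]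
      have d : ∀ p q, (l i i + l j j) * r p q = r p q * (l i i + l j j) := by
        intro p q
        rw [add_mul, mul_add, gg.LR, gg.LR]
      apply cs_of_comm
      · rw [hE, mul_sub, sub_mul, c1, d]
      · rw [hF, mul_sub, sub_mul, c2, d]
      · rw [hH, mul_sub, sub_mul, mul_sub, sub_mul, mul_sub, sub_mul, c3, c4, d, d]
    have e2 : (r i i + r j j) * cs2 E F H = cs2 E F H * (r i i + r j j) := by
      have c1 : (r i i + r j j) * r i j = r i j * (r i i + r j j) := by
        have a := gg.RR i i i j
        have a' := gg.RR j j i j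
        simp only [if_true, hne, hne', if_false, sub_zero, zero_sub] at a a'
        rw [← sub_eq_zero, hmul, a, a', add_neg_cancel]
      have c2 : (r i i + r j j) * r j i = r j i * (r i i + r j j) := by
        have a := gg.RR i i j i
        have a' := gg.RR j j j i
        simp only [if_true, hne, hne', if_false, sub_zero, zero_sub] at a a'
        rw [← sub_eq_zero, hmul, a, a', neg_add_cancel]
      have c3 : (r i i + r j j) * r i i = r i i * (r i i + r j j) := by
        have a' := gg.RR j j i i
        simp only [hne', if_false, sub_zero] at a'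
        rw [← sub_eq_zero, hmul, a', sub_self, add_zero]
      have c4 : (r i i + r j j) * r j j = r j j * (r i i + r j j) := by
        have a' := gg.RR i i j j
        simp only [hne, if_false, sub_zero] at a'
        rw [← sub_eq_zero, hmul, a', sub_self, add_zero]
      have d : ∀ p q, (r i i + r j j) * l p q = l p q * (r i i + r j j) := by
        intro p q
        rw [add_mul, mul_add, ← gg.LR, ← gg.LR]
      apply cs_of_comm
      · rw [hE, mul_sub, sub_mul, d, c2]
      · rw [hF, mul_sub, sub_mul, d, c1]
      · rw [hH, mul_sub, sub_mul, mul_sub, sub_mul, mul_sub, sub_mul, c3, c4, d, d]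
    have es : ∀ A B : Module.End ℂ V, ((-A.dualMap) + (-B.dualMap) :
        Module.End ℂ (Module.Dual ℂ V)) = -(A + B).dualMap := by
      intro A B
      rw [dm_add]
      abel
    constructor
    · show ((-(l i i).dualMap) + (-(l j j).dualMap)) * (pr k).dualMap =
        (pr k).dualMap * ((-(l i i).dualMap) + (-(l j j).dualMap))
      rw [es]
      exact tr _ (hp.com _ e1) k
    · show ((-(r i i).dualMap) + (-(r j j).dualMap)) * (pr k).dualMap =
        (pr k).dualMap * ((-(r i i).dualMap) + (-(r j j).dualMap))
      rw [es]
      exact tr _ (hp.com _ e2) k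

end

end Pool.Agent.Work.MP_dd0ddf_al.AR
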