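import Pool.Agent.Work.MP_dd0ddf_al.AR.SBase
import Pool.Agent.Work.MP_dd0ddf_al.AR.SRel
import Pool.Agent.Work.MP_dd0ddf_al.AR.SCas
import Pool.Agent.Work.MP_dd0ddf_al.AR.RKFacts

/-!
# Block R6 of MP_dd0ddf_al (archimedean part), module SLfs: `YK π` is locally finite semisimple

PROOF.  he, hf, ef: from `ygg` (i ≠ j).  lf: y ∈ Yd π D for some D (`mem_YK`); S = (Yd π D).comap (YK π).subtype is finite dimensional (`Yd_finite`) and stable under yE i j, yE j i, yH (`Yd_k`).
ss: let C = yC π d i j, w = (C - c) y with (C - c) w = 0.  For v ∈ P put ⟨y,z⟩ = ∫ y(π(k) v) conj(z(π(k) v)) dk.  By `sym_C` c ⟨w,w⟩ = ⟨C w, w⟩ = ⟨w, C w⟩ = conj c ⟨w,w⟩.  If ⟨w,w⟩ ≠ 0 then c is real and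
⟨w,w⟩ = ⟨C y - c y, w⟩ = ⟨y, C w - c w⟩ = 0, a contradiction.  So ⟨w,w⟩ = ∫ |w(π(k) v)|² dk = 0; the integrand is continuous and ≥ 0 and muK is positive on open sets, so w(π(k) v) = 0 for all k, and w(v) = 0
(k = 1).  As v is arbitrary, w = 0.
-/

set_option linter.unusedSectionVars false

namespace Pool.Agent.Work.MP_dd0ddf_al.AR

open scoped SchwartzMap Matrix.Norms.Elementwise ComplexConjugate ContDiff Topology
open Matrix MeasureTheory Filter Asymptotics

noncomputable section

variable {n : ℕ} {P : Type*} [AddCommGroup P] [Module ℂ P] [UniformSpace P] [IsUniformAddGroup P]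
  [ContinuousSMul ℂ P] [PolynormableSpace ℂ P] [T2Space P] [CompleteSpace P]
  [FirstCountableTopology P]

private theorem slfs_rel {V : Type*} [AddCommGroup V] [Module ℂ V]
    (L R : Fin n → Fin n → Module.End ℂ V) (h : CW.GG L R) (i j : Fin n) (hij : i ≠ j) :
    (((L i i - L j j) - (R i i - R j j)) * (L i j - R j i) -
        (L i j - R j i) * ((L i i - L j j) - (R i i - R j j)) = 2 • (L i j - R j i)) ∧
      (((L i i - L j j) - (R i i - R j j)) * (L j i - R i j) -
        (L j i - R i j) * ((L i i - L j j) - (R i i - R j j)) = -(2 • (L j i - R i j))) ∧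
      ((L i j - R j i) * (L j i - R i j) - (L j i - R i j) * (L i j - R j i) =
        (L i i - L j j) - (R i i - R j j)) := by
  have hji : j ≠ i := hij.symm
  have a1 := h.LL i i i j
  have a2 := h.LL j j i j
  have a3 := h.RR i i j i
  have a4 := h.RR j j j i
  have b1 := h.LL i j j i
  have b2 := h.RR j i i j
  simp only [hij, hji, if_true, if_false, sub_zero, zero_sub] at a1 a2 a3 a4 b1 b2
  have c1 := h.LR i i j i
  have c2 := h.LR j j j i
  have c3 := h.LR i j i i
  have c4 := h.LR i j j j
  have c5 := h.LR i j i j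
  have c6 := h.LR j i j i
  have d1 := h.LL i i j i
  have d2 := h.LL j j j i
  have d3 := h.RR i i i j
  have d4 := h.RR j j i j
  simp only [hij, hji, if_true, if_false, sub_zero, zero_sub] at d1 d2 d3 d4
  have f1 := h.LR i i i j
  have f2 := h.LR j j i j
  have f3 := h.LR j i i i
  have f4 := h.LR j i j j
  refine ⟨?_, ?_, ?_⟩
  · calc ((L i i - L j j) - (R i i - R j j)) * (L i j - R j i) -
        (L i j - R j i) * ((L i i - L j j) - (R i i - R j j))
        = (L i i * L i j - L i j * L i i) - (L j j * L i j - L i j * L j j)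
          + (R i i * R j i - R j i * R i i) - (R j j * R j i - R j i * R j j)
          - (L i i * R j i - R j i * L i i) + (L j j * R j i - R j i * L j j)
          + (L i j * R i i - R i i * L i j) - (L i j * R j j - R j j * L i j) := by
            noncomm_ring
      _ = 2 • (L i j - R j i) := by
            rw [a1, a2, a3, a4, c1, c2, c3, c4]
            simp only [sub_self]
            abel
  · calc ((L i i - L j j) - (R i i - R j j)) * (L j i - R i j) -
        (L j i - R i j) * ((L i i - L j j) - (R i i - R j j))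
        = (L i i * L j i - L j i * L i i) - (L j j * L j i - L j i * L j j)
          + (R i i * R i j - R i j * R i i) - (R j j * R i j - R i j * R j j)
          - (L i i * R i j - R i j * L i i) + (L j j * R i j - R i j * L j j)
          + (L j i * R i i - R i i * L j i) - (L j i * R j j - R j j * L j i) := by
            noncomm_ring
      _ = -(2 • (L j i - R i j)) := by
            rw [d1, d2, d3, d4, f1, f2, f3, f4]
            simp only [sub_self]
            abel
  · calc (L i j - R j i) * (L j i - R i j) - (L j i - R i j) * (L i j - R j i)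
        = (L i j * L j i - L j i * L i j) + (R j i * R i j - R i j * R j i)
          - (L i j * R i j - R i j * L i j) + (L j i * R j i - R j i * L j i) := by
            noncomm_ring
      _ = (L i i - L j j) - (R i i - R j j) := by
            rw [b1, b2, c5, c6]
            simp only [sub_self]
            abel

private theorem slfs_cont {π : GLn n →* (P →L[ℂ] P)} (hπ : IsCW π) (l : P →L[ℂ] ℂ) (v : P) :
    Continuous fun k : KU n => l (π (k : GLn n) v) :=
  l.continuous.comp (hπ.cont.comp (continuous_subtype_val.prodMk continuous_const))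

private theorem slfs_int {f : KU n → ℂ} (hf : Continuous f) : Integrable f (muK n) :=
  hf.integrable_of_hasCompactSupport (HasCompactSupport.of_compactSpace f)

/-- the hermitian form -/
private def ip (π : GLn n →* (P →L[ℂ] P)) (v : P) (y z : P →L[ℂ] ℂ) : ℂ :=
  ∫ k : KU n, y (π (k : GLn n) v) * conj (z (π (k : GLn n) v)) ∂(muK n)

private theorem slfs_pos {π : GLn n →* (P →L[ℂ] P)} (hπ : IsCW π) (v : P) (w : P →L[ℂ] ℂ)
    (h : ip π v w w = 0) : w v = 0 := by
  by_contra hne
  have hc : Continuous fun k : KU n => ‖w (π (k : GLn n) v)‖ ^ 2 :=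
    ((slfs_cont hπ w v).norm).pow 2
  have h1 : 0 < ∫ k : KU n, ‖w (π (k : GLn n) v)‖ ^ 2 ∂(muK n) := by
    refine hc.integral_pos_of_hasCompactSupport_nonneg_nonzero
      (HasCompactSupport.of_compactSpace _) (fun k => by positivity) (x := (1 : KU n)) ?_
    simp only [OneMemClass.coe_one, map_one]
    have : ‖w v‖ ≠ 0 := norm_ne_zero_iff.mpr hne
    exact pow_ne_zero 2 this
  have h2 : ip π v w w = ((∫ k : KU n, ‖w (π (k : GLn n) v)‖ ^ 2 ∂(muK n) : ℝ) : ℂ) := by
    unfold ip
    rw [← integral_complex_ofReal]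
    refine integral_congr_ae (Eventually.of_forall fun k => ?_)
    simp only [Complex.mul_conj']
    push_cast
    rfl
  rw [h2] at h
  have h3 : (∫ k : KU n, ‖w (π (k : GLn n) v)‖ ^ 2 ∂(muK n)) = 0 := by exact_mod_cast h
  exact h1.ne' h3

private theorem slfs_sub_l {π : GLn n →* (P →L[ℂ] P)} (hπ : IsCW π) (v : P) (y y' z : P →L[ℂ] ℂ)
    (c : ℂ) : ip π v (y - c • y') z = ip π v y z - c * ip π v y' z := by
  unfold ip
  rw [← integral_const_mul, ← integral_sub]
  · refine integral_congr_ae (Eventually.of_forall fun k => ?_)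
    simp only [_root_.sub_apply, _root_.smul_apply, smul_eq_mul]
    ring
  · exact slfs_int ((slfs_cont hπ y v).mul (Complex.continuous_conj.comp (slfs_cont hπ z v)))
  · exact slfs_int (continuous_const.mul
      ((slfs_cont hπ y' v).mul (Complex.continuous_conj.comp (slfs_cont hπ z v))))

private theorem slfs_smul_l (π : GLn n →* (P →L[ℂ] P)) (v : P) (y z : P →L[ℂ] ℂ)
    (c : ℂ) : ip π v (c • y) z = c * ip π v y z := by
  unfold ip
  rw [← integral_const_mul]
  refine integral_congr_ae (Eventually.of_forall fun k => ?_)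
  simp only [_root_.smul_apply, smul_eq_mul]
  ring

private theorem slfs_smul_r (π : GLn n →* (P →L[ℂ] P)) (v : P) (y z : P →L[ℂ] ℂ)
    (c : ℂ) : ip π v y (c • z) = conj c * ip π v y z := by
  unfold ip
  rw [← integral_const_mul]
  refine integral_congr_ae (Eventually.of_forall fun k => ?_)
  simp only [_root_.smul_apply, smul_eq_mul, map_mul]
  ring

theorem lfs_Y (π : GLn n →* (P →L[ℂ] P)) (hπ : IsCW π) (d : Mat n → P →L[ℂ] P) (hd : Der π d)
    (i j : Fin n) (hij : i ≠ j) : LfS (yE π d i j) (yE π d j i) (yH π d i j) := by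
  have hgg := ygg π d hd
  have hr1 := slfs_rel (yL π d) (yR π d) hgg i j hij
  refine ⟨hr1.1, hr1.2.1, hr1.2.2, ?_, ?_⟩
  · intro v
    obtain ⟨D, hD⟩ := mem_YK.mp v.2
    have hfin : FiniteDimensional ℂ (Yd π D) := Yd_finite π hπ D
    refine ⟨(Yd π D).comap (YK π).subtype, ?_, hD, ?_⟩
    · have hN0 := (@IsNoetherian.iff_fg ℂ (Yd π D) _ _ _).mpr hfin
      have hN : IsNoetherian ℂ (Yd π D) := hN0
      refine Module.Finite.of_injective
        (((YK π).subtype.domRestrict ((Yd π D).comap (YK π).subtype)).codRestrict (Yd π D)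
          (fun x => x.2)) ?_
      intro x y hxy
      apply Subtype.ext
      apply Subtype.ext
      have h5 := congrArg (fun z : Yd π D => (z : P →L[ℂ] ℂ)) hxy
      exact h5
    · intro w hw
      have key : ∀ a b : Fin n, yE π d a b w ∈ (Yd π D).comap (YK π).subtype := by
        intro a b
        have h1 := Yd_k π d hd a b (D := D) (l := (w : P →L[ℂ] ℂ)) hw
        show ((yE π d a b w : YK π) : P →L[ℂ] ℂ) ∈ Yd π D
        have h2 : ((yE π d a b w : YK π) : P →L[ℂ] ℂ) =
            -((w : P →L[ℂ] ℂ).comp (Lo d a b - Ro d b a)) := by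
          ext x
          have h3 : ((yE π d a b w : YK π) : P →L[ℂ] ℂ) x =
              ((yL π d a b w : YK π) : P →L[ℂ] ℂ) x - ((yR π d b a w : YK π) : P →L[ℂ] ℂ) x := rfl
          rw [h3, yL_apply π d hd, yR_apply π d hd]
          show -(w : P →L[ℂ] ℂ) (Lo d a b x) - -(w : P →L[ℂ] ℂ) (Ro d b a x) =
            -((w : P →L[ℂ] ℂ) (Lo d a b x - Ro d b a x))
          rw [map_sub]
          ring
        rw [h2]
        exact (Yd π D).neg_mem h1
      refine ⟨key i j, key j i, ?_⟩
      have h4 : yH π d i j w = yE π d i i w - yE π d j j w := by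
        have : yH π d i j = yE π d i i - yE π d j j := by
          unfold yH yE
          abel
        rw [this]
        rfl
      rw [h4]
      exact Submodule.sub_mem _ (key i i) (key j j)
  · intro c y hy
    have hC : cs2 (yE π d i j) (yE π d j i) (yH π d i j) = yC π d i j := rfl
    rw [hC] at hy ⊢
    set w : YK π := (yC π d i j - c • 1) y with hw
    have hw1 : (w : P →L[ℂ] ℂ) =
        ((yC π d i j y : YK π) : P →L[ℂ] ℂ) - c • (y : P →L[ℂ] ℂ) := rfl
    have hy1 : ((yC π d i j w : YK π) : P →L[ℂ] ℂ) - c • (w : P →L[ℂ] ℂ) = 0 :=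
      congrArg Subtype.val hy
    have hCw : ((yC π d i j w : YK π) : P →L[ℂ] ℂ) = c • (w : P →L[ℂ] ℂ) := sub_eq_zero.mp hy1
    apply Subtype.ext
    show (w : P →L[ℂ] ℂ) = 0
    ext v
    show (w : P →L[ℂ] ℂ) v = 0
    apply slfs_pos hπ
    have e1 : ip π v ((yC π d i j w : YK π) : P →L[ℂ] ℂ) (w : P →L[ℂ] ℂ) =
        ip π v (w : P →L[ℂ] ℂ) ((yC π d i j w : YK π) : P →L[ℂ] ℂ) := sym_C π hπ d hd i j w w v
    have e2 : ip π v ((yC π d i j y : YK π) : P →L[ℂ] ℂ) (w : P →L[ℂ] ℂ) =
        ip π v (y : P →L[ℂ] ℂ) ((yC π d i j w : YK π) : P →L[ℂ] ℂ) := sym_C π hπ d hd i j y w v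
    rw [hCw, slfs_smul_l, slfs_smul_r] at e1
    rw [hCw, slfs_smul_r] at e2
    by_contra hne
    have hcc : c = conj c := mul_right_cancel₀ hne e1
    apply hne
    have e3 := slfs_sub_l hπ v ((yC π d i j y : YK π) : P →L[ℂ] ℂ) (y : P →L[ℂ] ℂ)
      (w : P →L[ℂ] ℂ) c
    rw [← hw1] at e3
    rw [e3, e2, ← hcc, sub_self]

end

end Pool.Agent.Work.MP_dd0ddf_al.AR
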