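import Pool.Agent.Work.MP_dd0ddf_al.AR.SBase

/-!
# Block R6 of MP_dd0ddf_al (archimedean part), module SSort: termination of the sorting

PROOF.  Put α q = a q - q, β q = b q - q (q as a complex number).  If j = i + 1 then swa a i j corresponds to α ∘ swap i j: (swa a i j) i - i = a j - 1 - i = a j - j, (swa a i j) j - j = a i + 1 - j = a i - i.
So all pairs reached from (a, b) are of the form a' q = α(σ q) + q, b' q = β(τ q) + q with permutations σ, τ: finitely many.  Among the (σ, τ) for which G holds choose one (a', b') which maximises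
ρ(a', b') = ∑_q (n - 1 - 2q) Re(a' q + b' q).  If for some i, j = i+1 the number (a' i - a' j + b' i - b' j + 2).re is < 0, then hstep gives a pair with bigger ρ: for (swa a' i j, swa b' i j) the change is
2 Re(a' j - 1 - a' i + b' j - 1 - b' i) = -2 (a' i - a' j + b' i - b' j + 2).re > 0; for (swa a' i j, b') the change is 2 Re(a' j - 1 - a' i) = 2q > 0.  Contradiction.  So for all i, j = i + 1:
(a' j + b' j).re - 2 j ≤ (a' i + b' i).re - 2 i, and the case i ≤ j follows by induction on j.
(See `sf_rho` in CW/Sfin.lean for the computation of the change of ρ.)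
-/

set_option linter.unusedSectionVars false

namespace Pool.Agent.Work.MP_dd0ddf_al.AR

open scoped SchwartzMap Matrix.Norms.Elementwise ComplexConjugate ContDiff Topology
open Matrix MeasureTheory Filter Asymptotics

noncomputable section

variable {n : ℕ}

/-- the permuted weight -/
private def pw (a : Fin n → ℂ) (σ : Equiv.Perm (Fin n)) : Fin n → ℂ :=
  fun q => a (σ q) - ((σ q : ℕ) : ℂ) + ((q : ℕ) : ℂ)

private theorem pw_one (a : Fin n → ℂ) : pw a 1 = a := by
  funext q
  simp [pw]

private theorem pw_swa (a : Fin n → ℂ) (σ : Equiv.Perm (Fin n)) (i j : Fin n)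
    (hij : (j : ℕ) = i + 1) : swa (pw a σ) i j = pw a (σ * Equiv.swap i j) := by
  have hne : j ≠ i := by
    intro h
    rw [h] at hij
    omega
  have hc : ((j : ℕ) : ℂ) = ((i : ℕ) : ℂ) + 1 := by
    rw [hij]
    push_cast
    rfl
  funext q
  unfold swa pw
  rw [Equiv.Perm.mul_apply]
  by_cases h1 : q = i
  · subst h1
    rw [if_pos rfl, Equiv.swap_apply_left, hc]
    ring
  · rw [if_neg h1]
    by_cases h2 : q = j
    · subst h2
      rw [if_pos rfl, Equiv.swap_apply_right, hc]
      ring
    · rw [if_neg h2, Equiv.swap_apply_of_ne_of_ne h1 h2]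

/-- the height -/
private def hgt (a : Fin n → ℂ) : ℝ := ∑ q : Fin n, -(((q : ℕ) : ℝ) * (a q).re)

private theorem hgt_swa (a : Fin n → ℂ) (i j : Fin n) (hij : (j : ℕ) = i + 1) :
    hgt (swa a i j) = hgt a + (a j - 1 - a i).re := by
  have hne : i ≠ j := by
    intro h
    rw [h] at hij
    omega
  have key : hgt (swa a i j) - hgt a = (a j - 1 - a i).re := by
    unfold hgt
    rw [← Finset.sum_sub_distrib, Finset.sum_eq_add i j hne]
    · have e1 : swa a i j i = a j - 1 := by
        unfold swa
        rw [if_pos rfl]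
      have e2 : swa a i j j = a i + 1 := by
        unfold swa
        rw [if_neg hne.symm, if_pos rfl]
      have hj : ((j : ℕ) : ℝ) = (i : ℕ) + 1 := by
        rw [hij]
        push_cast
        rfl
      rw [e1, e2, hj]
      simp only [Complex.add_re, Complex.sub_re, Complex.one_re]
      ring
    · rintro q - ⟨h1, h2⟩
      have e : swa a i j q = a q := by
        unfold swa
        rw [if_neg h1, if_neg h2]
      rw [e, sub_self]
    · intro hc
      exact absurd (Finset.mem_univ _) hc
    · intro hc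
      exact absurd (Finset.mem_univ _) hc
  linarith

theorem sort_all (G : (Fin n → ℂ) → (Fin n → ℂ) → Prop) (a b : Fin n → ℂ) (h0 : G a b)
    (hstep : ∀ a b, G a b → ∀ i j : Fin n, (j : ℕ) = i + 1 →
      (a i - a j + b i - b j + 2).re < 0 → G (swa a i j) (swa b i j) ∨
        (G (swa a i j) b ∧ ∃ q : ℕ, 1 ≤ q ∧ a j - 1 - a i = (q : ℂ))) :
    ∃ a' b', G a' b' ∧
      ∀ i j : Fin n, i ≤ j → (a' j + b' j).re - 2 * (j : ℕ) ≤ (a' i + b' i).re - 2 * (i : ℕ) := by
  classical
  let S := {p : Equiv.Perm (Fin n) × Equiv.Perm (Fin n) // G (pw a p.1) (pw b p.2)}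
  have hne : Nonempty S := ⟨⟨(1, 1), by
    show G (pw a 1) (pw b 1)
    rw [pw_one, pw_one]
    exact h0⟩⟩
  obtain ⟨⟨⟨σ, τ⟩, hG⟩, hmax⟩ := Finite.exists_max
    (fun p : S => hgt (pw a p.1.1) + hgt (pw b p.1.2))
  have hmax' : ∀ σ' τ' : Equiv.Perm (Fin n), G (pw a σ') (pw b τ') →
      hgt (pw a σ') + hgt (pw b τ') ≤ hgt (pw a σ) + hgt (pw b τ) :=
    fun σ' τ' h => hmax ⟨(σ', τ'), h⟩
  have hG' : G (pw a σ) (pw b τ) := hG
  refine ⟨pw a σ, pw b τ, hG', ?_⟩
  generalize hx : pw a σ = x at hmax' hG' ⊢
  generalize hy : pw b τ = y at hmax' hG' ⊢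
  have hstep1 : ∀ i j : Fin n, (j : ℕ) = i + 1 →
      (x j + y j).re - 2 * ((j : ℕ) : ℝ) ≤ (x i + y i).re - 2 * ((i : ℕ) : ℝ) := by
    intro i j hij
    by_contra hcon
    push Not at hcon
    have hj : ((j : ℕ) : ℝ) = (i : ℕ) + 1 := by
      rw [hij]
      push_cast
      rfl
    have hneg : (x i - x j + y i - y j + 2).re < 0 := by
      simp only [Complex.add_re, Complex.sub_re, Complex.re_ofNat] at hcon ⊢
      rw [hj] at hcon
      linarith
    have ex : swa x i j = pw a (σ * Equiv.swap i j) := by
      rw [← hx]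
      exact pw_swa a σ i j hij
    have ey : swa y i j = pw b (τ * Equiv.swap i j) := by
      rw [← hy]
      exact pw_swa b τ i j hij
    rcases hstep x y hG' i j hij hneg with h | ⟨h, q, hq, haq⟩
    · rw [ex, ey] at h
      have h1 := hmax' _ _ h
      rw [← ex, ← ey, hgt_swa x i j hij, hgt_swa y i j hij] at h1
      simp only [Complex.add_re, Complex.sub_re, Complex.re_ofNat, Complex.one_re] at hneg h1
      linarith
    · rw [ex, ← hy] at h
      have h1 := hmax' _ _ h
      rw [← ex, hy, hgt_swa x i j hij, haq, Complex.natCast_re] at h1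
      have h2 : (1 : ℝ) ≤ q := by exact_mod_cast hq
      linarith
  have hall : ∀ (k : ℕ) (i j : Fin n), (j : ℕ) = i + k →
      (x j + y j).re - 2 * ((j : ℕ) : ℝ) ≤ (x i + y i).re - 2 * ((i : ℕ) : ℝ) := by
    intro k
    induction k with
    | zero =>
      intro i j hij
      have : j = i := Fin.ext hij
      rw [this]
    | succ k ih =>
      intro i j hij
      have hlt : (i : ℕ) + k < n := by
        have := j.2
        omega
      have h1 := ih i ⟨i + k, hlt⟩ rfl
      have h2 := hstep1 ⟨i + k, hlt⟩ j (by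
        show (j : ℕ) = (i + k : ℕ) + 1
        omega)
      exact h2.trans h1
  intro i j hle
  exact hall ((j : ℕ) - i) i j (by
    have : (i : ℕ) ≤ j := hle
    omega)

end

end Pool.Agent.Work.MP_dd0ddf_al.AR
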