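import Pool.Agent.Work.MP_dd0ddf_al.AR.SBase
import Pool.Agent.Work.MP_dd0ddf_al.AR.SRel
import Pool.Agent.Work.MP_dd0ddf_al.AR.RKFacts

/-!
# Block R6 of MP_dd0ddf_al (archimedean part), module SWey: the Weyl element

PROOF.  w = the permutation matrix of s = swap i j (w e_q = e_{s q}), a unitary matrix, `mkK` gives an element of KU n, w⁻¹ = w.  om = yo π (π w), om' = yo π (π w⁻¹) (`Yd_K`, `mem_YK`: they preserve YK).
om om' = 1: l ∘ π(w⁻¹) ∘ π(w) = l.  w E_pq w⁻¹ = E_{sp,sq}, so by hd.Ad: π(w) (d(z E_pq) v) = d(z E_{sp,sq}) (π(w) v), hence π(w) Lo p q v = Lo (s p) (s q) (π(w) v), the same for Ro.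
(yL p q (om y))(v) = -y(π(w) Lo p q v) = -y(Lo (s p) (s q) π(w) v) = (om (yL (s p) (s q) y))(v).
Growth: (om.dualMap x)(y) = x(y ∘ π(w)), y ∘ π(w) ∈ Yd π D (`Yd_K`) and |y(π(w) v)| ≤ c p(π(w) v) = c p(v).
-/

set_option linter.unusedSectionVars false

namespace Pool.Agent.Work.MP_dd0ddf_al.AR

open scoped SchwartzMap Matrix.Norms.Elementwise ComplexConjugate ContDiff Topology
open Matrix MeasureTheory Filter Asymptotics

noncomputable section

variable {n : ℕ} {P : Type*} [AddCommGroup P] [Module ℂ P] [UniformSpace P] [IsUniformAddGroup P]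
  [ContinuousSMul ℂ P] [PolynormableSpace ℂ P] [T2Space P] [CompleteSpace P]
  [FirstCountableTopology P]


private def gw (i j : Fin n) : Mat n := (1 : Mat n).submatrix (Equiv.swap i j) id

private theorem gw_ct (i j : Fin n) : (gw i j)ᴴ = (1 : Mat n).submatrix id (Equiv.swap i j) := by
  unfold gw
  rw [Matrix.conjTranspose_submatrix, Matrix.conjTranspose_one]

private theorem gw_u (i j : Fin n) : (gw i j)ᴴ * gw i j = 1 := by
  rw [gw_ct]
  unfold gw
  rw [Matrix.submatrix_mul_equiv, Matrix.one_mul, Matrix.submatrix_id_id]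

private theorem gw_conj (i j p q : Fin n) (z : ℂ) :
    gw i j * Matrix.single p q z * (gw i j)ᴴ =
      Matrix.single (Equiv.swap i j p) (Equiv.swap i j q) z := by
  rw [gw_ct]
  unfold gw
  have h1 : (1 : Mat n).submatrix (Equiv.swap i j) id * Matrix.single p q z =
      (Matrix.single p q z : Mat n).submatrix (Equiv.swap i j) id := by
    have := Matrix.submatrix_mul_equiv (1 : Mat n) (Matrix.single p q z) (Equiv.swap i j)
      (Equiv.refl (Fin n)) id
    rw [Matrix.one_mul] at this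
    exact this
  have h2 : (Matrix.single p q z : Mat n).submatrix (Equiv.swap i j) id *
      (1 : Mat n).submatrix id (Equiv.swap i j) =
      (Matrix.single p q z : Mat n).submatrix (Equiv.swap i j) (Equiv.swap i j) := by
    have := Matrix.submatrix_mul_equiv (Matrix.single p q z : Mat n) (1 : Mat n) (Equiv.swap i j)
      (Equiv.refl (Fin n)) (Equiv.swap i j)
    rw [Matrix.mul_one] at this
    exact this
  rw [h1, h2]
  ext a b
  rw [Matrix.submatrix_apply, Matrix.single_apply, Matrix.single_apply]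
  have e1 : (p = Equiv.swap i j a) ↔ (Equiv.swap i j p = a) := by
    constructor
    · intro h
      rw [h, Equiv.swap_apply_self]
    · intro h
      rw [← h, Equiv.swap_apply_self]
  have e2 : (q = Equiv.swap i j b) ↔ (Equiv.swap i j q = b) := by
    constructor
    · intro h
      rw [h, Equiv.swap_apply_self]
    · intro h
      rw [← h, Equiv.swap_apply_self]
  simp only [e1, e2]

private def kw (i j : Fin n) : KU n := mkK (gw i j) (gw_u i j)

private theorem kw_d (π : GLn n →* (P →L[ℂ] P)) (d : Mat n → P →L[ℂ] P) (hd : Der π d)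
    (i j p q : Fin n) (z : ℂ) (v : P) :
    π (kw i j : GLn n) (d (Matrix.single p q z) v) =
      d (Matrix.single (Equiv.swap i j p) (Equiv.swap i j q) z) (π (kw i j : GLn n) v) := by
  rw [hd.Ad, KU_inv]
  change d (gw i j * Matrix.single p q z * (gw i j)ᴴ) _ = _
  rw [gw_conj]

private theorem kw_Lo (π : GLn n →* (P →L[ℂ] P)) (d : Mat n → P →L[ℂ] P) (hd : Der π d)
    (i j p q : Fin n) (v : P) :
    π (kw i j : GLn n) (Lo d p q v) =
      Lo d (Equiv.swap i j p) (Equiv.swap i j q) (π (kw i j : GLn n) v) := by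
  change π (kw i j : GLn n) ((1 / 2 : ℂ) • (d (Matrix.single p q 1) v -
    Complex.I • d (Matrix.single p q Complex.I) v)) = (1 / 2 : ℂ) •
      (d (Matrix.single (Equiv.swap i j p) (Equiv.swap i j q) 1) (π (kw i j : GLn n) v) -
    Complex.I • d (Matrix.single (Equiv.swap i j p) (Equiv.swap i j q) Complex.I)
      (π (kw i j : GLn n) v))
  rw [map_smul, map_sub, map_smul, kw_d π d hd, kw_d π d hd]

private theorem kw_Ro (π : GLn n →* (P →L[ℂ] P)) (d : Mat n → P →L[ℂ] P) (hd : Der π d)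
    (i j p q : Fin n) (v : P) :
    π (kw i j : GLn n) (Ro d p q v) =
      Ro d (Equiv.swap i j p) (Equiv.swap i j q) (π (kw i j : GLn n) v) := by
  change π (kw i j : GLn n) ((1 / 2 : ℂ) • (d (Matrix.single p q 1) v +
    Complex.I • d (Matrix.single p q Complex.I) v)) = (1 / 2 : ℂ) •
      (d (Matrix.single (Equiv.swap i j p) (Equiv.swap i j q) 1) (π (kw i j : GLn n) v) +
    Complex.I • d (Matrix.single (Equiv.swap i j p) (Equiv.swap i j q) Complex.I)
      (π (kw i j : GLn n) v))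
  rw [map_smul, map_add, map_smul, kw_d π d hd, kw_d π d hd]

private theorem kw_mem (π : GLn n →* (P →L[ℂ] P)) (k : KU n) :
    ∀ l ∈ YK π, l.comp (π (k : GLn n)) ∈ YK π := by
  intro l hl
  obtain ⟨D, hD⟩ := mem_YK.mp hl
  exact mem_YK.mpr ⟨D, Yd_K π k hD⟩

private theorem kw_ap (π : GLn n →* (P →L[ℂ] P)) (k : KU n) (y : YK π) (v : P) :
    ((yo π (π (k : GLn n)) y : YK π) : P →L[ℂ] ℂ) v = (y : P →L[ℂ] ℂ) (π (k : GLn n) v) := by
  rw [yo_apply (kw_mem π k)]
  rfl

private theorem yk_ext {π : GLn n →* (P →L[ℂ] P)} {y z : YK π}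
    (h : ∀ v, (y : P →L[ℂ] ℂ) v = (z : P →L[ℂ] ℂ) v) : y = z :=
  Subtype.ext (ContinuousLinearMap.ext h)

theorem exists_wey (π : GLn n →* (P →L[ℂ] P)) (hπ : IsCW π) (d : Mat n → P →L[ℂ] P)
    (hd : Der π d) (i j : Fin n) : ∃ om om' : Module.End ℂ (YK π), om * om' = 1 ∧ om' * om = 1 ∧
      (∀ p q, yL π d p q * om = om * yL π d (Equiv.swap i j p) (Equiv.swap i j q)) ∧
      (∀ p q, yR π d p q * om = om * yR π d (Equiv.swap i j p) (Equiv.swap i j q)) ∧
      ∀ x : MY π, Pgr π x → Pgr π (om.dualMap x) := by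
  have hm : ∀ (k : KU n) (v : P), π (k : GLn n) (π ((k⁻¹ : KU n) : GLn n) v) = v := by
    intro k v
    change (π (k : GLn n) * π ((k⁻¹ : KU n) : GLn n)) v = v
    rw [← map_mul]
    have : (k : GLn n) * ((k⁻¹ : KU n) : GLn n) = 1 := by
      rw [Subgroup.coe_inv, mul_inv_cancel]
    rw [this, map_one]
    rfl
  refine ⟨yo π (π (kw i j : GLn n)), yo π (π (((kw i j)⁻¹ : KU n) : GLn n)), ?_, ?_, ?_, ?_, ?_⟩
  · refine LinearMap.ext fun y => yk_ext fun v => ?_
    change ((yo π (π (kw i j : GLn n)) (yo π (π (((kw i j)⁻¹ : KU n) : GLn n)) y) : YK π) :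
      P →L[ℂ] ℂ) v = (y : P →L[ℂ] ℂ) v
    rw [kw_ap, kw_ap]
    have := hm (kw i j)⁻¹ v
    rw [inv_inv] at this
    rw [this]
  · refine LinearMap.ext fun y => yk_ext fun v => ?_
    change ((yo π (π (((kw i j)⁻¹ : KU n) : GLn n)) (yo π (π (kw i j : GLn n)) y) : YK π) :
      P →L[ℂ] ℂ) v = (y : P →L[ℂ] ℂ) v
    rw [kw_ap, kw_ap, hm]
  · intro p q
    refine LinearMap.ext fun y => yk_ext fun v => ?_
    change ((yL π d p q (yo π (π (kw i j : GLn n)) y) : YK π) : P →L[ℂ] ℂ) v =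
      ((yo π (π (kw i j : GLn n)) (yL π d (Equiv.swap i j p) (Equiv.swap i j q) y) : YK π) :
        P →L[ℂ] ℂ) v
    rw [yL_apply π d hd, kw_ap, kw_ap, yL_apply π d hd, kw_Lo π d hd]
  · intro p q
    refine LinearMap.ext fun y => yk_ext fun v => ?_
    change ((yR π d p q (yo π (π (kw i j : GLn n)) y) : YK π) : P →L[ℂ] ℂ) v =
      ((yo π (π (kw i j : GLn n)) (yR π d (Equiv.swap i j p) (Equiv.swap i j q) y) : YK π) :
        P →L[ℂ] ℂ) v
    rw [yR_apply π d hd, kw_ap, kw_ap, yR_apply π d hd, kw_Ro π d hd]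
  · intro x hx p hp hK
    obtain ⟨C, M, h⟩ := hx p hp hK
    refine ⟨C, M, ?_⟩
    intro D l hl c hc
    change ‖x (yo π (π (kw i j : GLn n)) l)‖ ≤ _
    refine h D _ ?_ c ?_
    · rw [yo_apply (kw_mem π (kw i j))]
      exact Yd_K π _ hl
    · intro v
      rw [kw_ap]
      have := hc (π (kw i j : GLn n) v)
      rw [hK] at this
      exact this

end

end Pool.Agent.Work.MP_dd0ddf_al.AR
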