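import Pool.Agent.Work.MP_dd0ddf_al.AR.RDefs
import Pool.Agent.Work.MP_dd0ddf_al.AR.SBase
import Pool.Agent.Work.MP_dd0ddf_al.AR.SLfs
import Pool.Agent.Work.MP_dd0ddf_al.AR.SWey
import Pool.Agent.Work.MP_dd0ddf_al.AR.SDual
import Pool.Agent.Work.MP_dd0ddf_al.AR.SBet
import Pool.Agent.Work.MP_dd0ddf_al.AR.SBd
import Pool.Agent.Work.MP_dd0ddf_al.AR.SSort
import Pool.Agent.Work.MP_dd0ddf_al.AR.SCbe

/-! Block R6 of MP_dd0ddf_al (archimedean part): sorting (helper43) -/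

set_option linter.unusedSectionVars false

namespace Pool.Agent.Work.MP_dd0ddf_al.AR

open scoped SchwartzMap Matrix.Norms.Elementwise ComplexConjugate ContDiff Topology
open Matrix MeasureTheory Filter Asymptotics

noncomputable section

variable {n : ℕ} {P : Type*} [AddCommGroup P] [Module ℂ P] [UniformSpace P] [IsUniformAddGroup P]
  [ContinuousSMul ℂ P] [PolynormableSpace ℂ P] [T2Space P] [CompleteSpace P]
  [FirstCountableTopology P]

/-- there is a continuous `B`-eigenvector with decreasing exponents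
`e_i = Re (a_i + b_i + n - 1 - 2 i) / 2` -/
theorem exists_sorted (π : GLn n →* (P →L[ℂ] P)) (hπ : IsCW π) (d : Mat n → P →L[ℂ] P)
    (hd : Der π d) (u : (P →L[ℂ] ℂ) →ₗ[ℂ] ℂ) (a b : Fin n → ℂ) (hu : CBE π d u a b) :
    ∃ (u' : (P →L[ℂ] ℂ) →ₗ[ℂ] ℂ) (a' b' : Fin n → ℂ), CBE π d u' a' b' ∧
      ∀ i j : Fin n, i ≤ j → (a' j + b' j).re - 2 * (j : ℕ) ≤ (a' i + b' i).re - 2 * (i : ℕ) := by
  obtain ⟨x, hx0, hxg, hxv⟩ := cbe_to π d hd u a b hu
  obtain ⟨a', b', ⟨x', h1, h2, h3⟩, h4⟩ := sort_all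
    (fun a b => ∃ x : MY π, x ≠ 0 ∧ Pgr π x ∧ CW.HV (mL π d) (mR π d) a b x) a b
    ⟨x, hx0, hxg, hxv⟩ (by
      rintro a b ⟨x, hx0, hxg, hxv⟩ i j hij hneg
      have hne : i ≠ j := by
        intro h
        rw [h] at hij
        omega
      have hl := lfs_Y π hπ d hd i j hne
      obtain ⟨om, om', w1, w2, w3, w4, w5⟩ := exists_wey π hπ d hd i j
      obtain ⟨pr, hpr, ks⟩ :=
        ks_dual (yL π d) (yR π d) (ygg π d hd) i j hij hl om om' w1 w2 w3 w4
      have ks' : CW.KS (mL π d) (mR π d) i j (fun k => (pr k).dualMap) om.dualMap om'.dualMap := ks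
      obtain ⟨c, hc, h⟩ := sbet (mgg π d hd) i j hij ks' a b x hx0 hxv hneg
      rcases h with ⟨um, hum, hne2, hv⟩ | ⟨up, q, hq, haq, hup, hne2, hv⟩
      · left
        exact ⟨om.dualMap um, hne2, w5 um (pgr_comb π hπ d hd i j hl pr hpr c hc 0 x um hxg
          (by simpa using hum)), hv⟩
      · right
        exact ⟨⟨up, hne2, pgr_comb π hπ d hd i j hl pr hpr c hc q x up hxg hup, hv⟩, q, hq, haq⟩)
  obtain ⟨u', hu'⟩ := cbe_of π d hd a' b' x' h1 h2 h3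
  exact ⟨u', a', b', hu', h4⟩

end

end Pool.Agent.Work.MP_dd0ddf_al.AR
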