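import Pool.Agent.Work.MP_dd0ddf_al.AR.RBDefs

/-!
# MP_dd0ddf_al, archimedean part, block R, module BChm


The character `chm` on upper triangular matrices.

PROOF. `up_mul`: `(b c)_ij = ∑_k b_ik c_kj`; for `j < i` every term has `k < i` or `j < k`; for `i = j` only `k = i` remains.  `up_exp`: the upper triangular matrices form a closed subalgebra: `Y^k` is upper triangular with
diagonal `(Y_ii)^k` (induction), and `exp Y = ∑ Y^k/k!` (`NormedSpace.exp_eq_tsum`), entries are continuous linear functions, so apply `HasSum.map`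
(`NormedSpace.exp_series_hasSum_exp'`) and `HasSum.unique`.
`chm_mul`: `chr s k (z w) = chr s k z * chr s k w` for `z, w ≠ 0` (`Complex.mul_cpow_ofReal_nonneg`, `mul_zpow`), `(‖z w‖)^m = ‖z‖^m ‖w‖^m`, `Finset.prod_mul_distrib`; the diagonal entries are
nonzero by `det_of_upperTriangular`.
`chm_exp`: by `up_exp` the `j`-th factor is `chr s_j k_j (e^w) (‖e^w‖)^(-(n-1-2j))`, `w = Y_jj`: `‖e^w‖ = e^(Re w)` (`Complex.norm_exp`), `(e^(Re w) : ℂ)^s = exp(s Re w)` (`Complex.ofReal_exp`, `Complex.cpow_def`, `Complex.log_exp` or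
`Complex.ofReal_cpow`..), `e^w/‖e^w‖ = exp(i Im w)`, `(exp(i Im w))^k = exp(i k Im w)`, so the factor is the exponential of
`(a_j + b_j + (n-1-2j)) Re w + i (a_j - b_j) Im w - (n-1-2j) Re w = a_j w + b_j conj w`.  `Complex.exp_sum`.
-/

set_option linter.unusedSectionVars false

namespace Pool.Agent.Work.MP_dd0ddf_al.AR

section

attribute [local instance] Matrix.linftyOpNormedRing Matrix.linftyOpNormedAlgebra

private theorem bc_hasSum {n : ℕ} (Y : Matrix (Fin n) (Fin n) ℂ) (i j : Fin n) :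
    HasSum (fun k : ℕ => (k.factorial : ℂ)⁻¹ * (Y ^ k) i j) ((NormedSpace.exp Y) i j) := by
  have h := NormedSpace.exp_series_hasSum_exp' (𝕂 := ℂ) Y
  exact Pi.hasSum.1 (Pi.hasSum.1 h i) j

private theorem bc_tri {n : ℕ} (Y : Matrix (Fin n) (Fin n) ℂ)
    (h : ∀ (k : ℕ) (i j : Fin n), j < i → (Y ^ k) i j = 0) (i j : Fin n) (hij : j < i) :
    (NormedSpace.exp Y) i j = 0 := by
  have h1 := bc_hasSum Y i j
  have h2 : (fun k : ℕ => (k.factorial : ℂ)⁻¹ * (Y ^ k) i j) = fun _ => 0 := by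
    funext k
    rw [h k i j hij, mul_zero]
  rw [h2] at h1
  exact h1.unique hasSum_zero

private theorem bc_diag {n : ℕ} (Y : Matrix (Fin n) (Fin n) ℂ) (i : Fin n)
    (h : ∀ (k : ℕ), (Y ^ k) i i = (Y i i) ^ k) :
    (NormedSpace.exp Y) i i = Complex.exp (Y i i) := by
  have h1 := bc_hasSum Y i i
  have h2 := NormedSpace.exp_series_hasSum_exp' (𝕂 := ℂ) (Y i i)
  have h3 : (fun k : ℕ => (k.factorial : ℂ)⁻¹ * (Y ^ k) i i) =
      fun k : ℕ => (k.factorial : ℂ)⁻¹ • (Y i i) ^ k := by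
    funext k
    rw [h k, smul_eq_mul]
  rw [h3] at h1
  rw [h1.unique h2, ← Complex.exp_eq_exp_ℂ]

end

open scoped SchwartzMap Matrix.Norms.Elementwise ComplexConjugate ContDiff Topology
open Matrix MeasureTheory Filter Asymptotics
open Pool.Agent.Work.MP_dd0ddf_al

noncomputable section

variable {n : ℕ}

theorem up_mul {b c : Mat n} (hb : Up b) (hc : Up c) :
    Up (b * c) ∧ ∀ i, (b * c) i i = b i i * c i i := by
  constructor
  · intro i j hij
    rw [Matrix.mul_apply]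
    refine Finset.sum_eq_zero fun k _ => ?_
    rcases lt_or_ge k i with h | h
    · rw [hb i k h, zero_mul]
    · rw [hc k j (lt_of_lt_of_le hij h), mul_zero]
  · intro i
    rw [Matrix.mul_apply]
    refine Finset.sum_eq_single i (fun k _ hk => ?_) (fun h => absurd (Finset.mem_univ i) h)
    rcases lt_or_gt_of_ne hk with h | h
    · rw [hb i k h, zero_mul]
    · rw [hc k i h, mul_zero]

private theorem bc_pow {Y : Mat n} (hY : Up Y) (k : ℕ) :
    Up (Y ^ k) ∧ ∀ i, (Y ^ k) i i = (Y i i) ^ k := by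
  induction k with
  | zero =>
    rw [pow_zero]
    refine ⟨fun i j hij => Matrix.one_apply_ne (ne_of_gt hij), fun i => ?_⟩
    rw [Matrix.one_apply_eq, pow_zero]
  | succ k ih =>
    rw [pow_succ]
    have h := up_mul ih.1 hY
    refine ⟨h.1, fun i => ?_⟩
    rw [h.2 i, ih.2 i, pow_succ]

theorem up_exp {Y : Mat n} (hY : Up Y) :
    Up (NormedSpace.exp Y) ∧ ∀ i, NormedSpace.exp Y i i = Complex.exp (Y i i) :=
  ⟨fun i j hij => bc_tri Y (fun k i j h => (bc_pow hY k).1 i j h) i j hij,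
    fun i => bc_diag Y i fun k => (bc_pow hY k).2 i⟩

private theorem bc_chr (s : ℂ) (k : ℤ) (z w : ℂ) : chr s k (z * w) = chr s k z * chr s k w := by
  unfold chr
  rw [norm_mul, Complex.ofReal_mul,
    Complex.mul_cpow_ofReal_nonneg (norm_nonneg z) (norm_nonneg w), mul_div_mul_comm, mul_zpow]
  ring

theorem chm_mul (s : Fin n → ℂ) (k : Fin n → ℤ) {b c : Mat n} (hb : Up b) (hb' : b.det ≠ 0)
    (hc : Up c) (hc' : c.det ≠ 0) : chm s k (b * c) = chm s k b * chm s k c := by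
  unfold chm
  rw [← Finset.prod_mul_distrib]
  refine Finset.prod_congr rfl fun j _ => ?_
  rw [(up_mul hb hc).2 j, bc_chr, norm_mul, Complex.ofReal_mul, mul_zpow]
  ring

private theorem bc_cpow (x : ℝ) (s : ℂ) :
    ((Real.exp x : ℝ) : ℂ) ^ s = Complex.exp ((x : ℂ) * s) := by
  have h : ((Real.exp x : ℝ) : ℂ) ≠ 0 := Complex.ofReal_ne_zero.2 (Real.exp_pos x).ne'
  rw [Complex.cpow_def_of_ne_zero h, ← Complex.ofReal_log (Real.exp_pos x).le, Real.log_exp]

private theorem bc_fac (a b : ℂ) (k m : ℤ) (hk : (k : ℂ) = a - b) (w : ℂ) :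
    chr (a + b + (m : ℂ)) k (Complex.exp w) * ((‖Complex.exp w‖ : ℝ) : ℂ) ^ (-m) =
      Complex.exp (w * a + conj w * b) := by
  have h1 : ‖Complex.exp w‖ = Real.exp w.re := Complex.norm_exp w
  have h2 : Complex.exp w / ((Real.exp w.re : ℝ) : ℂ) = Complex.exp (w - (w.re : ℂ)) := by
    rw [Complex.exp_sub, Complex.ofReal_exp]
  have h3 : (Complex.exp (w - (w.re : ℂ))) ^ k = Complex.exp ((k : ℂ) * (w - (w.re : ℂ))) :=
    (Complex.exp_int_mul _ _).symm
  have h4 : (((Real.exp w.re : ℝ) : ℂ)) ^ (-m) = Complex.exp (((-m : ℤ) : ℂ) * (w.re : ℂ)) := by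
    rw [Complex.exp_int_mul, Complex.ofReal_exp]
  have h5 : conj w = 2 * (w.re : ℂ) - w := by
    apply Complex.ext
    · simp
      ring
    · simp
  unfold chr
  rw [h1, h2, h3, h4, bc_cpow, ← Complex.exp_add, ← Complex.exp_add, h5, hk]
  congr 1
  push_cast
  ring

theorem chm_exp (a b : Fin n → ℂ) (k : Fin n → ℤ) (hk : ∀ i, (k i : ℂ) = a i - b i)
    {Y : Mat n} (hY : Up Y) :
    chm (fun i => a i + b i + ((n : ℂ) - 1 - 2 * (i : ℕ))) k (NormedSpace.exp Y) =
      Complex.exp (cw a b Y) := by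
  unfold chm cw
  rw [Complex.exp_sum]
  refine Finset.prod_congr rfl fun j _ => ?_
  rw [(up_exp hY).2 j]
  have h := bc_fac (a j) (b j) (k j) ((n : ℤ) - 1 - 2 * (j : ℤ)) (hk j) (Y j j)
  have e : (((n : ℤ) - 1 - 2 * (j : ℤ) : ℤ) : ℂ) = (n : ℂ) - 1 - 2 * ((j : ℕ) : ℂ) := by
    push_cast
    rfl
  rw [e] at h
  exact h

end

end Pool.Agent.Work.MP_dd0ddf_al.AR
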