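import Pool.Agent.Work.MP_dd0ddf_al.AR.BCs

/-!
# MP_dd0ddf_al, archimedean part, block R, module BDen


Dense image.

PROOF. `S0 = (TGm n).map A` is a subspace of `P`, `(S0 : Set P) = A '' TGs (GLs n)`.  `S = S0.topologicalClosure` is closed and invariant: for `h ∈ GLn n`, `π h` is continuous and maps `S0` to `S0`: `π h (A f) = A (f(· h))`,
`f(· h) ∈ TGs (GLs n)` (`TGs_right`); so it maps the closure to the closure (`map_mem_closure` or `image_closure_subset_closure_image`).  By `hπ.irr`: `S = ⊥` (impossible by `hne`) or `S = ⊤`, so `S0` is dense.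
-/

set_option linter.unusedSectionVars false

namespace Pool.Agent.Work.MP_dd0ddf_al.AR

open scoped SchwartzMap Matrix.Norms.Elementwise ComplexConjugate ContDiff Topology
open Matrix MeasureTheory Filter Asymptotics
open Pool.Agent.Work.MP_dd0ddf_al

noncomputable section

variable {n : ℕ} {P : Type*} [AddCommGroup P] [Module ℂ P] [UniformSpace P] [IsUniformAddGroup P]
  [ContinuousSMul ℂ P] [PolynormableSpace ℂ P] [T2Space P] [CompleteSpace P]
  [FirstCountableTopology P]

theorem A_dense (π : GLn n →* (P →L[ℂ] P)) (hπ : IsCW π) {A : (Mat n → ℂ) →ₗ[ℂ] P}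
    (hr : ∀ h : GLn n, ∀ f ∈ TGs (GLs n), A (fun g => f (g * (h : Mat n))) = π h (A f))
    (hne : ∃ f ∈ TGs (GLs n), A f ≠ 0) : Dense (A '' TGs (GLs n)) := by
  have hS0 : (((TGm n).map A : Submodule ℂ P) : Set P) = A '' TGs (GLs n) := by
    rw [Submodule.map_coe]
    rfl
  have hinv : ∀ g : GLn n, ∀ v ∈ ((TGm n).map A).topologicalClosure,
      π g v ∈ ((TGm n).map A).topologicalClosure := by
    intro g v hv
    have h1 : v ∈ closure (((TGm n).map A : Submodule ℂ P) : Set P) := hv
    have h2 : Set.MapsTo (π g) (((TGm n).map A : Submodule ℂ P) : Set P)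
        (((TGm n).map A : Submodule ℂ P) : Set P) := by
      rw [hS0]
      rintro _ ⟨f, hf, rfl⟩
      exact ⟨_, TGs_right hf g, hr g f hf⟩
    have h3 := map_mem_closure (π g).continuous h1 h2
    exact h3
  rcases hπ.irr _ (Submodule.isClosed_topologicalClosure _) hinv with h | h
  · exfalso
    obtain ⟨f, hf, hne⟩ := hne
    have h1 : A f ∈ ((TGm n).map A).topologicalClosure :=
      Submodule.le_topologicalClosure _ (Submodule.mem_map_of_mem (mem_TGm.2 hf))
    rw [h, Submodule.mem_bot] at h1
    exact hne h1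
  · intro x
    rw [← hS0]
    have h1 : x ∈ ((TGm n).map A).topologicalClosure := by
      rw [h]
      exact Submodule.mem_top
    exact h1

end

end Pool.Agent.Work.MP_dd0ddf_al.AR
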