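import Pool.Agent.Work.MP_dd0ddf_al.AR.RBDefs

/-!
# MP_dd0ddf_al, archimedean part, block R, module BCs


Compactness in `GL_n(ℂ)`, translates of test functions.

PROOF. `cpt_pre`: on `GLs n` the map `X ↦ X⁻¹` is continuous (`Matrix.inv_def`, `continuousOn`, `det ≠ 0`), so the map from the subtype `K` to `GLn n`,
`X ↦ ⟨X, X⁻¹, ..⟩` is continuous (`Units.continuous_iff`) with range the given set; `K` is compact (see the proof of the `CompactSpace` instance in RKDefs).
`TGK_left`: `K'` = image of `S × K` under `(g, X) ↦ g⁻¹ X` (continuous), compact, in `GLs n`; if `f(g X) ≠ 0` then `g X ∈ K`, so `X = g⁻¹(g X) ∈ K'`; the function is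
smooth (`X ↦ g X` is linear).  `TGK_right`: the same.
`TG_cs`: continuity: `f` is smooth; the support is contained in the compact (hence closed) set of `cpt_pre`
(`HasCompactSupport.intro`).
-/

set_option linter.unusedSectionVars false

namespace Pool.Agent.Work.MP_dd0ddf_al.AR

open scoped SchwartzMap Matrix.Norms.Elementwise ComplexConjugate ContDiff Topology
open Matrix MeasureTheory Filter Asymptotics
open Pool.Agent.Work.MP_dd0ddf_al

noncomputable section

variable {n : ℕ}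

private theorem bcs_inv_cont {K : Set (Mat n)} (hKG : K ⊆ GLs n) :
    Continuous fun x : K => ((x : Mat n))⁻¹ := by
  have h1 : (fun x : K => ((x : Mat n))⁻¹) =
      fun x : K => ((x : Mat n).det)⁻¹ • (x : Mat n).adjugate := by
    funext x
    rw [Matrix.inv_def, Ring.inverse_eq_inv']
  rw [h1]
  exact ((Continuous.matrix_det continuous_subtype_val).inv₀ fun x => hKG x.2).smul
    (Continuous.matrix_adjugate continuous_subtype_val)

private theorem bcs_mul_left (g : Mat n) : ContDiff ℝ ∞ (fun X : Mat n => g * X) := by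
  have h1 : IsLinearMap ℝ (fun X : Mat n => g * X) := by
    constructor
    · intro x y; exact Matrix.mul_add _ _ _
    · intro c x; exact Matrix.mul_smul _ _ _
  exact (h1.mk' _).toContinuousLinearMap.contDiff

private theorem bcs_mul_right (g : Mat n) : ContDiff ℝ ∞ (fun X : Mat n => X * g) := by
  have h1 : IsLinearMap ℝ (fun X : Mat n => X * g) := by
    constructor
    · intro x y; exact Matrix.add_mul _ _ _
    · intro c x; exact Matrix.smul_mul _ _ _
  exact (h1.mk' _).toContinuousLinearMap.contDiff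

private theorem bcs_det (g : GLn n) : ((g : Mat n)).det ≠ 0 := by
  intro h
  have h1 : (g : Mat n) * ((g⁻¹ : GLn n) : Mat n) = 1 := by
    rw [← Units.val_mul, mul_inv_cancel, Units.val_one]
  have h2 := congrArg Matrix.det h1
  rw [Matrix.det_mul, h, zero_mul, Matrix.det_one] at h2
  exact zero_ne_one h2

theorem cpt_pre {K : Set (Mat n)} (hK : IsCompact K) (hKG : K ⊆ GLs n) :
    IsCompact {g : GLn n | (g : Mat n) ∈ K} := by
  have hcs : CompactSpace K := isCompact_iff_compactSpace.mp hK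
  have hu : ∀ x : K, IsUnit ((x : Mat n)).det := fun x => isUnit_iff_ne_zero.2 (hKG x.2)
  let F : K → GLn n := fun x => ⟨(x : Mat n), ((x : Mat n))⁻¹, Matrix.mul_nonsing_inv _ (hu x),
    Matrix.nonsing_inv_mul _ (hu x)⟩
  have hF : Continuous F := by
    rw [Units.continuous_iff]
    exact ⟨continuous_subtype_val, bcs_inv_cont hKG⟩
  have hr : {g : GLn n | (g : Mat n) ∈ K} = Set.range F := by
    ext g
    constructor
    · intro hg
      exact ⟨⟨(g : Mat n), hg⟩, Units.ext rfl⟩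
    · rintro ⟨x, rfl⟩
      exact x.2
  rw [hr]
  exact isCompact_range hF

theorem TGK_left {K : Set (Mat n)} (hK : IsCompact K) (hKG : K ⊆ GLs n) {S : Set (GLn n)}
    (hS : IsCompact S) : ∃ K' : Set (Mat n), IsCompact K' ∧ K' ⊆ GLs n ∧ ∀ g ∈ S, ∀ f ∈ TGK K,
      (fun X => f ((g : Mat n) * X)) ∈ TGK K' := by
  have hc : Continuous fun p : GLn n × Mat n => ((p.1⁻¹ : GLn n) : Mat n) * p.2 :=
    Continuous.matrix_mul (Units.continuous_val.comp (continuous_inv.comp continuous_fst))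
      continuous_snd
  refine ⟨(fun p : GLn n × Mat n => ((p.1⁻¹ : GLn n) : Mat n) * p.2) '' (S ×ˢ K),
    (hS.prod hK).image hc, ?_, ?_⟩
  · rintro _ ⟨⟨g, X⟩, ⟨-, hX⟩, rfl⟩
    show (((g⁻¹ : GLn n) : Mat n) * X).det ≠ 0
    rw [Matrix.det_mul]
    exact mul_ne_zero (bcs_det _) (hKG hX)
  · intro g hg f hf
    refine ⟨hf.1.comp (bcs_mul_left (g : Mat n)), fun X hX => ?_⟩
    refine hf.2 _ fun h => hX ?_
    refine ⟨(g, (g : Mat n) * X), ⟨hg, h⟩, ?_⟩
    show ((g⁻¹ : GLn n) : Mat n) * ((g : Mat n) * X) = X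
    rw [← Matrix.mul_assoc, ← Units.val_mul, inv_mul_cancel, Units.val_one, Matrix.one_mul]

theorem TGK_right {K : Set (Mat n)} (hK : IsCompact K) (hKG : K ⊆ GLs n) {S : Set (GLn n)}
    (hS : IsCompact S) : ∃ K' : Set (Mat n), IsCompact K' ∧ K' ⊆ GLs n ∧ ∀ g ∈ S, ∀ f ∈ TGK K,
      (fun X => f (X * (g : Mat n))) ∈ TGK K' := by
  have hc : Continuous fun p : GLn n × Mat n => p.2 * ((p.1⁻¹ : GLn n) : Mat n) :=
    Continuous.matrix_mul continuous_snd
      (Units.continuous_val.comp (continuous_inv.comp continuous_fst))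
  refine ⟨(fun p : GLn n × Mat n => p.2 * ((p.1⁻¹ : GLn n) : Mat n)) '' (S ×ˢ K),
    (hS.prod hK).image hc, ?_, ?_⟩
  · rintro _ ⟨⟨g, X⟩, ⟨-, hX⟩, rfl⟩
    show (X * ((g⁻¹ : GLn n) : Mat n)).det ≠ 0
    rw [Matrix.det_mul]
    exact mul_ne_zero (hKG hX) (bcs_det _)
  · intro g hg f hf
    refine ⟨hf.1.comp (bcs_mul_right (g : Mat n)), fun X hX => ?_⟩
    refine hf.2 _ fun h => hX ?_
    refine ⟨(g, X * (g : Mat n)), ⟨hg, h⟩, ?_⟩
    show X * (g : Mat n) * ((g⁻¹ : GLn n) : Mat n) = X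
    rw [Matrix.mul_assoc, ← Units.val_mul, mul_inv_cancel, Units.val_one, Matrix.mul_one]

theorem TG_cs {f : Mat n → ℂ} (hf : f ∈ TGs (GLs n)) :
    Continuous (fun g : GLn n => f (g : Mat n)) ∧
      HasCompactSupport (fun g : GLn n => f (g : Mat n)) := by
  obtain ⟨K, hK, hKG, hf⟩ := hf
  refine ⟨hf.1.continuous.comp Units.continuous_val, ?_⟩
  exact HasCompactSupport.intro (cpt_pre hK hKG) fun g hg => hf.2 _ hg

theorem TGs_left {f : Mat n → ℂ} (hf : f ∈ TGs (GLs n)) (g : GLn n) :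
    (fun X => f ((g : Mat n) * X)) ∈ TGs (GLs n) := by
  obtain ⟨K, hK, hKG, hf⟩ := hf
  obtain ⟨K', hK', hKG', h⟩ := TGK_left hK hKG (isCompact_singleton (x := g))
  exact ⟨K', hK', hKG', h g rfl f hf⟩

theorem TGs_right {f : Mat n → ℂ} (hf : f ∈ TGs (GLs n)) (g : GLn n) :
    (fun X => f (X * (g : Mat n))) ∈ TGs (GLs n) := by
  obtain ⟨K, hK, hKG, hf⟩ := hf
  obtain ⟨K', hK', hKG', h⟩ := TGK_right hK hKG (isCompact_singleton (x := g))
  exact ⟨K', hK', hKG', h g rfl f hf⟩

end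

end Pool.Agent.Work.MP_dd0ddf_al.AR
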