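import Pool.Agent.Work.MP_dd0ddf_al.AR.RBDefs
import Pool.Agent.Work.MP_dd0ddf_al.AR.BCs

/-!
# MP_dd0ddf_al, archimedean part, block R, module BAid


A test function which detects a continuous function on `GL_n(ℂ)`.

PROOF. `U = {g | ‖F 1‖^2/2 < Re(conj(F 1) F g)}` is an open neighbourhood of `1` in `GLn n`.  The map `Units.val : GLn n → Mat n` is an open embedding onto `GLs n`
(`Units.isOpenEmbedding_val` or similar in a complete normed ring: `Mat n` with an operator norm; if only the topology is needed: the inverse map `X ↦ ⟨X, X⁻¹⟩` is continuous on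
`GLs n`, see the proof of `CompactSpace (KU n)` in RKDefs), so there is `ε > 0` with: every `X` with `‖X - 1‖ ≤ ε` is invertible, in the image of `U`.  Let `χ : ContDiffBump (1 : Mat n)` with
`rIn = ε/2`, `rOut = ε` (`Mat n` is a finite dimensional real normed space), `f X = (χ X : ℂ)`; `f ∈ TGK (closedBall 1 ε)`.  Then `Re(conj(F 1) ∫ f F) = ∫ χ(g) Re(conj(F 1) F g) dg ≥ (‖F 1‖^2/2) ∫ χ(g) dg > 0`
(`χ ≥ 0` is continuous with compact support on `GLn n`, positive on a nonempty open set; `Continuous.integral_pos_of_hasCompactSupport_nonneg_nonzero`; the Haar measure is positive on open sets; compactness of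
the support in `GLn n`: the preimage of a compact subset of `GLs n` is compact, same argument as above; the module BCs proves `cpt_pre` and `TG_cs`, you may import it).
-/

set_option linter.unusedSectionVars false

namespace Pool.Agent.Work.MP_dd0ddf_al.AR

open scoped SchwartzMap Matrix.Norms.Elementwise ComplexConjugate ContDiff Topology
open Matrix MeasureTheory Filter Asymptotics
open Pool.Agent.Work.MP_dd0ddf_al

noncomputable section

variable {n : ℕ}

private def baMk (X : {X : Mat n // X.det ≠ 0}) : GLn n :=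
  Matrix.GeneralLinearGroup.mkOfDetNeZero X.1 X.2

private theorem baMk_val (X : {X : Mat n // X.det ≠ 0}) : ((baMk X : GLn n) : Mat n) = X.1 := rfl

private theorem baMk_cont : Continuous (baMk (n := n)) := by
  rw [Units.continuous_iff]
  refine ⟨continuous_subtype_val, ?_⟩
  have h : ∀ X : {X : Mat n // X.det ≠ 0}, ((baMk X)⁻¹ : GLn n).val = (X.1.det)⁻¹ • X.1.adjugate := by
    intro X
    have h1 : ((baMk X)⁻¹ : GLn n).val = (X.1)⁻¹ := by
      rw [Matrix.coe_units_inv]
      rfl
    rw [h1, Matrix.inv_def, Ring.inverse_eq_inv']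
  have h2 : (fun X : {X : Mat n // X.det ≠ 0} => ((baMk X)⁻¹ : GLn n).val) =
      fun X => (X.1.det)⁻¹ • X.1.adjugate := funext h
  rw [h2]
  have h3 : Continuous fun X : {X : Mat n // X.det ≠ 0} => X.1.det :=
    continuous_subtype_val.matrix_det
  exact (h3.inv₀ fun X => X.2).smul continuous_subtype_val.matrix_adjugate

private theorem baNh {U : Set (GLn n)} (hU : IsOpen U) (h1 : (1 : GLn n) ∈ U) :
    {X : Mat n | ∃ g ∈ U, ((g : GLn n) : Mat n) = X} ∈ 𝓝 (1 : Mat n) := by
  have h2 : IsOpen (baMk (n := n) ⁻¹' U) := hU.preimage baMk_cont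
  have h3 : IsOpen (Subtype.val '' (baMk (n := n) ⁻¹' U) : Set (Mat n)) :=
    (isOpen_GLs n).isOpenMap_subtype_val _ h2
  have h4 : (1 : Mat n) ∈ (Subtype.val '' (baMk (n := n) ⁻¹' U) : Set (Mat n)) := by
    refine ⟨⟨1, by rw [Matrix.det_one]; exact one_ne_zero⟩, ?_, rfl⟩
    have h5 : baMk (n := n) ⟨1, by rw [Matrix.det_one]; exact one_ne_zero⟩ = 1 := Units.ext rfl
    change baMk (n := n) _ ∈ U
    rw [h5]
    exact h1
  refine Filter.mem_of_superset (h3.mem_nhds h4) ?_
  rintro X ⟨Y, hY, rfl⟩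
  exact ⟨baMk Y, hY, rfl⟩

theorem exists_test (F : GLn n → ℂ) (hF : Continuous F) (h1 : F 1 ≠ 0) :
    ∃ f ∈ TGs (GLs n), ∫ g : GLn n, f (g : Mat n) * F g ∂(CW.hG n) ≠ 0 := by
  obtain ⟨χ, hχU⟩ : ∃ χ : ContDiffBump (1 : Mat n), ∀ X ∈ Metric.closedBall (1 : Mat n) χ.rOut,
      ∃ g : GLn n, 0 < (conj (F 1) * F g).re ∧ ((g : GLn n) : Mat n) = X := by
    have hc : Continuous fun g : GLn n => (conj (F 1) * F g).re :=
      Complex.continuous_re.comp (continuous_const.mul hF)
    have hU : IsOpen {g : GLn n | 0 < (conj (F 1) * F g).re} := isOpen_lt continuous_const hc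
    have h1U : (1 : GLn n) ∈ {g : GLn n | 0 < (conj (F 1) * F g).re} := by
      change 0 < (conj (F 1) * F 1).re
      rw [← Complex.normSq_eq_conj_mul_self, Complex.ofReal_re]
      exact Complex.normSq_pos.mpr h1
    obtain ⟨ε, hε, hb⟩ := Metric.nhds_basis_closedBall.mem_iff.mp (baNh hU h1U)
    refine ⟨⟨ε / 2, ε, by positivity, by linarith⟩, fun X hX => ?_⟩
    obtain ⟨g, hg, hgX⟩ := hb hX
    exact ⟨g, hg, hgX⟩
  have hf : (fun X : Mat n => ((χ X : ℝ) : ℂ)) ∈ TGs (GLs n) := by
    refine ⟨Metric.closedBall (1 : Mat n) χ.rOut, isCompact_closedBall _ _, ?_, ?_, ?_⟩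
    · intro X hX
      obtain ⟨g, -, rfl⟩ := hχU X hX
      have h := (Matrix.isUnit_iff_isUnit_det ((g : GLn n) : Mat n)).mp g.isUnit
      exact h.ne_zero
    · exact Complex.ofRealCLM.contDiff.comp χ.contDiff
    · intro X hX
      have h : χ.rOut ≤ dist X 1 := by
        rw [Metric.mem_closedBall, not_le] at hX
        exact hX.le
      change ((χ X : ℝ) : ℂ) = 0
      rw [χ.zero_of_le_dist h, Complex.ofReal_zero]
  refine ⟨_, hf, fun hI => ?_⟩
  obtain ⟨hc, hcs⟩ := TG_cs hf
  have hcF : Continuous fun g : GLn n => ((χ (g : Mat n) : ℝ) : ℂ) * F g := hc.mul hF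
  have hcsF : HasCompactSupport fun g : GLn n => ((χ (g : Mat n) : ℝ) : ℂ) * F g := hcs.mul_right
  have hint : Integrable (fun g : GLn n => ((χ (g : Mat n) : ℝ) : ℂ) * F g) (CW.hG n) :=
    hcF.integrable_of_hasCompactSupport hcsF
  have hpos : 0 < ∫ g : GLn n, Complex.reCLM (conj (F 1) * (((χ (g : Mat n) : ℝ) : ℂ) * F g))
      ∂(CW.hG n) := by
    have e : ∀ g : GLn n, Complex.reCLM (conj (F 1) * (((χ (g : Mat n) : ℝ) : ℂ) * F g)) =
        χ (g : Mat n) * (conj (F 1) * F g).re := by
      intro g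
      rw [Complex.reCLM_apply, mul_left_comm, Complex.re_ofReal_mul]
    have hc2 : Continuous fun g : GLn n =>
        Complex.reCLM (conj (F 1) * (((χ (g : Mat n) : ℝ) : ℂ) * F g)) :=
      Complex.reCLM.continuous.comp (continuous_const.mul hcF)
    have hcs2 : HasCompactSupport fun g : GLn n =>
        Complex.reCLM (conj (F 1) * (((χ (g : Mat n) : ℝ) : ℂ) * F g)) :=
      (hcsF.mul_left (f := fun _ => conj (F 1))).comp_left (map_zero Complex.reCLM)
    refine hc2.integral_pos_of_hasCompactSupport_nonneg_nonzero hcs2 (fun g => ?_) (x := 1) ?_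
    · change 0 ≤ Complex.reCLM (conj (F 1) * (((χ (g : Mat n) : ℝ) : ℂ) * F g))
      rw [e]
      by_cases hg : χ.rOut ≤ dist (g : Mat n) 1
      · rw [χ.zero_of_le_dist hg, zero_mul]
      · obtain ⟨g', h2, h3⟩ := hχU (g : Mat n) (Metric.mem_closedBall.mpr (not_le.mp hg).le)
        have h4 : g' = g := Units.ext h3
        rw [h4] at h2
        exact mul_nonneg χ.nonneg h2.le
    · rw [e]
      have h2 : χ ((1 : GLn n) : Mat n) = 1 := by
        rw [Units.val_one]
        exact χ.one_of_mem_closedBall (Metric.mem_closedBall_self χ.rIn_pos.le)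
      rw [h2, one_mul, ← Complex.normSq_eq_conj_mul_self, Complex.ofReal_re]
      exact (Complex.normSq_pos.mpr h1).ne'
  rw [Complex.reCLM.integral_comp_comm (hint.const_mul _), integral_const_mul, hI, mul_zero,
    map_zero] at hpos
  exact lt_irrefl _ hpos

end

end Pool.Agent.Work.MP_dd0ddf_al.AR
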