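import Pool.Agent.Work.MP_dd0ddf_al.AR.BPi
import Pool.Agent.Work.MP_dd0ddf_al.CW.Uni

/-!
# MP_dd0ddf_al, archimedean part, block R, module BPe


Equivariance of `π(f) y`.

PROOF. `ext_functional`, `piF_spec` (`TGs_left`, `TGs_right`).  Left: `l(piF π f_g y) = ∫ f(g x) l(π(x⁻¹) y) dx`; with
`F(x) = f(x) l(π(x⁻¹) (π(g) y))`: `F(g x) = f(g x) l(π(x⁻¹ g⁻¹ g) y)` is the integrand (`mul_inv_rev`, `map_mul`), and `∫ F(g x) dx = ∫ F(x) dx`
(`integral_mul_left_eq_self`; if the statement asks for a `MeasurableMul`, it follows from the topological group structure, see CW/Defs).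
Right: `l(π(h) z) = (l.comp (π h)) z`; with `F(x) = f(x) l(π(h) π(x⁻¹) y)`: `F(x h) = f(x h) l(π(h h⁻¹ x⁻¹) y)`; `∫ F(x h) dx = ∫ F(x) dx`
(`integral_mul_right_eq_self`, the instance `CW.hG_right`).
-/

set_option linter.unusedSectionVars false

namespace Pool.Agent.Work.MP_dd0ddf_al.AR

open scoped SchwartzMap Matrix.Norms.Elementwise ComplexConjugate ContDiff Topology
open Matrix MeasureTheory Filter Asymptotics
open Pool.Agent.Work.MP_dd0ddf_al

noncomputable section

variable {n : ℕ} {P : Type*} [AddCommGroup P] [Module ℂ P] [UniformSpace P] [IsUniformAddGroup P]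
  [ContinuousSMul ℂ P] [PolynormableSpace ℂ P] [T2Space P] [CompleteSpace P]
  [FirstCountableTopology P]

private theorem BPe_mul (π : GLn n →* (P →L[ℂ] P)) (a b : GLn n) (y : P) :
    π a (π b y) = π (a * b) y := by
  rw [map_mul]
  rfl

theorem piF_left (π : GLn n →* (P →L[ℂ] P)) (hπ : IsCW π) (g : GLn n) {f : Mat n → ℂ}
    (hf : f ∈ TGs (GLs n)) (y : P) :
    piF π (fun X => f ((g : Mat n) * X)) y = piF π f (π g y) := by
  apply ext_functional
  intro l
  rw [piF_spec π hπ (TGs_left hf g), piF_spec π hπ hf]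
  rw [← integral_mul_left_eq_self (μ := CW.hG n)
    (fun x : GLn n => f (x : Mat n) * l (π x⁻¹ (π g y))) g]
  refine integral_congr_ae (Filter.Eventually.of_forall fun x => ?_)
  have h1 : π (g * x)⁻¹ (π g y) = π x⁻¹ y := by
    rw [BPe_mul, _root_.mul_inv_rev, inv_mul_cancel_right]
  show f ((g : Mat n) * (x : Mat n)) * l (π x⁻¹ y) =
    f (((g * x : GLn n) : Mat n)) * l (π (g * x)⁻¹ (π g y))
  rw [h1, Units.val_mul]

theorem piF_right (π : GLn n →* (P →L[ℂ] P)) (hπ : IsCW π) (h : GLn n) {f : Mat n → ℂ}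
    (hf : f ∈ TGs (GLs n)) (y : P) :
    piF π (fun X => f (X * (h : Mat n))) y = π h (piF π f y) := by
  apply ext_functional
  intro l
  have h0 : l (π h (piF π f y)) = (l.comp (π h)) (piF π f y) := rfl
  rw [h0, piF_spec π hπ (TGs_right hf h), piF_spec π hπ hf]
  rw [← integral_mul_right_eq_self (μ := CW.hG n)
    (fun x : GLn n => f (x : Mat n) * (l.comp (π h)) (π x⁻¹ y)) h]
  refine integral_congr_ae (Filter.Eventually.of_forall fun x => ?_)
  have h1 : π h (π (x * h)⁻¹ y) = π x⁻¹ y := by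
    rw [BPe_mul, _root_.mul_inv_rev, mul_inv_cancel_left]
  show f ((x : Mat n) * (h : Mat n)) * l (π x⁻¹ y) =
    f (((x * h : GLn n) : Mat n)) * l (π h (π (x * h)⁻¹ y))
  rw [h1, Units.val_mul]

end

end Pool.Agent.Work.MP_dd0ddf_al.AR
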