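import Pool.Agent.Work.MP_dd0ddf_al.AR.BLim
import Pool.Agent.Work.MP_dd0ddf_al.AR.BPe
import Pool.Agent.Work.MP_dd0ddf_al.AR.BAid
import Pool.Agent.Work.MP_dd0ddf_al.AR.KPb
import Pool.Agent.Work.MP_dd0ddf_al.AR.KPf

/-!
# MP_dd0ddf_al, archimedean part, block R, module BNz


`A` is not zero.

PROOF. Suppose `A f = 0` for all test functions.  `hu.ne`, `mem_YK`: `D0`, `l ∈ Yd π D0`, `u l ≠ 0`.  `κ` from `PK_kernel n D0`, `κ'(k) = conj(κ(k⁻¹))`, `κ' ∈ PK n D0` (`PK_inv`, `PK_conj`).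
(1) For `l' ∈ Yd π D0`, `v ∈ P`: `f(k) = l'(π(k) v)` is in `PK n D0`, so `l'(v) = ∫ conj(κ k) l'(π(k) v) dk = ∫ κ'(k) l'(π(k⁻¹) v) dk` (`integral_inv_eq_self`).
(2) `w ∈ P` with `m(w) = ∫ κ'(k) m(π(k⁻¹) x_D0) dk` for all `m` (`weak_integral` on the compact space `KU n`).  By (1) `l(w) = l(x_D0) = u l ≠ 0`.
(3) Claim: `m(piF π f w) = 0` for all `f ∈ TGs (GLs n)` and `m`.  `T` from `piF_cont`, `m_f = m.comp T`.  `l1 ∈ Yd π D0` from `K_functional` for `κ'` and `m_f`: `l1 v = ∫ κ'(k) m_f(π(k⁻¹) v) dk`.  For `D ≥ D0`: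
`m_f(w) = l1(x_D0) = u l1 = l1(x_D) = ∫ κ'(k) m(piF π f (π(k⁻¹) x_D)) dk = ∫ κ'(k) m(piF π (f(k⁻¹ ·)) x_D) dk` (`piF_left` for `g = k⁻¹`).  For fixed `k` the integrand tends to
`κ'(k) m(A(f(k⁻¹ ·))) = 0` (`hA`, `TGs_left`); it is bounded uniformly in `k, D`: `f ∈ TGK K`, `K'` from `TGK_left` for `S` = the image of `KU n` in `GLn n` (compact), `|m v| ≤ p v` (`functional_bound`),
`unif_bound` for `K', p`; `DBd_left` (`‖k⁻¹‖ ≤ 1`) and `DBd_exists`.  Dominated convergence (`tendsto_integral_of_dominated_convergence`; the integrands are continuous in `k`: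
`k ↦ m_f(π(k⁻¹) x_D)`): `m_f(w) = 0`.
(4) `F(g) = l(π(g⁻¹) w)` is continuous, `F 1 = l w ≠ 0`; `exists_test`: `f` with `0 ≠ ∫ f F = l(piF π f w)` (`piF_spec`), contradiction to (3).
-/

set_option linter.unusedSectionVars false

namespace Pool.Agent.Work.MP_dd0ddf_al.AR

open scoped SchwartzMap Matrix.Norms.Elementwise ComplexConjugate ContDiff Topology
open Matrix MeasureTheory Filter Asymptotics
open Pool.Agent.Work.MP_dd0ddf_al

noncomputable section

variable {n : ℕ} {P : Type*} [AddCommGroup P] [Module ℂ P] [UniformSpace P] [IsUniformAddGroup P]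
  [ContinuousSMul ℂ P] [PolynormableSpace ℂ P] [T2Space P] [CompleteSpace P]
  [FirstCountableTopology P]

private theorem bnz_norm (k : KU n) : ‖(((k : GLn n)⁻¹ : GLn n) : Mat n)‖ ≤ 1 := by
  rw [Matrix.norm_le_iff zero_le_one]
  intro i j
  have h := KU_entry k⁻¹ i j
  exact h

theorem A_ne (π : GLn n →* (P →L[ℂ] P)) (hπ : IsCW π) (d : Mat n → P →L[ℂ] P)
    (u : (P →L[ℂ] ℂ) →ₗ[ℂ] ℂ) (a b : Fin n → ℂ) (hu : CBE π d u a b) {x : ℕ → P}
    (hx : XD π u x) {A : (Mat n → ℂ) →ₗ[ℂ] P}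
    (hA : ∀ f ∈ TGs (GLs n), Tendsto (fun D => piF π f (x D)) atTop (𝓝 (A f))) :
    ∃ f ∈ TGs (GLs n), A f ≠ 0 := by
  by_contra hcon
  have hA0 : ∀ f ∈ TGs (GLs n), A f = 0 := by
    intro f hf
    by_contra h
    exact hcon ⟨f, hf, h⟩
  obtain ⟨l, hl, hul⟩ := hu.ne
  obtain ⟨D0, hl⟩ := mem_YK.1 hl
  obtain ⟨κ, hκ, hκ1, -⟩ := PK_kernel n D0
  set κ' : KU n → ℂ := fun k => conj (κ k⁻¹) with hκ'def
  have hκ' : κ' ∈ PK n D0 := PK_conj (PK_inv hκ)
  have hκc : Continuous κ' := PK_cont hκ'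
  have hcinv : Continuous fun k : KU n => ((k : GLn n)⁻¹ : GLn n) :=
    continuous_subtype_val.inv
  have horb : ∀ v : P, Continuous fun k : KU n => π ((k : GLn n)⁻¹) v := fun v =>
    hπ.cont.comp (hcinv.prodMk continuous_const)
  -- (1)
  have h1 : ∀ l' ∈ Yd π D0, ∀ v : P,
      l' v = ∫ k : KU n, κ' k * l' (π ((k : GLn n)⁻¹) v) ∂(muK n) := by
    intro l' hl' v
    have h2 := hκ1 _ (hl' v)
    rw [← integral_inv_eq_self (fun k : KU n => conj (κ k) * l' (π (k : GLn n) v))] at h2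
    have h3 : l' (π ((1 : KU n) : GLn n) v) = l' v := by simp
    rw [← h3]
    exact h2
  -- (2)
  obtain ⟨w, hw⟩ := weak_integral (muK n) (fun k : KU n => κ' k • π ((k : GLn n)⁻¹) (x D0))
    (hκc.smul (horb _)) (HasCompactSupport.of_compactSpace _)
  have hw' : ∀ m : P →L[ℂ] ℂ, m w = ∫ k : KU n, κ' k * m (π ((k : GLn n)⁻¹) (x D0)) ∂(muK n) := by
    intro m
    rw [hw m]
    refine integral_congr_ae (Eventually.of_forall fun k => ?_)
    simp
  have hlw : l w = u l := by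
    rw [hw' l, ← h1 l hl, hx.val D0 l hl]
  -- (3)
  have h3 : ∀ f ∈ TGs (GLs n), ∀ m : P →L[ℂ] ℂ, m (piF π f w) = 0 := by
    intro f hfs m
    obtain ⟨K, hK, hKG, hf⟩ := hfs
    have hfs : f ∈ TGs (GLs n) := ⟨K, hK, hKG, hf⟩
    obtain ⟨T, hT⟩ := piF_cont π hπ hfs
    obtain ⟨l1, hl1, hl1v⟩ := K_functional π hπ hκ' (m.comp T)
    have e1 : m (piF π f w) = l1 (x D0) := by
      rw [hl1v, ← hT]
      exact hw' (m.comp T)
    have e2 : ∀ D, D0 ≤ D → m (piF π f w) = l1 (x D) := by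
      intro D hD
      rw [e1, hx.val D0 l1 hl1, hx.val D l1 (Yd_mono π hD hl1)]
    have hS : IsCompact (Set.range fun k : KU n => (k : GLn n)) :=
      isCompact_range continuous_subtype_val
    obtain ⟨K', hK', hKG', hKl⟩ := TGK_left hK hKG hS
    obtain ⟨p, hp, hmp⟩ := functional_bound m
    obtain ⟨C, M, hC, hub⟩ := unif_bound π hπ hx hK' hKG' p hp
    obtain ⟨B, hB⟩ := DBd_exists hK hf M
    obtain ⟨C1, hC1, hL⟩ := DBd_left n M 1
    have hmem : ∀ k : KU n, (fun X => f ((((k : GLn n)⁻¹ : GLn n) : Mat n) * X)) ∈ TGK K' := by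
      intro k
      exact hKl _ ⟨k⁻¹, rfl⟩ f hf
    have hval : ∀ (k : KU n) (D : ℕ), (m.comp T) (π ((k : GLn n)⁻¹) (x D)) =
        m (piF π (fun X => f ((((k : GLn n)⁻¹ : GLn n) : Mat n) * X)) (x D)) := by
      intro k D
      rw [piF_left π hπ _ hfs, ← hT]
      rfl
    have hlim : Tendsto (fun D => ∫ k : KU n, κ' k * (m.comp T) (π ((k : GLn n)⁻¹) (x D)) ∂(muK n))
        atTop (𝓝 (∫ k : KU n, (0 : ℂ) ∂(muK n))) := by
      refine tendsto_integral_of_dominated_convergence (fun k => ‖κ' k‖ * (C * (C1 * B)))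
        ?_ ?_ ?_ ?_
      · intro D
        exact (hκc.mul ((m.comp T).continuous.comp (horb _))).aestronglyMeasurable
      · exact (hκc.norm.mul continuous_const).integrable_of_hasCompactSupport
          (HasCompactSupport.of_compactSpace _)
      · intro D
        refine Eventually.of_forall fun k => ?_
        rw [norm_mul, hval]
        refine mul_le_mul_of_nonneg_left ?_ (norm_nonneg _)
        refine (hmp _).trans ?_
        exact hub _ (hmem k) _ (hL _ (bnz_norm k) f hf.1 B hB) D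
      · refine Eventually.of_forall fun k => ?_
        have h4 := hA _ (TGs_left hfs ((k : GLn n)⁻¹))
        rw [hA0 _ (TGs_left hfs ((k : GLn n)⁻¹))] at h4
        have h5 : Tendsto (fun D => m (piF π (fun X =>
            f ((((k : GLn n)⁻¹ : GLn n) : Mat n) * X)) (x D))) atTop (𝓝 0) := by
          have h7 := (m.continuous.tendsto 0).comp h4
          rw [map_zero] at h7
          exact h7
        have h6 := h5.const_mul (κ' k)
        rw [mul_zero] at h6
        refine h6.congr fun D => ?_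
        rw [hval]
    rw [integral_zero] at hlim
    have hconst : Tendsto (fun D => ∫ k : KU n,
        κ' k * (m.comp T) (π ((k : GLn n)⁻¹) (x D)) ∂(muK n)) atTop (𝓝 (m (piF π f w))) := by
      refine tendsto_const_nhds.congr' ?_
      filter_upwards [eventually_ge_atTop D0] with D hD
      rw [e2 D hD, hl1v]
    exact tendsto_nhds_unique hconst hlim
  -- (4)
  have hF : Continuous fun g : GLn n => l (π g⁻¹ w) :=
    l.continuous.comp (hπ.cont.comp (continuous_inv.prodMk continuous_const))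
  have hF1 : l (π (1 : GLn n)⁻¹ w) ≠ 0 := by
    rw [inv_one, map_one]
    show l w ≠ 0
    rw [hlw]
    exact hul
  obtain ⟨f, hf, hne⟩ := exists_test _ hF hF1
  apply hne
  rw [← piF_spec π hπ hf]
  exact h3 f hf l

end

end Pool.Agent.Work.MP_dd0ddf_al.AR
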