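import Pool.Agent.Work.MP_dd0ddf_al.AR.RBDefs

/-!
# MP_dd0ddf_al, archimedean part, block R, module BTriG


Upper triangular invertible matrices are products of exponentials of upper triangular matrices.

PROOF. Downward induction on `m ≤ n`: claim(m): `Q b` for all invertible upper triangular `b` with `b i l = 0` for `i < l`, `l < m` (the columns of index `< m` are diagonal); claim(0) is the theorem.
claim(n): `b` is diagonal with nonzero entries (`det_of_upperTriangular`), `b = exp(diagonal (log b_ii))` (`Matrix.exp_diagonal`, `Complex.exp_log`).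
claim(m+1) → claim(m), `m < n`: let `Z = ∑_(i<m) z_i E_im`, `z_i = -b_im/b_mm`; `Z * Z = 0`, `exp Z = 1 + Z`, `exp (-Z) = 1 - Z` (the series; e.g. from
`NormedSpace.exp_eq_sum` for nilpotent elements, or Mathlib's `IsNilpotent.exp`; or show that `τ ↦ 1 + τ Z` solves the same ODE; see the module RLR or KPh (`exp_rank1`) for such a
computation; or use the power series `NormedSpace.exp_eq_tsum` with `Z^k = 0` for `k ≥ 2`).  `b' = (1 + Z) b` is upper triangular, invertible, `b' i l = b i l + z_i b m l` for `i < m`: for `l < m` unchanged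
(`b m l = 0`), for `l = m` it is `0`.  So `Q b'` by claim(m+1), `Q (1 - Z)` by `h1` for `-Z`, and `b = (1 - Z) b'`, so `Q b` by `hm`.
-/

set_option linter.unusedSectionVars false

namespace Pool.Agent.Work.MP_dd0ddf_al.AR

open scoped SchwartzMap Matrix.Norms.Elementwise ComplexConjugate ContDiff Topology
open Matrix MeasureTheory Filter Asymptotics
open Pool.Agent.Work.MP_dd0ddf_al

noncomputable section

variable {n : ℕ}

private theorem exp_sq {Z : Mat n} (hZ : Z * Z = 0) : NormedSpace.exp Z = 1 + Z := by
  rw [NormedSpace.exp_eq_tsum ℂ]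
  have h : ∀ k ∉ Finset.range 2, ((k.factorial : ℂ)⁻¹) • Z ^ k = 0 := by
    intro k hk
    have hk2 : 2 ≤ k := by
      rw [Finset.mem_range] at hk
      omega
    obtain ⟨j, rfl⟩ := Nat.exists_eq_add_of_le hk2
    rw [pow_add, pow_two, hZ, zero_mul, smul_zero]
  show (∑' k : ℕ, ((k.factorial : ℂ)⁻¹) • Z ^ k) = 1 + Z
  rw [tsum_eq_sum h]
  simp [Finset.sum_range_succ]

private theorem up_det {b : Mat n} (hb : Up b) : b.det = ∏ i, b i i :=
  Matrix.det_of_upperTriangular (M := b) fun i j h => hb i j h

private theorem up_ne {b : Mat n} (hb : Up b) (hb' : b.det ≠ 0) (i : Fin n) : b i i ≠ 0 := by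
  rw [up_det hb] at hb'
  exact fun h => hb' (Finset.prod_eq_zero (Finset.mem_univ i) h)

private theorem upper_aux (Q : Mat n → Prop) (h1 : ∀ Y : Mat n, Up Y → Q (NormedSpace.exp Y))
    (hm : ∀ b c : Mat n, Up b → b.det ≠ 0 → Up c → c.det ≠ 0 → Q b → Q c → Q (b * c)) :
    ∀ (k m : ℕ), m + k = n → ∀ b : Mat n, Up b → b.det ≠ 0 →
      (∀ i l : Fin n, i < l → (l : ℕ) < m → b i l = 0) → Q b := by
  intro k
  induction k with
  | zero =>
    intro m hmn b hb hb' hd
    rw [add_zero] at hmn
    subst hmn
    have e : b = Matrix.diagonal fun i => b i i := by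
      ext i l
      by_cases h : i = l
      · subst h
        rw [Matrix.diagonal_apply_eq]
      · rw [Matrix.diagonal_apply_ne _ h]
        rcases lt_or_gt_of_ne h with h' | h'
        · exact hd i l h' l.2
        · exact hb i l h'
    have e2 : NormedSpace.exp (Matrix.diagonal fun i => Complex.log (b i i) : Mat m) = b := by
      rw [Matrix.exp_diagonal]
      rw [e]
      congr 1
      funext i
      rw [Pi.exp_def]
      simp only [Matrix.diagonal_apply_eq]
      rw [← Complex.exp_eq_exp_ℂ, Complex.exp_log (up_ne hb hb' i)]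
    rw [← e2]
    refine h1 _ fun i j hij => ?_
    exact Matrix.diagonal_apply_ne _ hij.ne'
  | succ k ih =>
    intro m hmn b hb hb' hd
    have hmlt : m < n := by omega
    obtain ⟨q, hq⟩ : ∃ q : Fin n, (q : ℕ) = m := ⟨⟨m, hmlt⟩, rfl⟩
    have hqq : b q q ≠ 0 := up_ne hb hb' q
    obtain ⟨z, hz⟩ : ∃ z : Fin n → ℂ, ∀ i, z i = if i < q then -(b i q) / b q q else 0 :=
      ⟨_, fun i => rfl⟩
    have hz0 : ∀ i, ¬ i < q → z i = 0 := fun i h => by rw [hz, if_neg h]
    obtain ⟨Z, hZ⟩ : ∃ Z : Mat n, ∀ i l, Z i l = if l = q then z i else 0 :=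
      ⟨Matrix.of fun i l => if l = q then z i else 0, fun i l => rfl⟩
    have hmul : ∀ (c : Mat n) (i l : Fin n), (Z * c) i l = z i * c q l := by
      intro c i l
      rw [Matrix.mul_apply, Finset.sum_eq_single q]
      · rw [hZ, if_pos rfl]
      · intro j _ hj
        rw [hZ, if_neg hj, zero_mul]
      · intro h
        exact absurd (Finset.mem_univ q) h
    have hZZ : Z * Z = 0 := by
      ext i l
      rw [hmul, hZ, Matrix.zero_apply]
      by_cases h : l = q
      · rw [if_pos h, hz0 q (lt_irrefl q), mul_zero]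
      · rw [if_neg h, mul_zero]
    have hupZ : Up Z := by
      intro i j hij
      rw [hZ]
      by_cases h : j = q
      · rw [if_pos h]
        subst h
        exact hz0 i hij.not_gt
      · rw [if_neg h]
    have hneg : Up (-Z) := fun i j hij => by rw [Matrix.neg_apply, hupZ i j hij, neg_zero]
    have hexp : NormedSpace.exp (-Z) = 1 - Z := by
      rw [exp_sq (by rw [neg_mul_neg, hZZ]), sub_eq_add_neg]
    have hup1 : Up (1 - Z) := by
      intro i j hij
      rw [Matrix.sub_apply, hupZ i j hij, Matrix.one_apply_ne hij.ne', sub_zero]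
    have hprod : (1 - Z) * ((1 + Z) * b) = b := by
      rw [← mul_assoc]
      have : (1 - Z) * (1 + Z) = 1 := by
        rw [sub_mul, one_mul, mul_add, mul_one, hZZ, add_zero]
        abel
      rw [this, one_mul]
    have hent : ∀ i l, ((1 + Z) * b) i l = b i l + z i * b q l := by
      intro i l
      rw [add_mul, one_mul, Matrix.add_apply, hmul]
    have hup' : Up ((1 + Z) * b) := by
      intro i j hij
      rw [hent, hb i j hij, zero_add]
      by_cases h : i < q
      · rw [hb q j (hij.trans h), mul_zero]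
      · rw [hz0 i h, zero_mul]
    have hdet : (1 - Z).det * ((1 + Z) * b).det ≠ 0 := by
      rw [← Matrix.det_mul, hprod]
      exact hb'
    have hQ' : Q ((1 + Z) * b) := by
      refine ih (m + 1) (by omega) _ hup' (right_ne_zero_of_mul hdet) ?_
      intro i l hil hl
      rw [hent]
      by_cases h : l = q
      · subst h
        rw [hz, if_pos hil]
        field_simp
        ring
      · have hlt : (l : ℕ) < m := by
          have : (l : ℕ) ≠ m := fun h' => h (Fin.ext (h'.trans hq.symm))
          omega
        rw [hd i l hil hlt]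
        have hlq : l < q := by
          rw [Fin.lt_def, hq]
          exact hlt
        rw [hb q l hlq, mul_zero, add_zero]
    have hQ1 : Q (1 - Z) := by
      rw [← hexp]
      exact h1 _ hneg
    have := hm _ _ hup1 (left_ne_zero_of_mul hdet) hup' (right_ne_zero_of_mul hdet) hQ1 hQ'
    rwa [hprod] at this

theorem upper_ind (Q : Mat n → Prop) (h1 : ∀ Y : Mat n, Up Y → Q (NormedSpace.exp Y))
    (hm : ∀ b c : Mat n, Up b → b.det ≠ 0 → Up c → c.det ≠ 0 → Q b → Q c → Q (b * c))
    (b : Mat n) (hb : Up b) (hb' : b.det ≠ 0) : Q b := by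
  exact upper_aux Q h1 hm n 0 (zero_add n) b hb hb' fun i l _ h => absurd h (Nat.not_lt_zero _)

end

end Pool.Agent.Work.MP_dd0ddf_al.AR
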