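import Pool.Agent.Work.MP_dd0ddf_al.AR.BXD
import Pool.Agent.Work.MP_dd0ddf_al.AR.KKx
import Pool.Agent.Work.MP_dd0ddf_al.AR.KYf

/-!
# MP_dd0ddf_al, archimedean part, block R, module BZ


Integrality: `a_i - b_i ∈ ℤ`.

PROOF. `hu.ne`, `mem_YK`: `D`, `l ∈ Yd π D`, `u l ≠ 0`.  `Xd_rep`: `x ∈ Xd π D` with `l' x = u l'` for all `l' ∈ Yd π D`.  `Y = single i i I`, `Yᴴ = -Y`.  `l_θ = l.comp (π (expG (θ • Y))) ∈ Yd π D`
(`expG_mem_KU`, `Yd_K`).  `g(θ) = l(π(expG(θ • Y)) x) = l_θ x`.  `hd.deriv`: `g'(θ) = l(π(expG(θ • Y)) (d Y x)) = l_θ(d Y x)`.  `d Y = I • (Lo d i i - Ro d i i)` (by the definitions of `Lo, Ro`), and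
`l_θ.comp (Lo d i i - Ro d i i) ∈ Yd π D` (`Yd_k`), so `l_θ(d Y x) = I * u(l_θ.comp (Lo d i i - Ro d i i)) = I (a_i - b_i) u(l_θ) = I (a_i - b_i) g(θ)` (`hu.wt`, linearity of `u`).  So
`θ ↦ e^(-I(a_i - b_i)θ) g(θ)` has derivative `0` and is constant: `g(2π) = e^(2πI(a_i - b_i)) g(0)`.  `exp(2π Y) = 1` (`Y` is diagonal: `Matrix.exp_diagonal`, `e^(2πI) = 1`, `e^0 = 1`), so `g(2π) = g(0) = u l ≠ 0` and
`e^(2πI(a_i - b_i)) = 1`; `Complex.exp_eq_one_iff`.
-/

set_option linter.unusedSectionVars false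

namespace Pool.Agent.Work.MP_dd0ddf_al.AR

open scoped SchwartzMap Matrix.Norms.Elementwise ComplexConjugate ContDiff Topology
open Matrix MeasureTheory Filter Asymptotics
open Pool.Agent.Work.MP_dd0ddf_al

noncomputable section

variable {n : ℕ} {P : Type*} [AddCommGroup P] [Module ℂ P] [UniformSpace P] [IsUniformAddGroup P]
  [ContinuousSMul ℂ P] [PolynormableSpace ℂ P] [T2Space P] [CompleteSpace P]
  [FirstCountableTopology P]

omit [CompleteSpace P] [FirstCountableTopology P] [PolynormableSpace ℂ P] [T2Space P] in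
private theorem bz_LR (d : Mat n → P →L[ℂ] P) (i : Fin n) :
    d (Matrix.single i i Complex.I) = Complex.I • (Lo d i i - Ro d i i) := by
  unfold Lo Ro
  ext v
  simp only [ContinuousLinearMap.smul_apply, ContinuousLinearMap.sub_apply,
    ContinuousLinearMap.add_apply, smul_sub, smul_add, smul_smul]
  have h : Complex.I * (1 / 2 * Complex.I) = -(1 / 2) := by
    rw [← mul_assoc, mul_comm Complex.I (1 / 2), mul_assoc, Complex.I_mul_I]
    ring
  rw [h]
  module

private theorem bz_herm (i : Fin n) :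
    (Matrix.single i i Complex.I : Mat n)ᴴ = -Matrix.single i i Complex.I := by
  rw [Matrix.conjTranspose_single]
  ext a b
  by_cases h : i = a ∧ i = b
  · obtain ⟨rfl, rfl⟩ := h
    simp
  · rw [Matrix.neg_apply, Matrix.single_apply_of_ne _ _ _ _ _ h, Matrix.single_apply_of_ne _ _ _ _ _ h,
      neg_zero]

private theorem bz_exp (i : Fin n) :
    expG ((2 * Real.pi : ℝ) • (Matrix.single i i Complex.I : Mat n)) = 1 := by
  apply Units.ext
  rw [coe_expG, Units.val_one]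
  have h1 : (2 * Real.pi : ℝ) • (Matrix.single i i Complex.I : Mat n) =
      Matrix.diagonal (Pi.single i (2 * Real.pi * Complex.I)) := by
    rw [Matrix.diagonal_single, Matrix.smul_single]
    congr 1
    rw [Complex.real_smul]
    push_cast
    ring
  rw [h1, Matrix.exp_diagonal, Pi.exp_def]
  rw [← Matrix.diagonal_one]
  congr 1
  funext j
  by_cases h : j = i
  · subst h
    rw [Pi.single_eq_same, ← Complex.exp_eq_exp_ℂ, Complex.exp_two_pi_mul_I]
  · rw [Pi.single_eq_of_ne h, NormedSpace.exp_zero]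

theorem ab_int (π : GLn n →* (P →L[ℂ] P)) (hπ : IsCW π) (d : Mat n → P →L[ℂ] P)
    (hd : Der π d) (u : (P →L[ℂ] ℂ) →ₗ[ℂ] ℂ) (a b : Fin n → ℂ) (hu : CBE π d u a b)
    (i : Fin n) : ∃ k : ℤ, (k : ℂ) = a i - b i := by
  obtain ⟨l, hlY, hul⟩ := hu.ne
  obtain ⟨D, hl⟩ := mem_YK.1 hlY
  obtain ⟨x, -, hx⟩ := Xd_rep π hπ D u
  set Y : Mat n := Matrix.single i i Complex.I with hY
  have hYs : Yᴴ = -Y := bz_herm i
  have hlθ : ∀ θ : ℝ, l.comp (π (expG (θ • Y))) ∈ Yd π D := by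
    intro θ
    exact Yd_K π (⟨expG (θ • Y), expG_mem_KU Y hYs θ⟩ : KU n) hl
  have hval : ∀ θ : ℝ, l (π (expG (θ • Y)) (d Y x)) =
      Complex.I * (a i - b i) * l (π (expG (θ • Y)) x) := by
    intro θ
    set m := l.comp (π (expG (θ • Y))) with hm
    have h1 : l (π (expG (θ • Y)) (d Y x)) = Complex.I * (m.comp (Lo d i i - Ro d i i)) x := by
      rw [show d Y = Complex.I • (Lo d i i - Ro d i i) from bz_LR d i]
      simp only [hm, ContinuousLinearMap.comp_apply, ContinuousLinearMap.smul_apply, map_smul,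
        smul_eq_mul]
    have h2 : (m.comp (Lo d i i - Ro d i i)) x = u (m.comp (Lo d i i - Ro d i i)) :=
      hx _ (Yd_k π d hd i i (hlθ θ))
    have hmK : m ∈ YK π := mem_YK.2 ⟨D, hlθ θ⟩
    have h3 : u (m.comp (Lo d i i - Ro d i i)) = (a i - b i) * u m := by
      rw [ContinuousLinearMap.comp_sub, map_sub, (hu.wt i m hmK).1, (hu.wt i m hmK).2]
      ring
    have h4 : u m = l (π (expG (θ • Y)) x) := by
      rw [← hx m (hlθ θ)]
      rfl
    rw [h1, h2, h3, h4]
    ring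
  have hder : ∀ θ : ℝ, HasDerivAt (fun θ : ℝ => Complex.exp (-(Complex.I * (a i - b i)) * (θ : ℂ)) *
      l (π (expG (θ • Y)) x)) 0 θ := by
    intro θ
    have h1 := hd.deriv l Y x θ
    rw [hval θ] at h1
    have h2 : HasDerivAt (fun θ : ℝ => Complex.exp (-(Complex.I * (a i - b i)) * (θ : ℂ)))
        (Complex.exp (-(Complex.I * (a i - b i)) * (θ : ℂ)) * (-(Complex.I * (a i - b i)) * 1)) θ := by
      have h3 : HasDerivAt (fun θ : ℝ => (θ : ℂ)) 1 θ := Complex.ofRealCLM.hasDerivAt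
      exact (h3.const_mul (-(Complex.I * (a i - b i)))).cexp
    refine (h2.mul h1).congr_deriv ?_
    ring
  have hconst := is_const_of_deriv_eq_zero (fun θ => (hder θ).differentiableAt)
    (fun θ => (hder θ).deriv) (2 * Real.pi) 0
  have hexp := bz_exp i
  rw [← hY] at hexp
  have h0 : expG ((0 : ℝ) • Y) = 1 := by
    apply Units.ext
    rw [coe_expG, zero_smul, NormedSpace.exp_zero, Units.val_one]
  simp only [hexp, h0, map_one, one_apply_eq_self, Complex.ofReal_zero, mul_zero,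
    Complex.exp_zero, one_mul] at hconst
  have hlx : l x ≠ 0 := by
    rw [hx l hl]
    exact hul
  have h5 : Complex.exp (-(Complex.I * (a i - b i)) * ((2 * Real.pi : ℝ) : ℂ)) = 1 :=
    mul_right_cancel₀ hlx (by rw [hconst, one_mul])
  rw [Complex.exp_eq_one_iff] at h5
  obtain ⟨k, hk⟩ := h5
  refine ⟨-k, ?_⟩
  have h6 : (2 * Real.pi * Complex.I : ℂ) ≠ 0 := Complex.two_pi_I_ne_zero
  apply mul_right_cancel₀ h6
  push_cast at hk ⊢
  linear_combination hk

end

end Pool.Agent.Work.MP_dd0ddf_al.AR
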