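import Pool.Agent.Work.MP_dd0ddf_al.AR.BExG
import Pool.Agent.Work.MP_dd0ddf_al.AR.BTriG
import Pool.Agent.Work.MP_dd0ddf_al.AR.BChm
import Pool.Agent.Work.MP_dd0ddf_al.AR.BNz
import Pool.Agent.Work.MP_dd0ddf_al.AR.BDen
import Pool.Agent.Work.MP_dd0ddf_al.AR.BZ

/-! Block R7 of MP_dd0ddf_al (archimedean part): from a continuous `B`-eigenvector to `BEig`
(helper78) -/

set_option linter.unusedSectionVars false

namespace Pool.Agent.Work.MP_dd0ddf_al.AR

open scoped SchwartzMap Matrix.Norms.Elementwise ComplexConjugate ContDiff Topology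
open Matrix MeasureTheory Filter Asymptotics

noncomputable section

variable {n : ℕ} {P : Type*} [AddCommGroup P] [Module ℂ P] [UniformSpace P] [IsUniformAddGroup P]
  [ContinuousSMul ℂ P] [PolynormableSpace ℂ P] [T2Space P] [CompleteSpace P]
  [FirstCountableTopology P]

/-- the map `A f = π(f) u` attached to a continuous `B`-eigenvector -/
theorem exists_BEig (π : GLn n →* (P →L[ℂ] P)) (hπ : IsCW π) (d : Mat n → P →L[ℂ] P)
    (hd : Der π d) (u : (P →L[ℂ] ℂ) →ₗ[ℂ] ℂ) (a b : Fin n → ℂ) (hu : CBE π d u a b) :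
    ∃ (k : Fin n → ℤ) (A : (Mat n → ℂ) →ₗ[ℂ] P),
      BEig π (fun i => a i + b i + ((n : ℂ) - 1 - 2 * (i : ℕ))) k A := by
  obtain ⟨x, hx⟩ := exists_XD π hπ d u a b hu
  obtain ⟨A, hA, hc⟩ := exists_lim π hπ hx
  choose k hk using fun i => ab_int π hπ d hd u a b hu i
  have hright : ∀ h : GLn n, ∀ f ∈ TGs (GLs n),
      A (fun g => f (g * (h : Mat n))) = π h (A f) := by
    intro h f hf
    have h1 := hA _ (TGs_right hf h)
    have h2 : Tendsto (fun D => π h (piF π f (x D))) atTop (𝓝 (π h (A f))) :=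
      ((π h).continuous.tendsto _).comp (hA f hf)
    refine tendsto_nhds_unique h1 ?_
    simpa only [piF_right π hπ h hf] using h2
  refine ⟨k, A, hc, ?_, hright, A_dense π hπ hright (A_ne π hπ d u a b hu hx hA)⟩
  intro b0 hb0 hb0'
  refine upper_ind (fun b1 => ∀ f ∈ TGs (GLs n), A (fun g => f (b1 * g)) =
    chm (fun i => a i + b i + ((n : ℂ) - 1 - 2 * (i : ℕ))) k b1 • A f) ?_ ?_ b0 hb0 hb0'
  · intro Y hY f hf
    rw [chm_exp a b k hk hY]
    exact A_exp π hπ d hd u a b hu hx hA hY hf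
  · intro b1 c hb hb' hcu hcu' hQb hQc f hf
    have hf1 : (fun X => f (b1 * X)) ∈ TGs (GLs n) :=
      TGs_left hf (Matrix.GeneralLinearGroup.mkOfDetNeZero b1 hb')
    have e : (fun g => f (b1 * c * g)) = fun g => (fun X => f (b1 * X)) (c * g) := by
      funext g
      simp only [Matrix.mul_assoc]
    rw [e, hQc _ hf1, hQb f hf, chm_mul _ k hb hb' hcu hcu', smul_smul, mul_comm]

end

end Pool.Agent.Work.MP_dd0ddf_al.AR
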