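import Pool.Agent.Work.MP_dd0ddf_al.AR.RDer
import Pool.Agent.Work.MP_dd0ddf_al.AR.RR5
import Pool.Agent.Work.MP_dd0ddf_al.AR.RR6
import Pool.Agent.Work.MP_dd0ddf_al.AR.RR7

/-! Block R of MP_dd0ddf_al (archimedean part), main theorem: an irreducible Casselman-Wallach
representation of `GL_n(ℂ)` has a `B`-eigenvector of weight `χ δ_B^{-1/2}` with
`|χ_1| ≥ ... ≥ |χ_n|` -/

set_option linter.unusedSectionVars false

namespace Pool.Agent.Work.MP_dd0ddf_al.AR

open scoped SchwartzMap Matrix.Norms.Elementwise ComplexConjugate ContDiff Topology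
open Matrix MeasureTheory Filter Asymptotics

noncomputable section

variable {n : ℕ} {P : Type*} [AddCommGroup P] [Module ℂ P] [UniformSpace P] [IsUniformAddGroup P]
  [ContinuousSMul ℂ P] [PolynormableSpace ℂ P] [T2Space P] [CompleteSpace P]
  [FirstCountableTopology P]

theorem CW_BEig (π : GLn n →* (P →L[ℂ] P)) (hπ : IsCW π) :
    ∃ (s : Fin n → ℂ) (k : Fin n → ℤ) (A : (Mat n → ℂ) →ₗ[ℂ] P),
      (∀ i j, i ≤ j → (s j).re ≤ (s i).re) ∧ BEig π s k A := by
  obtain ⟨d, hd⟩ := exists_der π hπ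
  obtain ⟨u, a, b, hu⟩ := exists_CBE π hπ d hd
  obtain ⟨u', a', b', hu', hs⟩ := exists_sorted π hπ d hd u a b hu
  obtain ⟨k, A, hA⟩ := exists_BEig π hπ d hd u' a' b' hu'
  refine ⟨_, k, A, ?_, hA⟩
  intro i j hij
  have h := hs i j hij
  simp only [Complex.add_re, Complex.sub_re, Complex.mul_re, Complex.natCast_re,
    Complex.one_re, Complex.natCast_im, Complex.re_ofNat, Complex.im_ofNat] at h ⊢
  linarith

end

end Pool.Agent.Work.MP_dd0ddf_al.AR
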