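import Pool.Agent.Work.MP_dd0ddf_al.AR.Main
import Pool.Agent.Work.MP_dd0ddf_al.AR.RMain

/-!
# Transport to the standard form, and the archimedean theorem for all skew-Hermitian forms
-/

set_option linter.unusedSectionVars false

namespace Pool.Agent.Work.MP_dd0ddf_al.AR

open scoped SchwartzMap Matrix.Norms.Elementwise ComplexConjugate ContDiff Topology LineDeriv
open Matrix MeasureTheory Filter

noncomputable section

variable {n : ℕ}

theorem conj_mem {J : Mat n} {ε : Fin n → ℝ} {A : GLn n} (hA : IsDiag J ε A) {h : GLn n}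
    (hh : h ∈ UJ ε) : A⁻¹ * h * A ∈ UM J := by
  intro v w
  rw [← hA.isom, ← hA.isom]
  have e : ∀ u : Fin n → ℂ, (A : Mat n) *ᵥ (((A⁻¹ * h * A : GLn n) : Mat n) *ᵥ u) =
      (h : Mat n) *ᵥ ((A : Mat n) *ᵥ u) := by
    intro u
    rw [Matrix.mulVec_mulVec, Matrix.mulVec_mulVec, ← Units.val_mul, ← Units.val_mul]
    congr 2
    group
  rw [e, e]
  exact hh _ _

/-- conjugation by `A` -/
def cnj {J : Mat n} {ε : Fin n → ℝ} {A : GLn n} (hA : IsDiag J ε A) : UJ ε →* UM J where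
  toFun h := ⟨A⁻¹ * h * A, conj_mem hA h.2⟩
  map_one' := by
    apply Subtype.ext
    show A⁻¹ * ((1 : UJ ε) : GLn n) * A = 1
    simp
  map_mul' := by
    intro g h
    apply Subtype.ext
    show A⁻¹ * ((g * h : UJ ε) : GLn n) * A = (A⁻¹ * g * A) * (A⁻¹ * h * A)
    rw [Subgroup.coe_mul]
    group

theorem cnj_cont {J : Mat n} {ε : Fin n → ℝ} {A : GLn n} (hA : IsDiag J ε A) :
    Continuous (cnj hA) := by
  refine Continuous.subtype_mk ?_ _
  fun_prop

/-- the Weil representation of the standard form given by a Weil representation of `J` -/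
def WeilM.std {J : Mat n} {ε : Fin n → ℝ} {A : GLn n} {a : ℝ} (W : WeilM J ε A a)
    (hA : IsDiag J ε A) : Weil ε a where
  om := W.om.comp (cnj hA)
  cont f := (W.cont f).comp (cnj_cont hA)
  smooth γ hγ hγ' := by
    obtain ⟨D, hD⟩ := W.smooth (fun x => cnj hA (γ x)) ((cnj_cont hA).comp hγ)
      (fun x y => by rw [hγ', map_mul])
    exact ⟨D, hD⟩
  compat h v f g hg := by
    have e : (A : Mat n) *ᵥ (((A⁻¹ : GLn n) : Mat n) *ᵥ v) = v := by
      rw [Matrix.mulVec_mulVec, ← Units.val_mul, mul_inv_cancel, Units.val_one, Matrix.one_mulVec]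
    have h1 := W.compat (cnj hA h) (((A⁻¹ : GLn n) : Mat n) *ᵥ v) f g (by rw [e]; exact hg)
    have e2 : (A : Mat n) *ᵥ ((((cnj hA h : UM J) : GLn n) : Mat n) *ᵥ
        (((A⁻¹ : GLn n) : Mat n) *ᵥ v)) = ((h : GLn n) : Mat n) *ᵥ v := by
      show (A : Mat n) *ᵥ (((A⁻¹ * h * A : GLn n) : Mat n) *ᵥ
        (((A⁻¹ : GLn n) : Mat n) *ᵥ v)) = ((h : GLn n) : Mat n) *ᵥ v
      rw [Matrix.mulVec_mulVec, Matrix.mulVec_mulVec, ← Units.val_mul, ← Units.val_mul]
      congr 2
      group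
    rw [e2] at h1
    exact h1

/-- `Hom_{U(V)}(Π, ω)` for `V = (ℂ^n, J)` embeds into the one for the standard form. -/
theorem rank_homM_le {J : Mat n} {ε : Fin n → ℝ} {A : GLn n} {a : ℝ} (W : WeilM J ε A a)
    (hA : IsDiag J ε A) {P : Type*} [AddCommGroup P] [Module ℂ P] [TopologicalSpace P]
    [IsTopologicalAddGroup P] [ContinuousSMul ℂ P]
    (π : GLn n →* (P →L[ℂ] P)) :
    Module.rank ℂ (HomM W π) ≤ Module.rank ℂ (HomU (W.std hA) π) := by
  have e : ∀ x : P, π A⁻¹ (π A x) = x := by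
    intro x
    have h1 : (π A⁻¹ * π A) x = x := by
      rw [← map_mul, inv_mul_cancel, map_one]
      rfl
    exact h1
  let L : HomM W π →ₗ[ℂ] HomU (W.std hA) π :=
    { toFun := fun φ => ⟨φ.1.comp (π A⁻¹), by
        intro h x
        show φ.1 (π A⁻¹ (π (h : GLn n) x)) = W.om (cnj hA h) (φ.1 (π A⁻¹ x))
        rw [← φ.2 (cnj hA h) (π A⁻¹ x)]
        congr 1
        show (π A⁻¹ * π (h : GLn n)) x = (π (A⁻¹ * h * A) * π A⁻¹) x
        rw [← map_mul, ← map_mul]
        congr 2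
        group⟩
      map_add' := by
        intro φ ψ
        apply Subtype.ext
        ext x
        rfl
      map_smul' := by
        intro c φ
        apply Subtype.ext
        ext x
        rfl }
  refine LinearMap.rank_le_of_injective L ?_
  intro φ ψ h
  apply Subtype.ext
  ext1 x
  have h1 : (L φ).1 (π A x) = (L ψ).1 (π A x) := by rw [h]
  have h2 : φ.1 (π A⁻¹ (π A x)) = ψ.1 (π A⁻¹ (π A x)) := h1
  rwa [e] at h2

/-- **Multiplicity one, archimedean case.** -/
theorem arch_mult_one {J : Mat n} {ε : Fin n → ℝ} {A : GLn n} (hA : IsDiag J ε A) {a : ℝ}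
    (ha : a ≠ 0) (W : WeilM J ε A a) {P : Type*} [AddCommGroup P] [Module ℂ P] [UniformSpace P]
    [IsUniformAddGroup P] [ContinuousSMul ℂ P] [PolynormableSpace ℂ P] [T2Space P]
    [CompleteSpace P] [FirstCountableTopology P] (π : GLn n →* (P →L[ℂ] P)) (hπ : IsCW π) :
    Module.rank ℂ (HomM W π) ≤ 1 := by
  obtain ⟨s, k, B, hs, hB⟩ := CW_BEig π hπ
  exact (rank_homM_le W hA π).trans (mult_one hA.sign ha (W.std hA) π hB hs)

end

end Pool.Agent.Work.MP_dd0ddf_al.AR
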