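import Pool.Agent.Work.MP_dd0ddf_al.AR.ADefs

/-!
# MP_dd0ddf_al, archimedean part, block R5: the concrete systems

`BtI π f t i v = (f i)(π(exp(t H0)) v)` for a family `f : I → P'` of functionals; `IdxP π p`: triples `(D, l, c)` with `l ∈ Yd π D`,
`|l| ≤ c p`; `CCp`: the class of bounds `≤ C (1+D)^M c`.
-/

set_option linter.unusedSectionVars false

namespace Pool.Agent.Work.MP_dd0ddf_al.AR

open scoped SchwartzMap Matrix.Norms.Elementwise ComplexConjugate ContDiff Topology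
open Matrix MeasureTheory Filter Asymptotics

noncomputable section

variable {n : ℕ} {P : Type*} [AddCommGroup P] [Module ℂ P] [UniformSpace P] [IsUniformAddGroup P]
  [ContinuousSMul ℂ P] [PolynormableSpace ℂ P] [T2Space P] [CompleteSpace P]
  [FirstCountableTopology P]

/-- the system of coefficients along `aa t` -/
def BtI (π : GLn n →* (P →L[ℂ] P)) {I : Type*} (f : I → P →L[ℂ] ℂ) (t : ℝ) (i : I) :
    P →ₗ[ℂ] ℂ := ((f i).comp (π (aa n t))).toLinearMap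

/-- triples `(D, l, c)` with `l ∈ Yd π D`, `|l| ≤ c p`, `c ≥ 0` -/
structure IdxP (π : GLn n →* (P →L[ℂ] P)) (p : Seminorm ℂ P) where
  D : ℕ
  l : P →L[ℂ] ℂ
  c : ℝ
  mem : l ∈ Yd π D
  c0 : 0 ≤ c
  le : ∀ v, ‖l v‖ ≤ c * p v

/-- bounds which are at most polynomial in `D` and linear in `c` -/
def CCp (π : GLn n →* (P →L[ℂ] P)) (p : Seminorm ℂ P) : Set (IdxP π p → ℝ) :=
  {κ | (∀ i, 0 ≤ κ i) ∧ ∃ (C : ℝ) (M : ℕ), 0 ≤ C ∧ ∀ i, κ i ≤ C * (1 + (i.D : ℝ)) ^ M * i.c}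

end

end Pool.Agent.Work.MP_dd0ddf_al.AR
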