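import Pool.Agent.Work.MP_dd0ddf_al.AR.RDefs

/-!
# MP_dd0ddf_al, archimedean part, block R5: abstract asymptotic systems

`B t i v` stands for `l_i(π(exp(t H0)) v)`, `VV` for the `K`-finite vectors, `nb` for `nbar V`, `CC` for a class of
bounds.  `BdA N`: all coefficients are `O(e^(N t))` with constants in the class `CC`; `SmA`: the coefficient of `w_k`
at `i` grows strictly slower than `e^(Λ t)`.
-/

set_option linter.unusedSectionVars false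

namespace Pool.Agent.Work.MP_dd0ddf_al.AR

open scoped SchwartzMap Matrix.Norms.Elementwise ComplexConjugate ContDiff Topology
open Matrix MeasureTheory Filter Asymptotics

noncomputable section

variable {n : ℕ}

/-- all coefficients are bounded by `κ i e^(N t)` with `κ` in the class `CC` -/
def BdA {I V : Type*} [AddCommGroup V] [Module ℂ V] (VV : Submodule ℂ V)
    (B : ℝ → I → V →ₗ[ℂ] ℂ) (CC : Set (I → ℝ)) (N : ℝ) : Prop :=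
  ∀ v ∈ VV, ∃ κ ∈ CC, ∀ i, ∀ t : ℝ, 0 ≤ t → ‖B t i v‖ ≤ κ i * Real.exp (N * t)

/-- abstract asymptotic system -/
structure ASys {I V : Type*} [AddCommGroup V] [Module ℂ V] (VV : Submodule ℂ V)
    (B : ℝ → I → V →ₗ[ℂ] ℂ) (H : V →ₗ[ℂ] V) (nb : Submodule ℂ V) {m : ℕ} (w : Fin m → V)
    (c : Fin m → ℂ) (CC : Set (I → ℝ)) : Prop where
  nonneg : ∀ κ ∈ CC, ∀ i, 0 ≤ κ i
  add : ∀ κ ∈ CC, ∀ κ' ∈ CC, (fun i => κ i + κ' i) ∈ CC
  smul : ∀ r : ℝ, 0 ≤ r → ∀ κ ∈ CC, (fun i => r * κ i) ∈ CC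
  der : ∀ (t : ℝ) (i : I), ∀ v ∈ VV, HasDerivAt (fun s : ℝ => B s i v) (B t i (H v)) t
  init : ∀ v ∈ VV, ∃ κ ∈ CC, ∀ i, ‖B 0 i v‖ ≤ κ i
  nbV : nb ≤ VV
  wV : ∀ j, w j ∈ VV
  nbe : ∀ N : ℝ, BdA VV B CC N → ∀ ν ∈ nb, ∃ κ ∈ CC, ∀ i, ∀ t : ℝ, 0 ≤ t →
    ‖B t i ν‖ ≤ κ i * Real.exp ((N - 1) * t)
  tri : ∀ j, H (w j) - c j • w j ∈ Submodule.span ℂ (w '' {k | k < j}) ⊔ nb
  gen : VV ≤ Submodule.span ℂ (Set.range w) ⊔ nb

/-- the coefficient of `w k` at `i` grows strictly slower than `e^(Λ t)` -/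
def SmA {I V : Type*} [AddCommGroup V] [Module ℂ V] (B : ℝ → I → V →ₗ[ℂ] ℂ) {m : ℕ}
    (w : Fin m → V) (Λ : ℝ) (k : Fin m) (i : I) : Prop :=
  ∃ (δ C : ℝ), 0 < δ ∧ ∀ t : ℝ, 0 ≤ t → ‖B t i (w k)‖ ≤ C * Real.exp ((Λ - δ) * t)

/-- the class of all nonnegative bounds -/
def allC (I : Type*) : Set (I → ℝ) := {κ | ∀ i, 0 ≤ κ i}

end

end Pool.Agent.Work.MP_dd0ddf_al.AR
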