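import Pool.Agent.Work.MP_dd0ddf_al.AR.AOde

/-!
# MP_dd0ddf_al, archimedean part, block R, module ADrop


Dropping the exponent in an asymptotic system.

PROOF of `asy_drop`. Let `μ = max Λ (N - 1) < N'` and `θ_j = μ + (N' - μ)(j+1)/(m+1)`, `j < m` (increasing, all in `(μ, N')`), `θ_(-1) = μ`.
Claim: for every `j` there is `κ ∈ CC` with `|B t i (w j)| ≤ κ i e^(θ_j t)` for all `i`, `t ≥ 0` (strong induction on `j`).  By `S.tri`,
`H (w j) = c_j w_j + ∑_(k<j) a_k w_k + ν`, `ν ∈ nb` (`Submodule.mem_sup`, an element of the span of a finite family is a finite sum; or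
prove by span induction that every element of `span (w '' {k < j}) ⊔ nb` has a bound with exponent `θ' := max` of the previous exponents).
So with `h(t) = B t i (w j)` and `g(t) = B t i (H (w j) - c_j w_j)` we have `h' = c_j h + g` (`S.der`) and `|g(t)| ≤ κ' i e^(θ' t)`, where
`θ' = θ_(j-1)` (for `j = 0`: `μ`), by induction and `S.nbe N hN` (exponent `N - 1 ≤ μ`; use monotonicity of `e^(θt)` in `θ` for `t ≥ 0`).
If `Re c_j < θ_j`: `ode_up` with `β = θ'`, `θ = θ_j`, `K0 = κ0 i` from `S.init`; the constant `κ0 i + κ' i/(θ_j - max θ' Re c_j)` is in `CC`.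
Otherwise `Re c_j ≥ θ_j > Λ`: `ode_lim` with `β = θ' < θ_j ≤ Re c_j`; the limit is `0` by `hz` and uniqueness of limits, so
`|h(t)| ≤ κ' i/(Re c_j - θ') e^(θ' t)`.
Finally every `v ∈ VV` is `∑ a_j w_j + ν` (`S.gen`), so has a bound with exponent `N'` (all `θ_j ≤ N'`, `N - 1 ≤ N'`).
`asy_all`: iterate with steps `1/2`: by induction on `k : ℕ`, `BdA (max (N - k/2) N')` for `N' > Λ` (with `asy_drop` applied to
`N_k = max (N - k/2) N'`, target `N_(k+1) > max Λ (N_k - 1)`); for `k` large `max (N - k/2) N' = N'`.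
-/

set_option linter.unusedSectionVars false

namespace Pool.Agent.Work.MP_dd0ddf_al.AR

open scoped SchwartzMap Matrix.Norms.Elementwise ComplexConjugate ContDiff Topology
open Matrix MeasureTheory Filter Asymptotics

noncomputable section

variable {n : ℕ}

private def Bd {I V : Type*} [AddCommGroup V] [Module ℂ V]
    (B : ℝ → I → V →ₗ[ℂ] ℂ) (CC : Set (I → ℝ)) (θ : ℝ) (v : V) : Prop :=
  ∃ κ ∈ CC, ∀ i, ∀ t : ℝ, 0 ≤ t → ‖B t i v‖ ≤ κ i * Real.exp (θ * t)

private theorem Bd.mono {I V : Type*} [AddCommGroup V] [Module ℂ V]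
    {B : ℝ → I → V →ₗ[ℂ] ℂ} {CC : Set (I → ℝ)} (hC : ∀ κ ∈ CC, ∀ i, 0 ≤ κ i)
    {θ θ' : ℝ} {v : V} (h : Bd B CC θ v) (hθ : θ ≤ θ') : Bd B CC θ' v := by
  obtain ⟨κ, hκ, hb⟩ := h
  refine ⟨κ, hκ, fun i t ht => (hb i t ht).trans ?_⟩
  exact mul_le_mul_of_nonneg_left
    (Real.exp_le_exp.2 (mul_le_mul_of_nonneg_right hθ ht)) (hC κ hκ i)

private def BdS {I V : Type*} [AddCommGroup V] [Module ℂ V] {VV : Submodule ℂ V}
    {B : ℝ → I → V →ₗ[ℂ] ℂ} {H : V →ₗ[ℂ] V} {nb : Submodule ℂ V} {m : ℕ} {w : Fin m → V}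
    {c : Fin m → ℂ} {CC : Set (I → ℝ)} (S : ASys VV B H nb w c CC) (θ : ℝ) : Submodule ℂ V where
  carrier := {v | Bd B CC θ v}
  add_mem' := by
    rintro u v ⟨κ, hκ, hu⟩ ⟨κ', hκ', hv⟩
    refine ⟨fun i => κ i + κ' i, S.add κ hκ κ' hκ', fun i t ht => ?_⟩
    rw [map_add, add_mul]
    exact (norm_add_le _ _).trans (add_le_add (hu i t ht) (hv i t ht))
  zero_mem' := by
    obtain ⟨κ, hκ, -⟩ := S.init 0 VV.zero_mem
    refine ⟨fun i => 0 * κ i, S.smul 0 le_rfl κ hκ, fun i t ht => ?_⟩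
    show _ ≤ 0 * κ i * Real.exp (θ * t)
    rw [map_zero, norm_zero, zero_mul, zero_mul]
  smul_mem' := by
    rintro a v ⟨κ, hκ, hv⟩
    refine ⟨fun i => ‖a‖ * κ i, S.smul ‖a‖ (norm_nonneg _) κ hκ, fun i t ht => ?_⟩
    rw [map_smul, norm_smul, mul_assoc]
    exact mul_le_mul_of_nonneg_left (hv i t ht) (norm_nonneg _)

theorem asy_drop {I V : Type*} [AddCommGroup V] [Module ℂ V] {VV : Submodule ℂ V}
    {B : ℝ → I → V →ₗ[ℂ] ℂ} {H : V →ₗ[ℂ] V} {nb : Submodule ℂ V} {m : ℕ} {w : Fin m → V}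
    {c : Fin m → ℂ} {CC : Set (I → ℝ)} (S : ASys VV B H nb w c CC) {Λ N N' : ℝ}
    (hN : BdA VV B CC N) (h1 : Λ < N') (h2 : N - 1 < N')
    (hz : ∀ i j, Λ < (c j).re →
      Tendsto (fun t : ℝ => Complex.exp (-(c j * t)) * B t i (w j)) atTop (𝓝 0)) :
    BdA VV B CC N' := by
  have hC := S.nonneg
  obtain ⟨μ, hμ⟩ : ∃ μ, μ = max Λ (N - 1) := ⟨_, rfl⟩
  have hμ1 : Λ ≤ μ := hμ ▸ le_max_left _ _
  have hμ2 : N - 1 ≤ μ := hμ ▸ le_max_right _ _
  have hμ3 : μ < N' := hμ ▸ max_lt h1 h2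
  have hnb : ∀ θ, μ < θ → nb ≤ BdS S θ := by
    intro θ hθ ν hν
    have h := S.nbe N hN ν hν
    exact Bd.mono hC (v := ν) h (hμ2.trans hθ.le)
  have claim : ∀ j : Fin m, ∀ θ, μ < θ → w j ∈ BdS S θ := by
    intro j
    induction j using WellFoundedLT.induction with
    | ind j ih =>
      intro θ hθ
      obtain ⟨θ', hθ1, hθ2⟩ := exists_between hθ
      have hg : H (w j) - c j • w j ∈ BdS S θ' := by
        have hle : Submodule.span ℂ (w '' {k | k < j}) ⊔ nb ≤ BdS S θ' := by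
          refine sup_le ?_ (hnb θ' hθ1)
          rw [Submodule.span_le]
          rintro _ ⟨k, hk, rfl⟩
          exact ih k hk θ' hθ1
        exact hle (S.tri j)
      obtain ⟨κ', hκ', hb⟩ := hg
      obtain ⟨κ0, hκ0, hb0⟩ := S.init (w j) (S.wV j)
      have hd : ∀ i, ∀ t, HasDerivAt (fun s : ℝ => B s i (w j))
          (c j * B t i (w j) + B t i (H (w j) - c j • w j)) t := by
        intro i t
        have h := S.der t i (w j) (S.wV j)
        have e : B t i (H (w j)) = c j * B t i (w j) + B t i (H (w j) - c j • w j) := by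
          rw [map_sub, map_smul, smul_eq_mul]
          ring
        rwa [e] at h
      rcases lt_or_ge (c j).re θ with hc | hc
      · have hpos : 0 ≤ (θ - max θ' (c j).re)⁻¹ :=
          inv_nonneg.2 (sub_nonneg.2 (max_lt hθ2 hc).le)
        refine ⟨fun i => κ0 i + (θ - max θ' (c j).re)⁻¹ * κ' i,
          S.add κ0 hκ0 _ (S.smul _ hpos κ' hκ'), fun i t ht => ?_⟩
        have h := ode_up (hd i) (hb i) (hb0 i) (hC κ' hκ' i) hc hθ2 t ht
        have e : κ' i / (θ - max θ' (c j).re) = (θ - max θ' (c j).re)⁻¹ * κ' i := by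
          rw [div_eq_mul_inv, mul_comm]
        rwa [e] at h
      · have hΛ : Λ < (c j).re := lt_of_le_of_lt hμ1 (lt_of_lt_of_le hθ hc)
        have hβ : θ' < (c j).re := lt_of_lt_of_le hθ2 hc
        have hpos : 0 ≤ ((c j).re - θ')⁻¹ := inv_nonneg.2 (sub_nonneg.2 hβ.le)
        refine Bd.mono hC (v := w j) (θ := θ') ?_ hθ2.le
        refine ⟨fun i => ((c j).re - θ')⁻¹ * κ' i, S.smul _ hpos κ' hκ', fun i t ht => ?_⟩
        obtain ⟨L, hL, hLb, -⟩ := ode_lim (hd i) (hb i) (hC κ' hκ' i) hβ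
        have hL0 : L = 0 := tendsto_nhds_unique hL (hz i j hΛ)
        have h := hLb t ht
        rw [hL0, zero_mul, sub_zero] at h
        have e : κ' i / ((c j).re - θ') = ((c j).re - θ')⁻¹ * κ' i := by
          rw [div_eq_mul_inv, mul_comm]
        rwa [e] at h
  have hVV : VV ≤ BdS S N' := by
    refine S.gen.trans (sup_le ?_ (hnb N' hμ3))
    rw [Submodule.span_le]
    rintro _ ⟨k, rfl⟩
    exact claim k N' hμ3
  intro v hv
  exact hVV hv

theorem asy_all {I V : Type*} [AddCommGroup V] [Module ℂ V] {VV : Submodule ℂ V}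
    {B : ℝ → I → V →ₗ[ℂ] ℂ} {H : V →ₗ[ℂ] V} {nb : Submodule ℂ V} {m : ℕ} {w : Fin m → V}
    {c : Fin m → ℂ} {CC : Set (I → ℝ)} (S : ASys VV B H nb w c CC) {Λ N : ℝ}
    (hN : BdA VV B CC N)
    (hz : ∀ i j, Λ < (c j).re →
      Tendsto (fun t : ℝ => Complex.exp (-(c j * t)) * B t i (w j)) atTop (𝓝 0))
    (N' : ℝ) (h1 : Λ < N') : BdA VV B CC N' := by
  have hC := S.nonneg
  have key : ∀ k : ℕ, BdA VV B CC (max (N - k / 2) N') := by
    intro k
    induction k with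
    | zero =>
      intro v hv
      refine Bd.mono hC (v := v) (hN v hv) ?_
      simp
    | succ k ih =>
      refine asy_drop S ih (Λ := Λ) (lt_of_lt_of_le h1 (le_max_right _ _)) ?_ hz
      push_cast
      rcases le_total (N - (k : ℝ) / 2) N' with h | h
      · rw [max_eq_right h]
        exact lt_of_lt_of_le (by linarith) (le_max_right _ _)
      · rw [max_eq_left h]
        exact lt_of_lt_of_le (by linarith) (le_max_left _ _)
  obtain ⟨k, hk⟩ := exists_nat_ge (2 * (N - N'))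
  have h := key k
  rwa [max_eq_right (by linarith)] at h

end

end Pool.Agent.Work.MP_dd0ddf_al.AR
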