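import Pool.Agent.Work.MP_dd0ddf_al.AR.ADefs

/-!
# MP_dd0ddf_al, archimedean part, block R, module AOde


Two lemmas on the scalar linear differential equation `h' = c h + g`, `|g(t)| ≤ K e^(β t)` for `t ≥ 0`.

PROOF. `e^(-ct) h(t)` has derivative `e^(-ct) g(t)`, of norm `≤ K e^((β - Re c) t)`.
`ode_up`: with `μ = max β (Re c) < θ`: `|e^(-ct)h(t) - h(0)| ≤ ∫_0^t K e^((β - Re c)s) ds` (mean value inequality
`norm_image_sub_le_of_norm_deriv_le_segment'` is not enough; use
`image_norm_le_of_norm_deriv_right_le_deriv_boundary` or `intervalIntegral.integral_eq_sub_of_hasDerivAt`; `g` is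
continuous as `h' - c h` need not be: so prefer the boundary version with the comparison function
`K0 + K ∫_0^t e^((β-Re c)s) ds`, or simply with `φ(t) = K0 + K t e^((μ - Re c) t)`, whose derivative is
`≥ K e^((μ - Re c) t) ≥ K e^((β - Re c)t)`).  So `|h(t)| ≤ e^(Re c t) (K0 + K t e^((μ - Re c)t)) ≤ K0 e^(θt) + K t e^(μt)` and
`t e^(μt) ≤ e^(θt)/(θ-μ)` (`(θ-μ)t ≤ e^((θ-μ)t)`, `Real.add_one_le_exp`).
`ode_lim`: for `0 ≤ s ≤ t`: `|e^(-ct)h(t) - e^(-cs)h(s)| ≤ (K/(Re c - β)) e^((β - Re c)s)` (boundary lemma on `[s, t]` with the comparison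
function `(K/(Re c - β)) (e^((β-Re c)s) - e^((β-Re c)t))`).  So `e^(-ct)h(t)` is Cauchy at infinity; limit `L`; let `t → ∞`:
`|L - e^(-cs)h(s)| ≤ (K/(Re c - β)) e^((β-Re c)s)`; multiply by `e^(cs)`; `s = 0` gives the bound of `L`.
-/

set_option linter.unusedSectionVars false

namespace Pool.Agent.Work.MP_dd0ddf_al.AR

open scoped SchwartzMap Matrix.Norms.Elementwise ComplexConjugate ContDiff Topology
open Matrix MeasureTheory Filter Asymptotics

noncomputable section

variable {n : ℕ}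

private theorem ode_aux {h g : ℝ → ℂ} {c : ℂ} (hd : ∀ t, HasDerivAt h (c * h t + g t) t) (t : ℝ) :
    HasDerivAt (fun t : ℝ => Complex.exp (-(c * t)) * h t) (Complex.exp (-(c * t)) * g t) t := by
  have h1 : HasDerivAt (fun t : ℝ => -(c * (t : ℂ))) (-(c * 1)) t :=
    ((Complex.ofRealCLM.hasDerivAt (x := t)).const_mul c).neg
  refine (h1.cexp.mul (hd t)).congr_deriv ?_
  ring

private theorem ode_norm {c : ℂ} (t : ℝ) : ‖Complex.exp (-(c * t))‖ = Real.exp (-(c.re * t)) := by
  rw [Complex.norm_exp]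
  simp

theorem ode_up {h g : ℝ → ℂ} {c : ℂ} {β θ K0 K : ℝ}
    (hd : ∀ t, HasDerivAt h (c * h t + g t) t)
    (hg : ∀ t, 0 ≤ t → ‖g t‖ ≤ K * Real.exp (β * t)) (h0 : ‖h 0‖ ≤ K0) (hK : 0 ≤ K)
    (hc : c.re < θ) (hβ : β < θ) (t : ℝ) (ht : 0 ≤ t) :
    ‖h t‖ ≤ (K0 + K / (θ - max β c.re)) * Real.exp (θ * t) := by
  obtain ⟨μ, hμ⟩ : ∃ μ, μ = max β c.re := ⟨_, rfl⟩
  have hμβ : β ≤ μ := hμ ▸ le_max_left _ _
  have hμc : c.re ≤ μ := hμ ▸ le_max_right _ _
  have hμθ : μ < θ := hμ ▸ max_lt hβ hc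
  rw [← hμ]
  have hK0 : 0 ≤ K0 := (norm_nonneg _).trans h0
  have hB : ∀ x : ℝ, HasDerivAt (fun t : ℝ => K0 + K * (t * Real.exp ((μ - c.re) * t)))
      (K * (1 * Real.exp ((μ - c.re) * x) +
        x * (Real.exp ((μ - c.re) * x) * ((μ - c.re) * 1)))) x := by
    intro x
    have h1 : HasDerivAt (fun t : ℝ => (μ - c.re) * t) ((μ - c.re) * 1) x :=
      (hasDerivAt_id x).const_mul _
    exact (((hasDerivAt_id x).mul h1.exp).const_mul K).const_add K0
  have key := image_norm_le_of_norm_deriv_right_le_deriv_boundary (a := 0) (b := t)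
    (f := fun t : ℝ => Complex.exp (-(c * t)) * h t)
    (f' := fun t : ℝ => Complex.exp (-(c * t)) * g t)
    (fun x _ => (ode_aux hd x).continuousAt.continuousWithinAt)
    (fun x _ => (ode_aux hd x).hasDerivWithinAt) (by simpa using h0) hB
    (by
      intro x hx
      have hx0 : 0 ≤ x := hx.1
      rw [norm_mul, ode_norm]
      have e1 : Real.exp (-(c.re * x)) * ‖g x‖ ≤ K * Real.exp ((μ - c.re) * x) := by
        calc Real.exp (-(c.re * x)) * ‖g x‖ ≤
            Real.exp (-(c.re * x)) * (K * Real.exp (β * x)) :=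
              mul_le_mul_of_nonneg_left (hg x hx0) (Real.exp_pos _).le
          _ = K * Real.exp ((β - c.re) * x) := by
              rw [mul_left_comm, ← Real.exp_add]
              congr 2
              ring
          _ ≤ K * Real.exp ((μ - c.re) * x) := by
              refine mul_le_mul_of_nonneg_left (Real.exp_le_exp.2 ?_) hK
              exact mul_le_mul_of_nonneg_right (by linarith) hx0
      refine e1.trans (mul_le_mul_of_nonneg_left ?_ hK)
      have : 0 ≤ x * (Real.exp ((μ - c.re) * x) * ((μ - c.re) * 1)) :=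
        mul_nonneg hx0 (mul_nonneg (Real.exp_pos _).le (by linarith))
      linarith)
    (x := t) ⟨ht, le_rfl⟩
  have e2 : ‖h t‖ = Real.exp (c.re * t) * ‖Complex.exp (-(c * t)) * h t‖ := by
    rw [norm_mul, ode_norm, ← mul_assoc, ← Real.exp_add]
    simp
  rw [e2]
  have e3 : t * Real.exp (μ * t) ≤ Real.exp (θ * t) / (θ - μ) := by
    rw [le_div_iff₀ (by linarith)]
    have h3 : (θ - μ) * t ≤ Real.exp ((θ - μ) * t) := by
      have := Real.add_one_le_exp ((θ - μ) * t)
      linarith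
    have h4 : Real.exp (θ * t) = Real.exp ((θ - μ) * t) * Real.exp (μ * t) := by
      rw [← Real.exp_add]
      congr 1
      ring
    rw [h4]
    nlinarith [Real.exp_pos (μ * t)]
  calc Real.exp (c.re * t) * ‖Complex.exp (-(c * t)) * h t‖
      ≤ Real.exp (c.re * t) * (K0 + K * (t * Real.exp ((μ - c.re) * t))) :=
        mul_le_mul_of_nonneg_left key (Real.exp_pos _).le
    _ = K0 * Real.exp (c.re * t) + K * (t * Real.exp (μ * t)) := by
        have : Real.exp (μ * t) = Real.exp (c.re * t) * Real.exp ((μ - c.re) * t) := by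
          rw [← Real.exp_add]
          congr 1
          ring
        rw [this]
        ring
    _ ≤ K0 * Real.exp (θ * t) + K * (Real.exp (θ * t) / (θ - μ)) := by
        refine add_le_add (mul_le_mul_of_nonneg_left (Real.exp_le_exp.2 ?_) hK0)
          (mul_le_mul_of_nonneg_left e3 hK)
        exact mul_le_mul_of_nonneg_right hc.le ht
    _ = _ := by ring

theorem ode_lim {h g : ℝ → ℂ} {c : ℂ} {β K : ℝ}
    (hd : ∀ t, HasDerivAt h (c * h t + g t) t)
    (hg : ∀ t, 0 ≤ t → ‖g t‖ ≤ K * Real.exp (β * t)) (hK : 0 ≤ K) (hβ : β < c.re) :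
    ∃ L : ℂ, Tendsto (fun t : ℝ => Complex.exp (-(c * t)) * h t) atTop (𝓝 L) ∧
      (∀ t : ℝ, 0 ≤ t →
        ‖h t - L * Complex.exp (c * t)‖ ≤ K / (c.re - β) * Real.exp (β * t)) ∧
      ‖L‖ ≤ ‖h 0‖ + K / (c.re - β) := by
  obtain ⟨δ, hδ⟩ : ∃ δ, δ = c.re - β := ⟨_, rfl⟩
  have hδ0 : 0 < δ := by rw [hδ]; linarith
  have hκ : 0 ≤ K / δ := div_nonneg hK hδ0.le
  rw [← hδ]
  have key : ∀ s t : ℝ, 0 ≤ s → s ≤ t →
      ‖Complex.exp (-(c * t)) * h t - Complex.exp (-(c * s)) * h s‖ ≤
        K / δ * Real.exp (-(δ * s)) := by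
    intro s t hs hst
    have hB : ∀ x : ℝ, HasDerivAt
        (fun t : ℝ => K / δ * (Real.exp (-(δ * s)) - Real.exp (-(δ * t))))
        (K / δ * (0 - Real.exp (-(δ * x)) * -(δ * 1))) x := by
      intro x
      have h1 : HasDerivAt (fun t : ℝ => -(δ * t)) (-(δ * 1)) x :=
        ((hasDerivAt_id x).const_mul _).neg
      exact ((hasDerivAt_const x (Real.exp (-(δ * s)))).sub h1.exp).const_mul _
    have h1 := image_norm_le_of_norm_deriv_right_le_deriv_boundary (a := s) (b := t)
      (f := fun t : ℝ => Complex.exp (-(c * t)) * h t - Complex.exp (-(c * s)) * h s)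
      (f' := fun t : ℝ => Complex.exp (-(c * t)) * g t)
      (fun x _ => ((ode_aux hd x).sub_const _).continuousAt.continuousWithinAt)
      (fun x _ => ((ode_aux hd x).sub_const _).hasDerivWithinAt) (by simp) hB
      (by
        intro x hx
        have hx0 : 0 ≤ x := hs.trans hx.1
        rw [norm_mul, ode_norm]
        calc Real.exp (-(c.re * x)) * ‖g x‖ ≤
            Real.exp (-(c.re * x)) * (K * Real.exp (β * x)) :=
              mul_le_mul_of_nonneg_left (hg x hx0) (Real.exp_pos _).le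
          _ = K * Real.exp (-(δ * x)) := by
              rw [mul_left_comm, ← Real.exp_add, hδ]
              congr 2
              ring
          _ ≤ _ := by
              apply le_of_eq
              field_simp
              ring)
      (x := t) ⟨hst, le_rfl⟩
    refine h1.trans (mul_le_mul_of_nonneg_left ?_ hκ)
    linarith [Real.exp_pos (-(δ * t))]
  have hexp : Tendsto (fun s : ℝ => K / δ * Real.exp (-(δ * s))) atTop (𝓝 0) := by
    have h1 : Tendsto (fun s : ℝ => δ * s) atTop atTop :=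
      tendsto_id.const_mul_atTop hδ0
    have h2 := (Real.tendsto_exp_neg_atTop_nhds_zero.comp h1).const_mul (K / δ)
    simpa using h2
  have hC : CauchySeq fun t : ℝ => Complex.exp (-(c * t)) * h t := by
    rw [Metric.cauchySeq_iff']
    intro ε hε
    obtain ⟨N, hN⟩ := ((hexp.eventually (gt_mem_nhds hε)).and (eventually_ge_atTop 0)).exists
    refine ⟨N, fun t ht => ?_⟩
    rw [dist_eq_norm]
    exact (key N t hN.2 ht).trans_lt hN.1
  obtain ⟨L, hL⟩ := cauchySeq_tendsto_of_complete hC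
  have hLs : ∀ s : ℝ, 0 ≤ s → ‖L - Complex.exp (-(c * s)) * h s‖ ≤ K / δ * Real.exp (-(δ * s)) := by
    intro s hs
    refine le_of_tendsto ((hL.sub_const _).norm) ?_
    filter_upwards [eventually_ge_atTop s] with t ht
    exact key s t hs ht
  refine ⟨L, hL, ?_, ?_⟩
  · intro t ht
    have e1 : h t - L * Complex.exp (c * t) =
        -(Complex.exp (c * t) * (L - Complex.exp (-(c * t)) * h t)) := by
      rw [mul_sub, ← mul_assoc, ← Complex.exp_add]
      simp
      ring
    rw [e1, norm_neg, norm_mul]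
    have e2 : ‖Complex.exp (c * t)‖ = Real.exp (c.re * t) := by
      rw [Complex.norm_exp]
      simp
    rw [e2]
    calc Real.exp (c.re * t) * ‖L - Complex.exp (-(c * t)) * h t‖ ≤
        Real.exp (c.re * t) * (K / δ * Real.exp (-(δ * t))) :=
          mul_le_mul_of_nonneg_left (hLs t ht) (Real.exp_pos _).le
      _ = K / δ * Real.exp (β * t) := by
          rw [mul_left_comm, ← Real.exp_add, hδ]
          congr 2
          ring
  · have h1 := hLs 0 le_rfl
    simp only [Complex.ofReal_zero, mul_zero, neg_zero, Complex.exp_zero, one_mul,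
      Real.exp_zero, mul_one] at h1
    calc ‖L‖ = ‖h 0 + (L - h 0)‖ := by rw [add_sub_cancel]
      _ ≤ ‖h 0‖ + ‖L - h 0‖ := norm_add_le _ _
      _ ≤ _ := by linarith

end

end Pool.Agent.Work.MP_dd0ddf_al.AR
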