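import Pool.Agent.Work.MP_dd0ddf_al.AR.ADefs

/-!
# MP_dd0ddf_al, archimedean part, block R, module ATri


Simultaneous triangularisation modulo a subspace (pure linear algebra).

PROOF. Let `Q` be the quotient of `VV` by `nb` (as a submodule of `VV`: `nb.comap VV.subtype`, i.e. `nb.submoduleOf VV`); it is finite
dimensional because `VV ≤ W ⊔ nb` with `W` finite dimensional.  The operators `T a` preserve `VV` and `nb`, and commute on `VV`
modulo `nb`, so they induce commuting operators on `Q`.  Claim: a finite dimensional complex vector space `Q` with a finite commuting family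
`T_a` has a basis `q_0, ..., q_(m-1)` and scalars with `T_a q_j - α a j q_j ∈ span{q_k : k < j}`: induction on `dim Q`; if `Q ≠ 0` there is a
common eigenvector `q_0` (for a finite commuting family: take an eigenvalue of `T_1`, its eigenspace is stable under the others, induct on
the family; or use `Module.End.exists_hasEigenvalue...`/ `iInf` of eigenspaces); apply the induction to `Q ⧸ span q_0` and lift the basis.
Lift the `q_j` to `w_j ∈ VV`.
-/

set_option linter.unusedSectionVars false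

namespace Pool.Agent.Work.MP_dd0ddf_al.AR

open scoped SchwartzMap Matrix.Norms.Elementwise ComplexConjugate ContDiff Topology
open Matrix MeasureTheory Filter Asymptotics

noncomputable section

variable {n : ℕ}

private theorem atri_eig {V A : Type*} [AddCommGroup V] [Module ℂ V] (T : A → V →ₗ[ℂ] V)
    (s : Finset A) : ∀ (E : Submodule ℂ V), FiniteDimensional ℂ E → E ≠ ⊥ →
      (∀ a, ∀ v ∈ E, T a v ∈ E) → (∀ a b, ∀ v ∈ E, T a (T b v) = T b (T a v)) →
      ∃ q ∈ E, q ≠ 0 ∧ ∀ a ∈ s, ∃ c : ℂ, T a q = c • q := by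
  classical
  induction s using Finset.induction_on with
  | empty =>
    intro E _ hE _ _
    obtain ⟨q, hq, hq0⟩ := Submodule.exists_mem_ne_zero_of_ne_bot hE
    exact ⟨q, hq, hq0, by simp⟩
  | insert a s ha ih =>
    intro E hfin hE hst hcm
    have hnt : Nontrivial E := Submodule.nontrivial_iff_ne_bot.mpr hE
    obtain ⟨μ, hμ⟩ := Module.End.exists_eigenvalue ((T a).restrict (hst a))
    obtain ⟨x, hx⟩ := hμ.exists_hasEigenvector
    have hx1 : T a (x : V) = μ • (x : V) := by
      have h := congrArg (Subtype.val) hx.apply_eq_smul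
      simpa using h
    have hx0 : (x : V) ≠ 0 := by
      intro h
      exact hx.2 (Subtype.ext h)
    let E' : Submodule ℂ V := E ⊓ LinearMap.ker (T a - μ • LinearMap.id)
    have hmem : ∀ v, v ∈ E' ↔ v ∈ E ∧ T a v = μ • v := by
      intro v
      simp only [E', Submodule.mem_inf, LinearMap.mem_ker, LinearMap.sub_apply,
        LinearMap.smul_apply, LinearMap.id_apply, sub_eq_zero]
    have hxE' : (x : V) ∈ E' := (hmem _).2 ⟨x.2, hx1⟩
    have hfin' : FiniteDimensional ℂ E' := Submodule.finiteDimensional_inf_left _ _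
    have hne' : E' ≠ ⊥ := by
      intro h
      rw [h, Submodule.mem_bot] at hxE'
      exact hx0 hxE'
    obtain ⟨q, hq, hq0, hqs⟩ := ih E' hfin' hne'
      (by
        intro b v hv
        rw [hmem] at hv ⊢
        refine ⟨hst b v hv.1, ?_⟩
        rw [hcm a b v hv.1, hv.2, map_smul])
      (by
        intro b c v hv
        exact hcm b c v ((hmem v).1 hv).1)
    refine ⟨q, ((hmem q).1 hq).1, hq0, ?_⟩
    intro b hb
    rcases Finset.mem_insert.1 hb with rfl | hb
    · exact ⟨μ, ((hmem q).1 hq).2⟩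
    · exact hqs b hb

private theorem atri_ind {V A : Type*} [AddCommGroup V] [Module ℂ V] [Finite A]
    (VV : Submodule ℂ V) (T : A → V →ₗ[ℂ] V) (hV : ∀ a, ∀ v ∈ VV, T a v ∈ VV)
    (hc : ∀ a b, ∀ v ∈ VV, T a (T b v) = T b (T a v)) (N : ℕ) :
    ∀ (nb : Submodule ℂ V), nb ≤ VV → (∀ a, ∀ v ∈ nb, T a v ∈ nb) →
      FiniteDimensional ℂ (VV.map nb.mkQ) → Module.finrank ℂ (VV.map nb.mkQ) = N →
      ∃ (m : ℕ) (w : Fin m → V) (α : A → Fin m → ℂ), (∀ j, w j ∈ VV) ∧
      (∀ a j, T a (w j) - α a j • w j ∈ Submodule.span ℂ (w '' {k | k < j}) ⊔ nb) ∧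
      VV ≤ Submodule.span ℂ (Set.range w) ⊔ nb := by
  classical
  induction N using Nat.strong_induction_on with
  | _ N ih =>
  intro nb hnb hn hfin hN
  by_cases hle : VV ≤ nb
  · exact ⟨0, Fin.elim0, fun _ => Fin.elim0, fun j => j.elim0, fun _ j => j.elim0,
      le_sup_of_le_right hle⟩
  have hE : VV.map nb.mkQ ≠ ⊥ := by
    intro h
    apply hle
    intro v hv
    have h2 : nb.mkQ v ∈ VV.map nb.mkQ := ⟨v, hv, rfl⟩
    rw [h, Submodule.mem_bot, Submodule.mkQ_apply, Submodule.Quotient.mk_eq_zero] at h2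
    exact h2
  let T' : A → (V ⧸ nb) →ₗ[ℂ] (V ⧸ nb) := fun a => nb.mapQ nb (T a) (fun v hv => hn a v hv)
  have hT' : ∀ a v, T' a (nb.mkQ v) = nb.mkQ (T a v) := fun a v => rfl
  cases nonempty_fintype A
  obtain ⟨q, hqE, hq0, hq⟩ := atri_eig T' Finset.univ (VV.map nb.mkQ) hfin hE
    (by
      rintro a _ ⟨v, hv, rfl⟩
      exact ⟨T a v, hV a v hv, rfl⟩)
    (by
      rintro a b _ ⟨v, hv, rfl⟩
      rw [hT', hT', hT', hT', hc a b v hv])
  obtain ⟨w0, hw0, rfl⟩ := hqE
  have hw0n : w0 ∉ nb := by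
    intro h
    apply hq0
    rw [Submodule.mkQ_apply, Submodule.Quotient.mk_eq_zero]
    exact h
  choose c0 hc0 using fun a => hq a (Finset.mem_univ a)
  have hc0' : ∀ a, T a w0 - c0 a • w0 ∈ nb := by
    intro a
    have h := hc0 a
    rw [hT', ← map_smul, ← sub_eq_zero, ← map_sub, Submodule.mkQ_apply,
      Submodule.Quotient.mk_eq_zero] at h
    exact h
  set nb' : Submodule ℂ V := nb ⊔ Submodule.span ℂ {w0} with hnb'
  have hspan : ∀ x ∈ Submodule.span ℂ ({w0} : Set V), ∃ r : ℂ, r • w0 = x := by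
    intro x hx
    exact Submodule.mem_span_singleton.1 hx
  have h1 : nb' ≤ VV := sup_le hnb (by
    rw [Submodule.span_singleton_le_iff_mem]
    exact hw0)
  have hw0' : w0 ∈ nb' := Submodule.mem_sup_right (Submodule.mem_span_singleton_self w0)
  have h2 : ∀ a, ∀ v ∈ nb', T a v ∈ nb' := by
    intro a v hv
    rw [hnb', Submodule.mem_sup] at hv
    obtain ⟨y, hy, z, hz, rfl⟩ := hv
    obtain ⟨r, rfl⟩ := hspan z hz
    rw [map_add, map_smul]
    refine Submodule.add_mem _ (Submodule.mem_sup_left (hn a y hy)) (Submodule.smul_mem _ _ ?_)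
    have : T a w0 = (T a w0 - c0 a • w0) + c0 a • w0 := by abel
    rw [this]
    exact Submodule.add_mem _ (Submodule.mem_sup_left (hc0' a)) (Submodule.smul_mem _ _ hw0')
  -- the projection
  let φ : (V ⧸ nb) →ₗ[ℂ] (V ⧸ nb') := Submodule.mapQ nb nb' LinearMap.id (by
    intro v hv
    exact Submodule.mem_sup_left hv)
  have hφ : ∀ v, φ (nb.mkQ v) = nb'.mkQ v := fun v => rfl
  have hmap : VV.map nb'.mkQ = (VV.map nb.mkQ).map φ := by
    ext x
    constructor
    · rintro ⟨v, hv, rfl⟩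
      exact ⟨nb.mkQ v, ⟨v, hv, rfl⟩, rfl⟩
    · rintro ⟨_, ⟨v, hv, rfl⟩, rfl⟩
      exact ⟨v, hv, rfl⟩
  have hfin' : FiniteDimensional ℂ (VV.map nb'.mkQ) := by
    rw [hmap]
    infer_instance
  have hlt : Module.finrank ℂ (VV.map nb'.mkQ) < N := by
    rw [← hN, hmap]
    let ψ := φ.domRestrict (VV.map nb.mkQ)
    have hr : LinearMap.range ψ = (VV.map nb.mkQ).map φ := by
      rw [LinearMap.range_domRestrict]
    have hk : 0 < Module.finrank ℂ (LinearMap.ker ψ) := by
      rw [← Nat.succ_le_iff, Submodule.one_le_finrank_iff]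
      intro hb
      have hmem : (⟨nb.mkQ w0, ⟨w0, hw0, rfl⟩⟩ : VV.map nb.mkQ) ∈ LinearMap.ker ψ := by
        rw [LinearMap.mem_ker]
        change φ (nb.mkQ w0) = 0
        rw [hφ, Submodule.mkQ_apply, Submodule.Quotient.mk_eq_zero]
        exact hw0'
      rw [hb, Submodule.mem_bot] at hmem
      exact hq0 (congrArg Subtype.val hmem)
    have hsum := LinearMap.finrank_range_add_finrank_ker ψ
    rw [hr] at hsum
    omega
  obtain ⟨m, w, α, hw1, hw2, hw3⟩ := ih _ hlt nb' h1 h2 hfin' rfl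
  refine ⟨m + 1, Fin.cons w0 w, fun a => Fin.cons (c0 a) (α a), ?_, ?_, ?_⟩
  · intro j
    refine Fin.cases ?_ ?_ j
    · exact hw0
    · intro i
      exact hw1 i
  · intro a j
    refine Fin.cases ?_ ?_ j
    · simp only [Fin.cons_zero]
      exact Submodule.mem_sup_right (hc0' a)
    · intro i
      simp only [Fin.cons_succ]
      have h := hw2 a i
      rw [hnb'] at h
      refine (sup_le ?_ (sup_le le_sup_right ?_) :
        Submodule.span ℂ (w '' {k | k < i}) ⊔ (nb ⊔ Submodule.span ℂ {w0}) ≤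
          Submodule.span ℂ ((Fin.cons w0 w : Fin (m + 1) → V) '' {k | k < i.succ}) ⊔ nb) h
      · refine le_sup_of_le_left (Submodule.span_mono ?_)
        rintro _ ⟨k, hk, rfl⟩
        exact ⟨k.succ, Fin.succ_lt_succ_iff.2 hk, by simp⟩
      · refine le_sup_of_le_left (Submodule.span_mono ?_)
        rintro _ rfl
        exact ⟨0, Fin.succ_pos i, by simp⟩
  · refine hw3.trans ?_
    rw [hnb']
    refine sup_le ?_ (sup_le le_sup_right ?_)
    · refine le_sup_of_le_left (Submodule.span_mono ?_)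
      rintro _ ⟨k, rfl⟩
      exact ⟨k.succ, by simp⟩
    · refine le_sup_of_le_left (Submodule.span_mono ?_)
      rintro _ rfl
      exact ⟨0, by simp⟩

theorem exists_triang {V A : Type*} [AddCommGroup V] [Module ℂ V] [Finite A]
    (VV nb W : Submodule ℂ V) [FiniteDimensional ℂ W] (T : A → V →ₗ[ℂ] V) (hnb : nb ≤ VV)
    (hgen : VV ≤ W ⊔ nb) (hV : ∀ a, ∀ v ∈ VV, T a v ∈ VV) (hn : ∀ a, ∀ v ∈ nb, T a v ∈ nb)
    (hc : ∀ a b, ∀ v ∈ VV, T a (T b v) = T b (T a v)) :
    ∃ (m : ℕ) (w : Fin m → V) (α : A → Fin m → ℂ), (∀ j, w j ∈ VV) ∧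
      (∀ a j, T a (w j) - α a j • w j ∈ Submodule.span ℂ (w '' {k | k < j}) ⊔ nb) ∧
      VV ≤ Submodule.span ℂ (Set.range w) ⊔ nb := by
  have hmap : VV.map nb.mkQ ≤ W.map nb.mkQ := by
    rintro _ ⟨v, hv, rfl⟩
    obtain ⟨x, hx, y, hy, rfl⟩ := Submodule.mem_sup.1 (hgen hv)
    refine ⟨x, hx, ?_⟩
    rw [map_add]
    have : nb.mkQ y = 0 := by
      rw [Submodule.mkQ_apply, Submodule.Quotient.mk_eq_zero]
      exact hy
    rw [this, add_zero]
  have hfin : FiniteDimensional ℂ (VV.map nb.mkQ) := Submodule.finiteDimensional_of_le hmap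
  exact atri_ind VV T hV hc _ nb hnb hn hfin rfl

end

end Pool.Agent.Work.MP_dd0ddf_al.AR
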