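import Pool.Agent.Work.MP_dd0ddf_al.AR.RGe
import Pool.Agent.Work.MP_dd0ddf_al.CW.Coi

/-!
# MP_dd0ddf_al, archimedean part, block R, module RR4

`V / nbar V` is finite dimensional (helper29).

PROOF. Case `n = 0`: `nbV π d = ⊥` (no indices).  `GLn 0` is trivial, so every subspace is invariant; `P` is one-dimensional: for `v ≠ 0` the line through `v` is closed and
invariant, so it is `⊤` (`hπ.irr`).  `W = VK π`.
Case `0 < n`: `exists_Xd_ne`: `Xd π D0 ≠ ⊥`.  Apply `CW.coi` to `Y = VK π`, `L i j = vL π d hd i.rev j.rev`, `R` the same (`gg_rev (gg_VK ..)`, `hasZ_rev`),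
`V0 = vV0 π D0` (`vV0_fin`, `vV0_Z` for the reversed indices), hgen: `genS_eq` (a word for the reversed operators is the word for `vL, vR` with all indices reversed, so the spans are
equal; `genS = VK` and injectivity of the coercion).  It gives `S` finite dimensional with `S ⊔ CW.nY (reversed L) (reversed R) = ⊤`, and the
image of this `nY` in `P` is in `nbV π d` (`i < j` iff `j.rev < i.rev`).  Let `S'` be the image of `S` in `P`: `S' ≤ VK π`, finite dimensional, `S' ⊔ nbV = VK` (`nbV ≤ VK` by `VK_LR`).  Let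
`W` be a complement of `S' ⊓ nbV` in `S'` (`Submodule.exists_isCompl` in the space `S'`, mapped to `P`): `W ⊓ nbV = ⊥`, `W ⊔ (S' ⊓ nbV) = S'`, so `W ⊔ nbV = VK`.
-/

set_option linter.unusedSectionVars false

namespace Pool.Agent.Work.MP_dd0ddf_al.AR

open scoped SchwartzMap Matrix.Norms.Elementwise ComplexConjugate ContDiff Topology
open Matrix MeasureTheory Filter Asymptotics

noncomputable section

variable {n : ℕ} {P : Type*} [AddCommGroup P] [Module ℂ P] [UniformSpace P] [IsUniformAddGroup P]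
  [ContinuousSMul ℂ P] [PolynormableSpace ℂ P] [T2Space P] [CompleteSpace P]
  [FirstCountableTopology P]

private def rvl (l : CW.Lt n) : CW.Lt n := (l.1, l.2.1.rev, l.2.2.rev)

private theorem wd_rev {Y : Type*} [AddCommGroup Y] [Module ℂ Y]
    (L R : Fin n → Fin n → Module.End ℂ Y) (w : List (CW.Lt n)) :
    CW.wd (fun i j => L i.rev j.rev) (fun i j => R i.rev j.rev) (w.map rvl) = CW.wd L R w := by
  unfold CW.wd
  rw [List.map_map]
  congr 1
  apply List.map_congr_left
  intro l _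
  simp only [Function.comp_apply, CW.lop, rvl, Fin.rev_rev]

private theorem fin_coinv_zero (h0 : n = 0) (π : GLn n →* (P →L[ℂ] P)) (hπ : IsCW π)
    (d : Mat n → P →L[ℂ] P) : ∃ W : Submodule ℂ P, FiniteDimensional ℂ W ∧ W ≤ VK π ∧
      W ⊔ nbV π d = VK π ∧ W ⊓ nbV π d = ⊥ := by
  subst h0
  have hnb : nbV π d = ⊥ := by
    unfold nbV
    have h1 : {x : P | ∃ i j : Fin 0, j < i ∧ ∃ v ∈ VK π, x = Lo d i j v ∨ x = Ro d i j v} = ∅ := by
      ext x
      simp only [Set.mem_ofPred_eq, Set.mem_empty_iff_false, iff_false]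
      rintro ⟨i, -⟩
      exact i.elim0
    rw [h1, Submodule.span_empty]
  have hnt := hπ.nontriv
  obtain ⟨v, hv⟩ := exists_ne (0 : P)
  have hfd : FiniteDimensional ℂ (Submodule.span ℂ ({v} : Set P)) := inferInstance
  have hcl : IsClosed ((Submodule.span ℂ ({v} : Set P) : Submodule ℂ P) : Set P) :=
    Submodule.closed_of_finiteDimensional _
  have hinv : ∀ g : GLn 0, ∀ x ∈ Submodule.span ℂ ({v} : Set P), π g x ∈
      Submodule.span ℂ ({v} : Set P) := by
    intro g x hx
    have hg : g = 1 := Units.ext (Matrix.ext fun i _ => i.elim0)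
    rw [hg, map_one]
    exact hx
  have htop : Submodule.span ℂ ({v} : Set P) = ⊤ := by
    rcases hπ.irr _ hcl hinv with h | h
    · exfalso
      rw [Submodule.span_singleton_eq_bot] at h
      exact hv h
    · exact h
  have hPfd : FiniteDimensional ℂ P := by
    rw [htop] at hfd
    exact (Submodule.topEquiv (R := ℂ) (M := P)).finiteDimensional
  refine ⟨VK π, inferInstance, le_rfl, ?_, ?_⟩
  · rw [hnb, sup_bot_eq]
  · rw [hnb, inf_bot_eq]

/-- `nbar V` has a finite dimensional complement in `V` -/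
theorem fin_coinv (π : GLn n →* (P →L[ℂ] P)) (hπ : IsCW π) (d : Mat n → P →L[ℂ] P)
    (hd : Der π d) : ∃ W : Submodule ℂ P, FiniteDimensional ℂ W ∧ W ≤ VK π ∧
      W ⊔ nbV π d = VK π ∧ W ⊓ nbV π d = ⊥ := by
  rcases Nat.eq_zero_or_pos n with h0 | hn
  · exact fin_coinv_zero h0 π hπ d
  obtain ⟨D0, hD0⟩ := exists_Xd_ne π hπ
  have hfin := vV0_fin π hπ D0
  have hgen : ∀ y : VK π, y ∈ Submodule.span ℂ {z : VK π | ∃ (w : List (CW.Lt n)) (v : VK π),
      v ∈ vV0 π D0 ∧ z = CW.wd (fun i j => vL π d hd i.rev j.rev)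
        (fun i j => vR π d hd i.rev j.rev) w v} := by
    intro y
    have h1 : (y : P) ∈ genS π d hd D0 := by
      rw [genS_eq hn π hπ d hd D0 hD0]
      exact y.2
    have h2 : genS π d hd D0 ≤ (Submodule.span ℂ {z : VK π | ∃ (w : List (CW.Lt n)) (v : VK π),
      v ∈ vV0 π D0 ∧ z = CW.wd (fun i j => vL π d hd i.rev j.rev)
        (fun i j => vR π d hd i.rev j.rev) w v}).map (VK π).subtype := by
      unfold genS
      rw [Submodule.span_le]
      rintro x ⟨w, v, hv, rfl⟩
      refine ⟨CW.wd (vL π d hd) (vR π d hd) w v, Submodule.subset_span ⟨w.map rvl, v, hv, ?_⟩, rfl⟩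
      rw [wd_rev]
    obtain ⟨z, hz, hzy⟩ := h2 h1
    have h3 : z = y := Subtype.ext hzy
    rw [← h3]
    exact hz
  obtain ⟨S, hSf, hS⟩ := CW.coi hn (gg_rev (gg_VK π d hd)) (hasZ_rev π hπ d hd)
    (V0 := vV0 π D0) (fun i j v hv => vV0_Z π d hd D0 i.rev j.rev hv) hgen
  have hnbV : nbV π d ≤ VK π := by
    unfold nbV
    rw [Submodule.span_le]
    rintro x ⟨i, j, -, v, hv, rfl | rfl⟩
    · exact (VK_LR π d hd i j hv).1
    · exact (VK_LR π d hd i j hv).2
  have hnY : (CW.nY (fun i j => vL π d hd i.rev j.rev) (fun i j => vR π d hd i.rev j.rev)).map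
      (VK π).subtype ≤ nbV π d := by
    rw [Submodule.map_le_iff_le_comap]
    unfold CW.nY
    refine iSup_le fun i => iSup_le fun j => iSup_le fun hij => sup_le ?_ ?_
    · rintro _ ⟨v, rfl⟩
      exact Submodule.subset_span ⟨i.rev, j.rev, Fin.rev_lt_rev.2 hij, v, v.2, Or.inl rfl⟩
    · rintro _ ⟨v, rfl⟩
      exact Submodule.subset_span ⟨i.rev, j.rev, Fin.rev_lt_rev.2 hij, v, v.2, Or.inr rfl⟩
  have hS'f : FiniteDimensional ℂ (S.map (VK π).subtype) := inferInstance
  have hS'le : S.map (VK π).subtype ≤ VK π := by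
    rintro _ ⟨v, -, rfl⟩
    exact v.2
  have hS' : S.map (VK π).subtype ⊔ nbV π d = VK π := by
    apply le_antisymm (sup_le hS'le hnbV)
    intro x hx
    have h1 : (⟨x, hx⟩ : VK π) ∈ S ⊔ CW.nY (fun i j => vL π d hd i.rev j.rev)
        (fun i j => vR π d hd i.rev j.rev) := by
      rw [hS]
      exact Submodule.mem_top
    have h2 : x ∈ (S ⊔ CW.nY (fun i j => vL π d hd i.rev j.rev)
        (fun i j => vR π d hd i.rev j.rev)).map (VK π).subtype := ⟨⟨x, hx⟩, h1, rfl⟩
    rw [Submodule.map_sup] at h2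
    exact (sup_le_sup_left hnY _) h2
  obtain ⟨Q, hQ⟩ := exists_isCompl (S.map (VK π).subtype ⊓ nbV π d)
  have hW1 : S.map (VK π).subtype ⊓ Q ⊔ (S.map (VK π).subtype ⊓ nbV π d) =
      S.map (VK π).subtype := by
    rw [inf_sup_assoc_of_le Q (inf_le_left : S.map (VK π).subtype ⊓ nbV π d ≤ _), sup_comm Q,
      hQ.sup_eq_top, inf_top_eq]
  refine ⟨S.map (VK π).subtype ⊓ Q, ?_, inf_le_left.trans hS'le, ?_, ?_⟩
  · exact Submodule.finiteDimensional_of_le (inf_le_left : S.map (VK π).subtype ⊓ Q ≤ _)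
  · apply le_antisymm (sup_le (inf_le_left.trans hS'le) hnbV)
    calc VK π = S.map (VK π).subtype ⊔ nbV π d := hS'.symm
      _ = (S.map (VK π).subtype ⊓ Q ⊔ (S.map (VK π).subtype ⊓ nbV π d)) ⊔ nbV π d := by rw [hW1]
      _ ≤ S.map (VK π).subtype ⊓ Q ⊔ nbV π d := by
        refine sup_le (sup_le le_sup_left (inf_le_right.trans le_sup_right)) le_sup_right
  · rw [inf_right_comm]
    exact hQ.inf_eq_bot

end

end Pool.Agent.Work.MP_dd0ddf_al.AR
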