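import Pool.Agent.Work.MP_dd0ddf_al.AR.ATri
import Pool.Agent.Work.MP_dd0ddf_al.AR.RR4
import Pool.Agent.Work.MP_dd0ddf_al.AR.KDx
import Pool.Agent.Work.MP_dd0ddf_al.AR.RLR

/-!
# MP_dd0ddf_al, archimedean part, block R, module ATriC


The triangular basis of `V / nbar V`.

PROOF. `fin_coinv` gives `W`.  Apply `exists_triang` with `VV = VK π`, `nb = nbV π d`, `A = Bool × Fin n`, `T (true, i) = Lo d i i`,
`T (false, i) = Ro d i i` (as linear maps).  `nbV ≤ VK`: `VK_LR`.  `VV`-stability: `VK_LR`.  `nb`-stability: on the spanning set,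
`Lo_ii (Lo_ab v) = Lo_ab (Lo_ii v) + (combination of Lo_ab v)`: by `Lo_Lo` the commutator `[Lo_ii, Lo_ab]` is
`(if i = a then Lo_ib else 0) - (if b = i then Lo_ai else 0)`, which for `b < a` is a multiple of `Lo_ab`; `Lo_Ro`; similarly `Ro`.
Commutation: `Lo_Lo` with `i, i, k, k` gives `0`; `Ro_Ro`, `Lo_Ro`.
-/

set_option linter.unusedSectionVars false

namespace Pool.Agent.Work.MP_dd0ddf_al.AR

open scoped SchwartzMap Matrix.Norms.Elementwise ComplexConjugate ContDiff Topology
open Matrix MeasureTheory Filter Asymptotics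

noncomputable section

variable {n : ℕ} {P : Type*} [AddCommGroup P] [Module ℂ P] [UniformSpace P] [IsUniformAddGroup P]
  [ContinuousSMul ℂ P] [PolynormableSpace ℂ P] [T2Space P] [CompleteSpace P]
  [FirstCountableTopology P]

theorem exists_tri (π : GLn n →* (P →L[ℂ] P)) (hπ : IsCW π) (d : Mat n → P →L[ℂ] P)
    (hd : Der π d) : ∃ (m : ℕ) (w : Fin m → P) (α β : Fin n → Fin m → ℂ),
      (∀ j, w j ∈ VK π) ∧
      (∀ i j, Lo d i i (w j) - α i j • w j ∈
        Submodule.span ℂ (w '' {k | k < j}) ⊔ nbV π d) ∧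
      (∀ i j, Ro d i i (w j) - β i j • w j ∈
        Submodule.span ℂ (w '' {k | k < j}) ⊔ nbV π d) ∧
      VK π ≤ Submodule.span ℂ (Set.range w) ⊔ nbV π d := by
  obtain ⟨W, hWf, hWV, hW, -⟩ := fin_coinv π hπ d hd
  have gL : ∀ i j : Fin n, j < i → ∀ v ∈ VK π, Lo d i j v ∈ nbV π d := fun i j hij v hv =>
    Submodule.subset_span ⟨i, j, hij, v, hv, Or.inl rfl⟩
  have gR : ∀ i j : Fin n, j < i → ∀ v ∈ VK π, Ro d i j v ∈ nbV π d := fun i j hij v hv =>
    Submodule.subset_span ⟨i, j, hij, v, hv, Or.inr rfl⟩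
  have hL : ∀ k : Fin n, ∀ x ∈ nbV π d, Lo d k k x ∈ nbV π d := by
    intro k x hx
    refine Submodule.span_induction (p := fun x _ => Lo d k k x ∈ nbV π d) ?_ ?_ ?_ ?_ hx
    · rintro x ⟨i, j, hij, v, hv, rfl | rfl⟩
      · have h := Lo_Lo π d hd k k i j v
        rw [sub_eq_iff_eq_add] at h
        rw [h]
        refine Submodule.add_mem _ (Submodule.sub_mem _ ?_ ?_)
          (gL i j hij _ (VK_LR π d hd k k hv).1)
        · split_ifs with hk
          · rw [hk]
            exact gL i j hij v hv
          · exact Submodule.zero_mem _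
        · split_ifs with hk
          · rw [← hk]
            exact gL i j hij v hv
          · exact Submodule.zero_mem _
      · rw [Lo_Ro π d hd k k i j v]
        exact gR i j hij _ (VK_LR π d hd k k hv).1
    · rw [map_zero]
      exact Submodule.zero_mem _
    · intro x y _ _ hx hy
      rw [map_add]
      exact Submodule.add_mem _ hx hy
    · intro c x _ hx
      rw [map_smul]
      exact Submodule.smul_mem _ _ hx
  have hR : ∀ k : Fin n, ∀ x ∈ nbV π d, Ro d k k x ∈ nbV π d := by
    intro k x hx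
    refine Submodule.span_induction (p := fun x _ => Ro d k k x ∈ nbV π d) ?_ ?_ ?_ ?_ hx
    · rintro x ⟨i, j, hij, v, hv, rfl | rfl⟩
      · rw [← Lo_Ro π d hd i j k k v]
        exact gL i j hij _ (VK_LR π d hd k k hv).2
      · have h := Ro_Ro π d hd k k i j v
        rw [sub_eq_iff_eq_add] at h
        rw [h]
        refine Submodule.add_mem _ (Submodule.sub_mem _ ?_ ?_)
          (gR i j hij _ (VK_LR π d hd k k hv).2)
        · split_ifs with hk
          · rw [hk]
            exact gR i j hij v hv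
          · exact Submodule.zero_mem _
        · split_ifs with hk
          · rw [← hk]
            exact gR i j hij v hv
          · exact Submodule.zero_mem _
    · rw [map_zero]
      exact Submodule.zero_mem _
    · intro x y _ _ hx hy
      rw [map_add]
      exact Submodule.add_mem _ hx hy
    · intro c x _ hx
      rw [map_smul]
      exact Submodule.smul_mem _ _ hx
  have hnb : nbV π d ≤ VK π := by
    refine Submodule.span_le.2 ?_
    rintro x ⟨i, j, -, v, hv, rfl | rfl⟩
    · exact (VK_LR π d hd i j hv).1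
    · exact (VK_LR π d hd i j hv).2
  have hLL : ∀ (i k : Fin n) (v : P),
      Lo d i i (Lo d k k v) = Lo d k k (Lo d i i v) := by
    intro i k v
    have h := Lo_Lo π d hd i i k k v
    rw [← sub_eq_zero, h]
    by_cases hik : i = k
    · subst hik
      simp
    · rw [if_neg hik, if_neg (fun h => hik h.symm), sub_zero]
  have hRR : ∀ (i k : Fin n) (v : P),
      Ro d i i (Ro d k k v) = Ro d k k (Ro d i i v) := by
    intro i k v
    have h := Ro_Ro π d hd i i k k v
    rw [← sub_eq_zero, h]
    by_cases hik : i = k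
    · subst hik
      simp
    · rw [if_neg hik, if_neg (fun h => hik h.symm), sub_zero]
  obtain ⟨m, w, α, h1, h2, h3⟩ := exists_triang (A := Bool × Fin n) (VK π) (nbV π d) W
    (fun a => (cond a.1 (Lo d a.2 a.2) (Ro d a.2 a.2) : P →L[ℂ] P).toLinearMap) hnb
    (by rw [hW])
    (by
      rintro ⟨b, k⟩ v hv
      cases b
      · exact (VK_LR π d hd k k hv).2
      · exact (VK_LR π d hd k k hv).1)
    (by
      rintro ⟨b, k⟩ v hv
      cases b
      · exact hR k v hv
      · exact hL k v hv)
    (by
      rintro ⟨b, i⟩ ⟨b', k⟩ v hv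
      cases b <;> cases b'
      · exact hRR i k v
      · exact (Lo_Ro π d hd k k i i v).symm
      · exact Lo_Ro π d hd i i k k v
      · exact hLL i k v)
  exact ⟨m, w, fun i => α (true, i), fun i => α (false, i), h1, fun i j => h2 (true, i) j,
    fun i j => h2 (false, i) j, h3⟩

end

end Pool.Agent.Work.MP_dd0ddf_al.AR
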