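import Pool.Agent.Work.MP_dd0ddf_al.AR.RBDefs
import Pool.Agent.Work.MP_dd0ddf_al.AR.KDx
import Pool.Agent.Work.MP_dd0ddf_al.AR.KInvx
import Pool.Agent.Work.MP_dd0ddf_al.AR.RLR

/-!
# MP_dd0ddf_al, archimedean part, block R, module BNul


Two sequences which are killed by functionals of small degree.

PROOF. `nul_diff`: for `l ∈ Yd π D` also `l ∈ Yd π (D+1)` (`Yd_mono`), so `l(x_(D+1)) = u l = l(x_D)`; `pol`: `p(x_(D+1) - x_D) ≤ p(x_(D+1)) + p(x_D)` and `(2 + D)^M ≤ 2^M (1+D)^M`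
(with `C` replaced by `max C 0`).
`nul_d`: for `l ∈ Yd π D`: `l ∘ d Y ∈ Yd π (D+2)` (`Yd_d`), so `l(d Y x_(D+2)) = u(l ∘ d Y)`; by `d_eq_sum` `l ∘ d Y = ∑_ij (Y_ij • l ∘ Lo_ij + conj(Y_ij) • l ∘ Ro_ij)`; `u` of the terms with `i < j` is `0`
(`hu.nil`, `l ∈ YK π` by `mem_YK`), `Y_ij = 0` for `j < i`, and the terms `i = j` give `(Y_ii a_i + conj(Y_ii) b_i) u l` (`hu.wt`); so
`u(l ∘ d Y) = cw a b Y * u l`.  `pol`: `v ↦ p(d Y v)` is a continuous seminorm (`p.comp (d Y).toLinearMap`), `≤ q` continuous and `K`-invariant (`exists_KInv`); apply `hx.pol q` and `hx.pol p` at `D + 2`, and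
`(1 + (D+2))^M ≤ 3^M (1+D)^M`; take the larger exponent and the sum of the constants (made nonnegative).
-/

set_option linter.unusedSectionVars false

namespace Pool.Agent.Work.MP_dd0ddf_al.AR

open scoped SchwartzMap Matrix.Norms.Elementwise ComplexConjugate ContDiff Topology
open Matrix MeasureTheory Filter Asymptotics
open Pool.Agent.Work.MP_dd0ddf_al

noncomputable section

variable {n : ℕ} {P : Type*} [AddCommGroup P] [Module ℂ P] [UniformSpace P] [IsUniformAddGroup P]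
  [ContinuousSMul ℂ P] [PolynormableSpace ℂ P] [T2Space P] [CompleteSpace P]
  [FirstCountableTopology P]

private theorem bn_shift {C : ℝ} {M : ℕ} (k : ℕ) (D : ℕ) :
    C * (1 + ((D + k : ℕ) : ℝ)) ^ M ≤
      (max C 0 * ((k : ℝ) + 1) ^ M) * (1 + (D : ℝ)) ^ M := by
  have hD : (0 : ℝ) ≤ D := Nat.cast_nonneg D
  have hk : (0 : ℝ) ≤ k := Nat.cast_nonneg k
  have h1 : (1 + ((D + k : ℕ) : ℝ)) ≤ ((k : ℝ) + 1) * (1 + (D : ℝ)) := by
    push_cast
    nlinarith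
  have h2 : (1 + ((D + k : ℕ) : ℝ)) ^ M ≤ (((k : ℝ) + 1) * (1 + (D : ℝ))) ^ M :=
    pow_le_pow_left₀ (by positivity) h1 M
  calc C * (1 + ((D + k : ℕ) : ℝ)) ^ M ≤ max C 0 * (1 + ((D + k : ℕ) : ℝ)) ^ M :=
        mul_le_mul_of_nonneg_right (le_max_left _ _) (by positivity)
    _ ≤ max C 0 * (((k : ℝ) + 1) * (1 + (D : ℝ))) ^ M :=
        mul_le_mul_of_nonneg_left h2 (le_max_right _ _)
    _ = _ := by rw [mul_pow]; ring

private theorem bn_pow {M N : ℕ} (h : M ≤ N) (D : ℕ) : (1 + (D : ℝ)) ^ M ≤ (1 + (D : ℝ)) ^ N :=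
  pow_le_pow_right₀ (by have : (0 : ℝ) ≤ D := Nat.cast_nonneg D; linarith) h

theorem nul_diff (π : GLn n →* (P →L[ℂ] P)) {u : (P →L[ℂ] ℂ) →ₗ[ℂ] ℂ} {x : ℕ → P}
    (hx : XD π u x) : Nul π (fun D => x (D + 1) - x D) := by
  refine ⟨?_, ?_⟩
  · intro D l hl
    show l (x (D + 1) - x D) = 0
    rw [map_sub, hx.val (D + 1) l (Yd_mono π (Nat.le_succ D) hl), hx.val D l hl, sub_self]
  · intro p hp hpK
    obtain ⟨C, M, h⟩ := hx.pol p hp hpK
    refine ⟨max C 0 * (((1 : ℕ) : ℝ) + 1) ^ M + max C 0 * (((0 : ℕ) : ℝ) + 1) ^ M, M,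
      fun D => ?_⟩
    have h1 := (h (D + 1)).trans (bn_shift 1 D)
    have h2 := (h (D + 0)).trans (bn_shift 0 D)
    have h3 : p (x (D + 1) - x D) ≤ p (x (D + 1)) + p (x D) := map_sub_le_add p _ _
    rw [add_mul]
    exact h3.trans (add_le_add h1 h2)

private theorem bn_u (π : GLn n →* (P →L[ℂ] P)) (d : Mat n → P →L[ℂ] P) (hd : Der π d)
    (u : (P →L[ℂ] ℂ) →ₗ[ℂ] ℂ) (a b : Fin n → ℂ) (hu : CBE π d u a b) {Y : Mat n} (hY : Up Y)
    {l : P →L[ℂ] ℂ} (hl : l ∈ YK π) : u (l.comp (d Y)) = cw a b Y * u l := by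
  have e : l.comp (d Y) = ∑ i, ∑ j, (Y i j • l.comp (Lo d i j) +
      conj (Y i j) • l.comp (Ro d i j)) := by
    ext v
    rw [ContinuousLinearMap.comp_apply, d_eq_sum π d hd, map_sum]
    simp only [map_sum, map_add, map_smul, _root_.sum_apply, _root_.add_apply,
      _root_.smul_apply, ContinuousLinearMap.comp_apply]
  rw [e, map_sum, cw, Finset.sum_mul]
  refine Finset.sum_congr rfl fun i _ => ?_
  rw [map_sum, Finset.sum_eq_single i]
  · rw [map_add, map_smul, map_smul, (hu.wt i l hl).1, (hu.wt i l hl).2, smul_eq_mul, smul_eq_mul]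
    ring
  · intro j _ hj
    rcases lt_or_gt_of_ne hj with h | h
    · rw [map_add, map_smul, map_smul, hY i j h]
      simp
    · rw [map_add, map_smul, map_smul, (hu.nil i j h l hl).1, (hu.nil i j h l hl).2, smul_zero,
        smul_zero, add_zero]
  · intro h
    exact absurd (Finset.mem_univ i) h

theorem nul_d (π : GLn n →* (P →L[ℂ] P)) (hπ : IsCW π) (d : Mat n → P →L[ℂ] P) (hd : Der π d)
    (u : (P →L[ℂ] ℂ) →ₗ[ℂ] ℂ) (a b : Fin n → ℂ) (hu : CBE π d u a b) {x : ℕ → P}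
    (hx : XD π u x) {Y : Mat n} (hY : Up Y) :
    Nul π (fun D => d Y (x (D + 2)) - cw a b Y • x (D + 2)) := by
  refine ⟨?_, ?_⟩
  · intro D l hl
    show l (d Y (x (D + 2)) - cw a b Y • x (D + 2)) = 0
    have h1 : l (d Y (x (D + 2))) = u (l.comp (d Y)) :=
      hx.val (D + 2) (l.comp (d Y)) (Yd_d π d hd Y hl)
    rw [map_sub, map_smul, h1, hx.val (D + 2) l (Yd_mono π (by omega) hl),
      bn_u π d hd u a b hu hY (mem_YK.2 ⟨D, hl⟩), smul_eq_mul, sub_self]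
  · intro p hp hpK
    obtain ⟨q, hq, hqK, hpq⟩ := exists_KInv π hπ (p.comp (d Y).toLinearMap)
      (hp.comp (d Y).continuous)
    obtain ⟨C₁, M₁, h₁⟩ := hx.pol q hq hqK
    obtain ⟨C₂, M₂, h₂⟩ := hx.pol p hp hpK
    refine ⟨max C₁ 0 * (((2 : ℕ) : ℝ) + 1) ^ M₁ +
      ‖cw a b Y‖ * (max C₂ 0 * (((2 : ℕ) : ℝ) + 1) ^ M₂), max M₁ M₂, fun D => ?_⟩
    have e1 : p (d Y (x (D + 2))) ≤ q (x (D + 2)) := hpq (x (D + 2))
    have e2 := (h₁ (D + 2)).trans (bn_shift 2 D)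
    have e3 := (h₂ (D + 2)).trans (bn_shift 2 D)
    have n1 : 0 ≤ max C₁ 0 * (((2 : ℕ) : ℝ) + 1) ^ M₁ :=
      mul_nonneg (le_max_right _ _) (by positivity)
    have n2 : 0 ≤ max C₂ 0 * (((2 : ℕ) : ℝ) + 1) ^ M₂ :=
      mul_nonneg (le_max_right _ _) (by positivity)
    have e4 := e2.trans (mul_le_mul_of_nonneg_left (bn_pow (le_max_left M₁ M₂) D) n1)
    have e5 := e3.trans (mul_le_mul_of_nonneg_left (bn_pow (le_max_right M₁ M₂) D) n2)
    have e6 : p (d Y (x (D + 2)) - cw a b Y • x (D + 2)) ≤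
        p (d Y (x (D + 2))) + ‖cw a b Y‖ * p (x (D + 2)) := by
      refine (map_sub_le_add p _ _).trans ?_
      rw [map_smul_eq_mul]
    have e7 := mul_le_mul_of_nonneg_left e5 (norm_nonneg (cw a b Y))
    calc p (d Y (x (D + 2)) - cw a b Y • x (D + 2))
        ≤ p (d Y (x (D + 2))) + ‖cw a b Y‖ * p (x (D + 2)) := e6
      _ ≤ (max C₁ 0 * (((2 : ℕ) : ℝ) + 1) ^ M₁) * (1 + (D : ℝ)) ^ max M₁ M₂ +
          ‖cw a b Y‖ * ((max C₂ 0 * (((2 : ℕ) : ℝ) + 1) ^ M₂) * (1 + (D : ℝ)) ^ max M₁ M₂) :=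
        add_le_add (e1.trans e4) e7
      _ = _ := by ring

end

end Pool.Agent.Work.MP_dd0ddf_al.AR
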