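import Pool.Agent.Work.MP_dd0ddf_al.AR.BKey
import Pool.Agent.Work.MP_dd0ddf_al.AR.BNul
import Pool.Agent.Work.MP_dd0ddf_al.AR.BPe

/-!
# MP_dd0ddf_al, archimedean part, block R, module BExG


`A` transforms under `exp(Y)`, `Y` upper triangular, by `e^(c(Y))`.

PROOF. `c = cw a b Y`.  By `ext_functional` it is enough to prove the equality after applying `l`.  `T` from `piF_cont` for `f`, `m = l.comp T`, so `m v = l(piF π f v)`.  Let
`h_D(τ) = m(π(expG(τ • Y)) x_(D+2))`; by `hd.deriv`: `h_D' (τ) = m(π(expG(τ • Y)) (d Y x_(D+2)))`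
`= c h_D(τ) + m(π(expG(τ • Y)) z_D)`, `z_D = d Y x_(D+2) - c x_(D+2)`.  By `piF_left`: `m(π(expG(τ • Y)) z_D) = l(piF π f_τ z_D)`, `f_τ(X) = f(expG(τ • Y) X)`.
`f ∈ TGK K`; `S = {expG(τ • Y) | 0 ≤ τ ≤ 1}` is compact (image of `[0,1]` under a continuous map: see `dad_cont` in DAd), `K'` from `TGK_left`; `‖exp(τ Y)‖ ≤ L` on `[0,1]`.  `|l v| ≤ p v` (`functional_bound`).
`nul_bound` for `z` (`nul_d`), `K'`, `p`, `R = 1`: `C, M`.  `DBd_exists`: `B` for `f, M`; `DBd_left`: `DBd M f_τ (C1 B)`.  So `|l(piF π f_τ z_D)| ≤ C C1 B/(1+D)` for `τ ∈ [0,1]`.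
`φ_D(τ) = e^(-cτ) h_D(τ)` has derivative `e^(-cτ) l(piF π f_τ z_D)`, of norm `≤ e^|c| C C1 B/(1+D)` on `[0,1]`; so `|φ_D(1) - φ_D(0)| ≤ e^|c| C C1 B/(1+D) → 0`
(`Convex.norm_image_sub_le_of_norm_deriv_le` / `norm_image_sub_le_of_norm_deriv_le_segment_01'`).  `φ_D(0) = l(piF π f x_(D+2)) → l(A f)` (`expG 0 = 1`) and
`φ_D(1) = e^(-c) l(piF π (f(exp Y ·)) x_(D+2)) → e^(-c) l(A(f(exp Y ·)))` (`piF_left`, `coe_expG`, `hA`, composed with `D ↦ D+2`).  Uniqueness of limits.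
-/

set_option linter.unusedSectionVars false

namespace Pool.Agent.Work.MP_dd0ddf_al.AR

section

attribute [local instance] Matrix.linftyOpNormedRing Matrix.linftyOpNormedAlgebra

private theorem bex_deriv {n : ℕ} (Y : Matrix (Fin n) (Fin n) ℂ) (t : ℝ) (i j : Fin n) :
    HasDerivAt (fun τ : ℝ => (NormedSpace.exp (τ • Y)) i j) ((Y * NormedSpace.exp (t • Y)) i j) t := by
  have h := hasDerivAt_exp_smul_const' (𝕂 := ℝ) Y t
  exact hasDerivAt_pi.1 (hasDerivAt_pi.1 h i) j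

end

open scoped SchwartzMap Matrix.Norms.Elementwise ComplexConjugate ContDiff Topology
open Matrix MeasureTheory Filter Asymptotics
open Pool.Agent.Work.MP_dd0ddf_al

noncomputable section

variable {n : ℕ} {P : Type*} [AddCommGroup P] [Module ℂ P] [UniformSpace P] [IsUniformAddGroup P]
  [ContinuousSMul ℂ P] [PolynormableSpace ℂ P] [T2Space P] [CompleteSpace P]
  [FirstCountableTopology P]

private theorem bex_cont (Y : Mat n) : Continuous fun τ : ℝ => NormedSpace.exp (τ • Y) := by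
  refine continuous_pi fun i => continuous_pi fun j => ?_
  rw [continuous_iff_continuousAt]
  intro t
  exact (bex_deriv Y t i j).continuousAt

private theorem bex_add (Y : Mat n) (s t : ℝ) :
    expG ((s + t) • Y) = expG (s • Y) * expG (t • Y) := by
  apply Units.ext
  rw [Units.val_mul, coe_expG, coe_expG, coe_expG, add_smul]
  exact Matrix.exp_add_of_commute _ _ (((Commute.refl Y).smul_left s).smul_right t)

private theorem bex_zero (Y : Mat n) : expG ((0 : ℝ) • Y) = 1 := by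
  apply Units.ext
  rw [coe_expG, zero_smul, NormedSpace.exp_zero, Units.val_one]

private theorem bex_contG (Y : Mat n) : Continuous fun τ : ℝ => expG (τ • Y) := by
  rw [Units.continuous_iff]
  constructor
  · exact bex_cont Y
  · have h2 : ((fun x : GLn n => ((x⁻¹ : GLn n) : Mat n)) ∘ fun τ : ℝ => expG (τ • Y)) =
        fun τ : ℝ => NormedSpace.exp ((-τ) • Y) := by
      funext τ
      simp only [Function.comp_apply]
      have h3 : expG (τ • Y) * expG ((-τ) • Y) = 1 := by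
        rw [← bex_add, add_neg_cancel, bex_zero]
      rw [inv_eq_of_mul_eq_one_right h3, coe_expG]
    have h4 := (bex_cont Y).comp (continuous_neg (G := ℝ))
    have h5 : Continuous ((fun x : GLn n => ((x⁻¹ : GLn n) : Mat n)) ∘
        fun τ : ℝ => expG (τ • Y)) := by
      rw [h2]
      exact h4
    exact h5

private theorem bex_bound (Y : Mat n) :
    ∃ L : ℝ, ∀ τ ∈ Set.Icc (0 : ℝ) 1, ‖NormedSpace.exp (τ • Y)‖ ≤ L :=
  isCompact_Icc.exists_bound_of_continuousOn (bex_cont Y).continuousOn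

theorem A_exp (π : GLn n →* (P →L[ℂ] P)) (hπ : IsCW π) (d : Mat n → P →L[ℂ] P) (hd : Der π d)
    (u : (P →L[ℂ] ℂ) →ₗ[ℂ] ℂ) (a b : Fin n → ℂ) (hu : CBE π d u a b) {x : ℕ → P}
    (hx : XD π u x) {A : (Mat n → ℂ) →ₗ[ℂ] P}
    (hA : ∀ f ∈ TGs (GLs n), Tendsto (fun D => piF π f (x D)) atTop (𝓝 (A f)))
    {Y : Mat n} (hY : Up Y) {f : Mat n → ℂ} (hf : f ∈ TGs (GLs n)) :
    A (fun X => f (NormedSpace.exp Y * X)) = Complex.exp (cw a b Y) • A f := by
  have hf0 := hf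
  obtain ⟨K, hK, hKG, hfK⟩ := hf
  refine ext_functional fun l => ?_
  rw [map_smul, smul_eq_mul]
  obtain ⟨T, hT⟩ := piF_cont π hπ hf0
  obtain ⟨K', hK', hKG', hl⟩ := TGK_left hK hKG (S := (fun τ : ℝ => expG (τ • Y)) '' Set.Icc 0 1)
    (isCompact_Icc.image (bex_contG Y))
  obtain ⟨p, hp, hlp⟩ := functional_bound l
  obtain ⟨C, M, hC0, hkey⟩ :=
    nul_bound π hπ (nul_d π hπ d hd u a b hu hx hY) hK' hKG' p hp 1
  obtain ⟨L, hL⟩ := bex_bound Y
  obtain ⟨C1, hC1, hleft⟩ := DBd_left n M L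
  obtain ⟨B, hB⟩ := DBd_exists hK hfK M
  obtain ⟨c, hc⟩ : ∃ c, c = cw a b Y := ⟨_, rfl⟩
  rw [← hc] at hkey ⊢
  have hb : ∀ (D : ℕ), ∀ τ ∈ Set.Icc (0 : ℝ) 1,
      ‖l (T (π (expG (τ • Y)) (d Y (x (D + 2)) - c • x (D + 2))))‖ ≤
        C * (C1 * B) * ((1 + (D : ℝ)) ^ 1)⁻¹ := by
    intro D τ hτ
    rw [hT, ← piF_left π hπ _ hf0]
    refine (hlp _).trans ?_
    refine hkey _ (hl _ ⟨τ, hτ, rfl⟩ f hfK) (C1 * B) ?_ D
    refine hleft _ ?_ f hfK.1 B hB
    rw [coe_expG]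
    exact hL τ hτ
  -- the functions `φ_D`
  obtain ⟨φ, hφ⟩ : ∃ φ : ℕ → ℝ → ℂ, φ = fun (D : ℕ) (τ : ℝ) =>
    Complex.exp (-c * τ) * l (T (π (expG (τ • Y)) (x (D + 2)))) := ⟨_, rfl⟩
  have hder : ∀ (D : ℕ) (τ : ℝ), HasDerivAt (φ D)
      (Complex.exp (-c * τ) * l (T (π (expG (τ • Y)) (d Y (x (D + 2)) - c • x (D + 2))))) τ := by
    intro D τ
    have h1 : HasDerivAt (fun τ : ℝ => Complex.exp (-c * τ)) (Complex.exp (-c * τ) * (-c)) τ := by
      have h2 : HasDerivAt (fun τ : ℝ => -c * (τ : ℂ)) (-c * 1) τ :=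
        (Complex.ofRealCLM.hasDerivAt (x := τ)).const_mul (-c)
      rw [mul_one] at h2
      exact h2.cexp
    have h3 : HasDerivAt (fun τ : ℝ => l (T (π (expG (τ • Y)) (x (D + 2)))))
        (l (T (π (expG (τ • Y)) (d Y (x (D + 2)))))) τ :=
      hd.deriv (l.comp T) Y (x (D + 2)) τ
    rw [hφ]
    refine (h1.mul h3).congr_deriv ?_
    rw [map_sub, map_smul, map_sub, map_smul, map_sub, map_smul, smul_eq_mul]
    ring
  have hmv : ∀ D : ℕ, ‖φ D 1 - φ D 0‖ ≤
      Real.exp ‖c‖ * (C * (C1 * B) * ((1 + (D : ℝ)) ^ 1)⁻¹) := by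
    intro D
    refine norm_image_sub_le_of_norm_deriv_le_segment_01'
      (fun τ _ => (hder D τ).hasDerivWithinAt) fun τ hτ => ?_
    have hτ' : τ ∈ Set.Icc (0 : ℝ) 1 := ⟨hτ.1, hτ.2.le⟩
    rw [norm_mul]
    refine mul_le_mul ?_ (hb D τ hτ') (norm_nonneg _) (Real.exp_pos _).le
    rw [Complex.norm_exp]
    refine Real.exp_le_exp.2 ((Complex.re_le_norm _).trans ?_)
    rw [norm_mul, norm_neg, Complex.norm_real, Real.norm_eq_abs, abs_of_nonneg hτ.1]
    exact mul_le_of_le_one_right (norm_nonneg _) hτ'.2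
  have hlim0 : Tendsto (fun D => φ D 1 - φ D 0) atTop (𝓝 0) := by
    refine squeeze_zero_norm hmv ?_
    have h1 : Tendsto (fun D : ℕ => ((1 + (D : ℝ)) ^ 1)⁻¹) atTop (𝓝 0) := by
      have h2 := tendsto_one_div_add_atTop_nhds_zero_nat (𝕜 := ℝ)
      refine h2.congr fun D => ?_
      rw [pow_one, one_div, add_comm]
    have h3 := (h1.const_mul (C * (C1 * B))).const_mul (Real.exp ‖c‖)
    simpa using h3
  have hshift : Tendsto (fun D : ℕ => D + 2) atTop atTop := tendsto_add_atTop_nat 2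
  have hz : Tendsto (fun D => φ D 0) atTop (𝓝 (l (A f))) := by
    have h1 := ((l.continuous.tendsto _).comp (hA f hf0)).comp hshift
    refine h1.congr fun D => ?_
    rw [hφ]
    simp only [Function.comp_apply]
    rw [bex_zero, map_one, hT]
    simp
  have hY1 : (fun X => f (((expG Y : GLn n) : Mat n) * X)) =
      fun X => f (NormedSpace.exp Y * X) := by
    rw [coe_expG]
  have hfY : (fun X => f (NormedSpace.exp Y * X)) ∈ TGs (GLs n) := by
    rw [← hY1]
    exact TGs_left hf0 _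
  have ho : Tendsto (fun D => φ D 1) atTop
      (𝓝 (Complex.exp (-c) * l (A (fun X => f (NormedSpace.exp Y * X))))) := by
    have h1 := (((l.continuous.tendsto _).comp (hA _ hfY)).comp hshift).const_mul
      (Complex.exp (-c))
    refine h1.congr fun D => ?_
    rw [hφ]
    simp only [Function.comp_apply]
    rw [hT, ← piF_left π hπ _ hf0, one_smul, hY1]
    simp
  have hfin := tendsto_nhds_unique (ho.sub hz) hlim0
  have h2 : Complex.exp (-c) * l (A (fun X => f (NormedSpace.exp Y * X))) = l (A f) :=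
    sub_eq_zero.1 hfin
  rw [← h2, ← mul_assoc, ← Complex.exp_add, add_neg_cancel, Complex.exp_zero, one_mul]

end

end Pool.Agent.Work.MP_dd0ddf_al.AR
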