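import Pool.Agent.Work.MP_dd0ddf_al.AR.RKDefs

/-!
# MP_dd0ddf_al, archimedean part, block R, module BExpT


Taylor approximation of `e^(iy)` and an elementary inequality.

PROOF. `exp_taylor`: `Complex.exp_bound'` with `n = D + 1` (`|y|/(D+2) ≤ 1/2`): the difference is
`≤ 2 |y|^(D+1)/(D+1)! ≤ 2 ((D+1)/16)^(D+1)/(D+1)!`, and `(D+1)^(D+1)/(D+1)! ≤ e^(D+1)` (`Real.pow_div_factorial_le_exp`), so it is
`≤ 2 (e/16)^(D+1) ≤ (1/2)^(D+1)`, since `2 (e/8)^(D+1) ≤ 2 e/8 ≤ 1` (`Real.exp_one_lt_d9`).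
`half_pow_le`: the sequence `(1 + D)^R (1/2)^(D+1)` is bounded (it tends to `0`,
`tendsto_pow_const_mul_const_pow_of_abs_lt_one`).
-/

set_option linter.unusedSectionVars false

namespace Pool.Agent.Work.MP_dd0ddf_al.AR

open scoped SchwartzMap Matrix.Norms.Elementwise ComplexConjugate ContDiff Topology
open Matrix MeasureTheory Filter Asymptotics
open Pool.Agent.Work.MP_dd0ddf_al

noncomputable section

variable {n : ℕ}

theorem exp_taylor (D : ℕ) (y : ℝ) (hy : |y| ≤ ((D : ℝ) + 1) / 16) :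
    ‖Complex.exp (Complex.I * y) -
      ∑ m ∈ Finset.range (D + 1), (Complex.I * y) ^ m / (m.factorial : ℂ)‖ ≤
        (1 / 2 : ℝ) ^ (D + 1) := by
  have hn : ‖Complex.I * (y : ℂ)‖ = |y| := by
    rw [norm_mul, Complex.norm_I, one_mul, Complex.norm_real, Real.norm_eq_abs]
  have hD : (0 : ℝ) ≤ (D : ℝ) := Nat.cast_nonneg D
  have h1 : ‖Complex.I * (y : ℂ)‖ / ((D + 1).succ : ℝ) ≤ 1 / 2 := by
    rw [hn, div_le_iff₀ (by positivity)]
    push_cast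
    linarith
  refine (Complex.exp_bound' h1).trans ?_
  rw [hn]
  have h2 : |y| ^ (D + 1) ≤ (((D : ℝ) + 1) / 16) ^ (D + 1) :=
    pow_le_pow_left₀ (abs_nonneg y) hy _
  have h3 : ((D : ℝ) + 1) ^ (D + 1) / ((D + 1).factorial : ℝ) ≤ Real.exp ((D : ℝ) + 1) :=
    Real.pow_div_factorial_le_exp ((D : ℝ) + 1) (by positivity) (D + 1)
  have h4 : Real.exp ((D : ℝ) + 1) = Real.exp 1 ^ (D + 1) := by
    rw [← Real.exp_nat_mul]
    push_cast
    rw [mul_one]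
  have h5 : Real.exp 1 ≤ 4 := by
    have := Real.exp_one_lt_d9
    linarith
  have h6 : Real.exp 1 ^ (D + 1) ≤ 4 ^ (D + 1) := pow_le_pow_left₀ (Real.exp_pos 1).le h5 _
  have hf : (0 : ℝ) < ((D + 1).factorial : ℝ) := by positivity
  calc |y| ^ (D + 1) / ((D + 1).factorial : ℝ) * 2
      ≤ (((D : ℝ) + 1) / 16) ^ (D + 1) / ((D + 1).factorial : ℝ) * 2 := by gcongr
    _ = ((D : ℝ) + 1) ^ (D + 1) / ((D + 1).factorial : ℝ) * ((1 / 16) ^ (D + 1) * 2) := by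
        rw [div_pow, one_div, inv_pow]
        field_simp
    _ ≤ 4 ^ (D + 1) * ((1 / 16) ^ (D + 1) * 2) := by
        refine mul_le_mul_of_nonneg_right (h3.trans ?_) (by positivity)
        rw [h4]
        exact h6
    _ = (1 / 2) ^ (D + 1) * (1 / 2) ^ D := by
        have e1 : (4 : ℝ) ^ (D + 1) * (1 / 16) ^ (D + 1) = (1 / 2) ^ (D + 1) * (1 / 2) ^ (D + 1) := by
          rw [← mul_pow, ← mul_pow]
          norm_num
        rw [← mul_assoc, e1, pow_succ (1 / 2 : ℝ) D]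
        ring
    _ ≤ (1 / 2) ^ (D + 1) * 1 := by
        refine mul_le_mul_of_nonneg_left ?_ (by positivity)
        exact pow_le_one₀ (by norm_num) (by norm_num)
    _ = (1 / 2 : ℝ) ^ (D + 1) := mul_one _

theorem half_pow_le (R : ℕ) : ∃ C : ℝ, 0 ≤ C ∧ ∀ D : ℕ,
    (1 / 2 : ℝ) ^ (D + 1) ≤ C * ((1 + (D : ℝ)) ^ R)⁻¹ := by
  have h1 : Tendsto (fun m : ℕ => (m : ℝ) ^ R * (1 / 2 : ℝ) ^ m) atTop (𝓝 0) :=
    tendsto_pow_const_mul_const_pow_of_abs_lt_one R (by rw [abs_of_pos] <;> norm_num)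
  obtain ⟨C, hC⟩ := h1.bddAbove_range
  refine ⟨max C 0, le_max_right _ _, fun D => ?_⟩
  have h2 : ((D + 1 : ℕ) : ℝ) ^ R * (1 / 2 : ℝ) ^ (D + 1) ≤ C := hC ⟨D + 1, rfl⟩
  have h3 : (0 : ℝ) < (1 + (D : ℝ)) ^ R := by positivity
  rw [← div_eq_mul_inv, le_div_iff₀ h3, mul_comm]
  refine le_trans ?_ (le_max_left C 0)
  push_cast at h2
  rw [add_comm 1 (D : ℝ)]
  exact h2

end

end Pool.Agent.Work.MP_dd0ddf_al.AR
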