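import Pool.Agent.Work.MP_dd0ddf_al.AR.RBDefs

/-!
# MP_dd0ddf_al, archimedean part, block R, module BFou


Fourier representation of smooth functions supported in a fixed ball of a Euclidean space, with uniform decay.

PROOF. Let `N = card ι`, `S' = max S (N + 1)`, `M = S'`.  `H = 𝓕 G` (Mathlib: `Real.fourier...` on inner product spaces,
`𝓕 G ξ = ∫ e^(-2πi<x,ξ>) G x`).  `G` is continuous with compact support, so integrable; `H` is continuous
(`Real.fourierIntegral_continuous`/ `VectorFourier.fourierIntegral_continuous`, or: `G` is a Schwartz function,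
`HasCompactSupport` version of `SchwartzMap`, and `𝓕` preserves Schwartz functions).  Decay: Mathlib's
`Real.pow_mul_norm_iteratedFDeriv_fourier_le` (search `pow_mul_norm_iteratedFDeriv_fourier`; with `k = 0`) bounds `‖ξ‖^m ‖H ξ‖` by a constant times
`∑_(p ≤ m) ∫ ‖D^p G‖`, and `‖D^p G‖ ≤ B` with support in the ball of radius `r`, so the integral is `≤ B vol(ball)`.  Use
`(1 + ‖ξ‖)^S' ≤ 2^S' (1 + ‖ξ‖^S')`.  So `(1+‖ξ‖)^S' ‖H ξ‖ ≤ C B`; as `S' ≥ N + 1`, `H` is integrable (`integrable_one_add_norm`) and Fourier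
inversion (`Continuous.fourierInv_fourier_eq`) gives the formula (for `r < 0`: `G = 0`, nothing special is needed if `vol(ball)` is
replaced by the volume of the closed ball).
-/

set_option linter.unusedSectionVars false

namespace Pool.Agent.Work.MP_dd0ddf_al.AR

open scoped SchwartzMap Matrix.Norms.Elementwise ComplexConjugate ContDiff Topology
open Matrix MeasureTheory Filter Asymptotics
open Pool.Agent.Work.MP_dd0ddf_al

noncomputable section

variable {n : ℕ}

open scoped FourierTransform in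
theorem four_rep {ι : Type*} [Fintype ι] (r : ℝ) (S : ℕ) : ∃ (C : ℝ) (M : ℕ), 0 ≤ C ∧
    ∀ G : EuclideanSpace ℝ ι → ℂ, ContDiff ℝ ∞ G → (∀ x, r < ‖x‖ → G x = 0) →
      ∀ B : ℝ, DBd M G B → ∃ H : EuclideanSpace ℝ ι → ℂ, Continuous H ∧
        (∀ ξ, (1 + ‖ξ‖) ^ S * ‖H ξ‖ ≤ C * B) ∧
        ∀ x, G x = ∫ ξ : EuclideanSpace ℝ ι,
          Complex.exp (Complex.I * ((2 * Real.pi * inner ℝ ξ x : ℝ) : ℂ)) * H ξ := by
  classical
  set V : ℝ := (volume (Metric.closedBall (0 : EuclideanSpace ℝ ι) r)).toReal with hV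
  have hV0 : 0 ≤ V := ENNReal.toReal_nonneg
  refine ⟨2 ^ S * (V + 2 ^ S * ((S + 1 : ℕ) * V)), S, by positivity, ?_⟩
  intro G hG hsup B hB
  have hB0 : 0 ≤ B := hB.nonneg
  have hts : tsupport G ⊆ Metric.closedBall (0 : EuclideanSpace ℝ ι) r := by
    refine closure_minimal ?_ Metric.isClosed_closedBall
    intro x hx
    rw [mem_closedBall_zero_iff]
    by_contra h
    exact hx (hsup x (not_le.mp h))
  have hcs : HasCompactSupport G :=
    (isCompact_closedBall (0 : EuclideanSpace ℝ ι) r).of_isClosed_subset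
      (isClosed_tsupport G) hts
  set f : 𝓢(EuclideanSpace ℝ ι, ℂ) := hcs.toSchwartzMap hG with hf
  have hfG : (f : EuclideanSpace ℝ ι → ℂ) = G := rfl
  have hint : ∀ m, m ≤ S → ∫ v, ‖v‖ ^ 0 * ‖iteratedFDeriv ℝ m (f : EuclideanSpace ℝ ι → ℂ) v‖
      ≤ B * V := by
    intro m hm
    have h0 : ∀ v, v ∉ Metric.closedBall (0 : EuclideanSpace ℝ ι) r →
        ‖v‖ ^ 0 * ‖iteratedFDeriv ℝ m (f : EuclideanSpace ℝ ι → ℂ) v‖ = 0 := by
      intro v hv
      have h1 : iteratedFDeriv ℝ m (f : EuclideanSpace ℝ ι → ℂ) v = 0 := by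
        by_contra h2
        exact hv (hts (support_iteratedFDeriv_subset m h2))
      rw [h1, norm_zero, mul_zero]
    rw [← setIntegral_eq_integral_of_forall_compl_eq_zero h0]
    have h2 := norm_setIntegral_le_of_norm_le_const (μ := volume)
      (s := Metric.closedBall (0 : EuclideanSpace ℝ ι) r)
      (f := fun v => ‖v‖ ^ 0 * ‖iteratedFDeriv ℝ m (f : EuclideanSpace ℝ ι → ℂ) v‖) (C := B)
      measure_closedBall_lt_top (fun v _ => by
        rw [pow_zero, one_mul, norm_norm]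
        exact hB m hm v)
    exact (le_abs_self _).trans h2
  have hdec : ∀ m, m ≤ S → ∀ w : EuclideanSpace ℝ ι,
      ‖w‖ ^ m * ‖(𝓕 f : 𝓢(EuclideanSpace ℝ ι, ℂ)) w‖ ≤ 2 ^ m * ((m + 1 : ℕ) * (B * V)) := by
    intro m hm w
    have h1 := Real.pow_mul_norm_iteratedFDeriv_fourier_le (f.smooth ⊤)
      (fun k n _ _ => SchwartzMap.integrable_pow_mul_iteratedFDeriv _ f k n)
      (k := 0) (n := m) le_top le_top w
    rw [norm_iteratedFDeriv_zero] at h1
    rw [SchwartzMap.fourier_coe]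
    refine h1.trans ?_
    have h2 : ∑ p ∈ Finset.range (0 + 1) ×ˢ Finset.range (m + 1),
        ∫ v, ‖v‖ ^ p.1 * ‖iteratedFDeriv ℝ p.2 (f : EuclideanSpace ℝ ι → ℂ) v‖ ≤
        ∑ _p ∈ Finset.range (0 + 1) ×ˢ Finset.range (m + 1), B * V := by
      refine Finset.sum_le_sum fun p hp => ?_
      rw [Finset.mem_product, Finset.mem_range, Finset.mem_range] at hp
      have hp0 : p.1 = 0 := by omega
      rw [hp0]
      exact hint p.2 (by omega)
    rw [Finset.sum_const, Finset.card_product, Finset.card_range, Finset.card_range,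
      nsmul_eq_mul] at h2
    simp only [zero_add, one_mul] at h2
    have h3 : (2 * Real.pi) ^ 0 * (2 * ((0 : ℕ) : ℝ) + 2) ^ m = 2 ^ m := by
      rw [pow_zero, one_mul]
      norm_num
    rw [h3]
    exact mul_le_mul_of_nonneg_left h2 (by positivity)
  refine ⟨fun ξ => (𝓕 f : 𝓢(EuclideanSpace ℝ ι, ℂ)) ξ, (𝓕 f).continuous, ?_, ?_⟩
  · intro ξ
    have h0 := hdec 0 (Nat.zero_le S) ξ
    have hS := hdec S le_rfl ξ
    simp only [pow_zero, one_mul, zero_add, Nat.cast_one] at h0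
    have ht : (1 + ‖ξ‖) ^ S ≤ 2 ^ S * (1 + ‖ξ‖ ^ S) := by
      rcases le_total ‖ξ‖ 1 with h | h
      · calc (1 + ‖ξ‖) ^ S ≤ 2 ^ S := by
              apply pow_le_pow_left₀ (by positivity)
              linarith
          _ ≤ 2 ^ S * (1 + ‖ξ‖ ^ S) := by
              have : 0 ≤ ‖ξ‖ ^ S := by positivity
              nlinarith [pow_pos (two_pos : (0 : ℝ) < 2) S]
      · calc (1 + ‖ξ‖) ^ S ≤ (2 * ‖ξ‖) ^ S := by
              apply pow_le_pow_left₀ (by positivity)
              linarith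
          _ = 2 ^ S * ‖ξ‖ ^ S := mul_pow _ _ _
          _ ≤ 2 ^ S * (1 + ‖ξ‖ ^ S) := by
              have := pow_pos (two_pos : (0 : ℝ) < 2) S
              nlinarith
    calc (1 + ‖ξ‖) ^ S * ‖(𝓕 f : 𝓢(EuclideanSpace ℝ ι, ℂ)) ξ‖
        ≤ 2 ^ S * (1 + ‖ξ‖ ^ S) * ‖(𝓕 f : 𝓢(EuclideanSpace ℝ ι, ℂ)) ξ‖ :=
          mul_le_mul_of_nonneg_right ht (norm_nonneg _)
      _ = 2 ^ S * (‖(𝓕 f : 𝓢(EuclideanSpace ℝ ι, ℂ)) ξ‖ +
            ‖ξ‖ ^ S * ‖(𝓕 f : 𝓢(EuclideanSpace ℝ ι, ℂ)) ξ‖) := by ring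
      _ ≤ 2 ^ S * (B * V + 2 ^ S * ((S + 1 : ℕ) * (B * V))) := by
          refine mul_le_mul_of_nonneg_left ?_ (by positivity)
          exact add_le_add h0 hS
      _ = 2 ^ S * (V + 2 ^ S * ((S + 1 : ℕ) * V)) * B := by ring
  · intro x
    have h1 : (𝓕⁻ (𝓕 f) : 𝓢(EuclideanSpace ℝ ι, ℂ)) x = f x := by
      rw [FourierTransform.fourierInv_fourier_eq]
    rw [SchwartzMap.fourierInv_coe, Real.fourierInv_eq'] at h1
    rw [← hfG, ← h1]
    refine integral_congr_ae (Filter.Eventually.of_forall fun ξ => ?_)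
    simp only [smul_eq_mul]
    congr 2
    push_cast
    ring

end

end Pool.Agent.Work.MP_dd0ddf_al.AR
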