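import Pool.Agent.Work.MP_dd0ddf_al.AR.RKDefs

/-!
# MP_dd0ddf_al, archimedean part, block R, module BInt


The integral of a family of elements of a finite dimensional space of functions, and the ball of a continuous seminorm
in a neighbourhood of `0`.

PROOF. `fin_integral`: interpolation (see `kxf_interp` in the module KXf; copy it): there are points `x_j` and `e_j ∈ V` with
`f = ∑ f(x_j) e_j` for all `f ∈ V`.  So `F z x = ∑ F z (x_j) e_j(x)` and `∫ F z x = ∑ (∫ F z (x_j)) e_j(x)`
(`integral_finset_sum`, `integral_mul_const`), a combination of the `e_j`.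
`nhds_seminorm`: see `kw_ball` in the module KWI (copy it).
-/

set_option linter.unusedSectionVars false

namespace Pool.Agent.Work.MP_dd0ddf_al.AR

open scoped SchwartzMap Matrix.Norms.Elementwise ComplexConjugate ContDiff Topology
open Matrix MeasureTheory Filter Asymptotics
open Pool.Agent.Work.MP_dd0ddf_al

noncomputable section

variable {n : ℕ} {P : Type*} [AddCommGroup P] [Module ℂ P] [UniformSpace P] [IsUniformAddGroup P]
  [ContinuousSMul ℂ P] [PolynormableSpace ℂ P] [T2Space P] [CompleteSpace P]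
  [FirstCountableTopology P]

private theorem bint_interp {X : Type*} : ∀ (N : ℕ) (F : Submodule ℂ (X → ℂ)),
    FiniteDimensional ℂ F → Module.finrank ℂ F ≤ N →
    ∃ (m : ℕ) (x : Fin m → X) (e : Fin m → X → ℂ), (∀ i, e i ∈ F) ∧
      (∀ i j, e i (x j) = if i = j then 1 else 0) ∧ ∀ f ∈ F, ∀ k, f k = ∑ j, f (x j) * e j k := by
  intro N
  induction N with
  | zero =>
    intro F hF hN
    have h0 : F = ⊥ := Submodule.finrank_eq_zero.1 (Nat.le_zero.1 hN)
    refine ⟨0, Fin.elim0, Fin.elim0, fun i => i.elim0, fun i => i.elim0, ?_⟩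
    intro f hf k
    rw [h0, Submodule.mem_bot] at hf
    simp [hf]
  | succ N ih =>
    intro F hF hN
    by_cases h0 : F = ⊥
    · refine ⟨0, Fin.elim0, Fin.elim0, fun i => i.elim0, fun i => i.elim0, ?_⟩
      intro f hf k
      rw [h0, Submodule.mem_bot] at hf
      simp [hf]
    · obtain ⟨f, hf, hf0⟩ := (Submodule.ne_bot_iff F).1 h0
      obtain ⟨x0, hx0⟩ := Function.ne_iff.1 hf0
      rw [Pi.zero_apply] at hx0
      obtain ⟨F', hF'⟩ : ∃ F' : Submodule ℂ (X → ℂ),
          F' = F ⊓ LinearMap.ker (LinearMap.proj x0 : (X → ℂ) →ₗ[ℂ] ℂ) := ⟨_, rfl⟩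
      have hmem : ∀ g, g ∈ F' ↔ g ∈ F ∧ g x0 = 0 := by
        intro g
        rw [hF', Submodule.mem_inf, LinearMap.mem_ker]
        rfl
      have hlt : F' < F := by
        refine lt_of_le_of_ne (by rw [hF']; exact inf_le_left) ?_
        intro h
        rw [← h, hmem] at hf
        exact hx0 hf.2
      have hlt' := Submodule.finrank_lt_finrank_of_lt hlt
      have hfd : FiniteDimensional ℂ F' := Submodule.finiteDimensional_of_le hlt.le
      obtain ⟨m, x, e, h1, h2, h3⟩ := ih F' hfd (by omega)
      obtain ⟨e0, he0⟩ : ∃ e0 : X → ℂ, e0 = (f x0)⁻¹ • (f - ∑ j, f (x j) • e j) := ⟨_, rfl⟩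
      have he0F : e0 ∈ F := by
        rw [he0]
        exact F.smul_mem _ (F.sub_mem hf (F.sum_mem fun j _ =>
          F.smul_mem _ ((hmem _).1 (h1 j)).1))
      have hval : ∀ k, e0 k = (f x0)⁻¹ * (f k - ∑ j, f (x j) * e j k) := by
        intro k
        rw [he0, Pi.smul_apply, Pi.sub_apply, Finset.sum_apply, smul_eq_mul]
        rfl
      have he00 : e0 x0 = 1 := by
        rw [hval]
        have h4 : ∑ j, f (x j) * e j x0 = 0 := by
          apply Finset.sum_eq_zero
          intro j _
          rw [((hmem _).1 (h1 j)).2, mul_zero]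
        rw [h4, sub_zero, inv_mul_cancel₀ hx0]
      have he0x : ∀ i, e0 (x i) = 0 := by
        intro i
        rw [hval]
        have h4 : ∑ j, f (x j) * e j (x i) = f (x i) := by
          rw [Finset.sum_eq_single i]
          · rw [h2, if_pos rfl, mul_one]
          · intro j _ hji
            rw [h2, if_neg hji, mul_zero]
          · intro h
            exact absurd (Finset.mem_univ i) h
        rw [h4, sub_self, mul_zero]
      refine ⟨m + 1, Fin.cons x0 x, Fin.cons e0 e, ?_, ?_, ?_⟩
      · intro i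
        refine Fin.cases ?_ (fun i => ?_) i
        · exact he0F
        · exact ((hmem _).1 (h1 i)).1
      · intro i j
        refine Fin.cases ?_ (fun i => ?_) i
        · refine Fin.cases ?_ (fun j => ?_) j
          · simpa using he00
          · rw [Fin.cons_zero, Fin.cons_succ, he0x, if_neg (Fin.succ_ne_zero j).symm]
        · refine Fin.cases ?_ (fun j => ?_) j
          · rw [Fin.cons_zero, Fin.cons_succ, ((hmem _).1 (h1 i)).2,
              if_neg (Fin.succ_ne_zero i)]
          · rw [Fin.cons_succ, Fin.cons_succ, h2]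
            simp [Fin.succ_inj]
      · intro g hg k
        have hg' : g - g x0 • e0 ∈ F' := by
          rw [hmem]
          refine ⟨F.sub_mem hg (F.smul_mem _ he0F), ?_⟩
          rw [Pi.sub_apply, Pi.smul_apply, he00, smul_eq_mul, mul_one, sub_self]
        have h4 := h3 _ hg' k
        simp only [Pi.sub_apply, Pi.smul_apply, smul_eq_mul, he0x, mul_zero, sub_zero] at h4
        rw [Fin.sum_univ_succ]
        simp only [Fin.cons_zero, Fin.cons_succ]
        rw [← h4]
        ring

private theorem bint_sup_cont (s : Finset {p : Seminorm ℂ P // Continuous p}) :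
    Continuous (⇑(s.sup (fun p : {p : Seminorm ℂ P // Continuous p} => (p.1 : Seminorm ℂ P)))) := by
  classical
  induction s using Finset.induction_on with
  | empty =>
    rw [Finset.sup_empty]
    exact continuous_const
  | insert a s _ ih =>
    rw [Finset.sup_insert, Seminorm.coe_sup]
    exact a.2.sup ih

private theorem bint_ball {U : Set P} (hU : U ∈ 𝓝 (0 : P)) :
    ∃ p : Seminorm ℂ P, Continuous p ∧ ∃ r : ℝ, 0 < r ∧ ∀ x, p x < r → x ∈ U := by
  obtain ⟨s, r, hr, h⟩ := ((PolynormableSpace.withSeminorms ℂ P).mem_nhds_iff 0 U).1 hU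
  refine ⟨_, bint_sup_cont s, r, hr, fun x hx => h ?_⟩
  rw [Seminorm.mem_ball_zero]
  exact hx

theorem fin_integral {X Z : Type*} [MeasurableSpace Z] (μ : Measure Z) (V : Submodule ℂ (X → ℂ))
    (hV : FiniteDimensional ℂ V) (F : Z → X → ℂ) (hF : ∀ z, F z ∈ V)
    (hi : ∀ x, Integrable (fun z => F z x) μ) : (fun x => ∫ z, F z x ∂μ) ∈ V := by
  obtain ⟨m, x, e, h1, -, h3⟩ := bint_interp (Module.finrank ℂ V) V hV le_rfl
  have h : (fun y => ∫ z, F z y ∂μ) = ∑ j, (∫ z, F z (x j) ∂μ) • e j := by
    funext y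
    rw [Finset.sum_apply]
    have h4 : ∀ z, F z y = ∑ j, F z (x j) * e j y := fun z => h3 _ (hF z) y
    simp_rw [h4]
    rw [integral_finsetSum]
    · refine Finset.sum_congr rfl fun j _ => ?_
      rw [integral_mul_const]
      rfl
    · intro j _
      exact (hi (x j)).mul_const _
  rw [h]
  exact V.sum_mem fun j _ => V.smul_mem _ (h1 j)

theorem nhds_seminorm {U : Set P} (hU : U ∈ 𝓝 (0 : P)) :
    ∃ p : Seminorm ℂ P, Continuous p ∧ ∃ r : ℝ, 0 < r ∧ ∀ x, p x < r → x ∈ U :=
  bint_ball hU

end

end Pool.Agent.Work.MP_dd0ddf_al.AR
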