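import Pool.Agent.Work.MP_dd0ddf_al.AR.BJacE

/-!
# MP_dd0ddf_al, archimedean part, block R, module BJac


Jackson's theorem on `K = U(n)`.

PROOF. `ι = Vars n`, `T : EuclideanSpace ℝ ι →L[ℝ] Mat n`, `(T x) i j = x(inl (i,j)) + I x(inr (i,j))`, bijective.  `G = F ∘ T` is smooth, and
`‖D^m G(x)‖ ≤ ‖D^m F(T x)‖ ‖T‖^m` (`ContinuousLinearMap.iteratedFDeriv_comp_right`, `ContinuousMultilinearMap.norm_compContinuousLinearMap_le`), so
`DBd M G ((max 1 ‖T‖)^M B)`.  `|x i| ≤ ‖T x‖` for all `i` (real and imaginary parts of the entries), so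
`‖x‖ ≤ sqrt(card ι) ‖T x‖`; hence `G x = 0` for `‖x‖ > r' = sqrt(card ι) max(r,0)`.  Apply `jac_E` with `r'`, `r0 = sqrt(card ι)`.  For `k ∈ K` let
`x_k` be the vector of the real and imaginary parts of the entries: `T x_k = k`, `‖x_k‖ ≤ r0` (`KU_entry`).  `q` from `jac_E`;
`φ k = eval (x_k) q = eval (evv k) (bind₁ s q)` with `s (inl p) = (1/2)(X(inl p) + X(inr p))`,
`s (inr p) = (1/(2i))(X(inl p) - X(inr p))` (`(evv k)(inl p) = z`, `(evv k)(inr p) = conj z`); `(bind₁ s q).totalDegree ≤ q.totalDegree ≤ D` since each `s` has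
degree `≤ 1` (write `q` as the sum of its monomials; a monomial of degree `m` goes to a product of `m` polynomials of degree `≤ 1`).
-/

set_option linter.unusedSectionVars false

namespace Pool.Agent.Work.MP_dd0ddf_al.AR

open scoped SchwartzMap Matrix.Norms.Elementwise ComplexConjugate ContDiff Topology
open Matrix MeasureTheory Filter Asymptotics
open Pool.Agent.Work.MP_dd0ddf_al

noncomputable section

variable {n : ℕ}

private theorem bj_td_bind {σ τ : Type*} (L : σ → MvPolynomial τ ℂ)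
    (hL : ∀ x, (L x).totalDegree ≤ 1) (q : MvPolynomial σ ℂ) :
    (MvPolynomial.bind₁ L q).totalDegree ≤ q.totalDegree := by
  classical
  have e : MvPolynomial.bind₁ L q =
      ∑ m ∈ q.support, MvPolynomial.C (q.coeff m) * ∏ x ∈ m.support, L x ^ m x := by
    rw [MvPolynomial.bind₁, MvPolynomial.aeval_def, MvPolynomial.eval₂_eq]
    rfl
  rw [e]
  apply MvPolynomial.totalDegree_finsetSum_le
  intro m hm
  refine (MvPolynomial.totalDegree_mul _ _).trans ?_
  rw [MvPolynomial.totalDegree_C, zero_add]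
  refine (MvPolynomial.totalDegree_finsetProd _ _).trans ?_
  refine le_trans (Finset.sum_le_sum (g := fun x => m x) ?_) (MvPolynomial.le_totalDegree hm)
  intro x _
  refine (MvPolynomial.totalDegree_pow _ _).trans ?_
  exact (Nat.mul_le_mul_left _ (hL x)).trans (by simp)

private theorem bj_td_two (c d : ℂ) (x y : Vars n) :
    (MvPolynomial.C c * MvPolynomial.X x + MvPolynomial.C d * MvPolynomial.X y :
      MvPolynomial (Vars n) ℂ).totalDegree ≤ 1 := by
  refine (MvPolynomial.totalDegree_add _ _).trans (max_le ?_ ?_)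
  · refine (MvPolynomial.totalDegree_mul _ _).trans ?_
    rw [MvPolynomial.totalDegree_C, MvPolynomial.totalDegree_X]
  · refine (MvPolynomial.totalDegree_mul _ _).trans ?_
    rw [MvPolynomial.totalDegree_C, MvPolynomial.totalDegree_X]

private theorem bj_DBd {E V : Type*} [NormedAddCommGroup E] [NormedSpace ℝ E]
    [FiniteDimensional ℝ E] [NormedAddCommGroup V] [NormedSpace ℝ V] (L : E →ₗ[ℝ] V) (M : ℕ) :
    ∃ c : ℝ, 0 ≤ c ∧ ∀ F : V → ℂ, ContDiff ℝ ∞ F → ∀ B : ℝ, DBd M F B →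
      ContDiff ℝ ∞ (fun x => F (L x)) ∧ DBd M (fun x => F (L x)) (c * B) := by
  set T : E →L[ℝ] V := LinearMap.toContinuousLinearMap L with hT
  refine ⟨(max 1 ‖T‖) ^ M, by positivity, ?_⟩
  intro F hF B hB
  have hB0 : 0 ≤ B := hB.nonneg
  refine ⟨hF.comp T.contDiff, ?_⟩
  intro m hm x
  show ‖iteratedFDeriv ℝ m (F ∘ T) x‖ ≤ _
  rw [ContinuousLinearMap.iteratedFDeriv_comp_right T hF x
    (i := m) (by exact_mod_cast le_top)]
  refine (ContinuousMultilinearMap.norm_compContinuousLinearMap_le _ _).trans ?_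
  rw [Finset.prod_const, Finset.card_univ, Fintype.card_fin, mul_comm]
  have h3 : ‖T‖ ^ m ≤ (max 1 ‖T‖) ^ M :=
    (pow_le_pow_left₀ (norm_nonneg _) (le_max_right _ _) m).trans
      (pow_le_pow_right₀ (le_max_left _ _) hm)
  exact mul_le_mul h3 (hB m hm _) (norm_nonneg _) (by positivity)

/-- the real coordinates -/
private def bjT (n : ℕ) : EuclideanSpace ℝ (Vars n) →ₗ[ℝ] Mat n where
  toFun x := Matrix.of fun i j => ((x (Sum.inl (i, j)) : ℝ) : ℂ) +
    Complex.I * ((x (Sum.inr (i, j)) : ℝ) : ℂ)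
  map_add' x y := by
    ext i j
    simp only [PiLp.add_apply, Matrix.of_apply, Matrix.add_apply]
    push_cast
    ring
  map_smul' c x := by
    ext i j
    simp only [PiLp.smul_apply, Matrix.of_apply, Matrix.smul_apply, smul_eq_mul, RingHom.id_apply,
      Complex.real_smul]
    push_cast
    ring

private theorem bjT_re (x : EuclideanSpace ℝ (Vars n)) (i j : Fin n) :
    (bjT n x i j).re = x (Sum.inl (i, j)) := by
  show (((x (Sum.inl (i, j)) : ℝ) : ℂ) + Complex.I * ((x (Sum.inr (i, j)) : ℝ) : ℂ)).re = _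
  simp

private theorem bjT_im (x : EuclideanSpace ℝ (Vars n)) (i j : Fin n) :
    (bjT n x i j).im = x (Sum.inr (i, j)) := by
  show (((x (Sum.inl (i, j)) : ℝ) : ℂ) + Complex.I * ((x (Sum.inr (i, j)) : ℝ) : ℂ)).im = _
  simp

private theorem bj_coord (x : EuclideanSpace ℝ (Vars n)) (i : Vars n) : ‖x i‖ ≤ ‖bjT n x‖ := by
  rcases i with ⟨i, j⟩ | ⟨i, j⟩
  · rw [← bjT_re x i j, Real.norm_eq_abs]
    exact (Complex.abs_re_le_norm _).trans (Matrix.norm_entry_le_entrywise_sup_norm _)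
  · rw [← bjT_im x i j, Real.norm_eq_abs]
    exact (Complex.abs_im_le_norm _).trans (Matrix.norm_entry_le_entrywise_sup_norm _)

private theorem bj_norm (x : EuclideanSpace ℝ (Vars n)) {b : ℝ} (hb : 0 ≤ b)
    (h : ∀ i, ‖x i‖ ≤ b) : ‖x‖ ≤ Real.sqrt (Fintype.card (Vars n)) * b := by
  rw [EuclideanSpace.norm_eq]
  have h1 : ∑ i, ‖x i‖ ^ 2 ≤ (Fintype.card (Vars n) : ℝ) * b ^ 2 := by
    have h2 : ∑ i, ‖x i‖ ^ 2 ≤ ∑ _i : Vars n, b ^ 2 := Finset.sum_le_sum fun i _ =>
      pow_le_pow_left₀ (norm_nonneg _) (h i) 2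
    rw [Finset.sum_const, Finset.card_univ, nsmul_eq_mul] at h2
    exact h2
  refine (Real.sqrt_le_sqrt h1).trans ?_
  rw [Real.sqrt_mul (Nat.cast_nonneg _), Real.sqrt_sq hb]

/-- the coordinates of a unitary matrix -/
private def bjx (k : KU n) : EuclideanSpace ℝ (Vars n) :=
  WithLp.toLp 2 (Sum.elim (fun p => (((k : GLn n) : Mat n) p.1 p.2).re)
    (fun p => (((k : GLn n) : Mat n) p.1 p.2).im))

private theorem bjT_x (k : KU n) : bjT n (bjx k) = ((k : GLn n) : Mat n) := by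
  ext i j
  apply Complex.ext
  · rw [bjT_re]
    rfl
  · rw [bjT_im]
    rfl

private theorem bjx_norm (k : KU n) : ‖bjx k‖ ≤ Real.sqrt (Fintype.card (Vars n)) := by
  have h := bj_norm (bjx k) zero_le_one (fun i => ?_)
  · rwa [mul_one] at h
  · refine (bj_coord _ i).trans ?_
    rw [bjT_x, Matrix.norm_le_iff zero_le_one]
    exact fun i j => KU_entry k i j

private theorem bj_poly {D : ℕ} {q : MvPolynomial (Vars n) ℂ} (hq : q.totalDegree ≤ D) :
    (fun k : KU n => MvPolynomial.eval (fun i => ((bjx k i : ℝ) : ℂ)) q) ∈ PK n D := by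
  let s : Vars n → MvPolynomial (Vars n) ℂ := Sum.elim
    (fun p => MvPolynomial.C (1 / 2) * MvPolynomial.X (Sum.inl p) +
      MvPolynomial.C (1 / 2) * MvPolynomial.X (Sum.inr p))
    (fun p => MvPolynomial.C (-(Complex.I / 2)) * MvPolynomial.X (Sum.inl p) +
      MvPolynomial.C (Complex.I / 2) * MvPolynomial.X (Sum.inr p))
  have hs : ∀ x, (s x).totalDegree ≤ 1 := by
    rintro (p | p)
    · exact bj_td_two _ _ _ _
    · exact bj_td_two _ _ _ _
  refine ⟨MvPolynomial.bind₁ s q, (bj_td_bind s hs q).trans hq, fun k => ?_⟩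
  have h1 : MvPolynomial.eval (evv ((k : GLn n) : Mat n)) (MvPolynomial.bind₁ s q) =
      MvPolynomial.eval (fun x => MvPolynomial.eval (evv ((k : GLn n) : Mat n)) (s x)) q := by
    have := MvPolynomial.aeval_bind₁ (evv ((k : GLn n) : Mat n)) s q
    simpa [MvPolynomial.aeval_eq_eval] using this
  rw [h1]
  show MvPolynomial.eval (fun i => ((bjx k i : ℝ) : ℂ)) q = _
  congr 2
  funext x
  rcases x with ⟨i, j⟩ | ⟨i, j⟩
  · show (((((k : GLn n) : Mat n) i j).re : ℝ) : ℂ) = _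
    simp only [s, Sum.elim_inl, map_add, map_mul, MvPolynomial.eval_C, MvPolynomial.eval_X, evv,
      Sum.elim_inr]
    rw [Complex.re_eq_add_conj]
    ring
  · show (((((k : GLn n) : Mat n) i j).im : ℝ) : ℂ) = _
    simp only [s, Sum.elim_inl, map_add, map_mul, MvPolynomial.eval_C, MvPolynomial.eval_X, evv,
      Sum.elim_inr]
    rw [Complex.im_eq_sub_conj]
    field_simp
    ring_nf
    rw [Complex.I_sq]
    ring

theorem jackson (n : ℕ) (r : ℝ) (R : ℕ) : ∃ (C : ℝ) (M : ℕ), 0 ≤ C ∧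
    ∀ F : Mat n → ℂ, ContDiff ℝ ∞ F → (∀ X, r < ‖X‖ → F X = 0) → ∀ B : ℝ, DBd M F B →
      ∀ D : ℕ, ∃ φ ∈ PK n D, ∀ k : KU n,
        ‖F ((k : GLn n) : Mat n) - φ k‖ ≤ C * B * ((1 + (D : ℝ)) ^ R)⁻¹ := by
  have hsq : (0 : ℝ) ≤ Real.sqrt (Fintype.card (Vars n)) := Real.sqrt_nonneg _
  obtain ⟨C, M, hC, h⟩ := jac_E (ι := Vars n)
    (Real.sqrt (Fintype.card (Vars n)) * max r 0) (Real.sqrt (Fintype.card (Vars n))) R
  obtain ⟨c, hc, hT⟩ := bj_DBd (V := Mat n) (bjT n) M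
  refine ⟨C * c, M, mul_nonneg hC hc, ?_⟩
  intro F hF hF0 B hB D
  obtain ⟨hG, hGB⟩ := hT F hF B hB
  have hG0 : ∀ x, Real.sqrt (Fintype.card (Vars n)) * max r 0 < ‖x‖ → F (bjT n x) = 0 := by
    intro x hx
    have h1 : ‖x‖ ≤ Real.sqrt (Fintype.card (Vars n)) * ‖bjT n x‖ :=
      bj_norm x (norm_nonneg _) fun i => bj_coord x i
    have h2 : max r 0 < ‖bjT n x‖ := lt_of_mul_lt_mul_left (hx.trans_le h1) hsq
    exact hF0 _ ((le_max_left _ _).trans_lt h2)
  obtain ⟨q, hq, hqe⟩ := h (fun x => F (bjT n x)) hG hG0 _ hGB D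
  refine ⟨fun k : KU n => MvPolynomial.eval (fun i => ((bjx k i : ℝ) : ℂ)) q, bj_poly hq,
    fun k => ?_⟩
  have h4 := hqe (bjx k) (bjx_norm k)
  rw [bjT_x] at h4
  refine h4.trans (le_of_eq ?_)
  ring

end

end Pool.Agent.Work.MP_dd0ddf_al.AR
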