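import Pool.Agent.Work.MP_dd0ddf_al.AR.BFou
import Pool.Agent.Work.MP_dd0ddf_al.AR.BInt
import Pool.Agent.Work.MP_dd0ddf_al.AR.BExpT

/-!
# MP_dd0ddf_al, archimedean part, block R, module BJacE


Jackson's theorem on a ball of a Euclidean space: smooth functions with compact support are approximated by polynomials
of degree `≤ D` with error `O(D^(-R))`, uniformly.

PROOF. `N = card ι`, `S = R + N + 1`, `C1, M` from `four_rep r S`, `ρ = max r0 0 + 1`, `T = (D+1)/(32 π ρ)`.  Let `G, B, D` be given, `H` from `four_rep`.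
`|H ξ| ≤ C1 B (1+‖ξ‖)^(-S)`; let `J = ∫ (1+‖ξ‖)^(-(N+1)) < ∞` (`integrable_one_add_norm`, `finrank = N`).
(1) `‖∫_(‖ξ‖>T) e^(...) H‖ ≤ C1 B (1+T)^(-R) J`, and `(1+T)^(-R) ≤ (32πρ)^R (1+D)^(-R)` as `1 + T ≥ (1+D)/(32πρ)`.
(2) On `‖ξ‖ ≤ T`, `‖x‖ ≤ r0`: `|2π<ξ,x>| ≤ 2πTρ = (D+1)/16`, so by `exp_taylor`
`‖∫_(‖ξ‖≤T) (e^(i y) - ∑_(m≤D) (i y)^m/m!) H‖ ≤ (1/2)^(D+1) C1 B J`, `y = 2π<ξ,x>`, and use `half_pow_le`.
(3) `x ↦ ∫_(‖ξ‖≤T) H(ξ) ∑_(m≤D) (i 2π<ξ,x>)^m/m! dξ` is a polynomial function of degree `≤ D`: `fin_integral` for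
`μ = volume.restrict (closedBall 0 T)` and `V` = the space of functions `x ↦ eval (fun i => (x i : ℂ)) q`, `q.totalDegree ≤ D` (the image of
`MvPolynomial.restrictTotalDegree ι ℂ D` under a linear map, finite dimensional; see the module KPc for the proof that it is finite dimensional).
For fixed `ξ` the polynomial is `C(H ξ) * ∑_m C(1/m!) * (∑_i C(i 2π ξ_i) X_i)^m`; for fixed `x` the integrand is continuous in `ξ`, so integrable on the compact ball.
-/

set_option linter.unusedSectionVars false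

namespace Pool.Agent.Work.MP_dd0ddf_al.AR

open scoped SchwartzMap Matrix.Norms.Elementwise ComplexConjugate ContDiff Topology
open Matrix MeasureTheory Filter Asymptotics
open Pool.Agent.Work.MP_dd0ddf_al

noncomputable section

variable {n : ℕ}

private def bjE (ι : Type*) [Fintype ι] : MvPolynomial ι ℂ →ₗ[ℂ] (EuclideanSpace ℝ ι → ℂ) where
  toFun q := fun x => MvPolynomial.eval (fun i => ((x i : ℝ) : ℂ)) q
  map_add' p q := by
    funext x
    simp
  map_smul' c q := by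
    funext x
    simp [MvPolynomial.smul_eval]

private def bjV (ι : Type*) [Fintype ι] (D : ℕ) : Submodule ℂ (EuclideanSpace ℝ ι → ℂ) :=
  Submodule.map (bjE ι) (MvPolynomial.restrictTotalDegree ι ℂ D)

private theorem bjV_fin (ι : Type*) [Fintype ι] (D : ℕ) : FiniteDimensional ℂ (bjV ι D) := by
  unfold bjV
  infer_instance

private theorem bj_inner {ι : Type*} [Fintype ι] (ξ x : EuclideanSpace ℝ ι) :
    Complex.I * ((2 * Real.pi * inner ℝ ξ x : ℝ) : ℂ) =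
      ∑ i, Complex.I * (2 * Real.pi * (ξ i : ℂ)) * ((x i : ℝ) : ℂ) := by
  rw [PiLp.inner_apply]
  push_cast
  rw [Finset.mul_sum, Finset.mul_sum]
  refine Finset.sum_congr rfl fun i _ => ?_
  have : (inner ℝ (ξ i) (x i) : ℝ) = ξ i * x i := by
    rw [real_inner_comm]
    simp
  rw [this]
  push_cast
  ring

private theorem bj_mem {ι : Type*} [Fintype ι] (D : ℕ) (ξ : EuclideanSpace ℝ ι) (c : ℂ) :
    (fun x : EuclideanSpace ℝ ι => (∑ m ∈ Finset.range (D + 1),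
      (Complex.I * ((2 * Real.pi * inner ℝ ξ x : ℝ) : ℂ)) ^ m / (m.factorial : ℂ)) * c) ∈
      bjV ι D := by
  refine ⟨∑ m ∈ Finset.range (D + 1), MvPolynomial.C (c / (m.factorial : ℂ)) *
    (∑ i, MvPolynomial.C (Complex.I * (2 * Real.pi * (ξ i : ℂ))) * MvPolynomial.X i) ^ m,
    ?_, ?_⟩
  · show _ ∈ MvPolynomial.restrictTotalDegree ι ℂ D
    rw [MvPolynomial.mem_restrictTotalDegree]
    refine (MvPolynomial.totalDegree_finsetSum _ _).trans (Finset.sup_le fun m hm => ?_)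
    refine (MvPolynomial.totalDegree_mul _ _).trans ?_
    rw [MvPolynomial.totalDegree_C, zero_add]
    refine (MvPolynomial.totalDegree_pow _ _).trans ?_
    have h1 : (∑ i, MvPolynomial.C (Complex.I * (2 * Real.pi * (ξ i : ℂ))) *
        (MvPolynomial.X i : MvPolynomial ι ℂ)).totalDegree ≤ 1 := by
      refine (MvPolynomial.totalDegree_finsetSum _ _).trans (Finset.sup_le fun i _ => ?_)
      refine (MvPolynomial.totalDegree_mul _ _).trans ?_
      rw [MvPolynomial.totalDegree_C, zero_add, MvPolynomial.totalDegree_X]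
    have h2 : m ≤ D := Nat.lt_succ_iff.1 (Finset.mem_range.1 hm)
    calc m * _ ≤ m * 1 := Nat.mul_le_mul_left m h1
      _ ≤ D := by omega
  · funext x
    show MvPolynomial.eval (fun i => ((x i : ℝ) : ℂ)) _ = _
    rw [map_sum, Finset.sum_mul]
    refine Finset.sum_congr rfl fun m _ => ?_
    rw [map_mul, map_pow, map_sum, MvPolynomial.eval_C, bj_inner]
    have : ∀ i, MvPolynomial.eval (fun i => ((x i : ℝ) : ℂ))
        (MvPolynomial.C (Complex.I * (2 * Real.pi * (ξ i : ℂ))) * MvPolynomial.X i) =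
        Complex.I * (2 * Real.pi * (ξ i : ℂ)) * ((x i : ℝ) : ℂ) := by
      intro i
      rw [map_mul, MvPolynomial.eval_C, MvPolynomial.eval_X]
    rw [Finset.sum_congr rfl fun i _ => this i]
    ring

theorem jac_E {ι : Type*} [Fintype ι] (r r0 : ℝ) (R : ℕ) : ∃ (C : ℝ) (M : ℕ), 0 ≤ C ∧
    ∀ G : EuclideanSpace ℝ ι → ℂ, ContDiff ℝ ∞ G → (∀ x, r < ‖x‖ → G x = 0) →
      ∀ B : ℝ, DBd M G B → ∀ D : ℕ, ∃ q : MvPolynomial ι ℂ, q.totalDegree ≤ D ∧
        ∀ x : EuclideanSpace ℝ ι, ‖x‖ ≤ r0 →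
          ‖G x - MvPolynomial.eval (fun i => ((x i : ℝ) : ℂ)) q‖ ≤
            C * B * ((1 + (D : ℝ)) ^ R)⁻¹ := by
  obtain ⟨C1, M, hC1, h4⟩ := four_rep (ι := ι) r (R + (Fintype.card ι + 1))
  obtain ⟨C2, hC2, hhalf⟩ := half_pow_le R
  obtain ⟨ρ, hρ⟩ : ∃ ρ, ρ = max r0 0 + 1 := ⟨_, rfl⟩
  have hρ1 : 1 ≤ ρ := by
    rw [hρ]
    linarith [le_max_right r0 0]
  have hρr : r0 ≤ ρ := by
    rw [hρ]
    linarith [le_max_left r0 0]
  obtain ⟨w, hw⟩ : ∃ w : EuclideanSpace ℝ ι → ℝ,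
    w = fun ξ => (1 + ‖ξ‖) ^ (-((Fintype.card ι : ℝ) + 1)) := ⟨_, rfl⟩
  have hwi : Integrable w := by
    rw [hw]
    apply integrable_one_add_norm
    rw [finrank_euclideanSpace]
    linarith
  have hw0 : ∀ ξ, 0 ≤ w ξ := by
    intro ξ
    rw [hw]
    positivity
  have hwe : ∀ ξ, w ξ = ((1 + ‖ξ‖) ^ (Fintype.card ι + 1))⁻¹ := by
    intro ξ
    rw [hw]
    simp only
    rw [Real.rpow_neg (by positivity), ← Real.rpow_natCast]
    push_cast
    rfl
  obtain ⟨J, hJ⟩ : ∃ J, J = ∫ ξ, w ξ := ⟨_, rfl⟩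
  have hJ0 : 0 ≤ J := by
    rw [hJ]
    exact integral_nonneg hw0
  have hπ := Real.pi_pos
  refine ⟨C1 * J * ((32 * Real.pi * ρ) ^ R + C2), M, by positivity, ?_⟩
  intro G hG hsup B hB D
  have hB0 : 0 ≤ B := hB.nonneg
  obtain ⟨H, hHc, hHb, hHr⟩ := h4 G hG hsup B hB
  obtain ⟨T, hT⟩ : ∃ T : ℝ, T = ((D : ℝ) + 1) / (32 * Real.pi * ρ) := ⟨_, rfl⟩
  have hT0 : 0 ≤ T := by
    rw [hT]
    positivity
  have hHw : ∀ ξ, ‖H ξ‖ ≤ C1 * B * w ξ * ((1 + ‖ξ‖) ^ R)⁻¹ := by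
    intro ξ
    have h1 := hHb ξ
    have p1 : 0 < (1 + ‖ξ‖) ^ R := by positivity
    have p2 : 0 < (1 + ‖ξ‖) ^ (Fintype.card ι + 1) := by positivity
    rw [hwe, mul_assoc, ← mul_inv, ← div_eq_mul_inv, le_div_iff₀ (by positivity)]
    calc ‖H ξ‖ * ((1 + ‖ξ‖) ^ (Fintype.card ι + 1) * (1 + ‖ξ‖) ^ R) =
        (1 + ‖ξ‖) ^ (R + (Fintype.card ι + 1)) * ‖H ξ‖ := by
          rw [pow_add]
          ring
      _ ≤ C1 * B := h1
  have hHw1 : ∀ ξ, ‖H ξ‖ ≤ C1 * B * w ξ := by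
    intro ξ
    refine (hHw ξ).trans ?_
    have h1 : ((1 + ‖ξ‖) ^ R)⁻¹ ≤ 1 := by
      apply inv_le_one_of_one_le₀
      apply one_le_pow₀
      linarith [norm_nonneg ξ]
    have h2 : 0 ≤ C1 * B * w ξ := mul_nonneg (mul_nonneg hC1 hB0) (hw0 ξ)
    calc C1 * B * w ξ * ((1 + ‖ξ‖) ^ R)⁻¹ ≤ C1 * B * w ξ * 1 :=
          mul_le_mul_of_nonneg_left h1 h2
      _ = C1 * B * w ξ := mul_one _
  have hinc : ∀ x : EuclideanSpace ℝ ι, Continuous fun ξ : EuclideanSpace ℝ ι =>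
      (inner ℝ ξ x : ℝ) := fun x => continuous_id.inner continuous_const
  have hec : ∀ x : EuclideanSpace ℝ ι, Continuous fun ξ : EuclideanSpace ℝ ι =>
      Complex.exp (Complex.I * ((2 * Real.pi * inner ℝ ξ x : ℝ) : ℂ)) := by
    intro x
    exact Complex.continuous_exp.comp (continuous_const.mul
      (Complex.continuous_ofReal.comp (continuous_const.mul (hinc x))))
  have hen : ∀ x ξ : EuclideanSpace ℝ ι,
      ‖Complex.exp (Complex.I * ((2 * Real.pi * inner ℝ ξ x : ℝ) : ℂ))‖ = 1 := by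
    intro x ξ
    rw [mul_comm]
    exact Complex.norm_exp_ofReal_mul_I _
  have hei : ∀ x : EuclideanSpace ℝ ι, Integrable fun ξ : EuclideanSpace ℝ ι =>
      Complex.exp (Complex.I * ((2 * Real.pi * inner ℝ ξ x : ℝ) : ℂ)) * H ξ := by
    intro x
    refine (hwi.const_mul (C1 * B)).mono' ((hec x).mul hHc).aestronglyMeasurable ?_
    refine Filter.Eventually.of_forall fun ξ => ?_
    rw [norm_mul, hen, one_mul]
    exact hHw1 ξ
  have htc : ∀ x : EuclideanSpace ℝ ι, Continuous fun ξ : EuclideanSpace ℝ ι =>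
      (∑ m ∈ Finset.range (D + 1),
        (Complex.I * ((2 * Real.pi * inner ℝ ξ x : ℝ) : ℂ)) ^ m / (m.factorial : ℂ)) * H ξ := by
    intro x
    refine Continuous.mul (continuous_finsetSum _ fun m _ => ?_) hHc
    exact ((continuous_const.mul
      (Complex.continuous_ofReal.comp (continuous_const.mul (hinc x)))).pow m).div_const _
  have hti : ∀ x : EuclideanSpace ℝ ι, Integrable (fun ξ : EuclideanSpace ℝ ι =>
      (∑ m ∈ Finset.range (D + 1),
        (Complex.I * ((2 * Real.pi * inner ℝ ξ x : ℝ) : ℂ)) ^ m / (m.factorial : ℂ)) * H ξ)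
      (volume.restrict (Metric.closedBall 0 T)) := by
    intro x
    exact (htc x).continuousOn.integrableOn_compact (isCompact_closedBall _ _)
  have hfi := fin_integral (volume.restrict (Metric.closedBall (0 : EuclideanSpace ℝ ι) T))
    (bjV ι D) (bjV_fin ι D) (fun ξ x => (∑ m ∈ Finset.range (D + 1),
        (Complex.I * ((2 * Real.pi * inner ℝ ξ x : ℝ) : ℂ)) ^ m / (m.factorial : ℂ)) * H ξ)
    (fun ξ => bj_mem D ξ (H ξ)) hti
  obtain ⟨q, hq, hqe⟩ := hfi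
  refine ⟨q, (MvPolynomial.mem_restrictTotalDegree _ _ _).1 hq, ?_⟩
  intro x hx
  have hqx : MvPolynomial.eval (fun i => ((x i : ℝ) : ℂ)) q =
      ∫ ξ in Metric.closedBall (0 : EuclideanSpace ℝ ι) T, (∑ m ∈ Finset.range (D + 1),
        (Complex.I * ((2 * Real.pi * inner ℝ ξ x : ℝ) : ℂ)) ^ m / (m.factorial : ℂ)) * H ξ :=
    congrFun hqe x
  have hms : MeasurableSet (Metric.closedBall (0 : EuclideanSpace ℝ ι) T) :=
    measurableSet_closedBall
  have hA : 0 ≤ C1 * B := mul_nonneg hC1 hB0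
  -- inside
  have hin : ‖(∫ ξ in Metric.closedBall (0 : EuclideanSpace ℝ ι) T,
      Complex.exp (Complex.I * ((2 * Real.pi * inner ℝ ξ x : ℝ) : ℂ)) * H ξ) -
      MvPolynomial.eval (fun i => ((x i : ℝ) : ℂ)) q‖ ≤ (1 / 2 : ℝ) ^ (D + 1) * (C1 * B) * J := by
    rw [hqx, ← integral_sub (hei x).integrableOn (hti x)]
    have h1 : ∀ ξ ∈ Metric.closedBall (0 : EuclideanSpace ℝ ι) T,
        ‖Complex.exp (Complex.I * ((2 * Real.pi * inner ℝ ξ x : ℝ) : ℂ)) * H ξ -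
        (∑ m ∈ Finset.range (D + 1),
        (Complex.I * ((2 * Real.pi * inner ℝ ξ x : ℝ) : ℂ)) ^ m / (m.factorial : ℂ)) * H ξ‖ ≤
        (1 / 2 : ℝ) ^ (D + 1) * (C1 * B) * w ξ := by
      intro ξ hξ
      rw [mem_closedBall_zero_iff] at hξ
      rw [← sub_mul, norm_mul]
      have h2 : |2 * Real.pi * inner ℝ ξ x| ≤ ((D : ℝ) + 1) / 16 := by
        have h3 : |(inner ℝ ξ x : ℝ)| ≤ T * ρ :=
          (abs_real_inner_le_norm ξ x).trans
            (mul_le_mul hξ (hx.trans hρr) (norm_nonneg _) hT0)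
        rw [abs_mul, abs_of_pos (by positivity : (0 : ℝ) < 2 * Real.pi)]
        calc 2 * Real.pi * |(inner ℝ ξ x : ℝ)| ≤ 2 * Real.pi * (T * ρ) :=
              mul_le_mul_of_nonneg_left h3 (by positivity)
          _ = ((D : ℝ) + 1) / 16 := by
              rw [hT]
              field_simp
              norm_num
      have h5 := exp_taylor D _ h2
      calc _ ≤ (1 / 2 : ℝ) ^ (D + 1) * (C1 * B * w ξ) :=
            mul_le_mul h5 (hHw1 ξ) (norm_nonneg _) (by positivity)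
        _ = _ := by ring
    have h2 : Integrable (fun ξ => (1 / 2 : ℝ) ^ (D + 1) * (C1 * B) * w ξ)
        (volume : Measure (EuclideanSpace ℝ ι)) := hwi.const_mul _
    calc _ ≤ ∫ ξ in Metric.closedBall (0 : EuclideanSpace ℝ ι) T,
          (1 / 2 : ℝ) ^ (D + 1) * (C1 * B) * w ξ :=
          norm_integral_le_of_norm_le h2.integrableOn
            ((ae_restrict_iff' hms).2 (Filter.Eventually.of_forall h1))
      _ ≤ ∫ ξ, (1 / 2 : ℝ) ^ (D + 1) * (C1 * B) * w ξ :=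
          setIntegral_le_integral h2 (Filter.Eventually.of_forall fun ξ =>
            mul_nonneg (mul_nonneg (by positivity) hA) (hw0 ξ))
      _ = _ := by rw [integral_const_mul, hJ]
  -- outside
  have hout : ‖∫ ξ in (Metric.closedBall (0 : EuclideanSpace ℝ ι) T)ᶜ,
      Complex.exp (Complex.I * ((2 * Real.pi * inner ℝ ξ x : ℝ) : ℂ)) * H ξ‖ ≤
      (C1 * B) * ((1 + T) ^ R)⁻¹ * J := by
    have h1 : ∀ ξ ∈ (Metric.closedBall (0 : EuclideanSpace ℝ ι) T)ᶜ,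
        ‖Complex.exp (Complex.I * ((2 * Real.pi * inner ℝ ξ x : ℝ) : ℂ)) * H ξ‖ ≤
        (C1 * B) * ((1 + T) ^ R)⁻¹ * w ξ := by
      intro ξ hξ
      rw [Set.mem_compl_iff, mem_closedBall_zero_iff, not_le] at hξ
      rw [norm_mul, hen, one_mul]
      refine (hHw ξ).trans ?_
      have h2 : ((1 + ‖ξ‖) ^ R)⁻¹ ≤ ((1 + T) ^ R)⁻¹ := by
        apply inv_anti₀ (by positivity)
        exact pow_le_pow_left₀ (by positivity) (by linarith) R
      calc C1 * B * w ξ * ((1 + ‖ξ‖) ^ R)⁻¹ ≤ C1 * B * w ξ * ((1 + T) ^ R)⁻¹ :=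
            mul_le_mul_of_nonneg_left h2 (mul_nonneg hA (hw0 ξ))
        _ = _ := by ring
    have h2 : Integrable (fun ξ => (C1 * B) * ((1 + T) ^ R)⁻¹ * w ξ)
        (volume : Measure (EuclideanSpace ℝ ι)) := hwi.const_mul _
    calc _ ≤ ∫ ξ in (Metric.closedBall (0 : EuclideanSpace ℝ ι) T)ᶜ,
          (C1 * B) * ((1 + T) ^ R)⁻¹ * w ξ :=
          norm_integral_le_of_norm_le h2.integrableOn
            ((ae_restrict_iff' hms.compl).2 (Filter.Eventually.of_forall h1))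
      _ ≤ ∫ ξ, (C1 * B) * ((1 + T) ^ R)⁻¹ * w ξ :=
          setIntegral_le_integral h2 (Filter.Eventually.of_forall fun ξ =>
            mul_nonneg (mul_nonneg hA (by positivity)) (hw0 ξ))
      _ = _ := by rw [integral_const_mul, hJ]
  have hTR : ((1 + T) ^ R)⁻¹ ≤ (32 * Real.pi * ρ) ^ R * ((1 + (D : ℝ)) ^ R)⁻¹ := by
    have h1 : 0 < (1 + (D : ℝ)) ^ R := by positivity
    have h2 : 0 < (1 + T) ^ R := by positivity
    rw [inv_le_iff_one_le_mul₀ h2, mul_assoc, mul_comm ((1 + (D : ℝ)) ^ R)⁻¹, ← mul_assoc,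
      ← div_eq_mul_inv, one_le_div h1, ← mul_pow]
    apply pow_le_pow_left₀ (by positivity)
    have h3 : 32 * Real.pi * ρ * T = (D : ℝ) + 1 := by
      rw [hT]
      field_simp
    have h4 : 0 ≤ 32 * Real.pi * ρ := by positivity
    calc 1 + (D : ℝ) = 32 * Real.pi * ρ * T := by rw [h3]; ring
      _ ≤ 32 * Real.pi * ρ * (1 + T) := mul_le_mul_of_nonneg_left (by linarith) h4
  have hsplit : G x - MvPolynomial.eval (fun i => ((x i : ℝ) : ℂ)) q =
      ((∫ ξ in Metric.closedBall (0 : EuclideanSpace ℝ ι) T,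
      Complex.exp (Complex.I * ((2 * Real.pi * inner ℝ ξ x : ℝ) : ℂ)) * H ξ) -
      MvPolynomial.eval (fun i => ((x i : ℝ) : ℂ)) q) +
      ∫ ξ in (Metric.closedBall (0 : EuclideanSpace ℝ ι) T)ᶜ,
      Complex.exp (Complex.I * ((2 * Real.pi * inner ℝ ξ x : ℝ) : ℂ)) * H ξ := by
    rw [hHr x, ← integral_add_compl hms (hei x)]
    ring
  rw [hsplit]
  refine (norm_add_le _ _).trans ((add_le_add hin hout).trans ?_)
  have k1 : (1 / 2 : ℝ) ^ (D + 1) * (C1 * B) * J ≤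
      (C2 * ((1 + (D : ℝ)) ^ R)⁻¹) * (C1 * B) * J :=
    mul_le_mul_of_nonneg_right (mul_le_mul_of_nonneg_right (hhalf D) hA) hJ0
  have k2 : (C1 * B) * ((1 + T) ^ R)⁻¹ * J ≤
      (C1 * B) * ((32 * Real.pi * ρ) ^ R * ((1 + (D : ℝ)) ^ R)⁻¹) * J :=
    mul_le_mul_of_nonneg_right (mul_le_mul_of_nonneg_left hTR hA) hJ0
  refine (add_le_add k1 k2).trans (le_of_eq ?_)
  ring

end

end Pool.Agent.Work.MP_dd0ddf_al.AR
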