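import Pool.Agent.Work.MP_dd0ddf_al.AR.BCs

/-!
# MP_dd0ddf_al, archimedean part, block R, module BKav


Averaging over `K`.

PROOF. Let `F(g) = f(g) l(π(g⁻¹) y)`, continuous with compact support on `GLn n` (`TG_cs`, `hπ.cont`).  For `k ∈ K`: `∫ F(g) dg = ∫ F(k g) dg` (`integral_mul_left_eq_self`), and
`F(k g) = f(k g) l(π(g⁻¹) (π(k⁻¹) y))` (`mul_inv_rev`, `map_mul`).  Integrate over `k` (`muK n` is a probability measure):
`∫ F = ∫_K ∫_G F(k g) dg dk`, and exchange the integrals with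
`MeasureTheory.integral_integral_swap_of_hasCompactSupport`: `(k, g) ↦ F(k g)` is continuous; its support is contained in the image of
`K × supp F` under `(k, g) ↦ (k, k⁻¹ g)`, a compact set.
-/

set_option linter.unusedSectionVars false

namespace Pool.Agent.Work.MP_dd0ddf_al.AR

open scoped SchwartzMap Matrix.Norms.Elementwise ComplexConjugate ContDiff Topology
open Matrix MeasureTheory Filter Asymptotics
open Pool.Agent.Work.MP_dd0ddf_al

noncomputable section

variable {n : ℕ} {P : Type*} [AddCommGroup P] [Module ℂ P] [UniformSpace P] [IsUniformAddGroup P]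
  [ContinuousSMul ℂ P] [PolynormableSpace ℂ P] [T2Space P] [CompleteSpace P]
  [FirstCountableTopology P]

theorem K_avg (π : GLn n →* (P →L[ℂ] P)) (hπ : IsCW π) {f : Mat n → ℂ}
    (hf : f ∈ TGs (GLs n)) (l : P →L[ℂ] ℂ) (y : P) :
    ∫ g : GLn n, f (g : Mat n) * l (π g⁻¹ y) ∂(CW.hG n) =
      ∫ g : GLn n, (∫ k : KU n, f (((k : GLn n) : Mat n) * (g : Mat n)) *
        l (π g⁻¹ (π ((k : GLn n)⁻¹) y)) ∂(muK n)) ∂(CW.hG n) := by
  obtain ⟨hfc, hfs⟩ := TG_cs hf
  obtain ⟨F, hF⟩ : ∃ F : GLn n → ℂ, F = fun g : GLn n => f (g : Mat n) * l (π g⁻¹ y) := ⟨_, rfl⟩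
  have hFc : Continuous F := by
    rw [hF]
    exact hfc.mul (l.continuous.comp (hπ.cont.comp (continuous_inv.prodMk continuous_const)))
  have hFs : HasCompactSupport F := by
    rw [hF]
    exact hfs.mul_right
  have hHc : Continuous (Function.uncurry fun (k : KU n) (g : GLn n) => F ((k : GLn n) * g)) :=
    hFc.comp ((continuous_subtype_val.comp continuous_fst).mul continuous_snd)
  have hHs : HasCompactSupport
      (Function.uncurry fun (k : KU n) (g : GLn n) => F ((k : GLn n) * g)) := by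
    have hφ : Continuous fun x : KU n × GLn n => (x.1, (x.1 : GLn n)⁻¹ * x.2) :=
      continuous_fst.prodMk ((continuous_subtype_val.comp continuous_fst).inv.mul continuous_snd)
    refine HasCompactSupport.intro ((isCompact_univ.prod hFs).image hφ) ?_
    rintro ⟨k, g⟩ hx
    by_contra h0
    apply hx
    refine ⟨(k, (k : GLn n) * g), ⟨Set.mem_univ _, subset_tsupport _ h0⟩, ?_⟩
    show (k, (k : GLn n)⁻¹ * ((k : GLn n) * g)) = (k, g)
    rw [inv_mul_cancel_left]
  have h1 : ∫ k : KU n, (∫ g : GLn n, F ((k : GLn n) * g) ∂(CW.hG n)) ∂(muK n) =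
      ∫ g : GLn n, F g ∂(CW.hG n) := by
    have h2 : ∀ k : KU n, ∫ g : GLn n, F ((k : GLn n) * g) ∂(CW.hG n) =
        ∫ g : GLn n, F g ∂(CW.hG n) := fun k => integral_mul_left_eq_self F (k : GLn n)
    simp_rw [h2]
    simp
  have h3 : ∫ k : KU n, (∫ g : GLn n, F ((k : GLn n) * g) ∂(CW.hG n)) ∂(muK n) =
      ∫ g : GLn n, (∫ k : KU n, F ((k : GLn n) * g) ∂(muK n)) ∂(CW.hG n) :=
    integral_integral_swap_of_hasCompactSupport hHc hHs
  have h4 : ∫ g : GLn n, f (g : Mat n) * l (π g⁻¹ y) ∂(CW.hG n) = ∫ g : GLn n, F g ∂(CW.hG n) := by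
    rw [hF]
  rw [h4, ← h1, h3]
  refine integral_congr_ae (Eventually.of_forall fun g => ?_)
  refine integral_congr_ae (Eventually.of_forall fun k => ?_)
  show F ((k : GLn n) * g) = f (((k : GLn n) : Mat n) * (g : Mat n)) *
        l (π g⁻¹ (π ((k : GLn n)⁻¹) y))
  rw [hF]
  show f (((k : GLn n) * g : GLn n) : Mat n) * l (π ((k : GLn n) * g)⁻¹ y) = _
  rw [_root_.mul_inv_rev, map_mul]
  rfl

end

end Pool.Agent.Work.MP_dd0ddf_al.AR
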