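import Pool.Agent.Work.MP_dd0ddf_al.AR.RKDefs

/-!
# MP_dd0ddf_al, archimedean part, block R, module KPa


`PK n d` is stable under left and right translations of `K`.

PROOF. Let `f k = eval (evv k) q`, `totalDegree q ≤ d`.  The entries of `k0 * k` are
`(k0 k)_ij = ∑ l, k0_il k_lj`, their conjugates `∑ l, conj k0_il conj k_lj`: so
`evv (k0 k) x = eval (evv k) (L x)` with `L : Vars n → MvPolynomial (Vars n) ℂ`,
`L (inl (i,j)) = ∑ l, C (k0 i l) * X (inl (l,j))`, `L (inr (i,j)) = ∑ l, C (conj (k0 i l)) * X (inr (l,j))`,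
`totalDegree (L x) ≤ 1`.  Hence `f (k0 k) = eval (evv k) (bind₁ L q)` (`MvPolynomial.eval₂Hom_bind₁` or
`aeval_bind₁`), and `totalDegree (bind₁ L q) ≤ totalDegree q` if all `totalDegree (L x) ≤ 1`: write `q` as the sum
of its monomials, `bind₁ L (monomial m c) = C c * ∏ x, L x ^ m x` has total degree `≤ ∑ m x ≤ totalDegree q`
(`MvPolynomial.totalDegree_finset_sum`, `totalDegree_mul`, `totalDegree_pow`, `totalDegree_finset_prod`,
`le_totalDegree`).  The same for right translations, `(k k0)_ij = ∑ l, k_il k0_lj`.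
-/

set_option linter.unusedSectionVars false

namespace Pool.Agent.Work.MP_dd0ddf_al.AR

open scoped SchwartzMap Matrix.Norms.Elementwise ComplexConjugate ContDiff Topology
open Matrix MeasureTheory Filter Asymptotics

noncomputable section

variable {n : ℕ}

private theorem td_bind {σ τ : Type*} (L : σ → MvPolynomial τ ℂ)
    (hL : ∀ x, (L x).totalDegree ≤ 1) (q : MvPolynomial σ ℂ) :
    (MvPolynomial.bind₁ L q).totalDegree ≤ q.totalDegree := by
  classical
  have e : MvPolynomial.bind₁ L q =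
      ∑ m ∈ q.support, MvPolynomial.C (q.coeff m) * ∏ x ∈ m.support, L x ^ m x := by
    rw [MvPolynomial.bind₁, MvPolynomial.aeval_def, MvPolynomial.eval₂_eq]
    rfl
  rw [e]
  apply MvPolynomial.totalDegree_finsetSum_le
  intro m hm
  refine (MvPolynomial.totalDegree_mul _ _).trans ?_
  rw [MvPolynomial.totalDegree_C, zero_add]
  refine (MvPolynomial.totalDegree_finsetProd _ _).trans ?_
  refine le_trans (Finset.sum_le_sum (g := fun x => m x) ?_) (MvPolynomial.le_totalDegree hm)
  intro x _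
  refine (MvPolynomial.totalDegree_pow _ _).trans ?_
  exact (Nat.mul_le_mul_left _ (hL x)).trans (by simp)

private theorem PK_sub {d : ℕ} {f : KU n → ℂ} (hf : f ∈ PK n d) (φ : KU n → KU n)
    (L : Vars n → MvPolynomial (Vars n) ℂ) (hL : ∀ x, (L x).totalDegree ≤ 1)
    (hφ : ∀ (k : KU n) (x : Vars n), evv ((φ k : GLn n) : Mat n) x =
      MvPolynomial.eval (evv ((k : GLn n) : Mat n)) (L x)) :
    (fun k => f (φ k)) ∈ PK n d := by
  obtain ⟨q, hq, hfq⟩ := hf
  refine ⟨MvPolynomial.bind₁ L q, (td_bind L hL q).trans hq, fun k => ?_⟩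
  show f (φ k) = _
  rw [hfq (φ k)]
  have h1 : MvPolynomial.eval (evv ((k : GLn n) : Mat n)) (MvPolynomial.bind₁ L q) =
      MvPolynomial.eval (fun x => MvPolynomial.eval (evv ((k : GLn n) : Mat n)) (L x)) q := by
    have := MvPolynomial.aeval_bind₁ (evv ((k : GLn n) : Mat n)) L q
    simpa [MvPolynomial.aeval_eq_eval] using this
  rw [h1]
  congr 2
  funext x
  exact hφ k x

private theorem td_lin {τ : Type*} {m : ℕ} (c : Fin m → ℂ) (v : Fin m → τ) :
    (∑ l, MvPolynomial.C (c l) * MvPolynomial.X (v l) : MvPolynomial τ ℂ).totalDegree ≤ 1 := by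
  apply MvPolynomial.totalDegree_finsetSum_le
  intro l _
  refine (MvPolynomial.totalDegree_mul _ _).trans ?_
  rw [MvPolynomial.totalDegree_C, MvPolynomial.totalDegree_X]

theorem PK_left {d : ℕ} {f : KU n → ℂ} (hf : f ∈ PK n d) (k0 : KU n) :
    (fun k => f (k0 * k)) ∈ PK n d := by
  refine PK_sub hf (fun k => k0 * k)
    (Sum.elim
      (fun p => ∑ l, MvPolynomial.C (((k0 : GLn n) : Mat n) p.1 l) *
        MvPolynomial.X (Sum.inl (l, p.2)))
      (fun p => ∑ l, MvPolynomial.C (conj (((k0 : GLn n) : Mat n) p.1 l)) *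
        MvPolynomial.X (Sum.inr (l, p.2)))) ?_ ?_
  · rintro (p | p)
    · exact td_lin _ _
    · exact td_lin _ _
  · intro k x
    have hm : (((k0 * k : KU n) : GLn n) : Mat n) =
        ((k0 : GLn n) : Mat n) * ((k : GLn n) : Mat n) := by
      rw [Subgroup.coe_mul, Units.val_mul]
    show evv (((k0 * k : KU n) : GLn n) : Mat n) x = _
    rw [hm]
    rcases x with p | p
    · simp [evv, Matrix.mul_apply]
    · simp [evv, Matrix.mul_apply]

theorem PK_right {d : ℕ} {f : KU n → ℂ} (hf : f ∈ PK n d) (k0 : KU n) :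
    (fun k => f (k * k0)) ∈ PK n d := by
  refine PK_sub hf (fun k => k * k0)
    (Sum.elim
      (fun p => ∑ l, MvPolynomial.C (((k0 : GLn n) : Mat n) l p.2) *
        MvPolynomial.X (Sum.inl (p.1, l)))
      (fun p => ∑ l, MvPolynomial.C (conj (((k0 : GLn n) : Mat n) l p.2)) *
        MvPolynomial.X (Sum.inr (p.1, l)))) ?_ ?_
  · rintro (p | p)
    · exact td_lin _ _
    · exact td_lin _ _
  · intro k x
    have hm : (((k * k0 : KU n) : GLn n) : Mat n) =
        ((k : GLn n) : Mat n) * ((k0 : GLn n) : Mat n) := by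
      rw [Subgroup.coe_mul, Units.val_mul]
    show evv (((k * k0 : KU n) : GLn n) : Mat n) x = _
    rw [hm]
    rcases x with p | p
    · simp [evv, Matrix.mul_apply, mul_comm]
    · simp [evv, Matrix.mul_apply, mul_comm]

end

end Pool.Agent.Work.MP_dd0ddf_al.AR
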