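import Pool.Agent.Work.MP_dd0ddf_al.AR.RBDefs
import Pool.Agent.Work.MP_dd0ddf_al.AR.BInt
import Pool.Agent.Work.MP_dd0ddf_al.AR.KPa
import Pool.Agent.Work.MP_dd0ddf_al.AR.KPc
import Pool.Agent.Work.MP_dd0ddf_al.AR.KPd
import Pool.Agent.Work.MP_dd0ddf_al.AR.KWI
import Pool.Agent.Work.MP_dd0ddf_al.AR.KHB
import Pool.Agent.Work.MP_dd0ddf_al.AR.KInvx

/-!
# MP_dd0ddf_al, archimedean part, block R, module BKf


Functionals of bounded `K`-degree obtained by integration over `K`.

PROOF. `l' v := ∫ φ(k) l(π(k⁻¹) v) dk` is linear in `v`; bound: `|φ| ≤ B` (`PK_cont`, `bdd_of_cont`), `|l v| ≤ p v` (`functional_bound`), `p ≤ q` with `q` continuous and `K`-invariant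
(`exists_KInv`), so `|l' v| ≤ B q(v)` (probability measure), which gives continuity (`Seminorm.continuous_of..`, or use the argument in the proof of
`exists_ED`; e.g. `LinearMap` continuous at `0` via the open ball of `q`).
`l' ∈ Yd π D`: for `v` fixed, `l'(π(k0) v) = ∫ φ(k) l(π(k⁻¹ k0) v) dk = ∫ φ(k0 k) l(π(k⁻¹) v) dk` (substitute `k → k0 k`, `integral_mul_left_eq_self`).
For fixed `k` the function `k0 ↦ φ(k0 k) l(π(k⁻¹) v)` is in `PK n D` (`PK_right`), so the integral is in `PK n D` by `fin_integral` (`PK_finite`), the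
integrands being continuous on the compact group.
-/

set_option linter.unusedSectionVars false

namespace Pool.Agent.Work.MP_dd0ddf_al.AR

open scoped SchwartzMap Matrix.Norms.Elementwise ComplexConjugate ContDiff Topology
open Matrix MeasureTheory Filter Asymptotics
open Pool.Agent.Work.MP_dd0ddf_al

noncomputable section

variable {n : ℕ} {P : Type*} [AddCommGroup P] [Module ℂ P] [UniformSpace P] [IsUniformAddGroup P]
  [ContinuousSMul ℂ P] [PolynormableSpace ℂ P] [T2Space P] [CompleteSpace P]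
  [FirstCountableTopology P]

private theorem bkf_cont {π : GLn n →* (P →L[ℂ] P)} (hπ : IsCW π) (l : P →L[ℂ] ℂ) (v : P) :
    Continuous fun k : KU n => l (π ((k : GLn n)⁻¹) v) :=
  l.continuous.comp (hπ.cont.comp
    ((continuous_inv.comp continuous_subtype_val).prodMk continuous_const))

private theorem bkf_int {f : KU n → ℂ} (hf : Continuous f) : Integrable f (muK n) :=
  hf.integrable_of_hasCompactSupport (HasCompactSupport.of_compactSpace f)

theorem K_functional (π : GLn n →* (P →L[ℂ] P)) (hπ : IsCW π) {D : ℕ} {φ : KU n → ℂ}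
    (hφ : φ ∈ PK n D) (l : P →L[ℂ] ℂ) : ∃ l' ∈ Yd π D, ∀ v, l' v =
      ∫ k : KU n, φ k * l (π ((k : GLn n)⁻¹) v) ∂(muK n) := by
  have hφc := PK_cont hφ
  obtain ⟨B, hB⟩ := bdd_of_cont hφc
  obtain ⟨p, hp, hlp⟩ := functional_bound l
  obtain ⟨q, hq, hqi, hpq⟩ := exists_KInv π hπ p hp
  have hi : ∀ v, Integrable (fun k : KU n => φ k * l (π ((k : GLn n)⁻¹) v)) (muK n) :=
    fun v => bkf_int (hφc.mul (bkf_cont hπ l v))
  let T : P →ₗ[ℂ] ℂ :=
    { toFun := fun v => ∫ k : KU n, φ k * l (π ((k : GLn n)⁻¹) v) ∂(muK n)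
      map_add' := fun v w => by
        rw [← integral_add (hi v) (hi w)]
        refine integral_congr_ae (Eventually.of_forall fun k => ?_)
        show φ k * l (π ((k : GLn n)⁻¹) (v + w)) =
          φ k * l (π ((k : GLn n)⁻¹) v) + φ k * l (π ((k : GLn n)⁻¹) w)
        rw [map_add, map_add]
        ring
      map_smul' := fun c v => by
        rw [RingHom.id_apply, smul_eq_mul, ← integral_const_mul]
        refine integral_congr_ae (Eventually.of_forall fun k => ?_)
        show φ k * l (π ((k : GLn n)⁻¹) (c • v)) = c * (φ k * l (π ((k : GLn n)⁻¹) v))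
        rw [map_smul, map_smul, smul_eq_mul]
        ring }
  have hT : ∀ v, T v = ∫ k : KU n, φ k * l (π ((k : GLn n)⁻¹) v) ∂(muK n) := fun v => rfl
  have hTb : ∀ v, ‖T v‖ ≤ B * q v := by
    intro v
    rw [hT]
    have h1 := norm_integral_le_of_norm_le_const (μ := muK n)
      (f := fun k : KU n => φ k * l (π ((k : GLn n)⁻¹) v)) (C := B * q v)
      (Eventually.of_forall fun k => ?_)
    · simpa using h1
    · rw [norm_mul]
      have h2 : ‖l (π ((k : GLn n)⁻¹) v)‖ ≤ q v := by
        refine (hlp _).trans ((hpq _).trans ?_)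
        have h3 := hqi k⁻¹ v
        exact h3.le
      exact mul_le_mul (hB k) h2 (norm_nonneg _) ((norm_nonneg _).trans (hB k))
  have hTc : Continuous T := by
    refine continuous_of_continuousAt_zero T ?_
    rw [ContinuousAt, map_zero]
    refine squeeze_zero_norm hTb ?_
    have h4 : Tendsto (fun v => B * q v) (𝓝 0) (𝓝 (B * q 0)) :=
      (continuous_const.mul hq).tendsto 0
    rwa [map_zero, mul_zero] at h4
  refine ⟨⟨T, hTc⟩, ?_, fun v => rfl⟩
  intro v
  have key : (fun k0 : KU n => (⟨T, hTc⟩ : P →L[ℂ] ℂ) (π (k0 : GLn n) v)) =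
      fun k0 : KU n => ∫ k : KU n, φ (k0 * k) * l (π ((k : GLn n)⁻¹) v) ∂(muK n) := by
    funext k0
    show ∫ k : KU n, φ k * l (π ((k : GLn n)⁻¹) (π (k0 : GLn n) v)) ∂(muK n) = _
    rw [← integral_mul_left_eq_self (μ := muK n)
      (fun k : KU n => φ k * l (π ((k : GLn n)⁻¹) (π (k0 : GLn n) v))) k0]
    refine integral_congr_ae (Eventually.of_forall fun k => ?_)
    show φ (k0 * k) * l (π (((k0 * k : KU n) : GLn n)⁻¹) (π (k0 : GLn n) v)) =
      φ (k0 * k) * l (π ((k : GLn n)⁻¹) v)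
    congr 2
    have h5 : π (((k0 * k : KU n) : GLn n)⁻¹) * π (k0 : GLn n) = π ((k : GLn n)⁻¹) := by
      rw [← map_mul]
      congr 1
      rw [Subgroup.coe_mul, _root_.mul_inv_rev, inv_mul_cancel_right]
    rw [← h5]
    rfl
  rw [key]
  refine fin_integral (muK n) (PK n D) (PK_finite n D)
    (fun (k : KU n) (k0 : KU n) => φ (k0 * k) * l (π ((k : GLn n)⁻¹) v)) ?_ ?_
  · intro k
    have h6 := (PK n D).smul_mem (l (π ((k : GLn n)⁻¹) v)) (PK_right hφ k)
    convert h6 using 1
    funext k0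
    simp only [Pi.smul_apply, smul_eq_mul]
    ring
  · intro k0
    exact bkf_int ((hφc.comp (continuous_const.mul continuous_id)).mul (bkf_cont hπ l v))

end

end Pool.Agent.Work.MP_dd0ddf_al.AR
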