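import Pool.Agent.Work.MP_dd0ddf_al.AR.BPi
import Pool.Agent.Work.MP_dd0ddf_al.AR.KInvx

/-!
# MP_dd0ddf_al, archimedean part, block R, module BPb


Bounds for `π(f) y`, the operator `π(f)`.

PROOF. `S = {g | (g : Mat n) ∈ K}` is compact (`cpt_pre`), so of finite measure, and `‖g‖ + ‖g⁻¹‖ ≤ L` on `S`.  `hπ.growth` for `p`: `N`, `q0`;
`exists_KInv` for `q0`: `q1`.  For `l` with `|l v| ≤ p v`: `|f(g) l(π(g⁻¹) y)| ≤ B p(π(g⁻¹) y) ≤ B L^N q1(y)` for `g ∈ S` and `= 0` for `g ∉ S`, so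
`|l(piF π f y)| ≤ B L^N vol(S) q1(y)` (`piF_spec`, `norm_integral_le_..`, `setIntegral`).  `seminorm_le` gives the claim with
`q = (L^N vol(S)) • q1` (a multiple of `q1` by a nonnegative real, `K`-invariant).
`piF_cont`: the map `y ↦ piF π f y` is linear (`piF_addy`, `piF_smuly`) and continuous by `continuous_of_seminorm` and `piF_bound` (`f` is bounded).
-/

set_option linter.unusedSectionVars false

namespace Pool.Agent.Work.MP_dd0ddf_al.AR

open scoped SchwartzMap Matrix.Norms.Elementwise ComplexConjugate ContDiff Topology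
open Matrix MeasureTheory Filter Asymptotics
open Pool.Agent.Work.MP_dd0ddf_al

noncomputable section

variable {n : ℕ} {P : Type*} [AddCommGroup P] [Module ℂ P] [UniformSpace P] [IsUniformAddGroup P]
  [ContinuousSMul ℂ P] [PolynormableSpace ℂ P] [T2Space P] [CompleteSpace P]
  [FirstCountableTopology P]

private theorem pb_smul (c : NNReal) (q : Seminorm ℂ P) (v : P) :
    (c • q) v = (c : ℝ) * q v := by
  rw [_root_.smul_apply, NNReal.smul_def, smul_eq_mul]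

private theorem pb_smul_cont (c : NNReal) {q : Seminorm ℂ P} (hq : Continuous q) :
    Continuous (c • q) := by
  have h1 : ⇑(c • q) = fun v => (c : ℝ) * q v := funext fun v => pb_smul c q v
  rw [h1]
  exact continuous_const.mul hq

private theorem pb_L {S : Set (GLn n)} (hS : IsCompact S) : ∃ L : ℝ, 0 ≤ L ∧ ∀ g ∈ S,
    ‖((g⁻¹ : GLn n) : Mat n)‖ + ‖(((g⁻¹)⁻¹ : GLn n) : Mat n)‖ ≤ L := by
  have h1 : Continuous fun g : GLn n => ((g : GLn n) : Mat n) := Units.continuous_val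
  have h2 : Continuous fun g : GLn n =>
      ‖((g⁻¹ : GLn n) : Mat n)‖ + ‖(((g⁻¹)⁻¹ : GLn n) : Mat n)‖ :=
    (h1.comp continuous_inv).norm.add (h1.comp (continuous_inv.comp continuous_inv)).norm
  obtain ⟨C, hC⟩ := hS.exists_bound_of_continuousOn h2.continuousOn
  refine ⟨max C 0, le_max_right _ _, fun g hg => ?_⟩
  exact (le_abs_self _).trans ((hC g hg).trans (le_max_left _ _))

theorem piF_bound (π : GLn n →* (P →L[ℂ] P)) (hπ : IsCW π) {K : Set (Mat n)} (hK : IsCompact K)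
    (hKG : K ⊆ GLs n) (p : Seminorm ℂ P) (hp : Continuous p) :
    ∃ q : Seminorm ℂ P, Continuous q ∧ KInv π q ∧ ∀ f ∈ TGK K, ∀ B : ℝ, (∀ X, ‖f X‖ ≤ B) →
      ∀ y, p (piF π f y) ≤ B * q y := by
  have hS : IsCompact {g : GLn n | (g : Mat n) ∈ K} := cpt_pre hK hKG
  obtain ⟨L, hL0, hL⟩ := pb_L hS
  obtain ⟨N, q0, hq0, hgr⟩ := hπ.growth p hp
  obtain ⟨q1, hq1, hq1K, hq01⟩ := exists_KInv π hπ q0 hq0
  have hvol : (CW.hG n) {g : GLn n | (g : Mat n) ∈ K} < ⊤ := hS.measure_lt_top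
  have hc0 : 0 ≤ L ^ N * (CW.hG n).real {g : GLn n | (g : Mat n) ∈ K} :=
    mul_nonneg (pow_nonneg hL0 N) measureReal_nonneg
  obtain ⟨c, hc⟩ : ∃ c : NNReal, (c : ℝ) =
    L ^ N * (CW.hG n).real {g : GLn n | (g : Mat n) ∈ K} := ⟨⟨_, hc0⟩, rfl⟩
  refine ⟨c • q1, pb_smul_cont _ hq1, ?_, ?_⟩
  · intro k v
    rw [pb_smul, pb_smul, hq1K k v]
  · intro f hf B hB y
    have hB0 : 0 ≤ B := (norm_nonneg _).trans (hB 0)
    rw [pb_smul, hc]
    refine seminorm_le p hp _ _ fun l hl => ?_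
    rw [piF_spec π hπ ⟨K, hK, hKG, hf⟩ y l]
    have h1 : ∫ g : GLn n, f (g : Mat n) * l (π g⁻¹ y) ∂(CW.hG n) =
        ∫ g in {g : GLn n | (g : Mat n) ∈ K}, f (g : Mat n) * l (π g⁻¹ y) ∂(CW.hG n) := by
      refine (setIntegral_eq_integral_of_forall_compl_eq_zero fun g hg => ?_).symm
      rw [hf.2 (g : Mat n) hg, zero_mul]
    rw [h1]
    have h2 : ∀ g ∈ {g : GLn n | (g : Mat n) ∈ K}, ‖f (g : Mat n) * l (π g⁻¹ y)‖ ≤
        B * (L ^ N * q1 y) := by
      intro g hg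
      rw [norm_mul]
      refine mul_le_mul (hB _) ?_ (norm_nonneg _) hB0
      refine (hl _).trans ((hgr g⁻¹ y).trans ?_)
      exact mul_le_mul (pow_le_pow_left₀ (by positivity) (hL g hg) N) (hq01 y)
        (apply_nonneg q0 y) (pow_nonneg hL0 N)
    refine (norm_setIntegral_le_of_norm_le_const hvol h2).trans (le_of_eq ?_)
    show B * (L ^ N * q1 y) * (CW.hG n).real {g : GLn n | (g : Mat n) ∈ K} =
      B * (L ^ N * (CW.hG n).real {g : GLn n | (g : Mat n) ∈ K} * q1 y)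
    ring

theorem piF_cont (π : GLn n →* (P →L[ℂ] P)) (hπ : IsCW π) {f : Mat n → ℂ}
    (hf : f ∈ TGs (GLs n)) : ∃ T : P →L[ℂ] P, ∀ y, T y = piF π f y := by
  obtain ⟨K, hK, hKG, hfK⟩ := id hf
  obtain ⟨C, hC⟩ := hK.exists_bound_of_continuousOn hfK.1.continuous.continuousOn
  have hB : ∀ X, ‖f X‖ ≤ max C 0 := by
    intro X
    by_cases hX : X ∈ K
    · exact (hC X hX).trans (le_max_left _ _)
    · rw [hfK.2 X hX, norm_zero]
      exact le_max_right _ _
  let T : P →ₗ[ℂ] P :=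
    { toFun := piF π f
      map_add' := piF_addy π hπ hf
      map_smul' := fun c y => piF_smuly π hπ c hf y }
  have hT : Continuous T := by
    refine continuous_of_seminorm T fun p hp => ?_
    obtain ⟨q, hq, -, h⟩ := piF_bound π hπ hK hKG p hp
    obtain ⟨c, hc⟩ : ∃ c : NNReal, (c : ℝ) = max C 0 := ⟨⟨_, le_max_right _ _⟩, rfl⟩
    refine ⟨c • q, pb_smul_cont _ hq, fun v => ?_⟩
    rw [pb_smul, hc]
    exact h f hfK _ hB v
  exact ⟨⟨T, hT⟩, fun y => rfl⟩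

end

end Pool.Agent.Work.MP_dd0ddf_al.AR
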