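import Pool.Agent.Work.MP_dd0ddf_al.AR.RBDefs

/-!
# MP_dd0ddf_al, archimedean part, block R, module BPsh


Derivative bounds of translates.

PROOF. `T_g X = g X` (or `X g`) is a (continuous) real linear map with `‖T_g X‖ ≤ n ‖g‖ ‖X‖` (norm: maximum of the entries; `‖(gX)_ij‖ ≤ ∑_k ‖g_ik‖ ‖X_kj‖`).
`iteratedFDeriv ℝ m (f ∘ T_g) X = (iteratedFDeriv ℝ m f (T_g X)).compContinuousLinearMap (fun _ => T_g)`
(`ContinuousLinearMap.iteratedFDeriv_comp_right`), so its norm is `≤ ‖T_g‖^m B ≤ (max 1 (n L))^M B`.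
`DBd_exists`: every derivative is continuous and vanishes outside `K` (the function is zero on the open set `Kᶜ`), so it is bounded on the compact set `K`
(`IsCompact.exists_bound_of_continuousOn`); take the maximum (or sum) over `m ≤ M`.
-/

set_option linter.unusedSectionVars false

namespace Pool.Agent.Work.MP_dd0ddf_al.AR

open scoped SchwartzMap Matrix.Norms.Elementwise ComplexConjugate ContDiff Topology
open Matrix MeasureTheory Filter Asymptotics
open Pool.Agent.Work.MP_dd0ddf_al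

noncomputable section

variable {n : ℕ}

private theorem bpsh_norm_mul (g X : Mat n) : ‖g * X‖ ≤ (n : ℝ) * ‖g‖ * ‖X‖ := by
  have h0 : 0 ≤ (n : ℝ) * ‖g‖ * ‖X‖ := by positivity
  rw [Matrix.norm_le_iff h0]
  intro i j
  rw [Matrix.mul_apply]
  refine (norm_sum_le _ _).trans ?_
  have h1 : ∀ k ∈ (Finset.univ : Finset (Fin n)), ‖g i k * X k j‖ ≤ ‖g‖ * ‖X‖ := by
    intro k _
    rw [norm_mul]
    exact mul_le_mul (Matrix.norm_entry_le_entrywise_sup_norm g)
      (Matrix.norm_entry_le_entrywise_sup_norm X) (norm_nonneg _) (norm_nonneg _)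
  refine (Finset.sum_le_sum h1).trans ?_
  rw [Finset.sum_const, Finset.card_univ, Fintype.card_fin, nsmul_eq_mul, mul_assoc]

private theorem bpsh_gen {E : Type*} [NormedAddCommGroup E] [NormedSpace ℝ E] (T : E →ₗ[ℝ] E)
    {A : ℝ} (hA : 0 ≤ A) (hT : ∀ x, ‖T x‖ ≤ A * ‖x‖) {f : E → ℂ} (hf : ContDiff ℝ ∞ f) {M : ℕ}
    {B : ℝ} (hB : DBd M f B) : DBd M (fun x => f (T x)) ((max 1 A) ^ M * B) := by
  intro m hm x
  have hn : ‖T.mkContinuous A hT‖ ≤ A := T.mkContinuous_norm_le hA hT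
  have h0 := (T.mkContinuous A hT).iteratedFDeriv_comp_right hf x (i := m)
    (by exact_mod_cast le_top)
  have e : (fun x => f (T x)) = f ∘ (T.mkContinuous A hT) := rfl
  rw [e, h0]
  refine (ContinuousMultilinearMap.norm_compContinuousLinearMap_le _ _).trans ?_
  rw [Finset.prod_const, Finset.card_univ, Fintype.card_fin, mul_comm]
  have h1 : ‖T.mkContinuous A hT‖ ^ m ≤ (max 1 A) ^ m :=
    pow_le_pow_left₀ (norm_nonneg _) (hn.trans (le_max_right _ _)) m
  have h2 : (max 1 A) ^ m ≤ (max 1 A) ^ M := pow_le_pow_right₀ (le_max_left _ _) hm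
  exact mul_le_mul (h1.trans h2) (hB m hm _) (norm_nonneg _) (by positivity)

theorem DBd_left (n M : ℕ) (L : ℝ) : ∃ C : ℝ, 0 ≤ C ∧ ∀ g : Mat n, ‖g‖ ≤ L → ∀ f : Mat n → ℂ,
    ContDiff ℝ ∞ f → ∀ B : ℝ, DBd M f B → DBd M (fun X => f (g * X)) (C * B) := by
  refine ⟨(max 1 ((n : ℝ) * L)) ^ M, by positivity, fun g hg f hf B hB => ?_⟩
  have hL : 0 ≤ L := (norm_nonneg g).trans hg
  exact bpsh_gen (E := Mat n)
    { toFun := fun X => g * X
      map_add' := fun X Y => Matrix.mul_add g X Y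
      map_smul' := fun c X => Matrix.mul_smul g c X } (A := (n : ℝ) * L) (by positivity)
    (fun X => (bpsh_norm_mul g X).trans (mul_le_mul_of_nonneg_right
      (mul_le_mul_of_nonneg_left hg (Nat.cast_nonneg n)) (norm_nonneg X))) hf hB

theorem DBd_right (n M : ℕ) (L : ℝ) : ∃ C : ℝ, 0 ≤ C ∧ ∀ g : Mat n, ‖g‖ ≤ L → ∀ f : Mat n → ℂ,
    ContDiff ℝ ∞ f → ∀ B : ℝ, DBd M f B → DBd M (fun X => f (X * g)) (C * B) := by
  refine ⟨(max 1 ((n : ℝ) * L)) ^ M, by positivity, fun g hg f hf B hB => ?_⟩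
  have hL : 0 ≤ L := (norm_nonneg g).trans hg
  exact bpsh_gen (E := Mat n)
    { toFun := fun X => X * g
      map_add' := fun X Y => Matrix.add_mul X Y g
      map_smul' := fun c X => Matrix.smul_mul c X g } (A := (n : ℝ) * L) (by positivity)
    (fun X => (bpsh_norm_mul X g).trans (le_trans (le_of_eq (by ring))
      (mul_le_mul_of_nonneg_right (mul_le_mul_of_nonneg_left hg (Nat.cast_nonneg n))
        (norm_nonneg X)))) hf hB

theorem DBd_exists {K : Set (Mat n)} (hK : IsCompact K) {f : Mat n → ℂ} (hf : f ∈ TGK K)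
    (M : ℕ) : ∃ B : ℝ, DBd M f B := by
  have hc : HasCompactSupport f := HasCompactSupport.intro hK hf.2
  have h : ∀ m : ℕ, ∃ C : ℝ, ∀ x, ‖iteratedFDeriv ℝ m f x‖ ≤ C := by
    intro m
    have h1 : Continuous (iteratedFDeriv ℝ m f) :=
      hf.1.continuous_iteratedFDeriv (by exact_mod_cast le_top)
    exact h1.bounded_above_of_compact_support (hc.iteratedFDeriv m)
  choose C hC using h
  refine ⟨∑ m ∈ Finset.range (M + 1), |C m|, fun m hm x => ?_⟩
  refine ((hC m x).trans (le_abs_self _)).trans ?_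
  exact Finset.single_le_sum (f := fun m => |C m|) (fun i _ => abs_nonneg _)
    (Finset.mem_range.mpr (Nat.lt_succ_of_le hm))

end

end Pool.Agent.Work.MP_dd0ddf_al.AR
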