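import Pool.Agent.Work.MP_dd0ddf_al.AR.BJac
import Pool.Agent.Work.MP_dd0ddf_al.AR.BPsh
import Pool.Agent.Work.MP_dd0ddf_al.AR.BPb
import Pool.Agent.Work.MP_dd0ddf_al.AR.BKav
import Pool.Agent.Work.MP_dd0ddf_al.AR.BKf

/-!
# MP_dd0ddf_al, archimedean part, block R, module BKey


The key estimate: `π(f) y_D` decreases rapidly if `y_D` is killed by the functionals of `K`-degree `≤ D`.

PROOF. `S` = the set of `g` with `k g ∈ K` for some `k ∈ KU n` = image of `KU n × cpt_pre K` under `(k, g) ↦ k⁻¹ g`, compact; `vol(S) < ∞`; `‖g‖ + ‖g⁻¹‖ ≤ L` on `S`, `L ≥ 0`.  `hπ.growth` for `p`: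
`N, q0`; `exists_KInv` for `q0`: `q`.  `hy.pol q`: `q(y_D) ≤ C3 (1+D)^M3` (we may enlarge `C3` to be `≥ 0`).
`r` such that `f(X g) = 0` for `f ∈ TGK K`, `g ∈ S`, `‖X‖ > r` (`X = (X g) g⁻¹`, `X g ∈ K` bounded, `‖A B‖ ≤ n ‖A‖ ‖B‖`).  `jackson n r (R + M3)`: `C2, M`.  `DBd_right n M L`: `C1`.
Let `f ∈ TGK K`, `DBd M f B`, `D`, and `l` with `|l v| ≤ p v`.  By `piF_spec`, `K_avg`:
`l(piF π f y_D) = ∫ I(g) dg`, `I(g) = ∫_K f(k g) l(π(g⁻¹) π(k⁻¹) y_D) dk`.  If `g ∉ S`: `I(g) = 0`.  If `g ∈ S`: `F(X) = f(X g)` satisfies `DBd M F (C1 B)`; `φ ∈ PK n D` from `jackson`: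
`|f(k g) - φ(k)| ≤ C2 C1 B (1+D)^(-(R+M3))`.  By `K_functional` for `φ` and `l ∘ π(g⁻¹)` (`l.comp (π g⁻¹)`): `∫_K φ(k) l(π(g⁻¹) π(k⁻¹) y_D) dk = l'(y_D) = 0`, `l' ∈ Yd π D`
(`hy.kill`).  So `|I(g)| = |∫_K (f(k g) - φ(k)) l(..)| ≤ C2 C1 B (1+D)^(-(R+M3)) L^N q(y_D)`
(`|l(π(g⁻¹) v)| ≤ p(π(g⁻¹)v) ≤ L^N q(v)`, `q(π(k⁻¹)y) = q(y)`) `≤ C2 C1 B L^N C3 (1+D)^(-R)`.  Integrate over `S`, then `seminorm_le`.
-/

set_option linter.unusedSectionVars false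

namespace Pool.Agent.Work.MP_dd0ddf_al.AR

open scoped SchwartzMap Matrix.Norms.Elementwise ComplexConjugate ContDiff Topology
open Matrix MeasureTheory Filter Asymptotics
open Pool.Agent.Work.MP_dd0ddf_al

noncomputable section

variable {n : ℕ} {P : Type*} [AddCommGroup P] [Module ℂ P] [UniformSpace P] [IsUniformAddGroup P]
  [ContinuousSMul ℂ P] [PolynormableSpace ℂ P] [T2Space P] [CompleteSpace P]
  [FirstCountableTopology P]

private theorem bk_norm_mul (A B : Mat n) : ‖A * B‖ ≤ n * ‖A‖ * ‖B‖ := by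
  rw [Matrix.norm_le_iff (by positivity)]
  intro i j
  rw [Matrix.mul_apply]
  refine (norm_sum_le _ _).trans ?_
  have h1 : ∀ k ∈ Finset.univ, ‖A i k * B k j‖ ≤ ‖A‖ * ‖B‖ := by
    intro k _
    rw [norm_mul]
    exact mul_le_mul (Matrix.norm_entry_le_entrywise_sup_norm A)
      (Matrix.norm_entry_le_entrywise_sup_norm B) (norm_nonneg _) (norm_nonneg _)
  refine (Finset.sum_le_sum h1).trans (le_of_eq ?_)
  rw [Finset.sum_const, Finset.card_univ, Fintype.card_fin, nsmul_eq_mul, mul_assoc]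

theorem nul_bound (π : GLn n →* (P →L[ℂ] P)) (hπ : IsCW π) {y : ℕ → P} (hy : Nul π y)
    {K : Set (Mat n)} (hK : IsCompact K) (hKG : K ⊆ GLs n) (p : Seminorm ℂ P)
    (hp : Continuous p) (R : ℕ) : ∃ (C : ℝ) (M : ℕ), 0 ≤ C ∧ ∀ f ∈ TGK K, ∀ B : ℝ, DBd M f B →
      ∀ D : ℕ, p (piF π f (y D)) ≤ C * B * ((1 + (D : ℝ)) ^ R)⁻¹ := by
  obtain ⟨S, hScpt, hS⟩ : ∃ S : Set (GLn n), IsCompact S ∧ ∀ (g : GLn n) (k : KU n),
      ((k : GLn n) : Mat n) * (g : Mat n) ∈ K → g ∈ S := by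
    refine ⟨(fun x : KU n × GLn n => (x.1 : GLn n)⁻¹ * x.2) ''
      (Set.univ ×ˢ {g : GLn n | (g : Mat n) ∈ K}), ?_, ?_⟩
    · refine (isCompact_univ.prod (cpt_pre hK hKG)).image ?_
      exact (continuous_subtype_val.comp continuous_fst).inv.mul continuous_snd
    · intro g k hk
      refine ⟨(k, (k : GLn n) * g), ⟨Set.mem_univ _, ?_⟩, ?_⟩
      · show (((k : GLn n) * g : GLn n) : Mat n) ∈ K
        rw [Units.val_mul]
        exact hk
      · show (k : GLn n)⁻¹ * ((k : GLn n) * g) = g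
        rw [inv_mul_cancel_left]
  obtain ⟨L, hL0, hL⟩ : ∃ L : ℝ, 0 ≤ L ∧ ∀ g ∈ S,
      ‖(g : Mat n)‖ + ‖((g⁻¹ : GLn n) : Mat n)‖ ≤ L := by
    have hc0 : Continuous fun g : GLn n => (g : Mat n) := Units.continuous_val
    have hc1 : Continuous fun g : GLn n => ((g⁻¹ : GLn n) : Mat n) :=
      Units.continuous_val.comp continuous_inv
    have hc : Continuous fun g : GLn n => ‖(g : Mat n)‖ + ‖((g⁻¹ : GLn n) : Mat n)‖ :=
      (continuous_norm.comp hc0).add (continuous_norm.comp hc1)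
    obtain ⟨L, hL⟩ := hScpt.bddAbove_image hc.continuousOn
    exact ⟨max L 0, le_max_right _ _, fun g hg => (hL ⟨g, hg, rfl⟩).trans (le_max_left _ _)⟩
  obtain ⟨N, q0, hq0, hgr⟩ := hπ.growth p hp
  obtain ⟨q, hq, hqK, hq0q⟩ := exists_KInv π hπ q0 hq0
  obtain ⟨C3, M3, hC30, hC3⟩ : ∃ (C3 : ℝ) (M3 : ℕ), 0 ≤ C3 ∧ ∀ D : ℕ,
      q (y D) ≤ C3 * (1 + (D : ℝ)) ^ M3 := by
    obtain ⟨C3, M3, hC3⟩ := hy.pol q hq hqK
    refine ⟨max C3 0, M3, le_max_right _ _, fun D => (hC3 D).trans ?_⟩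
    exact mul_le_mul_of_nonneg_right (le_max_left _ _) (by positivity)
  obtain ⟨r0, hr00, hr0⟩ : ∃ r0 : ℝ, 0 ≤ r0 ∧ ∀ X ∈ K, ‖X‖ ≤ r0 := by
    obtain ⟨r0, hr0⟩ := isBounded_iff_forall_norm_le.1 hK.isBounded
    exact ⟨max r0 0, le_max_right _ _, fun X hX => (hr0 X hX).trans (le_max_left _ _)⟩
  have hr : ∀ f ∈ TGK K, ∀ g ∈ S, ∀ X : Mat n, n * r0 * L < ‖X‖ → f (X * (g : Mat n)) = 0 := by
    intro f hf g hg X hX
    apply hf.2
    intro hXg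
    have h1 : X = (X * (g : Mat n)) * ((g⁻¹ : GLn n) : Mat n) := by
      rw [Matrix.mul_assoc, ← Units.val_mul, mul_inv_cancel, Units.val_one, Matrix.mul_one]
    have h2 : ‖X‖ ≤ n * ‖X * (g : Mat n)‖ * ‖((g⁻¹ : GLn n) : Mat n)‖ := by
      conv_lhs => rw [h1]
      exact bk_norm_mul _ _
    have h3 : ‖((g⁻¹ : GLn n) : Mat n)‖ ≤ L := by
      have := hL g hg
      have h4 := norm_nonneg (g : Mat n)
      linarith
    have h4 : (n : ℝ) * ‖X * (g : Mat n)‖ * ‖((g⁻¹ : GLn n) : Mat n)‖ ≤ n * r0 * L :=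
      mul_le_mul (mul_le_mul_of_nonneg_left (hr0 _ hXg) (Nat.cast_nonneg _)) h3
        (norm_nonneg _) (by positivity)
    linarith
  obtain ⟨C2, M, hC2, hjac⟩ := jackson n (n * r0 * L) (R + M3)
  obtain ⟨C1, hC1, hDB⟩ := DBd_right n M L
  refine ⟨(CW.hG n).real S * (C2 * C1 * L ^ N * C3), M, by positivity, ?_⟩
  intro f hf B hB D
  have hf' : f ∈ TGs (GLs n) := ⟨K, hK, hKG, hf⟩
  have hB0 : 0 ≤ B := hB.nonneg
  refine seminorm_le p hp _ _ ?_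
  intro l hl
  rw [piF_spec π hπ hf', K_avg π hπ hf']
  obtain ⟨I, hI⟩ : ∃ I : GLn n → ℂ, I = fun g : GLn n => ∫ k : KU n,
      f (((k : GLn n) : Mat n) * (g : Mat n)) *
        l (π g⁻¹ (π ((k : GLn n)⁻¹) (y D))) ∂(muK n) := ⟨_, rfl⟩
  have hI0 : ∀ g, g ∉ S → I g = 0 := by
    intro g hg
    rw [hI]
    have h1 : ∀ k : KU n, f (((k : GLn n) : Mat n) * (g : Mat n)) *
        l (π g⁻¹ (π ((k : GLn n)⁻¹) (y D))) = 0 := fun k => by
      rw [hf.2 _ (fun h => hg (hS g k h)), zero_mul]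
    simp only [h1, integral_zero]
  have hfc : Continuous f := hf.1.continuous
  have hIn : ∀ {u : KU n → ℂ}, Continuous u → Integrable u (muK n) := by
    intro u hu
    exact hu.integrable_of_hasCompactSupport (HasCompactSupport.of_compactSpace u)
  have hI1 : ∀ g ∈ S, ‖I g‖ ≤ C2 * C1 * L ^ N * C3 * B * ((1 + (D : ℝ)) ^ R)⁻¹ := by
    intro g hg
    have hgL : ‖(g : Mat n)‖ ≤ L := by
      have := hL g hg
      have h4 := norm_nonneg ((g⁻¹ : GLn n) : Mat n)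
      linarith
    have hFc : ContDiff ℝ ∞ (fun X : Mat n => f (X * (g : Mat n))) := by
      obtain ⟨K', -, -, h⟩ := TGs_right hf' g
      exact h.1
    obtain ⟨φ, hφ, hφb⟩ := hjac _ hFc (hr f hf g hg) (C1 * B) (hDB _ hgL f hf.1 B hB) D
    obtain ⟨l', hl', hl'e⟩ := K_functional π hπ hφ (l.comp (π g⁻¹))
    have hkill := hy.kill D l' hl'
    rw [hl'e] at hkill
    have hlc : Continuous fun k : KU n => l (π g⁻¹ (π ((k : GLn n)⁻¹) (y D))) := by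
      have h1 : Continuous fun k : KU n => π ((k : GLn n)⁻¹) (y D) :=
        hπ.cont.comp ((continuous_subtype_val.inv).prodMk continuous_const)
      exact l.continuous.comp ((π g⁻¹).continuous.comp h1)
    have hc1 : Continuous fun k : KU n => f (((k : GLn n) : Mat n) * (g : Mat n)) :=
      hfc.comp (continuous_coeK.matrix_mul continuous_const)
    have hI2 : I g = ∫ k : KU n, (f (((k : GLn n) : Mat n) * (g : Mat n)) - φ k) *
        l (π g⁻¹ (π ((k : GLn n)⁻¹) (y D))) ∂(muK n) := by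
      have h1 : ∀ k : KU n, (f (((k : GLn n) : Mat n) * (g : Mat n)) - φ k) *
          l (π g⁻¹ (π ((k : GLn n)⁻¹) (y D))) = f (((k : GLn n) : Mat n) * (g : Mat n)) *
            l (π g⁻¹ (π ((k : GLn n)⁻¹) (y D))) -
            φ k * l (π g⁻¹ (π ((k : GLn n)⁻¹) (y D))) := fun k => sub_mul _ _ _
      simp only [h1]
      have h2 : ∫ k : KU n, φ k * l (π g⁻¹ (π ((k : GLn n)⁻¹) (y D))) ∂(muK n) = 0 := hkill
      have h3 : ∫ k : KU n, (f (((k : GLn n) : Mat n) * (g : Mat n)) *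
            l (π g⁻¹ (π ((k : GLn n)⁻¹) (y D))) -
            φ k * l (π g⁻¹ (π ((k : GLn n)⁻¹) (y D)))) ∂(muK n) =
          ∫ k : KU n, f (((k : GLn n) : Mat n) * (g : Mat n)) *
            l (π g⁻¹ (π ((k : GLn n)⁻¹) (y D))) ∂(muK n) -
          ∫ k : KU n, φ k * l (π g⁻¹ (π ((k : GLn n)⁻¹) (y D))) ∂(muK n) :=
        integral_sub (hIn (hc1.mul hlc)) (hIn ((PK_cont hφ).mul hlc))
      rw [h3, h2, sub_zero, hI]
    rw [hI2]
    have hb : ∀ k : KU n, ‖(f (((k : GLn n) : Mat n) * (g : Mat n)) - φ k) *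
        l (π g⁻¹ (π ((k : GLn n)⁻¹) (y D)))‖ ≤
        C2 * C1 * L ^ N * C3 * B * ((1 + (D : ℝ)) ^ R)⁻¹ := by
      intro k
      have h1 : ‖l (π g⁻¹ (π ((k : GLn n)⁻¹) (y D)))‖ ≤ L ^ N * (C3 * (1 + (D : ℝ)) ^ M3) := by
        refine (hl _).trans ((hgr _ _).trans ?_)
        have h2 : q0 (π ((k : GLn n)⁻¹) (y D)) ≤ C3 * (1 + (D : ℝ)) ^ M3 := by
          refine (hq0q _).trans ?_
          have h3 : q (π ((k : GLn n)⁻¹) (y D)) = q (y D) := hqK k⁻¹ (y D)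
          rw [h3]
          exact hC3 D
        have h3 : ‖((g⁻¹ : GLn n) : Mat n)‖ + ‖((g⁻¹⁻¹ : GLn n) : Mat n)‖ ≤ L := by
          rw [inv_inv, add_comm]
          exact hL g hg
        exact mul_le_mul (pow_le_pow_left₀ (by positivity) h3 N) h2 (apply_nonneg q0 _)
          (by positivity)
      have h2 : ‖f (((k : GLn n) : Mat n) * (g : Mat n)) - φ k‖ ≤
          C2 * (C1 * B) * ((1 + (D : ℝ)) ^ (R + M3))⁻¹ := hφb k
      rw [norm_mul]
      refine (mul_le_mul h2 h1 (norm_nonneg _) (by positivity)).trans (le_of_eq ?_)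
      rw [pow_add, mul_inv]
      have h3 : (1 + (D : ℝ)) ^ M3 ≠ 0 := by positivity
      field_simp
    have h3 := norm_integral_le_of_norm_le_const (μ := muK n) (Eventually.of_forall hb)
    simpa using h3
  have h2 : ∫ g : GLn n, (∫ k : KU n, f (((k : GLn n) : Mat n) * (g : Mat n)) *
        l (π g⁻¹ (π ((k : GLn n)⁻¹) (y D))) ∂(muK n)) ∂(CW.hG n) =
      ∫ g in S, I g ∂(CW.hG n) := by
    rw [setIntegral_eq_integral_of_forall_compl_eq_zero hI0, hI]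
  rw [h2]
  refine (norm_setIntegral_le_of_norm_le_const hScpt.measure_lt_top hI1).trans (le_of_eq ?_)
  ring

end

end Pool.Agent.Work.MP_dd0ddf_al.AR
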