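import Pool.Agent.Work.MP_dd0ddf_al.AR.BKey
import Pool.Agent.Work.MP_dd0ddf_al.AR.BNul

/-!
# MP_dd0ddf_al, archimedean part, block R, module BLim


The limit `A f = lim π(f) x_D`.

PROOF. `unif_bound`: `nul_bound` for `y_D = x_(D+1) - x_D` (`nul_diff`) with `R = 2`: `p(piF f x_(D+1) - piF f x_D) ≤ C1 B (1+D)^(-2)` (`piF_suby`); `piF_bound` for `x_0`:
`p(piF f x_0) ≤ B q(x_0)`.  So `p(piF f x_D) ≤ B q(x_0) + C1 B ∑_(j<D) (1+j)^(-2) ≤ C B` (`Real.summable_one_div_nat_pow` or telescoping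
`(1+j)^(-2) ≤ 2(1/(1+j) - 1/(2+j))`, so the sum is `≤ 2`).
`exists_lim`: for `f ∈ TGs (GLs n)` (`DBd_exists`) the sequence `piF π f (x D)` is Cauchy: for every continuous seminorm `p` and `D ≤ D'`:
`p(piF f x_D' - piF f x_D) ≤ 2 C1 B/(1+D)` (telescoping as above); use `nhds_seminorm` to see that it is a Cauchy sequence
(`cauchySeq_iff..`/`cauchySeq_of..` with `uniformity_eq_comap_nhds_zero`), and `P` is complete: limit `A0 f`.  `A0` is linear on the submodule `TGm n` (`piF_addf`,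
`piF_smulf`, uniqueness of limits, `T2Space`); extend it to all functions with `LinearMap.exists_extend`.
`cont`: for `U ∈ 𝓝 0` choose `p, ε` (`nhds_seminorm`), `C, M` from `unif_bound`, `δ = ε/(C+1)`; `p(A f) ≤ C δ < ε` by continuity of `p` and `le_of_tendsto`.
-/

set_option linter.unusedSectionVars false

namespace Pool.Agent.Work.MP_dd0ddf_al.AR

open scoped SchwartzMap Matrix.Norms.Elementwise ComplexConjugate ContDiff Topology
open Matrix MeasureTheory Filter Asymptotics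
open Pool.Agent.Work.MP_dd0ddf_al

noncomputable section

variable {n : ℕ} {P : Type*} [AddCommGroup P] [Module ℂ P] [UniformSpace P] [IsUniformAddGroup P]
  [ContinuousSMul ℂ P] [PolynormableSpace ℂ P] [T2Space P] [CompleteSpace P]
  [FirstCountableTopology P]

private theorem blim_step (π : GLn n →* (P →L[ℂ] P)) (hπ : IsCW π)
    {u : (P →L[ℂ] ℂ) →ₗ[ℂ] ℂ}
    {x : ℕ → P} (hx : XD π u x) {K : Set (Mat n)} (hK : IsCompact K) (hKG : K ⊆ GLs n)
    (p : Seminorm ℂ P) (hp : Continuous p) : ∃ (C : ℝ) (M : ℕ), 0 ≤ C ∧ ∀ f ∈ TGK K, ∀ B : ℝ,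
      DBd M f B → ∀ D k : ℕ, p (piF π f (x (D + k)) - piF π f (x D)) ≤
        C * B * (2 / (1 + (D : ℝ)) - 2 / (1 + (D : ℝ) + k)) := by
  obtain ⟨C1, M, hC1, h1⟩ := nul_bound π hπ (nul_diff π hx) hK hKG p hp 2
  refine ⟨C1, M, hC1, fun f hf B hB D k => ?_⟩
  have hfs : f ∈ TGs (GLs n) := ⟨K, hK, hKG, hf⟩
  have hB0 : 0 ≤ B := hB.nonneg
  induction k with
  | zero =>
    simp
  | succ k ih =>
    have h2 := h1 f hf B hB (D + k)
    have e : piF π f (x (D + (k + 1))) - piF π f (x D) =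
        piF π f (x (D + k + 1) - x (D + k)) + (piF π f (x (D + k)) - piF π f (x D)) := by
      rw [piF_suby π hπ hfs, ← add_assoc D k 1]
      abel
    rw [e]
    refine (map_add_le_add p _ _).trans ((add_le_add h2 ih).trans ?_)
    have h3 : (((1 : ℝ) + ((D + k : ℕ) : ℝ)) ^ 2)⁻¹ ≤
        2 / (1 + (D : ℝ) + k) - 2 / (1 + (D : ℝ) + (k + 1 : ℕ)) := by
      push_cast
      have hD : (0 : ℝ) ≤ D := Nat.cast_nonneg D
      have hk : (0 : ℝ) ≤ k := Nat.cast_nonneg k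
      set t : ℝ := 1 + (D : ℝ) + k with ht
      have ht1 : 1 ≤ t := by rw [ht]; linarith
      have e1 : (1 : ℝ) + ((D : ℝ) + k) = t := by rw [ht]; ring
      have e2 : (1 : ℝ) + (D : ℝ) + ((k : ℝ) + 1) = t + 1 := by rw [ht]; ring
      rw [e1, e2, div_sub_div _ _ (by positivity) (by positivity), inv_eq_one_div,
        div_le_div_iff₀ (by positivity) (by positivity)]
      nlinarith
    calc C1 * B * (((1 : ℝ) + ((D + k : ℕ) : ℝ)) ^ 2)⁻¹ +
          C1 * B * (2 / (1 + (D : ℝ)) - 2 / (1 + (D : ℝ) + k))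
        ≤ C1 * B * (2 / (1 + (D : ℝ) + k) - 2 / (1 + (D : ℝ) + (k + 1 : ℕ))) +
          C1 * B * (2 / (1 + (D : ℝ)) - 2 / (1 + (D : ℝ) + k)) := by
          gcongr
      _ = C1 * B * (2 / (1 + (D : ℝ)) - 2 / (1 + (D : ℝ) + (k + 1 : ℕ))) := by ring

theorem unif_bound (π : GLn n →* (P →L[ℂ] P)) (hπ : IsCW π) {u : (P →L[ℂ] ℂ) →ₗ[ℂ] ℂ}
    {x : ℕ → P} (hx : XD π u x) {K : Set (Mat n)} (hK : IsCompact K) (hKG : K ⊆ GLs n)
    (p : Seminorm ℂ P) (hp : Continuous p) : ∃ (C : ℝ) (M : ℕ), 0 ≤ C ∧ ∀ f ∈ TGK K, ∀ B : ℝ,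
      DBd M f B → ∀ D : ℕ, p (piF π f (x D)) ≤ C * B := by
  obtain ⟨C1, M, hC1, h1⟩ := blim_step π hπ hx hK hKG p hp
  obtain ⟨q, hq, hqK, h2⟩ := piF_bound π hπ hK hKG p hp
  refine ⟨q (x 0) + C1 * 2, M, by positivity, fun f hf B hB D => ?_⟩
  have hB0 : 0 ≤ B := hB.nonneg
  have h3 := h1 f hf B hB 0 D
  have h4 := h2 f hf B hB.norm_le (x 0)
  rw [zero_add] at h3
  have h5 : (2 : ℝ) / (1 + ((0 : ℕ) : ℝ)) - 2 / (1 + ((0 : ℕ) : ℝ) + D) ≤ 2 := by
    have : (0 : ℝ) ≤ 2 / (1 + ((0 : ℕ) : ℝ) + D) := by positivity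
    simp only [Nat.cast_zero, add_zero, div_one] at this ⊢
    linarith
  have e : piF π f (x D) = (piF π f (x D) - piF π f (x 0)) + piF π f (x 0) := by abel
  rw [e]
  refine (map_add_le_add p _ _).trans ((add_le_add h3 h4).trans ?_)
  calc C1 * B * (2 / (1 + ((0 : ℕ) : ℝ)) - 2 / (1 + ((0 : ℕ) : ℝ) + D)) + B * q (x 0)
      ≤ C1 * B * 2 + B * q (x 0) := by gcongr
    _ = (q (x 0) + C1 * 2) * B := by ring

theorem exists_lim (π : GLn n →* (P →L[ℂ] P)) (hπ : IsCW π) {u : (P →L[ℂ] ℂ) →ₗ[ℂ] ℂ}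
    {x : ℕ → P} (hx : XD π u x) : ∃ A : (Mat n → ℂ) →ₗ[ℂ] P,
      (∀ f ∈ TGs (GLs n), Tendsto (fun D => piF π f (x D)) atTop (𝓝 (A f))) ∧ ContTG A := by
  have hlim : ∀ f : TGm n, ∃ a, Tendsto (fun D => piF π f.1 (x D)) atTop (𝓝 a) := by
    rintro ⟨f, hfs⟩
    have hfs' : f ∈ TGs (GLs n) := hfs
    obtain ⟨K, hK, hKG, hf⟩ := hfs'
    refine cauchySeq_tendsto_of_complete (cauchySeq_iff.2 fun V hV => ?_)
    rw [uniformity_eq_comap_nhds_zero P] at hV
    obtain ⟨U, hU, hUV⟩ := hV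
    obtain ⟨p, hp, r, hr, hpr⟩ := nhds_seminorm hU
    obtain ⟨C1, M, hC1, h1⟩ := blim_step π hπ hx hK hKG p hp
    obtain ⟨B, hB⟩ := DBd_exists hK hf M
    have hB0 : 0 ≤ B := hB.nonneg
    obtain ⟨N, hN⟩ := exists_nat_gt (C1 * B * 4 / r)
    have h2 : ∀ k, p (piF π f (x (N + k)) - piF π f (x N)) < r / 2 := by
      intro k
      refine (h1 f hf B hB N k).trans_lt ?_
      have h3 : (0 : ℝ) ≤ 2 / (1 + (N : ℝ) + k) := by positivity
      have h4 : C1 * B * (2 / (1 + (N : ℝ)) - 2 / (1 + (N : ℝ) + k)) ≤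
          C1 * B * (2 / (1 + (N : ℝ))) := by
        gcongr
        linarith
      refine h4.trans_lt ?_
      rw [div_lt_iff₀ hr] at hN
      rw [mul_div_assoc', div_lt_iff₀ (by positivity)]
      nlinarith
    refine ⟨N, fun k hk l hl => hUV (hpr _ ?_)⟩
    obtain ⟨k', rfl⟩ := Nat.exists_eq_add_of_le hk
    obtain ⟨l', rfl⟩ := Nat.exists_eq_add_of_le hl
    have e : piF π f (x (N + l')) - piF π f (x (N + k')) =
        (piF π f (x (N + l')) - piF π f (x N)) - (piF π f (x (N + k')) - piF π f (x N)) := by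
      abel
    show p (piF π f (x (N + l')) - piF π f (x (N + k'))) < r
    rw [e]
    refine (map_sub_le_add p _ _).trans_lt ?_
    linarith [h2 k', h2 l']
  choose A0 hA0 using hlim
  let A1 : TGm n →ₗ[ℂ] P :=
    { toFun := A0
      map_add' := by
        intro f g
        refine tendsto_nhds_unique (hA0 (f + g)) ?_
        have h := (hA0 f).add (hA0 g)
        refine h.congr fun D => ?_
        exact (piF_addf π hπ f.2 g.2 (x D)).symm
      map_smul' := by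
        intro c f
        refine tendsto_nhds_unique (hA0 (c • f)) ?_
        have h := (hA0 f).const_smul c
        refine h.congr fun D => ?_
        exact (piF_smulf π hπ c f.2 (x D)).symm }
  obtain ⟨A, hA⟩ := LinearMap.exists_extend A1
  have hA' : ∀ f ∈ TGs (GLs n), Tendsto (fun D => piF π f (x D)) atTop (𝓝 (A f)) := by
    intro f hf
    have h1 : A f = A0 ⟨f, hf⟩ := by
      have := LinearMap.congr_fun hA ⟨f, hf⟩
      exact this
    rw [h1]
    exact hA0 ⟨f, hf⟩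
  refine ⟨A, hA', ?_⟩
  intro K hK hKG U hU
  obtain ⟨p, hp, r, hr, hpr⟩ := nhds_seminorm hU
  obtain ⟨C, M, hC, h1⟩ := unif_bound π hπ hx hK hKG p hp
  refine ⟨r / (C + 1), M, by positivity, fun f hf hB => hpr _ ?_⟩
  have h2 : ∀ D, p (piF π f (x D)) ≤ C * (r / (C + 1)) := h1 f hf _ hB
  have h3 := ((hp.tendsto _).comp (hA' f ⟨K, hK, hKG, hf⟩))
  have h4 : p (A f) ≤ C * (r / (C + 1)) := le_of_tendsto h3 (Eventually.of_forall h2)
  refine h4.trans_lt ?_
  rw [mul_div_assoc', div_lt_iff₀ (by positivity)]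
  nlinarith

end

end Pool.Agent.Work.MP_dd0ddf_al.AR
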