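import Pool.Agent.Work.MP_dd0ddf_al.AR.BCs
import Pool.Agent.Work.MP_dd0ddf_al.AR.KWI
import Pool.Agent.Work.MP_dd0ddf_al.AR.KHB

/-!
# MP_dd0ddf_al, archimedean part, block R, module BPi


The vectors `π(f) y = ∫ f(g) π(g⁻¹) y dg`: existence, linearity.

PROOF. `exists_isPi`: `weak_integral` for `Z = GLn n`, `μ = CW.hG n`, `φ g = f(g) • π(g⁻¹) y`: continuous (`TG_cs`, `hπ.cont`, continuity of the
inverse), compact support (`HasCompactSupport.smul_right`); `l (c • x) = c * l x`.  `piF_spec`: `Exists.choose_spec`.  The others: `ext_functional` and linearity of the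
integral; the integrands are continuous with compact support, hence integrable.
-/

set_option linter.unusedSectionVars false

namespace Pool.Agent.Work.MP_dd0ddf_al.AR

open scoped SchwartzMap Matrix.Norms.Elementwise ComplexConjugate ContDiff Topology
open Matrix MeasureTheory Filter Asymptotics
open Pool.Agent.Work.MP_dd0ddf_al

noncomputable section

variable {n : ℕ} {P : Type*} [AddCommGroup P] [Module ℂ P] [UniformSpace P] [IsUniformAddGroup P]
  [ContinuousSMul ℂ P] [PolynormableSpace ℂ P] [T2Space P] [CompleteSpace P]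
  [FirstCountableTopology P]

private theorem bpi_cont (π : GLn n →* (P →L[ℂ] P)) (hπ : IsCW π) (y : P) :
    Continuous fun g : GLn n => π g⁻¹ y :=
  hπ.cont.comp (continuous_inv.prodMk continuous_const)

theorem exists_isPi (π : GLn n →* (P →L[ℂ] P)) (hπ : IsCW π) {f : Mat n → ℂ}
    (hf : f ∈ TGs (GLs n)) (y : P) : ∃ x, IsPi π f y x := by
  obtain ⟨h1, h2⟩ := TG_cs hf
  obtain ⟨x, hx⟩ := weak_integral (P := P) (CW.hG n) (fun g : GLn n => f (g : Mat n) • π g⁻¹ y)
    (h1.smul (bpi_cont π hπ y)) h2.smul_right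
  refine ⟨x, fun l => ?_⟩
  rw [hx l]
  refine integral_congr_ae (Filter.Eventually.of_forall fun g => ?_)
  show l (f (g : Mat n) • π g⁻¹ y) = f (g : Mat n) * l (π g⁻¹ y)
  rw [map_smul, smul_eq_mul]

theorem piF_spec (π : GLn n →* (P →L[ℂ] P)) (hπ : IsCW π) {f : Mat n → ℂ}
    (hf : f ∈ TGs (GLs n)) (y : P) (l : P →L[ℂ] ℂ) :
    l (piF π f y) = ∫ g : GLn n, f (g : Mat n) * l (π g⁻¹ y) ∂(CW.hG n) := by
  have h := exists_isPi π hπ hf y
  unfold piF
  rw [dif_pos h]
  exact h.choose_spec l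

theorem piF_intble (π : GLn n →* (P →L[ℂ] P)) (hπ : IsCW π) {f : Mat n → ℂ}
    (hf : f ∈ TGs (GLs n)) (y : P) (l : P →L[ℂ] ℂ) :
    Integrable (fun g : GLn n => f (g : Mat n) * l (π g⁻¹ y)) (CW.hG n) := by
  obtain ⟨h1, h2⟩ := TG_cs hf
  exact (h1.mul (l.continuous.comp (bpi_cont π hπ y))).integrable_of_hasCompactSupport
    h2.mul_right

theorem piF_addf (π : GLn n →* (P →L[ℂ] P)) (hπ : IsCW π) {f f' : Mat n → ℂ}
    (hf : f ∈ TGs (GLs n)) (hf' : f' ∈ TGs (GLs n)) (y : P) :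
    piF π (f + f') y = piF π f y + piF π f' y := by
  have hff : f + f' ∈ TGs (GLs n) := (TGm n).add_mem hf hf'
  refine ext_functional fun l => ?_
  rw [map_add, piF_spec π hπ hff, piF_spec π hπ hf, piF_spec π hπ hf',
    ← integral_add (piF_intble π hπ hf y l) (piF_intble π hπ hf' y l)]
  refine integral_congr_ae (Filter.Eventually.of_forall fun g => ?_)
  show (f + f') (g : Mat n) * l (π g⁻¹ y) =
    f (g : Mat n) * l (π g⁻¹ y) + f' (g : Mat n) * l (π g⁻¹ y)
  rw [Pi.add_apply, add_mul]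

theorem piF_smulf (π : GLn n →* (P →L[ℂ] P)) (hπ : IsCW π) (c : ℂ) {f : Mat n → ℂ}
    (hf : f ∈ TGs (GLs n)) (y : P) : piF π (c • f) y = c • piF π f y := by
  have hcf : c • f ∈ TGs (GLs n) := (TGm n).smul_mem c hf
  refine ext_functional fun l => ?_
  rw [map_smul, smul_eq_mul, piF_spec π hπ hcf, piF_spec π hπ hf, ← integral_const_mul]
  refine integral_congr_ae (Filter.Eventually.of_forall fun g => ?_)
  show (c • f) (g : Mat n) * l (π g⁻¹ y) = c * (f (g : Mat n) * l (π g⁻¹ y))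
  rw [Pi.smul_apply, smul_eq_mul, mul_assoc]

theorem piF_addy (π : GLn n →* (P →L[ℂ] P)) (hπ : IsCW π) {f : Mat n → ℂ}
    (hf : f ∈ TGs (GLs n)) (y y' : P) : piF π f (y + y') = piF π f y + piF π f y' := by
  refine ext_functional fun l => ?_
  rw [map_add, piF_spec π hπ hf, piF_spec π hπ hf, piF_spec π hπ hf,
    ← integral_add (piF_intble π hπ hf y l) (piF_intble π hπ hf y' l)]
  refine integral_congr_ae (Filter.Eventually.of_forall fun g => ?_)
  show f (g : Mat n) * l (π g⁻¹ (y + y')) =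
    f (g : Mat n) * l (π g⁻¹ y) + f (g : Mat n) * l (π g⁻¹ y')
  rw [map_add, map_add, mul_add]

theorem piF_smuly (π : GLn n →* (P →L[ℂ] P)) (hπ : IsCW π) (c : ℂ) {f : Mat n → ℂ}
    (hf : f ∈ TGs (GLs n)) (y : P) : piF π f (c • y) = c • piF π f y := by
  refine ext_functional fun l => ?_
  rw [map_smul, smul_eq_mul, piF_spec π hπ hf, piF_spec π hπ hf, ← integral_const_mul]
  refine integral_congr_ae (Filter.Eventually.of_forall fun g => ?_)
  show f (g : Mat n) * l (π g⁻¹ (c • y)) = c * (f (g : Mat n) * l (π g⁻¹ y))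
  rw [map_smul, map_smul, smul_eq_mul]
  ring

theorem piF_suby (π : GLn n →* (P →L[ℂ] P)) (hπ : IsCW π) {f : Mat n → ℂ}
    (hf : f ∈ TGs (GLs n)) (y y' : P) : piF π f (y - y') = piF π f y - piF π f y' := by
  rw [sub_eq_add_neg, piF_addy π hπ hf, ← neg_one_smul ℂ y', piF_smuly π hπ _ hf,
    neg_one_smul, ← sub_eq_add_neg]

end

end Pool.Agent.Work.MP_dd0ddf_al.AR
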