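import Pool.Agent.Work.MP_dd0ddf_al.AR.RBDefs
import Pool.Agent.Work.MP_dd0ddf_al.AR.KED
import Pool.Agent.Work.MP_dd0ddf_al.AR.KYf
import Pool.Agent.Work.MP_dd0ddf_al.AR.KHB

/-!
# MP_dd0ddf_al, archimedean part, block R, module BXD


The vectors `x_D` representing `u`.

PROOF. `x_D` from `Xd_rep π hπ D u` (choice).  `pol`: let `p` be continuous and `K`-invariant, `E, C1, M1` from `exists_ED` (`C1` may be replaced by `max C1 0`), `C2, M2` from `hu.bound p`.  For `l` with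
`|l v| ≤ p v`: `l(x_D) = l(E_D x_D)` (`x_D ∈ Xd π D`) `= (l ∘ E_D)(x_D) = u(l ∘ E_D)` (`l ∘ E_D ∈ Yd π D`), and `|(l ∘ E_D) v| ≤ p(E_D v) ≤ C1 (1+D)^M1 p(v)`, so
`|l(x_D)| ≤ C2 (1+D)^M2 C1 (1+D)^M1`.  `seminorm_le`.
-/

set_option linter.unusedSectionVars false

namespace Pool.Agent.Work.MP_dd0ddf_al.AR

open scoped SchwartzMap Matrix.Norms.Elementwise ComplexConjugate ContDiff Topology
open Matrix MeasureTheory Filter Asymptotics
open Pool.Agent.Work.MP_dd0ddf_al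

noncomputable section

variable {n : ℕ} {P : Type*} [AddCommGroup P] [Module ℂ P] [UniformSpace P] [IsUniformAddGroup P]
  [ContinuousSMul ℂ P] [PolynormableSpace ℂ P] [T2Space P] [CompleteSpace P]
  [FirstCountableTopology P]

theorem exists_XD (π : GLn n →* (P →L[ℂ] P)) (hπ : IsCW π) (d : Mat n → P →L[ℂ] P)
    (u : (P →L[ℂ] ℂ) →ₗ[ℂ] ℂ) (a b : Fin n → ℂ) (hu : CBE π d u a b) :
    ∃ x : ℕ → P, XD π u x := by
  choose x hxm hxv using fun D : ℕ => Xd_rep π hπ D u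
  refine ⟨x, hxm, hxv, fun p hp hK => ?_⟩
  obtain ⟨E, C1, M1, h1, h2, h3, h4, h5⟩ := exists_ED π hπ
  obtain ⟨C2, M2, hb⟩ := hu.bound p hp hK
  refine ⟨C2 * max C1 0, M2 + M1, fun D => ?_⟩
  refine seminorm_le p hp _ _ fun l hl => ?_
  have h6 : l (x D) = u (l.comp (E D)) := by
    rw [← hxv D _ (h3 D l)]
    show l (x D) = l (E D (x D))
    rw [h2 D _ (hxm D)]
  have hc : 0 ≤ max C1 0 * (1 + (D : ℝ)) ^ M1 := by positivity
  have h7 := hb D (l.comp (E D)) (h3 D l) (max C1 0 * (1 + (D : ℝ)) ^ M1) hc fun v => by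
    refine (hl (E D v)).trans ((h5 p hp hK D v).trans ?_)
    refine mul_le_mul_of_nonneg_right ?_ (apply_nonneg p v)
    exact mul_le_mul_of_nonneg_right (le_max_left _ _) (by positivity)
  rw [h6]
  refine h7.trans (le_of_eq ?_)
  rw [pow_add]
  ring

end

end Pool.Agent.Work.MP_dd0ddf_al.AR
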