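import Pool.Agent.Work.MP_dd0ddf_al.AR.Op

/-!
# MP_dd0ddf_al, archimedean part: irreducible Casselman-Wallach representations of `GL_n(ℂ)`,
general skew-Hermitian forms

* `KU n = U(n)`: the standard maximal compact subgroup of `GL_n(ℂ)`;
* `IsCW π`: `π` is an irreducible Casselman-Wallach representation of `GL_n(ℂ)`: a smooth
  representation of moderate growth on a Frechet space, admissible and topologically irreducible;
* `skJ J`: the form `⟨v,w⟩ = ∑ v_j J_jl conj w_l`, `J` a skew-Hermitian matrix; `UM J`: its isometry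
  group; `WeilM`: Weil representations of `UM J`; `HomM`: spaces of homomorphisms.
-/

set_option linter.unusedSectionVars false

namespace Pool.Agent.Work.MP_dd0ddf_al.AR

open scoped SchwartzMap Matrix.Norms.Elementwise ComplexConjugate ContDiff Topology
open Matrix MeasureTheory Filter

noncomputable section

variable {n : ℕ}

/-! ## the exponential map and the maximal compact subgroup -/

/-- `exp Y ∈ GL_n(ℂ)` -/
def expG (Y : Mat n) : GLn n := (Matrix.isUnit_exp Y).unit

theorem coe_expG (Y : Mat n) : ((expG Y : GLn n) : Mat n) = NormedSpace.exp Y :=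
  IsUnit.unit_spec _

/-- the unitary group `U(n)`, a maximal compact subgroup of `GL_n(ℂ)` -/
abbrev KU (n : ℕ) : Subgroup (GLn n) := UJ (fun _ : Fin n => (1 : ℝ))

/-- `Hom_K(σ, π)`, `K = U(n)`, for a representation `σ` of `K` on `ℂ^m` -/
def HomK {m : ℕ} (σ : KU n →* Matrix (Fin m) (Fin m) ℂ) {P : Type*} [AddCommGroup P] [Module ℂ P]
    [TopologicalSpace P] (π : GLn n →* (P →L[ℂ] P)) : Submodule ℂ ((Fin m → ℂ) →ₗ[ℂ] P) where
  carrier := {T | ∀ (k : KU n) (w : Fin m → ℂ), T (σ k *ᵥ w) = π (k : GLn n) (T w)}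
  add_mem' := by
    intro T T' hT hT' k w
    simp only [LinearMap.add_apply, map_add]
    rw [hT k w, hT' k w]
  zero_mem' := by
    intro k w
    simp
  smul_mem' := by
    intro c T hT k w
    simp only [LinearMap.smul_apply, map_smul]
    rw [hT k w]

/-- `σ` is an irreducible representation of `K = U(n)` on `ℂ^m` -/
def IrrK {m : ℕ} (σ : KU n →* Matrix (Fin m) (Fin m) ℂ) : Prop :=
  0 < m ∧ ∀ S : Submodule ℂ (Fin m → ℂ), (∀ (k : KU n), ∀ w ∈ S, σ k *ᵥ w ∈ S) → S = ⊥ ∨ S = ⊤

/-! ## Casselman-Wallach representations -/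

/-- `(π, P)` is an irreducible Casselman-Wallach representation of `GL_n(ℂ)`.  `P` is a Frechet
space (a complete metrizable locally convex space, this is expressed by type classes), the action
`G × P → P` is continuous and

* `smooth`: every vector is smooth.  (We only ask that every orbit map has directional derivatives
  at `1`, which are given by an `ℝ`-linear map `D`; this holds if the orbit maps are `C^∞`, and
  conversely, if it holds for all vectors, then all orbit maps are `C^∞`.)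
* `growth`: moderate growth, for every continuous seminorm `p` there are a continuous seminorm `q`
  and `N` with `p(π(g)v) ≤ ‖g‖^N q(v)`;
* `adm`: every irreducible representation of `K = U(n)` has finite multiplicity in `P`;
* `irr`: there is no closed invariant subspace except `0` and `P ≠ 0`. -/
structure IsCW {P : Type*} [AddCommGroup P] [Module ℂ P] [TopologicalSpace P]
    (π : GLn n →* (P →L[ℂ] P)) : Prop where
  cont : Continuous fun x : GLn n × P => π x.1 x.2
  smooth : ∀ v : P, ∃ D : Mat n →ₗ[ℝ] P, ∀ Y : Mat n,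
    Tendsto (fun τ : ℝ => ((τ : ℂ)⁻¹) • (π (expG (τ • Y)) v - v)) (𝓝[≠] 0) (𝓝 (D Y))
  growth : ∀ p : Seminorm ℂ P, Continuous p → ∃ (N : ℕ) (q : Seminorm ℂ P), Continuous q ∧
    ∀ (g : GLn n) (v : P), p (π g v) ≤ (‖(g : Mat n)‖ + ‖((g⁻¹ : GLn n) : Mat n)‖) ^ N * q v
  adm : ∀ (m : ℕ) (σ : KU n →* Matrix (Fin m) (Fin m) ℂ), Continuous σ → IrrK σ →
    FiniteDimensional ℂ (HomK σ π)
  nontriv : Nontrivial P
  irr : ∀ S : Submodule ℂ P, IsClosed (S : Set P) → (∀ g : GLn n, ∀ v ∈ S, π g v ∈ S) →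
    S = ⊥ ∨ S = ⊤

/-! ## general skew-Hermitian forms -/

/-- the form `⟨v,w⟩ = ∑ v_j J_jl conj w_l` (linear in the first variable) -/
def skJ (J : Mat n) (v w : Fin n → ℂ) : ℂ := ∑ j, ∑ l, v j * J j l * conj (w l)

/-- the isometry group of `skJ J` -/
def UM (J : Mat n) : Subgroup (GLn n) where
  carrier := {h | ∀ v w, skJ J ((h : Mat n) *ᵥ v) ((h : Mat n) *ᵥ w) = skJ J v w}
  mul_mem' := by
    intro g h hg hh v w
    have h1 := hg ((h : Mat n) *ᵥ v) ((h : Mat n) *ᵥ w)
    rw [hh v w] at h1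
    simpa [Matrix.mulVec_mulVec] using h1
  one_mem' := by
    intro v w
    simp
  inv_mem' := by
    intro h hh v w
    have h1 := hh (((h⁻¹ : GLn n) : Mat n) *ᵥ v) (((h⁻¹ : GLn n) : Mat n) *ᵥ w)
    have e : (h : Mat n) * ((h⁻¹ : GLn n) : Mat n) = 1 := by
      rw [← Units.val_mul, mul_inv_cancel, Units.val_one]
    rw [Matrix.mulVec_mulVec, Matrix.mulVec_mulVec, e, Matrix.one_mulVec, Matrix.one_mulVec] at h1
    exact h1.symm

/-- the matrix `A` is an isometry from `ℂ^n` with the form `skJ J` to `ℂ^n` with the standard form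
`⟨v,w⟩ = i ∑ ε_j v_j conj w_j`, `ε_j = ±1` -/
structure IsDiag (J : Mat n) (ε : Fin n → ℝ) (A : GLn n) : Prop where
  sign : ∀ j, ε j = 1 ∨ ε j = -1
  isom : ∀ v w, skf ε ((A : Mat n) *ᵥ v) ((A : Mat n) *ᵥ w) = skJ J v w

/-- a Weil representation of the isometry group `UM J` for the additive character
`ψ(x) = exp(i a x)`.  The Heisenberg group of `(ℂ^n, skJ J)` acts on functions on `ℝ^n` by
`ρ(v) = rhoF ε a (A v)`, `A` an isometry to the standard form; `om` is a strongly continuous
representation of `UM J` on the Schwartz space with differentiable orbit maps, compatible with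
`ρ`: `ω(h) ρ(v) = ρ(h v) ω(h)`. -/
structure WeilM (J : Mat n) (ε : Fin n → ℝ) (A : GLn n) (a : ℝ) where
  om : UM J →* (Sch n →L[ℂ] Sch n)
  cont : ∀ f : Sch n, Continuous fun h => om h f
  smooth : ∀ γ : ℝ → UM J, Continuous γ → (∀ x y, γ (x + y) = γ x * γ y) →
    ∃ D : Sch n →L[ℂ] Sch n, ∀ f : Sch n,
      Tendsto (fun τ : ℝ => ((τ : ℂ)⁻¹) • (om (γ τ) f - f)) (𝓝[≠] 0) (𝓝 (D f))
  compat : ∀ (h : UM J) (v : Fin n → ℂ) (f g : Sch n),
    (g : (Fin n → ℝ) → ℂ) = rhoF ε a ((A : Mat n) *ᵥ v) f →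
    (om h g : (Fin n → ℝ) → ℂ) =
      rhoF ε a ((A : Mat n) *ᵥ (((h : GLn n) : Mat n) *ᵥ v)) (om h f)

/-- `Hom_{U(V)}(Π, ω)`, `V = (ℂ^n, skJ J)`: continuous equivariant linear maps -/
def HomM {J : Mat n} {ε : Fin n → ℝ} {A : GLn n} {a : ℝ} (W : WeilM J ε A a) {P : Type*}
    [AddCommGroup P] [Module ℂ P] [TopologicalSpace P] (π : GLn n →* (P →L[ℂ] P)) :
    Submodule ℂ (P →L[ℂ] Sch n) where
  carrier := {φ | ∀ (h : UM J) (x : P), φ (π (h : GLn n) x) = W.om h (φ x)}
  add_mem' := by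
    intro φ φ' hφ hφ' h x
    simp [hφ h x, hφ' h x]
  zero_mem' := by
    intro h x
    simp
  smul_mem' := by
    intro c φ hφ h x
    simp [hφ h x]

end

end Pool.Agent.Work.MP_dd0ddf_al.AR
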