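import Pool.Agent.Work.MP_dd0ddf_al.AR.TF1

/-!
# Part (S-M): partition of unity

`F ∈ TFK K`, `K` compact in `Ω1 ∪ Ω2`: `K \ Ω2` is compact in `Ω1`; choose a smooth `χ : Mat n → ℝ`,
`tsupport χ` compact in `Ω1`, `χ = 1` on a neighbourhood `N` of `K \ Ω2`
(`exists_contMDiff...` or `exists_smooth_one_nhds_of_subset_interior`-type lemmas, or
`exists_contDiff_tsupport_subset`).  `F = χ F + (1 - χ) F`; `χ F ∈ TFK (K ∩ tsupport χ)`,
`(1 - χ) F ∈ TFK (K \ interior N)`, both compact in `Ω1` resp. `Ω2`.  The same for functions on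
`Mat n`.  The finite version by induction.
-/

set_option linter.unusedSectionVars false

namespace Pool.Agent.Work.MP_dd0ddf_al.AR

open scoped SchwartzMap Matrix.Norms.Elementwise ComplexConjugate ContDiff Topology LineDeriv
open Matrix MeasureTheory Filter

noncomputable section

variable {n : ℕ}

private theorem bump_aux {E : Type*} [NormedAddCommGroup E] [NormedSpace ℝ E]
    [FiniteDimensional ℝ E] {K U : Set E} (hK : IsCompact K) (hU : IsOpen U) (hKU : K ⊆ U) :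
    ∃ χ : E → ℝ, ContDiff ℝ ∞ χ ∧ (∃ t : Set E, IsCompact t ∧ t ⊆ U ∧ ∀ x, x ∉ t → χ x = 0) ∧
      ∃ V : Set E, IsOpen V ∧ K ⊆ V ∧ ∀ x ∈ V, χ x = 1 := by
  obtain ⟨t, ht, hKt, htU⟩ := exists_compact_between hK hU hKU
  obtain ⟨f, hf1, hf0, -⟩ := exists_contMDiffMap_one_nhds_of_subset_interior (n := ⊤)
    (modelWithCornersSelf ℝ E) hK.isClosed hKt
  refine ⟨f, f.contMDiff.contDiff, ⟨t, ht, htU, hf0⟩, ?_⟩
  rw [Filter.eventually_iff_exists_mem] at hf1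
  obtain ⟨V, hV, hV1⟩ := hf1
  rw [mem_nhdsSet_iff_exists] at hV
  obtain ⟨V', hV', hKV', hV'V⟩ := hV
  exact ⟨V', hV', hKV', fun x hx => hV1 x (hV'V hx)⟩

private theorem bump_mat {K U : Set (Mat n)} (hK : IsCompact K) (hU : IsOpen U) (hKU : K ⊆ U) :
    ∃ χ : Mat n → ℝ, ContDiff ℝ ∞ χ ∧
      (∃ t : Set (Mat n), IsCompact t ∧ t ⊆ U ∧ ∀ x, x ∉ t → χ x = 0) ∧
      ∃ V : Set (Mat n), IsOpen V ∧ K ⊆ V ∧ ∀ x ∈ V, χ x = 1 := by
  have : FiniteDimensional ℝ (Mat n) := by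
    unfold Mat
    infer_instance
  exact bump_aux (E := Mat n) hK hU hKU

/-- the splitting data for a compact set in the union of two open sets -/
private theorem split_aux {Ω1 Ω2 : Set (Mat n)} (h1 : IsOpen Ω1) (h2 : IsOpen Ω2)
    {K : Set (Mat n)} (hK : IsCompact K) (hKΩ : K ⊆ Ω1 ∪ Ω2) :
    ∃ χ : Mat n → ℂ, ContDiff ℝ ∞ χ ∧
      (∃ t : Set (Mat n), IsCompact t ∧ t ⊆ Ω1 ∧ ∀ x, x ∉ t → χ x = 0) ∧
      ∃ K2 : Set (Mat n), IsCompact K2 ∧ K2 ⊆ Ω2 ∧ ∀ x, x ∉ K2 → x ∉ K ∨ χ x = 1 := by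
  have hc : IsCompact (K \ Ω2) := hK.diff h2
  have hs : K \ Ω2 ⊆ Ω1 := by
    intro x hx
    rcases hKΩ hx.1 with h | h
    · exact h
    · exact absurd h hx.2
  obtain ⟨χ, hχ, ⟨t, ht, htU, ht0⟩, V, hV, hKV, hV1⟩ := bump_mat hc h1 hs
  refine ⟨fun x => (χ x : ℂ), Complex.ofRealCLM.contDiff.comp hχ, ⟨t, ht, htU, ?_⟩,
    K \ V, hK.diff hV, ?_, ?_⟩
  · intro x hx
    show ((χ x : ℝ) : ℂ) = 0
    rw [ht0 x hx, Complex.ofReal_zero]
  · intro x hx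
    by_contra hx2
    exact hx.2 (hKV ⟨hx.1, hx2⟩)
  · intro x hx
    by_cases hxK : x ∈ K
    · right
      have : x ∈ V := by
        by_contra hxV
        exact hx ⟨hxK, hxV⟩
      show ((χ x : ℝ) : ℂ) = 1
      rw [hV1 x this, Complex.ofReal_one]
    · exact Or.inl hxK

theorem part_two {Ω1 Ω2 : Set (Mat n)} (h1 : IsOpen Ω1) (h2 : IsOpen Ω2) {F : XX n → ℂ}
    (hF : F ∈ TFs (Ω1 ∪ Ω2)) : ∃ F1 ∈ TFs Ω1, ∃ F2 ∈ TFs Ω2, F = F1 + F2 := by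
  obtain ⟨K, hK, hKΩ, hFs, hFc, hF0⟩ := hF
  obtain ⟨χ, hχ, ⟨t, ht, htU, ht0⟩, K2, hK2, hK2Ω, hK21⟩ := split_aux h1 h2 hK hKΩ
  have hχ' : ContDiff ℝ ∞ (fun x : XX n => χ x.1) := hχ.comp contDiff_fst
  refine ⟨fun x => χ x.1 * F x, ⟨t, ht, htU, hχ'.mul hFs, hFc.mul_left, ?_⟩,
    fun x => (1 - χ x.1) * F x, ⟨K2, hK2, hK2Ω, (contDiff_const.sub hχ').mul hFs,
      hFc.mul_left, ?_⟩, ?_⟩
  · intro x hx
    show χ x.1 * F x = 0
    rw [ht0 _ hx, zero_mul]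
  · intro x hx
    show (1 - χ x.1) * F x = 0
    rcases hK21 _ hx with h | h
    · rw [hF0 x h, mul_zero]
    · rw [h, sub_self, zero_mul]
  · funext x
    show F x = χ x.1 * F x + (1 - χ x.1) * F x
    ring

theorem part_two_G {Ω1 Ω2 : Set (Mat n)} (h1 : IsOpen Ω1) (h2 : IsOpen Ω2) {f : Mat n → ℂ}
    (hf : f ∈ TGs (Ω1 ∪ Ω2)) : ∃ f1 ∈ TGs Ω1, ∃ f2 ∈ TGs Ω2, f = f1 + f2 := by
  obtain ⟨K, hK, hKΩ, hfs, hf0⟩ := hf
  obtain ⟨χ, hχ, ⟨t, ht, htU, ht0⟩, K2, hK2, hK2Ω, hK21⟩ := split_aux h1 h2 hK hKΩ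
  refine ⟨fun x => χ x * f x, ⟨t, ht, htU, hχ.mul hfs, ?_⟩,
    fun x => (1 - χ x) * f x, ⟨K2, hK2, hK2Ω, (contDiff_const.sub hχ).mul hfs, ?_⟩, ?_⟩
  · intro x hx
    show χ x * f x = 0
    rw [ht0 _ hx, zero_mul]
  · intro x hx
    show (1 - χ x) * f x = 0
    rcases hK21 _ hx with h | h
    · rw [hf0 x h, mul_zero]
    · rw [h, sub_self, zero_mul]
  · funext x
    show f x = χ x * f x + (1 - χ x) * f x
    ring

theorem part_fin_G {ι : Type*} [Finite ι] {Ω : ι → Set (Mat n)} (h : ∀ i, IsOpen (Ω i))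
    {Q : Type*} [AddCommGroup Q] [Module ℂ Q] (L : (Mat n → ℂ) →ₗ[ℂ] Q)
    (h0 : ∀ i, ∀ f ∈ TGs (Ω i), L f = 0) : ∀ f ∈ TGs (⋃ i, Ω i), L f = 0 := by
  classical
  have key : ∀ s : Finset ι, ∀ f ∈ TGs (⋃ i ∈ s, Ω i), L f = 0 := by
    intro s
    induction s using Finset.induction_on with
    | empty =>
      intro f hf
      obtain ⟨K, hK, hKΩ, hfs, hf0⟩ := hf
      have : f = 0 := by
        funext x
        apply hf0
        intro hx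
        have := hKΩ hx
        simp at this
      rw [this, map_zero]
    | insert i s hi ih =>
      intro f hf
      rw [Finset.set_biUnion_insert] at hf
      obtain ⟨f1, hf1, f2, hf2, rfl⟩ := part_two_G (h i)
        (isOpen_biUnion fun j _ => h j) hf
      rw [map_add, h0 i f1 hf1, ih f2 hf2, add_zero]
  cases nonempty_fintype ι
  intro f hf
  apply key Finset.univ f
  simpa using hf

end

end Pool.Agent.Work.MP_dd0ddf_al.AR
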