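import Pool.Agent.Work.MP_dd0ddf_al.AR.Op

/-!
# TF2 (S-M): pointwise rules for the operators

`K` compact, `Ω` open, `K ⊆ Ω`.  At a point `x` with `x.1 ∈ K`: product rule (`c` is differentiable
at `x.1`, compose with the linear map `Prod.fst`); at a point with `x.1 ∉ K` all functions are
locally `0` (`K` closed), so both sides are `0`.  In the direction `(0, e_j)` the function
`x ↦ c x.1` has derivative `0`.  `dG` is linear in the vector field because
`fderiv ℝ F x` is linear: `(X + Y, 0) = (X, 0) + (Y, 0)`.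
-/

set_option linter.unusedSectionVars false

namespace Pool.Agent.Work.MP_dd0ddf_al.AR

open scoped SchwartzMap Matrix.Norms.Elementwise ComplexConjugate ContDiff Topology LineDeriv
open Matrix MeasureTheory Filter

noncomputable section

variable {n : ℕ}

private theorem loc_zero {K : Set (Mat n)} (hK : IsCompact K) {F : XX n → ℂ} (hF : F ∈ TFK K)
    {x : XX n} (hx : x.1 ∉ K) : F =ᶠ[𝓝 x] fun _ => 0 := by
  have h1 : IsOpen {y : XX n | y.1 ∉ K} := hK.isClosed.isOpen_compl.preimage continuous_fst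
  filter_upwards [h1.mem_nhds hx] with y hy
  exact hF.2.2 y hy

private theorem fderiv_zero_of {F : XX n → ℂ} {x : XX n} (h : F =ᶠ[𝓝 x] fun _ => 0) :
    fderiv ℝ F x = 0 := by
  rw [h.fderiv_eq]
  simp

private theorem mG_loc_zero {F : XX n → ℂ} {x : XX n} (c : Mat n → ℂ)
    (h : F =ᶠ[𝓝 x] fun _ => 0) : mG c F =ᶠ[𝓝 x] fun _ => 0 := by
  filter_upwards [h] with y hy
  unfold mG
  rw [hy, mul_zero]

private theorem fderiv_mG {Ω K : Set (Mat n)} (hΩ : IsOpen Ω) {c : Mat n → ℂ}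
    (hc : ContDiffOn ℝ ∞ c Ω) {F : XX n → ℂ} (hF : F ∈ TFK K) {x : XX n} (hx : x.1 ∈ Ω)
    (v : XX n) : fderiv ℝ (mG c F) x v = c x.1 * fderiv ℝ F x v + fderiv ℝ c x.1 v.1 * F x := by
  have hc' : DifferentiableAt ℝ c x.1 :=
    (hc.contDiffAt (hΩ.mem_nhds hx)).differentiableAt (by simp)
  have hF' : DifferentiableAt ℝ F x := hF.1.differentiable (by simp) x
  have h1 : HasFDerivAt (fun y : XX n => c y.1)
      ((fderiv ℝ c x.1).comp (ContinuousLinearMap.fst ℝ (Mat n) (Fin n → ℝ))) x :=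
    hc'.hasFDerivAt.comp x hasFDerivAt_fst
  have h2 : HasFDerivAt (mG c F) _ x := h1.mul hF'.hasFDerivAt
  refine (DFunLike.congr_fun h2.fderiv v).trans ?_
  change c x.1 * fderiv ℝ F x v + F x * fderiv ℝ c x.1 v.1 = _
  ring

private theorem dT_add' {K : Set (Mat n)} (j : Fin n) {F G : XX n → ℂ} (hF : F ∈ TFK K)
    (hG : G ∈ TFK K) (x : XX n) : dT j (F + G) x = dT j F x + dT j G x := by
  have hF' : DifferentiableAt ℝ F x := hF.1.differentiable (by simp) x
  have hG' : DifferentiableAt ℝ G x := hG.1.differentiable (by simp) x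
  exact DFunLike.congr_fun (fderiv_add hF' hG') ((0, Pi.single j 1) : XX n)

private theorem dT_smul' {K : Set (Mat n)} (j : Fin n) (c : ℂ) {F : XX n → ℂ} (hF : F ∈ TFK K)
    (x : XX n) : dT j (c • F) x = c * dT j F x := by
  have hF' : DifferentiableAt ℝ F x := hF.1.differentiable (by simp) x
  exact DFunLike.congr_fun (fderiv_const_smul hF' c) ((0, Pi.single j 1) : XX n)

theorem mG_mG (c c' : Mat n → ℂ) (F : XX n → ℂ) :
    mG c (mG c' F) = mG (fun g => c g * c' g) F := by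
  funext x
  simp only [mG, mul_assoc]

theorem dG_mG {Ω K : Set (Mat n)} (hΩ : IsOpen Ω) (hK : IsCompact K) (hKΩ : K ⊆ Ω)
    {c : Mat n → ℂ} (hc : ContDiffOn ℝ ∞ c Ω) (X : Mat n → Mat n) {F : XX n → ℂ}
    (hF : F ∈ TFK K) : dG X (mG c F) = mG c (dG X F) + mG (dg X c) F := by
  funext x
  change fderiv ℝ (mG c F) x (X x.1, 0) =
    c x.1 * fderiv ℝ F x (X x.1, 0) + fderiv ℝ c x.1 (X x.1) * F x
  by_cases hx : x.1 ∈ K
  · rw [fderiv_mG hΩ hc hF (hKΩ hx)]
  · have h := loc_zero hK hF hx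
    rw [fderiv_zero_of (mG_loc_zero c h), fderiv_zero_of h, hF.2.2 x hx]
    simp

theorem dT_mG {Ω K : Set (Mat n)} (hΩ : IsOpen Ω) (hK : IsCompact K) (hKΩ : K ⊆ Ω)
    {c : Mat n → ℂ} (hc : ContDiffOn ℝ ∞ c Ω) (j : Fin n) {F : XX n → ℂ} (hF : F ∈ TFK K) :
    dT j (mG c F) = mG c (dT j F) := by
  funext x
  change fderiv ℝ (mG c F) x (0, Pi.single j 1) = c x.1 * fderiv ℝ F x (0, Pi.single j 1)
  by_cases hx : x.1 ∈ K
  · rw [fderiv_mG hΩ hc hF (hKΩ hx)]
    simp
  · have h := loc_zero hK hF hx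
    rw [fderiv_zero_of (mG_loc_zero c h), fderiv_zero_of h]
    simp

theorem opA_mG (ε : Fin n → ℝ) (a : ℝ) {Ω K : Set (Mat n)} (hΩ : IsOpen Ω) (hK : IsCompact K)
    (hKΩ : K ⊆ Ω) {c : Mat n → ℂ} (hc : ContDiffOn ℝ ∞ c Ω) (r : Mat n → Fin n → ℂ)
    {F : XX n → ℂ} (hF : F ∈ TFK K) : opA ε a r (mG c F) = mG c (opA ε a r F) := by
  funext x
  have e : mG c (opA ε a r F) x = c x.1 * opA ε a r F x := rfl
  rw [e]
  simp only [opA, dT_mG hΩ hK hKΩ hc _ hF]
  simp only [mG]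
  rw [mul_neg, Finset.mul_sum]
  congr 1
  refine Finset.sum_congr rfl fun j _ => ?_
  ring

theorem opB_mG (ε : Fin n → ℝ) (a : ℝ) {Ω K : Set (Mat n)} (hΩ : IsOpen Ω) (hK : IsCompact K)
    (hKΩ : K ⊆ Ω) {c : Mat n → ℂ} (hc : ContDiffOn ℝ ∞ c Ω) (r : Mat n → Fin n → ℂ)
    {F : XX n → ℂ} (hF : F ∈ TFK K) : opB ε a r (mG c F) = mG c (opB ε a r F) := by
  funext x
  have e : mG c (opB ε a r F) x = c x.1 * opB ε a r F x := rfl
  rw [e]
  simp only [opB, dT_mG hΩ hK hKΩ hc _ hF]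
  simp only [mG]
  rw [mul_neg, Finset.mul_sum]
  congr 1
  refine Finset.sum_congr rfl fun j _ => ?_
  ring

theorem dG_add_field (X Y : Mat n → Mat n) (F : XX n → ℂ) :
    dG (fun g => X g + Y g) F = dG X F + dG Y F := by
  funext x
  change fderiv ℝ F x (X x.1 + Y x.1, 0) = fderiv ℝ F x (X x.1, 0) + fderiv ℝ F x (Y x.1, 0)
  rw [← map_add, Prod.mk_add_mk, add_zero]

theorem dG_smul_field (c : Mat n → ℝ) (X : Mat n → Mat n) (F : XX n → ℂ) :
    dG (fun g => c g • X g) F = mG (fun g => ((c g : ℝ) : ℂ)) (dG X F) := by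
  funext x
  change fderiv ℝ F x (c x.1 • X x.1, 0) = ((c x.1 : ℝ) : ℂ) * fderiv ℝ F x (X x.1, 0)
  rw [← Complex.real_smul, ← map_smul, Prod.smul_mk, smul_zero]

theorem dG_sum_field {ι : Type*} (s : Finset ι) (X : ι → Mat n → Mat n) (F : XX n → ℂ) :
    dG (fun g => ∑ i ∈ s, X i g) F = ∑ i ∈ s, dG (X i) F := by
  classical
  induction s using Finset.induction_on with
  | empty =>
    funext x
    simp only [Finset.sum_empty]
    change fderiv ℝ F x (0, 0) = 0
    exact map_zero _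
  | insert i s hi ih =>
    simp only [Finset.sum_insert hi]
    rw [dG_add_field, ih]

theorem dG_add (X : Mat n → Mat n) {K : Set (Mat n)} {F G : XX n → ℂ} (hF : F ∈ TFK K)
    (hG : G ∈ TFK K) : dG X (F + G) = dG X F + dG X G := by
  funext x
  have hF' : DifferentiableAt ℝ F x := hF.1.differentiable (by simp) x
  have hG' : DifferentiableAt ℝ G x := hG.1.differentiable (by simp) x
  exact DFunLike.congr_fun (fderiv_add hF' hG') ((X x.1, 0) : XX n)

theorem dG_smul (X : Mat n → Mat n) {K : Set (Mat n)} (c : ℂ) {F : XX n → ℂ} (hF : F ∈ TFK K) :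
    dG X (c • F) = c • dG X F := by
  funext x
  have hF' : DifferentiableAt ℝ F x := hF.1.differentiable (by simp) x
  exact DFunLike.congr_fun (fderiv_const_smul hF' c) ((X x.1, 0) : XX n)

theorem opA_add (ε : Fin n → ℝ) (a : ℝ) (r : Mat n → Fin n → ℂ) {K : Set (Mat n)}
    {F G : XX n → ℂ} (hF : F ∈ TFK K) (hG : G ∈ TFK K) :
    opA ε a r (F + G) = opA ε a r F + opA ε a r G := by
  funext x
  simp only [opA, dT_add' _ hF hG, Pi.add_apply]
  rw [← neg_add, ← Finset.sum_add_distrib]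
  congr 1
  refine Finset.sum_congr rfl fun j _ => ?_
  ring

theorem opA_smul (ε : Fin n → ℝ) (a : ℝ) (r : Mat n → Fin n → ℂ) {K : Set (Mat n)} (c : ℂ)
    {F : XX n → ℂ} (hF : F ∈ TFK K) : opA ε a r (c • F) = c • opA ε a r F := by
  funext x
  simp only [opA, dT_smul' _ c hF, Pi.smul_apply, smul_eq_mul]
  rw [mul_neg, Finset.mul_sum]
  congr 1
  refine Finset.sum_congr rfl fun j _ => ?_
  ring

theorem opB_add (ε : Fin n → ℝ) (a : ℝ) (r : Mat n → Fin n → ℂ) {K : Set (Mat n)}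
    {F G : XX n → ℂ} (hF : F ∈ TFK K) (hG : G ∈ TFK K) :
    opB ε a r (F + G) = opB ε a r F + opB ε a r G := by
  funext x
  simp only [opB, dT_add' _ hF hG, Pi.add_apply]
  rw [← neg_add, ← Finset.sum_add_distrib]
  congr 1
  refine Finset.sum_congr rfl fun j _ => ?_
  ring

theorem opB_smul (ε : Fin n → ℝ) (a : ℝ) (r : Mat n → Fin n → ℂ) {K : Set (Mat n)} (c : ℂ)
    {F : XX n → ℂ} (hF : F ∈ TFK K) : opB ε a r (c • F) = c • opB ε a r F := by
  funext x
  simp only [opB, dT_smul' _ c hF, Pi.smul_apply, smul_eq_mul]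
  rw [mul_neg, Finset.mul_sum]
  congr 1
  refine Finset.sum_congr rfl fun j _ => ?_
  ring

theorem opA_add_row (ε : Fin n → ℝ) (a : ℝ) (r r' : Mat n → Fin n → ℂ) (F : XX n → ℂ) :
    opA ε a (fun g => r g + r' g) F = opA ε a r F + opA ε a r' F := by
  funext x
  simp only [opA, Pi.add_apply]
  rw [← neg_add, ← Finset.sum_add_distrib]
  congr 1
  refine Finset.sum_congr rfl fun j _ => ?_
  ring

theorem opA_smul_row (ε : Fin n → ℝ) (a : ℝ) (c : Mat n → ℂ) (r : Mat n → Fin n → ℂ)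
    (F : XX n → ℂ) : opA ε a (fun g => c g • r g) F = mG c (opA ε a r F) := by
  funext x
  simp only [opA, mG, Pi.smul_apply, smul_eq_mul]
  rw [mul_neg, Finset.mul_sum]
  congr 1
  refine Finset.sum_congr rfl fun j _ => ?_
  ring

theorem opB_add_row (ε : Fin n → ℝ) (a : ℝ) (r r' : Mat n → Fin n → ℂ) (F : XX n → ℂ) :
    opB ε a (fun g => r g + r' g) F = opB ε a r F + opB ε a r' F := by
  funext x
  simp only [opB, Pi.add_apply, map_add]
  rw [← neg_add, ← Finset.sum_add_distrib]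
  congr 1
  refine Finset.sum_congr rfl fun j _ => ?_
  ring

theorem opB_smul_row (ε : Fin n → ℝ) (a : ℝ) (c : Mat n → ℂ) (r : Mat n → Fin n → ℂ)
    (F : XX n → ℂ) :
    opB ε a (fun g => c g • r g) F = mG (fun g => conj (c g)) (opB ε a r F) := by
  funext x
  simp only [opB, mG, Pi.smul_apply, smul_eq_mul, map_mul]
  rw [mul_neg, Finset.mul_sum]
  congr 1
  refine Finset.sum_congr rfl fun j _ => ?_
  ring

end

end Pool.Agent.Work.MP_dd0ddf_al.AR
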