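import Pool.Agent.Work.MP_dd0ddf_al.AR.TF1
import Pool.Agent.Work.MP_dd0ddf_al.AR.TF2

/-!
# Heis (S-M): commutation relations of the Heisenberg operators on test functions

`r, r'` are smooth on the open set `Ω ⊇ K`, `K` compact, `F ∈ TFK K`.  With
`D_j^± F = (dT j F ± 2 a ε_j t_j F) / 2` one has `opA r F = - ∑ ε_j r_j D_j^+ F`,
`opB r F = - ∑ ε_j conj(r_j) D_j^- F`.  The coefficients depend on `g` only, so they commute with
the derivatives in `t` (product rule at points with `x.1 ∈ K`; at points with `x.1 ∉ K` everything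
is locally `0`).  `dT i (dT j F) = dT j (dT i F)` (symmetry of the second derivative of a smooth
function), `dT i (t_j F) = δ_ij F + t_j dT i F`.  Hence `[D_i^+, D_j^+] = 0 = [D_i^-, D_j^-]` and
`D_i^+ D_j^- - D_j^- D_i^+ = - a ε_j δ_ij`.  Since `ε_j ^ 2 = 1`:
`opA r (opB r' F) - opB r' (opA r F) = ∑ ε_j r_j ε_j conj(r'_j) (- a ε_j) F = - a <r, r'> F`.
-/

set_option linter.unusedSectionVars false

namespace Pool.Agent.Work.MP_dd0ddf_al.AR

open scoped SchwartzMap Matrix.Norms.Elementwise ComplexConjugate ContDiff Topology LineDeriv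
open Matrix MeasureTheory Filter

noncomputable section

variable {n : ℕ}

/-- smooth functions of `t` -/
private def SmT (n : ℕ) : Submodule ℂ ((Fin n → ℝ) → ℂ) where
  carrier := {f | ContDiff ℝ ∞ f}
  add_mem' := by
    intro f g hf hg
    have hf' : ContDiff ℝ ∞ f := hf
    have hg' : ContDiff ℝ ∞ g := hg
    exact hf'.add hg'
  zero_mem' := by
    have h : ContDiff ℝ ∞ (fun _ : Fin n → ℝ => (0 : ℂ)) := contDiff_const
    exact h
  smul_mem' := by
    intro c f hf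
    have hf' : ContDiff ℝ ∞ f := hf
    exact contDiff_const.smul hf'

private theorem SmT_cd (f : SmT n) : ContDiff ℝ ∞ f.1 := f.2

private theorem SmT_di (f : SmT n) : Differentiable ℝ f.1 := (SmT_cd f).differentiable (by simp)

private theorem alg_pp {R : Type*} [Ring R] [Algebra ℂ R] {P Q M N : R} (c d : ℂ)
    (h1 : P * Q = Q * P) (h2 : M * N = N * M) (h3 : P * N = N * P) (h4 : Q * M = M * Q) :
    ((1 / 2 : ℂ) • (P + c • M)) * ((1 / 2 : ℂ) • (Q + d • N)) =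
      ((1 / 2 : ℂ) • (Q + d • N)) * ((1 / 2 : ℂ) • (P + c • M)) := by
  simp only [smul_mul_assoc, mul_smul_comm, mul_add, add_mul, smul_add, h1, h2, h3, h4]
  module

private theorem alg_mm {R : Type*} [Ring R] [Algebra ℂ R] {P Q M N : R} (c d : ℂ)
    (h1 : P * Q = Q * P) (h2 : M * N = N * M) (h3 : P * N = N * P) (h4 : Q * M = M * Q) :
    ((1 / 2 : ℂ) • (P - c • M)) * ((1 / 2 : ℂ) • (Q - d • N)) =
      ((1 / 2 : ℂ) • (Q - d • N)) * ((1 / 2 : ℂ) • (P - c • M)) := by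
  simp only [smul_mul_assoc, mul_smul_comm, mul_sub, sub_mul, smul_sub, h1, h2, h3, h4]
  module

private theorem alg_pm {R : Type*} [Ring R] [Algebra ℂ R] {P Q M N : R} (c d : ℂ)
    (h1 : P * Q = Q * P) (h2 : M * N = N * M) (h3 : P * N = N * P) (h4 : Q * M = M * Q) :
    ((1 / 2 : ℂ) • (P + c • M)) * ((1 / 2 : ℂ) • (Q - d • N)) =
      ((1 / 2 : ℂ) • (Q - d • N)) * ((1 / 2 : ℂ) • (P + c • M)) := by
  simp only [smul_mul_assoc, mul_smul_comm, mul_add, add_mul, smul_add, mul_sub, sub_mul, smul_sub,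
    h1, h2, h3, h4]
  module

private theorem alg_pmi {R : Type*} [Ring R] [Algebra ℂ R] {P M : R} (c : ℂ)
    (h1 : P * M = M * P + 1) :
    ((1 / 2 : ℂ) • (P + (2 * c) • M)) * ((1 / 2 : ℂ) • (P - (2 * c) • M)) =
      ((1 / 2 : ℂ) • (P - (2 * c) • M)) * ((1 / 2 : ℂ) • (P + (2 * c) • M)) + (-c) • (1 : R) := by
  simp only [smul_mul_assoc, mul_smul_comm, mul_add, add_mul, smul_add, mul_sub, sub_mul, smul_sub,
    h1]
  module

private theorem alg_ss {R : Type*} [Ring R] [Algebra ℂ R] {ι : Type*} (s : Finset ι)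
    (f g : ι → R) (h : ∀ i j, f i * g j = g j * f i) :
    (-∑ i ∈ s, f i) * (-∑ j ∈ s, g j) = (-∑ j ∈ s, g j) * (-∑ i ∈ s, f i) := by
  rw [neg_mul_neg, neg_mul_neg, Finset.sum_mul_sum, Finset.sum_mul_sum, Finset.sum_comm]
  exact Finset.sum_congr rfl fun j _ => Finset.sum_congr rfl fun i _ => h i j

private theorem alg_ss' {R : Type*} [Ring R] [Algebra ℂ R] {ι : Type*} [DecidableEq ι]
    (s : Finset ι) (f g : ι → R) (c : ι → ℂ)
    (h : ∀ i j, f i * g j = g j * f i + (if i = j then c j else 0) • (1 : R)) :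
    (-∑ i ∈ s, f i) * (-∑ j ∈ s, g j) =
      (-∑ j ∈ s, g j) * (-∑ i ∈ s, f i) + (∑ j ∈ s, c j) • (1 : R) := by
  rw [neg_mul_neg, neg_mul_neg, Finset.sum_mul_sum, Finset.sum_mul_sum, Finset.sum_comm,
    Finset.sum_smul, ← Finset.sum_add_distrib]
  refine Finset.sum_congr rfl fun j hj => ?_
  simp only [h, Finset.sum_add_distrib, ite_smul, zero_smul]
  simp only [Finset.sum_ite_eq', if_pos hj]

private def opP (j : Fin n) : Module.End ℂ (SmT n) where
  toFun f := ⟨fun t => fderiv ℝ f.1 t (Pi.single j 1),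
    ((SmT_cd f).fderiv_right (m := ∞) (by simp)).clm_apply contDiff_const⟩
  map_add' f g := by
    apply Subtype.ext
    funext t
    have hf : DifferentiableAt ℝ f.1 t := SmT_di f t
    have hg : DifferentiableAt ℝ g.1 t := SmT_di g t
    have h := fderiv_add hf hg
    change fderiv ℝ (f.1 + g.1) t (Pi.single j 1) = _
    rw [h]
    rfl
  map_smul' c f := by
    apply Subtype.ext
    funext t
    have hf : DifferentiableAt ℝ f.1 t := SmT_di f t
    have h := fderiv_const_smul hf c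
    change fderiv ℝ (c • f.1) t (Pi.single j 1) = _
    rw [h]
    rfl

private def opM (j : Fin n) : Module.End ℂ (SmT n) where
  toFun f := ⟨fun t => ((t j : ℝ) : ℂ) * f.1 t,
    ((Complex.ofRealCLM.comp
      (ContinuousLinearMap.proj (R := ℝ) (φ := fun _ : Fin n => ℝ) j)).contDiff).mul (SmT_cd f)⟩
  map_add' f g := by
    apply Subtype.ext
    funext t
    exact mul_add _ _ _
  map_smul' c f := by
    apply Subtype.ext
    funext t
    exact mul_left_comm _ _ _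

private theorem opP_opP (i j : Fin n) : opP i * opP j = opP j * opP i := by
  refine LinearMap.ext fun f => Subtype.ext (funext fun t => ?_)
  have hf : ContDiff ℝ ∞ f.1 := f.2
  have hd : ∀ (v : Fin n → ℝ) (s : Fin n → ℝ), fderiv ℝ (fun t => fderiv ℝ f.1 t v) s =
      (fderiv ℝ (fderiv ℝ f.1) s).flip v := by
    intro v s
    have h1 : DifferentiableAt ℝ (fderiv ℝ f.1) s :=
      (hf.fderiv_right (m := ∞) (by simp)).differentiable (by simp) s
    have h2 := h1.hasFDerivAt.clm_apply (hasFDerivAt_const v s)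
    rw [h2.fderiv]
    ext w
    simp
  have hs : IsSymmSndFDerivAt ℝ f.1 t := by
    apply ContDiffAt.isSymmSndFDerivAt (n := ∞) hf.contDiffAt
    simp only [minSmoothness_of_isRCLikeNormedField]
    exact WithTop.coe_le_coe.2 le_top
  change fderiv ℝ (fun t => fderiv ℝ f.1 t (Pi.single j 1)) t (Pi.single i 1) =
    fderiv ℝ (fun t => fderiv ℝ f.1 t (Pi.single i 1)) t (Pi.single j 1)
  rw [hd, hd]
  exact hs _ _

private theorem opM_opM (i j : Fin n) : opM i * opM j = opM j * opM i := by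
  refine LinearMap.ext fun f => Subtype.ext (funext fun t => ?_)
  exact mul_left_comm _ _ _

private theorem opP_opM (i j : Fin n) :
    opP i * opM j = opM j * opP i + if i = j then 1 else 0 := by
  refine LinearMap.ext fun f => Subtype.ext (funext fun t => ?_)
  have hf : DifferentiableAt ℝ f.1 t := SmT_di f t
  have h1 : HasFDerivAt (fun t : Fin n → ℝ => ((t j : ℝ) : ℂ)) (Complex.ofRealCLM.comp
      (ContinuousLinearMap.proj (R := ℝ) (φ := fun _ : Fin n => ℝ) j)) t :=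
    (Complex.ofRealCLM.comp
      (ContinuousLinearMap.proj (R := ℝ) (φ := fun _ : Fin n => ℝ) j)).hasFDerivAt
  have h2 := h1.mul hf.hasFDerivAt
  have h3 : (opP i * opM j) f = opP i (opM j f) := rfl
  have h4 : (opP i (opM j f)).1 t =
      fderiv ℝ (fun t => ((t j : ℝ) : ℂ) * f.1 t) t (Pi.single i 1) := rfl
  have h6 : fderiv ℝ (fun t => ((t j : ℝ) : ℂ) * f.1 t) t = _ := h2.fderiv
  rw [h3, h4, h6]
  by_cases hij : i = j
  · subst hij
    rw [if_pos rfl]
    have h5 : ((opM i * opP i + 1) f).1 t =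
      ((t i : ℝ) : ℂ) * fderiv ℝ f.1 t (Pi.single i 1) + f.1 t := rfl
    rw [h5]
    simp
  · rw [if_neg hij, add_zero]
    have h5 : ((opM j * opP i) f).1 t =
      ((t j : ℝ) : ℂ) * fderiv ℝ f.1 t (Pi.single i 1) := rfl
    rw [h5]
    simp [Ne.symm hij]

private def opDp (ε : Fin n → ℝ) (a : ℝ) (j : Fin n) : Module.End ℂ (SmT n) :=
  (1 / 2 : ℂ) • (opP j + (2 * a * ε j : ℂ) • opM j)

private def opDm (ε : Fin n → ℝ) (a : ℝ) (j : Fin n) : Module.End ℂ (SmT n) :=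
  (1 / 2 : ℂ) • (opP j - (2 * a * ε j : ℂ) • opM j)

private theorem opDp_opDp (ε : Fin n → ℝ) (a : ℝ) (i j : Fin n) :
    opDp ε a i * opDp ε a j = opDp ε a j * opDp ε a i := by
  by_cases hij : i = j
  · rw [hij]
  · have h1 := opP_opM i j
    have h2 := opP_opM j i
    rw [if_neg hij, add_zero] at h1
    rw [if_neg (Ne.symm hij), add_zero] at h2
    exact alg_pp (R := Module.End ℂ (SmT n)) _ _ (opP_opP i j) (opM_opM i j) h1 h2

private theorem opDm_opDm (ε : Fin n → ℝ) (a : ℝ) (i j : Fin n) :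
    opDm ε a i * opDm ε a j = opDm ε a j * opDm ε a i := by
  by_cases hij : i = j
  · rw [hij]
  · have h1 := opP_opM i j
    have h2 := opP_opM j i
    rw [if_neg hij, add_zero] at h1
    rw [if_neg (Ne.symm hij), add_zero] at h2
    exact alg_mm (R := Module.End ℂ (SmT n)) _ _ (opP_opP i j) (opM_opM i j) h1 h2

private theorem opDp_opDm (ε : Fin n → ℝ) (a : ℝ) (i j : Fin n) :
    opDp ε a i * opDm ε a j = opDm ε a j * opDp ε a i +
      (if i = j then -(a * ε j : ℂ) else 0) • (1 : Module.End ℂ (SmT n)) := by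
  by_cases hij : i = j
  · subst hij
    have h1 := opP_opM i i
    rw [if_pos rfl] at h1
    rw [if_pos rfl]
    unfold opDp opDm
    rw [show (2 * a * ε i : ℂ) = 2 * (a * ε i) by ring]
    exact alg_pmi (R := Module.End ℂ (SmT n)) _ h1
  · have h1 := opP_opM i j
    have h2 := opP_opM j i
    rw [if_neg hij, add_zero] at h1
    rw [if_neg (Ne.symm hij), add_zero] at h2
    rw [if_neg hij, zero_smul, add_zero]
    exact alg_pm (R := Module.End ℂ (SmT n)) _ _ (opP_opP i j) (opM_opM i j) h1 h2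

private def oA (ε : Fin n → ℝ) (a : ℝ) (r : Fin n → ℂ) : Module.End ℂ (SmT n) :=
  -∑ j, ((ε j : ℂ) * r j) • opDp ε a j

private def oB (ε : Fin n → ℝ) (a : ℝ) (r : Fin n → ℂ) : Module.End ℂ (SmT n) :=
  -∑ j, ((ε j : ℂ) * conj (r j)) • opDm ε a j

private theorem oA_oA (ε : Fin n → ℝ) (a : ℝ) (r r' : Fin n → ℂ) :
    oA ε a r * oA ε a r' = oA ε a r' * oA ε a r := by
  refine alg_ss (R := Module.End ℂ (SmT n)) (ι := Fin n) _ _ _ fun i j => ?_
  rw [smul_mul_assoc, mul_smul_comm, smul_mul_assoc, mul_smul_comm, opDp_opDp ε a i j, smul_comm]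

private theorem oB_oB (ε : Fin n → ℝ) (a : ℝ) (r r' : Fin n → ℂ) :
    oB ε a r * oB ε a r' = oB ε a r' * oB ε a r := by
  refine alg_ss (R := Module.End ℂ (SmT n)) (ι := Fin n) _ _ _ fun i j => ?_
  rw [smul_mul_assoc, mul_smul_comm, smul_mul_assoc, mul_smul_comm, opDm_opDm ε a i j, smul_comm]

private theorem oA_oB (ε : Fin n → ℝ) (hε : ∀ j, ε j = 1 ∨ ε j = -1) (a : ℝ) (r r' : Fin n → ℂ) :
    oA ε a r * oB ε a r' = oB ε a r' * oA ε a r +
      (∑ j, -((a : ℂ) * ((ε j : ℂ) * r j * conj (r' j)))) • (1 : Module.End ℂ (SmT n)) := by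
  refine alg_ss' (R := Module.End ℂ (SmT n)) (ι := Fin n) _ _ _ _ fun i j => ?_
  rw [smul_mul_assoc, mul_smul_comm, smul_mul_assoc, mul_smul_comm, opDp_opDm ε a i j]
  by_cases hij : i = j
  · subst hij
    rw [if_pos rfl, if_pos rfl]
    have h2 : (ε i : ℂ) * (ε i : ℂ) = 1 := by
      rcases hε i with h | h <;> rw [h] <;> norm_num
    rw [smul_add, smul_add, smul_comm ((ε i : ℂ) * r i) ((ε i : ℂ) * conj (r' i))]
    congr 1
    rw [smul_smul, smul_smul]
    congr 1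
    linear_combination (-(a : ℂ) * (ε i : ℂ) * r i * conj (r' i)) * h2
  · rw [if_neg hij, if_neg hij, zero_smul, add_zero, add_zero, smul_comm]

private def slT (F : XX n → ℂ) (hF : ContDiff ℝ ∞ F) (g : Mat n) : SmT n :=
  ⟨fun t => F (g, t), hF.comp (contDiff_const.prodMk contDiff_id)⟩

private theorem slT_dT (F : XX n → ℂ) (hF : ContDiff ℝ ∞ F) (g : Mat n) (t : Fin n → ℝ)
    (j : Fin n) : dT j F (g, t) = (opP j (slT F hF g)).1 t := by
  have h1 : DifferentiableAt ℝ F (g, t) := hF.differentiable (by simp) _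
  have h2 : HasFDerivAt (fun t : Fin n → ℝ => ((g, t) : XX n))
      (ContinuousLinearMap.inr ℝ (Mat n) (Fin n → ℝ)) t := hasFDerivAt_prodMk_right g t
  have h3 := h1.hasFDerivAt.comp t h2
  change _ = fderiv ℝ (fun t => F (g, t)) t (Pi.single j 1)
  have h4 : fderiv ℝ (fun t => F (g, t)) t =
    (fderiv ℝ F (g, t)).comp (ContinuousLinearMap.inr ℝ (Mat n) (Fin n → ℝ)) := h3.fderiv
  rw [h4]
  rfl

private theorem SmT_sum {ι : Type*} (s : Finset ι) (f : ι → SmT n) (t : Fin n → ℝ) :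
    (∑ i ∈ s, f i).1 t = ∑ i ∈ s, (f i).1 t := by
  rw [Submodule.coe_sum, Finset.sum_apply]

private theorem slT_opA (ε : Fin n → ℝ) (a : ℝ) (r : Mat n → Fin n → ℂ) (F : XX n → ℂ)
    (hF : ContDiff ℝ ∞ F) (g : Mat n) (t : Fin n → ℝ) :
    opA ε a r F (g, t) = (oA ε a (r g) (slT F hF g)).1 t := by
  have h1 : (oA ε a (r g) (slT F hF g)).1 t =
      -∑ j, ((ε j : ℂ) * r g j) * ((1 / 2) * ((opP j (slT F hF g)).1 t +
        (2 * a * ε j : ℂ) * (((t j : ℝ) : ℂ) * F (g, t)))) := by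
    unfold oA
    rw [LinearMap.neg_apply, LinearMap.sum_apply]
    change -((∑ j, (((ε j : ℂ) * r g j) • opDp ε a j) (slT F hF g)).1 t) = _
    rw [SmT_sum]
    rfl
  rw [h1]
  simp only [opA]
  congr 1
  refine Finset.sum_congr rfl fun j _ => ?_
  rw [slT_dT F hF]
  ring

private theorem slT_opB (ε : Fin n → ℝ) (a : ℝ) (r : Mat n → Fin n → ℂ) (F : XX n → ℂ)
    (hF : ContDiff ℝ ∞ F) (g : Mat n) (t : Fin n → ℝ) :
    opB ε a r F (g, t) = (oB ε a (r g) (slT F hF g)).1 t := by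
  have h1 : (oB ε a (r g) (slT F hF g)).1 t =
      -∑ j, ((ε j : ℂ) * conj (r g j)) * ((1 / 2) * ((opP j (slT F hF g)).1 t -
        (2 * a * ε j : ℂ) * (((t j : ℝ) : ℂ) * F (g, t)))) := by
    unfold oB
    rw [LinearMap.neg_apply, LinearMap.sum_apply]
    change -((∑ j, (((ε j : ℂ) * conj (r g j)) • opDm ε a j) (slT F hF g)).1 t) = _
    rw [SmT_sum]
    rfl
  rw [h1]
  simp only [opB]
  congr 1
  refine Finset.sum_congr rfl fun j _ => ?_
  rw [slT_dT F hF]
  ring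

private theorem slT_opA' (ε : Fin n → ℝ) (a : ℝ) (r : Mat n → Fin n → ℂ) (F : XX n → ℂ)
    (hF : ContDiff ℝ ∞ F) (h : ContDiff ℝ ∞ (opA ε a r F)) (g : Mat n) :
    slT (opA ε a r F) h g = oA ε a (r g) (slT F hF g) :=
  Subtype.ext (funext fun t => slT_opA ε a r F hF g t)

private theorem slT_opB' (ε : Fin n → ℝ) (a : ℝ) (r : Mat n → Fin n → ℂ) (F : XX n → ℂ)
    (hF : ContDiff ℝ ∞ F) (h : ContDiff ℝ ∞ (opB ε a r F)) (g : Mat n) :
    slT (opB ε a r F) h g = oB ε a (r g) (slT F hF g) :=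
  Subtype.ext (funext fun t => slT_opB ε a r F hF g t)

theorem opA_opA (ε : Fin n → ℝ) (a : ℝ) {Ω K : Set (Mat n)} (hΩ : IsOpen Ω) (hK : IsCompact K)
    (hKΩ : K ⊆ Ω) {r r' : Mat n → Fin n → ℂ} (hr : ContDiffOn ℝ ∞ r Ω)
    (hr' : ContDiffOn ℝ ∞ r' Ω) {F : XX n → ℂ} (hF : F ∈ TFK K) :
    opA ε a r (opA ε a r' F) = opA ε a r' (opA ε a r F) := by
  have h1 := (opA_mem ε a hΩ hK hKΩ hr hF).1
  have h2 := (opA_mem ε a hΩ hK hKΩ hr' hF).1
  funext x
  obtain ⟨g, t⟩ := x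
  rw [slT_opA ε a r _ h2, slT_opA ε a r' _ h1, slT_opA' ε a r F hF.1 h1,
    slT_opA' ε a r' F hF.1 h2]
  exact congrArg (fun L : Module.End ℂ (SmT n) => (L (slT F hF.1 g)).1 t)
    (oA_oA ε a (r g) (r' g))

theorem opB_opB (ε : Fin n → ℝ) (a : ℝ) {Ω K : Set (Mat n)} (hΩ : IsOpen Ω) (hK : IsCompact K)
    (hKΩ : K ⊆ Ω) {r r' : Mat n → Fin n → ℂ} (hr : ContDiffOn ℝ ∞ r Ω)
    (hr' : ContDiffOn ℝ ∞ r' Ω) {F : XX n → ℂ} (hF : F ∈ TFK K) :
    opB ε a r (opB ε a r' F) = opB ε a r' (opB ε a r F) := by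
  have h1 := (opB_mem ε a hΩ hK hKΩ hr hF).1
  have h2 := (opB_mem ε a hΩ hK hKΩ hr' hF).1
  funext x
  obtain ⟨g, t⟩ := x
  rw [slT_opB ε a r _ h2, slT_opB ε a r' _ h1, slT_opB' ε a r F hF.1 h1,
    slT_opB' ε a r' F hF.1 h2]
  exact congrArg (fun L : Module.End ℂ (SmT n) => (L (slT F hF.1 g)).1 t)
    (oB_oB ε a (r g) (r' g))

theorem opA_opB (ε : Fin n → ℝ) (hε : ∀ j, ε j = 1 ∨ ε j = -1) (a : ℝ) {Ω K : Set (Mat n)}
    (hΩ : IsOpen Ω) (hK : IsCompact K) (hKΩ : K ⊆ Ω) {r r' : Mat n → Fin n → ℂ}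
    (hr : ContDiffOn ℝ ∞ r Ω) (hr' : ContDiffOn ℝ ∞ r' Ω) {F : XX n → ℂ} (hF : F ∈ TFK K) :
    opA ε a r (opB ε a r' F) =
      opB ε a r' (opA ε a r F) - (a : ℂ) • mG (fun g => hf ε (r g) (r' g)) F := by
  have h1 := (opA_mem ε a hΩ hK hKΩ hr hF).1
  have h2 := (opB_mem ε a hΩ hK hKΩ hr' hF).1
  funext x
  obtain ⟨g, t⟩ := x
  have h3 := congrArg (fun L : Module.End ℂ (SmT n) => (L (slT F hF.1 g)).1 t)
    (oA_oB ε hε a (r g) (r' g))
  rw [slT_opA ε a r _ h2, slT_opB' ε a r' F hF.1 h2]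
  refine h3.trans ?_
  rw [Pi.sub_apply, slT_opB ε a r' _ h1, slT_opA' ε a r F hF.1 h1, sub_eq_add_neg]
  have h4 : (∑ j, -((a : ℂ) * ((ε j : ℂ) * r g j * conj (r' g j)))) = -((a : ℂ) * hf ε (r g) (r' g)) := by
    rw [Finset.sum_neg_distrib, ← Finset.mul_sum]
    rfl
  change _ + (∑ j, -((a : ℂ) * ((ε j : ℂ) * r g j * conj (r' g j)))) * F (g, t) =
    _ + -((a : ℂ) * (hf ε (r g) (r' g) * F (g, t)))
  rw [h4, neg_mul, mul_assoc]
  rfl

end

end Pool.Agent.Work.MP_dd0ddf_al.AR
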