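import Pool.Agent.Work.MP_dd0ddf_al.AR.TF1
import Pool.Agent.Work.MP_dd0ddf_al.AR.TF2
import Pool.Agent.Work.MP_dd0ddf_al.AR.Heis

/-!
# SysX (S): restriction to open subsets, polarisation

`Zm` is additive up to polarisation: `Xm p q = Zm (p - i q) - Zm p - Zm q` (entries:
`i ε_j conj(p_j - i q_j) (p_l - i q_l) = i ε_j (conj p_j + i conj q_j)(p_l - i q_l)`).  So
`dG (g Xm p q) F = dG (g Zm (p - i q)) F - dG (g Zm p) F - dG (g Zm q) F` and
`opA (p - i q) = opA p - i opA q`, `opB (p - i q) = opB p + i opB q` (rows constant), hence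
`opB (p-iq) opA (p-iq) - opB p opA p - opB q opA q = - i opB p opA q + i opB q opA p`, times
`i / a`: `(1/a)(opB p opA q - opB q opA p)`; and
`hf (p-iq) (p-iq) - hf p p - hf q q = i hf p q - i hf q p`, times `i c1`: `c1 (hf q p - hf p q)`.
-/

set_option linter.unusedSectionVars false

namespace Pool.Agent.Work.MP_dd0ddf_al.AR

open scoped SchwartzMap Matrix.Norms.Elementwise ComplexConjugate ContDiff Topology LineDeriv
open Matrix MeasureTheory Filter

noncomputable section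

variable {n : ℕ}

theorem Sys.mono {ε : Fin n → ℝ} {a : ℝ} {γ γ' : Fin n → ℂ} {c1 : ℂ} {Ω Ω' : Set (Mat n)}
    (h : Ω ⊆ Ω') {T : (XX n → ℂ) →ₗ[ℂ] ℂ} (hS : Sys ε a γ γ' c1 Ω' T) :
    Sys ε a γ γ' c1 Ω T :=
  ⟨fun K hK hKΩ => hS.dist K hK (hKΩ.trans h),
    fun k l hkl z F hF => hS.up k l hkl z F (TFs_mono h hF),
    fun k F hF => hS.re k F (TFs_mono h hF),
    fun k F hF => hS.im k F (TFs_mono h hF),
    fun u F hF => hS.Z u F (TFs_mono h hF)⟩

theorem Xm_eq (ε : Fin n → ℝ) (p q : Fin n → ℂ) :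
    Xm ε p q = Zm ε (p - Complex.I • q) - Zm ε p - Zm ε q := by
  ext j l
  simp only [Xm, Zm, Matrix.of_apply, Matrix.sub_apply, Pi.sub_apply, Pi.smul_apply, smul_eq_mul,
    map_sub, map_mul, Complex.conj_I]
  linear_combination ((ε j : ℂ) * conj (q j) * q l * Complex.I
    + (ε j : ℂ) * conj (p j) * q l - (ε j : ℂ) * conj (q j) * p l) * Complex.I_sq

theorem Xm_I (ε : Fin n → ℝ) (p : Fin n → ℂ) : Xm ε p (Complex.I • p) = (2 : ℂ) • Zm ε p := by
  ext j l
  simp only [Xm, Zm, Matrix.of_apply, Matrix.smul_apply, Pi.smul_apply, smul_eq_mul,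
    map_mul, Complex.conj_I]
  ring

theorem sys_X {ε : Fin n → ℝ} {a : ℝ} {γ γ' : Fin n → ℂ} {c1 : ℂ} {Ω : Set (Mat n)}
    {T : (XX n → ℂ) →ₗ[ℂ] ℂ} (hS : Sys ε a γ γ' c1 Ω T) (p q : Fin n → ℂ) {F : XX n → ℂ}
    (hF : F ∈ TFs Ω) :
    T (dG (fun g => g * Xm ε p q) F) =
      (1 / a) * (T (opB ε a (fun _ => p) (opA ε a (fun _ => q) F)) -
        T (opB ε a (fun _ => q) (opA ε a (fun _ => p) F))) +
      c1 * (hf ε q p - hf ε p q) * T F := by
  obtain ⟨K, hK, hKΩ, hFK⟩ := hF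
  have hF' : F ∈ TFs Ω := ⟨K, hK, hKΩ, hFK⟩
  have hcst : ∀ r : Fin n → ℂ, ContDiffOn ℝ ∞ (fun _ : Mat n => r) Set.univ :=
    fun r => contDiffOn_const
  have hA : ∀ r : Fin n → ℂ, opA ε a (fun _ => r) F ∈ TFK K := fun r =>
    opA_mem ε a isOpen_univ hK (Set.subset_univ K) (hcst r) hFK
  have e1 : dG (fun g => g * Xm ε p q) F =
      dG (fun g => g * Zm ε (p - Complex.I • q)) F - dG (fun g => g * Zm ε p) F -
        dG (fun g => g * Zm ε q) F := by
    funext x
    change fderiv ℝ F x (x.1 * Xm ε p q, 0) =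
      fderiv ℝ F x (x.1 * Zm ε (p - Complex.I • q), 0) - fderiv ℝ F x (x.1 * Zm ε p, 0) -
        fderiv ℝ F x (x.1 * Zm ε q, 0)
    rw [← map_sub, ← map_sub, Prod.mk_sub_mk, Prod.mk_sub_mk, Xm_eq, mul_sub, mul_sub, sub_zero,
      sub_zero]
  have eA : opA ε a (fun _ => p - Complex.I • q) F =
      opA ε a (fun _ => p) F + (-Complex.I) • opA ε a (fun _ => q) F := by
    funext x
    simp only [opA, Pi.sub_apply, Pi.add_apply, Pi.smul_apply, smul_eq_mul]
    rw [mul_neg, Finset.mul_sum, ← neg_add, ← Finset.sum_add_distrib]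
    congr 1
    refine Finset.sum_congr rfl fun j _ => ?_
    ring
  have eB : ∀ G : XX n → ℂ, opB ε a (fun _ => p - Complex.I • q) G =
      opB ε a (fun _ => p) G + Complex.I • opB ε a (fun _ => q) G := by
    intro G
    funext x
    simp only [opB, Pi.sub_apply, Pi.add_apply, Pi.smul_apply, smul_eq_mul, map_sub, map_mul,
      Complex.conj_I]
    rw [mul_neg, Finset.mul_sum, ← neg_add, ← Finset.sum_add_distrib]
    congr 1
    refine Finset.sum_congr rfl fun j _ => ?_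
    ring
  have eBA : opB ε a (fun _ => p - Complex.I • q) (opA ε a (fun _ => p - Complex.I • q) F) =
      opB ε a (fun _ => p) (opA ε a (fun _ => p) F) +
        (-Complex.I) • opB ε a (fun _ => p) (opA ε a (fun _ => q) F) +
        Complex.I • (opB ε a (fun _ => q) (opA ε a (fun _ => p) F) +
          (-Complex.I) • opB ε a (fun _ => q) (opA ε a (fun _ => q) F)) := by
    rw [eA, eB, opB_add ε a _ (hA p) ((TFK K).smul_mem _ (hA q)),
      opB_add ε a _ (hA p) ((TFK K).smul_mem _ (hA q)), opB_smul ε a _ _ (hA q),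
      opB_smul ε a _ _ (hA q)]
  have ehf : hf ε (p - Complex.I • q) (p - Complex.I • q) =
      hf ε p p + Complex.I * hf ε p q - Complex.I * hf ε q p + hf ε q q := by
    simp only [hf, Finset.mul_sum]
    rw [← Finset.sum_add_distrib, ← Finset.sum_sub_distrib, ← Finset.sum_add_distrib]
    refine Finset.sum_congr rfl fun j _ => ?_
    simp only [Pi.sub_apply, Pi.smul_apply, smul_eq_mul, map_sub, map_mul, Complex.conj_I]
    linear_combination (-(ε j : ℂ) * q j * conj (q j)) * Complex.I_sq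
  rw [e1, map_sub, map_sub, hS.Z _ F hF', hS.Z _ F hF', hS.Z _ F hF', eBA, ehf]
  simp only [map_add, map_smul, smul_eq_mul]
  generalize T (opB ε a (fun _ => p) (opA ε a (fun _ => p) F)) = t1
  generalize T (opB ε a (fun _ => p) (opA ε a (fun _ => q) F)) = t2
  generalize T (opB ε a (fun _ => q) (opA ε a (fun _ => p) F)) = t3
  generalize T (opB ε a (fun _ => q) (opA ε a (fun _ => q) F)) = t4
  generalize T F = t
  have hI : Complex.I * Complex.I = -1 := Complex.I_mul_I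
  rw [div_eq_mul_inv, div_eq_mul_inv]
  linear_combination (-((a : ℂ)⁻¹) * t2 + (a : ℂ)⁻¹ * t3 - (a : ℂ)⁻¹ * Complex.I * t4
    + c1 * hf ε p q * t - c1 * hf ε q p * t) * hI

end

end Pool.Agent.Work.MP_dd0ddf_al.AR
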