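import Pool.Agent.Work.MP_dd0ddf_al.AR.GSa

/-!
# GSb (M): smoothness of the Gram-Schmidt projections, openness of `Od`

By induction on `j ≤ n - 1 - m`: `g ↦ prj ε g j (x g)` is smooth on `Ω ⊆ Od ε (m+1)` for every
smooth `x : Mat n → (Fin n → ℂ)`: the step divides by `<v, v>`, `v = prj ε g j (g k) = vv ε k g`,
`k = n-1-j > m`, which does not vanish on `Od ε (m+1)`; `hf ε` of smooth rows is smooth
(`contDiffOn_hf`).  `isOpen_Od`: descending induction on `d`: for `d ≥ n` it is
`{det ≠ 0}`; `Od ε d = Od ε (d+1) ∩ {<vv d, vv d> ≠ 0}` for `d < n` and `vv ε d` is continuous on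
the open set `Od ε (d+1)`.
-/

set_option linter.unusedSectionVars false

namespace Pool.Agent.Work.MP_dd0ddf_al.AR

open scoped SchwartzMap Matrix.Norms.Elementwise ComplexConjugate ContDiff Topology LineDeriv
open Matrix MeasureTheory Filter

noncomputable section

variable {n : ℕ}

private theorem contDiff_row (k : Fin n) : ContDiff ℝ ∞ (fun g : Mat n => g k) :=
  contDiff_apply ℝ (Fin n → ℂ) k

private theorem contDiff_entry (k l : Fin n) : ContDiff ℝ ∞ (fun g : Mat n => g k l) :=
  (contDiff_apply ℝ ℂ l).comp (contDiff_row k)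

private theorem prj_smooth {ε : Fin n → ℝ} {m : Fin n} {Ω : Set (Mat n)}
    (hΩ : Ω ⊆ Od ε ((m : ℕ) + 1)) (j : ℕ) (hj : j ≤ n - 1 - (m : ℕ)) :
    ∀ x : Mat n → Fin n → ℂ, ContDiffOn ℝ ∞ x Ω →
      ContDiffOn ℝ ∞ (fun g => prj ε g j (x g)) Ω := by
  induction j with
  | zero =>
    intro x hx
    exact hx
  | succ j ih =>
    intro x hx
    have hmn := m.isLt
    have hjn : n - 1 - j < n := by omega
    have ih' := ih (by omega)
    have hv : ContDiffOn ℝ ∞ (fun g : Mat n => prj ε g j (g ⟨n - 1 - j, hjn⟩)) Ω :=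
      ih' _ (contDiff_row _).contDiffOn
    have hne : ∀ g ∈ Ω, hf ε (prj ε g j (g ⟨n - 1 - j, hjn⟩))
        (prj ε g j (g ⟨n - 1 - j, hjn⟩)) ≠ 0 := by
      intro g hg
      have h1 := (hΩ hg).2 ⟨n - 1 - j, hjn⟩ (by
        show (m : ℕ) + 1 ≤ n - 1 - j
        omega)
      have e : n - 1 - (n - 1 - j) = j := by omega
      unfold vv hat at h1
      simp only [e] at h1
      exact h1
    have heq : (fun g => prj ε g (j + 1) (x g)) = fun g => prj ε g j (x g) -
        (hf ε (x g) (prj ε g j (g ⟨n - 1 - j, hjn⟩)) *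
          (hf ε (prj ε g j (g ⟨n - 1 - j, hjn⟩)) (prj ε g j (g ⟨n - 1 - j, hjn⟩)))⁻¹) •
            prj ε g j (g ⟨n - 1 - j, hjn⟩) := by
      funext g
      simp only [prj, dif_pos hjn, div_eq_mul_inv]
    rw [heq]
    exact (ih' x hx).sub
      (((contDiffOn_hf hx hv).mul ((contDiffOn_hf hv hv).inv hne)).smul hv)

theorem contDiffOn_hat {ε : Fin n → ℝ} {m : Fin n} {Ω : Set (Mat n)}
    (hΩ : Ω ⊆ Od ε ((m : ℕ) + 1)) {x : Mat n → Fin n → ℂ} (hx : ContDiffOn ℝ ∞ x Ω) :
    ContDiffOn ℝ ∞ (fun g => hat ε m g (x g)) Ω :=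
  prj_smooth hΩ _ le_rfl x hx

theorem contDiffOn_vv {ε : Fin n → ℝ} {m : Fin n} {Ω : Set (Mat n)}
    (hΩ : Ω ⊆ Od ε ((m : ℕ) + 1)) : ContDiffOn ℝ ∞ (vv ε m) Ω :=
  contDiffOn_hat hΩ (contDiff_row m).contDiffOn

theorem isOpen_Od (ε : Fin n → ℝ) (d : ℕ) : IsOpen (Od ε d) := by
  have key : ∀ j : ℕ, IsOpen (Od ε (n - j)) := by
    intro j
    induction j with
    | zero =>
      rw [Nat.sub_zero, Od_top]
      exact isOpen_GLs n
    | succ j ih =>
      by_cases h : j < n
      · have hlt : n - (j + 1) < n := by omega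
        have e : n - (j + 1) + 1 = n - j := by omega
        have h1 := Od_succ ε (⟨n - (j + 1), hlt⟩ : Fin n)
        simp only [e] at h1
        rw [h1]
        have h2 : ContDiffOn ℝ ∞ (vv ε (⟨n - (j + 1), hlt⟩ : Fin n)) (Od ε (n - j)) := by
          apply contDiffOn_vv
          show Od ε (n - j) ⊆ Od ε (n - (j + 1) + 1)
          rw [e]
        have h3 := (contDiffOn_hf (ε := ε) h2 h2).continuousOn
        exact h3.isOpen_inter_preimage ih isOpen_ne
      · have e : n - (j + 1) = n - j := by omega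
        rw [e]
        exact ih
  by_cases h : d ≤ n
  · have h1 := key (n - d)
    have e : n - (n - d) = d := by omega
    rwa [e] at h1
  · have h1 : Od ε d = GLs n := by
      ext g
      constructor
      · intro hg
        exact hg.1
      · intro hg
        refine ⟨hg, fun l hl => ?_⟩
        have := l.isLt
        omega
    rw [h1]
    exact isOpen_GLs n

private theorem contDiff_det {M : Mat n → Mat n}
    (hM : ∀ i j, ContDiff ℝ ∞ (fun g => M g i j)) : ContDiff ℝ ∞ (fun g => (M g).det) := by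
  have e : (fun g => (M g).det) = fun g =>
      ∑ σ : Equiv.Perm (Fin n), ((Equiv.Perm.sign σ : ℤ) : ℂ) * ∏ i, M g (σ i) i := by
    funext g
    rw [Matrix.det_apply']
  rw [e]
  apply ContDiff.sum
  intro σ _
  apply contDiff_const.mul
  apply contDiff_prod
  intro i _
  exact hM _ _

/-- `g⁻¹` (matrix inverse) is smooth on `GL_n(ℂ)` -/
theorem contDiffOn_inv : ContDiffOn ℝ ∞ (fun g : Mat n => g⁻¹) (GLs n) := by
  have hdet : ContDiff ℝ ∞ (fun g : Mat n => g.det) :=
    contDiff_det (M := fun g => g) contDiff_entry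
  have hadj : ∀ i j : Fin n, ContDiff ℝ ∞ (fun g : Mat n => g.adjugate i j) := by
    intro i j
    have e : (fun g : Mat n => g.adjugate i j) =
        fun g => (g.updateRow j (Pi.single i 1)).det := by
      funext g
      rw [Matrix.adjugate_apply]
    rw [e]
    apply contDiff_det
    intro k l
    by_cases hk : k = j
    · subst hk
      simp only [Matrix.updateRow_self]
      exact contDiff_const
    · simp only [Matrix.updateRow_ne hk]
      exact contDiff_entry k l
  have hent : ∀ i j : Fin n, ContDiffOn ℝ ∞ (fun g : Mat n => g⁻¹ i j) (GLs n) := by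
    intro i j
    have e : (fun g : Mat n => g⁻¹ i j) = fun g => (g.det)⁻¹ * g.adjugate i j := by
      funext g
      rw [Matrix.inv_def, Matrix.smul_apply, Ring.inverse_eq_inv', smul_eq_mul]
    rw [e]
    exact (hdet.contDiffOn.inv fun g hg => hg).mul (hadj i j).contDiffOn
  have h1 : ∀ i : Fin n, ContDiffOn ℝ ∞ (fun g : Mat n => g⁻¹ i) (GLs n) := fun i =>
    contDiffOn_pi.2 (hent i)
  exact contDiffOn_pi.2 h1

end

end Pool.Agent.Work.MP_dd0ddf_al.AR
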