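import Pool.Agent.Work.MP_dd0ddf_al.AR.TF1

/-!
# Inf (S-M): rows which are infinitesimally equivariant under the Lie algebra of `U(V)`

`InfH ε Ω v`: the derivative of `v` at `g ∈ Ω` in the direction `g X`, `X = Xm ε p q`, is `v(g) X`.
`x X = <x,p> q - <x,q> p` for row vectors (`vecMul_Xm`).  For `v, w` such rows the derivative of
`<v, w>` is `<v X, w> + <v, w X> = 0`: `<vX, w> = <v,p><q,w> - <v,q><p,w>`,
`<v, wX> = conj<w,p> <v,q> - conj<w,q> <v,p>`, `conj <x,y> = <y,x>` (`ε` is real).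
(`Ω` is open, the functions are smooth on `Ω`, so differentiable at `g ∈ Ω`; product rules; the row
`g ↦ g k` is linear: `HasFDerivAt` of a continuous linear map.)
-/

set_option linter.unusedSectionVars false

namespace Pool.Agent.Work.MP_dd0ddf_al.AR

open scoped SchwartzMap Matrix.Norms.Elementwise ComplexConjugate ContDiff Topology LineDeriv
open Matrix MeasureTheory Filter

noncomputable section

variable {n : ℕ}

theorem vecMul_Xm (ε : Fin n → ℝ) (x p q : Fin n → ℂ) :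
    x ᵥ* Xm ε p q = hf ε x p • q - hf ε x q • p := by
  funext l
  simp only [Matrix.vecMul, dotProduct, Xm, Matrix.of_apply, hf, Pi.sub_apply, Pi.smul_apply,
    smul_eq_mul, Finset.sum_mul]
  rw [← Finset.sum_sub_distrib]
  exact Finset.sum_congr rfl fun j _ => by ring

theorem vecMul_Zm (ε : Fin n → ℝ) (x u : Fin n → ℂ) :
    x ᵥ* Zm ε u = (Complex.I * hf ε x u) • u := by
  funext l
  simp only [Matrix.vecMul, dotProduct, Zm, Matrix.of_apply, hf, Pi.smul_apply,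
    smul_eq_mul, Finset.sum_mul, Finset.mul_sum]
  exact Finset.sum_congr rfl fun j _ => by ring

theorem conj_hf (ε : Fin n → ℝ) (x y : Fin n → ℂ) : conj (hf ε x y) = hf ε y x := by
  simp only [hf, map_sum, map_mul, Complex.conj_ofReal, Complex.conj_conj]
  exact Finset.sum_congr rfl fun j _ => by ring

private theorem hf_sub_left (ε : Fin n → ℝ) (x y z : Fin n → ℂ) :
    hf ε (x - y) z = hf ε x z - hf ε y z := by
  simp only [hf, Pi.sub_apply]
  rw [← Finset.sum_sub_distrib]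
  exact Finset.sum_congr rfl fun j _ => by ring

private theorem hf_smul_left (ε : Fin n → ℝ) (c : ℂ) (x z : Fin n → ℂ) :
    hf ε (c • x) z = c * hf ε x z := by
  simp only [hf, Pi.smul_apply, smul_eq_mul, Finset.mul_sum]
  exact Finset.sum_congr rfl fun j _ => by ring

private theorem hf_sub_right (ε : Fin n → ℝ) (x y z : Fin n → ℂ) :
    hf ε x (y - z) = hf ε x y - hf ε x z := by
  simp only [hf, Pi.sub_apply, map_sub]
  rw [← Finset.sum_sub_distrib]
  exact Finset.sum_congr rfl fun j _ => by ring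

private theorem hf_smul_right (ε : Fin n → ℝ) (c : ℂ) (x z : Fin n → ℂ) :
    hf ε x (c • z) = conj c * hf ε x z := by
  simp only [hf, Pi.smul_apply, smul_eq_mul, Finset.mul_sum, map_mul]
  exact Finset.sum_congr rfl fun j _ => by ring

section Gen

variable {E F : Type*} [NormedAddCommGroup E] [NormedSpace ℝ E] [NormedAddCommGroup F]
  [NormedSpace ℝ F]

private theorem gen_hf (ε : Fin n → ℝ) {v w : E → Fin n → ℂ} {g : E}
    (hv : DifferentiableAt ℝ v g) (hw : DifferentiableAt ℝ w g) (H : E) :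
    fderiv ℝ (fun g => hf ε (v g) (w g)) g H =
      hf ε (fderiv ℝ v g H) (w g) + hf ε (v g) (fderiv ℝ w g H) := by
  have h1 : ∀ j, HasFDerivAt (fun g => v g j)
      ((ContinuousLinearMap.proj j).comp (fderiv ℝ v g)) g := fun j =>
    hasFDerivAt_pi'.1 hv.hasFDerivAt j
  have h2 : ∀ j, HasFDerivAt (fun g => w g j)
      ((ContinuousLinearMap.proj j).comp (fderiv ℝ w g)) g := fun j =>
    hasFDerivAt_pi'.1 hw.hasFDerivAt j
  have h3 : ∀ j, HasFDerivAt (fun g => conj (w g j))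
      ((Complex.conjCLE : ℂ →L[ℝ] ℂ).comp
        ((ContinuousLinearMap.proj j).comp (fderiv ℝ w g))) g := fun j =>
    (Complex.conjCLE : ℂ →L[ℝ] ℂ).hasFDerivAt.comp g (h2 j)
  have h4 := HasFDerivAt.fun_sum (u := Finset.univ) fun j _ =>
    ((h1 j).const_mul (ε j : ℂ)).mul (h3 j)
  have h5 : fderiv ℝ (fun g => hf ε (v g) (w g)) g = _ := h4.fderiv
  rw [h5, _root_.sum_apply]
  simp only [hf]
  rw [← Finset.sum_add_distrib]
  refine Finset.sum_congr rfl fun j _ => ?_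
  simp
  ring

private theorem gen_sub {v w : E → F} {g : E} (hv : DifferentiableAt ℝ v g)
    (hw : DifferentiableAt ℝ w g) (H : E) :
    fderiv ℝ (fun g => v g - w g) g H = fderiv ℝ v g H - fderiv ℝ w g H := by
  rw [fderiv_fun_sub hv hw]
  rfl

private theorem gen_smul {c : E → ℂ} {v : E → Fin n → ℂ} {g : E} (hc : DifferentiableAt ℝ c g)
    (hv : DifferentiableAt ℝ v g) (H : E) :
    fderiv ℝ (fun g => c g • v g) g H = c g • fderiv ℝ v g H + fderiv ℝ c g H • v g := by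
  rw [fderiv_fun_smul hc hv]
  rfl

private theorem gen_difAt {Ω : Set E} (hΩ : IsOpen Ω) {v : E → F} (hv : ContDiffOn ℝ ∞ v Ω)
    {g : E} (hg : g ∈ Ω) : DifferentiableAt ℝ v g :=
  (hv.contDiffAt (hΩ.mem_nhds hg)).differentiableAt (by simp)

private theorem gen_cd {ε : Fin n → ℝ} {Ω : Set E} {v w : E → Fin n → ℂ}
    (hv : ContDiffOn ℝ ∞ v Ω) (hw : ContDiffOn ℝ ∞ w Ω) :
    ContDiffOn ℝ ∞ (fun g => hf ε (v g) (w g)) Ω := by
  have h1 : ∀ j, ContDiffOn ℝ ∞ (fun g => v g j) Ω := contDiffOn_pi.1 hv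
  have h2 : ∀ j, ContDiffOn ℝ ∞ (fun g => w g j) Ω := contDiffOn_pi.1 hw
  have h3 : ∀ j, ContDiffOn ℝ ∞ (fun g => conj (w g j)) Ω := fun j =>
    (Complex.conjCLE : ℂ →L[ℝ] ℂ).contDiff.comp_contDiffOn (h2 j)
  exact ContDiffOn.sum fun j _ => (contDiffOn_const.mul (h1 j)).mul (h3 j)

end Gen

private theorem gen_row (k : Fin n) (g H : Fin n → Fin n → ℂ) :
    fderiv ℝ (fun g : Fin n → Fin n → ℂ => g k) g H = H k := by
  have h : HasFDerivAt (fun g : Fin n → Fin n → ℂ => g k)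
      (ContinuousLinearMap.proj (R := ℝ) (φ := fun _ : Fin n => Fin n → ℂ) k) g :=
    (ContinuousLinearMap.proj (R := ℝ) (φ := fun _ : Fin n => Fin n → ℂ) k).hasFDerivAt
  rw [h.fderiv]
  rfl

/-- infinitesimal equivariance under the Lie algebra of `U(V)` -/
def InfH (ε : Fin n → ℝ) (Ω : Set (Mat n)) (v : Mat n → Fin n → ℂ) : Prop :=
  ∀ g ∈ Ω, ∀ p q : Fin n → ℂ, fderiv ℝ v g (g * Xm ε p q) = v g ᵥ* Xm ε p q

theorem infH_row (ε : Fin n → ℝ) (Ω : Set (Mat n)) (k : Fin n) : InfH ε Ω (fun g => g k) := by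
  intro g _ p q
  have h : fderiv ℝ (fun g : Mat n => g k) g (g * Xm ε p q) = (g * Xm ε p q) k :=
    gen_row k g (g * Xm ε p q)
  exact h.trans (Matrix.mul_apply_eq_vecMul g (Xm ε p q) k)

theorem fderiv_hf_inf {ε : Fin n → ℝ} {Ω : Set (Mat n)} (hΩ : IsOpen Ω)
    {v w : Mat n → Fin n → ℂ} (hv : ContDiffOn ℝ ∞ v Ω) (hw : ContDiffOn ℝ ∞ w Ω)
    (hvH : InfH ε Ω v) (hwH : InfH ε Ω w) {g : Mat n} (hg : g ∈ Ω) (p q : Fin n → ℂ) :
    fderiv ℝ (fun g => hf ε (v g) (w g)) g (g * Xm ε p q) = 0 := by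
  have h : fderiv ℝ (fun g => hf ε (v g) (w g)) g (g * Xm ε p q) =
      hf ε (fderiv ℝ v g (g * Xm ε p q)) (w g) + hf ε (v g) (fderiv ℝ w g (g * Xm ε p q)) :=
    gen_hf (E := Mat n) ε (gen_difAt hΩ hv hg) (gen_difAt hΩ hw hg) _
  rw [h, hvH g hg p q, hwH g hg p q, vecMul_Xm,
    vecMul_Xm, hf_sub_left, hf_smul_left, hf_smul_left, hf_sub_right, hf_smul_right,
    hf_smul_right, conj_hf, conj_hf]
  ring

theorem infH_sub {ε : Fin n → ℝ} {Ω : Set (Mat n)} (hΩ : IsOpen Ω)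
    {v w : Mat n → Fin n → ℂ} (hv : ContDiffOn ℝ ∞ v Ω) (hw : ContDiffOn ℝ ∞ w Ω)
    (hvH : InfH ε Ω v) (hwH : InfH ε Ω w) : InfH ε Ω (fun g => v g - w g) := by
  intro g hg p q
  have h : fderiv ℝ (fun g => v g - w g) g (g * Xm ε p q) =
      fderiv ℝ v g (g * Xm ε p q) - fderiv ℝ w g (g * Xm ε p q) :=
    gen_sub (E := Mat n) (gen_difAt hΩ hv hg) (gen_difAt hΩ hw hg) _
  rw [h, hvH g hg p q, hwH g hg p q, Matrix.sub_vecMul]

theorem infH_smul {ε : Fin n → ℝ} {Ω : Set (Mat n)} (hΩ : IsOpen Ω)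
    {c : Mat n → ℂ} {v : Mat n → Fin n → ℂ} (hc : ContDiffOn ℝ ∞ c Ω)
    (hv : ContDiffOn ℝ ∞ v Ω)
    (hcH : ∀ g ∈ Ω, ∀ p q : Fin n → ℂ, fderiv ℝ c g (g * Xm ε p q) = 0)
    (hvH : InfH ε Ω v) : InfH ε Ω (fun g => c g • v g) := by
  intro g hg p q
  have h : fderiv ℝ (fun g => c g • v g) g (g * Xm ε p q) =
      c g • fderiv ℝ v g (g * Xm ε p q) + fderiv ℝ c g (g * Xm ε p q) • v g :=
    gen_smul (E := Mat n) (gen_difAt hΩ hc hg) (gen_difAt hΩ hv hg) _
  rw [h, hcH g hg p q, hvH g hg p q, zero_smul, add_zero, Matrix.smul_vecMul]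

theorem contDiffOn_hf {ε : Fin n → ℝ} {Ω : Set (Mat n)} {v w : Mat n → Fin n → ℂ}
    (hv : ContDiffOn ℝ ∞ v Ω) (hw : ContDiffOn ℝ ∞ w Ω) :
    ContDiffOn ℝ ∞ (fun g => hf ε (v g) (w g)) Ω :=
  gen_cd (E := Mat n) hv hw

end

end Pool.Agent.Work.MP_dd0ddf_al.AR
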