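import Pool.Agent.Work.MP_dd0ddf_al.AR.GSa
import Pool.Agent.Work.MP_dd0ddf_al.AR.GSb
import Pool.Agent.Work.MP_dd0ddf_al.AR.Inf

/-!
# GSc (M): infinitesimal equivariance of the Gram-Schmidt projections under `U(V)`

Induction on `j ≤ n-1-m`: if `x` is smooth and `InfH ε Ω x`, then `g ↦ prj ε g j (x g)` is `InfH`:
`prj (j+1) x = prj j x - (<x, v>/<v, v>) v` with `v = prj j (g k)` (the row `g k` is `InfH`), the
scalar `<x,v>/<v,v>` has derivative `0` in the directions `g Xm` (`fderiv_hf_inf`, quotient rule),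
then `infH_smul`, `infH_sub`.
-/

set_option linter.unusedSectionVars false

namespace Pool.Agent.Work.MP_dd0ddf_al.AR

open scoped SchwartzMap Matrix.Norms.Elementwise ComplexConjugate ContDiff Topology LineDeriv
open Matrix MeasureTheory Filter

noncomputable section

variable {n : ℕ}

private theorem prj_eq_hat (ε : Fin n → ℝ) {j : ℕ} (h : n - 1 - j < n) (hj : j ≤ n - 1) (g : Mat n)
    (x : Fin n → ℂ) : prj ε g j x = hat ε ⟨n - 1 - j, h⟩ g x := by
  unfold hat
  have : n - 1 - ((⟨n - 1 - j, h⟩ : Fin n) : ℕ) = j := by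
    show n - 1 - (n - 1 - j) = j
    omega
  rw [this]

private theorem contDiffOn_row (Ω : Set (Mat n)) (k : Fin n) :
    ContDiffOn ℝ ∞ (fun g : Mat n => g k) Ω := by
  have h : ContDiff ℝ ∞ (fun g : Fin n → Fin n → ℂ => g k) := contDiff_apply ℝ (Fin n → ℂ) k
  exact ContDiff.contDiffOn h

private theorem fderiv_div_zero {p q : Mat n → ℂ} {g X : Mat n} (hp : DifferentiableAt ℝ p g)
    (hq : DifferentiableAt ℝ q g) (hq0 : q g ≠ 0) (hpX : fderiv ℝ p g X = 0)
    (hqX : fderiv ℝ q g X = 0) : fderiv ℝ (fun g => p g / q g) g X = 0 := by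
  have hl : HasDerivAt (fun t : ℝ => g + t • X) X 0 := by
    have h := ((hasDerivAt_id (0 : ℝ)).smul_const X).const_add g
    rw [one_smul] at h
    exact h
  have hp' : HasDerivAt (fun t : ℝ => p (g + t • X)) (fderiv ℝ p g X) 0 := by
    have h1 : HasFDerivAt p (fderiv ℝ p g) (g + (0 : ℝ) • X) := by
      rw [zero_smul, add_zero]; exact hp.hasFDerivAt
    exact h1.comp_hasDerivAt (0 : ℝ) hl
  have hq' : HasDerivAt (fun t : ℝ => q (g + t • X)) (fderiv ℝ q g X) 0 := by
    have h1 : HasFDerivAt q (fderiv ℝ q g) (g + (0 : ℝ) • X) := by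
      rw [zero_smul, add_zero]; exact hq.hasFDerivAt
    exact h1.comp_hasDerivAt (0 : ℝ) hl
  have hq0' : q (g + (0 : ℝ) • X) ≠ 0 := by
    rw [zero_smul, add_zero]; exact hq0
  have hd := hp'.div hq' hq0'
  have hinv : DifferentiableAt ℝ (fun g => (q g)⁻¹) g :=
    ((differentiableAt_inv (𝕜 := ℂ) hq0).restrictScalars ℝ).comp g hq
  have hdiff : DifferentiableAt ℝ (fun g => p g / q g) g := by
    have h := hp.mul hinv
    have he : (fun g => p g / q g) = p * fun g => (q g)⁻¹ := by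
      funext g
      exact div_eq_mul_inv _ _
    rw [he]
    exact h
  have hc : HasDerivAt (fun t : ℝ => p (g + t • X) / q (g + t • X))
      (fderiv ℝ (fun g => p g / q g) g X) 0 := by
    have h1 : HasFDerivAt (fun g => p g / q g) (fderiv ℝ (fun g => p g / q g) g)
        (g + (0 : ℝ) • X) := by
      rw [zero_smul, add_zero]; exact hdiff.hasFDerivAt
    exact h1.comp_hasDerivAt (0 : ℝ) hl
  have := hc.unique hd
  rw [this, hpX, hqX]
  simp

private theorem infH_prj {ε : Fin n → ℝ} {m : Fin n} {Ω : Set (Mat n)} (hΩo : IsOpen Ω)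
    (hΩ : Ω ⊆ Od ε ((m : ℕ) + 1)) : ∀ j : ℕ, j ≤ n - 1 - m → ∀ x : Mat n → Fin n → ℂ,
    ContDiffOn ℝ ∞ x Ω → InfH ε Ω x → InfH ε Ω (fun g => prj ε g j (x g)) := by
  intro j
  induction j with
  | zero => intro _ x _ hxH; exact hxH
  | succ j ih =>
    intro hj x hx hxH
    have hm := m.2
    have hk : n - 1 - j < n := by omega
    have hj' : j ≤ n - 1 - m := by omega
    have hj'' : j ≤ n - 1 := by omega
    set k : Fin n := ⟨n - 1 - j, hk⟩ with hkdef
    have hkm : (m : ℕ) + 1 ≤ k := by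
      show (m : ℕ) + 1 ≤ n - 1 - j
      omega
    have hΩk : Ω ⊆ Od ε ((k : ℕ) + 1) := hΩ.trans (Od_anti ε (by omega))
    have hrow : ContDiffOn ℝ ∞ (fun g : Mat n => g k) Ω := contDiffOn_row Ω k
    have hv : ContDiffOn ℝ ∞ (fun g => prj ε g j (g k)) Ω := by
      have h := contDiffOn_hat hΩk hrow
      refine h.congr fun g _ => ?_
      exact prj_eq_hat ε hk hj'' g _
    have hpx : ContDiffOn ℝ ∞ (fun g => prj ε g j (x g)) Ω := by
      have h := contDiffOn_hat hΩk hx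
      refine h.congr fun g _ => ?_
      exact prj_eq_hat ε hk hj'' g _
    have hvH : InfH ε Ω (fun g => prj ε g j (g k)) := ih hj' _ hrow (infH_row ε Ω k)
    have hpxH : InfH ε Ω (fun g => prj ε g j (x g)) := ih hj' _ hx hxH
    have hne : ∀ g ∈ Ω, hf ε (prj ε g j (g k)) (prj ε g j (g k)) ≠ 0 := by
      intro g hg
      rw [prj_eq_hat ε hk hj'']
      exact (hΩ hg).2 k hkm
    have hc1 : ContDiffOn ℝ ∞ (fun g => hf ε (x g) (prj ε g j (g k))) Ω := contDiffOn_hf hx hv
    have hc2 : ContDiffOn ℝ ∞ (fun g => hf ε (prj ε g j (g k)) (prj ε g j (g k))) Ω :=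
      contDiffOn_hf hv hv
    have hc : ContDiffOn ℝ ∞ (fun g => hf ε (x g) (prj ε g j (g k)) /
        hf ε (prj ε g j (g k)) (prj ε g j (g k))) Ω := by
      have h := hc1.mul (hc2.inv hne)
      refine h.congr fun g _ => ?_
      exact div_eq_mul_inv _ _
    have hcH : ∀ g ∈ Ω, ∀ p q : Fin n → ℂ, fderiv ℝ (fun g => hf ε (x g) (prj ε g j (g k)) /
        hf ε (prj ε g j (g k)) (prj ε g j (g k))) g (g * Xm ε p q) = 0 := by
      intro g hg p q
      have hgn : Ω ∈ 𝓝 g := hΩo.mem_nhds hg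
      exact fderiv_div_zero ((hc1.contDiffAt hgn).differentiableAt (by simp))
        ((hc2.contDiffAt hgn).differentiableAt (by simp)) (hne g hg)
        (fderiv_hf_inf hΩo hx hv hxH hvH hg p q) (fderiv_hf_inf hΩo hv hv hvH hvH hg p q)
    have hs := infH_smul hΩo hc hv hcH hvH
    have hfin := infH_sub hΩo hpx (hc.smul hv) hpxH hs
    have heq : (fun g => prj ε g (j + 1) (x g)) = fun g => prj ε g j (x g) -
        (hf ε (x g) (prj ε g j (g k)) / hf ε (prj ε g j (g k)) (prj ε g j (g k))) •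
          prj ε g j (g k) := by
      funext g
      show (if h : n - 1 - j < n then _ else _) = _
      rw [dif_pos hk]
    rw [heq]
    exact hfin

theorem infH_hat {ε : Fin n → ℝ} {m : Fin n} {Ω : Set (Mat n)} (hΩo : IsOpen Ω)
    (hΩ : Ω ⊆ Od ε ((m : ℕ) + 1)) {x : Mat n → Fin n → ℂ} (hx : ContDiffOn ℝ ∞ x Ω)
    (hxH : InfH ε Ω x) : InfH ε Ω (fun g => hat ε m g (x g)) :=
  infH_prj hΩo hΩ (n - 1 - m) le_rfl x hx hxH

theorem infH_vv {ε : Fin n → ℝ} {m : Fin n} {Ω : Set (Mat n)} (hΩo : IsOpen Ω)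
    (hΩ : Ω ⊆ Od ε ((m : ℕ) + 1)) : InfH ε Ω (vv ε m) :=
  infH_hat hΩo hΩ (contDiffOn_row Ω m) (infH_row ε Ω m)

end

end Pool.Agent.Work.MP_dd0ddf_al.AR
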