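import Pool.Agent.Work.MP_dd0ddf_al.AR.GSa
import Pool.Agent.Work.MP_dd0ddf_al.AR.GSb
import Pool.Agent.Work.MP_dd0ddf_al.AR.GSc
import Pool.Agent.Work.MP_dd0ddf_al.AR.Inf

/-!
# Obj (M): the functions `s_k`, `w`, `q`, the matrices `Y1`, `Y2`, `Ye`

`g ∈ Od ε (m+1)`, `v = vv ε m g = g_m + ∑_{l>m} c_l g_l`, orthogonal to `g_l`, `l > m`.
* `ss ε m k g = <g_k, v>`: `0` for `k > m`; `ss ε m m g = <v, v>` is real.
* `ww ε m i g = hat ε m g (g i) = g_i + ∑_{l>m} d_l g_l`, `<w, v> = <g_i, v> = s_i` (`hf_hat`).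
* `Om ε m i = Od ε (m+1) ∩ {s_i ≠ 0}` open, `q = w / s_i`, `<q, v> = 1`.
* `vecMul` by `g⁻¹` gives the coefficients with respect to the rows of `g`: `v g⁻¹` is `1` at `m` and
  `0` at `l < m`; `q g⁻¹` is `1/s_i` at `i` and `0` at `l ≤ m`, `l ≠ i` (for `i ≤ m`).
* `Y1 k l = i s_k (v g⁻¹)_l`, `Y2 k l = s_k (q g⁻¹)_l - <g_k, q> (v g⁻¹)_l`
  (`vecMul_Zm`, `vecMul_Xm` for the rows of `g`).
* smoothness: `contDiffOn_hat`, `contDiffOn_inv`, `contDiffOn_hf`; `InfH`: `infH_hat`, `infH_smul`,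
  `fderiv_hf_inf`.
-/

set_option linter.unusedSectionVars false

namespace Pool.Agent.Work.MP_dd0ddf_al.AR

open scoped SchwartzMap Matrix.Norms.Elementwise ComplexConjugate ContDiff Topology LineDeriv
open Matrix MeasureTheory Filter

noncomputable section

variable {n : ℕ}

/-- `s_k = <g_k, v>` -/
def ss (ε : Fin n → ℝ) (m k : Fin n) (g : Mat n) : ℂ := hf ε (g k) (vv ε m g)

/-- `w`, the projection of `g_i` -/
def ww (ε : Fin n → ℝ) (m i : Fin n) (g : Mat n) : Fin n → ℂ := hat ε m g (g i)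

/-- `q = w / s_i` -/
def qq (ε : Fin n → ℝ) (m i : Fin n) (g : Mat n) : Fin n → ℂ := (ss ε m i g)⁻¹ • ww ε m i g

/-- the open set where `s_i ≠ 0` -/
def Om (ε : Fin n → ℝ) (m i : Fin n) : Set (Mat n) :=
  Od ε ((m : ℕ) + 1) ∩ {g | ss ε m i g ≠ 0}

/-- the matrix `g Z_v g⁻¹` -/
def Y1 (ε : Fin n → ℝ) (m : Fin n) (g : Mat n) : Mat n := g * Zm ε (vv ε m g) * g⁻¹

/-- the matrix `g X_{v,q} g⁻¹` -/
def Y2 (ε : Fin n → ℝ) (m i : Fin n) (g : Mat n) : Mat n :=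
  g * Xm ε (vv ε m g) (qq ε m i g) * g⁻¹

/-- the Euler part of `Y2`: entries `s_k / s_i` at `(k, i)`, `i < k ≤ m` -/
def Ye (ε : Fin n → ℝ) (m i : Fin n) (g : Mat n) : Mat n :=
  Matrix.of fun k l => if l = i ∧ i < k ∧ k ≤ m then ss ε m k g / ss ε m i g else 0

private theorem hf_smul_left_aux (ε : Fin n → ℝ) (c : ℂ) (x w : Fin n → ℂ) :
    hf ε (c • x) w = c * hf ε x w := by
  unfold hf
  rw [Finset.mul_sum]
  refine Finset.sum_congr rfl fun j _ => ?_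
  rw [Pi.smul_apply, smul_eq_mul]
  ring

private theorem vv_orth_aux {ε : Fin n → ℝ} {m : Fin n} {g : Mat n}
    (hg : g ∈ Od ε ((m : ℕ) + 1)) : ∀ l, m < l → hf ε (vv ε m g) (g l) = 0 :=
  fun _ hl => hat_orth hg (g m) hl

private theorem contDiffOn_row_aux (Ω : Set (Mat n)) (k : Fin n) :
    ContDiffOn ℝ ∞ (fun g : Mat n => g k) Ω := by
  have h : ContDiff ℝ ∞ (fun g : Mat n => g k) := contDiff_apply ℝ (Fin n → ℂ) k
  exact h.contDiffOn

private theorem contDiffOn_ss_aux {ε : Fin n → ℝ} {m : Fin n} (k : Fin n) :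
    ContDiffOn ℝ ∞ (ss ε m k) (Od ε ((m : ℕ) + 1)) :=
  contDiffOn_hf (contDiffOn_row_aux _ k) (contDiffOn_vv subset_rfl)

private theorem Od_sub_aux (ε : Fin n → ℝ) (d : ℕ) : Od ε d ⊆ GLs n := fun _ h => h.1

private theorem Om_sub_aux (ε : Fin n → ℝ) (m i : Fin n) : Om ε m i ⊆ Od ε ((m : ℕ) + 1) :=
  Set.inter_subset_left

theorem ss_zero {ε : Fin n → ℝ} {m k : Fin n} {g : Mat n} (hg : g ∈ Od ε ((m : ℕ) + 1))
    (hk : m < k) : ss ε m k g = 0 := by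
  unfold ss
  rw [← conj_hf, vv_orth_aux hg k hk, map_zero]

theorem ss_self {ε : Fin n → ℝ} {m : Fin n} {g : Mat n} (hg : g ∈ Od ε ((m : ℕ) + 1)) :
    ss ε m m g = hf ε (vv ε m g) (vv ε m g) :=
  (hf_hat hg (g m) (vv_orth_aux hg)).symm

theorem ss_self_im {ε : Fin n → ℝ} {m : Fin n} {g : Mat n} (hg : g ∈ Od ε ((m : ℕ) + 1)) :
    (ss ε m m g).im = 0 := by
  rw [ss_self hg]
  exact Complex.conj_eq_iff_im.1 (conj_hf ε (vv ε m g) (vv ε m g))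

theorem isOpen_Om (ε : Fin n → ℝ) (m i : Fin n) : IsOpen (Om ε m i) := by
  have h := (contDiffOn_ss_aux (ε := ε) (m := m) i).continuousOn.isOpen_inter_preimage
    (isOpen_Od ε ((m : ℕ) + 1)) (isOpen_ne (x := (0 : ℂ)))
  exact h

theorem contDiffOn_ss {ε : Fin n → ℝ} {m : Fin n} (k : Fin n) :
    ContDiffOn ℝ ∞ (ss ε m k) (Od ε ((m : ℕ) + 1)) := contDiffOn_ss_aux k

private theorem contDiffOn_ssinv_aux {ε : Fin n → ℝ} {m : Fin n} (i : Fin n) :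
    ContDiffOn ℝ ∞ (fun g => (ss ε m i g)⁻¹) (Om ε m i) :=
  ((contDiffOn_ss_aux i).mono (Om_sub_aux ε m i)).inv fun _ hg => hg.2

private theorem contDiffOn_ww_aux {ε : Fin n → ℝ} {m : Fin n} (i : Fin n) :
    ContDiffOn ℝ ∞ (ww ε m i) (Om ε m i) :=
  contDiffOn_hat (Om_sub_aux ε m i) (contDiffOn_row_aux _ i)

theorem contDiffOn_qq {ε : Fin n → ℝ} {m : Fin n} (i : Fin n) :
    ContDiffOn ℝ ∞ (qq ε m i) (Om ε m i) :=
  (contDiffOn_ssinv_aux i).smul (contDiffOn_ww_aux i)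

theorem infH_qq {ε : Fin n → ℝ} {m : Fin n} (i : Fin n) : InfH ε (Om ε m i) (qq ε m i) := by
  have hO := isOpen_Om ε m i
  refine infH_smul hO (contDiffOn_ssinv_aux i) (contDiffOn_ww_aux i) ?_
    (infH_hat hO (Om_sub_aux ε m i) (contDiffOn_row_aux _ i) (infH_row ε _ i))
  intro g hg p q
  have h1 : fderiv ℝ (ss ε m i) g (g * Xm ε p q) = 0 :=
    fderiv_hf_inf hO (contDiffOn_row_aux _ i) (contDiffOn_vv (Om_sub_aux ε m i))
      (infH_row ε _ i) (infH_vv hO (Om_sub_aux ε m i)) hg p q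
  have hd : DifferentiableAt ℝ (ss ε m i) g :=
    (((contDiffOn_ss_aux i).mono (Om_sub_aux ε m i)).contDiffAt (hO.mem_nhds hg)).differentiableAt
      (by simp)
  have hd' : DifferentiableAt ℝ (fun g => (ss ε m i g)⁻¹) g :=
    ((contDiffOn_ssinv_aux i).contDiffAt (hO.mem_nhds hg)).differentiableAt (by simp)
  have h2 : HasFDerivAt (fun g => ss ε m i g * (ss ε m i g)⁻¹)
      (ss ε m i g • fderiv ℝ (fun g => (ss ε m i g)⁻¹) g +
        (ss ε m i g)⁻¹ • fderiv ℝ (ss ε m i) g) g :=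
    hd.hasFDerivAt.mul hd'.hasFDerivAt
  have h3 : HasFDerivAt (fun g => ss ε m i g * (ss ε m i g)⁻¹)
      (0 : Mat n →L[ℝ] ℂ) g := by
    refine (hasFDerivAt_const (1 : ℂ) g).congr_of_eventuallyEq ?_
    filter_upwards [hO.mem_nhds hg] with z hz
    exact mul_inv_cancel₀ hz.2
  have h4 := congrArg (fun L : Mat n →L[ℝ] ℂ => L (g * Xm ε p q)) (h2.unique h3)
  have h5 : ss ε m i g * fderiv ℝ (fun g => (ss ε m i g)⁻¹) g (g * Xm ε p q) +
      (ss ε m i g)⁻¹ * fderiv ℝ (ss ε m i) g (g * Xm ε p q) = 0 := h4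
  rw [h1, mul_zero, add_zero] at h5
  exact (mul_eq_zero.1 h5).resolve_left hg.2

theorem hf_qq_vv {ε : Fin n → ℝ} {m i : Fin n} {g : Mat n} (hg : g ∈ Om ε m i) :
    hf ε (qq ε m i g) (vv ε m g) = 1 := by
  unfold qq
  rw [hf_smul_left_aux]
  have h : hf ε (ww ε m i g) (vv ε m g) = ss ε m i g := hf_hat hg.1 (g i) (vv_orth_aux hg.1)
  rw [h]
  exact inv_mul_cancel₀ hg.2

private theorem qq_orth_aux {ε : Fin n → ℝ} {m i : Fin n} {g : Mat n} (hg : g ∈ Om ε m i) :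
    ∀ l, m < l → hf ε (qq ε m i g) (g l) = 0 := by
  intro l hl
  unfold qq
  rw [hf_smul_left_aux]
  have h : hf ε (ww ε m i g) (g l) = 0 := hat_orth hg.1 (g i) hl
  rw [h, mul_zero]

/-- `<g_m, q> = 1` -/
theorem hf_row_qq {ε : Fin n → ℝ} {m i : Fin n} {g : Mat n} (hg : g ∈ Om ε m i) :
    hf ε (g m) (qq ε m i g) = 1 := by
  rw [← hf_hat hg.1 (g m) (qq_orth_aux hg)]
  change hf ε (vv ε m g) (qq ε m i g) = 1
  rw [← conj_hf, hf_qq_vv hg, map_one]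

theorem hf_row_qq_zero {ε : Fin n → ℝ} {m i k : Fin n} {g : Mat n} (hg : g ∈ Om ε m i)
    (hk : m < k) : hf ε (g k) (qq ε m i g) = 0 := by
  rw [← conj_hf, qq_orth_aux hg k hk, map_zero]

private theorem row_coef_aux {g : Mat n} (hg : g.det ≠ 0) (i : Fin n) (c : Fin n → ℂ) :
    (g i + ∑ l, c l • g l) ᵥ* g⁻¹ = Pi.single i 1 + c := by
  have h : g i + ∑ l, c l • g l = (Pi.single i 1 + c) ᵥ* g := by
    rw [Matrix.add_vecMul, Matrix.single_one_vecMul]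
    congr 1
    ext j
    rw [Matrix.vecMul, dotProduct, Finset.sum_apply]
    rfl
  rw [h, Matrix.vecMul_vecMul, Matrix.mul_nonsing_inv g (isUnit_iff_ne_zero.2 hg),
    Matrix.vecMul_one]

theorem vv_coef {ε : Fin n → ℝ} {m l : Fin n} {g : Mat n} (hg : g ∈ Od ε ((m : ℕ) + 1))
    (hl : l ≤ m) : (vv ε m g ᵥ* g⁻¹) l = if l = m then 1 else 0 := by
  obtain ⟨c, hc, h⟩ := hat_span hg (g m)
  have h' : vv ε m g = g m + ∑ l, c l • g l := h
  rw [h', row_coef_aux hg.1, Pi.add_apply, hc l hl, add_zero, Pi.single_apply]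

theorem qq_coef {ε : Fin n → ℝ} {m i l : Fin n} {g : Mat n} (hg : g ∈ Om ε m i)
    (hi : i ≤ m) (hl : l ≤ m) :
    (qq ε m i g ᵥ* g⁻¹) l = if l = i then (ss ε m i g)⁻¹ else 0 := by
  obtain ⟨c, hc, h⟩ := hat_span hg.1 (g i)
  have h' : qq ε m i g = (ss ε m i g)⁻¹ • (g i + ∑ l, c l • g l) := by
    rw [← h]
    rfl
  rw [h', Matrix.smul_vecMul, row_coef_aux hg.1.1, Pi.smul_apply, Pi.add_apply, hc l hl, add_zero,
    Pi.single_apply, smul_eq_mul, mul_ite, mul_one, mul_zero]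

theorem Y1_apply {ε : Fin n → ℝ} {m : Fin n} (g : Mat n) (k l : Fin n) :
    Y1 ε m g k l = Complex.I * ss ε m k g * (vv ε m g ᵥ* g⁻¹) l := by
  unfold Y1 ss
  rw [Matrix.mul_apply_eq_vecMul, Matrix.mul_apply_eq_vecMul, vecMul_Zm, Matrix.smul_vecMul,
    Pi.smul_apply, smul_eq_mul]

theorem Y2_apply {ε : Fin n → ℝ} {m i : Fin n} (g : Mat n) (k l : Fin n) :
    Y2 ε m i g k l = ss ε m k g * (qq ε m i g ᵥ* g⁻¹) l -
      hf ε (g k) (qq ε m i g) * (vv ε m g ᵥ* g⁻¹) l := by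
  unfold Y2 ss
  rw [Matrix.mul_apply_eq_vecMul, Matrix.mul_apply_eq_vecMul, vecMul_Xm, Matrix.sub_vecMul,
    Matrix.smul_vecMul, Matrix.smul_vecMul, Pi.sub_apply, Pi.smul_apply, Pi.smul_apply,
    smul_eq_mul, smul_eq_mul]

private theorem contDiffOn_mat_aux {Ω : Set (Mat n)} {Y : Mat n → Mat n}
    (h : ∀ k l, ContDiffOn ℝ ∞ (fun g => Y g k l) Ω) : ContDiffOn ℝ ∞ Y Ω := by
  have h1 : ContDiffOn ℝ ∞ (fun g (k l : Fin n) => Y g k l) Ω :=
    contDiffOn_pi.2 fun k => contDiffOn_pi.2 fun l => h k l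
  exact h1

private theorem contDiffOn_coef_aux {Ω : Set (Mat n)} (hΩ : Ω ⊆ GLs n) {x : Mat n → Fin n → ℂ}
    (hx : ContDiffOn ℝ ∞ x Ω) (l : Fin n) :
    ContDiffOn ℝ ∞ (fun g => (x g ᵥ* g⁻¹) l) Ω := by
  have h1 : ContDiffOn ℝ ∞ (fun g : Mat n => g⁻¹) Ω := contDiffOn_inv.mono hΩ
  have h2 : ∀ j l, ContDiffOn ℝ ∞ (fun g : Mat n => g⁻¹ j l) Ω := by
    intro j l
    have h3 : ContDiff ℝ ∞ (fun g : Mat n => g j l) := contDiff_apply_apply ℝ ℂ j l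
    exact h3.comp_contDiffOn h1
  have h4 : ∀ j, ContDiffOn ℝ ∞ (fun g => x g j) Ω := fun j => contDiffOn_pi.1 hx j
  have h5 : (fun g => (x g ᵥ* g⁻¹) l) = fun g : Mat n => ∑ j, x g j * g⁻¹ j l := by
    funext g
    rfl
  rw [h5]
  exact ContDiffOn.sum fun j _ => (h4 j).mul (h2 j l)

theorem contDiffOn_Y1 (ε : Fin n → ℝ) (m : Fin n) :
    ContDiffOn ℝ ∞ (Y1 ε m) (Od ε ((m : ℕ) + 1)) := by
  refine contDiffOn_mat_aux fun k l => ?_
  simp only [Y1_apply]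
  exact (contDiffOn_const.mul (contDiffOn_ss_aux k)).mul
    (contDiffOn_coef_aux (Od_sub_aux ε _) (contDiffOn_vv subset_rfl) l)

theorem contDiffOn_Y2 (ε : Fin n → ℝ) (m i : Fin n) :
    ContDiffOn ℝ ∞ (Y2 ε m i) (Om ε m i) := by
  refine contDiffOn_mat_aux fun k l => ?_
  simp only [Y2_apply]
  have hs := Om_sub_aux ε m i
  have hG := hs.trans (Od_sub_aux ε _)
  exact (((contDiffOn_ss_aux k).mono hs).mul (contDiffOn_coef_aux hG (contDiffOn_qq i) l)).sub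
    ((contDiffOn_hf (contDiffOn_row_aux _ k) (contDiffOn_qq i)).mul
      (contDiffOn_coef_aux hG (contDiffOn_vv hs) l))

theorem contDiffOn_Ye (ε : Fin n → ℝ) (m i : Fin n) :
    ContDiffOn ℝ ∞ (Ye ε m i) (Om ε m i) := by
  refine contDiffOn_mat_aux fun k l => ?_
  by_cases h : l = i ∧ i < k ∧ k ≤ m
  · have e : (fun g => Ye ε m i g k l) = fun g => ss ε m k g * (ss ε m i g)⁻¹ := by
      funext g
      unfold Ye
      rw [Matrix.of_apply, if_pos h, div_eq_mul_inv]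
    rw [e]
    exact ((contDiffOn_ss_aux k).mono (Om_sub_aux ε m i)).mul (contDiffOn_ssinv_aux i)
  · have e : (fun g => Ye ε m i g k l) = fun _ => 0 := by
      funext g
      unfold Ye
      rw [Matrix.of_apply, if_neg h]
    rw [e]
    exact contDiffOn_const

end

end Pool.Agent.Work.MP_dd0ddf_al.AR
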