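import Pool.Agent.Work.MP_dd0ddf_al.AR.GSa
import Pool.Agent.Work.MP_dd0ddf_al.AR.Obj

/-!
# Zero (S): not all `s_k`, `k ≤ m`, vanish on `Od ε (m+1)`

Otherwise `<g_k, v> = 0` for all `k` (`ss_zero` for `k > m`); `det g ≠ 0`, so the rows of `g` span
`ℂ^n` and `<x, v> = 0` for all `x`; with `x = e_j`: `ε_j conj(v_j) = 0`, `ε_j ≠ 0`, so `v = 0`, against
`vv_ne_zero`.
-/

set_option linter.unusedSectionVars false

namespace Pool.Agent.Work.MP_dd0ddf_al.AR

open scoped SchwartzMap Matrix.Norms.Elementwise ComplexConjugate ContDiff Topology LineDeriv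
open Matrix MeasureTheory Filter

noncomputable section

variable {n : ℕ}

theorem exists_ss {ε : Fin n → ℝ} (hε : ∀ j, ε j = 1 ∨ ε j = -1) {m : Fin n} {g : Mat n}
    (hg : g ∈ Od ε ((m : ℕ) + 1)) : ∃ k, k ≤ m ∧ ss ε m k g ≠ 0 := by
  by_contra hcon
  push Not at hcon
  have hall : ∀ k, hf ε (g k) (vv ε m g) = 0 := by
    intro k
    rcases le_or_gt k m with hk | hk
    · exact hcon k hk
    · exact ss_zero hg hk
  have hx : ∀ x : Fin n → ℂ, hf ε x (vv ε m g) = 0 := by
    intro x
    have hdet : IsUnit g.det := isUnit_iff_ne_zero.mpr hg.1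
    have h1 : x = (x ᵥ* g⁻¹) ᵥ* g := by
      rw [Matrix.vecMul_vecMul, Matrix.nonsing_inv_mul _ hdet, Matrix.vecMul_one]
    have h2 : ∀ j, x j = ∑ k, (x ᵥ* g⁻¹) k * g k j := by
      intro j
      conv_lhs => rw [h1]
      rfl
    unfold hf
    have h3 : ∀ j, (ε j : ℂ) * x j * conj (vv ε m g j) =
        ∑ k, (x ᵥ* g⁻¹) k * ((ε j : ℂ) * g k j * conj (vv ε m g j)) := by
      intro j
      rw [h2 j, Finset.mul_sum, Finset.sum_mul]
      exact Finset.sum_congr rfl fun k _ => by ring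
    simp only [h3]
    rw [Finset.sum_comm]
    apply Finset.sum_eq_zero
    intro k _
    rw [← Finset.mul_sum]
    have := hall k
    unfold hf at this
    rw [this, mul_zero]
  apply vv_ne_zero hg
  funext j
  have h4 := hx (Pi.single j 1)
  unfold hf at h4
  rw [Finset.sum_eq_single j] at h4
  · rw [Pi.single_eq_same, mul_one] at h4
    have h5 : (ε j : ℂ) ≠ 0 := by
      rcases hε j with h | h <;> rw [h] <;> norm_num
    have h6 := (mul_eq_zero.mp h4).resolve_left h5
    simpa using h6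
  · intro i _ hij
    rw [Pi.single_eq_of_ne hij]
    ring
  · intro h
    exact absurd (Finset.mem_univ j) h

end

end Pool.Agent.Work.MP_dd0ddf_al.AR
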