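import Pool.Agent.Work.MP_dd0ddf_al.AR.Elim
import Pool.Agent.Work.MP_dd0ddf_al.AR.Part
import Pool.Agent.Work.MP_dd0ddf_al.AR.Zero
import Pool.Agent.Work.MP_dd0ddf_al.AR.SysX

/-!
# Closed (S-M): the closed part

Step: `T = 0` on `TFs (Od ε m)` implies `T = 0` on `TFs (Od ε (m+1))`.  Let
`W j = Od ε (m+1) ∩ {g | ∃ k, j ≤ k ≤ m, s_k ≠ 0}` (open: `s_k` is continuous on the open set
`Od ε (m+1)`).  `W m = Od ε m` (`Od_succ`, `ss_self`).  If `T = 0` on `TFs (W (j+1))`, `j < m`, then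
`elim` (with `i = j`, `Sys.mono`) gives `T = 0` on `TFs (Om ε m j)` (`Om ε m j ∩ {...} ⊆ W (j+1)`), and
`W j = Om ε m j ∪ W (j+1)`, so `T = 0` on `TFs (W j)` by `part_two`.  `W 0 = Od ε (m+1)` by `exists_ss`.
Then induction on `m` from `Od ε 0` to `Od ε n = GLs n` (`Od_top`).
-/

set_option linter.unusedSectionVars false

namespace Pool.Agent.Work.MP_dd0ddf_al.AR

open scoped SchwartzMap Matrix.Norms.Elementwise ComplexConjugate ContDiff Topology LineDeriv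
open Matrix MeasureTheory Filter

noncomputable section

variable {n : ℕ}

/-- the open sets of the descending induction -/
private def Wj (ε : Fin n → ℝ) (m : Fin n) (j : ℕ) : Set (Mat n) :=
  {g | g ∈ Od ε ((m : ℕ) + 1) ∧ ∃ k : Fin n, j ≤ (k : ℕ) ∧ k ≤ m ∧ ss ε m k g ≠ 0}

private theorem isOpen_Wj (ε : Fin n → ℝ) (m : Fin n) (j : ℕ) : IsOpen (Wj ε m j) := by
  have h : Wj ε m j = ⋃ k : {k : Fin n // j ≤ (k : ℕ) ∧ k ≤ m}, Om ε m k := by
    ext g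
    simp only [Wj, Om, Set.mem_iUnion, Set.mem_ofPred_eq, Set.mem_inter_iff]
    constructor
    · rintro ⟨hg, k, hjk, hkm, hk⟩
      exact ⟨⟨k, hjk, hkm⟩, hg, hk⟩
    · rintro ⟨⟨k, hjk, hkm⟩, hg, hk⟩
      exact ⟨hg, k, hjk, hkm, hk⟩
  rw [h]
  exact isOpen_iUnion fun k => isOpen_Om ε m k

theorem closed_step {ε : Fin n → ℝ} (hε : ∀ j, ε j = 1 ∨ ε j = -1) {a : ℝ} (ha : a ≠ 0)
    {γ γ' : Fin n → ℂ} {c1 : ℂ} {T : (XX n → ℂ) →ₗ[ℂ] ℂ} (hS : Sys ε a γ γ' c1 (GLs n) T)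
    (hγ : ∀ i m : Fin n, i < m →
      0 ≤ (γ i - γ m).re + 2 * (((m : ℕ) : ℝ) - ((i : ℕ) : ℝ)))
    (m : Fin n) (h0 : ∀ F ∈ TFs (Od ε m), T F = 0) :
    ∀ F ∈ TFs (Od ε ((m : ℕ) + 1)), T F = 0 := by
  have hWG : ∀ j, Wj ε m j ⊆ GLs n := fun j g hg => hg.1.1
  have key : ∀ d : ℕ, d ≤ (m : ℕ) → ∀ F ∈ TFs (Wj ε m ((m : ℕ) - d)), T F = 0 := by
    intro d
    induction d with
    | zero =>
      intro _ F hF
      refine h0 F (TFs_mono ?_ hF)
      rintro g ⟨hg, k, hjk, hkm, hk⟩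
      have hkm' : k = m := le_antisymm hkm (by
        have : (m : ℕ) ≤ (k : ℕ) := by simpa using hjk
        exact this)
      subst hkm'
      rw [Od_succ]
      refine ⟨hg, ?_⟩
      show hf ε (vv ε k g) (vv ε k g) ≠ 0
      rw [← ss_self hg]
      exact hk
    | succ d ih =>
      intro hd F hF
      have hj : (m : ℕ) - (d + 1) + 1 = (m : ℕ) - d := by omega
      have hjn : (m : ℕ) - (d + 1) < n := by
        have := m.2
        omega
      set i : Fin n := ⟨(m : ℕ) - (d + 1), hjn⟩ with hi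
      have him : i < m := by
        show (m : ℕ) - (d + 1) < (m : ℕ)
        omega
      have hsub : Om ε m i ⊆ GLs n := fun g hg => hg.1.1
      have hOm : ∀ F ∈ TFs (Om ε m i), T F = 0 := by
        refine elim hε ha him (Sys.mono hsub hS) (hγ i m him) ?_
        intro F hF
        refine ih (by omega) F (TFs_mono ?_ hF)
        rintro g ⟨hg, k, hik, hkm, hk⟩
        refine ⟨hg.1, k, ?_, hkm, hk⟩
        have : (m : ℕ) - (d + 1) < (k : ℕ) := hik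
        omega
      have hun : Wj ε m ((m : ℕ) - (d + 1)) ⊆ Om ε m i ∪ Wj ε m ((m : ℕ) - d) := by
        rintro g ⟨hg, k, hjk, hkm, hk⟩
        by_cases hki : (k : ℕ) = (m : ℕ) - (d + 1)
        · left
          have : k = i := Fin.ext hki
          subst this
          exact ⟨hg, hk⟩
        · right
          exact ⟨hg, k, by omega, hkm, hk⟩
      obtain ⟨F1, hF1, F2, hF2, rfl⟩ := part_two (isOpen_Om ε m i) (isOpen_Wj ε m ((m : ℕ) - d))
        (TFs_mono hun hF)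
      rw [map_add, hOm F1 hF1, ih (by omega) F2 hF2, add_zero]
  intro F hF
  refine key (m : ℕ) le_rfl F (TFs_mono ?_ hF)
  intro g hg
  obtain ⟨k, hkm, hk⟩ := exists_ss hε hg
  exact ⟨hg, k, by omega, hkm, hk⟩

theorem closed {ε : Fin n → ℝ} (hε : ∀ j, ε j = 1 ∨ ε j = -1) {a : ℝ} (ha : a ≠ 0)
    {γ γ' : Fin n → ℂ} {c1 : ℂ} {T : (XX n → ℂ) →ₗ[ℂ] ℂ} (hS : Sys ε a γ γ' c1 (GLs n) T)
    (hγ : ∀ i m : Fin n, i < m →
      0 ≤ (γ i - γ m).re + 2 * (((m : ℕ) : ℝ) - ((i : ℕ) : ℝ)))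
    (h0 : ∀ F ∈ TFs (Od ε 0), T F = 0) : ∀ F ∈ TFs (GLs n), T F = 0 := by
  have key : ∀ d : ℕ, d ≤ n → ∀ F ∈ TFs (Od ε d), T F = 0 := by
    intro d
    induction d with
    | zero => exact fun _ => h0
    | succ d ih =>
      intro hd
      exact closed_step hε ha hS hγ ⟨d, hd⟩ (ih (by omega))
  rw [← Od_top ε]
  exact key n le_rfl

end

end Pool.Agent.Work.MP_dd0ddf_al.AR
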