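import Pool.Agent.Work.MP_dd0ddf_al.AR.RKDefs
import Pool.Agent.Work.MP_dd0ddf_al.AR.KHB

/-!
# MP_dd0ddf_al, archimedean part, block R, module DAd


Properties of the derived representation: `Ad`-equivariance, derivatives of coefficients, bracket.

PROOF. `dlim_Ad`: `π(g) π(exp τY) π(g⁻¹) = π(exp(τ gYg⁻¹))` (`Matrix.exp_units_conj`), apply `π g` (continuous) to the difference
quotient.  `dlim_deriv`: `exp((τ+h)Y) = exp(τY) exp(hY)` (`Matrix.exp_add_of_commute`, `Commute.smul_right`...), so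
`h⁻¹(l(π(exp((τ+h)Y))v) - l(π(exp(τY))v)) = l(π(exp τY)(h⁻¹(π(exp hY)v - v)))`; `hasDerivAt_iff_tendsto_slope_zero` (real variable,
values in `ℂ`).
`dlim_br`: consider `f(τ) = π(exp τY) (d Z (π(exp(-τY)) v))`; by `dlim_Ad` `f(τ) = d(exp(τY) Z exp(-τY)) v`.  On the one hand
`τ⁻¹(f(τ) - f(0)) = π(exp τY)(d Z (τ⁻¹(π(exp(-τY))v - v))) + τ⁻¹(π(exp τY) - 1)(d Z v) → - d Z (d Y v) + d Y (d Z v)`, using the
joint continuity `hπ.cont` at `(1, ·)` for the first term and `lim` for `-Y`.  On the other hand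
`τ⁻¹(f(τ) - f(0)) = d(τ⁻¹(exp(τY) Z exp(-τY) - Z)) v → d(YZ - ZY) v`, because `W ↦ d W v` is a real linear map on the finite
dimensional space `Mat n`, hence continuous (`LinearMap.continuous_of_finiteDimensional`, after restricting scalars), and
`τ⁻¹(exp(τY) Z exp(-τY) - Z) → YZ - ZY` (`hasDerivAt_exp_smul_const`).  Uniqueness of limits.
-/

set_option linter.unusedSectionVars false

namespace Pool.Agent.Work.MP_dd0ddf_al.AR

section

attribute [local instance] Matrix.linftyOpNormedRing Matrix.linftyOpNormedAlgebra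

private theorem dad_deriv {n : ℕ} (Y : Matrix (Fin n) (Fin n) ℂ) (t : ℝ) (i j : Fin n) :
    HasDerivAt (fun τ : ℝ => (NormedSpace.exp (τ • Y)) i j) ((Y * NormedSpace.exp (t • Y)) i j) t := by
  have h := hasDerivAt_exp_smul_const' (𝕂 := ℝ) Y t
  exact hasDerivAt_pi.1 (hasDerivAt_pi.1 h i) j

private theorem dad_slope {n : ℕ} (Y Z : Matrix (Fin n) (Fin n) ℂ) (i j : Fin n) :
    Filter.Tendsto (fun τ : ℝ => (τ⁻¹ • (NormedSpace.exp (τ • Y) * Z * NormedSpace.exp (τ • (-Y)) - Z)) i j)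
      (nhdsWithin 0 {0}ᶜ) (nhds ((Y * Z - Z * Y) i j)) := by
  have h1 := hasDerivAt_exp_smul_const' (𝕂 := ℝ) Y 0
  have h2 := hasDerivAt_exp_smul_const' (𝕂 := ℝ) (-Y) 0
  have h3 := (h1.mul_const Z).mul h2
  rw [hasDerivAt_iff_tendsto_slope_zero] at h3
  simp only [zero_smul, NormedSpace.exp_zero, mul_one, one_mul, zero_add] at h3
  have h4 : Y * Z + Z * -Y = Y * Z - Z * Y := by rw [mul_neg, sub_eq_add_neg]
  rw [h4] at h3
  have h5 := tendsto_pi_nhds.1 (tendsto_pi_nhds.1 h3 i) j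
  refine h5.congr fun τ => ?_
  simp only [Pi.mul_apply, zero_smul, NormedSpace.exp_zero, mul_one, one_mul]
  rfl

end

open scoped SchwartzMap Matrix.Norms.Elementwise ComplexConjugate ContDiff Topology
open Matrix MeasureTheory Filter Asymptotics

noncomputable section

variable {n : ℕ} {P : Type*} [AddCommGroup P] [Module ℂ P] [UniformSpace P] [IsUniformAddGroup P]
  [ContinuousSMul ℂ P] [PolynormableSpace ℂ P] [T2Space P] [CompleteSpace P]
  [FirstCountableTopology P]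

private theorem dad_cont (Y : Mat n) : Continuous fun τ : ℝ => NormedSpace.exp (τ • Y) := by
  refine continuous_pi fun i => continuous_pi fun j => ?_
  rw [continuous_iff_continuousAt]
  intro t
  exact (dad_deriv Y t i j).continuousAt

theorem dlim_Ad (π : GLn n →* (P →L[ℂ] P)) (d : Mat n → P →L[ℂ] P)
    (h1 : ∀ (Y : Mat n) (v : P), Tendsto
      (fun τ : ℝ => ((τ : ℂ)⁻¹) • (π (expG (τ • Y)) v - v)) (𝓝[≠] 0) (𝓝 (d Y v)))
    (g : GLn n) (Y : Mat n) (v : P) :
    π g (d Y v) = d ((g : Mat n) * Y * ((g⁻¹ : GLn n) : Mat n)) (π g v) := by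
  have h2 := ((π g).continuous.tendsto (d Y v)).comp (h1 Y v)
  have h3 := h1 ((g : Mat n) * Y * ((g⁻¹ : GLn n) : Mat n)) (π g v)
  refine tendsto_nhds_unique (h2.congr fun τ => ?_) h3
  have h4 : g * expG (τ • Y) = expG (τ • ((g : Mat n) * Y * ((g⁻¹ : GLn n) : Mat n))) * g := by
    apply Units.ext
    rw [Units.val_mul, Units.val_mul, coe_expG, coe_expG]
    have h5 : τ • ((g : Mat n) * Y * ((g⁻¹ : GLn n) : Mat n)) =
        (g : Mat n) * (τ • Y) * ((g⁻¹ : GLn n) : Mat n) := by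
      rw [Matrix.mul_smul, Matrix.smul_mul]
    rw [h5, Matrix.exp_units_conj, Matrix.mul_assoc, ← Units.val_mul, inv_mul_cancel,
      Units.val_one, Matrix.mul_one]
  have h6 : π g (π (expG (τ • Y)) v) =
      π (expG (τ • ((g : Mat n) * Y * ((g⁻¹ : GLn n) : Mat n)))) (π g v) := by
    have h7 := congrArg (fun T : P →L[ℂ] P => T v) (congrArg π h4)
    simp only [map_mul] at h7
    exact h7
  simp only [Function.comp_apply]
  rw [map_smul, map_sub, h6]

private theorem dad_add (Y : Mat n) (s t : ℝ) :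
    expG ((s + t) • Y) = expG (s • Y) * expG (t • Y) := by
  apply Units.ext
  rw [Units.val_mul, coe_expG, coe_expG, coe_expG, add_smul]
  exact Matrix.exp_add_of_commute _ _ (((Commute.refl Y).smul_left s).smul_right t)

private theorem dad_zero (Y : Mat n) : expG ((0 : ℝ) • Y) = 1 := by
  apply Units.ext
  rw [coe_expG, zero_smul, NormedSpace.exp_zero, Units.val_one]

theorem dlim_deriv (π : GLn n →* (P →L[ℂ] P)) (d : Mat n → P →L[ℂ] P)
    (h1 : ∀ (Y : Mat n) (v : P), Tendsto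
      (fun τ : ℝ => ((τ : ℂ)⁻¹) • (π (expG (τ • Y)) v - v)) (𝓝[≠] 0) (𝓝 (d Y v)))
    (l : P →L[ℂ] ℂ) (Y : Mat n) (v : P) (τ : ℝ) :
    HasDerivAt (fun τ : ℝ => l (π (expG (τ • Y)) v)) (l (π (expG (τ • Y)) (d Y v))) τ := by
  rw [hasDerivAt_iff_tendsto_slope_zero]
  have h2 := ((l.continuous.comp (π (expG (τ • Y))).continuous).tendsto (d Y v)).comp (h1 Y v)
  refine h2.congr fun h => ?_
  simp only [Function.comp_apply]
  rw [dad_add, map_mul, map_smul, map_smul, map_sub, map_sub]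
  rw [Complex.real_smul, Complex.ofReal_inv]
  rfl

private theorem dad_lim (Y : Mat n) :
    Tendsto (fun τ : ℝ => expG (τ • Y)) (𝓝 0) (𝓝 (1 : GLn n)) := by
  have hc : Continuous fun τ : ℝ => expG (τ • Y) := by
    rw [Units.continuous_iff]
    constructor
    · exact dad_cont Y
    · have h2 : ((fun x : GLn n => ((x⁻¹ : GLn n) : Mat n)) ∘ fun τ : ℝ => expG (τ • Y)) =
          fun τ : ℝ => NormedSpace.exp ((-τ) • Y) := by
        funext τ
        simp only [Function.comp_apply]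
        have h3 : expG (τ • Y) * expG ((-τ) • Y) = 1 := by
          rw [← dad_add, add_neg_cancel, dad_zero]
        rw [inv_eq_of_mul_eq_one_right h3, coe_expG]
      have h4 := (dad_cont Y).comp (continuous_neg (G := ℝ))
      have h5 : Continuous ((fun x : GLn n => ((x⁻¹ : GLn n) : Mat n)) ∘
          fun τ : ℝ => expG (τ • Y)) := by
        rw [h2]
        exact h4
      exact h5
  have h := hc.tendsto 0
  rw [dad_zero] at h
  exact h

theorem dlim_br (π : GLn n →* (P →L[ℂ] P)) (hc : Continuous fun x : GLn n × P => π x.1 x.2)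
    (d : Mat n → P →L[ℂ] P)
    (h1 : ∀ (Y : Mat n) (v : P), Tendsto
      (fun τ : ℝ => ((τ : ℂ)⁻¹) • (π (expG (τ • Y)) v - v)) (𝓝[≠] 0) (𝓝 (d Y v)))
    (h2 : ∀ (Y Z : Mat n) (v : P), d (Y + Z) v = d Y v + d Z v)
    (h3 : ∀ (c : ℝ) (Y : Mat n) (v : P), d (c • Y) v = (c : ℂ) • d Y v)
    (Y Z : Mat n) (v : P) : d Y (d Z v) - d Z (d Y v) = d (Y * Z - Z * Y) v := by
  let L : Mat n →ₗ[ℝ] P :=
    { toFun := fun W => d W v
      map_add' := fun W W' => h2 W W' v
      map_smul' := fun c W => h3 c W v }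
  have : ContinuousSMul ℝ P := ⟨by
    have h4 : Continuous fun p : ℝ × P => ((p.1 : ℂ)) • p.2 :=
      (Complex.continuous_ofReal.comp continuous_fst).smul continuous_snd
    exact h4⟩
  have hL : Continuous L := LinearMap.continuous_of_finiteDimensional L
  have hinv : ∀ τ : ℝ, expG (τ • Y) * expG (τ • (-Y)) = 1 := by
    intro τ
    have h4 : τ • (-Y) = (-τ) • Y := by rw [smul_neg, neg_smul]
    rw [h4, ← dad_add, add_neg_cancel, dad_zero]
  have hcoe : ∀ τ : ℝ, (((expG (τ • Y))⁻¹ : GLn n) : Mat n) = NormedSpace.exp (τ • (-Y)) := by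
    intro τ
    rw [inv_eq_of_mul_eq_one_right (hinv τ), coe_expG]
  have hw : ∀ τ : ℝ, π (expG (τ • Y)) (π (expG (τ • (-Y))) v) = v := by
    intro τ
    have h4 := congrArg (fun T : P →L[ℂ] P => T v) (congrArg π (hinv τ))
    simp only [map_mul, map_one] at h4
    exact h4
  have hA : ∀ τ : ℝ, π (expG (τ • Y)) (d Z (π (expG (τ • (-Y))) v)) =
      d (NormedSpace.exp (τ • Y) * Z * NormedSpace.exp (τ • (-Y))) v := by
    intro τ
    rw [dlim_Ad π d h1, hw, hcoe, coe_expG]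
  have hT1 : Tendsto (fun τ : ℝ => ((τ : ℂ)⁻¹) •
      (π (expG (τ • Y)) (d Z (π (expG (τ • (-Y))) v)) - d Z v)) (𝓝[≠] 0)
      (𝓝 (d (Y * Z - Z * Y) v)) := by
    have h4 : Tendsto (fun τ : ℝ =>
        τ⁻¹ • (NormedSpace.exp (τ • Y) * Z * NormedSpace.exp (τ • (-Y)) - Z))
        (𝓝[≠] 0) (𝓝 (Y * Z - Z * Y)) :=
      tendsto_pi_nhds.2 fun i => tendsto_pi_nhds.2 fun j => dad_slope Y Z i j
    have h5 := (hL.tendsto (Y * Z - Z * Y)).comp h4
    refine h5.congr fun τ => ?_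
    rw [Function.comp_apply, map_smul, map_sub, hA]
    show τ⁻¹ • (d _ v - d Z v) = _
    rw [← Complex.coe_smul, Complex.ofReal_inv]
  have hT2 : Tendsto (fun τ : ℝ => ((τ : ℂ)⁻¹) •
      (π (expG (τ • Y)) (d Z (π (expG (τ • (-Y))) v)) - d Z v)) (𝓝[≠] 0)
      (𝓝 (d Z (d (-Y) v) + d Y (d Z v))) := by
    have h4 : Tendsto (fun τ : ℝ => expG (τ • Y)) (𝓝[≠] 0) (𝓝 (1 : GLn n)) :=
      (dad_lim Y).mono_left nhdsWithin_le_nhds
    have h5 := ((d Z).continuous.tendsto (d (-Y) v)).comp (h1 (-Y) v)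
    have h6 := (hc.tendsto ((1 : GLn n), d Z (d (-Y) v))).comp (h4.prodMk_nhds h5)
    rw [map_one] at h6
    have h7 := h6.add (h1 Y (d Z v))
    refine h7.congr fun τ => ?_
    simp only [Function.comp_apply]
    rw [map_smul, map_smul, map_sub, map_sub, ← smul_add]
    congr 1
    abel
  have h8 := tendsto_nhds_unique hT1 hT2
  have h9 : d (-Y) v = -d Y v := by
    have h10 := h3 (-1) Y v
    rw [neg_one_smul] at h10
    rw [h10, Complex.ofReal_neg, Complex.ofReal_one, neg_one_smul]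
  rw [h8, h9, map_neg]
  abel

end

end Pool.Agent.Work.MP_dd0ddf_al.AR
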