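import Pool.Agent.Work.MP_dd0ddf_al.AR.RKDefs
import Pool.Agent.Work.MP_dd0ddf_al.AR.KHB

/-!
# MP_dd0ddf_al, archimedean part, block R, module DEx


Existence of the derived representation: first properties.

PROOF. For `v` take the linear map `D_v` of `hπ.smooth v`; `D_v Y = lim_(τ → 0) τ⁻¹(π(exp τY)v - v)`.  By uniqueness of limits
(`T2Space`) `v ↦ D_v Y` is `ℂ`-linear.  It is continuous: it is the pointwise limit, along the sequence `τ = 1/(m+1)`, of the
continuous linear maps `τ⁻¹(π(exp τY) - 1)`; `P` is a complete first countable, so Baire, so barrelled space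
(`BaireSpace.instBarrelledSpace`, Baire: complete uniform space with countably generated uniformity), and the
Banach-Steinhaus theorem applies (`continuousLinearMapOfTendsto` in Mathlib `Analysis/LocallyConvex/Barrelled.lean`).
Additivity and homogeneity in `Y`: linearity of `D_v`.
-/

set_option linter.unusedSectionVars false

namespace Pool.Agent.Work.MP_dd0ddf_al.AR

open scoped SchwartzMap Matrix.Norms.Elementwise ComplexConjugate ContDiff Topology
open Matrix MeasureTheory Filter Asymptotics

noncomputable section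

variable {n : ℕ} {P : Type*} [AddCommGroup P] [Module ℂ P] [UniformSpace P] [IsUniformAddGroup P]
  [ContinuousSMul ℂ P] [PolynormableSpace ℂ P] [T2Space P] [CompleteSpace P]
  [FirstCountableTopology P]

theorem exists_dlim (π : GLn n →* (P →L[ℂ] P)) (hπ : IsCW π) :
    ∃ d : Mat n → P →L[ℂ] P,
      (∀ (Y : Mat n) (v : P), Tendsto
        (fun τ : ℝ => ((τ : ℂ)⁻¹) • (π (expG (τ • Y)) v - v)) (𝓝[≠] 0) (𝓝 (d Y v))) ∧
      (∀ (Y Z : Mat n) (v : P), d (Y + Z) v = d Y v + d Z v) ∧
      (∀ (c : ℝ) (Y : Mat n) (v : P), d (c • Y) v = (c : ℂ) • d Y v) := by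
  classical
  have h1 : (_root_.uniformity P).IsCountablyGenerated :=
    IsUniformAddGroup.uniformity_countably_generated
  have h2 : BaireSpace P := inferInstance
  have h3 : BarrelledSpace ℂ P := inferInstance
  choose D hD using hπ.smooth
  let G : Mat n → ℝ → P →L[ℂ] P := fun Y τ =>
    ((τ : ℂ)⁻¹) • (π (expG (τ • Y)) - ContinuousLinearMap.id ℂ P)
  have hG : ∀ Y : Mat n, Tendsto (fun τ x => G Y τ x) (𝓝[≠] (0 : ℝ)) (𝓝 fun v => D v Y) := by
    intro Y
    rw [tendsto_pi_nhds]
    intro v
    exact hD v Y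
  refine ⟨fun Y => continuousLinearMapOfTendsto (G Y) (hG Y), fun Y v => hD v Y,
    fun Y Z v => (D v).map_add Y Z, fun c Y v => ?_⟩
  have h4 : (D v) (c • Y) = c • (D v) Y := (D v).map_smul c Y
  have h5 : c • (D v) Y = (c : ℂ) • (D v) Y := by
    exact (Complex.coe_smul c ((D v) Y)).symm
  exact h4.trans h5

end

end Pool.Agent.Work.MP_dd0ddf_al.AR
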