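import Pool.Agent.Work.MP_dd0ddf_al.AR.ParA

/-!
# DL (S-M): derivative of `A(Φ(τ, ·))` for a continuous linear map `A` on test functions

`A : C_c^∞(GL_n(ℂ)) → P` continuous (`ContTG`), `Φ(τ, g)` smooth with support in a fixed compact
set `K ⊆ GLs n` for `|τ|` small.  For `U ∈ 𝓝 0` take `δ, M` from `ContTG`; by `taylor_bound` (with
`P = ℝ`, `E = Mat n`) all derivatives of order `≤ M` of
`τ⁻¹ (Φ(τ,·) - Φ(0,·)) - ∂_τ Φ(0,·)` are `≤ c |τ| ≤ δ` for small `τ ≠ 0`, and this function is in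
`TGK K`, so its image under `A` is in `U`.  (`∂_τ Φ(0,·) ∈ TGK K` as well.)  `P` has continuous
addition (`IsTopologicalAddGroup`), so `A(τ⁻¹ ...) - A(∂_τ Φ) ∈ U` eventually gives convergence.
-/

set_option linter.unusedSectionVars false

namespace Pool.Agent.Work.MP_dd0ddf_al.AR

open scoped SchwartzMap Matrix.Norms.Elementwise ComplexConjugate ContDiff Topology LineDeriv
open Matrix MeasureTheory Filter

noncomputable section

variable {n : ℕ}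

private theorem smooth_rem {E : Type} [NormedAddCommGroup E] [NormedSpace ℝ E]
    {Φ : ℝ × E → ℂ} (hΦ : ContDiff ℝ ∞ Φ) (τ : ℝ) :
    ContDiff ℝ ∞
      (fun x : E => Φ (0 + τ, x) - Φ (0, x) - fderiv ℝ Φ (0, x) (τ, 0)) := by
  have h1 : ContDiff ℝ ∞ (fun x : E => Φ (0 + τ, x)) :=
    hΦ.comp (contDiff_const.prodMk contDiff_id)
  have h2 : ContDiff ℝ ∞ (fun x : E => Φ (0, x)) :=
    hΦ.comp (contDiff_const.prodMk contDiff_id)
  have h3 : ContDiff ℝ ∞ (fun x : E => fderiv ℝ Φ (0, x) (τ, 0)) := by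
    have h4 : ContDiff ℝ ∞ (fderiv ℝ Φ) := hΦ.fderiv_right (by simp)
    have h5 : ContDiff ℝ ∞ (fun x : E => fderiv ℝ Φ (0, x)) :=
      h4.comp (contDiff_const.prodMk contDiff_id)
    exact h5.clm_apply contDiff_const
  exact (h1.sub h2).sub h3

private theorem deriv_curve {E : Type} [NormedAddCommGroup E] [NormedSpace ℝ E]
    {Φ : ℝ × E → ℂ} (hΦ : ContDiff ℝ ∞ Φ) (g : E) :
    HasDerivAt (fun s : ℝ => Φ (s, g)) (fderiv ℝ Φ (0, g) (1, 0)) 0 := by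
  have hf := (hΦ.differentiable (by simp) (0, g)).hasFDerivAt
  have hp : HasDerivAt (fun s : ℝ => ((s, g) : ℝ × E)) ((1, 0) : ℝ × E) 0 :=
    (hasDerivAt_id (0 : ℝ)).prodMk (hasDerivAt_const _ _)
  exact hf.comp_hasDerivAt (0 : ℝ) hp

private theorem gen {E : Type} [NormedAddCommGroup E] [NormedSpace ℝ E] [FiniteDimensional ℝ E]
    {P : Type*} [AddCommGroup P] [Module ℂ P] [TopologicalSpace P]
    [IsTopologicalAddGroup P] {A : (E → ℂ) →ₗ[ℂ] P} {K : Set E} (hK : IsCompact K)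
    (hA : ∀ U ∈ 𝓝 (0 : P), ∃ (δ : ℝ) (M : ℕ), 0 < δ ∧
      ∀ f : E → ℂ, ContDiff ℝ ∞ f → (∀ g, g ∉ K → f g = 0) →
        (∀ m ≤ M, ∀ g, ‖iteratedFDeriv ℝ m f g‖ ≤ δ) → A f ∈ U)
    {Φ : ℝ × E → ℂ} (hΦ : ContDiff ℝ ∞ Φ) {δ : ℝ}
    (hδ : 0 < δ) (hK0 : ∀ τ : ℝ, |τ| < δ → ∀ g, g ∉ K → Φ (τ, g) = 0) :
    Tendsto (fun τ : ℝ => ((τ : ℂ)⁻¹) • (A (fun g => Φ (τ, g)) - A (fun g => Φ (0, g))))
      (𝓝[≠] 0) (𝓝 (A (fun g => fderiv ℝ Φ (0, g) (1, 0)))) := by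
  rw [← tendsto_sub_nhds_zero_iff]
  intro U hU
  rw [Filter.mem_map]
  obtain ⟨η, M, hη, hAU⟩ := hA U hU
  have hV : {τ : ℝ | |τ| < δ} ∈ 𝓝 (0 : ℝ) := by
    have h1 : Metric.ball (0 : ℝ) δ ∈ 𝓝 (0 : ℝ) := Metric.ball_mem_nhds _ hδ
    filter_upwards [h1] with τ hτ
    simpa [Real.dist_eq] using hτ
  obtain ⟨c, δ', hδ', hT⟩ := taylor_bound (P := ℝ) (E := E) hΦ 0 hV hK
    (fun q hq x hx => hK0 q hq x hx) M
  have hev : ∀ᶠ τ : ℝ in 𝓝[≠] 0, |τ| < δ' ∧ |τ| < δ ∧ c * |τ| ≤ η ∧ τ ≠ 0 := by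
    have h1 : Tendsto (fun τ : ℝ => |τ|) (𝓝[≠] 0) (𝓝 0) := by
      have := (continuous_abs (G := ℝ)).tendsto 0
      rw [abs_zero] at this
      exact this.mono_left nhdsWithin_le_nhds
    have h2 : Tendsto (fun τ : ℝ => c * |τ|) (𝓝[≠] 0) (𝓝 0) := by
      simpa using h1.const_mul c
    have h3 := h1.eventually (gt_mem_nhds hδ')
    have h4 := h1.eventually (gt_mem_nhds hδ)
    have h5 := h2.eventually (gt_mem_nhds hη)
    have h6 : ∀ᶠ τ : ℝ in 𝓝[≠] 0, τ ≠ 0 := self_mem_nhdsWithin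
    filter_upwards [h3, h4, h5, h6] with τ a1 a2 a3 a4
    exact ⟨a1, a2, a3.le, a4⟩
  filter_upwards [hev] with τ hτ
  obtain ⟨h1, h2, h3, h4⟩ := hτ
  show ((τ : ℂ)⁻¹) • (A (fun g => Φ (τ, g)) - A (fun g => Φ (0, g))) -
    A (fun g => fderiv ℝ Φ (0, g) (1, 0)) ∈ U
  have hR : ContDiff ℝ ∞ (fun x : E => Φ (0 + τ, x) - Φ (0, x) - fderiv ℝ Φ (0, x) (τ, 0)) :=
    smooth_rem hΦ τ
  have hlin : ∀ g : E, fderiv ℝ Φ (0, g) (τ, 0) = (τ : ℂ) * fderiv ℝ Φ (0, g) (1, 0) := by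
    intro g
    have e : ((τ, 0) : ℝ × E) = τ • ((1, 0) : ℝ × E) := by simp
    rw [e, map_smul, Complex.real_smul]
  have hτc : (τ : ℂ) ≠ 0 := by exact_mod_cast h4
  have key : ((τ : ℂ)⁻¹) • (A (fun g => Φ (τ, g)) - A (fun g => Φ (0, g))) -
      A (fun g => fderiv ℝ Φ (0, g) (1, 0)) =
      A (fun g => ((τ : ℝ)⁻¹ : ℝ) •
        (Φ (0 + τ, g) - Φ (0, g) - fderiv ℝ Φ (0, g) (τ, 0))) := by
    rw [← map_sub, ← map_smul, ← map_sub]
    congr 1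
    funext g
    simp only [Pi.sub_apply, Pi.smul_apply, smul_eq_mul, zero_add, hlin, Complex.real_smul,
      Complex.ofReal_inv]
    field_simp
  rw [key]
  apply hAU
  · exact (contDiff_const (c := ((τ : ℝ)⁻¹ : ℝ))).smul hR
  · intro g hg
    have e1 : Φ (0 + τ, g) = 0 := by
      rw [zero_add]
      exact hK0 τ h2 g hg
    have e2 : Φ (0, g) = 0 := hK0 0 (by simpa using hδ) g hg
    have e3 : fderiv ℝ Φ (0, g) (1, 0) = 0 := by
      have hz : (fun s : ℝ => Φ (s, g)) =ᶠ[𝓝 0] fun _ => (0 : ℂ) := by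
        filter_upwards [hV] with s hs
        exact hK0 s hs g hg
      have := (hasDerivAt_const (0 : ℝ) (0 : ℂ)).congr_of_eventuallyEq hz
      exact (deriv_curve hΦ g).unique this
    rw [hlin, e1, e2, e3]
    simp
  · intro m hm g
    have e := iteratedFDeriv_const_smul_apply (a := (τ⁻¹ : ℝ)) (i := m) (x := g)
      ((hR.of_le (m := (m : ℕ∞)) (by exact_mod_cast le_top)).contDiffAt)
    have e' : iteratedFDeriv ℝ m (fun g => ((τ : ℝ)⁻¹ : ℝ) •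
        (Φ (0 + τ, g) - Φ (0, g) - fderiv ℝ Φ (0, g) (τ, 0))) g =
        (τ⁻¹ : ℝ) • iteratedFDeriv ℝ m
          (fun x => Φ (0 + τ, x) - Φ (0, x) - fderiv ℝ Φ (0, x) (τ, 0)) g := e
    rw [e', norm_smul, norm_inv, Real.norm_eq_abs]
    have hb := hT τ (by rwa [Real.norm_eq_abs]) m hm g
    rw [Real.norm_eq_abs] at hb
    have ha : 0 < |τ| := abs_pos.2 h4
    calc |τ|⁻¹ * _ ≤ |τ|⁻¹ * (c * |τ| ^ 2) :=
          mul_le_mul_of_nonneg_left hb (inv_nonneg.2 ha.le)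
      _ = c * |τ| := by field_simp
      _ ≤ η := h3

theorem tendsto_A {P : Type*} [AddCommGroup P] [Module ℂ P] [TopologicalSpace P]
    [IsTopologicalAddGroup P] {A : (Mat n → ℂ) →ₗ[ℂ] P} (hA : ContTG A) {K : Set (Mat n)}
    (hK : IsCompact K) (hKG : K ⊆ GLs n) {Φ : ℝ × Mat n → ℂ} (hΦ : ContDiff ℝ ∞ Φ) {δ : ℝ}
    (hδ : 0 < δ) (hK0 : ∀ τ : ℝ, |τ| < δ → ∀ g, g ∉ K → Φ (τ, g) = 0) :
    Tendsto (fun τ : ℝ => ((τ : ℂ)⁻¹) • (A (fun g => Φ (τ, g)) - A (fun g => Φ (0, g))))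
      (𝓝[≠] 0) (𝓝 (A (fun g => fderiv ℝ Φ (0, g) (1, 0)))) :=
  gen (E := Mat n) (A := A) hK
    (fun U hU => by
      obtain ⟨η, M, hη, hAU⟩ := hA K hK hKG U hU
      exact ⟨η, M, hη, fun f h1 h2 h3 => hAU f ⟨h1, h2⟩ h3⟩) hΦ hδ hK0

private theorem contDiff_mulM {E : Type} [NormedAddCommGroup E] [NormedSpace ℝ E]
    [FiniteDimensional ℝ E] (b : E →ₗ[ℝ] E →ₗ[ℝ] E) {D : Type*} [NormedAddCommGroup D]
    [NormedSpace ℝ D] {X Y : D → E} (hX : ContDiff ℝ ∞ X) (hY : ContDiff ℝ ∞ Y) :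
    ContDiff ℝ ∞ fun e => b (X e) (Y e) := by
  set B : E →L[ℝ] E →L[ℝ] E := LinearMap.toContinuousLinearMap
    ((LinearMap.toContinuousLinearMap : (E →ₗ[ℝ] E) ≃ₗ[ℝ] (E →L[ℝ] E)).toLinearMap ∘ₗ b) with hB
  have h : ContDiff ℝ ∞ fun e => B (X e) (Y e) :=
    (B.contDiff.comp hX : ContDiff ℝ ∞ fun e => B (X e)).clm_apply hY
  exact h

private theorem hasDeriv_mulM {E : Type} [NormedAddCommGroup E] [NormedSpace ℝ E]
    [FiniteDimensional ℝ E] (b : E →ₗ[ℝ] E →ₗ[ℝ] E) {X Y : ℝ → E} {X' Y' : E} {t : ℝ}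
    (hX : HasDerivAt X X' t) (hY : HasDerivAt Y Y' t) :
    HasDerivAt (fun s => b (X s) (Y s)) (b X' (Y t) + b (X t) Y') t := by
  set B : E →L[ℝ] E →L[ℝ] E := LinearMap.toContinuousLinearMap
    ((LinearMap.toContinuousLinearMap : (E →ₗ[ℝ] E) ≃ₗ[ℝ] (E →L[ℝ] E)).toLinearMap ∘ₗ b) with hB
  have h1 : HasDerivAt (fun s => B (X s)) (B X') t :=
    B.hasFDerivAt.comp_hasDerivAt t hX
  exact h1.clm_apply hY

private theorem act_gen {E : Type} [NormedAddCommGroup E] [NormedSpace ℝ E]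
    [FiniteDimensional ℝ E] (b : E →ₗ[ℝ] E →ₗ[ℝ] E) {f : E → ℂ} (hf : ContDiff ℝ ∞ f)
    {x y : ℝ → E} (hx : ContDiff ℝ ∞ x) (hy : ContDiff ℝ ∞ y)
    (hx0 : ∀ g, b (x 0) g = g) (hy0 : ∀ g, b g (y 0) = g) :
    ContDiff ℝ ∞ (fun p : ℝ × E => f (b (b (x p.1) p.2) (y p.1))) ∧
    ∀ g : E, fderiv ℝ (fun p : ℝ × E => f (b (b (x p.1) p.2) (y p.1))) (0, g) (1, 0) =
      fderiv ℝ f g (b (deriv x 0) g + b g (deriv y 0)) := by
  have hΦ : ContDiff ℝ ∞ (fun p : ℝ × E => f (b (b (x p.1) p.2) (y p.1))) :=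
    hf.comp (contDiff_mulM b (contDiff_mulM b (hx.comp contDiff_fst) contDiff_snd)
      (hy.comp contDiff_fst))
  refine ⟨hΦ, ?_⟩
  intro g
  have hd := deriv_curve hΦ g
  have hxd : HasDerivAt x (deriv x 0) 0 := (hx.differentiable (by simp) 0).hasDerivAt
  have hyd : HasDerivAt y (deriv y 0) 0 := (hy.differentiable (by simp) 0).hasDerivAt
  have hm : HasDerivAt (fun s : ℝ => b (b (x s) g) (y s))
      (b (deriv x 0) g + b g (deriv y 0)) 0 := by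
    have h1 := hasDeriv_mulM b (hasDeriv_mulM b hxd (hasDerivAt_const (0 : ℝ) g)) hyd
    simpa [hx0, hy0] using h1
  have hd2 : HasDerivAt (fun s : ℝ => f (b (b (x s) g) (y s)))
      (fderiv ℝ f g (b (deriv x 0) g + b g (deriv y 0))) 0 := by
    have hg : b (b (x 0) g) (y 0) = g := by rw [hx0, hy0]
    have hf2 : HasFDerivAt f (fderiv ℝ f g) (b (b (x 0) g) (y 0)) := by
      rw [hg]
      exact (hf.differentiable (by simp) g).hasFDerivAt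
    exact hf2.comp_hasDerivAt (0 : ℝ) hm
  exact hd.unique hd2

private theorem det_near {x y : ℝ → Mat n} (hx : Continuous x) (hy : Continuous y)
    (hx0 : x 0 = 1) (hy0 : y 0 = 1) :
    ∃ δ : ℝ, 0 < δ ∧ (∀ τ : ℝ, |τ| ≤ δ → (x τ).det ≠ 0) ∧ ∀ τ : ℝ, |τ| ≤ δ → (y τ).det ≠ 0 := by
  have h1 : ∀ᶠ τ in 𝓝 (0 : ℝ), (x τ).det ≠ 0 := by
    apply (hx.matrix_det).continuousAt.eventually_ne
    rw [hx0, Matrix.det_one]
    exact one_ne_zero
  have h2 : ∀ᶠ τ in 𝓝 (0 : ℝ), (y τ).det ≠ 0 := by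
    apply (hy.matrix_det).continuousAt.eventually_ne
    rw [hy0, Matrix.det_one]
    exact one_ne_zero
  obtain ⟨δ, hδ, h⟩ := Metric.nhds_basis_closedBall.eventually_iff.1 (h1.and h2)
  refine ⟨δ, hδ, ?_, ?_⟩
  · intro τ hτ
    exact (h (by simpa [Real.dist_eq] using hτ)).1
  · intro τ hτ
    exact (h (by simpa [Real.dist_eq] using hτ)).2

private theorem comp_supp {x y : ℝ → Mat n} (hx : Continuous x) (hy : Continuous y) {δ : ℝ}
    (hδx : ∀ τ : ℝ, |τ| ≤ δ → (x τ).det ≠ 0) (hδy : ∀ τ : ℝ, |τ| ≤ δ → (y τ).det ≠ 0)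
    {K0 : Set (Mat n)} (hK0 : IsCompact K0) (hK0G : K0 ⊆ GLs n) :
    ∃ K : Set (Mat n), IsCompact K ∧ K ⊆ GLs n ∧
      ∀ τ : ℝ, |τ| ≤ δ → ∀ g, x τ * g * y τ ∈ K0 → g ∈ K := by
  set F : ℝ × Mat n → Mat n := fun p =>
    ((x p.1).det⁻¹ • (x p.1).adjugate) * p.2 * ((y p.1).det⁻¹ • (y p.1).adjugate) with hF
  have hc : ContinuousOn F (Set.Icc (-δ) δ ×ˢ K0) := by
    have a1 : ContinuousOn (fun p : ℝ × Mat n => (x p.1).det⁻¹) (Set.Icc (-δ) δ ×ˢ K0) := by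
      apply ContinuousOn.inv₀
      · exact ((hx.comp continuous_fst).matrix_det).continuousOn
      · intro p hp
        exact hδx p.1 (abs_le.2 hp.1)
    have a2 : ContinuousOn (fun p : ℝ × Mat n => (y p.1).det⁻¹) (Set.Icc (-δ) δ ×ˢ K0) := by
      apply ContinuousOn.inv₀
      · exact ((hy.comp continuous_fst).matrix_det).continuousOn
      · intro p hp
        exact hδy p.1 (abs_le.2 hp.1)
    have b1 : ContinuousOn (fun p : ℝ × Mat n => (x p.1).adjugate) (Set.Icc (-δ) δ ×ˢ K0) :=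
      ((hx.comp continuous_fst).matrix_adjugate).continuousOn
    have b2 : ContinuousOn (fun p : ℝ × Mat n => (y p.1).adjugate) (Set.Icc (-δ) δ ×ˢ K0) :=
      ((hy.comp continuous_fst).matrix_adjugate).continuousOn
    exact ((a1.smul b1).mul continuous_snd.continuousOn).mul (a2.smul b2)
  refine ⟨F '' (Set.Icc (-δ) δ ×ˢ K0), (isCompact_Icc.prod hK0).image_of_continuousOn hc, ?_, ?_⟩
  · rintro _ ⟨⟨τ, k⟩, ⟨hτ, hk⟩, rfl⟩
    have hxd := hδx τ (abs_le.2 hτ)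
    have hyd := hδy τ (abs_le.2 hτ)
    have e1 : ((x τ).det⁻¹ • (x τ).adjugate) * x τ = 1 := by
      rw [Matrix.smul_mul, Matrix.adjugate_mul, smul_smul, inv_mul_cancel₀ hxd, one_smul]
    have e2 : y τ * ((y τ).det⁻¹ • (y τ).adjugate) = 1 := by
      rw [Matrix.mul_smul, Matrix.mul_adjugate, smul_smul, inv_mul_cancel₀ hyd, one_smul]
    have d1 : ((x τ).det⁻¹ • (x τ).adjugate).det ≠ 0 := by
      intro h0
      have := congrArg Matrix.det e1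
      rw [Matrix.det_mul, h0, zero_mul, Matrix.det_one] at this
      exact zero_ne_one this
    have d2 : ((y τ).det⁻¹ • (y τ).adjugate).det ≠ 0 := by
      intro h0
      have := congrArg Matrix.det e2
      rw [Matrix.det_mul, h0, mul_zero, Matrix.det_one] at this
      exact zero_ne_one this
    show (((x τ).det⁻¹ • (x τ).adjugate) * k * ((y τ).det⁻¹ • (y τ).adjugate)).det ≠ 0
    rw [Matrix.det_mul, Matrix.det_mul]
    exact mul_ne_zero (mul_ne_zero d1 (hK0G hk)) d2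
  · intro τ hτ g hg
    have hxd := hδx τ hτ
    have hyd := hδy τ hτ
    have e1 : ((x τ).det⁻¹ • (x τ).adjugate) * x τ = 1 := by
      rw [Matrix.smul_mul, Matrix.adjugate_mul, smul_smul, inv_mul_cancel₀ hxd, one_smul]
    have e2 : y τ * ((y τ).det⁻¹ • (y τ).adjugate) = 1 := by
      rw [Matrix.mul_smul, Matrix.mul_adjugate, smul_smul, inv_mul_cancel₀ hyd, one_smul]
    refine ⟨(τ, x τ * g * y τ), ⟨abs_le.1 hτ, hg⟩, ?_⟩
    show ((x τ).det⁻¹ • (x τ).adjugate) * (x τ * g * y τ) * ((y τ).det⁻¹ • (y τ).adjugate) = g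
    calc _ = (((x τ).det⁻¹ • (x τ).adjugate) * x τ) * g *
          (y τ * ((y τ).det⁻¹ • (y τ).adjugate)) := by
          simp only [Matrix.mul_assoc]
      _ = g := by rw [e1, e2, one_mul, mul_one]

/-- the case of `f(γ(τ) applied to g)`: `Ψ : ℝ × Mat n → Mat n` smooth near `τ = 0`, `Ψ(0, g) = g`.
For `f ∈ TGs (GLs n)` there is a compact `K ⊆ GLs n` containing the support of `f(Ψ(τ,·))` for
small `τ` when every `Ψ(τ, ·)` is given by an invertible matrix acting on the left or on the right,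
`Ψ(τ,g) = x(τ) g y(τ)`. -/
theorem tendsto_A_act {P : Type*} [AddCommGroup P] [Module ℂ P] [TopologicalSpace P]
    [IsTopologicalAddGroup P] {A : (Mat n → ℂ) →ₗ[ℂ] P} (hA : ContTG A) {f : Mat n → ℂ}
    (hf : f ∈ TGs (GLs n)) {x y : ℝ → Mat n} (hx : ContDiff ℝ ∞ x) (hy : ContDiff ℝ ∞ y)
    (hx0 : x 0 = 1) (hy0 : y 0 = 1) :
    Tendsto (fun τ : ℝ => ((τ : ℂ)⁻¹) • (A (fun g => f (x τ * g * y τ)) - A f))
      (𝓝[≠] 0) (𝓝 (A (dg (fun g => deriv x 0 * g + g * deriv y 0) f))) := by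
  obtain ⟨K0, hK0c, hK0G, hfK⟩ := hf
  obtain ⟨δ, hδ, hδx, hδy⟩ := det_near hx.continuous hy.continuous hx0 hy0
  obtain ⟨K, hK, hKG, hKs⟩ := comp_supp hx.continuous hy.continuous hδx hδy hK0c hK0G
  obtain ⟨hΦ, hder⟩ := act_gen (E := Mat n) (LinearMap.mul ℝ (Mat n)) hfK.1 hx hy
    (fun g => by simp [hx0]) (fun g => by simp [hy0])
  have h := tendsto_A hA hK hKG hΦ hδ (by
    intro τ hτ g hg
    show f (x τ * g * y τ) = 0
    apply hfK.2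
    intro hc
    exact hg (hKs τ hτ.le g hc))
  have e0 : (fun g : Mat n => f (x 0 * g * y 0)) = f := by
    funext g
    rw [hx0, hy0, one_mul, mul_one]
  have e1 : (fun g : Mat n => fderiv ℝ (fun p : ℝ × Mat n => f (x p.1 * p.2 * y p.1)) (0, g)
      (1, 0)) = dg (fun g => deriv x 0 * g + g * deriv y 0) f := by
    funext g
    exact hder g
  have h' : Tendsto (fun τ : ℝ => ((τ : ℂ)⁻¹) •
      (A (fun g => f (x τ * g * y τ)) - A (fun g : Mat n => f (x 0 * g * y 0))))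
      (𝓝[≠] 0) (𝓝 (A (fun g : Mat n => fderiv ℝ
        (fun p : ℝ × Mat n => f (x p.1 * p.2 * y p.1)) (0, g) (1, 0)))) := h
  rw [e0, e1] at h'
  exact h'

end

end Pool.Agent.Work.MP_dd0ddf_al.AR
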