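import Mathlib

/-!
# MP_dd0ddf_al, archimedean part: definitions

`F = ℝ`, `E = ℂ`, `V = ℂ^n` with the skew-Hermitian form `⟨v,w⟩ = i ∑ ε_j v_j conj w_j`
(every nondegenerate skew-Hermitian space over `ℂ` is isometric to exactly one of these up to the
order of the signs), `G = GL_n(ℂ)`, `U(V) = U(p,q)`.

* `rhoF`: Schroedinger representation of the Heisenberg group of `V` on functions on `ℝ^n`, for the
  additive character `ψ(x) = exp(i a x)`, `a ≠ 0`;
* `Weil ε a`: the Weil representations: smooth representations of `U(V)` on the Schwartz space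
  `𝓢(ℝ^n)`, compatible with the Schroedinger representation: `ω(h) ρ(v) = ρ(h v) ω(h)`;
* `PS s k`: the smooth principal series `I(χ)` of `GL_n(ℂ)`, `χ_i(z) = |z|^{s_i} (z/|z|)^{k_i}`
  (these are all continuous characters of `ℂ^×`), with its Frechet topology.
-/

set_option linter.unusedSectionVars false

namespace Pool.Agent.Work.MP_dd0ddf_al.AR

open scoped SchwartzMap Matrix.Norms.Elementwise ComplexConjugate ContDiff Topology
open Matrix MeasureTheory Filter

noncomputable section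

/-- complex `n × n` matrices (with the sup norm of the entries) -/
abbrev Mat (n : ℕ) := Matrix (Fin n) (Fin n) ℂ

/-- `GL_n(ℂ)` -/
abbrev GLn (n : ℕ) := Matrix.GeneralLinearGroup (Fin n) ℂ

/-- the Schwartz space of `ℝ^n` -/
abbrev Sch (n : ℕ) := 𝓢(Fin n → ℝ, ℂ)

variable {n : ℕ}

/-! ## the skew-Hermitian space and its isometry group -/

/-- the skew-Hermitian form `⟨v,w⟩ = i ∑ ε_j v_j conj w_j` -/
def skf (ε : Fin n → ℝ) (v w : Fin n → ℂ) : ℂ :=
  Complex.I * ∑ j, (ε j : ℂ) * v j * conj (w j)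

/-- the isometry group `U(V)` -/
def UJ (ε : Fin n → ℝ) : Subgroup (GLn n) where
  carrier := {h | ∀ v w, skf ε ((h : Mat n) *ᵥ v) ((h : Mat n) *ᵥ w) = skf ε v w}
  mul_mem' := by
    intro g h hg hh v w
    have h1 := hg ((h : Mat n) *ᵥ v) ((h : Mat n) *ᵥ w)
    rw [hh v w] at h1
    simpa [Matrix.mulVec_mulVec] using h1
  one_mem' := by
    intro v w
    simp
  inv_mem' := by
    intro h hh v w
    have h1 := hh (((h⁻¹ : GLn n) : Mat n) *ᵥ v) (((h⁻¹ : GLn n) : Mat n) *ᵥ w)
    have e : (h : Mat n) * ((h⁻¹ : GLn n) : Mat n) = 1 := by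
      rw [← Units.val_mul, mul_inv_cancel, Units.val_one]
    rw [Matrix.mulVec_mulVec, Matrix.mulVec_mulVec, e, Matrix.one_mulVec, Matrix.one_mulVec] at h1
    exact h1.symm

/-! ## the Schroedinger representation and the Weil representation -/

/-- the Schroedinger representation of the Heisenberg group of `V = ℂ^n ∋ v = x + iy`:
`(ρ(v) f)(t) = ψ(∑ ε_j y_j (2 t_j + x_j)) f(t + x)`, `ψ(x) = exp(i a x)`; it satisfies
`ρ(v) ρ(w) = ψ(Tr⟨v,w⟩ / 2) ρ(v + w)`, see `rhoF_rhoF` -/
def rhoF (ε : Fin n → ℝ) (a : ℝ) (v : Fin n → ℂ) (f : (Fin n → ℝ) → ℂ) : (Fin n → ℝ) → ℂ :=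
  fun t => Complex.exp (Complex.I * a * ∑ j, (ε j : ℂ) * (v j).im * (2 * t j + (v j).re)) *
    f (fun j => t j + (v j).re)

theorem rhoF_rhoF (ε : Fin n → ℝ) (a : ℝ) (v w : Fin n → ℂ) (f : (Fin n → ℝ) → ℂ) :
    rhoF ε a v (rhoF ε a w f) = fun t =>
      Complex.exp (Complex.I * a * ((skf ε v w).re)) * rhoF ε a (v + w) f t := by
  funext t
  unfold rhoF
  rw [← mul_assoc, ← mul_assoc, ← Complex.exp_add, ← Complex.exp_add]
  congr 1
  · congr 1
    have hre : ((skf ε v w).re : ℂ) =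
        ∑ j, (ε j : ℂ) * ((v j).re * (w j).im - (v j).im * (w j).re) := by
      have : (skf ε v w).re = ∑ j, ε j * ((v j).re * (w j).im - (v j).im * (w j).re) := by
        unfold skf
        rw [Complex.mul_re, Complex.I_re, Complex.I_im, Complex.im_sum]
        rw [zero_mul, one_mul, zero_sub, ← Finset.sum_neg_distrib]
        apply Finset.sum_congr rfl
        intro j _
        simp [Complex.mul_im, Complex.mul_re]
        ring
      rw [this]
      push_cast
      rfl
    rw [hre, ← mul_add, ← mul_add, ← Finset.sum_add_distrib, ← Finset.sum_add_distrib]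
    congr 1
    apply Finset.sum_congr rfl
    intro j _
    simp only [Pi.add_apply, Complex.add_im, Complex.add_re]
    push_cast
    ring
  · congr 1
    funext j
    simp [add_assoc]

/-- a Weil representation of `U(V)` for the additive character `ψ(x) = exp(i a x)`: a strongly
continuous representation on the Schwartz space with differentiable orbit maps (along one
parameter subgroups, the derivative being a continuous operator), compatible with the Schroedinger
representation: `ω(h) ρ(v) = ρ(h v) ω(h)`.  The representations `ω_{V,ψ,μ}`, `μ` conjugate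
symplectic, are of this form. -/
structure Weil (ε : Fin n → ℝ) (a : ℝ) where
  om : UJ ε →* (Sch n →L[ℂ] Sch n)
  cont : ∀ f : Sch n, Continuous fun h => om h f
  smooth : ∀ γ : ℝ → UJ ε, Continuous γ → (∀ x y, γ (x + y) = γ x * γ y) →
    ∃ D : Sch n →L[ℂ] Sch n, ∀ f : Sch n,
      Tendsto (fun τ : ℝ => ((τ : ℂ)⁻¹) • (om (γ τ) f - f)) (𝓝[≠] 0) (𝓝 (D f))
  compat : ∀ (h : UJ ε) (v : Fin n → ℂ) (f g : Sch n), (g : (Fin n → ℝ) → ℂ) = rhoF ε a v f →
    (om h g : (Fin n → ℝ) → ℂ) = rhoF ε a (((h : GLn n) : Mat n) *ᵥ v) (om h f)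

/-! ## the principal series -/

/-- `GL_n(ℂ)` as an open set of matrices -/
def GLs (n : ℕ) : Set (Mat n) := {g | g.det ≠ 0}

/-- the character `z ↦ |z|^s (z/|z|)^k` of `ℂ^×` -/
def chr (s : ℂ) (k : ℤ) (z : ℂ) : ℂ := (‖z‖ : ℂ) ^ s * (z / (‖z‖ : ℂ)) ^ k

/-- the character `χ δ_B^{1/2}` of the group `B` of upper triangular matrices,
`δ_B(b)^{1/2} = ∏ |b_ii|^{n+1-2i}` (`i = 1, ..., n`; in Lean `i = 0, ..., n-1`) -/
def chiB (s : Fin n → ℂ) (k : Fin n → ℤ) (b : Mat n) : ℂ :=
  ∏ i : Fin n, chr (s i) (k i) (b i i) * ((‖b i i‖ : ℝ) : ℂ) ^ ((n : ℤ) - 1 - 2 * (i : ℤ))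

/-- `f` (a function on `GL_n(ℂ)`, extended by `0`) lies in `I(χ)`: it is smooth and
`f(b g) = χ(b) δ_B(b)^{1/2} f(g)` for `b` upper triangular -/
structure IsPS (s : Fin n → ℂ) (k : Fin n → ℤ) (f : Mat n → ℂ) : Prop where
  zero : ∀ g, g.det = 0 → f g = 0
  smooth : ContDiffOn ℝ ∞ f (GLs n)
  equiv : ∀ b g : Mat n, (∀ i j, j < i → b i j = 0) → b.det ≠ 0 → g.det ≠ 0 →
    f (b * g) = chiB s k b * f g

/-- the smooth principal series `I(χ)` -/
def PS (s : Fin n → ℂ) (k : Fin n → ℤ) : Submodule ℂ (Mat n → ℂ) where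
  carrier := {f | IsPS s k f}
  add_mem' := by
    intro f g hf hg
    refine ⟨?_, hf.smooth.add hg.smooth, ?_⟩
    · intro x hx
      simp [hf.zero x hx, hg.zero x hx]
    · intro b x hb hb' hx
      simp only [Pi.add_apply]
      rw [hf.equiv b x hb hb' hx, hg.equiv b x hb hb' hx, mul_add]
  zero_mem' := by
    refine ⟨fun _ _ => rfl, contDiffOn_const, ?_⟩
    intro b x hb hb' hx
    simp
  smul_mem' := by
    intro c f hf
    refine ⟨?_, hf.smooth.const_smul c, ?_⟩
    · intro x hx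
      simp [hf.zero x hx]
    · intro b x hb hb' hx
      simp only [Pi.smul_apply, smul_eq_mul]
      rw [hf.equiv b x hb hb' hx]
      ring

theorem isOpen_GLs (n : ℕ) : IsOpen (GLs n) := by
  have hc : Continuous fun g : Mat n => g.det := Continuous.matrix_det continuous_id
  exact isOpen_ne.preimage hc

namespace PS

variable {s : Fin n → ℂ} {k : Fin n → ℤ}

theorem contDiffAt (f : PS s k) {g : Mat n} (hg : g ∈ GLs n) : ContDiffAt ℝ ∞ f.1 g :=
  f.2.smooth.contDiffAt ((isOpen_GLs n).mem_nhds hg)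

theorem continuousOn_iter (f : PS s k) (m : ℕ) :
    ContinuousOn (fun g => iteratedFDeriv ℝ m f.1 g) (GLs n) := by
  intro g hg
  have h1 : ContDiffAt ℝ ∞ f.1 g := contDiffAt f hg
  have h2 : ContDiffAt ℝ 0 (iteratedFDeriv ℝ m f.1) g := by
    refine h1.iteratedFDeriv_right ?_
    simp only [zero_add]
    exact_mod_cast le_top
  exact h2.continuousAt.continuousWithinAt

/-- index set of the seminorms: compact subsets of `GL_n(ℂ)` and orders -/
abbrev Idx (n : ℕ) := {K : Set (Mat n) // IsCompact K ∧ K ⊆ GLs n} × ℕ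

theorem bdd (f : PS s k) (i : Idx n) :
    BddAbove (Set.range fun g : i.1.1 => ‖iteratedFDeriv ℝ i.2 f.1 (g : Mat n)‖) := by
  have h1 : ContinuousOn (fun g => ‖iteratedFDeriv ℝ i.2 f.1 g‖) i.1.1 :=
    ((continuousOn_iter f i.2).mono i.1.2.2).norm
  obtain ⟨C, hC⟩ := (i.1.2.1.image_of_continuousOn h1).bddAbove
  refine ⟨C, ?_⟩
  rintro _ ⟨g, rfl⟩
  exact hC ⟨g.1, g.2, rfl⟩

/-- the seminorm `f ↦ sup_{g ∈ K} ‖D^m f(g)‖` -/
def sem (s : Fin n → ℂ) (k : Fin n → ℤ) (i : Idx n) : Seminorm ℂ (PS s k) :=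
  Seminorm.of (fun f => ⨆ g : i.1.1, ‖iteratedFDeriv ℝ i.2 f.1 (g : Mat n)‖)
    (by
      intro f f'
      by_cases hne : Nonempty i.1.1
      · apply ciSup_le
        intro g
        have hg := i.1.2.2 g.2
        have e : iteratedFDeriv ℝ i.2 (f + f').1 (g : Mat n) =
            iteratedFDeriv ℝ i.2 f.1 (g : Mat n) + iteratedFDeriv ℝ i.2 f'.1 (g : Mat n) := by
          have h1 := (contDiffAt f hg).of_le (m := i.2) (by exact_mod_cast le_top)
          have h2 := (contDiffAt f' hg).of_le (m := i.2) (by exact_mod_cast le_top)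
          exact iteratedFDeriv_add_apply h1 h2
        rw [e]
        refine (norm_add_le _ _).trans ?_
        exact add_le_add (le_ciSup (bdd f i) g) (le_ciSup (bdd f' i) g)
      · rw [not_nonempty_iff] at hne
        rw [Real.iSup_of_isEmpty, Real.iSup_of_isEmpty, Real.iSup_of_isEmpty]
        simp)
    (by
      intro c f
      have e : ∀ g : i.1.1, ‖iteratedFDeriv ℝ i.2 (c • f).1 (g : Mat n)‖ =
          ‖c‖ * ‖iteratedFDeriv ℝ i.2 f.1 (g : Mat n)‖ := by
        intro g
        have h1 := (contDiffAt f (i.1.2.2 g.2)).of_le (m := i.2) (by exact_mod_cast le_top)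
        have : iteratedFDeriv ℝ i.2 (c • f).1 (g : Mat n) =
            c • iteratedFDeriv ℝ i.2 f.1 (g : Mat n) :=
          iteratedFDeriv_const_smul_apply h1
        rw [this, norm_smul]
      simp only [e]
      rw [Real.mul_iSup_of_nonneg (norm_nonneg c)])

theorem sem_apply (i : Idx n) (f : PS s k) :
    sem s k i f = ⨆ g : i.1.1, ‖iteratedFDeriv ℝ i.2 f.1 (g : Mat n)‖ := rfl

instance : Nonempty (Idx n) := ⟨⟨⟨∅, isCompact_empty, Set.empty_subset _⟩, 0⟩⟩

/-- the family of seminorms defining the topology of `I(χ)` -/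
def fam (s : Fin n → ℂ) (k : Fin n → ℤ) : SeminormFamily ℂ (PS s k) (Idx n) := fun i => sem s k i

instance : TopologicalSpace (PS s k) := (fam s k).moduleFilterBasis.topology

theorem withSeminorms (s : Fin n → ℂ) (k : Fin n → ℤ) : WithSeminorms (fam s k) := ⟨rfl⟩

end PS

/-- `f' = R_h f`, right translation by `h ∈ GL_n(ℂ)` -/
def IsRight (h : GLn n) (f f' : Mat n → ℂ) : Prop := ∀ g, f' g = f (g * (h : Mat n))

/-! ## the spaces of homomorphisms -/

/-- `Hom_{U(V)}(Π, ω)`: continuous equivariant linear maps -/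
def HomU {ε : Fin n → ℝ} {a : ℝ} (W : Weil ε a) {P : Type*} [AddCommGroup P] [Module ℂ P]
    [TopologicalSpace P] (π : GLn n →* (P →L[ℂ] P)) : Submodule ℂ (P →L[ℂ] Sch n) where
  carrier := {φ | ∀ (h : UJ ε) (x : P), φ (π (h : GLn n) x) = W.om h (φ x)}
  add_mem' := by
    intro φ φ' hφ hφ' h x
    simp [hφ h x, hφ' h x]
  zero_mem' := by
    intro h x
    simp
  smul_mem' := by
    intro c φ hφ h x
    simp [hφ h x]

/-- `(π, P)` is a (topologically) irreducible representation of `GL_n(ℂ)` which is a quotient of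
a principal series `I(χ)`, `|χ_1| ≥ |χ_2| ≥ ... ≥ |χ_n|` (a continuous intertwining map
`I(χ) → P` with dense image).  By the Langlands classification for `GL_n(ℂ)` (Zhelobenko) these
are exactly the irreducible Casselman-Wallach representations. -/
def IsLangQuot {P : Type*} [AddCommGroup P] [Module ℂ P] [TopologicalSpace P]
    (π : GLn n →* (P →L[ℂ] P)) : Prop :=
  ∃ (s : Fin n → ℂ) (k : Fin n → ℤ), (∀ i j, i ≤ j → (s j).re ≤ (s i).re) ∧
    ∃ A : PS s k →L[ℂ] P, DenseRange A ∧
      ∀ (h : GLn n) (f f' : PS s k), IsRight h f.1 f'.1 → A f' = π h (A f)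

end

end Pool.Agent.Work.MP_dd0ddf_al.AR
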