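import Pool.Agent.Work.MP_dd0ddf_al.AR.GSa
import Pool.Agent.Work.MP_dd0ddf_al.AR.GSb

/-!
# GSd (M): the projection does not change under block upper triangular left multiplication

Let `Λ k l = 0` for `k > m ≥ l`.  For small `τ`, `b = 1 + τ Λ` is invertible, its rows of index
`> m` are combinations of `e_l`, `l > m`, `g' = b g ∈ Od ε (m+1)` (open), and the span of the rows
of index `> m` of `g'` equals that of `g` (the lower right block of `b` is invertible because `b` is
block triangular with `det b ≠ 0`; alternatively, `b⁻¹` has the same block form).  By `hat_unique`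
for `g'`: `hat ε m g x` differs from `x` by an element of this span and is orthogonal to the rows of
index `> m` of `g'`, so `hat ε m g' x = hat ε m g x` (`hat_left`).  So the derivative of
`τ ↦ hat ε m ((1 + τ Λ) g) (x((1 + τ Λ) g))` at `0` is `hat ε m g (D x [Λ g])`
(`hat` is linear in `x`; `fderiv` of the smooth function `g ↦ hat ε m g (x g)` -- for `x` constant
this is `contDiffOn_hat`; in general expand `x` in the standard basis, `hat ε m g x = ∑ x_j hat ε m g e_j`).
-/

set_option linter.unusedSectionVars false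

namespace Pool.Agent.Work.MP_dd0ddf_al.AR

open scoped SchwartzMap Matrix.Norms.Elementwise ComplexConjugate ContDiff Topology LineDeriv
open Matrix MeasureTheory Filter

noncomputable section

variable {n : ℕ}

private theorem blk_inv {m : Fin n} {b : Mat n} (hb : b.det ≠ 0)
    (hblk : ∀ k l, m < k → l ≤ m → b k l = 0) : ∀ k l, m < k → l ≤ m → b⁻¹ k l = 0 := by
  have hT : b.BlockTriangular (fun i : Fin n => if m < i then (1 : ℕ) else 0) := by
    intro i j hij
    have hij' : (if m < j then (1 : ℕ) else 0) < (if m < i then (1 : ℕ) else 0) := hij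
    split_ifs at hij' with h1 h2 h2
    · omega
    · omega
    · exact hblk i j h2 (not_lt.1 h1)
    · omega
  haveI : Invertible b := Matrix.invertibleOfIsUnitDet b (isUnit_iff_ne_zero.2 hb)
  have hI := Matrix.blockTriangular_inv_of_blockTriangular hT
  intro k l hk hl
  refine hI ?_
  show (if m < l then (1 : ℕ) else 0) < (if m < k then (1 : ℕ) else 0)
  rw [if_pos hk, if_neg (not_lt.2 hl)]
  exact Nat.one_pos

private theorem sum_row (c : Fin n → ℂ) (g : Mat n) : ∑ l, c l • g l = c ᵥ* g :=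
  (Matrix.vecMul_eq_sum c g).symm

private theorem row_mul (b g : Mat n) (k : Fin n) : (b * g) k = ∑ l, b k l • g l := by
  funext j
  rw [Matrix.mul_apply, Finset.sum_apply]
  rfl

private theorem hf_sum_right (ε : Fin n → ℝ) (y : Fin n → ℂ) (c : Fin n → ℂ) (g : Mat n) :
    hf ε y (∑ l, c l • g l) = ∑ l, conj (c l) * hf ε y (g l) := by
  unfold hf
  simp only [Finset.sum_apply, Pi.smul_apply, smul_eq_mul, map_sum, map_mul, Finset.mul_sum]
  rw [Finset.sum_comm]
  refine Finset.sum_congr rfl fun l _ => Finset.sum_congr rfl fun j _ => ?_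
  ring

theorem hat_left {ε : Fin n → ℝ} {m : Fin n} {g b : Mat n} (hg : g ∈ Od ε ((m : ℕ) + 1))
    (hb : b.det ≠ 0) (hbg : b * g ∈ Od ε ((m : ℕ) + 1))
    (hblk : ∀ k l, m < k → l ≤ m → b k l = 0) (x : Fin n → ℂ) :
    hat ε m (b * g) x = hat ε m g x := by
  obtain ⟨c, hc, hy⟩ := hat_span hg x
  have hi := blk_inv hb hblk
  symm
  refine hat_unique hbg (c := c ᵥ* b⁻¹) ?_ ?_ ?_
  · intro l hl
    show ∑ k, c k * b⁻¹ k l = 0
    refine Finset.sum_eq_zero fun k _ => ?_
    rcases le_or_gt k m with hk | hk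
    · rw [hc k hk, zero_mul]
    · rw [hi k l hk hl, mul_zero]
  · rw [hy, sum_row, sum_row, Matrix.vecMul_vecMul, ← Matrix.mul_assoc,
      Matrix.nonsing_inv_mul b (isUnit_iff_ne_zero.2 hb), Matrix.one_mul]
  · intro l hl
    rw [row_mul, hf_sum_right]
    refine Finset.sum_eq_zero fun k _ => ?_
    rcases le_or_gt k m with hk | hk
    · rw [hblk l k hl hk, map_zero, zero_mul]
    · rw [hat_orth hg x hk, mul_zero]

/-- `hat` as a linear map -/
private def hatL (ε : Fin n → ℝ) (m : Fin n) (g : Mat n) : (Fin n → ℂ) →ₗ[ℂ] (Fin n → ℂ) where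
  toFun := hat ε m g
  map_add' := hat_add ε m g
  map_smul' := fun c x => hat_smul ε m g c x

private theorem hat_expand (ε : Fin n → ℝ) (m : Fin n) (g : Mat n) (x : Fin n → ℂ) :
    hat ε m g x = ∑ j, x j • hat ε m g (fun i => if j = i then 1 else 0) :=
  LinearMap.pi_apply_eq_sum_univ (hatL ε m g) x

private theorem hat_diff {ε : Fin n → ℝ} {m : Fin n} {g : Mat n}
    (hg : g ∈ Od ε ((m : ℕ) + 1)) (y : Fin n → ℂ) :
    DifferentiableAt ℝ (fun g => hat ε m g y) g := by
  have h1 : ContDiffOn ℝ ∞ (fun g => hat ε m g y) (Od ε ((m : ℕ) + 1)) :=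
    contDiffOn_hat (x := fun _ => y) subset_rfl contDiffOn_const
  exact (h1.contDiffAt ((isOpen_Od ε _).mem_nhds hg)).differentiableAt (by simp)

private theorem hat_dir {ε : Fin n → ℝ} {m : Fin n} {g : Mat n}
    (hg : g ∈ Od ε ((m : ℕ) + 1)) {Λ : Mat n} (hΛ : ∀ k l, m < k → l ≤ m → Λ k l = 0)
    (y : Fin n → ℂ) : fderiv ℝ (fun g => hat ε m g y) g (Λ * g) = 0 := by
  have hcurve : HasDerivAt (fun τ : ℝ => g + τ • (Λ * g)) (Λ * g) 0 := by
    have h1 : HasDerivAt (fun τ : ℝ => τ • (Λ * g)) ((1 : ℝ) • (Λ * g)) 0 :=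
      (hasDerivAt_id (0 : ℝ)).smul_const (Λ * g)
    rw [one_smul] at h1
    exact h1.const_add g
  have h0 : g + (0 : ℝ) • (Λ * g) = g := by rw [zero_smul, add_zero]
  have hcomp : HasDerivAt (fun τ : ℝ => hat ε m (g + τ • (Λ * g)) y)
      (fderiv ℝ (fun g => hat ε m g y) g (Λ * g)) 0 := by
    have h2 : HasFDerivAt (fun g => hat ε m g y) (fderiv ℝ (fun g => hat ε m g y) g)
        (g + (0 : ℝ) • (Λ * g)) := by
      rw [h0]
      exact (hat_diff hg y).hasFDerivAt
    exact h2.comp_hasDerivAt (0 : ℝ) hcurve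
  have hcont : Continuous fun τ : ℝ => g + τ • (Λ * g) :=
    continuous_const.add (continuous_id.smul continuous_const)
  have hev1 : ∀ᶠ τ : ℝ in 𝓝 0, g + τ • (Λ * g) ∈ Od ε ((m : ℕ) + 1) := by
    have h3 : Od ε ((m : ℕ) + 1) ∈ 𝓝 (g + (0 : ℝ) • (Λ * g)) := by
      rw [h0]
      exact (isOpen_Od ε _).mem_nhds hg
    exact hcont.continuousAt.eventually h3
  have hcont2 : Continuous fun τ : ℝ => ((1 : Mat n) + τ • Λ).det :=
    Continuous.matrix_det (continuous_const.add (continuous_id.smul continuous_const))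
  have hev2 : ∀ᶠ τ : ℝ in 𝓝 0, ((1 : Mat n) + τ • Λ).det ≠ 0 := by
    have h3 : ((1 : Mat n) + (0 : ℝ) • Λ).det ≠ 0 := by
      rw [zero_smul, add_zero, Matrix.det_one]
      exact one_ne_zero
    exact hcont2.continuousAt.eventually_ne h3
  have hconst : (fun τ : ℝ => hat ε m (g + τ • (Λ * g)) y) =ᶠ[𝓝 0] fun _ => hat ε m g y := by
    filter_upwards [hev1, hev2] with τ h4 h5
    have e : g + τ • (Λ * g) = (1 + τ • Λ) * g := by
      rw [Matrix.add_mul, Matrix.one_mul, Matrix.smul_mul]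
    rw [e] at h4 ⊢
    refine hat_left hg h5 h4 ?_ y
    intro k l hk hl
    rw [Matrix.add_apply, Matrix.smul_apply, hΛ k l hk hl, smul_zero, add_zero,
      Matrix.one_apply_ne (ne_of_gt (lt_of_le_of_lt hl hk))]
  have h6 := hcomp.congr_of_eventuallyEq hconst.symm
  exact h6.unique (hasDerivAt_const (0 : ℝ) (hat ε m g y))

theorem fderiv_hat_blk {ε : Fin n → ℝ} {m : Fin n} {g : Mat n}
    (hg : g ∈ Od ε ((m : ℕ) + 1)) {Λ : Mat n} (hΛ : ∀ k l, m < k → l ≤ m → Λ k l = 0)
    {x : Mat n → Fin n → ℂ} (hx : DifferentiableAt ℝ x g) :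
    fderiv ℝ (fun g => hat ε m g (x g)) g (Λ * g) = hat ε m g (fderiv ℝ x g (Λ * g)) := by
  have e : (fun g => hat ε m g (x g)) =
      fun g => ∑ j, x g j • hat ε m g (fun i => if j = i then 1 else 0) := by
    funext g
    exact hat_expand ε m g (x g)
  have hxj : ∀ j, HasFDerivAt (fun g => x g j)
      ((ContinuousLinearMap.proj (R := ℝ) (φ := fun _ : Fin n => ℂ) j).comp (fderiv ℝ x g)) g :=
    fun j => (ContinuousLinearMap.proj (R := ℝ) (φ := fun _ : Fin n => ℂ) j).hasFDerivAt.comp g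
      hx.hasFDerivAt
  have hd : HasFDerivAt (fun g => ∑ j, x g j • hat ε m g (fun i => if j = i then 1 else 0))
      (∑ j, (x g j • fderiv ℝ (fun g => hat ε m g (fun i => if j = i then 1 else 0)) g +
        ((ContinuousLinearMap.proj (R := ℝ) (φ := fun _ : Fin n => ℂ) j).comp
          (fderiv ℝ x g)).smulRight (hat ε m g (fun i => if j = i then 1 else 0)))) g :=
    HasFDerivAt.fun_sum fun j _ => (hxj j).smul (hat_diff hg _).hasFDerivAt
  rw [e, hd.fderiv, hat_expand ε m g (fderiv ℝ x g (Λ * g))]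
  rw [ContinuousLinearMap.sum_apply]
  refine Finset.sum_congr rfl fun j _ => ?_
  rw [ContinuousLinearMap.add_apply, ContinuousLinearMap.smul_apply, hat_dir hg hΛ, smul_zero,
    zero_add]
  rfl

theorem fderiv_hat_row {ε : Fin n → ℝ} {m : Fin n} {g : Mat n}
    (hg : g ∈ Od ε ((m : ℕ) + 1)) {Λ : Mat n} (hΛ : ∀ k l, m < k → l ≤ m → Λ k l = 0)
    (k : Fin n) :
    fderiv ℝ (fun g => hat ε m g (g k)) g (Λ * g) = ∑ l, Λ k l • hat ε m g (g l) := by
  let L : Mat n →ₗ[ℝ] (Fin n → ℂ) :=
    { toFun := fun g => g k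
      map_add' := fun _ _ => rfl
      map_smul' := fun _ _ => rfl }
  have hL : HasFDerivAt (fun g : Mat n => g k) (LinearMap.toContinuousLinearMap L) g :=
    (LinearMap.toContinuousLinearMap L).hasFDerivAt
  rw [fderiv_hat_blk (x := fun g => g k) hg hΛ hL.differentiableAt, hL.fderiv]
  have e1 : (LinearMap.toContinuousLinearMap L) (Λ * g) = ∑ l, Λ k l • g l := row_mul Λ g k
  rw [e1]
  have e2 := map_sum (hatL ε m g) (fun l => Λ k l • g l) Finset.univ
  refine (e2 : hat ε m g (∑ l, Λ k l • g l) = _).trans ?_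
  refine Finset.sum_congr rfl fun l _ => ?_
  exact hat_smul ε m g _ _

end

end Pool.Agent.Work.MP_dd0ddf_al.AR
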