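import Pool.Agent.Work.MP_dd0ddf_al.AR.Obj
import Pool.Agent.Work.MP_dd0ddf_al.AR.GSd
import Pool.Agent.Work.MP_dd0ddf_al.AR.Inf

/-!
# DerB (M): derivatives of the basic functions in the directions `Λ g`

`Λ` is block upper triangular: `Λ k l = 0` for `k > m ≥ l` (this includes `Λ` upper triangular and
the matrices `Ye`).  `(Λ g) k = ∑ Λ_kl g_l` is the derivative of the row `g_k`, and by
`fderiv_hat_row`: `D w_i [Λ g] = ∑_l Λ_il w_l` for `w_i = ww ε m i`, `v = w_m`, (`w_l = 0` for `l > m`).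
Hence, product rule for `hf` (linear in the first, antilinear in the second variable):
`D s_k = ∑_l Λ_kl s_l + ∑_{l ≤ m} conj(Λ_ml) <g_k, w_l>`.
For `v g⁻¹`: `D (x g⁻¹) = (D x) g⁻¹ - x g⁻¹ (Λ g) g⁻¹ = (D x) g⁻¹ - (x g⁻¹) Λ` (derivative of the matrix
inverse; e.g. differentiate `(x g⁻¹) g = x`).
-/

set_option linter.unusedSectionVars false

namespace Pool.Agent.Work.MP_dd0ddf_al.AR

open scoped SchwartzMap Matrix.Norms.Elementwise ComplexConjugate ContDiff Topology LineDeriv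
open Matrix MeasureTheory Filter

noncomputable section

variable {n : ℕ}

section Gen

variable {E : Type*} [NormedAddCommGroup E] [NormedSpace ℝ E]

private theorem gen_hf (ε : Fin n → ℝ) {v w : E → Fin n → ℂ} {g : E}
    (hv : DifferentiableAt ℝ v g) (hw : DifferentiableAt ℝ w g) (H : E) :
    fderiv ℝ (fun g => hf ε (v g) (w g)) g H =
      hf ε (fderiv ℝ v g H) (w g) + hf ε (v g) (fderiv ℝ w g H) := by
  have h1 : ∀ j, HasFDerivAt (fun g => v g j)
      ((ContinuousLinearMap.proj j).comp (fderiv ℝ v g)) g := fun j =>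
    hasFDerivAt_pi'.1 hv.hasFDerivAt j
  have h2 : ∀ j, HasFDerivAt (fun g => w g j)
      ((ContinuousLinearMap.proj j).comp (fderiv ℝ w g)) g := fun j =>
    hasFDerivAt_pi'.1 hw.hasFDerivAt j
  have h3 : ∀ j, HasFDerivAt (fun g => conj (w g j))
      ((Complex.conjCLE : ℂ →L[ℝ] ℂ).comp
        ((ContinuousLinearMap.proj j).comp (fderiv ℝ w g))) g := fun j =>
    (Complex.conjCLE : ℂ →L[ℝ] ℂ).hasFDerivAt.comp g (h2 j)
  have h4 := HasFDerivAt.fun_sum (u := Finset.univ) fun j _ =>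
    ((h1 j).const_mul (ε j : ℂ)).mul (h3 j)
  have h5 : fderiv ℝ (fun g => hf ε (v g) (w g)) g = _ := h4.fderiv
  rw [h5, _root_.sum_apply]
  simp only [hf]
  rw [← Finset.sum_add_distrib]
  refine Finset.sum_congr rfl fun j _ => ?_
  simp
  ring

/-- product rule for a sum of products of two families of functions -/
private theorem gen_vecMul {y : E → Fin n → ℂ} {M : E → Fin n → ℂ} {g : E}
    (hy : DifferentiableAt ℝ y g) (hM : DifferentiableAt ℝ M g) (H : E) :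
    fderiv ℝ (fun g => ∑ k, y g k * M g k) g H =
      ∑ k, (fderiv ℝ y g H k * M g k + y g k * fderiv ℝ M g H k) := by
  have h1 : ∀ k, HasFDerivAt (fun g => y g k)
      ((ContinuousLinearMap.proj k).comp (fderiv ℝ y g)) g := fun k =>
    hasFDerivAt_pi'.1 hy.hasFDerivAt k
  have h2 : ∀ k, HasFDerivAt (fun g => M g k)
      ((ContinuousLinearMap.proj k).comp (fderiv ℝ M g)) g := fun k =>
    hasFDerivAt_pi'.1 hM.hasFDerivAt k
  have h4 := HasFDerivAt.fun_sum (u := Finset.univ) fun k _ => (h1 k).mul (h2 k)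
  have h5 : fderiv ℝ (fun g => ∑ k, y g k * M g k) g = _ := h4.fderiv
  rw [h5, _root_.sum_apply]
  refine Finset.sum_congr rfl fun k _ => ?_
  simp
  ring

private theorem gen_comp {x : E → Fin n → ℂ} {g : E} (hx : DifferentiableAt ℝ x g) (H : E)
    (l : Fin n) : fderiv ℝ (fun g => x g l) g H = fderiv ℝ x g H l := by
  have h1 : HasFDerivAt (fun g => x g l)
      ((ContinuousLinearMap.proj l).comp (fderiv ℝ x g)) g :=
    hasFDerivAt_pi'.1 hx.hasFDerivAt l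
  rw [h1.fderiv]
  rfl

private theorem gen_main {y : E → Fin n → ℂ} {M : E → Fin n → ℂ} {x : E → Fin n → ℂ} {g : E}
    (hy : DifferentiableAt ℝ y g) (hM : DifferentiableAt ℝ M g) (hx : DifferentiableAt ℝ x g)
    (l : Fin n) (heq : (fun g => ∑ k, y g k * M g k) =ᶠ[𝓝 g] fun g => x g l) (H : E) :
    fderiv ℝ x g H l = ∑ k, (fderiv ℝ y g H k * M g k + y g k * fderiv ℝ M g H k) := by
  rw [← gen_comp hx, ← heq.fderiv_eq, gen_vecMul hy hM]

private theorem gen_difAt {F : Type*} [NormedAddCommGroup F] [NormedSpace ℝ F] {Ω : Set E}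
    (hΩ : IsOpen Ω) {v : E → F} (hv : ContDiffOn ℝ ∞ v Ω)
    {g : E} (hg : g ∈ Ω) : DifferentiableAt ℝ v g :=
  (hv.contDiffAt (hΩ.mem_nhds hg)).differentiableAt (by simp)

end Gen

private theorem row_mul_aux (b g : Mat n) (k : Fin n) : (b * g) k = ∑ l, b k l • g l := by
  funext j
  rw [Matrix.mul_apply, Finset.sum_apply]
  rfl

private theorem hf_sum_left_aux (ε : Fin n → ℝ) (c : Fin n → ℂ) (u : Fin n → Fin n → ℂ)
    (y : Fin n → ℂ) : hf ε (∑ l, c l • u l) y = ∑ l, c l * hf ε (u l) y := by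
  unfold hf
  simp only [Finset.sum_apply, Pi.smul_apply, smul_eq_mul, Finset.mul_sum, Finset.sum_mul]
  rw [Finset.sum_comm]
  refine Finset.sum_congr rfl fun l _ => Finset.sum_congr rfl fun j _ => ?_
  ring

private theorem hf_sum_right_aux (ε : Fin n → ℝ) (y : Fin n → ℂ) (c : Fin n → ℂ)
    (u : Fin n → Fin n → ℂ) : hf ε y (∑ l, c l • u l) = ∑ l, conj (c l) * hf ε y (u l) := by
  unfold hf
  simp only [Finset.sum_apply, Pi.smul_apply, smul_eq_mul, map_sum, map_mul, Finset.mul_sum]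
  rw [Finset.sum_comm]
  refine Finset.sum_congr rfl fun l _ => Finset.sum_congr rfl fun j _ => ?_
  ring

private theorem coef_aux {Ω : Set (Mat n)} (hΩ : Ω ⊆ GLs n) {x : Mat n → Fin n → ℂ}
    (hx : ContDiffOn ℝ ∞ x Ω) : ContDiffOn ℝ ∞ (fun g => x g ᵥ* g⁻¹) Ω := by
  refine contDiffOn_pi.2 fun l => ?_
  have h1 : ContDiffOn ℝ ∞ (fun g : Mat n => g⁻¹) Ω := contDiffOn_inv.mono hΩ
  have h2 : ∀ j l, ContDiffOn ℝ ∞ (fun g : Mat n => g⁻¹ j l) Ω := by
    intro j l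
    have h3 : ContDiff ℝ ∞ (fun g : Mat n => g j l) := contDiff_apply_apply ℝ ℂ j l
    exact h3.comp_contDiffOn h1
  have h4 : ∀ j, ContDiffOn ℝ ∞ (fun g => x g j) Ω := fun j => contDiffOn_pi.1 hx j
  have h5 : (fun g => (x g ᵥ* g⁻¹) l) = fun g : Mat n => ∑ j, x g j * g⁻¹ j l := by
    funext g
    rfl
  rw [h5]
  exact ContDiffOn.sum fun j _ => (h4 j).mul (h2 j l)

private def rowL (k : Fin n) : Mat n →ₗ[ℝ] (Fin n → ℂ) where
  toFun := fun g => g k
  map_add' := fun _ _ => rfl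
  map_smul' := fun _ _ => rfl

private theorem row_hasFDeriv (k : Fin n) (g : Mat n) :
    HasFDerivAt (fun g : Mat n => g k) (LinearMap.toContinuousLinearMap (rowL k)) g :=
  (LinearMap.toContinuousLinearMap (rowL k)).hasFDerivAt

private theorem row_fderiv (k : Fin n) (g H : Mat n) :
    fderiv ℝ (fun g : Mat n => g k) g H = H k := by
  rw [(row_hasFDeriv k g).fderiv]
  rfl

private def colL (l : Fin n) : Mat n →ₗ[ℝ] (Fin n → ℂ) where
  toFun := fun g k => g k l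
  map_add' := fun _ _ => rfl
  map_smul' := fun _ _ => rfl

private theorem col_hasFDeriv (l : Fin n) (g : Mat n) :
    HasFDerivAt (fun g : Mat n => fun k => g k l)
      (LinearMap.toContinuousLinearMap (colL l)) g :=
  (LinearMap.toContinuousLinearMap (colL l)).hasFDerivAt

private theorem col_fderiv (l : Fin n) (g H : Mat n) (k : Fin n) :
    fderiv ℝ (fun g : Mat n => fun k => g k l) g H k = H k l := by
  rw [(col_hasFDeriv l g).fderiv]
  rfl

theorem fderiv_ww {ε : Fin n → ℝ} {m : Fin n} {g : Mat n} (hg : g ∈ Od ε ((m : ℕ) + 1))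
    {Λ : Mat n} (hΛ : ∀ k l, m < k → l ≤ m → Λ k l = 0) (i : Fin n) :
    fderiv ℝ (ww ε m i) g (Λ * g) = ∑ l, Λ i l • ww ε m l g := by
  exact fderiv_hat_row hg hΛ i

theorem fderiv_vv {ε : Fin n → ℝ} {m : Fin n} {g : Mat n} (hg : g ∈ Od ε ((m : ℕ) + 1))
    {Λ : Mat n} (hΛ : ∀ k l, m < k → l ≤ m → Λ k l = 0) :
    fderiv ℝ (vv ε m) g (Λ * g) = ∑ l, Λ m l • ww ε m l g := by
  exact fderiv_hat_row hg hΛ m

theorem fderiv_ss {ε : Fin n → ℝ} {m : Fin n} {g : Mat n} (hg : g ∈ Od ε ((m : ℕ) + 1))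
    {Λ : Mat n} (hΛ : ∀ k l, m < k → l ≤ m → Λ k l = 0) (k : Fin n) :
    fderiv ℝ (ss ε m k) g (Λ * g) =
      ∑ l, Λ k l * ss ε m l g + ∑ l, conj (Λ m l) * hf ε (g k) (ww ε m l g) := by
  have hv : DifferentiableAt ℝ (vv ε m) g :=
    gen_difAt (E := Mat n) (isOpen_Od ε _) (contDiffOn_vv subset_rfl) hg
  have h : fderiv ℝ (ss ε m k) g (Λ * g) =
      hf ε (fderiv ℝ (fun g : Mat n => g k) g (Λ * g)) (vv ε m g) +
        hf ε (g k) (fderiv ℝ (vv ε m) g (Λ * g)) :=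
    gen_hf (E := Mat n) ε (row_hasFDeriv k g).differentiableAt hv (Λ * g)
  rw [h, row_fderiv, fderiv_vv hg hΛ, row_mul_aux, hf_sum_left_aux, hf_sum_right_aux]
  rfl

/-- derivative of the coefficients `x g⁻¹` -/
theorem fderiv_coef {Ω : Set (Mat n)} (hΩ : IsOpen Ω) (hΩG : Ω ⊆ GLs n)
    {x : Mat n → Fin n → ℂ} (hx : ContDiffOn ℝ ∞ x Ω) {g : Mat n} (hg : g ∈ Ω) (Λ : Mat n) :
    fderiv ℝ (fun g => x g ᵥ* g⁻¹) g (Λ * g) =
      fderiv ℝ x g (Λ * g) ᵥ* g⁻¹ - (x g ᵥ* g⁻¹) ᵥ* Λ := by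
  have hgu : IsUnit g.det := isUnit_iff_ne_zero.2 (hΩG hg)
  have hyc : ContDiffOn ℝ ∞ (fun g => x g ᵥ* g⁻¹) Ω := coef_aux hΩG hx
  have hy : DifferentiableAt ℝ (fun g => x g ᵥ* g⁻¹) g := gen_difAt (E := Mat n) hΩ hyc hg
  have hxd : DifferentiableAt ℝ x g := gen_difAt (E := Mat n) hΩ hx hg
  have hmain : fderiv ℝ x g (Λ * g) =
      fderiv ℝ (fun g => x g ᵥ* g⁻¹) g (Λ * g) ᵥ* g + (x g ᵥ* g⁻¹) ᵥ* (Λ * g) := by
    funext l
    have heq : (fun g : Mat n => ∑ k, (x g ᵥ* g⁻¹) k * g k l) =ᶠ[𝓝 g] fun g => x g l := by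
      filter_upwards [hΩ.mem_nhds hg] with g' hg'
      have hu : IsUnit g'.det := isUnit_iff_ne_zero.2 (hΩG hg')
      have h1 : (x g' ᵥ* g'⁻¹) ᵥ* g' = x g' := by
        rw [Matrix.vecMul_vecMul, Matrix.nonsing_inv_mul _ hu, Matrix.vecMul_one]
      exact congrFun h1 l
    have h1 := gen_main (E := Mat n) (y := fun g => x g ᵥ* g⁻¹)
      (M := fun g : Mat n => fun k => g k l) hy
      (col_hasFDeriv l g).differentiableAt hxd l heq (Λ * g)
    refine h1.trans ?_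
    rw [Finset.sum_add_distrib]
    refine congrArg₂ (· + ·) rfl ?_
    show ∑ k, (x g ᵥ* g⁻¹) k * fderiv ℝ (fun g : Mat n => fun k => g k l) g (Λ * g) k =
      ∑ k, (x g ᵥ* g⁻¹) k * (Λ * g) k l
    refine Finset.sum_congr rfl fun k _ => ?_
    rw [col_fderiv]
  rw [hmain, Matrix.add_vecMul, Matrix.vecMul_vecMul, Matrix.vecMul_vecMul,
    Matrix.mul_nonsing_inv g hgu, Matrix.vecMul_one, Matrix.mul_assoc,
    Matrix.mul_nonsing_inv g hgu, Matrix.mul_one, add_sub_cancel_right]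

end

end Pool.Agent.Work.MP_dd0ddf_al.AR
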