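import Pool.Agent.Work.MP_dd0ddf_al.AR.TF1
import Pool.Agent.Work.MP_dd0ddf_al.AR.TF2

/-!
# DistK (S-M): multiplication of a distribution by a smooth function

`mGL c` is the linear map `F ↦ c F` on all functions.  For `c` smooth on `Ω ⊇ K`: let `κ` be a smooth
cutoff, `κ = 1` on `K`, `tsupport κ ⊆ Ω` compact; `c F = (κ c) F` for `F ∈ TFK K`, `κ c` is smooth
with bounded derivatives, and `norm_iteratedFDeriv_mul_le` gives
`‖D^m (c F)‖ ≤ C max_{j ≤ m} ‖D^j F‖`, so `‖T (c F)‖ ≤ C_T C_M B` if all derivatives of `F` of order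
`≤ M` are `≤ B` (then `B ≥ 0`).
-/

set_option linter.unusedSectionVars false

namespace Pool.Agent.Work.MP_dd0ddf_al.AR

open scoped SchwartzMap Matrix.Norms.Elementwise ComplexConjugate ContDiff Topology LineDeriv
open Matrix MeasureTheory Filter

noncomputable section

variable {n : ℕ}

/-- multiplication by `c(g)` as a linear map -/
def mGL (c : Mat n → ℂ) : (XX n → ℂ) →ₗ[ℂ] (XX n → ℂ) where
  toFun := mG c
  map_add' := by
    intro F G
    funext x
    simp [mG, mul_add]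
  map_smul' := by
    intro a F
    funext x
    simp only [mG, Pi.smul_apply, smul_eq_mul, RingHom.id_apply]
    ring

private theorem dk_comp_fst {E E' : Type*} [NormedAddCommGroup E] [NormedSpace ℝ E]
    [NormedAddCommGroup E'] [NormedSpace ℝ E'] {c : E → ℂ} {Ω : Set E}
    (hc : ContDiffOn ℝ ∞ c Ω) (hu : UniqueDiffOn ℝ Ω)
    (hs : UniqueDiffOn ℝ (Prod.fst ⁻¹' Ω : Set (E × E'))) {x : E × E'} (hx : x.1 ∈ Ω) (i : ℕ) :
    ‖iteratedFDerivWithin ℝ i (fun y : E × E' => c y.1) (Prod.fst ⁻¹' Ω) x‖ ≤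
      ‖iteratedFDerivWithin ℝ i c Ω x.1‖ := by
  have e3 := ContinuousLinearMap.iteratedFDerivWithin_comp_right (𝕜 := ℝ)
    (ContinuousLinearMap.fst ℝ E E') (f := c) (s := Ω) (n := ∞) (x := x)
    hc hu hs hx (i := i) (by exact_mod_cast le_top)
  have e4 : iteratedFDerivWithin ℝ i (fun y : E × E' => c y.1) (Prod.fst ⁻¹' Ω) x =
      (iteratedFDerivWithin ℝ i c Ω x.1).compContinuousLinearMap
        fun _ => ContinuousLinearMap.fst ℝ E E' := e3
  rw [e4]
  refine (ContinuousMultilinearMap.norm_compContinuousLinearMap_le _ _).trans ?_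
  have e5 : ∏ _j : Fin i, ‖ContinuousLinearMap.fst ℝ E E'‖ ≤ 1 :=
    Finset.prod_le_one (fun _ _ => norm_nonneg _)
      (fun _ _ => ContinuousLinearMap.norm_fst_le _ _ _)
  calc ‖iteratedFDerivWithin ℝ i c Ω x.1‖ *
        ∏ _j : Fin i, ‖ContinuousLinearMap.fst ℝ E E'‖
      ≤ ‖iteratedFDerivWithin ℝ i c Ω x.1‖ * 1 :=
        mul_le_mul_of_nonneg_left e5 (norm_nonneg _)
    _ = ‖iteratedFDerivWithin ℝ i c Ω x.1‖ := mul_one _

theorem isDistK_mG {Ω K : Set (Mat n)} (hΩ : IsOpen Ω) (hK : IsCompact K) (hKΩ : K ⊆ Ω)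
    {c : Mat n → ℂ} (hc : ContDiffOn ℝ ∞ c Ω) {T : (XX n → ℂ) →ₗ[ℂ] ℂ} (hT : IsDistK K T) :
    IsDistK K (T.comp (mGL c)) := by
  obtain ⟨C, M, hT⟩ := hT
  have hu : UniqueDiffOn ℝ Ω := hΩ.uniqueDiffOn
  have hb : ∃ D : ℝ, 0 ≤ D ∧ ∀ m ≤ M, ∀ g ∈ K, ‖iteratedFDerivWithin ℝ m c Ω g‖ ≤ D := by
    have h1 : ∀ m : ℕ, ∃ D : ℝ, ∀ g ∈ K, ‖iteratedFDerivWithin ℝ m c Ω g‖ ≤ D := by
      intro m
      have h2 : ContinuousOn (iteratedFDerivWithin ℝ m c Ω) Ω :=
        hc.continuousOn_iteratedFDerivWithin (by exact_mod_cast le_top) hu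
      exact hK.exists_bound_of_continuousOn (h2.mono hKΩ)
    choose D hD using h1
    refine ⟨∑ m ∈ Finset.range (M + 1), |D m|, Finset.sum_nonneg fun _ _ => abs_nonneg _, ?_⟩
    intro m hm g hg
    calc ‖iteratedFDerivWithin ℝ m c Ω g‖ ≤ D m := hD m g hg
      _ ≤ |D m| := le_abs_self _
      _ ≤ ∑ m ∈ Finset.range (M + 1), |D m| :=
        Finset.single_le_sum (f := fun m => |D m|) (fun i _ => abs_nonneg (D i))
          (Finset.mem_range.2 (by omega))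
  obtain ⟨D, hD0, hD⟩ := hb
  refine ⟨C * (2 ^ M * D), M, ?_⟩
  intro F hF B hB
  have hB0 : 0 ≤ B := (norm_nonneg _).trans (hB 0 (Nat.zero_le _) 0)
  have hs : IsOpen (Prod.fst ⁻¹' Ω : Set (XX n)) := hΩ.preimage continuous_fst
  have hmain : ∀ m ≤ M, ∀ x, ‖iteratedFDeriv ℝ m (mG c F) x‖ ≤ 2 ^ M * D * B := by
    intro m hm x
    by_cases hx : x.1 ∈ K
    · have hxs : x ∈ (Prod.fst ⁻¹' Ω : Set (XX n)) := hKΩ hx
      rw [← iteratedFDerivWithin_of_isOpen m hs hxs]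
      have hf : ContDiffOn ℝ ∞ (fun y : XX n => c y.1) (Prod.fst ⁻¹' Ω) :=
        hc.comp contDiff_fst.contDiffOn (fun y hy => hy)
      have hg : ContDiffOn ℝ ∞ F (Prod.fst ⁻¹' Ω) := hF.1.contDiffOn
      have h1 := norm_iteratedFDerivWithin_mul_le hf hg hs.uniqueDiffOn hxs (n := m)
        (by exact_mod_cast le_top)
      have h2 : ‖iteratedFDerivWithin ℝ m (mG c F) (Prod.fst ⁻¹' Ω) x‖ ≤
          ∑ i ∈ Finset.range (m + 1), (m.choose i : ℝ) *
            ‖iteratedFDerivWithin ℝ i (fun y : XX n => c y.1) (Prod.fst ⁻¹' Ω) x‖ *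
            ‖iteratedFDerivWithin ℝ (m - i) F (Prod.fst ⁻¹' Ω) x‖ := h1
      refine h2.trans ?_
      have h3 : ∀ i ∈ Finset.range (m + 1), (m.choose i : ℝ) *
            ‖iteratedFDerivWithin ℝ i (fun y : XX n => c y.1) (Prod.fst ⁻¹' Ω) x‖ *
            ‖iteratedFDerivWithin ℝ (m - i) F (Prod.fst ⁻¹' Ω) x‖ ≤
            (m.choose i : ℝ) * (D * B) := by
        intro i hi
        have hi' : i ≤ m := Nat.lt_succ_iff.1 (Finset.mem_range.1 hi)
        have e1 : ‖iteratedFDerivWithin ℝ (m - i) F (Prod.fst ⁻¹' Ω) x‖ ≤ B := by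
          rw [iteratedFDerivWithin_of_isOpen (m - i) hs hxs]
          exact hB _ (by omega) x
        have e2 : ‖iteratedFDerivWithin ℝ i (fun y : XX n => c y.1) (Prod.fst ⁻¹' Ω) x‖ ≤ D := by
          exact (dk_comp_fst hc hu hs.uniqueDiffOn (x := x) (hKΩ hx) i).trans
            (hD i (by omega) _ hx)
        rw [mul_assoc]
        exact mul_le_mul_of_nonneg_left (mul_le_mul e2 e1 (norm_nonneg _) hD0)
          (Nat.cast_nonneg _)
      refine (Finset.sum_le_sum h3).trans ?_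
      rw [← Finset.sum_mul]
      have h4 : ∑ i ∈ Finset.range (m + 1), (m.choose i : ℝ) = 2 ^ m := by
        exact_mod_cast Nat.sum_range_choose m
      rw [h4]
      have h5 : (2 : ℝ) ^ m ≤ 2 ^ M := pow_le_pow_right₀ (by norm_num) hm
      calc (2 : ℝ) ^ m * (D * B) ≤ 2 ^ M * (D * B) :=
            mul_le_mul_of_nonneg_right h5 (mul_nonneg hD0 hB0)
        _ = 2 ^ M * D * B := by ring
    · have h1 : IsOpen {y : XX n | y.1 ∉ K} := hK.isClosed.isOpen_compl.preimage continuous_fst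
      have h2 : mG c F =ᶠ[𝓝 x] fun _ => (0 : ℂ) := by
        filter_upwards [h1.mem_nhds hx] with y hy
        simp only [mG, hF.2.2 y hy, mul_zero]
      rw [(Filter.EventuallyEq.iteratedFDeriv ℝ h2 m).eq_of_nhds]
      have h3 : iteratedFDeriv ℝ m (fun _ : XX n => (0 : ℂ)) x = 0 := by
        rw [iteratedFDeriv_fun_zero]
        rfl
      rw [h3, norm_zero]
      positivity
  have hfin := hT (mG c F) (mG_mem hΩ hK hKΩ hc hF) (2 ^ M * D * B) hmain
  calc ‖(T.comp (mGL c)) F‖ = ‖T (mG c F)‖ := rfl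
    _ ≤ C * (2 ^ M * D * B) := hfin
    _ = C * (2 ^ M * D) * B := by ring

theorem IsDist.mono {Ω Ω' : Set (Mat n)} (h : Ω ⊆ Ω') {T : (XX n → ℂ) →ₗ[ℂ] ℂ}
    (hT : IsDist Ω' T) : IsDist Ω T :=
  fun K hK hKΩ => hT K hK (hKΩ.trans h)

end

end Pool.Agent.Work.MP_dd0ddf_al.AR
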