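import Pool.Agent.Work.MP_dd0ddf_al.AR.TF1
import Pool.Agent.Work.MP_dd0ddf_al.AR.TF2

/-!
# Left (S-M): the equation for the vector fields `g ↦ Y(g) g`, `Y(g)` upper triangular

`Y g = ∑_{k ≤ l} (Re Y_kl · E_kl g + Im Y_kl · (i E_kl) g)` on `Ω`, `E_kl = single k l 1`.  For
`F ∈ TFK K`, `K ⊆ Ω` compact (outside `K` the function `F` is locally zero):
`dG (Y g) F = ∑ [ dG (E_kl g) (Re Y_kl F) - (D Re Y_kl [E_kl g]) F + dG (i E_kl g) (Im Y_kl F)
- (D Im Y_kl [i E_kl g]) F ]` (`dG_mG`, `dG_sum_field`, `dG_smul_field`).  Apply `T` and `Sys.up`,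
`Sys.re`, `Sys.im` to `Re Y_kl F`, `Im Y_kl F ∈ TFs Ω`.
-/

set_option linter.unusedSectionVars false

namespace Pool.Agent.Work.MP_dd0ddf_al.AR

open scoped SchwartzMap Matrix.Norms.Elementwise ComplexConjugate ContDiff Topology LineDeriv
open Matrix MeasureTheory Filter

noncomputable section

variable {n : ℕ}

/-- the divergence `∑_{k ≤ l} (D Re Y_kl [E_kl g] + D Im Y_kl [i E_kl g])` -/
def divb (Y : Mat n → Mat n) : Mat n → ℂ := fun g => ∑ k : Fin n, ∑ l : Fin n,
  if k ≤ l then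
    (((fderiv ℝ (fun g => (Y g k l).re) g (Matrix.single k l 1 * g) +
      fderiv ℝ (fun g => (Y g k l).im) g (Matrix.single k l Complex.I * g) : ℝ)) : ℂ)
  else 0

private theorem fderiv_eq_zero_of_notMem {K : Set (Mat n)} (hK : IsCompact K) {F : XX n → ℂ}
    (hF : F ∈ TFK K) {x : XX n} (hx : x.1 ∉ K) : fderiv ℝ F x = 0 := by
  have h1 : ∀ᶠ y in 𝓝 x, F y = 0 := by
    have h2 : IsOpen {y : XX n | y.1 ∈ Kᶜ} := hK.isClosed.isOpen_compl.preimage continuous_fst
    filter_upwards [h2.mem_nhds hx] with y hy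
    exact hF.2.2 y hy
  have h3 : F =ᶠ[𝓝 x] fun _ => (0 : ℂ) := h1
  rw [h3.fderiv_eq]
  simp

private theorem entry_contDiffOn {Ω : Set (Mat n)} {Y : Mat n → Mat n}
    (hY : ContDiffOn ℝ ∞ Y Ω) (k l : Fin n) : ContDiffOn ℝ ∞ (fun g => Y g k l) Ω :=
  (LinearMap.toContinuousLinearMap (Matrix.entryLinearMap ℝ ℂ k l)).contDiff.comp_contDiffOn hY

private theorem re_contDiffOn {Ω : Set (Mat n)} {Y : Mat n → Mat n}
    (hY : ContDiffOn ℝ ∞ Y Ω) (k l : Fin n) : ContDiffOn ℝ ∞ (fun g => (Y g k l).re) Ω :=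
  Complex.reCLM.contDiff.comp_contDiffOn (entry_contDiffOn hY k l)

private theorem im_contDiffOn {Ω : Set (Mat n)} {Y : Mat n → Mat n}
    (hY : ContDiffOn ℝ ∞ Y Ω) (k l : Fin n) : ContDiffOn ℝ ∞ (fun g => (Y g k l).im) Ω :=
  Complex.imCLM.contDiff.comp_contDiffOn (entry_contDiffOn hY k l)

private theorem ofReal_contDiffOn {Ω : Set (Mat n)} {u : Mat n → ℝ}
    (hu : ContDiffOn ℝ ∞ u Ω) : ContDiffOn ℝ ∞ (fun g => ((u g : ℝ) : ℂ)) Ω :=
  Complex.ofRealCLM.contDiff.comp_contDiffOn hu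

private theorem mul_contDiff (A : Mat n) : ContDiff ℝ ∞ (fun g : Mat n => A * g) :=
  (LinearMap.toContinuousLinearMap (LinearMap.mulLeft ℝ A)).contDiff

private theorem dg_ofReal {Ω : Set (Mat n)} (hΩ : IsOpen Ω) {u : Mat n → ℝ}
    (hu : ContDiffOn ℝ ∞ u Ω) (X : Mat n → Mat n) {g : Mat n} (hg : g ∈ Ω) :
    dg X (fun g => ((u g : ℝ) : ℂ)) g = ((fderiv ℝ u g (X g) : ℝ) : ℂ) := by
  have h1 : DifferentiableAt ℝ u g :=
    (hu.contDiffAt (hΩ.mem_nhds hg)).differentiableAt (by simp)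
  have h2 : HasFDerivAt (fun g => ((u g : ℝ) : ℂ)) (Complex.ofRealCLM.comp (fderiv ℝ u g)) g :=
    Complex.ofRealCLM.hasFDerivAt.comp g h1.hasFDerivAt
  unfold dg
  rw [h2.fderiv]
  simp

/-- one term: `c dG X F = dG X (c F) - (X c) F` after applying `T` -/
private theorem term_eq {Ω K : Set (Mat n)} (hΩ : IsOpen Ω) (hK : IsCompact K) (hKΩ : K ⊆ Ω)
    (T : (XX n → ℂ) →ₗ[ℂ] ℂ) {u : Mat n → ℝ} (hu : ContDiffOn ℝ ∞ u Ω) (X : Mat n → Mat n)
    {F : XX n → ℂ} (hF : F ∈ TFK K) :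
    T (dG (fun g => u g • X g) F) = T (dG X (mG (fun g => ((u g : ℝ) : ℂ)) F)) -
      T (mG (fun g => ((fderiv ℝ u g (X g) : ℝ) : ℂ)) F) := by
  have h1 := dG_mG hΩ hK hKΩ (ofReal_contDiffOn hu) X hF
  have h2 : mG (dg X (fun g => ((u g : ℝ) : ℂ))) F =
      mG (fun g => ((fderiv ℝ u g (X g) : ℝ) : ℂ)) F := by
    funext x
    unfold mG
    by_cases hx : x.1 ∈ K
    · rw [dg_ofReal hΩ hu X (hKΩ hx)]
    · rw [hF.2.2 x hx, mul_zero, mul_zero]
  rw [dG_smul_field, h1, map_add, h2]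
  ring

private theorem mG_sum {ι : Type*} (s : Finset ι) (c : ι → Mat n → ℂ) (F : XX n → ℂ) :
    mG (fun g => ∑ i ∈ s, c i g) F = ∑ i ∈ s, mG (c i) F := by
  funext x
  simp only [mG, Finset.sum_apply, Finset.sum_mul]

private theorem matrix_expand (A g : Mat n) (hA : ∀ k l, l < k → A k l = 0) :
    A * g = ∑ k : Fin n, ∑ l : Fin n, if k ≤ l then
      ((A k l).re • (Matrix.single k l (1 : ℂ) * g) +
        (A k l).im • (Matrix.single k l Complex.I * g)) else 0 := by
  conv_lhs => rw [Matrix.matrix_eq_sum_single A]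
  rw [Finset.sum_mul]
  refine Finset.sum_congr rfl fun k _ => ?_
  rw [Finset.sum_mul]
  refine Finset.sum_congr rfl fun l _ => ?_
  split_ifs with h
  · rw [← smul_mul_assoc, ← smul_mul_assoc, ← add_mul]
    congr 1
    rw [Matrix.smul_single, Matrix.smul_single, ← Matrix.single_add]
    congr 1
    rw [Complex.real_smul, Complex.real_smul, mul_one]
    exact (Complex.re_add_im _).symm
  · rw [hA k l (not_le.1 h)]
    simp

theorem left_eq {ε : Fin n → ℝ} {a : ℝ} {γ γ' : Fin n → ℂ} {c1 : ℂ} {Ω : Set (Mat n)}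
    (hΩ : IsOpen Ω) {T : (XX n → ℂ) →ₗ[ℂ] ℂ} (hS : Sys ε a γ γ' c1 Ω T)
    {Y : Mat n → Mat n} (hY : ContDiffOn ℝ ∞ Y Ω) (hup : ∀ g ∈ Ω, ∀ k l, l < k → Y g k l = 0)
    {F : XX n → ℂ} (hF : F ∈ TFs Ω) :
    T (dG (fun g => Y g * g) F) =
      ∑ k, (γ k * T (mG (fun g => ((Y g k k).re : ℂ)) F) +
        γ' k * T (mG (fun g => ((Y g k k).im : ℂ)) F)) - T (mG (divb Y) F) := by
  obtain ⟨K, hK, hKΩ, hFK⟩ := hF
  -- replace the field
  have e1 : dG (fun g => Y g * g) F = dG (fun g => ∑ k : Fin n, ∑ l : Fin n, if k ≤ l then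
      ((Y g k l).re • (Matrix.single k l (1 : ℂ) * g) +
        (Y g k l).im • (Matrix.single k l Complex.I * g)) else 0) F := by
    funext x
    unfold dG
    by_cases hx : x.1 ∈ K
    · exact congrArg (fun A : Mat n => fderiv ℝ F x (A, 0))
        (matrix_expand (Y x.1) x.1 (hup x.1 (hKΩ hx)))
    · rw [fderiv_eq_zero_of_notMem hK hFK hx]
      simp
  rw [e1, dG_sum_field, map_sum]
  have e2 : ∀ k : Fin n, T (dG (fun g => ∑ l : Fin n, if k ≤ l then
      ((Y g k l).re • (Matrix.single k l (1 : ℂ) * g) +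
        (Y g k l).im • (Matrix.single k l Complex.I * g)) else 0) F) =
      (γ k * T (mG (fun g => ((Y g k k).re : ℂ)) F) +
        γ' k * T (mG (fun g => ((Y g k k).im : ℂ)) F)) -
      T (mG (fun g => ∑ l : Fin n, if k ≤ l then
        (((fderiv ℝ (fun g => (Y g k l).re) g (Matrix.single k l 1 * g) +
          fderiv ℝ (fun g => (Y g k l).im) g (Matrix.single k l Complex.I * g) : ℝ)) : ℂ)
        else 0) F) := by
    intro k
    rw [dG_sum_field, map_sum, mG_sum, map_sum]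
    have e3 : ∀ l : Fin n, T (dG (fun g => if k ≤ l then
        ((Y g k l).re • (Matrix.single k l (1 : ℂ) * g) +
          (Y g k l).im • (Matrix.single k l Complex.I * g)) else 0) F) =
        (if l = k then (γ k * T (mG (fun g => ((Y g k k).re : ℂ)) F) +
          γ' k * T (mG (fun g => ((Y g k k).im : ℂ)) F)) else 0) -
        T (mG (fun g => if k ≤ l then
          (((fderiv ℝ (fun g => (Y g k l).re) g (Matrix.single k l 1 * g) +
            fderiv ℝ (fun g => (Y g k l).im) g (Matrix.single k l Complex.I * g) : ℝ)) : ℂ)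
          else 0) F) := by
      intro l
      by_cases hkl : k ≤ l
      · simp only [if_pos hkl]
        have hre := re_contDiffOn hY k l
        have him := im_contDiffOn hY k l
        have hreF : mG (fun g => (((Y g k l).re : ℝ) : ℂ)) F ∈ TFs Ω :=
          mG_mem_s hΩ (ofReal_contDiffOn hre) ⟨K, hK, hKΩ, hFK⟩
        have himF : mG (fun g => (((Y g k l).im : ℝ) : ℂ)) F ∈ TFs Ω :=
          mG_mem_s hΩ (ofReal_contDiffOn him) ⟨K, hK, hKΩ, hFK⟩
        have h1 := term_eq hΩ hK hKΩ T hre (fun g => Matrix.single k l (1 : ℂ) * g) hFK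
        have h2 := term_eq hΩ hK hKΩ T him (fun g => Matrix.single k l Complex.I * g) hFK
        have h3 : mG (fun g => (((fderiv ℝ (fun g => (Y g k l).re) g (Matrix.single k l 1 * g) +
            fderiv ℝ (fun g => (Y g k l).im) g (Matrix.single k l Complex.I * g) : ℝ)) : ℂ)) F =
            mG (fun g => ((fderiv ℝ (fun g => (Y g k l).re) g
              (Matrix.single k l (1 : ℂ) * g) : ℝ) : ℂ)) F +
            mG (fun g => ((fderiv ℝ (fun g => (Y g k l).im) g
              (Matrix.single k l Complex.I * g) : ℝ) : ℂ)) F := by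
          funext x
          simp only [mG, Pi.add_apply]
          push_cast
          ring
        rw [dG_add_field, map_add, h1, h2, h3, map_add]
        by_cases hl : l = k
        · subst hl
          rw [if_pos rfl, hS.re l _ hreF, hS.im l _ himF]
          ring
        · have hlt : k < l := lt_of_le_of_ne hkl (Ne.symm hl)
          rw [if_neg hl, hS.up k l hlt 1 _ hreF, hS.up k l hlt Complex.I _ himF]
          ring
      · have hne : ¬ l = k := fun h => hkl h.ge
        simp only [if_neg hkl, if_neg hne]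
        have h4 : dG (fun _ : Mat n => (0 : Mat n)) F = 0 := by
          funext x
          unfold dG
          have : ((0 : Mat n), (0 : Fin n → ℝ)) = 0 := rfl
          rw [this, map_zero]
          rfl
        have h5 : mG (fun _ : Mat n => (0 : ℂ)) F = 0 := by
          funext x
          simp [mG]
        rw [h4, h5]
        simp
    rw [Finset.sum_congr rfl fun l _ => e3 l, Finset.sum_sub_distrib, Finset.sum_ite_eq' ]
    simp
  rw [Finset.sum_congr rfl fun k _ => e2 k, Finset.sum_sub_distrib]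
  congr 1
  unfold divb
  rw [mG_sum, map_sum]

end

end Pool.Agent.Work.MP_dd0ddf_al.AR
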