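import Pool.Agent.Work.MP_dd0ddf_al.AR.Obj
import Pool.Agent.Work.MP_dd0ddf_al.AR.DerB
import Pool.Agent.Work.MP_dd0ddf_al.AR.Left

/-!
# DivR1 (M): `Y1` is upper triangular and its divergence vanishes

`Y1 k l = i s_k P_l`, `P = v g⁻¹`, `P_l = δ_lm` for `l ≤ m`, `s_k = 0` for `k > m`.
`Y1_upper`: `l < k`: if `k > m` then `s_k = 0`; if `k ≤ m` then `l < m`, `P_l = 0`.
Divergence: for `k ≤ l`, `Λ = z E_kl` (`z = 1` or `z = i`), which is upper triangular, by `DerB`
(`w_m = v`, `w_l = 0` for `l > m`, `s_l = 0` for `l > m`, `<g_k, v> = s_k`):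
* `l < m`: `Y1 k l = 0` identically near `g`.
* `l = m`, `k < m`: `Y1 k m = i s_k`, `D s_k [z E_km g] = z s_m`, `s_m = r` real: the sum is
  `Re(i r) + Im(i i r) = 0`.
* `k = l = m`: `Y1 m m = i s_m`, `s_m` real, `D s_m [z E_mm g] = (z + conj z) s_m`; real part of
  `Y1 m m` is `0`; imaginary part `s_m`, derivative in the direction `i E_mm g` is `0`.
* `l > m`, `k < m`: `D s_k = z s_l = 0`, `D P_l = - P_k z = 0`.
* `l > m`, `k = m`: `D s_m = z s_l = 0`, `D P_l = - P_m z = - z` (`Λ_mm = 0`), so `D Y1 = - i s_m z`,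
  sum `Re(- i r) + Im(- i r i) = Re(-i r) + Im(r) = 0`.
* `k > m`: `Y1 k l = 0` identically.
(`D Re f = Re D f`: `fderiv` of `Complex.reCLM ∘ f`; the functions are smooth on the open set.)
-/

set_option linter.unusedSectionVars false

namespace Pool.Agent.Work.MP_dd0ddf_al.AR

open scoped SchwartzMap Matrix.Norms.Elementwise ComplexConjugate ContDiff Topology LineDeriv
open Matrix MeasureTheory Filter

noncomputable section

variable {n : ℕ}

private theorem d1_blk {m k l : Fin n} (hkl : k ≤ l) (z : ℂ) :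
    ∀ a b, m < a → b ≤ m → Matrix.single k l z a b = 0 := by
  intro a b ha hb
  apply Matrix.single_apply_of_ne
  rintro ⟨rfl, rfl⟩
  exact absurd (lt_of_lt_of_le ha (hkl.trans hb)) (lt_irrefl _)

private theorem d1_ww_zero {ε : Fin n → ℝ} {m : Fin n} {g : Mat n}
    (hg : g ∈ Od ε ((m : ℕ) + 1)) {l : Fin n} (hl : m < l) : ww ε m l g = 0 :=
  hat_row_zero hg hl

private theorem d1_ss {ε : Fin n → ℝ} {m : Fin n} {g : Mat n} (hg : g ∈ Od ε ((m : ℕ) + 1))
    {k l : Fin n} (hkl : k ≤ l) (z : ℂ) :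
    fderiv ℝ (ss ε m k) g (Matrix.single k l z * g) =
      z * ss ε m l g + if k = m ∧ l = m then conj z * ss ε m m g else 0 := by
  rw [fderiv_ss hg (d1_blk hkl z) k]
  congr 1
  · rw [Finset.sum_eq_single l]
    · rw [Matrix.single_apply_same]
    · intro b _ hb
      rw [Matrix.single_apply_of_col_ne _ _ hb.symm, zero_mul]
    · intro h
      exact absurd (Finset.mem_univ l) h
  · rw [Finset.sum_eq_single l]
    · by_cases hk : k = m
      · subst hk
        rw [Matrix.single_apply_same]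
        by_cases hl : l = k
        · subst hl
          rw [if_pos ⟨rfl, rfl⟩]
          rfl
        · rw [if_neg fun h => hl h.2, d1_ww_zero hg (lt_of_le_of_ne hkl (Ne.symm hl))]
          unfold hf
          simp
      · rw [if_neg fun h => hk h.1, Matrix.single_apply_of_row_ne hk, map_zero, zero_mul]
    · intro b _ hb
      rw [Matrix.single_apply_of_col_ne _ _ hb.symm, map_zero, zero_mul]
    · intro h
      exact absurd (Finset.mem_univ l) h

private theorem d1_vv {ε : Fin n → ℝ} {m : Fin n} {g : Mat n} (hg : g ∈ Od ε ((m : ℕ) + 1))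
    {k l : Fin n} (hkl : k ≤ l) (z : ℂ) :
    fderiv ℝ (vv ε m) g (Matrix.single k l z * g) =
      if k = m ∧ l = m then z • vv ε m g else 0 := by
  rw [fderiv_vv hg (d1_blk hkl z), Finset.sum_eq_single l]
  · by_cases hk : k = m
    · subst hk
      rw [Matrix.single_apply_same]
      by_cases hl : l = k
      · subst hl
        rw [if_pos ⟨rfl, rfl⟩]
        rfl
      · rw [if_neg fun h => hl h.2, d1_ww_zero hg (lt_of_le_of_ne hkl (Ne.symm hl)), smul_zero]
    · rw [if_neg fun h => hk h.1, Matrix.single_apply_of_row_ne hk, zero_smul]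
  · intro b _ hb
    rw [Matrix.single_apply_of_col_ne _ _ hb.symm, zero_smul]
  · intro h
    exact absurd (Finset.mem_univ l) h

private theorem d1_sub (ε : Fin n → ℝ) (d : ℕ) : Od ε d ⊆ GLs n := fun _ hg => hg.1

private theorem d1_entry {ε : Fin n → ℝ} {m : Fin n} (j l : Fin n) :
    ContDiffOn ℝ ∞ (fun g : Mat n => g⁻¹ j l) (Od ε ((m : ℕ) + 1)) := by
  have h1 : ContDiffOn ℝ ∞ (fun g : Mat n => g⁻¹) (Od ε ((m : ℕ) + 1)) :=
    contDiffOn_inv.mono (d1_sub ε _)
  exact contDiffOn_pi.1 (contDiffOn_pi.1 h1 j) l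

private theorem d1_coefC {ε : Fin n → ℝ} {m : Fin n} :
    ContDiffOn ℝ ∞ (fun g : Mat n => vv ε m g ᵥ* g⁻¹) (Od ε ((m : ℕ) + 1)) := by
  have h2 : ContDiffOn ℝ ∞ (vv ε m) (Od ε ((m : ℕ) + 1)) := contDiffOn_vv subset_rfl
  refine contDiffOn_pi.2 fun l => ?_
  have e : (fun g : Mat n => (vv ε m g ᵥ* g⁻¹) l) = fun g => ∑ j, vv ε m g j * g⁻¹ j l := rfl
  rw [e]
  exact ContDiffOn.sum fun j _ => (contDiffOn_pi.1 h2 j).mul (d1_entry j l)

private theorem d1_dA {E : Type*} [NormedAddCommGroup E] [NormedSpace ℝ E] {ε : Fin n → ℝ}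
    {d : ℕ} {f : Mat n → E} (h : ContDiffOn ℝ ∞ f (Od ε d)) {g : Mat n} (hg : g ∈ Od ε d) :
    DifferentiableAt ℝ f g :=
  (h.contDiffAt ((isOpen_Od ε d).mem_nhds hg)).differentiableAt (by simp)

private theorem d1_coef {ε : Fin n → ℝ} {m : Fin n} {g : Mat n} (hg : g ∈ Od ε ((m : ℕ) + 1))
    {k l : Fin n} (hkl : k ≤ l) (z : ℂ) :
    fderiv ℝ (fun g : Mat n => (vv ε m g ᵥ* g⁻¹) l) g (Matrix.single k l z * g) =
      (if k = m ∧ l = m then z else 0) - (vv ε m g ᵥ* g⁻¹) k * z := by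
  have h1 := d1_dA (d1_coefC (ε := ε) (m := m)) hg
  have h2 : fderiv ℝ (fun g : Mat n => (vv ε m g ᵥ* g⁻¹) l) g (Matrix.single k l z * g) =
      fderiv ℝ (fun g : Mat n => vv ε m g ᵥ* g⁻¹) g (Matrix.single k l z * g) l := by
    have h := ((hasFDerivAt_apply l (vv ε m g ᵥ* g⁻¹)).comp g h1.hasFDerivAt).fderiv
    exact congrArg (fun L => L (Matrix.single k l z * g)) h
  rw [h2, fderiv_coef (isOpen_Od ε _) (d1_sub ε _) (contDiffOn_vv subset_rfl) hg,
    d1_vv hg hkl z]
  rw [Pi.sub_apply]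
  congr 1
  · by_cases h : k = m ∧ l = m
    · rw [if_pos h, if_pos h, Matrix.smul_vecMul, Pi.smul_apply, vv_coef hg h.2.le, if_pos h.2,
        smul_eq_mul, mul_one]
    · rw [if_neg h, if_neg h, Matrix.zero_vecMul, Pi.zero_apply]
  · change ∑ j, (vv ε m g ᵥ* g⁻¹) j * Matrix.single k l z j l = _
    rw [Finset.sum_eq_single k]
    · rw [Matrix.single_apply_same]
    · intro b _ hb
      rw [Matrix.single_apply_of_row_ne hb.symm, mul_zero]
    · intro h
      exact absurd (Finset.mem_univ k) h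

private theorem d1_main {ε : Fin n → ℝ} {m : Fin n} {g : Mat n} (hg : g ∈ Od ε ((m : ℕ) + 1))
    {k l : Fin n} (hkl : k ≤ l) (z : ℂ) :
    DifferentiableAt ℝ (fun g => Y1 ε m g k l) g ∧
    fderiv ℝ (fun g => Y1 ε m g k l) g (Matrix.single k l z * g) =
      if l = m then (if k = m then Complex.I * (z + conj z) * ss ε m m g
        else Complex.I * z * ss ε m m g)
      else if k = m then - (Complex.I * z * ss ε m m g) else 0 := by
  have e : (fun g => Y1 ε m g k l) =
      fun g => (Complex.I * ss ε m k g) * (vv ε m g ᵥ* g⁻¹) l := by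
    funext g
    exact Y1_apply g k l
  have h1 : DifferentiableAt ℝ (ss ε m k) g := d1_dA (contDiffOn_ss k) hg
  have h1' : DifferentiableAt ℝ (fun g => Complex.I * ss ε m k g) g := h1.const_mul _
  have h2 : DifferentiableAt ℝ (fun g : Mat n => (vv ε m g ᵥ* g⁻¹) l) g :=
    d1_dA (contDiffOn_pi.1 (d1_coefC (ε := ε) (m := m)) l) hg
  rw [e]
  refine ⟨h1'.mul h2, ?_⟩
  have h3 := fderiv_fun_mul h1' h2
  have h4 : fderiv ℝ (fun g => Complex.I * ss ε m k g) g = Complex.I • fderiv ℝ (ss ε m k) g :=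
    fderiv_const_mul h1 Complex.I
  have h5 : fderiv ℝ (fun g => Complex.I * ss ε m k g * (vv ε m g ᵥ* g⁻¹) l) g
      (Matrix.single k l z * g) = Complex.I * ss ε m k g *
        fderiv ℝ (fun g : Mat n => (vv ε m g ᵥ* g⁻¹) l) g (Matrix.single k l z * g) +
      (vv ε m g ᵥ* g⁻¹) l * fderiv ℝ (fun g => Complex.I * ss ε m k g) g
        (Matrix.single k l z * g) :=
    congrArg (fun L => L (Matrix.single k l z * g)) h3
  have h6 : fderiv ℝ (fun g => Complex.I * ss ε m k g) g (Matrix.single k l z * g) =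
      Complex.I * fderiv ℝ (ss ε m k) g (Matrix.single k l z * g) :=
    congrArg (fun L => L (Matrix.single k l z * g)) h4
  rw [h5, h6, d1_coef hg hkl z, d1_ss hg hkl z]
  rcases lt_trichotomy k m with h | h | h
  · rw [vv_coef hg h.le, if_neg h.ne, if_neg fun h' => h.ne h'.1, if_neg fun h' => h.ne h'.1,
      if_neg h.ne, if_neg h.ne]
    rcases lt_trichotomy l m with h' | h' | h'
    · rw [vv_coef hg h'.le, if_neg h'.ne, if_neg h'.ne]
      ring
    · subst h'
      rw [vv_coef hg le_rfl, if_pos rfl, if_pos rfl]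
      ring
    · rw [ss_zero hg h', if_neg h'.ne']
      ring
  · subst h
    rw [vv_coef hg le_rfl, if_pos rfl, if_pos rfl, if_pos rfl]
    rcases eq_or_ne l k with h' | h'
    · subst h'
      rw [vv_coef hg le_rfl, if_pos rfl, if_pos ⟨rfl, rfl⟩, if_pos ⟨rfl, rfl⟩, if_pos rfl]
      ring
    · rw [ss_zero hg (lt_of_le_of_ne hkl h'.symm), if_neg fun h => h' h.2,
        if_neg fun h => h' h.2, if_neg h']
      ring
  · have hl : m < l := lt_of_lt_of_le h hkl
    rw [ss_zero hg h, ss_zero hg hl, if_neg fun h' => h.ne' h'.1, if_neg fun h' => h.ne' h'.1,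
      if_neg hl.ne', if_neg h.ne']
    ring

theorem Y1_upper {ε : Fin n → ℝ} {m : Fin n} {g : Mat n} (hg : g ∈ Od ε ((m : ℕ) + 1))
    {k l : Fin n} (hkl : l < k) : Y1 ε m g k l = 0 := by
  rw [Y1_apply]
  by_cases hk : k ≤ m
  · rw [vv_coef hg (hkl.le.trans hk), if_neg (lt_of_lt_of_le hkl hk).ne, mul_zero]
  · rw [ss_zero hg (not_le.1 hk), mul_zero, zero_mul]

theorem Y1_diag {ε : Fin n → ℝ} {m : Fin n} {g : Mat n} (hg : g ∈ Od ε ((m : ℕ) + 1))
    (k : Fin n) : Y1 ε m g k k = if k = m then Complex.I * ss ε m m g else 0 := by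
  rw [Y1_apply]
  rcases lt_trichotomy k m with h | h | h
  · rw [vv_coef hg h.le, if_neg h.ne, if_neg h.ne, mul_zero]
  · subst h
    rw [vv_coef hg le_rfl, if_pos rfl, if_pos rfl, mul_one]
  · rw [ss_zero hg h, mul_zero, zero_mul, if_neg h.ne']

theorem divb_Y1 {ε : Fin n → ℝ} {m : Fin n} {g : Mat n} (hg : g ∈ Od ε ((m : ℕ) + 1)) :
    divb (Y1 ε m) g = 0 := by
  have him := ss_self_im hg
  unfold divb
  refine Finset.sum_eq_zero fun k _ => Finset.sum_eq_zero fun l _ => ?_
  by_cases hkl : k ≤ l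
  · rw [if_pos hkl]
    obtain ⟨hd, h1⟩ := d1_main hg hkl 1
    obtain ⟨-, h2⟩ := d1_main hg hkl Complex.I
    have e1 : fderiv ℝ (fun g => (Y1 ε m g k l).re) g (Matrix.single k l 1 * g) =
        (fderiv ℝ (fun g => Y1 ε m g k l) g (Matrix.single k l 1 * g)).re := by
      have h := (Complex.reCLM.hasFDerivAt.comp g hd.hasFDerivAt).fderiv
      exact congrArg (fun L => L (Matrix.single k l 1 * g)) h
    have e2 : fderiv ℝ (fun g => (Y1 ε m g k l).im) g (Matrix.single k l Complex.I * g) =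
        (fderiv ℝ (fun g => Y1 ε m g k l) g (Matrix.single k l Complex.I * g)).im := by
      have h := (Complex.imCLM.hasFDerivAt.comp g hd.hasFDerivAt).fderiv
      exact congrArg (fun L => L (Matrix.single k l Complex.I * g)) h
    rw [e1, e2, h1, h2, Complex.ofReal_eq_zero]
    by_cases hl : l = m
    · rw [if_pos hl, if_pos hl]
      by_cases hk : k = m
      · rw [if_pos hk, if_pos hk]
        simp [him]
      · rw [if_neg hk, if_neg hk]
        simp [him]
    · rw [if_neg hl, if_neg hl]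
      by_cases hk : k = m
      · rw [if_pos hk, if_pos hk]
        simp [him]
      · rw [if_neg hk, if_neg hk]
        simp
  · rw [if_neg hkl]

end

end Pool.Agent.Work.MP_dd0ddf_al.AR
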