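import Pool.Agent.Work.MP_dd0ddf_al.AR.Obj
import Pool.Agent.Work.MP_dd0ddf_al.AR.DerB
import Pool.Agent.Work.MP_dd0ddf_al.AR.Left

/-!
# DivR2 (M-L): `Yb = Y2 - Ye` is upper triangular, its diagonal and its divergence

`i < m`, `g ∈ Om ε m i`; `P = v g⁻¹`, `Q = q g⁻¹`, `Y2 k l = s_k Q_l - <g_k, q> P_l`.  For `l ≤ m`:
`P_l = δ_lm`, `Q_l = δ_li / s_i`; for `k > m`: `s_k = 0 = <g_k, q>`; `<g_m, q> = 1`.
So the entries of `Yb = Y2 - Ye` are: `0` for `k > m`; for `k ≤ m`:
`l < m`, `l ≠ i`: `0`;  `l = i`: `s_k / s_i` if `k ≤ i`, `0` if `k > i`;  `l = m`: `- <g_k, q>`;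
`l > m`: `s_k Q_l - <g_k, q> P_l`.
Upper triangular; diagonal: `1` at `i`, `- <g_m, q> = -1` at `m`, `0` otherwise.
Divergence: `Λ = z E_kl`, `k ≤ l`, `z = 1` or `i` (rules in `DerB`):
`D w_i = z w_l` if `k = i`, else `0`; `D s_k = z s_l` (plus `conj z s_m` if `k = l = m`),
`D s_j = 0` for `j ≠ k` unless `k = l = m`;  `D v = 0` unless `k = l = m`;
`(D P)_l = - P_k z` for `l > m`;  `(D Q)_l = ((D q) g⁻¹)_l - Q_k z`.
For a function `f` with `D f[z E_kl g] = A z + A' conj z` the contribution
`Re D f[E] + Im D f[i E]` is `2 Re A`.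
* `l = m`, `k < m`, `k ≠ i`: `f = - <g_k, q>`, `D q = 0`, `D f = - z <g_m, q> = - z`: `-2`.
* `l = m`, `k = i`: `f = - <g_i, q>`: `D f = - z <g_m, q> - <g_i, D q>`, the last term is antilinear in
  `z` (`D q = z (...)`, `hf` is antilinear in the second variable): contribution `-2`.
* `l = m = k`: `f = -1` identically on `Om`: `0`.
* `l > m`, `k < m`, `k ≠ i`: `D s_k = z s_l = 0`, `(D Q)_l = 0`, `D <g_k, q> = z <g_l, q> = 0`,
  `(D P)_l = 0`: `0`.
* `l > m`, `k = i`: `D w = z w_l = 0`, `D s_i = z s_l = 0`, so `D q = 0`, `(D Q)_l = - z / s_i`,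
  `D <g_i, q> = 0`, `(D P)_l = 0`: `D f = s_i (- z / s_i) = - z`: `-2`.
* `l > m`, `k = m`: `D s_m = z s_l = 0`, `(D Q)_l = - Q_m z = 0`, `<g_m, q> = 1` constant,
  `(D P)_l = - z`: `D f = + z`: `+2`.
* `l = i`, `k < i`: `f = s_k / s_i`, `D f = z s_i / s_i = z`: `+2`.   `l = i = k`: `f = 1`: `0`.
* `l < m`, `l ≠ i`, or `k > m`: `f = 0` identically.
Total: `-2 m - 2 (n-1-m) + 2 (n-1-m) + 2 i = - 2 (m - i)`.
-/

set_option linter.unusedSectionVars false

namespace Pool.Agent.Work.MP_dd0ddf_al.AR

open scoped SchwartzMap Matrix.Norms.Elementwise ComplexConjugate ContDiff Topology LineDeriv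
open Matrix MeasureTheory Filter

noncomputable section

variable {n : ℕ}

private theorem contDiff_row (k : Fin n) : ContDiff ℝ ∞ (fun g : Mat n => g k) :=
  contDiff_apply ℝ (Fin n → ℂ) k

private theorem contDiff_entry (k l : Fin n) : ContDiff ℝ ∞ (fun g : Mat n => g k l) :=
  (contDiff_apply ℝ ℂ l).comp (contDiff_row k)

private theorem line_hd {E : Type*} [NormedAddCommGroup E] [NormedSpace ℝ E] {f : Mat n → E}
    {g v : Mat n} (h : DifferentiableAt ℝ f g) :
    HasDerivAt (fun t : ℝ => f (g + t • v)) (fderiv ℝ f g v) 0 := by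
  have h1 : HasDerivAt (fun t : ℝ => g + t • v) v 0 := by
    have h2 := ((hasDerivAt_id (0 : ℝ)).smul_const v).const_add g
    simp only [id, one_smul] at h2
    exact h2
  have h3 : HasFDerivAt f (fderiv ℝ f g) (g + (0 : ℝ) • v) := by
    rw [zero_smul, add_zero]
    exact h.hasFDerivAt
  exact h3.comp_hasDerivAt 0 h1

private theorem fderiv_line {E : Type*} [NormedAddCommGroup E] [NormedSpace ℝ E] {f : Mat n → E}
    {g v : Mat n} {c : E} (h : DifferentiableAt ℝ f g)
    (h' : HasDerivAt (fun t : ℝ => f (g + t • v)) c 0) : fderiv ℝ f g v = c :=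
  (line_hd h).unique h'

private theorem blk {m k l : Fin n} (hkl : k ≤ l) (z : ℂ) :
    ∀ k' l' : Fin n, m < k' → l' ≤ m → Matrix.single k l z k' l' = 0 := by
  intro k' l' h1 h2
  rw [Matrix.single_apply, if_neg]
  rintro ⟨rfl, rfl⟩
  exact absurd (lt_of_lt_of_le h1 hkl) (not_lt.2 h2)

private theorem sum_single (k l j : Fin n) (z : ℂ) (f : Fin n → ℂ) :
    ∑ l', Matrix.single k l z j l' * f l' = if j = k then z * f l else 0 := by
  simp only [Matrix.single_apply]
  by_cases hj : j = k
  · subst hj
    simp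
  · have hj' : ¬ k = j := fun h => hj h.symm
    simp [hj, hj']

private theorem sum_single' (k l j : Fin n) (z : ℂ) (f : Fin n → ℂ) :
    ∑ l', conj (Matrix.single k l z j l') * f l' = if j = k then conj z * f l else 0 := by
  simp only [Matrix.single_apply]
  by_cases hj : j = k
  · subst hj
    simp only [true_and, if_true]
    rw [Finset.sum_eq_single l]
    · simp
    · intro b _ hb
      rw [if_neg (fun h => hb h.symm), map_zero, zero_mul]
    · intro h
      exact absurd (Finset.mem_univ _) h
  · have hj' : ¬ k = j := fun h => hj h.symm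
    simp [hj, hj']

private theorem sum_single_smul (k l j : Fin n) (z : ℂ) (f : Fin n → Fin n → ℂ) :
    ∑ l', Matrix.single k l z j l' • f l' = if j = k then z • f l else 0 := by
  simp only [Matrix.single_apply]
  by_cases hj : j = k
  · subst hj
    simp
  · have hj' : ¬ k = j := fun h => hj h.symm
    simp [hj, hj']

section
variable {ε : Fin n → ℝ} {m i : Fin n} {g : Mat n}

private theorem ev_Om (hg : g ∈ Om ε m i) (v : Mat n) :
    ∀ᶠ t : ℝ in 𝓝 0, g + t • v ∈ Om ε m i := by
  have hc : Continuous fun t : ℝ => g + t • v :=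
    continuous_const.add (continuous_id.smul continuous_const)
  have h0 : g + (0 : ℝ) • v ∈ Om ε m i := by
    rw [zero_smul, add_zero]
    exact hg
  exact hc.continuousAt.preimage_mem_nhds ((isOpen_Om ε m i).mem_nhds h0)

private theorem d_ss (hg : g ∈ Om ε m i) (j : Fin n) : DifferentiableAt ℝ (ss ε m j) g :=
  ((contDiffOn_ss j).contDiffAt ((isOpen_Od _ _).mem_nhds hg.1)).differentiableAt (by simp)

private theorem smooth_ww (j : Fin n) :
    ContDiffOn ℝ ∞ (ww ε m j) (Od ε ((m : ℕ) + 1)) :=
  contDiffOn_hat (le_refl _) (contDiff_row j).contDiffOn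

private theorem d_ww (hg : g ∈ Om ε m i) (j : Fin n) : DifferentiableAt ℝ (ww ε m j) g :=
  ((smooth_ww j).contDiffAt ((isOpen_Od _ _).mem_nhds hg.1)).differentiableAt (by simp)

private theorem d_vv (hg : g ∈ Om ε m i) : DifferentiableAt ℝ (vv ε m) g :=
  ((contDiffOn_vv (le_refl _)).contDiffAt
    ((isOpen_Od _ _).mem_nhds hg.1)).differentiableAt (by simp)

private theorem d_qq (hg : g ∈ Om ε m i) : DifferentiableAt ℝ (qq ε m i) g :=
  ((contDiffOn_qq i).contDiffAt ((isOpen_Om _ _ _).mem_nhds hg)).differentiableAt (by simp)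

private theorem Om_GLs : Om ε m i ⊆ GLs n := fun _ h => h.1.1

private theorem smooth_coef {Ω : Set (Mat n)} (hΩ : Ω ⊆ GLs n) {x : Mat n → Fin n → ℂ}
    (hx : ContDiffOn ℝ ∞ x Ω) : ContDiffOn ℝ ∞ (fun g => x g ᵥ* g⁻¹) Ω := by
  apply contDiffOn_pi.2
  intro l
  have e : (fun g : Mat n => (x g ᵥ* g⁻¹) l) = fun g => ∑ j, x g j * g⁻¹ j l := by
    funext g
    rfl
  rw [e]
  apply ContDiffOn.sum
  intro j _
  exact (contDiffOn_pi.1 hx j).mul
    ((contDiff_entry j l).comp_contDiffOn (contDiffOn_inv.mono hΩ))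

private theorem hss (hg : g ∈ Om ε m i) {k l : Fin n} (hkl : k ≤ l) (z : ℂ) (j : Fin n) :
    HasDerivAt (fun t : ℝ => ss ε m j (g + t • (Matrix.single k l z * g)))
      ((if j = k then z * ss ε m l g else 0) +
        if m = k then conj z * hf ε (g j) (ww ε m l g) else 0) 0 := by
  have h := line_hd (v := Matrix.single k l z * g) (d_ss hg j)
  rw [fderiv_ss hg.1 (blk hkl z), sum_single, sum_single'] at h
  exact h

private theorem hww (hg : g ∈ Om ε m i) {k l : Fin n} (hkl : k ≤ l) (z : ℂ) (j : Fin n) :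
    HasDerivAt (fun t : ℝ => ww ε m j (g + t • (Matrix.single k l z * g)))
      (if j = k then z • ww ε m l g else 0) 0 := by
  have h := line_hd (v := Matrix.single k l z * g) (d_ww hg j)
  rw [fderiv_ww hg.1 (blk hkl z), sum_single_smul] at h
  exact h

private theorem fvv (hg : g ∈ Om ε m i) {k l : Fin n} (hkl : k ≤ l) (z : ℂ) :
    fderiv ℝ (vv ε m) g (Matrix.single k l z * g) = if m = k then z • ww ε m l g else 0 := by
  rw [fderiv_vv hg.1 (blk hkl z), sum_single_smul]

private theorem hqq (hg : g ∈ Om ε m i) {k l : Fin n} (hkl : k ≤ l) (z : ℂ) {a : ℂ}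
    {b : Fin n → ℂ}
    (ha : HasDerivAt (fun t : ℝ => ss ε m i (g + t • (Matrix.single k l z * g))) a 0)
    (hb : HasDerivAt (fun t : ℝ => ww ε m i (g + t • (Matrix.single k l z * g))) b 0) :
    fderiv ℝ (qq ε m i) g (Matrix.single k l z * g) =
      (ss ε m i g)⁻¹ • b + (-a / ss ε m i g ^ 2) • ww ε m i g := by
  apply fderiv_line (d_qq hg)
  have hne : ss ε m i (g + (0 : ℝ) • (Matrix.single k l z * g)) ≠ 0 := by
    rw [zero_smul, add_zero]
    exact hg.2
  have h := (ha.inv hne).smul hb
  simp only [zero_smul, add_zero, Pi.inv_apply] at h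
  exact h

private theorem row_hd (g : Mat n) (k l : Fin n) (z : ℂ) (j : Fin n) :
    HasDerivAt (fun t : ℝ => (g + t • (Matrix.single k l z * g)) j)
      (if j = k then z • g l else 0) 0 := by
  have h := line_hd (v := Matrix.single k l z * g) (g := g)
    ((contDiff_row j).contDiffAt.differentiableAt (by simp))
  have h2 : fderiv ℝ (fun g : Mat n => g j) g (Matrix.single k l z * g) =
      (Matrix.single k l z * g) j := by
    have h3 : HasDerivAt (fun t : ℝ => (g + t • (Matrix.single k l z * g)) j)
        ((Matrix.single k l z * g) j) 0 := by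
      have h4 := ((hasDerivAt_id (0 : ℝ)).smul_const ((Matrix.single k l z * g) j)).const_add
        (g j)
      simp only [id, one_smul] at h4
      exact h4
    exact fderiv_line ((contDiff_row j).contDiffAt.differentiableAt (by simp)) h3
  rw [h2] at h
  have h5 : (Matrix.single k l z * g) j = if j = k then z • g l else 0 := by
    funext c
    rw [Matrix.mul_apply, sum_single k l j z (fun l' => g l' c)]
    by_cases hj : j = k
    · simp [hj]
    · simp [hj]
  rw [h5] at h
  exact h

private theorem hf_hd {x y : ℝ → Fin n → ℂ} {x' y' : Fin n → ℂ}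
    (hx : HasDerivAt x x' 0) (hy : HasDerivAt y y' 0) :
    HasDerivAt (fun t => hf ε (x t) (y t)) (hf ε x' (y 0) + hf ε (x 0) y') 0 := by
  unfold hf
  rw [← Finset.sum_add_distrib]
  apply HasDerivAt.fun_sum
  intro j _
  have h1 := (hasDerivAt_pi.1 hx j).const_mul (ε j : ℂ)
  have h2 : HasDerivAt (fun t => conj (y t j)) (conj (y' j)) 0 :=
    (Complex.conjCLE.toContinuousLinearMap.hasFDerivAt).comp_hasDerivAt 0 (hasDerivAt_pi.1 hy j)
  exact h1.mul h2

private theorem coef_hd {x : Mat n → Fin n → ℂ} (hx : ContDiffOn ℝ ∞ x (Om ε m i))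
    (hg : g ∈ Om ε m i) (k l : Fin n) (z : ℂ) (c : Fin n) :
    HasDerivAt (fun t : ℝ => (x (g + t • (Matrix.single k l z * g)) ᵥ*
        (g + t • (Matrix.single k l z * g))⁻¹) c)
      ((fderiv ℝ x g (Matrix.single k l z * g) ᵥ* g⁻¹) c -
        if c = l then (x g ᵥ* g⁻¹) k * z else 0) 0 := by
  have hd : DifferentiableAt ℝ (fun g => x g ᵥ* g⁻¹) g :=
    ((smooth_coef Om_GLs hx).contDiffAt
      ((isOpen_Om _ _ _).mem_nhds hg)).differentiableAt (by simp)
  have h := line_hd (v := Matrix.single k l z * g) hd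
  rw [fderiv_coef (isOpen_Om ε m i) Om_GLs hx hg] at h
  have h2 := hasDerivAt_pi.1 h c
  have h3 : ((x g ᵥ* g⁻¹) ᵥ* Matrix.single k l z) c =
      if c = l then (x g ᵥ* g⁻¹) k * z else 0 := by
    simp only [Matrix.vecMul, dotProduct, Matrix.single_apply]
    by_cases hc : c = l
    · subst hc
      simp
    · have hc' : ¬ l = c := fun h => hc h.symm
      simp [hc, hc']
  simp only [Pi.sub_apply, h3] at h2
  exact h2

/-- the entries of `Y2 - Ye` -/
private theorem Yb_entry (hg : g ∈ Om ε m i) (k l : Fin n) :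
    (Y2 ε m i g - Ye ε m i g) k l =
      ss ε m k g * (qq ε m i g ᵥ* g⁻¹) l - hf ε (g k) (qq ε m i g) * (vv ε m g ᵥ* g⁻¹) l -
        if l = i ∧ i < k ∧ k ≤ m then ss ε m k g / ss ε m i g else 0 := by
  rw [Matrix.sub_apply, Y2_apply]
  rfl

private theorem Yb_low (hg : g ∈ Om ε m i) {k l : Fin n} (hk : m < k) :
    (Y2 ε m i g - Ye ε m i g) k l = 0 := by
  rw [Yb_entry hg, ss_zero hg.1 hk, hf_row_qq_zero hg hk, if_neg]
  · ring
  · rintro ⟨-, -, h⟩
    exact absurd hk (not_lt.2 h)

private theorem Yb_left (him : i < m) (hg : g ∈ Om ε m i) {k l : Fin n} (hl : l < m)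
    (hli : l ≠ i) : (Y2 ε m i g - Ye ε m i g) k l = 0 := by
  rw [Yb_entry hg, qq_coef hg him.le hl.le, vv_coef hg.1 hl.le, if_neg hli, if_neg hl.ne,
    if_neg]
  · ring
  · rintro ⟨h, -⟩
    exact hli h

private theorem Yb_i (him : i < m) (hg : g ∈ Om ε m i) {k : Fin n} (hk : k ≤ i) :
    (Y2 ε m i g - Ye ε m i g) k i = ss ε m k g * (ss ε m i g)⁻¹ := by
  rw [Yb_entry hg, qq_coef hg him.le him.le, vv_coef hg.1 him.le, if_pos rfl, if_neg him.ne,
    if_neg]
  · ring
  · rintro ⟨-, h, -⟩
    exact absurd h (not_lt.2 hk)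

private theorem Yb_m (him : i < m) (hg : g ∈ Om ε m i) (k : Fin n) :
    (Y2 ε m i g - Ye ε m i g) k m = - hf ε (g k) (qq ε m i g) := by
  rw [Yb_entry hg, qq_coef hg him.le le_rfl, vv_coef hg.1 le_rfl, if_pos rfl, if_neg him.ne',
    if_neg]
  · ring
  · rintro ⟨h, -⟩
    exact him.ne' h

private theorem Yb_right (him : i < m) (hg : g ∈ Om ε m i) {k l : Fin n} (hl : m < l) :
    (Y2 ε m i g - Ye ε m i g) k l =
      ss ε m k g * (qq ε m i g ᵥ* g⁻¹) l -
        hf ε (g k) (qq ε m i g) * (vv ε m g ᵥ* g⁻¹) l := by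
  rw [Yb_entry hg, if_neg]
  · ring
  · rintro ⟨h, -⟩
    exact absurd (him.trans hl) (by rw [h]; exact lt_irrefl _)

/-- the value of the divergence term from the derivatives in the two directions -/
private theorem term_eq (hg : g ∈ Om ε m i) {k l : Fin n} {D : ℂ → ℂ} {f : Mat n → ℂ}
    (hf' : ∀ g' ∈ Om ε m i, (Y2 ε m i g' - Ye ε m i g') k l = f g')
    (hD : ∀ z : ℂ, HasDerivAt (fun t : ℝ => f (g + t • (Matrix.single k l z * g))) (D z) 0) :
    fderiv ℝ (fun g => ((Y2 ε m i g - Ye ε m i g) k l).re) g (Matrix.single k l 1 * g) +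
      fderiv ℝ (fun g => ((Y2 ε m i g - Ye ε m i g) k l).im) g
        (Matrix.single k l Complex.I * g) = (D 1).re + (D Complex.I).im := by
  have hs : ContDiffOn ℝ ∞ (fun g => (Y2 ε m i g - Ye ε m i g) k l) (Om ε m i) :=
    (contDiff_entry k l).comp_contDiffOn ((contDiffOn_Y2 ε m i).sub (contDiffOn_Ye ε m i))
  have hd : DifferentiableAt ℝ (fun g => (Y2 ε m i g - Ye ε m i g) k l) g :=
    (hs.contDiffAt ((isOpen_Om _ _ _).mem_nhds hg)).differentiableAt (by simp)
  have hD' : ∀ z : ℂ, HasDerivAt (fun t : ℝ =>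
      (Y2 ε m i (g + t • (Matrix.single k l z * g)) -
        Ye ε m i (g + t • (Matrix.single k l z * g))) k l) (D z) 0 := by
    intro z
    apply (hD z).congr_of_eventuallyEq
    filter_upwards [ev_Om hg (Matrix.single k l z * g)] with t ht
    exact hf' _ ht
  congr 1
  · apply fderiv_line (Complex.reCLM.differentiableAt.comp g hd)
    exact Complex.reCLM.hasFDerivAt.comp_hasDerivAt 0 (hD' 1)
  · apply fderiv_line (Complex.imCLM.differentiableAt.comp g hd)
    exact Complex.imCLM.hasFDerivAt.comp_hasDerivAt 0 (hD' Complex.I)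

end

theorem Yb_upper {ε : Fin n → ℝ} {m i : Fin n} (him : i < m) {g : Mat n} (hg : g ∈ Om ε m i)
    {k l : Fin n} (hkl : l < k) : (Y2 ε m i g - Ye ε m i g) k l = 0 := by
  by_cases hk : m < k
  · exact Yb_low hg hk
  · have hk' : k ≤ m := not_lt.1 hk
    have hl : l < m := lt_of_lt_of_le hkl hk'
    by_cases hli : l = i
    · subst hli
      rw [Yb_entry hg, qq_coef hg him.le him.le, vv_coef hg.1 him.le, if_pos rfl, if_neg him.ne,
        if_pos ⟨rfl, hkl, hk'⟩]
      rw [div_eq_mul_inv]
      ring
    · exact Yb_left him hg hl hli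

theorem Yb_diag {ε : Fin n → ℝ} {m i : Fin n} (him : i < m) {g : Mat n} (hg : g ∈ Om ε m i)
    (k : Fin n) :
    (Y2 ε m i g - Ye ε m i g) k k = if k = i then 1 else if k = m then -1 else 0 := by
  by_cases hki : k = i
  · subst hki
    rw [if_pos rfl, Yb_i him hg le_rfl, mul_inv_cancel₀ hg.2]
  · rw [if_neg hki]
    by_cases hkm : k = m
    · subst hkm
      rw [if_pos rfl, Yb_m him hg, hf_row_qq hg]
    · rw [if_neg hkm]
      rcases lt_or_gt_of_ne hkm with h | h
      · exact Yb_left him hg h hki
      · exact Yb_low hg h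

private theorem term_val {ε : Fin n → ℝ} {m i : Fin n} (him : i < m) {g : Mat n}
    (hg : g ∈ Om ε m i) {k l : Fin n} (hkl : k ≤ l) :
    fderiv ℝ (fun g => ((Y2 ε m i g - Ye ε m i g) k l).re) g (Matrix.single k l 1 * g) +
      fderiv ℝ (fun g => ((Y2 ε m i g - Ye ε m i g) k l).im) g
        (Matrix.single k l Complex.I * g) =
      (if l = i ∧ k < i then (2 : ℝ) else 0) - (if l = m ∧ k < m then 2 else 0) -
        (if m < l ∧ k = i then 2 else 0) + (if m < l ∧ k = m then 2 else 0) := by
  have h0 : ∀ v : Mat n, g + (0 : ℝ) • v = g := fun v => by rw [zero_smul, add_zero]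
  by_cases hk : m < k
  · -- below the row `m`
    rw [term_eq hg (D := fun _ => 0) (f := fun _ => 0) (fun g' hg' => Yb_low hg' hk)
      (fun z => hasDerivAt_const _ _)]
    have hl : m < l := lt_of_lt_of_le hk hkl
    rw [if_neg (fun h => absurd (him.trans hl) (by rw [h.1]; exact lt_irrefl _)),
      if_neg (fun h => hl.ne' h.1), if_neg (fun h => absurd (him.trans hk)
        (by rw [h.2]; exact lt_irrefl _)), if_neg (fun h => hk.ne' h.2)]
    simp
  have hk' : k ≤ m := not_lt.1 hk
  rcases lt_trichotomy l m with hl | hl | hl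
  · by_cases hli : l = i
    · subst hli
      rcases lt_or_eq_of_le hkl with hki | hki
      · -- `l = i`, `k < i`
        have hkm : m ≠ k := (hki.trans hl).ne'
        have hD : ∀ z : ℂ, HasDerivAt (fun t : ℝ =>
            ss ε m k (g + t • (Matrix.single k l z * g)) *
              (ss ε m l (g + t • (Matrix.single k l z * g)))⁻¹) z 0 := by
          intro z
          have h1 := hss hg hkl z k
          have h2 := hss hg hkl z l
          rw [if_pos rfl, if_neg hkm, add_zero] at h1
          rw [if_neg hki.ne', if_neg hkm, add_zero] at h2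
          have hne : ss ε m l (g + (0 : ℝ) • (Matrix.single k l z * g)) ≠ 0 := by
            rw [h0]
            exact hg.2
          have h3 := h1.mul (h2.inv hne)
          refine h3.congr_deriv ?_
          simp only [h0, Pi.inv_apply]
          have hne' : ss ε m l g ≠ 0 := hg.2
          field_simp
          try ring
        rw [term_eq hg (D := fun z => z) (fun g' hg' => Yb_i him hg' hkl) hD,
          if_pos ⟨rfl, hki⟩, if_neg (fun h => hl.ne h.1), if_neg (fun h => hki.ne h.2),
          if_neg (fun h => hkm h.2.symm)]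
        simp
        norm_num
      · -- `l = i = k`
        subst hki
        rw [term_eq hg (D := fun _ => 0) (f := fun _ => 1) (fun g' hg' => by
          rw [Yb_i him hg' le_rfl, mul_inv_cancel₀ hg'.2]) (fun z => hasDerivAt_const _ _),
          if_neg (fun h => lt_irrefl _ h.2), if_neg (fun h => hl.ne h.1),
          if_neg (fun h => absurd h.1 (not_lt.2 hl.le)),
          if_neg (fun h => absurd h.1 (not_lt.2 hl.le))]
        simp
    · -- `l < m`, `l ≠ i`
      rw [term_eq hg (D := fun _ => 0) (f := fun _ => 0) (fun g' hg' => Yb_left him hg' hl hli)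
        (fun z => hasDerivAt_const _ _), if_neg (fun h => hli h.1), if_neg (fun h => hl.ne h.1),
        if_neg (fun h => absurd h.1 (not_lt.2 hl.le)),
        if_neg (fun h => absurd h.1 (not_lt.2 hl.le))]
      simp
  · subst hl
    rcases lt_or_eq_of_le hkl with hkm | hkm
    · -- `l = m`, `k < m`
      have hmk : l ≠ k := hkm.ne'
      have hq : ∀ z : ℂ, ∃ X : Fin n → ℂ, HasDerivAt (fun t : ℝ =>
          qq ε l i (g + t • (Matrix.single k l z * g))) (z • X) 0 ∧
            (X = if i = k then (ss ε l i g)⁻¹ • ww ε l l g +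
              (-(ss ε l l g) / ss ε l i g ^ 2) • ww ε l i g else 0) := by
        intro z
        refine ⟨_, ?_, rfl⟩
        have h1 := line_hd (v := Matrix.single k l z * g) (d_qq hg)
        rw [hqq hg hkl z (hss hg hkl z i) (hww hg hkl z i)] at h1
        refine h1.congr_deriv ?_
        by_cases hik : i = k
        · simp only [if_pos hik, if_neg hmk, add_zero]
          rw [smul_add, smul_smul, smul_smul, smul_smul]
          congr 2
          · ring
          · ring
        · simp only [if_neg hik, if_neg hmk, add_zero, neg_zero, zero_div, zero_smul, smul_zero]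
      obtain ⟨X, hX⟩ : ∃ X : Fin n → ℂ, X = if i = k then (ss ε l i g)⁻¹ • ww ε l l g +
          (-(ss ε l l g) / ss ε l i g ^ 2) • ww ε l i g else 0 := ⟨_, rfl⟩
      have hD : ∀ z : ℂ, HasDerivAt (fun t : ℝ =>
          - hf ε ((g + t • (Matrix.single k l z * g)) k)
            (qq ε l i (g + t • (Matrix.single k l z * g))))
          (- (z + conj z * hf ε (g k) X)) 0 := by
        intro z
        obtain ⟨X', h1, h2⟩ := hq z
        rw [← hX] at h2
        subst h2
        have h3 := row_hd g k l z k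
        rw [if_pos rfl] at h3
        have h4 := (hf_hd (ε := ε) h3 h1).fun_neg
        refine h4.congr_deriv ?_
        simp only [h0]
        have h5 : hf ε (z • g l) (qq ε l i g) = z := by
          have h6 : hf ε (z • g l) (qq ε l i g) = z * hf ε (g l) (qq ε l i g) := by
            unfold hf
            rw [Finset.mul_sum]
            apply Finset.sum_congr rfl
            intro j _
            simp only [Pi.smul_apply, smul_eq_mul]
            ring
          rw [h6, hf_row_qq hg, mul_one]
        have h7 : hf ε (g k) (z • X') = conj z * hf ε (g k) X' := by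
          unfold hf
          rw [Finset.mul_sum]
          apply Finset.sum_congr rfl
          intro j _
          simp only [Pi.smul_apply, smul_eq_mul, map_mul]
          ring
        rw [h5, h7]
      rw [term_eq hg (D := fun z => - (z + conj z * hf ε (g k) X))
        (f := fun g => - hf ε (g k) (qq ε l i g)) (fun g' hg' => Yb_m him hg' k) hD,
        if_neg (fun h => him.ne' h.1), if_pos ⟨rfl, hkm⟩,
        if_neg (fun h => lt_irrefl _ h.1), if_neg (fun h => lt_irrefl _ h.1)]
      simp only [map_one, one_mul, Complex.conj_I, Complex.neg_re, Complex.neg_im,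
        Complex.add_re, Complex.add_im, Complex.one_re, Complex.I_im, Complex.mul_im,
        Complex.I_re, neg_zero, zero_mul, neg_one_mul]
      ring
    · -- `l = m = k`
      subst hkm
      rw [term_eq hg (D := fun _ => 0) (f := fun _ => -1) (fun g' hg' => by
        rw [Yb_m him hg', hf_row_qq hg']) (fun z => hasDerivAt_const _ _),
        if_neg (fun h => him.ne' h.1), if_neg (fun h => lt_irrefl _ h.2),
        if_neg (fun h => lt_irrefl _ h.1), if_neg (fun h => lt_irrefl _ h.1)]
      simp
  · -- `l > m`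
    have hsl : ss ε m l g = 0 := ss_zero hg.1 hl
    have hwl : ww ε m l g = 0 := hat_row_zero hg.1 hl
    have hil : l ≠ i := (him.trans hl).ne'
    have hss0 : ∀ z j, HasDerivAt (fun t : ℝ => ss ε m j (g + t • (Matrix.single k l z * g)))
        0 0 := by
      intro z j
      have h1 := hss hg hkl z j
      refine h1.congr_deriv ?_
      have h2 : hf ε (g j) 0 = 0 := by
        unfold hf
        simp
      rw [hsl, hwl, h2, mul_zero, mul_zero, ite_self, ite_self, add_zero]
    have hww0 : ∀ z j, HasDerivAt (fun t : ℝ => ww ε m j (g + t • (Matrix.single k l z * g)))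
        0 0 := by
      intro z j
      have h1 := hww hg hkl z j
      refine h1.congr_deriv ?_
      rw [hwl, smul_zero, ite_self]
    have hqf : ∀ z, fderiv ℝ (qq ε m i) g (Matrix.single k l z * g) = 0 := by
      intro z
      rw [hqq hg hkl z (hss0 z i) (hww0 z i), smul_zero, neg_zero, zero_div, zero_smul,
        add_zero]
    have hvf : ∀ z, fderiv ℝ (vv ε m) g (Matrix.single k l z * g) = 0 := by
      intro z
      rw [fvv hg hkl z, hwl, smul_zero, ite_self]
    have hQ : ∀ z, HasDerivAt (fun t : ℝ => (qq ε m i (g + t • (Matrix.single k l z * g)) ᵥ*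
        (g + t • (Matrix.single k l z * g))⁻¹) l)
        (-((if k = i then (ss ε m i g)⁻¹ else 0) * z)) 0 := by
      intro z
      have h1 := coef_hd (contDiffOn_qq i) hg k l z l
      refine h1.congr_deriv ?_
      rw [hqf, Matrix.zero_vecMul, Pi.zero_apply, if_pos rfl, qq_coef hg him.le hk', zero_sub]
    have hP : ∀ z, HasDerivAt (fun t : ℝ => (vv ε m (g + t • (Matrix.single k l z * g)) ᵥ*
        (g + t • (Matrix.single k l z * g))⁻¹) l)
        (-((if k = m then 1 else 0) * z)) 0 := by
      intro z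
      have h1 := coef_hd ((contDiffOn_vv (le_refl _)).mono fun _ h => h.1) hg k l z l
      refine h1.congr_deriv ?_
      rw [hvf, Matrix.zero_vecMul, Pi.zero_apply, if_pos rfl, vv_coef hg.1 hk', zero_sub]
    have hR : ∀ z, HasDerivAt (fun t : ℝ => hf ε ((g + t • (Matrix.single k l z * g)) k)
        (qq ε m i (g + t • (Matrix.single k l z * g)))) 0 0 := by
      intro z
      have h1 := row_hd g k l z k
      rw [if_pos rfl] at h1
      have h2 := line_hd (v := Matrix.single k l z * g) (d_qq hg)
      rw [hqf] at h2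
      have h3 := hf_hd (ε := ε) h1 h2
      refine h3.congr_deriv ?_
      simp only [h0]
      have h6 : hf ε (z • g l) (qq ε m i g) = z * hf ε (g l) (qq ε m i g) := by
        unfold hf
        rw [Finset.mul_sum]
        apply Finset.sum_congr rfl
        intro j _
        simp only [Pi.smul_apply, smul_eq_mul]
        ring
      have h7 : hf ε (g k) 0 = 0 := by
        unfold hf
        simp
      rw [h6, hf_row_qq_zero hg hl, h7, mul_zero, add_zero]
    have hD : ∀ z : ℂ, HasDerivAt (fun t : ℝ =>
        ss ε m k (g + t • (Matrix.single k l z * g)) *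
          (qq ε m i (g + t • (Matrix.single k l z * g)) ᵥ*
            (g + t • (Matrix.single k l z * g))⁻¹) l -
        hf ε ((g + t • (Matrix.single k l z * g)) k)
          (qq ε m i (g + t • (Matrix.single k l z * g))) *
          (vv ε m (g + t • (Matrix.single k l z * g)) ᵥ*
            (g + t • (Matrix.single k l z * g))⁻¹) l)
        (((if k = m then (1 : ℂ) else 0) - (if k = i then 1 else 0)) * z) 0 := by
      intro z
      have h1 := ((hss0 z k).mul (hQ z)).sub ((hR z).mul (hP z))
      refine h1.congr_deriv ?_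
      simp only [h0]
      by_cases hki : k = i
      · subst hki
        have hne : ss ε m k g ≠ 0 := hg.2
        simp only [if_pos, if_neg him.ne]
        field_simp
        try ring
      · by_cases hkm : k = m
        · subst hkm
          simp only [if_neg hki, if_pos, hf_row_qq hg]
          ring
        · simp only [if_neg hki, if_neg hkm]
          ring
    rw [term_eq hg (D := fun z => ((if k = m then (1 : ℂ) else 0) -
        (if k = i then 1 else 0)) * z)
      (f := fun g => ss ε m k g * (qq ε m i g ᵥ* g⁻¹) l -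
        hf ε (g k) (qq ε m i g) * (vv ε m g ᵥ* g⁻¹) l)
      (fun g' hg' => Yb_right him hg' hl) hD]
    by_cases hki : k = i
    · subst hki
      simp [him.ne, hl, hl.ne', hil]
      norm_num
    · by_cases hkm : k = m
      · subst hkm
        simp [hki, hl, hl.ne', hil]
        norm_num
      · simp [hki, hkm, hl.ne', hil]

theorem divb_Yb {ε : Fin n → ℝ} {m i : Fin n} (him : i < m) {g : Mat n} (hg : g ∈ Om ε m i) :
    divb (fun g => Y2 ε m i g - Ye ε m i g) g = -2 * (((m : ℕ) : ℂ) - ((i : ℕ) : ℂ)) := by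
  have h1 : divb (fun g => Y2 ε m i g - Ye ε m i g) g = ∑ k : Fin n, ∑ l : Fin n,
      ((if l = i ∧ k < i then (2 : ℂ) else 0) - (if l = m ∧ k < m then 2 else 0) -
        (if m < l ∧ k = i then 2 else 0) + (if m < l ∧ k = m then 2 else 0)) := by
    unfold divb
    apply Finset.sum_congr rfl
    intro k _
    apply Finset.sum_congr rfl
    intro l _
    by_cases hkl : k ≤ l
    · rw [if_pos hkl, term_val him hg hkl]
      have hc : ∀ (c : Prop) [Decidable c], (((if c then (2 : ℝ) else 0 : ℝ)) : ℂ) =
          if c then 2 else 0 := by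
        intro c _
        split_ifs <;> simp
      simp only [Complex.ofReal_add, Complex.ofReal_sub, hc]
    · rw [if_neg hkl, if_neg, if_neg, if_neg, if_neg]
      · ring
      · rintro ⟨h, rfl⟩
        exact hkl h.le
      · rintro ⟨h, rfl⟩
        exact hkl (him.trans h).le
      · rintro ⟨rfl, h⟩
        exact hkl h.le
      · rintro ⟨rfl, h⟩
        exact hkl h.le
  rw [h1]
  have h2 : ∀ c : Fin n, ∑ k : Fin n, ∑ l : Fin n, (if l = c ∧ k < c then (2 : ℂ) else 0) =
      2 * ((c : ℕ) : ℂ) := by
    intro c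
    have h3 : ∀ k : Fin n, ∑ l : Fin n, (if l = c ∧ k < c then (2 : ℂ) else 0) =
        if k < c then 2 else 0 := by
      intro k
      by_cases hk : k < c
      · simp [hk]
      · simp [hk]
    simp only [h3]
    rw [← Finset.sum_filter, Finset.sum_const]
    have h4 : (Finset.univ.filter fun k : Fin n => k < c) = Finset.Iio c := by
      ext k
      simp
    rw [h4, Fin.card_Iio, nsmul_eq_mul, mul_comm]
  have h5 : ∀ c : Fin n, ∑ k : Fin n, ∑ l : Fin n, (if m < l ∧ k = c then (2 : ℂ) else 0) =
      ∑ l : Fin n, if m < l then 2 else 0 := by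
    intro c
    rw [Finset.sum_eq_single c]
    · apply Finset.sum_congr rfl
      intro l _
      simp
    · intro b _ hb
      simp [hb]
    · intro h
      exact absurd (Finset.mem_univ _) h
  simp only [Finset.sum_add_distrib, Finset.sum_sub_distrib, h2, h5]
  ring

end

end Pool.Agent.Work.MP_dd0ddf_al.AR
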