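import Pool.Agent.Work.MP_dd0ddf_al.AR.Obj
import Pool.Agent.Work.MP_dd0ddf_al.AR.DerB

/-!
# EulAct (S-M): the action of the Euler field `g ↦ Ye(g) g` on the functions `s_k`

`Λ = Ye ε m i g` has the entries `s_k / s_i` at `(k, i)`, `i < k ≤ m`; it satisfies the block condition.
By `fderiv_ss`, for `i < k ≤ m`: `D s_k = (s_k/s_i) s_i + conj(s_m/s_i) <g_k, w_i>
= s_k + conj(s_m) <g_k, q>` (`q = w_i / s_i`, `hf` antilinear), and `s_m = <v,v>` is real.
For `k = m`: `<g_m, q> = 1`: `D s_m = 2 s_m`.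
-/

set_option linter.unusedSectionVars false

namespace Pool.Agent.Work.MP_dd0ddf_al.AR

open scoped SchwartzMap Matrix.Norms.Elementwise ComplexConjugate ContDiff Topology LineDeriv
open Matrix MeasureTheory Filter

noncomputable section

variable {n : ℕ}

private theorem Ye_block {ε : Fin n → ℝ} {m i : Fin n} (g : Mat n) :
    ∀ k l, m < k → l ≤ m → Ye ε m i g k l = 0 := by
  intro k l hk _
  unfold Ye
  rw [Matrix.of_apply, if_neg]
  rintro ⟨-, -, h⟩
  exact absurd h (not_le.2 hk)

private theorem hf_smul_left_aux (ε : Fin n → ℝ) (c : ℂ) (x w : Fin n → ℂ) :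
    hf ε (c • x) w = c * hf ε x w := by
  unfold hf
  rw [Finset.mul_sum]
  refine Finset.sum_congr rfl fun j _ => ?_
  rw [Pi.smul_apply, smul_eq_mul]
  ring

private theorem hf_smul_right_aux (ε : Fin n → ℝ) (c : ℂ) (x w : Fin n → ℂ) :
    hf ε x (c • w) = conj c * hf ε x w := by
  rw [← conj_hf, hf_smul_left_aux, map_mul, conj_hf]

private theorem euler_aux {ε : Fin n → ℝ} {m i k : Fin n} (him : i < m) (hik : i < k) (hkm : k ≤ m)
    {g : Mat n} (hg : g ∈ Om ε m i) :
    fderiv ℝ (ss ε m k) g (Ye ε m i g * g) =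
      ss ε m k g + ss ε m m g * hf ε (g k) (qq ε m i g) := by
  rw [fderiv_ss hg.1 (Ye_block g) k]
  have hsi : ss ε m i g ≠ 0 := hg.2
  have h1 : ∑ l, Ye ε m i g k l * ss ε m l g = ss ε m k g := by
    rw [Finset.sum_eq_single i]
    · unfold Ye
      rw [Matrix.of_apply, if_pos ⟨rfl, hik, hkm⟩, div_mul_cancel₀ _ hsi]
    · intro l _ hl
      unfold Ye
      rw [Matrix.of_apply, if_neg (fun h => hl h.1), zero_mul]
    · intro h
      exact absurd (Finset.mem_univ _) h
  have h2 : ∑ l, conj (Ye ε m i g m l) * hf ε (g k) (ww ε m l g) =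
      ss ε m m g * hf ε (g k) (qq ε m i g) := by
    rw [Finset.sum_eq_single i]
    · unfold Ye
      rw [Matrix.of_apply, if_pos ⟨rfl, him, le_rfl⟩]
      unfold qq
      rw [hf_smul_right_aux, div_eq_mul_inv, map_mul,
        Complex.conj_eq_iff_im.2 (ss_self_im hg.1), mul_assoc]
    · intro l _ hl
      unfold Ye
      rw [Matrix.of_apply, if_neg (fun h => hl h.1), map_zero, zero_mul]
    · intro h
      exact absurd (Finset.mem_univ _) h
  rw [h1, h2]

theorem euler_ss {ε : Fin n → ℝ} {m i k : Fin n} (him : i < m) (hik : i < k) (hkm : k < m)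
    {g : Mat n} (hg : g ∈ Om ε m i) :
    fderiv ℝ (ss ε m k) g (Ye ε m i g * g) =
      ss ε m k g + ss ε m m g * hf ε (g k) (qq ε m i g) :=
  euler_aux him hik hkm.le hg

theorem euler_ss_self {ε : Fin n → ℝ} {m i : Fin n} (him : i < m)
    {g : Mat n} (hg : g ∈ Om ε m i) :
    fderiv ℝ (ss ε m m) g (Ye ε m i g * g) = 2 * ss ε m m g := by
  rw [euler_aux him him le_rfl hg, hf_row_qq hg]
  ring

/-- the decomposition of the Euler field -/
theorem Ye_eq {ε : Fin n → ℝ} {m i : Fin n} (him : i < m) {g : Mat n} (hg : g ∈ Om ε m i) :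
    Ye ε m i g * g = ∑ k : Fin n, (if i < k ∧ k < m then
        (ss ε m k g).re • ((ss ε m i g)⁻¹ • (Matrix.single k i (1 : ℂ) * g)) +
        (ss ε m k g).im • ((Complex.I * (ss ε m i g)⁻¹) • (Matrix.single k i (1 : ℂ) * g))
      else 0) + (ss ε m m g).re • ((ss ε m i g)⁻¹ • (Matrix.single m i (1 : ℂ) * g)) := by
  have hY : Ye ε m i g = ∑ k : Fin n, (if i < k ∧ k < m then
        (ss ε m k g * (ss ε m i g)⁻¹) • Matrix.single k i (1 : ℂ) else 0) +
      (ss ε m m g * (ss ε m i g)⁻¹) • Matrix.single m i (1 : ℂ) := by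
    ext a b
    rw [Matrix.add_apply, Matrix.sum_apply, Matrix.smul_apply, Matrix.single_apply]
    have h3 : ∀ k : Fin n, (if i < k ∧ k < m then
        (ss ε m k g * (ss ε m i g)⁻¹) • Matrix.single k i (1 : ℂ) else 0) a b =
        if k = a then (if i < a ∧ a < m ∧ b = i then ss ε m a g * (ss ε m i g)⁻¹ else 0) else 0 := by
      intro k
      by_cases hk : k = a
      · subst hk
        by_cases h : i < k ∧ k < m
        · rw [if_pos h, if_pos rfl, Matrix.smul_apply, Matrix.single_apply, smul_eq_mul]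
          by_cases hb : b = i
          · rw [if_pos ⟨rfl, hb.symm⟩, if_pos ⟨h.1, h.2, hb⟩, mul_one]
          · rw [if_neg (fun h' => hb h'.2.symm), if_neg (fun h' => hb h'.2.2), mul_zero]
        · rw [if_neg h, if_pos rfl, if_neg (fun h' => h ⟨h'.1, h'.2.1⟩)]
          rfl
      · rw [if_neg hk]
        by_cases h : i < k ∧ k < m
        · rw [if_pos h, Matrix.smul_apply, Matrix.single_apply, if_neg (fun h' => hk h'.1),
            smul_zero]
        · rw [if_neg h]
          rfl
    rw [Finset.sum_congr rfl fun k _ => h3 k, Finset.sum_ite_eq' Finset.univ a]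
    rw [if_pos (Finset.mem_univ a), smul_eq_mul]
    unfold Ye
    rw [Matrix.of_apply]
    by_cases hb : b = i
    · by_cases hia : i < a
      · rcases lt_trichotomy a m with ham | ham | ham
        · rw [if_pos ⟨hb, hia, ham.le⟩, if_pos ⟨hia, ham, hb⟩, if_neg (fun h' => ham.ne' h'.1),
            mul_zero, add_zero, div_eq_mul_inv]
        · subst ham
          rw [if_pos ⟨hb, hia, le_rfl⟩, if_neg (fun h' => lt_irrefl _ h'.2.1),
            if_pos ⟨rfl, hb.symm⟩, mul_one, zero_add, div_eq_mul_inv]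
        · rw [if_neg (fun h' => absurd h'.2.2 (not_le.2 ham)),
            if_neg (fun h' => lt_asymm ham h'.2.1), if_neg (fun h' => ham.ne h'.1), mul_zero,
            add_zero]
      · rw [if_neg (fun h' => hia h'.2.1), if_neg (fun h' => hia h'.1), zero_add]
        by_cases hma : m = a
        · subst hma
          exact absurd him hia
        · rw [if_neg (fun h' => hma h'.1), mul_zero]
    · rw [if_neg (fun h' => hb h'.1), if_neg (fun h' => hb h'.2.2), if_neg (fun h' => hb h'.2.symm),
        mul_zero, add_zero]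
  rw [hY, Matrix.add_mul, Matrix.sum_mul]
  congr 1
  · refine Finset.sum_congr rfl fun k _ => ?_
    by_cases h : i < k ∧ k < m
    · rw [if_pos h, if_pos h, Matrix.smul_mul]
      have h4 : ss ε m k g * (ss ε m i g)⁻¹ = ((ss ε m k g).re : ℂ) * (ss ε m i g)⁻¹ +
          ((ss ε m k g).im : ℂ) * (Complex.I * (ss ε m i g)⁻¹) := by
        conv_lhs => rw [← Complex.re_add_im (ss ε m k g)]
        ring
      rw [h4, add_smul, mul_smul, mul_smul, Complex.coe_smul, Complex.coe_smul]
    · rw [if_neg h, if_neg h, Matrix.zero_mul]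
  · rw [Matrix.smul_mul]
    have h5 : ss ε m m g = ((ss ε m m g).re : ℂ) := by
      apply Complex.ext
      · simp
      · simp [ss_self_im hg.1]
    conv_lhs => rw [h5]
    rw [mul_smul, Complex.coe_smul]

end

end Pool.Agent.Work.MP_dd0ddf_al.AR
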