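import Pool.Agent.Work.MP_dd0ddf_al.AR.TF1
import Pool.Agent.Work.MP_dd0ddf_al.AR.TF2

/-!
# FinOrd (M): finite order in the transversal directions

Let `M` be the order of `T` on `K`.  Let `κ` be a smooth cutoff, `κ = 1` on `K`, `tsupport κ ⊆ Ω`
compact, `ρ̃_i = κ ρ_i` (smooth everywhere, all derivatives bounded, `ρ̃_i = ρ_i` on `K`).
Let `Ψ : (ι → ℝ) → ℝ` be smooth, `Ψ = 1` on the ball of radius `1/2`, `Ψ = 0` outside the unit ball
(sup norm on `ι → ℝ`; e.g. a `ContDiffBump`).  For a word `u` of length `L > M` and `0 < δ ≤ 1`: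
`ρ_u F = Ψ(ρ/δ) ρ_u F + (1 - Ψ(ρ/δ)) ρ_u F`.  The second function is in `TFK K''`,
`K'' = {g ∈ K : ‖ρ(g)‖ ≥ δ/2}` compact in `Ω ∩ {ρ ≠ 0}`, so `T` kills it.  The first one is
`H_δ(ρ̃) F`, `H_δ(y) = δ^L H_1(y/δ)`, `H_1(y) = Ψ(y) ∏_{i ∈ u} y_i` smooth with compact support, so
`‖D^m H_δ‖ ≤ C δ^(L-m) ≤ C δ^(L-M)` for `m ≤ M`; by `norm_iteratedFDeriv_comp_le` and
`norm_iteratedFDeriv_mul_le` all derivatives of order `≤ M` of `H_δ(ρ̃) F` are `≤ C' δ^(L-M)`, so
`|T(ρ_u F)| ≤ C'' δ^(L - M) → 0`.  So `M0 = M + 1` works.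
-/

set_option linter.unusedSectionVars false

namespace Pool.Agent.Work.MP_dd0ddf_al.AR

open scoped SchwartzMap Matrix.Norms.Elementwise ComplexConjugate ContDiff Topology LineDeriv
open Matrix MeasureTheory Filter

noncomputable section

variable {n : ℕ}

private lemma bdd_deriv {E F : Type*} [NormedAddCommGroup E] [NormedSpace ℝ E]
    [NormedAddCommGroup F] [NormedSpace ℝ F] {f : E → F} (hf : ContDiff ℝ ∞ f)
    (hc : HasCompactSupport f) (M : ℕ) :
    ∃ C : ℝ, 1 ≤ C ∧ ∀ m ≤ M, ∀ x, ‖iteratedFDeriv ℝ m f x‖ ≤ C := by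
  have h : ∀ m : ℕ, ∃ C, ∀ x, ‖iteratedFDeriv ℝ m f x‖ ≤ C := fun m =>
    (hc.iteratedFDeriv m).exists_bound_of_continuous
      (hf.continuous_iteratedFDeriv (by exact_mod_cast le_top))
  choose C hC using h
  refine ⟨1 + ∑ m ∈ Finset.range (M + 1), |C m|, ?_, ?_⟩
  · have : 0 ≤ ∑ m ∈ Finset.range (M + 1), |C m| := Finset.sum_nonneg fun _ _ => abs_nonneg _
    linarith
  · intro m hm x
    have h1 : |C m| ≤ ∑ m ∈ Finset.range (M + 1), |C m| :=
      Finset.single_le_sum (f := fun m => |C m|) (fun _ _ => abs_nonneg _)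
        (Finset.mem_range.mpr (Nat.lt_succ_of_le hm))
    have h2 := hC m x
    have h3 := le_abs_self (C m)
    linarith

private lemma cutoff {E : Type*} [NormedAddCommGroup E] [NormedSpace ℝ E]
    [FiniteDimensional ℝ E] {S U : Set E} (hS : IsCompact S) (hU : IsOpen U) (h : S ⊆ U) :
    ∃ κ : E → ℝ, ContDiff ℝ ∞ κ ∧ HasCompactSupport κ ∧ tsupport κ ⊆ U ∧ ∀ x ∈ S, κ x = 1 := by
  have : ProperSpace E := FiniteDimensional.proper_real E
  obtain ⟨S', hS', h1, h2⟩ := exists_compact_between hS hU h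
  obtain ⟨f, hf0, hf1, _⟩ := exists_contMDiffMap_zero_one_of_isClosed (n := (⊤ : ℕ∞))
    (modelWithCornersSelf ℝ E) (isOpen_interior (s := S')).isClosed_compl hS.isClosed
    (Set.disjoint_left.mpr fun x hx hx' => hx (h1 hx'))
  have hts : tsupport (f : E → ℝ) ⊆ S' := by
    apply closure_minimal _ hS'.isClosed
    intro x hx
    by_contra hx'
    apply hx
    exact hf0 (fun hx'' => hx' (interior_subset hx''))
  refine ⟨f, f.contMDiff.contDiff, ?_, hts.trans h2, ?_⟩
  · exact HasCompactSupport.of_support_subset_isCompact hS' (subset_closure.trans hts)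
  · intro x hx
    exact hf1 hx

private lemma list_scale {ι : Type*} (c : ℝ) (y : ι → ℝ) (u : List ι) :
    (u.map (fun i => (c • y) i)).prod = c ^ u.length * (u.map (fun i => y i)).prod := by
  induction u with
  | nil => simp
  | cons i u ih =>
    rw [List.map_cons, List.prod_cons, ih, List.map_cons, List.prod_cons, List.length_cons,
      pow_succ, Pi.smul_apply, smul_eq_mul]
    ring

private lemma contDiff_word {ι : Type*} [Fintype ι] (u : List ι) :
    ContDiff ℝ ∞ (fun y : ι → ℝ => (u.map (fun i => y i)).prod) := by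
  induction u with
  | nil => simpa using contDiff_const
  | cons i u ih =>
    have : (fun y : ι → ℝ => ((i :: u).map (fun i => y i)).prod) =
        fun y => y i * (u.map (fun i => y i)).prod := by
      funext y
      rw [List.map_cons, List.prod_cons]
    rw [this]
    exact (contDiff_apply ℝ ℝ i).mul ih

theorem finite_order {Ω K : Set (Mat n)} (hΩ : IsOpen Ω) (hK : IsCompact K) (hKΩ : K ⊆ Ω)
    {T : (XX n → ℂ) →ₗ[ℂ] ℂ} (hT : IsDistK K T) {ι : Type*} [Fintype ι]
    (ρ : ι → Mat n → ℝ) (hρ : ∀ i, ContDiffOn ℝ ∞ (ρ i) Ω)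
    (h0 : ∀ F ∈ TFs (Ω ∩ {g | ∃ i, ρ i g ≠ 0}), T F = 0) :
    ∃ M0 : ℕ, ∀ u : List ι, M0 ≤ u.length → ∀ F ∈ TFK K,
      T (mG (fun g => (((u.map (fun i => ρ i g)).prod : ℝ) : ℂ)) F) = 0 := by
  classical
  obtain ⟨C, M, hCM⟩ := hT
  refine ⟨M + 1, fun u hu F hF => ?_⟩
  have hFs : ContDiff ℝ ∞ F := hF.1
  have hFc : HasCompactSupport F := hF.2.1
  have hF0 : ∀ x : XX n, x.1 ∉ K → F x = 0 := hF.2.2
  have hsub : tsupport F ⊆ Ω ×ˢ (Set.univ : Set (Fin n → ℝ)) := by
    have h1 : tsupport F ⊆ K ×ˢ (Set.univ : Set (Fin n → ℝ)) := by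
      apply closure_minimal _ (hK.isClosed.prod isClosed_univ)
      intro x hx
      refine ⟨?_, Set.mem_univ _⟩
      by_contra hx'
      exact hx (hF0 x hx')
    exact h1.trans (Set.prod_mono hKΩ subset_rfl)
  obtain ⟨κ, hκs, hκc, hκΩ, hκ1⟩ := cutoff hFc.isCompact (hΩ.prod isOpen_univ) hsub
  set Φ : XX n → ι → ℝ := fun x i => κ x * ρ i x.1 with hΦdef
  have hΦs : ContDiff ℝ ∞ Φ := by
    rw [contDiff_pi]
    intro i
    rw [contDiff_iff_contDiffAt]
    intro x
    by_cases hx : x ∈ Ω ×ˢ (Set.univ : Set (Fin n → ℝ))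
    · have h1 : ContDiffAt ℝ ∞ (ρ i) x.1 := (hρ i).contDiffAt (hΩ.mem_nhds hx.1)
      exact hκs.contDiffAt.mul (h1.comp x contDiffAt_fst)
    · have h1 : x ∉ tsupport κ := fun h => hx (hκΩ h)
      have h2 : κ =ᶠ[𝓝 x] 0 := notMem_tsupport_iff_eventuallyEq.mp h1
      have h3 : (fun x => Φ x i) =ᶠ[𝓝 x] fun _ => 0 := by
        filter_upwards [h2] with y hy
        show κ y * ρ i y.1 = 0
        rw [hy]
        simp
      exact contDiffAt_const.congr_of_eventuallyEq h3
  have hΦc : HasCompactSupport Φ := by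
    apply hκc.mono
    intro x hx
    by_contra hx'
    apply hx
    funext i
    show κ x * ρ i x.1 = 0
    rw [Function.notMem_support.mp hx']
    simp
  have hΦ1 : ∀ x, F x ≠ 0 → ∀ i, Φ x i = ρ i x.1 := by
    intro x hx i
    show κ x * ρ i x.1 = ρ i x.1
    rw [hκ1 x (subset_tsupport F hx), one_mul]
  let Ψ : ContDiffBump (0 : ι → ℝ) := ⟨1 / 2, 1, by norm_num, by norm_num⟩
  have hΨs : ContDiff ℝ ∞ (Ψ : (ι → ℝ) → ℝ) := Ψ.contDiff
  have hPs : ContDiff ℝ ∞ (fun y : ι → ℝ => (u.map (fun i => y i)).prod) := contDiff_word u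
  set H : (ι → ℝ) → ℝ := fun y => Ψ y * (u.map (fun i => y i)).prod with hHdef
  have hHs : ContDiff ℝ ∞ H := hΨs.mul hPs
  have hHc : HasCompactSupport H := by
    apply Ψ.hasCompactSupport.mono
    intro y hy
    by_contra hy'
    apply hy
    show Ψ y * (u.map (fun i => y i)).prod = 0
    rw [Function.notMem_support.mp hy', zero_mul]
  obtain ⟨A, hA1, hA⟩ := bdd_deriv hΦs hΦc M
  obtain ⟨B, hB1, hB⟩ := bdd_deriv hHs hHc M
  obtain ⟨D, hD1, hD⟩ := bdd_deriv hFs hFc M
  set K0 : ℝ := 2 ^ M * (M.factorial * B * A ^ M) * D with hK0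
  have hK0n : 0 ≤ K0 := by positivity
  have key : ∀ δ : ℝ, 0 < δ → δ ≤ 1 →
      ‖T (mG (fun g => (((u.map (fun i => ρ i g)).prod : ℝ) : ℂ)) F)‖ ≤ |C| * K0 * δ := by
    intro δ hδ hδ1
    set f : XX n → ℝ := fun x => δ ^ u.length • H (δ⁻¹ • Φ x) with hfdef
    set G : XX n → ℂ := fun x => f x • F x with hGdef
    set S : XX n → ℂ := fun x =>
      ((1 - Ψ (δ⁻¹ • Φ x)) * (u.map (fun i => Φ x i)).prod) • F x with hSdef
    have hgs : ContDiff ℝ ∞ (fun x => δ⁻¹ • Φ x) := hΦs.const_smul δ⁻¹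
    have hHg : ContDiff ℝ ∞ (fun x => H (δ⁻¹ • Φ x)) := hHs.comp hgs
    have hfs : ContDiff ℝ ∞ f := hHg.const_smul (δ ^ u.length)
    have hGm : G ∈ TFK K := by
      refine ⟨hfs.smul hFs, hFc.mono ?_, ?_⟩
      · intro x hx
        by_contra hx'
        apply hx
        show f x • F x = 0
        rw [Function.notMem_support.mp hx', smul_zero]
      · intro x hx
        show f x • F x = 0
        rw [hF0 x hx, smul_zero]
    have hSs : ContDiff ℝ ∞ S :=
      ((contDiff_const.sub (hΨs.comp hgs)).mul (hPs.comp hΦs)).smul hFs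
    have hsum : mG (fun g => (((u.map (fun i => ρ i g)).prod : ℝ) : ℂ)) F = G + S := by
      funext x
      show (((u.map (fun i => ρ i x.1)).prod : ℝ) : ℂ) * F x = f x • F x +
        ((1 - Ψ (δ⁻¹ • Φ x)) * (u.map (fun i => Φ x i)).prod) • F x
      by_cases hx : F x = 0
      · rw [hx]; simp
      · have h1 : (u.map (fun i => ρ i x.1)) = u.map (fun i => Φ x i) := by
          apply List.map_congr_left
          intro i _
          exact (hΦ1 x hx i).symm
        have h2 : f x = Ψ (δ⁻¹ • Φ x) * (u.map (fun i => Φ x i)).prod := by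
          show δ ^ u.length • (Ψ (δ⁻¹ • Φ x) * (u.map (fun i => (δ⁻¹ • Φ x) i)).prod) = _
          rw [list_scale, smul_eq_mul, inv_pow]
          field_simp
        rw [h1, h2, ← add_smul, ← add_mul, add_sub_cancel, one_mul, Complex.real_smul]
    have hSz : T S = 0 := by
      apply h0
      refine ⟨K ∩ {g | δ / 2 ≤ ‖fun i => ρ i g‖}, ?_, ?_, hSs, ?_, ?_⟩
      · have hcont : ContinuousOn (fun g => ‖fun i => ρ i g‖) K := by
          apply ContinuousOn.norm
          rw [continuousOn_pi]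
          intro i
          exact (hρ i).continuousOn.mono hKΩ
        have hcl : IsClosed (K ∩ (fun g => ‖fun i => ρ i g‖) ⁻¹' (Set.Ici (δ / 2))) :=
          hcont.preimage_isClosed_of_isClosed hK.isClosed isClosed_Ici
        exact hK.of_isClosed_subset hcl Set.inter_subset_left
      · rintro g ⟨hg, hg'⟩
        refine ⟨hKΩ hg, ?_⟩
        by_contra hne
        have hz : (fun i => ρ i g) = 0 := by
          funext i
          by_contra hi
          exact hne ⟨i, hi⟩
        have hg'' : δ / 2 ≤ ‖fun i => ρ i g‖ := hg'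
        rw [hz, norm_zero] at hg''
        linarith
      · apply hFc.mono
        intro x hx
        by_contra hx'
        apply hx
        show ((1 - Ψ (δ⁻¹ • Φ x)) * (u.map (fun i => Φ x i)).prod) • F x = 0
        rw [Function.notMem_support.mp hx', smul_zero]
      · intro x hx
        show ((1 - Ψ (δ⁻¹ • Φ x)) * (u.map (fun i => Φ x i)).prod) • F x = 0
        by_cases hFx : F x = 0
        · rw [hFx, smul_zero]
        · have hxK : x.1 ∈ K := by
            by_contra h
            exact hFx (hF0 x h)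
          have h1 : ‖fun i => ρ i x.1‖ < δ / 2 := by
            by_contra h
            exact hx ⟨hxK, not_lt.mp h⟩
          have h2 : Φ x = fun i => ρ i x.1 := by
            funext i
            exact hΦ1 x hFx i
          have h3 : Ψ (δ⁻¹ • Φ x) = 1 := by
            apply Ψ.one_of_mem_closedBall
            rw [mem_closedBall_zero_iff, norm_smul, norm_inv, Real.norm_of_nonneg hδ.le, h2]
            show δ⁻¹ * ‖fun i => ρ i x.1‖ ≤ 1 / 2
            rw [inv_mul_le_iff₀ hδ]
            linarith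
          rw [h3, sub_self, zero_mul, zero_smul]
    have hbound : ∀ m ≤ M, ∀ x, ‖iteratedFDeriv ℝ m G x‖ ≤ K0 * δ := by
      intro m hm x
      have hAδ : 1 ≤ A / δ := by
        rw [le_div_iff₀ hδ]
        linarith
      have hX : ∀ i ≤ M, ‖iteratedFDeriv ℝ i f x‖ ≤
          δ ^ u.length * (M.factorial * B * (A / δ) ^ M) := by
        intro i hi
        have e1 : iteratedFDeriv ℝ i f x =
            δ ^ u.length • iteratedFDeriv ℝ i (fun x => H (δ⁻¹ • Φ x)) x := by
          have hH' : ContDiffAt ℝ i (fun x => H (δ⁻¹ • Φ x)) x :=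
            (hHg.of_le (by exact_mod_cast le_top)).contDiffAt
          exact iteratedFDeriv_const_smul_apply' hH'
        rw [e1, norm_smul, Real.norm_of_nonneg (pow_nonneg hδ.le _)]
        apply mul_le_mul_of_nonneg_left _ (pow_nonneg hδ.le _)
        have h2 : ‖iteratedFDeriv ℝ i (H ∘ fun x => δ⁻¹ • Φ x) x‖ ≤
            i.factorial * B * (A / δ) ^ i := by
          apply norm_iteratedFDeriv_comp_le hHs hgs (by exact_mod_cast le_top)
          · intro j hj
            exact hB j (hj.trans hi) _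
          · intro j hj1 hj
            have e2 : iteratedFDeriv ℝ j (fun x => δ⁻¹ • Φ x) x =
                δ⁻¹ • iteratedFDeriv ℝ j Φ x :=
              iteratedFDeriv_const_smul_apply'
                (hΦs.of_le (m := (j : ℕ∞ω)) (by exact_mod_cast le_top)).contDiffAt
            rw [e2, norm_smul, norm_inv, Real.norm_of_nonneg hδ.le]
            have h3 := hA j (hj.trans hi) x
            calc δ⁻¹ * ‖iteratedFDeriv ℝ j Φ x‖ ≤ δ⁻¹ * A :=
                  mul_le_mul_of_nonneg_left h3 (inv_nonneg.mpr hδ.le)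
              _ = A / δ := by ring
              _ = (A / δ) ^ 1 := (pow_one _).symm
              _ ≤ (A / δ) ^ j := pow_le_pow_right₀ hAδ hj1
        refine h2.trans ?_
        have h4 : (i.factorial : ℝ) ≤ M.factorial := by
          exact_mod_cast Nat.factorial_le hi
        have h5 : (A / δ) ^ i ≤ (A / δ) ^ M := pow_le_pow_right₀ hAδ hi
        have h6 : (0 : ℝ) ≤ (A / δ) ^ i := by positivity
        have h7 : (0 : ℝ) ≤ i.factorial := by positivity
        gcongr
      have h1 := norm_iteratedFDeriv_smul_le (n := m) hfs hFs x (by exact_mod_cast le_top)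
      refine h1.trans ?_
      have hY : (0 : ℝ) ≤ δ ^ u.length * (M.factorial * B * (A / δ) ^ M) := by positivity
      have h2 : ∑ i ∈ Finset.range (m + 1),
          (m.choose i : ℝ) * ‖iteratedFDeriv ℝ i f x‖ * ‖iteratedFDeriv ℝ (m - i) F x‖ ≤
          ∑ i ∈ Finset.range (m + 1),
            (m.choose i : ℝ) * ((δ ^ u.length * (M.factorial * B * (A / δ) ^ M)) * D) := by
        apply Finset.sum_le_sum
        intro i hi
        have hi' : i ≤ m := Nat.lt_succ_iff.mp (Finset.mem_range.mp hi)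
        rw [mul_assoc]
        apply mul_le_mul_of_nonneg_left _ (Nat.cast_nonneg _)
        exact mul_le_mul (hX i (hi'.trans hm)) (hD (m - i) ((Nat.sub_le _ _).trans hm) x)
          (norm_nonneg _) hY
      refine h2.trans ?_
      rw [← Finset.sum_mul]
      have h3 : ∑ i ∈ Finset.range (m + 1), (m.choose i : ℝ) = 2 ^ m := by
        exact_mod_cast Nat.sum_range_choose m
      rw [h3]
      have h4 : (2 : ℝ) ^ m ≤ 2 ^ M := pow_le_pow_right₀ (by norm_num) hm
      have h5 : δ ^ u.length * (M.factorial * B * (A / δ) ^ M) ≤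
          (M.factorial * B * A ^ M) * δ := by
        have h6 : δ ^ u.length ≤ δ ^ (M + 1) := pow_le_pow_of_le_one hδ.le hδ1 hu
        have h7 : δ ^ (M + 1) * (M.factorial * B * (A / δ) ^ M) =
            (M.factorial * B * A ^ M) * δ := by
          rw [div_pow, pow_succ]
          field_simp
        rw [← h7]
        exact mul_le_mul_of_nonneg_right h6 (by positivity)
      calc 2 ^ m * (δ ^ u.length * (M.factorial * B * (A / δ) ^ M) * D)
          ≤ 2 ^ M * ((M.factorial * B * A ^ M) * δ * D) := by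
            apply mul_le_mul h4 _ (by positivity) (by positivity)
            exact mul_le_mul_of_nonneg_right h5 (by linarith)
        _ = K0 * δ := by rw [hK0]; ring
    rw [hsum, map_add, hSz, add_zero]
    have h1 := hCM G hGm (K0 * δ) hbound
    calc ‖T G‖ ≤ C * (K0 * δ) := h1
      _ ≤ |C| * (K0 * δ) := mul_le_mul_of_nonneg_right (le_abs_self C) (by positivity)
      _ = |C| * K0 * δ := by ring
  by_contra hne
  set t : ℝ := ‖T (mG (fun g => (((u.map (fun i => ρ i g)).prod : ℝ) : ℂ)) F)‖ with ht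
  have htpos : 0 < t := norm_pos_iff.mpr hne
  set c : ℝ := |C| * K0 with hc
  have hc0 : 0 ≤ c := by positivity
  have h1 := key (min 1 (t / (2 * (c + 1)))) (lt_min one_pos (by positivity)) (min_le_left _ _)
  have h2 : c * min 1 (t / (2 * (c + 1))) ≤ c * (t / (2 * (c + 1))) :=
    mul_le_mul_of_nonneg_left (min_le_right _ _) hc0
  have h3 : c * (t / (2 * (c + 1))) ≤ t / 2 := by
    rw [mul_div_assoc', div_le_div_iff₀ (by positivity) (by norm_num)]
    nlinarith
  linarith

end

end Pool.Agent.Work.MP_dd0ddf_al.AR
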