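import Pool.Agent.Work.MP_dd0ddf_al.AR.Op

/-!
# Ladder (M): the ladder argument, pure algebra

`M` is a complex vector space, `A, B, A', B', R` endomorphisms, `T` a linear functional,
`Q = (1/a) (B A' - B' A)`.

(1) `A Q = Q A + A - R A'`: `A B A' = (B A - a R) A'`, `A B' A = (B' A - a) A`, `A A' = A' A`.
    Hence `A^k Q = Q A^k + k A^k - (R ...)`, and as `T R = 0`, `R` commutes with everything and
    `T Q = lam T` (hypothesis `hQ`): `T (A^k Q x) = (lam + k) T (A^k x)`.
(2) `T (A^k B y) = 0` for `k ≥ 1`: `A^k B = B A^k - k a R A^(k-1)`, so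
    `T (A^k B y) = T (B A (A^(k-1) y)) = 0`.
(3) `k ≥ 1` and `T A^(k+1) = 0` imply `T A^k = 0`: `B' A x = A B' x + a x`, so
    `T (A^k Q x) = (1/a) (T (A^k B A' x) - T (A^(k+1) B' x) - a T (A^k x)) = - T (A^k x)`, together
    with (1): `(lam + k + 1) T (A^k x) = 0`, and `Re (lam + k + 1) > 0`.
    Descending induction from `N` (if `T A^N = 0` then `T A^(N+1) = 0` ...): `T (A x) = 0`.
(4) The same with `B`: `B Q = Q B + B - R B'` (`B A' B = B (B A' - a)`,
    `B' A B = B' (B A - a R)`), so `T (B^k Q x) = (lam + k) T (B^k x)`; `T (B^k A y) = 0` for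
    `k ≥ 1` (`B^(k-1) (B A) = (B A) B^(k-1) + R ...`); if `T B^(k+1) = 0`:
    `T (B^k Q x) = (1/a) (0 - T (B^k (A B' x + a x))) = - T (B^k x)`.  So `T (B x) = 0`.
(5) `lam T x = T (Q x) = (1/a) (0 - T (A B' x + a x)) = - T x`, `lam ≠ -1`, so `T = 0`.
-/

set_option linter.unusedSectionVars false

namespace Pool.Agent.Work.MP_dd0ddf_al.AR

open scoped SchwartzMap Matrix.Norms.Elementwise ComplexConjugate ContDiff Topology LineDeriv
open Matrix MeasureTheory Filter

noncomputable section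

variable {n : ℕ}

private theorem ladder_pow {M : Type*} [AddCommGroup M] [Module ℂ M] (A : M →ₗ[ℂ] M) (k : ℕ)
    (x : M) : (A ^ (k + 1)) x = A ((A ^ k) x) := by
  rw [pow_succ']
  rfl

private theorem ladder_pow' {M : Type*} [AddCommGroup M] [Module ℂ M] (A : M →ₗ[ℂ] M) (k : ℕ)
    (x : M) : (A ^ (k + 1)) x = (A ^ k) (A x) := by
  rw [pow_succ]
  rfl

private theorem ladder_comm {M : Type*} [AddCommGroup M] [Module ℂ M] (A R q : M →ₗ[ℂ] M)
    (a : ℂ) (S : M →ₗ[ℂ] M) (hRA : ∀ x, R (A x) = A (R x))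
    (hq : ∀ x, A (q x) = q (A x) + a • A x - R (S x)) (k : ℕ) (x : M) :
    ∃ z, (A ^ k) (q x) = q ((A ^ k) x) + ((k : ℂ) * a) • (A ^ k) x + R z := by
  induction k with
  | zero =>
    refine ⟨0, ?_⟩
    simp
  | succ k ih =>
    obtain ⟨z, hz⟩ := ih
    refine ⟨A z - S ((A ^ k) x), ?_⟩
    rw [ladder_pow, hz, ladder_pow, map_add, map_add, hq, map_smul, map_sub, hRA]
    push_cast
    module

/-- the descending induction -/
private theorem ladder_desc {M : Type*} [AddCommGroup M] [Module ℂ M] (A : M →ₗ[ℂ] M)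
    (T : M →ₗ[ℂ] ℂ) (h : ∀ k : ℕ, (∀ x, T ((A ^ (k + 2)) x) = 0) → ∀ x, T ((A ^ (k + 1)) x) = 0)
    (N : ℕ) (hN : ∀ x, T ((A ^ N) x) = 0) : ∀ x, T (A x) = 0 := by
  induction N with
  | zero =>
    intro x
    have := hN (A x)
    simpa using this
  | succ N ih =>
    cases N with
    | zero =>
      intro x
      have := hN x
      simpa using this
    | succ m => exact ih (h m hN)

private theorem ladder_ne {lam : ℂ} (hlam : -1 < lam.re) (k : ℕ) : lam + (k : ℂ) + 1 ≠ 0 := by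
  intro h
  have h1 : (lam + (k : ℂ) + 1).re = 0 := by rw [h]; rfl
  simp only [Complex.add_re, Complex.natCast_re, Complex.one_re] at h1
  have h2 : (0 : ℝ) ≤ k := Nat.cast_nonneg k
  linarith

private theorem ladder_step {a lam t : ℂ} (ha : a ≠ 0) (hlam : -1 < lam.re) (k : ℕ)
    (h : a * (lam + k) * t = - (a * t)) : t = 0 := by
  have h1 : a * ((lam + (k : ℂ) + 1) * t) = 0 := by linear_combination h
  rcases mul_eq_zero.1 h1 with h2 | h2
  · exact absurd h2 ha
  · rcases mul_eq_zero.1 h2 with h3 | h3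
    · exact absurd h3 (ladder_ne hlam k)
    · exact h3

theorem ladder {M : Type*} [AddCommGroup M] [Module ℂ M] (A B A' B' R : M →ₗ[ℂ] M)
    (T : M →ₗ[ℂ] ℂ) (a : ℂ) (ha : a ≠ 0) (lam : ℂ)
    (hAB : ∀ x, A (B x) = B (A x) - a • R x)
    (hA'B : ∀ x, A' (B x) = B (A' x) - a • x)
    (hAB' : ∀ x, A (B' x) = B' (A x) - a • x)
    (hAA' : ∀ x, A (A' x) = A' (A x)) (hBB' : ∀ x, B (B' x) = B' (B x))
    (hRA : ∀ x, R (A x) = A (R x)) (hRB : ∀ x, R (B x) = B (R x))
    (hRA' : ∀ x, R (A' x) = A' (R x)) (hRB' : ∀ x, R (B' x) = B' (R x))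
    (hTR : ∀ x, T (R x) = 0) (hTBA : ∀ x, T (B (A x)) = 0)
    (hQ : ∀ x, (1 / a) * (T (B (A' x)) - T (B' (A x))) = lam * T x)
    (N : ℕ) (hA : ∀ x, T ((A ^ N) x) = 0) (hB : ∀ x, T ((B ^ N) x) = 0)
    (hlam : -1 < lam.re) : ∀ x, T x = 0 := by
  set q : M →ₗ[ℂ] M := B.comp A' - B'.comp A with hqd
  have hqa : ∀ x, q x = B (A' x) - B' (A x) := fun x => rfl
  have hTq : ∀ x, T (q x) = a * lam * T x := by
    intro x
    rw [hqa, map_sub]
    have h := hQ x
    field_simp at h
    rw [h]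
  have hqA : ∀ x, A (q x) = q (A x) + a • A x - R ((a • A') x) := by
    intro x
    rw [hqa, hqa, map_sub, hAB, hAB', hAA', LinearMap.smul_apply, map_smul]
    module
  have hqB : ∀ x, B (q x) = q (B x) + a • B x - R ((a • B') x) := by
    intro x
    have h1 : B (A' x) = A' (B x) + a • x := by rw [hA'B]; module
    have h2 : B (A x) = A (B x) + a • R x := by rw [hAB]; module
    rw [hqa, hqa, map_sub, h1, map_add, map_smul, hBB', h2, map_add, map_smul,
      LinearMap.smul_apply, map_smul, hRB']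
    module
  have hBA : ∀ k x, ∃ z, (B ^ k) (B (A x)) = B (A ((B ^ k) x)) + R z := by
    intro k x
    induction k with
    | zero =>
      refine ⟨0, ?_⟩
      simp
    | succ k ih =>
      obtain ⟨z, hz⟩ := ih
      refine ⟨a • B ((B ^ k) x) + B z, ?_⟩
      rw [ladder_pow, hz, ladder_pow, map_add, hAB, map_sub, map_smul, map_add, map_smul, hRB,
        hRB]
      module
  have hABk : ∀ k x, ∃ z, (A ^ k) (B x) = B ((A ^ k) x) + R z := by
    intro k x
    induction k with
    | zero =>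
      refine ⟨0, ?_⟩
      simp
    | succ k ih =>
      obtain ⟨z, hz⟩ := ih
      refine ⟨A z - a • (A ^ k) x, ?_⟩
      rw [ladder_pow, hz, ladder_pow, map_add, hAB, map_sub, map_smul, hRA]
      module
  have hB'A : ∀ x, B' (A x) = A (B' x) + a • x := by
    intro x
    rw [hAB']
    module
  -- T A = 0
  have hTA : ∀ x, T (A x) = 0 := by
    refine ladder_desc A T ?_ N hA
    intro k hk x
    obtain ⟨z, hz⟩ := ladder_comm A R q a (a • A') hRA hqA (k + 1) x
    have e1 : T ((A ^ (k + 1)) (q x)) = a * (lam + ((k + 1 : ℕ) : ℂ)) * T ((A ^ (k + 1)) x) := by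
      rw [hz, map_add, map_add, hTR, hTq, map_smul, smul_eq_mul]
      ring
    have e2 : T ((A ^ (k + 1)) (q x)) = - (a * T ((A ^ (k + 1)) x)) := by
      obtain ⟨z', hz'⟩ := hABk (k + 1) (A' x)
      have e3 : T ((A ^ (k + 1)) (B (A' x))) = 0 := by
        rw [hz', map_add, hTR, ladder_pow, hTBA, add_zero]
      have e4 : T ((A ^ (k + 1)) (A (B' x))) = 0 := by
        have := hk (B' x)
        rwa [ladder_pow'] at this
      rw [hqa, map_sub, map_sub, e3, hB'A, map_add, map_add, e4, map_smul, map_smul, smul_eq_mul]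
      ring
    exact ladder_step ha hlam (k + 1) (e1.symm.trans e2)
  -- T B = 0
  have hTB : ∀ x, T (B x) = 0 := by
    refine ladder_desc B T ?_ N hB
    intro k hk x
    obtain ⟨z, hz⟩ := ladder_comm B R q a (a • B') hRB hqB (k + 1) x
    have e1 : T ((B ^ (k + 1)) (q x)) = a * (lam + ((k + 1 : ℕ) : ℂ)) * T ((B ^ (k + 1)) x) := by
      rw [hz, map_add, map_add, hTR, hTq, map_smul, smul_eq_mul]
      ring
    have e2 : T ((B ^ (k + 1)) (q x)) = - (a * T ((B ^ (k + 1)) x)) := by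
      have e3 : T ((B ^ (k + 1)) (B (A' x))) = 0 := by
        have := hk (A' x)
        rwa [ladder_pow'] at this
      have e4 : T ((B ^ (k + 1)) (A (B' x))) = 0 := by
        obtain ⟨z', hz'⟩ := hBA k (B' x)
        rw [ladder_pow', hz', map_add, hTR, hTBA, add_zero]
      rw [hqa, map_sub, map_sub, e3, hB'A, map_add, map_add, e4, map_smul, map_smul, smul_eq_mul]
      ring
    exact ladder_step ha hlam (k + 1) (e1.symm.trans e2)
  intro x
  have h1 := hTq x
  rw [hqa, map_sub, hTB, hB'A, map_add, hTA, map_smul, smul_eq_mul] at h1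
  refine ladder_step ha hlam 0 (t := T x) ?_
  push_cast
  linear_combination -h1

end

end Pool.Agent.Work.MP_dd0ddf_al.AR
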