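import Pool.Agent.Work.MP_dd0ddf_al.AR.Nilp
import Pool.Agent.Work.MP_dd0ddf_al.AR.Ladder
import Pool.Agent.Work.MP_dd0ddf_al.AR.Heis

/-!
# LadT (S-M): the ladder lemma for functionals on test functions

Apply `ladder` to the vector space `TFK K` (a submodule), with the endomorphisms given by
`opA v`, `opB v`, `opA q`, `opB q`, `mG <v,v>` restricted to `TFK K` (linear by `opA_add`,
`opA_smul`, ...; they preserve `TFK K` by `opA_mem` ...), and `T` restricted to `TFK K`.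
The commutation relations are `opA_opB`, `opA_opA`, `opB_opB`, `opA_mG`, `opB_mG`; for `q` use
`<q, v> = 1` on `Ω`, so also `<v, q> = conj <q, v> = 1`, and `mG 1 F = F` for `F ∈ TFK K` (functions
of `TFK K` vanish outside `K ⊆ Ω`).  `hA`, `hB` come from `nilp` with `N + 1` (iterates of the
restricted operators are the iterates `(opA ε a v)^[k]`).
-/

set_option linter.unusedSectionVars false

namespace Pool.Agent.Work.MP_dd0ddf_al.AR

open scoped SchwartzMap Matrix.Norms.Elementwise ComplexConjugate ContDiff Topology LineDeriv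
open Matrix MeasureTheory Filter

noncomputable section

variable {n : ℕ}

/-- restriction of an operator to the space of test functions -/
private def resL {K : Set (Mat n)} (f : (XX n → ℂ) → (XX n → ℂ)) (hm : ∀ F ∈ TFK K, f F ∈ TFK K)
    (ha : ∀ F ∈ TFK K, ∀ G ∈ TFK K, f (F + G) = f F + f G)
    (hs : ∀ c : ℂ, ∀ F ∈ TFK K, f (c • F) = c • f F) : TFK K →ₗ[ℂ] TFK K where
  toFun F := ⟨f F.1, hm F.1 F.2⟩
  map_add' F G := Subtype.ext (ha F.1 F.2 G.1 G.2)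
  map_smul' c F := Subtype.ext (hs c F.1 F.2)

private theorem resL_pow {K : Set (Mat n)} (f : (XX n → ℂ) → (XX n → ℂ))
    (hm : ∀ F ∈ TFK K, f F ∈ TFK K) (ha : ∀ F ∈ TFK K, ∀ G ∈ TFK K, f (F + G) = f F + f G)
    (hs : ∀ c : ℂ, ∀ F ∈ TFK K, f (c • F) = c • f F) (k : ℕ) (F : TFK K) :
    (((resL f hm ha hs) ^ k) F).1 = f^[k] F.1 := by
  rw [Module.End.pow_apply]
  have h : Function.Semiconj (Subtype.val : TFK K → XX n → ℂ) (resL f hm ha hs) f := fun _ => rfl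
  exact h.iterate_right k F

private theorem hf_conj (ε : Fin n → ℝ) (x y : Fin n → ℂ) : conj (hf ε x y) = hf ε y x := by
  unfold hf
  rw [map_sum]
  refine Finset.sum_congr rfl fun j _ => ?_
  rw [map_mul, map_mul, Complex.conj_conj, Complex.conj_ofReal]
  ring

private theorem hf_smooth (ε : Fin n → ℝ) {Ω : Set (Mat n)} {v w : Mat n → Fin n → ℂ}
    (hv : ContDiffOn ℝ ∞ v Ω) (hw : ContDiffOn ℝ ∞ w Ω) :
    ContDiffOn ℝ ∞ (fun g => hf ε (v g) (w g)) Ω := by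
  unfold hf
  refine ContDiffOn.sum fun j _ => ?_
  have h1 : ContDiffOn ℝ ∞ (fun g => v g j) Ω := contDiffOn_pi.1 hv j
  have h2 : ContDiffOn ℝ ∞ (fun g => w g j) Ω := contDiffOn_pi.1 hw j
  have h3 : ContDiffOn ℝ ∞ (fun g => conj (w g j)) Ω :=
    Complex.conjCLE.contDiff.comp_contDiffOn h2
  exact (contDiffOn_const.mul h1).mul h3

private theorem mG_one {Ω K : Set (Mat n)} (hKΩ : K ⊆ Ω) {c : Mat n → ℂ} (hc : ∀ g ∈ Ω, c g = 1)
    {F : XX n → ℂ} (hF : F ∈ TFK K) : mG c F = F := by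
  funext x
  unfold mG
  by_cases hx : x.1 ∈ K
  · rw [hc _ (hKΩ hx), one_mul]
  · rw [hF.2.2 x hx, mul_zero]

theorem ladder_T (ε : Fin n → ℝ) (hε : ∀ j, ε j = 1 ∨ ε j = -1) (a : ℝ) (ha : a ≠ 0)
    {Ω K : Set (Mat n)} (hΩ : IsOpen Ω) (hK : IsCompact K) (hKΩ : K ⊆ Ω)
    {v q : Mat n → Fin n → ℂ} (hv : ContDiffOn ℝ ∞ v Ω) (hq : ContDiffOn ℝ ∞ q Ω)
    (hqv : ∀ g ∈ Ω, hf ε (q g) (v g) = 1) {T : (XX n → ℂ) →ₗ[ℂ] ℂ} (hT : IsDistK K T)
    (hR : ∀ F ∈ TFK K, T (mG (fun g => hf ε (v g) (v g)) F) = 0)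
    (hBA : ∀ F ∈ TFK K, T (opB ε a v (opA ε a v F)) = 0) (lam : ℂ) (hlam : -1 < lam.re)
    (hQ : ∀ F ∈ TFK K, (1 / a : ℂ) * (T (opB ε a v (opA ε a q F)) -
      T (opB ε a q (opA ε a v F))) = lam * T F) :
    ∀ F ∈ TFK K, T F = 0 := by
  have hvq : ∀ g ∈ Ω, hf ε (v g) (q g) = 1 := by
    intro g hg
    rw [← hf_conj, hqv g hg, map_one]
  have hc := hf_smooth ε hv hv
  obtain ⟨N, hN⟩ := nilp ε hε a hΩ hK hKΩ hv hT hR hBA
  have mA : ∀ {r : Mat n → Fin n → ℂ}, ContDiffOn ℝ ∞ r Ω → ∀ F ∈ TFK K, opA ε a r F ∈ TFK K :=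
    fun hr F hF => opA_mem ε a hΩ hK hKΩ hr hF
  have mB : ∀ {r : Mat n → Fin n → ℂ}, ContDiffOn ℝ ∞ r Ω → ∀ F ∈ TFK K, opB ε a r F ∈ TFK K :=
    fun hr F hF => opB_mem ε a hΩ hK hKΩ hr hF
  let A : TFK K →ₗ[ℂ] TFK K := resL (opA ε a v) (mA hv)
    (fun F hF G hG => opA_add ε a v hF hG) (fun c F hF => opA_smul ε a v c hF)
  let B : TFK K →ₗ[ℂ] TFK K := resL (opB ε a v) (mB hv)
    (fun F hF G hG => opB_add ε a v hF hG) (fun c F hF => opB_smul ε a v c hF)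
  let A' : TFK K →ₗ[ℂ] TFK K := resL (opA ε a q) (mA hq)
    (fun F hF G hG => opA_add ε a q hF hG) (fun c F hF => opA_smul ε a q c hF)
  let B' : TFK K →ₗ[ℂ] TFK K := resL (opB ε a q) (mB hq)
    (fun F hF G hG => opB_add ε a q hF hG) (fun c F hF => opB_smul ε a q c hF)
  let R : TFK K →ₗ[ℂ] TFK K := resL (mG (fun g => hf ε (v g) (v g)))
    (fun F hF => mG_mem hΩ hK hKΩ hc hF)
    (fun F _ G _ => by funext x; simp only [mG, Pi.add_apply, mul_add])
    (fun c F _ => by funext x; simp only [mG, Pi.smul_apply, smul_eq_mul]; ring)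
  have key := ladder A B A' B' R (T.comp (TFK K).subtype) (a : ℂ) (by exact_mod_cast ha) lam
    (fun x => Subtype.ext (opA_opB ε hε a hΩ hK hKΩ hv hv x.2))
    (fun x => Subtype.ext (by
      have h := opA_opB ε hε a hΩ hK hKΩ hq hv x.2
      rw [mG_one hKΩ hqv x.2] at h
      exact h))
    (fun x => Subtype.ext (by
      have h := opA_opB ε hε a hΩ hK hKΩ hv hq x.2
      rw [mG_one hKΩ hvq x.2] at h
      exact h))
    (fun x => Subtype.ext (opA_opA ε a hΩ hK hKΩ hv hq x.2))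
    (fun x => Subtype.ext (opB_opB ε a hΩ hK hKΩ hv hq x.2))
    (fun x => Subtype.ext (opA_mG ε a hΩ hK hKΩ hc v x.2).symm)
    (fun x => Subtype.ext (opB_mG ε a hΩ hK hKΩ hc v x.2).symm)
    (fun x => Subtype.ext (opA_mG ε a hΩ hK hKΩ hc q x.2).symm)
    (fun x => Subtype.ext (opB_mG ε a hΩ hK hKΩ hc q x.2).symm)
    (fun x => hR x.1 x.2) (fun x => hBA x.1 x.2) (fun x => hQ x.1 x.2) (N + 1)
    (fun x => by
      show T (((A ^ (N + 1)) x).1) = 0
      rw [resL_pow]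
      exact (hN (N + 1) (Nat.lt_succ_self N) x.1 x.2).1)
    (fun x => by
      show T (((B ^ (N + 1)) x).1) = 0
      rw [resL_pow]
      exact (hN (N + 1) (Nat.lt_succ_self N) x.1 x.2).2)
    hlam
  intro F hF
  exact key ⟨F, hF⟩

end

end Pool.Agent.Work.MP_dd0ddf_al.AR
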