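import Pool.Agent.Work.MP_dd0ddf_al.AR.VF
import Pool.Agent.Work.MP_dd0ddf_al.AR.Left
import Pool.Agent.Work.MP_dd0ddf_al.AR.DivR2
import Pool.Agent.Work.MP_dd0ddf_al.AR.Obj
import Pool.Agent.Work.MP_dd0ddf_al.AR.GSc

/-!
# StepR2 (S-M): the second relation

`Ω = Om ε m i`, open, `v = vv ε m`, `q = qq ε m i`, `<q,v> = 1 = <v,q>` on `Ω`.  `vf`:
`T (dG (g Xm v q) F) = (1/a)(T(opB v opA q F) - T(opB q opA v F)) + 0`.
On `Ω`: `g Xm v q = Y2 g · g = (Y2 - Ye) g + Ye g`, so `dG (g Xm v q) F = dG ((Y2-Ye) g) F + dG (Ye g) F`,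
and `left_eq` with `Yb_upper`, `Yb_diag`, `divb_Yb` gives
`T (dG ((Y2-Ye) g) F) = γ_i T F - γ_m T F + 2 (m - i) T F` (functions which agree on `Ω` give the same
`mG c F`).
-/

set_option linter.unusedSectionVars false

namespace Pool.Agent.Work.MP_dd0ddf_al.AR

open scoped SchwartzMap Matrix.Norms.Elementwise ComplexConjugate ContDiff Topology LineDeriv
open Matrix MeasureTheory Filter

noncomputable section

variable {n : ℕ}

private theorem fderiv_zero_of_not_mem {K : Set (Mat n)} (hK : IsCompact K) {F : XX n → ℂ}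
    (hF : F ∈ TFK K) {x : XX n} (hx : x.1 ∉ K) : fderiv ℝ F x = 0 := by
  have h1 : F =ᶠ[𝓝 x] fun _ => (0 : ℂ) := by
    have ho : IsOpen {y : XX n | y.1 ∉ K} :=
      (hK.isClosed.isOpen_compl).preimage continuous_fst
    filter_upwards [ho.mem_nhds hx] with y hy
    exact hF.2.2 y hy
  rw [h1.fderiv_eq]
  simp

private theorem mG_congr {Ω : Set (Mat n)} {F : XX n → ℂ} (hF : F ∈ TFs Ω) {c c' : Mat n → ℂ}
    (h : ∀ g ∈ Ω, c g = c' g) : mG c F = mG c' F := by
  obtain ⟨K, hK, hKΩ, hFK⟩ := hF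
  funext x
  unfold mG
  by_cases hx : x.1 ∈ K
  · rw [h x.1 (hKΩ hx)]
  · rw [hFK.2.2 x hx]
    simp

private theorem mG_const (z : ℂ) (F : XX n → ℂ) : mG (fun _ => z) F = z • F := by
  funext x
  simp [mG]

private theorem dG_congr {Ω : Set (Mat n)} {F : XX n → ℂ} (hF : F ∈ TFs Ω)
    {X X' : Mat n → Mat n} (h : ∀ g ∈ Ω, X g = X' g) : dG X F = dG X' F := by
  obtain ⟨K, hK, hKΩ, hFK⟩ := hF
  funext x
  unfold dG
  by_cases hx : x.1 ∈ K
  · rw [h x.1 (hKΩ hx)]
  · rw [fderiv_zero_of_not_mem hK hFK hx]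
    simp

theorem step_R2 {ε : Fin n → ℝ} {a : ℝ} {γ γ' : Fin n → ℂ} {c1 : ℂ} {m i : Fin n}
    (him : i < m) {T : (XX n → ℂ) →ₗ[ℂ] ℂ} (hS : Sys ε a γ γ' c1 (Om ε m i) T)
    {F : XX n → ℂ} (hF : F ∈ TFs (Om ε m i)) :
    (1 / a : ℂ) * (T (opB ε a (vv ε m) (opA ε a (qq ε m i) F)) -
        T (opB ε a (qq ε m i) (opA ε a (vv ε m) F))) =
      (γ i - γ m + 2 * (((m : ℕ) : ℂ) - ((i : ℕ) : ℂ))) * T F +
        T (dG (fun g => Ye ε m i g * g) F) := by
  have hΩ : IsOpen (Om ε m i) := isOpen_Om ε m i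
  have hsub : Om ε m i ⊆ Od ε ((m : ℕ) + 1) := Set.inter_subset_left
  have hvv : ContDiffOn ℝ ∞ (vv ε m) (Om ε m i) := contDiffOn_vv hsub
  have hqq : ContDiffOn ℝ ∞ (qq ε m i) (Om ε m i) := contDiffOn_qq i
  have hvH : InfH ε (Om ε m i) (vv ε m) := infH_vv hΩ hsub
  have hqH : InfH ε (Om ε m i) (qq ε m i) := infH_qq i
  have key := vf hΩ hS hvv hqq hvH hqH hF
  have hz : mG (fun g => hf ε (qq ε m i g) (vv ε m g) - hf ε (vv ε m g) (qq ε m i g)) F = 0 := by
    have h1 : mG (fun g => hf ε (qq ε m i g) (vv ε m g) - hf ε (vv ε m g) (qq ε m i g)) F =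
        mG (fun _ => (0 : ℂ)) F := by
      refine mG_congr hF ?_
      intro g hg
      have e1 : hf ε (qq ε m i g) (vv ε m g) = 1 := hf_qq_vv hg
      have e2 : hf ε (vv ε m g) (qq ε m i g) = 1 := by
        rw [← conj_hf, e1, map_one]
      simp only [e1, e2, sub_self]
    rw [h1, mG_const, zero_smul]
  rw [hz, map_zero, mul_zero, add_zero] at key
  rw [← key]
  have hfield : dG (fun g => g * Xm ε (vv ε m g) (qq ε m i g)) F =
      dG (fun g => (Y2 ε m i g - Ye ε m i g) * g) F + dG (fun g => Ye ε m i g * g) F := by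
    rw [← dG_add_field]
    refine dG_congr hF ?_
    intro g hg
    have hdet : IsUnit g.det := isUnit_iff_ne_zero.mpr (hsub hg).1
    show g * Xm ε (vv ε m g) (qq ε m i g) = (Y2 ε m i g - Ye ε m i g) * g + Ye ε m i g * g
    rw [← add_mul, sub_add_cancel]
    unfold Y2
    rw [Matrix.mul_assoc _ g⁻¹ g, Matrix.nonsing_inv_mul g hdet, Matrix.mul_one]
  rw [hfield, map_add]
  congr 1
  have hY : ContDiffOn ℝ ∞ (fun g => Y2 ε m i g - Ye ε m i g) (Om ε m i) :=
    (contDiffOn_Y2 ε m i).sub (contDiffOn_Ye ε m i)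
  have hleft := left_eq hΩ hS hY (fun g hg k l hkl => Yb_upper him hg hkl) hF
  have hleft' : T (dG (fun g => (Y2 ε m i g - Ye ε m i g) * g) F) =
      ∑ k, (γ k * T (mG (fun g => (((Y2 ε m i g - Ye ε m i g) k k).re : ℂ)) F) +
        γ' k * T (mG (fun g => (((Y2 ε m i g - Ye ε m i g) k k).im : ℂ)) F)) -
        T (mG (divb (fun g => Y2 ε m i g - Ye ε m i g)) F) := hleft
  rw [hleft']
  have hdiv : mG (divb (fun g => Y2 ε m i g - Ye ε m i g)) F =
      (-2 * (((m : ℕ) : ℂ) - ((i : ℕ) : ℂ))) • F := by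
    rw [← mG_const]
    refine mG_congr hF ?_
    intro g hg
    exact divb_Yb him hg
  have hre : ∀ k : Fin n, mG (fun g => (((Y2 ε m i g - Ye ε m i g) k k).re : ℂ)) F =
      (if k = i then (1 : ℂ) else if k = m then -1 else 0) • F := by
    intro k
    rw [← mG_const]
    refine mG_congr hF ?_
    intro g hg
    have e := Yb_diag him hg k
    show ((((Y2 ε m i g - Ye ε m i g) k k).re : ℝ) : ℂ) = _
    rw [e]
    split_ifs <;> simp
  have him' : ∀ k : Fin n, mG (fun g => (((Y2 ε m i g - Ye ε m i g) k k).im : ℂ)) F = 0 := by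
    intro k
    have h1 : mG (fun g => (((Y2 ε m i g - Ye ε m i g) k k).im : ℂ)) F =
        mG (fun _ => (0 : ℂ)) F := by
      refine mG_congr hF ?_
      intro g hg
      have e := Yb_diag him hg k
      show ((((Y2 ε m i g - Ye ε m i g) k k).im : ℝ) : ℂ) = _
      rw [e]
      split_ifs <;> simp
    rw [h1, mG_const, zero_smul]
  have hne : i ≠ m := ne_of_lt him
  have hsum : ∑ k, (γ k * T (mG (fun g => (((Y2 ε m i g - Ye ε m i g) k k).re : ℂ)) F) +
        γ' k * T (mG (fun g => (((Y2 ε m i g - Ye ε m i g) k k).im : ℂ)) F)) =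
      (γ i - γ m) * T F := by
    have h2 : ∀ k : Fin n,
        (γ k * T (mG (fun g => (((Y2 ε m i g - Ye ε m i g) k k).re : ℂ)) F) +
        γ' k * T (mG (fun g => (((Y2 ε m i g - Ye ε m i g) k k).im : ℂ)) F)) =
        (if k = i then γ k * T F else 0) + (if k = m then -(γ k * T F) else 0) := by
      intro k
      rw [hre k, him' k, map_zero, mul_zero, add_zero, map_smul, smul_eq_mul]
      by_cases h3 : k = i
      · have h4 : k ≠ m := by
          rw [h3]
          exact hne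
        simp [h3, hne]
      · by_cases h4 : k = m
        · simp [h4, hne.symm]
        · simp [h3, h4]
    rw [Finset.sum_congr rfl (fun k _ => h2 k), Finset.sum_add_distrib,
      Finset.sum_ite_eq' Finset.univ i, Finset.sum_ite_eq' Finset.univ m]
    simp
    ring
  rw [hsum, hdiv, map_smul, smul_eq_mul]
  ring

end

end Pool.Agent.Work.MP_dd0ddf_al.AR
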