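import Pool.Agent.Work.MP_dd0ddf_al.AR.TF1
import Pool.Agent.Work.MP_dd0ddf_al.AR.TF2

/-!
# Words (M): the Euler field on words

`wd ρ r α u = r^α ∏_{i ∈ u} ρ_i`, of weight `2 α + |u|`.  The vector field `E` is
`E = ∑ ρ_i E_i + r E_0` on `Ω`, with `E(ρ_i) = ρ_i + r c_i`, `E(r) = 2 r`.  `T` kills all
`wd ρ r α' u' · F` of weight bigger than the weight of `(α, u)`.  Then
`T (dG E (wd α u · F)) = (2 α + |u|) T (wd α u · F)`.
Proof: `dG E (β F) = β dG E F + (dg E β) F` (`dG_mG`).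
* `β dG E F = ∑ (β ρ_i) dG E_i F + (β r) dG E_0 F` (`dG_sum_field`, `dG_smul_field`, and `E` equals
  this sum on `Ω ⊇ K`, outside `K` the function `F` is locally `0`), words of weight `+1`, `+2`:
  killed (`dG E_i F ∈ TFK K`).
* On `Ω`: `E(r^α) = 2 α r^α`, and by induction on `u`: `E(∏_{i∈u} ρ_i) = |u| ∏ ρ_i + r ∑_p c_{u_p} ∏_{q≠p} ρ_{u_q}`.
  The terms `r^{α+1} ∏_{q ≠ p} ρ_{u_q} · c_{u_p} F` have weight `2(α+1) + |u| - 1`, bigger: killed.
  (A convenient form of the induction: for all words `u'` and all smooth `c`,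
  `T (r^α ρ_{u'} · E(ρ_{u''}) · F) = |u''| T (r^α ρ_{u'} ρ_{u''} F)` if `T` kills weight
  `> 2α + |u'| + |u''|`, by induction on `u''`; the product of words is commutative.)
-/

set_option linter.unusedSectionVars false

namespace Pool.Agent.Work.MP_dd0ddf_al.AR

open scoped SchwartzMap Matrix.Norms.Elementwise ComplexConjugate ContDiff Topology LineDeriv
open Matrix MeasureTheory Filter

noncomputable section

variable {n : ℕ}

/-- the function `r^α ∏_{i ∈ u} ρ_i` -/
def wd {ι : Type*} (ρ : ι → Mat n → ℝ) (r : Mat n → ℝ) (α : ℕ) (u : List ι) : Mat n → ℂ :=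
  fun g => ((r g ^ α * (u.map (fun i => ρ i g)).prod : ℝ) : ℂ)

private theorem wd_fderiv_mul {E : Type*} [NormedAddCommGroup E] [NormedSpace ℝ E]
    {f1 f2 : E → ℝ} {x : E} (h1 : DifferentiableAt ℝ f1 x) (h2 : DifferentiableAt ℝ f2 x)
    {v : E} {a b : ℝ} (ha : fderiv ℝ f1 x v = a) (hb : fderiv ℝ f2 x v = b) :
    fderiv ℝ (fun y => f1 y * f2 y) x v = a * f2 x + f1 x * b := by
  subst ha hb
  have h3 : HasFDerivAt (fun y => f1 y * f2 y) _ x := h1.hasFDerivAt.mul h2.hasFDerivAt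
  rw [h3.fderiv]
  simp
  ring

private theorem wd_fderiv_pow {E : Type*} [NormedAddCommGroup E] [NormedSpace ℝ E]
    {f1 f2 : E → ℝ} {x : E} (h1 : DifferentiableAt ℝ f1 x) (h2 : DifferentiableAt ℝ f2 x)
    (α : ℕ) {v : E} {a b : ℝ} (ha : fderiv ℝ f1 x v = a) (hb : fderiv ℝ f2 x v = b) :
    fderiv ℝ (fun y => ((f1 y ^ α * f2 y : ℝ) : ℂ)) x v =
      ((α * f1 x ^ (α - 1) * a * f2 x + f1 x ^ α * b : ℝ) : ℂ) := by
  subst ha hb
  have h3 : HasFDerivAt (fun y => f1 y ^ α * f2 y) _ x :=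
    (h1.hasFDerivAt.pow α).mul h2.hasFDerivAt
  have h4 : HasFDerivAt (fun y => ((f1 y ^ α * f2 y : ℝ) : ℂ)) _ x :=
    (Complex.ofRealCLM.hasFDerivAt).comp x h3
  rw [h4.fderiv]
  simp
  ring

private theorem wd_prod_contDiffOn {Ω : Set (Mat n)} {ι : Type*} {ρ : ι → Mat n → ℝ}
    (hρ : ∀ i, ContDiffOn ℝ ∞ (ρ i) Ω) (u : List ι) :
    ContDiffOn ℝ ∞ (fun g => (u.map (fun i => ρ i g)).prod) Ω := by
  induction u with
  | nil =>
    simp only [List.map_nil, List.prod_nil]
    exact contDiffOn_const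
  | cons i u ih =>
    simp only [List.map_cons, List.prod_cons]
    exact (hρ i).mul ih

theorem contDiffOn_wd {Ω : Set (Mat n)} {ι : Type*} {ρ : ι → Mat n → ℝ} {r : Mat n → ℝ}
    (hρ : ∀ i, ContDiffOn ℝ ∞ (ρ i) Ω) (hr : ContDiffOn ℝ ∞ r Ω) (α : ℕ) (u : List ι) :
    ContDiffOn ℝ ∞ (wd ρ r α u) Ω := by
  have h1 : ContDiffOn ℝ ∞ (fun g => r g ^ α * (u.map (fun i => ρ i g)).prod) Ω :=
    (hr.pow α).mul (wd_prod_contDiffOn hρ u)
  exact Complex.ofRealCLM.contDiff.comp_contDiffOn h1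

private theorem wd_dG_out {K : Set (Mat n)} (hK : IsCompact K) {F : XX n → ℂ} (hF : F ∈ TFK K)
    (X : Mat n → Mat n) {x : XX n} (hx : x.1 ∉ K) : dG X F x = 0 := by
  have h1 : IsOpen {y : XX n | y.1 ∉ K} := hK.isClosed.isOpen_compl.preimage continuous_fst
  have h2 : F =ᶠ[𝓝 x] fun _ => (0 : ℂ) := by
    filter_upwards [h1.mem_nhds hx] with y hy
    exact hF.2.2 y hy
  have h3 := h2.fderiv_eq (𝕜 := ℝ)
  simp only [dG]
  rw [h3, fderiv_fun_const]
  rfl

private theorem wd_list_sum_apply {β : Type*} (S : List β) (f : β → XX n → ℂ) (x : XX n) :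
    (S.map f).sum x = (S.map fun p => f p x).sum := by
  induction S with
  | nil => rfl
  | cons p S ih =>
    rw [List.map_cons, List.sum_cons, List.map_cons, List.sum_cons, Pi.add_apply, ih]

private theorem wd_deriv {Ω : Set (Mat n)} (hΩ : IsOpen Ω) {ι : Type*} {ρ : ι → Mat n → ℝ}
    {r : Mat n → ℝ} (hρ : ∀ i, ContDiffOn ℝ ∞ (ρ i) Ω) {E : Mat n → Mat n}
    {c : ι → Mat n → ℝ}
    (hEρ : ∀ i, ∀ g ∈ Ω, fderiv ℝ (ρ i) g (E g) = ρ i g + r g * c i g) (u : List ι) :
    ∃ S : List (ι × List ι), (∀ p ∈ S, p.2.length + 1 = u.length) ∧ ∀ g ∈ Ω,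
      fderiv ℝ (fun g => (u.map (fun i => ρ i g)).prod) g (E g) =
        u.length * (u.map (fun i => ρ i g)).prod +
          r g * (S.map fun p => c p.1 g * (p.2.map (fun i => ρ i g)).prod).sum := by
  induction u with
  | nil =>
    refine ⟨[], by simp, ?_⟩
    intro g hg
    simp
  | cons i u ih =>
    obtain ⟨S, hS, hSd⟩ := ih
    refine ⟨(i, u) :: S.map (fun p => (p.1, i :: p.2)), ?_, ?_⟩
    · intro p hp
      rcases List.mem_cons.1 hp with rfl | hp
      · simp
      · obtain ⟨q, hq, rfl⟩ := List.mem_map.1 hp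
        have := hS q hq
        simp only [List.length_cons]
        omega
    · intro g hg
      have d1 : DifferentiableAt ℝ (ρ i) g :=
        ((hρ i).contDiffAt (hΩ.mem_nhds hg)).differentiableAt (by simp)
      have d2 : DifferentiableAt ℝ (fun g => (u.map (fun i => ρ i g)).prod) g :=
        ((wd_prod_contDiffOn hρ u).contDiffAt (hΩ.mem_nhds hg)).differentiableAt (by simp)
      have e1 : (fun g => ((i :: u).map (fun i => ρ i g)).prod) =
          fun g => ρ i g * (u.map (fun i => ρ i g)).prod := by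
        funext g
        rw [List.map_cons, List.prod_cons]
      rw [e1]
      refine (wd_fderiv_mul d1 d2 (hEρ i g hg) (hSd g hg)).trans ?_
      have e2 : (((i, u) :: S.map (fun p => (p.1, i :: p.2))).map
          fun p => c p.1 g * (p.2.map (fun i => ρ i g)).prod).sum =
          c i g * (u.map (fun i => ρ i g)).prod +
            ρ i g * (S.map fun p => c p.1 g * (p.2.map (fun i => ρ i g)).prod).sum := by
        rw [List.map_cons, List.sum_cons]
        congr 1
        clear hS hSd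
        induction S with
        | nil => simp
        | cons p S ih2 =>
          simp only [List.map_cons, List.sum_cons, List.prod_cons]
          rw [ih2]
          ring
      rw [e2, List.map_cons, List.prod_cons, List.length_cons]
      push_cast
      ring

theorem euler_wd {Ω K : Set (Mat n)} (hΩ : IsOpen Ω) (hK : IsCompact K) (hKΩ : K ⊆ Ω)
    {ι : Type*} [Fintype ι] (T : (XX n → ℂ) →ₗ[ℂ] ℂ) {ρ : ι → Mat n → ℝ} {r : Mat n → ℝ}
    (hρ : ∀ i, ContDiffOn ℝ ∞ (ρ i) Ω) (hr : ContDiffOn ℝ ∞ r Ω)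
    {E E0 : Mat n → Mat n} {Ei : ι → Mat n → Mat n} {c : ι → Mat n → ℝ}
    (hE0 : ContDiffOn ℝ ∞ E0 Ω) (hEi : ∀ i, ContDiffOn ℝ ∞ (Ei i) Ω)
    (hc : ∀ i, ContDiffOn ℝ ∞ (c i) Ω)
    (hE : ∀ g ∈ Ω, E g = ∑ i, ρ i g • Ei i g + r g • E0 g)
    (hEρ : ∀ i, ∀ g ∈ Ω, fderiv ℝ (ρ i) g (E g) = ρ i g + r g * c i g)
    (hEr : ∀ g ∈ Ω, fderiv ℝ r g (E g) = 2 * r g)
    (α : ℕ) (u : List ι)
    (hkill : ∀ (α' : ℕ) (u' : List ι), 2 * α + u.length < 2 * α' + u'.length →
      ∀ F ∈ TFK K, T (mG (wd ρ r α' u') F) = 0) :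
    ∀ F ∈ TFK K, T (dG E (mG (wd ρ r α u) F)) =
      ((2 * α + u.length : ℕ) : ℂ) * T (mG (wd ρ r α u) F) := by
  intro F hF
  have hw : ContDiffOn ℝ ∞ (wd ρ r α u) Ω := contDiffOn_wd hρ hr α u
  have hρC : ∀ i, ContDiffOn ℝ ∞ (fun g => ((ρ i g : ℝ) : ℂ)) Ω := fun i =>
    Complex.ofRealCLM.contDiff.comp_contDiffOn (hρ i)
  have hcC : ∀ i, ContDiffOn ℝ ∞ (fun g => ((c i g : ℝ) : ℂ)) Ω := fun i =>
    Complex.ofRealCLM.contDiff.comp_contDiffOn (hc i)
  rw [dG_mG hΩ hK hKΩ hw E hF, map_add]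
  -- the first term
  have h1 : mG (wd ρ r α u) (dG E F) =
      ∑ i, mG (wd ρ r α (i :: u)) (dG (Ei i) F) + mG (wd ρ r (α + 1) u) (dG E0 F) := by
    funext x
    simp only [Pi.add_apply, Finset.sum_apply]
    by_cases hx : x.1 ∈ K
    · have e1 : dG E F x = ∑ i, ((ρ i x.1 : ℝ) : ℂ) * dG (Ei i) F x +
          ((r x.1 : ℝ) : ℂ) * dG E0 F x := by
        have e2 : dG E F x =
            dG (fun g => (∑ i, ρ i g • Ei i g) + r g • E0 g) F x := by
          unfold dG
          rw [hE x.1 (hKΩ hx)]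
        rw [e2, dG_add_field, dG_sum_field, dG_smul_field]
        simp only [dG_smul_field, Pi.add_apply, Finset.sum_apply]
        rfl
      unfold mG
      rw [e1, mul_add, Finset.mul_sum]
      congr 1
      · refine Finset.sum_congr rfl fun i _ => ?_
        unfold wd
        rw [List.map_cons, List.prod_cons]
        push_cast
        ring
      · unfold wd
        push_cast
        ring
    · have e0 : ∀ X : Mat n → Mat n, dG X F x = 0 := fun X => wd_dG_out hK hF X hx
      unfold mG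
      simp only [e0, mul_zero, Finset.sum_const_zero, add_zero]
  have h2 : T (mG (wd ρ r α u) (dG E F)) = 0 := by
    rw [h1, map_add, map_sum]
    have e1 : ∀ i, T (mG (wd ρ r α (i :: u)) (dG (Ei i) F)) = 0 := fun i =>
      hkill α (i :: u) (by rw [List.length_cons]; omega) _ (dG_mem hΩ hK hKΩ (hEi i) hF)
    have e2 : T (mG (wd ρ r (α + 1) u) (dG E0 F)) = 0 :=
      hkill (α + 1) u (by omega) _ (dG_mem hΩ hK hKΩ hE0 hF)
    simp only [e1, e2, Finset.sum_const_zero, add_zero]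
  -- the second term
  obtain ⟨S, hS, hSd⟩ := wd_deriv hΩ hρ hEρ u
  have h3 : mG (dg E (wd ρ r α u)) F = ((2 * α + u.length : ℕ) : ℂ) • mG (wd ρ r α u) F +
      (S.map fun p => mG (wd ρ r (α + 1) p.2) (mG (fun g => ((c p.1 g : ℝ) : ℂ)) F)).sum := by
    funext x
    rw [Pi.add_apply, Pi.smul_apply, smul_eq_mul, wd_list_sum_apply]
    by_cases hx : x.1 ∈ K
    · have e1 : dg E (wd ρ r α u) x.1 =
          ((2 * α + u.length : ℕ) : ℂ) * wd ρ r α u x.1 + (((r x.1 ^ (α + 1) *
            (S.map fun p => c p.1 x.1 * (p.2.map (fun i => ρ i x.1)).prod).sum : ℝ)) : ℂ) := by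
        have hg := hKΩ hx
        have d1 : DifferentiableAt ℝ r x.1 :=
          (hr.contDiffAt (hΩ.mem_nhds hg)).differentiableAt (by simp)
        have d2 : DifferentiableAt ℝ (fun g => (u.map (fun i => ρ i g)).prod) x.1 :=
          ((wd_prod_contDiffOn hρ u).contDiffAt (hΩ.mem_nhds hg)).differentiableAt (by simp)
        refine (wd_fderiv_pow d1 d2 α (hEr x.1 hg) (hSd x.1 hg)).trans ?_
        have hpow : (α : ℝ) * r x.1 ^ (α - 1) * (2 * r x.1) = 2 * α * r x.1 ^ α := by
          cases α with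
          | zero => simp
          | succ k =>
            rw [Nat.add_sub_cancel]
            push_cast
            ring
        rw [hpow]
        unfold wd
        push_cast
        ring
      unfold mG
      rw [e1]
      have e2 : (S.map fun p : ι × List ι => wd ρ r (α + 1) p.2 x.1 *
          (((c p.1 x.1 : ℝ) : ℂ) * F x)).sum = (((r x.1 ^ (α + 1) *
            (S.map fun p => c p.1 x.1 * (p.2.map (fun i => ρ i x.1)).prod).sum : ℝ)) : ℂ) *
              F x := by
        clear hS hSd e1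
        induction S with
        | nil => simp
        | cons p S ih =>
          rw [List.map_cons, List.sum_cons, ih, List.map_cons, List.sum_cons]
          unfold wd
          push_cast
          ring
      rw [e2]
      ring
    · unfold mG
      simp only [hF.2.2 x hx, mul_zero, zero_add]
      clear hS hSd
      induction S with
      | nil => simp
      | cons p S ih =>
        rw [List.map_cons, List.sum_cons, ← ih, add_zero]
  rw [h2, zero_add, h3, map_add, map_smul, smul_eq_mul]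
  have h4 : T (S.map fun p => mG (wd ρ r (α + 1) p.2)
      (mG (fun g => ((c p.1 g : ℝ) : ℂ)) F)).sum = 0 := by
    rw [map_list_sum, List.map_map]
    apply List.sum_eq_zero
    intro z hz
    obtain ⟨p, hp, rfl⟩ := List.mem_map.1 hz
    have h5 := hS p hp
    exact hkill (α + 1) p.2 (by omega) _ (mG_mem hΩ hK hKΩ (hcC p.1) hF)
  rw [h4, add_zero]

end

end Pool.Agent.Work.MP_dd0ddf_al.AR
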