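import Pool.Agent.Work.MP_dd0ddf_al.AR.StepR1
import Pool.Agent.Work.MP_dd0ddf_al.AR.StepR2
import Pool.Agent.Work.MP_dd0ddf_al.AR.EulAct
import Pool.Agent.Work.MP_dd0ddf_al.AR.Words
import Pool.Agent.Work.MP_dd0ddf_al.AR.FinOrd
import Pool.Agent.Work.MP_dd0ddf_al.AR.DistK
import Pool.Agent.Work.MP_dd0ddf_al.AR.LadT

/-!
# Elim (M): elimination on `Om ε m i`

Let `F ∈ TFK K`, `K` compact in `Ω = Om ε m i`.  `ι = {k // i < k ∧ k < m} × Bool`,
`ρ (k, true) = Re s_k`, `ρ (k, false) = Im s_k`, `r = Re s_m` (`= s_m = <v,v>` on `Ω`).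
(1) `finite_order` with the index type `Option ι` (`none ↦ r`): `T (wd ρ r α u · F) = 0` for
    `M0 ≤ α + |u|` (word `replicate α none ++ u.map some`); hypothesis `h0`: on `Ω` one of the `ρ`, `r`
    is not `0` iff some `s_k ≠ 0`, `i < k ≤ m`.
(2) Descending induction on the weight `W = 2 α + |u|`: claim `T (wd ρ r α u · F) = 0` for all
    `F ∈ TFK K`; true for `W ≥ 2 M0`.  Assume it for all words of weight `> W`, let `β = wd ρ r α u`
    and `T' = T ∘ mGL β`, finite order on `K` (`isDistK_mG`).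
    * `T' (<v,v> F) = T (wd (α+1) u F) = 0`;
    * `T' (opB v (opA v F)) = T (opB v (opA v (β F))) = κ T (<v,v> β F) = 0` (`opA_mG`, `opB_mG`, `step_R1`);
    * `(1/a)(T'(opB v opA q F) - T'(opB q opA v F)) = (γ_i - γ_m + 2(m-i)) T(β F) + T (dG (Ye g) (β F))
      = (γ_i - γ_m + 2(m-i) + 2α + |u|) T' F` (`step_R2`, `euler_wd` with `E = Ye g`, `E_(k,true) =
      s_i⁻¹ E_ki g`, `E_(k,false) = i s_i⁻¹ E_ki g`, `E_0 = s_i⁻¹ E_mi g` (`Ye_eq`), `c_(k,true) =
      Re <g_k, q>`, `c_(k,false) = Im <g_k, q>` (`euler_ss`; `s_m` is real), `E(r) = 2 r` (`euler_ss_self`)).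
    `ladder_T` with `lam = γ_i - γ_m + 2(m-i) + 2α + |u|`, `Re lam ≥ 0 > -1`: `T' = 0` on `TFK K`.
(3) `α = 0`, `u = []`: `T F = 0`.
-/

set_option linter.unusedSectionVars false

namespace Pool.Agent.Work.MP_dd0ddf_al.AR

open scoped SchwartzMap Matrix.Norms.Elementwise ComplexConjugate ContDiff Topology LineDeriv
open Matrix MeasureTheory Filter

noncomputable section

variable {n : ℕ}

/-- index set of the transversal functions -/
private abbrev Ix (m i : Fin n) := {k : Fin n // i < k ∧ k < m} × Bool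

private def rh (ε : Fin n → ℝ) (m i : Fin n) (p : Ix m i) (g : Mat n) : ℝ :=
  if p.2 then (ss ε m p.1 g).re else (ss ε m p.1 g).im

private def rr (ε : Fin n → ℝ) (m : Fin n) (g : Mat n) : ℝ := (ss ε m m g).re

private def ro (ε : Fin n → ℝ) (m i : Fin n) (o : Option (Ix m i)) : Mat n → ℝ :=
  o.elim (rr ε m) (rh ε m i)

private theorem ss_smooth (ε : Fin n → ℝ) (m i k : Fin n) :
    ContDiffOn ℝ ∞ (ss ε m k) (Om ε m i) :=
  (contDiffOn_ss k).mono Set.inter_subset_left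

private theorem re_smooth {Ω : Set (Mat n)} {f : Mat n → ℂ} (hf : ContDiffOn ℝ ∞ f Ω) :
    ContDiffOn ℝ ∞ (fun g => (f g).re) Ω := Complex.reCLM.contDiff.comp_contDiffOn hf

private theorem im_smooth {Ω : Set (Mat n)} {f : Mat n → ℂ} (hf : ContDiffOn ℝ ∞ f Ω) :
    ContDiffOn ℝ ∞ (fun g => (f g).im) Ω := Complex.imCLM.contDiff.comp_contDiffOn hf

private theorem rh_smooth (ε : Fin n → ℝ) (m i : Fin n) (p : Ix m i) :
    ContDiffOn ℝ ∞ (rh ε m i p) (Om ε m i) := by
  obtain ⟨k, b⟩ := p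
  cases b
  · have : rh ε m i (k, false) = fun g => (ss ε m k g).im := by
      funext g; simp [rh]
    rw [this]
    exact im_smooth (ss_smooth ε m i k)
  · have : rh ε m i (k, true) = fun g => (ss ε m k g).re := by
      funext g; simp [rh]
    rw [this]
    exact re_smooth (ss_smooth ε m i k)

private theorem rr_smooth (ε : Fin n → ℝ) (m i : Fin n) :
    ContDiffOn ℝ ∞ (rr ε m) (Om ε m i) := re_smooth (ss_smooth ε m i m)

private theorem ro_smooth (ε : Fin n → ℝ) (m i : Fin n) (o : Option (Ix m i)) :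
    ContDiffOn ℝ ∞ (ro ε m i o) (Om ε m i) := by
  cases o with
  | none => exact rr_smooth ε m i
  | some p => exact rh_smooth ε m i p

private theorem mG_congr {K : Set (Mat n)} {c c' : Mat n → ℂ} (h : ∀ g ∈ K, c g = c' g)
    {F : XX n → ℂ} (hF : F ∈ TFK K) : mG c F = mG c' F := by
  funext x
  unfold mG
  by_cases hx : x.1 ∈ K
  · rw [h _ hx]
  · rw [hF.2.2 x hx, mul_zero, mul_zero]

private theorem ro_word (ε : Fin n → ℝ) (m i : Fin n) (α : ℕ) (u : List (Ix m i)) (g : Mat n) :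
    ((List.replicate α (none : Option (Ix m i)) ++ u.map some).map
      (fun o => ro ε m i o g)).prod = rr ε m g ^ α * (u.map (fun p => rh ε m i p g)).prod := by
  rw [List.map_append, List.prod_append, List.map_replicate, List.prod_replicate, List.map_map]
  rfl

/-- the fields of the decomposition -/
private def Ef (ε : Fin n → ℝ) (m i : Fin n) (p : Ix m i) (g : Mat n) : Mat n :=
  ((if p.2 then 1 else Complex.I) * (ss ε m i g)⁻¹) • (Matrix.single (p.1 : Fin n) i (1 : ℂ) * g)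

private def E0f (ε : Fin n → ℝ) (m i : Fin n) (g : Mat n) : Mat n :=
  (ss ε m i g)⁻¹ • (Matrix.single m i (1 : ℂ) * g)

private def cf (ε : Fin n → ℝ) (m i : Fin n) (p : Ix m i) (g : Mat n) : ℝ :=
  if p.2 then (hf ε (g p.1) (qq ε m i g)).re else (hf ε (g p.1) (qq ε m i g)).im

private theorem inv_smooth (ε : Fin n → ℝ) (m i : Fin n) :
    ContDiffOn ℝ ∞ (fun g => (ss ε m i g)⁻¹) (Om ε m i) :=
  (ss_smooth ε m i i).inv fun _ hg => hg.2

private theorem single_smooth (k i : Fin n) {Ω : Set (Mat n)} :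
    ContDiffOn ℝ ∞ (fun g : Mat n => Matrix.single k i (1 : ℂ) * g) Ω := by
  have h : ContDiff ℝ ∞ (fun g : Mat n => Matrix.single k i (1 : ℂ) * g) := by
    have h1 : IsLinearMap ℝ (fun g : Mat n => Matrix.single k i (1 : ℂ) * g) := by
      constructor
      · intro x y; exact Matrix.mul_add _ _ _
      · intro c x; exact Matrix.mul_smul _ _ _
    exact (h1.mk' _).toContinuousLinearMap.contDiff
  exact h.contDiffOn

private theorem E0f_smooth (ε : Fin n → ℝ) (m i : Fin n) :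
    ContDiffOn ℝ ∞ (E0f ε m i) (Om ε m i) :=
  (inv_smooth ε m i).smul (single_smooth m i)

private theorem Ef_smooth (ε : Fin n → ℝ) (m i : Fin n) (p : Ix m i) :
    ContDiffOn ℝ ∞ (Ef ε m i p) (Om ε m i) :=
  (contDiffOn_const.mul (inv_smooth ε m i)).smul (single_smooth _ i)

private theorem row_smooth {Ω : Set (Mat n)} (k : Fin n) :
    ContDiffOn ℝ ∞ (fun g : Mat n => g k) Ω := by
  have h : ContDiff ℝ ∞ (fun g : Mat n => g k) := contDiff_apply ℝ (Fin n → ℂ) k
  exact h.contDiffOn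

private theorem cf_smooth (ε : Fin n → ℝ) (m i : Fin n) (p : Ix m i) :
    ContDiffOn ℝ ∞ (cf ε m i p) (Om ε m i) := by
  obtain ⟨k, b⟩ := p
  have h : ContDiffOn ℝ ∞ (fun g : Mat n => hf ε (g k) (qq ε m i g)) (Om ε m i) :=
    contDiffOn_hf (row_smooth _) (contDiffOn_qq i)
  cases b
  · have : cf ε m i (k, false) = fun g => (hf ε (g k) (qq ε m i g)).im := by
      funext g; simp [cf]
    rw [this]
    exact im_smooth h
  · have : cf ε m i (k, true) = fun g => (hf ε (g k) (qq ε m i g)).re := by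
      funext g; simp [cf]
    rw [this]
    exact re_smooth h

private theorem E_eq {ε : Fin n → ℝ} {m i : Fin n} (him : i < m) {g : Mat n}
    (hg : g ∈ Om ε m i) : Ye ε m i g * g =
      ∑ p : Ix m i, rh ε m i p g • Ef ε m i p g + rr ε m g • E0f ε m i g := by
  rw [Ye_eq him hg]
  congr 1
  rw [Fintype.sum_prod_type, ← Finset.sum_filter]
  symm
  have h1 : ∀ k : {k : Fin n // i < k ∧ k < m}, ∑ b : Bool, rh ε m i (k, b) g •
      Ef ε m i (k, b) g = (fun k : Fin n =>
        (ss ε m k g).re • ((ss ε m i g)⁻¹ • (Matrix.single k i (1 : ℂ) * g)) +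
        (ss ε m k g).im • ((Complex.I * (ss ε m i g)⁻¹) • (Matrix.single k i (1 : ℂ) * g)))
          (k : Fin n) := by
    intro k
    rw [Fintype.sum_bool]
    simp [rh, Ef]
  rw [Finset.sum_congr rfl (fun k _ => h1 k)]
  rw [Finset.sum_subtype (p := fun k : Fin n => i < k ∧ k < m)]
  intro k
  simp

private theorem diff_at {ε : Fin n → ℝ} {m i : Fin n} (k : Fin n) {g : Mat n}
    (hg : g ∈ Om ε m i) : DifferentiableAt ℝ (ss ε m k) g :=
  ((ss_smooth ε m i k).contDiffAt ((isOpen_Om ε m i).mem_nhds hg)).differentiableAt (by simp)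

private theorem fderiv_re' {f : Mat n → ℂ} {g : Mat n} (hf : DifferentiableAt ℝ f g)
    (v : Mat n) : fderiv ℝ (fun x => (f x).re) g v = (fderiv ℝ f g v).re := by
  have h := (Complex.reCLM.hasFDerivAt (x := f g)).comp g hf.hasFDerivAt
  have h2 : HasFDerivAt (fun x => (f x).re) (Complex.reCLM.comp (fderiv ℝ f g)) g := h
  rw [h2.fderiv]
  rfl

private theorem fderiv_im' {f : Mat n → ℂ} {g : Mat n} (hf : DifferentiableAt ℝ f g)
    (v : Mat n) : fderiv ℝ (fun x => (f x).im) g v = (fderiv ℝ f g v).im := by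
  have h := (Complex.imCLM.hasFDerivAt (x := f g)).comp g hf.hasFDerivAt
  have h2 : HasFDerivAt (fun x => (f x).im) (Complex.imCLM.comp (fderiv ℝ f g)) g := h
  rw [h2.fderiv]
  rfl

private theorem E_rr {ε : Fin n → ℝ} {m i : Fin n} (him : i < m) {g : Mat n}
    (hg : g ∈ Om ε m i) : fderiv ℝ (rr ε m) g (Ye ε m i g * g) = 2 * rr ε m g := by
  have h := fderiv_re' (diff_at m hg) (Ye ε m i g * g)
  have h2 : fderiv ℝ (rr ε m) g (Ye ε m i g * g) =
      (fderiv ℝ (ss ε m m) g (Ye ε m i g * g)).re := h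
  rw [h2, euler_ss_self him hg]
  simp [rr, ss_self_im hg.1]

private theorem E_rh {ε : Fin n → ℝ} {m i : Fin n} (him : i < m) (p : Ix m i) {g : Mat n}
    (hg : g ∈ Om ε m i) : fderiv ℝ (rh ε m i p) g (Ye ε m i g * g) =
      rh ε m i p g + rr ε m g * cf ε m i p g := by
  obtain ⟨k, b⟩ := p
  have hk := k.2
  cases b
  · have e : rh ε m i (k, false) = fun g => (ss ε m k g).im := by
      funext g; simp [rh]
    rw [e, fderiv_im' (diff_at _ hg), euler_ss him hk.1 hk.2 hg]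
    simp [rr, cf, ss_self_im hg.1]
  · have e : rh ε m i (k, true) = fun g => (ss ε m k g).re := by
      funext g; simp [rh]
    rw [e, fderiv_re' (diff_at _ hg), euler_ss him hk.1 hk.2 hg]
    simp [rr, cf, ss_self_im hg.1]

private theorem wd_hf {ε : Fin n → ℝ} {m i : Fin n} (α : ℕ) (u : List (Ix m i)) {g : Mat n}
    (hg : g ∈ Om ε m i) : hf ε (vv ε m g) (vv ε m g) * wd (rh ε m i) (rr ε m) α u g =
      wd (rh ε m i) (rr ε m) (α + 1) u g := by
  have h : hf ε (vv ε m g) (vv ε m g) = (rr ε m g : ℂ) := by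
    rw [← ss_self hg.1]
    apply Complex.ext
    · simp [rr]
    · simp [ss_self_im hg.1]
  rw [h]
  unfold wd
  push_cast
  ring

theorem elim {ε : Fin n → ℝ} (hε : ∀ j, ε j = 1 ∨ ε j = -1) {a : ℝ} (ha : a ≠ 0)
    {γ γ' : Fin n → ℂ} {c1 : ℂ} {m i : Fin n} (him : i < m) {T : (XX n → ℂ) →ₗ[ℂ] ℂ}
    (hS : Sys ε a γ γ' c1 (Om ε m i) T)
    (hγ : 0 ≤ (γ i - γ m).re + 2 * (((m : ℕ) : ℝ) - ((i : ℕ) : ℝ)))
    (h0 : ∀ F ∈ TFs (Om ε m i ∩ {g | ∃ k, i < k ∧ k ≤ m ∧ ss ε m k g ≠ 0}), T F = 0) :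
    ∀ F ∈ TFs (Om ε m i), T F = 0 := by
  rintro F ⟨K, hK, hKΩ, hF⟩
  have hΩ : IsOpen (Om ε m i) := isOpen_Om ε m i
  have hΩs : Om ε m i ⊆ Od ε ((m : ℕ) + 1) := Set.inter_subset_left
  have hT : IsDistK K T := hS.dist K hK hKΩ
  have hv : ContDiffOn ℝ ∞ (vv ε m) (Om ε m i) := contDiffOn_vv hΩs
  have hq : ContDiffOn ℝ ∞ (qq ε m i) (Om ε m i) := contDiffOn_qq i
  have h0' : ∀ F ∈ TFs (Om ε m i ∩ {g | ∃ o, ro ε m i o g ≠ 0}), T F = 0 := by
    intro F hF
    refine h0 F (TFs_mono ?_ hF)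
    rintro g ⟨hg, o, ho⟩
    refine ⟨hg, ?_⟩
    cases o with
    | none =>
      refine ⟨m, him, le_rfl, ?_⟩
      intro h
      apply ho
      show (ss ε m m g).re = 0
      rw [h]; rfl
    | some p =>
      refine ⟨p.1, p.1.2.1, p.1.2.2.le, ?_⟩
      intro h
      apply ho
      show rh ε m i p g = 0
      unfold rh
      rw [h]
      simp
  obtain ⟨M0, hM0⟩ := finite_order hΩ hK hKΩ hT (ro ε m i) (ro_smooth ε m i) h0'
  have hM0' : ∀ (α : ℕ) (u : List (Ix m i)), M0 ≤ α + u.length → ∀ F ∈ TFK K,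
      T (mG (wd (rh ε m i) (rr ε m) α u) F) = 0 := by
    intro α u h F hF
    have h1 := hM0 (List.replicate α none ++ u.map some) (by simpa using h) F hF
    have e : (fun g => ((((List.replicate α (none : Option (Ix m i)) ++ u.map some).map
        (fun o => ro ε m i o g)).prod : ℝ) : ℂ)) = wd (rh ε m i) (rr ε m) α u := by
      funext g
      rw [ro_word]
      rfl
    rw [e] at h1
    exact h1
  have key : ∀ (D α : ℕ) (u : List (Ix m i)), 2 * M0 ≤ D + (2 * α + u.length) → ∀ F ∈ TFK K,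
      T (mG (wd (rh ε m i) (rr ε m) α u) F) = 0 := by
    intro D
    induction D with
    | zero =>
      intro α u h F hF
      exact hM0' α u (by omega) F hF
    | succ D ih =>
      intro α u h
      have hkill : ∀ (α' : ℕ) (u' : List (Ix m i)), 2 * α + u.length < 2 * α' + u'.length →
          ∀ F ∈ TFK K, T (mG (wd (rh ε m i) (rr ε m) α' u') F) = 0 := by
        intro α' u' h' F hF
        exact ih α' u' (by omega) F hF
      have hβ : ContDiffOn ℝ ∞ (wd (rh ε m i) (rr ε m) α u) (Om ε m i) :=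
        contDiffOn_wd (rh_smooth ε m i) (rr_smooth ε m i) α u
      have hTβ : IsDistK K (T.comp (mGL (wd (rh ε m i) (rr ε m) α u))) :=
        isDistK_mG hΩ hK hKΩ hβ hT
      have hR : ∀ F ∈ TFK K, (T.comp (mGL (wd (rh ε m i) (rr ε m) α u)))
          (mG (fun g => hf ε (vv ε m g) (vv ε m g)) F) = 0 := by
        intro F hF
        show T (mG (wd (rh ε m i) (rr ε m) α u)
          (mG (fun g => hf ε (vv ε m g) (vv ε m g)) F)) = 0
        rw [mG_mG, mG_congr (c' := wd (rh ε m i) (rr ε m) (α + 1) u) ?_ hF]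
        · exact hkill (α + 1) u (by omega) F hF
        · intro g hg
          show wd (rh ε m i) (rr ε m) α u g * hf ε (vv ε m g) (vv ε m g) = _
          rw [mul_comm]
          exact wd_hf α u (hKΩ hg)
      have mA : ∀ {r : Mat n → Fin n → ℂ}, ContDiffOn ℝ ∞ r (Om ε m i) → ∀ F ∈ TFK K,
          opA ε a r F ∈ TFK K := fun hr F hF => opA_mem ε a hΩ hK hKΩ hr hF
      have mM : ∀ F ∈ TFK K, mG (wd (rh ε m i) (rr ε m) α u) F ∈ TFK K :=
        fun F hF => mG_mem hΩ hK hKΩ hβ hF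
      have comm : ∀ {r s : Mat n → Fin n → ℂ}, ContDiffOn ℝ ∞ s (Om ε m i) → ∀ F ∈ TFK K,
          mG (wd (rh ε m i) (rr ε m) α u) (opB ε a r (opA ε a s F)) =
            opB ε a r (opA ε a s (mG (wd (rh ε m i) (rr ε m) α u) F)) := by
        intro r s hs F hF
        rw [opA_mG ε a hΩ hK hKΩ hβ s hF, opB_mG ε a hΩ hK hKΩ hβ r (mA hs F hF)]
      have hBA : ∀ F ∈ TFK K, (T.comp (mGL (wd (rh ε m i) (rr ε m) α u)))
          (opB ε a (vv ε m) (opA ε a (vv ε m) F)) = 0 := by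
        intro F hF
        show T (mG (wd (rh ε m i) (rr ε m) α u) (opB ε a (vv ε m) (opA ε a (vv ε m) F))) = 0
        rw [comm hv F hF, step_R1 ha m hΩ hΩs hS ⟨K, hK, hKΩ, mM F hF⟩, mG_mG,
          mG_congr (c' := wd (rh ε m i) (rr ε m) (α + 1) u) ?_ hF]
        · rw [hkill (α + 1) u (by omega) F hF, mul_zero]
        · intro g hg
          exact wd_hf α u (hKΩ hg)
      have hQ : ∀ F ∈ TFK K, (1 / a : ℂ) *
          ((T.comp (mGL (wd (rh ε m i) (rr ε m) α u)))
            (opB ε a (vv ε m) (opA ε a (qq ε m i) F)) -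
          (T.comp (mGL (wd (rh ε m i) (rr ε m) α u)))
            (opB ε a (qq ε m i) (opA ε a (vv ε m) F))) =
          (γ i - γ m + 2 * (((m : ℕ) : ℂ) - ((i : ℕ) : ℂ)) + ((2 * α + u.length : ℕ) : ℂ)) *
            (T.comp (mGL (wd (rh ε m i) (rr ε m) α u))) F := by
        intro F hF
        show (1 / a : ℂ) * (T (mG (wd (rh ε m i) (rr ε m) α u)
            (opB ε a (vv ε m) (opA ε a (qq ε m i) F))) -
          T (mG (wd (rh ε m i) (rr ε m) α u) (opB ε a (qq ε m i) (opA ε a (vv ε m) F)))) =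
          _ * T (mG (wd (rh ε m i) (rr ε m) α u) F)
        rw [comm hq F hF, comm hv F hF, step_R2 him hS ⟨K, hK, hKΩ, mM F hF⟩]
        have hE := euler_wd hΩ hK hKΩ T (ρ := rh ε m i) (r := rr ε m) (rh_smooth ε m i)
          (rr_smooth ε m i) (E := fun g => Ye ε m i g * g) (E0 := E0f ε m i)
          (Ei := Ef ε m i) (c := cf ε m i) (E0f_smooth ε m i) (Ef_smooth ε m i)
          (cf_smooth ε m i) (fun g hg => E_eq him hg) (fun p g hg => E_rh him p hg)
          (fun g hg => E_rr him hg) α u hkill F hF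
        rw [hE]
        ring
      have hlam : -1 < (γ i - γ m + 2 * (((m : ℕ) : ℂ) - ((i : ℕ) : ℂ)) +
          ((2 * α + u.length : ℕ) : ℂ)).re := by
        have e : (γ i - γ m + 2 * (((m : ℕ) : ℂ) - ((i : ℕ) : ℂ)) +
          ((2 * α + u.length : ℕ) : ℂ)).re = (γ i - γ m).re +
            2 * (((m : ℕ) : ℝ) - ((i : ℕ) : ℝ)) + ((2 * α + u.length : ℕ) : ℝ) := by
          simp only [Complex.add_re, Complex.natCast_re, Complex.mul_re, Complex.sub_re,
            Complex.re_ofNat, Complex.im_ofNat, zero_mul, sub_zero]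
        rw [e]
        have : (0 : ℝ) ≤ ((2 * α + u.length : ℕ) : ℝ) := Nat.cast_nonneg _
        linarith
      have hfin := ladder_T ε hε a ha hΩ hK hKΩ hv hq (fun g hg => hf_qq_vv hg) hTβ hR hBA
        _ hlam hQ
      intro F hF
      exact hfin F hF
  have h1 := key (2 * M0) 0 [] (by simp) F hF
  have e : mG (wd (rh ε m i) (rr ε m) 0 []) F = F := by
    funext x
    simp [mG, wd]
  rw [e] at h1
  exact h1

end

end Pool.Agent.Work.MP_dd0ddf_al.AR
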