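import Pool.Agent.Work.MP_dd0ddf_al.AR.Op
import Pool.Agent.Work.MP_dd0ddf_al.AR.Inf

/-!
# GSa (M): the algebra of the Gram-Schmidt projections

Claim by induction on `j ≤ n` for `g` with `det g ≠ 0` and `<vv l, vv l> ≠ 0` for all `l ≥ n - j`:
`prj ε g j x = x + ∑_{l ≥ n-j} c_l g_l` for some `c`, and `<prj ε g j x, g_l> = 0` for `l ≥ n - j`.
Step: `v = prj ε g j (g_k)`, `k = n-1-j`, is `vv ε k g` (unfold `vv`, `hat`: `n - 1 - k = j`);
`v = g_k + ...`, `<v, g_l> = 0` for `l > k`; `<x, v> = <prj j x, v>` (`prj j x - x` is in the span of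
the rows of index `> k`, orthogonal to `v`), so `prj (j+1) x = prj j x - (<prj j x, v>/<v,v>) v` is
orthogonal to `v` and to the rows of index `> k`, hence to `g_k`.
Uniqueness: if `y = ∑_{l>m} d_l g_l` is orthogonal to all `g_l`, `l > m`, then `y = 0`: `y` is a
combination of the `vv l`, `l > m` (triangular change of basis; or: let `l0` be the smallest index
with `d_l0 ≠ 0`; `<y, vv l0> = d_l0 <g_l0, vv l0> = d_l0 <vv l0, vv l0> ≠ 0` because `vv l0` is
orthogonal to `g_l`, `l > l0`; but `vv l0` is a combination of rows of index `≥ l0 > m`, so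
`<y, vv l0> = 0`, contradiction).
`vv ε m g = g_m + ∑_{l>m} ... ≠ 0` because the rows are linearly independent (`det g ≠ 0`).
-/

set_option linter.unusedSectionVars false

namespace Pool.Agent.Work.MP_dd0ddf_al.AR

open scoped SchwartzMap Matrix.Norms.Elementwise ComplexConjugate ContDiff Topology LineDeriv
open Matrix MeasureTheory Filter

noncomputable section

variable {n : ℕ}

private theorem hf_add_left (ε : Fin n → ℝ) (x y z : Fin n → ℂ) :
    hf ε (x + y) z = hf ε x z + hf ε y z := by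
  unfold hf
  rw [← Finset.sum_add_distrib]
  exact Finset.sum_congr rfl fun j _ => by rw [Pi.add_apply]; ring

private theorem hf_smul_left (ε : Fin n → ℝ) (c : ℂ) (x z : Fin n → ℂ) :
    hf ε (c • x) z = c * hf ε x z := by
  unfold hf
  rw [Finset.mul_sum]
  exact Finset.sum_congr rfl fun j _ => by rw [Pi.smul_apply, smul_eq_mul]; ring

private theorem hf_add_right (ε : Fin n → ℝ) (x y z : Fin n → ℂ) :
    hf ε x (y + z) = hf ε x y + hf ε x z := by
  rw [← conj_hf, hf_add_left, map_add, conj_hf, conj_hf]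

private theorem hf_smul_right (ε : Fin n → ℝ) (c : ℂ) (x z : Fin n → ℂ) :
    hf ε x (c • z) = conj c * hf ε x z := by
  rw [← conj_hf, hf_smul_left, map_mul, conj_hf]

private theorem hf_zero_left (ε : Fin n → ℝ) (z : Fin n → ℂ) : hf ε 0 z = 0 := by
  unfold hf
  simp

private theorem hf_sum_left (ε : Fin n → ℝ) (c : Fin n → ℂ) (g : Mat n) (z : Fin n → ℂ) :
    hf ε (∑ l, c l • g l) z = ∑ l, c l * hf ε (g l) z := by
  have h : ∀ s : Finset (Fin n), hf ε (∑ l ∈ s, c l • g l) z = ∑ l ∈ s, c l * hf ε (g l) z := by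
    intro s
    induction s using Finset.induction_on with
    | empty => simp [hf_zero_left]
    | insert a s ha ih =>
      rw [Finset.sum_insert ha, Finset.sum_insert ha, hf_add_left, hf_smul_left, ih]
  exact h Finset.univ

private theorem hf_sum_right (ε : Fin n → ℝ) (c : Fin n → ℂ) (g : Mat n) (z : Fin n → ℂ) :
    hf ε z (∑ l, c l • g l) = ∑ l, conj (c l) * hf ε z (g l) := by
  rw [← conj_hf, hf_sum_left, map_sum]
  exact Finset.sum_congr rfl fun l _ => by rw [map_mul, conj_hf]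

private theorem hf_swap_zero {ε : Fin n → ℝ} {x y : Fin n → ℂ} (h : hf ε x y = 0) :
    hf ε y x = 0 := by
  rw [← conj_hf, h, map_zero]

private theorem prj_key (ε : Fin n → ℝ) (g : Mat n) : ∀ j : ℕ, j ≤ n →
    (∀ l : Fin n, n - j ≤ (l : ℕ) → hf ε (vv ε l g) (vv ε l g) ≠ 0) → ∀ x : Fin n → ℂ,
    (∃ c : Fin n → ℂ, (∀ l : Fin n, (l : ℕ) < n - j → c l = 0) ∧
      prj ε g j x = x + ∑ l, c l • g l) ∧
    ∀ l : Fin n, n - j ≤ (l : ℕ) → hf ε (prj ε g j x) (g l) = 0 := by
  intro j
  induction j with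
  | zero =>
    intro _ _ x
    refine ⟨⟨0, fun _ _ => rfl, ?_⟩, ?_⟩
    · simp [prj]
    · intro l hl
      have := l.2
      omega
  | succ j ih =>
    intro hj H x
    have hk : n - 1 - j < n := by omega
    have H' : ∀ l : Fin n, n - j ≤ (l : ℕ) → hf ε (vv ε l g) (vv ε l g) ≠ 0 :=
      fun l hl => H l (by omega)
    have ih' := ih (by omega) H'
    set k : Fin n := ⟨n - 1 - j, hk⟩ with hkdef
    have hvv : prj ε g j (g k) = vv ε k g := by
      unfold vv hat
      have : n - 1 - (k : ℕ) = j := by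
        show n - 1 - (n - 1 - j) = j
        omega
      rw [this]
    obtain ⟨⟨c1, hc1, hx1⟩, ho1⟩ := ih' x
    obtain ⟨⟨c2, hc2, hx2⟩, ho2⟩ := ih' (g k)
    have hvvne : hf ε (vv ε k g) (vv ε k g) ≠ 0 := H k (by show n - (j + 1) ≤ n - 1 - j; omega)
    have hstep : prj ε g (j + 1) x = prj ε g j x - (hf ε x (prj ε g j (g k)) /
        hf ε (prj ε g j (g k)) (prj ε g j (g k))) • prj ε g j (g k) := by
      show (if h : n - 1 - j < n then _ else _) = _
      rw [dif_pos hk]
    set v := prj ε g j (g k) with hv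
    rw [← hvv] at hvvne
    set a := hf ε x v / hf ε v v with ha
    have hglv : ∀ l : Fin n, n - j ≤ (l : ℕ) → hf ε (g l) v = 0 := fun l hl =>
      hf_swap_zero (ho2 l hl)
    have hxv : hf ε (prj ε g j x) v = hf ε x v := by
      rw [hx1, hf_add_left, hf_sum_left]
      have : ∑ l, c1 l * hf ε (g l) v = 0 := by
        refine Finset.sum_eq_zero fun l _ => ?_
        rcases lt_or_ge (l : ℕ) (n - j) with h | h
        · rw [hc1 l h, zero_mul]
        · rw [hglv l h, mul_zero]
      rw [this, add_zero]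
    refine ⟨⟨fun l => c1 l - a * ((if l = k then 1 else 0) + c2 l), ?_, ?_⟩, ?_⟩
    · intro l hl
      have h1 : (l : ℕ) < n - j := by omega
      have h2 : l ≠ k := by
        intro h
        rw [h] at hl
        change n - 1 - j < n - (j + 1) at hl
        omega
      show c1 l - a * ((if l = k then 1 else 0) + c2 l) = 0
      rw [hc1 l h1, hc2 l h1, if_neg h2]
      ring
    · rw [hstep, hx1]
      have h3 : ∑ l, (c1 l - a * ((if l = k then 1 else 0) + c2 l)) • g l =
          ∑ l, c1 l • g l - a • (g k + ∑ l, c2 l • g l) := by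
        have h4 : g k = ∑ l, (if l = k then (1 : ℂ) else 0) • g l := by
          simp
        rw [h4, ← Finset.sum_add_distrib, Finset.smul_sum, ← Finset.sum_sub_distrib]
        refine Finset.sum_congr rfl fun l _ => ?_
        rw [sub_smul, mul_smul, add_smul]
      rw [h3, hx2]
      abel
    · have hy1 : ∀ l : Fin n, n - j ≤ (l : ℕ) → hf ε (prj ε g (j + 1) x) (g l) = 0 := by
        intro l hl
        rw [hstep, sub_eq_add_neg, ← neg_smul, hf_add_left, hf_smul_left, ho1 l hl, ho2 l hl]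
        ring
      intro l hl
      rcases lt_or_ge (l : ℕ) (n - j) with h | h
      · have hlk : l = k := by
          apply Fin.ext
          show (l : ℕ) = n - 1 - j
          omega
        rw [hlk]
        have hyv : hf ε (prj ε g (j + 1) x) v = 0 := by
          rw [hstep, sub_eq_add_neg, ← neg_smul, hf_add_left, hf_smul_left, hxv, ha]
          field_simp
          ring
        have hyv2 : hf ε (prj ε g (j + 1) x) v = hf ε (prj ε g (j + 1) x) (g k) := by
          rw [hx2, hf_add_right, hf_sum_right]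
          have : ∑ l, conj (c2 l) * hf ε (prj ε g (j + 1) x) (g l) = 0 := by
            refine Finset.sum_eq_zero fun l _ => ?_
            rcases lt_or_ge (l : ℕ) (n - j) with h | h
            · rw [hc2 l h, map_zero, zero_mul]
            · rw [hy1 l h, mul_zero]
          rw [this, add_zero]
        rw [← hyv2, hyv]
      · exact hy1 l h

theorem Od_anti (ε : Fin n → ℝ) {d d' : ℕ} (h : d ≤ d') : Od ε d ⊆ Od ε d' :=
  fun _ hg => ⟨hg.1, fun l hl => hg.2 l (h.trans hl)⟩

theorem Od_top (ε : Fin n → ℝ) : Od ε n = GLs n := by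
  ext g
  constructor
  · exact fun hg => hg.1
  · intro hg
    refine ⟨hg, fun l hl => ?_⟩
    have := l.2
    omega

theorem Od_succ (ε : Fin n → ℝ) (m : Fin n) :
    Od ε m = Od ε ((m : ℕ) + 1) ∩ {g | hf ε (vv ε m g) (vv ε m g) ≠ 0} := by
  ext g
  constructor
  · intro hg
    exact ⟨Od_anti ε (Nat.le_succ _) hg, hg.2 m le_rfl⟩
  · rintro ⟨hg, hm⟩
    refine ⟨hg.1, fun l hl => ?_⟩
    rcases Nat.lt_or_ge (m : ℕ) l with h | h
    · exact hg.2 l h
    · have : l = m := Fin.ext (le_antisymm h hl)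
      rw [this]
      exact hm

private theorem prj_add (ε : Fin n → ℝ) (g : Mat n) (x y : Fin n → ℂ) : ∀ j : ℕ,
    prj ε g j (x + y) = prj ε g j x + prj ε g j y := by
  intro j
  induction j with
  | zero => rfl
  | succ j ih =>
    by_cases h : n - 1 - j < n
    · simp only [prj, dif_pos h]
      rw [ih, hf_add_left, add_div, add_smul]
      abel
    · simp only [prj, dif_neg h]
      exact ih

private theorem prj_smul (ε : Fin n → ℝ) (g : Mat n) (c : ℂ) (x : Fin n → ℂ) : ∀ j : ℕ,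
    prj ε g j (c • x) = c • prj ε g j x := by
  intro j
  induction j with
  | zero => rfl
  | succ j ih =>
    by_cases h : n - 1 - j < n
    · simp only [prj, dif_pos h]
      rw [ih, hf_smul_left, mul_div_assoc, mul_smul, smul_sub]
    · simp only [prj, dif_neg h]
      exact ih

theorem hat_add (ε : Fin n → ℝ) (m : Fin n) (g : Mat n) (x y : Fin n → ℂ) :
    hat ε m g (x + y) = hat ε m g x + hat ε m g y := prj_add ε g x y _

theorem hat_smul (ε : Fin n → ℝ) (m : Fin n) (g : Mat n) (c : ℂ) (x : Fin n → ℂ) :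
    hat ε m g (c • x) = c • hat ε m g x := prj_smul ε g c x _

theorem hat_span {ε : Fin n → ℝ} {m : Fin n} {g : Mat n} (hg : g ∈ Od ε ((m : ℕ) + 1))
    (x : Fin n → ℂ) :
    ∃ c : Fin n → ℂ, (∀ l, l ≤ m → c l = 0) ∧ hat ε m g x = x + ∑ l, c l • g l := by
  have hm := m.2
  obtain ⟨⟨c, hc, hx⟩, -⟩ := prj_key ε g (n - 1 - m) (by omega)
    (fun l hl => hg.2 l (by omega)) x
  refine ⟨c, fun l hl => hc l ?_, hx⟩
  have : (l : ℕ) ≤ m := hl
  omega

theorem hat_orth {ε : Fin n → ℝ} {m : Fin n} {g : Mat n} (hg : g ∈ Od ε ((m : ℕ) + 1))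
    (x : Fin n → ℂ) {l : Fin n} (hl : m < l) : hf ε (hat ε m g x) (g l) = 0 := by
  have hm := m.2
  obtain ⟨-, h⟩ := prj_key ε g (n - 1 - m) (by omega) (fun l hl => hg.2 l (by omega)) x
  refine h l ?_
  have : (m : ℕ) < l := hl
  omega

private theorem null_comb {ε : Fin n → ℝ} {m : Fin n} {g : Mat n} (hg : g ∈ Od ε ((m : ℕ) + 1))
    {d : Fin n → ℂ} (hd : ∀ l, l ≤ m → d l = 0)
    (ho : ∀ l, m < l → hf ε (∑ k, d k • g k) (g l) = 0) : d = 0 := by
  by_contra hne
  obtain ⟨l1, hl1⟩ := Function.ne_iff.1 hne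
  have hex : ∃ k : ℕ, ∃ h : k < n, d ⟨k, h⟩ ≠ 0 := ⟨l1, l1.2, hl1⟩
  classical
  obtain ⟨h0, hd0⟩ := Nat.find_spec hex
  set l0 : Fin n := ⟨Nat.find hex, h0⟩ with hl0
  have hmin : ∀ l : Fin n, l < l0 → d l = 0 := by
    intro l hl
    by_contra h
    exact Nat.find_min hex (show (l : ℕ) < Nat.find hex from hl) ⟨l.2, h⟩
  have hml : m < l0 := by
    by_contra h
    exact hd0 (hd l0 (not_lt.1 h))
  have hml' : (m : ℕ) + 1 ≤ l0 := hml
  have hg0 : g ∈ Od ε ((l0 : ℕ) + 1) := Od_anti ε (by omega) hg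
  obtain ⟨c, hc, hv⟩ := hat_span hg0 (g l0)
  have hv' : vv ε l0 g = g l0 + ∑ l, c l • g l := hv
  have hovv : ∀ l, l0 < l → hf ε (g l) (vv ε l0 g) = 0 := fun l hl =>
    hf_swap_zero (hat_orth hg0 (g l0) hl)
  have h1 : hf ε (g l0) (vv ε l0 g) = hf ε (vv ε l0 g) (vv ε l0 g) := by
    have h5 : hf ε (vv ε l0 g) (vv ε l0 g) = hf ε (g l0 + ∑ l, c l • g l) (vv ε l0 g) :=
      congrArg (fun z => hf ε z (vv ε l0 g)) hv'
    rw [h5, hf_add_left, hf_sum_left]
    have : ∑ l, c l * hf ε (g l) (vv ε l0 g) = 0 := by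
      refine Finset.sum_eq_zero fun l _ => ?_
      rcases le_or_gt l l0 with h | h
      · rw [hc l h, zero_mul]
      · rw [hovv l h, mul_zero]
    rw [this, add_zero]
  have h2 : hf ε (∑ k, d k • g k) (vv ε l0 g) = d l0 * hf ε (vv ε l0 g) (vv ε l0 g) := by
    rw [hf_sum_left, Finset.sum_eq_single l0]
    · rw [h1]
    · intro l _ hne'
      rcases lt_or_gt_of_ne hne' with h | h
      · rw [hmin l h, zero_mul]
      · rw [hovv l h, mul_zero]
    · intro h
      exact absurd (Finset.mem_univ _) h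
  have h3 : hf ε (∑ k, d k • g k) (vv ε l0 g) = 0 := by
    rw [hv', hf_add_right, hf_sum_right, ho l0 hml]
    have : ∑ l, conj (c l) * hf ε (∑ k, d k • g k) (g l) = 0 := by
      refine Finset.sum_eq_zero fun l _ => ?_
      rcases le_or_gt l l0 with h | h
      · rw [hc l h, map_zero, zero_mul]
      · rw [ho l (hml.trans h), mul_zero]
    rw [this, add_zero]
  rw [h3] at h2
  rcases mul_eq_zero.1 h2.symm with h | h
  · exact hd0 h
  · exact hg.2 l0 hml' h

theorem hat_unique {ε : Fin n → ℝ} {m : Fin n} {g : Mat n} (hg : g ∈ Od ε ((m : ℕ) + 1))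
    {x y : Fin n → ℂ} {c : Fin n → ℂ} (hc : ∀ l, l ≤ m → c l = 0)
    (hy : y = x + ∑ l, c l • g l) (horth : ∀ l, m < l → hf ε y (g l) = 0) :
    y = hat ε m g x := by
  obtain ⟨c', hc', hx'⟩ := hat_span hg x
  have hz : y - hat ε m g x = ∑ l, (c l - c' l) • g l := by
    rw [hx', hy]
    simp only [sub_smul, Finset.sum_sub_distrib]
    abel
  have hd : (fun l => c l - c' l) = (0 : Fin n → ℂ) := by
    refine null_comb hg (fun l hl => by show c l - c' l = 0; rw [hc l hl, hc' l hl, sub_zero]) ?_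
    intro l hl
    rw [← hz, sub_eq_add_neg, hf_add_left, ← neg_one_smul ℂ, hf_smul_left, horth l hl,
      hat_orth hg x hl]
    ring
  have hz0 : y - hat ε m g x = 0 := by
    rw [hz]
    refine Finset.sum_eq_zero fun l _ => ?_
    have := congrFun hd l
    change c l - c' l = 0 at this
    rw [this, zero_smul]
  exact sub_eq_zero.1 hz0

theorem hat_row_zero {ε : Fin n → ℝ} {m : Fin n} {g : Mat n} (hg : g ∈ Od ε ((m : ℕ) + 1))
    {l : Fin n} (hl : m < l) : hat ε m g (g l) = 0 := by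
  symm
  refine hat_unique (c := fun k => if k = l then -1 else 0) hg ?_ ?_ ?_
  · intro k hk
    have : k ≠ l := by
      rintro rfl
      exact absurd hl (not_lt.2 hk)
    exact if_neg this
  · simp
  · intro k _
    exact hf_zero_left ε _

theorem vv_ne_zero {ε : Fin n → ℝ} {m : Fin n} {g : Mat n} (hg : g ∈ Od ε ((m : ℕ) + 1)) :
    vv ε m g ≠ 0 := by
  intro h
  obtain ⟨c, hc, hx⟩ := hat_span hg (g m)
  have hx' : vv ε m g = g m + ∑ l, c l • g l := hx
  have h1 : (fun l => (if l = m then 1 else 0) + c l) ᵥ* g = 0 := by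
    rw [Matrix.vecMul_eq_sum]
    have h4 : g m = ∑ l, (if l = m then (1 : ℂ) else 0) • g l := by
      simp
    rw [h4, ← Finset.sum_add_distrib] at hx'
    rw [← h, hx']
    refine Finset.sum_congr rfl fun l _ => ?_
    rw [add_smul]
  have h2 := Matrix.eq_zero_of_vecMul_eq_zero hg.1 h1
  have h3 := congrFun h2 m
  simp [hc m le_rfl] at h3

/-- `<hat x, y> = <x, y>` if `y` is orthogonal to the rows of index `> m` -/
theorem hf_hat {ε : Fin n → ℝ} {m : Fin n} {g : Mat n} (hg : g ∈ Od ε ((m : ℕ) + 1))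
    (x : Fin n → ℂ) {y : Fin n → ℂ} (hy : ∀ l, m < l → hf ε y (g l) = 0) :
    hf ε (hat ε m g x) y = hf ε x y := by
  obtain ⟨c, hc, hx⟩ := hat_span hg x
  rw [hx, hf_add_left, hf_sum_left]
  have : ∑ l, c l * hf ε (g l) y = 0 := by
    refine Finset.sum_eq_zero fun l _ => ?_
    rcases le_or_gt l m with h | h
    · rw [hc l h, zero_mul]
    · rw [hf_swap_zero (hy l h), mul_zero]
  rw [this, add_zero]

end

end Pool.Agent.Work.MP_dd0ddf_al.AR
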