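import Pool.Agent.Work.MP_dd0ddf_al.AR.Op

/-!
# TF1 (S-M): closure properties of the spaces of test functions

`K` is compact, `Ω` open, `K ⊆ Ω`; coefficients are smooth on `Ω` only.  A product `c(g) F(g,t)` is
smooth: near a point with `x.1 ∈ Ω` it is a product of smooth functions; near a point with
`x.1 ∉ K` it is `0` (`K` is closed); `Ω ∪ Kᶜ` is everything.  Use `contDiff_iff_contDiffAt` and
`ContDiffAt.congr_of_eventuallyEq`.  `dG X F` : `fderiv ℝ F` is smooth (`ContDiff.fderiv_right`)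
and applied to `(X x.1, 0)`, same cut; outside `K` the function `F` is locally `0`, so its
derivative is `0`.  Compact support: `HasCompactSupport.fderiv_apply`, `HasCompactSupport.mul_left`,
or `HasCompactSupport.mono`.  Multiplication by the coordinate `t_j` is fine.  `TFs` versions: take
the same `K`; for sums use `K ∪ K'`.
-/

set_option linter.unusedSectionVars false

namespace Pool.Agent.Work.MP_dd0ddf_al.AR

open scoped SchwartzMap Matrix.Norms.Elementwise ComplexConjugate ContDiff Topology LineDeriv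
open Matrix MeasureTheory Filter

noncomputable section

variable {n : ℕ}

theorem TFK_mono {K K' : Set (Mat n)} (h : K ⊆ K') {F : XX n → ℂ} (hF : F ∈ TFK K) :
    F ∈ TFK K' := by
  exact ⟨hF.1, hF.2.1, fun x hx => hF.2.2 x fun h' => hx (h h')⟩

theorem TFs_mono {Ω Ω' : Set (Mat n)} (h : Ω ⊆ Ω') {F : XX n → ℂ} (hF : F ∈ TFs Ω) :
    F ∈ TFs Ω' := by
  obtain ⟨K, hK, hKΩ, hF⟩ := hF
  exact ⟨K, hK, hKΩ.trans h, hF⟩

theorem TFs_zero {Ω : Set (Mat n)} : (0 : XX n → ℂ) ∈ TFs Ω := by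
  exact ⟨∅, isCompact_empty, Set.empty_subset _, (TFK ∅).zero_mem⟩

theorem TFs_add {Ω : Set (Mat n)} {F G : XX n → ℂ} (hF : F ∈ TFs Ω) (hG : G ∈ TFs Ω) :
    F + G ∈ TFs Ω := by
  obtain ⟨K, hK, hKΩ, hF⟩ := hF
  obtain ⟨K', hK', hKΩ', hG⟩ := hG
  exact ⟨K ∪ K', hK.union hK', Set.union_subset hKΩ hKΩ',
    (TFK (K ∪ K')).add_mem (TFK_mono Set.subset_union_left hF)
      (TFK_mono Set.subset_union_right hG)⟩

theorem TFs_smul {Ω : Set (Mat n)} {F : XX n → ℂ} (c : ℂ) (hF : F ∈ TFs Ω) : c • F ∈ TFs Ω := by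
  obtain ⟨K, hK, hKΩ, hF⟩ := hF
  exact ⟨K, hK, hKΩ, (TFK K).smul_mem c hF⟩

private theorem tf_zero_nhds {K : Set (Mat n)} (hK : IsCompact K) {F : XX n → ℂ}
    (hF : ∀ x : XX n, x.1 ∉ K → F x = 0) {x : XX n} (hx : x.1 ∉ K) : F =ᶠ[𝓝 x] fun _ => 0 := by
  have h1 : IsOpen {y : XX n | y.1 ∉ K} := hK.isClosed.isOpen_compl.preimage continuous_fst
  filter_upwards [h1.mem_nhds hx] with y hy
  exact hF y hy

private theorem tf_cut {Ω K : Set (Mat n)} (hK : IsCompact K) (hKΩ : K ⊆ Ω) {F : XX n → ℂ}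
    (hF : ∀ x : XX n, x.1 ∉ K → F x = 0) (h : ∀ x : XX n, x.1 ∈ Ω → ContDiffAt ℝ ∞ F x) :
    ContDiff ℝ ∞ F := by
  rw [contDiff_iff_contDiffAt]
  intro x
  by_cases hx : x.1 ∈ K
  · exact h x (hKΩ hx)
  · exact contDiffAt_const.congr_of_eventuallyEq (tf_zero_nhds hK hF hx)

theorem mG_mem {Ω K : Set (Mat n)} (hΩ : IsOpen Ω) (hK : IsCompact K) (hKΩ : K ⊆ Ω)
    {c : Mat n → ℂ} (hc : ContDiffOn ℝ ∞ c Ω) {F : XX n → ℂ} (hF : F ∈ TFK K) :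
    mG c F ∈ TFK K := by
  refine ⟨tf_cut hK hKΩ (fun x hx => ?_) (fun x hx => ?_), ?_, fun x hx => ?_⟩
  · simp only [mG, hF.2.2 x hx, mul_zero]
  · have h1 : ContDiffAt ℝ ∞ (fun y : XX n => c y.1) x :=
      (hc.contDiffAt (hΩ.mem_nhds hx)).comp x contDiffAt_fst
    exact h1.mul hF.1.contDiffAt
  · exact hF.2.1.mul_left
  · simp only [mG, hF.2.2 x hx, mul_zero]

theorem dG_mem {Ω K : Set (Mat n)} (hΩ : IsOpen Ω) (hK : IsCompact K) (hKΩ : K ⊆ Ω)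
    {X : Mat n → Mat n} (hX : ContDiffOn ℝ ∞ X Ω) {F : XX n → ℂ} (hF : F ∈ TFK K) :
    dG X F ∈ TFK K := by
  have h0 : ∀ x : XX n, x.1 ∉ K → dG X F x = 0 := by
    intro x hx
    have h1 := (tf_zero_nhds hK hF.2.2 hx).fderiv_eq (𝕜 := ℝ)
    simp only [dG]
    rw [h1, fderiv_fun_const]
    rfl
  refine ⟨tf_cut hK hKΩ h0 (fun x hx => ?_), ?_, h0⟩
  · have h1 : ContDiffAt ℝ ∞ (fun y : XX n => X y.1) x :=
      (hX.contDiffAt (hΩ.mem_nhds hx)).comp x contDiffAt_fst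
    have h2 := hF.1.fderiv_right (m := ∞) (by simp)
    exact h2.contDiffAt.clm_apply (h1.prodMk contDiffAt_const)
  · refine (hF.2.1.fderiv ℝ).mono ?_
    intro x hx hx'
    apply hx
    simp only [dG]
    rw [hx']
    rfl

theorem dT_mem {K : Set (Mat n)} (hK : IsCompact K) (j : Fin n) {F : XX n → ℂ}
    (hF : F ∈ TFK K) : dT j F ∈ TFK K := by
  have h0 : ∀ x : XX n, x.1 ∉ K → dT j F x = 0 := by
    intro x hx
    have h1 := (tf_zero_nhds hK hF.2.2 hx).fderiv_eq (𝕜 := ℝ)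
    simp only [dT]
    rw [h1, fderiv_fun_const]
    rfl
  refine ⟨?_, ?_, h0⟩
  · have h2 := hF.1.fderiv_right (m := ∞) (by simp)
    exact h2.clm_apply contDiff_const
  · refine (hF.2.1.fderiv ℝ).mono ?_
    intro x hx hx'
    apply hx
    simp only [dT]
    rw [hx']
    rfl

private theorem tf_tm {K : Set (Mat n)} (j : Fin n) {F : XX n → ℂ}
    (hF : F ∈ TFK K) : (fun x : XX n => ((x.2 j : ℝ) : ℂ) * F x) ∈ TFK K := by
  refine ⟨?_, ?_, fun x hx => ?_⟩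
  · have h1 : ContDiff ℝ ∞ (fun x : XX n => ((x.2 j : ℝ) : ℂ)) :=
      (Complex.ofRealCLM.comp ((ContinuousLinearMap.proj (R := ℝ) (φ := fun _ : Fin n => ℝ) j).comp
        (ContinuousLinearMap.snd ℝ (Mat n) (Fin n → ℝ)))).contDiff
    exact h1.mul hF.1
  · exact hF.2.1.mul_left
  · simp only [hF.2.2 x hx, mul_zero]

private theorem tf_coef {Ω : Set (Mat n)} {r : Mat n → Fin n → ℂ} (hr : ContDiffOn ℝ ∞ r Ω)
    (j : Fin n) : ContDiffOn ℝ ∞ (fun g => r g j) Ω :=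
  (contDiffOn_pi.1 hr) j

private theorem tf_coefc {Ω : Set (Mat n)} {r : Mat n → Fin n → ℂ} (hr : ContDiffOn ℝ ∞ r Ω)
    (j : Fin n) : ContDiffOn ℝ ∞ (fun g => conj (r g j)) Ω :=
  Complex.conjCLE.contDiff.comp_contDiffOn (tf_coef hr j)

theorem opA_mem (ε : Fin n → ℝ) (a : ℝ) {Ω K : Set (Mat n)} (hΩ : IsOpen Ω) (hK : IsCompact K)
    (hKΩ : K ⊆ Ω) {r : Mat n → Fin n → ℂ} (hr : ContDiffOn ℝ ∞ r Ω) {F : XX n → ℂ}
    (hF : F ∈ TFK K) : opA ε a r F ∈ TFK K := by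
  have h : opA ε a r F = -∑ j, (ε j : ℂ) • mG (fun g => r g j)
      ((1 / 2 : ℂ) • (dT j F + (2 * a * ε j : ℂ) • fun x : XX n => ((x.2 j : ℝ) : ℂ) * F x)) := by
    funext x
    simp only [opA, mG, Pi.neg_apply, Finset.sum_apply, Pi.smul_apply, Pi.add_apply, smul_eq_mul]
    congr 1
    refine Finset.sum_congr rfl fun j _ => ?_
    ring
  rw [h]
  refine (TFK K).neg_mem ((TFK K).sum_mem fun j _ => (TFK K).smul_mem _ ?_)
  exact mG_mem hΩ hK hKΩ (tf_coef hr j) ((TFK K).smul_mem _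
    ((TFK K).add_mem (dT_mem hK j hF) ((TFK K).smul_mem _ (tf_tm j hF))))

theorem opB_mem (ε : Fin n → ℝ) (a : ℝ) {Ω K : Set (Mat n)} (hΩ : IsOpen Ω) (hK : IsCompact K)
    (hKΩ : K ⊆ Ω) {r : Mat n → Fin n → ℂ} (hr : ContDiffOn ℝ ∞ r Ω) {F : XX n → ℂ}
    (hF : F ∈ TFK K) : opB ε a r F ∈ TFK K := by
  have h : opB ε a r F = -∑ j, (ε j : ℂ) • mG (fun g => conj (r g j))
      ((1 / 2 : ℂ) • (dT j F - (2 * a * ε j : ℂ) • fun x : XX n => ((x.2 j : ℝ) : ℂ) * F x)) := by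
    funext x
    simp only [opB, mG, Pi.neg_apply, Finset.sum_apply, Pi.smul_apply, Pi.sub_apply, smul_eq_mul]
    congr 1
    refine Finset.sum_congr rfl fun j _ => ?_
    ring
  rw [h]
  refine (TFK K).neg_mem ((TFK K).sum_mem fun j _ => (TFK K).smul_mem _ ?_)
  exact mG_mem hΩ hK hKΩ (tf_coefc hr j) ((TFK K).smul_mem _
    ((TFK K).sub_mem (dT_mem hK j hF) ((TFK K).smul_mem _ (tf_tm j hF))))

theorem mG_mem_s {Ω : Set (Mat n)} (hΩ : IsOpen Ω) {c : Mat n → ℂ} (hc : ContDiffOn ℝ ∞ c Ω)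
    {F : XX n → ℂ} (hF : F ∈ TFs Ω) : mG c F ∈ TFs Ω := by
  obtain ⟨K, hK, hKΩ, hF⟩ := hF
  exact ⟨K, hK, hKΩ, mG_mem hΩ hK hKΩ hc hF⟩

theorem dG_mem_s {Ω : Set (Mat n)} (hΩ : IsOpen Ω) {X : Mat n → Mat n}
    (hX : ContDiffOn ℝ ∞ X Ω) {F : XX n → ℂ} (hF : F ∈ TFs Ω) : dG X F ∈ TFs Ω := by
  obtain ⟨K, hK, hKΩ, hF⟩ := hF
  exact ⟨K, hK, hKΩ, dG_mem hΩ hK hKΩ hX hF⟩

theorem opA_mem_s (ε : Fin n → ℝ) (a : ℝ) {Ω : Set (Mat n)} (hΩ : IsOpen Ω)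
    {r : Mat n → Fin n → ℂ} (hr : ContDiffOn ℝ ∞ r Ω) {F : XX n → ℂ} (hF : F ∈ TFs Ω) :
    opA ε a r F ∈ TFs Ω := by
  obtain ⟨K, hK, hKΩ, hF⟩ := hF
  exact ⟨K, hK, hKΩ, opA_mem ε a hΩ hK hKΩ hr hF⟩

theorem opB_mem_s (ε : Fin n → ℝ) (a : ℝ) {Ω : Set (Mat n)} (hΩ : IsOpen Ω)
    {r : Mat n → Fin n → ℂ} (hr : ContDiffOn ℝ ∞ r Ω) {F : XX n → ℂ} (hF : F ∈ TFs Ω) :
    opB ε a r F ∈ TFs Ω := by
  obtain ⟨K, hK, hKΩ, hF⟩ := hF
  exact ⟨K, hK, hKΩ, opB_mem ε a hΩ hK hKΩ hr hF⟩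

end

end Pool.Agent.Work.MP_dd0ddf_al.AR
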