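import Pool.Agent.Work.MP_dd0ddf_al.AR.ParA
import Pool.Agent.Work.MP_dd0ddf_al.AR.TF1

/-!
# ParB (S-M): differentiation of `T(Φ(p, ·))` in the parameter

`D q = T (x ↦ fderiv ℝ Φ (p, x) (q, 0))` is linear in `q` (`T` is linear on all functions), and
continuous because `P` is finite dimensional (`LinearMap.toContinuousLinearMap`).  The functions
`x ↦ Φ (q, x)` and `x ↦ fderiv ℝ Φ (p, x) (q, 0)` are in `TFK K`; by `taylor_bound` with
`C = K ×ˢ closedBall 0 R` and `IsDistK K T`: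
`|T(Φ(p+q,·)) - T(Φ(p,·)) - D q| ≤ C c ‖q‖^2` for small `q`.
-/

set_option linter.unusedSectionVars false

namespace Pool.Agent.Work.MP_dd0ddf_al.AR

open scoped SchwartzMap Matrix.Norms.Elementwise ComplexConjugate ContDiff Topology LineDeriv
open Matrix MeasureTheory Filter

noncomputable section

variable {n : ℕ}

private theorem pb_sl {P E : Type} [NormedAddCommGroup P] [NormedSpace ℝ P]
    [NormedAddCommGroup E] [NormedSpace ℝ E] {Φ : P × E → ℂ} (hΦ : ContDiff ℝ ∞ Φ) (p q : P) :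
    ContDiff ℝ ∞ (fun x : E => fderiv ℝ Φ (p, x) (q, 0)) := by
  have hD : ContDiff ℝ ∞ (fderiv ℝ Φ) := hΦ.fderiv_right (m := ∞) (by simp)
  exact (hD.comp (contDiff_const.prodMk contDiff_id)).clm_apply contDiff_const

private theorem pb_der0 {P E : Type} [NormedAddCommGroup P] [NormedSpace ℝ P]
    [NormedAddCommGroup E] [NormedSpace ℝ E] {Φ : P × E → ℂ} (hΦ : ContDiff ℝ ∞ Φ) (p : P)
    (x : E) (hx : ∀ᶠ s in 𝓝 p, Φ (s, x) = 0) (q : P) : fderiv ℝ Φ (p, x) (q, 0) = 0 := by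
  have hdiff : Differentiable ℝ Φ := hΦ.differentiable (by simp)
  have ha : HasFDerivAt (fun s => Φ (s, x))
      ((fderiv ℝ Φ (p, x)).comp (ContinuousLinearMap.inl ℝ P E)) p :=
    (hdiff (p, x)).hasFDerivAt.comp p (hasFDerivAt_prodMk_left p x)
  have hb : HasFDerivAt (fun s => Φ (s, x)) (0 : P →L[ℝ] ℂ) p :=
    (hasFDerivAt_const (0 : ℂ) p).congr_of_eventuallyEq hx
  have := congrArg (fun L : P →L[ℝ] ℂ => L q) (ha.unique hb)
  simpa using this

private theorem pb_lin {P E : Type} [NormedAddCommGroup P] [NormedSpace ℝ P]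
    [NormedAddCommGroup E] [NormedSpace ℝ E] (Φ : P × E → ℂ) (p : P) (x : E) (c c' : ℝ)
    (q q' : P) : fderiv ℝ Φ (p, x) (c • q + c' • q', 0) =
      (c : ℂ) * fderiv ℝ Φ (p, x) (q, 0) + (c' : ℂ) * fderiv ℝ Φ (p, x) (q', 0) := by
  have : ((c • q + c' • q', 0) : P × E) = c • ((q, 0) : P × E) + c' • ((q', 0) : P × E) := by
    simp
  rw [this, map_add, map_smul, map_smul, Complex.real_smul, Complex.real_smul]

theorem hasFDerivAt_T {P : Type} [NormedAddCommGroup P] [NormedSpace ℝ P]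
    [FiniteDimensional ℝ P] {K : Set (Mat n)} (hK : IsCompact K) {T : (XX n → ℂ) →ₗ[ℂ] ℂ}
    (hT : IsDistK K T) {Φ : P × XX n → ℂ} (hΦ : ContDiff ℝ ∞ Φ)
    (hK0 : ∀ (p : P) (x : XX n), x.1 ∉ K → Φ (p, x) = 0) (p : P) {V : Set P} (hV : V ∈ 𝓝 p)
    (R : ℝ) (hR : ∀ q ∈ V, ∀ x : XX n, R < ‖x.2‖ → Φ (q, x) = 0) :
    ∃ D : P →L[ℝ] ℂ, (∀ q, D q = T (fun x => fderiv ℝ Φ (p, x) (q, 0))) ∧
      HasFDerivAt (fun q => T (fun x => Φ (q, x))) D p := by
  classical
  set C : Set (XX n) := K ×ˢ Metric.closedBall (0 : Fin n → ℝ) R with hCdef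
  have hC : IsCompact C := hK.prod (isCompact_closedBall _ _)
  have h0 : ∀ q ∈ V, ∀ x, x ∉ C → Φ (q, x) = 0 := by
    intro q hq x hx
    by_cases h1 : x.1 ∈ K
    · refine hR q hq x ?_
      by_contra h2
      exact hx ⟨h1, by simpa using not_lt.1 h2⟩
    · exact hK0 q x h1
  -- slices
  have hsl : ∀ q : P, ContDiff ℝ ∞ (fun x : XX n => Φ (q, x)) := fun q =>
    hΦ.comp (contDiff_const.prodMk contDiff_id)
  have hsl' : ∀ q : P, ContDiff ℝ ∞ (fun x : XX n => fderiv ℝ Φ (p, x) (q, 0)) := fun q =>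
    pb_sl hΦ p q
  have hder0 : ∀ x : XX n, (∀ᶠ s in 𝓝 p, Φ (s, x) = 0) → ∀ q : P,
      fderiv ℝ Φ (p, x) (q, 0) = 0 := by
    intro x hx q
    exact pb_der0 hΦ p x hx q
  have hcs : ∀ F : XX n → ℂ, (∀ x, x ∉ C → F x = 0) → HasCompactSupport F := fun F hF =>
    HasCompactSupport.intro hC hF
  have hm1 : ∀ q ∈ V, (fun x : XX n => Φ (q, x)) ∈ TFK K := fun q hq =>
    ⟨hsl q, hcs _ (h0 q hq), fun x hx => hK0 q x hx⟩
  have hm2 : ∀ q : P, (fun x : XX n => fderiv ℝ Φ (p, x) (q, 0)) ∈ TFK K := fun q =>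
    ⟨hsl' q, hcs _ (fun x hx => hder0 x (by
      filter_upwards [hV] with s hs
      exact h0 s hs x hx) q), fun x hx => hder0 x (Eventually.of_forall fun s => hK0 s x hx) q⟩
  -- the derivative
  let D0 : P →ₗ[ℝ] ℂ :=
    { toFun := fun q => T (fun x => fderiv ℝ Φ (p, x) (q, 0))
      map_add' := by
        intro q q'
        rw [← map_add]
        congr 1
        funext x
        have h := pb_lin Φ p x 1 1 q q'
        rw [one_smul, one_smul, Complex.ofReal_one, one_mul, one_mul] at h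
        exact h
      map_smul' := by
        intro c q
        have h1 : (fun x => fderiv ℝ Φ (p, x) (c • q, 0)) =
            (c : ℂ) • (fun x => fderiv ℝ Φ (p, x) (q, 0)) := by
          funext x
          have h := pb_lin Φ p x c 0 q 0
          rw [zero_smul, add_zero, Complex.ofReal_zero, zero_mul, add_zero] at h
          exact h
        rw [h1, map_smul]
        simp }
  refine ⟨LinearMap.toContinuousLinearMap D0, fun q => rfl, ?_⟩
  obtain ⟨C₁, M, hCM⟩ := hT
  obtain ⟨c, δ, hδ, hb⟩ := taylor_bound hΦ p hV hC h0 M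
  rw [hasFDerivAt_iff_isLittleO_nhds_zero]
  have hO : (fun h => T (fun x => Φ (p + h, x)) - T (fun x => Φ (p, x)) -
      (LinearMap.toContinuousLinearMap D0) h) =O[𝓝 0] (fun h : P => ‖h‖ ^ 2) := by
    refine Asymptotics.IsBigO.of_bound (C₁ * c) ?_
    have hev : ∀ᶠ h : P in 𝓝 0, p + h ∈ V := by
      have : Tendsto (fun h : P => p + h) (𝓝 0) (𝓝 p) := by
        have h1 : Continuous (fun h : P => p + h) := by fun_prop
        simpa using h1.tendsto 0
      exact this hV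
    have hev2 : ∀ᶠ h : P in 𝓝 0, ‖h‖ < δ := by
      have := Metric.ball_mem_nhds (0 : P) hδ
      filter_upwards [this] with h hh
      simpa using hh
    filter_upwards [hev, hev2] with h hh1 hh2
    have hFm : (fun x : XX n => Φ (p + h, x) - Φ (p, x) - fderiv ℝ Φ (p, x) (h, 0)) ∈ TFK K := by
      have := (TFK K).sub_mem ((TFK K).sub_mem (hm1 _ hh1) (hm1 p (mem_of_mem_nhds hV))) (hm2 h)
      exact this
    have hTe : T (fun x => Φ (p + h, x)) - T (fun x => Φ (p, x)) -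
        (LinearMap.toContinuousLinearMap D0) h =
        T (fun x : XX n => Φ (p + h, x) - Φ (p, x) - fderiv ℝ Φ (p, x) (h, 0)) := by
      have h1 : (LinearMap.toContinuousLinearMap D0) h =
        T (fun x => fderiv ℝ Φ (p, x) (h, 0)) := rfl
      rw [h1, ← map_sub, ← map_sub]
      rfl
    rw [hTe]
    have h2 := hCM _ hFm (c * ‖h‖ ^ 2) (fun m hm x => hb h hh2 m hm x)
    rw [norm_pow, norm_norm, mul_assoc]
    exact h2
  exact hO.trans_isLittleO (Asymptotics.isLittleO_norm_pow_id one_lt_two)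

end

end Pool.Agent.Work.MP_dd0ddf_al.AR
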