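import Pool.Agent.Work.MP_dd0ddf_al.AR.Slice
import Pool.Agent.Work.MP_dd0ddf_al.AR.ParB
import Pool.Agent.Work.MP_dd0ddf_al.AR.DL

/-!
# LCont (S-M): continuity of `t ↦ L(F(·,t))`

`L : C_c^∞(GL_n(ℂ)) → 𝓢(ℝ^n)` continuous (`ContTG`), `F ∈ TFK K`, `K ⊆ GLs n` compact.
* `L_slice_cont`: `t ↦ L(F(·,t))` is continuous into `Sch n`: `slice_unif` and `ContTG`.
* `eval_cont`: `t ↦ L(F(·,t))(t)` is continuous (`|y'(t') - y(t)| ≤ sup |y' - y| + |y(t') - y(t)|`; the
  sup norm is a continuous seminorm of the Schwartz space) and has compact support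
  (`slice_supp`, `L 0 = 0`), so it is integrable.
* `L_slice_sup`: the functions `L(F(·,t))` are uniformly bounded together with their derivatives
  `td j (L F_t)`: continuous image of a compact set, and `0` outside.
* `L_bound`: for every `N` there are `C`, `M` with
  `(1 + ‖t‖)^N |L(f)(t)| ≤ C B` for `f ∈ TGK K` with all derivatives of order `≤ M` bounded by `B`:
  take `U = {y | (1 + ‖t‖)^N |y(t)| < 1 for all t}`, which contains a neighbourhood of `0` in the
  Schwartz space (finite sum of Schwartz seminorms), get `δ`, `M`; scale: for `B > 0`,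
  `f' = (δ/B) f`.  For `B = 0`: `B' → 0`; for `B < 0` there is no such `f` (norms are `≥ 0`).
-/

set_option linter.unusedSectionVars false

namespace Pool.Agent.Work.MP_dd0ddf_al.AR

open scoped SchwartzMap Matrix.Norms.Elementwise ComplexConjugate ContDiff Topology LineDeriv
open Matrix MeasureTheory Filter

noncomputable section

variable {n : ℕ}

private theorem L_zero {L : (Mat n → ℂ) →ₗ[ℂ] Sch n} : L (fun _ => 0) = 0 := L.map_zero

theorem L_slice_cont {L : (Mat n → ℂ) →ₗ[ℂ] Sch n} (hL : ContTG L) {K : Set (Mat n)}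
    (hK : IsCompact K) (hKG : K ⊆ GLs n) {F : XX n → ℂ} (hF : F ∈ TFK K) :
    Continuous fun t : Fin n → ℝ => L (fun g => F (g, t)) := by
  rw [continuous_iff_continuousAt]
  intro t
  have h : Tendsto (fun t' : Fin n → ℝ => L (fun g => F (g, t')) - L (fun g => F (g, t))) (𝓝 t)
      (𝓝 0) := by
    intro U hU
    obtain ⟨δ, M, hδ, hM⟩ := hL K hK hKG U hU
    have h1 := slice_unif hF t M hδ
    rw [Filter.mem_map]
    filter_upwards [h1] with t' ht'
    rw [Set.mem_preimage]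
    have e : L (fun g => F (g, t')) - L (fun g => F (g, t)) =
        L (fun g => F (g, t') - F (g, t)) := by
      rw [← map_sub]
      rfl
    rw [e]
    exact hM _ ((TGK K).sub_mem (slice_mem hF t') (slice_mem hF t)) ht'
  exact tendsto_sub_nhds_zero_iff.1 h

private abbrev bc (n : ℕ) : Sch n →L[ℂ] BoundedContinuousFunction (Fin n → ℝ) ℂ :=
  SchwartzMap.toBoundedContinuousFunctionCLM ℂ (Fin n → ℝ) ℂ

theorem eval_cont {L : (Mat n → ℂ) →ₗ[ℂ] Sch n} (hL : ContTG L) {K : Set (Mat n)}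
    (hK : IsCompact K) (hKG : K ⊆ GLs n) {F : XX n → ℂ} (hF : F ∈ TFK K) :
    Continuous (fun t : Fin n → ℝ => L (fun g => F (g, t)) t) ∧
      HasCompactSupport (fun t : Fin n → ℝ => L (fun g => F (g, t)) t) := by
  constructor
  · have h1 : Continuous fun t : Fin n → ℝ => bc n (L (fun g => F (g, t))) :=
      (bc n).continuous.comp (L_slice_cont hL hK hKG hF)
    have h2 : Continuous fun t : Fin n → ℝ => (bc n (L (fun g => F (g, t)))) t :=
      h1.eval continuous_id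
    exact h2
  · obtain ⟨R, hR⟩ := slice_supp hF
    refine HasCompactSupport.intro (isCompact_closedBall (0 : Fin n → ℝ) R) fun t ht => ?_
    have h1 : R < ‖t‖ := by
      simpa [Metric.mem_closedBall, dist_zero_right] using ht
    show L (fun g => F (g, t)) t = 0
    rw [hR t h1, map_zero]
    rfl

theorem eval_integrable {L : (Mat n → ℂ) →ₗ[ℂ] Sch n} (hL : ContTG L) {F : XX n → ℂ}
    (hF : F ∈ TFs (GLs n)) :
    Integrable (fun t : Fin n → ℝ => L (fun g => F (g, t)) t) := by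
  obtain ⟨K, hK, hKG, hF'⟩ := hF
  obtain ⟨h1, h2⟩ := eval_cont hL hK hKG hF'
  exact h1.integrable_of_hasCompactSupport h2

theorem L_slice_sup {L : (Mat n → ℂ) →ₗ[ℂ] Sch n} (hL : ContTG L) {K : Set (Mat n)}
    (hK : IsCompact K) (hKG : K ⊆ GLs n) {F : XX n → ℂ} (hF : F ∈ TFK K) (j : Fin n) :
    ∃ C : ℝ, ∀ t t' : Fin n → ℝ, ‖L (fun g => F (g, t)) t'‖ ≤ C ∧
      ‖td j (L (fun g => F (g, t))) t'‖ ≤ C := by
  obtain ⟨R, hR⟩ := slice_supp hF
  have key : ∀ D : Sch n →L[ℂ] Sch n, ∃ C : ℝ, ∀ t t' : Fin n → ℝ,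
      ‖D (L (fun g => F (g, t))) t'‖ ≤ C := by
    intro D
    have h1 : Continuous fun t : Fin n → ℝ => bc n (D (L (fun g => F (g, t)))) :=
      (bc n).continuous.comp (D.continuous.comp (L_slice_cont hL hK hKG hF))
    have h2 : HasCompactSupport fun t : Fin n → ℝ => bc n (D (L (fun g => F (g, t)))) := by
      refine HasCompactSupport.intro (isCompact_closedBall (0 : Fin n → ℝ) R) fun t ht => ?_
      have h1 : R < ‖t‖ := by
        simpa [Metric.mem_closedBall, dist_zero_right] using ht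
      rw [hR t h1, map_zero, map_zero, map_zero]
    obtain ⟨C, hC⟩ := h1.bounded_above_of_compact_support h2
    refine ⟨C, fun t t' => ?_⟩
    exact (BoundedContinuousFunction.norm_coe_le_norm (bc n (D (L (fun g => F (g, t))))) t').trans
      (hC t)
  obtain ⟨C1, h1⟩ := key (ContinuousLinearMap.id ℂ (Sch n))
  obtain ⟨C2, h2⟩ := key (td j)
  exact ⟨max C1 C2, fun t t' => ⟨(h1 t t').trans (le_max_left _ _),
    (h2 t t').trans (le_max_right _ _)⟩⟩

private theorem U_mem (N : ℕ) :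
    {y : Sch n | ∀ t : Fin n → ℝ, (1 + ‖t‖) ^ N * ‖y t‖ ≤ 1} ∈ 𝓝 (0 : Sch n) := by
  rw [(schwartz_withSeminorms ℂ (Fin n → ℝ) ℂ).mem_nhds_iff]
  refine ⟨Finset.Iic (N, 0), (2 ^ N)⁻¹, by positivity, ?_⟩
  intro y hy t
  rw [Seminorm.mem_ball, sub_zero] at hy
  have h1 := SchwartzMap.one_add_le_sup_seminorm_apply (𝕜 := ℂ) (m := (N, 0)) (k := N) (n := 0)
    le_rfl le_rfl y t
  rw [norm_iteratedFDeriv_zero] at h1
  refine h1.trans ?_
  have h2 : ((Finset.Iic ((N, 0) : ℕ × ℕ)).sup (schwartzSeminormFamily ℂ (Fin n → ℝ) ℂ)) y ≤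
      (2 ^ N)⁻¹ := hy.le
  have h3 : (0 : ℝ) < 2 ^ N := by positivity
  calc (2 : ℝ) ^ N * ((Finset.Iic ((N, 0) : ℕ × ℕ)).sup
      (fun m => SchwartzMap.seminorm ℂ m.1 m.2)) y ≤ 2 ^ N * (2 ^ N)⁻¹ :=
        mul_le_mul_of_nonneg_left h2 h3.le
    _ = 1 := mul_inv_cancel₀ h3.ne'

theorem L_bound {L : (Mat n → ℂ) →ₗ[ℂ] Sch n} (hL : ContTG L) {K : Set (Mat n)}
    (hK : IsCompact K) (hKG : K ⊆ GLs n) (N : ℕ) :
    ∃ (C : ℝ) (M : ℕ), ∀ f ∈ TGK K, ∀ B : ℝ, (∀ m ≤ M, ∀ g, ‖iteratedFDeriv ℝ m f g‖ ≤ B) →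
      ∀ t : Fin n → ℝ, (1 + ‖t‖) ^ N * ‖L f t‖ ≤ C * B := by
  obtain ⟨δ, M, hδ, hM⟩ := hL K hK hKG _ (U_mem N)
  refine ⟨1 / δ, M, ?_⟩
  intro f hf B hB t
  rcases lt_trichotomy B 0 with h0 | h0 | h0
  · exact absurd ((norm_nonneg _).trans (hB 0 (Nat.zero_le M) 0)) (not_le.2 h0)
  · have h1 : f = 0 := by
      funext g
      have h2 := hB 0 (Nat.zero_le M) g
      rw [norm_iteratedFDeriv_zero, h0] at h2
      exact norm_le_zero_iff.1 h2
    rw [h1, map_zero, h0]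
    simp
  · have hc : ∀ m ≤ M, ∀ g, ‖iteratedFDeriv ℝ m (((δ / B : ℝ) : ℂ) • f) g‖ ≤ δ := by
      intro m hm g
      have h1 : ContDiffAt ℝ m f g := (hf.1.of_le (by exact_mod_cast le_top)).contDiffAt
      have h2 : iteratedFDeriv ℝ m (((δ / B : ℝ) : ℂ) • f) g =
          ((δ / B : ℝ) : ℂ) • iteratedFDeriv ℝ m f g := iteratedFDeriv_const_smul_apply h1
      rw [h2, norm_smul, Complex.norm_real, Real.norm_of_nonneg (by positivity)]
      calc δ / B * ‖iteratedFDeriv ℝ m f g‖ ≤ δ / B * B :=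
            mul_le_mul_of_nonneg_left (hB m hm g) (by positivity)
        _ = δ := by field_simp
    have h3 := hM _ ((TGK K).smul_mem ((δ / B : ℝ) : ℂ) hf) hc t
    rw [map_smul] at h3
    have h4 : ‖(((δ / B : ℝ) : ℂ) • L f) t‖ = δ / B * ‖L f t‖ := by
      show ‖((δ / B : ℝ) : ℂ) • (L f t)‖ = _
      rw [norm_smul, Complex.norm_real, Real.norm_of_nonneg (by positivity)]
    rw [h4] at h3
    have h5 : (1 + ‖t‖) ^ N * ‖L f t‖ = (B / δ) * ((1 + ‖t‖) ^ N * (δ / B * ‖L f t‖)) := by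
      field_simp
    rw [h5]
    calc (B / δ) * ((1 + ‖t‖) ^ N * (δ / B * ‖L f t‖)) ≤ (B / δ) * 1 :=
          mul_le_mul_of_nonneg_left h3 (by positivity)
      _ = 1 / δ * B := by ring

end

end Pool.Agent.Work.MP_dd0ddf_al.AR
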