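import Pool.Agent.Work.MP_dd0ddf_al.AR.DL

/-!
# LDer (S-M): the left equations for `L`

For `f ∈ TGs (GLs n)` and `x(τ) = 1 + τ • single k l z` (`k ≤ l`, upper triangular, invertible for
small `τ`): `L (f(x(τ) ·)) = chm s k (x τ) • L f` (`Equi.left`) and by `tendsto_A_act` (with `y = 1`)
`τ⁻¹ (L (f(x(τ) ·)) - L f) → L (dg (single k l z * g) f)`.  So it suffices to compute the derivative
of `chm s κ (x τ)` at `0` (limits in `Sch n` are unique):
* `k < l`: `chm = 1` identically, derivative `0`.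
* `k = l`, `z = 1`: for `|τ| < 1`, `chm = (1+τ)^{s_k} (1+τ)^{-(n-1-2k)}` (`1 + τ > 0`, so
  `(1+τ)/|1+τ| = 1`), derivative `s_k - (n-1-2k)`.
* `k = l`, `z = i`: `chm = |1+iτ|^{s_k} ((1+iτ)/|1+iτ|)^{κ_k} |1+iτ|^{-(n-1-2k)}`;
  `|1+iτ| = sqrt(1+τ^2)` has derivative `0` at `0`, so the derivative is `i κ_k`.
-/

set_option linter.unusedSectionVars false

namespace Pool.Agent.Work.MP_dd0ddf_al.AR

open scoped SchwartzMap Matrix.Norms.Elementwise ComplexConjugate ContDiff Topology LineDeriv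
open Matrix MeasureTheory Filter

noncomputable section

variable {n : ℕ}

private theorem ld_cpow {u : ℝ → ℂ} {u' : ℂ} (hu : HasDerivAt u u' 0) (hu0 : u 0 = 1) (s : ℂ) :
    HasDerivAt (fun τ => u τ ^ s) (s * u') 0 := by
  have h1 : HasDerivAt (fun w : ℂ => w ^ s) (s * 1 ^ (s - 1) * 1) (u 0) := by
    rw [hu0]
    exact (hasDerivAt_id (1 : ℂ)).cpow_const (by simp)
  have h2 := h1.scomp (0 : ℝ) hu
  simp only [Complex.one_cpow, mul_one, smul_eq_mul] at h2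
  rw [mul_comm u' s] at h2
  exact h2

private theorem ld_zpow {u : ℝ → ℂ} {u' : ℂ} (hu : HasDerivAt u u' 0) (hu0 : u 0 = 1) (m : ℤ) :
    HasDerivAt (fun τ => u τ ^ m) ((m : ℂ) * u') 0 := by
  have h1 : HasDerivAt (fun w : ℂ => w ^ m) ((m : ℂ) * 1 ^ (m - 1)) (u 0) := by
    rw [hu0]
    exact hasDerivAt_zpow m 1 (Or.inl one_ne_zero)
  have h2 := h1.scomp (0 : ℝ) hu
  simp only [_root_.one_zpow, mul_one, smul_eq_mul] at h2
  rw [mul_comm u' (m : ℂ)] at h2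
  exact h2

private theorem ld_prod {u v : ℝ → ℂ} {u' v' : ℂ} (hu : HasDerivAt u u' 0) (hu0 : u 0 = 1)
    (hv : HasDerivAt v v' 0) (hv0 : v 0 = 1) (s : ℂ) (κ m : ℤ) :
    HasDerivAt (fun τ => u τ ^ s * v τ ^ κ * u τ ^ m)
      (s * u' + (κ : ℂ) * v' + (m : ℂ) * u') 0 := by
  have h := ((ld_cpow hu hu0 s).mul (ld_zpow hv hv0 κ)).mul (ld_zpow hu hu0 m)
  have e : (s * u' * v 0 ^ κ + u 0 ^ s * ((κ : ℂ) * v')) * u 0 ^ m +
      u 0 ^ s * v 0 ^ κ * ((m : ℂ) * u') = s * u' + (κ : ℂ) * v' + (m : ℂ) * u' := by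
    rw [hu0, hv0]
    simp
  rw [← e]
  exact h

private theorem ld_chm_one (s : ℂ) (κ m : ℤ) :
    chr s κ 1 * ((‖(1 : ℂ)‖ : ℝ) : ℂ) ^ m = 1 := by
  unfold chr
  simp

private theorem ld_chm_up (s : Fin n → ℂ) (κ : Fin n → ℤ) {k l : Fin n} (hkl : k < l) (z : ℂ)
    (τ : ℝ) : chm s κ (1 + τ • Matrix.single k l z) = 1 := by
  unfold chm
  apply Finset.prod_eq_one
  intro j _
  have e : (1 + τ • Matrix.single k l z : Mat n) j j = 1 := by
    rw [Matrix.add_apply, Matrix.one_apply_eq, Matrix.smul_apply, Matrix.single_apply, if_neg]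
    · simp
    · rintro ⟨h1, h2⟩
      rw [h1, h2] at hkl
      exact absurd hkl (lt_irrefl _)
  rw [e]
  exact ld_chm_one _ _ _

private theorem ld_chm_diag (s : Fin n → ℂ) (κ : Fin n → ℤ) (k : Fin n) (z : ℂ)
    (τ : ℝ) : chm s κ (1 + τ • Matrix.single k k z) =
      ((‖1 + (τ : ℂ) * z‖ : ℝ) : ℂ) ^ (s k) *
        ((1 + (τ : ℂ) * z) / ((‖1 + (τ : ℂ) * z‖ : ℝ) : ℂ)) ^ (κ k) *
        ((‖1 + (τ : ℂ) * z‖ : ℝ) : ℂ) ^ (-((n : ℤ) - 1 - 2 * ((k : ℕ) : ℤ))) := by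
  unfold chm
  rw [Finset.prod_eq_single k]
  · have e : (1 + τ • Matrix.single k k z : Mat n) k k = 1 + (τ : ℂ) * z := by
      rw [Matrix.add_apply, Matrix.one_apply_eq, Matrix.smul_apply, Matrix.single_apply_same,
        Complex.real_smul]
    rw [e]
    rfl
  · intro j _ hj
    have e : (1 + τ • Matrix.single k k z : Mat n) j j = 1 := by
      rw [Matrix.add_apply, Matrix.one_apply_eq, Matrix.smul_apply, Matrix.single_apply, if_neg]
      · simp
      · rintro ⟨h1, -⟩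
        exact hj h1.symm
    rw [e]
    exact ld_chm_one _ _ _
  · intro h
    exact absurd (Finset.mem_univ k) h

private theorem ld_gen {ε : Fin n → ℝ} {a : ℝ} {W : Weil ε a} {s : Fin n → ℂ} {κ : Fin n → ℤ}
    {L : (Mat n → ℂ) →ₗ[ℂ] Sch n} (hL : Equi W s κ L) {X : Mat n}
    (hX : ∀ i j, j < i → X i j = 0) {c : ℂ}
    (hc : HasDerivAt (fun τ : ℝ => chm s κ (1 + τ • X)) c 0)
    (hc0 : chm s κ (1 + (0 : ℝ) • X) = 1)
    {f : Mat n → ℂ} (hf : f ∈ TGs (GLs n)) : L (dg (fun g => X * g) f) = c • L f := by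
  have hx : ContDiff ℝ ∞ (fun τ : ℝ => (1 : Mat n) + τ • X) :=
    contDiff_const.add (contDiff_id.smul contDiff_const)
  have hd : HasDerivAt (fun τ : ℝ => (1 : Mat n) + τ • X) X 0 := by
    have h := ((hasDerivAt_id (0 : ℝ)).smul_const X).const_add (1 : Mat n)
    rw [one_smul] at h
    exact h
  have h1 := tendsto_A_act hL.cont hf hx (y := fun _ => (1 : Mat n)) contDiff_const
    (by simp) rfl
  have e1 : (dg (fun g => deriv (fun τ : ℝ => (1 : Mat n) + τ • X) 0 * g +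
      g * deriv (fun _ : ℝ => (1 : Mat n)) 0) f) = dg (fun g => X * g) f := by
    have e0 : deriv (fun τ : ℝ => (1 : Mat n) + τ • X) 0 = X := hd.deriv
    have e00 : deriv (fun _ : ℝ => (1 : Mat n)) 0 = 0 := (hasDerivAt_const (0 : ℝ) (1 : Mat n)).deriv
    rw [e0, e00]
    simp only [mul_zero, add_zero]
  rw [e1] at h1
  have hdet : ∀ᶠ τ : ℝ in 𝓝[≠] 0, ((1 : Mat n) + τ • X).det ≠ 0 := by
    have hcont : Continuous fun τ : ℝ => ((1 : Mat n) + τ • X).det :=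
      Continuous.matrix_det hx.continuous
    have h0 : ((1 : Mat n) + (0 : ℝ) • X).det ≠ 0 := by
      rw [zero_smul, add_zero, Matrix.det_one]
      exact one_ne_zero
    exact (hcont.continuousAt.eventually_ne h0).filter_mono nhdsWithin_le_nhds
  have h2 : Tendsto (fun τ : ℝ => ((τ : ℂ)⁻¹ * (chm s κ (1 + τ • X) - 1)) • L f)
      (𝓝[≠] 0) (𝓝 (L (dg (fun g => X * g) f))) := by
    refine h1.congr' ?_
    filter_upwards [hdet] with τ hτ
    have hup : ∀ i j, j < i → ((1 : Mat n) + τ • X) i j = 0 := by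
      intro i j hij
      rw [Matrix.add_apply, Matrix.one_apply_ne hij.ne', Matrix.smul_apply, hX i j hij]
      simp
    have e2 := hL.left _ hup hτ f hf
    have e3 : (fun g => f ((1 + τ • X) * g * 1)) = fun g => f ((1 + τ • X) * g) := by
      funext g
      rw [mul_one]
    rw [e3, e2, mul_smul, sub_smul, one_smul]
  have h3 : Tendsto (fun τ : ℝ => ((τ : ℂ)⁻¹ * (chm s κ (1 + τ • X) - 1)) • L f)
      (𝓝[≠] 0) (𝓝 (c • L f)) := by
    have h4 := hasDerivAt_iff_tendsto_slope_zero.1 hc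
    have h5 : Tendsto (fun τ : ℝ => (τ : ℂ)⁻¹ * (chm s κ (1 + τ • X) - 1)) (𝓝[≠] 0) (𝓝 c) := by
      refine h4.congr fun τ => ?_
      rw [zero_add, hc0, Complex.real_smul, Complex.ofReal_inv]
    exact h5.smul_const _
  exact tendsto_nhds_unique h2 h3

private theorem ld_single {k l : Fin n} (hkl : k ≤ l) (z : ℂ) :
    ∀ i j, j < i → (Matrix.single k l z : Mat n) i j = 0 := by
  intro i j hij
  rw [Matrix.single_apply, if_neg]
  rintro ⟨h1, h2⟩
  rw [h1, h2] at hkl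
  exact absurd hkl (not_le.2 hij)

theorem L_up {ε : Fin n → ℝ} {a : ℝ} {W : Weil ε a} {s : Fin n → ℂ} {κ : Fin n → ℤ}
    {L : (Mat n → ℂ) →ₗ[ℂ] Sch n} (hL : Equi W s κ L) {k l : Fin n} (hkl : k < l) (z : ℂ)
    {f : Mat n → ℂ} (hf : f ∈ TGs (GLs n)) :
    L (dg (fun g => Matrix.single k l z * g) f) = 0 := by
  have h := ld_gen hL (ld_single hkl.le z) (c := 0) (by
    have e : (fun τ : ℝ => chm s κ (1 + τ • Matrix.single k l z)) = fun _ => (1 : ℂ) := by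
      funext τ
      exact ld_chm_up s κ hkl z τ
    rw [e]
    exact hasDerivAt_const _ _) (ld_chm_up s κ hkl z 0) hf
  rw [zero_smul] at h
  exact h

theorem L_re {ε : Fin n → ℝ} {a : ℝ} {W : Weil ε a} {s : Fin n → ℂ} {κ : Fin n → ℤ}
    {L : (Mat n → ℂ) →ₗ[ℂ] Sch n} (hL : Equi W s κ L) (k : Fin n)
    {f : Mat n → ℂ} (hf : f ∈ TGs (GLs n)) :
    L (dg (fun g => Matrix.single k k 1 * g) f) =
      (s k - ((n : ℂ) - 1 - 2 * ((k : ℕ) : ℂ))) • L f := by
  refine ld_gen hL (ld_single le_rfl 1) ?_ ?_ hf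
  · have hu : HasDerivAt (fun τ : ℝ => ((‖1 + (τ : ℂ) * 1‖ : ℝ) : ℂ)) 1 0 := by
      have h1 : HasDerivAt (fun τ : ℝ => (1 : ℂ) + (τ : ℂ)) 1 0 :=
        (hasDerivAt_id (0 : ℝ)).ofReal_comp.const_add 1
      refine h1.congr_of_eventuallyEq ?_
      filter_upwards [Ioo_mem_nhds (show (-1 : ℝ) < 0 by norm_num) (zero_lt_one)] with τ hτ
      have h2 : (1 : ℂ) + (τ : ℂ) * 1 = ((1 + τ : ℝ) : ℂ) := by push_cast; ring
      rw [h2, Complex.norm_real, Real.norm_eq_abs, abs_of_pos (by linarith [hτ.1])]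
      push_cast
      ring
    have hv : HasDerivAt (fun τ : ℝ => (1 + (τ : ℂ) * 1) / ((‖1 + (τ : ℂ) * 1‖ : ℝ) : ℂ)) 0 0 := by
      refine (hasDerivAt_const (0 : ℝ) (1 : ℂ)).congr_of_eventuallyEq ?_
      filter_upwards [Ioo_mem_nhds (show (-1 : ℝ) < 0 by norm_num) (zero_lt_one)] with τ hτ
      have h2 : (1 : ℂ) + (τ : ℂ) * 1 = ((1 + τ : ℝ) : ℂ) := by push_cast; ring
      rw [h2, Complex.norm_real, Real.norm_eq_abs, abs_of_pos (by linarith [hτ.1]), div_self]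
      rw [Complex.ofReal_ne_zero]
      linarith [hτ.1]
    have h := ld_prod hu (by simp) hv (by simp) (s k) (κ k) (-((n : ℤ) - 1 - 2 * ((k : ℕ) : ℤ)))
    have e : (fun τ : ℝ => chm s κ (1 + τ • Matrix.single k k 1)) = _ :=
      funext fun τ => ld_chm_diag s κ k 1 τ
    rw [e]
    refine h.congr_deriv ?_
    push_cast
    ring
  · rw [ld_chm_diag]
    simp

theorem L_im {ε : Fin n → ℝ} {a : ℝ} {W : Weil ε a} {s : Fin n → ℂ} {κ : Fin n → ℤ}
    {L : (Mat n → ℂ) →ₗ[ℂ] Sch n} (hL : Equi W s κ L) (k : Fin n)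
    {f : Mat n → ℂ} (hf : f ∈ TGs (GLs n)) :
    L (dg (fun g => Matrix.single k k Complex.I * g) f) = (Complex.I * (κ k : ℂ)) • L f := by
  refine ld_gen hL (ld_single le_rfl Complex.I) ?_ ?_ hf
  · have hN : HasDerivAt (fun τ : ℝ => √((1 : ℝ) ^ 2 + τ ^ 2)) 0 0 := by
      have h1 : HasDerivAt (fun τ : ℝ => (1 : ℝ) ^ 2 + τ ^ 2) 0 0 := by
        have := (hasDerivAt_pow 2 (0 : ℝ)).const_add ((1 : ℝ) ^ 2)
        simpa using this
      have h2 := h1.sqrt (by norm_num)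
      simpa using h2
    have hu : HasDerivAt (fun τ : ℝ => ((‖1 + (τ : ℂ) * Complex.I‖ : ℝ) : ℂ)) 0 0 := by
      have h1 := hN.ofReal_comp
      rw [Complex.ofReal_zero] at h1
      refine h1.congr_of_eventuallyEq (Filter.Eventually.of_forall fun τ => ?_)
      have h2 := Complex.norm_add_mul_I 1 τ
      rw [Complex.ofReal_one] at h2
      simp only [h2]
    have hv : HasDerivAt (fun τ : ℝ => (1 + (τ : ℂ) * Complex.I) /
        ((‖1 + (τ : ℂ) * Complex.I‖ : ℝ) : ℂ)) Complex.I 0 := by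
      have h1 : HasDerivAt (fun τ : ℝ => (1 : ℂ) + (τ : ℂ) * Complex.I) (1 * Complex.I) 0 := by
        have h3 : HasDerivAt (fun τ : ℝ => (τ : ℂ)) 1 0 := (hasDerivAt_id (0 : ℝ)).ofReal_comp
        exact (h3.mul_const Complex.I).const_add 1
      have h2 := h1.div hu (by simp)
      refine h2.congr_deriv ?_
      simp
    have h := ld_prod hu (by simp) hv (by simp) (s k) (κ k) (-((n : ℤ) - 1 - 2 * ((k : ℕ) : ℤ)))
    have e : (fun τ : ℝ => chm s κ (1 + τ • Matrix.single k k Complex.I)) = _ :=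
      funext fun τ => ld_chm_diag s κ k Complex.I τ
    rw [e]
    refine h.congr_deriv ?_
    ring
  · rw [ld_chm_diag]
    simp

end

end Pool.Agent.Work.MP_dd0ddf_al.AR
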