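import Pool.Agent.Work.MP_dd0ddf_al.AR.Op

/-!
# Liou (S): entire functions of polynomial growth

`G 0` is entire (`G 0` has derivative `G 1`), `iteratedDeriv k (G 0) = G k` (induction), and by the
Cauchy estimate on the circle of radius `ρ` (`Complex.norm_iteratedDeriv_le_of_forall_mem_sphere_norm_le`)
`‖G k 0‖ ≤ k! C (1 + ρ)^N / ρ^k → 0` as `ρ → ∞` when `k > N`.
-/

set_option linter.unusedSectionVars false

namespace Pool.Agent.Work.MP_dd0ddf_al.AR

open scoped SchwartzMap Matrix.Norms.Elementwise ComplexConjugate ContDiff Topology LineDeriv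
open Matrix MeasureTheory Filter

noncomputable section

variable {n : ℕ}

theorem liou (G : ℕ → ℂ → ℂ) (hG : ∀ k z, HasDerivAt (G k) (G (k + 1) z) z) (C : ℝ) (N : ℕ)
    (hb : ∀ z, ‖G 0 z‖ ≤ C * (1 + ‖z‖) ^ N) (k : ℕ) (hk : N < k) : G k 0 = 0 := by
  have hd : ∀ k, deriv (G k) = G (k + 1) := fun k => funext fun z => (hG k z).deriv
  have hit : ∀ k, iteratedDeriv k (G 0) = G k := by
    intro k
    induction k with
    | zero => exact iteratedDeriv_zero
    | succ k ih => rw [iteratedDeriv_succ, ih, hd]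
  have hdiff : Differentiable ℂ (G 0) := fun z => (hG 0 z).differentiableAt
  have hC : 0 ≤ C := by
    have h := hb 0
    rw [norm_zero, add_zero, one_pow, mul_one] at h
    exact (norm_nonneg _).trans h
  -- the Cauchy estimate
  have hest : ∀ ρ : ℝ, 1 ≤ ρ → ‖G k 0‖ ≤ (k.factorial * C * 2 ^ N) * (1 / ρ) := by
    intro ρ hρ
    have hρ0 : 0 < ρ := lt_of_lt_of_le one_pos hρ
    have h1 : ∀ z ∈ Metric.sphere (0 : ℂ) ρ, ‖G 0 z‖ ≤ C * (1 + ρ) ^ N := by
      intro z hz
      have h2 := hb z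
      rw [mem_sphere_zero_iff_norm] at hz
      rwa [hz] at h2
    have h2 := Complex.norm_iteratedDeriv_le_of_forall_mem_sphere_norm_le k hρ0
      hdiff.diffContOnCl h1
    rw [hit] at h2
    refine h2.trans ?_
    have h3 : (1 + ρ) ^ N ≤ 2 ^ N * ρ ^ N := by
      rw [← mul_pow]
      exact pow_le_pow_left₀ (by linarith) (by linarith) N
    have h4 : ρ ^ N * ρ ≤ ρ ^ k := by
      rw [← pow_succ]
      exact pow_le_pow_right₀ hρ hk
    have hk0 : 0 < ρ ^ k := pow_pos hρ0 k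
    rw [div_le_iff₀ hk0]
    have h5 : ρ ^ N ≤ 1 / ρ * ρ ^ k := by
      rw [one_div, ← div_eq_inv_mul, le_div_iff₀ hρ0]
      exact h4
    have hf : (0 : ℝ) ≤ k.factorial := Nat.cast_nonneg _
    calc (k.factorial : ℝ) * (C * (1 + ρ) ^ N)
        ≤ k.factorial * (C * (2 ^ N * ρ ^ N)) := by gcongr
      _ ≤ k.factorial * (C * (2 ^ N * (1 / ρ * ρ ^ k))) := by gcongr
      _ = k.factorial * C * 2 ^ N * (1 / ρ) * ρ ^ k := by ring
  have hlim : Tendsto (fun ρ : ℝ => (k.factorial * C * 2 ^ N) * (1 / ρ)) atTop (𝓝 0) := by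
    have h := (tendsto_const_nhds (x := (k.factorial * C * 2 ^ N : ℝ)) (f := atTop)).mul
      (tendsto_inv_atTop_zero (𝕜 := ℝ))
    rw [mul_zero] at h
    simpa only [one_div] using h
  have h0 : ‖G k 0‖ ≤ 0 := by
    refine ge_of_tendsto hlim ?_
    filter_upwards [eventually_ge_atTop (1 : ℝ)] with ρ hρ
    exact hest ρ hρ
  exact norm_le_zero_iff.1 h0

end

end Pool.Agent.Work.MP_dd0ddf_al.AR
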