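import Pool.Agent.Work.MP_dd0ddf_al.AR.OUq

/-!
# OMain: final statement of the block on the open orbits (helper16)
-/

set_option linter.unusedSectionVars false

namespace Pool.Agent.Work.MP_dd0ddf_al.AR

open scoped SchwartzMap Matrix.Norms.Elementwise ComplexConjugate ContDiff Topology LineDeriv
open Matrix MeasureTheory Filter

noncomputable section

variable {n : ℕ}

theorem open_uniq {ε : Fin n → ℝ} (hε : ∀ j, ε j = 1 ∨ ε j = -1) {a : ℝ} (ha : a ≠ 0)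
    (W : Weil ε a) (s : Fin n → ℂ) (κ : Fin n → ℤ) (c1 : ℂ)
    (hc : ∀ L : (Mat n → ℂ) →ₗ[ℂ] Sch n, Equi W s κ L →
      ∀ u : Fin n → ℂ, ∀ f ∈ TGs (GLs n), L (dg (fun g => g * Zm ε u) f) =
        (Complex.I / a) • AA ε a u (BB ε a u (L f)) + (Complex.I * c1 * hf ε u u) • L f)
    (L1 L2 : (Mat n → ℂ) →ₗ[ℂ] Sch n) (h1 : Equi W s κ L1) (h2 : Equi W s κ L2) :
    ∃ α1 α2 : ℂ, (α1 ≠ 0 ∨ α2 ≠ 0) ∧ ∀ f ∈ TGs (Od ε 0), α1 • L1 f + α2 • L2 f = 0 :=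
  O.open_uniq hε ha W s κ c1 hc L1 L2 h1 h2

end

end Pool.Agent.Work.MP_dd0ddf_al.AR
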