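import Pool.Agent.Work.MP_dd0ddf_al.AR.TF1

/-!
# Slice (S-M): the slices `F(·, t)` of a test function

`F ∈ TFK K`, `K` compact.  The map `g ↦ (g, t)` is `ContinuousLinearMap.inl` plus a constant, so
`iteratedFDeriv ℝ m (F(·,t)) g` is `iteratedFDeriv ℝ m F (g,t)` composed with `inl` (norm `≤ 1`):
`norm ≤`.  (`iteratedFDeriv_comp_add_right`, `ContinuousLinearMap.iteratedFDeriv_comp_right`,
`ContinuousMultilinearMap.norm_compContinuousLinearMap_le`.)  Chain rule for the derivative along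
a vector field.  `slice_unif`: the derivatives of `F` are uniformly continuous (continuous with
compact support).
-/

set_option linter.unusedSectionVars false

namespace Pool.Agent.Work.MP_dd0ddf_al.AR

open scoped SchwartzMap Matrix.Norms.Elementwise ComplexConjugate ContDiff Topology LineDeriv
open Matrix MeasureTheory Filter

noncomputable section

variable {n : ℕ}

section gen

variable {E E' : Type*} [NormedAddCommGroup E] [NormedSpace ℝ E] [NormedAddCommGroup E']
  [NormedSpace ℝ E']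

private theorem sl_bound {F : E × E' → ℂ} (hF : ContDiff ℝ ∞ F) (t : E') (m : ℕ)
    (g : E) : ‖iteratedFDeriv ℝ m (fun g => F (g, t)) g‖ ≤ ‖iteratedFDeriv ℝ m F (g, t)‖ := by
  have e1 : (fun g : E => F (g, t)) =
      (fun x : E × E' => F (x + (0, t))) ∘ (ContinuousLinearMap.inl ℝ E E') := by
    funext g
    simp
  have hF' : ContDiff ℝ ∞ (fun x : E × E' => F (x + (0, t))) :=
    hF.comp (contDiff_id.add contDiff_const)
  rw [e1, ContinuousLinearMap.iteratedFDeriv_comp_right _ hF' g (i := m)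
    (by exact_mod_cast le_top), iteratedFDeriv_comp_add_right]
  have e2 : (ContinuousLinearMap.inl ℝ E E') g + ((0 : E), t) = (g, t) := by
    simp
  rw [e2]
  refine (ContinuousMultilinearMap.norm_compContinuousLinearMap_le _ _).trans ?_
  refine (mul_le_mul_of_nonneg_left (Finset.prod_le_one (fun _ _ => norm_nonneg _)
    (fun _ _ => ContinuousLinearMap.norm_inl_le_one ℝ E E')) (norm_nonneg _)).trans ?_
  rw [mul_one]

private theorem sl_fderiv {F : E × E' → ℂ} (hF : ContDiff ℝ ∞ F) (t : E') (g v : E) :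
    fderiv ℝ F (g, t) (v, 0) = fderiv ℝ (fun g => F (g, t)) g v := by
  have h1 : HasFDerivAt F (fderiv ℝ F (g, t)) (g, t) :=
    ((hF.differentiable (by simp)) (g, t)).hasFDerivAt
  have h2 := h1.comp g (hasFDerivAt_prodMk_left (𝕜 := ℝ) g t)
  have h3 : fderiv ℝ (fun g => F (g, t)) g =
      (fderiv ℝ F (g, t)).comp (ContinuousLinearMap.inl ℝ E E') := h2.fderiv
  rw [h3]
  rfl

private theorem sl_supp {F : E × E' → ℂ} (hF : HasCompactSupport F) :
    ∃ R : ℝ, ∀ t : E', R < ‖t‖ → (fun g => F (g, t)) = 0 := by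
  obtain ⟨R, hR⟩ := (hF : IsCompact (tsupport F)).isBounded.exists_norm_le
  refine ⟨R, fun t ht => ?_⟩
  funext g
  by_contra hne
  have h1 : (g, t) ∈ tsupport F := subset_tsupport F hne
  have h2 := hR _ h1
  have h3 : ‖t‖ ≤ ‖(g, t)‖ := norm_snd_le (g, t)
  linarith

private theorem sl_unif {F : E × E' → ℂ} (hF : ContDiff ℝ ∞ F) (hF' : HasCompactSupport F)
    (t : E') (m : ℕ) {δ : ℝ} (hδ : 0 < δ) : ∀ᶠ t' in 𝓝 t, ∀ g,
      ‖iteratedFDeriv ℝ m (fun g => F (g, t') - F (g, t)) g‖ ≤ δ := by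
  have hc : Continuous (iteratedFDeriv ℝ m F) :=
    hF.continuous_iteratedFDeriv (m := m) (by exact_mod_cast le_top)
  have hu : UniformContinuous (iteratedFDeriv ℝ m F) :=
    HasCompactSupport.uniformContinuous_of_continuous (hF'.iteratedFDeriv m) hc
  obtain ⟨η, hη, h⟩ := Metric.uniformContinuous_iff.1 hu δ hδ
  filter_upwards [Metric.ball_mem_nhds t hη] with t' ht' g
  have hF1 : ContDiff ℝ ∞ (fun x : E × E' => F (x + (0, t' - t))) :=
    hF.comp (contDiff_id.add contDiff_const)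
  have e1 : (fun g : E => F (g, t') - F (g, t)) =
      fun g : E => (fun x : E × E' => F (x + (0, t' - t)) - F x) (g, t) := by
    funext g
    simp
  rw [e1]
  refine (sl_bound (hF1.sub hF) t m g).trans ?_
  have hm : ((m : ℕ∞) : WithTop ℕ∞) ≤ ∞ := by exact_mod_cast le_top
  have e4 := fun_iteratedFDeriv_sub_apply (x := ((g, t) : E × E')) (i := m)
    (hF1.of_le hm).contDiffAt (hF.of_le hm).contDiffAt
  rw [e4, iteratedFDeriv_comp_add_right, ← dist_eq_norm]
  have e5 : ((g, t) : E × E') + (0, t' - t) = (g, t') := by simp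
  rw [e5]
  refine (h ?_).le
  rw [Prod.dist_eq, dist_self]
  exact max_lt hη ht'

end gen

theorem slice_mem {K : Set (Mat n)} {F : XX n → ℂ} (hF : F ∈ TFK K) (t : Fin n → ℝ) :
    (fun g => F (g, t)) ∈ TGK K :=
  ⟨hF.1.comp (contDiff_id.prodMk contDiff_const), fun g hg => hF.2.2 (g, t) hg⟩

theorem slice_bound {K : Set (Mat n)} {F : XX n → ℂ} (hF : F ∈ TFK K) (t : Fin n → ℝ) (m : ℕ)
    (g : Mat n) : ‖iteratedFDeriv ℝ m (fun g => F (g, t)) g‖ ≤ ‖iteratedFDeriv ℝ m F (g, t)‖ :=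
  sl_bound hF.1 t m g

theorem slice_dG {K : Set (Mat n)} {F : XX n → ℂ} (hF : F ∈ TFK K) (t : Fin n → ℝ)
    (X : Mat n → Mat n) : (fun g => dG X F (g, t)) = dg X (fun g => F (g, t)) := by
  funext g
  exact sl_fderiv hF.1 t g (X g)

/-- the slices vanish for `t` outside a compact set -/
theorem slice_supp {K : Set (Mat n)} {F : XX n → ℂ} (hF : F ∈ TFK K) :
    ∃ R : ℝ, ∀ t : Fin n → ℝ, R < ‖t‖ → (fun g => F (g, t)) = 0 :=
  sl_supp hF.2.1

/-- the slices depend continuously on `t`, with all derivatives in `g` -/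
theorem slice_unif {K : Set (Mat n)} {F : XX n → ℂ} (hF : F ∈ TFK K) (t : Fin n → ℝ) (M : ℕ)
    {δ : ℝ} (hδ : 0 < δ) : ∀ᶠ t' in 𝓝 t, ∀ m ≤ M, ∀ g,
      ‖iteratedFDeriv ℝ m (fun g => F (g, t') - F (g, t)) g‖ ≤ δ := by
  have h2 : ∀ᶠ t' in 𝓝 t, ∀ m ∈ Finset.range (M + 1), ∀ g,
      ‖iteratedFDeriv ℝ m (fun g => F (g, t') - F (g, t)) g‖ ≤ δ :=
    (Finset.eventually_all _).2 fun m _ => sl_unif hF.1 hF.2.1 t m hδ
  filter_upwards [h2] with t' ht' m hm g
  exact ht' m (Finset.mem_range.2 (Nat.lt_succ_of_le hm)) g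

end

end Pool.Agent.Work.MP_dd0ddf_al.AR
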