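import Pool.Agent.Work.MP_dd0ddf_al.AR.TInt
import Pool.Agent.Work.MP_dd0ddf_al.AR.LDer
import Pool.Agent.Work.MP_dd0ddf_al.AR.Slice

/-!
# TSys (S-M): the system for `T`

`dist`: `isDist_T`.  For the left equations: `(dG X F)(·,t) = dg X (F(·,t))` (`slice_dG`), the slices
are in `TGs (GLs n)`, apply `L_up`, `L_re`, `L_im` for every `t` and integrate (`IsTof` for
`dG X F ∈ TFs (GLs n)`, `dG_mem_s`; the field `g ↦ single k l z * g` is smooth).  `Z`: by the hypothesis
`hc` for the slices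
`T (dG (g Zm u) F) = ∫ ((I/a) (AA u (BB u y_t))(t) + I c1 <u,u> y_t(t)) dt`, `y_t = L(F(·,t))`, and
`∫ (AA u (BB u y_t))(t) dt = ∫ (BB u L)((opA u F)(·,t))(t) dt` (`int_opA` for the map `BB u ∘ L`)
`= ∫ (BB u (L (opA u F)_t))(t) dt = ∫ L((opB u (opA u F))(·,t))(t) dt = T (opB u (opA u F))`
(`int_opB` for `L`).
-/

set_option linter.unusedSectionVars false

namespace Pool.Agent.Work.MP_dd0ddf_al.AR

open scoped SchwartzMap Matrix.Norms.Elementwise ComplexConjugate ContDiff Topology LineDeriv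
open Matrix MeasureTheory Filter

noncomputable section

variable {n : ℕ}

private theorem T_dG_aux {L : (Mat n → ℂ) →ₗ[ℂ] Sch n} {T : (XX n → ℂ) →ₗ[ℂ] ℂ}
    (hT : IsTof L T) {X : Mat n → Mat n} (hX : ContDiff ℝ ∞ X) {F : XX n → ℂ}
    (hF : F ∈ TFs (GLs n)) :
    T (dG X F) = ∫ t : Fin n → ℝ, L (dg X (fun g => F (g, t))) t := by
  rw [hT (dG X F) (dG_mem_s (isOpen_GLs n) hX.contDiffOn hF)]
  obtain ⟨K, hK, hKG, hFK⟩ := hF
  simp only [slice_dG hFK]

private theorem slice_mem_aux {F : XX n → ℂ} (hF : F ∈ TFs (GLs n)) (t : Fin n → ℝ) :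
    (fun g => F (g, t)) ∈ TGs (GLs n) := by
  obtain ⟨K, hK, hKG, hFK⟩ := hF
  exact ⟨K, hK, hKG, slice_mem hFK t⟩

private theorem contDiff_left_aux (A : Mat n) : ContDiff ℝ ∞ (fun g : Mat n => A * g) := by
  have h : (fun g : Mat n => A * g) = (LinearMap.toContinuousLinearMap
      (LinearMap.mulLeft ℝ A) : Mat n → Mat n) := by
    funext g
    rfl
  rw [h]
  exact ContinuousLinearMap.contDiff _

private theorem contDiff_right_aux (A : Mat n) : ContDiff ℝ ∞ (fun g : Mat n => g * A) := by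
  have h : (fun g : Mat n => g * A) = (LinearMap.toContinuousLinearMap
      (LinearMap.mulRight ℝ A) : Mat n → Mat n) := by
    funext g
    rfl
  rw [h]
  exact ContinuousLinearMap.contDiff _

theorem sys_of {ε : Fin n → ℝ} {a : ℝ} {W : Weil ε a} {s : Fin n → ℂ} {κ : Fin n → ℤ}
    {L : (Mat n → ℂ) →ₗ[ℂ] Sch n} (hL : Equi W s κ L) {T : (XX n → ℂ) →ₗ[ℂ] ℂ}
    (hT : IsTof L T) {c1 : ℂ}
    (hc : ∀ u : Fin n → ℂ, ∀ f ∈ TGs (GLs n), L (dg (fun g => g * Zm ε u) f) =
      (Complex.I / a) • AA ε a u (BB ε a u (L f)) + (Complex.I * c1 * hf ε u u) • L f) :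
    Sys ε a (fun k => s k - ((n : ℂ) - 1 - 2 * ((k : ℕ) : ℂ)))
      (fun k => Complex.I * (κ k : ℂ)) c1 (GLs n) T := by
  refine ⟨isDist_T hL.cont hT, ?_, ?_, ?_, ?_⟩
  · intro k l hkl z F hF
    rw [T_dG_aux hT (contDiff_left_aux _) hF]
    have h : ∀ t : Fin n → ℝ,
        L (dg (fun g => Matrix.single k l z * g) (fun g => F (g, t))) t = 0 := by
      intro t
      rw [L_up hL hkl z (slice_mem_aux hF t)]
      rfl
    simp only [h, integral_zero]
  · intro k F hF
    rw [T_dG_aux hT (contDiff_left_aux _) hF, hT F hF, ← integral_const_mul]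
    refine integral_congr_ae (Filter.Eventually.of_forall fun t => ?_)
    simp only
    rw [L_re hL k (slice_mem_aux hF t)]
    rfl
  · intro k F hF
    rw [T_dG_aux hT (contDiff_left_aux _) hF, hT F hF, ← integral_const_mul]
    refine integral_congr_ae (Filter.Eventually.of_forall fun t => ?_)
    simp only
    rw [L_im hL k (slice_mem_aux hF t)]
    rfl
  · intro u F hF
    have hA : opA ε a (fun _ => u) F ∈ TFs (GLs n) :=
      opA_mem_s ε a (isOpen_GLs n) contDiffOn_const hF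
    have hB : opB ε a (fun _ => u) (opA ε a (fun _ => u) F) ∈ TFs (GLs n) :=
      opB_mem_s ε a (isOpen_GLs n) contDiffOn_const hA
    have hcB : ContTG ((BB ε a u : Sch n →ₗ[ℂ] Sch n).comp L) := contTG_comp hL.cont (BB ε a u)
    have hcA : ContTG ((AA ε a u : Sch n →ₗ[ℂ] Sch n).comp
        ((BB ε a u : Sch n →ₗ[ℂ] Sch n).comp L)) := contTG_comp hcB (AA ε a u)
    have e1 : T (opB ε a (fun _ => u) (opA ε a (fun _ => u) F)) =
        ∫ t : Fin n → ℝ, (AA ε a u (BB ε a u (L (fun g => F (g, t))))) t := by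
      rw [hT _ hB, int_opB ε a hL.cont u hA]
      exact int_opA ε a hcB u hF
    have i1 : Integrable (fun t : Fin n → ℝ =>
        (AA ε a u (BB ε a u (L (fun g => F (g, t))))) t) := eval_integrable hcA hF
    have i2 : Integrable (fun t : Fin n → ℝ => (L (fun g => F (g, t))) t) :=
      eval_integrable hL.cont hF
    rw [T_dG_aux hT (contDiff_right_aux _) hF, e1, hT F hF, ← integral_const_mul,
      ← integral_const_mul, ← integral_add (i1.const_mul _) (i2.const_mul _)]
    refine integral_congr_ae (Filter.Eventually.of_forall fun t => ?_)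
    simp only
    rw [hc u _ (slice_mem_aux hF t)]
    rfl

end

end Pool.Agent.Work.MP_dd0ddf_al.AR
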