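import Pool.Agent.Work.MP_dd0ddf_al.AR.TEx
import Pool.Agent.Work.MP_dd0ddf_al.AR.Slice

/-!
# TZero (S-M): `T` determines `L`

* `L_zero_of_T`: for `f ∈ TGs (GLs n)` and `h ∈ C_c^∞(ℝ^n)`: `F(g,t) = f(g) h(t) ∈ TFs (GLs n)`,
  `0 = T F = ∫ h(t) (L f)(t) dt`; with `h = b conj(L f)`, `b ≥ 0` a smooth bump function:
  `∫ b |L f|^2 = 0`, so `L f = 0` (or `ae_eq_zero_of_integral_contDiff_smul_eq_zero`; `L f` is
  continuous).
* `T_zero_of_L`: clear from the formula (the slices of `F ∈ TFs Ω` are in `TGs Ω`).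
-/

set_option linter.unusedSectionVars false

namespace Pool.Agent.Work.MP_dd0ddf_al.AR

open scoped SchwartzMap Matrix.Norms.Elementwise ComplexConjugate ContDiff Topology LineDeriv
open Matrix MeasureTheory Filter

noncomputable section

variable {n : ℕ}

private theorem prod_mem {K : Set (Mat n)} (hK : IsCompact K) {f : Mat n → ℂ} (hf : f ∈ TGK K)
    {h : (Fin n → ℝ) → ℝ} (hh : ContDiff ℝ ∞ h) (hc : HasCompactSupport h) :
    (fun x : XX n => (h x.2 : ℂ) * f x.1) ∈ TFK K := by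
  refine ⟨?_, ?_, ?_⟩
  · have h1 : ContDiff ℝ ∞ fun x : XX n => (h x.2 : ℂ) :=
      Complex.ofRealCLM.contDiff.comp (hh.comp contDiff_snd)
    exact h1.mul (hf.1.comp contDiff_fst)
  · refine HasCompactSupport.intro (hK.prod hc) ?_
    rintro ⟨g, t⟩ hx
    simp only [Set.mem_prod, not_and_or] at hx
    rcases hx with hx | hx
    · show (h t : ℂ) * f g = 0
      rw [hf.2 g hx, mul_zero]
    · show (h t : ℂ) * f g = 0
      rw [image_eq_zero_of_notMem_tsupport hx, Complex.ofReal_zero, zero_mul]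
  · intro x hx
    show (h x.2 : ℂ) * f x.1 = 0
    rw [hf.2 _ hx, mul_zero]

theorem L_zero_of_T {L : (Mat n → ℂ) →ₗ[ℂ] Sch n} {T : (XX n → ℂ) →ₗ[ℂ] ℂ} (hT : IsTof L T)
    (h0 : ∀ F ∈ TFs (GLs n), T F = 0) : ∀ f ∈ TGs (GLs n), L f = 0 := by
  rintro f ⟨K, hK, hKG, hf⟩
  have h1 : ∀ h : (Fin n → ℝ) → ℝ, ContDiff ℝ ∞ h → HasCompactSupport h →
      ∫ t, h t • (L f) t = 0 := by
    intro h hh hc
    have hF : (fun x : XX n => (h x.2 : ℂ) * f x.1) ∈ TFs (GLs n) :=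
      ⟨K, hK, hKG, prod_mem hK hf hh hc⟩
    have h2 := hT _ hF
    rw [h0 _ hF] at h2
    rw [h2]
    refine integral_congr_ae (Filter.Eventually.of_forall fun t => ?_)
    have h3 : (fun g => (h t : ℂ) * f g) = (h t : ℂ) • f := by
      funext g
      rfl
    show h t • (L f) t = (L fun g => (h t : ℂ) * f g) t
    rw [h3, map_smul]
    show h t • (L f) t = (h t : ℂ) • (L f) t
    exact (Complex.coe_smul _ _).symm
  have hcont : Continuous fun t => (L f) t := (L f).continuous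
  have h2 := ae_eq_zero_of_integral_contDiff_smul_eq_zero (μ := volume)
    (hcont.locallyIntegrable) h1
  have h3 : (fun t => (L f) t) = fun _ => (0 : ℂ) := by
    refine (Continuous.ae_eq_iff_eq volume hcont continuous_const).1 ?_
    exact h2
  ext t
  exact congrFun h3 t

theorem T_zero_of_L {L : (Mat n → ℂ) →ₗ[ℂ] Sch n} {T : (XX n → ℂ) →ₗ[ℂ] ℂ} (hT : IsTof L T)
    {Ω : Set (Mat n)} (hΩ : Ω ⊆ GLs n) (h0 : ∀ f ∈ TGs Ω, L f = 0) :
    ∀ F ∈ TFs Ω, T F = 0 := by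
  rintro F ⟨K, hK, hKΩ, hF⟩
  rw [hT F ⟨K, hK, hKΩ.trans hΩ, hF⟩]
  have h1 : ∀ t : Fin n → ℝ, (L fun g => F (g, t)) t = 0 := by
    intro t
    rw [h0 _ ⟨K, hK, hKΩ, slice_mem hF t⟩]
    rfl
  simp only [h1, integral_zero]

end

end Pool.Agent.Work.MP_dd0ddf_al.AR
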