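import Pool.Agent.Work.MP_dd0ddf_al.AR.WEl

/-!
# MP_dd0ddf_al, archimedean part, W-block, module WFun: the functional equation

Proof.  Put `E_j = e (Pi.single j 1)`; `e 0 = 0` (`hs` with `c = 0`).

(1) For every finset `S` and every `u`: `e (∑_{j ∈ S} Pi.single j (u j)) = ∑_{j ∈ S} ‖u j‖^2 E_j`:
induction.  Step `insert l S`, `l ∉ S`: `p = ∑_{j ∈ S} Pi.single j (u j)`, `q = Pi.single l (u l) =
u l • Pi.single l 1`.  `p` vanishes at `l`, so the flip `h` of `exists_flip hep l` gives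
`(p + q) ᵥ* h = p - q`; `hi`: `e (p - q) = e (p + q)`; `hp`: `2 e (p + q) = 2 e p + 2 e q`;
`hs`: `e q = ‖u l‖^2 E_l`.
With `S = univ`: `e u = ∑ ‖u j‖^2 E_j`.

(2) `ε_j E_j = ε_l E_l`: if `j ≠ l`, take `h, c, s` from `exists_rot`.  `hi` and (1):
`E_j = e (c e_j + s e_l) = c^2 E_j + s^2 E_l`, and `1 - c^2 = ε_j ε_l s^2`, `s ≠ 0`:
`ε_j ε_l E_j = E_l`; multiply by `ε_l` (`ε_l^2 = 1`).

(3) If `n = 0`: `c1 = 0` works (`u = 0`, `e u = 0`).  Otherwise fix `j0` and put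
`c1 = - i ε_{j0} E_{j0}`, so `i c1 = ε_{j0} E_{j0} = ε_j E_j` for all `j` and
`E_j = ε_j (i c1)` (`ε_j^2 = 1`).  `e u = ∑ ‖u j‖^2 ε_j i c1 = i c1 hf ε u u` (`nrm_eq`).
-/

set_option linter.unusedSectionVars false

namespace Pool.Agent.Work.MP_dd0ddf_al.AR.WB

open scoped SchwartzMap Matrix.Norms.Elementwise ComplexConjugate ContDiff Topology LineDeriv
open Matrix MeasureTheory Filter

variable {n : ℕ} {ε : Fin n → ℝ}

private theorem fun_sum_aux (hep : ∀ j, ε j = 1 ∨ ε j = -1) (e : (Fin n → ℂ) → ℂ)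
    (hs : ∀ (c : ℂ) (u : Fin n → ℂ), e (c • u) = ((‖c‖ ^ 2 : ℝ) : ℂ) * e u)
    (hp : ∀ p q : Fin n → ℂ, e (p + q) + e (p - q) = 2 * e p + 2 * e q)
    (hi : ∀ (h : UJ ε) (u : Fin n → ℂ), e (u ᵥ* ((h : GLn n) : Mat n)) = e u)
    (u : Fin n → ℂ) (S : Finset (Fin n)) :
    e (∑ j ∈ S, Pi.single j (u j)) = ∑ j ∈ S, ((‖u j‖ ^ 2 : ℝ) : ℂ) * e (Pi.single j 1) := by
  classical
  induction S using Finset.induction_on with
  | empty =>
    rw [Finset.sum_empty, Finset.sum_empty]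
    have h := hs 0 0
    rw [zero_smul, norm_zero] at h
    rw [h]
    simp
  | insert l S hl ih =>
    rw [Finset.sum_insert hl, Finset.sum_insert hl, add_comm, ← ih]
    set p : Fin n → ℂ := ∑ j ∈ S, Pi.single j (u j) with hpdef
    set q : Fin n → ℂ := Pi.single l (u l) with hqdef
    have hpl : p l = 0 := by
      rw [hpdef, Finset.sum_apply]
      refine Finset.sum_eq_zero fun j hj => ?_
      have hjl : l ≠ j := by
        rintro rfl
        exact hl hj
      exact Pi.single_eq_of_ne hjl _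
    obtain ⟨h, hh⟩ := exists_flip hep l
    have h1 : (p + q) ᵥ* ((h : GLn n) : Mat n) = p - q := by
      rw [hh]
      funext k
      by_cases hk : k = l
      · subst hk
        rw [Function.update_self, Pi.add_apply, Pi.sub_apply, hpl]
        ring
      · rw [Function.update_of_ne hk, Pi.add_apply, Pi.sub_apply, hqdef, Pi.single_eq_of_ne hk]
        ring
    have h2 := hi h (p + q)
    rw [h1] at h2
    have h3 := hp p q
    rw [h2] at h3
    have h4 : e q = ((‖u l‖ ^ 2 : ℝ) : ℂ) * e (Pi.single l 1) := by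
      have h5 : q = u l • (Pi.single l 1 : Fin n → ℂ) := by
        rw [hqdef, ← Pi.single_smul', smul_eq_mul, mul_one]
      rw [h5, hs]
    rw [← h4]
    have h6 : 2 * e (p + q) = 2 * (e q + e p) := by
      linear_combination h3
    exact mul_left_cancel₀ two_ne_zero h6

theorem fun_eq (hep : ∀ j, ε j = 1 ∨ ε j = -1) (e : (Fin n → ℂ) → ℂ)
    (hs : ∀ (c : ℂ) (u : Fin n → ℂ), e (c • u) = ((‖c‖ ^ 2 : ℝ) : ℂ) * e u)
    (hp : ∀ p q : Fin n → ℂ, e (p + q) + e (p - q) = 2 * e p + 2 * e q)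
    (hi : ∀ (h : UJ ε) (u : Fin n → ℂ), e (u ᵥ* ((h : GLn n) : Mat n)) = e u) :
    ∃ c1 : ℂ, ∀ u, e u = Complex.I * c1 * hf ε u u := by
  classical
  have hsum := fun_sum_aux hep e hs hp hi
  have hall : ∀ u, e u = ∑ j, ((‖u j‖ ^ 2 : ℝ) : ℂ) * e (Pi.single j 1) := by
    intro u
    rw [← hsum u Finset.univ, Finset.univ_sum_single]
  have hsq : ∀ j, (ε j : ℂ) * (ε j : ℂ) = 1 := by
    intro j
    rcases hep j with h | h <;> rw [h] <;> norm_num
  have hE : ∀ j l, (ε j : ℂ) * e (Pi.single j 1) = (ε l : ℂ) * e (Pi.single l 1) := by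
    intro j l
    by_cases hjl : j = l
    · rw [hjl]
    · obtain ⟨h, c, s, hs0, hcs, hh⟩ := exists_rot hep j l hjl
      have h1 := hi h (Pi.single j 1)
      rw [hh] at h1
      have h2 := hsum (fun k => if k = j then (c : ℂ) else (s : ℂ)) {j, l}
      rw [Finset.sum_pair hjl, Finset.sum_pair hjl] at h2
      simp only [if_true, if_neg (Ne.symm hjl)] at h2
      have h3 : (c : ℂ) • (Pi.single j 1 : Fin n → ℂ) + (s : ℂ) • Pi.single l 1 =
          Pi.single j (c : ℂ) + Pi.single l (s : ℂ) := by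
        rw [← Pi.single_smul', ← Pi.single_smul', smul_eq_mul, smul_eq_mul, mul_one, mul_one]
      rw [h3, h2] at h1
      have h4 : ((‖(c : ℂ)‖ ^ 2 : ℝ) : ℂ) = (c : ℂ) ^ 2 := by
        rw [Complex.norm_real, Real.norm_eq_abs, sq_abs]
        push_cast
        rfl
      have h5 : ((‖(s : ℂ)‖ ^ 2 : ℝ) : ℂ) = (s : ℂ) ^ 2 := by
        rw [Complex.norm_real, Real.norm_eq_abs, sq_abs]
        push_cast
        rfl
      rw [h4, h5] at h1
      have h6 : (c : ℂ) ^ 2 + (ε j : ℂ) * (ε l : ℂ) * (s : ℂ) ^ 2 = 1 := by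
        exact_mod_cast congrArg (fun x : ℝ => (x : ℂ)) hcs
      have hs0' : (s : ℂ) ^ 2 ≠ 0 := by
        exact pow_ne_zero 2 (Complex.ofReal_ne_zero.2 hs0)
      have h7 : (s : ℂ) ^ 2 * e (Pi.single l 1) =
          (s : ℂ) ^ 2 * ((ε j : ℂ) * (ε l : ℂ) * e (Pi.single j 1)) := by
        linear_combination h1 - e (Pi.single j 1) * h6
      have h8 := mul_left_cancel₀ hs0' h7
      rw [h8]
      linear_combination (-(ε j : ℂ) * e (Pi.single j 1)) * hsq l
  have hff : ∀ u : Fin n → ℂ, hf ε u u = ∑ j, (ε j : ℂ) * ((‖u j‖ ^ 2 : ℝ) : ℂ) := by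
    intro u
    unfold hf
    refine Finset.sum_congr rfl fun j _ => ?_
    rw [mul_assoc, Complex.mul_conj, Complex.normSq_eq_norm_sq]
  by_cases hn : Nonempty (Fin n)
  · obtain ⟨j0⟩ := hn
    refine ⟨-Complex.I * ((ε j0 : ℂ) * e (Pi.single j0 1)), fun u => ?_⟩
    have h1 : Complex.I * (-Complex.I * ((ε j0 : ℂ) * e (Pi.single j0 1))) =
        (ε j0 : ℂ) * e (Pi.single j0 1) := by
      linear_combination (-((ε j0 : ℂ) * e (Pi.single j0 1))) * Complex.I_mul_I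
    rw [h1, hff, hall, Finset.mul_sum]
    refine Finset.sum_congr rfl fun j _ => ?_
    rw [hE j0 j]
    linear_combination (-((‖u j‖ ^ 2 : ℝ) : ℂ) * e (Pi.single j 1)) * hsq j
  · refine ⟨0, fun u => ?_⟩
    rw [not_nonempty_iff] at hn
    rw [hall, hff, Finset.univ_eq_empty, Finset.sum_empty, Finset.sum_empty, mul_zero]

end Pool.Agent.Work.MP_dd0ddf_al.AR.WB
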