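import Pool.Agent.Work.MP_dd0ddf_al.AR.WLin
import Pool.Agent.Work.MP_dd0ddf_al.AR.WFun

/-!
# WMain: final statement of the block on the Weil representation (helper3)

Assembly: `e` from `exists_E`; by `e_scale`, `e_para`, `e_inv` (with `y = L f ≠ 0`) `fun_eq` gives
`c1` with `e u = i c1 hf ε u u`; then `equi_der` with the `D` of `IsE`.
-/

set_option linter.unusedSectionVars false

namespace Pool.Agent.Work.MP_dd0ddf_al.AR

open scoped SchwartzMap Matrix.Norms.Elementwise ComplexConjugate ContDiff Topology LineDeriv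
open Matrix MeasureTheory Filter

noncomputable section

variable {n : ℕ}

open WB in
theorem weil_quadratic {ε : Fin n → ℝ} (hε : ∀ j, ε j = 1 ∨ ε j = -1) {a : ℝ} (ha : a ≠ 0)
    (W : Weil ε a)
    (hne : ∃ (s : Fin n → ℂ) (κ : Fin n → ℤ) (L : (Mat n → ℂ) →ₗ[ℂ] Sch n), Equi W s κ L ∧
      ∃ f ∈ TGs (GLs n), L f ≠ 0) :
    ∃ c1 : ℂ, ∀ (s : Fin n → ℂ) (κ : Fin n → ℤ) (L : (Mat n → ℂ) →ₗ[ℂ] Sch n), Equi W s κ L →
      ∀ u : Fin n → ℂ, ∀ f ∈ TGs (GLs n), L (dg (fun g => g * Zm ε u) f) =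
        (Complex.I / a) • AA ε a u (BB ε a u (L f)) + (Complex.I * c1 * hf ε u u) • L f := by
  obtain ⟨s0, k0, L0, hL0, f0, hf0, hne0⟩ := hne
  obtain ⟨e, he⟩ := exists_E hε ha W
  obtain ⟨c1, hc1⟩ := fun_eq hε e (e_scale hε W hL0 f0 hf0 hne0 he)
    (e_para hε W hL0 f0 hf0 hne0 he) (e_inv hε ha W he (L0 f0) hne0)
  refine ⟨c1, ?_⟩
  intro s k L hL u f hf
  obtain ⟨D, hD, hDf⟩ := he u
  rw [equi_der W hL hD f hf, hDf, hc1]
  rfl

end

end Pool.Agent.Work.MP_dd0ddf_al.AR
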