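import Pool.Agent.Work.MP_dd0ddf_al.AR.Closed
import Pool.Agent.Work.MP_dd0ddf_al.AR.TSys
import Pool.Agent.Work.MP_dd0ddf_al.AR.TZero
import Pool.Agent.Work.MP_dd0ddf_al.AR.WMain
import Pool.Agent.Work.MP_dd0ddf_al.AR.OMain

/-!
# Main: multiplicity one for representations with a `B`-eigenvector of dominant exponents
-/

set_option linter.unusedSectionVars false

namespace Pool.Agent.Work.MP_dd0ddf_al.AR

open scoped SchwartzMap Matrix.Norms.Elementwise ComplexConjugate ContDiff Topology LineDeriv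
open Matrix MeasureTheory Filter

noncomputable section

variable {n : ℕ}

/-- a homomorphism `φ` gives an equivariant map `φ ∘ A` on test functions -/
theorem equi_of_homU {ε : Fin n → ℝ} {a : ℝ} {W : Weil ε a} {P : Type*} [AddCommGroup P]
    [Module ℂ P] [TopologicalSpace P] {π : GLn n →* (P →L[ℂ] P)} {s : Fin n → ℂ}
    {κ : Fin n → ℤ} {A : (Mat n → ℂ) →ₗ[ℂ] P} (hA : BEig π s κ A) {φ : P →L[ℂ] Sch n}
    (hφ : φ ∈ HomU W π) : Equi W s κ ((φ : P →ₗ[ℂ] Sch n).comp A) := by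
  refine ⟨contTG_comp hA.cont φ, ?_, ?_⟩
  · intro b hb hb' f hf
    simp only [LinearMap.comp_apply, hA.left b hb hb' f hf, map_smul]
  · intro h f hf
    simp only [LinearMap.comp_apply, hA.right (h : GLn n) f hf]
    exact hφ h (A f)

theorem homU_eq_zero {P : Type*} [AddCommGroup P]
    [Module ℂ P] [TopologicalSpace P] {π : GLn n →* (P →L[ℂ] P)} {s : Fin n → ℂ}
    {κ : Fin n → ℤ} {A : (Mat n → ℂ) →ₗ[ℂ] P} (hA : BEig π s κ A) {φ : P →L[ℂ] Sch n}
    (h : ∀ f ∈ TGs (GLs n), φ (A f) = 0) : φ = 0 := by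
  have h1 : (φ : P → Sch n) = fun _ => 0 := by
    refine Continuous.ext_on hA.dense φ.continuous continuous_const ?_
    rintro _ ⟨f, hf, rfl⟩
    exact h f hf
  ext1 x
  exact congrFun h1 x

theorem mult_one {ε : Fin n → ℝ} (hε : ∀ j, ε j = 1 ∨ ε j = -1) {a : ℝ} (ha : a ≠ 0)
    (W : Weil ε a) {P : Type*} [AddCommGroup P] [Module ℂ P] [TopologicalSpace P]
    (π : GLn n →* (P →L[ℂ] P)) {s : Fin n → ℂ} {κ : Fin n → ℤ} {A : (Mat n → ℂ) →ₗ[ℂ] P}
    (hA : BEig π s κ A) (hs : ∀ i j, i ≤ j → (s j).re ≤ (s i).re) :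
    Module.rank ℂ (HomU W π) ≤ 1 := by
  rw [rank_le_one_iff]
  by_cases hall : ∀ φ : HomU W π, φ = 0
  · exact ⟨0, fun v => ⟨0, by rw [hall v]; simp⟩⟩
  push Not at hall
  obtain ⟨φ0, hφ0⟩ := hall
  refine ⟨φ0, fun φ1 => ?_⟩
  have hne : ∃ f ∈ TGs (GLs n), φ0.1 (A f) ≠ 0 := by
    by_contra hcon
    push Not at hcon
    exact hφ0 (Subtype.ext (homU_eq_zero hA hcon))
  obtain ⟨c1, hc1⟩ := weil_quadratic hε ha W
    ⟨s, κ, _, equi_of_homU hA φ0.2, by simpa using hne⟩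
  obtain ⟨α1, α2, hα, h0⟩ := open_uniq hε ha W s κ c1 (hc1 s κ)
    _ _ (equi_of_homU hA φ0.2) (equi_of_homU hA φ1.2)
  -- the combination
  set φ : HomU W π := α1 • φ0 + α2 • φ1 with hφdef
  have hE : Equi W s κ ((φ.1 : P →ₗ[ℂ] Sch n).comp A) := equi_of_homU hA φ.2
  obtain ⟨T, hT⟩ := exists_T hE.cont
  have hS := sys_of hE hT (hc1 s κ _ hE)
  have hval : ∀ f : Mat n → ℂ, ((φ.1 : P →ₗ[ℂ] Sch n).comp A) f =
      α1 • φ0.1 (A f) + α2 • φ1.1 (A f) := by
    intro f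
    simp [hφdef]
  have hOdG : Od ε 0 ⊆ GLs n := fun g hg => hg.1
  have hT0 : ∀ F ∈ TFs (Od ε 0), T F = 0 := by
    refine T_zero_of_L hT hOdG ?_
    intro f hf
    rw [hval]
    simpa using h0 f hf
  have hTall : ∀ F ∈ TFs (GLs n), T F = 0 := by
    refine closed hε ha hS ?_ hT0
    intro i m him
    have h1 := hs i m him.le
    simp only [Complex.sub_re, Complex.mul_re, Complex.natCast_re, Complex.natCast_im,
      Complex.one_re, Complex.re_ofNat, Complex.im_ofNat]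
    have h2 : ((i : ℕ) : ℝ) < ((m : ℕ) : ℝ) := by exact_mod_cast him
    nlinarith
  have hL0 := L_zero_of_T hT hTall
  have hφz : φ = 0 := by
    refine Subtype.ext (homU_eq_zero hA ?_)
    intro f hf
    exact hL0 f hf
  by_cases h2 : α2 = 0
  · exfalso
    have h1 : α1 ≠ 0 := by
      rcases hα with h | h
      · exact h
      · exact absurd h2 h
    apply hφ0
    rw [hφdef, h2, zero_smul, add_zero] at hφz
    exact (smul_eq_zero.mp hφz).resolve_left h1
  · refine ⟨-(α1 / α2), ?_⟩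
    have h3 : α2 • φ1 = -(α1 • φ0) := by
      rw [hφdef] at hφz
      exact (neg_eq_of_add_eq_zero_right hφz).symm
    have h4 : φ1 = α2⁻¹ • (α2 • φ1) := by
      rw [smul_smul, inv_mul_cancel₀ h2, one_smul]
    rw [h4, h3, smul_neg, smul_smul, ← neg_smul]
    congr 1
    field_simp

end

end Pool.Agent.Work.MP_dd0ddf_al.AR
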