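import Pool.Agent.Work.MP_dd0ddf_al.AR.Vz

/-!
# VzG (M): polynomial growth of `V_z F` and its derivatives in `z`

(0) Replace `v` by a smooth compactly supported function equal to `v` on `K` (multiply by a smooth
cutoff `κ`, `κ = 1` on `K`, `tsupport κ ⊆ Ω` compact): `V_z F` does not change, because `F` vanishes
outside `K`.  So all derivatives of `v` are bounded.
(1) `Θ_z (g, t) = (g, t - ξ)`: `‖D^i Θ_z‖ ≤ C (1 + |z|)` for `1 ≤ i ≤ M`
(`ξ_j = ε_j (Re z Re v_j - Im z Im v_j)`), so by `norm_iteratedFDeriv_comp_le`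
`‖D^m (F ∘ Θ_z)‖ ≤ m! C_F (C (1 + |z|))^m`.
(2) `H_z (g, t) = - i a ∑ η_j (2 t_j - ξ_j)` is a sum of products of coordinates of `z` (at most two),
of smooth bounded functions of `g` and at most one `t_j`, so `‖D^i H_z (g,t)‖ ≤ C (1+|z|)^2 (1+‖t‖)`
for `0 ≤ i ≤ M`; `H_z` is purely imaginary, so all derivatives of `exp` at `H_z` have norm `1`, and
`‖D^m (exp ∘ H_z)(g,t)‖ ≤ m! (C (1+|z|)^2 (1+‖t‖))^m` (take `C ≥ 1`).
(3) Leibniz rule `norm_iteratedFDeriv_mul_le`; on the support `‖t‖ ≤ R_F + C |z|`.  Outside the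
support (closed) the derivatives vanish.  So `N = 4 M` works for all `F`.
-/

set_option linter.unusedSectionVars false

namespace Pool.Agent.Work.MP_dd0ddf_al.AR

open scoped SchwartzMap Matrix.Norms.Elementwise ComplexConjugate ContDiff Topology LineDeriv
open Matrix MeasureTheory Filter

noncomputable section

variable {n : ℕ}

private theorem vg_le (l : ℕ) : (l : WithTop ℕ∞) ≤ ∞ := mod_cast le_top

private theorem vg_cut {Ω K : Set (Mat n)} (hΩ : IsOpen Ω) (hK : IsCompact K) (hKΩ : K ⊆ Ω) :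
    ∃ κ : Mat n → ℝ, ContDiff ℝ ∞ κ ∧ HasCompactSupport κ ∧ tsupport κ ⊆ Ω ∧ ∀ g ∈ K, κ g = 1 := by
  have : LocallyCompactSpace (Mat n) := inferInstanceAs (LocallyCompactSpace (Fin n → Fin n → ℂ))
  obtain ⟨L, hL, hKL, hLΩ⟩ := exists_compact_between hK hΩ hKΩ
  obtain ⟨f, hf, hfs, hfr⟩ := (isOpen_interior (s := L)).exists_contDiff_support_eq (n := ⊤)
  obtain ⟨g, hg, hgs, hgr⟩ := hK.isClosed.isOpen_compl.exists_contDiff_support_eq (n := ⊤)
  have hf0 : ∀ x, 0 ≤ f x := fun x => (hfr ⟨x, rfl⟩).1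
  have hg0 : ∀ x, 0 ≤ g x := fun x => (hgr ⟨x, rfl⟩).1
  have hpos : ∀ x, 0 < f x + g x := by
    intro x
    by_cases hx : x ∈ K
    · have h1 : x ∈ Function.support f := by rw [hf]; exact hKL hx
      have h2 : 0 < f x := lt_of_le_of_ne (hf0 x) (Ne.symm h1)
      linarith [hg0 x]
    · have h1 : x ∈ Function.support g := by rw [hg]; exact hx
      have h2 : 0 < g x := lt_of_le_of_ne (hg0 x) (Ne.symm h1)
      linarith [hf0 x]
  have hsup : Function.support (fun x => f x / (f x + g x)) ⊆ L := by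
    intro x hx
    have h1 : x ∈ Function.support f := by
      intro h0
      apply hx
      simp only [h0, zero_div]
    rw [hf] at h1
    exact interior_subset h1
  have hsub : tsupport (fun x => f x / (f x + g x)) ⊆ L := closure_minimal hsup hL.isClosed
  refine ⟨fun x => f x / (f x + g x), ?_, ?_, hsub.trans hLΩ, ?_⟩
  · exact hfs.div (hfs.add hgs) (fun x => (hpos x).ne')
  · exact HasCompactSupport.of_support_subset_isCompact hL hsup
  · intro x hx
    have h1 : g x = 0 := by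
      by_contra h0
      have h2 : x ∈ Function.support g := h0
      rw [hg] at h2
      exact h2 hx
    have h3 := hpos x
    simp only [h1, add_zero] at h3 ⊢
    exact div_self h3.ne'

private theorem vg_vt {Ω K : Set (Mat n)} (hΩ : IsOpen Ω) (hK : IsCompact K) (hKΩ : K ⊆ Ω)
    {v : Mat n → Fin n → ℂ} (hv : ContDiffOn ℝ ∞ v Ω) :
    ∃ w : Mat n → Fin n → ℂ, (∀ j, ContDiff ℝ ∞ fun g => w g j) ∧
      (∀ j, HasCompactSupport fun g => w g j) ∧ ∀ g ∈ K, w g = v g := by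
  obtain ⟨κ, hκ, hκc, hκΩ, hκ1⟩ := vg_cut hΩ hK hKΩ
  refine ⟨fun g j => (κ g : ℂ) * v g j, ?_, ?_, ?_⟩
  · intro j
    rw [contDiff_iff_contDiffAt]
    intro g
    by_cases hg : g ∈ Ω
    · have h1 : ContDiffAt ℝ ∞ v g := hv.contDiffAt (hΩ.mem_nhds hg)
      have h2 : ContDiffAt ℝ ∞ (fun g => v g j) g := contDiffAt_pi.mp h1 j
      have h3 : ContDiffAt ℝ ∞ (fun g => (κ g : ℂ)) g :=
        (Complex.ofRealCLM.contDiff.comp hκ).contDiffAt
      exact h3.mul h2
    · have h1 : g ∉ tsupport κ := fun h => hg (hκΩ h)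
      have h2 : (fun g => (κ g : ℂ) * v g j) =ᶠ[𝓝 g] fun _ => 0 := by
        filter_upwards [(isClosed_tsupport κ).isOpen_compl.mem_nhds h1] with x hx
        have h3 : κ x = 0 := image_eq_zero_of_notMem_tsupport hx
        simp [h3]
      exact contDiffAt_const.congr_of_eventuallyEq h2
  · intro j
    have h1 : HasCompactSupport fun g => (κ g : ℂ) :=
      hκc.comp_left (g := fun x : ℝ => (x : ℂ)) Complex.ofReal_zero
    exact h1.mul_right
  · intro g hg
    funext j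
    simp [hκ1 g hg]

private def eI (t : ℝ) : ℂ := Complex.exp (Complex.I * t)

private theorem eI_hasDeriv (t : ℝ) : HasDerivAt eI (Complex.I * eI t) t := by
  have h1 : HasDerivAt (fun t : ℝ => Complex.I * (t : ℂ)) Complex.I t := by
    simpa using (Complex.ofRealCLM.hasDerivAt (x := t)).const_mul Complex.I
  have h2 := h1.cexp
  unfold eI
  rw [mul_comm]
  exact h2

private theorem eI_iter (m : ℕ) : iteratedDeriv m eI = fun t => Complex.I ^ m * eI t := by
  induction m with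
  | zero => funext t; simp
  | succ m ih =>
    rw [iteratedDeriv_succ, ih]
    funext t
    rw [((eI_hasDeriv t).const_mul (Complex.I ^ m)).deriv]
    ring

private theorem eI_tg : Function.HasTemperateGrowth eI := by
  refine ⟨?_, fun m => ⟨0, 1, fun t => ?_⟩⟩
  · unfold eI
    exact (contDiff_const.mul Complex.ofRealCLM.contDiff).cexp
  · rw [norm_iteratedFDeriv_eq_norm_iteratedDeriv, eI_iter]
    simp only [norm_mul, norm_pow, Complex.norm_I, one_pow, one_mul, pow_zero, mul_one]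
    unfold eI
    rw [mul_comm, Complex.norm_exp_ofReal_mul_I]

private def zv (w : Mat n → Fin n → ℂ) (j : Fin n) (p : ℂ × XX n) : ℂ := p.1 * w p.2.1 j

private def th (ε : Fin n → ℝ) (a : ℝ) (w : Mat n → Fin n → ℂ) (p : ℂ × XX n) : ℝ :=
  ∑ j, (-a) * ((zv w j p).im * (2 * p.2.2 j - ε j * (zv w j p).re))

private def Th (ε : Fin n → ℝ) (w : Mat n → Fin n → ℂ) (p : ℂ × XX n) : XX n :=
  p.2 - ∑ j, (ε j * (zv w j p).re) • ((0, Pi.single j 1) : XX n)

private theorem zv_tg {w : Mat n → Fin n → ℂ} (h1 : ∀ j, ContDiff ℝ ∞ fun g => w g j)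
    (h2 : ∀ j, HasCompactSupport fun g => w g j) (j : Fin n) :
    Function.HasTemperateGrowth (zv w j) := by
  have a1 : Function.HasTemperateGrowth (fun p : ℂ × XX n => p.1) :=
    (ContinuousLinearMap.fst ℝ ℂ (XX n)).hasTemperateGrowth
  have a2 : Function.HasTemperateGrowth (fun p : ℂ × XX n => p.2.1) :=
    ((ContinuousLinearMap.fst ℝ (Mat n) (Fin n → ℝ)).comp
      (ContinuousLinearMap.snd ℝ ℂ (XX n))).hasTemperateGrowth
  have a3 : Function.HasTemperateGrowth (fun g : Mat n => w g j) := (h2 j).hasTemperateGrowth (h1 j)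
  exact a1.mul (a3.comp a2)

private theorem re_tg {f : ℂ × XX n → ℂ} (hf : Function.HasTemperateGrowth f) :
    Function.HasTemperateGrowth (fun p => (f p).re) :=
  Complex.reCLM.hasTemperateGrowth.comp hf

private theorem im_tg {f : ℂ × XX n → ℂ} (hf : Function.HasTemperateGrowth f) :
    Function.HasTemperateGrowth (fun p => (f p).im) :=
  Complex.imCLM.hasTemperateGrowth.comp hf

private theorem th_tg (ε : Fin n → ℝ) (a : ℝ) {w : Mat n → Fin n → ℂ}
    (h1 : ∀ j, ContDiff ℝ ∞ fun g => w g j) (h2 : ∀ j, HasCompactSupport fun g => w g j) :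
    Function.HasTemperateGrowth (th ε a w) := by
  unfold th
  refine Function.HasTemperateGrowth.sum fun j _ => ?_
  have a1 : Function.HasTemperateGrowth (fun p : ℂ × XX n => p.2.2 j) :=
    ((ContinuousLinearMap.proj (R := ℝ) (φ := fun _ : Fin n => ℝ) j).comp
      ((ContinuousLinearMap.snd ℝ (Mat n) (Fin n → ℝ)).comp
      (ContinuousLinearMap.snd ℝ ℂ (XX n)))).hasTemperateGrowth
  have c : ∀ r : ℝ, Function.HasTemperateGrowth (fun _ : ℂ × XX n => r) := fun r =>
    Function.HasTemperateGrowth.const r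
  exact (c (-a)).mul ((im_tg (zv_tg h1 h2 j)).mul
    (((c 2).mul a1).sub ((c (ε j)).mul (re_tg (zv_tg h1 h2 j)))))

private theorem Th_tg (ε : Fin n → ℝ) {w : Mat n → Fin n → ℂ}
    (h1 : ∀ j, ContDiff ℝ ∞ fun g => w g j) (h2 : ∀ j, HasCompactSupport fun g => w g j) :
    Function.HasTemperateGrowth (Th ε w) := by
  unfold Th
  have a1 : Function.HasTemperateGrowth (fun p : ℂ × XX n => p.2) :=
    (ContinuousLinearMap.snd ℝ ℂ (XX n)).hasTemperateGrowth
  refine a1.sub (Function.HasTemperateGrowth.sum fun j _ => ?_)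
  have c : ∀ r : ℝ, Function.HasTemperateGrowth (fun _ : ℂ × XX n => r) := fun r =>
    Function.HasTemperateGrowth.const r
  exact ((c (ε j)).mul (re_tg (zv_tg h1 h2 j))).smul (Function.HasTemperateGrowth.const _)

private theorem Th_fst (ε : Fin n → ℝ) (w : Mat n → Fin n → ℂ) (p : ℂ × XX n) :
    (Th ε w p).1 = p.2.1 := by
  unfold Th
  rw [Prod.fst_sub, Prod.fst_sum]
  simp

private theorem Th_snd (ε : Fin n → ℝ) (w : Mat n → Fin n → ℂ) (p : ℂ × XX n) :
    (Th ε w p).2 = fun j => p.2.2 j - ε j * (zv w j p).re := by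
  unfold Th
  rw [Prod.snd_sub, Prod.snd_sum]
  funext j
  rw [Pi.sub_apply, Finset.sum_apply]
  simp [Pi.single_apply]

private theorem vg_eq (ε : Fin n → ℝ) (a : ℝ) {K : Set (Mat n)} {v w : Mat n → Fin n → ℂ}
    (hw : ∀ g ∈ K, w g = v g) {F : XX n → ℂ} (hF : F ∈ TFK K) (z : ℂ) :
    Vz ε a v z F = fun x => eI (th ε a w (z, x)) * F (Th ε w (z, x)) := by
  funext x
  have e1 : Th ε w (z, x) = (x.1, fun j => x.2 j - ε j * (z * w x.1 j).re) :=
    Prod.ext (Th_fst ε w (z, x)) (Th_snd ε w (z, x))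
  rw [e1]
  unfold Vz
  by_cases hx : x.1 ∈ K
  · rw [hw x.1 hx]
    congr 1
    unfold eI th zv
    simp only
    rw [hw x.1 hx]
    congr 1
    push_cast
    rw [Finset.mul_sum, Finset.mul_sum, ← Finset.sum_neg_distrib]
    refine Finset.sum_congr rfl fun j _ => ?_
    ring
  · rw [hF.2.2 _ (show (x.1, fun j => x.2 j - ε j * (z * v x.1 j).re).1 ∉ K from hx),
      hF.2.2 _ (show (x.1, fun j => x.2 j - ε j * (z * w x.1 j).re).1 ∉ K from hx), mul_zero, mul_zero]

private theorem vg_part {X : Type*} [NormedAddCommGroup X] [NormedSpace ℝ X] {Φ : ℂ × X → ℂ}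
    (hΦ : ContDiff ℝ ∞ Φ) (z : ℂ) (x : X) (m : ℕ) :
    ‖iteratedFDeriv ℝ m (fun x => Φ (z, x)) x‖ ≤ ‖iteratedFDeriv ℝ m Φ (z, x)‖ := by
  have e1 : (fun x => Φ (z, x)) = (fun p => Φ (p + (z, 0))) ∘ ⇑(ContinuousLinearMap.inr ℝ ℂ X) := by
    funext y
    simp
  have h1 : ContDiff ℝ ∞ (fun p : ℂ × X => Φ (p + (z, 0))) :=
    hΦ.comp (contDiff_id.add contDiff_const)
  rw [e1, ContinuousLinearMap.iteratedFDeriv_comp_right (ContinuousLinearMap.inr ℝ ℂ X) h1 x
    (vg_le m), iteratedFDeriv_comp_add_right]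
  have h2 : (ContinuousLinearMap.inr ℝ ℂ X) x + (z, 0) = (z, x) := by simp
  rw [h2]
  refine (ContinuousMultilinearMap.norm_compContinuousLinearMap_le _ _).trans ?_
  have h3 : ∏ _i : Fin m, ‖ContinuousLinearMap.inr ℝ ℂ X‖ ≤ 1 := by
    refine Finset.prod_le_one (fun _ _ => norm_nonneg _) fun _ _ => ?_
    exact ContinuousLinearMap.norm_inr_le_one ℝ ℂ X
  calc _ ≤ ‖iteratedFDeriv ℝ m Φ (z, x)‖ * 1 := by gcongr
    _ = _ := mul_one _

theorem Vz_growth (ε : Fin n → ℝ) (a : ℝ) {Ω K : Set (Mat n)} (hΩ : IsOpen Ω)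
    (hK : IsCompact K) (hKΩ : K ⊆ Ω) {v : Mat n → Fin n → ℂ} (hv : ContDiffOn ℝ ∞ v Ω)
    (M : ℕ) : ∃ N : ℕ, ∀ F ∈ TFK K, ∃ C : ℝ, ∀ z : ℂ, ∀ m ≤ M, ∀ x : XX n,
      ‖iteratedFDeriv ℝ m (Vz ε a v z F) x‖ ≤ C * (1 + ‖z‖) ^ N := by
  obtain ⟨w, hw1, hw2, hw3⟩ := vg_vt hΩ hK hKΩ hv
  have hE : Function.HasTemperateGrowth (eI ∘ th ε a w) := eI_tg.comp (th_tg ε a hw1 hw2)
  have hT : Function.HasTemperateGrowth (Th ε w) := Th_tg ε hw1 hw2
  obtain ⟨k1, C1, hC1, h1⟩ := hE.norm_iteratedFDeriv_le_uniform M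
  obtain ⟨k2, C2, hC2, h2⟩ := hT.norm_iteratedFDeriv_le_uniform M
  refine ⟨k1 + k2 * M, fun F hF => ?_⟩
  -- bounds of F
  have hb : ∀ i : ℕ, ∃ C : ℝ, ∀ y, ‖iteratedFDeriv ℝ i F y‖ ≤ C := fun i =>
    (hF.1.continuous_iteratedFDeriv (m := i) (mod_cast le_top)).bounded_above_of_compact_support
      (hF.2.1.iteratedFDeriv i)
  choose cf hcf using hb
  set CF : ℝ := ∑ i ∈ Finset.range (M + 1), |cf i| with hCF
  have hCF0 : 0 ≤ CF := Finset.sum_nonneg fun _ _ => abs_nonneg _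
  have hF1 : ∀ i ≤ M, ∀ y, ‖iteratedFDeriv ℝ i F y‖ ≤ CF := by
    intro i hi y
    refine (hcf i y).trans ((le_abs_self _).trans ?_)
    exact Finset.single_le_sum (f := fun i => |cf i|) (fun _ _ => abs_nonneg _)
      (Finset.mem_range.mpr (Nat.lt_succ_of_le hi))
  -- the support
  obtain ⟨R, hR⟩ := hF.2.1.isCompact.isBounded.exists_norm_le
  have hwb : ∀ j, ∃ C : ℝ, ∀ g, ‖w g j‖ ≤ C := fun j =>
    (hw1 j).continuous.bounded_above_of_compact_support (hw2 j)
  choose cw hcw using hwb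
  set E : ℝ := ∑ j, |ε j| * |cw j| with hEd
  have hE0 : 0 ≤ E := Finset.sum_nonneg fun _ _ => mul_nonneg (abs_nonneg _) (abs_nonneg _)
  have hxi : ∀ z g j, |ε j * (z * w g j).re| ≤ E * ‖z‖ := by
    intro z g j
    have e1 : |(z * w g j).re| ≤ ‖z‖ * |cw j| := by
      refine (Complex.abs_re_le_norm _).trans ?_
      rw [norm_mul]
      exact mul_le_mul_of_nonneg_left ((hcw j g).trans (le_abs_self _)) (norm_nonneg _)
    rw [abs_mul]
    calc |ε j| * |(z * w g j).re| ≤ |ε j| * (‖z‖ * |cw j|) :=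
          mul_le_mul_of_nonneg_left e1 (abs_nonneg _)
      _ = (|ε j| * |cw j|) * ‖z‖ := by ring
      _ ≤ E * ‖z‖ := by
          refine mul_le_mul_of_nonneg_right ?_ (norm_nonneg _)
          exact Finset.single_le_sum (f := fun j => |ε j| * |cw j|)
            (fun _ _ => mul_nonneg (abs_nonneg _) (abs_nonneg _)) (Finset.mem_univ j)
  set R' : ℝ := max R 0 with hR'
  have hsup : ∀ z x, F (Th ε w (z, x)) ≠ 0 → ‖x‖ ≤ R' + E * ‖z‖ := by
    intro z x hx
    have e1 : ‖Th ε w (z, x)‖ ≤ R' := (hR _ (subset_tsupport _ hx)).trans (le_max_left _ _)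
    have e2 : ‖x.1‖ ≤ R' := by
      have := (norm_fst_le (Th ε w (z, x))).trans e1
      rwa [Th_fst] at this
    have e3 : ∀ j, |x.2 j - ε j * (z * w x.1 j).re| ≤ R' := by
      intro j
      have e4 := (norm_snd_le (Th ε w (z, x))).trans e1
      have e5 := (norm_le_pi_norm (Th ε w (z, x)).2 j).trans e4
      rw [Th_snd] at e5
      exact e5
    have hEz : 0 ≤ E * ‖z‖ := mul_nonneg hE0 (norm_nonneg _)
    have hR0 : 0 ≤ R' := le_max_right _ _
    rw [Prod.norm_def]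
    refine max_le (by linarith) ?_
    rw [pi_norm_le_iff_of_nonneg (by linarith)]
    intro j
    have e6 := hxi z x.1 j
    have e7 : x.2 j = (x.2 j - ε j * (z * w x.1 j).re) + ε j * (z * w x.1 j).re := by ring
    rw [Real.norm_eq_abs, e7]
    exact (abs_add_le _ _).trans (add_le_add (e3 j) e6)
  set C : ℝ := (2 ^ M * M.factorial) * (C1 * (CF * (1 + C2) ^ M)) * (1 + R' + E) ^ (k1 + k2 * M) with hC
  have hR0 : 0 ≤ R' := le_max_right _ _
  have hC0 : 0 ≤ C := by positivity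
  refine ⟨C, fun z m hm x => ?_⟩
  rw [vg_eq ε a hw3 hF z]
  by_cases hx : ‖x‖ ≤ R' + E * ‖z‖
  · set Φ : ℂ × XX n → ℂ := fun p => (eI ∘ th ε a w) p * (F ∘ Th ε w) p with hΦ
    have hΦs : ContDiff ℝ ∞ Φ := hE.1.mul (hF.1.comp hT.1)
    refine (vg_part hΦs z x m).trans ?_
    set B : ℝ := 1 + ‖(z, x)‖ with hB
    have hB1 : 1 ≤ B := by rw [hB]; linarith [norm_nonneg (z, x)]
    have hB0 : 0 ≤ B := by linarith
    have hD1 : 1 ≤ (1 + C2) * B ^ k2 := one_le_mul_of_one_le_of_one_le (by linarith) (one_le_pow₀ hB1)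
    have hlei := norm_iteratedFDeriv_mul_le hE.1 (hF.1.comp hT.1) (z, x) (n := m) (mod_cast le_top)
    refine hlei.trans ?_
    have hterm : ∀ i ∈ Finset.range (m + 1),
        (m.choose i : ℝ) * ‖iteratedFDeriv ℝ i (eI ∘ th ε a w) (z, x)‖ *
          ‖iteratedFDeriv ℝ (m - i) (F ∘ Th ε w) (z, x)‖ ≤
        (m.choose i : ℝ) * (M.factorial * (C1 * (CF * (1 + C2) ^ M)) * B ^ (k1 + k2 * M)) := by
      intro i hi
      have him : i ≤ m := Nat.lt_succ_iff.mp (Finset.mem_range.mp hi)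
      have t1 : ‖iteratedFDeriv ℝ i (eI ∘ th ε a w) (z, x)‖ ≤ C1 * B ^ k1 := h1 i (him.trans hm) (z, x)
      have t2 : ‖iteratedFDeriv ℝ (m - i) (F ∘ Th ε w) (z, x)‖ ≤
          (m - i).factorial * CF * ((1 + C2) * B ^ k2) ^ (m - i) := by
        refine norm_iteratedFDeriv_comp_le hF.1 hT.1 (vg_le (m - i)) (z, x) ?_ ?_
        · intro l hl
          exact hF1 l (hl.trans ((Nat.sub_le m i).trans hm)) _
        · intro l hl1 hl2
          have t3 := h2 l (hl2.trans ((Nat.sub_le m i).trans hm)) (z, x)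
          calc _ ≤ C2 * B ^ k2 := t3
            _ ≤ (1 + C2) * B ^ k2 := by gcongr; linarith
            _ ≤ _ := le_self_pow₀ hD1 (by omega)
      have t4 : ((m - i).factorial : ℝ) ≤ M.factorial := by
        exact_mod_cast Nat.factorial_le ((Nat.sub_le m i).trans hm)
      have t5 : ((1 + C2) * B ^ k2) ^ (m - i) ≤ (1 + C2) ^ M * B ^ (k2 * M) := by
        calc _ ≤ ((1 + C2) * B ^ k2) ^ M := pow_le_pow_right₀ hD1 ((Nat.sub_le m i).trans hm)
          _ = _ := by rw [mul_pow, pow_mul]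
      rw [mul_assoc]
      refine mul_le_mul_of_nonneg_left ?_ (Nat.cast_nonneg _)
      calc ‖iteratedFDeriv ℝ i (eI ∘ th ε a w) (z, x)‖ * ‖iteratedFDeriv ℝ (m - i) (F ∘ Th ε w) (z, x)‖
          ≤ (C1 * B ^ k1) * (M.factorial * CF * ((1 + C2) ^ M * B ^ (k2 * M))) := by
            refine mul_le_mul t1 (t2.trans ?_) (norm_nonneg _) (by positivity)
            gcongr
        _ = _ := by rw [pow_add]; ring
    refine (Finset.sum_le_sum hterm).trans ?_
    rw [← Finset.sum_mul]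
    have hsum : (∑ i ∈ Finset.range (m + 1), (m.choose i : ℝ)) ≤ 2 ^ M := by
      have e1 : (∑ i ∈ Finset.range (m + 1), (m.choose i : ℝ)) = 2 ^ m := by
        exact_mod_cast Nat.sum_range_choose m
      rw [e1]
      exact pow_le_pow_right₀ (by norm_num) hm
    have hBz : B ≤ (1 + R' + E) * (1 + ‖z‖) := by
      have e1 : ‖(z, x)‖ ≤ ‖z‖ + (R' + E * ‖z‖) := by
        rw [Prod.norm_def]
        have hEz : 0 ≤ E * ‖z‖ := mul_nonneg hE0 (norm_nonneg _)
        exact max_le (by linarith) (hx.trans (by linarith [norm_nonneg z]))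
      have e2 : 0 ≤ R' * ‖z‖ := mul_nonneg hR0 (norm_nonneg _)
      rw [hB]
      nlinarith [norm_nonneg z]
    calc (∑ i ∈ Finset.range (m + 1), (m.choose i : ℝ)) *
          (M.factorial * (C1 * (CF * (1 + C2) ^ M)) * B ^ (k1 + k2 * M))
        ≤ 2 ^ M * (M.factorial * (C1 * (CF * (1 + C2) ^ M)) *
          ((1 + R' + E) * (1 + ‖z‖)) ^ (k1 + k2 * M)) := by
          gcongr
      _ = C * (1 + ‖z‖) ^ (k1 + k2 * M) := by rw [hC, mul_pow]; ring
  · have h3 : x ∉ tsupport (fun x => eI (th ε a w (z, x)) * F (Th ε w (z, x))) := by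
      intro h4
      have h5 : tsupport (fun x => eI (th ε a w (z, x)) * F (Th ε w (z, x))) ⊆
          {x | ‖x‖ ≤ R' + E * ‖z‖} := by
        refine closure_minimal ?_ (isClosed_le continuous_norm continuous_const)
        intro y hy
        exact hsup z y (right_ne_zero_of_mul hy)
      exact hx (h5 h4)
    have h6 : iteratedFDeriv ℝ m (fun x => eI (th ε a w (z, x)) * F (Th ε w (z, x))) x = 0 := by
      by_contra h7
      exact h3 (support_iteratedFDeriv_subset m h7)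
    rw [h6, norm_zero]
    positivity

end

end Pool.Agent.Work.MP_dd0ddf_al.AR
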