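import Pool.Agent.Work.MP_dd0ddf_al.AR.Vz
import Pool.Agent.Work.MP_dd0ddf_al.AR.VzG
import Pool.Agent.Work.MP_dd0ddf_al.AR.ParB
import Pool.Agent.Work.MP_dd0ddf_al.AR.Liou
import Pool.Agent.Work.MP_dd0ddf_al.AR.Heis

/-!
# Nilp (M): nilpotency

`T` is a functional of finite order on `K × ℝ^n`, `T (r F) = 0` with `r = <v, v>`, and
`T (opB v (opA v F)) = 0`.  Claim: `T ((opA v)^k F) = 0 = T ((opB v)^k F)` for `k > N + 1`.

Put `F_k = (opA v)^k F ∈ TFK K`, `G_k(z) = T (V_z F_k)`.  By `hasFDerivAt_T` (with `P = ℂ`) and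
`Vz_fderiv`, `G_k` is real differentiable with derivative
`δ ↦ δ T (opA v V_z F_k) + conj δ T (opB v V_z F_k)` (the `r`-term is killed by `T`).
By `opA_Vz`: `T (opA v V_z F_k) = T (V_z opA v F_k) = G_{k+1}(z)`.  For `k ≥ 1`, `F_k = opA v F_{k-1}`
and `V_z (opA v F_{k-1}) = opA v (V_z F_{k-1}) + (a conj z) r V_z F_{k-1}`, so
`T (opB v V_z F_k) = T (opB v (opA v (V_z F_{k-1}))) + a conj z T (r opB v (V_z F_{k-1})) = 0`
(`opB_mG`).  Hence for `k ≥ 1` the real derivative of `G_k` is `δ ↦ δ G_{k+1}(z)`: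
`HasDerivAt G_k (G_{k+1} z) z`.  By `IsDistK` (order `M`) and `Vz_growth` (exponent `N` depends on
`M` only): `|G_1(z)| ≤ C (1 + ‖z‖)^N`.  `liou` applied to `k ↦ G_{k+1}` gives `G_{k+1}(0) = 0` for
`k > N`, and `G_k(0) = T (F_k)` by `Vz_zero`.
For `opB`: `G'_k(z) = T (V_{conj z} ((opB v)^k F))`, the derivative in the direction `δ` is
`conj δ T (opA v V ..) + δ T (opB v V ..)`, `T (opA v V_w (opB v F')) = T (opA v (opB v (V_w F'))) +
(r-term) = T (opB v (opA v (V_w F'))) + (r-terms) = 0` by `opA_opB`, `T (opB v V_w F'_k) =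
T (V_w F'_{k+1}) + (r-term)`.
-/

set_option linter.unusedSectionVars false

namespace Pool.Agent.Work.MP_dd0ddf_al.AR

open scoped SchwartzMap Matrix.Norms.Elementwise ComplexConjugate ContDiff Topology LineDeriv
open Matrix MeasureTheory Filter

noncomputable section

variable {n : ℕ}

private theorem nl_hf (ε : Fin n → ℝ) {Ω : Set (Mat n)} {v : Mat n → Fin n → ℂ}
    (hv : ContDiffOn ℝ ∞ v Ω) : ContDiffOn ℝ ∞ (fun g => hf ε (v g) (v g)) Ω := by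
  unfold hf
  refine ContDiffOn.sum fun j _ => ?_
  have h1 : ContDiffOn ℝ ∞ (fun g => v g j) Ω := fun g hg => contDiffWithinAt_pi.mp (hv g hg) j
  have h2 : ContDiffOn ℝ ∞ (fun g => conj (v g j)) Ω := Complex.conjCLE.contDiff.comp_contDiffOn h1
  exact (contDiffOn_const.mul h1).mul h2

private theorem nl_der (ε : Fin n → ℝ) (hε : ∀ j, ε j = 1 ∨ ε j = -1) (a : ℝ) {Ω K : Set (Mat n)}
    (hΩ : IsOpen Ω) (hK : IsCompact K) (hKΩ : K ⊆ Ω) {v : Mat n → Fin n → ℂ}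
    (hv : ContDiffOn ℝ ∞ v Ω) {T : (XX n → ℂ) →ₗ[ℂ] ℂ} (hT : IsDistK K T)
    (hR : ∀ F ∈ TFK K, T (mG (fun g => hf ε (v g) (v g)) F) = 0)
    {F : XX n → ℂ} (hF : F ∈ TFK K) (z : ℂ) :
    ∃ D : ℂ →L[ℝ] ℂ, (∀ δ, D δ = δ * T (opA ε a v (Vz ε a v z F)) +
      conj δ * T (opB ε a v (Vz ε a v z F))) ∧
      HasFDerivAt (fun z => T (Vz ε a v z F)) D z := by
  obtain ⟨h1, h2, h3⟩ := Vz_smooth ε a hΩ hK hKΩ hv hF
  obtain ⟨V, hV, R, hVR⟩ := h3 z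
  obtain ⟨D, hD, hDd⟩ := hasFDerivAt_T (P := ℂ) hK hT h1 (fun p x hx => h2 p x hx) z hV R
    (fun q hq x hx => hVR q hq x hx)
  refine ⟨D, fun δ => ?_, hDd⟩
  rw [hD, Vz_fderiv ε hε a hΩ hK hKΩ hv hF z δ, map_sub, map_add, map_smul, map_smul, map_smul,
    hR _ (Vz_mem ε a hΩ hK hKΩ hv z hF)]
  simp only [smul_eq_mul, mul_zero, sub_zero]

private theorem nl_A (ε : Fin n → ℝ) (hε : ∀ j, ε j = 1 ∨ ε j = -1) (a : ℝ) {Ω K : Set (Mat n)}
    (hΩ : IsOpen Ω) (hK : IsCompact K) (hKΩ : K ⊆ Ω) {v : Mat n → Fin n → ℂ}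
    (hv : ContDiffOn ℝ ∞ v Ω) {T : (XX n → ℂ) →ₗ[ℂ] ℂ} (hT : IsDistK K T)
    (hR : ∀ F ∈ TFK K, T (mG (fun g => hf ε (v g) (v g)) F) = 0)
    (hBA : ∀ F ∈ TFK K, T (opB ε a v (opA ε a v F)) = 0)
    {F : XX n → ℂ} (hF : F ∈ TFK K) (z : ℂ) :
    HasDerivAt (fun z => T (Vz ε a v z (opA ε a v F)))
      (T (Vz ε a v z (opA ε a v (opA ε a v F)))) z := by
  have hr := nl_hf ε hv
  have hAF := opA_mem ε a hΩ hK hKΩ hv hF
  have hVF := Vz_mem ε a hΩ hK hKΩ hv z hF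
  have hAVF := opA_mem ε a hΩ hK hKΩ hv hVF
  have hmV := mG_mem hΩ hK hKΩ hr hVF
  obtain ⟨D, hD, hDd⟩ := nl_der ε hε a hΩ hK hKΩ hv hT hR hAF z
  have e1 : T (opA ε a v (Vz ε a v z (opA ε a v F))) = T (Vz ε a v z (opA ε a v (opA ε a v F))) := by
    rw [opA_Vz ε hε a hΩ hK hKΩ hv hAF z, map_sub, map_smul,
      hR _ (Vz_mem ε a hΩ hK hKΩ hv z hAF), smul_zero, sub_zero]
  have e2 : T (opB ε a v (Vz ε a v z (opA ε a v F))) = 0 := by
    have e3 : Vz ε a v z (opA ε a v F) = opA ε a v (Vz ε a v z F) +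
        (a * conj z : ℂ) • mG (fun g => hf ε (v g) (v g)) (Vz ε a v z F) := by
      rw [opA_Vz ε hε a hΩ hK hKΩ hv hF z, sub_add_cancel]
    rw [e3, opB_add ε a v hAVF ((TFK K).smul_mem _ hmV), opB_smul ε a v _ hmV,
      opB_mG ε a hΩ hK hKΩ hr v hVF, map_add, map_smul, hBA _ hVF,
      hR _ (opB_mem ε a hΩ hK hKΩ hv hVF), smul_zero, add_zero]
  rw [hasDerivAt_iff_hasFDerivAt]
  refine hasFDerivAt_of_restrictScalars ℝ hDd ?_
  ext δ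
  rw [hD, e1, e2]
  simp

private theorem nl_B (ε : Fin n → ℝ) (hε : ∀ j, ε j = 1 ∨ ε j = -1) (a : ℝ) {Ω K : Set (Mat n)}
    (hΩ : IsOpen Ω) (hK : IsCompact K) (hKΩ : K ⊆ Ω) {v : Mat n → Fin n → ℂ}
    (hv : ContDiffOn ℝ ∞ v Ω) {T : (XX n → ℂ) →ₗ[ℂ] ℂ} (hT : IsDistK K T)
    (hR : ∀ F ∈ TFK K, T (mG (fun g => hf ε (v g) (v g)) F) = 0)
    (hBA : ∀ F ∈ TFK K, T (opB ε a v (opA ε a v F)) = 0)
    {F : XX n → ℂ} (hF : F ∈ TFK K) (z : ℂ) :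
    HasDerivAt (fun z : ℂ => T (Vz ε a v (conj z) (opB ε a v F)))
      (T (Vz ε a v (conj z) (opB ε a v (opB ε a v F)))) z := by
  have hr := nl_hf ε hv
  have hBF := opB_mem ε a hΩ hK hKΩ hv hF
  have hVF := Vz_mem ε a hΩ hK hKΩ hv (conj z) hF
  have hBVF := opB_mem ε a hΩ hK hKΩ hv hVF
  have hmV := mG_mem hΩ hK hKΩ hr hVF
  obtain ⟨D, hD, hDd⟩ := nl_der ε hε a hΩ hK hKΩ hv hT hR hBF (conj z)
  have e1 : T (opB ε a v (Vz ε a v (conj z) (opB ε a v F))) =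
      T (Vz ε a v (conj z) (opB ε a v (opB ε a v F))) := by
    rw [opB_Vz ε hε a hΩ hK hKΩ hv hBF (conj z), map_add, map_smul,
      hR _ (Vz_mem ε a hΩ hK hKΩ hv (conj z) hBF), smul_zero, add_zero]
  have e2 : T (opA ε a v (Vz ε a v (conj z) (opB ε a v F))) = 0 := by
    have e3 : Vz ε a v (conj z) (opB ε a v F) = opB ε a v (Vz ε a v (conj z) F) +
        (-(a * conj z) : ℂ) • mG (fun g => hf ε (v g) (v g)) (Vz ε a v (conj z) F) := by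
      rw [opB_Vz ε hε a hΩ hK hKΩ hv hF (conj z), neg_smul, add_neg_cancel_right]
    rw [e3, opA_add ε a v hBVF ((TFK K).smul_mem _ hmV), opA_smul ε a v _ hmV,
      opA_mG ε a hΩ hK hKΩ hr v hVF, opA_opB ε hε a hΩ hK hKΩ hv hv hVF, map_add, map_sub,
      map_smul, map_smul, hBA _ hVF, hR _ hVF, hR _ (opA_mem ε a hΩ hK hKΩ hv hVF), smul_zero,
      smul_zero, sub_zero, add_zero]
  have hc : HasFDerivAt (fun z : ℂ => conj z) (Complex.conjCLE : ℂ →L[ℝ] ℂ) z :=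
    Complex.conjCLE.hasFDerivAt
  have hcomp : HasFDerivAt (fun z : ℂ => T (Vz ε a v (conj z) (opB ε a v F)))
      (D.comp (Complex.conjCLE : ℂ →L[ℝ] ℂ)) z := hDd.comp z hc
  rw [hasDerivAt_iff_hasFDerivAt]
  refine hasFDerivAt_of_restrictScalars ℝ hcomp ?_
  ext δ
  simp only [ContinuousLinearMap.comp_apply]
  rw [hD, e1, e2]
  simp

theorem nilp (ε : Fin n → ℝ) (hε : ∀ j, ε j = 1 ∨ ε j = -1) (a : ℝ) {Ω K : Set (Mat n)}
    (hΩ : IsOpen Ω) (hK : IsCompact K) (hKΩ : K ⊆ Ω) {v : Mat n → Fin n → ℂ}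
    (hv : ContDiffOn ℝ ∞ v Ω) {T : (XX n → ℂ) →ₗ[ℂ] ℂ} (hT : IsDistK K T)
    (hR : ∀ F ∈ TFK K, T (mG (fun g => hf ε (v g) (v g)) F) = 0)
    (hBA : ∀ F ∈ TFK K, T (opB ε a v (opA ε a v F)) = 0) :
    ∃ N : ℕ, ∀ k : ℕ, N < k → ∀ F ∈ TFK K,
      T ((opA ε a v)^[k] F) = 0 ∧ T ((opB ε a v)^[k] F) = 0 := by
  obtain ⟨C, M, hCM⟩ := hT
  have hT : IsDistK K T := ⟨C, M, hCM⟩
  obtain ⟨N, hN⟩ := Vz_growth ε a hΩ hK hKΩ hv M
  have hmA : ∀ k, ∀ F ∈ TFK K, (opA ε a v)^[k] F ∈ TFK K := by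
    intro k
    induction k with
    | zero => intro F hF; exact hF
    | succ k ih =>
      intro F hF
      rw [Function.iterate_succ_apply']
      exact opA_mem ε a hΩ hK hKΩ hv (ih F hF)
  have hmB : ∀ k, ∀ F ∈ TFK K, (opB ε a v)^[k] F ∈ TFK K := by
    intro k
    induction k with
    | zero => intro F hF; exact hF
    | succ k ih =>
      intro F hF
      rw [Function.iterate_succ_apply']
      exact opB_mem ε a hΩ hK hKΩ hv (ih F hF)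
  have hgr : ∀ F ∈ TFK K, ∃ C' : ℝ, ∀ z : ℂ, ‖T (Vz ε a v z F)‖ ≤ C' * (1 + ‖z‖) ^ N := by
    intro F hF
    obtain ⟨C1, hC1⟩ := hN F hF
    refine ⟨C * C1, fun z => ?_⟩
    rw [mul_assoc]
    exact hCM _ (Vz_mem ε a hΩ hK hKΩ hv z hF) _ (fun m hm x => hC1 z m hm x)
  refine ⟨N + 1, fun k hk F hF => ?_⟩
  obtain ⟨l, rfl⟩ : ∃ l, k = l + 1 := ⟨k - 1, by omega⟩
  have hl : N < l := by omega
  constructor
  · obtain ⟨C', hC'⟩ := hgr _ (hmA 1 F hF)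
    have h := liou (fun k z => T (Vz ε a v z ((opA ε a v)^[k + 1] F))) (fun k z => ?_) C' N
      (fun z => hC' z) l hl
    · simpa only [Vz_zero] using h
    · have h1 := nl_A ε hε a hΩ hK hKΩ hv hT hR hBA (hmA k F hF) z
      simp only [Function.iterate_succ_apply']
      exact h1
  · obtain ⟨C', hC'⟩ := hgr _ (hmB 1 F hF)
    have h := liou (fun k z => T (Vz ε a v (conj z) ((opB ε a v)^[k + 1] F))) (fun k z => ?_) C' N
      (fun z => ?_) l hl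
    · simpa only [map_zero, Vz_zero] using h
    · have h1 := nl_B ε hε a hΩ hK hKΩ hv hT hR hBA (hmB k F hF) z
      simp only [Function.iterate_succ_apply']
      exact h1
    · have := hC' (conj z)
      rwa [RCLike.norm_conj] at this

end

end Pool.Agent.Work.MP_dd0ddf_al.AR
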