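import Pool.Agent.Work.MP_dd0ddf_al.AR.OInA

/-!
# O-block, module OInB (M): distributions and integrals

PROOF. Let `C`, `M` be the constants of `FinOrd` for `K`. Way 1: `E` = the Banach space of the bounded continuous functions from `Mat n` to `∀ m : Fin (M+1), (Mat n) [×m]→L[ℝ] ℂ` (`BoundedContinuousFunction`; a complex normed space), `J : TGK K → E`, `J f g m = iteratedFDeriv ℝ m f g`, linear
and injective (component `m = 0`). On the range of `J` the functional `J f ↦ ℓ f` is bounded by `|C| ‖J f‖` (`FinOrd` with `B = ‖J f‖`), so it extends to `Λ : E →L[ℂ] ℂ` (Hahn-Banach, `exists_extension_norm_eq`). The map `x ↦ J(Φ(x, ·))` is continuous (`slice_unif`) with compact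
support, hence integrable, and `∫ J(Φ(x, ·)) dμ = J(∫ Φ(x, ·) dμ)` (evaluate at `g`, `m`: these are continuous linear maps, `ContinuousLinearMap.integral_comp_comm`, and use `param_int`). So `ℓ(∫ Φ) = Λ(∫ J(Φ(x, ·))) = ∫ Λ(J(Φ(x, ·))) = ∫ ℓ(Φ(x, ·))`.
Way 2 (Riemann sums): `S = Prod.fst '' tsupport Φ` is compact, `μ S < ⊤`. For `e > 0` there are a finite measurable partition `S = ⋃ A_i` and points `x_i` such that all derivatives of order `≤ M` of `Φ(x, ·) - Φ(x_i, ·)`, `x ∈ A_i`, are `≤ e` (uniform continuity). Then `∑ μ(A_i) Φ(x_i, ·)` approximates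
`∫ Φ(x, ·) dμ` up to `e μ(S)` in all derivatives of order `≤ M` (`param_int`), and `∑ μ(A_i) ℓ(Φ(x_i, ·))` approximates `∫ ℓ(Φ(x, ·)) dμ` up to `|C| e μ(S)`.
-/

set_option linter.unusedSectionVars false

namespace Pool.Agent.Work.MP_dd0ddf_al.AR.O

open scoped SchwartzMap Matrix.Norms.Elementwise ComplexConjugate ContDiff Topology LineDeriv
open Matrix MeasureTheory Filter

variable {n : ℕ}

private theorem oinb_hbr {S : Type*} [AddCommGroup S] [Module ℝ S] {Y : Type*}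
    [NormedAddCommGroup Y] [NormedSpace ℝ Y] (J : S →ₗ[ℝ] Y) (hinj : Function.Injective J)
    (ψ : S →ₗ[ℝ] ℝ) {C : ℝ} (hC : ∀ f, ‖ψ f‖ ≤ C * ‖J f‖) : ∃ Λ : Y →L[ℝ] ℝ, ∀ f, Λ (J f) = ψ f := by
  let e := LinearEquiv.ofInjective J hinj
  let φ0 : LinearMap.range J →ₗ[ℝ] ℝ := ψ.comp e.symm.toLinearMap
  have hφ0 : ∀ f : S, φ0 ⟨J f, LinearMap.mem_range_self J f⟩ = ψ f := by
    intro f
    have h1 : e.symm ⟨J f, LinearMap.mem_range_self J f⟩ = f := by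
      rw [LinearEquiv.symm_apply_eq]
      rfl
    change ψ (e.symm ⟨J f, LinearMap.mem_range_self J f⟩) = ψ f
    rw [h1]
  have hφ1 : ∀ y : LinearMap.range J, ‖φ0 y‖ ≤ C * ‖y‖ := by
    rintro ⟨y, f, rfl⟩
    rw [hφ0]
    exact hC f
  let φ : LinearMap.range J →L[ℝ] ℝ := φ0.mkContinuous C hφ1
  obtain ⟨Λ, hΛ, -⟩ := exists_extension_norm_eq (LinearMap.range J) φ
  refine ⟨Λ, fun f => ?_⟩
  have h1 := hΛ ⟨J f, LinearMap.mem_range_self J f⟩
  exact h1.trans (hφ0 f)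

private theorem oinb_hb {S : Type*} [AddCommGroup S] [Module ℝ S] {Y : Type*}
    [NormedAddCommGroup Y] [NormedSpace ℝ Y] (J : S →ₗ[ℝ] Y) (hinj : Function.Injective J)
    (ψ : S →ₗ[ℝ] ℂ) {C : ℝ} (hC : ∀ f, ‖ψ f‖ ≤ C * ‖J f‖) : ∃ Λ : Y →L[ℝ] ℂ, ∀ f, Λ (J f) = ψ f := by
  obtain ⟨Λ1, h1⟩ := oinb_hbr J hinj (Complex.reLm.comp ψ) (C := C)
    (fun f => (Complex.abs_re_le_norm (ψ f)).trans (hC f))
  obtain ⟨Λ2, h2⟩ := oinb_hbr J hinj (Complex.imLm.comp ψ) (C := C)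
    (fun f => (Complex.abs_im_le_norm (ψ f)).trans (hC f))
  refine ⟨Λ1.smulRight (1 : ℂ) + Λ2.smulRight Complex.I, fun f => ?_⟩
  have h3 : Λ1 (J f) = (ψ f).re := h1 f
  have h4 : Λ2 (J f) = (ψ f).im := h2 f
  change Λ1 (J f) • (1 : ℂ) + Λ2 (J f) • Complex.I = ψ f
  rw [h3, h4]
  conv_rhs => rw [← Complex.re_add_im (ψ f)]
  simp

open BoundedContinuousFunction in
private theorem oinb_abs {S : Type*} [AddCommGroup S] [Module ℝ S] {X : Type*}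
    [PseudoMetricSpace X] [MeasurableSpace X] [OpensMeasurableSpace X] (μ : Measure X)
    [IsFiniteMeasureOnCompacts μ] {M : ℕ} (Z : ℕ → Type*) [∀ m, NormedAddCommGroup (Z m)]
    [∀ m, NormedSpace ℝ (Z m)] [∀ m, CompleteSpace (Z m)] (D : ∀ m, S → X → Z m)
    (hadd : ∀ m f f' g, D m (f + f') g = D m f g + D m f' g)
    (hsmul : ∀ m (c : ℝ) f g, D m (c • f) g = c • D m f g) (hcts : ∀ m f, Continuous (D m f))
    (hbd : ∀ m f, ∃ B : ℝ, ∀ g, ‖D m f g‖ ≤ B)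
    (hinj : ∀ f f', (∀ g, D 0 f g = D 0 f' g) → f = f') (ψ : S →ₗ[ℝ] ℂ) {C : ℝ}
    (hψ : ∀ f, ∀ B : ℝ, (∀ m ≤ M, ∀ g, ‖D m f g‖ ≤ B) → ‖ψ f‖ ≤ C * B) (G : X → S) (F : S)
    (hcont : ∀ x0, ∀ e : ℝ, 0 < e → ∀ᶠ x in 𝓝 x0, ∀ m ≤ M, ∀ g,
      ‖D m (G x) g - D m (G x0) g‖ ≤ e)
    (hsupp : ∃ Q : Set X, IsCompact Q ∧ ∀ x ∉ Q, G x = 0)
    (hint : ∀ m ≤ M, ∀ g, D m F g = ∫ x, D m (G x) g ∂μ) :
    ψ F = ∫ x, ψ (G x) ∂μ := by
  have hbd2 : ∀ m f, ∃ B : ℝ, ∀ g g', dist (D m f g) (D m f g') ≤ B := by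
    intro m f
    obtain ⟨B, hB⟩ := hbd m f
    refine ⟨B + B, fun g g' => ?_⟩
    rw [dist_eq_norm]
    exact (norm_sub_le _ _).trans (add_le_add (hB g) (hB g'))
  let J : S →ₗ[ℝ] (∀ m : Fin (M + 1), X →ᵇ Z m) :=
    { toFun := fun f m => ⟨⟨D m f, hcts m f⟩, hbd2 m f⟩
      map_add' := by
        intro f f'
        funext m
        ext1 g
        exact hadd m f f' g
      map_smul' := by
        intro c f
        funext m
        ext1 g
        exact hsmul m c f g }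
  have hJ : ∀ (f : S) (m : Fin (M + 1)) (g : X), J f m g = D m f g := fun _ _ _ => rfl
  have hinj' : Function.Injective J := by
    intro f f' h
    apply hinj
    intro g
    have h1 := hJ f 0 g
    have h2 := hJ f' 0 g
    rw [h] at h1
    exact h1.symm.trans h2
  have hnorm : ∀ f : S, ‖ψ f‖ ≤ C * ‖J f‖ := by
    intro f
    apply hψ f
    intro m hm g
    have h1 := norm_le_pi_norm (J f) ⟨m, Nat.lt_succ_of_le hm⟩
    have h2 := (J f ⟨m, Nat.lt_succ_of_le hm⟩).norm_coe_le_norm g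
    exact h2.trans h1
  obtain ⟨Λ, hΛJ⟩ := oinb_hb J hinj' ψ hnorm
  have hGc : Continuous fun x => J (G x) := by
    rw [continuous_iff_continuousAt]
    intro x0
    rw [Metric.continuousAt_iff']
    intro ε hε
    filter_upwards [hcont x0 (ε / 2) (half_pos hε)] with x hx
    refine lt_of_le_of_lt ?_ (half_lt_self hε)
    rw [dist_pi_le_iff (half_pos hε).le]
    intro m
    rw [BoundedContinuousFunction.dist_le (half_pos hε).le]
    intro g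
    rw [dist_eq_norm]
    exact hx m (Nat.lt_succ_iff.1 m.2) g
  obtain ⟨Q, hQ, hQ0⟩ := hsupp
  have hGs : HasCompactSupport fun x => J (G x) := by
    refine HasCompactSupport.intro hQ fun x hx => ?_
    rw [hQ0 x hx, map_zero]
  have hGi : Integrable (fun x => J (G x)) μ := hGc.integrable_of_hasCompactSupport hGs
  have hY : ∫ x, J (G x) ∂μ = J F := by
    funext m
    ext1 g
    let ev : (∀ m : Fin (M + 1), X →ᵇ Z m) →L[ℝ] Z m :=
      (BoundedContinuousFunction.evalCLM ℝ g).comp (ContinuousLinearMap.proj m)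
    have h1 : ev (∫ x, J (G x) ∂μ) = ∫ x, ev (J (G x)) ∂μ :=
      (ev.integral_comp_comm hGi).symm
    have h2 : ev (∫ x, J (G x) ∂μ) = (∫ x, J (G x) ∂μ) m g := rfl
    rw [← h2, h1, hJ, hint m (Nat.lt_succ_iff.1 m.2) g]
    rfl
  rw [← hΛJ, ← hY, ← Λ.integral_comp_comm hGi]
  exact integral_congr_ae (Filter.Eventually.of_forall fun x => hΛJ (G x))

private theorem oinb_core {X : Type} [NormedAddCommGroup X] [NormedSpace ℝ X] [MeasurableSpace X]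
    [BorelSpace X] (μ : Measure X) [IsFiniteMeasureOnCompacts μ] (S : Submodule ℂ (X → ℂ))
    (hS : ∀ f ∈ S, ContDiff ℝ ∞ f ∧ HasCompactSupport f) (ℓ : (X → ℂ) →ₗ[ℂ] ℂ) {C : ℝ} {M : ℕ}
    (hℓ : ∀ f ∈ S, ∀ B : ℝ, (∀ m ≤ M, ∀ g, ‖iteratedFDeriv ℝ m f g‖ ≤ B) → ‖ℓ f‖ ≤ C * B)
    (G : X → S) (F : S)
    (hcont : ∀ x0, ∀ e : ℝ, 0 < e → ∀ᶠ x in 𝓝 x0, ∀ m ≤ M, ∀ g,
      ‖iteratedFDeriv ℝ m (G x).1 g - iteratedFDeriv ℝ m (G x0).1 g‖ ≤ e)
    (hsupp : ∃ Q : Set X, IsCompact Q ∧ ∀ x ∉ Q, G x = 0)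
    (hint : ∀ m ≤ M, ∀ g, iteratedFDeriv ℝ m F.1 g = ∫ x, iteratedFDeriv ℝ m (G x).1 g ∂μ) :
    ℓ F.1 = ∫ x, ℓ (G x).1 ∂μ := by
  have hcd : ∀ (f : S) (m : ℕ) (g : X), ContDiffAt ℝ m f.1 g := fun f m g =>
    (hS f.1 f.2).1.contDiffAt.of_le (by exact_mod_cast le_top)
  have hcts : ∀ (m : ℕ) (f : S), Continuous (iteratedFDeriv ℝ m f.1) := fun m f =>
    (hS f.1 f.2).1.continuous_iteratedFDeriv (by exact_mod_cast le_top)
  refine oinb_abs μ (M := M) (fun m => ContinuousMultilinearMap ℝ (fun _ : Fin m => X) ℂ)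
    (fun m (f : S) g => iteratedFDeriv ℝ m f.1 g)
    (fun m f f' g => iteratedFDeriv_add_apply (hcd f m g) (hcd f' m g))
    (fun m c f g => iteratedFDeriv_const_smul_apply (hcd f m g)) hcts
    (fun m f => (hcts m f).bounded_above_of_compact_support ((hS f.1 f.2).2.iteratedFDeriv m)) ?_
    ((ℓ.comp S.subtype).restrictScalars ℝ) (C := C) (fun f B hB => hℓ f.1 f.2 B hB) G F hcont hsupp
    hint
  intro f f' h
  apply Subtype.ext
  funext g
  have h4 := congrArg (fun T => T (fun _ => (0 : X))) (h g)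
  simpa using h4

theorem fin_int {Ω : Set (Mat n)} {ℓ : (Mat n → ℂ) →ₗ[ℂ] ℂ} (hℓ : FinOrd Ω ℓ) {K : Set (Mat n)}
    (hK : IsCompact K) (hKΩ : K ⊆ Ω) (μ : Measure (Mat n)) [μ.IsAddHaarMeasure]
    {Φ : Mat n × Mat n → ℂ} (hΦ : ContDiff ℝ ∞ Φ) (hc : HasCompactSupport Φ)
    (h0 : ∀ x g, g ∉ K → Φ (x, g) = 0) :
    ℓ (fun g => ∫ x, Φ (x, g) ∂μ) = ∫ x, ℓ (fun g => Φ (x, g)) ∂μ := by
  obtain ⟨C, M, hCM⟩ := hℓ K hK hKΩ
  have hmem : ∀ x, (fun g => Φ (x, g)) ∈ TGK K := fun x => mem_slice hΦ (h0 x)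
  have hmi := mem_int μ hΦ hc h0
  have hS : ∀ f ∈ TGK K, ContDiff ℝ ∞ f ∧ HasCompactSupport f := by
    intro f hf
    exact ⟨hf.1, HasCompactSupport.intro hK fun g hg => hf.2 g hg⟩
  have hfin : IsFiniteMeasureOnCompacts μ := inferInstance
  refine @oinb_core (Mat n) _ _ _ instBorelSpaceMat μ hfin (TGK K) hS ℓ C M hCM
    (fun x => ⟨fun g => Φ (x, g), hmem x⟩) ⟨_, hmi⟩
    (fun x0 e he => slice_unif hΦ hc M x0 he) ?_ (fun m _ g => (param_int μ hΦ hc).2 m g)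
  refine ⟨Prod.fst '' tsupport Φ, hc.isCompact.image continuous_fst, fun x hx => ?_⟩
  apply Subtype.ext
  funext g
  by_contra hne
  exact hx ⟨(x, g), subset_tsupport _ hne, rfl⟩

end Pool.Agent.Work.MP_dd0ddf_al.AR.O
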