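import Pool.Agent.Work.MP_dd0ddf_al.AR.OEqv

/-!
# O-block, module OUJ (S-M): elements of `U(V)`

PROOF. `J = diagonal ε`, `J * J = 1` (`ε_j^2 = 1`). `h ∈ RU ε` iff `h J h^H = J` (`hf ε x y = x J y^H`; test on basis vectors); `u ∈ UJ ε` iff `h^T J conj h = J` iff (conjugate, `J` real) `h^H J h = J` (cancel the factor `I` in `skf`, test on basis vectors).
If `h J h^H = J` then `h (J h^H J) = J J = 1`, so `(J h^H J) h = 1` (`Matrix.mul_eq_one_comm`), so `h^H J h = J` (multiply by `J` from the left); the converse is the same. An `h` with `h J h^H = J` is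
invertible, so it is the value of a unit (`Matrix.GeneralLinearGroup.mkOfDetNeZero`). `hU_coe`: the `if` in `hU` is true by `exists_UJ` and `dec`; `Exists.choose_spec`. `hU_inv_coe`: the inverse in `GLn n` is `Matrix` inverse
(`Matrix.coe_units_inv`).
-/

set_option linter.unusedSectionVars false

namespace Pool.Agent.Work.MP_dd0ddf_al.AR.O

open scoped SchwartzMap Matrix.Norms.Elementwise ComplexConjugate ContDiff Topology LineDeriv
open Matrix MeasureTheory Filter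

variable {n : ℕ}

private noncomputable def ouJ (ε : Fin n → ℝ) : Mat n := Matrix.diagonal fun j => (ε j : ℂ)

private theorem ouJ_sq {ε : Fin n → ℝ} (hep : ∀ j, ε j = 1 ∨ ε j = -1) : ouJ ε * ouJ ε = 1 := by
  unfold ouJ
  rw [Matrix.diagonal_mul_diagonal, ← Matrix.diagonal_one]
  congr 1
  funext j
  rcases hep j with h | h <;> rw [h] <;> norm_num

private theorem ou_hf (ε : Fin n → ℝ) (x y : Fin n → ℂ) :
    hf ε x y = x ⬝ᵥ (ouJ ε *ᵥ star y) := by
  unfold hf ouJ dotProduct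
  refine Finset.sum_congr rfl fun j _ => ?_
  rw [Matrix.mulVec_diagonal]
  simp only [Pi.star_apply, RCLike.star_def]
  ring

private theorem ou_row {ε : Fin n → ℝ} {h : Mat n} :
    h ∈ RU ε ↔ h * ouJ ε * hᴴ = ouJ ε := by
  have key : ∀ x y : Fin n → ℂ, hf ε (x ᵥ* h) (y ᵥ* h) = x ⬝ᵥ ((h * ouJ ε * hᴴ) *ᵥ star y) := by
    intro x y
    rw [ou_hf, Matrix.star_vecMul, ← Matrix.dotProduct_mulVec, Matrix.mulVec_mulVec,
      Matrix.mulVec_mulVec, Matrix.mul_assoc]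
  constructor
  · intro hh
    ext i k
    have h1 := hh (Pi.single i 1) (Pi.single k 1)
    rw [key, ou_hf] at h1
    have e1 : (star (Pi.single k (1 : ℂ)) : Fin n → ℂ) = Pi.single k 1 := by
      funext l
      by_cases hl : l = k
      · subst hl
        simp
      · simp [Pi.single_eq_of_ne hl]
    rw [e1] at h1
    simpa using h1
  · intro hh x y
    rw [key, hh, ou_hf]

private theorem ou_skf (ε : Fin n → ℝ) (v w : Fin n → ℂ) : skf ε v w = Complex.I * hf ε v w := rfl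

private theorem ou_hf' (ε : Fin n → ℝ) (x y : Fin n → ℂ) :
    hf ε x y = star y ⬝ᵥ (ouJ ε *ᵥ x) := by
  unfold hf ouJ dotProduct
  refine Finset.sum_congr rfl fun j _ => ?_
  rw [Matrix.mulVec_diagonal]
  simp only [Pi.star_apply, RCLike.star_def]
  ring

private theorem ou_col {ε : Fin n → ℝ} {h : Mat n} :
    (∀ v w, hf ε (h *ᵥ v) (h *ᵥ w) = hf ε v w) ↔ hᴴ * ouJ ε * h = ouJ ε := by
  have key : ∀ v w : Fin n → ℂ,
      hf ε (h *ᵥ v) (h *ᵥ w) = star w ⬝ᵥ ((hᴴ * ouJ ε * h) *ᵥ v) := by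
    intro v w
    rw [ou_hf', Matrix.star_mulVec, ← Matrix.dotProduct_mulVec, Matrix.mulVec_mulVec,
      Matrix.mulVec_mulVec, Matrix.mul_assoc]
  constructor
  · intro hh
    ext i k
    have h1 := hh (Pi.single k 1) (Pi.single i 1)
    rw [key, ou_hf'] at h1
    have e1 : (star (Pi.single i (1 : ℂ)) : Fin n → ℂ) = Pi.single i 1 := by
      funext l
      by_cases hl : l = i
      · subst hl
        simp
      · simp [Pi.single_eq_of_ne hl]
    rw [e1] at h1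
    simpa using h1
  · intro hh x y
    rw [key, hh, ou_hf']

theorem UJ_mem_RU {ε : Fin n → ℝ} (hep : ∀ j, ε j = 1 ∨ ε j = -1) (u : UJ ε) :
    (((u : UJ ε) : GLn n) : Mat n) ∈ RU ε := by
  have h1 : ∀ v w, hf ε ((((u : UJ ε) : GLn n) : Mat n) *ᵥ v) ((((u : UJ ε) : GLn n) : Mat n) *ᵥ w) =
      hf ε v w := by
    intro v w
    have h2 := u.2 v w
    rw [ou_skf, ou_skf] at h2
    exact mul_left_cancel₀ Complex.I_ne_zero h2
  rw [ou_col] at h1
  rw [ou_row]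
  set h : Mat n := (((u : UJ ε) : GLn n) : Mat n)
  have h3 : (ouJ ε * hᴴ * ouJ ε) * h = 1 := by
    calc (ouJ ε * hᴴ * ouJ ε) * h = ouJ ε * (hᴴ * ouJ ε * h) := by simp only [Matrix.mul_assoc]
      _ = 1 := by rw [h1, ouJ_sq hep]
  have h4 := mul_eq_one_comm.mp h3
  calc h * ouJ ε * hᴴ = (h * (ouJ ε * hᴴ * ouJ ε)) * ouJ ε := by
        simp only [Matrix.mul_assoc, ouJ_sq hep, Matrix.mul_one]
    _ = ouJ ε := by rw [h4, Matrix.one_mul]

theorem exists_UJ {ε : Fin n → ℝ} (hep : ∀ j, ε j = 1 ∨ ε j = -1) {h : Mat n} (hh : h ∈ RU ε) :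
    ∃ u : UJ ε, (((u : UJ ε) : GLn n) : Mat n) = h := by
  have hdet := RU_det hep hh
  rw [ou_row] at hh
  have h3 : h * (ouJ ε * hᴴ * ouJ ε) = 1 := by
    calc h * (ouJ ε * hᴴ * ouJ ε) = (h * ouJ ε * hᴴ) * ouJ ε := by simp only [Matrix.mul_assoc]
      _ = 1 := by rw [hh, ouJ_sq hep]
  have h4 := mul_eq_one_comm.mp h3
  have h5 : hᴴ * ouJ ε * h = ouJ ε := by
    calc hᴴ * ouJ ε * h = ouJ ε * ((ouJ ε * hᴴ * ouJ ε) * h) := by
          simp only [← Matrix.mul_assoc, ouJ_sq hep, Matrix.one_mul]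
      _ = ouJ ε := by rw [h4, Matrix.mul_one]
  rw [← ou_col] at h5
  refine ⟨⟨Matrix.GeneralLinearGroup.mkOfDetNeZero h hdet, ?_⟩, rfl⟩
  intro v w
  rw [ou_skf, ou_skf]
  congr 1
  exact h5 v w

theorem hU_coe {ε η : Fin n → ℝ} (hep : ∀ j, ε j = 1 ∨ ε j = -1) (hη : ∀ j, η j = 1 ∨ η j = -1)
    {g0 : Mat n} (hg0 : Frm ε η g0) {x : Mat n} (hx' : x ∈ Ue ε η) :
    (((hU ε g0 x : UJ ε) : GLn n) : Mat n) = hx ε g0 x := by
  have h := exists_UJ hep (dec hη hg0 hx').2.2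
  unfold hU
  rw [dif_pos h]
  exact h.choose_spec

theorem hU_inv_coe {ε η : Fin n → ℝ} (hep : ∀ j, ε j = 1 ∨ ε j = -1)
    (hη : ∀ j, η j = 1 ∨ η j = -1) {g0 : Mat n} (hg0 : Frm ε η g0) {x : Mat n}
    (hx' : x ∈ Ue ε η) : ((((hU ε g0 x)⁻¹ : UJ ε) : GLn n) : Mat n) = (hx ε g0 x)⁻¹ := by
  rw [← hU_coe hep hη hg0 hx']
  exact Matrix.coe_units_inv _

end Pool.Agent.Work.MP_dd0ddf_al.AR.O
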