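import Pool.Agent.Work.MP_dd0ddf_al.AR.OSmA
import Pool.Agent.Work.MP_dd0ddf_al.AR.OInB
import Pool.Agent.Work.MP_dd0ddf_al.AR.OUJ

/-!
# O-block, module OAvg (S-M): the average in terms of `L β`

PROOF. `ℓ = lt L t` is `FinOrd (GLs n)` (`fin_of_cont`), `K ⊆ Ue ε η ⊆ GLs n` from `Phi_smooth`; `fin_int`: `L (fun g => ∫ Phi x g) t = ∫ L (Phi x ·) t dμ(x)`. For every `x`: if `x ∉ Ue ε η` then `f x = 0` and both integrands are zero. If `x ∈ Ue ε η`: `Phi x · = (f x * (Jac ..)⁻¹) • (fun g => β (b * g * h))`, `b = (bx x)⁻¹`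
(upper triangular, `Upos_inv`, `det ≠ 0`), `h = (hx x)⁻¹ =` the matrix of `u = (hU x)⁻¹ : UJ ε` (`hU_inv_coe`). `Equi.left` for the test function `g ↦ β (g * h)` (`TGs_comp`) and `Equi.right`: `L (fun g => β (b * g * h)) = chm s k b • L (fun g => β (g * h)) = chm s k b • W.om u (L β)`.
`AvF_smul`: `integral_const_mul` (`W.om _` is linear).
-/

set_option linter.unusedSectionVars false

namespace Pool.Agent.Work.MP_dd0ddf_al.AR.O

open scoped SchwartzMap Matrix.Norms.Elementwise ComplexConjugate ContDiff Topology LineDeriv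
open Matrix MeasureTheory Filter

variable {n : ℕ}

theorem avg {ε η : Fin n → ℝ} (hep : ∀ j, ε j = 1 ∨ ε j = -1) (hη : ∀ j, η j = 1 ∨ η j = -1)
    {a : ℝ} {W : Weil ε a} {s : Fin n → ℂ} {k : Fin n → ℤ} {L : (Mat n → ℂ) →ₗ[ℂ] Sch n}
    (hL : Equi W s k L) {g0 : Mat n} (hg0 : Frm ε η g0) {f β : Mat n → ℂ}
    (hf' : f ∈ TGs (Ue ε η)) (hβ : β ∈ TGs (Ue ε η)) (μ : Measure (Mat n)) [μ.IsAddHaarMeasure]
    (t : Fin n → ℝ) :
    L (fun g => ∫ x, Phi ε g0 f β x g ∂μ) t = AvF W s k g0 μ f (L β) t := by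
  obtain ⟨h1, h2, K, hK, hKU, h0⟩ := Phi_smooth hep hη hg0 hf' hβ
  have hfin := fin_of_cont hL.cont t
  have e := fin_int hfin hK (hKU.trans (Ue_subset ε η)) μ h1 h2 (fun x g hg => h0 x g hg)
  rw [lt_apply] at e
  change L (fun g => ∫ x, Phi ε g0 f β x g ∂μ) t = ∫ x, L (fun g => Phi ε g0 f β x g) t ∂μ at e
  rw [e]
  unfold AvF
  refine integral_congr_ae (ae_of_all _ fun x => ?_)
  change L (fun g => Phi ε g0 f β x g) t =
    f x * ((Jac (bx ε x) (hx ε g0 x) : ℝ) : ℂ)⁻¹ * chm s k (bx ε x)⁻¹ *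
      W.om (hU ε g0 x)⁻¹ (L β) t
  by_cases hx' : x ∈ Ue ε η
  · obtain ⟨-, -, d3, d4⟩ := dec_det hη hg0 hx'
    have hb := Upos_inv (dec hη hg0 hx').2.1
    have hβ' : β ∈ TGs (GLs n) := TGs_mono (Ue_subset ε η) hβ
    have e1 : (fun g => Phi ε g0 f β x g) = (f x * ((Jac (bx ε x) (hx ε g0 x) : ℝ) : ℂ)⁻¹) •
        (fun g => β ((bx ε x)⁻¹ * g * (hx ε g0 x)⁻¹)) := by
      funext g
      rfl
    have hd1 : (1 : Mat n).det ≠ 0 := by
      rw [Matrix.det_one]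
      exact one_ne_zero
    have hmem : (fun g => β (g * (hx ε g0 x)⁻¹)) ∈ TGs (GLs n) := by
      have h3 := TGs_comp hd1 d4 hβ'
      simpa only [Matrix.one_mul] using h3
    have e2 : L (fun g => β ((bx ε x)⁻¹ * g * (hx ε g0 x)⁻¹)) =
        chm s k (bx ε x)⁻¹ • L (fun g => β (g * (hx ε g0 x)⁻¹)) :=
      hL.left (bx ε x)⁻¹ hb.1 d3 (fun g => β (g * (hx ε g0 x)⁻¹)) hmem
    have e3 : L (fun g => β (g * (hx ε g0 x)⁻¹)) = W.om (hU ε g0 x)⁻¹ (L β) := by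
      have h4 := hL.right (hU ε g0 x)⁻¹ β hβ'
      rw [hU_inv_coe hep hη hg0 hx'] at h4
      exact h4
    rw [e1, map_smul, e2, e3, _root_.smul_apply, _root_.smul_apply, smul_eq_mul, smul_eq_mul,
      ← mul_assoc]
  · obtain ⟨K', hK', hKU', hfK⟩ := hf'
    have hf0 : f x = 0 := hfK.2 x fun h => hx' (hKU' h)
    have e1 : (fun g => Phi ε g0 f β x g) = 0 := by
      funext g
      unfold Phi
      rw [hf0, zero_mul, zero_mul]
      rfl
    rw [e1, map_zero, hf0, zero_mul, zero_mul, zero_mul]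
    rfl

theorem AvF_smul {ε : Fin n → ℝ} {a : ℝ} (W : Weil ε a) (s : Fin n → ℂ) (k : Fin n → ℤ)
    (g0 : Mat n) (μ : Measure (Mat n)) (f : Mat n → ℂ) (c : ℂ) (y : Sch n) (t : Fin n → ℝ) :
    AvF W s k g0 μ f (c • y) t = c * AvF W s k g0 μ f y t := by
  unfold AvF
  rw [← integral_const_mul]
  refine integral_congr_ae (ae_of_all _ fun x => ?_)
  change f x * ((Jac (bx ε x) (hx ε g0 x) : ℝ) : ℂ)⁻¹ * chm s k (bx ε x)⁻¹ *
      W.om (hU ε g0 x)⁻¹ (c • y) t =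
    c * (f x * ((Jac (bx ε x) (hx ε g0 x) : ℝ) : ℂ)⁻¹ * chm s k (bx ε x)⁻¹ *
      W.om (hU ε g0 x)⁻¹ y t)
  rw [map_smul, _root_.smul_apply, smul_eq_mul]
  ring

end Pool.Agent.Work.MP_dd0ddf_al.AR.O
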