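import Pool.Agent.Work.MP_dd0ddf_al.AR.OEqv

/-!
# O-block, module OBmp (M): bumps

PROOF. `S(M) = ∑_ij |M_ij - δ_ij|^2`, a real polynomial in `M`. `g0` is invertible and `Ue ε η` is an open neighbourhood of `g0` (`frm_mem`, `isOpen_Ue`), so there is `r > 0` with `{g | S(g g0⁻¹) ≤ r} ⊆ Ue ε η` (`S(M) ≤ r` implies `|M_ij - δ_ij| ≤ √r`; the set is compact). Let
`b_i : ℝ → ℝ` be smooth, nonnegative, `b_i(0) > 0`, `b_i(x) = 0` for `x ≥ r / (i+1)` (e.g. `Real.smoothTransition (1 - (i+1) x / r)`), `β_i(g) = b_i(S(g g0⁻¹))`: smooth, zero outside the compact set `{S(g g0⁻¹) ≤ r} ⊆ Ue ε η`, `β_i(g0) = b_i(0) ≠ 0`, supports shrink.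
The last property: `β_i(g) = B(g g0⁻¹)`, `B = b_i ∘ S`. `g0 * Zm ε (g0 k) = (I η_k) • single k k 1 * g0` (row `m` of the left side is `I hf (g0 m) (g0 k) g0 k = I η_k δ_mk g0 k`), so `(g * Zm ε (g0 k)) * g0⁻¹ = M (I η_k single k k 1)` with `M = g g0⁻¹`. So the left side at `g` is
`DB(M)(I E M)` and the right side is `η_k DB(M)(I η_k M E) = DB(M)(I M E)` with `E = single k k 1`. `DB(M)(X) = b'(S(M)) 2 Re ∑ conj(M_ij - δ_ij) X_ij`. With `X = I (E M - M E)`: `X_ij = I (δ_ik - δ_jk) M_ij`, zero for `i = j`, and for `i ≠ j`: `conj(M_ij) I (δ_ik - δ_jk) M_ij` is purely imaginary. So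
`DB(M)(I E M) = DB(M)(I M E)`. (Or: `S(e M e⁻¹) = S(M)` for `e = exp(I τ E)`, differentiate.)
-/

namespace Pool.Agent.Work.MP_dd0ddf_al.AR.O

open scoped SchwartzMap Matrix.Norms.Elementwise ComplexConjugate ContDiff Topology LineDeriv
open Matrix MeasureTheory Filter

variable {n : ℕ}

/-- the square of the distance to the identity -/
private noncomputable def SS (M : Mat n) : ℝ :=
  ∑ i, ∑ j, Complex.normSq (M i j - (1 : Mat n) i j)

private theorem single_mul_entry (M : Mat n) (k i j : Fin n) :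
    (Matrix.single k k Complex.I * M) i j = (if i = k then Complex.I else 0) * M i j := by
  rw [Matrix.mul_apply, Finset.sum_eq_single i]
  · rw [Matrix.single_apply]
    by_cases h : i = k
    · simp [h]
    · have h' : ¬ (k = i ∧ k = i) := fun hh => h hh.1.symm
      rw [if_neg h', if_neg h]
  · intro l _ hl
    rw [Matrix.single_apply, if_neg, zero_mul]
    rintro ⟨h1, h2⟩
    exact hl (h2.symm.trans h1)
  · intro h; exact absurd (Finset.mem_univ _) h

private theorem mul_single_entry (M : Mat n) (k i j : Fin n) :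
    (M * Matrix.single k k Complex.I) i j = M i j * (if j = k then Complex.I else 0) := by
  rw [Matrix.mul_apply, Finset.sum_eq_single j]
  · rw [Matrix.single_apply]
    by_cases h : j = k
    · simp [h]
    · have h' : ¬ (k = j ∧ k = j) := fun hh => h hh.1.symm
      rw [if_neg h', if_neg h]
  · intro l _ hl
    rw [Matrix.single_apply, if_neg, mul_zero]
    rintro ⟨h1, h2⟩
    exact hl (h1.symm.trans h2)
  · intro h; exact absurd (Finset.mem_univ _) h

private theorem ss_line (M : Mat n) (k : Fin n) (t : ℝ) :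
    SS (M + t • (Matrix.single k k Complex.I * M - M * Matrix.single k k Complex.I)) =
      SS M + (∑ i, ∑ j, Complex.normSq ((Matrix.single k k Complex.I * M -
        M * Matrix.single k k Complex.I) i j)) * t ^ 2 := by
  unfold SS
  rw [Finset.sum_mul, ← Finset.sum_add_distrib]
  refine Finset.sum_congr rfl fun i _ => ?_
  rw [Finset.sum_mul, ← Finset.sum_add_distrib]
  refine Finset.sum_congr rfl fun j _ => ?_
  rw [Matrix.add_apply, Matrix.smul_apply, Matrix.sub_apply, single_mul_entry, mul_single_entry]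
  by_cases hij : i = j
  · subst hij
    have h0 : (if i = k then Complex.I else 0) * M i i - M i i * (if i = k then Complex.I else 0) =
        0 := by ring
    rw [h0]
    simp
  · rw [Matrix.one_apply_ne hij, sub_zero, sub_zero]
    by_cases hi : i = k
    · have hj : ¬ j = k := fun h => hij (hi.trans h.symm)
      rw [if_pos hi, if_neg hj]
      simp only [Complex.normSq_apply, Complex.real_smul, Complex.add_re, Complex.add_im,
        Complex.mul_re, Complex.mul_im, Complex.sub_re, Complex.sub_im, Complex.I_re, Complex.I_im,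
        Complex.ofReal_re, Complex.ofReal_im, Complex.zero_re, Complex.zero_im]
      ring
    · rw [if_neg hi]
      by_cases hj : j = k
      · rw [if_pos hj]
        simp only [Complex.normSq_apply, Complex.real_smul, Complex.add_re, Complex.add_im,
          Complex.mul_re, Complex.mul_im, Complex.sub_re, Complex.sub_im, Complex.I_re,
          Complex.I_im, Complex.ofReal_re, Complex.ofReal_im, Complex.zero_re, Complex.zero_im]
        ring
      · rw [if_neg hj]
        simp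

private theorem cd_SS (C : Mat n) : ContDiff ℝ ∞ (fun g : Mat n => SS (g * C)) := by
  unfold SS
  refine ContDiff.sum fun i _ => ContDiff.sum fun j _ => ?_
  have h1 : ContDiff ℝ ∞ (fun g : Mat n => (g * C) i j - (1 : Mat n) i j) := by
    refine ContDiff.sub ?_ contDiff_const
    rw [← contDiffOn_univ]
    intro x _
    exact cd_apply (cd_mul contDiffWithinAt_id contDiffWithinAt_const) i j
  have h2 : ContDiff ℝ ∞ (fun z : ℂ => Complex.normSq z) := by
    have h3 : (fun z : ℂ => Complex.normSq z) = fun z : ℂ => z.re * z.re + z.im * z.im := by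
      funext z
      exact Complex.normSq_apply z
    rw [h3]
    exact (Complex.reCLM.contDiff.mul Complex.reCLM.contDiff).add
      (Complex.imCLM.contDiff.mul Complex.imCLM.contDiff)
  exact h2.comp h1

private theorem ss_nhds {g0 : Mat n} (hg0 : g0.det ≠ 0) {V : Set (Mat n)} (hV : V ∈ 𝓝 g0) :
    ∃ r : ℝ, 0 < r ∧ ∀ g : Mat n, SS (g * g0⁻¹) < r → g ∈ V := by
  have hu : IsUnit g0.det := isUnit_iff_ne_zero.2 hg0
  have hc : Continuous fun M : Mat n => M * g0 := continuous_id.mul continuous_const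
  have h1 : (fun M : Mat n => M * g0) ⁻¹' V ∈ 𝓝 (1 : Mat n) := by
    apply hc.continuousAt
    show V ∈ 𝓝 ((1 : Mat n) * g0)
    rw [Matrix.one_mul]
    exact hV
  obtain ⟨δ, hδ, hball⟩ := Metric.mem_nhds_iff.1 h1
  refine ⟨δ ^ 2, by positivity, fun g hg => ?_⟩
  have h2 : g * g0⁻¹ ∈ Metric.ball (1 : Mat n) δ := by
    rw [mem_ball_iff_norm, Matrix.norm_lt_iff hδ]
    intro i j
    have h3 : Complex.normSq ((g * g0⁻¹) i j - (1 : Mat n) i j) ≤ SS (g * g0⁻¹) := by
      unfold SS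
      refine le_trans ?_ (Finset.single_le_sum (f := fun i => ∑ j, Complex.normSq ((g * g0⁻¹) i j -
        (1 : Mat n) i j)) (fun i _ => Finset.sum_nonneg fun j _ => Complex.normSq_nonneg _)
        (Finset.mem_univ i))
      exact Finset.single_le_sum (f := fun j => Complex.normSq ((g * g0⁻¹) i j -
        (1 : Mat n) i j)) (fun j _ => Complex.normSq_nonneg _) (Finset.mem_univ j)
    rw [Matrix.sub_apply]
    have h4 : ‖(g * g0⁻¹) i j - (1 : Mat n) i j‖ ^ 2 < δ ^ 2 := by
      rw [← Complex.normSq_eq_norm_sq]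
      exact lt_of_le_of_lt h3 hg
    exact lt_of_pow_lt_pow_left₀ 2 hδ.le h4
  have h5 := hball h2
  have h6 : g * g0⁻¹ * g0 = g := by
    rw [Matrix.mul_assoc, Matrix.nonsing_inv_mul g0 hu, Matrix.mul_one]
  change g * g0⁻¹ * g0 ∈ V at h5
  rwa [h6] at h5

private theorem frame_Zm {ε η : Fin n → ℝ} (hη : ∀ j, η j = 1 ∨ η j = -1) {g0 : Mat n}
    (hg0 : Frm ε η g0) (k : Fin n) :
    (η k) • (g0 * Zm ε (g0 k)) = Matrix.single k k Complex.I * g0 := by
  ext m l
  rw [Matrix.smul_apply, single_mul_entry, Matrix.mul_apply]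
  have h1 : ∑ j, g0 m j * Zm ε (g0 k) j l = Complex.I * hf ε (g0 m) (g0 k) * g0 k l := by
    unfold hf
    rw [Finset.mul_sum, Finset.sum_mul]
    refine Finset.sum_congr rfl fun j _ => ?_
    simp only [Zm, Matrix.of_apply]
    ring
  rw [h1, hg0 m k, Complex.real_smul]
  by_cases hmk : m = k
  · subst hmk
    rw [if_pos rfl, if_pos rfl]
    have h2 : (η m : ℂ) * (η m : ℂ) = 1 := by
      rcases hη m with h | h <;> simp [h]
    linear_combination (Complex.I * g0 m l) * h2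
  · rw [if_neg hmk, if_neg hmk]
    simp

private theorem dir_zero {g0 : Mat n} (hg0 : g0.det ≠ 0) {b : ℝ → ℝ} (hb : ContDiff ℝ ∞ b)
    (g : Mat n) (k : Fin n) :
    fderiv ℝ (fun g : Mat n => ((b (SS (g * g0⁻¹)) : ℝ) : ℂ)) g
      ((Matrix.single k k Complex.I * (g * g0⁻¹) - (g * g0⁻¹) * Matrix.single k k Complex.I) *
        g0) = 0 := by
  have hu : IsUnit g0.det := isUnit_iff_ne_zero.2 hg0
  have hcd : ContDiff ℝ ∞ (fun g : Mat n => ((b (SS (g * g0⁻¹)) : ℝ) : ℂ)) :=
    Complex.ofRealCLM.contDiff.comp (hb.comp (cd_SS g0⁻¹))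
  have hd : DifferentiableAt ℝ (fun g : Mat n => ((b (SS (g * g0⁻¹)) : ℝ) : ℂ)) g :=
    (hcd.differentiable (by simp)) g
  have h7 := hd.lineDeriv_eq_fderiv (v := (Matrix.single k k Complex.I * (g * g0⁻¹) -
    (g * g0⁻¹) * Matrix.single k k Complex.I) * g0)
  refine h7.symm.trans ?_
  unfold lineDeriv
  have h1 : (fun t : ℝ => ((b (SS ((g + t • ((Matrix.single k k Complex.I * (g * g0⁻¹) -
      (g * g0⁻¹) * Matrix.single k k Complex.I) * g0)) * g0⁻¹)) : ℝ) : ℂ)) = fun t : ℝ =>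
      ((b (SS (g * g0⁻¹) + (∑ i, ∑ j, Complex.normSq ((Matrix.single k k Complex.I * (g * g0⁻¹) -
        (g * g0⁻¹) * Matrix.single k k Complex.I) i j)) * t ^ 2) : ℝ) : ℂ) := by
    funext t
    rw [← ss_line (g * g0⁻¹) k t, Matrix.add_mul, Matrix.smul_mul, Matrix.mul_assoc _ g0 g0⁻¹,
      Matrix.mul_nonsing_inv g0 hu, Matrix.mul_one]
  rw [h1]
  have h2 : HasDerivAt (fun t : ℝ => SS (g * g0⁻¹) + (∑ i, ∑ j,
      Complex.normSq ((Matrix.single k k Complex.I * (g * g0⁻¹) -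
        (g * g0⁻¹) * Matrix.single k k Complex.I) i j)) * t ^ 2) 0 0 := by
    have h3 := (((hasDerivAt_id (0 : ℝ)).pow 2).const_mul (∑ i, ∑ j,
      Complex.normSq ((Matrix.single k k Complex.I * (g * g0⁻¹) -
        (g * g0⁻¹) * Matrix.single k k Complex.I) i j))).const_add (SS (g * g0⁻¹))
    simpa using h3
  have h4 : HasDerivAt b (deriv b (SS (g * g0⁻¹) + (∑ i, ∑ j,
      Complex.normSq ((Matrix.single k k Complex.I * (g * g0⁻¹) -
        (g * g0⁻¹) * Matrix.single k k Complex.I) i j)) * (0 : ℝ) ^ 2)) (SS (g * g0⁻¹) + (∑ i, ∑ j,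
      Complex.normSq ((Matrix.single k k Complex.I * (g * g0⁻¹) -
        (g * g0⁻¹) * Matrix.single k k Complex.I) i j)) * (0 : ℝ) ^ 2) :=
    ((hb.differentiable (by simp)) _).hasDerivAt
  have h5 := HasDerivAt.comp (0 : ℝ) h4 h2
  have h6 := h5.ofReal_comp
  rw [mul_zero, Complex.ofReal_zero] at h6
  exact h6.deriv

theorem exists_bmp {ε η : Fin n → ℝ} (hep : ∀ j, ε j = 1 ∨ ε j = -1)
    (hη : ∀ j, η j = 1 ∨ η j = -1) {g0 : Mat n} (hg0 : Frm ε η g0) :
    ∃ β : ℕ → Mat n → ℂ, (∀ i, β i ∈ TGs (Ue ε η)) ∧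
      (∀ i g, ∃ r : ℝ, 0 ≤ r ∧ β i g = (r : ℂ)) ∧ (∀ i, β i g0 ≠ 0) ∧
      (∀ V ∈ 𝓝 g0, ∀ᶠ i in atTop, ∀ g, β i g ≠ 0 → g ∈ V) ∧
      (∀ i k, dg (fun g => Matrix.single k k Complex.I * g) (β i) =
        fun g => (η k : ℂ) * dg (fun g => g * Zm ε (g0 k)) (β i) g) := by
  have hdet := hg0.det_ne_zero hη
  have hu : IsUnit g0.det := isUnit_iff_ne_zero.2 hdet
  obtain ⟨hmem, -, -⟩ := frm_mem hη hg0
  obtain ⟨ρ, hρ, hball⟩ := Metric.nhds_basis_closedBall.mem_iff.1
    ((isOpen_Ue hη).mem_nhds hmem)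
  obtain ⟨r, hr, hrB⟩ := ss_nhds hdet (Metric.closedBall_mem_nhds g0 hρ)
  have hb : ∀ i : ℕ, ContDiff ℝ ∞ (fun x : ℝ => Real.smoothTransition (1 - ((i : ℝ) + 1) * x / r)) :=
    fun i => Real.smoothTransition.contDiff.comp
      (contDiff_const.sub ((contDiff_const.mul contDiff_id).div_const r))
  have hne : ∀ (i : ℕ) (g : Mat n), ((Real.smoothTransition
      (1 - ((i : ℝ) + 1) * SS (g * g0⁻¹) / r) : ℝ) : ℂ) ≠ 0 → SS (g * g0⁻¹) < r / ((i : ℝ) + 1) := by
    intro i g h
    have h1 : Real.smoothTransition (1 - ((i : ℝ) + 1) * SS (g * g0⁻¹) / r) ≠ 0 := by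
      intro h0
      apply h
      rw [h0, Complex.ofReal_zero]
    rw [Ne, Real.smoothTransition.zero_iff_nonpos, not_le, sub_pos, div_lt_one hr] at h1
    rw [lt_div_iff₀ (by positivity)]
    linarith
  refine ⟨fun i g => ((Real.smoothTransition
      (1 - ((i : ℝ) + 1) * SS (g * g0⁻¹) / r) : ℝ) : ℂ), ?_, ?_, ?_, ?_, ?_⟩
  · intro i
    refine ⟨Metric.closedBall g0 ρ, isCompact_closedBall g0 ρ, hball,
      Complex.ofRealCLM.contDiff.comp ((hb i).comp (cd_SS g0⁻¹)), fun g hg => ?_⟩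
    by_contra h
    apply hg
    apply hrB
    refine lt_of_lt_of_le (hne i g h) (div_le_self hr.le ?_)
    have : (0 : ℝ) ≤ i := Nat.cast_nonneg i
    linarith
  · intro i g
    exact ⟨_, Real.smoothTransition.nonneg _, rfl⟩
  · intro i
    have h1 : SS (g0 * g0⁻¹) = 0 := by
      unfold SS
      rw [Matrix.mul_nonsing_inv g0 hu]
      simp
    show ((Real.smoothTransition (1 - ((i : ℝ) + 1) * SS (g0 * g0⁻¹) / r) : ℝ) : ℂ) ≠ 0
    rw [h1, mul_zero, zero_div, sub_zero, Real.smoothTransition.one]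
    simp
  · intro V hV
    obtain ⟨δ, hδ, hδV⟩ := ss_nhds hdet hV
    obtain ⟨N, hN⟩ := exists_nat_gt (r / δ)
    filter_upwards [eventually_ge_atTop N] with i hi g hg
    apply hδV
    refine lt_of_lt_of_le (hne i g hg) ?_
    have h1 : (N : ℝ) ≤ i := by exact_mod_cast hi
    rw [div_lt_iff₀ hδ] at hN
    rw [div_le_iff₀ (by positivity)]
    have h2 : δ * (N : ℝ) ≤ δ * ((i : ℝ) + 1) := mul_le_mul_of_nonneg_left (by linarith) hδ.le
    linarith
  · intro i k
    funext g
    unfold dg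
    have h1 : (η k : ℂ) * fderiv ℝ (fun g : Mat n => ((Real.smoothTransition
        (1 - ((i : ℝ) + 1) * SS (g * g0⁻¹) / r) : ℝ) : ℂ)) g (g * Zm ε (g0 k)) =
        fderiv ℝ (fun g : Mat n => ((Real.smoothTransition
        (1 - ((i : ℝ) + 1) * SS (g * g0⁻¹) / r) : ℝ) : ℂ)) g ((η k) • (g * Zm ε (g0 k))) := by
      rw [map_smul, Complex.real_smul]
    show fderiv ℝ (fun g : Mat n => ((Real.smoothTransition
        (1 - ((i : ℝ) + 1) * SS (g * g0⁻¹) / r) : ℝ) : ℂ)) g (Matrix.single k k Complex.I * g) =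
      (η k : ℂ) * fderiv ℝ (fun g : Mat n => ((Real.smoothTransition
        (1 - ((i : ℝ) + 1) * SS (g * g0⁻¹) / r) : ℝ) : ℂ)) g (g * Zm ε (g0 k))
    rw [h1, ← sub_eq_zero, ← map_sub]
    have hg : g = g * g0⁻¹ * g0 := by
      rw [Matrix.mul_assoc, Matrix.nonsing_inv_mul g0 hu, Matrix.mul_one]
    have h2 : Matrix.single k k Complex.I * g - (η k) • (g * Zm ε (g0 k)) =
        (Matrix.single k k Complex.I * (g * g0⁻¹) - (g * g0⁻¹) * Matrix.single k k Complex.I) *
          g0 := by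
      have h3 : (η k) • (g * Zm ε (g0 k)) = (g * g0⁻¹) * (Matrix.single k k Complex.I * g0) := by
        rw [← frame_Zm hη hg0 k, Matrix.mul_smul, ← Matrix.mul_assoc (g * g0⁻¹), ← hg]
      rw [h3, Matrix.sub_mul, Matrix.mul_assoc (Matrix.single k k Complex.I) (g * g0⁻¹) g0, ← hg,
        Matrix.mul_assoc (g * g0⁻¹) (Matrix.single k k Complex.I) g0]
    rw [h2]
    exact dir_zero hdet (hb i) g k

end Pool.Agent.Work.MP_dd0ddf_al.AR.O
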