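import Pool.Agent.Work.MP_dd0ddf_al.AR.OJi

/-!
# O-block, module OCal: calculus with matrix valued functions (proved)

`cd_pi`, `cd_apply`, `cd_mul`, `cd_det`, `cd_inv`, `cd_Jac`: smoothness of entries, products, determinants, inverses
and of `Jac` (all for `ContDiffWithinAt ℝ ∞`).
-/

set_option linter.unusedSectionVars false

namespace Pool.Agent.Work.MP_dd0ddf_al.AR.O

open scoped SchwartzMap Matrix.Norms.Elementwise ComplexConjugate ContDiff Topology LineDeriv
open Matrix MeasureTheory Filter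

variable {n : ℕ}

variable {E : Type*} [NormedAddCommGroup E] [NormedSpace ℝ E] {s : Set E} {x : E}

theorem cd_pi {F : E → Mat n} (h : ∀ i j, ContDiffWithinAt ℝ ∞ (fun y => F y i j) s x) :
    ContDiffWithinAt ℝ ∞ F s x :=
  contDiffWithinAt_pi.2 fun i => contDiffWithinAt_pi.2 fun j => h i j

theorem cd_row {F : E → Mat n} (h : ContDiffWithinAt ℝ ∞ F s x) (i : Fin n) :
    ContDiffWithinAt ℝ ∞ (fun y => F y i) s x :=
  contDiffWithinAt_pi.1 h i

theorem cd_apply {F : E → Mat n} (h : ContDiffWithinAt ℝ ∞ F s x) (i j : Fin n) :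
    ContDiffWithinAt ℝ ∞ (fun y => F y i j) s x :=
  contDiffWithinAt_pi.1 (contDiffWithinAt_pi.1 h i) j

theorem cd_conj {F : E → ℂ} (h : ContDiffWithinAt ℝ ∞ F s x) :
    ContDiffWithinAt ℝ ∞ (fun y => conj (F y)) s x :=
  Complex.conjCLE.contDiff.contDiffAt.comp_contDiffWithinAt x h

theorem cd_ofReal {F : E → ℝ} (h : ContDiffWithinAt ℝ ∞ F s x) :
    ContDiffWithinAt ℝ ∞ (fun y => ((F y : ℝ) : ℂ)) s x :=
  Complex.ofRealCLM.contDiff.contDiffAt.comp_contDiffWithinAt x h

theorem cd_mul {F G : E → Mat n} (hF : ContDiffWithinAt ℝ ∞ F s x)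
    (hG : ContDiffWithinAt ℝ ∞ G s x) : ContDiffWithinAt ℝ ∞ (fun y => F y * G y) s x := by
  apply cd_pi
  intro i j
  simp only [Matrix.mul_apply]
  exact ContDiffWithinAt.sum fun k _ => (cd_apply hF i k).mul (cd_apply hG k j)

theorem cd_det {F : E → Mat n} (hF : ContDiffWithinAt ℝ ∞ F s x) :
    ContDiffWithinAt ℝ ∞ (fun y => (F y).det) s x := by
  simp only [Matrix.det_apply]
  refine ContDiffWithinAt.sum fun σ _ => ?_
  refine ContDiffWithinAt.const_smul _ ?_
  exact contDiffWithinAt_prod fun i _ => cd_apply hF _ _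

theorem cd_adj {F : E → Mat n} (hF : ContDiffWithinAt ℝ ∞ F s x) :
    ContDiffWithinAt ℝ ∞ (fun y => (F y).adjugate) s x := by
  apply cd_pi
  intro i j
  simp only [Matrix.adjugate_apply]
  apply cd_det
  apply cd_pi
  intro k l
  simp only [Matrix.updateRow_apply]
  split_ifs
  · exact contDiffWithinAt_const
  · exact cd_apply hF _ _

theorem cd_inv {F : E → Mat n} (hF : ContDiffWithinAt ℝ ∞ F s x) (h : (F x).det ≠ 0) :
    ContDiffWithinAt ℝ ∞ (fun y => (F y)⁻¹) s x := by
  simp only [Matrix.inv_def, Ring.inverse_eq_inv']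
  have h1 : ContDiffWithinAt ℝ ∞ (fun y => ((F y).det)⁻¹) s x := (cd_det hF).inv h
  exact h1.smul (cd_adj hF)

theorem cd_Jac {F G : E → Mat n} (hF : ContDiffWithinAt ℝ ∞ F s x)
    (hG : ContDiffWithinAt ℝ ∞ G s x) (h1 : (F x).det ≠ 0) (h2 : (G x).det ≠ 0) :
    ContDiffWithinAt ℝ ∞ (fun y => Jac (F y) (G y)) s x := by
  have h0 : LinearMap.det (lr (F x) (G x)) ≠ 0 := lr_det_ne h1 h2
  have hd : ContDiffWithinAt ℝ ∞ (fun y => LinearMap.det (lr (F y) (G y))) s x := by
    let b := Module.finBasis ℝ (Mat n)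
    have e : ∀ y, LinearMap.det (lr (F y) (G y)) = (LinearMap.toMatrix b b (lr (F y) (G y))).det := by
      intro y
      rw [LinearMap.det_toMatrix]
    simp only [e, Matrix.det_apply]
    refine ContDiffWithinAt.sum fun σ _ => ?_
    refine ContDiffWithinAt.const_smul _ ?_
    refine contDiffWithinAt_prod fun i _ => ?_
    simp only [LinearMap.toMatrix_apply, lr_apply]
    let c : Mat n →L[ℝ] ℝ := LinearMap.toContinuousLinearMap (b.coord (σ i))
    have h3 : ContDiffWithinAt ℝ ∞ (fun y => F y * b i * G y) s x :=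
      cd_mul (cd_mul hF contDiffWithinAt_const) hG
    exact c.contDiff.contDiffAt.comp_contDiffWithinAt x h3
  exact (contDiffAt_abs h0).comp_contDiffWithinAt x hd

end Pool.Agent.Work.MP_dd0ddf_al.AR.O
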