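import Pool.Agent.Work.MP_dd0ddf_al.AR.ODefs

/-!
# O-block, module OCom (S-M): commutators of `AA` and `BB`

PROOF. `AA ε a u = ∑_i p_i (td i - c_i tm i)`, `BB ε a v = ∑_j q_j (td j + c_j tm j)` with `p_i = ε_i u_i / 2`, `q_j = ε_j conj (v_j) / 2`,
`c_i = 2 a ε_i`. The `td` commute (`LineDeriv.lineDerivOp_comm` or symmetry of second derivatives, `ContDiffAt.isSymmSndFDerivAt`; or
pointwise with `tm_apply`, `td_apply`), the `tm` commute, and `td i (tm j y) = tm j (td i y) + δ_ij y` (Leibniz, pointwise). So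
`[td i - c_i tm i, td j + c_j tm j] = (c_j + c_i) δ_ij = 4 a ε_i δ_ij`, and `∑_i p_i q_i 4 a ε_i = ∑_i ε_i^2 a ε_i u_i conj v_i = a hf ε u v`
since `ε_i^2 = 1`. For `AA, AA`: `[td i - c_i tm i, td j - c_j tm j] = (-c_j + c_i) δ_ij = 0`; the same for `BB, BB`.
It is convenient to prove first the three commutation relations of `td`, `tm` and then to expand the finite sums
(`map_sum`, `map_smul`, `Finset.sum_comm`).
-/

set_option linter.unusedSectionVars false

namespace Pool.Agent.Work.MP_dd0ddf_al.AR.O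

open scoped SchwartzMap Matrix.Norms.Elementwise ComplexConjugate ContDiff Topology LineDeriv
open Matrix MeasureTheory Filter

variable {n : ℕ}

theorem td_tm (i j : Fin n) (y : Sch n) :
    td i (tm j y) = tm j (td i y) + (if i = j then (1 : ℂ) else 0) • y := by
  ext t
  rw [td_apply, _root_.add_apply, tm_apply, td_apply, _root_.smul_apply, smul_eq_mul]
  have h1 : (⇑(tm j y) : (Fin n → ℝ) → ℂ) = fun t => ((t j : ℝ) : ℂ) * y t :=
    funext (tm_apply j y)
  have h2 : HasFDerivAt (fun t : Fin n → ℝ => ((t j : ℝ) : ℂ))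
      (Complex.ofRealCLM.comp (ContinuousLinearMap.proj (R := ℝ) (φ := fun _ : Fin n => ℝ) j)) t :=
    (Complex.ofRealCLM.comp
      (ContinuousLinearMap.proj (R := ℝ) (φ := fun _ : Fin n => ℝ) j)).hasFDerivAt
  have h3 : HasFDerivAt (⇑y) (fderiv ℝ (⇑y) t) t := y.differentiableAt.hasFDerivAt
  rw [h1, show (fun t : Fin n → ℝ => ((t j : ℝ) : ℂ) * y t) =
    (fun t : Fin n → ℝ => ((t j : ℝ) : ℂ)) * ⇑y from rfl, (h2.mul h3).fderiv]
  simp only [_root_.add_apply, _root_.smul_apply,
    ContinuousLinearMap.comp_apply, ContinuousLinearMap.proj_apply, Complex.ofRealCLM_apply,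
    smul_eq_mul]
  by_cases hij : i = j
  · subst hij
    simp [mul_comm]
  · simp [hij]

theorem td_td (i j : Fin n) (y : Sch n) : td i (td j y) = td j (td i y) := by
  ext t
  have hc : ContDiff ℝ 2 (⇑y) := y.smooth 2
  have hs : IsSymmSndFDerivAt ℝ (⇑y) t := by
    refine ContDiffAt.isSymmSndFDerivAt (n := 2) hc.contDiffAt ?_
    simp
  have hd : Differentiable ℝ (fderiv ℝ (⇑y)) := by
    refine (hc.fderiv_right (m := 1) ?_).differentiable one_ne_zero
    norm_num
  have key : ∀ i j : Fin n, td i (td j y) t =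
      fderiv ℝ (fderiv ℝ (⇑y)) t (Pi.single i 1) (Pi.single j 1) := by
    intro i j
    rw [td_apply]
    have h1 : (⇑(td j y) : (Fin n → ℝ) → ℂ) = fun t => fderiv ℝ (⇑y) t (Pi.single j 1) :=
      funext (td_apply j y)
    rw [h1, fderiv_clm_apply (hd t) (differentiableAt_const _)]
    simp
  rw [key, key]
  exact hs _ _

theorem tm_tm (i j : Fin n) (y : Sch n) : tm i (tm j y) = tm j (tm i y) := by
  ext t
  rw [tm_apply, tm_apply, tm_apply, tm_apply]
  ring

private theorem oc_gen (α β α' β' : Fin n → ℂ) (y : Sch n) :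
    (∑ i, (α i • td i (∑ j, (α' j • td j y + β' j • tm j y)) +
        β i • tm i (∑ j, (α' j • td j y + β' j • tm j y)))) =
      (∑ j, (α' j • td j (∑ i, (α i • td i y + β i • tm i y)) +
        β' j • tm j (∑ i, (α i • td i y + β i • tm i y)))) +
        (∑ i, (α i * β' i - β i * α' i)) • y := by
  have h1 : ∀ i, (α i • td i (∑ j, (α' j • td j y + β' j • tm j y)) +
        β i • tm i (∑ j, (α' j • td j y + β' j • tm j y))) =
      ∑ j, (α i • (α' j • td i (td j y) + β' j • td i (tm j y)) +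
        β i • (α' j • tm i (td j y) + β' j • tm i (tm j y))) := by
    intro i
    simp only [map_sum, map_add, map_smul, Finset.smul_sum]
    rw [← Finset.sum_add_distrib]
  have h2 : ∀ j, (α' j • td j (∑ i, (α i • td i y + β i • tm i y)) +
        β' j • tm j (∑ i, (α i • td i y + β i • tm i y))) =
      ∑ i, (α' j • (α i • td j (td i y) + β i • td j (tm i y)) +
        β' j • (α i • tm j (td i y) + β i • tm j (tm i y))) := by
    intro j
    simp only [map_sum, map_add, map_smul, Finset.smul_sum]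
    rw [← Finset.sum_add_distrib]
  rw [Finset.sum_congr rfl (fun i _ => h1 i), Finset.sum_congr rfl (fun j _ => h2 j),
    Finset.sum_comm (f := fun j i => (α' j • (α i • td j (td i y) + β i • td j (tm i y)) +
        β' j • (α i • tm j (td i y) + β i • tm j (tm i y))))]
  have h3 : (∑ i, (α i * β' i - β i * α' i)) • y =
      ∑ i, ∑ j, (if i = j then (1 : ℂ) else 0) • ((α i * β' j - β i * α' j) • y) := by
    rw [Finset.sum_smul]
    refine Finset.sum_congr rfl fun i _ => ?_
    rw [Finset.sum_eq_single i]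
    · rw [if_pos rfl, one_smul]
    · intro j _ hj
      rw [if_neg (Ne.symm hj), zero_smul]
    · intro h
      exact absurd (Finset.mem_univ i) h
  rw [h3, ← Finset.sum_add_distrib]
  refine Finset.sum_congr rfl fun i _ => ?_
  rw [← Finset.sum_add_distrib]
  refine Finset.sum_congr rfl fun j _ => ?_
  rw [td_tm i j y, td_tm j i y, td_td j i y, tm_tm j i y]
  have h4 : (if j = i then (1 : ℂ) else 0) = if i = j then 1 else 0 := by
    by_cases h : i = j
    · rw [if_pos h, if_pos h.symm]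
    · rw [if_neg h, if_neg (Ne.symm h)]
  rw [h4]
  module

private theorem oc_AA (ε : Fin n → ℝ) (a : ℝ) (u : Fin n → ℂ) (z : Sch n) :
    AA ε a u z = ∑ i, ((((ε i : ℂ) * u i * (1 / 2))) • td i z +
      (-(((ε i : ℂ) * u i * (1 / 2)) * (2 * a * ε i : ℂ))) • tm i z) := by
  unfold AA
  simp only [_root_.sum_apply, _root_.smul_apply, _root_.sub_apply]
  refine Finset.sum_congr rfl fun i _ => ?_
  rw [smul_sub, smul_smul, neg_smul, sub_eq_add_neg]

private theorem oc_BB (ε : Fin n → ℝ) (a : ℝ) (u : Fin n → ℂ) (z : Sch n) :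
    BB ε a u z = ∑ i, ((((ε i : ℂ) * conj (u i) * (1 / 2))) • td i z +
      ((((ε i : ℂ) * conj (u i) * (1 / 2)) * (2 * a * ε i : ℂ))) • tm i z) := by
  unfold BB
  simp only [_root_.sum_apply, _root_.smul_apply, _root_.add_apply]
  refine Finset.sum_congr rfl fun i _ => ?_
  rw [smul_add, smul_smul]

theorem AA_BB_comm {ε : Fin n → ℝ} (hep : ∀ j, ε j = 1 ∨ ε j = -1) (a : ℝ) (u v : Fin n → ℂ)
    (y : Sch n) :
    AA ε a u (BB ε a v y) = BB ε a v (AA ε a u y) + ((a : ℂ) * hf ε u v) • y := by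
  rw [oc_AA ε a u (BB ε a v y), oc_BB ε a v (AA ε a u y), oc_AA ε a u y, oc_BB ε a v y, oc_gen]
  congr 2
  unfold hf
  rw [Finset.mul_sum]
  refine Finset.sum_congr rfl fun i _ => ?_
  have h : (ε i : ℂ) * ε i = 1 := by
    rcases hep i with h | h <;> rw [h] <;> norm_num
  linear_combination ((a : ℂ) * ε i * u i * conj (v i)) * h

theorem AA_AA_comm (ε : Fin n → ℝ) (a : ℝ) (u v : Fin n → ℂ) (y : Sch n) :
    AA ε a u (AA ε a v y) = AA ε a v (AA ε a u y) := by
  rw [oc_AA ε a u (AA ε a v y), oc_AA ε a v (AA ε a u y), oc_AA ε a u y, oc_AA ε a v y, oc_gen]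
  have h : ∑ i, (((ε i : ℂ) * u i * (1 / 2)) * (-(((ε i : ℂ) * v i * (1 / 2)) *
      (2 * a * ε i : ℂ))) - (-(((ε i : ℂ) * u i * (1 / 2)) * (2 * a * ε i : ℂ))) *
      ((ε i : ℂ) * v i * (1 / 2))) = 0 := by
    refine Finset.sum_eq_zero fun i _ => ?_
    ring
  rw [h, zero_smul, add_zero]

theorem BB_BB_comm (ε : Fin n → ℝ) (a : ℝ) (u v : Fin n → ℂ) (y : Sch n) :
    BB ε a u (BB ε a v y) = BB ε a v (BB ε a u y) := by
  rw [oc_BB ε a u (BB ε a v y), oc_BB ε a v (BB ε a u y), oc_BB ε a u y, oc_BB ε a v y, oc_gen]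
  have h : ∑ i, (((ε i : ℂ) * conj (u i) * (1 / 2)) * ((((ε i : ℂ) * conj (v i) * (1 / 2)) *
      (2 * a * ε i : ℂ))) - ((((ε i : ℂ) * conj (u i) * (1 / 2)) * (2 * a * ε i : ℂ))) *
      ((ε i : ℂ) * conj (v i) * (1 / 2))) = 0 := by
    refine Finset.sum_eq_zero fun i _ => ?_
    ring
  rw [h, zero_smul, add_zero]

end Pool.Agent.Work.MP_dd0ddf_al.AR.O
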