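import Pool.Agent.Work.MP_dd0ddf_al.AR.Op

/-!
# MP_dd0ddf_al, archimedean part, O-block (open orbits): definitions and basic facts (fixed)

Conventions: `hep : ∀ j, ε j = 1 ∨ ε j = -1`, `ha : a ≠ 0`, `hη : ∀ j, η j = 1 ∨ η j = -1`.

* `ip y z = ∫ conj y z`; `Frm ε η u`: the rows of `u` are a frame, `hf ε (u k) (u l) = η k δ_kl`;
  `Eig ε a u ν`: the space of the `y` with `AA (u k) (BB (u k) y) = ν k y` for all `k`;
  `low`: the lowering operators (`BB (u k)` if `a η_k > 0`, else `AA (u k)`), `tpv a η k = min 0 (a η k)`;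
  `cmat`: the coefficients of the `∂_j` in the equations `low k y = 0`.
* `uu ε g`: orthonormalised rows of `g`; `Ue ε η`: the open set of the invertible `g` whose
  orthogonalised rows have the signs `η`; `bx ε g = g (uu ε g)⁻¹`; `Upos n`: upper triangular matrices
  with positive real diagonal; `RU ε`: matrices `h` with `hf (x h) (y h) = hf x y` for row vectors;
  `hx ε g0 x = g0⁻¹ uu ε x`, so that `x = bx x * g0 * hx x` on `Ue ε η` if `g0` is a frame;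
  `hU ε g0 x`: the same as an element of `UJ ε`.
* `lt L t`: the functional `f ↦ L f t`; `FinOrd Ω ℓ`: `ℓ` is a distribution on `Ω`.
* `lr b h`: the linear map `x ↦ b x h`, `Jac b h` the absolute value of its (real) determinant.
* `Phi`, `rho`, `Psi`, `AvF`: averaging, see OSub, OAvg, OLim.
-/

set_option linter.unusedSectionVars false

namespace Pool.Agent.Work.MP_dd0ddf_al.AR.O

open scoped SchwartzMap Matrix.Norms.Elementwise ComplexConjugate ContDiff Topology LineDeriv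
open Matrix MeasureTheory Filter

noncomputable section

variable {n : ℕ}

instance instMeasurableSpaceMat : MeasurableSpace (Matrix (Fin n) (Fin n) ℂ) := borel _

instance instBorelSpaceMat : BorelSpace (Matrix (Fin n) (Fin n) ℂ) := ⟨rfl⟩

/-! ## oscillators -/

/-- the `L²` product -/
def ip (y z : Sch n) : ℂ := ∫ t : Fin n → ℝ, conj (y t) * z t

/-- the rows of `u` form a frame with signs `η` -/
def Frm (ε η : Fin n → ℝ) (u : Mat n) : Prop :=
  ∀ k l, hf ε (u k) (u l) = if k = l then (η k : ℂ) else 0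

/-- joint eigenvectors of the operators `AA (u k) BB (u k)` -/
def Eig (ε : Fin n → ℝ) (a : ℝ) (u : Mat n) (ν : Fin n → ℂ) (y : Sch n) : Prop :=
  ∀ k, AA ε a (u k) (BB ε a (u k) y) = ν k • y

/-- the lowering operator `BB (u k)` or `AA (u k)` -/
def low (ε : Fin n → ℝ) (a : ℝ) (η : Fin n → ℝ) (u : Mat n) (k : Fin n) : Sch n →L[ℂ] Sch n :=
  if 0 < a * η k then BB ε a (u k) else AA ε a (u k)

/-- the largest eigenvalue of `AA (u k) BB (u k)` -/
def tpv (a : ℝ) (η : Fin n → ℝ) (k : Fin n) : ℝ := min 0 (a * η k)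

/-- the coefficients of the `∂_j` in the equations `low k y = 0` (up to the factor `1/2`) -/
def cmat (ε : Fin n → ℝ) (a : ℝ) (η : Fin n → ℝ) (u : Mat n) : Mat n :=
  Matrix.of fun k j => if 0 < a * η k then (ε j : ℂ) * conj (u k j) else (ε j : ℂ) * u k j

theorem tm_apply (j : Fin n) (y : Sch n) (t : Fin n → ℝ) : tm j y t = (t j : ℂ) * y t := by
  have h : (fun t : Fin n → ℝ => ((t j : ℝ) : ℂ)).HasTemperateGrowth := by
    have h1 := (Complex.ofRealCLM.comp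
      (ContinuousLinearMap.proj (R := ℝ) (φ := fun _ : Fin n => ℝ) j)).hasTemperateGrowth
    exact h1
  unfold tm
  rw [SchwartzMap.smulLeftCLM_apply_apply h, smul_eq_mul]

theorem td_apply (j : Fin n) (y : Sch n) (t : Fin n → ℝ) :
    td j y t = fderiv ℝ y t (Pi.single j 1) := by
  unfold td
  rw [LineDeriv.lineDerivOpCLM_apply]
  exact SchwartzMap.lineDerivOp_apply_eq_fderiv _ _ _

theorem AA_apply (ε : Fin n → ℝ) (a : ℝ) (r : Fin n → ℂ) (y : Sch n) (t : Fin n → ℝ) :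
    AA ε a r y t = ∑ j, ((ε j : ℂ) * r j * (1 / 2)) *
      (fderiv ℝ y t (Pi.single j 1) - (2 * a * ε j : ℂ) * ((t j : ℂ) * y t)) := by
  unfold AA
  simp only [_root_.sum_apply, _root_.smul_apply, _root_.sub_apply, smul_eq_mul, tm_apply, td_apply]

theorem BB_apply (ε : Fin n → ℝ) (a : ℝ) (r : Fin n → ℂ) (y : Sch n) (t : Fin n → ℝ) :
    BB ε a r y t = ∑ j, ((ε j : ℂ) * conj (r j) * (1 / 2)) *
      (fderiv ℝ y t (Pi.single j 1) + (2 * a * ε j : ℂ) * ((t j : ℂ) * y t)) := by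
  unfold BB
  simp only [_root_.sum_apply, _root_.smul_apply, _root_.add_apply, smul_eq_mul, tm_apply, td_apply]

/-! ## Gram-Schmidt sections -/

/-- the orthonormalised rows -/
def uu (ε : Fin n → ℝ) (g : Mat n) : Mat n :=
  Matrix.of fun k => ((Real.sqrt |(hf ε (vv ε k g) (vv ε k g)).re| : ℝ) : ℂ)⁻¹ • vv ε k g

/-- invertible matrices whose orthogonalised rows have the signs `η` -/
def Ue (ε η : Fin n → ℝ) : Set (Mat n) :=
  {g | g.det ≠ 0 ∧ ∀ l, 0 < η l * (hf ε (vv ε l g) (vv ε l g)).re}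

/-- the upper triangular part of the decomposition `g = bx g * uu g` -/
def bx (ε : Fin n → ℝ) (g : Mat n) : Mat n := g * (uu ε g)⁻¹

/-- the right part of the decomposition `g = bx g * g0 * hx g0 g` -/
def hx (ε : Fin n → ℝ) (g0 g : Mat n) : Mat n := g0⁻¹ * uu ε g

/-- upper triangular matrices with positive real diagonal -/
def Upos (n : ℕ) : Set (Mat n) := {b | (∀ i j, j < i → b i j = 0) ∧ ∀ i, 0 < (b i i).re ∧ (b i i).im = 0}

/-- matrices whose right multiplication on row vectors preserves `hf ε` -/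
def RU (ε : Fin n → ℝ) : Set (Mat n) := {h | ∀ x y : Fin n → ℂ, hf ε (x ᵥ* h) (y ᵥ* h) = hf ε x y}

open Classical in
/-- `hx ε g0 g` as an element of `UJ ε` -/
def hU (ε : Fin n → ℝ) (g0 g : Mat n) : UJ ε :=
  if h : ∃ u : UJ ε, (((u : UJ ε) : GLn n) : Mat n) = hx ε g0 g then h.choose else 1

/-! ## functionals -/

/-- the functional `f ↦ L f t` -/
def lt (L : (Mat n → ℂ) →ₗ[ℂ] Sch n) (t : Fin n → ℝ) : (Mat n → ℂ) →ₗ[ℂ] ℂ where
  toFun f := L f t
  map_add' f g := by simp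
  map_smul' c f := by simp

@[simp] theorem lt_apply (L : (Mat n → ℂ) →ₗ[ℂ] Sch n) (t : Fin n → ℝ) (f : Mat n → ℂ) :
    lt L t f = L f t := rfl

/-- `ℓ` is a distribution on `Ω` (only the values on test functions matter) -/
def FinOrd (Ω : Set (Mat n)) (ℓ : (Mat n → ℂ) →ₗ[ℂ] ℂ) : Prop :=
  ∀ K : Set (Mat n), IsCompact K → K ⊆ Ω → ∃ (C : ℝ) (M : ℕ), ∀ f ∈ TGK K, ∀ B : ℝ,
    (∀ m ≤ M, ∀ g, ‖iteratedFDeriv ℝ m f g‖ ≤ B) → ‖ℓ f‖ ≤ C * B

/-! ## Jacobians -/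

/-- the map `x ↦ b x h` -/
def lr (b h : Mat n) : Mat n →ₗ[ℝ] Mat n where
  toFun x := b * x * h
  map_add' x y := by rw [mul_add, add_mul]
  map_smul' c x := by rw [Matrix.mul_smul, Matrix.smul_mul, RingHom.id_apply]

@[simp] theorem lr_apply (b h x : Mat n) : lr b h x = b * x * h := rfl

/-- the absolute value of the real determinant of `x ↦ b x h` -/
def Jac (b h : Mat n) : ℝ := |LinearMap.det (lr b h)|

/-! ## averaging -/

/-- `f(x) J(x)⁻¹ β(b_x⁻¹ g h_x⁻¹)` -/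
def Phi (ε : Fin n → ℝ) (g0 : Mat n) (f β : Mat n → ℂ) (x g : Mat n) : ℂ :=
  f x * ((Jac (bx ε x) (hx ε g0 x) : ℝ) : ℂ)⁻¹ * β ((bx ε x)⁻¹ * g * (hx ε g0 x)⁻¹)

open Classical in
/-- `J(z)⁻¹ β(b_z⁻¹ g0 h_z⁻¹)` for `z ∈ Ue ε η`, extended by zero -/
def rho (ε η : Fin n → ℝ) (g0 : Mat n) (β : Mat n → ℂ) (z : Mat n) : ℂ :=
  if z ∈ Ue ε η then
    ((Jac (bx ε z) (hx ε g0 z) : ℝ) : ℂ)⁻¹ * β ((bx ε z)⁻¹ * g0 * (hx ε g0 z)⁻¹) else 0

open Classical in
/-- `f(b_g z h_g)` for `g ∈ Ue ε η`, extended by zero -/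
def Psi (ε η : Fin n → ℝ) (g0 : Mat n) (f : Mat n → ℂ) (z g : Mat n) : ℂ :=
  if g ∈ Ue ε η then f (bx ε g * z * hx ε g0 g) else 0

/-- `∫ f(x) J(x)⁻¹ χ'(b_x⁻¹) (ω(h_x)⁻¹ y)(t) dx` -/
def AvF {ε : Fin n → ℝ} {a : ℝ} (W : Weil ε a) (s : Fin n → ℂ) (k : Fin n → ℤ) (g0 : Mat n)
    (μ : Measure (Mat n)) (f : Mat n → ℂ) (y : Sch n) (t : Fin n → ℝ) : ℂ :=
  ∫ x, f x * ((Jac (bx ε x) (hx ε g0 x) : ℝ) : ℂ)⁻¹ * chm s k (bx ε x)⁻¹ *
    W.om (hU ε g0 x)⁻¹ y t ∂μ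

/-- the sign pattern of a Boolean vector -/
def sg (b : Fin n → Bool) (j : Fin n) : ℝ := if b j then 1 else -1

theorem sg_eq (b : Fin n → Bool) (j : Fin n) : sg b j = 1 ∨ sg b j = -1 := by
  unfold sg
  split_ifs
  · exact Or.inl rfl
  · exact Or.inr rfl

theorem Ue_subset (ε η : Fin n → ℝ) : Ue ε η ⊆ GLs n := fun _ h => h.1

theorem TGs_mono {Ω Ω' : Set (Mat n)} (h : Ω ⊆ Ω') : TGs Ω ⊆ TGs Ω' := by
  rintro f ⟨K, hK, hKΩ, hf⟩
  exact ⟨K, hK, hKΩ.trans h, hf⟩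

end

end Pool.Agent.Work.MP_dd0ddf_al.AR.O
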