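import Pool.Agent.Work.MP_dd0ddf_al.AR.OCal

/-!
# O-block, module OFin (S-M): the functionals `f ↦ L f t` are distributions

PROOF. `fin_of_cont`: `{y : Sch n | ‖y t‖ ≤ 1}` is a neighbourhood of `0` (evaluation at `t` is continuous on the Schwartz space: `SchwartzMap.toBoundedContinuousFunctionCLM`, or the seminorm `SchwartzMap.seminorm ℝ 0 0`,
`SchwartzMap.norm_le_seminorm`, `(schwartz_withSeminorms ℝ _ _)`). `ContTG` gives `δ > 0`, `M`. Let `f ∈ TGK K` with all `‖D^m f g‖ ≤ B`, `m ≤ M`; `B ≥ 0` (`m = 0`). For every real `r > 0` with `r B ≤ δ` the function `r f` (`TGK K` is a submodule,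
`iteratedFDeriv_const_smul_apply`) satisfies `‖L (r f) t‖ ≤ 1`, so `‖L f t‖ ≤ 1 / r`. If `B > 0` take `r = δ / B`; if `B = 0` let `r → ∞`. So `C = 1 / δ` works.
`TGs_comp`: if `f ∈ TGK K` then `g ↦ f (b g h)` is smooth and vanishes outside the compact set `b⁻¹ K h⁻¹`.
-/

set_option linter.unusedSectionVars false

namespace Pool.Agent.Work.MP_dd0ddf_al.AR.O

open scoped SchwartzMap Matrix.Norms.Elementwise ComplexConjugate ContDiff Topology LineDeriv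
open Matrix MeasureTheory Filter

variable {n : ℕ}

theorem fin_of_cont {L : (Mat n → ℂ) →ₗ[ℂ] Sch n} (hL : ContTG L) (t : Fin n → ℝ) :
    FinOrd (GLs n) (lt L t) := by
  intro K hK hKΩ
  have hp : Continuous (SchwartzMap.seminorm ℝ 0 0 : Seminorm ℝ (Sch n)) :=
    (schwartz_withSeminorms ℝ (Fin n → ℝ) ℂ).continuous_seminorm (0, 0)
  have hU : {y : Sch n | SchwartzMap.seminorm ℝ 0 0 y < 1} ∈ 𝓝 (0 : Sch n) := by
    refine (isOpen_lt hp continuous_const).mem_nhds ?_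
    show SchwartzMap.seminorm ℝ 0 0 (0 : Sch n) < 1
    rw [map_zero]
    exact one_pos
  obtain ⟨δ, M, hδ, h⟩ := hL K hK hKΩ _ hU
  refine ⟨1 / δ, M, fun f hf B hB => ?_⟩
  have hB0 : 0 ≤ B := (norm_nonneg _).trans (hB 0 (Nat.zero_le _) 0)
  have key : ∀ r : ℝ, 0 < r → r * B ≤ δ → r * ‖L f t‖ < 1 := by
    intro r hr hrB
    have h1 : (r : ℂ) • f ∈ TGK K := (TGK K).smul_mem _ hf
    have h2 := h ((r : ℂ) • f) h1 (by
      intro m hm g
      have h3 : ContDiffAt ℝ (m : ℕ∞) f g := (hf.1.of_le (by exact_mod_cast le_top)).contDiffAt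
      rw [iteratedFDeriv_const_smul_apply h3, norm_smul, Complex.norm_real, Real.norm_eq_abs,
        abs_of_pos hr]
      exact (mul_le_mul_of_nonneg_left (hB m hm g) hr.le).trans hrB)
    have h3 : SchwartzMap.seminorm ℝ 0 0 (L ((r : ℂ) • f)) < 1 := h2
    have h4 := (SchwartzMap.norm_le_seminorm ℝ (L ((r : ℂ) • f)) t).trans_lt h3
    rw [map_smul, _root_.smul_apply, norm_smul, Complex.norm_real, Real.norm_eq_abs,
      abs_of_pos hr] at h4
    exact h4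
  show ‖L f t‖ ≤ 1 / δ * B
  rcases hB0.lt_or_eq with hB1 | hB1
  · have h1 := key (δ / B) (div_pos hδ hB1) (by rw [div_mul_cancel₀ _ hB1.ne'])
    have h2 : ‖L f t‖ = (δ / B * ‖L f t‖) * (B / δ) := by
      field_simp
    rw [h2]
    have h3 : 0 < B / δ := div_pos hB1 hδ
    calc (δ / B * ‖L f t‖) * (B / δ) ≤ 1 * (B / δ) := mul_le_mul_of_nonneg_right h1.le h3.le
      _ = 1 / δ * B := by ring
  · rw [← hB1, mul_zero]
    by_contra hne
    have hpos : 0 < ‖L f t‖ := not_le.1 hne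
    have h1 := key (1 / ‖L f t‖) (by positivity) (by rw [← hB1, mul_zero]; exact hδ.le)
    rw [one_div, inv_mul_cancel₀ hpos.ne'] at h1
    exact lt_irrefl _ h1

theorem FinOrd.mono {Ω Ω' : Set (Mat n)} {ℓ : (Mat n → ℂ) →ₗ[ℂ] ℂ} (h : FinOrd Ω' ℓ)
    (hΩ : Ω ⊆ Ω') : FinOrd Ω ℓ :=
  fun K hK hKΩ => h K hK (hKΩ.trans hΩ)

theorem TGs_comp {b h : Mat n} (hb : b.det ≠ 0) (hh : h.det ≠ 0) {f : Mat n → ℂ}
    (hf' : f ∈ TGs (GLs n)) : (fun g => f (b * g * h)) ∈ TGs (GLs n) := by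
  obtain ⟨K, hK, hKΩ, hf1, hf2⟩ := hf'
  have hbu : IsUnit b.det := isUnit_iff_ne_zero.2 hb
  have hhu : IsUnit h.det := isUnit_iff_ne_zero.2 hh
  refine ⟨(fun x => b⁻¹ * x * h⁻¹) '' K, hK.image ?_, ?_, ?_, ?_⟩
  · exact LinearMap.continuous_of_finiteDimensional (lr b⁻¹ h⁻¹)
  · rintro _ ⟨x, hx, rfl⟩
    show (b⁻¹ * x * h⁻¹).det ≠ 0
    rw [Matrix.det_mul, Matrix.det_mul, Matrix.det_nonsing_inv, Matrix.det_nonsing_inv,
      Ring.inverse_eq_inv']
    exact mul_ne_zero (mul_ne_zero (inv_ne_zero hb) (hKΩ hx)) (inv_ne_zero hh)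
  · have h1 : ContDiff ℝ ∞ (fun g : Mat n => b * g * h) :=
      (LinearMap.toContinuousLinearMap (lr b h)).contDiff
    exact hf1.comp h1
  · intro g hg
    apply hf2
    intro hgK
    apply hg
    refine ⟨b * g * h, hgK, ?_⟩
    show b⁻¹ * (b * g * h) * h⁻¹ = g
    rw [← mul_assoc, Matrix.mul_nonsing_inv_cancel_right _ _ hhu,
      Matrix.nonsing_inv_mul_cancel_left _ _ hbu]

theorem TGs_smul {Ω : Set (Mat n)} (c : ℂ) {f : Mat n → ℂ} (hf' : f ∈ TGs Ω) : c • f ∈ TGs Ω := by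
  obtain ⟨K, hK, hKΩ, hf⟩ := hf'
  exact ⟨K, hK, hKΩ, (TGK K).smul_mem c hf⟩

end Pool.Agent.Work.MP_dd0ddf_al.AR.O
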