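import Pool.Agent.Work.MP_dd0ddf_al.AR.OPdA
import Pool.Agent.Work.MP_dd0ddf_al.AR.OFin

/-!
# O-block, module ODer (M): distributions and derivatives in a parameter

PROOF. Let `C`, `M` be the constants of `FinOrd` for `K`, `D(τ, g) = fderiv ℝ Φ (τ, g) (1, 0)` (smooth in `(τ, g)`), so `τ ↦ Φ(τ, g)` has the derivative `D(τ, g)`; for `|τ| < 1`, `g ∉ K`: `D(τ, g) = 0`, so `D(0, ·) ∈ TGK K`. For `0 < |τ| ≤ 1` put
`R_τ = τ⁻¹ (Φ(τ, ·) - Φ(0, ·)) - D(0, ·) ∈ TGK K`. Claim: for every `e > 0` all derivatives of order `m ≤ M` of `R_τ` are `≤ e` for small `τ ≠ 0`; then `‖ℓ R_τ‖ ≤ |C| e`, which is the assertion (`hasDerivAt_iff_tendsto_slope_zero`).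
Claim: let `Ψ_m(τ, g) = iteratedFDeriv ℝ m (Φ(τ, ·)) g`, smooth in `(τ, g)` (`slice_contDiff`), zero for `|τ| ≤ 1`, `g ∉ K` (`slice_zero`). `iteratedFDeriv ℝ m (D(0, ·)) g = ∂_τ Ψ_m(0, g)`. To get this without interchanging derivatives by hand: it follows from symmetry in the form
`D(0, ·) = lim`; alternatively prove the claim by Taylor: `Φ(τ, g) - Φ(0, g) - τ D(0, g) = τ^2 G(τ, g)` with `G(τ, g) = ∫_0^1 (1 - σ) ∂_τ^2 Φ(σ τ, g) dσ`; or use the formula `Ψ_m(τ, g) = (iteratedFDeriv ℝ m Φ (τ, g)).compContinuousLinearMap (fun _ => inr)` of OPdA, also for `D` instead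
of `Φ`, and `iteratedFDeriv m (fderiv Φ · v) = fderiv (iteratedFDeriv m Φ) · v` (`iteratedFDeriv_succ_apply_left`, `iteratedFDeriv_succ_apply_right` and the symmetry `ContDiffAt.iteratedFDeriv_comp_perm`, or by induction on `m` with `ContDiffAt.isSymmSndFDerivAt` for vector valued functions).
Then by the mean value inequality `‖τ⁻¹ (Ψ_m(τ, g) - Ψ_m(0, g)) - ∂_τ Ψ_m(0, g)‖ ≤ sup_{|σ| ≤ |τ|} ‖∂_τ Ψ_m(σ, g) - ∂_τ Ψ_m(0, g)‖`, which is `≤ e` for small `τ`, uniformly in `g ∈ K` (uniform continuity on the compact set `[-1,1] × K`), and zero for `g ∉ K`.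
-/

set_option linter.unusedSectionVars false

namespace Pool.Agent.Work.MP_dd0ddf_al.AR.O

open scoped SchwartzMap Matrix.Norms.Elementwise ComplexConjugate ContDiff Topology LineDeriv
open Matrix MeasureTheory Filter

variable {n : ℕ}

private theorem oder_flip {V F : Type*} [NormedAddCommGroup V] [NormedSpace ℝ V]
    [NormedAddCommGroup F] [NormedSpace ℝ F] {h : V → F} (hh : ContDiff ℝ ∞ h) (v p : V) :
    fderiv ℝ (fun q => fderiv ℝ h q v) p = fderiv ℝ (fderiv ℝ h) p v := by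
  have h1 : DifferentiableAt ℝ (fderiv ℝ h) p :=
    (hh.fderiv_right (m := ∞) (by simp)).differentiable (by simp) p
  have h2 := h1.hasFDerivAt.clm_apply (hasFDerivAt_const v p)
  rw [h2.fderiv]
  have hs : IsSymmSndFDerivAt ℝ h p := by
    apply ContDiffAt.isSymmSndFDerivAt (n := ∞) hh.contDiffAt
    simp only [minSmoothness_of_isRCLikeNormedField]
    exact WithTop.coe_le_coe.2 le_top
  ext w
  simp only [ContinuousLinearMap.comp_zero, zero_add, ContinuousLinearMap.flip_apply]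
  exact hs w v

private theorem oder_dir {V F : Type*} [NormedAddCommGroup V] [NormedSpace ℝ V]
    [NormedAddCommGroup F] [NormedSpace ℝ F] {f : V → F} (hf : ContDiff ℝ ∞ f) (v : V) (m : ℕ) :
    ∀ p, iteratedFDeriv ℝ m (fun q => fderiv ℝ f q v) p = fderiv ℝ (iteratedFDeriv ℝ m f) p v := by
  induction m with
  | zero =>
    intro p
    rw [iteratedFDeriv_zero_eq_comp, iteratedFDeriv_zero_eq_comp, LinearIsometryEquiv.comp_fderiv]
    rfl
  | succ m ih =>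
    intro p
    have hm : ContDiff ℝ ∞ (iteratedFDeriv ℝ m f) :=
      hf.iteratedFDeriv_right (m := ∞) (by exact_mod_cast le_top)
    have h4 : fderiv ℝ (iteratedFDeriv ℝ m fun q => fderiv ℝ f q v) p =
        fderiv ℝ (fderiv ℝ (iteratedFDeriv ℝ m f)) p v := by
      have h5 : (iteratedFDeriv ℝ m fun q => fderiv ℝ f q v) =
          fun q => fderiv ℝ (iteratedFDeriv ℝ m f) q v := funext ih
      rw [h5, oder_flip hm]
    have h1 : HasFDerivAt (fderiv ℝ (iteratedFDeriv ℝ m f))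
        (fderiv ℝ (fderiv ℝ (iteratedFDeriv ℝ m f)) p) p :=
      ((hm.fderiv_right (m := ∞) (by simp)).differentiable (by simp) p).hasFDerivAt
    have h2 : HasFDerivAt (iteratedFDeriv ℝ (m + 1) f) (fderiv ℝ (iteratedFDeriv ℝ (m + 1) f) p) p :=
      ((hf.iteratedFDeriv_right (m := ∞) (by exact_mod_cast le_top)).differentiable
        (by simp) p).hasFDerivAt
    ext w
    have h3 := (ContinuousMultilinearMap.apply ℝ (fun _ : Fin (m + 1) => V) F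
      w).hasFDerivAt.comp p h2
    have h5 := h1.clm_apply (hasFDerivAt_const (w 0) p)
    have h6 := (ContinuousMultilinearMap.apply ℝ (fun _ : Fin m => V) F
      (Fin.tail w)).hasFDerivAt.comp p h5
    have h7 := congrArg (fun L => L v) (h3.unique h6)
    simp only [ContinuousLinearMap.comp_zero, zero_add] at h7
    have h8 : iteratedFDeriv ℝ (m + 1) (fun q => fderiv ℝ f q v) p w =
        fderiv ℝ (iteratedFDeriv ℝ m fun q => fderiv ℝ f q v) p (w 0) (Fin.tail w) := rfl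
    rw [h8, h4]
    exact h7.symm

section gen

variable {X : Type*} [NormedAddCommGroup X] [NormedSpace ℝ X]

private theorem oder_seq {Φ : ℝ × X → ℂ} (hΦ : ContDiff ℝ ∞ Φ) (m : ℕ) (p : ℝ × X) :
    iteratedFDeriv ℝ m (fun g => Φ (p.1, g)) p.2 =
      (iteratedFDeriv ℝ m Φ p).compContinuousLinearMap
        fun _ => ContinuousLinearMap.inr ℝ ℝ X := by
  have h1 : (fun g => Φ (p.1, g)) =
      (fun y => Φ ((p.1, 0) + y)) ∘ (ContinuousLinearMap.inr ℝ ℝ X) := by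
    funext g
    simp
  have h2 : ContDiff ℝ ∞ fun y : ℝ × X => Φ ((p.1, 0) + y) :=
    hΦ.comp (contDiff_const.add contDiff_id)
  rw [h1, ContinuousLinearMap.iteratedFDeriv_comp_right (ContinuousLinearMap.inr ℝ ℝ X)
    h2 p.2 (i := m) (by exact_mod_cast le_top)]
  congr 1
  rw [iteratedFDeriv_comp_add_left]
  congr 1
  simp

private theorem oder_cts {Φ : ℝ × X → ℂ} (hΦ : ContDiff ℝ ∞ Φ) (m : ℕ) :
    Continuous (fun p : ℝ × X => iteratedFDeriv ℝ m (fun g => Φ (p.1, g)) p.2) := by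
  let T := ContinuousMultilinearMap.compContinuousLinearMapL (𝕜 := ℝ) (F := ℂ)
        (fun _ : Fin m => ContinuousLinearMap.inr ℝ ℝ X)
  have h1 : (fun p : ℝ × X => iteratedFDeriv ℝ m (fun g => Φ (p.1, g)) p.2) =
      fun p => T (iteratedFDeriv ℝ m Φ p) :=
    funext fun p => oder_seq hΦ m p
  rw [h1]
  exact T.continuous.comp (hΦ.continuous_iteratedFDeriv (by exact_mod_cast le_top))

private theorem oder_cd {Φ : ℝ × X → ℂ} (hΦ : ContDiff ℝ ∞ Φ) :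
    ContDiff ℝ ∞ fun q => fderiv ℝ Φ q ((1, 0) : ℝ × X) :=
  (hΦ.fderiv_right (m := ∞) (by simp)).clm_apply contDiff_const

private theorem oder_slice {Φ : ℝ × X → ℂ} (hΦ : ContDiff ℝ ∞ Φ) (m : ℕ) (τ : ℝ) (g : X) :
    HasDerivAt (fun σ : ℝ => iteratedFDeriv ℝ m (fun g => Φ (σ, g)) g)
      (iteratedFDeriv ℝ m (fun g => fderiv ℝ Φ (τ, g) (1, 0)) g) τ := by
  let T := ContinuousMultilinearMap.compContinuousLinearMapL (𝕜 := ℝ) (F := ℂ)
        (fun _ : Fin m => ContinuousLinearMap.inr ℝ ℝ X)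
  have h1 : (fun σ : ℝ => iteratedFDeriv ℝ m (fun g => Φ (σ, g)) g) =
      fun σ => T (iteratedFDeriv ℝ m Φ (σ, g)) :=
    funext fun σ => oder_seq hΦ m (σ, g)
  have h2 : iteratedFDeriv ℝ m (fun g => fderiv ℝ Φ (τ, g) (1, 0)) g =
      T (fderiv ℝ (iteratedFDeriv ℝ m Φ) (τ, g) (1, 0)) := by
    rw [← oder_dir hΦ (1, 0) m (τ, g)]
    exact oder_seq (oder_cd hΦ) m (τ, g)
  rw [h1, h2]
  have h3 : DifferentiableAt ℝ (iteratedFDeriv ℝ m Φ) (τ, g) :=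
    (hΦ.iteratedFDeriv_right (m := ∞) (by exact_mod_cast le_top)).differentiable (by simp) _
  have h4 : HasDerivAt (fun σ : ℝ => ((σ, g) : ℝ × X)) (1, 0) τ :=
    (hasDerivAt_id τ).prodMk (hasDerivAt_const τ g)
  exact T.hasFDerivAt.comp_hasDerivAt τ (h3.hasFDerivAt.comp_hasDerivAt τ h4)

private theorem oder_zero {Φ : ℝ × X → ℂ} {K : Set X} (hK : IsCompact K) {x : ℝ}
    (h0 : ∀ g, g ∉ K → Φ (x, g) = 0) (m : ℕ) {g : X} (hg : g ∉ K) :
    iteratedFDeriv ℝ m (fun g => Φ (x, g)) g = 0 := by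
  have h1 : (fun g => Φ (x, g)) =ᶠ[𝓝 g] (fun _ => (0 : ℂ)) := by
    filter_upwards [hK.isClosed.isOpen_compl.mem_nhds hg] with y hy
    exact h0 y hy
  have h3 := h1.iteratedFDeriv ℝ m
  rw [h3.self_of_nhds]
  simp

private theorem oder_dzero {Φ : ℝ × X → ℂ} {K : Set X} (hK : IsCompact K)
    (h0 : ∀ τ g, |τ| ≤ 1 → g ∉ K → Φ (τ, g) = 0) {τ : ℝ} (hτ : |τ| < 1) {g : X} (hg : g ∉ K) :
    fderiv ℝ Φ (τ, g) (1, 0) = 0 := by
  have h1 : Φ =ᶠ[𝓝 (τ, g)] fun _ => (0 : ℂ) := by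
    have h2 : IsOpen {p : ℝ × X | |p.1| < 1 ∧ p.2 ∉ K} :=
      (isOpen_lt (continuous_fst.abs) continuous_const).inter
        (hK.isClosed.isOpen_compl.preimage continuous_snd)
    filter_upwards [h2.mem_nhds (show (τ, g) ∈ {p : ℝ × X | |p.1| < 1 ∧ p.2 ∉ K} from ⟨hτ, hg⟩)]
      with p hp
    exact h0 p.1 p.2 hp.1.le hp.2
  rw [h1.fderiv_eq, fderiv_fun_const]
  rfl

private theorem oder_unif {Φ : ℝ × X → ℂ} (hΦ : ContDiff ℝ ∞ Φ) {K : Set X} (hK : IsCompact K)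
    (h0 : ∀ τ g, |τ| ≤ 1 → g ∉ K → Φ (τ, g) = 0) (m : ℕ) {e : ℝ} (he : 0 < e) :
    ∀ᶠ τ in 𝓝[≠] (0 : ℝ), ∀ g,
      ‖iteratedFDeriv ℝ m (fun g => ((τ⁻¹ : ℝ) : ℂ) • (Φ (τ, g) - Φ (0, g)) -
        fderiv ℝ Φ (0, g) (1, 0)) g‖ ≤ e := by
  set D : ℝ → X → _ := fun τ g => iteratedFDeriv ℝ m (fun g => fderiv ℝ Φ (τ, g) (1, 0)) g with hD
  have hDc : Continuous fun p : ℝ × X => D p.1 p.2 := oder_cts (oder_cd hΦ) m
  have h1 : ∀ᶠ τ in 𝓝 (0 : ℝ), ∀ g ∈ K, ‖D τ g - D 0 g‖ < e := by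
    apply hK.eventually_forall_of_forall_eventually
    intro g _
    have h2 : Continuous fun p : ℝ × X => ‖D p.1 p.2 - D 0 p.2‖ :=
      (hDc.sub (hDc.comp (continuous_const.prodMk continuous_snd))).norm
    have h3 : ‖D ((0 : ℝ), g).1 ((0 : ℝ), g).2 - D 0 ((0 : ℝ), g).2‖ < e := by
      simpa using he
    exact (h2.tendsto (0, g)).eventually_lt_const h3
  have h2 : ∀ᶠ τ in 𝓝 (0 : ℝ), |τ| < 1 := by
    have : Continuous fun τ : ℝ => |τ| := continuous_abs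
    have h3 : |(0 : ℝ)| < 1 := by simp
    exact (this.tendsto 0).eventually_lt_const h3
  obtain ⟨δ, hδ, hball⟩ := Metric.eventually_nhds_iff_ball.1 (h1.and h2)
  have h3 : ∀ τ ∈ Metric.ball (0 : ℝ) δ, ∀ g, ‖D τ g - D 0 g‖ ≤ e := by
    intro τ hτ g
    by_cases hg : g ∈ K
    · exact ((hball τ hτ).1 g hg).le
    · have e1 : D τ g = 0 := oder_zero (Φ := fun q => fderiv ℝ Φ q (1, 0)) hK
        (fun g' hg' => oder_dzero hK h0 (hball τ hτ).2 hg') m hg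
      have e2 : D 0 g = 0 := oder_zero (Φ := fun q => fderiv ℝ Φ q (1, 0)) hK
        (fun g' hg' => oder_dzero hK h0 (by simp) hg') m hg
      rw [e1, e2, sub_zero, norm_zero]
      exact he.le
  have hcd : ∀ (τ : ℝ) (g : X), ContDiffAt ℝ m (fun g => Φ (τ, g)) g := fun τ g =>
    ((hΦ.comp (contDiff_const.prodMk contDiff_id)).contDiffAt).of_le (by exact_mod_cast le_top)
  have hcd' : ∀ (g : X), ContDiffAt ℝ m (fun g => fderiv ℝ Φ (0, g) (1, 0)) g := fun g =>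
    (((oder_cd hΦ).comp (contDiff_const.prodMk contDiff_id)).contDiffAt).of_le
      (by exact_mod_cast le_top)
  rw [eventually_nhdsWithin_iff]
  filter_upwards [Metric.ball_mem_nhds (0 : ℝ) hδ] with τ hτ hne g
  have hne' : τ ≠ 0 := hne
  have h4 : ‖(iteratedFDeriv ℝ m (fun g => Φ (τ, g)) g - τ • D 0 g) -
      (iteratedFDeriv ℝ m (fun g => Φ (0, g)) g - (0 : ℝ) • D 0 g)‖ ≤ e * ‖τ - 0‖ := by
    refine Convex.norm_image_sub_le_of_norm_hasDerivWithin_le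
      (f := fun σ : ℝ => iteratedFDeriv ℝ m (fun g => Φ (σ, g)) g - σ • D 0 g)
      (f' := fun σ : ℝ => D σ g - D 0 g) (s := Metric.ball (0 : ℝ) δ) ?_ ?_
      (convex_ball 0 δ) (Metric.mem_ball_self hδ) hτ
    · intro σ _
      have h5 := (oder_slice hΦ m σ g).sub ((hasDerivAt_id σ).smul_const (D 0 g))
      simp only [one_smul] at h5
      exact h5.hasDerivWithinAt
    · intro σ hσ
      exact h3 σ hσ g
  have h5 : iteratedFDeriv ℝ m (fun g => ((τ⁻¹ : ℝ) : ℂ) • (Φ (τ, g) - Φ (0, g)) -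
        fderiv ℝ Φ (0, g) (1, 0)) g =
      ((τ⁻¹ : ℝ) : ℂ) • (iteratedFDeriv ℝ m (fun g => Φ (τ, g)) g -
        iteratedFDeriv ℝ m (fun g => Φ (0, g)) g) - D 0 g := by
    have e1 := iteratedFDeriv_sub_apply (((hcd τ g).sub (hcd 0 g)).const_smul ((τ⁻¹ : ℝ) : ℂ))
      (hcd' g)
    have e2 := iteratedFDeriv_const_smul_apply (a := ((τ⁻¹ : ℝ) : ℂ)) ((hcd τ g).sub (hcd 0 g))
    have e3 := iteratedFDeriv_sub_apply (hcd τ g) (hcd 0 g)
    refine Eq.trans e1 ?_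
    congr 1
    refine Eq.trans e2 ?_
    congr 1
  rw [h5]
  have h6 : ((τ⁻¹ : ℝ) : ℂ) • (iteratedFDeriv ℝ m (fun g => Φ (τ, g)) g -
        iteratedFDeriv ℝ m (fun g => Φ (0, g)) g) - D 0 g =
      ((τ⁻¹ : ℝ) : ℂ) • ((iteratedFDeriv ℝ m (fun g => Φ (τ, g)) g - τ • D 0 g) -
      (iteratedFDeriv ℝ m (fun g => Φ (0, g)) g - (0 : ℝ) • D 0 g)) := by
    rw [zero_smul, sub_zero, sub_right_comm, smul_sub _ _ (τ • D 0 g)]
    congr 1
    ext w
    simp only [_root_.smul_apply, smul_eq_mul, Complex.real_smul]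
    rw [← mul_assoc, ← Complex.ofReal_mul, inv_mul_cancel₀ hne', Complex.ofReal_one, one_mul]
  rw [h6, norm_smul, Complex.norm_real, norm_inv]
  calc ‖τ‖⁻¹ * _ ≤ ‖τ‖⁻¹ * (e * ‖τ - 0‖) := by gcongr
    _ = e := by
      rw [sub_zero]
      have : ‖τ‖ ≠ 0 := norm_ne_zero_iff.2 hne'
      field_simp

end gen

theorem fin_deriv {Ω : Set (Mat n)} {ℓ : (Mat n → ℂ) →ₗ[ℂ] ℂ} (hℓ : FinOrd Ω ℓ)
    {K : Set (Mat n)} (hK : IsCompact K) (hKΩ : K ⊆ Ω) {Φ : ℝ × Mat n → ℂ} (hΦ : ContDiff ℝ ∞ Φ)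
    (h0 : ∀ τ g, |τ| ≤ 1 → g ∉ K → Φ (τ, g) = 0) :
    HasDerivAt (fun τ : ℝ => ℓ (fun g => Φ (τ, g))) (ℓ (fun g => fderiv ℝ Φ (0, g) (1, 0))) 0 := by
  obtain ⟨C, M, hCM⟩ := hℓ K hK hKΩ
  have hcdΦ : ∀ τ : ℝ, ContDiff ℝ ∞ fun g : Mat n => Φ (τ, g) := fun τ =>
    hΦ.comp (contDiff_const.prodMk contDiff_id)
  have hcdD : ContDiff ℝ ∞ fun g : Mat n => fderiv ℝ Φ (0, g) (1, 0) :=
    (oder_cd hΦ).comp (contDiff_const.prodMk contDiff_id)
  have hmem : ∀ τ : ℝ, |τ| ≤ 1 → (fun g => Φ (τ, g)) ∈ TGK K := fun τ hτ =>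
    ⟨hcdΦ τ, fun g hg => h0 τ g hτ hg⟩
  have hmD : (fun g => fderiv ℝ Φ (0, g) (1, 0)) ∈ TGK K :=
    ⟨hcdD, fun g hg => oder_dzero hK h0 (by simp) hg⟩
  rw [hasDerivAt_iff_tendsto_slope_zero, Metric.tendsto_nhds]
  intro ε hε
  have he : 0 < ε / (2 * (|C| + 1)) := by positivity
  have h1 : ∀ᶠ τ in 𝓝[≠] (0 : ℝ), ∀ m ∈ Set.Iic M, ∀ g,
      ‖iteratedFDeriv ℝ m (fun g => ((τ⁻¹ : ℝ) : ℂ) • (Φ (τ, g) - Φ (0, g)) -
        fderiv ℝ Φ (0, g) (1, 0)) g‖ ≤ ε / (2 * (|C| + 1)) := by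
    rw [eventually_all_finite (Set.finite_Iic M)]
    exact fun m _ => oder_unif hΦ hK h0 m he
  have h2 : ∀ᶠ τ in 𝓝[≠] (0 : ℝ), |τ| ≤ 1 := by
    apply eventually_nhdsWithin_of_eventually_nhds
    have : Continuous fun τ : ℝ => |τ| := continuous_abs
    have h3 : |(0 : ℝ)| < 1 := by simp
    filter_upwards [(this.tendsto 0).eventually_lt_const h3] with τ hτ using hτ.le
  filter_upwards [h1, h2] with τ h1 h2
  set R : Mat n → ℂ := ((τ⁻¹ : ℝ) : ℂ) • ((fun g => Φ (τ, g)) - fun g => Φ (0, g)) -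
    fun g => fderiv ℝ Φ (0, g) (1, 0) with hR
  have hRm : R ∈ TGK K := (TGK K).sub_mem ((TGK K).smul_mem _
    ((TGK K).sub_mem (hmem τ h2) (hmem 0 (by simp)))) hmD
  have h3 : ‖ℓ R‖ ≤ C * (ε / (2 * (|C| + 1))) := hCM R hRm _ fun m hm g => h1 m hm g
  have h4 : ℓ R = ((τ⁻¹ : ℝ) : ℂ) • (ℓ (fun g => Φ (τ, g)) - ℓ (fun g => Φ (0, g))) -
      ℓ (fun g => fderiv ℝ Φ (0, g) (1, 0)) := by
    rw [hR, map_sub, map_smul, map_sub]
  have h5 : C * (ε / (2 * (|C| + 1))) ≤ ε / 2 := by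
    have h6 : C * (ε / (2 * (|C| + 1))) ≤ (|C| + 1) * (ε / (2 * (|C| + 1))) := by
      have := le_abs_self C
      gcongr
      linarith
    refine h6.trans (le_of_eq ?_)
    have : |C| + 1 ≠ 0 := by positivity
    field_simp
  rw [dist_eq_norm, zero_add]
  have h6 : τ⁻¹ • (ℓ (fun g => Φ (τ, g)) - ℓ (fun g => Φ (0, g))) -
      ℓ (fun g => fderiv ℝ Φ (0, g) (1, 0)) = ℓ R := by
    rw [h4, smul_eq_mul, Complex.real_smul]
  rw [h6]
  linarith

end Pool.Agent.Work.MP_dd0ddf_al.AR.O
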