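import Pool.Agent.Work.MP_dd0ddf_al.AR.OSecA
import Pool.Agent.Work.MP_dd0ddf_al.AR.OCal

/-!
# O-block, module OSecB (M): `Ue` is open, smoothness of `uu`, `bx`, `hx`

PROOF. For `j ≤ n` let `U^j = {g | ∀ l, n - j ≤ l → 0 < η_l (hf (vv l g) (vv l g)).re}`. Claim by induction on `j`: `U^j` is open, and for every row function `x(g)` smooth on `U^j`
(`ContDiffOn ℝ ∞`) the function `g ↦ prj ε g j (x g)` is smooth on `U^j` (entrywise; `hf ε x y` is a polynomial in `x`, `conj y`). Step: `m = n - 1 - j`, `vv m g = prj ε g j (g m)` is smooth on `U^j`, so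
`N_m(g) = hf (vv m g) (vv m g)` is smooth, in particular continuous, on the open set `U^j` and `U^{j+1} = {g ∈ U^j | 0 < η_m (N_m g).re}` is open (`ContinuousOn.isOpen_inter_preimage`); on it `N_m ≠ 0` and
`prj ε g (j+1) x = prj ε g j x - (hf x (vv m g) / N_m g) vv m g` is smooth. For `j = n`: `U^n ∩ GLs n = Ue ε η` is open and all `vv l` and `N_l` are smooth on it (`vv l = prj (n-1-l) (g l)`, `Ue ⊆ U^{n-1-l}`), and
`uu = |Re N_l|^{-1/2} vv l` is smooth as `Re N_l ≠ 0` (`Real.contDiffAt_sqrt`, `contDiffAt_abs`; or `|Re N_l| = η_l Re N_l` on `Ue`). `bx = g (uu g)⁻¹`, `hx = g0⁻¹ uu g`: `cd_mul`, `cd_inv`, `(uu g).det ≠ 0` by `uu_frm`, `Frm.det_ne_zero`.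
(`contDiffOn` is `∀ x ∈ s, ContDiffWithinAt`, so the lemmas of OCal apply.)
-/

set_option linter.unusedSectionVars false

namespace Pool.Agent.Work.MP_dd0ddf_al.AR.O

open scoped SchwartzMap Matrix.Norms.Elementwise ComplexConjugate ContDiff Topology LineDeriv
open Matrix MeasureTheory Filter

variable {n : ℕ}

private theorem cdat_hf {ε : Fin n → ℝ} {x y : Mat n → Fin n → ℂ} {g0 : Mat n}
    (hx : ContDiffAt ℝ ∞ x g0) (hy : ContDiffAt ℝ ∞ y g0) :
    ContDiffAt ℝ ∞ (fun g => hf ε (x g) (y g)) g0 := by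
  unfold hf
  refine ContDiffAt.sum fun j _ => ?_
  have h1 : ContDiffAt ℝ ∞ (fun g => x g j) g0 := contDiffAt_pi.1 hx j
  have h2 : ContDiffAt ℝ ∞ (fun g => y g j) g0 := contDiffAt_pi.1 hy j
  have h3 : ContDiffAt ℝ ∞ (fun g => conj (y g j)) g0 :=
    Complex.conjCLE.contDiff.contDiffAt.comp g0 h2
  exact (contDiffAt_const.mul h1).mul h3

private theorem re_ne {η : Fin n → ℝ} {l : Fin n} {z : ℂ} (h : 0 < η l * z.re) : z ≠ 0 := by
  rintro rfl
  simp at h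

private theorem cdat_prj {ε η : Fin n → ℝ} {g0 : Mat n}
    (h : ∀ l, 0 < η l * (hf ε (vv ε l g0) (vv ε l g0)).re) (j : ℕ) (hj : j ≤ n) :
    ∀ {x : Mat n → Fin n → ℂ}, ContDiffAt ℝ ∞ x g0 →
      ContDiffAt ℝ ∞ (fun g => prj ε g j (x g)) g0 := by
  induction j with
  | zero => intro x hx; exact hx
  | succ j ih =>
    intro x hx
    have ih' := @ih (by omega)
    have hm : n - 1 - j < n := by omega
    have e : ∀ g : Mat n, ∀ y : Fin n → ℂ, prj ε g (j + 1) y =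
        prj ε g j y - (hf ε y (prj ε g j (g ⟨n - 1 - j, hm⟩)) /
        hf ε (prj ε g j (g ⟨n - 1 - j, hm⟩)) (prj ε g j (g ⟨n - 1 - j, hm⟩))) •
          prj ε g j (g ⟨n - 1 - j, hm⟩) := by
      intro g y
      simp only [prj, dif_pos hm]
    simp only [e]
    have hrow : ContDiffAt ℝ ∞ (fun g : Mat n => g ⟨n - 1 - j, hm⟩) g0 :=
      contDiffAt_pi.1 contDiffAt_id _
    have hv := ih' hrow
    have hN0 : hf ε (prj ε g0 j (g0 ⟨n - 1 - j, hm⟩)) (prj ε g0 j (g0 ⟨n - 1 - j, hm⟩)) ≠ 0 := by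
      have h1 := re_ne (h ⟨n - 1 - j, hm⟩)
      have h2 : vv ε ⟨n - 1 - j, hm⟩ g0 = prj ε g0 j (g0 ⟨n - 1 - j, hm⟩) := by
        unfold vv hat
        have : n - 1 - (n - 1 - j) = j := by omega
        simp only [this]
      rwa [h2] at h1
    have hq1 := cdat_hf (ε := ε) hx hv
    have hq2 := cdat_hf (ε := ε) hv hv
    have hq : ContDiffAt ℝ ∞ (fun g => hf ε (x g) (prj ε g j (g ⟨n - 1 - j, hm⟩)) /
        hf ε (prj ε g j (g ⟨n - 1 - j, hm⟩)) (prj ε g j (g ⟨n - 1 - j, hm⟩))) g0 := by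
      simp only [div_eq_mul_inv]
      exact hq1.mul (hq2.inv hN0)
    have hq3 := hq.smul hv
    exact (ih' hx).sub hq3

private theorem cdat_vv {ε η : Fin n → ℝ} {g0 : Mat n}
    (h : ∀ l, 0 < η l * (hf ε (vv ε l g0) (vv ε l g0)).re) (l : Fin n) :
    ContDiffAt ℝ ∞ (vv ε l) g0 := by
  have hrow : ContDiffAt ℝ ∞ (fun g : Mat n => g l) g0 := contDiffAt_pi.1 contDiffAt_id _
  exact cdat_prj h (n - 1 - l) (by omega) hrow

private theorem cdat_uu {ε η : Fin n → ℝ} {g0 : Mat n}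
    (h : ∀ l, 0 < η l * (hf ε (vv ε l g0) (vv ε l g0)).re) :
    ContDiffAt ℝ ∞ (uu ε) g0 := by
  refine contDiffAt_pi.2 fun k => ?_
  have hv := cdat_vv h k
  have hN : ContDiffAt ℝ ∞ (fun g => (hf ε (vv ε k g) (vv ε k g)).re) g0 :=
    Complex.reCLM.contDiff.contDiffAt.comp g0 (cdat_hf hv hv)
  have hN0 : (hf ε (vv ε k g0) (vv ε k g0)).re ≠ 0 := by
    intro h0
    have := h k
    rw [h0] at this
    simp at this
  have hA : ContDiffAt ℝ ∞ (fun g => |(hf ε (vv ε k g) (vv ε k g)).re|) g0 :=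
    (contDiffAt_abs hN0).comp (f := fun g => (hf ε (vv ε k g) (vv ε k g)).re) g0 hN
  have hS : ContDiffAt ℝ ∞ (fun g => Real.sqrt |(hf ε (vv ε k g) (vv ε k g)).re|) g0 :=
    hA.sqrt (abs_ne_zero.2 hN0)
  have hS0 : Real.sqrt |(hf ε (vv ε k g0) (vv ε k g0)).re| ≠ 0 :=
    (Real.sqrt_pos.2 (abs_pos.2 hN0)).ne'
  have hC : ContDiffAt ℝ ∞
      (fun g => ((Real.sqrt |(hf ε (vv ε k g) (vv ε k g)).re| : ℝ) : ℂ)) g0 :=
    Complex.ofRealCLM.contDiff.contDiffAt.comp g0 hS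
  exact (hC.inv (Complex.ofReal_ne_zero.2 hS0)).smul hv

theorem isOpen_Ue {ε η : Fin n → ℝ} (hη : ∀ j, η j = 1 ∨ η j = -1) : IsOpen (Ue ε η) := by
  rw [isOpen_iff_mem_nhds]
  rintro g0 ⟨hd, h⟩
  have h1 : ∀ᶠ g : Mat n in 𝓝 g0, g.det ≠ 0 := by
    have hc : ContinuousAt (fun g : Mat n => g.det) g0 :=
      (Continuous.matrix_det continuous_id).continuousAt
    exact hc.eventually_ne hd
  have h2 : ∀ᶠ g : Mat n in 𝓝 g0, ∀ l, 0 < η l * (hf ε (vv ε l g) (vv ε l g)).re := by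
    rw [Filter.eventually_all]
    intro l
    have hv := cdat_vv h l
    have hN : ContDiffAt ℝ ∞ (fun g => (hf ε (vv ε l g) (vv ε l g)).re) g0 :=
      Complex.reCLM.contDiff.contDiffAt.comp g0 (cdat_hf hv hv)
    exact (continuousAt_const.mul hN.continuousAt).eventually (lt_mem_nhds (h l))
  exact h1.and h2

theorem contDiffOn_uu {ε η : Fin n → ℝ} (hη : ∀ j, η j = 1 ∨ η j = -1) :
    ContDiffOn ℝ ∞ (uu ε) (Ue ε η) := by
  intro g hg
  exact (cdat_uu hg.2).contDiffWithinAt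

theorem contDiffOn_bx {ε η : Fin n → ℝ} (hη : ∀ j, η j = 1 ∨ η j = -1) :
    ContDiffOn ℝ ∞ (bx ε) (Ue ε η) := by
  intro g hg
  exact cd_mul contDiffWithinAt_id
    (cd_inv (cdat_uu hg.2).contDiffWithinAt ((uu_frm hη hg).det_ne_zero hη))

theorem contDiffOn_hx {ε η : Fin n → ℝ} (hη : ∀ j, η j = 1 ∨ η j = -1) (g0 : Mat n) :
    ContDiffOn ℝ ∞ (hx ε g0) (Ue ε η) := by
  intro g hg
  exact cd_mul contDiffWithinAt_const (cdat_uu hg.2).contDiffWithinAt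

end Pool.Agent.Work.MP_dd0ddf_al.AR.O
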