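import Pool.Agent.Work.MP_dd0ddf_al.AR.OGsB

/-!
# O-block, module OSecU (S): uniqueness of the decomposition

PROOF. `b_kk` is a positive real, so by `vv_mul` `vv k (bW) = b_kk W_k`, `N_k = hf (vv k) (vv k) = b_kk^2 η_k`, `η_k N_k = b_kk^2 > 0`; `det (bW) = det b det W ≠ 0` (`Matrix.det_of_upperTriangular`, `Frm.det_ne_zero`).
`sqrt |N_k| = b_kk`, so `uu (bW) = W`, and `bx (bW) = b W W⁻¹ = b`.
-/

set_option linter.unusedSectionVars false

namespace Pool.Agent.Work.MP_dd0ddf_al.AR.O

open scoped SchwartzMap Matrix.Norms.Elementwise ComplexConjugate ContDiff Topology LineDeriv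
open Matrix MeasureTheory Filter

variable {n : ℕ}

private theorem Upos_ne {b : Mat n} (hb : b ∈ Upos n) (i : Fin n) : b i i ≠ 0 := by
  intro h
  have h1 := (hb.2 i).1
  rw [h, Complex.zero_re] at h1
  exact lt_irrefl _ h1

theorem Upos_det {b : Mat n} (hb : b ∈ Upos n) : b.det ≠ 0 := by
  have h1 : b.BlockTriangular id := fun i j hij => hb.1 i j hij
  rw [Matrix.det_of_upperTriangular h1]
  exact Finset.prod_ne_zero_iff.2 fun i _ => Upos_ne hb i

theorem sec_unique {ε η : Fin n → ℝ} (hη : ∀ j, η j = 1 ∨ η j = -1) {b W : Mat n}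
    (hb : b ∈ Upos n) (hW : Frm ε η W) :
    b * W ∈ Ue ε η ∧ uu ε (b * W) = W ∧ bx ε (b * W) = b := by
  have hv : ∀ k, vv ε k (b * W) = b k k • W k := fun k =>
    vv_mul hη hb.1 (Upos_ne hb) hW k
  have hr : ∀ k, b k k = ((b k k).re : ℂ) := by
    intro k
    apply Complex.ext
    · rw [Complex.ofReal_re]
    · rw [Complex.ofReal_im]
      exact (hb.2 k).2
  have hN : ∀ k, (hf ε (vv ε k (b * W)) (vv ε k (b * W))).re = (b k k).re ^ 2 * η k := by
    intro k
    rw [hv k, hf_smul_left, hf_smul_right, hW k k, if_pos rfl, hr k, Complex.conj_ofReal,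
      ← Complex.ofReal_mul, ← Complex.ofReal_mul, Complex.ofReal_re, Complex.ofReal_re]
    ring
  have he : ∀ k, η k * η k = 1 := by
    intro k
    rcases hη k with h | h
    · rw [h]
      norm_num
    · rw [h]
      norm_num
  have ha : ∀ k, |η k| = 1 := by
    intro k
    rcases hη k with h | h
    · rw [h]
      norm_num
    · rw [h]
      norm_num
  have hu : uu ε (b * W) = W := by
    unfold uu
    ext k j
    rw [Matrix.of_apply, hN k, abs_mul, ha k, mul_one, abs_of_nonneg (sq_nonneg _),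
      Real.sqrt_sq (hb.2 k).1.le, hv k, ← hr k, smul_smul, inv_mul_cancel₀ (Upos_ne hb k),
      one_smul]
  refine ⟨⟨?_, ?_⟩, hu, ?_⟩
  · rw [Matrix.det_mul]
    exact mul_ne_zero (Upos_det hb) (hW.det_ne_zero hη)
  · intro l
    rw [hN l]
    have h1 : η l * ((b l l).re ^ 2 * η l) = (b l l).re ^ 2 := by
      calc η l * ((b l l).re ^ 2 * η l) = (η l * η l) * (b l l).re ^ 2 := by ring
        _ = (b l l).re ^ 2 := by rw [he l, one_mul]
    rw [h1]
    have h2 := (hb.2 l).1
    positivity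
  · unfold bx
    rw [hu]
    exact Matrix.mul_nonsing_inv_cancel_right _ _ (isUnit_iff_ne_zero.2 (hW.det_ne_zero hη))

end Pool.Agent.Work.MP_dd0ddf_al.AR.O
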