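import Pool.Agent.Work.MP_dd0ddf_al.AR.OSecA
import Pool.Agent.Work.MP_dd0ddf_al.AR.OSecU
import Pool.Agent.Work.MP_dd0ddf_al.AR.OSecB

/-!
# O-block, module OEqv (M): groups and equivariance

PROOF. `Upos n`: `mul`: diagonal entries of a product of upper triangular matrices multiply; `inv`: `Matrix.BlockTriangular.inv` or `blockTriangular_inv_of_blockTriangular`, and `b_ii (b⁻¹)_ii = (b b⁻¹)_ii = 1`.
`RU ε`: if `x ᵥ* h = 0` then `hf x y = hf (xh) (yh) = 0` for all `y`, so `x = 0` (`ε_j ≠ 0`, `y = Pi.single j 1`); so `det h ≠ 0`; `mul` and `inv` are immediate (`(x h⁻¹) h = x`).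
`eqv`: `b g h = (b bx g) (uu g h)`, `b bx g ∈ Upos` (`bx_mem`), `uu g h` is a frame (`uu_frm`, `Frm.mul`): `sec_unique`. `eqv_hx` follows (`hx g0 x = g0⁻¹ uu x`). `eqv_iff`: use `b⁻¹`, `h⁻¹` for the converse.
`frm_mem`: `sec_unique` with `b = 1`. `dec`: `bx x g0 g0⁻¹ uu x = bx x uu x = x`; `hx ∈ RU`: `Frm.inv_mul`. `dec_det`: all four matrices are invertible.
`io ε g0 z = (bx z)⁻¹ g0 (hx z)⁻¹` is in `Ue` (`frm_mem`, `eqv`), `bx (io z) = (bx z)⁻¹`, `hx (io z) = (hx z)⁻¹`, so `io (io z) = bx z g0 hx z = z` (inverses of inverses); `io g0 = g0`.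
-/

set_option linter.unusedSectionVars false

namespace Pool.Agent.Work.MP_dd0ddf_al.AR.O

open scoped SchwartzMap Matrix.Norms.Elementwise ComplexConjugate ContDiff Topology LineDeriv
open Matrix MeasureTheory Filter

variable {n : ℕ}

theorem Upos_one : (1 : Mat n) ∈ Upos n :=
  ⟨fun _ _ h => Matrix.one_apply_ne h.ne', fun i => by simp⟩

private theorem diag_mul {b b' : Mat n} (hb : ∀ i j, j < i → b i j = 0)
    (hb' : ∀ i j, j < i → b' i j = 0) (i : Fin n) : (b * b') i i = b i i * b' i i := by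
  rw [Matrix.mul_apply, Finset.sum_eq_single i]
  · intro k _ hk
    rcases lt_or_gt_of_ne hk with h | h
    · rw [hb i k h, zero_mul]
    · rw [hb' k i h, mul_zero]
  · intro h; exact absurd (Finset.mem_univ _) h

theorem Upos_mul {b b' : Mat n} (hb : b ∈ Upos n) (hb' : b' ∈ Upos n) : b * b' ∈ Upos n := by
  refine ⟨fun i j hij => ?_, fun i => ?_⟩
  · rw [Matrix.mul_apply]
    refine Finset.sum_eq_zero fun k _ => ?_
    rcases lt_or_ge k i with h | h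
    · rw [hb.1 i k h, zero_mul]
    · rw [hb'.1 k j (lt_of_lt_of_le hij h), mul_zero]
  · rw [diag_mul hb.1 hb'.1, Complex.mul_re, Complex.mul_im, (hb.2 i).2, (hb'.2 i).2]
    have := mul_pos (hb.2 i).1 (hb'.2 i).1
    constructor <;> simp [this]

theorem Upos_inv {b : Mat n} (hb : b ∈ Upos n) : b⁻¹ ∈ Upos n := by
  have hdet : IsUnit b.det := isUnit_iff_ne_zero.2 (Upos_det hb)
  haveI : Invertible b := Matrix.invertibleOfIsUnitDet b hdet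
  have htri : b.BlockTriangular id := fun i j h => hb.1 i j h
  have htri' : b⁻¹.BlockTriangular id := Matrix.blockTriangular_inv_of_blockTriangular htri
  have h0 : ∀ i j, j < i → b⁻¹ i j = 0 := fun i j h => htri' h
  refine ⟨h0, fun i => ?_⟩
  have h1 : b⁻¹ i i * b i i = 1 := by
    rw [← diag_mul h0 hb.1, Matrix.nonsing_inv_mul b hdet, Matrix.one_apply_eq]
  have h2 : b i i = (((b i i).re : ℝ) : ℂ) := Complex.ext rfl (hb.2 i).2
  have hr := (hb.2 i).1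
  have h3 : b⁻¹ i i = (((b i i).re⁻¹ : ℝ) : ℂ) := by
    rw [h2] at h1
    rw [Complex.ofReal_inv]
    exact eq_inv_of_mul_eq_one_left h1
  rw [h3]
  exact ⟨by rw [Complex.ofReal_re]; exact inv_pos.2 hr, Complex.ofReal_im _⟩

theorem RU_det {ε : Fin n → ℝ} (hep : ∀ j, ε j = 1 ∨ ε j = -1) {h : Mat n} (hh : h ∈ RU ε) :
    h.det ≠ 0 := by
  intro h0
  obtain ⟨v, hv, hv0⟩ := Matrix.exists_vecMul_eq_zero_iff.mpr h0
  apply hv
  funext j
  have h1 := hh v (Pi.single j 1)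
  rw [hv0] at h1
  have h2 : hf ε 0 (Pi.single j 1 ᵥ* h) = 0 := by simp [hf]
  have h3 : hf ε v (Pi.single j 1) = ε j * v j := by
    unfold hf
    rw [Finset.sum_eq_single j]
    · simp
    · intro k _ hk
      simp [Pi.single_eq_of_ne hk]
    · intro h; exact absurd (Finset.mem_univ _) h
  rw [h2, h3] at h1
  rcases mul_eq_zero.1 h1.symm with h4 | h4
  · exfalso
    rcases hep j with h | h <;> simp [h] at h4
  · exact h4

theorem RU_mul {ε : Fin n → ℝ} {h h' : Mat n} (hh : h ∈ RU ε) (hh' : h' ∈ RU ε) :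
    h * h' ∈ RU ε := by
  intro x y
  rw [← Matrix.vecMul_vecMul, ← Matrix.vecMul_vecMul, hh', hh]

theorem RU_inv {ε : Fin n → ℝ} (hep : ∀ j, ε j = 1 ∨ ε j = -1) {h : Mat n} (hh : h ∈ RU ε) :
    h⁻¹ ∈ RU ε := by
  intro x y
  have hd : IsUnit h.det := isUnit_iff_ne_zero.2 (RU_det hep hh)
  rw [← hh (x ᵥ* h⁻¹) (y ᵥ* h⁻¹), Matrix.vecMul_vecMul, Matrix.vecMul_vecMul,
    Matrix.nonsing_inv_mul h hd, Matrix.vecMul_one, Matrix.vecMul_one]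

theorem eqv {ε η : Fin n → ℝ} (hη : ∀ j, η j = 1 ∨ η j = -1) {b g h : Mat n} (hb : b ∈ Upos n)
    (hg : g ∈ Ue ε η) (hh : h ∈ RU ε) :
    b * g * h ∈ Ue ε η ∧ uu ε (b * g * h) = uu ε g * h ∧ bx ε (b * g * h) = b * bx ε g := by
  have e : b * g * h = (b * bx ε g) * (uu ε g * h) := by
    conv_lhs => rw [← bx_mul_uu hη hg]
    simp only [Matrix.mul_assoc]
  have h1 := sec_unique hη (Upos_mul hb (bx_mem hη hg)) ((uu_frm hη hg).mul hh)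
  rw [← e] at h1
  exact h1

theorem eqv_hx {ε η : Fin n → ℝ} (hη : ∀ j, η j = 1 ∨ η j = -1) (g0 : Mat n) {b g h : Mat n}
    (hb : b ∈ Upos n) (hg : g ∈ Ue ε η) (hh : h ∈ RU ε) :
    hx ε g0 (b * g * h) = hx ε g0 g * h := by
  unfold hx
  rw [(eqv hη hb hg hh).2.1, Matrix.mul_assoc]

theorem eqv_iff {ε η : Fin n → ℝ} (hep : ∀ j, ε j = 1 ∨ ε j = -1)
    (hη : ∀ j, η j = 1 ∨ η j = -1) {b g h : Mat n} (hb : b ∈ Upos n) (hh : h ∈ RU ε) :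
    b * g * h ∈ Ue ε η ↔ g ∈ Ue ε η := by
  refine ⟨fun hm => ?_, fun hg => (eqv hη hb hg hh).1⟩
  have h1 := (eqv hη (Upos_inv hb) hm (RU_inv hep hh)).1
  have e : b⁻¹ * (b * g * h) * h⁻¹ = g := by
    have hd : IsUnit h.det := isUnit_iff_ne_zero.2 (RU_det hep hh)
    have hd' : IsUnit b.det := isUnit_iff_ne_zero.2 (Upos_det hb)
    rw [Matrix.mul_assoc b g h, ← Matrix.mul_assoc b⁻¹ b, Matrix.nonsing_inv_mul b hd',
      Matrix.one_mul, Matrix.mul_assoc, Matrix.mul_nonsing_inv h hd, Matrix.mul_one]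
  rwa [e] at h1

theorem frm_mem {ε η : Fin n → ℝ} (hη : ∀ j, η j = 1 ∨ η j = -1) {g0 : Mat n}
    (hg0 : Frm ε η g0) : g0 ∈ Ue ε η ∧ bx ε g0 = 1 ∧ hx ε g0 g0 = 1 := by
  have h1 := sec_unique hη Upos_one hg0
  rw [Matrix.one_mul] at h1
  refine ⟨h1.1, h1.2.2, ?_⟩
  unfold hx
  rw [h1.2.1]
  exact Matrix.nonsing_inv_mul g0 (isUnit_iff_ne_zero.2 (hg0.det_ne_zero hη))

theorem dec {ε η : Fin n → ℝ} (hη : ∀ j, η j = 1 ∨ η j = -1) {g0 : Mat n} (hg0 : Frm ε η g0)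
    {x : Mat n} (hx' : x ∈ Ue ε η) :
    bx ε x * g0 * hx ε g0 x = x ∧ bx ε x ∈ Upos n ∧ hx ε g0 x ∈ RU ε := by
  refine ⟨?_, bx_mem hη hx', Frm.inv_mul hη hg0 (uu_frm hη hx')⟩
  unfold hx
  rw [Matrix.mul_assoc, ← Matrix.mul_assoc g0,
    Matrix.mul_nonsing_inv g0 (isUnit_iff_ne_zero.2 (hg0.det_ne_zero hη)), Matrix.one_mul]
  exact bx_mul_uu hη hx'

theorem dec_det {ε η : Fin n → ℝ} (hη : ∀ j, η j = 1 ∨ η j = -1) {g0 : Mat n} (hg0 : Frm ε η g0)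
    {x : Mat n} (hx' : x ∈ Ue ε η) :
    (bx ε x).det ≠ 0 ∧ (hx ε g0 x).det ≠ 0 ∧ ((bx ε x)⁻¹).det ≠ 0 ∧ ((hx ε g0 x)⁻¹).det ≠ 0 := by
  have hinv : ∀ A : Mat n, A.det ≠ 0 → (A⁻¹).det ≠ 0 := fun A hA =>
    isUnit_iff_ne_zero.1 (Matrix.isUnit_nonsing_inv_det A (isUnit_iff_ne_zero.2 hA))
  have h1 : (bx ε x).det ≠ 0 := Upos_det (bx_mem hη hx')
  have h2 : (hx ε g0 x).det ≠ 0 := by
    unfold hx
    rw [Matrix.det_mul]
    exact mul_ne_zero (hinv _ (hg0.det_ne_zero hη)) ((uu_frm hη hx').det_ne_zero hη)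
  exact ⟨h1, h2, hinv _ h1, hinv _ h2⟩

/-- the involution `b g0 h ↦ b⁻¹ g0 h⁻¹` of `Ue ε η` -/
noncomputable def io (ε : Fin n → ℝ) (g0 z : Mat n) : Mat n := (bx ε z)⁻¹ * g0 * (hx ε g0 z)⁻¹

theorem io_mem {ε η : Fin n → ℝ} (hep : ∀ j, ε j = 1 ∨ ε j = -1)
    (hη : ∀ j, η j = 1 ∨ η j = -1) {g0 : Mat n} (hg0 : Frm ε η g0) {z : Mat n}
    (hz : z ∈ Ue ε η) : io ε g0 z ∈ Ue ε η ∧ io ε g0 (io ε g0 z) = z := by
  obtain ⟨hm, hb1, hh1⟩ := frm_mem hη hg0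
  obtain ⟨hd, hbU, hhR⟩ := dec hη hg0 hz
  obtain ⟨d1, d2, -, -⟩ := dec_det hη hg0 hz
  have hbi := Upos_inv hbU
  have hhi := RU_inv hep hhR
  have h1 := eqv hη hbi hm hhi
  have h2 := eqv_hx hη g0 hbi hm hhi
  refine ⟨h1.1, ?_⟩
  have e1 : bx ε (io ε g0 z) = (bx ε z)⁻¹ := by
    unfold io
    rw [h1.2.2, hb1, Matrix.mul_one]
  have e2 : hx ε g0 (io ε g0 z) = (hx ε g0 z)⁻¹ := by
    unfold io
    rw [h2, hh1, Matrix.one_mul]
  have e3 : io ε g0 (io ε g0 z) = (bx ε (io ε g0 z))⁻¹ * g0 * (hx ε g0 (io ε g0 z))⁻¹ := rfl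
  rw [e3, e1, e2, Matrix.nonsing_inv_nonsing_inv _ (isUnit_iff_ne_zero.2 d1),
    Matrix.nonsing_inv_nonsing_inv _ (isUnit_iff_ne_zero.2 d2)]
  exact hd

theorem io_self {ε η : Fin n → ℝ} (hη : ∀ j, η j = 1 ∨ η j = -1) {g0 : Mat n}
    (hg0 : Frm ε η g0) : io ε g0 g0 = g0 := by
  obtain ⟨-, hb1, hh1⟩ := frm_mem hη hg0
  unfold io
  rw [hb1, hh1, inv_one, Matrix.one_mul, Matrix.mul_one]

theorem io_cont {ε η : Fin n → ℝ} (hη : ∀ j, η j = 1 ∨ η j = -1) {g0 : Mat n}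
    (hg0 : Frm ε η g0) : ContinuousOn (io ε g0) (Ue ε η) := by
  intro z hz
  obtain ⟨d1, d2, -, -⟩ := dec_det hη hg0 hz
  have h1 : ContDiffWithinAt ℝ ∞ (io ε g0) (Ue ε η) z :=
    cd_mul (cd_mul (cd_inv (contDiffOn_bx hη z hz) d1) contDiffWithinAt_const)
      (cd_inv (contDiffOn_hx hη g0 z hz) d2)
  exact h1.continuousWithinAt

end Pool.Agent.Work.MP_dd0ddf_al.AR.O
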