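import Pool.Agent.Work.MP_dd0ddf_al.AR.ODefs

/-!
# O-block, module OFrm (M): frames

PROOF. `hf ε x y = ∑ ε_j x_j conj y_j` is sesquilinear and `hf ε y x = conj (hf ε x y)` (`ε` real): `hf_*`.
Let `u` be a frame. If `∑ c_k u_k = 0` then `0 = hf (∑ c_k u_k) (u l) = c_l η_l`, so the rows of `u` are linearly independent and `u.det ≠ 0`
(`Matrix.exists_vecMul_eq_zero_iff`: `c ᵥ* u = 0`). So every `w` is `c ᵥ* u` with `c = w ᵥ* u⁻¹`, and `hf w (u l) = c_l η_l`,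
`hf w w = ∑ |c_k|^2 η_k = ∑ η_k |hf w (u k)|^2` (`η_k^2 = 1`): `parseval`; if all `hf w (u k) = 0` then `c = 0` and `w = 0`: `eq_zero`.
`mul`: the rows of `u * h` are `u k ᵥ* h` (`Matrix.mul_apply_eq_vecMul`). `inv_mul`: `h = u⁻¹ * u'`; `x = c ᵥ* u`, `x ᵥ* h = c ᵥ* u'`, so
`hf (x h) (y h) = ∑ c_k conj d_l hf (u' k) (u' l) = ∑ c_k conj d_k η_k = hf x y`.
-/

set_option linter.unusedSectionVars false

namespace Pool.Agent.Work.MP_dd0ddf_al.AR.O

open scoped SchwartzMap Matrix.Norms.Elementwise ComplexConjugate ContDiff Topology LineDeriv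
open Matrix MeasureTheory Filter

variable {n : ℕ}

theorem hf_symm (ε : Fin n → ℝ) (x y : Fin n → ℂ) : hf ε y x = conj (hf ε x y) := by
  simp only [hf, map_sum, map_mul, Complex.conj_ofReal, Complex.conj_conj]
  exact Finset.sum_congr rfl fun j _ => by ring

theorem hf_add_left (ε : Fin n → ℝ) (x y z : Fin n → ℂ) : hf ε (x + y) z = hf ε x z + hf ε y z := by
  simp only [hf, Pi.add_apply, mul_add, add_mul, Finset.sum_add_distrib]

theorem hf_smul_left (ε : Fin n → ℝ) (c : ℂ) (x z : Fin n → ℂ) : hf ε (c • x) z = c * hf ε x z := by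
  simp only [hf, Pi.smul_apply, smul_eq_mul, Finset.mul_sum]
  exact Finset.sum_congr rfl fun j _ => by ring

theorem hf_add_right (ε : Fin n → ℝ) (x y z : Fin n → ℂ) : hf ε x (y + z) = hf ε x y + hf ε x z := by
  simp only [hf, Pi.add_apply, map_add, mul_add, Finset.sum_add_distrib]

theorem hf_smul_right (ε : Fin n → ℝ) (c : ℂ) (x z : Fin n → ℂ) :
    hf ε x (c • z) = conj c * hf ε x z := by
  simp only [hf, Pi.smul_apply, smul_eq_mul, map_mul, Finset.mul_sum]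
  exact Finset.sum_congr rfl fun j _ => by ring

private theorem hf_vecMul_left (ε : Fin n → ℝ) (c : Fin n → ℂ) (u : Mat n) (w : Fin n → ℂ) :
    hf ε (c ᵥ* u) w = ∑ k, c k * hf ε (u k) w := by
  simp only [hf, Matrix.vecMul, dotProduct, Finset.mul_sum, Finset.sum_mul]
  rw [Finset.sum_comm]
  exact Finset.sum_congr rfl fun k _ => Finset.sum_congr rfl fun j _ => by ring

private theorem hf_vecMul_right (ε : Fin n → ℝ) (d : Fin n → ℂ) (u : Mat n) (w : Fin n → ℂ) :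
    hf ε w (d ᵥ* u) = ∑ k, conj (d k) * hf ε w (u k) := by
  rw [hf_symm ε (d ᵥ* u) w, hf_vecMul_left, map_sum]
  refine Finset.sum_congr rfl fun k _ => ?_
  rw [map_mul, ← hf_symm]

private theorem frm_left {ε η : Fin n → ℝ} {u : Mat n} (hF : Frm ε η u) (c : Fin n → ℂ)
    (l : Fin n) : hf ε (c ᵥ* u) (u l) = c l * η l := by
  rw [hf_vecMul_left, Finset.sum_eq_single l]
  · rw [hF l l, if_pos rfl]
  · intro k _ hk
    rw [hF k l, if_neg hk, mul_zero]
  · intro h; exact absurd (Finset.mem_univ _) h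

private theorem eta_ne {η : Fin n → ℝ} (hη : ∀ j, η j = 1 ∨ η j = -1) (j : Fin n) :
    (η j : ℂ) ≠ 0 := by
  rcases hη j with h | h <;> simp [h]

theorem Frm.det_ne_zero {ε η : Fin n → ℝ} (hη : ∀ j, η j = 1 ∨ η j = -1) {u : Mat n}
    (hF : Frm ε η u) : u.det ≠ 0 := by
  intro h
  obtain ⟨v, hv, hv0⟩ := Matrix.exists_vecMul_eq_zero_iff.mpr h
  apply hv
  funext l
  have h1 := frm_left hF v l
  rw [hv0] at h1
  have h2 : hf ε 0 (u l) = 0 := by simp [hf]
  rw [h2] at h1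
  rcases mul_eq_zero.mp h1.symm with h3 | h3
  · exact h3
  · exact absurd h3 (eta_ne hη l)

private theorem exists_coord {u : Mat n} (hu : u.det ≠ 0) (w : Fin n → ℂ) :
    (w ᵥ* u⁻¹) ᵥ* u = w := by
  rw [Matrix.vecMul_vecMul, Matrix.nonsing_inv_mul u (isUnit_iff_ne_zero.mpr hu),
    Matrix.vecMul_one]

theorem Frm.parseval {ε η : Fin n → ℝ} (hη : ∀ j, η j = 1 ∨ η j = -1) {u : Mat n}
    (hF : Frm ε η u) (w : Fin n → ℂ) : (hf ε w w).re = ∑ k, η k * ‖hf ε w (u k)‖ ^ 2 := by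
  obtain ⟨c, rfl⟩ : ∃ c, w = c ᵥ* u := ⟨_, (exists_coord (hF.det_ne_zero hη) w).symm⟩
  have h1 : hf ε (c ᵥ* u) (c ᵥ* u) = ∑ k, ((η k * ‖c k‖ ^ 2 : ℝ) : ℂ) := by
    rw [hf_vecMul_right]
    refine Finset.sum_congr rfl fun k _ => ?_
    rw [frm_left hF]
    have : conj (c k) * c k = ((‖c k‖ ^ 2 : ℝ) : ℂ) := by
      rw [← Complex.normSq_eq_conj_mul_self, Complex.normSq_eq_norm_sq]
    rw [← mul_assoc, this]
    push_cast; ring
  rw [h1, ← Complex.ofReal_sum, Complex.ofReal_re]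
  refine Finset.sum_congr rfl fun k _ => ?_
  rw [frm_left hF, norm_mul, mul_pow]
  have : ‖(η k : ℂ)‖ ^ 2 = 1 := by
    rcases hη k with h | h <;> simp [h]
  rw [this, mul_one]

theorem Frm.eq_zero {ε η : Fin n → ℝ} (hη : ∀ j, η j = 1 ∨ η j = -1) {u : Mat n}
    (hF : Frm ε η u) {w : Fin n → ℂ} (h : ∀ k, hf ε w (u k) = 0) : w = 0 := by
  obtain ⟨c, rfl⟩ : ∃ c, w = c ᵥ* u := ⟨_, (exists_coord (hF.det_ne_zero hη) w).symm⟩
  have hc : c = 0 := by
    funext k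
    have h1 := h k
    rw [frm_left hF] at h1
    rcases mul_eq_zero.mp h1 with h3 | h3
    · exact h3
    · exact absurd h3 (eta_ne hη k)
  rw [hc, Matrix.zero_vecMul]

theorem Frm.mul {ε η : Fin n → ℝ} {u h : Mat n} (hF : Frm ε η u) (hh : h ∈ RU ε) :
    Frm ε η (u * h) := by
  intro k l
  rw [Matrix.mul_apply_eq_vecMul, Matrix.mul_apply_eq_vecMul]
  exact (hh (u k) (u l)).trans (hF k l)

theorem Frm.inv_mul {ε η : Fin n → ℝ} (hη : ∀ j, η j = 1 ∨ η j = -1) {u u' : Mat n}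
    (hF : Frm ε η u) (hF' : Frm ε η u') : u⁻¹ * u' ∈ RU ε := by
  intro x y
  have hx := exists_coord (hF.det_ne_zero hη) x
  have hy := exists_coord (hF.det_ne_zero hη) y
  rw [← Matrix.vecMul_vecMul, ← Matrix.vecMul_vecMul]
  conv_rhs => rw [← hx, ← hy]
  rw [hf_vecMul_right, hf_vecMul_right]
  refine Finset.sum_congr rfl fun k _ => ?_
  rw [frm_left hF, frm_left hF']

end Pool.Agent.Work.MP_dd0ddf_al.AR.O
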