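import Pool.Agent.Work.MP_dd0ddf_al.AR.OFrm

/-!
# O-block, module OGsA (S-M): the orthogonalised rows

PROOF. `prj_eq`: induction on `j`. `j = 0`: the index set is empty (`n ≤ l < n`). Step: `m = n - 1 - j < n` (as `j + 1 ≤ n`), `w = prj ε g j (g m) = vv ε m g`
(unfold `vv`, `hat`: `n - 1 - m = j`), and the index set for `j + 1` is the index set for `j` plus `m` (`n - (j+1) = m`, `m ∉`).
`vv_eq`: `prj_eq` with `j = n - 1 - m`: `n - j ≤ l ↔ m < l`.
`vv_orth`: by `hf_symm` assume `k < l`. Show by strong induction on `n - k` that `hf ε (vv ε k g) (vv ε l g) = 0` for all `l > k`: by `vv_eq` for `k` and linearity in the first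
argument (`hf_add_left`, `hf_smul_left`, sums) it is `hf (g k) (vv l) - ∑_{l' > k} (hf (g k) (vv l') / N_l') hf (vv l') (vv l)`; for `l' ≠ l` the product `hf (vv l') (vv l)` vanishes by the
induction hypothesis for `min l l'` (and `hf_symm`), for `l' = l` it is `N_l ≠ 0`.
`hf_self_im`: `hf ε x x = ∑ ε_j |x_j|^2`.
-/

set_option linter.unusedSectionVars false

namespace Pool.Agent.Work.MP_dd0ddf_al.AR.O

open scoped SchwartzMap Matrix.Norms.Elementwise ComplexConjugate ContDiff Topology LineDeriv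
open Matrix MeasureTheory Filter

variable {n : ℕ}

private theorem hf_sub_left' (ε : Fin n → ℝ) (x y z : Fin n → ℂ) :
    hf ε (x - y) z = hf ε x z - hf ε y z := by
  simp only [hf, Pi.sub_apply, mul_sub, sub_mul, Finset.sum_sub_distrib]

private theorem hf_sum_left' {ι : Type*} (ε : Fin n → ℝ) (s : Finset ι) (f : ι → Fin n → ℂ)
    (z : Fin n → ℂ) : hf ε (∑ i ∈ s, f i) z = ∑ i ∈ s, hf ε (f i) z := by
  classical
  induction s using Finset.induction_on with
  | empty => simp [hf]
  | insert a s ha ih => rw [Finset.sum_insert ha, Finset.sum_insert ha, hf_add_left, ih]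

theorem hf_self_im (ε : Fin n → ℝ) (x : Fin n → ℂ) : (hf ε x x).im = 0 := by
  have h := hf_symm ε x x
  have h1 := congrArg Complex.im h
  rw [Complex.conj_im] at h1
  linarith

theorem prj_eq (ε : Fin n → ℝ) (g : Mat n) (j : ℕ) (hj : j ≤ n) (x : Fin n → ℂ) :
    prj ε g j x = x - ∑ l ∈ Finset.univ.filter (fun l : Fin n => n - j ≤ (l : ℕ)),
      (hf ε x (vv ε l g) / hf ε (vv ε l g) (vv ε l g)) • vv ε l g := by
  classical
  induction j with
  | zero =>
    have h1 : Finset.univ.filter (fun l : Fin n => n - 0 ≤ (l : ℕ)) = ∅ := by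
      rw [Finset.filter_eq_empty_iff]
      intro l _
      have := l.2
      omega
    rw [h1, Finset.sum_empty, sub_zero]
    rfl
  | succ j ih =>
    have hm : n - 1 - j < n := by omega
    have ih' := ih (by omega)
    have hv : prj ε g j (g ⟨n - 1 - j, hm⟩) = vv ε ⟨n - 1 - j, hm⟩ g := by
      show _ = prj ε g (n - 1 - (n - 1 - j)) (g ⟨n - 1 - j, hm⟩)
      rw [show n - 1 - (n - 1 - j) = j by omega]
    have hs : Finset.univ.filter (fun l : Fin n => n - (j + 1) ≤ (l : ℕ)) =
        insert (⟨n - 1 - j, hm⟩ : Fin n) (Finset.univ.filter (fun l : Fin n => n - j ≤ (l : ℕ))) := by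
      ext l
      simp only [Finset.mem_filter, Finset.mem_univ, true_and, Finset.mem_insert, Fin.ext_iff]
      omega
    have hn : (⟨n - 1 - j, hm⟩ : Fin n) ∉
        Finset.univ.filter (fun l : Fin n => n - j ≤ (l : ℕ)) := by
      simp only [Finset.mem_filter, Finset.mem_univ, true_and]
      omega
    rw [hs, Finset.sum_insert hn, prj]
    simp only [hm, dif_pos]
    rw [hv, ih']
    abel

theorem vv_eq (ε : Fin n → ℝ) (g : Mat n) (m : Fin n) :
    vv ε m g = g m - ∑ l ∈ Finset.univ.filter (fun l : Fin n => m < l),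
      (hf ε (g m) (vv ε l g) / hf ε (vv ε l g) (vv ε l g)) • vv ε l g := by
  have h1 := prj_eq ε g (n - 1 - m) (by omega) (g m)
  have h2 : Finset.univ.filter (fun l : Fin n => n - (n - 1 - (m : ℕ)) ≤ (l : ℕ)) =
      Finset.univ.filter (fun l : Fin n => m < l) := by
    ext l
    simp only [Finset.mem_filter, Finset.mem_univ, true_and, Fin.lt_def]
    have := m.2
    omega
  rw [h2] at h1
  exact h1

private theorem vv_orth_lt {ε : Fin n → ℝ} {g : Mat n}
    (hN : ∀ l, hf ε (vv ε l g) (vv ε l g) ≠ 0) (d : ℕ) :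
    ∀ k l : Fin n, n - (k : ℕ) = d → k < l → hf ε (vv ε k g) (vv ε l g) = 0 := by
  classical
  induction d using Nat.strong_induction_on with
  | _ d ih =>
    intro k l hd hkl
    have key : ∀ a b : Fin n, k < a → k < b → a ≠ b → hf ε (vv ε a g) (vv ε b g) = 0 := by
      intro a b ha hb hab
      rcases lt_or_gt_of_ne hab with h | h
      · refine ih (n - (a : ℕ)) ?_ a b rfl h
        rw [Fin.lt_def] at ha
        have := a.2
        omega
      · rw [hf_symm, ih (n - (b : ℕ)) ?_ b a rfl h, map_zero]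
        rw [Fin.lt_def] at hb
        have := b.2
        omega
    conv_lhs => rw [vv_eq ε g k]
    rw [hf_sub_left', hf_sum_left', Finset.sum_eq_single l]
    · rw [hf_smul_left, div_mul_cancel₀ _ (hN l), sub_self]
    · intro b hb hbl
      rw [hf_smul_left, key b l (Finset.mem_filter.1 hb).2 hkl hbl, mul_zero]
    · intro h
      exact absurd (Finset.mem_filter.2 ⟨Finset.mem_univ _, hkl⟩) h

theorem vv_orth {ε : Fin n → ℝ} {g : Mat n} (hN : ∀ l, hf ε (vv ε l g) (vv ε l g) ≠ 0)
    {k l : Fin n} (hkl : k ≠ l) : hf ε (vv ε k g) (vv ε l g) = 0 := by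
  rcases lt_or_gt_of_ne hkl with h | h
  · exact vv_orth_lt hN _ k l rfl h
  · rw [hf_symm, vv_orth_lt hN _ l k rfl h, map_zero]

end Pool.Agent.Work.MP_dd0ddf_al.AR.O
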