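import Pool.Agent.Work.MP_dd0ddf_al.AR.OGsA

/-!
# O-block, module OGsB (S-M): orthogonalised rows of `b W`, `W` a frame, `b` upper triangular

PROOF. Strong induction on `n - k`: suppose `vv l (bW) = b_ll W_l` for all `l > k`. By `vv_eq`: `vv k (bW) = (bW)_k - ∑_{l > k} (hf (bW)_k (b_ll W_l) / hf (b_ll W_l) (b_ll W_l)) b_ll W_l`, and
`(bW)_k = ∑_{m ≥ k} b_km W_m` (`b` upper triangular), so `hf (bW)_k (b_ll W_l) = b_kl η_l conj b_ll`, `hf (b_ll W_l) (b_ll W_l) = |b_ll|^2 η_l ≠ 0`; the quotient is `b_kl / b_ll` and the sum is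
`∑_{l > k} b_kl W_l`. So `vv k (bW) = b_kk W_k`.
-/

set_option linter.unusedSectionVars false

namespace Pool.Agent.Work.MP_dd0ddf_al.AR.O

open scoped SchwartzMap Matrix.Norms.Elementwise ComplexConjugate ContDiff Topology LineDeriv
open Matrix MeasureTheory Filter

variable {n : ℕ}

private theorem row_mul_aux {b W : Mat n} (hb : ∀ i j, j < i → b i j = 0) (k : Fin n) :
    (b * W) k = b k k • W k + ∑ l ∈ Finset.univ.filter (fun l : Fin n => k < l), b k l • W l := by
  classical
  have h1 : (b * W) k = ∑ l, b k l • W l := by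
    rw [Matrix.mul_apply_eq_vecMul, Matrix.vecMul_eq_sum]
  rw [h1, ← Finset.sum_filter_add_sum_filter_not Finset.univ (fun l : Fin n => k < l), add_comm]
  congr 1
  rw [Finset.sum_eq_single k]
  · intro l hl hlk
    have h2 : ¬ k < l := (Finset.mem_filter.mp hl).2
    rw [hb k l (lt_of_le_of_ne (not_lt.mp h2) hlk), zero_smul]
  · intro h
    exact absurd (Finset.mem_filter.mpr ⟨Finset.mem_univ k, lt_irrefl k⟩) h

private theorem hf_sum_left_aux {ι : Type*} (ε : Fin n → ℝ) (s : Finset ι) (x : ι → Fin n → ℂ)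
    (z : Fin n → ℂ) : hf ε (∑ l ∈ s, x l) z = ∑ l ∈ s, hf ε (x l) z := by
  classical
  induction s using Finset.induction_on with
  | empty => simp [hf]
  | insert a s ha ih => rw [Finset.sum_insert ha, Finset.sum_insert ha, hf_add_left, ih]

theorem vv_mul {ε η : Fin n → ℝ} (hη : ∀ j, η j = 1 ∨ η j = -1) {b W : Mat n}
    (hb : ∀ i j, j < i → b i j = 0) (hb' : ∀ i, b i i ≠ 0) (hW : Frm ε η W) (k : Fin n) :
    vv ε k (b * W) = b k k • W k := by
  classical
  have main : ∀ d : ℕ, ∀ k : Fin n, n - (k : ℕ) = d → vv ε k (b * W) = b k k • W k := by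
    intro d
    induction d using Nat.strong_induction_on with
    | _ d ih =>
      intro k hk
      have ih' : ∀ l : Fin n, k < l → vv ε l (b * W) = b l l • W l := by
        intro l hl
        refine ih (n - (l : ℕ)) ?_ l rfl
        have h1 : (k : ℕ) < (l : ℕ) := hl
        have h2 := l.isLt
        omega
      rw [vv_eq, row_mul_aux hb k, add_sub_assoc]
      convert add_zero _ using 2
      rw [sub_eq_zero]
      refine Finset.sum_congr rfl fun l hl => ?_
      have hkl : k < l := (Finset.mem_filter.mp hl).2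
      have hηl : (η l : ℂ) ≠ 0 := by
        rcases hη l with h | h <;> simp [h]
      have hcl : conj (b l l) ≠ 0 := (map_ne_zero _).mpr (hb' l)
      have h1 : hf ε (b k k • W k + ∑ l ∈ Finset.univ.filter (fun l : Fin n => k < l), b k l • W l)
          (W l) = b k l * η l := by
        rw [hf_add_left, hf_smul_left, hW k l, if_neg hkl.ne, mul_zero, zero_add,
          hf_sum_left_aux, Finset.sum_eq_single l]
        · rw [hf_smul_left, hW l l, if_pos rfl]
        · intro m _ hm
          rw [hf_smul_left, hW m l, if_neg hm, mul_zero]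
        · intro h
          exact absurd hl h
      rw [ih' l hkl, hf_smul_right, h1, hf_smul_right, hf_smul_left, hW l l, if_pos rfl, smul_smul]
      congr 1
      have hbl := hb' l
      field_simp
  exact main _ k rfl

end Pool.Agent.Work.MP_dd0ddf_al.AR.O
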