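import Pool.Agent.Work.MP_dd0ddf_al.AR.OPdB
import Pool.Agent.Work.MP_dd0ddf_al.AR.OFin

/-!
# O-block, module OInA (S): distributions and parameters, continuity

PROOF. `mem_slice`: `Φ(x, ·) ∈ TGK K`. `mem_int`: `param_int`; for `g ∉ K` the integrand vanishes. `fin_cont`: at `x0`, with `C`, `M` from `FinOrd` for `K`: `ℓ(Φ(x, ·)) - ℓ(Φ(x0, ·)) = ℓ(Φ(x, ·) - Φ(x0, ·))`, and `Φ(x, ·) - Φ(x0, ·) ∈ TGK K` has all derivatives of order
`≤ M` bounded by `e` for `x` near `x0` (`slice_unif`, `iteratedFDeriv_sub_apply`), so the difference is `≤ |C| e`. `fin_supp`: if `x ∉ Prod.fst '' tsupport Φ` (compact) then `Φ(x, ·) = 0`.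
-/

set_option linter.unusedSectionVars false

namespace Pool.Agent.Work.MP_dd0ddf_al.AR.O

open scoped SchwartzMap Matrix.Norms.Elementwise ComplexConjugate ContDiff Topology LineDeriv
open Matrix MeasureTheory Filter

variable {n : ℕ}

theorem mem_slice {E : Type} [NormedAddCommGroup E] [NormedSpace ℝ E] {K : Set (Mat n)}
    {Φ : E × Mat n → ℂ} (hΦ : ContDiff ℝ ∞ Φ) {x : E} (h0 : ∀ g, g ∉ K → Φ (x, g) = 0) :
    (fun g => Φ (x, g)) ∈ TGK K := by
  exact ⟨hΦ.comp (contDiff_const.prodMk contDiff_id), h0⟩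

theorem mem_int (μ : Measure (Mat n)) [μ.IsAddHaarMeasure] {K : Set (Mat n)}
    {Φ : Mat n × Mat n → ℂ} (hΦ : ContDiff ℝ ∞ Φ) (hc : HasCompactSupport Φ)
    (h0 : ∀ x g, g ∉ K → Φ (x, g) = 0) : (fun g => ∫ x, Φ (x, g) ∂μ) ∈ TGK K := by
  refine ⟨(param_int μ hΦ hc).1, fun g hg => ?_⟩
  have h1 : (fun x => Φ (x, g)) = fun _ => 0 := funext fun x => h0 x g hg
  change ∫ x, Φ (x, g) ∂μ = 0
  rw [h1, integral_zero]

theorem fin_cont {E : Type} [NormedAddCommGroup E] [NormedSpace ℝ E] {Ω : Set (Mat n)}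
    {ℓ : (Mat n → ℂ) →ₗ[ℂ] ℂ} (hℓ : FinOrd Ω ℓ) {K : Set (Mat n)} (hK : IsCompact K) (hKΩ : K ⊆ Ω)
    {Φ : E × Mat n → ℂ} (hΦ : ContDiff ℝ ∞ Φ) (hc : HasCompactSupport Φ)
    (h0 : ∀ x g, g ∉ K → Φ (x, g) = 0) : Continuous fun x => ℓ (fun g => Φ (x, g)) := by
  rw [continuous_iff_continuousAt]
  intro x0
  rw [ContinuousAt, Metric.tendsto_nhds]
  intro e he
  obtain ⟨C, M, hC⟩ := hℓ K hK hKΩ
  have he' : 0 < e / (|C| + 1) := by positivity
  filter_upwards [slice_unif hΦ hc M x0 he'] with x hx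
  have h1 : (fun g => Φ (x, g)) - (fun g => Φ (x0, g)) ∈ TGK K :=
    (TGK K).sub_mem (mem_slice hΦ (h0 x)) (mem_slice hΦ (h0 x0))
  have hs : ∀ x : E, ContDiff ℝ ∞ (fun g => Φ (x, g)) := fun x =>
    hΦ.comp (contDiff_const.prodMk contDiff_id)
  have h2 := hC _ h1 (e / (|C| + 1)) (by
    intro m hm g
    have h3 : ∀ x : E, ContDiffAt ℝ m (fun g => Φ (x, g)) g := fun x =>
      ((hs x).of_le (by exact_mod_cast le_top)).contDiffAt
    rw [iteratedFDeriv_sub_apply (h3 x) (h3 x0)]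
    exact hx m hm g)
  rw [dist_eq_norm, ← map_sub]
  refine h2.trans_lt ?_
  calc C * (e / (|C| + 1)) ≤ |C| * (e / (|C| + 1)) :=
        mul_le_mul_of_nonneg_right (le_abs_self C) he'.le
    _ < (|C| + 1) * (e / (|C| + 1)) := by
        apply mul_lt_mul_of_pos_right _ he'
        linarith
    _ = e := by
        field_simp

theorem fin_supp {E : Type} [NormedAddCommGroup E] [NormedSpace ℝ E] (ℓ : (Mat n → ℂ) →ₗ[ℂ] ℂ)
    {Φ : E × Mat n → ℂ} (hc : HasCompactSupport Φ) :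
    HasCompactSupport fun x => ℓ (fun g => Φ (x, g)) := by
  refine HasCompactSupport.intro (hc.isCompact.image continuous_fst) fun x hx => ?_
  have h1 : (fun g => Φ (x, g)) = 0 := by
    funext g
    apply image_eq_zero_of_notMem_tsupport
    intro h
    exact hx ⟨(x, g), h, rfl⟩
  rw [h1, map_zero]

end Pool.Agent.Work.MP_dd0ddf_al.AR.O
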