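import Pool.Agent.Work.MP_dd0ddf_al.AR.OFrm

/-!
# O-block, module OInv (S-M): the matrix `cmat` is invertible

PROOF. Suppose `cmat *ᵥ w = 0` (`Matrix.exists_mulVec_eq_zero_iff`), show `w = 0`. For `k` with `a η_k > 0`: `hf ε w (u k) = ∑ ε_j w_j conj u_kj = 0`.
For `k` with `a η_k < 0` (`a η_k ≠ 0` always): `∑ ε_j u_kj w_j = 0`, that is `hf ε (u k) (conj w) = 0`, so `hf ε (conj w) (u k) = 0` (`hf_symm`).
By `parseval`: `a hf w w = ∑ a η_k |hf w (u k)|^2 ≤ 0` (only the `k` with `a η_k < 0` contribute) and `a hf (conj w) (conj w) ≥ 0`; but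
`hf (conj w) (conj w) = hf w w = ∑ ε_j |w_j|^2`. So both are zero, hence all terms `a η_k |hf w (u k)|^2`, `a η_k < 0`, vanish, so `hf w (u k) = 0` for all
`k` and `w = 0` (`Frm.eq_zero`).
-/

set_option linter.unusedSectionVars false

namespace Pool.Agent.Work.MP_dd0ddf_al.AR.O

open scoped SchwartzMap Matrix.Norms.Elementwise ComplexConjugate ContDiff Topology LineDeriv
open Matrix MeasureTheory Filter

variable {n : ℕ}

theorem cmat_det {ε η : Fin n → ℝ} {a : ℝ} (ha : a ≠ 0) (hη : ∀ j, η j = 1 ∨ η j = -1) {u : Mat n}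
    (hF : Frm ε η u) : (cmat ε a η u).det ≠ 0 := by
  intro hdet
  obtain ⟨w, hw, hw0⟩ := Matrix.exists_mulVec_eq_zero_iff.mpr hdet
  apply hw
  have hrow : ∀ k, ∑ j, cmat ε a η u k j * w j = 0 := fun k => congrFun hw0 k
  have hpos : ∀ k, 0 < a * η k → hf ε w (u k) = 0 := by
    intro k hk
    rw [← hrow k]
    refine Finset.sum_congr rfl fun j _ => ?_
    simp only [cmat, Matrix.of_apply, if_pos hk]
    ring
  have hneg : ∀ k, ¬ 0 < a * η k → hf ε (fun j => conj (w j)) (u k) = 0 := by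
    intro k hk
    rw [hf_symm ε (u k) (fun j => conj (w j))]
    have h1 : hf ε (u k) (fun j => conj (w j)) = 0 := by
      rw [← hrow k]
      refine Finset.sum_congr rfl fun j _ => ?_
      simp only [cmat, Matrix.of_apply, if_neg hk, Complex.conj_conj]
    rw [h1, map_zero]
  have hne : ∀ k, a * η k ≠ 0 := by
    intro k
    rcases hη k with h | h <;> rw [h] <;> simpa using ha
  have hww : hf ε (fun j => conj (w j)) (fun j => conj (w j)) = hf ε w w := by
    refine Finset.sum_congr rfl fun j _ => ?_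
    rw [Complex.conj_conj]
    ring
  have hP1 := hF.parseval hη w
  have hP2 := hF.parseval hη (fun j => conj (w j))
  rw [hww] at hP2
  have hle : ∀ k, a * (η k * ‖hf ε w (u k)‖ ^ 2) ≤ 0 := by
    intro k
    by_cases hk : 0 < a * η k
    · rw [hpos k hk]
      simp
    · rw [← mul_assoc]
      exact mul_nonpos_of_nonpos_of_nonneg (not_lt.mp hk) (sq_nonneg _)
  have hge : 0 ≤ a * (hf ε w w).re := by
    rw [hP2, Finset.mul_sum]
    refine Finset.sum_nonneg fun k _ => ?_
    by_cases hk : 0 < a * η k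
    · rw [← mul_assoc]
      exact mul_nonneg hk.le (sq_nonneg _)
    · rw [hneg k hk]
      simp
  rw [hP1, Finset.mul_sum] at hge
  have hsum : ∑ k, a * (η k * ‖hf ε w (u k)‖ ^ 2) = 0 :=
    le_antisymm (Finset.sum_nonpos fun k _ => hle k) hge
  refine hF.eq_zero hη fun k => ?_
  by_cases hk : 0 < a * η k
  · exact hpos k hk
  · have h1 := (Finset.sum_eq_zero_iff_of_nonpos fun k _ => hle k).mp hsum k (Finset.mem_univ k)
    rw [← mul_assoc] at h1
    rcases mul_eq_zero.mp h1 with h2 | h2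
    · exact absurd h2 (hne k)
    · exact norm_eq_zero.mp (pow_eq_zero_iff (two_ne_zero) |>.mp h2)

end Pool.Agent.Work.MP_dd0ddf_al.AR.O
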