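import Pool.Agent.Work.MP_dd0ddf_al.AR.ODefs

/-!
# O-block, module OIp (M): the `L²` product, `AA` and `-BB` are adjoint

PROOF. `ip y z = ∫ conj (y t) z t`. `conj ∘ y` is a Schwartz function (`SchwartzMap.bilinLeftCLM` or the postcomposition with
`Complex.conjCLE`, `SchwartzMap.postcompCLM`); products of Schwartz functions are integrable. `AA_apply`, `BB_apply` give the values.
`ip_AA`: `∫ conj y ∑ ε_j u_j/2 (∂_j z - 2 a ε_j t_j z) = ∑ ε_j u_j/2 ∫ (- ∂_j conj y - 2 a ε_j t_j conj y) z`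
`= - ∫ conj (∑ ε_j conj u_j/2 (∂_j y + 2 a ε_j t_j y)) z = - ip (BB u y) z`; integration by parts: `SchwartzMap.integral_mul_lineDerivOp_right_eq_neg_left`
(for `f, g : 𝓢(D, 𝕜)`). `ip_BB` is the same computation. `ip_self`: `ip y y = ∫ ‖y t‖^2`, a real number, positive if `y ≠ 0` (continuous nonnegative
integrand, `Continuous.integral_pos_of_hasCompactSupport_nonneg_nonzero` does not apply; use `integral_pos_iff_support_of_nonneg` and the fact that the
support of a continuous function is open, `IsOpen.measure_pos`).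
-/

set_option linter.unusedSectionVars false

namespace Pool.Agent.Work.MP_dd0ddf_al.AR.O

open scoped SchwartzMap Matrix.Norms.Elementwise ComplexConjugate ContDiff Topology LineDeriv
open Matrix MeasureTheory Filter

variable {n : ℕ}

/-- the sesquilinear product of complex numbers as a real bilinear map -/
private noncomputable def Lc : ℂ →L[ℝ] ℂ →L[ℝ] ℂ :=
  (ContinuousLinearMap.mul ℝ ℂ).comp (Complex.conjCLE : ℂ →L[ℝ] ℂ)

private theorem Lc_apply (x y : ℂ) : Lc x y = conj x * y := rfl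

private theorem ip_int (y z : Sch n) : Integrable (fun t : Fin n → ℝ => conj (y t) * z t) :=
  (SchwartzMap.pairing Lc y z).integrable

/-- linearity in the second variable -/
private noncomputable def ipl (y : Sch n) : Sch n →ₗ[ℂ] ℂ where
  toFun z := ip y z
  map_add' z w := by
    unfold ip
    rw [← integral_add (ip_int y z) (ip_int y w)]
    refine integral_congr_ae (Filter.Eventually.of_forall fun t => ?_)
    change conj (y t) * (z t + w t) = conj (y t) * z t + conj (y t) * w t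
    ring
  map_smul' c z := by
    unfold ip
    rw [RingHom.id_apply, smul_eq_mul, ← integral_const_mul]
    refine integral_congr_ae (Filter.Eventually.of_forall fun t => ?_)
    change conj (y t) * (c • z t) = c * (conj (y t) * z t)
    rw [smul_eq_mul]
    ring

private theorem ipl_apply (y z : Sch n) : ipl y z = ip y z := rfl

private theorem ip_symm (y z : Sch n) : ip y z = conj (ip z y) := by
  unfold ip
  rw [← integral_conj]
  refine integral_congr_ae (Filter.Eventually.of_forall fun t => ?_)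
  change conj (y t) * z t = conj (conj (z t) * y t)
  rw [map_mul, Complex.conj_conj, mul_comm]

private theorem ip_td (j : Fin n) (y z : Sch n) : ip y (td j z) = -ip (td j y) z := by
  have h := SchwartzMap.integral_bilinear_lineDerivOp_right_eq_neg_left (μ := volume) y z Lc
    (Pi.single j (1 : ℝ) : Fin n → ℝ)
  exact h

private theorem ip_tm (j : Fin n) (y z : Sch n) : ip y (tm j z) = ip (tm j y) z := by
  unfold ip
  refine integral_congr_ae (Filter.Eventually.of_forall fun t => ?_)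
  change conj (y t) * (tm j z t) = conj (tm j y t) * z t
  rw [tm_apply, tm_apply, map_mul, Complex.conj_ofReal]
  ring

private theorem AA_eq (ε : Fin n → ℝ) (a : ℝ) (u : Fin n → ℂ) (z : Sch n) :
    AA ε a u z = ∑ j, ((ε j : ℂ) * u j * (1 / 2)) • (td j z - (2 * a * ε j : ℂ) • tm j z) := by
  unfold AA
  simp only [_root_.sum_apply, _root_.smul_apply, _root_.sub_apply]

private theorem BB_eq (ε : Fin n → ℝ) (a : ℝ) (u : Fin n → ℂ) (z : Sch n) :
    BB ε a u z =
      ∑ j, ((ε j : ℂ) * conj (u j) * (1 / 2)) • (td j z + (2 * a * ε j : ℂ) • tm j z) := by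
  unfold BB
  simp only [_root_.sum_apply, _root_.smul_apply, _root_.add_apply]

private theorem ip_AA' (ε : Fin n → ℝ) (a : ℝ) (u : Fin n → ℂ) (y z : Sch n) :
    ip y (AA ε a u z) =
      ∑ j, ((ε j : ℂ) * u j * (1 / 2)) * (ip y (td j z) - (2 * a * ε j : ℂ) * ip y (tm j z)) := by
  rw [AA_eq, ← ipl_apply, map_sum]
  refine Finset.sum_congr rfl fun j _ => ?_
  rw [map_smul, map_sub, map_smul, smul_eq_mul, smul_eq_mul]
  rfl

private theorem ip_BB' (ε : Fin n → ℝ) (a : ℝ) (u : Fin n → ℂ) (y z : Sch n) :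
    ip y (BB ε a u z) = ∑ j, ((ε j : ℂ) * conj (u j) * (1 / 2)) *
      (ip y (td j z) + (2 * a * ε j : ℂ) * ip y (tm j z)) := by
  rw [BB_eq, ← ipl_apply, map_sum]
  refine Finset.sum_congr rfl fun j _ => ?_
  rw [map_smul, map_add, map_smul, smul_eq_mul, smul_eq_mul]
  rfl

theorem ip_AA (ε : Fin n → ℝ) (a : ℝ) (u : Fin n → ℂ) (y z : Sch n) :
    ip y (AA ε a u z) = - ip (BB ε a u y) z := by
  rw [ip_symm (BB ε a u y) z, ip_AA', ip_BB', map_sum, ← Finset.sum_neg_distrib]
  refine Finset.sum_congr rfl fun j _ => ?_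
  have hc2 : conj (2 : ℂ) = 2 := map_ofNat _ 2
  have h1 : conj ((ε j : ℂ) * conj (u j) * (1 / 2)) = (ε j : ℂ) * u j * (1 / 2) := by
    rw [map_mul, map_mul, Complex.conj_ofReal, Complex.conj_conj, map_div₀, map_one, hc2]
  have h2 : conj (2 * (a : ℂ) * (ε j : ℂ)) = 2 * (a : ℂ) * (ε j : ℂ) := by
    rw [map_mul, map_mul, Complex.conj_ofReal, Complex.conj_ofReal, hc2]
  have h3 : conj (((ε j : ℂ) * conj (u j) * (1 / 2)) *
      (ip z (td j y) + (2 * a * ε j : ℂ) * ip z (tm j y))) =
      conj ((ε j : ℂ) * conj (u j) * (1 / 2)) * (conj (ip z (td j y)) +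
        conj (2 * (a : ℂ) * (ε j : ℂ)) * conj (ip z (tm j y))) := by
    rw [map_mul, map_add, map_mul (starRingEnd ℂ) (2 * (a : ℂ) * (ε j : ℂ))]
  rw [h3, h1, h2, ← ip_symm, ← ip_symm, ip_td, ip_tm]
  ring

theorem ip_BB (ε : Fin n → ℝ) (a : ℝ) (u : Fin n → ℂ) (y z : Sch n) :
    ip y (BB ε a u z) = - ip (AA ε a u y) z := by
  rw [ip_symm (AA ε a u y) z, ip_symm y (BB ε a u z), ip_AA, map_neg, neg_neg]

theorem ip_smul (c : ℂ) (y z : Sch n) : ip y (c • z) = c * ip y z := by
  rw [← ipl_apply, map_smul, smul_eq_mul, ipl_apply]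

theorem ip_self (y : Sch n) : ∃ r : ℝ, 0 ≤ r ∧ ip y y = (r : ℂ) ∧ (y ≠ 0 → 0 < r) := by
  have h0 : ∀ t : Fin n → ℝ, conj (y t) * y t = ((‖y t‖ ^ 2 : ℝ) : ℂ) := by
    intro t
    rw [mul_comm, Complex.mul_conj, Complex.normSq_eq_norm_sq]
  have hint : Integrable (fun t : Fin n → ℝ => ‖y t‖ ^ 2) := by
    have h1 := (ip_int y y).norm
    refine h1.congr (Filter.Eventually.of_forall fun t => ?_)
    change ‖conj (y t) * y t‖ = ‖y t‖ ^ 2
    rw [norm_mul, RCLike.norm_conj, sq]
  refine ⟨∫ t : Fin n → ℝ, ‖y t‖ ^ 2, integral_nonneg fun t => sq_nonneg _, ?_, ?_⟩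
  · unfold ip
    have h1 : (∫ t : Fin n → ℝ, ((‖y t‖ ^ 2 : ℝ) : ℂ)) = ((∫ t : Fin n → ℝ, ‖y t‖ ^ 2 : ℝ) : ℂ) :=
      integral_ofReal
    rw [← h1]
    exact integral_congr_ae (Filter.Eventually.of_forall h0)
  · intro hy
    rw [integral_pos_iff_support_of_nonneg (fun t => sq_nonneg _) hint]
    have hc : Continuous (fun t : Fin n → ℝ => ‖y t‖ ^ 2) := (y.continuous.norm).pow 2
    have ho : IsOpen (Function.support fun t : Fin n → ℝ => ‖y t‖ ^ 2) := hc.isOpen_support
    refine ho.measure_pos _ ?_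
    obtain ⟨t, ht⟩ := DFunLike.ne_iff.1 hy
    refine ⟨t, ?_⟩
    rw [Function.mem_support]
    exact pow_ne_zero 2 (norm_ne_zero_iff.2 ht)

end Pool.Agent.Work.MP_dd0ddf_al.AR.O
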