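import Pool.Agent.Work.MP_dd0ddf_al.AR.ODefs

/-!
# O-block, module OJi: substitution `x ↦ b x h` in integrals over `M_n(ℂ)` (proved)
-/

set_option linter.unusedSectionVars false

namespace Pool.Agent.Work.MP_dd0ddf_al.AR.O

open scoped SchwartzMap Matrix.Norms.Elementwise ComplexConjugate ContDiff Topology LineDeriv
open Matrix MeasureTheory Filter

variable {n : ℕ}

instance instLocallyCompactSpaceMat : LocallyCompactSpace (Mat n) :=
  inferInstanceAs (LocallyCompactSpace (Fin n → Fin n → ℂ))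

instance instSecondCountableTopologyMat : SecondCountableTopology (Mat n) :=
  inferInstanceAs (SecondCountableTopology (Fin n → Fin n → ℂ))

theorem lr_det_ne {b h : Mat n} (hb : b.det ≠ 0) (hh : h.det ≠ 0) : LinearMap.det (lr b h) ≠ 0 := by
  have e : lr b h ∘ₗ lr b⁻¹ h⁻¹ = LinearMap.id := by
    apply LinearMap.ext
    intro x
    simp only [LinearMap.comp_apply, lr_apply, LinearMap.id_apply]
    have h1 : b * b⁻¹ = 1 := Matrix.mul_nonsing_inv _ (isUnit_iff_ne_zero.2 hb)
    have h2 : h⁻¹ * h = 1 := Matrix.nonsing_inv_mul _ (isUnit_iff_ne_zero.2 hh)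
    calc b * (b⁻¹ * x * h⁻¹) * h = (b * b⁻¹) * x * (h⁻¹ * h) := by simp only [mul_assoc]
      _ = x := by rw [h1, h2, one_mul, mul_one]
  intro h0
  have h3 := congrArg LinearMap.det e
  rw [LinearMap.det_comp, h0, zero_mul, LinearMap.det_id] at h3
  exact zero_ne_one h3

theorem Jac_pos {b h : Mat n} (hb : b.det ≠ 0) (hh : h.det ≠ 0) : 0 < Jac b h :=
  abs_pos.2 (lr_det_ne hb hh)

theorem Jac_mul (b b' h h' : Mat n) : Jac (b * b') (h' * h) = Jac b h * Jac b' h' := by
  have e : lr (b * b') (h' * h) = lr b h ∘ₗ lr b' h' := by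
    apply LinearMap.ext
    intro x
    simp only [LinearMap.comp_apply, lr_apply, mul_assoc]
  unfold Jac
  rw [e, LinearMap.det_comp, abs_mul]

theorem integral_lr (μ : Measure (Mat n)) [μ.IsAddHaarMeasure] {b h : Mat n} (hb : b.det ≠ 0)
    (hh : h.det ≠ 0) (F : Mat n → ℂ) :
    ∫ x, F (b * x * h) ∂μ = ((Jac b h : ℝ) : ℂ)⁻¹ * ∫ x, F x ∂μ := by
  have hd := lr_det_ne hb hh
  have e1 : Measure.map (lr b h) μ = ENNReal.ofReal |(LinearMap.det (lr b h))⁻¹| • μ :=
    @Measure.map_linearMap_addHaar_eq_smul_addHaar (Mat n) _ _ _ ⟨rfl⟩ _ μ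
      (by exact (inferInstance : μ.IsAddHaarMeasure)) _ hd
  have h1 : b * b⁻¹ = 1 := Matrix.mul_nonsing_inv _ (isUnit_iff_ne_zero.2 hb)
  have h2 : h⁻¹ * h = 1 := Matrix.nonsing_inv_mul _ (isUnit_iff_ne_zero.2 hh)
  have h1' : b⁻¹ * b = 1 := Matrix.nonsing_inv_mul _ (isUnit_iff_ne_zero.2 hb)
  have h2' : h * h⁻¹ = 1 := Matrix.mul_nonsing_inv _ (isUnit_iff_ne_zero.2 hh)
  let e : Mat n ≃ₜ Mat n :=
    { toFun := fun x => b * x * h
      invFun := fun x => b⁻¹ * x * h⁻¹
      left_inv := by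
        intro x
        calc b⁻¹ * (b * x * h) * h⁻¹ = (b⁻¹ * b) * x * (h * h⁻¹) := by simp only [mul_assoc]
          _ = x := by rw [h1', h2', one_mul, mul_one]
      right_inv := by
        intro x
        calc b * (b⁻¹ * x * h⁻¹) * h = (b * b⁻¹) * x * (h⁻¹ * h) := by simp only [mul_assoc]
          _ = x := by rw [h1, h2, one_mul, mul_one]
      continuous_toFun := by fun_prop
      continuous_invFun := by fun_prop }
  have hemb : MeasurableEmbedding (lr b h) := e.measurableEmbedding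
  have e2 := hemb.integral_map (μ := μ) F
  rw [e1, integral_smul_measure, abs_inv] at e2
  simp only [lr_apply] at e2
  rw [← e2, ENNReal.toReal_ofReal (inv_nonneg.2 (abs_nonneg _)), Complex.real_smul]
  unfold Jac
  push_cast
  rfl

end Pool.Agent.Work.MP_dd0ddf_al.AR.O
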