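import Pool.Agent.Work.MP_dd0ddf_al.AR.ODer

/-!
# O-block, module OLft (S-M): the torus from the left

PROOF. Let `f ∈ TGK K`, `K ⊆ GLs n` compact, `e_τ = diagonal (fun i => if i = j then exp(I τ) else 1)` (upper triangular, `det = exp(I τ) ≠ 0`), `Φ(τ, g) = f (e_τ * g)` (smooth). For `|τ| ≤ 1` it vanishes for `g ∉ K' = ⋃_{|σ| ≤ 1} e_{-σ} K`, the compact image of `[-1,1] × K`, contained in `GLs n`.
`lt L t (Φ(τ, ·)) = L (fun g => f (e_τ * g)) t = chm s k e_τ * L f t` (`Equi.left`) and `chm s k e_τ = exp(I k_j τ)` (`‖exp(I τ)‖ = 1`, `chr s k z = z^k` for `‖z‖ = 1`, `Complex.exp_int_mul`). The derivative at `τ = 0` is `I k_j L f t`; by `fin_deriv` (`fin_of_cont`) it is `L (D(0, ·)) t` with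
`D(0, g) = fderiv ℝ Φ (0, g) (1, 0) = fderiv ℝ f g (single j j I * g)` (chain rule, `d/dτ e_τ = single j j I` at `τ = 0`). Uniqueness of the derivative, for all `t`.
-/

set_option linter.unusedSectionVars false

namespace Pool.Agent.Work.MP_dd0ddf_al.AR.O

open scoped SchwartzMap Matrix.Norms.Elementwise ComplexConjugate ContDiff Topology LineDeriv
open Matrix MeasureTheory Filter

variable {n : ℕ}

/-- the one parameter group `τ ↦ diag(1, ..., exp(I τ), ..., 1)` -/
private noncomputable def eM (j : Fin n) (τ : ℝ) : Mat n :=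
  Matrix.diagonal fun i => if i = j then Complex.exp (Complex.I * (τ : ℂ)) else 1

private theorem eM_apply (j : Fin n) (τ : ℝ) (i l : Fin n) :
    eM j τ i l = if i = l then (if i = j then Complex.exp (Complex.I * (τ : ℂ)) else 1) else 0 := by
  unfold eM
  rw [Matrix.diagonal_apply]

private theorem eM_det (j : Fin n) (τ : ℝ) : (eM j τ).det ≠ 0 := by
  unfold eM
  rw [Matrix.det_diagonal]
  refine Finset.prod_ne_zero_iff.2 fun i _ => ?_
  split_ifs
  · exact Complex.exp_ne_zero _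
  · exact one_ne_zero

private theorem eM_mul (j : Fin n) (τ : ℝ) : eM j (-τ) * eM j τ = 1 := by
  unfold eM
  rw [Matrix.diagonal_mul_diagonal, ← Matrix.diagonal_one]
  congr 1
  funext i
  split_ifs
  · rw [← Complex.exp_add]
    simp
  · simp

private theorem eM_zero (j : Fin n) : eM j 0 = 1 := by
  unfold eM
  rw [← Matrix.diagonal_one]
  congr 1
  funext i
  split_ifs
  · simp
  · rfl

private theorem eM_up (j : Fin n) (τ : ℝ) (i l : Fin n) (h : l < i) : eM j τ i l = 0 := by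
  rw [eM_apply, if_neg (ne_of_gt h)]

private theorem eM_contDiff (j : Fin n) : ContDiff ℝ ∞ (eM j) := by
  refine contDiff_pi.2 fun i => contDiff_pi.2 fun l => ?_
  have e : (fun τ : ℝ => eM j τ i l) =
      fun τ : ℝ => if i = l then (if i = j then Complex.exp (Complex.I * (τ : ℂ)) else 1) else 0 := by
    funext τ
    exact eM_apply j τ i l
  rw [e]
  split_ifs
  · exact (contDiff_const.mul Complex.ofRealCLM.contDiff).cexp
  · exact contDiff_const
  · exact contDiff_const

private theorem exp_deriv (c : ℂ) :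
    HasDerivAt (fun τ : ℝ => Complex.exp (c * (τ : ℂ))) c 0 := by
  have h1 : HasDerivAt (fun τ : ℝ => c * (τ : ℂ)) (c * 1) 0 :=
    (Complex.ofRealCLM.hasDerivAt (x := (0 : ℝ))).const_mul c
  have h2 := h1.cexp
  simpa using h2

private theorem eM_deriv (j : Fin n) :
    HasDerivAt (eM j) (Matrix.single j j Complex.I) 0 := by
  refine hasDerivAt_pi.2 fun i => hasDerivAt_pi.2 fun l => ?_
  have e : (fun τ : ℝ => eM j τ i l) =
      fun τ : ℝ => if i = l then (if i = j then Complex.exp (Complex.I * (τ : ℂ)) else 1) else 0 := by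
    funext τ
    exact eM_apply j τ i l
  rw [e, Matrix.single_apply]
  by_cases h1 : i = l
  · by_cases h2 : i = j
    · have h3 : j = i ∧ j = l := ⟨h2.symm, h2.symm.trans h1⟩
      simp only [if_pos h1, if_pos h2, if_pos h3]
      exact exp_deriv Complex.I
    · have h3 : ¬(j = i ∧ j = l) := fun h => h2 h.1.symm
      simp only [if_pos h1, if_neg h2, if_neg h3]
      exact hasDerivAt_const _ _
  · have h3 : ¬(j = i ∧ j = l) := fun h => h1 (h.1.symm.trans h.2)
    simp only [if_neg h1, if_neg h3]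
    exact hasDerivAt_const _ _

private theorem chr_one {s : ℂ} {k : ℤ} {z : ℂ} (h : ‖z‖ = 1) : chr s k z = z ^ k := by
  unfold chr
  rw [h]
  simp

private theorem chm_eM (s : Fin n → ℂ) (k : Fin n → ℤ) (j : Fin n) (τ : ℝ) :
    chm s k (eM j τ) = Complex.exp ((Complex.I * (k j : ℂ)) * (τ : ℂ)) := by
  unfold chm
  have h1 : ∀ i : Fin n, ‖eM j τ i i‖ = 1 := by
    intro i
    rw [eM_apply, if_pos rfl]
    split_ifs
    · rw [mul_comm, Complex.norm_exp_ofReal_mul_I]
    · exact norm_one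
  rw [Finset.prod_eq_single j]
  · rw [chr_one (h1 j), h1 j, eM_apply, if_pos rfl, if_pos rfl, ← Complex.exp_int_mul]
    simp only [Complex.ofReal_one, _root_.one_zpow, mul_one]
    congr 1
    ring
  · intro i _ hi
    rw [chr_one (h1 i), h1 i, eM_apply, if_pos rfl, if_neg hi]
    simp
  · intro h
    exact absurd (Finset.mem_univ j) h

/-- the map `(τ, g) ↦ e_τ g` -/
private noncomputable def mm (j : Fin n) (p : ℝ × Mat n) : Mat n := eM j p.1 * p.2

private theorem mm_contDiff (j : Fin n) : ContDiff ℝ ∞ (mm j) := by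
  unfold mm
  rw [← contDiffOn_univ]
  intro p _
  exact cd_mul ((eM_contDiff j).comp contDiff_fst).contDiffWithinAt
    contDiff_snd.contDiffWithinAt

private theorem mm_neg_continuous (j : Fin n) :
    Continuous (fun p : ℝ × Mat n => mm j (-p.1, p.2)) := by
  have h1 : Continuous (fun p : ℝ × Mat n => ((-p.1, p.2) : ℝ × Mat n)) := by fun_prop
  exact (mm_contDiff j).continuous.comp h1

private theorem mm_deriv (j : Fin n) (g : Mat n) :
    HasDerivAt (fun τ : ℝ => mm j (τ, g)) (Matrix.single j j Complex.I * g) 0 := by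
  let R : Mat n →L[ℝ] Mat n := LinearMap.toContinuousLinearMap
    { toFun := fun x : Mat n => x * g
      map_add' := fun x y => add_mul x y g
      map_smul' := fun c x => Matrix.smul_mul c x g }
  exact R.hasFDerivAt.comp_hasDerivAt (0 : ℝ) (eM_deriv j)

theorem left_im {ε : Fin n → ℝ} {a : ℝ} {W : Weil ε a} {s : Fin n → ℂ} {k : Fin n → ℤ}
    {L : (Mat n → ℂ) →ₗ[ℂ] Sch n} (hL : Equi W s k L) (j : Fin n) {f : Mat n → ℂ}
    (hf' : f ∈ TGs (GLs n)) :
    L (dg (fun g => Matrix.single j j Complex.I * g) f) = (Complex.I * (k j : ℂ)) • L f := by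
  obtain ⟨K, hK, hKG, hfK⟩ := hf'
  have hfd : ContDiff ℝ ∞ f := hfK.1
  obtain ⟨Φ, hΦe⟩ : ∃ Φ : ℝ × Mat n → ℂ, Φ = fun p => f (mm j p) := ⟨_, rfl⟩
  have hΦ : ContDiff ℝ ∞ Φ := by
    rw [hΦe]
    exact hfd.comp (mm_contDiff j)
  let K' : Set (Mat n) :=
    (fun p : ℝ × Mat n => mm j (-p.1, p.2)) '' (Set.Icc (-1 : ℝ) 1 ×ˢ K)
  have hK' : IsCompact K' := (isCompact_Icc.prod hK).image (mm_neg_continuous j)
  have hK'G : K' ⊆ GLs n := by
    rintro _ ⟨p, hp, rfl⟩
    show (eM j (-p.1) * p.2).det ≠ 0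
    rw [Matrix.det_mul]
    exact mul_ne_zero (eM_det _ _) (hKG hp.2)
  have h0 : ∀ τ g, |τ| ≤ 1 → g ∉ K' → Φ (τ, g) = 0 := by
    intro τ g hτ hg
    rw [hΦe]
    apply hfK.2
    intro hx
    apply hg
    refine ⟨(τ, mm j (τ, g)), ⟨?_, hx⟩, ?_⟩
    · exact abs_le.1 hτ
    · show eM j (-τ) * (eM j τ * g) = g
      rw [← mul_assoc, eM_mul, one_mul]
  have hD : (fun g => fderiv ℝ Φ (0, g) (1, 0)) =
      dg (fun g => Matrix.single j j Complex.I * g) f := by
    funext g
    have h1 : HasDerivAt (fun τ : ℝ => Φ (τ, g)) (fderiv ℝ Φ (0, g) (1, 0)) 0 := by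
      have h2 : HasFDerivAt Φ (fderiv ℝ Φ (0, g)) (0, g) :=
        (hΦ.differentiable (by simp) _).hasFDerivAt
      have h3 : HasDerivAt (fun τ : ℝ => ((τ, g) : ℝ × Mat n)) (1, 0) 0 :=
        (hasDerivAt_id (0 : ℝ)).prodMk (hasDerivAt_const _ _)
      exact HasFDerivAt.comp_hasDerivAt (0 : ℝ) h2 h3
    have h4 : HasDerivAt (fun τ : ℝ => Φ (τ, g))
        (fderiv ℝ f g (Matrix.single j j Complex.I * g)) 0 := by
      have h5 : HasFDerivAt f (fderiv ℝ f g) (mm j (0, g)) := by
        have e0 : mm j (0, g) = g := by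
          show eM j 0 * g = g
          rw [eM_zero, one_mul]
        rw [e0]
        exact (hfd.differentiable (by simp) _).hasFDerivAt
      rw [hΦe]
      exact HasFDerivAt.comp_hasDerivAt (0 : ℝ) h5 (mm_deriv j g)
    exact h1.unique h4
  ext t
  have h1 := fin_deriv (fin_of_cont hL.cont t) hK' hK'G hΦ h0
  rw [hD, lt_apply] at h1
  have h2 : (fun τ : ℝ => lt L t (fun g => Φ (τ, g))) =
      fun τ : ℝ => Complex.exp ((Complex.I * (k j : ℂ)) * (τ : ℂ)) * L f t := by
    funext τ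
    rw [lt_apply]
    have h3 := hL.left (eM j τ) (eM_up j τ) (eM_det j τ) f ⟨K, hK, hKG, hfK⟩
    have h4 : (fun g => Φ (τ, g)) = fun g => f (eM j τ * g) := by
      rw [hΦe]
      rfl
    rw [h4, h3, chm_eM, _root_.smul_apply, smul_eq_mul]
  rw [h2] at h1
  have h3 : HasDerivAt (fun τ : ℝ => Complex.exp ((Complex.I * (k j : ℂ)) * (τ : ℂ)) * L f t)
      ((Complex.I * (k j : ℂ)) * L f t) 0 := (exp_deriv _).mul_const _
  exact h1.unique h3

end Pool.Agent.Work.MP_dd0ddf_al.AR.O
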