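import Pool.Agent.Work.MP_dd0ddf_al.AR.OEqv
import Pool.Agent.Work.MP_dd0ddf_al.AR.OCal

/-!
# O-block, module OSmR (M): the densities `rho`

PROOF. For `z ∈ Ue ε η` `rho z = (Jac (bx z) (hx z))⁻¹ * β (io z)`. `β ∈ TGK Kβ`; `K = io '' Kβ` is compact (`io_cont`) in `Ue ε η` (`io_mem`). If `rho z ≠ 0` then `z ∈ Ue ε η`, `io z ∈ Kβ`, `z = io (io z) ∈ K`. Smooth on the open set `Ue ε η` (as in OSmA), zero on the open set `Kᶜ`: `rho_mem`.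
`rho_nonneg`: `Jac > 0` (`Jac_pos`). `rho_self`: `bx g0 = 1`, `hx g0 = 1`, `io g0 = g0`. `rho_supp`: `io` is continuous at `g0` (`io_cont`, `isOpen_Ue`) and `io g0 = g0`, so for `V ∈ 𝓝 g0` there is `V' ∈ 𝓝 g0` with `w ∈ V' ∩ Ue ε η → io w ∈ V`; if `β w ≠ 0 → w ∈ V'` and `rho z ≠ 0` then `w = io z ∈ Ue ε η`, `β w ≠ 0`, so
`z = io w ∈ V`.
-/

set_option linter.unusedSectionVars false

namespace Pool.Agent.Work.MP_dd0ddf_al.AR.O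

open scoped SchwartzMap Matrix.Norms.Elementwise ComplexConjugate ContDiff Topology LineDeriv
open Matrix MeasureTheory Filter

variable {n : ℕ}

private theorem rho_eq {ε η : Fin n → ℝ} {g0 : Mat n} {β : Mat n → ℂ} {z : Mat n}
    (h : z ∈ Ue ε η) : rho ε η g0 β z =
      ((Jac (bx ε z) (hx ε g0 z) : ℝ) : ℂ)⁻¹ * β (io ε g0 z) := by
  unfold rho
  rw [if_pos h]
  rfl

private theorem rho_ne {ε η : Fin n → ℝ} {g0 : Mat n} {β : Mat n → ℂ} {z : Mat n}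
    (h : rho ε η g0 β z ≠ 0) : z ∈ Ue ε η ∧ β (io ε g0 z) ≠ 0 := by
  have hz : z ∈ Ue ε η := by
    by_contra h1
    apply h
    unfold rho
    rw [if_neg h1]
  refine ⟨hz, fun h1 => h ?_⟩
  rw [rho_eq hz, h1, mul_zero]

theorem rho_mem {ε η : Fin n → ℝ} (hep : ∀ j, ε j = 1 ∨ ε j = -1)
    (hη : ∀ j, η j = 1 ∨ η j = -1) {g0 : Mat n} (hg0 : Frm ε η g0) {β : Mat n → ℂ}
    (hβ : β ∈ TGs (Ue ε η)) : rho ε η g0 β ∈ TGs (Ue ε η) := by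
  obtain ⟨Kβ, hK, hKU, hβs, hβ0⟩ := hβ
  have hKc : IsCompact (io ε g0 '' Kβ) := hK.image_of_continuousOn ((io_cont hη hg0).mono hKU)
  have h0 : ∀ z, z ∉ io ε g0 '' Kβ → rho ε η g0 β z = 0 := by
    intro z hz
    by_contra h1
    obtain ⟨h2, h3⟩ := rho_ne h1
    apply hz
    refine ⟨io ε g0 z, ?_, (io_mem hep hη hg0 h2).2⟩
    by_contra h4
    exact h3 (hβ0 _ h4)
  refine ⟨io ε g0 '' Kβ, hKc, ?_, ?_, h0⟩
  · rintro _ ⟨w, hw, rfl⟩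
    exact (io_mem hep hη hg0 (hKU hw)).1
  · rw [contDiff_iff_contDiffAt]
    intro z
    by_cases hz : z ∈ Ue ε η
    · have hmem : Ue ε η ∈ 𝓝 z := (isOpen_Ue hη).mem_nhds hz
      have heq : rho ε η g0 β =ᶠ[𝓝 z] fun z =>
          ((Jac (bx ε z) (hx ε g0 z) : ℝ) : ℂ)⁻¹ * β ((bx ε z)⁻¹ * g0 * (hx ε g0 z)⁻¹) := by
        filter_upwards [hmem] with w hw
        exact rho_eq hw
      refine ContDiffAt.congr_of_eventuallyEq ?_ heq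
      obtain ⟨d1, d2, -, -⟩ := dec_det hη hg0 hz
      have hb : ContDiffWithinAt ℝ ∞ (bx ε) (Ue ε η) z := contDiffOn_bx hη z hz
      have hh : ContDiffWithinAt ℝ ∞ (hx ε g0) (Ue ε η) z := contDiffOn_hx hη g0 z hz
      have hJ : ContDiffWithinAt ℝ ∞
          (fun q : Mat n => ((Jac (bx ε q) (hx ε g0 q) : ℝ) : ℂ)) (Ue ε η) z :=
        cd_ofReal (cd_Jac hb hh d1 d2)
      have hJ0 : ((Jac (bx ε z) (hx ε g0 z) : ℝ) : ℂ) ≠ 0 :=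
        Complex.ofReal_ne_zero.2 (Jac_pos d1 d2).ne'
      have harg : ContDiffWithinAt ℝ ∞
          (fun q : Mat n => (bx ε q)⁻¹ * g0 * (hx ε g0 q)⁻¹) (Ue ε η) z :=
        cd_mul (cd_mul (cd_inv hb d1) contDiffWithinAt_const) (cd_inv hh d2)
      have hβ1 : ContDiffWithinAt ℝ ∞
          (fun q : Mat n => β ((bx ε q)⁻¹ * g0 * (hx ε g0 q)⁻¹)) (Ue ε η) z :=
        hβs.contDiffAt.comp_contDiffWithinAt z harg
      exact ((hJ.inv hJ0).mul hβ1).contDiffAt hmem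
    · have hzK : z ∉ io ε g0 '' Kβ := by
        rintro ⟨w, hw, rfl⟩
        exact hz (io_mem hep hη hg0 (hKU hw)).1
      have hmem : (io ε g0 '' Kβ)ᶜ ∈ 𝓝 z := hKc.isClosed.isOpen_compl.mem_nhds hzK
      have heq : rho ε η g0 β =ᶠ[𝓝 z] fun _ => (0 : ℂ) := by
        filter_upwards [hmem] with w hw
        exact h0 w hw
      exact contDiffAt_const.congr_of_eventuallyEq heq

theorem rho_nonneg {ε η : Fin n → ℝ} (hep : ∀ j, ε j = 1 ∨ ε j = -1)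
    (hη : ∀ j, η j = 1 ∨ η j = -1) {g0 : Mat n} (hg0 : Frm ε η g0) {β : Mat n → ℂ}
    (hβ : ∀ g, ∃ r : ℝ, 0 ≤ r ∧ β g = (r : ℂ)) (z : Mat n) :
    ∃ r : ℝ, 0 ≤ r ∧ rho ε η g0 β z = (r : ℂ) := by
  by_cases hz : z ∈ Ue ε η
  · obtain ⟨d1, d2, -, -⟩ := dec_det hη hg0 hz
    obtain ⟨r, hr, hr2⟩ := hβ (io ε g0 z)
    refine ⟨(Jac (bx ε z) (hx ε g0 z))⁻¹ * r,
      mul_nonneg (inv_nonneg.2 (Jac_pos d1 d2).le) hr, ?_⟩
    rw [rho_eq hz, hr2]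
    push_cast
    rfl
  · refine ⟨0, le_rfl, ?_⟩
    unfold rho
    rw [if_neg hz, Complex.ofReal_zero]

theorem rho_self {ε η : Fin n → ℝ} (hep : ∀ j, ε j = 1 ∨ ε j = -1)
    (hη : ∀ j, η j = 1 ∨ η j = -1) {g0 : Mat n} (hg0 : Frm ε η g0) {β : Mat n → ℂ}
    (hβ : β g0 ≠ 0) : rho ε η g0 β g0 ≠ 0 := by
  have hz := (frm_mem hη hg0).1
  obtain ⟨d1, d2, -, -⟩ := dec_det hη hg0 hz
  rw [rho_eq hz, io_self hη hg0]
  exact mul_ne_zero (inv_ne_zero (Complex.ofReal_ne_zero.2 (Jac_pos d1 d2).ne')) hβ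

theorem rho_supp {ε η : Fin n → ℝ} (hep : ∀ j, ε j = 1 ∨ ε j = -1)
    (hη : ∀ j, η j = 1 ∨ η j = -1) {g0 : Mat n} (hg0 : Frm ε η g0) {β : ℕ → Mat n → ℂ}
    (hβ : ∀ V ∈ 𝓝 g0, ∀ᶠ i in atTop, ∀ g, β i g ≠ 0 → g ∈ V) :
    ∀ V ∈ 𝓝 g0, ∀ᶠ i in atTop, ∀ z, rho ε η g0 (β i) z ≠ 0 → z ∈ V := by
  intro V hV
  have hz := (frm_mem hη hg0).1
  have hc : ContinuousAt (io ε g0) g0 :=
    (io_cont hη hg0).continuousAt ((isOpen_Ue hη).mem_nhds hz)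
  have hV' : io ε g0 ⁻¹' V ∈ 𝓝 g0 := by
    apply hc
    rw [io_self hη hg0]
    exact hV
  filter_upwards [hβ _ hV'] with i hi z hz0
  obtain ⟨h1, h2⟩ := rho_ne hz0
  have h3 := hi _ h2
  rw [Set.mem_preimage, (io_mem hep hη hg0 h1).2] at h3
  exact h3

end Pool.Agent.Work.MP_dd0ddf_al.AR.O
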