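import Pool.Agent.Work.MP_dd0ddf_al.AR.OEqv
import Pool.Agent.Work.MP_dd0ddf_al.AR.OCal

/-!
# O-block, module OSub (S-M): substitution

PROOF. First `g ∈ Ue ε η`, `b = bx g`, `h = hx g`, `g = b g0 h` (`dec`). `∫ Phi x g dx = J(b, h) ∫ Phi (b z h) g dz` (`integral_lr` with `F x = Phi x g`, `Jac_pos`), and for every `z`: `J(b, h) Phi (b z h) g = Psi z g * rho z`: if `z ∈ Ue ε η` then `w = b z h ∈ Ue ε η`, `bx w = b bx z`, `hx w = hx z h`, `Jac (bx w) (hx w) = Jac b h * Jac (bx z) (hx z)` (`Jac_mul`),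
`(bx w)⁻¹ g (hx w)⁻¹ = (bx z)⁻¹ b⁻¹ (b g0 h) h⁻¹ (hx z)⁻¹ = (bx z)⁻¹ g0 (hx z)⁻¹` (`Matrix.mul_inv_rev`). If `z ∉ Ue ε η` then `w ∉ Ue ε η` (`eqv_iff`), so `f w = 0` and `rho z = 0`. If `g ∉ Ue ε η`: `Psi z g = 0`, and `Phi x g = 0`: `f x ≠ 0` implies `x ∈ Ue ε η` and then
`(bx x)⁻¹ g (hx x)⁻¹ ∉ Ue ε η` (`eqv_iff`), so `β` vanishes there.
-/

set_option linter.unusedSectionVars false

namespace Pool.Agent.Work.MP_dd0ddf_al.AR.O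

open scoped SchwartzMap Matrix.Norms.Elementwise ComplexConjugate ContDiff Topology LineDeriv
open Matrix MeasureTheory Filter

variable {n : ℕ}

private theorem osub_zero {Ω : Set (Mat n)} {f : Mat n → ℂ} (hf : f ∈ TGs Ω) {x : Mat n}
    (hx : x ∉ Ω) : f x = 0 := by
  obtain ⟨K, -, hK, hfK⟩ := hf
  exact hfK.2 x (fun h => hx (hK h))

private theorem osub_mat (b h c k g0 g : Mat n) (hb : b.det ≠ 0) (hh : h.det ≠ 0)
    (hd : b * g0 * h = g) : (b * c)⁻¹ * g * (k * h)⁻¹ = c⁻¹ * g0 * k⁻¹ := by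
  have i1 : b⁻¹ * b = 1 := Matrix.nonsing_inv_mul _ (isUnit_iff_ne_zero.2 hb)
  have i2 : h * h⁻¹ = 1 := Matrix.mul_nonsing_inv _ (isUnit_iff_ne_zero.2 hh)
  rw [Matrix.mul_inv_rev, Matrix.mul_inv_rev, ← hd]
  calc c⁻¹ * b⁻¹ * (b * g0 * h) * (h⁻¹ * k⁻¹) = c⁻¹ * (b⁻¹ * b) * g0 * (h * h⁻¹) * k⁻¹ := by
        simp only [Matrix.mul_assoc]
    _ = _ := by rw [i1, i2, Matrix.mul_one, Matrix.mul_one]

private theorem osub_scal (J J' : ℝ) (hJ : (J : ℂ) ≠ 0) (F B : ℂ) :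
    (J : ℂ) * (F * ((J * J' : ℝ) : ℂ)⁻¹ * B) = F * (((J' : ℝ) : ℂ)⁻¹ * B) := by
  rw [Complex.ofReal_mul, mul_inv]
  calc (J : ℂ) * (F * ((J : ℂ)⁻¹ * (J' : ℂ)⁻¹) * B) = (J * (J : ℂ)⁻¹) * (F * ((J' : ℂ)⁻¹ * B)) := by
        ring
    _ = _ := by rw [mul_inv_cancel₀ hJ, one_mul]

theorem int_Phi {ε η : Fin n → ℝ} (hep : ∀ j, ε j = 1 ∨ ε j = -1)
    (hη : ∀ j, η j = 1 ∨ η j = -1) {g0 : Mat n} (hg0 : Frm ε η g0) {f β : Mat n → ℂ}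
    (hf' : f ∈ TGs (Ue ε η)) (hβ : β ∈ TGs (Ue ε η)) (μ : Measure (Mat n)) [μ.IsAddHaarMeasure]
    (g : Mat n) :
    ∫ x, Phi ε g0 f β x g ∂μ = ∫ z, Psi ε η g0 f z g * rho ε η g0 β z ∂μ := by
  by_cases hg : g ∈ Ue ε η
  · obtain ⟨hd, hbU, hhR⟩ := dec hη hg0 hg
    obtain ⟨d1, d2, -, -⟩ := dec_det hη hg0 hg
    have hJ := Jac_pos d1 d2
    have hJ0 : ((Jac (bx ε g) (hx ε g0 g) : ℝ) : ℂ) ≠ 0 := by
      exact_mod_cast hJ.ne'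
    have h1 := integral_lr μ d1 d2 (fun x => Phi ε g0 f β x g)
    have h2 : ∫ x, Phi ε g0 f β x g ∂μ = ((Jac (bx ε g) (hx ε g0 g) : ℝ) : ℂ) *
        ∫ x, Phi ε g0 f β (bx ε g * x * hx ε g0 g) g ∂μ := by
      rw [h1, ← mul_assoc, mul_inv_cancel₀ hJ0, one_mul]
    rw [h2, ← integral_const_mul]
    congr 1
    funext z
    by_cases hz : z ∈ Ue ε η
    · have e1 := (eqv hη hbU hz hhR).2.2
      have e2 := eqv_hx hη g0 hbU hz hhR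
      unfold Phi Psi rho
      rw [if_pos hg, if_pos hz, e1, e2, Jac_mul]
      rw [osub_mat (bx ε g) (hx ε g0 g) (bx ε z) (hx ε g0 z) g0 g d1 d2 hd]
      exact osub_scal _ _ hJ0 _ _
    · have hw : bx ε g * z * hx ε g0 g ∉ Ue ε η := fun h => hz ((eqv_iff hep hη hbU hhR).1 h)
      unfold Phi rho
      rw [osub_zero hf' hw, if_neg hz]
      simp
  · have hz1 : ∀ z, Psi ε η g0 f z g = 0 := fun z => by
      unfold Psi
      rw [if_neg hg]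
    have hz2 : ∀ x, Phi ε g0 f β x g = 0 := fun x => by
      unfold Phi
      by_cases hx' : x ∈ Ue ε η
      · obtain ⟨-, hbU, hhR⟩ := dec hη hg0 hx'
        have hw : (bx ε x)⁻¹ * g * (hx ε g0 x)⁻¹ ∉ Ue ε η := fun h =>
          hg ((eqv_iff hep hη (Upos_inv hbU) (RU_inv hep hhR)).1 h)
        rw [osub_zero hβ hw, mul_zero]
      · rw [osub_zero hf' hx', zero_mul, zero_mul]
    simp [hz1, hz2]

end Pool.Agent.Work.MP_dd0ddf_al.AR.O
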