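import Pool.Agent.Work.MP_dd0ddf_al.AR.OSmB
import Pool.Agent.Work.MP_dd0ddf_al.AR.OSmR
import Pool.Agent.Work.MP_dd0ddf_al.AR.OSub
import Pool.Agent.Work.MP_dd0ddf_al.AR.OInB

/-!
# O-block, module OLim (M): the averages converge

PROOF. `ρ_i = rho (β i)` is a test function on `Ue ε η` (`rho_mem`) with nonnegative real values (`rho_nonneg`), `ρ_i(g0) ≠ 0` (`rho_self`), so `I_i = ∫ ρ_i dμ` is a positive real number (continuous, compact support, positive on an open set; `μ` is positive on open sets): take `m_i = 1 / I_i`; it does not depend on `ℓ`, `f`.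
Let `χ` be a smooth function, `0 ≤ χ`, `χ = 1` on a neighbourhood `V0` of `g0`, supported in a compact subset of `Ue ε η` (`exists_contDiff_tsupport_subset` or a bump function `ContDiffBump`; `Mat n` is a finite dimensional real normed space), `λ(z) = ℓ (fun g => χ z * Psi z g)`, continuous (`fin_cont` with `Psi_smooth`). `χ(g0) Psi g0 g = f g` for all `g`
(`g ∈ Ue`: `bx g * g0 * hx g = g`; `g ∉ Ue`: `f g = 0`), so `λ(g0) = ℓ f`. For large `i` `ρ_i` is supported in `V0` (`rho_supp`), so `∫ Phi (β_i) x g dx = ∫ Psi z g * ρ_i z dz = ∫ (χ z * Psi z g) * ρ_i z dz` (`int_Phi`); `(z, g) ↦ (χ z * Psi z g) * ρ_i z` is smooth with compact support and vanishes for `g ∉ K`, so by `fin_int`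
`ℓ (fun g => ∫ Phi (β_i) x g dx) = ∫ ρ_i(z) λ(z) dz` (`ℓ` is linear). For `e > 0` there is `V ∈ 𝓝 g0` with `‖λ z - λ g0‖ ≤ e` on `V`; for large `i` the support of `ρ_i` is in `V`, so `‖m_i ∫ ρ_i λ - λ(g0)‖ = ‖m_i ∫ ρ_i (λ - λ(g0))‖ ≤ e`.
-/

set_option linter.unusedSectionVars false

namespace Pool.Agent.Work.MP_dd0ddf_al.AR.O

open scoped SchwartzMap Matrix.Norms.Elementwise ComplexConjugate ContDiff Topology LineDeriv
open Matrix MeasureTheory Filter

variable {n : ℕ}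

private theorem olim_supp {K : Set (Mat n)} (hK : IsCompact K) {f : Mat n → ℂ}
    (h : ∀ z, z ∉ K → f z = 0) : HasCompactSupport f :=
  HasCompactSupport.intro hK h

private theorem olim_gen {E F : Type} [NormedAddCommGroup E] [MeasurableSpace E] [BorelSpace E]
    [NormedAddCommGroup F] (μ : Measure E) [μ.IsAddHaarMeasure] {f : E → F} (hc : Continuous f)
    (hs : HasCompactSupport f) : Integrable f μ :=
  hc.integrable_of_hasCompactSupport hs

private theorem olim_gen2 {E : Type} [NormedAddCommGroup E] [MeasurableSpace E] [BorelSpace E]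
    (μ : Measure E) [μ.IsAddHaarMeasure] {f : E → ℝ} {x : E} (hc : Continuous f)
    (hs : HasCompactSupport f) (h0 : ∀ z, 0 ≤ f z) (hx : f x ≠ 0) : 0 < ∫ z, f z ∂μ :=
  hc.integral_pos_of_hasCompactSupport_nonneg_nonzero hs h0 hx

private theorem olim_int {F : Type} [NormedAddCommGroup F] (μ : Measure (Mat n))
    [μ.IsAddHaarMeasure] {f : Mat n → F} (hc : Continuous f) (hs : HasCompactSupport f) :
    Integrable f μ :=
  @olim_gen (Mat n) F _ _ ⟨rfl⟩ _ μ (by exact (inferInstance : μ.IsAddHaarMeasure)) f hc hs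

private theorem olim_pos (μ : Measure (Mat n)) [μ.IsAddHaarMeasure] {f : Mat n → ℝ} {x : Mat n}
    (hc : Continuous f) (hs : HasCompactSupport f) (h0 : ∀ z, 0 ≤ f z) (hx : f x ≠ 0) :
    0 < ∫ z, f z ∂μ :=
  @olim_gen2 (Mat n) _ _ ⟨rfl⟩ μ (by exact (inferInstance : μ.IsAddHaarMeasure)) f x hc hs h0 hx

/-- a cutoff function -/
private theorem olim_bump {U : Set (Mat n)} {g0 : Mat n} (hU : U ∈ 𝓝 g0) :
    ∃ (χ : Mat n → ℂ) (V : Set (Mat n)), χ ∈ TGs U ∧ V ∈ 𝓝 g0 ∧ ∀ z ∈ V, χ z = 1 := by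
  have : ProperSpace (Mat n) := FiniteDimensional.proper ℝ (Mat n)
  obtain ⟨r, hr, hrU⟩ := Metric.nhds_basis_closedBall.mem_iff.1 hU
  let b : ContDiffBump g0 := ⟨r / 2, r, by positivity, by linarith⟩
  refine ⟨fun z => ((b z : ℝ) : ℂ), Metric.closedBall g0 (r / 2),
    ⟨Metric.closedBall g0 r, isCompact_closedBall g0 r, hrU, ?_, ?_⟩,
    Metric.closedBall_mem_nhds g0 (by positivity), ?_⟩
  · exact Complex.ofRealCLM.contDiff.comp b.contDiff
  · intro z hz
    have h1 : b z = 0 := by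
      apply b.zero_of_le_dist
      rw [Metric.mem_closedBall, not_le] at hz
      exact hz.le
    change ((b z : ℝ) : ℂ) = 0
    rw [h1, Complex.ofReal_zero]
  · intro z hz
    have h1 : b z = 1 := b.one_of_mem_closedBall hz
    change ((b z : ℝ) : ℂ) = 1
    rw [h1, Complex.ofReal_one]

/-- approximate identities -/
private theorem olim_lim (μ : Measure (Mat n)) [μ.IsAddHaarMeasure] {g0 : Mat n}
    {ρ : ℕ → Mat n → ℂ} {r : ℕ → Mat n → ℝ} (hr : ∀ i z, ρ i z = (r i z : ℂ))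
    (hr0 : ∀ i z, 0 ≤ r i z) (hint : ∀ i, Integrable (r i) μ) (hpos : ∀ i, 0 < ∫ z, r i z ∂μ)
    (hsupp : ∀ V ∈ 𝓝 g0, ∀ᶠ i in atTop, ∀ z, ρ i z ≠ 0 → z ∈ V) {lam : Mat n → ℂ}
    (hl : Continuous lam) (hint2 : ∀ i, Integrable (fun z => ρ i z * lam z) μ) :
    Tendsto (fun i => (((∫ z, r i z ∂μ : ℝ) : ℂ))⁻¹ * ∫ z, ρ i z * lam z ∂μ) atTop
      (𝓝 (lam g0)) := by
  rw [Metric.tendsto_nhds]
  intro e he
  have hV : {z | dist (lam z) (lam g0) < e / 2} ∈ 𝓝 g0 :=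
    hl.continuousAt (Metric.ball_mem_nhds (lam g0) (half_pos he))
  filter_upwards [hsupp _ hV] with i hi
  obtain ⟨I, hI⟩ : ∃ I : ℝ, I = ∫ z, r i z ∂μ := ⟨_, rfl⟩
  have hI0 : 0 < I := hI ▸ hpos i
  rw [← hI, dist_eq_norm]
  have hIρ : ∫ z, ρ i z ∂μ = (I : ℂ) := by
    rw [hI, ← integral_complex_ofReal]
    exact integral_congr_ae (Filter.Eventually.of_forall fun z => hr i z)
  have hintρ : Integrable (fun z => ρ i z) μ := by
    have h1 : (fun z => ρ i z) = fun z => ((r i z : ℝ) : ℂ) := funext (hr i)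
    rw [h1]
    exact (hint i).ofReal
  have h1 : ((I : ℂ))⁻¹ * ∫ z, ρ i z * lam z ∂μ - lam g0 =
      ((I : ℂ))⁻¹ * ∫ z, ρ i z * (lam z - lam g0) ∂μ := by
    have h2 : ∫ z, ρ i z * (lam z - lam g0) ∂μ =
        (∫ z, ρ i z * lam z ∂μ) - (I : ℂ) * lam g0 := by
      rw [← hIρ, ← integral_mul_const, ← integral_sub (hint2 i) (hintρ.mul_const _)]
      apply integral_congr_ae
      refine Filter.Eventually.of_forall fun z => ?_
      simp only
      ring
    rw [h2, mul_sub, ← mul_assoc, inv_mul_cancel₀ (Complex.ofReal_ne_zero.2 hI0.ne'), one_mul]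
  rw [h1, norm_mul, norm_inv, Complex.norm_real, Real.norm_eq_abs, abs_of_pos hI0]
  have h3 : ‖∫ z, ρ i z * (lam z - lam g0) ∂μ‖ ≤ ∫ z, (e / 2) * r i z ∂μ := by
    apply norm_integral_le_of_norm_le ((hint i).const_mul _)
    refine Filter.Eventually.of_forall fun z => ?_
    by_cases hz : ρ i z = 0
    · rw [hz, zero_mul, norm_zero]
      exact mul_nonneg (half_pos he).le (hr0 i z)
    · have h4 := hi z hz
      rw [dist_eq_norm] at h4
      rw [norm_mul, hr i z, Complex.norm_real, Real.norm_eq_abs, abs_of_nonneg (hr0 i z), mul_comm]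
      exact mul_le_mul_of_nonneg_right h4.le (hr0 i z)
  rw [integral_const_mul, ← hI] at h3
  calc I⁻¹ * ‖∫ z, ρ i z * (lam z - lam g0) ∂μ‖ ≤ I⁻¹ * (e / 2 * I) :=
        mul_le_mul_of_nonneg_left h3 (inv_nonneg.2 hI0.le)
    _ = e / 2 := by field_simp
    _ < e := half_lt_self he

theorem exists_mass {ε η : Fin n → ℝ} (hep : ∀ j, ε j = 1 ∨ ε j = -1)
    (hη : ∀ j, η j = 1 ∨ η j = -1) {g0 : Mat n} (hg0 : Frm ε η g0) (μ : Measure (Mat n))
    [μ.IsAddHaarMeasure] {β : ℕ → Mat n → ℂ} (hβ : ∀ i, β i ∈ TGs (Ue ε η))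
    (hβ1 : ∀ i g, ∃ r : ℝ, 0 ≤ r ∧ β i g = (r : ℂ)) (hβ2 : ∀ i, β i g0 ≠ 0)
    (hβ3 : ∀ V ∈ 𝓝 g0, ∀ᶠ i in atTop, ∀ g, β i g ≠ 0 → g ∈ V) :
    ∃ m : ℕ → ℂ, ∀ ℓ : (Mat n → ℂ) →ₗ[ℂ] ℂ, FinOrd (Ue ε η) ℓ → ∀ f ∈ TGs (Ue ε η),
      Tendsto (fun i => m i * ℓ (fun g => ∫ x, Phi ε g0 f (β i) x g ∂μ)) atTop (𝓝 (ℓ f)) := by
  have hmem := fun i => rho_mem hep hη hg0 (hβ i)
  have hnn := fun i => rho_nonneg hep hη hg0 (hβ1 i)
  choose r hr0 hr using hnn
  have hsupp := rho_supp hep hη hg0 hβ3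
  have hcs : ∀ i, HasCompactSupport (rho ε η g0 (β i)) := by
    intro i
    obtain ⟨K, hK, -, -, h0⟩ := hmem i
    exact olim_supp hK h0
  have hcd : ∀ i, ContDiff ℝ ∞ (rho ε η g0 (β i)) := by
    intro i
    obtain ⟨K, -, -, h1, -⟩ := hmem i
    exact h1
  have hre : ∀ i, r i = fun z => (rho ε η g0 (β i) z).re := by
    intro i
    funext z
    rw [hr i z, Complex.ofReal_re]
  have hrc : ∀ i, Continuous (r i) := by
    intro i
    rw [hre i]
    exact Complex.continuous_re.comp (hcd i).continuous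
  have hrs : ∀ i, HasCompactSupport (r i) := by
    intro i
    rw [hre i]
    exact (hcs i).comp_left (g := Complex.re) Complex.zero_re
  have hint : ∀ i, Integrable (r i) μ := fun i =>
    olim_int μ (hrc i) (hrs i)
  have hpos : ∀ i, 0 < ∫ z, r i z ∂μ := by
    intro i
    refine olim_pos μ (x := g0) (hrc i) (hrs i) (fun z => hr0 i z) ?_
    intro h1
    apply rho_self hep hη hg0 (hβ2 i)
    rw [hr i g0, h1, Complex.ofReal_zero]
  refine ⟨fun i => (((∫ z, r i z ∂μ : ℝ) : ℂ))⁻¹, ?_⟩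
  intro ℓ hℓ f hf
  have hz0 := (frm_mem hη hg0).1
  obtain ⟨χ, V, hχ, hV, hχ1⟩ := olim_bump ((isOpen_Ue hη).mem_nhds hz0)
  obtain ⟨hΨ1, hΨ2, K, hK, hKU, hK0⟩ := Psi_smooth hep hη hg0 hf hχ
  have hlam : Continuous fun z => ℓ (fun g => χ z * Psi ε η g0 f z g) :=
    fin_cont hℓ hK hKU (Φ := fun p : Mat n × Mat n => χ p.1 * Psi ε η g0 f p.1 p.2) hΨ1 hΨ2 hK0
  have hlam0 : ℓ (fun g => χ g0 * Psi ε η g0 f g0 g) = ℓ f := by
    congr 1
    funext g
    rw [hχ1 g0 (mem_of_mem_nhds hV), one_mul]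
    unfold Psi
    split_ifs with hg
    · rw [(dec hη hg0 hg).1]
    · obtain ⟨Kf, -, hKf, -, hf0⟩ := hf
      exact (hf0 g fun h => hg (hKf h)).symm
  have hlim := olim_lim μ (ρ := fun i => rho ε η g0 (β i)) hr hr0 hint hpos hsupp hlam (by
    intro i
    exact olim_int μ ((hcd i).continuous.mul hlam) ((hcs i).mul_right))
  rw [hlam0] at hlim
  refine hlim.congr' ?_
  filter_upwards [hsupp V hV] with i hi
  congr 1
  have hΦ1 : ContDiff ℝ ∞ (fun p : Mat n × Mat n =>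
      (χ p.1 * Psi ε η g0 f p.1 p.2) * rho ε η g0 (β i) p.1) :=
    hΨ1.mul ((hcd i).comp contDiff_fst)
  have hΦ2 : HasCompactSupport (fun p : Mat n × Mat n =>
      (χ p.1 * Psi ε η g0 f p.1 p.2) * rho ε η g0 (β i) p.1) := hΨ2.mul_right
  have hint3 := fin_int hℓ hK hKU μ hΦ1 hΦ2 (by
    intro x g hg
    simp only
    rw [hK0 x g hg, zero_mul])
  simp only at hint3
  have h1 : (fun g => ∫ x, Phi ε g0 f (β i) x g ∂μ) =
      fun g => ∫ x, (χ x * Psi ε η g0 f x g) * rho ε η g0 (β i) x ∂μ := by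
    funext g
    rw [int_Phi hep hη hg0 hf (hβ i) μ g]
    apply integral_congr_ae
    refine Filter.Eventually.of_forall fun z => ?_
    simp only
    by_cases hz : rho ε η g0 (β i) z = 0
    · rw [hz, mul_zero, mul_zero]
    · rw [hχ1 z (hi z hz), one_mul]
  rw [h1, hint3]
  apply integral_congr_ae
  refine Filter.Eventually.of_forall fun z => ?_
  simp only
  rw [← smul_eq_mul (rho ε η g0 (β i) z), ← map_smul]
  congr 1
  funext g
  rw [Pi.smul_apply, smul_eq_mul, mul_comm]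

end Pool.Agent.Work.MP_dd0ddf_al.AR.O
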