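import Pool.Agent.Work.MP_dd0ddf_al.AR.OPos

/-!
# O-block, module OLow (S-M): lowering operators

PROOF. `a η_k ≠ 0`, `|a η_k| = |a|`. `low_ne`: if `a η_k > 0`: `BB (u k) y = 0` gives `ν_k y = AA (BB y) = 0`, and `ν_k ≠ tpv = 0`, so `y = 0`. If `a η_k < 0`: `AA (u k) y = 0`, so
`ν_k y = AA (BB y) = BB (AA y) + a η_k y = a η_k y` (`AA_BB_comm`, `hF k k`), `ν_k ≠ tpv = a η_k`: `y = 0`.
`low_top`: `a η_k > 0`: `ν_k = 0`, `AA (BB y) = 0`, `BB_eq_zero`. `a η_k < 0`: `ν_k = a η_k`, `BB (AA y) = AA (BB y) - a η_k y = 0`, `AA_eq_zero`.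
`low_eig`: let `z = low k y`. For `l ≠ k`: `hf (u k) (u l) = 0 = hf (u l) (u k)`, so `AA (u l)`, `BB (u l)` commute with `low k` (`AA_BB_comm`, `AA_AA_comm`, `BB_BB_comm`), and
`AA (u l) (BB (u l) z) = low k (AA (u l) (BB (u l) y)) = ν_l z`. For `l = k`, `a η_k > 0`, `z = BB y`: `AA (BB (BB y)) = BB (AA (BB y)) + a η_k BB y = (ν_k + |a|) z`. For `a η_k < 0`,
`z = AA y`: `AA (BB (AA y)) = AA (AA (BB y) - a η_k y) = (ν_k - a η_k) z = (ν_k + |a|) z`.
-/

set_option linter.unusedSectionVars false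

namespace Pool.Agent.Work.MP_dd0ddf_al.AR.O

open scoped SchwartzMap Matrix.Norms.Elementwise ComplexConjugate ContDiff Topology LineDeriv
open Matrix MeasureTheory Filter

variable {n : ℕ}

private theorem olow_ane {η : Fin n → ℝ} {a : ℝ} (ha : a ≠ 0)
    (hη : ∀ j, η j = 1 ∨ η j = -1) (k : Fin n) (hk : ¬ 0 < a * η k) : a * η k < 0 := by
  have h0 : η k ≠ 0 := by
    rcases hη k with h | h <;> rw [h] <;> norm_num
  exact lt_of_le_of_ne (not_lt.mp hk) (mul_ne_zero ha h0)

private theorem olow_comm {ε η : Fin n → ℝ} (hep : ∀ j, ε j = 1 ∨ ε j = -1) {a : ℝ}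
    {u : Mat n} (hF : Frm ε η u) (k : Fin n) (y : Sch n) :
    AA ε a (u k) (BB ε a (u k) y) = BB ε a (u k) (AA ε a (u k) y) + ((a * η k : ℝ) : ℂ) • y := by
  rw [AA_BB_comm hep a (u k) (u k) y, hF k k, if_pos rfl, Complex.ofReal_mul]

private theorem olow_comm' {ε η : Fin n → ℝ} (hep : ∀ j, ε j = 1 ∨ ε j = -1) {a : ℝ}
    {u : Mat n} (hF : Frm ε η u) {k l : Fin n} (hkl : k ≠ l) (y : Sch n) :
    AA ε a (u k) (BB ε a (u l) y) = BB ε a (u l) (AA ε a (u k) y) := by
  rw [AA_BB_comm hep a (u k) (u l) y, hF k l, if_neg hkl, mul_zero, zero_smul, add_zero]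

theorem low_ne {ε η : Fin n → ℝ} (hep : ∀ j, ε j = 1 ∨ ε j = -1) {a : ℝ} (ha : a ≠ 0)
    (hη : ∀ j, η j = 1 ∨ η j = -1) {u : Mat n} (hF : Frm ε η u) {ν : Fin n → ℂ} {y : Sch n}
    (hy : Eig ε a u ν y) (k : Fin n) (hν : ν k ≠ (tpv a η k : ℂ)) (h : low ε a η u k y = 0) :
    y = 0 := by
  by_cases hk : 0 < a * η k
  · have h1 := hy k
    have hl : low ε a η u k = BB ε a (u k) := if_pos hk
    rw [hl] at h
    rw [h, map_zero] at h1
    have ht : tpv a η k = 0 := min_eq_left hk.le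
    rw [ht, Complex.ofReal_zero] at hν
    exact (smul_eq_zero.mp h1.symm).resolve_left hν
  · have hk' := olow_ane ha hη k hk
    have h1 := hy k
    have hl : low ε a η u k = AA ε a (u k) := if_neg hk
    rw [hl] at h
    rw [olow_comm hep hF k y, h, map_zero, zero_add] at h1
    have ht : tpv a η k = a * η k := min_eq_right hk'.le
    rw [ht] at hν
    have h2 : (ν k - ((a * η k : ℝ) : ℂ)) • y = 0 := by
      rw [sub_smul, ← h1, sub_self]
    exact (smul_eq_zero.mp h2).resolve_left (sub_ne_zero.mpr hν)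

theorem low_top {ε η : Fin n → ℝ} (hep : ∀ j, ε j = 1 ∨ ε j = -1) {a : ℝ} (ha : a ≠ 0)
    (hη : ∀ j, η j = 1 ∨ η j = -1) {u : Mat n} (hF : Frm ε η u) {ν : Fin n → ℂ} {y : Sch n}
    (hy : Eig ε a u ν y) (k : Fin n) (hν : ν k = (tpv a η k : ℂ)) : low ε a η u k y = 0 := by
  by_cases hk : 0 < a * η k
  · have h1 := hy k
    have hl : low ε a η u k = BB ε a (u k) := if_pos hk
    have ht : tpv a η k = 0 := min_eq_left hk.le
    rw [ht, Complex.ofReal_zero] at hν
    rw [hν, zero_smul] at h1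
    rw [hl]
    exact BB_eq_zero h1
  · have hk' := olow_ane ha hη k hk
    have h1 := hy k
    have hl : low ε a η u k = AA ε a (u k) := if_neg hk
    have ht : tpv a η k = a * η k := min_eq_right hk'.le
    rw [ht] at hν
    rw [olow_comm hep hF k y, hν] at h1
    rw [hl]
    exact AA_eq_zero (add_eq_right.mp h1)

theorem low_eig {ε η : Fin n → ℝ} (hep : ∀ j, ε j = 1 ∨ ε j = -1) {a : ℝ} (ha : a ≠ 0)
    (hη : ∀ j, η j = 1 ∨ η j = -1) {u : Mat n} (hF : Frm ε η u) {ν : Fin n → ℂ} {y : Sch n}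
    (hy : Eig ε a u ν y) (k : Fin n) :
    Eig ε a u (Function.update ν k (ν k + (|a| : ℝ))) (low ε a η u k y) := by
  intro l
  by_cases hlk : l = k
  · subst hlk
    rw [Function.update_self]
    have h1 := hy l
    by_cases hk : 0 < a * η l
    · have hl : low ε a η u l = BB ε a (u l) := if_pos hk
      have habs : |a| = a * η l := by
        rcases hη l with h | h <;> rw [h] at hk ⊢
        · rw [mul_one] at hk ⊢
          exact abs_of_pos hk
        · have : a < 0 := by linarith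
          rw [abs_of_neg this]
          ring
      rw [hl, olow_comm hep hF l, h1, habs, map_smul, add_smul]
    · have hk' := olow_ane ha hη l hk
      have hl : low ε a η u l = AA ε a (u l) := if_neg hk
      have habs : |a| = -(a * η l) := by
        rcases hη l with h | h <;> rw [h] at hk' ⊢
        · rw [mul_one] at hk' ⊢
          exact abs_of_neg hk'
        · have : 0 < a := by linarith
          rw [abs_of_pos this]
          ring
      have h2 : BB ε a (u l) (AA ε a (u l) y) = (ν l - ((a * η l : ℝ) : ℂ)) • y := by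
        rw [sub_smul, ← h1, olow_comm hep hF l y, add_sub_cancel_right]
      rw [hl, h2, map_smul, habs, Complex.ofReal_neg, ← sub_eq_add_neg]
  · rw [Function.update_of_ne hlk]
    have h1 := hy l
    by_cases hk : 0 < a * η k
    · have hl : low ε a η u k = BB ε a (u k) := if_pos hk
      rw [hl, BB_BB_comm, olow_comm' hep hF hlk, h1, map_smul]
    · have hl : low ε a η u k = AA ε a (u k) := if_neg hk
      rw [hl, ← olow_comm' hep hF (Ne.symm hlk), AA_AA_comm, h1, map_smul]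

end Pool.Agent.Work.MP_dd0ddf_al.AR.O
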