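import Pool.Agent.Work.MP_dd0ddf_al.AR.ODefs

/-!
# O-block, module OOde (M): uniqueness for a first order system

PROOF. `C` is invertible: `fderiv ℝ y t (Pi.single j 1) = (∑_k C⁻¹_jk m k t) y t`. Fix `t0` and put `φ(τ) = y (τ • t0)`; then
`φ'(τ) = fderiv ℝ y (τ t0) t0 = ∑_j t0_j fderiv ℝ y (τ t0) (Pi.single j 1) = q(τ) φ(τ)` with `q` continuous (`t0 = ∑ t0_j Pi.single j 1`), `φ(0) = y 0 = 0`.
On `[0,1]` `|q| ≤ K`, so `‖φ'‖ ≤ K ‖φ‖` and `φ = 0` on `[0,1]` (Mathlib: `eq_zero_of_abs_deriv_le_mul_abs_self_of_eq_zero_right`,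
`norm_le_gronwallBound_of_norm_deriv_right_le` or `ODE_solution_unique`), so `y t0 = φ(1) = 0`.
-/

set_option linter.unusedSectionVars false

namespace Pool.Agent.Work.MP_dd0ddf_al.AR.O

open scoped SchwartzMap Matrix.Norms.Elementwise ComplexConjugate ContDiff Topology LineDeriv
open Matrix MeasureTheory Filter

variable {n : ℕ}

theorem ode_zero {C : Mat n} (hC : C.det ≠ 0) (m : Fin n → (Fin n → ℝ) → ℂ)
    (hm : ∀ k, Continuous (m k)) {y : Sch n}
    (h : ∀ k t, ∑ j, C k j * fderiv ℝ y t (Pi.single j 1) = m k t * y t) (h0 : y 0 = 0) : y = 0 := by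
  have hv : ∀ t, (fun j => fderiv ℝ y t (Pi.single j 1)) = C⁻¹ *ᵥ fun k => m k t * y t := by
    intro t
    have h1 : C *ᵥ (fun j => fderiv ℝ y t (Pi.single j 1)) = fun k => m k t * y t := by
      funext k
      exact h k t
    rw [← h1, Matrix.mulVec_mulVec, Matrix.nonsing_inv_mul _ (isUnit_iff_ne_zero.2 hC),
      Matrix.one_mulVec]
  ext t0
  have hlin : ∀ L : (Fin n → ℝ) →L[ℝ] ℂ, L t0 = ∑ j, (t0 j : ℂ) * L (Pi.single j 1) := by
    intro L
    have h5 : t0 = ∑ j, t0 j • (Pi.single j (1 : ℝ) : Fin n → ℝ) := by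
      funext i
      simp [Finset.sum_apply, Pi.single_apply]
    have h6 := congrArg L h5
    rw [h6, map_sum]
    refine Finset.sum_congr rfl fun j _ => ?_
    rw [map_smul, Complex.real_smul]
  let q : ℝ → ℂ := fun τ => ∑ j, (t0 j : ℂ) * ∑ k, C⁻¹ j k * m k (τ • t0)
  have hqc : Continuous q :=
    continuous_finsetSum _ fun j _ => continuous_const.mul
      (continuous_finsetSum _ fun k _ => continuous_const.mul
        ((hm k).comp (continuous_id.smul continuous_const)))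
  have hd : ∀ τ : ℝ, HasDerivAt (fun τ : ℝ => y (τ • t0)) (q τ * y (τ • t0)) τ := by
    intro τ
    have h1 : HasFDerivAt y (fderiv ℝ y (τ • t0)) (τ • t0) := y.differentiableAt.hasFDerivAt
    have h2 : HasDerivAt (fun τ : ℝ => τ • t0) t0 τ := by
      simpa using (hasDerivAt_id τ).smul_const t0
    have h3 := h1.comp_hasDerivAt τ h2
    have h4 : fderiv ℝ y (τ • t0) t0 = q τ * y (τ • t0) := by
      rw [hlin]
      show _ = (∑ j, (t0 j : ℂ) * ∑ k, C⁻¹ j k * m k (τ • t0)) * y (τ • t0)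
      rw [Finset.sum_mul]
      refine Finset.sum_congr rfl fun j _ => ?_
      have h7 : fderiv ℝ y (τ • t0) (Pi.single j 1) =
          ∑ k, C⁻¹ j k * (m k (τ • t0) * y (τ • t0)) := congrFun (hv (τ • t0)) j
      rw [h7, mul_assoc, Finset.sum_mul]
      congr 1
      refine Finset.sum_congr rfl fun k _ => ?_
      ring
    rw [← h4]
    exact h3
  let Q : ℝ → ℂ := fun τ => ∫ s in (0 : ℝ)..τ, q s
  have hQ : ∀ τ : ℝ, HasDerivAt Q (q τ) τ := fun τ =>
    (hqc.integral_hasStrictDerivAt 0 τ).hasDerivAt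
  have hg : ∀ τ : ℝ, HasDerivAt (fun τ : ℝ => Complex.exp (-Q τ) * y (τ • t0)) 0 τ := by
    intro τ
    have h8 := ((hQ τ).neg.cexp).mul (hd τ)
    have h9 : Complex.exp (-Q τ) * -q τ * y (τ • t0) +
        Complex.exp (-Q τ) * (q τ * y (τ • t0)) = 0 := by ring
    have h10 : HasDerivAt (fun τ : ℝ => Complex.exp (-Q τ) * y (τ • t0))
        (Complex.exp (-Q τ) * -q τ * y (τ • t0) +
        Complex.exp (-Q τ) * (q τ * y (τ • t0))) τ := h8
    rw [h9] at h10
    exact h10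
  have hconst := is_const_of_deriv_eq_zero (fun τ => (hg τ).differentiableAt)
    (fun τ => (hg τ).deriv) 1 0
  have hz : Complex.exp (-Q 1) * y t0 = 0 := by
    simpa [h0] using hconst
  rcases mul_eq_zero.1 hz with h11 | h11
  · exact absurd h11 (Complex.exp_ne_zero _)
  · exact h11

end Pool.Agent.Work.MP_dd0ddf_al.AR.O
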