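import Pool.Agent.Work.MP_dd0ddf_al.AR.OVac
import Pool.Agent.Work.MP_dd0ddf_al.AR.OLow

/-!
# O-block, module OWd (S-M): joint eigenspaces have dimension at most one

PROOF. Claim `P(m)`: for all `ν`, `y`, `y'` with `∑_k (tpv_k - (ν k).re) ≤ m |a|` the vectors `y`, `y'` are dependent; induction on `m : ℕ`; every `ν` satisfies the hypothesis for some `m`.
If `y = 0` take `c = 1`, `c' = 0`. Otherwise by `eig_bound` (`hF k k`) all `ν k` are real and `(ν k).re ≤ min 0 (a η k) = tpv_k`. If all `ν k = tpv_k`: `low_top` for `y` and `y'`, then `vac_dim`.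
Otherwise there is `k` with `ν k ≠ tpv_k`, so `(ν k).re < tpv_k`. `z = low k y`, `z' = low k y'` are in the eigenspace of `ν' = update ν k (ν k + |a|)` (`low_eig`).
If `z = 0` then `y = 0` (`low_ne`), contradiction; so `z ≠ 0`, and by `eig_bound` for `z`: `tpv_l - (ν' l).re ≥ 0` for all `l`; the sum for `ν'` is the sum for `ν` minus `|a|`; for `m = 0` the sum for `ν` is `≤ 0` but
it is a sum of nonnegative terms with a positive one: impossible; for `m + 1` use `P(m)` for `ν'`: `c z + c' z' = 0`, so `low k (c y + c' y') = 0`, and `c y + c' y'` is in the eigenspace of `ν`: `low_ne` gives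
`c y + c' y' = 0`.
-/

set_option linter.unusedSectionVars false

namespace Pool.Agent.Work.MP_dd0ddf_al.AR.O

open scoped SchwartzMap Matrix.Norms.Elementwise ComplexConjugate ContDiff Topology LineDeriv
open Matrix MeasureTheory Filter

variable {n : ℕ}

private theorem eig_b {ε η : Fin n → ℝ} (hep : ∀ j, ε j = 1 ∨ ε j = -1) {a : ℝ} {u : Mat n}
    (hF : Frm ε η u) {ν : Fin n → ℂ} {y : Sch n} (hy : Eig ε a u ν y) (hy0 : y ≠ 0) (k : Fin n) :
    (ν k).im = 0 ∧ (ν k).re ≤ tpv a η k := by
  have h := eig_bound hep (by rw [hF k k, if_pos rfl] : hf ε (u k) (u k) = (η k : ℂ)) hy0 (hy k)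
  exact ⟨h.1, le_min h.2.1 h.2.2⟩

private theorem wt_aux {ε η : Fin n → ℝ} (hep : ∀ j, ε j = 1 ∨ ε j = -1) {a : ℝ} (ha : a ≠ 0)
    (hη : ∀ j, η j = 1 ∨ η j = -1) {u : Mat n} (hF : Frm ε η u) (m : ℕ) :
    ∀ (ν : Fin n → ℂ) (y y' : Sch n), Eig ε a u ν y → Eig ε a u ν y' →
      ∑ k, (tpv a η k - (ν k).re) ≤ m * |a| →
      ∃ c c' : ℂ, (c ≠ 0 ∨ c' ≠ 0) ∧ c • y + c' • y' = 0 := by
  induction m with
  | zero =>
    intro ν y y' hy hy' hs
    by_cases hy0 : y = 0
    · exact ⟨1, 0, Or.inl one_ne_zero, by rw [hy0, smul_zero, zero_smul, add_zero]⟩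
    have hb := fun k => eig_b hep hF hy hy0 k
    by_cases hall : ∀ k, ν k = (tpv a η k : ℂ)
    · exact vac_dim ha hη hF (fun k => low_top hep ha hη hF hy k (hall k))
        (fun k => low_top hep ha hη hF hy' k (hall k))
    · exfalso
      push Not at hall
      obtain ⟨k, hk⟩ := hall
      have hlt : 0 < tpv a η k - (ν k).re := by
        rcases (sub_nonneg.mpr (hb k).2).lt_or_eq with h | h
        · exact h
        · exfalso
          apply hk
          apply Complex.ext
          · rw [Complex.ofReal_re]; linarith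
          · rw [Complex.ofReal_im, (hb k).1]
      have : 0 < ∑ k, (tpv a η k - (ν k).re) :=
        Finset.sum_pos' (fun l _ => sub_nonneg.mpr (hb l).2) ⟨k, Finset.mem_univ k, hlt⟩
      rw [Nat.cast_zero, zero_mul] at hs
      linarith
  | succ m ih =>
    intro ν y y' hy hy' hs
    by_cases hy0 : y = 0
    · exact ⟨1, 0, Or.inl one_ne_zero, by rw [hy0, smul_zero, zero_smul, add_zero]⟩
    by_cases hall : ∀ k, ν k = (tpv a η k : ℂ)
    · exact vac_dim ha hη hF (fun k => low_top hep ha hη hF hy k (hall k))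
        (fun k => low_top hep ha hη hF hy' k (hall k))
    · push Not at hall
      obtain ⟨k, hk⟩ := hall
      obtain ⟨c, c', hc, h⟩ := ih (Function.update ν k (ν k + (|a| : ℝ))) _ _
        (low_eig hep ha hη hF hy k) (low_eig hep ha hη hF hy' k) (by
          have h1 : ∑ l, (tpv a η l - ((Function.update ν k (ν k + (|a| : ℝ))) l).re) =
              ∑ l, (tpv a η l - (ν l).re) - |a| := by
            have h2 : ∀ l, tpv a η l - ((Function.update ν k (ν k + (|a| : ℝ))) l).re =
                (tpv a η l - (ν l).re) - (if l = k then |a| else 0) := by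
              intro l
              by_cases hl : l = k
              · subst hl
                rw [Function.update_self, if_pos rfl, Complex.add_re, Complex.ofReal_re]
                ring
              · rw [Function.update_of_ne hl, if_neg hl, sub_zero]
            rw [Finset.sum_congr rfl fun l _ => h2 l, Finset.sum_sub_distrib,
              Finset.sum_ite_eq' Finset.univ k, if_pos (Finset.mem_univ k)]
          rw [h1]
          push_cast at hs
          linarith)
      refine ⟨c, c', hc, ?_⟩
      rw [← map_smul, ← map_smul, ← map_add] at h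
      have he : Eig ε a u ν (c • y + c' • y') := by
        intro l
        rw [map_add, map_smul, map_smul, map_add, map_smul, map_smul, hy l, hy' l, smul_add,
          smul_comm c, smul_comm c']
      exact low_ne hep ha hη hF he k hk h

theorem wt_dim {ε η : Fin n → ℝ} (hep : ∀ j, ε j = 1 ∨ ε j = -1) {a : ℝ} (ha : a ≠ 0)
    (hη : ∀ j, η j = 1 ∨ η j = -1) {u : Mat n} (hF : Frm ε η u) {ν : Fin n → ℂ} {y y' : Sch n}
    (hy : Eig ε a u ν y) (hy' : Eig ε a u ν y') :
    ∃ c c' : ℂ, (c ≠ 0 ∨ c' ≠ 0) ∧ c • y + c' • y' = 0 := by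
  obtain ⟨m, hm⟩ := exists_nat_ge ((∑ k, (tpv a η k - (ν k).re)) / |a|)
  refine wt_aux hep ha hη hF m ν y y' hy hy' ?_
  rwa [div_le_iff₀ (abs_pos.mpr ha)] at hm

end Pool.Agent.Work.MP_dd0ddf_al.AR.O
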