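import Pool.Agent.Work.MP_dd0ddf_al.AR.OLft

/-!
# O-block, module OWtE (S): the weight equation

PROOF. Apply `L` to `hβ` for `k = j`: the left side is `(I k_j) • L β` (`left_im`), the right side is `η_j • L (dg (g * Zm ε (g0 j)) β)` (linear) `= η_j • ((I/a) • AA (BB (L β)) + (I c1 hf (g0 j) (g0 j)) • L β)` and `hf (g0 j) (g0 j) = η_j`, `η_j^2 = 1`. So
`AA (BB (L β)) = (a η_j (k_j - c1)) • L β` (multiply by `a η_j / I`).
-/

set_option linter.unusedSectionVars false

namespace Pool.Agent.Work.MP_dd0ddf_al.AR.O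

open scoped SchwartzMap Matrix.Norms.Elementwise ComplexConjugate ContDiff Topology LineDeriv
open Matrix MeasureTheory Filter

variable {n : ℕ}

theorem wt_eig {ε η : Fin n → ℝ} {a : ℝ} (ha : a ≠ 0) (hη : ∀ j, η j = 1 ∨ η j = -1)
    {W : Weil ε a} {s : Fin n → ℂ} {k : Fin n → ℤ} {c1 : ℂ} {L : (Mat n → ℂ) →ₗ[ℂ] Sch n}
    (hL : Equi W s k L)
    (hc : ∀ u, ∀ f ∈ TGs (GLs n), L (dg (fun g => g * Zm ε u) f) =
      (Complex.I / a) • AA ε a u (BB ε a u (L f)) + (Complex.I * c1 * hf ε u u) • L f)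
    {g0 : Mat n} (hg0 : Frm ε η g0) {β : Mat n → ℂ} (hβ' : β ∈ TGs (GLs n))
    (hβ : ∀ k, dg (fun g => Matrix.single k k Complex.I * g) β =
        fun g => (η k : ℂ) * dg (fun g => g * Zm ε (g0 k)) β g) :
    Eig ε a g0 (fun j => (a : ℂ) * η j * ((k j : ℂ) - c1)) (L β) := by
  intro j
  have h1 := left_im hL j hβ'
  have h2 := hc (g0 j) β hβ'
  have h3 : hf ε (g0 j) (g0 j) = (η j : ℂ) := by rw [hg0 j j, if_pos rfl]
  have h4 : (fun g => (η j : ℂ) * dg (fun g => g * Zm ε (g0 j)) β g) =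
      (η j : ℂ) • dg (fun g => g * Zm ε (g0 j)) β := rfl
  rw [hβ j, h4, map_smul, h2, h3] at h1
  have ha' : (a : ℂ) ≠ 0 := Complex.ofReal_ne_zero.mpr ha
  have he : (η j : ℂ) * (η j : ℂ) = 1 := by
    rcases hη j with h | h <;> rw [h] <;> norm_num
  have h5 := congrArg (fun z : Sch n => ((a : ℂ) * η j * (-Complex.I)) • z) h1
  simp only [smul_add, smul_smul] at h5
  have e1 : (a : ℂ) * η j * (-Complex.I) * (η j * (Complex.I / a)) = 1 := by
    have : (a : ℂ) * η j * (-Complex.I) * (η j * (Complex.I / a)) =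
        ((η j : ℂ) * η j) * (-(Complex.I * Complex.I)) * (a / a) := by ring
    rw [this, he, Complex.I_mul_I, div_self ha']
    ring
  rw [e1, one_smul] at h5
  have e2 : (a : ℂ) * η j * (-Complex.I) * (η j * (Complex.I * c1 * η j)) = a * η j * c1 := by
    have : (a : ℂ) * η j * (-Complex.I) * (η j * (Complex.I * c1 * η j)) =
        ((η j : ℂ) * η j) * (-(Complex.I * Complex.I)) * (a * η j * c1) := by ring
    rw [this, he, Complex.I_mul_I]
    ring
  have e3 : (a : ℂ) * η j * (-Complex.I) * (Complex.I * (k j : ℂ)) = a * η j * k j := by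
    have : (a : ℂ) * η j * (-Complex.I) * (Complex.I * (k j : ℂ)) =
        (-(Complex.I * Complex.I)) * (a * η j * k j) := by ring
    rw [this, Complex.I_mul_I]
    ring
  rw [e2, e3] at h5
  rw [eq_sub_of_add_eq h5, ← sub_smul]
  congr 1
  ring

end Pool.Agent.Work.MP_dd0ddf_al.AR.O
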