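import Pool.Agent.Work.MP_dd0ddf_al.AR.OLim
import Pool.Agent.Work.MP_dd0ddf_al.AR.OAvg
import Pool.Agent.Work.MP_dd0ddf_al.AR.OBmp
import Pool.Agent.Work.MP_dd0ddf_al.AR.OWtE
import Pool.Agent.Work.MP_dd0ddf_al.AR.OWd

/-!
# O-block, module OPat (M): one sign pattern

PROOF. Let `g0` be a frame (if there is an element `x0 ∈ Ue ε η`: `g0 = uu ε x0`, `uu_frm`), `β_i` from `exists_bmp`, `μ = Measure.addHaar`, `m_i` from `exists_mass`, `ν_j = a η_j (k_j - c1)`. For an equivariant `L` (satisfying the equation `hc`) and `f ∈ TGs (Ue ε η)`: `m_i * AvF f (L β_i) t → L f t` (`exists_mass` with `ℓ = lt L t`, `fin_of_cont`,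
`FinOrd.mono`, `avg`), and `L β_i ∈ Eig ν` (`wt_eig`, `TGs_mono`).
`pat_eig`: if `L f ≠ 0`, `f ∈ TGs (Ue ε η)`, then `f ≠ 0` and `Ue ε η` is nonempty, `L f t ≠ 0` for some `t`; if all `L β_i = 0` then `AvF f (L β_i) t = 0` (`AvF_smul` with `c = 0`) and the limit is `0`, contradiction; so `y = L β_i ≠ 0` for some `i`.
`pat_dep`: if `L1` and `L2` vanish on `TGs (Ue ε η)` take `α1 = 1`, `α2 = 0`. Otherwise `Ue ε η` is nonempty; fix `g0`, `β_i`, `m_i`; as in `pat_eig` there is a nonzero `e ∈ Eig ν` (one of the `L1 β_i`, `L2 β_i`). By `wt_dim` every `y ∈ Eig ν` is a multiple of `e`: `L_j β_i = c^j_i e`, so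
`L_j f t = lim m_i c^j_i A(f,t)`, `A(f,t) = AvF f e t` (`AvF_smul`). One of the `L_j f t` is nonzero for some `f0`, `t0`, so `A(f0,t0) ≠ 0` and the sequences `m_i c^j_i` converge: `a_j = L_j f0 t0 / A(f0,t0)`, `L_j f t = a_j A(f,t)` for all `f`, `t` (uniqueness of limits), `(a_1, a_2) ≠ 0`.
Take `α1 = a_2`, `α2 = -a_1`.
-/

set_option linter.unusedSectionVars false

namespace Pool.Agent.Work.MP_dd0ddf_al.AR.O

open scoped SchwartzMap Matrix.Norms.Elementwise ComplexConjugate ContDiff Topology LineDeriv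
open Matrix MeasureTheory Filter

variable {n : ℕ}

private theorem pat_core {ε η : Fin n → ℝ} (hep : ∀ j, ε j = 1 ∨ ε j = -1) {a : ℝ} (ha : a ≠ 0)
    (hη : ∀ j, η j = 1 ∨ η j = -1) {W : Weil ε a} {s : Fin n → ℂ} {k : Fin n → ℤ} {c1 : ℂ}
    (hc : ∀ L : (Mat n → ℂ) →ₗ[ℂ] Sch n, Equi W s k L → ∀ u : Fin n → ℂ, ∀ f ∈ TGs (GLs n),
      L (dg (fun g => g * Zm ε u) f) =
        (Complex.I / a) • AA ε a u (BB ε a u (L f)) + (Complex.I * c1 * hf ε u u) • L f)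
    {g0 : Mat n} (hg0 : Frm ε η g0) :
    ∃ (β : ℕ → Mat n → ℂ) (m : ℕ → ℂ),
      (∀ L : (Mat n → ℂ) →ₗ[ℂ] Sch n, Equi W s k L → ∀ i,
        Eig ε a g0 (fun j => (a : ℂ) * η j * ((k j : ℂ) - c1)) (L (β i))) ∧
      (∀ L : (Mat n → ℂ) →ₗ[ℂ] Sch n, Equi W s k L → ∀ f ∈ TGs (Ue ε η), ∀ t : Fin n → ℝ,
        Tendsto (fun i => m i * AvF W s k g0 Measure.addHaar f (L (β i)) t) atTop
          (𝓝 (L f t))) := by
  obtain ⟨β, hβ, hβ1, hβ2, hβ3, hβ4⟩ := exists_bmp hep hη hg0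
  obtain ⟨m, hm⟩ := exists_mass hep hη hg0 (Measure.addHaar : Measure (Mat n)) hβ hβ1 hβ2 hβ3
  refine ⟨β, m, fun L hL i => ?_, fun L hL f hf' t => ?_⟩
  · exact wt_eig ha hη hL (hc L hL) hg0 (TGs_mono (Ue_subset ε η) (hβ i)) (hβ4 i)
  · have h := hm (lt L t) ((fin_of_cont hL.cont t).mono (Ue_subset ε η)) f hf'
    simp only [lt_apply] at h
    refine h.congr fun i => ?_
    rw [avg hep hη hL hg0 hf' (hβ i) Measure.addHaar t]

private theorem pat_frm {ε η : Fin n → ℝ} (hη : ∀ j, η j = 1 ∨ η j = -1)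
    {L : (Mat n → ℂ) →ₗ[ℂ] Sch n} {f : Mat n → ℂ} (hf' : f ∈ TGs (Ue ε η)) (hne : L f ≠ 0) :
    ∃ g0 : Mat n, Frm ε η g0 := by
  have h0 : ∃ x0, f x0 ≠ 0 := by
    by_contra hcon
    push Not at hcon
    apply hne
    have : f = 0 := funext hcon
    rw [this, map_zero]
  obtain ⟨x0, hx0⟩ := h0
  obtain ⟨K, -, hKU, -, hK0⟩ := hf'
  have hxK : x0 ∈ K := by
    by_contra h
    exact hx0 (hK0 x0 h)
  exact ⟨uu ε x0, uu_frm hη (hKU hxK)⟩

private theorem exists_ne {y : Sch n} (hy : y ≠ 0) : ∃ t, y t ≠ 0 := by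
  by_contra hcon
  push Not at hcon
  apply hy
  ext t
  rw [hcon t]
  rfl

private theorem AvF_zero {ε : Fin n → ℝ} {a : ℝ} (W : Weil ε a) (s : Fin n → ℂ) (k : Fin n → ℤ)
    (g0 : Mat n) (μ : Measure (Mat n)) (f : Mat n → ℂ) (t : Fin n → ℝ) :
    AvF W s k g0 μ f 0 t = 0 := by
  have h := AvF_smul W s k g0 μ f 0 (0 : Sch n) t
  rwa [smul_zero, zero_mul] at h

private theorem pat_ne {W' : ℕ → Sch n} {A : Sch n → ℂ} (hA : A 0 = 0) {m : ℕ → ℂ} {z : ℂ}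
    (hz : z ≠ 0) (h : Tendsto (fun i => m i * A (W' i)) atTop (𝓝 z)) : ∃ i, W' i ≠ 0 := by
  by_contra hcon
  push Not at hcon
  apply hz
  refine tendsto_nhds_unique h ?_
  have : (fun i => m i * A (W' i)) = fun _ => 0 := by
    funext i
    rw [hcon i, hA, mul_zero]
  rw [this]
  exact tendsto_const_nhds

theorem pat_eig {ε η : Fin n → ℝ} (hep : ∀ j, ε j = 1 ∨ ε j = -1) {a : ℝ} (ha : a ≠ 0)
    (hη : ∀ j, η j = 1 ∨ η j = -1) {W : Weil ε a} {s : Fin n → ℂ} {k : Fin n → ℤ} {c1 : ℂ}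
    (hc : ∀ L : (Mat n → ℂ) →ₗ[ℂ] Sch n, Equi W s k L → ∀ u : Fin n → ℂ, ∀ f ∈ TGs (GLs n),
      L (dg (fun g => g * Zm ε u) f) =
        (Complex.I / a) • AA ε a u (BB ε a u (L f)) + (Complex.I * c1 * hf ε u u) • L f)
    {L : (Mat n → ℂ) →ₗ[ℂ] Sch n} (hL : Equi W s k L) {f : Mat n → ℂ} (hf' : f ∈ TGs (Ue ε η))
    (hne : L f ≠ 0) :
    ∃ (g0 : Mat n) (y : Sch n), Frm ε η g0 ∧ y ≠ 0 ∧
      Eig ε a g0 (fun j => (a : ℂ) * η j * ((k j : ℂ) - c1)) y := by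
  obtain ⟨g0, hg0⟩ := pat_frm hη hf' hne
  obtain ⟨β, m, hE, hT⟩ := pat_core hep ha hη hc hg0
  obtain ⟨t, ht⟩ := exists_ne hne
  obtain ⟨i, hi⟩ := pat_ne (A := fun y => AvF W s k g0 Measure.addHaar f y t)
    (AvF_zero W s k g0 _ f t) ht (hT L hL f hf' t)
  exact ⟨g0, L (β i), hg0, hi, hE L hL i⟩

theorem pat_dep {ε η : Fin n → ℝ} (hep : ∀ j, ε j = 1 ∨ ε j = -1) {a : ℝ} (ha : a ≠ 0)
    (hη : ∀ j, η j = 1 ∨ η j = -1) {W : Weil ε a} {s : Fin n → ℂ} {k : Fin n → ℤ} {c1 : ℂ}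
    (hc : ∀ L : (Mat n → ℂ) →ₗ[ℂ] Sch n, Equi W s k L → ∀ u : Fin n → ℂ, ∀ f ∈ TGs (GLs n),
      L (dg (fun g => g * Zm ε u) f) =
        (Complex.I / a) • AA ε a u (BB ε a u (L f)) + (Complex.I * c1 * hf ε u u) • L f)
    {L1 L2 : (Mat n → ℂ) →ₗ[ℂ] Sch n} (h1 : Equi W s k L1) (h2 : Equi W s k L2) :
    ∃ α1 α2 : ℂ, (α1 ≠ 0 ∨ α2 ≠ 0) ∧ ∀ f ∈ TGs (Ue ε η), α1 • L1 f + α2 • L2 f = 0 := by
  by_cases hall : ∀ f ∈ TGs (Ue ε η), L1 f = 0
  · exact ⟨1, 0, Or.inl one_ne_zero, fun f hf' => by rw [hall f hf', smul_zero, zero_smul, add_zero]⟩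
  push Not at hall
  obtain ⟨f0, hf0, hne⟩ := hall
  obtain ⟨g0, hg0⟩ := pat_frm hη hf0 hne
  obtain ⟨β, m, hE, hT⟩ := pat_core hep ha hη hc hg0
  obtain ⟨t0, ht0⟩ := exists_ne hne
  obtain ⟨i0, hi0⟩ := pat_ne (A := fun y => AvF W s k g0 Measure.addHaar f0 y t0)
    (AvF_zero W s k g0 _ f0 t0) ht0 (hT L1 h1 f0 hf0 t0)
  have key : ∀ L : (Mat n → ℂ) →ₗ[ℂ] Sch n, Equi W s k L → ∀ i, ∃ c : ℂ,
      L (β i) = c • L1 (β i0) := by
    intro L hL i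
    obtain ⟨c, c', hcc, h⟩ := wt_dim hep ha hη hg0 (hE L1 h1 i0) (hE L hL i)
    have hc' : c' ≠ 0 := by
      rintro rfl
      rw [zero_smul, add_zero] at h
      rcases smul_eq_zero.mp h with h | h
      · rcases hcc with hcc | hcc
        · exact hcc h
        · exact hcc rfl
      · exact hi0 h
    refine ⟨-(c'⁻¹ * c), ?_⟩
    have h2 := congrArg (fun z : Sch n => c'⁻¹ • z) h
    simp only [smul_add, smul_smul, smul_zero, inv_mul_cancel₀ hc', one_smul] at h2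
    rw [neg_smul]
    exact eq_neg_of_add_eq_zero_right h2
  choose c1' hc1' using key L1 h1
  choose c2' hc2' using key L2 h2
  have lim1 : ∀ f ∈ TGs (Ue ε η), ∀ t, Tendsto (fun i => (m i * c1' i) *
      AvF W s k g0 Measure.addHaar f (L1 (β i0)) t) atTop (𝓝 (L1 f t)) := by
    intro f hf' t
    refine (hT L1 h1 f hf' t).congr fun i => ?_
    rw [hc1' i, AvF_smul, mul_assoc]
  have lim2 : ∀ f ∈ TGs (Ue ε η), ∀ t, Tendsto (fun i => (m i * c2' i) *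
      AvF W s k g0 Measure.addHaar f (L1 (β i0)) t) atTop (𝓝 (L2 f t)) := by
    intro f hf' t
    refine (hT L2 h2 f hf' t).congr fun i => ?_
    rw [hc2' i, AvF_smul, mul_assoc]
  have hA : AvF W s k g0 Measure.addHaar f0 (L1 (β i0)) t0 ≠ 0 := by
    intro h
    apply ht0
    refine tendsto_nhds_unique (lim1 f0 hf0 t0) ?_
    rw [h]
    simp only [mul_zero]
    exact tendsto_const_nhds
  have u1 := (lim1 f0 hf0 t0).div_const (AvF W s k g0 Measure.addHaar f0 (L1 (β i0)) t0)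
  have u2 := (lim2 f0 hf0 t0).div_const (AvF W s k g0 Measure.addHaar f0 (L1 (β i0)) t0)
  simp only [mul_div_cancel_right₀ _ hA] at u1 u2
  have e1 : ∀ f ∈ TGs (Ue ε η), ∀ t, L1 f t =
      L1 f0 t0 / AvF W s k g0 Measure.addHaar f0 (L1 (β i0)) t0 *
        AvF W s k g0 Measure.addHaar f (L1 (β i0)) t := fun f hf' t =>
    tendsto_nhds_unique (lim1 f hf' t) (u1.mul_const _)
  have e2 : ∀ f ∈ TGs (Ue ε η), ∀ t, L2 f t =
      L2 f0 t0 / AvF W s k g0 Measure.addHaar f0 (L1 (β i0)) t0 *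
        AvF W s k g0 Measure.addHaar f (L1 (β i0)) t := fun f hf' t =>
    tendsto_nhds_unique (lim2 f hf' t) (u2.mul_const _)
  refine ⟨L2 f0 t0 / AvF W s k g0 Measure.addHaar f0 (L1 (β i0)) t0,
    -(L1 f0 t0 / AvF W s k g0 Measure.addHaar f0 (L1 (β i0)) t0),
    Or.inr (neg_ne_zero.mpr (div_ne_zero ht0 hA)), fun f hf' => ?_⟩
  ext t
  rw [_root_.add_apply, _root_.smul_apply, _root_.smul_apply, e1 f hf' t, e2 f hf' t, smul_eq_mul,
    smul_eq_mul, _root_.zero_apply]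
  ring

end Pool.Agent.Work.MP_dd0ddf_al.AR.O
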