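import Pool.Agent.Work.MP_dd0ddf_al.AR.OCal

/-!
# O-block, module OPdA (M): derivatives of the slices `g ↦ Φ(x, g)`

PROOF. `Φ(x, ·) = (y ↦ Φ((x, 0) + y)) ∘ inr` with the continuous linear map `inr : Mat n → E × Mat n` (`ContinuousLinearMap.inr`), so by `ContinuousLinearMap.iteratedFDeriv_comp_right` and `iteratedFDeriv_comp_add_left`:
`iteratedFDeriv ℝ m (Φ(x, ·)) g = (iteratedFDeriv ℝ m Φ (x, g)).compContinuousLinearMap (fun _ => inr)`, and this is a continuous linear function of `iteratedFDeriv ℝ m Φ (x, g)`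
(`ContinuousMultilinearMap.compContinuousLinearMapL`), which is smooth in `(x, g)` (`ContDiff.iteratedFDeriv_right`): `slice_contDiff`. `slice_supp`: if `p ∉ tsupport Φ` then `Φ = 0` near `p`, so `Φ(p.1, ·) = 0` near `p.2` and all derivatives at `p.2` vanish
(or: from the formula above and `HasCompactSupport.iteratedFDeriv`). `slice_zero`: `Φ(x, ·) = 0` on the open set `Kᶜ`. `slice_unif`: the function of `slice_contDiff` is continuous with compact support, hence uniformly continuous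
(`HasCompactSupport.uniformContinuous_of_continuous`), and `dist ((x, g), (x0, g)) = dist (x, x0)`. `slice_bdd`: continuous with compact support is bounded.
-/

set_option linter.unusedSectionVars false

namespace Pool.Agent.Work.MP_dd0ddf_al.AR.O

open scoped SchwartzMap Matrix.Norms.Elementwise ComplexConjugate ContDiff Topology LineDeriv
open Matrix MeasureTheory Filter

variable {n : ℕ}

section gen

variable {E G : Type*} [NormedAddCommGroup E] [NormedSpace ℝ E] [NormedAddCommGroup G]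
  [NormedSpace ℝ G]

private theorem slice_gen_eq {Φ : E × G → ℂ} (hΦ : ContDiff ℝ ∞ Φ) (m : ℕ) (p : E × G) :
    iteratedFDeriv ℝ m (fun g => Φ (p.1, g)) p.2 =
      (iteratedFDeriv ℝ m Φ p).compContinuousLinearMap
        fun _ => ContinuousLinearMap.inr ℝ E G := by
  have h1 : (fun g => Φ (p.1, g)) =
      (fun y => Φ ((p.1, 0) + y)) ∘ (ContinuousLinearMap.inr ℝ E G) := by
    funext g
    simp
  have h2 : ContDiff ℝ ∞ fun y : E × G => Φ ((p.1, 0) + y) :=
    hΦ.comp (contDiff_const.add contDiff_id)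
  rw [h1, ContinuousLinearMap.iteratedFDeriv_comp_right (ContinuousLinearMap.inr ℝ E G)
    h2 p.2 (i := m) (by exact_mod_cast le_top)]
  congr 1
  rw [iteratedFDeriv_comp_add_left]
  congr 1
  simp

private theorem slice_gen {Φ : E × G → ℂ} (hΦ : ContDiff ℝ ∞ Φ) (m : ℕ) :
    ContDiff ℝ ∞ (fun p : E × G => iteratedFDeriv ℝ m (fun g => Φ (p.1, g)) p.2) := by
  let T := ContinuousMultilinearMap.compContinuousLinearMapL (𝕜 := ℝ) (F := ℂ)
        (fun _ : Fin m => ContinuousLinearMap.inr ℝ E G)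
  have h1 : (fun p : E × G => iteratedFDeriv ℝ m (fun g => Φ (p.1, g)) p.2) =
      fun p => T (iteratedFDeriv ℝ m Φ p) :=
    funext fun p => slice_gen_eq hΦ m p
  rw [h1]
  have h2 : ContDiff ℝ ∞ T := ContinuousLinearMap.contDiff T
  exact h2.comp (hΦ.iteratedFDeriv_right (m := ∞) (by exact_mod_cast le_top))

end gen

section

variable {E : Type} [NormedAddCommGroup E] [NormedSpace ℝ E]

theorem slice_contDiff {Φ : E × Mat n → ℂ} (hΦ : ContDiff ℝ ∞ Φ) (m : ℕ) :
    ContDiff ℝ ∞ (fun p : E × Mat n => iteratedFDeriv ℝ m (fun g => Φ (p.1, g)) p.2) :=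
  slice_gen hΦ m

theorem slice_supp {Φ : E × Mat n → ℂ} (hc : HasCompactSupport Φ) (m : ℕ) :
    HasCompactSupport (fun p : E × Mat n => iteratedFDeriv ℝ m (fun g => Φ (p.1, g)) p.2) := by
  refine HasCompactSupport.intro hc fun p hp => ?_
  rw [notMem_tsupport_iff_eventuallyEq] at hp
  have h1 : (fun g => Φ (p.1, g)) =ᶠ[𝓝 p.2] (fun _ => (0 : ℂ)) := by
    have h2 : Tendsto (fun g : Mat n => ((p.1, g) : E × Mat n)) (𝓝 p.2) (𝓝 p) := by
      have : Continuous fun g : Mat n => ((p.1, g) : E × Mat n) := by fun_prop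
      exact this.tendsto p.2
    exact h2.eventually hp
  have h3 := h1.iteratedFDeriv ℝ m
  rw [h3.self_of_nhds]
  simp

theorem slice_zero {Φ : E × Mat n → ℂ} {K : Set (Mat n)} (hK : IsCompact K) {x : E}
    (h0 : ∀ g, g ∉ K → Φ (x, g) = 0) (m : ℕ) {g : Mat n} (hg : g ∉ K) :
    iteratedFDeriv ℝ m (fun g => Φ (x, g)) g = 0 := by
  have h1 : (fun g => Φ (x, g)) =ᶠ[𝓝 g] (fun _ => (0 : ℂ)) := by
    filter_upwards [hK.isClosed.isOpen_compl.mem_nhds hg] with y hy
    exact h0 y hy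
  have h3 := h1.iteratedFDeriv ℝ m
  rw [h3.self_of_nhds]
  simp

theorem slice_bdd {Φ : E × Mat n → ℂ} (hΦ : ContDiff ℝ ∞ Φ) (hc : HasCompactSupport Φ) (m : ℕ) :
    ∃ C : ℝ, ∀ x g, ‖iteratedFDeriv ℝ m (fun g => Φ (x, g)) g‖ ≤ C := by
  obtain ⟨C, hC⟩ := (slice_supp hc m).exists_bound_of_continuous (slice_contDiff hΦ m).continuous
  exact ⟨C, fun x g => hC (x, g)⟩

theorem slice_unif {Φ : E × Mat n → ℂ} (hΦ : ContDiff ℝ ∞ Φ) (hc : HasCompactSupport Φ) (M : ℕ)
    (x0 : E) {e : ℝ} (he : 0 < e) : ∀ᶠ x in 𝓝 x0, ∀ m ≤ M, ∀ g,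
      ‖iteratedFDeriv ℝ m (fun g => Φ (x, g)) g - iteratedFDeriv ℝ m (fun g => Φ (x0, g)) g‖ ≤ e := by
  have h1 : ∀ m : ℕ, ∀ᶠ x in 𝓝 x0, ∀ g,
      ‖iteratedFDeriv ℝ m (fun g => Φ (x, g)) g - iteratedFDeriv ℝ m (fun g => Φ (x0, g)) g‖ ≤ e := by
    intro m
    have hu := (slice_supp hc m).uniformContinuous_of_continuous (slice_contDiff hΦ m).continuous
    obtain ⟨δ, hδ, hd⟩ := Metric.uniformContinuous_iff.mp hu e he
    filter_upwards [Metric.ball_mem_nhds x0 hδ] with x hx g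
    have h2 : dist ((x, g) : E × Mat n) (x0, g) < δ := by
      rw [Prod.dist_eq, dist_self]
      exact max_lt hx hδ
    have h3 := hd h2
    rw [dist_eq_norm] at h3
    exact h3.le
  have h2 : ∀ᶠ x in 𝓝 x0, ∀ m ∈ Set.Iic M, ∀ g,
      ‖iteratedFDeriv ℝ m (fun g => Φ (x, g)) g - iteratedFDeriv ℝ m (fun g => Φ (x0, g)) g‖ ≤ e := by
    rw [eventually_all_finite (Set.finite_Iic M)]
    exact fun m _ => h1 m
  exact h2

end

end Pool.Agent.Work.MP_dd0ddf_al.AR.O
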