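import Pool.Agent.Work.MP_dd0ddf_al.AR.OPdA

/-!
# O-block, module OPdB (M): derivatives of `g ↦ ∫ Φ(x, g) dx`

PROOF. Lemma A: for `F` a complete real normed space, `Ψ : Mat n × Mat n → F` smooth with compact support: `g ↦ ∫ Ψ(x, g) dμ` has the derivative `∫ (fderiv ℝ Ψ (x, g)).comp inr dμ` at `g`: `hasFDerivAt_integral_of_dominated_of_fderiv_le` with the bound
`C` times the indicator of the compact set `S = Prod.fst '' tsupport Ψ` (`μ S < ⊤`: `IsCompact.measure_lt_top`), everything is continuous with compact support in `x`, hence integrable (`Continuous.integrable_of_hasCompactSupport`).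
Let `Ψ_m(x, g) = iteratedFDeriv ℝ m (Φ(x, ·)) g`, smooth with compact support (OPdA). Show `iteratedFDeriv ℝ m (∫ Φ(x, ·)) g = ∫ Ψ_m(x, g) dμ` by induction on `m`: `m = 0`: `iteratedFDeriv_zero_eq_comp` and `ContinuousLinearEquiv.integral_comp_comm`
(`continuousMultilinearCurryFin0`); step: `iteratedFDeriv_succ_eq_comp_left`: `iteratedFDeriv (m+1) f = e ∘ fderiv (iteratedFDeriv m f)` with the linear isometry equivalence `e = (continuousMultilinearCurryLeftEquiv ℝ _ _).symm`; by the induction hypothesis and Lemma A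
`fderiv (iteratedFDeriv m (∫ Φ)) g = ∫ fderiv (Ψ_m(x, ·)) g`, and `e` commutes with the integral (`ContinuousLinearEquiv.integral_comp_comm`, `LinearIsometryEquiv.integral_comp_comm`). Smoothness of `∫ Φ(x, ·)`: `contDiff_of_differentiable_iteratedFDeriv`
(all `iteratedFDeriv m` are differentiable by Lemma A).
-/

set_option linter.unusedSectionVars false

namespace Pool.Agent.Work.MP_dd0ddf_al.AR.O

open scoped SchwartzMap Matrix.Norms.Elementwise ComplexConjugate ContDiff Topology LineDeriv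
open Matrix MeasureTheory Filter

variable {n : ℕ}

section gen

variable {E G F : Type*} [NormedAddCommGroup E] [NormedSpace ℝ E] [NormedAddCommGroup G]
  [NormedSpace ℝ G] [NormedAddCommGroup F] [NormedSpace ℝ F]

private theorem gslice_eq {Φ : E × G → F} (hΦ : ContDiff ℝ ∞ Φ) (m : ℕ) (p : E × G) :
    iteratedFDeriv ℝ m (fun g => Φ (p.1, g)) p.2 =
      (iteratedFDeriv ℝ m Φ p).compContinuousLinearMap
        fun _ => ContinuousLinearMap.inr ℝ E G := by
  have h1 : (fun g => Φ (p.1, g)) =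
      (fun y => Φ ((p.1, 0) + y)) ∘ (ContinuousLinearMap.inr ℝ E G) := by
    funext g
    simp
  have h2 : ContDiff ℝ ∞ fun y : E × G => Φ ((p.1, 0) + y) :=
    hΦ.comp (contDiff_const.add contDiff_id)
  rw [h1, ContinuousLinearMap.iteratedFDeriv_comp_right (ContinuousLinearMap.inr ℝ E G)
    h2 p.2 (i := m) (by exact_mod_cast le_top)]
  congr 1
  rw [iteratedFDeriv_comp_add_left]
  congr 1
  simp

private theorem gslice_contDiff {Φ : E × G → F} (hΦ : ContDiff ℝ ∞ Φ) (m : ℕ) :
    ContDiff ℝ ∞ (fun p : E × G => iteratedFDeriv ℝ m (fun g => Φ (p.1, g)) p.2) := by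
  let T := ContinuousMultilinearMap.compContinuousLinearMapL (𝕜 := ℝ) (F := F)
        (fun _ : Fin m => ContinuousLinearMap.inr ℝ E G)
  have h1 : (fun p : E × G => iteratedFDeriv ℝ m (fun g => Φ (p.1, g)) p.2) =
      fun p => T (iteratedFDeriv ℝ m Φ p) :=
    funext fun p => gslice_eq hΦ m p
  rw [h1]
  have h2 : ContDiff ℝ ∞ T := ContinuousLinearMap.contDiff T
  exact h2.comp (hΦ.iteratedFDeriv_right (m := ∞) (by exact_mod_cast le_top))

private theorem gslice_supp {Φ : E × G → F} (hc : HasCompactSupport Φ) (m : ℕ) :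
    HasCompactSupport (fun p : E × G => iteratedFDeriv ℝ m (fun g => Φ (p.1, g)) p.2) := by
  refine HasCompactSupport.intro hc fun p hp => ?_
  rw [notMem_tsupport_iff_eventuallyEq] at hp
  have h1 : (fun g => Φ (p.1, g)) =ᶠ[𝓝 p.2] (fun _ => (0 : F)) := by
    have h2 : Tendsto (fun g : G => ((p.1, g) : E × G)) (𝓝 p.2) (𝓝 p) := by
      have : Continuous fun g : G => ((p.1, g) : E × G) := by fun_prop
      exact this.tendsto p.2
    exact h2.eventually hp
  have h3 := h1.iteratedFDeriv ℝ m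
  rw [h3.self_of_nhds]
  simp

variable [MeasurableSpace E] [BorelSpace E] [SecondCountableTopology E]

private theorem lemA [CompleteSpace F]
    (μ : Measure E) [IsFiniteMeasureOnCompacts μ] {Ψ : E × G → F} (hΨ : ContDiff ℝ ∞ Ψ)
    (hc : HasCompactSupport Ψ) (g : G) :
    HasFDerivAt (fun g => ∫ x, Ψ (x, g) ∂μ) (∫ x, fderiv ℝ (fun g => Ψ (x, g)) g ∂μ) g := by
  have hK : IsCompact (Prod.fst '' tsupport Ψ) := hc.isCompact.image continuous_fst
  have hout : ∀ x, x ∉ Prod.fst '' tsupport Ψ → ∀ g, (x, g) ∉ tsupport Ψ := by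
    intro x hx g hg
    exact hx ⟨(x, g), hg, rfl⟩
  have hd : ∀ x g, HasFDerivAt (fun g => Ψ (x, g))
      ((fderiv ℝ Ψ (x, g)).comp (ContinuousLinearMap.inr ℝ E G)) g := by
    intro x g
    have h1 : HasFDerivAt Ψ (fderiv ℝ Ψ (x, g)) (x, g) :=
      ((hΨ.differentiable (by simp)) (x, g)).hasFDerivAt
    exact h1.comp g (hasFDerivAt_prodMk_right x g)
  have hcont : Continuous fun p : E × G =>
      (fderiv ℝ Ψ p).comp (ContinuousLinearMap.inr ℝ E G) :=
    (hΨ.continuous_fderiv (by simp)).clm_comp continuous_const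
  have hsupp : HasCompactSupport fun p : E × G =>
      (fderiv ℝ Ψ p).comp (ContinuousLinearMap.inr ℝ E G) := by
    refine HasCompactSupport.intro hc fun p hp => ?_
    have h1 : fderiv ℝ Ψ p = 0 := by
      by_contra h
      exact hp (support_fderiv_subset ℝ h)
    rw [h1, ContinuousLinearMap.zero_comp]
  obtain ⟨C, hC⟩ := hsupp.exists_bound_of_continuous hcont
  have hfd : ∀ g x, fderiv ℝ (fun g => Ψ (x, g)) g =
      (fderiv ℝ Ψ (x, g)).comp (ContinuousLinearMap.inr ℝ E G) :=
    fun g x => (hd x g).fderiv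
  have hint : ∀ g, Integrable (fun x => Ψ (x, g)) μ := by
    intro g
    have h1 : Continuous fun x => Ψ (x, g) := hΨ.continuous.comp (by fun_prop)
    refine h1.integrable_of_hasCompactSupport (HasCompactSupport.intro hK fun x hx => ?_)
    exact image_eq_zero_of_notMem_tsupport (hout x hx g)
  refine hasFDerivAt_integral_of_dominated_of_fderiv_le (𝕜 := ℝ)
    (F := fun g x => Ψ (x, g)) (F' := fun g x => fderiv ℝ (fun g => Ψ (x, g)) g)
    (bound := (Prod.fst '' tsupport Ψ).indicator fun _ => C) (s := Set.univ) Filter.univ_mem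
    (Eventually.of_forall fun g => (hint g).aestronglyMeasurable) (hint g) ?_ ?_ ?_ ?_
  · have h1 : (fun x => fderiv ℝ (fun g => Ψ (x, g)) g) = fun x =>
        (fderiv ℝ Ψ (x, g)).comp (ContinuousLinearMap.inr ℝ E G) :=
      funext fun x => hfd g x
    show AEStronglyMeasurable (fun x => fderiv ℝ (fun g => Ψ (x, g)) g) μ
    rw [h1]
    have h2 : Continuous fun x : E =>
        (fderiv ℝ Ψ (x, g)).comp (ContinuousLinearMap.inr ℝ E G) :=
      hcont.comp (f := fun x : E => (x, g)) (by fun_prop)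
    exact h2.aestronglyMeasurable
  · refine Eventually.of_forall fun x g' _ => ?_
    show ‖fderiv ℝ (fun g => Ψ (x, g)) g'‖ ≤ _
    rw [hfd g' x]
    by_cases hx : x ∈ Prod.fst '' tsupport Ψ
    · rw [Set.indicator_of_mem hx]
      exact hC (x, g')
    · rw [Set.indicator_of_notMem hx]
      have h1 : fderiv ℝ Ψ (x, g') = 0 := by
        by_contra h
        exact hout x hx g' (support_fderiv_subset ℝ h)
      rw [h1, ContinuousLinearMap.zero_comp, norm_zero]
  · exact (integrable_indicator_iff hK.measurableSet).2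
      (integrableOn_const (hK.measure_lt_top.ne))
  · refine Eventually.of_forall fun x g' _ => ?_
    show HasFDerivAt (fun g => Ψ (x, g)) (fderiv ℝ (fun g => Ψ (x, g)) g') g'
    rw [hfd g' x]
    exact hd x g'

private theorem param_gen [CompleteSpace F] (μ : Measure E) [IsFiniteMeasureOnCompacts μ]
    {Φ : E × G → F} (hΦ : ContDiff ℝ ∞ Φ) (hc : HasCompactSupport Φ) :
    ContDiff ℝ ∞ (fun g => ∫ x, Φ (x, g) ∂μ) ∧ ∀ m g,
      iteratedFDeriv ℝ m (fun g => ∫ x, Φ (x, g) ∂μ) g =
        ∫ x, iteratedFDeriv ℝ m (fun g => Φ (x, g)) g ∂μ := by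
  have key : ∀ m : ℕ, iteratedFDeriv ℝ m (fun g => ∫ x, Φ (x, g) ∂μ) =
      fun g => ∫ x, iteratedFDeriv ℝ m (fun g => Φ (x, g)) g ∂μ := by
    intro m
    induction m with
    | zero =>
      funext g
      rw [iteratedFDeriv_zero_eq_comp]
      have h1 : (fun x => iteratedFDeriv ℝ 0 (fun g => Φ (x, g)) g) = fun x =>
          (continuousMultilinearCurryFin0 ℝ G F).symm.toContinuousLinearEquiv
            (Φ (x, g)) := by
        funext x
        rw [iteratedFDeriv_zero_eq_comp]
        rfl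
      rw [h1, ContinuousLinearEquiv.integral_comp_comm]
      rfl
    | succ m ih =>
      funext g
      rw [iteratedFDeriv_succ_eq_comp_left, Function.comp_apply, ih]
      have h2 := (lemA μ (gslice_contDiff hΦ m) (gslice_supp hc m) g).fderiv
      have h3 : fderiv ℝ (fun g => ∫ x, iteratedFDeriv ℝ m (fun g => Φ (x, g)) g ∂μ) g =
          ∫ x, fderiv ℝ (iteratedFDeriv ℝ m (fun g => Φ (x, g))) g ∂μ := h2
      rw [h3]
      have h4 : (fun x => iteratedFDeriv ℝ (m + 1) (fun g => Φ (x, g)) g) = fun x =>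
          (continuousMultilinearCurryLeftEquiv ℝ (fun _ : Fin (m + 1) => G)
            F).symm.toContinuousLinearEquiv
            (fderiv ℝ (iteratedFDeriv ℝ m (fun g => Φ (x, g))) g) := by
        funext x
        rw [iteratedFDeriv_succ_eq_comp_left]
        rfl
      rw [h4]
      have h5 := ContinuousLinearEquiv.integral_comp_comm (𝕜 := ℝ) (μ := μ)
        (E := G →L[ℝ] ContinuousMultilinearMap ℝ (fun _ : Fin m => G) F)
        (F := ContinuousMultilinearMap ℝ (fun _ : Fin (m + 1) => G) F)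
        (continuousMultilinearCurryLeftEquiv ℝ
        (fun _ : Fin (m + 1) => G) F).symm.toContinuousLinearEquiv
        (fun x => fderiv ℝ (iteratedFDeriv ℝ m (fun g => Φ (x, g))) g)
      exact h5.symm
  refine ⟨?_, fun m g => congrFun (key m) g⟩
  apply contDiff_of_differentiable_iteratedFDeriv
  intro m _
  rw [key m]
  intro g
  exact (lemA μ (gslice_contDiff hΦ m) (gslice_supp hc m) g).differentiableAt

end gen

theorem param_int (μ : Measure (Mat n)) [μ.IsAddHaarMeasure] {Φ : Mat n × Mat n → ℂ}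
    (hΦ : ContDiff ℝ ∞ Φ) (hc : HasCompactSupport Φ) :
    ContDiff ℝ ∞ (fun g => ∫ x, Φ (x, g) ∂μ) ∧ ∀ m g,
      iteratedFDeriv ℝ m (fun g => ∫ x, Φ (x, g) ∂μ) g =
        ∫ x, iteratedFDeriv ℝ m (fun g => Φ (x, g)) g ∂μ := by
  have h1 : SecondCountableTopology (Mat n) := inferInstance
  have h2 : IsFiniteMeasureOnCompacts μ := inferInstance
  exact @param_gen (Mat n) (Mat n) ℂ _ _ _ _ _ _ _ ⟨rfl⟩ h1 _ μ h2 Φ hΦ hc

end Pool.Agent.Work.MP_dd0ddf_al.AR.O
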