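import Pool.Agent.Work.MP_dd0ddf_al.AR.OCom
import Pool.Agent.Work.MP_dd0ddf_al.AR.OIp

/-!
# O-block, module OPos (S): eigenvalues of `AA u BB u`

PROOF. `ip y (AA u (BB u y)) = - ip (BB u y) (BB u y)` (`ip_AA`), so `ν r = - r'` with `r = ip y y > 0`, `r' = ip (BB u y) (BB u y) ≥ 0` real (`ip_smul`,
`ip_self`): `ν` is real and `≤ 0`. By `AA_BB_comm` and `hu`: `BB u (AA u y) = (ν - a η) y`, and `ip y (BB u (AA u y)) = - ip (AA u y) (AA u y)` (`ip_BB`), so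
`(ν - a η) r = - r''`, `r'' ≥ 0`: `ν ≤ a η`. `BB_eq_zero`: `0 = ip y (AA u (BB u y)) = - ip (BB u y) (BB u y)`, so `BB u y = 0` by `ip_self`;
`AA_eq_zero` is the same.
-/

set_option linter.unusedSectionVars false

namespace Pool.Agent.Work.MP_dd0ddf_al.AR.O

open scoped SchwartzMap Matrix.Norms.Elementwise ComplexConjugate ContDiff Topology LineDeriv
open Matrix MeasureTheory Filter

variable {n : ℕ}

private theorem opos_key {r r' : ℝ} (hr : 0 < r) (hr' : 0 ≤ r') {z : ℂ}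
    (h : z * (r : ℂ) = -(r' : ℂ)) : z.im = 0 ∧ z.re ≤ 0 := by
  have h1 := congrArg Complex.re h
  have h2 := congrArg Complex.im h
  simp only [Complex.mul_re, Complex.mul_im, Complex.neg_re, Complex.neg_im, Complex.ofReal_re,
    Complex.ofReal_im, mul_zero, sub_zero, zero_add, neg_zero] at h1 h2
  refine ⟨?_, ?_⟩
  · rcases mul_eq_zero.1 h2 with h3 | h3
    · exact h3
    · exact absurd h3 hr.ne'
  · by_contra hcon
    rw [not_le] at hcon
    have := mul_pos hcon hr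
    linarith

theorem eig_bound {ε : Fin n → ℝ} (hep : ∀ j, ε j = 1 ∨ ε j = -1) {a : ℝ} {u : Fin n → ℂ} {η : ℝ}
    (hu : hf ε u u = (η : ℂ)) {y : Sch n} (hy : y ≠ 0) {ν : ℂ}
    (h : AA ε a u (BB ε a u y) = ν • y) : ν.im = 0 ∧ ν.re ≤ 0 ∧ ν.re ≤ a * η := by
  obtain ⟨r, -, hr, hrp⟩ := ip_self y
  have hrpos := hrp hy
  obtain ⟨r1, hr1, hr1e, -⟩ := ip_self (BB ε a u y)
  obtain ⟨r2, hr2, hr2e, -⟩ := ip_self (AA ε a u y)
  have e1 : ν * (r : ℂ) = -(r1 : ℂ) := by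
    rw [← hr, ← ip_smul, ← h, ip_AA, hr1e]
  have hc := AA_BB_comm hep a u u y
  rw [h, hu] at hc
  have hc2 : BB ε a u (AA ε a u y) = (ν - (a : ℂ) * (η : ℂ)) • y := by
    rw [sub_smul, hc]
    abel
  have e2 : (ν - (a : ℂ) * (η : ℂ)) * (r : ℂ) = -(r2 : ℂ) := by
    rw [← hr, ← ip_smul, ← hc2, ip_BB, hr2e]
  obtain ⟨h1, h2⟩ := opos_key hrpos hr1 e1
  obtain ⟨-, h3⟩ := opos_key hrpos hr2 e2
  refine ⟨h1, h2, ?_⟩
  simp only [Complex.sub_re, Complex.mul_re, Complex.ofReal_re, Complex.ofReal_im, mul_zero,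
    sub_zero] at h3
  linarith

theorem BB_eq_zero {ε : Fin n → ℝ} {a : ℝ} {u : Fin n → ℂ} {y : Sch n}
    (h : AA ε a u (BB ε a u y) = 0) : BB ε a u y = 0 := by
  by_contra hne
  obtain ⟨r, -, hr, hrp⟩ := ip_self (BB ε a u y)
  have hpos := hrp hne
  have e : ip y (AA ε a u (BB ε a u y)) = 0 := by
    rw [h]
    have h0 := ip_smul 0 y (0 : Sch n)
    rw [zero_smul, zero_mul] at h0
    exact h0
  rw [ip_AA, hr, neg_eq_zero, Complex.ofReal_eq_zero] at e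
  exact hpos.ne' e

theorem AA_eq_zero {ε : Fin n → ℝ} {a : ℝ} {u : Fin n → ℂ} {y : Sch n}
    (h : BB ε a u (AA ε a u y) = 0) : AA ε a u y = 0 := by
  by_contra hne
  obtain ⟨r, -, hr, hrp⟩ := ip_self (AA ε a u y)
  have hpos := hrp hne
  have e : ip y (BB ε a u (AA ε a u y)) = 0 := by
    rw [h]
    have h0 := ip_smul 0 y (0 : Sch n)
    rw [zero_smul, zero_mul] at h0
    exact h0
  rw [ip_BB, hr, neg_eq_zero, Complex.ofReal_eq_zero] at e
  exact hpos.ne' e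

end Pool.Agent.Work.MP_dd0ddf_al.AR.O
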