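import Pool.Agent.Work.MP_dd0ddf_al.AR.OGsA

/-!
# O-block, module OSecA (S-M): the section `uu`, `g = bx g * uu g`

PROOF. Let `g ∈ Ue ε η`, `N_l = hf (vv l) (vv l)` real (`hf_self_im`), `η_l N_l > 0`, so `N_l ≠ 0` and `N_l / |N_l| = η_l`. `uu_frm`: `uu k = |N_k|^{-1/2} vv k`, `vv_orth` and
`hf (uu k) (uu k) = N_k / |N_k| = η_k` (`Real.mul_self_sqrt`, `hf_smul_left`, `hf_smul_right`). By `vv_eq`: `g_k = vv k + ∑_{l > k} c_kl vv l`, so `g = b' * uu g` with the upper triangular matrix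
`b'_kk = |N_k|^{1/2}`, `b'_kl = c_kl |N_l|^{1/2}` (`k < l`). As `(uu g).det ≠ 0` (`Frm.det_ne_zero`), `bx g = g * (uu g)⁻¹ = b'`.
-/

set_option linter.unusedSectionVars false

namespace Pool.Agent.Work.MP_dd0ddf_al.AR.O

open scoped SchwartzMap Matrix.Norms.Elementwise ComplexConjugate ContDiff Topology LineDeriv
open Matrix MeasureTheory Filter

variable {n : ℕ}

private theorem N_ne {ε η : Fin n → ℝ} {g : Mat n} (hg : g ∈ Ue ε η) (l : Fin n) :
    (hf ε (vv ε l g) (vv ε l g)).re ≠ 0 := by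
  intro h
  have h1 := hg.2 l
  rw [h, mul_zero] at h1
  exact lt_irrefl _ h1

private theorem N_eq (ε : Fin n → ℝ) (g : Mat n) (l : Fin n) :
    hf ε (vv ε l g) (vv ε l g) = (((hf ε (vv ε l g) (vv ε l g)).re : ℝ) : ℂ) := by
  apply Complex.ext
  · rw [Complex.ofReal_re]
  · rw [Complex.ofReal_im]
    exact hf_self_im ε _

private theorem hN_ne {ε η : Fin n → ℝ} {g : Mat n} (hg : g ∈ Ue ε η) (l : Fin n) :
    hf ε (vv ε l g) (vv ε l g) ≠ 0 := by
  rw [N_eq]
  exact Complex.ofReal_ne_zero.2 (N_ne hg l)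

private theorem sq_ne {ε η : Fin n → ℝ} {g : Mat n} (hg : g ∈ Ue ε η) (l : Fin n) :
    ((Real.sqrt |(hf ε (vv ε l g) (vv ε l g)).re| : ℝ) : ℂ) ≠ 0 :=
  Complex.ofReal_ne_zero.2 (Real.sqrt_ne_zero'.2 (abs_pos.2 (N_ne hg l)))

private theorem uu_row (ε : Fin n → ℝ) (g : Mat n) (k : Fin n) :
    uu ε g k = ((Real.sqrt |(hf ε (vv ε k g) (vv ε k g)).re| : ℝ) : ℂ)⁻¹ • vv ε k g := rfl

private theorem sq_uu {ε η : Fin n → ℝ} {g : Mat n} (hg : g ∈ Ue ε η) (l : Fin n) :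
    ((Real.sqrt |(hf ε (vv ε l g) (vv ε l g)).re| : ℝ) : ℂ) • uu ε g l = vv ε l g := by
  rw [uu_row, smul_smul, mul_inv_cancel₀ (sq_ne hg l), one_smul]

theorem uu_frm {ε η : Fin n → ℝ} (hη : ∀ j, η j = 1 ∨ η j = -1) {g : Mat n} (hg : g ∈ Ue ε η) :
    Frm ε η (uu ε g) := by
  intro k l
  rw [uu_row, uu_row, hf_smul_left, hf_smul_right]
  split_ifs with h
  · subst h
    rw [N_eq]
    have h1 := hg.2 k
    have h2 := N_ne hg k
    generalize (hf ε (vv ε k g) (vv ε k g)).re = N at h1 h2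
    rw [map_inv₀, Complex.conj_ofReal, ← mul_assoc, ← mul_inv, ← Complex.ofReal_mul,
      Real.mul_self_sqrt (abs_nonneg N), ← Complex.ofReal_inv, ← Complex.ofReal_mul]
    congr 1
    rcases hη k with h3 | h3
    · rw [h3, one_mul] at h1
      rw [h3, abs_of_pos h1, inv_mul_cancel₀ h2]
    · rw [h3] at h1
      have h4 : N < 0 := by linarith
      rw [h3, abs_of_neg h4, inv_neg, neg_mul, inv_mul_cancel₀ h2]
  · rw [vv_orth (fun l => hN_ne hg l) h, mul_zero, mul_zero]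

private theorem det_uu {ε η : Fin n → ℝ} (hη : ∀ j, η j = 1 ∨ η j = -1) {g : Mat n}
    (hg : g ∈ Ue ε η) : IsUnit (uu ε g).det :=
  isUnit_iff_ne_zero.2 ((uu_frm hη hg).det_ne_zero hη)

theorem bx_mul_uu {ε η : Fin n → ℝ} (hη : ∀ j, η j = 1 ∨ η j = -1) {g : Mat n}
    (hg : g ∈ Ue ε η) : bx ε g * uu ε g = g := by
  unfold bx
  rw [Matrix.mul_assoc, Matrix.nonsing_inv_mul _ (det_uu hη hg), Matrix.mul_one]

open Classical in
/-- the upper triangular matrix of the Gram-Schmidt process -/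
private noncomputable def bp (ε : Fin n → ℝ) (g : Mat n) : Mat n := Matrix.of fun k l =>
  if k = l then ((Real.sqrt |(hf ε (vv ε l g) (vv ε l g)).re| : ℝ) : ℂ) else
    if k < l then (hf ε (g k) (vv ε l g) / hf ε (vv ε l g) (vv ε l g)) *
      ((Real.sqrt |(hf ε (vv ε l g) (vv ε l g)).re| : ℝ) : ℂ) else 0

private theorem bp_mul {ε η : Fin n → ℝ} {g : Mat n} (hg : g ∈ Ue ε η) :
    bp ε g * uu ε g = g := by
  classical
  have hrow : ∀ k, (bp ε g * uu ε g) k = ∑ l, bp ε g k l • uu ε g l := by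
    intro k
    funext j
    rw [Matrix.mul_apply, Finset.sum_apply]
    rfl
  have hk : ∀ k, (bp ε g * uu ε g) k = g k := by
    intro k
    have h1 : ∀ l, bp ε g k l • uu ε g l = (if k = l then vv ε l g else 0) +
        (if k < l then (hf ε (g k) (vv ε l g) / hf ε (vv ε l g) (vv ε l g)) • vv ε l g else 0) := by
      intro l
      show (if k = l then ((Real.sqrt |(hf ε (vv ε l g) (vv ε l g)).re| : ℝ) : ℂ) else
        if k < l then (hf ε (g k) (vv ε l g) / hf ε (vv ε l g) (vv ε l g)) *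
          ((Real.sqrt |(hf ε (vv ε l g) (vv ε l g)).re| : ℝ) : ℂ) else 0) • uu ε g l = _
      by_cases h2 : k = l
      · subst h2
        rw [if_pos rfl, if_pos rfl, if_neg (lt_irrefl k), add_zero, sq_uu hg]
      · by_cases h3 : k < l
        · rw [if_neg h2, if_pos h3, if_neg h2, if_pos h3, zero_add, mul_smul, sq_uu hg]
        · rw [if_neg h2, if_neg h3, if_neg h2, if_neg h3, zero_smul, add_zero]
    rw [hrow, Finset.sum_congr rfl fun l _ => h1 l, Finset.sum_add_distrib,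
      Finset.sum_ite_eq, if_pos (Finset.mem_univ k), ← Finset.sum_filter]
    have h4 := vv_eq ε g k
    rw [eq_sub_iff_add_eq] at h4
    exact h4
  funext k
  exact hk k

private theorem bx_eq {ε η : Fin n → ℝ} (hη : ∀ j, η j = 1 ∨ η j = -1) {g : Mat n}
    (hg : g ∈ Ue ε η) : bx ε g = bp ε g := by
  have h1 : bx ε g = bp ε g * uu ε g * (uu ε g)⁻¹ := by
    rw [bp_mul hg]
    rfl
  rw [h1, Matrix.mul_assoc, Matrix.mul_nonsing_inv _ (det_uu hη hg), Matrix.mul_one]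

theorem bx_mem {ε η : Fin n → ℝ} (hη : ∀ j, η j = 1 ∨ η j = -1) {g : Mat n} (hg : g ∈ Ue ε η) :
    bx ε g ∈ Upos n := by
  classical
  rw [bx_eq hη hg]
  constructor
  · intro i j hij
    show (if i = j then _ else if i < j then _ else (0 : ℂ)) = 0
    rw [if_neg (ne_of_gt hij), if_neg (not_lt.2 hij.le)]
  · intro i
    have h1 : bp ε g i i = ((Real.sqrt |(hf ε (vv ε i g) (vv ε i g)).re| : ℝ) : ℂ) := if_pos rfl
    rw [h1, Complex.ofReal_re, Complex.ofReal_im]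
    exact ⟨Real.sqrt_pos.2 (abs_pos.2 (N_ne hg i)), rfl⟩

end Pool.Agent.Work.MP_dd0ddf_al.AR.O
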