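import Pool.Agent.Work.MP_dd0ddf_al.AR.OPos

/-!
# O-block, module OSgn (S): the sign pattern is determined

PROOF. `eig_bound` for `y` and `u j` (`hF j j`): `ν = a η_j (k_j - c1)` satisfies `ν.im = 0`, so `c1.im = 0` (`a η_j ≠ 0`), `ν.re = a η_j (k_j - c1.re) ≤ 0` and `≤ a η_j`. The same for `y'`, `u'`, `η'`.
If `η_j ≠ η'_j` then `η'_j = -η_j`; one of `a η_j`, `a η'_j` is positive and the other negative, say `a η_j > 0`: `k_j - c1.re ≤ 0`; and `a η'_j < 0`, `a η'_j (k_j - c1.re) ≤ a η'_j` gives `k_j - c1.re ≥ 1`. Contradiction.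
-/

set_option linter.unusedSectionVars false

namespace Pool.Agent.Work.MP_dd0ddf_al.AR.O

open scoped SchwartzMap Matrix.Norms.Elementwise ComplexConjugate ContDiff Topology LineDeriv
open Matrix MeasureTheory Filter

variable {n : ℕ}

theorem sgn_det {ε η η' : Fin n → ℝ} (hep : ∀ j, ε j = 1 ∨ ε j = -1) {a : ℝ} (ha : a ≠ 0)
    (hη : ∀ j, η j = 1 ∨ η j = -1) (hη' : ∀ j, η' j = 1 ∨ η' j = -1) (c1 : ℂ) (k : Fin n → ℤ)
    {u u' : Mat n} (hF : Frm ε η u) (hF' : Frm ε η' u') {y y' : Sch n} (hy : y ≠ 0) (hy' : y' ≠ 0)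
    (h : Eig ε a u (fun j => (a : ℂ) * η j * ((k j : ℂ) - c1)) y)
    (h' : Eig ε a u' (fun j => (a : ℂ) * η' j * ((k j : ℂ) - c1)) y') : η = η' := by
  funext j
  have e : ∀ x : ℝ, ((a : ℂ) * x * ((k j : ℂ) - c1)).re = x * (a * ((k j : ℝ) - c1.re)) := by
    intro x
    rw [← Complex.ofReal_mul, Complex.re_ofReal_mul, Complex.sub_re, Complex.intCast_re]
    ring
  have hj : hf ε (u j) (u j) = (η j : ℂ) := by
    have h1 := hF j j
    rwa [if_pos rfl] at h1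
  have hj' : hf ε (u' j) (u' j) = (η' j : ℂ) := by
    have h1 := hF' j j
    rwa [if_pos rfl] at h1
  obtain ⟨-, h1, h2⟩ := eig_bound hep hj hy (h j)
  obtain ⟨-, h3, h4⟩ := eig_bound hep hj' hy' (h' j)
  simp only [e] at h1 h2 h3 h4
  generalize a * ((k j : ℝ) - c1.re) = X at h1 h2 h3 h4
  rcases hη j with h5 | h5 <;> rcases hη' j with h6 | h6
  · rw [h5, h6]
  · exfalso
    rw [h5] at h1 h2
    rw [h6] at h3 h4
    apply ha
    linarith
  · exfalso
    rw [h5] at h1 h2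
    rw [h6] at h3 h4
    apply ha
    linarith
  · rw [h5, h6]

end Pool.Agent.Work.MP_dd0ddf_al.AR.O
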