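import Pool.Agent.Work.MP_dd0ddf_al.AR.OEqv
import Pool.Agent.Work.MP_dd0ddf_al.AR.OCal

/-!
# O-block, module OSmA (M): `Phi` is smooth with compact support

PROOF. `f ∈ TGK Kf`, `β ∈ TGK Kβ`, `Kf, Kβ ⊆ Ue ε η` compact. On the open set `Ue ε η × Mat n` (`isOpen_Ue`) the function `(x, g) ↦ Phi x g` is smooth: `bx`, `hx` are smooth (`contDiffOn_bx`, `contDiffOn_hx`) with invertible values (`dec_det`), `cd_inv`, `cd_mul`, `cd_Jac` (`Jac_pos`, so the inverse is smooth), `cd_ofReal`, and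
`f`, `β` are smooth. On the open set `Kfᶜ × Mat n` it is zero. The two sets cover everything.
`K` = image of `Kf × Kβ` under `(x, w) ↦ bx x * w * hx x` (continuous on `Ue ε η × Mat n`), compact, contained in `Ue ε η` (`eqv`, `dec`). If `Phi x g ≠ 0` then `x ∈ Kf` and `w = (bx x)⁻¹ g (hx x)⁻¹ ∈ Kβ`, so `g = bx x w hx x ∈ K`. Compact support: `Phi` vanishes outside the compact set
`Kf × K` (`HasCompactSupport.intro`).
-/

set_option linter.unusedSectionVars false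

namespace Pool.Agent.Work.MP_dd0ddf_al.AR.O

open scoped SchwartzMap Matrix.Norms.Elementwise ComplexConjugate ContDiff Topology LineDeriv
open Matrix MeasureTheory Filter

variable {n : ℕ}

private theorem phi_cd {ε η : Fin n → ℝ} (hη : ∀ j, η j = 1 ∨ η j = -1) {g0 : Mat n}
    (hg0 : Frm ε η g0) {f β : Mat n → ℂ} (hf : ContDiff ℝ ∞ f) (hβ : ContDiff ℝ ∞ β)
    (p : Mat n × Mat n) (hp : p.1 ∈ Ue ε η) :
    ContDiffAt ℝ ∞ (fun p : Mat n × Mat n => Phi ε g0 f β p.1 p.2) p := by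
  obtain ⟨s, hs⟩ : ∃ s : Set (Mat n × Mat n), s = Prod.fst ⁻¹' (Ue ε η) := ⟨_, rfl⟩
  have hfst : ContDiffWithinAt ℝ ∞ (fun q : Mat n × Mat n => q.1) s p :=
    contDiff_fst.contDiffWithinAt
  have hsnd : ContDiffWithinAt ℝ ∞ (fun q : Mat n × Mat n => q.2) s p :=
    contDiff_snd.contDiffWithinAt
  have hmaps : Set.MapsTo (fun q : Mat n × Mat n => q.1) s (Ue ε η) := by
    intro q hq
    rw [hs] at hq
    exact hq
  have hbx : ContDiffWithinAt ℝ ∞ (fun q : Mat n × Mat n => bx ε q.1) s p :=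
    (contDiffOn_bx hη p.1 hp).comp p hfst hmaps
  have hhx : ContDiffWithinAt ℝ ∞ (fun q : Mat n × Mat n => hx ε g0 q.1) s p :=
    (contDiffOn_hx hη g0 p.1 hp).comp p hfst hmaps
  obtain ⟨d1, d2, -, -⟩ := dec_det hη hg0 hp
  have hJ : ContDiffWithinAt ℝ ∞
      (fun q : Mat n × Mat n => ((Jac (bx ε q.1) (hx ε g0 q.1) : ℝ) : ℂ)) s p :=
    cd_ofReal (cd_Jac hbx hhx d1 d2)
  have hJ0 : ((Jac (bx ε p.1) (hx ε g0 p.1) : ℝ) : ℂ) ≠ 0 :=
    Complex.ofReal_ne_zero.2 (Jac_pos d1 d2).ne'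
  have hJi := hJ.inv hJ0
  have hf1 : ContDiffWithinAt ℝ ∞ (fun q : Mat n × Mat n => f q.1) s p :=
    hf.contDiffAt.comp_contDiffWithinAt p hfst
  have harg : ContDiffWithinAt ℝ ∞
      (fun q : Mat n × Mat n => (bx ε q.1)⁻¹ * q.2 * (hx ε g0 q.1)⁻¹) s p :=
    cd_mul (cd_mul (cd_inv hbx d1) hsnd) (cd_inv hhx d2)
  have hβ1 : ContDiffWithinAt ℝ ∞
      (fun q : Mat n × Mat n => β ((bx ε q.1)⁻¹ * q.2 * (hx ε g0 q.1)⁻¹)) s p :=
    hβ.contDiffAt.comp_contDiffWithinAt p harg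
  have hall := (hf1.mul hJi).mul hβ1
  have hopen : s ∈ 𝓝 p := by
    rw [hs]
    exact ((isOpen_Ue hη).preimage continuous_fst).mem_nhds hp
  exact hall.contDiffAt hopen

theorem Phi_smooth {ε η : Fin n → ℝ} (hep : ∀ j, ε j = 1 ∨ ε j = -1)
    (hη : ∀ j, η j = 1 ∨ η j = -1) {g0 : Mat n} (hg0 : Frm ε η g0) {f β : Mat n → ℂ}
    (hf' : f ∈ TGs (Ue ε η)) (hβ : β ∈ TGs (Ue ε η)) :
    ContDiff ℝ ∞ (fun p : Mat n × Mat n => Phi ε g0 f β p.1 p.2) ∧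
      HasCompactSupport (fun p : Mat n × Mat n => Phi ε g0 f β p.1 p.2) ∧
      ∃ K : Set (Mat n), IsCompact K ∧ K ⊆ Ue ε η ∧
        ∀ x g, g ∉ K → Phi ε g0 f β x g = 0 := by
  obtain ⟨Kf, hKf, hKfU, hfK⟩ := hf'
  obtain ⟨Kb, hKb, hKbU, hbK⟩ := hβ
  have hf0 : ∀ x g, x ∉ Kf → Phi ε g0 f β x g = 0 := by
    intro x g hx'
    unfold Phi
    rw [hfK.2 x hx', zero_mul, zero_mul]
  have hcb : ContinuousOn (fun q : Mat n × Mat n => bx ε q.1) (Kf ×ˢ Kb) :=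
    (contDiffOn_bx hη).continuousOn.comp continuousOn_fst fun q hq => hKfU hq.1
  have hch : ContinuousOn (fun q : Mat n × Mat n => hx ε g0 q.1) (Kf ×ˢ Kb) :=
    (contDiffOn_hx hη g0).continuousOn.comp continuousOn_fst fun q hq => hKfU hq.1
  have hcont : ContinuousOn (fun q : Mat n × Mat n => bx ε q.1 * q.2 * hx ε g0 q.1) (Kf ×ˢ Kb) :=
    (hcb.mul continuousOn_snd).mul hch
  obtain ⟨K, hK⟩ : ∃ K : Set (Mat n),
      K = (fun q : Mat n × Mat n => bx ε q.1 * q.2 * hx ε g0 q.1) '' (Kf ×ˢ Kb) := ⟨_, rfl⟩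
  have hKc : IsCompact K := by
    rw [hK]
    exact (hKf.prod hKb).image_of_continuousOn hcont
  have hKU : K ⊆ Ue ε η := by
    rw [hK]
    rintro _ ⟨q, hq, rfl⟩
    obtain ⟨-, hb, hh⟩ := dec hη hg0 (hKfU hq.1)
    exact (eqv hη hb (hKbU hq.2) hh).1
  have hvan : ∀ x g, g ∉ K → Phi ε g0 f β x g = 0 := by
    intro x g hg
    by_cases hxK : x ∈ Kf
    · obtain ⟨d1, d2, -, -⟩ := dec_det hη hg0 (hKfU hxK)
      have hw : (bx ε x)⁻¹ * g * (hx ε g0 x)⁻¹ ∉ Kb := by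
        intro hw
        apply hg
        rw [hK]
        refine ⟨(x, (bx ε x)⁻¹ * g * (hx ε g0 x)⁻¹), ⟨hxK, hw⟩, ?_⟩
        show bx ε x * ((bx ε x)⁻¹ * g * (hx ε g0 x)⁻¹) * hx ε g0 x = g
        have h1 : bx ε x * (bx ε x)⁻¹ = 1 := Matrix.mul_nonsing_inv _ (isUnit_iff_ne_zero.2 d1)
        have h2 : (hx ε g0 x)⁻¹ * hx ε g0 x = 1 :=
          Matrix.nonsing_inv_mul _ (isUnit_iff_ne_zero.2 d2)
        calc bx ε x * ((bx ε x)⁻¹ * g * (hx ε g0 x)⁻¹) * hx ε g0 x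
            = (bx ε x * (bx ε x)⁻¹) * g * ((hx ε g0 x)⁻¹ * hx ε g0 x) := by
              simp only [Matrix.mul_assoc]
          _ = g := by rw [h1, h2, Matrix.one_mul, Matrix.mul_one]
      unfold Phi
      rw [hbK.2 _ hw, mul_zero]
    · exact hf0 x g hxK
  refine ⟨?_, ?_, K, hKc, hKU, hvan⟩
  · rw [contDiff_iff_contDiffAt]
    intro p
    by_cases hp : p.1 ∈ Ue ε η
    · exact phi_cd hη hg0 hfK.1 hbK.1 p hp
    · have h1 : p.1 ∉ Kf := fun h => hp (hKfU h)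
      have h2 : ∀ᶠ q : Mat n × Mat n in 𝓝 p, q.1 ∈ Kfᶜ :=
        (hKf.isClosed.isOpen_compl.preimage continuous_fst).mem_nhds h1
      refine (contDiffAt_const (c := (0 : ℂ))).congr_of_eventuallyEq ?_
      filter_upwards [h2] with q hq
      exact hf0 q.1 q.2 hq
  · refine HasCompactSupport.intro (hKf.prod hKc) fun q hq => ?_
    by_cases h1 : q.1 ∈ Kf
    · exact hvan q.1 q.2 fun h2 => hq ⟨h1, h2⟩
    · exact hf0 q.1 q.2 h1

end Pool.Agent.Work.MP_dd0ddf_al.AR.O
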