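import Pool.Agent.Work.MP_dd0ddf_al.AR.OEqv
import Pool.Agent.Work.MP_dd0ddf_al.AR.OCal

/-!
# O-block, module OSmB (M): `Psi` is smooth with compact support

PROOF. `f ∈ TGK Kf`, `χ ∈ TGK Kχ`, both compact sets in `Ue ε η`. Let `K` be the image of `Kχ × Kf` under `(z, w) ↦ bx w * (bx z)⁻¹ * g0 * (hx z)⁻¹ * hx w`, continuous on `Ue × Ue` (`contDiffOn_bx`, `contDiffOn_hx`, `dec_det`, `cd_inv`, `cd_mul`), so `K` is compact; `K ⊆ Ue ε η`: `b g0 h` with `b = bx w (bx z)⁻¹ ∈ Upos`,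
`h = (hx z)⁻¹ hx w ∈ RU` (`frm_mem`, `eqv`). If `χ z ≠ 0` and `Psi z g ≠ 0`: `z ∈ Kχ`, `g ∈ Ue ε η`, `w = bx g * z * hx g ∈ Kf`; by `eqv`, `eqv_hx`: `bx w = bx g bx z`, `hx w = hx z hx g`, so `g = bx g g0 hx g = bx w (bx z)⁻¹ g0 (hx z)⁻¹ hx w ∈ K`. So `χ z * Psi z g` vanishes outside `Kχ × K`.
Smooth: on the open set `Mat n × Ue ε η` it is `χ z * f (bx g * z * hx g)`, smooth; on the open set `Mat n × Kᶜ` it is zero; these cover.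
-/

set_option linter.unusedSectionVars false

namespace Pool.Agent.Work.MP_dd0ddf_al.AR.O

open scoped SchwartzMap Matrix.Norms.Elementwise ComplexConjugate ContDiff Topology LineDeriv
open Matrix MeasureTheory Filter

variable {n : ℕ}

/-- the map parametrising the support in the second variable -/
private noncomputable def kp (ε : Fin n → ℝ) (g0 : Mat n) (p : Mat n × Mat n) : Mat n :=
  bx ε p.2 * (bx ε p.1)⁻¹ * g0 * ((hx ε g0 p.1)⁻¹ * hx ε g0 p.2)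

private theorem kp_cont {ε η : Fin n → ℝ} (hη : ∀ j, η j = 1 ∨ η j = -1) {g0 : Mat n}
    (hg0 : Frm ε η g0) : ContinuousOn (kp ε g0) (Ue ε η ×ˢ Ue ε η) := by
  rintro ⟨z, w⟩ ⟨hz, hw⟩
  obtain ⟨d1, d2, -, -⟩ := dec_det hη hg0 hz
  have m1 : Set.MapsTo (Prod.fst : Mat n × Mat n → Mat n) (Ue ε η ×ˢ Ue ε η) (Ue ε η) :=
    fun p hp => hp.1
  have m2 : Set.MapsTo (Prod.snd : Mat n × Mat n → Mat n) (Ue ε η ×ˢ Ue ε η) (Ue ε η) :=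
    fun p hp => hp.2
  have b1 : ContDiffWithinAt ℝ ∞ (fun p : Mat n × Mat n => bx ε p.1) (Ue ε η ×ˢ Ue ε η) (z, w) :=
    ContDiffWithinAt.comp (z, w) (contDiffOn_bx hη z hz) contDiffWithinAt_fst m1
  have b2 : ContDiffWithinAt ℝ ∞ (fun p : Mat n × Mat n => bx ε p.2) (Ue ε η ×ˢ Ue ε η) (z, w) :=
    ContDiffWithinAt.comp (z, w) (contDiffOn_bx hη w hw) contDiffWithinAt_snd m2
  have h1 : ContDiffWithinAt ℝ ∞ (fun p : Mat n × Mat n => hx ε g0 p.1) (Ue ε η ×ˢ Ue ε η) (z, w) :=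
    ContDiffWithinAt.comp (g := hx ε g0) (z, w) (contDiffOn_hx hη g0 z hz) contDiffWithinAt_fst m1
  have h2 : ContDiffWithinAt ℝ ∞ (fun p : Mat n × Mat n => hx ε g0 p.2) (Ue ε η ×ˢ Ue ε η) (z, w) :=
    ContDiffWithinAt.comp (g := hx ε g0) (z, w) (contDiffOn_hx hη g0 w hw) contDiffWithinAt_snd m2
  have h3 : ContDiffWithinAt ℝ ∞ (kp ε g0) (Ue ε η ×ˢ Ue ε η) (z, w) :=
    cd_mul (cd_mul (cd_mul b2 (cd_inv b1 d1)) contDiffWithinAt_const) (cd_mul (cd_inv h1 d2) h2)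
  exact h3.continuousWithinAt

private theorem kp_mem {ε η : Fin n → ℝ} (hep : ∀ j, ε j = 1 ∨ ε j = -1)
    (hη : ∀ j, η j = 1 ∨ η j = -1) {g0 : Mat n} (hg0 : Frm ε η g0) {z w : Mat n}
    (hz : z ∈ Ue ε η) (hw : w ∈ Ue ε η) : kp ε g0 (z, w) ∈ Ue ε η := by
  obtain ⟨hm, -, -⟩ := frm_mem hη hg0
  obtain ⟨-, hb1, hh1⟩ := dec hη hg0 hz
  obtain ⟨-, hb2, hh2⟩ := dec hη hg0 hw
  exact (eqv hη (Upos_mul hb2 (Upos_inv hb1)) hm (RU_mul (RU_inv hep hh1) hh2)).1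

private theorem kp_eq {ε η : Fin n → ℝ} (hη : ∀ j, η j = 1 ∨ η j = -1) {g0 : Mat n}
    (hg0 : Frm ε η g0) {z g : Mat n} (hz : z ∈ Ue ε η) (hg : g ∈ Ue ε η) :
    kp ε g0 (z, bx ε g * z * hx ε g0 g) = g := by
  obtain ⟨hd, hb2, hh2⟩ := dec hη hg0 hg
  obtain ⟨d1, d2, -, -⟩ := dec_det hη hg0 hz
  have e1 : bx ε (bx ε g * z * hx ε g0 g) = bx ε g * bx ε z := (eqv hη hb2 hz hh2).2.2
  have e2 : hx ε g0 (bx ε g * z * hx ε g0 g) = hx ε g0 z * hx ε g0 g := eqv_hx hη g0 hb2 hz hh2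
  unfold kp
  dsimp only
  rw [e1, e2, Matrix.mul_assoc (bx ε g) (bx ε z), Matrix.mul_nonsing_inv _ (isUnit_iff_ne_zero.2 d1),
    Matrix.mul_one, ← Matrix.mul_assoc (hx ε g0 z)⁻¹, Matrix.nonsing_inv_mul _ (isUnit_iff_ne_zero.2 d2),
    Matrix.one_mul]
  exact hd

private theorem Psi_zero {ε η : Fin n → ℝ} (hη : ∀ j, η j = 1 ∨ η j = -1) {g0 : Mat n}
    (hg0 : Frm ε η g0) {f χ : Mat n → ℂ} {Kf Kχ : Set (Mat n)} (hχΩ : Kχ ⊆ Ue ε η)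
    (hf0 : ∀ g, g ∉ Kf → f g = 0) (hχ0 : ∀ g, g ∉ Kχ → χ g = 0) {z g : Mat n}
    (hg : g ∉ kp ε g0 '' (Kχ ×ˢ Kf)) : χ z * Psi ε η g0 f z g = 0 := by
  by_contra hne
  obtain ⟨h1, h2⟩ := mul_ne_zero_iff.1 hne
  have hz : z ∈ Kχ := by
    by_contra h3
    exact h1 (hχ0 z h3)
  have hg' : g ∈ Ue ε η := by
    by_contra h3
    exact h2 (if_neg h3)
  have e : Psi ε η g0 f z g = f (bx ε g * z * hx ε g0 g) := if_pos hg'
  rw [e] at h2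
  have hw : bx ε g * z * hx ε g0 g ∈ Kf := by
    by_contra h3
    exact h2 (hf0 _ h3)
  exact hg ⟨(z, bx ε g * z * hx ε g0 g), ⟨hz, hw⟩, kp_eq hη hg0 (hχΩ hz) hg'⟩

private theorem Psi_at {ε η : Fin n → ℝ} (hη : ∀ j, η j = 1 ∨ η j = -1) (g0 : Mat n)
    {f χ : Mat n → ℂ} (hf : ContDiff ℝ ∞ f) (hχ : ContDiff ℝ ∞ χ) {p : Mat n × Mat n}
    (hp : p.2 ∈ Ue ε η) :
    ContDiffAt ℝ ∞ (fun p : Mat n × Mat n => χ p.1 * Psi ε η g0 f p.1 p.2) p := by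
  have hO : IsOpen ((Prod.snd : Mat n × Mat n → Mat n) ⁻¹' Ue ε η) :=
    (isOpen_Ue hη).preimage continuous_snd
  have hev : (fun p : Mat n × Mat n => χ p.1 * Psi ε η g0 f p.1 p.2) =ᶠ[𝓝 p]
      fun p : Mat n × Mat n => χ p.1 * f (bx ε p.2 * p.1 * hx ε g0 p.2) := by
    filter_upwards [hO.mem_nhds hp] with q hq
    have e : Psi ε η g0 f q.1 q.2 = f (bx ε q.2 * q.1 * hx ε g0 q.2) := if_pos hq
    rw [e]
  refine ContDiffAt.congr_of_eventuallyEq ?_ hev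
  have b : ContDiffAt ℝ ∞ (fun p : Mat n × Mat n => bx ε p.2) p :=
    ContDiffAt.comp p ((contDiffOn_bx hη).contDiffAt ((isOpen_Ue hη).mem_nhds hp)) contDiffAt_snd
  have h : ContDiffAt ℝ ∞ (fun p : Mat n × Mat n => hx ε g0 p.2) p :=
    ContDiffAt.comp (g := hx ε g0) p
      ((contDiffOn_hx hη g0).contDiffAt ((isOpen_Ue hη).mem_nhds hp)) contDiffAt_snd
  have w : ContDiffAt ℝ ∞ (fun p : Mat n × Mat n => bx ε p.2 * p.1 * hx ε g0 p.2) p := by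
    rw [← contDiffWithinAt_univ] at b h ⊢
    exact cd_mul (cd_mul b contDiffWithinAt_fst) h
  have h1 : ContDiffAt ℝ ∞ (fun p : Mat n × Mat n => χ p.1) p := hχ.contDiffAt.comp p contDiffAt_fst
  have h2 : ContDiffAt ℝ ∞ (fun p : Mat n × Mat n => f (bx ε p.2 * p.1 * hx ε g0 p.2)) p :=
    hf.contDiffAt.comp p w
  exact h1.mul h2

theorem Psi_smooth {ε η : Fin n → ℝ} (hep : ∀ j, ε j = 1 ∨ ε j = -1)
    (hη : ∀ j, η j = 1 ∨ η j = -1) {g0 : Mat n} (hg0 : Frm ε η g0) {f χ : Mat n → ℂ}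
    (hf' : f ∈ TGs (Ue ε η)) (hχ : χ ∈ TGs (Ue ε η)) :
    ContDiff ℝ ∞ (fun p : Mat n × Mat n => χ p.1 * Psi ε η g0 f p.1 p.2) ∧
      HasCompactSupport (fun p : Mat n × Mat n => χ p.1 * Psi ε η g0 f p.1 p.2) ∧
      ∃ K : Set (Mat n), IsCompact K ∧ K ⊆ Ue ε η ∧
        ∀ z g, g ∉ K → χ z * Psi ε η g0 f z g = 0 := by
  obtain ⟨Kf, cf, sf, mf⟩ := hf'
  obtain ⟨Kχ, cχ, sχ, mχ⟩ := hχ
  have hK : IsCompact (kp ε g0 '' (Kχ ×ˢ Kf)) :=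
    (cχ.prod cf).image_of_continuousOn ((kp_cont hη hg0).mono (Set.prod_mono sχ sf))
  have hz : ∀ z g, g ∉ kp ε g0 '' (Kχ ×ˢ Kf) → χ z * Psi ε η g0 f z g = 0 := fun z g hg =>
    Psi_zero hη hg0 sχ mf.2 mχ.2 hg
  have hKs : kp ε g0 '' (Kχ ×ˢ Kf) ⊆ Ue ε η := by
    rintro _ ⟨⟨z, w⟩, ⟨h1, h2⟩, rfl⟩
    exact kp_mem hep hη hg0 (sχ h1) (sf h2)
  refine ⟨?_, ?_, kp ε g0 '' (Kχ ×ˢ Kf), hK, hKs, hz⟩
  · rw [contDiff_iff_contDiffAt]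
    intro p
    by_cases hp : p.2 ∈ Ue ε η
    · exact Psi_at hη g0 mf.1 mχ.1 hp
    · have hp' : p.2 ∈ (kp ε g0 '' (Kχ ×ˢ Kf))ᶜ := fun h => hp (hKs h)
      have hO : IsOpen ((Prod.snd : Mat n × Mat n → Mat n) ⁻¹' (kp ε g0 '' (Kχ ×ˢ Kf))ᶜ) :=
        (hK.isClosed.isOpen_compl).preimage continuous_snd
      have hev : (fun p : Mat n × Mat n => χ p.1 * Psi ε η g0 f p.1 p.2) =ᶠ[𝓝 p]
          fun _ : Mat n × Mat n => (0 : ℂ) := by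
        filter_upwards [hO.mem_nhds hp'] with q hq
        exact hz q.1 q.2 hq
      exact contDiffAt_const.congr_of_eventuallyEq hev
  · refine HasCompactSupport.intro (cχ.prod hK) ?_
    intro p hp
    by_cases h1 : p.1 ∈ Kχ
    · exact hz p.1 p.2 fun h2 => hp ⟨h1, h2⟩
    · rw [mχ.2 p.1 h1, zero_mul]

end Pool.Agent.Work.MP_dd0ddf_al.AR.O
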