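import Pool.Agent.Work.MP_dd0ddf_al.AR.OSecB

/-!
# O-block, module OUni (M): decomposition over the sign patterns

PROOF. Let `f ∈ TGK K`, `K ⊆ Od ε 0` compact. `hf (vv l g) (vv l g)` is real (`hf_self_im`), so for `g ∈ Od ε 0` it is positive or negative: `Od ε 0` is the disjoint union of the open sets `U_b = Ue ε (sg b)`, `b : Fin n → Bool` (`isOpen_Ue`). Put `F b g = if g ∈ U_b then f g else 0`. `K ∩ U_b = K \ ⋃_{b' ≠ b} U_{b'}` is compact, `F b`
vanishes outside `K ∩ U_b`; smooth: on the open set `U_b` it is `f`, on the open set `(K ∩ U_b)ᶜ` it is zero (if `g ∉ K ∩ U_b` and `g ∈ U_b` then `g ∉ K`, `f g = 0`). `f = ∑ F b` pointwise: if `f g ≠ 0` then `g ∈ K ⊆ Od ε 0` is in exactly one `U_b`.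
-/

set_option linter.unusedSectionVars false

namespace Pool.Agent.Work.MP_dd0ddf_al.AR.O

open scoped SchwartzMap Matrix.Norms.Elementwise ComplexConjugate ContDiff Topology LineDeriv
open Matrix MeasureTheory Filter

variable {n : ℕ}

theorem sum_pat {ε : Fin n → ℝ} {f : Mat n → ℂ} (hf' : f ∈ TGs (Od ε 0)) :
    ∃ F : (Fin n → Bool) → Mat n → ℂ, (∀ b, F b ∈ TGs (Ue ε (sg b))) ∧ f = ∑ b, F b := by
  classical
  obtain ⟨K, hK, hKO, hfs, hf0⟩ := hf'
  have hopen : ∀ b : Fin n → Bool, IsOpen (Ue ε (sg b)) := fun b => isOpen_Ue (sg_eq b)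
  have huniq : ∀ (b b' : Fin n → Bool) (g : Mat n), g ∈ Ue ε (sg b) → g ∈ Ue ε (sg b') →
      b = b' := by
    intro b b' g h1 h2
    funext l
    have e1 := h1.2 l
    have e2 := h2.2 l
    unfold sg at e1 e2
    cases hb : b l <;> cases hb' : b' l <;> simp only [hb, hb', if_true, if_false,
      Bool.false_eq_true] at e1 e2 ⊢ <;> linarith
  have hcov : ∀ g ∈ Od ε 0, ∃ b : Fin n → Bool, g ∈ Ue ε (sg b) := by
    rintro g ⟨hd, hN⟩
    refine ⟨fun l => decide (0 < (hf ε (vv ε l g) (vv ε l g)).re), hd, fun l => ?_⟩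
    have h0 := hN l (Nat.zero_le _)
    have him := hf_self_im ε (vv ε l g)
    have hre : (hf ε (vv ε l g) (vv ε l g)).re ≠ 0 := by
      intro h
      exact h0 (Complex.ext h him)
    unfold sg
    rcases lt_or_gt_of_ne hre with h | h
    · have hn : ¬ (0 < (hf ε (vv ε l g) (vv ε l g)).re) := not_lt.2 h.le
      simp only [hn, decide_false, Bool.false_eq_true, if_false]
      linarith
    · simp only [h, decide_true, if_true]
      linarith
  have hcl : ∀ b : Fin n → Bool, IsCompact (K ∩ Ue ε (sg b)) := by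
    intro b
    have e : K ∩ Ue ε (sg b) = K \ ⋃ b' : {b' : Fin n → Bool // b' ≠ b}, Ue ε (sg b'.1) := by
      ext g
      constructor
      · rintro ⟨h1, h2⟩
        refine ⟨h1, fun h3 => ?_⟩
        obtain ⟨⟨b', hb'⟩, h4⟩ := Set.mem_iUnion.1 h3
        exact hb' (huniq b' b g h4 h2)
      · rintro ⟨h1, h2⟩
        refine ⟨h1, ?_⟩
        obtain ⟨b', hb'⟩ := hcov g (hKO h1)
        by_cases hbb : b' = b
        · rwa [hbb] at hb'
        · exact absurd (Set.mem_iUnion.2 ⟨⟨b', hbb⟩, hb'⟩) h2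
    rw [e]
    exact hK.diff (isOpen_iUnion fun b' => hopen b'.1)
  refine ⟨fun b g => if g ∈ Ue ε (sg b) then f g else 0,
    fun b => ⟨K ∩ Ue ε (sg b), hcl b, Set.inter_subset_right, ?_, ?_⟩, ?_⟩
  · rw [contDiff_iff_contDiffAt]
    intro g
    by_cases hg : g ∈ Ue ε (sg b)
    · refine (hfs.contDiffAt (x := g)).congr_of_eventuallyEq ?_
      filter_upwards [(hopen b).mem_nhds hg] with g' hg'
      rw [if_pos hg']
    · have hg2 : g ∉ K ∩ Ue ε (sg b) := fun h => hg h.2
      refine (contDiffAt_const (c := (0 : ℂ))).congr_of_eventuallyEq ?_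
      filter_upwards [(hcl b).isClosed.isOpen_compl.mem_nhds hg2] with g' hg'
      split_ifs with h
      · exact hf0 g' fun hK' => hg' ⟨hK', h⟩
      · rfl
  · intro g hg
    show (if g ∈ Ue ε (sg b) then f g else 0) = 0
    split_ifs with h
    · exact hf0 g fun hK' => hg ⟨hK', h⟩
    · rfl
  · funext g
    rw [Finset.sum_apply]
    by_cases hg : g ∈ K
    · obtain ⟨b, hb⟩ := hcov g (hKO hg)
      rw [Finset.sum_eq_single b]
      · rw [if_pos hb]
      · intro b' _ hbb
        rw [if_neg]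
        intro h
        exact hbb (huniq b' b g h hb)
      · intro h; exact absurd (Finset.mem_univ _) h
    · rw [hf0 g hg]
      symm
      refine Finset.sum_eq_zero fun b _ => ?_
      split_ifs <;> rfl

end Pool.Agent.Work.MP_dd0ddf_al.AR.O
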