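import Pool.Agent.Work.MP_dd0ddf_al.AR.OPat
import Pool.Agent.Work.MP_dd0ddf_al.AR.OUni
import Pool.Agent.Work.MP_dd0ddf_al.AR.OSgn

/-!
# O-block, module OUq (S): uniqueness on the open orbits

PROOF. Call `b : Fin n → Bool` good if `L1 f ≠ 0` or `L2 f ≠ 0` for some `f ∈ TGs (Ue ε (sg b))`. By `pat_eig` and `sgn_det` (`sg` is injective) there is at most one good `b`. If there is none take `α1 = 1`, `α2 = 0`, otherwise take `α1`, `α2` from `pat_dep` for the good `b`. In all cases `α1 • L1 f + α2 • L2 f = 0` for all `b` and all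
`f ∈ TGs (Ue ε (sg b))`; for `f ∈ TGs (Od ε 0)` use `sum_pat` and linearity (`map_sum`).
-/

set_option linter.unusedSectionVars false

namespace Pool.Agent.Work.MP_dd0ddf_al.AR.O

open scoped SchwartzMap Matrix.Norms.Elementwise ComplexConjugate ContDiff Topology LineDeriv
open Matrix MeasureTheory Filter

variable {n : ℕ}

theorem open_uniq {ε : Fin n → ℝ} (hep : ∀ j, ε j = 1 ∨ ε j = -1) {a : ℝ} (ha : a ≠ 0)
    (W : Weil ε a) (s : Fin n → ℂ) (k : Fin n → ℤ) (c1 : ℂ)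
    (hc : ∀ L : (Mat n → ℂ) →ₗ[ℂ] Sch n, Equi W s k L → ∀ u : Fin n → ℂ, ∀ f ∈ TGs (GLs n),
      L (dg (fun g => g * Zm ε u) f) =
        (Complex.I / a) • AA ε a u (BB ε a u (L f)) + (Complex.I * c1 * hf ε u u) • L f)
    (L1 L2 : (Mat n → ℂ) →ₗ[ℂ] Sch n) (h1 : Equi W s k L1) (h2 : Equi W s k L2) :
    ∃ α1 α2 : ℂ, (α1 ≠ 0 ∨ α2 ≠ 0) ∧ ∀ f ∈ TGs (Od ε 0), α1 • L1 f + α2 • L2 f = 0 := by
  have hinj : ∀ b b' : Fin n → Bool, sg b = sg b' → b = b' := by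
    intro b b' hb
    funext j
    have h3 : sg b j = sg b' j := congrFun hb j
    unfold sg at h3
    cases hbj : b j <;> cases hbj' : b' j
    · rfl
    · rw [hbj, hbj'] at h3
      norm_num at h3
    · rw [hbj, hbj'] at h3
      norm_num at h3
    · rfl
  have hgood : ∀ b : Fin n → Bool, (∃ f ∈ TGs (Ue ε (sg b)), L1 f ≠ 0 ∨ L2 f ≠ 0) →
      ∃ (g0 : Mat n) (y : Sch n), Frm ε (sg b) g0 ∧ y ≠ 0 ∧
        Eig ε a g0 (fun j => (a : ℂ) * sg b j * ((k j : ℂ) - c1)) y := by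
    rintro b ⟨f, hf, hne | hne⟩
    · exact pat_eig hep ha (sg_eq b) hc h1 hf hne
    · exact pat_eig hep ha (sg_eq b) hc h2 hf hne
  have huniq : ∀ b b' : Fin n → Bool, (∃ f ∈ TGs (Ue ε (sg b)), L1 f ≠ 0 ∨ L2 f ≠ 0) →
      (∃ f ∈ TGs (Ue ε (sg b')), L1 f ≠ 0 ∨ L2 f ≠ 0) → b = b' := by
    intro b b' hb hb'
    obtain ⟨u, y, hF, hy, hE⟩ := hgood b hb
    obtain ⟨u', y', hF', hy', hE'⟩ := hgood b' hb'
    exact hinj b b' (sgn_det hep ha (sg_eq b) (sg_eq b') c1 k hF hF' hy hy' hE hE')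
  have key : ∃ α1 α2 : ℂ, (α1 ≠ 0 ∨ α2 ≠ 0) ∧ ∀ b : Fin n → Bool, ∀ f ∈ TGs (Ue ε (sg b)),
      α1 • L1 f + α2 • L2 f = 0 := by
    by_cases h : ∃ b : Fin n → Bool, ∃ f ∈ TGs (Ue ε (sg b)), L1 f ≠ 0 ∨ L2 f ≠ 0
    · obtain ⟨b0, hb0⟩ := h
      obtain ⟨α1, α2, hα, hall⟩ := pat_dep (η := sg b0) hep ha (sg_eq b0) hc h1 h2
      refine ⟨α1, α2, hα, fun b f hf => ?_⟩
      by_cases hb : L1 f ≠ 0 ∨ L2 f ≠ 0
      · have e := huniq b b0 ⟨f, hf, hb⟩ hb0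
        rw [e] at hf
        exact hall f hf
      · push Not at hb
        rw [hb.1, hb.2, smul_zero, smul_zero, add_zero]
    · push Not at h
      refine ⟨1, 0, Or.inl one_ne_zero, fun b f hf => ?_⟩
      rw [(h b f hf).1, smul_zero, zero_smul, add_zero]
  obtain ⟨α1, α2, hα, hall⟩ := key
  refine ⟨α1, α2, hα, fun f hf => ?_⟩
  obtain ⟨F, hF, hsum⟩ := sum_pat hf
  rw [hsum, map_sum, map_sum, Finset.smul_sum, Finset.smul_sum, ← Finset.sum_add_distrib]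
  exact Finset.sum_eq_zero fun b _ => hall b (F b) (hF b)

end Pool.Agent.Work.MP_dd0ddf_al.AR.O
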