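import Pool.Agent.Work.MP_dd0ddf_al.AR.OInv
import Pool.Agent.Work.MP_dd0ddf_al.AR.OOde

/-!
# O-block, module OVac (S-M): the vacuum is unique

PROOF. `low ε a η u k y = 0` evaluated at `t` (`AA_apply`, `BB_apply`) times `2`: for `a η_k > 0`:
`∑ ε_j conj u_kj ∂_j y = - (∑ ε_j conj u_kj 2 a ε_j t_j) y`, otherwise `∑ ε_j u_kj ∂_j y = (∑ ε_j u_kj 2 a ε_j t_j) y`: this is `∑_j cmat_kj ∂_j y = m_k(t) y(t)`,
`m_k` linear in `t`. `vac_zero`: `ode_zero` with `cmat_det`. `vac_dim`: `z = (y' 0) • y - (y 0) • y'` is killed by all `low k` (continuous linear maps) and `z 0 = 0`,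
so `z = 0`; if `y 0 = 0` and `y' 0 = 0` then `y = 0` by `vac_zero` and `c = 1`, `c' = 0` works.
-/

set_option linter.unusedSectionVars false

namespace Pool.Agent.Work.MP_dd0ddf_al.AR.O

open scoped SchwartzMap Matrix.Norms.Elementwise ComplexConjugate ContDiff Topology LineDeriv
open Matrix MeasureTheory Filter

variable {n : ℕ}

theorem vac_zero {ε η : Fin n → ℝ} {a : ℝ} (ha : a ≠ 0) (hη : ∀ j, η j = 1 ∨ η j = -1) {u : Mat n}
    (hF : Frm ε η u) {y : Sch n} (h : ∀ k, low ε a η u k y = 0) (h0 : y 0 = 0) : y = 0 := by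
  let m : Fin n → (Fin n → ℝ) → ℂ := fun k t =>
    if 0 < a * η k then -∑ j, (ε j : ℂ) * conj (u k j) * ((2 * a * ε j : ℂ) * (t j : ℂ))
    else ∑ j, (ε j : ℂ) * u k j * ((2 * a * ε j : ℂ) * (t j : ℂ))
  refine ode_zero (cmat_det ha hη hF) m ?_ ?_ h0
  · intro k
    by_cases hk : 0 < a * η k
    · simp only [m, if_pos hk]
      fun_prop
    · simp only [m, if_neg hk]
      fun_prop
  · intro k t
    have h1 := congrArg (fun f : Sch n => f t) (h k)
    by_cases hk : 0 < a * η k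
    · simp only [low, if_pos hk, BB_apply, _root_.zero_apply] at h1
      simp only [m, if_pos hk, cmat, Matrix.of_apply, neg_mul, Finset.sum_mul]
      rw [eq_neg_iff_add_eq_zero, ← Finset.sum_add_distrib]
      have h2 : ∑ j, ((ε j : ℂ) * conj (u k j) * fderiv ℝ y t (Pi.single j 1) +
          (ε j : ℂ) * conj (u k j) * ((2 * a * ε j : ℂ) * (t j : ℂ)) * y t) =
          2 * ∑ j, ((ε j : ℂ) * conj (u k j) * (1 / 2)) *
            (fderiv ℝ y t (Pi.single j 1) + (2 * a * ε j : ℂ) * ((t j : ℂ) * y t)) := by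
        rw [Finset.mul_sum]
        refine Finset.sum_congr rfl fun j _ => ?_
        ring
      rw [h2, h1, mul_zero]
    · simp only [low, if_neg hk, AA_apply, _root_.zero_apply] at h1
      simp only [m, if_neg hk, cmat, Matrix.of_apply, Finset.sum_mul]
      rw [← sub_eq_zero, ← Finset.sum_sub_distrib]
      have h2 : ∑ j, ((ε j : ℂ) * u k j * fderiv ℝ y t (Pi.single j 1) -
          (ε j : ℂ) * u k j * ((2 * a * ε j : ℂ) * (t j : ℂ)) * y t) =
          2 * ∑ j, ((ε j : ℂ) * u k j * (1 / 2)) *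
            (fderiv ℝ y t (Pi.single j 1) - (2 * a * ε j : ℂ) * ((t j : ℂ) * y t)) := by
        rw [Finset.mul_sum]
        refine Finset.sum_congr rfl fun j _ => ?_
        ring
      rw [h2, h1, mul_zero]

theorem vac_dim {ε η : Fin n → ℝ} {a : ℝ} (ha : a ≠ 0) (hη : ∀ j, η j = 1 ∨ η j = -1) {u : Mat n}
    (hF : Frm ε η u) {y y' : Sch n} (h : ∀ k, low ε a η u k y = 0)
    (h' : ∀ k, low ε a η u k y' = 0) : ∃ c c' : ℂ, (c ≠ 0 ∨ c' ≠ 0) ∧ c • y + c' • y' = 0 := by
  by_cases hy : y 0 = 0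
  · refine ⟨1, 0, Or.inl one_ne_zero, ?_⟩
    rw [vac_zero ha hη hF h hy, smul_zero, zero_smul, add_zero]
  · refine ⟨y' 0, -(y 0), Or.inr (neg_ne_zero.2 hy), ?_⟩
    refine vac_zero ha hη hF (fun k => ?_) ?_
    · rw [map_add, map_smul, map_smul, h k, h' k, smul_zero, smul_zero, add_zero]
    · simp only [_root_.add_apply, _root_.smul_apply, smul_eq_mul]
      ring

end Pool.Agent.Work.MP_dd0ddf_al.AR.O
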