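import Pool.Agent.Work.MP_dd0ddf_al.AR.Defs

/-!
# MP_dd0ddf_al, archimedean part: test functions, operators, the system of equations

* `XX n = M_n(ℂ) × ℝ^n`; `TFK K`: smooth compactly supported functions on `XX n` which vanish
  outside `K × ℝ^n`; `TFs Ω`: the union of the `TFK K`, `K` compact in `Ω`; `TGK`, `TGs`: the same
  for functions on `M_n(ℂ)`.
* `mG c`: multiplication by `c(g)`; `dG X`: derivative along the vector field `g ↦ X g`;
  `dT j`: derivative in `t_j`; `opA r`, `opB r`: the (transposed) Heisenberg operators, `r = r(g)` a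
  row vector depending on `g`; on test functions `[opA r, opB r'] = - a <r, r'>`.
* `Sys`: the equations satisfied by the distribution `T` attached to an equivariant map.
* `hat`, `vv`, `Od`: Gram-Schmidt process from the last row upwards, and the filtration of
  `GL_n(ℂ)` by the open sets `Od ε 0 ⊆ Od ε 1 ⊆ ... ⊆ Od ε n = GL_n(ℂ)`.
* `ContTG`, `Equi`, `BEig`: continuous linear maps on test functions on `GL_n(ℂ)`.
-/

set_option linter.unusedSectionVars false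

namespace Pool.Agent.Work.MP_dd0ddf_al.AR

open scoped SchwartzMap Matrix.Norms.Elementwise ComplexConjugate ContDiff Topology LineDeriv
open Matrix MeasureTheory Filter

noncomputable section

variable {n : ℕ}

/-! ## hermitian form on row vectors, elements of the Lie algebra of `U(V)` -/

/-- the hermitian form `∑ ε_j x_j conj y_j` on row vectors -/
def hf (ε : Fin n → ℝ) (x y : Fin n → ℂ) : ℂ := ∑ j, (ε j : ℂ) * x j * conj (y j)

/-- the matrix of the map `x ↦ i <x,u> u` on row vectors -/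
def Zm (ε : Fin n → ℝ) (u : Fin n → ℂ) : Mat n :=
  Matrix.of fun j l => Complex.I * ε j * conj (u j) * u l

/-- the matrix of the map `x ↦ <x,p> q - <x,q> p` on row vectors -/
def Xm (ε : Fin n → ℝ) (p q : Fin n → ℂ) : Mat n :=
  Matrix.of fun j l => (ε j : ℂ) * conj (p j) * q l - ε j * conj (q j) * p l

/-! ## test functions -/

/-- `M_n(ℂ) × ℝ^n` -/
abbrev XX (n : ℕ) := Mat n × (Fin n → ℝ)

/-- smooth compactly supported functions on `M_n(ℂ) × ℝ^n` vanishing outside `K × ℝ^n` -/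
def TFK (K : Set (Mat n)) : Submodule ℂ (XX n → ℂ) where
  carrier := {F | ContDiff ℝ ∞ F ∧ HasCompactSupport F ∧ ∀ x : XX n, x.1 ∉ K → F x = 0}
  add_mem' := by
    intro F G hF hG
    refine ⟨hF.1.add hG.1, hF.2.1.add hG.2.1, ?_⟩
    intro x hx
    simp [hF.2.2 x hx, hG.2.2 x hx]
  zero_mem' := ⟨contDiff_const, HasCompactSupport.zero, fun _ _ => rfl⟩
  smul_mem' := by
    intro c F hF
    refine ⟨contDiff_const.smul hF.1, hF.2.1.smul_left, ?_⟩
    intro x hx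
    simp [hF.2.2 x hx]

/-- test functions on `Ω × ℝ^n` -/
def TFs (Ω : Set (Mat n)) : Set (XX n → ℂ) := {F | ∃ K, IsCompact K ∧ K ⊆ Ω ∧ F ∈ TFK K}

/-- smooth functions on `M_n(ℂ)` vanishing outside `K` -/
def TGK (K : Set (Mat n)) : Submodule ℂ (Mat n → ℂ) where
  carrier := {f | ContDiff ℝ ∞ f ∧ ∀ g, g ∉ K → f g = 0}
  add_mem' := by
    intro F G hF hG
    refine ⟨hF.1.add hG.1, ?_⟩
    intro x hx
    simp [hF.2 x hx, hG.2 x hx]
  zero_mem' := ⟨contDiff_const, fun _ _ => rfl⟩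
  smul_mem' := by
    intro c F hF
    refine ⟨contDiff_const.smul hF.1, ?_⟩
    intro x hx
    simp [hF.2 x hx]

/-- test functions on `Ω` -/
def TGs (Ω : Set (Mat n)) : Set (Mat n → ℂ) := {f | ∃ K, IsCompact K ∧ K ⊆ Ω ∧ f ∈ TGK K}

/-! ## operators on functions on `M_n(ℂ) × ℝ^n` -/

/-- multiplication by the function `c(g)` -/
def mG (c : Mat n → ℂ) (F : XX n → ℂ) : XX n → ℂ := fun x => c x.1 * F x

/-- derivative along the vector field `g ↦ X g` -/
def dG (X : Mat n → Mat n) (F : XX n → ℂ) : XX n → ℂ := fun x => fderiv ℝ F x (X x.1, 0)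

/-- derivative in the variable `t_j` -/
def dT (j : Fin n) (F : XX n → ℂ) : XX n → ℂ := fun x => fderiv ℝ F x (0, Pi.single j 1)

/-- the operator `- ∑ ε_j r_j(g) (∂_j + 2 a ε_j t_j) / 2`, the transpose of
`∑ ε_j r_j (∂_j - 2 a ε_j t_j) / 2` -/
def opA (ε : Fin n → ℝ) (a : ℝ) (r : Mat n → Fin n → ℂ) (F : XX n → ℂ) : XX n → ℂ := fun x =>
  -∑ j, (ε j : ℂ) * r x.1 j * ((1 / 2) * (dT j F x + 2 * a * ε j * x.2 j * F x))

/-- the operator `- ∑ ε_j conj(r_j(g)) (∂_j - 2 a ε_j t_j) / 2`, the transpose of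
`∑ ε_j conj(r_j) (∂_j + 2 a ε_j t_j) / 2` -/
def opB (ε : Fin n → ℝ) (a : ℝ) (r : Mat n → Fin n → ℂ) (F : XX n → ℂ) : XX n → ℂ := fun x =>
  -∑ j, (ε j : ℂ) * conj (r x.1 j) * ((1 / 2) * (dT j F x - 2 * a * ε j * x.2 j * F x))

/-! ## distributions and the system -/

/-- finite order on `K × ℝ^n`, uniformly in `t ∈ ℝ^n` -/
def IsDistK (K : Set (Mat n)) (T : (XX n → ℂ) →ₗ[ℂ] ℂ) : Prop :=
  ∃ (C : ℝ) (M : ℕ), ∀ F ∈ TFK K, ∀ B : ℝ,
    (∀ m ≤ M, ∀ x, ‖iteratedFDeriv ℝ m F x‖ ≤ B) → ‖T F‖ ≤ C * B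

/-- `T` is a distribution on `Ω × ℝ^n` (bounded in `t ∈ ℝ^n`); `T` is a linear functional on the
space of all functions, only its values on test functions matter -/
def IsDist (Ω : Set (Mat n)) (T : (XX n → ℂ) →ₗ[ℂ] ℂ) : Prop :=
  ∀ K : Set (Mat n), IsCompact K → K ⊆ Ω → IsDistK K T

/-- the equations satisfied by the distribution attached to an equivariant map: equivariance
under upper triangular matrices from the left and under the Lie algebra of `U(V)` from the right -/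
structure Sys (ε : Fin n → ℝ) (a : ℝ) (γ γ' : Fin n → ℂ) (c1 : ℂ) (Ω : Set (Mat n))
    (T : (XX n → ℂ) →ₗ[ℂ] ℂ) : Prop where
  dist : IsDist Ω T
  up : ∀ k l : Fin n, k < l → ∀ z : ℂ, ∀ F ∈ TFs Ω,
    T (dG (fun g => Matrix.single k l z * g) F) = 0
  re : ∀ k : Fin n, ∀ F ∈ TFs Ω, T (dG (fun g => Matrix.single k k 1 * g) F) = γ k * T F
  im : ∀ k : Fin n, ∀ F ∈ TFs Ω,
    T (dG (fun g => Matrix.single k k Complex.I * g) F) = γ' k * T F
  Z : ∀ u : Fin n → ℂ, ∀ F ∈ TFs Ω, T (dG (fun g => g * Zm ε u) F) =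
    (Complex.I / a) * T (opB ε a (fun _ => u) (opA ε a (fun _ => u) F)) +
      Complex.I * c1 * hf ε u u * T F

/-! ## Gram-Schmidt from the last row upwards -/

/-- `prj ε g j x`: projection of `x` orthogonally to the last `j` rows of `g` (for the form
`hf ε`) -/
def prj (ε : Fin n → ℝ) (g : Mat n) : ℕ → (Fin n → ℂ) → (Fin n → ℂ)
  | 0 => fun x => x
  | j + 1 => fun x =>
    if h : n - 1 - j < n then
      prj ε g j x - (hf ε x (prj ε g j (g ⟨n - 1 - j, h⟩)) /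
        hf ε (prj ε g j (g ⟨n - 1 - j, h⟩)) (prj ε g j (g ⟨n - 1 - j, h⟩))) •
          prj ε g j (g ⟨n - 1 - j, h⟩)
    else prj ε g j x

/-- projection of `x` orthogonally to the rows of `g` of index `> m` -/
def hat (ε : Fin n → ℝ) (m : Fin n) (g : Mat n) (x : Fin n → ℂ) : Fin n → ℂ :=
  prj ε g (n - 1 - m) x

/-- the `m`-th orthogonalised row -/
def vv (ε : Fin n → ℝ) (m : Fin n) (g : Mat n) : Fin n → ℂ := hat ε m g (g m)

/-- invertible matrices whose orthogonalised rows of index `≥ d` are not isotropic -/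
def Od (ε : Fin n → ℝ) (d : ℕ) : Set (Mat n) :=
  {g | g.det ≠ 0 ∧ ∀ l : Fin n, d ≤ (l : ℕ) → hf ε (vv ε l g) (vv ε l g) ≠ 0}

/-! ## operators on the Schwartz space -/

/-- multiplication by `t_j` -/
def tm (j : Fin n) : Sch n →L[ℂ] Sch n :=
  SchwartzMap.smulLeftCLM ℂ (fun t : Fin n → ℝ => ((t j : ℝ) : ℂ))

/-- derivative in `t_j` -/
def td (j : Fin n) : Sch n →L[ℂ] Sch n :=
  LineDeriv.lineDerivOpCLM ℂ (Sch n) (Pi.single j (1 : ℝ) : Fin n → ℝ)

/-- `A(r) = ∑ ε_j r_j (∂_j - 2 a ε_j t_j) / 2` -/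
def AA (ε : Fin n → ℝ) (a : ℝ) (r : Fin n → ℂ) : Sch n →L[ℂ] Sch n :=
  ∑ j, ((ε j : ℂ) * r j * (1 / 2)) • (td j - (2 * a * ε j : ℂ) • tm j)

/-- `A†(r) = ∑ ε_j conj(r_j) (∂_j + 2 a ε_j t_j) / 2` -/
def BB (ε : Fin n → ℝ) (a : ℝ) (r : Fin n → ℂ) : Sch n →L[ℂ] Sch n :=
  ∑ j, ((ε j : ℂ) * conj (r j) * (1 / 2)) • (td j + (2 * a * ε j : ℂ) • tm j)

/-! ## equivariant maps on test functions on `GL_n(ℂ)` -/

/-- derivative along the vector field `g ↦ X g` for functions on `M_n(ℂ)` -/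
def dg (X : Mat n → Mat n) (f : Mat n → ℂ) : Mat n → ℂ := fun g => fderiv ℝ f g (X g)

/-- the character `χ δ_B^{-1/2}`: `∏ χ_j(b_jj) |b_jj|^{-(n-1-2j)}`, `j = 0, ..., n-1` -/
def chm (s : Fin n → ℂ) (k : Fin n → ℤ) (b : Mat n) : ℂ :=
  ∏ j : Fin n, chr (s j) (k j) (b j j) *
    ((‖b j j‖ : ℝ) : ℂ) ^ (-((n : ℤ) - 1 - 2 * (j : ℤ)))

/-- continuity on test functions on `GL_n(ℂ)` -/
def ContTG {P : Type*} [AddCommGroup P] [Module ℂ P] [TopologicalSpace P]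
    (A : (Mat n → ℂ) →ₗ[ℂ] P) : Prop :=
  ∀ K : Set (Mat n), IsCompact K → K ⊆ GLs n → ∀ U ∈ 𝓝 (0 : P), ∃ (δ : ℝ) (M : ℕ), 0 < δ ∧
    ∀ f ∈ TGK K, (∀ m ≤ M, ∀ g, ‖iteratedFDeriv ℝ m f g‖ ≤ δ) → A f ∈ U

/-- a `B`-eigenvector `u` of weight `χ δ_B^{-1/2}` in the distribution completion of `π`, in the
form of the map `A f = π(f) u`, `f ∈ C_c^∞(GL_n(ℂ))`.  `A` is a linear map on the space of all
functions, only its values on test functions matter. -/
structure BEig {P : Type*} [AddCommGroup P] [Module ℂ P] [TopologicalSpace P]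
    (π : GLn n →* (P →L[ℂ] P)) (s : Fin n → ℂ) (k : Fin n → ℤ)
    (A : (Mat n → ℂ) →ₗ[ℂ] P) : Prop where
  cont : ContTG A
  left : ∀ b : Mat n, (∀ i j, j < i → b i j = 0) → b.det ≠ 0 → ∀ f ∈ TGs (GLs n),
    A (fun g => f (b * g)) = chm s k b • A f
  right : ∀ h : GLn n, ∀ f ∈ TGs (GLs n), A (fun g => f (g * (h : Mat n))) = π h (A f)
  dense : Dense (A '' TGs (GLs n))

/-- a continuous equivariant linear map `L : C_c^∞(GL_n(ℂ)) → 𝓢(ℝ^n)` of weight
`χ δ_B^{-1/2}` -/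
structure Equi {ε : Fin n → ℝ} {a : ℝ} (W : Weil ε a) (s : Fin n → ℂ) (k : Fin n → ℤ)
    (L : (Mat n → ℂ) →ₗ[ℂ] Sch n) : Prop where
  cont : ContTG L
  left : ∀ b : Mat n, (∀ i j, j < i → b i j = 0) → b.det ≠ 0 → ∀ f ∈ TGs (GLs n),
    L (fun g => f (b * g)) = chm s k b • L f
  right : ∀ h : UJ ε, ∀ f ∈ TGs (GLs n),
    L (fun g => f (g * ((h : GLn n) : Mat n))) = W.om h (L f)

/-- `T(F) = ∫ L(F(·,t))(t) dt` on test functions -/
def IsTof (L : (Mat n → ℂ) →ₗ[ℂ] Sch n) (T : (XX n → ℂ) →ₗ[ℂ] ℂ) : Prop :=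
  ∀ F ∈ TFs (GLs n), T F = ∫ t : Fin n → ℝ, L (fun g => F (g, t)) t

end

end Pool.Agent.Work.MP_dd0ddf_al.AR
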