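import Pool.Agent.Work.MP_dd0ddf_al.AR.Op

/-!
# ParA (M): uniform Taylor bound for families of test functions

For a normed space `G` and smooth `Φ : P × E → G`, `Φ (q, x) = 0` for `q ∈ V`, `x ∉ C`, put
`R_q[Φ](x) = Φ (p + q, x) - Φ (p, x) - fderiv ℝ Φ (p, x) (q, 0)`.  Claim(m): for every such `Φ`
(all `G`) there are `c`, `δ > 0` with `‖iteratedFDeriv ℝ m R_q[Φ] x‖ ≤ c ‖q‖^2` for `‖q‖ < δ` and
all `x`.  Induction on `m`.
* `m = 0`: choose `δ` with `closedBall p δ ⊆ V`; `fderiv ℝ Φ` is smooth, so Lipschitz in `p` on the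
  compact convex set `closedBall p δ` uniformly for `x ∈ C` (the second derivative is bounded on
  the compact `closedBall p δ ×ˢ C`); mean value inequality
  (`Convex.norm_image_sub_le_of_norm_fderiv_le'` applied to `q ↦ Φ (p + q, x) - fderiv Φ (p,x) (q,0)`).
  For `x ∉ C`: all terms are `0` (`Φ (·, x) = 0` near `p`; note that `fderiv ℝ Φ (p,x) (q,0)` is the
  derivative of `Φ (p + τ q, x) = 0`).
* `m + 1`: put `Φ' (p, x) = (fderiv ℝ Φ (p, x)).comp (ContinuousLinearMap.inr ℝ P E)` (the partial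
  derivative in `x`), a smooth function with values in `E →L[ℝ] G`, zero for `q` in the interior
  of `V` and `x ∉ C`
  (shrink `V` to an open set).  By symmetry of the second derivative
  `fderiv ℝ (R_q[Φ]) x = R_q[Φ'](x)`, and `norm_iteratedFDeriv_fderiv` gives
  `‖iteratedFDeriv ℝ (m+1) R_q[Φ] x‖ = ‖iteratedFDeriv ℝ m R_q[Φ'] x‖`.
For the statement take the maximum of the constants over `m ≤ M`.
(To have an induction over all `G` in one universe, `E : Type` and `P : Type`, `G : Type`.)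
-/

set_option linter.unusedSectionVars false

namespace Pool.Agent.Work.MP_dd0ddf_al.AR

open scoped SchwartzMap Matrix.Norms.Elementwise ComplexConjugate ContDiff Topology LineDeriv
open Matrix MeasureTheory Filter

noncomputable section

variable {n : ℕ}

private theorem ta_zero {P E G : Type} [NormedAddCommGroup P] [NormedSpace ℝ P]
    [FiniteDimensional ℝ P] [NormedAddCommGroup E] [NormedSpace ℝ E]
    [NormedAddCommGroup G] [NormedSpace ℝ G]
    {Φ : P × E → G} (hΦ : ContDiff ℝ ∞ Φ) (p : P) {V : Set P} (hV : V ∈ 𝓝 p) {C : Set E}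
    (hC : IsCompact C) (h0 : ∀ q ∈ V, ∀ x, x ∉ C → Φ (q, x) = 0) :
    ∃ c δ : ℝ, 0 < δ ∧ ∀ q : P, ‖q‖ < δ → ∀ x : E,
      ‖Φ (p + q, x) - Φ (p, x) - fderiv ℝ Φ (p, x) (q, 0)‖ ≤ c * ‖q‖ ^ 2 := by
  obtain ⟨δ, hδ, hδV⟩ := Metric.nhds_basis_closedBall.mem_iff.1 hV
  have hdiff : Differentiable ℝ Φ := hΦ.differentiable (by simp)
  have hD : ContDiff ℝ ∞ (fderiv ℝ Φ) := hΦ.fderiv_right (m := ∞) (by simp)
  have hDdiff : Differentiable ℝ (fderiv ℝ Φ) := hD.differentiable (by simp)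
  have hDD : Continuous (fun y => ‖fderiv ℝ (fderiv ℝ Φ) y‖) :=
    (hD.continuous_fderiv (by simp)).norm
  have hS : IsCompact (Metric.closedBall p δ ×ˢ C) := (isCompact_closedBall p δ).prod hC
  obtain ⟨c₁, hc₁0⟩ := hS.bddAbove_image hDD.continuousOn
  have hc₁ : ∀ y ∈ Metric.closedBall p δ ×ˢ C, ‖fderiv ℝ (fderiv ℝ Φ) y‖ ≤ c₁ := fun y hy =>
    hc₁0 (Set.mem_image_of_mem _ hy)
  have hc₁' : 0 ≤ max c₁ 0 := le_max_right _ _
  refine ⟨max c₁ 0, δ, hδ, ?_⟩
  intro q hq x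
  by_cases hx : x ∈ C
  · have hinl : ‖ContinuousLinearMap.inl ℝ P E‖ ≤ 1 := ContinuousLinearMap.norm_inl_le_one ℝ P E
    have hpart : ∀ s : P, HasFDerivAt (fun s => Φ (s, x))
        ((fderiv ℝ Φ (s, x)).comp (ContinuousLinearMap.inl ℝ P E)) s := fun s =>
      (hdiff (s, x)).hasFDerivAt.comp s (hasFDerivAt_prodMk_left s x)
    have hpart2 : ∀ s : P, HasFDerivAt (fun s => fderiv ℝ Φ (s, x))
        ((fderiv ℝ (fderiv ℝ Φ) (s, x)).comp (ContinuousLinearMap.inl ℝ P E)) s := fun s =>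
      (hDdiff (s, x)).hasFDerivAt.comp s (hasFDerivAt_prodMk_left s x)
    have hLip : ∀ s ∈ Metric.closedBall p δ,
        ‖fderiv ℝ Φ (s, x) - fderiv ℝ Φ (p, x)‖ ≤ max c₁ 0 * ‖s - p‖ := by
      intro s hs
      refine (convex_closedBall p δ).norm_image_sub_le_of_norm_hasFDerivWithin_le (𝕜 := ℝ)
        (fun y _ => (hpart2 y).hasFDerivWithinAt) ?_ (Metric.mem_closedBall_self hδ.le) hs
      intro y hy
      refine (ContinuousLinearMap.opNorm_comp_le _ _).trans ?_
      have h1 := hc₁ (y, x) ⟨hy, hx⟩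
      calc _ ≤ ‖fderiv ℝ (fderiv ℝ Φ) (y, x)‖ * 1 :=
            mul_le_mul_of_nonneg_left hinl (ContinuousLinearMap.opNorm_nonneg _)
        _ ≤ max c₁ 0 := by rw [mul_one]; exact h1.trans (le_max_left _ _)
    have hmain := (convex_closedBall p ‖q‖).norm_image_sub_le_of_norm_hasFDerivWithin_le' (𝕜 := ℝ)
      (f := fun s => Φ (s, x)) (C := max c₁ 0 * ‖q‖)
      (φ := (fderiv ℝ Φ (p, x)).comp (ContinuousLinearMap.inl ℝ P E))
      (x := p) (y := p + q)
      (fun y _ => (hpart y).hasFDerivWithinAt) ?_ (Metric.mem_closedBall_self (norm_nonneg _))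
      (by simp [Metric.mem_closedBall, dist_eq_norm])
    · have he : ((fderiv ℝ Φ (p, x)).comp (ContinuousLinearMap.inl ℝ P E)) (p + q - p)
          = fderiv ℝ Φ (p, x) (q, 0) := by
        simp
      rw [he] at hmain
      refine hmain.trans (le_of_eq ?_)
      rw [add_sub_cancel_left]; ring
    · intro y hy
      rw [← ContinuousLinearMap.sub_comp]
      refine (ContinuousLinearMap.opNorm_comp_le _ _).trans ?_
      have hy' : ‖y - p‖ ≤ ‖q‖ := by simpa [dist_eq_norm] using hy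
      have hyδ : y ∈ Metric.closedBall p δ := by
        simpa [dist_eq_norm] using hy'.trans hq.le
      calc _ ≤ ‖fderiv ℝ Φ (y, x) - fderiv ℝ Φ (p, x)‖ * 1 :=
            mul_le_mul_of_nonneg_left hinl (norm_nonneg _)
        _ ≤ max c₁ 0 * ‖y - p‖ := by rw [mul_one]; exact hLip y hyδ
        _ ≤ max c₁ 0 * ‖q‖ := mul_le_mul_of_nonneg_left hy' hc₁'
  · have h1 : Φ (p + q, x) = 0 := h0 _ (hδV (by
      simp only [Metric.mem_closedBall, dist_eq_norm, add_sub_cancel_left]; exact hq.le)) x hx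
    have h2 : Φ (p, x) = 0 := h0 _ (mem_of_mem_nhds hV) x hx
    have h3 : fderiv ℝ Φ (p, x) (q, 0) = 0 := by
      have ha : HasFDerivAt (fun s => Φ (s, x))
          ((fderiv ℝ Φ (p, x)).comp (ContinuousLinearMap.inl ℝ P E)) p :=
        (hdiff (p, x)).hasFDerivAt.comp p (hasFDerivAt_prodMk_left p x)
      have hb : HasFDerivAt (fun s => Φ (s, x)) (0 : P →L[ℝ] G) p := by
        refine (hasFDerivAt_const (0 : G) p).congr_of_eventuallyEq ?_
        filter_upwards [hV] with s hs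
        exact h0 s hs x hx
      have hc := ha.unique hb
      have := congrArg (fun L : P →L[ℝ] G => L q) hc
      simpa using this
    rw [h1, h2, h3]
    simp only [sub_zero, norm_zero]
    positivity

private theorem ta_all {P E : Type} [NormedAddCommGroup P] [NormedSpace ℝ P]
    [FiniteDimensional ℝ P] [NormedAddCommGroup E] [NormedSpace ℝ E]
    (p : P) {V : Set P} (hV : V ∈ 𝓝 p) {C : Set E} (hC : IsCompact C) (m : ℕ) :
    ∀ {G : Type} [NormedAddCommGroup G] [NormedSpace ℝ G]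
      {Φ : P × E → G} (_ : ContDiff ℝ ∞ Φ) (_ : ∀ q ∈ V, ∀ x, x ∉ C → Φ (q, x) = 0),
    ∃ c δ : ℝ, 0 < δ ∧ ∀ q : P, ‖q‖ < δ → ∀ x : E,
      ‖iteratedFDeriv ℝ m
        (fun x => Φ (p + q, x) - Φ (p, x) - fderiv ℝ Φ (p, x) (q, 0)) x‖ ≤ c * ‖q‖ ^ 2 := by
  induction m with
  | zero =>
    intro G _ _ Φ hΦ h0
    obtain ⟨c, δ, hδ, h⟩ := ta_zero hΦ p hV hC h0
    refine ⟨c, δ, hδ, fun q hq x => ?_⟩
    rw [norm_iteratedFDeriv_zero]
    exact h q hq x
  | succ m ih =>
    intro G _ _ Φ hΦ h0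
    have hdiff : Differentiable ℝ Φ := hΦ.differentiable (by simp)
    have hD : ContDiff ℝ ∞ (fderiv ℝ Φ) := hΦ.fderiv_right (m := ∞) (by simp)
    have hDdiff : Differentiable ℝ (fderiv ℝ Φ) := hD.differentiable (by simp)
    set L : (P × E →L[ℝ] G) →L[ℝ] (E →L[ℝ] G) :=
      (ContinuousLinearMap.compL ℝ E (P × E) G).flip (ContinuousLinearMap.inr ℝ P E) with hL
    have hLa : ∀ A : P × E →L[ℝ] G, L A = A.comp (ContinuousLinearMap.inr ℝ P E) := by
      intro A; simp [hL]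
    have hΦ' : ContDiff ℝ ∞ (fun y : P × E => L (fderiv ℝ Φ y)) := L.contDiff.comp hD
    have hpx : ∀ (s : P) (x : E), HasFDerivAt (fun x => Φ (s, x)) (L (fderiv ℝ Φ (s, x))) x := by
      intro s x
      rw [hLa]
      exact (hdiff (s, x)).hasFDerivAt.comp x (hasFDerivAt_prodMk_right s x)
    have h0' : ∀ q ∈ V, ∀ x, x ∉ C → (fun y : P × E => L (fderiv ℝ Φ y)) (q, x) = 0 := by
      intro q hq x hx
      have ha := hpx q x
      have hb : HasFDerivAt (fun x => Φ (q, x)) (0 : E →L[ℝ] G) x := by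
        refine (hasFDerivAt_const (0 : G) x).congr_of_eventuallyEq ?_
        filter_upwards [hC.isClosed.isOpen_compl.mem_nhds hx] with y hy
        exact h0 q hq y hy
      exact ha.unique hb
    obtain ⟨c, δ, hδ, h⟩ := ih hΦ' h0'
    refine ⟨c, δ, hδ, fun q hq x => ?_⟩
    rw [← norm_iteratedFDeriv_fderiv]
    have hfd : fderiv ℝ (fun x => Φ (p + q, x) - Φ (p, x) - fderiv ℝ Φ (p, x) (q, 0)) =
        fun x => (fun y : P × E => L (fderiv ℝ Φ y)) (p + q, x) -
          (fun y : P × E => L (fderiv ℝ Φ y)) (p, x) -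
          fderiv ℝ (fun y : P × E => L (fderiv ℝ Φ y)) (p, x) (q, 0) := by
      funext x
      refine HasFDerivAt.fderiv ?_
      refine ((hpx (p + q) x).sub (hpx p x)).sub ?_
      -- derivative of the linear term
      have h1 : HasFDerivAt (fun x => fderiv ℝ Φ (p, x))
          ((fderiv ℝ (fderiv ℝ Φ) (p, x)).comp (ContinuousLinearMap.inr ℝ P E)) x :=
        (hDdiff (p, x)).hasFDerivAt.comp x (hasFDerivAt_prodMk_right p x)
      have h2 : HasFDerivAt (fun x => fderiv ℝ Φ (p, x) (q, 0))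
          (((fderiv ℝ (fderiv ℝ Φ) (p, x)).comp (ContinuousLinearMap.inr ℝ P E)).flip (q, 0)) x := by
        have := h1.clm_apply (hasFDerivAt_const ((q, 0) : P × E) x)
        refine this.congr_fderiv ?_
        ext e
        simp
      have h3 : fderiv ℝ (fun y : P × E => L (fderiv ℝ Φ y)) (p, x) (q, 0) =
          ((fderiv ℝ (fderiv ℝ Φ) (p, x)).comp (ContinuousLinearMap.inr ℝ P E)).flip (q, 0) := by
        have h4 : HasFDerivAt (fun y : P × E => L (fderiv ℝ Φ y))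
            (L.comp (fderiv ℝ (fderiv ℝ Φ) (p, x))) (p, x) :=
          L.hasFDerivAt.comp (p, x) (hDdiff (p, x)).hasFDerivAt
        rw [h4.fderiv]
        ext e
        have hs : IsSymmSndFDerivAt ℝ Φ (p, x) :=
          hΦ.contDiffAt.isSymmSndFDerivAt (by
            rw [minSmoothness_of_isRCLikeNormedField]; exact WithTop.coe_le_coe.2 le_top)
        have := hs (q, 0) (0, e)
        simp [hLa, this]
      rw [h3]
      exact h2
    rw [hfd]
    exact h q hq x

theorem taylor_bound {P E : Type} [NormedAddCommGroup P] [NormedSpace ℝ P]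
    [FiniteDimensional ℝ P] [NormedAddCommGroup E] [NormedSpace ℝ E] [FiniteDimensional ℝ E]
    {Φ : P × E → ℂ} (hΦ : ContDiff ℝ ∞ Φ) (p : P) {V : Set P} (hV : V ∈ 𝓝 p) {C : Set E}
    (hC : IsCompact C) (h0 : ∀ q ∈ V, ∀ x, x ∉ C → Φ (q, x) = 0) (M : ℕ) :
    ∃ c δ : ℝ, 0 < δ ∧ ∀ q : P, ‖q‖ < δ → ∀ m ≤ M, ∀ x : E,
      ‖iteratedFDeriv ℝ m
        (fun x => Φ (p + q, x) - Φ (p, x) - fderiv ℝ Φ (p, x) (q, 0)) x‖ ≤ c * ‖q‖ ^ 2 := by
  have key : ∀ m : ℕ, ∃ c δ : ℝ, 0 < δ ∧ ∀ q : P, ‖q‖ < δ → ∀ x : E,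
      ‖iteratedFDeriv ℝ m
        (fun x => Φ (p + q, x) - Φ (p, x) - fderiv ℝ Φ (p, x) (q, 0)) x‖ ≤ c * ‖q‖ ^ 2 :=
    fun m => ta_all p hV hC m hΦ h0
  choose c δ hδ h using key
  induction M with
  | zero =>
    refine ⟨c 0, δ 0, hδ 0, ?_⟩
    intro q hq m hm x
    obtain rfl : m = 0 := by omega
    exact h 0 q hq x
  | succ M ih =>
    obtain ⟨c', δ', hδ', h'⟩ := ih
    refine ⟨max c' (c (M + 1)), min δ' (δ (M + 1)), lt_min hδ' (hδ _), ?_⟩
    intro q hq m hm x
    rcases Nat.lt_or_ge m (M + 1) with hm' | hm'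
    · exact (h' q (hq.trans_le (min_le_left _ _)) m (by omega) x).trans
        (mul_le_mul_of_nonneg_right (le_max_left _ _) (by positivity))
    · obtain rfl : m = M + 1 := by omega
      exact (h (M + 1) q (hq.trans_le (min_le_right _ _)) x).trans
        (mul_le_mul_of_nonneg_right (le_max_right _ _) (by positivity))

end

end Pool.Agent.Work.MP_dd0ddf_al.AR
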