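import Pool.Agent.Work.MP_dd0ddf_al.AR.RLR

/-!
# MP_dd0ddf_al, archimedean part, block R, module RAd

The action of the group on the operators `Lo`, `Ro`.

PROOF. `Lo_ij = (1/2)(d E_ij - I d(I E_ij))`, `hd.Ad`: `π g (d Y v) = d (g Y g⁻¹) (π g v)`.  For `Y = z E_ij` (`z = 1, I`) the entries of
`g Y g⁻¹` are `(g Y g⁻¹)_ab = z g_ai (g⁻¹)_jb`, and `d_eq_sum` gives `d (g Y g⁻¹) x = ∑_ab (z c_ab Lo_ab x + conj (z c_ab) Ro_ab x)`,
`c_ab = g_ai (g⁻¹)_jb`.  So `(1/2)(d(g E_ij g⁻¹) - I d(g I E_ij g⁻¹)) x = ∑_ab (1/2)(c_ab - I I c_ab) Lo_ab x +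
(1/2)(conj c_ab - I conj(I c_ab)) Ro_ab x = ∑ c_ab Lo_ab x`.  The same for `Ro` with the opposite sign.
`expG_Lo`: for `g = expG (t • diag h)` (`expG` of a diagonal matrix is `diag(e^(t h_i))`, `coe_expG`, `Matrix.exp_diagonal`; the inverse is `diag(e^(-t h_i))`)
only `a = i`, `b = j` contributes, with `c_ij = e^(t h_i) e^(-t h_j)`, real.
-/

set_option linter.unusedSectionVars false

namespace Pool.Agent.Work.MP_dd0ddf_al.AR

open scoped SchwartzMap Matrix.Norms.Elementwise ComplexConjugate ContDiff Topology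
open Matrix MeasureTheory Filter Asymptotics

noncomputable section

variable {n : ℕ} {P : Type*} [AddCommGroup P] [Module ℂ P] [UniformSpace P] [IsUniformAddGroup P]
  [ContinuousSMul ℂ P] [PolynormableSpace ℂ P] [T2Space P] [CompleteSpace P]
  [FirstCountableTopology P]

private theorem rad_alg0 (c : ℂ) (x y : P) :
    Complex.I • ((Complex.I * c) • x + conj (Complex.I * c) • y) = -(c • x) + conj c • y := by
  have hI : Complex.I * Complex.I = -1 := Complex.I_mul_I
  rw [map_mul, Complex.conj_I, smul_add, smul_smul, smul_smul]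
  congr 1
  · rw [← mul_assoc, hI, neg_one_mul, neg_smul]
  · congr 1
    linear_combination (-conj c) * hI

private theorem rad_alg1 (c : ℂ) (x y : P) :
    (1 / 2 : ℂ) • (((1 * c) • x + conj (1 * c) • y) -
      Complex.I • ((Complex.I * c) • x + conj (Complex.I * c) • y)) = c • x := by
  rw [rad_alg0, one_mul]
  module

private theorem rad_alg2 (c : ℂ) (x y : P) :
    (1 / 2 : ℂ) • (((1 * c) • x + conj (1 * c) • y) +
      Complex.I • ((Complex.I * c) • x + conj (Complex.I * c) • y)) = conj c • y := by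
  rw [rad_alg0, one_mul]
  module

private theorem rad_entry (A B : Mat n) (i j : Fin n) (z : ℂ) (a b : Fin n) :
    (A * Matrix.single i j z * B) a b = z * (A a i * B j b) := by
  rw [Matrix.mul_apply]
  rw [Finset.sum_eq_single j]
  · rw [Matrix.mul_single_apply_same]
    ring
  · intro k _ hk
    rw [Matrix.mul_single_apply_of_ne _ _ _ _ _ hk, zero_mul]
  · intro h
    exact absurd (Finset.mem_univ j) h

private theorem rad_conj (π : GLn n →* (P →L[ℂ] P)) (d : Mat n → P →L[ℂ] P) (hd : Der π d)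
    (g : GLn n) (i j : Fin n) (z : ℂ) (v : P) : π g (d (Matrix.single i j z) v) =
      ∑ a, ∑ b, ((z * ((g : Mat n) a i * ((g⁻¹ : GLn n) : Mat n) j b)) • Lo d a b (π g v) +
        conj (z * ((g : Mat n) a i * ((g⁻¹ : GLn n) : Mat n) j b)) • Ro d a b (π g v)) := by
  rw [hd.Ad, d_eq_sum π d hd]
  refine Finset.sum_congr rfl fun a _ => Finset.sum_congr rfl fun b _ => ?_
  rw [rad_entry]

private theorem rad_diag (h : Fin n → ℝ) (t : ℝ) :
    ((expG (t • Matrix.diagonal fun i => ((h i : ℝ) : ℂ)) : GLn n) : Mat n) =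
    Matrix.diagonal fun i : Fin n => (Real.exp (t * h i) : ℂ) := by
  rw [coe_expG]
  have h1 : t • Matrix.diagonal (fun i : Fin n => ((h i : ℝ) : ℂ)) =
      Matrix.diagonal (t • fun i : Fin n => ((h i : ℝ) : ℂ)) := by
    rw [← Matrix.diagonal_smul]
  rw [h1, Matrix.exp_diagonal]
  congr 1
  funext i
  rw [Pi.coe_exp, ← Complex.exp_eq_exp_ℂ, Pi.smul_apply, Complex.real_smul]
  push_cast
  rfl

private theorem rad_conjd (h : Fin n → ℝ) (t : ℝ) (i j : Fin n) (z : ℂ) :
    ((expG (t • Matrix.diagonal fun i => ((h i : ℝ) : ℂ)) : GLn n) : Mat n) *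
      Matrix.single i j z *
      (((expG (t • Matrix.diagonal fun i => ((h i : ℝ) : ℂ)))⁻¹ : GLn n) : Mat n) =
      (Real.exp (t * (h i - h j))) • Matrix.single i j z := by
  rw [Units.mul_inv_eq_iff_eq_mul, rad_diag, Matrix.smul_single]
  ext a b
  rw [Matrix.diagonal_mul, Matrix.mul_diagonal]
  by_cases hab : i = a ∧ j = b
  · obtain ⟨rfl, rfl⟩ := hab
    rw [Matrix.single_apply_same, Matrix.single_apply_same, Complex.real_smul, mul_right_comm,
      ← Complex.ofReal_mul, ← Real.exp_add]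
    congr 3
    ring
  · rw [Matrix.single_apply_of_ne _ _ _ _ _ hab, Matrix.single_apply_of_ne _ _ _ _ _ hab,
      mul_zero, zero_mul]

theorem Ad_Lo (π : GLn n →* (P →L[ℂ] P)) (d : Mat n → P →L[ℂ] P) (hd : Der π d) (g : GLn n)
    (i j : Fin n) (v : P) : π g (Lo d i j v) =
      ∑ a, ∑ b, ((g : Mat n) a i * ((g⁻¹ : GLn n) : Mat n) j b) • Lo d a b (π g v) := by
  have h1 : π g (Lo d i j v) = (1 / 2 : ℂ) • (π g (d (Matrix.single i j 1) v) -
      Complex.I • π g (d (Matrix.single i j Complex.I) v)) := by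
    unfold Lo
    simp only [_root_.smul_apply, _root_.sub_apply, map_smul, map_sub]
  rw [h1, rad_conj π d hd, rad_conj π d hd, Finset.smul_sum, ← Finset.sum_sub_distrib,
    Finset.smul_sum]
  refine Finset.sum_congr rfl fun a _ => ?_
  rw [Finset.smul_sum, ← Finset.sum_sub_distrib, Finset.smul_sum]
  refine Finset.sum_congr rfl fun b _ => ?_
  exact rad_alg1 _ _ _

theorem Ad_Ro (π : GLn n →* (P →L[ℂ] P)) (d : Mat n → P →L[ℂ] P) (hd : Der π d) (g : GLn n)
    (i j : Fin n) (v : P) : π g (Ro d i j v) =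
      ∑ a, ∑ b, conj ((g : Mat n) a i * ((g⁻¹ : GLn n) : Mat n) j b) • Ro d a b (π g v) := by
  have h1 : π g (Ro d i j v) = (1 / 2 : ℂ) • (π g (d (Matrix.single i j 1) v) +
      Complex.I • π g (d (Matrix.single i j Complex.I) v)) := by
    unfold Ro
    simp only [_root_.smul_apply, _root_.add_apply, map_smul, map_add]
  rw [h1, rad_conj π d hd, rad_conj π d hd, Finset.smul_sum, ← Finset.sum_add_distrib,
    Finset.smul_sum]
  refine Finset.sum_congr rfl fun a _ => ?_
  rw [Finset.smul_sum, ← Finset.sum_add_distrib, Finset.smul_sum]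
  refine Finset.sum_congr rfl fun b _ => ?_
  exact rad_alg2 _ _ _

theorem expG_Lo (π : GLn n →* (P →L[ℂ] P)) (d : Mat n → P →L[ℂ] P) (hd : Der π d)
    (h : Fin n → ℝ) (t : ℝ) (i j : Fin n) (v : P) :
    π (expG (t • Matrix.diagonal fun i => ((h i : ℝ) : ℂ))) (Lo d i j v) =
      ((Real.exp (t * (h i - h j)) : ℝ) : ℂ) •
        Lo d i j (π (expG (t • Matrix.diagonal fun i => ((h i : ℝ) : ℂ))) v) := by
  unfold Lo
  simp only [_root_.smul_apply, _root_.sub_apply, map_smul, map_sub]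
  rw [hd.Ad, hd.Ad, rad_conjd, rad_conjd, hd.smul, hd.smul]
  module

theorem expG_Ro (π : GLn n →* (P →L[ℂ] P)) (d : Mat n → P →L[ℂ] P) (hd : Der π d)
    (h : Fin n → ℝ) (t : ℝ) (i j : Fin n) (v : P) :
    π (expG (t • Matrix.diagonal fun i => ((h i : ℝ) : ℂ))) (Ro d i j v) =
      ((Real.exp (t * (h i - h j)) : ℝ) : ℂ) •
        Ro d i j (π (expG (t • Matrix.diagonal fun i => ((h i : ℝ) : ℂ))) v) := by
  unfold Ro
  simp only [_root_.smul_apply, _root_.add_apply, map_smul, map_add]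
  rw [hd.Ad, hd.Ad, rad_conjd, rad_conjd, hd.smul, hd.smul]
  module

end

end Pool.Agent.Work.MP_dd0ddf_al.AR
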