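import Pool.Agent.Work.MP_dd0ddf_al.AR.KPa
import Pool.Agent.Work.MP_dd0ddf_al.AR.KPb
import Pool.Agent.Work.MP_dd0ddf_al.AR.KPc
import Pool.Agent.Work.MP_dd0ddf_al.AR.KPd
import Pool.Agent.Work.MP_dd0ddf_al.AR.KPf
import Pool.Agent.Work.MP_dd0ddf_al.AR.KWI
import Pool.Agent.Work.MP_dd0ddf_al.AR.KHB
import Pool.Agent.Work.MP_dd0ddf_al.AR.KInvx

/-!
# MP_dd0ddf_al, archimedean part, block R, module RAv

Averaging operators: convolution with polynomial functions on `K`.

PROOF. For `v ∈ P` the function `k ↦ φ k • π k v` is continuous on the compact space `K` (`PK_cont`, `hπ.cont`), so `weak_integral` gives `T v`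
with `l (T v) = ∫ φ k * l(π k v)` for all `l`; `T` is linear by `ext_functional`.  Continuity: `continuous_of_seminorm`: for a continuous
seminorm `p` take `q ≥ p` continuous and `K`-invariant (`exists_KInv`); for `|l| ≤ p`: `|l(T v)| ≤ ∫ |φ| p(π k v) ≤ B q(v)`, `B` a bound of
`|φ|` (`bdd_of_cont`), so `p(T v) ≤ B q(v)` (`seminorm_le`).
`T v ∈ Xd π D`: `l(π k' (T v)) = (l ∘ π k')(T v) = ∫ φ k * l(π (k' k) v) dk = ∫ φ (k'⁻¹ k) * l(π k v) dk` (left invariance of `muK`).
`l.comp T ∈ Yd π D`: `l(T (π k' v)) = ∫ φ k * l(π (k k') v) dk = ∫ φ (k k'⁻¹) * l(π k v) dk` (right invariance).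
The functions `k' ↦ φ(k'⁻¹ k)` and `k' ↦ φ(k k'⁻¹)` are in `PK n D` for each `k` (`PK_inv`, `PK_left`, `PK_right`).  The integral over `k` with the
continuous weight `l(π k v)` stays in `PK n D`: `PK n D` is finite dimensional (KPc); choose points `k_1, ..., k_m` of `K` such that
`f ↦ (f(k_j))_j` is injective on `PK n D` and a basis `f_j` of it with `f_j(k_i) = δ_ij`; then `φ(k'⁻¹ k) = ∑_j φ(k_j⁻¹ k) f_j(k')`, so the
integral is `∑_j (∫ φ(k_j⁻¹ k) l(π k v) dk) f_j(k')`.
`exists_avgE`: `φ = conj κ`, `κ` from `PK_kernel` (`PK_conj`): for `v ∈ Xd π D`, `l(E v) = ∫ conj κ(k) l(π k v) = l(π 1 v) = l v`; `ext_functional`.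
For `l ∈ Yd π D` the same.
-/

set_option linter.unusedSectionVars false

namespace Pool.Agent.Work.MP_dd0ddf_al.AR

open scoped SchwartzMap Matrix.Norms.Elementwise ComplexConjugate ContDiff Topology
open Matrix MeasureTheory Filter Asymptotics

noncomputable section

variable {n : ℕ} {P : Type*} [AddCommGroup P] [Module ℂ P] [UniformSpace P] [IsUniformAddGroup P]
  [ContinuousSMul ℂ P] [PolynormableSpace ℂ P] [T2Space P] [CompleteSpace P]
  [FirstCountableTopology P]

private theorem eval_span {Z : Type*} (V : Submodule ℂ (Z → ℂ)) (hV : FiniteDimensional ℂ V)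
    (ξ : Module.Dual ℂ V) :
    ∃ c : Z →₀ ℂ, ∀ f : V, ξ f = c.sum fun z a => a * (f : Z → ℂ) z := by
  set ev : Z → Module.Dual ℂ V := fun z => (LinearMap.proj z).comp V.subtype with hev
  have htop : Submodule.span ℂ (Set.range ev) = ⊤ := by
    have h0 : (Submodule.span ℂ (Set.range ev)).dualCoannihilator = ⊥ := by
      rw [eq_bot_iff]
      intro f hf
      rw [Submodule.mem_dualCoannihilator] at hf
      rw [Submodule.mem_bot]
      apply Subtype.ext
      funext z
      exact hf (ev z) (Submodule.subset_span ⟨z, rfl⟩)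
    have h1 := Subspace.dualCoannihilator_dualAnnihilator_eq
      (W := Submodule.span ℂ (Set.range ev))
    rw [h0, Submodule.dualAnnihilator_bot] at h1
    exact h1.symm
  have hm : ξ ∈ Submodule.span ℂ (Set.range ev) := by
    rw [htop]
    exact Submodule.mem_top
  rw [Finsupp.mem_span_range_iff_exists_finsupp] at hm
  obtain ⟨c, hc⟩ := hm
  refine ⟨c, fun f => ?_⟩
  rw [← hc, Finsupp.sum, Finsupp.sum, LinearMap.sum_apply]
  rfl

private theorem int_cont {f : KU n → ℂ} (hf : Continuous f) : Integrable f (muK n) :=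
  hf.integrable_of_hasCompactSupport (HasCompactSupport.of_compactSpace f)

private theorem int_mem {D : ℕ} (G : KU n → KU n → ℂ)
    (hG : ∀ k, (fun k' => G k' k) ∈ PK n D) (hGc : ∀ k', Continuous fun k => G k' k)
    (w : KU n → ℂ) (hw : Continuous w) :
    (fun k' => ∫ k, G k' k * w k ∂(muK n)) ∈ PK n D := by
  set b := Module.finBasis ℂ (PK n D) with hb
  choose c hc using fun j => eval_span (PK n D) inferInstance (b.coord j)
  have hexp : ∀ k k', G k' k = ∑ j, ((c j).sum fun z a => a * G z k) *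
      ((b j : PK n D) : KU n → ℂ) k' := by
    intro k k'
    have h1 := b.sum_repr ⟨fun k' => G k' k, hG k⟩
    have h2 := congrFun (congrArg Subtype.val h1) k'
    rw [← show _ = G k' k from h2, Submodule.coe_sum, Finset.sum_apply]
    apply Finset.sum_congr rfl
    intro j _
    have h3 := hc j ⟨fun k' => G k' k, hG k⟩
    rw [Module.Basis.coord_apply] at h3
    show (b.repr ⟨fun k' => G k' k, hG k⟩) j * ((b j : PK n D) : KU n → ℂ) k' = _
    rw [h3]
  have hcont : ∀ j, Continuous fun k => (((c j).sum fun z a => a * G z k) * w k : ℂ) := by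
    intro j
    refine Continuous.mul ?_ hw
    unfold Finsupp.sum
    exact continuous_finsetSum _ fun z _ => continuous_const.mul (hGc z)
  have hF : (fun k' => ∫ k, G k' k * w k ∂(muK n)) =
      ∑ j, (∫ k, ((c j).sum fun z a => a * G z k) * w k ∂(muK n)) •
        ((b j : PK n D) : KU n → ℂ) := by
    funext k'
    rw [Finset.sum_apply]
    have e1 : ∀ k, G k' k * w k = ∑ j, (((c j).sum fun z a => a * G z k) * w k) *
        ((b j : PK n D) : KU n → ℂ) k' := by
      intro k
      rw [hexp k k', Finset.sum_mul]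
      apply Finset.sum_congr rfl
      intro j _
      ring
    have e2 : (fun k => G k' k * w k) = fun k => ∑ j, (((c j).sum fun z a => a * G z k) * w k) *
        ((b j : PK n D) : KU n → ℂ) k' := funext e1
    rw [e2, integral_finsetSum _ fun j _ => (int_cont (hcont j)).mul_const _]
    apply Finset.sum_congr rfl
    intro j _
    rw [integral_mul_const]
    rfl
  rw [hF]
  exact Submodule.sum_mem _ fun j _ => Submodule.smul_mem _ _ (b j).2

theorem exists_avg (π : GLn n →* (P →L[ℂ] P)) (hπ : IsCW π) {D : ℕ} {φ : KU n → ℂ}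
    (hφ : φ ∈ PK n D) : ∃ T : P →L[ℂ] P,
      (∀ (l : P →L[ℂ] ℂ) (v : P), l (T v) = ∫ k, φ k * l (π (k : GLn n) v) ∂(muK n)) ∧
      (∀ v, T v ∈ Xd π D) ∧ ∀ l : P →L[ℂ] ℂ, l.comp T ∈ Yd π D := by
  have hcφ : Continuous φ := PK_cont hφ
  have horb : ∀ v : P, Continuous fun k : KU n => π (k : GLn n) v := fun v =>
    hπ.cont.comp (continuous_subtype_val.prodMk continuous_const)
  have hcl : ∀ (l : P →L[ℂ] ℂ) (v : P), Continuous fun k : KU n => l (π (k : GLn n) v) :=
    fun l v => l.continuous.comp (horb v)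
  have hw : ∀ v : P, ∃ x : P, ∀ l : P →L[ℂ] ℂ,
      l x = ∫ k, φ k * l (π (k : GLn n) v) ∂(muK n) := by
    intro v
    obtain ⟨x, hx⟩ := weak_integral (muK n) (fun k : KU n => φ k • π (k : GLn n) v)
      (hcφ.smul (horb v)) (HasCompactSupport.of_compactSpace _)
    refine ⟨x, fun l => ?_⟩
    rw [hx l]
    congr 1
    funext k
    rw [map_smul, smul_eq_mul]
  choose T0 hT0 using hw
  have hint : ∀ (l : P →L[ℂ] ℂ) (v : P),
      Integrable (fun k : KU n => φ k * l (π (k : GLn n) v)) (muK n) :=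
    fun l v => int_cont (hcφ.mul (hcl l v))
  set T1 : P →ₗ[ℂ] P :=
    { toFun := T0
      map_add' := by
        intro v w
        apply ext_functional
        intro l
        rw [map_add, hT0, hT0, hT0, ← integral_add (hint l v) (hint l w)]
        congr 1
        funext k
        rw [map_add, map_add, mul_add]
      map_smul' := by
        intro c v
        apply ext_functional
        intro l
        rw [RingHom.id_apply, map_smul, hT0, hT0, smul_eq_mul, ← integral_const_mul]
        congr 1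
        funext k
        rw [map_smul, map_smul, smul_eq_mul]
        ring } with hT1
  obtain ⟨B, hB⟩ := bdd_of_cont hcφ
  have hB0 : 0 ≤ B := (norm_nonneg _).trans (hB 1)
  have hcT : Continuous T1 := by
    apply continuous_of_seminorm
    intro p hp
    obtain ⟨q, hq, hqK, hpq⟩ := exists_KInv π hπ p hp
    have hex : ∃ b : NNReal, (b : ℝ) = B := ⟨⟨B, hB0⟩, rfl⟩
    obtain ⟨b, hb⟩ := hex
    have hbq : ∀ v, (b • q) v = B * q v := by
      intro v
      rw [← hb]
      rfl
    refine ⟨b • q, ?_, ?_⟩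
    · have h1 : Continuous fun v => B * q v := continuous_const.mul hq
      have h2 : ((b • q : Seminorm ℂ P) : P → ℝ) = fun v => B * q v := funext hbq
      rw [h2]
      exact h1
    · intro v
      rw [hbq]
      show p (T0 v) ≤ B * q v
      apply seminorm_le p hp
      intro l hl
      rw [hT0]
      have hb : ∀ k : KU n, ‖φ k * l (π (k : GLn n) v)‖ ≤ B * q v := by
        intro k
        rw [norm_mul]
        refine mul_le_mul (hB k) ?_ (norm_nonneg _) hB0
        exact ((hl _).trans (hpq _)).trans (hqK k v).le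
      have h1 := norm_integral_le_of_norm_le_const (μ := muK n)
        (Filter.Eventually.of_forall hb)
      simpa using h1
  set T : P →L[ℂ] P := ⟨T1, hcT⟩ with hT
  have hTa : ∀ (l : P →L[ℂ] ℂ) (v : P),
      l (T v) = ∫ k, φ k * l (π (k : GLn n) v) ∂(muK n) := fun l v => hT0 v l
  refine ⟨T, hTa, ?_, ?_⟩
  · intro v l
    have e1 : (fun k' : KU n => l (π (k' : GLn n) (T v))) =
        fun k' : KU n => ∫ k, φ (k'⁻¹ * k) * l (π (k : GLn n) v) ∂(muK n) := by
      funext k'
      have h1 := hTa (l.comp (π (k' : GLn n))) v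
      rw [ContinuousLinearMap.comp_apply] at h1
      rw [h1, ← integral_mul_left_eq_self
        (fun k : KU n => φ (k'⁻¹ * k) * l (π (k : GLn n) v)) k']
      congr 1
      funext k
      rw [inv_mul_cancel_left, Subgroup.coe_mul, map_mul]
      rfl
    rw [e1]
    apply int_mem (fun k' k => φ (k'⁻¹ * k))
    · intro k
      exact PK_inv (PK_right hφ k)
    · intro k'
      exact hcφ.comp (continuous_const.mul continuous_id)
    · exact hcl l v
  · intro l v
    have e1 : (fun k' : KU n => (l.comp T) (π (k' : GLn n) v)) =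
        fun k' : KU n => ∫ k, φ (k * k'⁻¹) * l (π (k : GLn n) v) ∂(muK n) := by
      funext k'
      rw [ContinuousLinearMap.comp_apply, hTa, ← integral_mul_right_eq_self
        (fun k : KU n => φ (k * k'⁻¹) * l (π (k : GLn n) v)) k']
      congr 1
      funext k
      rw [mul_inv_cancel_right, Subgroup.coe_mul, map_mul]
      rfl
    rw [e1]
    apply int_mem (fun k' k => φ (k * k'⁻¹))
    · intro k
      exact PK_inv (PK_left hφ k)
    · intro k'
      exact hcφ.comp (continuous_id.mul continuous_const)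
    · exact hcl l v

theorem exists_avgE (π : GLn n →* (P →L[ℂ] P)) (hπ : IsCW π) (D : ℕ) :
    ∃ (φ : KU n → ℂ) (E : P →L[ℂ] P), φ ∈ PK n D ∧
      (∀ (l : P →L[ℂ] ℂ) (v : P), l (E v) = ∫ k, φ k * l (π (k : GLn n) v) ∂(muK n)) ∧
      (∀ v, E v ∈ Xd π D) ∧ (∀ l : P →L[ℂ] ℂ, l.comp E ∈ Yd π D) ∧
      (∀ v ∈ Xd π D, E v = v) ∧ ∀ l ∈ Yd π D, l.comp E = l := by
  obtain ⟨κ, hκ, hker, -⟩ := PK_kernel n D
  have hφ : (fun k => conj (κ k)) ∈ PK n D := PK_conj hκ
  obtain ⟨E, h1, h2, h3⟩ := exists_avg π hπ hφ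
  refine ⟨_, E, hφ, h1, h2, h3, ?_, ?_⟩
  · intro v hv
    apply ext_functional
    intro l
    rw [h1 l v, ← hker _ (hv l)]
    show l (π ((1 : KU n) : GLn n) v) = l v
    rw [Subgroup.coe_one, map_one]
    rfl
  · intro l hl
    ext v
    rw [ContinuousLinearMap.comp_apply, h1 l v, ← hker _ (hl v)]
    show l (π ((1 : KU n) : GLn n) v) = l v
    rw [Subgroup.coe_one, map_one]
    rfl

end

end Pool.Agent.Work.MP_dd0ddf_al.AR
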