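import Pool.Agent.Work.MP_dd0ddf_al.AR.RKDefs
import Pool.Agent.Work.MP_dd0ddf_al.CW.Defs

/-!
# MP_dd0ddf_al, archimedean part, block R7: definitions

* `Up b`: `b` is upper triangular; `cw a b Y = ∑ Y_ii a_i + conj(Y_ii) b_i`, the weight of `Y`;
* `DBd M f B`: all derivatives of `f` of order `≤ M` are bounded by `B`;
* `TGm n`: the space of test functions on `GL_n(ℂ)`;
* `IsPi π f y x`: `x = π(f) y = ∫ f(g) π(g⁻¹) y dg` (weakly), `piF π f y`: this vector;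
* `Nul π y`: `y_D` is killed by the functionals of `K`-degree `≤ D` and is polynomially bounded;
* `XD π u x`: `x_D` represents `u` on the functionals of `K`-degree `≤ D`, polynomially bounded.
-/

set_option linter.unusedSectionVars false

namespace Pool.Agent.Work.MP_dd0ddf_al.AR

open scoped SchwartzMap Matrix.Norms.Elementwise ComplexConjugate ContDiff Topology
open Matrix MeasureTheory Filter Asymptotics
open Pool.Agent.Work.MP_dd0ddf_al

noncomputable section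

variable {n : ℕ}

/-- upper triangular matrices -/
def Up (b : Mat n) : Prop := ∀ i j : Fin n, j < i → b i j = 0

/-- the weight of `Y`: `c(Y) = ∑ Y_ii a_i + conj(Y_ii) b_i` -/
def cw (a b : Fin n → ℂ) (Y : Mat n) : ℂ := ∑ i, (Y i i * a i + conj (Y i i) * b i)

/-- all derivatives of order at most `M` are bounded by `B` -/
def DBd {E : Type*} [NormedAddCommGroup E] [NormedSpace ℝ E] (M : ℕ) (f : E → ℂ) (B : ℝ) : Prop :=
  ∀ m ≤ M, ∀ x, ‖iteratedFDeriv ℝ m f x‖ ≤ B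

theorem DBd.nonneg {E : Type*} [NormedAddCommGroup E] [NormedSpace ℝ E] {M : ℕ} {f : E → ℂ}
    {B : ℝ} (h : DBd M f B) : 0 ≤ B := (norm_nonneg _).trans (h 0 (Nat.zero_le M) 0)

theorem DBd.mono {E : Type*} [NormedAddCommGroup E] [NormedSpace ℝ E] {M M' : ℕ} {f : E → ℂ}
    {B : ℝ} (h : DBd M f B) (hM : M' ≤ M) : DBd M' f B := fun m hm x => h m (hm.trans hM) x

theorem DBd.norm_le {E : Type*} [NormedAddCommGroup E] [NormedSpace ℝ E] {M : ℕ} {f : E → ℂ}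
    {B : ℝ} (h : DBd M f B) (x : E) : ‖f x‖ ≤ B := by
  have := h 0 (Nat.zero_le M) x
  rwa [norm_iteratedFDeriv_zero] at this

/-- test functions on `GL_n(ℂ)` -/
def TGm (n : ℕ) : Submodule ℂ (Mat n → ℂ) where
  carrier := TGs (GLs n)
  add_mem' := by
    rintro f g ⟨K, hK, hKG, hf⟩ ⟨K', hK', hKG', hg⟩
    refine ⟨K ∪ K', hK.union hK', Set.union_subset hKG hKG', ?_⟩
    refine (TGK (K ∪ K')).add_mem ⟨hf.1, fun x hx => hf.2 x fun h => hx (Or.inl h)⟩
      ⟨hg.1, fun x hx => hg.2 x fun h => hx (Or.inr h)⟩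
  zero_mem' := ⟨∅, isCompact_empty, Set.empty_subset _, (TGK ∅).zero_mem⟩
  smul_mem' := by
    rintro c f ⟨K, hK, hKG, hf⟩
    exact ⟨K, hK, hKG, (TGK K).smul_mem c hf⟩

theorem mem_TGm {f : Mat n → ℂ} : f ∈ TGm n ↔ f ∈ TGs (GLs n) := Iff.rfl

section Rep

variable {P : Type*} [AddCommGroup P] [Module ℂ P] [TopologicalSpace P]

/-- `x = ∫ f(g) π(g⁻¹) y dg` (weakly) -/
def IsPi (π : GLn n →* (P →L[ℂ] P)) (f : Mat n → ℂ) (y x : P) : Prop :=
  ∀ l : P →L[ℂ] ℂ, l x = ∫ g : GLn n, f (g : Mat n) * l (π g⁻¹ y) ∂(CW.hG n)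

open Classical in
/-- the vector `∫ f(g) π(g⁻¹) y dg` -/
def piF (π : GLn n →* (P →L[ℂ] P)) (f : Mat n → ℂ) (y : P) : P :=
  if h : ∃ x, IsPi π f y x then h.choose else 0

/-- `y_D` is killed by the functionals of `K`-degree `≤ D` and polynomially bounded -/
structure Nul (π : GLn n →* (P →L[ℂ] P)) (y : ℕ → P) : Prop where
  kill : ∀ D, ∀ l ∈ Yd π D, l (y D) = 0
  pol : ∀ p : Seminorm ℂ P, Continuous p → KInv π p → ∃ (C : ℝ) (M : ℕ), ∀ D : ℕ,
    p (y D) ≤ C * (1 + (D : ℝ)) ^ M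

/-- `x_D` represents `u` on the functionals of `K`-degree `≤ D` and is polynomially bounded -/
structure XD (π : GLn n →* (P →L[ℂ] P)) (u : (P →L[ℂ] ℂ) →ₗ[ℂ] ℂ) (x : ℕ → P) : Prop where
  mem : ∀ D, x D ∈ Xd π D
  val : ∀ D, ∀ l ∈ Yd π D, l (x D) = u l
  pol : ∀ p : Seminorm ℂ P, Continuous p → KInv π p → ∃ (C : ℝ) (M : ℕ), ∀ D : ℕ,
    p (x D) ≤ C * (1 + (D : ℝ)) ^ M

end Rep

end

end Pool.Agent.Work.MP_dd0ddf_al.AR
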