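import Pool.Agent.Work.MP_dd0ddf_al.AR.CW

/-!
# MP_dd0ddf_al, archimedean part, block R: definitions for the representation theory

* `Der π d`: `d Y = dπ(Y)`, the derived representation of the real Lie algebra `M_n(ℂ)`;
  `Lo d i j`, `Ro d i j`: its `ℂ`-linear and antilinear parts, `d(z E_ij) = z Lo_ij + conj z Ro_ij`.
  `k_ℂ` is spanned by `Lo_ij - Ro_ji`; `n` by `Lo_ij, Ro_ij, i < j`; `nbar` by `Lo_ij, Ro_ij, i > j`.
* `PK n d`: polynomial functions of degree `≤ d` on `K = U(n)` (in the entries and their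
  conjugates);  `Xd π d ⊆ P`, `Yd π d ⊆ P'`: vectors and continuous functionals of `K`-degree `≤ d`;
  `VK`, `YK`: `K`-finite vectors and functionals.
* `H0`, `aa t = exp(t H0)`; `nbV`: the subspace `nbar V`, `V = VK`.
* `CBE π d u a b`: `u` is a continuous `B`-eigenvector (a linear functional on the `K`-finite
  functionals with polynomial bounds) of weight `(a, b)`.
-/

set_option linter.unusedSectionVars false

namespace Pool.Agent.Work.MP_dd0ddf_al.AR

open scoped SchwartzMap Matrix.Norms.Elementwise ComplexConjugate ContDiff Topology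
open Matrix MeasureTheory Filter

noncomputable section

variable {n : ℕ}

/-! ## polynomial functions on `K = U(n)` -/

/-- the coordinates of a matrix: entries and conjugate entries -/
abbrev Vars (n : ℕ) := (Fin n × Fin n) ⊕ (Fin n × Fin n)

/-- the values of the coordinates at `g` -/
def evv (g : Mat n) : Vars n → ℂ :=
  Sum.elim (fun p => g p.1 p.2) (fun p => conj (g p.1 p.2))

/-- polynomial functions of degree `≤ d` in the entries and their conjugates, on `K = U(n)` -/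
def PK (n d : ℕ) : Submodule ℂ (KU n → ℂ) where
  carrier := {f | ∃ q : MvPolynomial (Vars n) ℂ, q.totalDegree ≤ d ∧
    ∀ k : KU n, f k = MvPolynomial.eval (evv ((k : GLn n) : Mat n)) q}
  add_mem' := by
    rintro f g ⟨q, hq, hf⟩ ⟨r, hr, hg⟩
    refine ⟨q + r, (MvPolynomial.totalDegree_add q r).trans (max_le hq hr), ?_⟩
    intro k
    rw [Pi.add_apply, hf, hg, map_add]
  zero_mem' := ⟨0, by simp, fun k => by simp⟩
  smul_mem' := by
    rintro c f ⟨q, hq, hf⟩
    refine ⟨c • q, (MvPolynomial.totalDegree_smul_le c q).trans hq, ?_⟩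
    intro k
    rw [Pi.smul_apply, hf, MvPolynomial.smul_eval, smul_eq_mul]

theorem PK_mono {d e : ℕ} (h : d ≤ e) : PK n d ≤ PK n e := by
  rintro f ⟨q, hq, hf⟩
  exact ⟨q, hq.trans h, hf⟩

/-! ## the diagonal one parameter group -/

/-- `H0 = diag(n, n-1, ..., 1)` -/
def H0 (n : ℕ) : Mat n := Matrix.diagonal fun i => (n : ℂ) - (i : ℕ)

/-- `aa t = exp(t H0)` -/
def aa (n : ℕ) (t : ℝ) : GLn n := expG (t • H0 n)

section Rep

variable {P : Type*} [AddCommGroup P] [Module ℂ P] [TopologicalSpace P]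

/-! ## the derived representation -/

/-- `d Y = dπ(Y)`: the derived representation, with the properties which we use -/
structure Der [IsTopologicalAddGroup P] [ContinuousSMul ℂ P] (π : GLn n →* (P →L[ℂ] P))
    (d : Mat n → P →L[ℂ] P) : Prop where
  lim : ∀ (Y : Mat n) (v : P),
    Tendsto (fun τ : ℝ => ((τ : ℂ)⁻¹) • (π (expG (τ • Y)) v - v)) (𝓝[≠] 0) (𝓝 (d Y v))
  add : ∀ (Y Z : Mat n) (v : P), d (Y + Z) v = d Y v + d Z v
  smul : ∀ (c : ℝ) (Y : Mat n) (v : P), d (c • Y) v = (c : ℂ) • d Y v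
  Ad : ∀ (g : GLn n) (Y : Mat n) (v : P),
    π g (d Y v) = d ((g : Mat n) * Y * ((g⁻¹ : GLn n) : Mat n)) (π g v)
  br : ∀ (Y Z : Mat n) (v : P), d Y (d Z v) - d Z (d Y v) = d (Y * Z - Z * Y) v
  deriv : ∀ (l : P →L[ℂ] ℂ) (Y : Mat n) (v : P) (τ : ℝ),
    HasDerivAt (fun τ : ℝ => l (π (expG (τ • Y)) v)) (l (π (expG (τ • Y)) (d Y v))) τ

/-- `ℂ`-linear part of `dπ(E_ij)` -/
def Lo [IsTopologicalAddGroup P] [ContinuousSMul ℂ P] (d : Mat n → P →L[ℂ] P) (i j : Fin n) :
    P →L[ℂ] P :=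
  (1 / 2 : ℂ) • (d (Matrix.single i j 1) - Complex.I • d (Matrix.single i j Complex.I))

/-- antilinear part of `dπ(E_ij)` -/
def Ro [IsTopologicalAddGroup P] [ContinuousSMul ℂ P] (d : Mat n → P →L[ℂ] P) (i j : Fin n) :
    P →L[ℂ] P :=
  (1 / 2 : ℂ) • (d (Matrix.single i j 1) + Complex.I • d (Matrix.single i j Complex.I))

/-! ## `K`-finite vectors and functionals -/

/-- vectors of `K`-degree `≤ d` -/
def Xd (π : GLn n →* (P →L[ℂ] P)) (d : ℕ) : Submodule ℂ P where
  carrier := {v | ∀ l : P →L[ℂ] ℂ, (fun k : KU n => l (π (k : GLn n) v)) ∈ PK n d}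
  add_mem' := by
    intro v w hv hw l
    have := (PK n d).add_mem (hv l) (hw l)
    convert this using 1
    funext k
    simp
  zero_mem' := by
    intro l
    have := (PK n d).zero_mem
    convert this using 1
    funext k
    simp
  smul_mem' := by
    intro c v hv l
    have := (PK n d).smul_mem c (hv l)
    convert this using 1
    funext k
    simp

/-- continuous functionals of `K`-degree `≤ d` -/
def Yd (π : GLn n →* (P →L[ℂ] P)) (d : ℕ) : Submodule ℂ (P →L[ℂ] ℂ) where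
  carrier := {l | ∀ v : P, (fun k : KU n => l (π (k : GLn n) v)) ∈ PK n d}
  add_mem' := by
    intro l m hl hm v
    exact (PK n d).add_mem (hl v) (hm v)
  zero_mem' := by
    intro v
    exact (PK n d).zero_mem
  smul_mem' := by
    intro c l hl v
    exact (PK n d).smul_mem c (hl v)

/-- `K`-finite vectors -/
def VK (π : GLn n →* (P →L[ℂ] P)) : Submodule ℂ P := ⨆ d, Xd π d

/-- `K`-finite functionals -/
def YK (π : GLn n →* (P →L[ℂ] P)) : Submodule ℂ (P →L[ℂ] ℂ) := ⨆ d, Yd π d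

theorem Xd_mono (π : GLn n →* (P →L[ℂ] P)) : Monotone (Xd π) := by
  intro d e h v hv l
  exact PK_mono h (hv l)

theorem Yd_mono (π : GLn n →* (P →L[ℂ] P)) : Monotone (Yd π) := by
  intro d e h l hl v
  exact PK_mono h (hl v)

theorem mem_VK {π : GLn n →* (P →L[ℂ] P)} {v : P} : v ∈ VK π ↔ ∃ d, v ∈ Xd π d :=
  Submodule.mem_iSup_of_directed _ (Xd_mono π).directed_le

theorem mem_YK {π : GLn n →* (P →L[ℂ] P)} {l : P →L[ℂ] ℂ} : l ∈ YK π ↔ ∃ d, l ∈ Yd π d :=
  Submodule.mem_iSup_of_directed _ (Yd_mono π).directed_le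

/-- `K`-invariant seminorms -/
def KInv (π : GLn n →* (P →L[ℂ] P)) (p : Seminorm ℂ P) : Prop :=
  ∀ (k : KU n) (v : P), p (π (k : GLn n) v) = p v

/-- `nbar V`: the span of `Lo_ij v`, `Ro_ij v`, `i > j`, `v` a `K`-finite vector -/
def nbV [IsTopologicalAddGroup P] [ContinuousSMul ℂ P] (π : GLn n →* (P →L[ℂ] P))
    (d : Mat n → P →L[ℂ] P) : Submodule ℂ P :=
  Submodule.span ℂ {x | ∃ i j : Fin n, j < i ∧ ∃ v ∈ VK π, x = Lo d i j v ∨ x = Ro d i j v}

/-- `u` is a continuous `B`-eigenvector of weight `(a, b)` in the distribution completion of `π`: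
a linear functional on the `K`-finite functionals (only its values there matter) with polynomial
bounds, killed by `n`, on which `E_ii` acts by `a_i` (`ℂ`-linear part), `b_i` (antilinear part) -/
structure CBE [IsTopologicalAddGroup P] [ContinuousSMul ℂ P] (π : GLn n →* (P →L[ℂ] P))
    (d : Mat n → P →L[ℂ] P) (u : (P →L[ℂ] ℂ) →ₗ[ℂ] ℂ) (a b : Fin n → ℂ) : Prop where
  bound : ∀ p : Seminorm ℂ P, Continuous p → KInv π p → ∃ (C : ℝ) (M : ℕ), ∀ D : ℕ,
    ∀ l ∈ Yd π D, ∀ c : ℝ, 0 ≤ c → (∀ v, ‖l v‖ ≤ c * p v) →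
      ‖u l‖ ≤ C * (1 + (D : ℝ)) ^ M * c
  nil : ∀ i j : Fin n, i < j → ∀ l ∈ YK π,
    u (l.comp (Lo d i j)) = 0 ∧ u (l.comp (Ro d i j)) = 0
  wt : ∀ i : Fin n, ∀ l ∈ YK π,
    u (l.comp (Lo d i i)) = a i * u l ∧ u (l.comp (Ro d i i)) = b i * u l
  ne : ∃ l ∈ YK π, u l ≠ 0

end Rep

end

end Pool.Agent.Work.MP_dd0ddf_al.AR
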