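import Pool.Agent.Work.MP_dd0ddf_al.AR.DEx
import Pool.Agent.Work.MP_dd0ddf_al.AR.DAd

/-!
# Block D of MP_dd0ddf_al (archimedean part): the derived representation
-/

set_option linter.unusedSectionVars false

namespace Pool.Agent.Work.MP_dd0ddf_al.AR

open scoped SchwartzMap Matrix.Norms.Elementwise ComplexConjugate ContDiff Topology
open Matrix MeasureTheory Filter Asymptotics

noncomputable section

variable {n : ℕ} {P : Type*} [AddCommGroup P] [Module ℂ P] [UniformSpace P] [IsUniformAddGroup P]
  [ContinuousSMul ℂ P] [PolynormableSpace ℂ P] [T2Space P] [CompleteSpace P]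
  [FirstCountableTopology P]

/-- existence of the derived representation -/
theorem exists_der (π : GLn n →* (P →L[ℂ] P)) (hπ : IsCW π) :
    ∃ d : Mat n → P →L[ℂ] P, Der π d := by
  obtain ⟨d, h1, h2, h3⟩ := exists_dlim π hπ
  exact ⟨d, ⟨h1, h2, h3, dlim_Ad π d h1, dlim_br π hπ.cont d h1 h2 h3, dlim_deriv π d h1⟩⟩

end

end Pool.Agent.Work.MP_dd0ddf_al.AR
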