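import Pool.Agent.Work.MP_dd0ddf_al.AR.KDx
import Pool.Agent.Work.MP_dd0ddf_al.AR.KKx
import Pool.Agent.Work.MP_dd0ddf_al.AR.KVd
import Pool.Agent.Work.MP_dd0ddf_al.AR.KED
import Pool.Agent.Work.MP_dd0ddf_al.AR.KYf
import Pool.Agent.Work.MP_dd0ddf_al.CW.Defs2

/-!
# MP_dd0ddf_al, archimedean part, block R, module RGD

Definitions: the Lie algebra acting on the `K`-finite vectors.

PROOF. (definitions) `vL`, `vR`: the operators `Lo`, `Ro` on `VK π`; `genS D0`: the subspace generated by the vectors of degree at most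
`D0` under the Lie algebra; `rB`: the pairing `l(π(exp(t diag h)) y)`; `rZ`: the action `l ↦ l ∘ (Lo_ij - Ro_ji)` on functionals.
-/

set_option linter.unusedSectionVars false

namespace Pool.Agent.Work.MP_dd0ddf_al.AR

open scoped SchwartzMap Matrix.Norms.Elementwise ComplexConjugate ContDiff Topology
open Matrix MeasureTheory Filter Asymptotics

noncomputable section

variable {n : ℕ} {P : Type*} [AddCommGroup P] [Module ℂ P] [UniformSpace P] [IsUniformAddGroup P]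
  [ContinuousSMul ℂ P] [PolynormableSpace ℂ P] [T2Space P] [CompleteSpace P]
  [FirstCountableTopology P]

/-- `Lo d i j` on the `K`-finite vectors -/
def vL (π : GLn n →* (P →L[ℂ] P)) (d : Mat n → P →L[ℂ] P) (hd : Der π d) (i j : Fin n) :
    Module.End ℂ (VK π) :=
  ((Lo d i j : P →L[ℂ] P) : P →ₗ[ℂ] P).restrict fun _ hv => (VK_LR π d hd i j hv).1

/-- `Ro d i j` on the `K`-finite vectors -/
def vR (π : GLn n →* (P →L[ℂ] P)) (d : Mat n → P →L[ℂ] P) (hd : Der π d) (i j : Fin n) :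
    Module.End ℂ (VK π) :=
  ((Ro d i j : P →L[ℂ] P) : P →ₗ[ℂ] P).restrict fun _ hv => (VK_LR π d hd i j hv).2

theorem coe_vL (π : GLn n →* (P →L[ℂ] P)) (d : Mat n → P →L[ℂ] P) (hd : Der π d) (i j : Fin n)
    (v : VK π) : ((vL π d hd i j v : VK π) : P) = Lo d i j (v : P) := rfl

theorem coe_vR (π : GLn n →* (P →L[ℂ] P)) (d : Mat n → P →L[ℂ] P) (hd : Der π d) (i j : Fin n)
    (v : VK π) : ((vR π d hd i j v : VK π) : P) = Ro d i j (v : P) := rfl

/-- the subspace generated by the vectors of degree at most `D0` under the Lie algebra -/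
def genS (π : GLn n →* (P →L[ℂ] P)) (d : Mat n → P →L[ℂ] P) (hd : Der π d) (D0 : ℕ) :
    Submodule ℂ P :=
  Submodule.span ℂ {x | ∃ (w : List (CW.Lt n)) (v : VK π), (v : P) ∈ Xd π D0 ∧
    x = ((CW.wd (vL π d hd) (vR π d hd) w v : VK π) : P)}

/-- the vectors of degree at most `D0` as a subspace of `VK π` -/
def vV0 (π : GLn n →* (P →L[ℂ] P)) (D0 : ℕ) : Submodule ℂ (VK π) :=
  (Xd π D0).comap (VK π).subtype

/-- the pairing `l(π(exp(t diag h)) y)` -/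
def rB (π : GLn n →* (P →L[ℂ] P)) (h : Fin n → ℝ) (Λ : Submodule ℂ (P →L[ℂ] ℂ)) (t : ℝ) :
    Λ →ₗ[ℂ] (VK π) →ₗ[ℂ] ℂ :=
  LinearMap.mk₂ ℂ (fun l y => (l : P →L[ℂ] ℂ) (π (expG (t • CW.Hd h)) (y : P)))
    (fun l l' y => by simp) (fun c l y => by simp) (fun l y y' => by simp)
    (fun c l y => by simp)

theorem rB_apply (π : GLn n →* (P →L[ℂ] P)) (h : Fin n → ℝ) (Λ : Submodule ℂ (P →L[ℂ] ℂ))
    (t : ℝ) (l : Λ) (y : VK π) :
    rB π h Λ t l y = (l : P →L[ℂ] ℂ) (π (expG (t • CW.Hd h)) (y : P)) := rfl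

/-- the action `l ↦ l ∘ (Lo_ij - Ro_ji)` on a stable space of functionals -/
def rZ (d : Mat n → P →L[ℂ] P) (Λ : Submodule ℂ (P →L[ℂ] ℂ))
    (hΛ : ∀ i j, ∀ l ∈ Λ, l.comp (Lo d i j - Ro d j i) ∈ Λ) (i j : Fin n) : Module.End ℂ Λ where
  toFun := fun l => ⟨(l : P →L[ℂ] ℂ).comp (Lo d i j - Ro d j i), hΛ i j l l.2⟩
  map_add' := fun _ _ => Subtype.ext (ContinuousLinearMap.ext fun _ => rfl)
  map_smul' := fun _ _ => Subtype.ext (ContinuousLinearMap.ext fun _ => rfl)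

theorem rZ_apply (d : Mat n → P →L[ℂ] P) (Λ : Submodule ℂ (P →L[ℂ] ℂ))
    (hΛ : ∀ i j, ∀ l ∈ Λ, l.comp (Lo d i j - Ro d j i) ∈ Λ) (i j : Fin n) (l : Λ) (v : P) :
    ((rZ d Λ hΛ i j l : Λ) : P →L[ℂ] ℂ) v = (l : P →L[ℂ] ℂ) (Lo d i j v - Ro d j i v) := rfl

end

end Pool.Agent.Work.MP_dd0ddf_al.AR
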