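import Pool.Agent.Work.MP_dd0ddf_al.AR.RGD

/-!
# MP_dd0ddf_al, archimedean part, block R, module RGa

`VK π` is a representation of `gl_n × gl_n`; reversing the order of the indices.

PROOF. `gg_VK`: `Lo_Lo`, `Ro_Ro`, `Lo_Ro` (module RLR), `Subtype.ext`, `Module.End` products are compositions; in `Lo_Lo` the condition is
`l = i`, in `GG.LL` it is `i = l`.  `gg_rev`: `Fin.rev` is injective (`Fin.rev_inj`), so the Kronecker deltas match.
`tz_rev`: `Matrix.of (fun i j => L i.rev j.rev) = (Matrix.of L).submatrix Fin.rev Fin.rev`; powers commute with the submatrix of a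
bijection (`Matrix.submatrix_mul_equiv` or induction with `Fintype.sum_equiv`), and the trace is invariant
(`Equiv.sum_comp Fin.revPerm`).
-/

set_option linter.unusedSectionVars false

namespace Pool.Agent.Work.MP_dd0ddf_al.AR

open scoped SchwartzMap Matrix.Norms.Elementwise ComplexConjugate ContDiff Topology
open Matrix MeasureTheory Filter Asymptotics

noncomputable section

variable {n : ℕ} {P : Type*} [AddCommGroup P] [Module ℂ P] [UniformSpace P] [IsUniformAddGroup P]
  [ContinuousSMul ℂ P] [PolynormableSpace ℂ P] [T2Space P] [CompleteSpace P]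
  [FirstCountableTopology P]

theorem gg_VK (π : GLn n →* (P →L[ℂ] P)) (d : Mat n → P →L[ℂ] P) (hd : Der π d) :
    CW.GG (vL π d hd) (vR π d hd) := by
  refine ⟨fun i j k l => ?_, fun i j k l => ?_, fun i j k l => ?_⟩
  · refine LinearMap.ext fun v => Subtype.ext ?_
    have h := Lo_Lo π d hd i j k l (v : P)
    have e1 : (((vL π d hd i j * vL π d hd k l - vL π d hd k l * vL π d hd i j) v : VK π) : P) =
        Lo d i j (Lo d k l (v : P)) - Lo d k l (Lo d i j (v : P)) := rfl
    rw [e1, h]
    by_cases h1 : j = k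
    · by_cases h2 : i = l
      · rw [if_pos h1, if_pos h1, if_pos h2, if_pos h2.symm]
        rfl
      · rw [if_pos h1, if_pos h1, if_neg h2, if_neg (fun h => h2 h.symm)]
        rfl
    · by_cases h2 : i = l
      · rw [if_neg h1, if_neg h1, if_pos h2, if_pos h2.symm]
        rfl
      · rw [if_neg h1, if_neg h1, if_neg h2, if_neg (fun h => h2 h.symm)]
        rfl
  · refine LinearMap.ext fun v => Subtype.ext ?_
    have h := Ro_Ro π d hd i j k l (v : P)
    have e1 : (((vR π d hd i j * vR π d hd k l - vR π d hd k l * vR π d hd i j) v : VK π) : P) =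
        Ro d i j (Ro d k l (v : P)) - Ro d k l (Ro d i j (v : P)) := rfl
    rw [e1, h]
    by_cases h1 : j = k
    · by_cases h2 : i = l
      · rw [if_pos h1, if_pos h1, if_pos h2, if_pos h2.symm]
        rfl
      · rw [if_pos h1, if_pos h1, if_neg h2, if_neg (fun h => h2 h.symm)]
        rfl
    · by_cases h2 : i = l
      · rw [if_neg h1, if_neg h1, if_pos h2, if_pos h2.symm]
        rfl
      · rw [if_neg h1, if_neg h1, if_neg h2, if_neg (fun h => h2 h.symm)]
        rfl
  · refine LinearMap.ext fun v => Subtype.ext ?_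
    exact Lo_Ro π d hd i j k l (v : P)

theorem gg_rev {Y : Type*} [AddCommGroup Y] [Module ℂ Y] {L R : Fin n → Fin n → Module.End ℂ Y}
    (h : CW.GG L R) : CW.GG (fun i j => L i.rev j.rev) (fun i j => R i.rev j.rev) := by
  refine ⟨fun i j k l => ?_, fun i j k l => ?_, fun i j k l => ?_⟩
  · have h1 := h.LL i.rev j.rev k.rev l.rev
    simp only [Fin.rev_inj] at h1
    exact h1
  · have h1 := h.RR i.rev j.rev k.rev l.rev
    simp only [Fin.rev_inj] at h1
    exact h1
  · exact h.LR i.rev j.rev k.rev l.rev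

theorem tz_rev {Y : Type*} [AddCommGroup Y] [Module ℂ Y] (L : Fin n → Fin n → Module.End ℂ Y)
    (k : ℕ) : CW.tz (fun i j => L i.rev j.rev) k = CW.tz L k := by
  unfold CW.tz
  have h1 : (Matrix.of fun i j : Fin n => L i.rev j.rev) =
      (Matrix.of L).submatrix Fin.revPerm Fin.revPerm := rfl
  have h2 : ∀ k : ℕ, ((Matrix.of L).submatrix (Fin.revPerm : Fin n ≃ Fin n) Fin.revPerm) ^ k =
      ((Matrix.of L) ^ k).submatrix (Fin.revPerm : Fin n ≃ Fin n) Fin.revPerm := by
    intro k
    induction k with
    | zero =>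
      rw [pow_zero, pow_zero, Matrix.submatrix_one_equiv]
    | succ k ih =>
      rw [pow_succ, pow_succ, ih, Matrix.submatrix_mul_equiv]
  rw [h1, h2]
  unfold Matrix.trace
  exact Equiv.sum_comp (Fin.revPerm : Fin n ≃ Fin n) fun i => ((Matrix.of L) ^ k) i i

end

end Pool.Agent.Work.MP_dd0ddf_al.AR
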