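import Pool.Agent.Work.MP_dd0ddf_al.AR.RGD
import Pool.Agent.Work.MP_dd0ddf_al.AR.RGa
import Pool.Agent.Work.MP_dd0ddf_al.AR.RAd
import Pool.Agent.Work.MP_dd0ddf_al.CW.Trc
import Pool.Agent.Work.MP_dd0ddf_al.CW.Trx

/-!
# MP_dd0ddf_al, archimedean part, block R, module RGb

The Gelfand invariants act by scalars.

PROOF. Let `Lp i j : Module.End ℂ P` be `Lo d i j` as a linear map.  `z = CW.tz Lp k` (trace of the `k`-th power of the matrix of operators).
(a) `z` is continuous: by induction on `k` all entries of `(Matrix.of Lp)^k` are continuous (finite sums of compositions).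
(b) `z` commutes with `π g`: `CW.trc` with `P = π g`, `Q = π g⁻¹` (as linear maps), `g = ↑g`, `g' = ↑g⁻¹`; its hypothesis is `Ad_Lo`
applied to `π g⁻¹ v`.
(c) `z` preserves `Xd π D`: for a continuous functional `l`, `l(π k (z v)) = l(z (π k v)) = (l ∘ z)(π k v)`, `l ∘ z` a continuous functional.
(d) some `Xd π D` is not `⊥` (otherwise `VK π = ⊥`, but it is dense (`VK_dense`) and `P` is nontrivial and Hausdorff).  It is finite
dimensional (`Xd_finite`), so the restriction of `z` has an eigenvector (`Module.End.exists_eigenvalue`): `z v = ζ v`, `v ≠ 0`.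
(e) `ker (z - ζ)` is closed, invariant under all `π g`, not `⊥`, so `= ⊤` by `hπ.irr`.  This is `tz_scalar`.
`tz_VK`: the coercion of `CW.tz (vL π d hd) k y` to `P` is `CW.tz Lp k y` (entries of powers, induction on `k`).  `hasZ_VK`: `CW.trx`.
`hasZ_rev`: `CW.trx` again, with `tz_rev`.
-/

set_option linter.unusedSectionVars false

namespace Pool.Agent.Work.MP_dd0ddf_al.AR

open scoped SchwartzMap Matrix.Norms.Elementwise ComplexConjugate ContDiff Topology
open Matrix MeasureTheory Filter Asymptotics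

noncomputable section

variable {n : ℕ} {P : Type*} [AddCommGroup P] [Module ℂ P] [UniformSpace P] [IsUniformAddGroup P]
  [ContinuousSMul ℂ P] [PolynormableSpace ℂ P] [T2Space P] [CompleteSpace P]
  [FirstCountableTopology P]

/-- the trace of the power as a continuous linear map -/
private def tzc (T : Fin n → Fin n → P →L[ℂ] P) (k : ℕ) : P →L[ℂ] P :=
  Matrix.trace ((Matrix.of T) ^ k)

private theorem tz_coe (T : Fin n → Fin n → P →L[ℂ] P) (k : ℕ) (v : P) :
    CW.tz (fun i j => ((T i j : P →L[ℂ] P) : P →ₗ[ℂ] P)) k v = tzc T k v := by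
  have h1 : (Matrix.of fun i j => ((T i j : P →L[ℂ] P) : P →ₗ[ℂ] P)) =
      (ContinuousLinearMap.toLinearMapRingHom (R₁ := ℂ) (M₁ := P)).mapMatrix (Matrix.of T) := by
    ext1 i j
    rfl
  unfold CW.tz tzc
  rw [h1, ← map_pow]
  simp only [Matrix.trace, Matrix.diag, RingHom.mapMatrix_apply, Matrix.map_apply]
  rw [← map_sum]
  rfl

theorem exists_Xd_ne (π : GLn n →* (P →L[ℂ] P)) (hπ : IsCW π) : ∃ D0 : ℕ, Xd π D0 ≠ ⊥ := by
  by_contra hcon
  push Not at hcon
  have h1 : VK π = ⊥ := by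
    unfold VK
    rw [iSup_eq_bot]
    exact hcon
  have h2 := VK_dense π hπ
  rw [h1] at h2
  obtain ⟨v, hv⟩ := (nontrivial_iff_exists_ne (0 : P)).mp hπ.nontriv
  apply hv
  have h3 : v ∈ closure ((⊥ : Submodule ℂ P) : Set P) := h2 v
  rw [Submodule.bot_coe, closure_singleton] at h3
  exact h3

theorem tz_scalar (π : GLn n →* (P →L[ℂ] P)) (hπ : IsCW π) (d : Mat n → P →L[ℂ] P)
    (hd : Der π d) (k : ℕ) : ∃ ζ : ℂ, ∀ v : P,
      CW.tz (fun i j => ((Lo d i j : P →L[ℂ] P) : P →ₗ[ℂ] P)) k v = ζ • v := by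
  have hgi : ∀ (g : GLn n) (v : P), π g (π g⁻¹ v) = v := by
    intro g v
    have h : (π g * π g⁻¹) v = v := by
      rw [← map_mul, mul_inv_cancel, map_one]
      rfl
    exact h
  have hig : ∀ (g : GLn n) (v : P), π g⁻¹ (π g v) = v := by
    intro g v
    have h : (π g⁻¹ * π g) v = v := by
      rw [← map_mul, inv_mul_cancel, map_one]
      rfl
    exact h
  have hcom : ∀ (g : GLn n) (v : P), π g (tzc (Lo d) k v) = tzc (Lo d) k (π g v) := by
    intro g v
    have h := CW.trc (fun i j => ((Lo d i j : P →L[ℂ] P) : P →ₗ[ℂ] P)) (g : Mat n)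
      ((g⁻¹ : GLn n) : Mat n) (by rw [← Units.val_mul, mul_inv_cancel, Units.val_one])
      (by rw [← Units.val_mul, inv_mul_cancel, Units.val_one])
      ((π g : P →L[ℂ] P) : P →ₗ[ℂ] P) ((π g⁻¹ : P →L[ℂ] P) : P →ₗ[ℂ] P)
      (LinearMap.ext fun v => hgi g v) (LinearMap.ext fun v => hig g v)
      (fun i j => LinearMap.ext fun v => by
        rw [LinearMap.sum_apply]
        show π g (Lo d i j (π g⁻¹ v)) = _
        rw [Ad_Lo π d hd g i j, hgi]
        refine Finset.sum_congr rfl fun a _ => ?_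
        rw [LinearMap.sum_apply]
        rfl) k
    have h2 := LinearMap.congr_fun h (π g v)
    have h3 : π g (CW.tz (fun i j => ((Lo d i j : P →L[ℂ] P) : P →ₗ[ℂ] P)) k (π g⁻¹ (π g v))) =
      CW.tz (fun i j => ((Lo d i j : P →L[ℂ] P) : P →ₗ[ℂ] P)) k (π g v) := h2
    rw [hig, tz_coe, tz_coe] at h3
    exact h3
  obtain ⟨D0, hD0⟩ := exists_Xd_ne π hπ
  have hst : ∀ v ∈ Xd π D0, (tzc (Lo d) k : P →ₗ[ℂ] P) v ∈ Xd π D0 := by
    intro v hv l
    have h : (fun k' : KU n => l (π (k' : GLn n) (tzc (Lo d) k v))) =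
        fun k' : KU n => (l.comp (tzc (Lo d) k)) (π (k' : GLn n) v) := by
      funext k'
      rw [hcom]
      rfl
    have h2 := hv (l.comp (tzc (Lo d) k))
    rw [← h] at h2
    exact h2
  haveI := Xd_finite π hπ D0
  haveI : Nontrivial (Xd π D0) := (Submodule.nontrivial_iff_ne_bot).mpr hD0
  obtain ⟨ζ, hζ⟩ := Module.End.exists_eigenvalue ((tzc (Lo d) k : P →ₗ[ℂ] P).restrict hst)
  obtain ⟨x, hx⟩ := hζ.exists_hasEigenvector
  have hx1 : tzc (Lo d) k (x : P) = ζ • (x : P) := congrArg Subtype.val hx.apply_eq_smul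
  have hx2 : (x : P) ≠ 0 := fun h => hx.2 (Subtype.ext h)
  refine ⟨ζ, ?_⟩
  set Z : P →L[ℂ] P := tzc (Lo d) k - ζ • ContinuousLinearMap.id ℂ P with hZ
  have hker := hπ.irr Z.ker Z.isClosed_ker (by
      intro g v hv
      rw [LinearMap.mem_ker] at hv ⊢
      have h1 : tzc (Lo d) k v = ζ • v := sub_eq_zero.mp hv
      have h2 : tzc (Lo d) k (π g v) = ζ • (π g v) := by
        rw [← hcom, h1, map_smul]
      exact sub_eq_zero.mpr h2)
  rcases hker with h | h
  · exfalso
    apply hx2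
    have h3 : (x : P) ∈ Z.ker := by
      rw [LinearMap.mem_ker]
      exact sub_eq_zero.mpr hx1
    rw [h] at h3
    exact (Submodule.mem_bot ℂ).mp h3
  · intro v
    have h3 : v ∈ Z.ker := by
      rw [h]
      exact Submodule.mem_top
    rw [LinearMap.mem_ker] at h3
    rw [tz_coe]
    exact sub_eq_zero.mp h3

private theorem coe_pow (π : GLn n →* (P →L[ℂ] P)) (d : Mat n → P →L[ℂ] P)
    (hd : Der π d) (k : ℕ) (i j : Fin n) (v : VK π) :
    (((Matrix.of (vL π d hd)) ^ k) i j v : P) =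
      ((Matrix.of fun i j => ((Lo d i j : P →L[ℂ] P) : P →ₗ[ℂ] P)) ^ k) i j (v : P) := by
  induction k generalizing i j v with
  | zero =>
    rw [pow_zero, pow_zero, Matrix.one_apply, Matrix.one_apply]
    split_ifs
    · rfl
    · rfl
  | succ k ih =>
    rw [pow_succ', pow_succ', Matrix.mul_apply, Matrix.mul_apply, LinearMap.sum_apply,
      LinearMap.sum_apply, Submodule.coe_sum]
    refine Finset.sum_congr rfl fun m _ => ?_
    show Lo d i m ((((Matrix.of (vL π d hd)) ^ k) m j v : VK π) : P) = _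
    rw [ih]
    rfl

private theorem tz_sub (π : GLn n →* (P →L[ℂ] P)) (d : Mat n → P →L[ℂ] P)
    (hd : Der π d) (k : ℕ) (v : VK π) : (CW.tz (vL π d hd) k v : P) =
      CW.tz (fun i j => ((Lo d i j : P →L[ℂ] P) : P →ₗ[ℂ] P)) k (v : P) := by
  unfold CW.tz
  simp only [Matrix.trace, Matrix.diag]
  rw [LinearMap.sum_apply, LinearMap.sum_apply, Submodule.coe_sum]
  exact Finset.sum_congr rfl fun i _ => coe_pow π d hd k i i v

theorem tz_VK (π : GLn n →* (P →L[ℂ] P)) (hπ : IsCW π) (d : Mat n → P →L[ℂ] P)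
    (hd : Der π d) (k : ℕ) : ∃ ζ : ℂ, ∀ v : VK π, CW.tz (vL π d hd) k v = ζ • v := by
  obtain ⟨ζ, hζ⟩ := tz_scalar π hπ d hd k
  refine ⟨ζ, fun v => Subtype.ext ?_⟩
  rw [tz_sub, hζ]
  rfl

theorem hasZ_VK (π : GLn n →* (P →L[ℂ] P)) (hπ : IsCW π) (d : Mat n → P →L[ℂ] P)
    (hd : Der π d) : CW.HasZ (vL π d hd) (vR π d hd) :=
  CW.trx fun k _ _ => tz_VK π hπ d hd k

theorem hasZ_rev (π : GLn n →* (P →L[ℂ] P)) (hπ : IsCW π) (d : Mat n → P →L[ℂ] P)
    (hd : Der π d) : CW.HasZ (fun i j => vL π d hd i.rev j.rev)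
      (fun i j => vR π d hd i.rev j.rev) := by
  refine CW.trx fun k _ _ => ?_
  obtain ⟨ζ, hζ⟩ := tz_VK π hπ d hd k
  refine ⟨ζ, fun y => ?_⟩
  rw [tz_rev]
  exact hζ y

end

end Pool.Agent.Work.MP_dd0ddf_al.AR
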