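import Pool.Agent.Work.MP_dd0ddf_al.AR.RGD
import Pool.Agent.Work.MP_dd0ddf_al.AR.RGa
import Pool.Agent.Work.MP_dd0ddf_al.AR.RGb
import Pool.Agent.Work.MP_dd0ddf_al.AR.RAd

/-!
# MP_dd0ddf_al, archimedean part, block R, module RGc

The radial system of differential equations.

PROOF. gg: `gg_VK`; hz: `hasZ_VK`; reg: `hh` injective.  der: `hd.deriv` for `Y = CW.Hd h` gives the derivative `l(π(exp(tY)) (d Y v))` and `d_eq_sum` with
`Y` diagonal with real entries: `d Y v = ∑_i h_i (Lo_ii v + Ro_ii v)` (off-diagonal entries of `CW.Hd h` are zero, `conj` of a real number).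
rad: with `α = h_i - h_j`, `a = expG (t • CW.Hd h)`: `expG_Lo`: `π a (Lo_ij y) = e^(tα) Lo_ij (π a y)` and
`expG_Ro`: `π a (Ro_ji y) = e^(-tα) Ro_ji (π a y)`, so `l(π a (e^(-tα) Lo_ij y - e^(tα) Ro_ji y)) = l((Lo_ij - Ro_ji)(π a y))`; `rB_apply`, `rZ_apply`.
(`CW.Hd h = Matrix.diagonal fun i => ((h i : ℝ) : ℂ)` by definition.)  `aa_eq`: `H0 n = CW.Hd (fun i => n - i)` (casts).
-/

set_option linter.unusedSectionVars false

namespace Pool.Agent.Work.MP_dd0ddf_al.AR

open scoped SchwartzMap Matrix.Norms.Elementwise ComplexConjugate ContDiff Topology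
open Matrix MeasureTheory Filter Asymptotics

noncomputable section

variable {n : ℕ} {P : Type*} [AddCommGroup P] [Module ℂ P] [UniformSpace P] [IsUniformAddGroup P]
  [ContinuousSMul ℂ P] [PolynormableSpace ℂ P] [T2Space P] [CompleteSpace P]
  [FirstCountableTopology P]

theorem aa_eq (t : ℝ) : aa n t = expG (t • CW.Hd fun i : Fin n => (n : ℝ) - (i : ℕ)) := by
  have h : H0 n = CW.Hd fun i : Fin n => (n : ℝ) - (i : ℕ) := by
    unfold H0 CW.Hd
    congr 1
    funext i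
    push_cast
    rfl
  unfold aa
  rw [h]

private theorem rgc_d (π : GLn n →* (P →L[ℂ] P)) (d : Mat n → P →L[ℂ] P)
    (hd : Der π d) (h : Fin n → ℝ) (y : VK π) :
    ((∑ i, (h i : ℂ) • (vL π d hd i i y + vR π d hd i i y) : VK π) : P) =
      d (CW.Hd h) (y : P) := by
  rw [d_eq_sum π d hd, Submodule.coe_sum]
  refine Finset.sum_congr rfl fun i _ => ?_
  rw [Finset.sum_eq_single i]
  · rw [Submodule.coe_smul, Submodule.coe_add, coe_vL, coe_vR]
    unfold CW.Hd
    rw [Matrix.diagonal_apply_eq, Complex.conj_ofReal, smul_add]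
  · intro j _ hj
    unfold CW.Hd
    rw [Matrix.diagonal_apply_ne _ (Ne.symm hj), map_zero, zero_smul, zero_smul, add_zero]
  · intro hi
    exact absurd (Finset.mem_univ i) hi

theorem radSys (π : GLn n →* (P →L[ℂ] P)) (hπ : IsCW π) (d : Mat n → P →L[ℂ] P)
    (hd : Der π d) (h : Fin n → ℝ) (hh : Function.Injective h) (Λ : Submodule ℂ (P →L[ℂ] ℂ))
    (hΛ : ∀ i j, ∀ l ∈ Λ, l.comp (Lo d i j - Ro d j i) ∈ Λ) :
    CW.RadSys (Y := VK π) (Λ := Λ) h (vL π d hd) (vR π d hd) (rZ d Λ hΛ) (rB π h Λ) := by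
  refine ⟨gg_VK π d hd, hasZ_VK π hπ d hd, fun i j hij hh' => hij (hh hh'), ?_, ?_⟩
  · intro t l y
    have h1 := hd.deriv (l : P →L[ℂ] ℂ) (CW.Hd h) (y : P) t
    rw [rB_apply, rgc_d π d hd h y]
    exact h1
  · intro t l y i j _
    have e1 := expG_Lo π d hd h t i j (y : P)
    have e2 := expG_Ro π d hd h t j i (y : P)
    have c1 : ((Real.exp (-(t * (h i - h j))) : ℝ) : ℂ) *
        ((Real.exp (t * (h i - h j)) : ℝ) : ℂ) = 1 := by
      rw [← Complex.ofReal_mul, ← Real.exp_add, neg_add_cancel, Real.exp_zero, Complex.ofReal_one]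
    have c2 : ((Real.exp (t * (h i - h j)) : ℝ) : ℂ) *
        ((Real.exp (t * (h j - h i)) : ℝ) : ℂ) = 1 := by
      rw [← Complex.ofReal_mul, ← Real.exp_add, show t * (h i - h j) + t * (h j - h i) = 0 by ring,
        Real.exp_zero, Complex.ofReal_one]
    rw [rB_apply, rB_apply, rZ_apply, Submodule.coe_sub, Submodule.coe_smul, Submodule.coe_smul,
      coe_vL, coe_vR, map_sub, map_smul, map_smul]
    unfold CW.Hd
    rw [e1, e2, smul_smul, smul_smul, c1, c2, one_smul, one_smul]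

end

end Pool.Agent.Work.MP_dd0ddf_al.AR
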