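import Pool.Agent.Work.MP_dd0ddf_al.AR.RDefs

/-!
# MP_dd0ddf_al, archimedean part, block R: the compact group `K = U(n)`

`KU n` is compact; `muK` is its normalised Haar measure (left and right invariant).
-/

set_option linter.unusedSectionVars false

namespace Pool.Agent.Work.MP_dd0ddf_al.AR

open scoped SchwartzMap Matrix.Norms.Elementwise ComplexConjugate ContDiff Topology
open Matrix MeasureTheory Filter

noncomputable section

variable {n : ℕ}

theorem skf_one (v w : Fin n → ℂ) :
    skf (fun _ : Fin n => (1 : ℝ)) v w = Complex.I * (v ⬝ᵥ star w) := by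
  simp [skf, dotProduct]

/-- elements of `KU n` are unitary matrices -/
theorem KU_star_mul (k : KU n) :
    (((k : GLn n) : Mat n))ᴴ * ((k : GLn n) : Mat n) = 1 := by
  have h := k.2
  ext i j
  have h1 := h (Pi.single j 1) (Pi.single i 1)
  rw [skf_one, skf_one] at h1
  have h2 := mul_left_cancel₀ Complex.I_ne_zero h1
  simp only [Matrix.mulVec_single_one] at h2
  simp only [Matrix.mul_apply, Matrix.conjTranspose_apply, Matrix.one_apply]
  simp only [dotProduct, Pi.star_apply, Matrix.col_apply, Pi.single_apply] at h2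
  have h3 : (∑ x, star (((k : GLn n) : Mat n) x i) * ((k : GLn n) : Mat n) x j) =
      ∑ x, ((k : GLn n) : Mat n) x j * star (((k : GLn n) : Mat n) x i) :=
    Finset.sum_congr rfl fun x _ => mul_comm _ _
  rw [h3, h2]
  simp [eq_comm]

theorem KU_mul_star (k : KU n) :
    ((k : GLn n) : Mat n) * (((k : GLn n) : Mat n))ᴴ = 1 :=
  mul_eq_one_comm.mp (KU_star_mul k)

theorem KU_inv (k : KU n) :
    (((k : GLn n)⁻¹ : GLn n) : Mat n) = (((k : GLn n) : Mat n))ᴴ := by
  have h : ((k : GLn n) : Mat n) * (((k : GLn n)⁻¹ : GLn n) : Mat n) = 1 := by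
    rw [← Units.val_mul, mul_inv_cancel, Units.val_one]
  calc (((k : GLn n)⁻¹ : GLn n) : Mat n)
      = ((((k : GLn n) : Mat n))ᴴ * ((k : GLn n) : Mat n)) *
          (((k : GLn n)⁻¹ : GLn n) : Mat n) := by rw [KU_star_mul, Matrix.one_mul]
    _ = (((k : GLn n) : Mat n))ᴴ := by rw [Matrix.mul_assoc, h, Matrix.mul_one]

/-- a unitary matrix as an element of `KU n` -/
def mkK (g : Mat n) (h : gᴴ * g = 1) : KU n :=
  ⟨⟨g, gᴴ, mul_eq_one_comm.mp h, h⟩, by
    intro v w
    rw [skf_one, skf_one]
    congr 1
    show (g *ᵥ v) ⬝ᵥ star (g *ᵥ w) = v ⬝ᵥ star w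
    rw [Matrix.star_mulVec, dotProduct_comm, ← Matrix.dotProduct_mulVec, Matrix.mulVec_mulVec, h,
      Matrix.one_mulVec, dotProduct_comm]⟩

theorem coe_mkK (g : Mat n) (h : gᴴ * g = 1) : (((mkK g h : KU n) : GLn n) : Mat n) = g := rfl

theorem KU_entry (k : KU n) (i j : Fin n) : ‖((k : GLn n) : Mat n) i j‖ ≤ 1 := by
  have h := congrFun (congrFun (KU_star_mul k) j) j
  simp only [Matrix.mul_apply, Matrix.conjTranspose_apply, Matrix.one_apply_eq] at h
  have h1 : ∑ x, ‖((k : GLn n) : Mat n) x j‖ ^ 2 = 1 := by
    have h2 : (∑ x, star (((k : GLn n) : Mat n) x j) * ((k : GLn n) : Mat n) x j) =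
        ((∑ x, ‖((k : GLn n) : Mat n) x j‖ ^ 2 : ℝ) : ℂ) := by
      push_cast
      refine Finset.sum_congr rfl fun x _ => ?_
      have := Complex.conj_mul' (((k : GLn n) : Mat n) x j)
      simpa using this
    rw [h2] at h
    exact_mod_cast h
  have h3 : ‖((k : GLn n) : Mat n) i j‖ ^ 2 ≤ 1 := by
    rw [← h1]
    exact Finset.single_le_sum (f := fun x => ‖((k : GLn n) : Mat n) x j‖ ^ 2)
      (fun x _ => by positivity) (Finset.mem_univ i)
  nlinarith [norm_nonneg (((k : GLn n) : Mat n) i j)]

theorem continuous_coeK : Continuous fun k : KU n => ((k : GLn n) : Mat n) :=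
  Units.continuous_val.comp continuous_subtype_val

instance : CompactSpace (KU n) := by
  have hS : IsCompact {g : Mat n | gᴴ * g = 1} := by
    apply Metric.isCompact_of_isClosed_isBounded
    · exact isClosed_eq ((continuous_id.matrix_conjTranspose).matrix_mul continuous_id)
        continuous_const
    · rw [isBounded_iff_forall_norm_le]
      refine ⟨1, fun g hg => ?_⟩
      rw [Matrix.norm_le_iff zero_le_one]
      intro i j
      exact KU_entry (mkK g hg) i j
  have : CompactSpace {g : Mat n | gᴴ * g = 1} := isCompact_iff_compactSpace.mp hS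
  have hc : Continuous fun g : {g : Mat n | gᴴ * g = 1} => (mkK g.1 g.2 : KU n) := by
    refine Continuous.subtype_mk ?_ _
    rw [Units.continuous_iff]
    exact ⟨continuous_subtype_val, continuous_subtype_val.matrix_conjTranspose⟩
  have hs : Function.Surjective fun g : {g : Mat n | gᴴ * g = 1} => (mkK g.1 g.2 : KU n) := by
    intro k
    exact ⟨⟨((k : GLn n) : Mat n), KU_star_mul k⟩, Subtype.ext (Units.ext rfl)⟩
  exact hs.compactSpace hc

instance : MeasurableSpace (KU n) := borel _
instance : BorelSpace (KU n) := ⟨rfl⟩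

/-- the normalised Haar measure of `K = U(n)` -/
def muK (n : ℕ) : Measure (KU n) := Measure.haarMeasure ⊤

instance : (muK n).IsHaarMeasure := by unfold muK; infer_instance

instance : IsProbabilityMeasure (muK n) := by
  constructor
  unfold muK
  have := Measure.haarMeasure_self (G := KU n) (K₀ := ⊤)
  simpa using this

instance : (muK n).IsMulRightInvariant := by
  refine ⟨fun g => ?_⟩
  have : IsProbabilityMeasure (Measure.map (fun x => x * g) (muK n)) :=
    Measure.isProbabilityMeasure_map (measurable_mul_const g).aemeasurable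
  exact Measure.isHaarMeasure_eq_of_isProbabilityMeasure _ _

instance : (muK n).IsInvInvariant := by
  refine ⟨?_⟩
  have h : IsProbabilityMeasure (muK n).inv := by
    rw [Measure.inv]
    exact Measure.isProbabilityMeasure_map measurable_inv.aemeasurable
  have h2 : (muK n).inv.IsHaarMeasure := by
    refine Measure.isHaarMeasure_of_isCompact_nonempty_interior _ Set.univ isCompact_univ
      (by simp) ?_ ?_
    · have : (muK n).inv Set.univ = 1 := measure_univ
      rw [this]
      exact one_ne_zero
    · have : (muK n).inv Set.univ = 1 := measure_univ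
      rw [this]
      exact ENNReal.one_ne_top
  exact Measure.isHaarMeasure_eq_of_isProbabilityMeasure _ _

end

end Pool.Agent.Work.MP_dd0ddf_al.AR
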