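import Pool.Agent.Work.MP_dd0ddf_al.AR.RDefs
import Pool.Agent.Work.MP_dd0ddf_al.AR.RKDefs
import Pool.Agent.Work.MP_dd0ddf_al.CW.Kak

/-!
# MP_dd0ddf_al, archimedean part, block R, module RGk

Density of the regular part of the Cartan decomposition, in the present notation.

PROOF. `CW.kak_dense`: the set of the `kg k1 * ag h 1 * kg k2` is dense, `kg k = Unitary.toUnits k`, `ag h 1 = ex (1 • Hd h)`; `ex Y = expG Y` (the same
matrix, `Units.ext`, `coe_expG`), `kg k ∈ KU n` (`mkK`: `kᴴ * k = 1`).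
-/

set_option linter.unusedSectionVars false

namespace Pool.Agent.Work.MP_dd0ddf_al.AR

open scoped SchwartzMap Matrix.Norms.Elementwise ComplexConjugate ContDiff Topology
open Matrix MeasureTheory Filter Asymptotics

noncomputable section

variable {n : ℕ} {P : Type*} [AddCommGroup P] [Module ℂ P] [UniformSpace P] [IsUniformAddGroup P]
  [ContinuousSMul ℂ P] [PolynormableSpace ℂ P] [T2Space P] [CompleteSpace P]
  [FirstCountableTopology P]

private theorem rgk_ex (Y : Mat n) : CW.ex Y = expG Y :=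
  Units.ext (by rw [coe_expG]; rfl)

private theorem rgk_kg (k : CW.UU n) : ∃ k' : KU n, (k' : GLn n) = CW.kg k := by
  have h : (k : Mat n)ᴴ * (k : Mat n) = 1 := by
    have := k.2
    rw [Matrix.mem_unitaryGroup_iff', Matrix.star_eq_conjTranspose] at this
    exact this
  exact ⟨mkK (k : Mat n) h, Units.ext rfl⟩

theorem kak_dense_KU : Dense {g : GLn n | ∃ (k1 k2 : KU n) (h : Fin n → ℝ),
    Function.Injective h ∧ g = (k1 : GLn n) * expG ((1 : ℝ) • CW.Hd h) * (k2 : GLn n)} := by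
  refine CW.kak_dense.mono ?_
  rintro g ⟨k1, k2, h, hh, rfl⟩
  obtain ⟨k1', h1⟩ := rgk_kg k1
  obtain ⟨k2', h2⟩ := rgk_kg k2
  refine ⟨k1', k2', h, hh, ?_⟩
  rw [h1, h2, ← rgk_ex]
  rfl

theorem kak_KU (g : GLn n) : ∃ (k1 k2 : KU n) (h : Fin n → ℝ),
    g = (k1 : GLn n) * expG ((1 : ℝ) • CW.Hd h) * (k2 : GLn n) := by
  obtain ⟨k1, k2, h, hg⟩ := CW.kak g
  obtain ⟨k1', h1⟩ := rgk_kg k1
  obtain ⟨k2', h2⟩ := rgk_kg k2
  refine ⟨k1', k2', h, ?_⟩
  rw [h1, h2, ← rgk_ex, hg]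
  rfl

end

end Pool.Agent.Work.MP_dd0ddf_al.AR
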