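import Pool.Agent.Work.MP_dd0ddf_al.AR.RGD
import Pool.Agent.Work.MP_dd0ddf_al.AR.RAd

/-!
# MP_dd0ddf_al, archimedean part, block R, module RGs

The subspace `genS` generated by the vectors of degree at most `D0`.

PROOF. `genS_le`: the generators are coercions of elements of `VK π`.  `le_genS`: the empty word (`CW.wd L R [] = 1`).  `genS_L`, `genS_R`: `Submodule.span_induction`;
`Lo_ij (wd w v) = wd ((true,i,j) :: w) v`, `coe_vL`.  `genS_K`: it is enough to show: for every word `w` and `v ∈ Xd π D0` and `k ∈ K`,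
`π k (wd w v) ∈ genS`.  Induction on `w` (for all `v`; `k` fixed): empty word: `Xd_K` and `le_genS`.  `w = (true,i,j) :: w'`:
`π k (Lo_ij x) = ∑ c_ab Lo_ab (π k x)` (`Ad_Lo`), `x = wd w' v`, `π k x ∈ genS` by induction, `genS_L`.  The same for `(false,i,j)`.
`genS_Z`: `genS_L` and `genS_R`.  `vV0_fin`: `vV0 π D0` embeds in the finite dimensional `Xd π D0` (`Xd_finite`).  `vV0_Z`: `Xd_k`.
-/

set_option linter.unusedSectionVars false

namespace Pool.Agent.Work.MP_dd0ddf_al.AR

open scoped SchwartzMap Matrix.Norms.Elementwise ComplexConjugate ContDiff Topology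
open Matrix MeasureTheory Filter Asymptotics

noncomputable section

variable {n : ℕ} {P : Type*} [AddCommGroup P] [Module ℂ P] [UniformSpace P] [IsUniformAddGroup P]
  [ContinuousSMul ℂ P] [PolynormableSpace ℂ P] [T2Space P] [CompleteSpace P]
  [FirstCountableTopology P]

private theorem wd_cons_L (π : GLn n →* (P →L[ℂ] P)) (d : Mat n → P →L[ℂ] P) (hd : Der π d)
    (i j : Fin n) (w : List (CW.Lt n)) (v : VK π) :
    ((CW.wd (vL π d hd) (vR π d hd) ((true, i, j) :: w) v : VK π) : P) =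
      Lo d i j ((CW.wd (vL π d hd) (vR π d hd) w v : VK π) : P) := by
  simp only [CW.wd, List.map_cons, List.prod_cons, Module.End.mul_apply]
  rfl

private theorem wd_cons_R (π : GLn n →* (P →L[ℂ] P)) (d : Mat n → P →L[ℂ] P) (hd : Der π d)
    (i j : Fin n) (w : List (CW.Lt n)) (v : VK π) :
    ((CW.wd (vL π d hd) (vR π d hd) ((false, i, j) :: w) v : VK π) : P) =
      Ro d i j ((CW.wd (vL π d hd) (vR π d hd) w v : VK π) : P) := by
  simp only [CW.wd, List.map_cons, List.prod_cons, Module.End.mul_apply]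
  rfl

theorem genS_le (π : GLn n →* (P →L[ℂ] P)) (d : Mat n → P →L[ℂ] P) (hd : Der π d) (D0 : ℕ) :
    genS π d hd D0 ≤ VK π := by
  unfold genS
  rw [Submodule.span_le]
  rintro x ⟨w, v, _, rfl⟩
  exact (CW.wd (vL π d hd) (vR π d hd) w v).2

theorem le_genS (π : GLn n →* (P →L[ℂ] P)) (d : Mat n → P →L[ℂ] P) (hd : Der π d) (D0 : ℕ) :
    Xd π D0 ≤ genS π d hd D0 := by
  intro v hv
  exact Submodule.subset_span ⟨[], ⟨v, mem_VK.2 ⟨D0, hv⟩⟩, hv, by simp [CW.wd]⟩

theorem genS_L (π : GLn n →* (P →L[ℂ] P)) (d : Mat n → P →L[ℂ] P) (hd : Der π d) (D0 : ℕ)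
    (i j : Fin n) {s : P} (hs : s ∈ genS π d hd D0) : Lo d i j s ∈ genS π d hd D0 := by
  induction hs using Submodule.span_induction with
  | mem x hx =>
    obtain ⟨w, v, hv, rfl⟩ := hx
    rw [← wd_cons_L π d hd]
    exact Submodule.subset_span ⟨_, v, hv, rfl⟩
  | zero => rw [map_zero]; exact Submodule.zero_mem _
  | add x y _ _ hx hy => rw [map_add]; exact Submodule.add_mem _ hx hy
  | smul c x _ hx => rw [map_smul]; exact Submodule.smul_mem _ c hx

theorem genS_R (π : GLn n →* (P →L[ℂ] P)) (d : Mat n → P →L[ℂ] P) (hd : Der π d) (D0 : ℕ)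
    (i j : Fin n) {s : P} (hs : s ∈ genS π d hd D0) : Ro d i j s ∈ genS π d hd D0 := by
  induction hs using Submodule.span_induction with
  | mem x hx =>
    obtain ⟨w, v, hv, rfl⟩ := hx
    rw [← wd_cons_R π d hd]
    exact Submodule.subset_span ⟨_, v, hv, rfl⟩
  | zero => rw [map_zero]; exact Submodule.zero_mem _
  | add x y _ _ hx hy => rw [map_add]; exact Submodule.add_mem _ hx hy
  | smul c x _ hx => rw [map_smul]; exact Submodule.smul_mem _ c hx

theorem genS_K (π : GLn n →* (P →L[ℂ] P)) (d : Mat n → P →L[ℂ] P) (hd : Der π d) (D0 : ℕ)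
    (k : KU n) {s : P} (hs : s ∈ genS π d hd D0) : π (k : GLn n) s ∈ genS π d hd D0 := by
  have key : ∀ (w : List (CW.Lt n)) (v : VK π), (v : P) ∈ Xd π D0 →
      π (k : GLn n) ((CW.wd (vL π d hd) (vR π d hd) w v : VK π) : P) ∈ genS π d hd D0 := by
    intro w
    induction w with
    | nil =>
      intro v hv
      have h1 : ((CW.wd (vL π d hd) (vR π d hd) [] v : VK π) : P) = v := by simp [CW.wd]
      rw [h1]
      exact le_genS π d hd D0 (Xd_K π k hv)
    | cons l w ih =>
      intro v hv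
      obtain ⟨b, i, j⟩ := l
      cases b
      · rw [wd_cons_R, Ad_Ro π d hd]
        refine Submodule.sum_mem _ fun a _ => Submodule.sum_mem _ fun c _ =>
          Submodule.smul_mem _ _ ?_
        exact genS_R π d hd D0 a c (ih v hv)
      · rw [wd_cons_L, Ad_Lo π d hd]
        refine Submodule.sum_mem _ fun a _ => Submodule.sum_mem _ fun c _ =>
          Submodule.smul_mem _ _ ?_
        exact genS_L π d hd D0 a c (ih v hv)
  induction hs using Submodule.span_induction with
  | mem x hx =>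
    obtain ⟨w, v, hv, rfl⟩ := hx
    exact key w v hv
  | zero => rw [map_zero]; exact Submodule.zero_mem _
  | add x y _ _ hx hy => rw [map_add]; exact Submodule.add_mem _ hx hy
  | smul c x _ hx => rw [map_smul]; exact Submodule.smul_mem _ c hx

theorem vV0_fin (π : GLn n →* (P →L[ℂ] P)) (hπ : IsCW π) (D0 : ℕ) :
    FiniteDimensional ℂ (vV0 π D0) := by
  have : FiniteDimensional ℂ (Xd π D0) := Xd_finite π hπ D0
  let f : vV0 π D0 →ₗ[ℂ] Xd π D0 :=
    ((VK π).subtype.comp (vV0 π D0).subtype).codRestrict (Xd π D0) fun x => x.2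
  refine FiniteDimensional.of_injective f ?_
  intro x y hxy
  have h1 : ((x : VK π) : P) = ((y : VK π) : P) :=
    congrArg (fun z : Xd π D0 => (z : P)) hxy
  exact Subtype.ext (Subtype.ext h1)

theorem vV0_Z (π : GLn n →* (P →L[ℂ] P)) (d : Mat n → P →L[ℂ] P) (hd : Der π d) (D0 : ℕ)
    (i j : Fin n) {v : VK π} (hv : v ∈ vV0 π D0) :
    CW.Zo (vL π d hd) (vR π d hd) i j v ∈ vV0 π D0 := by
  exact Xd_k π d hd i j hv

end

end Pool.Agent.Work.MP_dd0ddf_al.AR
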