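import Pool.Agent.Work.MP_dd0ddf_al.AR.RGc
import Pool.Agent.Work.MP_dd0ddf_al.AR.RGs
import Pool.Agent.Work.MP_dd0ddf_al.AR.RAv
import Pool.Agent.Work.MP_dd0ddf_al.AR.RGk
import Pool.Agent.Work.MP_dd0ddf_al.AR.KPe
import Pool.Agent.Work.MP_dd0ddf_al.CW.RadZ

/-!
# MP_dd0ddf_al, archimedean part, block R, module RGd

Density of `genS` (this replaces the theory of analytic vectors).

PROOF. Let `S = genS π d hd D0`, `l` a continuous functional vanishing on `S`; we show `l = 0` (then `dense_of_functional`).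
(a) Let `D : ℕ` and `Λ` the subspace of `m ∈ Yd π D` vanishing on `S`; it is finite dimensional (`Yd_finite`), stable under
`m ↦ m ∘ (Lo_ij - Ro_ji)` (`Yd_k`, `genS_L`, `genS_R`).  For `h` injective, `radSys` and `CW.radZ` with `V0 = vV0 π D0` (`vV0_fin`, `vV0_Z`),
`B 0 m (wd w v) = m(π(exp 0) wd w v) = m(wd w v) = 0`, give at `t = 1`: `m(π(exp(diag h)) wd w v) = 0` for all words and `v ∈ vV0 π D0`, so
`m(π(exp(diag h)) s) = 0` for all `s ∈ S` (linearity, `Submodule.span_induction`).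
(b) For `m ∈ Λ`, `k1, k2 ∈ K`: `m ∘ π(k1) ∈ Λ` (`Yd_K`, `genS_K`), `π(k2) s ∈ S`: `m(π(k1 exp(diag h) k2) s) = 0`.  By `kak_dense_KU` and the continuity of
`g ↦ m(π g s)` (`hπ.cont`): `m(π g s) = 0` for all `g ∈ G`, `s ∈ S`, `m ∈ Λ`.
(c) For `φ ∈ PK n D` let `T` be the operator of `exists_avg`; `m = l ∘ T ∈ Yd π D` and for `s ∈ S`: `m s = ∫ φ k * l(π k s) = 0` as `π k s ∈ S`
(`genS_K`).  So by (b) `0 = m(π g s) = ∫ φ k * l(π k (π g s))` for all `φ`, `D`.  By `PK_orth` (the function `k ↦ l(π k (π g s))` is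
continuous) it is zero, at `k = 1`: `l(π g s) = 0` for all `g`, `s ∈ S`.
(d) The closure of the span of all `π g s` is a closed invariant subspace, not `⊥` (`Xd π D0 ≠ ⊥`, `le_genS`, `g = 1`), so it is `⊤` (`hπ.irr`); `l` vanishes on it.
Invariance of the closure: `π g` is continuous (`Submodule.topologicalClosure`, `Submodule.map`...).
-/

set_option linter.unusedSectionVars false

namespace Pool.Agent.Work.MP_dd0ddf_al.AR

open scoped SchwartzMap Matrix.Norms.Elementwise ComplexConjugate ContDiff Topology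
open Matrix MeasureTheory Filter Asymptotics

noncomputable section

variable {n : ℕ} {P : Type*} [AddCommGroup P] [Module ℂ P] [UniformSpace P] [IsUniformAddGroup P]
  [ContinuousSMul ℂ P] [PolynormableSpace ℂ P] [T2Space P] [CompleteSpace P]
  [FirstCountableTopology P]

private theorem expG_zero' : expG (0 : Mat n) = 1 := by
  apply Units.ext
  rw [coe_expG, NormedSpace.exp_zero]
  rfl

private theorem pi_cont (π : GLn n →* (P →L[ℂ] P)) (hπ : IsCW π) (v : P) :
    Continuous fun g : GLn n => π g v :=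
  hπ.cont.comp (continuous_id.prodMk continuous_const)

/-- functionals of bounded degree vanishing on `S` -/
private def Lam (π : GLn n →* (P →L[ℂ] P)) (D : ℕ) (S : Submodule ℂ P) :
    Submodule ℂ (P →L[ℂ] ℂ) where
  carrier := {m | m ∈ Yd π D ∧ ∀ s ∈ S, m s = 0}
  add_mem' := by
    intro m m' hm hm'
    refine ⟨(Yd π D).add_mem hm.1 hm'.1, fun s hs => ?_⟩
    show m s + m' s = 0
    rw [hm.2 s hs, hm'.2 s hs, add_zero]
  zero_mem' := ⟨(Yd π D).zero_mem, fun s _ => rfl⟩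
  smul_mem' := by
    intro c m hm
    refine ⟨(Yd π D).smul_mem c hm.1, fun s hs => ?_⟩
    show c • m s = 0
    rw [hm.2 s hs, smul_zero]

private theorem Lam_fin (π : GLn n →* (P →L[ℂ] P)) (hπ : IsCW π) (D : ℕ) (S : Submodule ℂ P) :
    FiniteDimensional ℂ (Lam π D S) := by
  have h1 : FiniteDimensional ℂ (Yd π D) := Yd_finite π hπ D
  have h2 : Lam π D S ≤ Yd π D := fun m hm => hm.1
  exact Submodule.finiteDimensional_of_le h2

private theorem Lam_k (π : GLn n →* (P →L[ℂ] P)) (d : Mat n → P →L[ℂ] P) (hd : Der π d)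
    (D0 D : ℕ) (i j : Fin n) :
    ∀ l ∈ Lam π D (genS π d hd D0), l.comp (Lo d i j - Ro d j i) ∈ Lam π D (genS π d hd D0) := by
  intro l hl
  refine ⟨Yd_k π d hd i j hl.1, fun s hs => ?_⟩
  show l (Lo d i j s - Ro d j i s) = 0
  exact hl.2 _ ((genS π d hd D0).sub_mem (genS_L π d hd D0 i j hs) (genS_R π d hd D0 j i hs))

private theorem zero_a (hn : 0 < n) (π : GLn n →* (P →L[ℂ] P)) (hπ : IsCW π)
    (d : Mat n → P →L[ℂ] P) (hd : Der π d) (D0 D : ℕ) (h : Fin n → ℝ)
    (hh : Function.Injective h) {m : P →L[ℂ] ℂ} (hm : m ∈ Lam π D (genS π d hd D0)) {s : P}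
    (hs : s ∈ genS π d hd D0) : m (π (expG ((1 : ℝ) • CW.Hd h)) s) = 0 := by
  have hfin : FiniteDimensional ℂ (Lam π D (genS π d hd D0)) := Lam_fin π hπ D _
  have hfin0 : FiniteDimensional ℂ (vV0 π D0) := vV0_fin π hπ D0
  have hsys := radSys π hπ d hd h hh (Lam π D (genS π d hd D0)) (Lam_k π d hd D0 D)
  have hV : ∀ i j, ∀ v ∈ vV0 π D0, CW.Zo (vL π d hd) (vR π d hd) i j v ∈ vV0 π D0 :=
    fun i j v hv => vV0_Z π d hd D0 i j hv
  have h0 : ∀ (l : Lam π D (genS π d hd D0)), ∀ v ∈ vV0 π D0, ∀ (w : List (CW.Lt n)),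
      rB π h (Lam π D (genS π d hd D0)) 0 l (CW.wd (vL π d hd) (vR π d hd) w v) = 0 := by
    intro l v hv w
    rw [rB_apply, zero_smul, expG_zero', map_one]
    exact l.2.2 _ (Submodule.subset_span ⟨w, v, hv, rfl⟩)
  have key := CW.radZ hn hsys hV h0
  have hle : genS π d hd D0 ≤
      LinearMap.ker ((m.comp (π (expG ((1 : ℝ) • CW.Hd h))) : P →L[ℂ] ℂ) : P →ₗ[ℂ] ℂ) := by
    unfold genS
    rw [Submodule.span_le]
    rintro _ ⟨w, v, hv, rfl⟩
    have h1 := key ⟨m, hm⟩ v hv w 1 one_pos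
    rw [rB_apply] at h1
    exact h1
  exact hle hs

private theorem zero_b (hn : 0 < n) (π : GLn n →* (P →L[ℂ] P)) (hπ : IsCW π)
    (d : Mat n → P →L[ℂ] P) (hd : Der π d) (D0 D : ℕ) {m : P →L[ℂ] ℂ}
    (hm : m ∈ Lam π D (genS π d hd D0)) {s : P} (hs : s ∈ genS π d hd D0) (g : GLn n) :
    m (π g s) = 0 := by
  have hc : IsClosed {g : GLn n | m (π g s) = 0} :=
    isClosed_eq (m.continuous.comp (pi_cont π hπ s)) continuous_const
  have hsub : {g : GLn n | ∃ (k1 k2 : KU n) (h : Fin n → ℝ), Function.Injective h ∧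
      g = (k1 : GLn n) * expG ((1 : ℝ) • CW.Hd h) * (k2 : GLn n)} ⊆
      {g : GLn n | m (π g s) = 0} := by
    rintro _ ⟨k1, k2, h, hh, rfl⟩
    have hm' : m.comp (π (k1 : GLn n)) ∈ Lam π D (genS π d hd D0) :=
      ⟨Yd_K π k1 hm.1, fun s hs => hm.2 _ (genS_K π d hd D0 k1 hs)⟩
    have h1 := zero_a hn π hπ d hd D0 D h hh hm' (genS_K π d hd D0 k2 hs)
    show m (π ((k1 : GLn n) * expG ((1 : ℝ) • CW.Hd h) * (k2 : GLn n)) s) = 0
    rw [map_mul, map_mul]
    exact h1
  have h2 : closure {g : GLn n | ∃ (k1 k2 : KU n) (h : Fin n → ℝ), Function.Injective h ∧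
      g = (k1 : GLn n) * expG ((1 : ℝ) • CW.Hd h) * (k2 : GLn n)} ⊆
      {g : GLn n | m (π g s) = 0} := closure_minimal hsub hc
  rw [(kak_dense_KU (n := n)).closure_eq] at h2
  exact h2 (Set.mem_univ g)

private theorem zero_c (hn : 0 < n) (π : GLn n →* (P →L[ℂ] P)) (hπ : IsCW π)
    (d : Mat n → P →L[ℂ] P) (hd : Der π d) (D0 : ℕ) {l : P →L[ℂ] ℂ}
    (hl : ∀ s ∈ genS π d hd D0, l s = 0) {s : P} (hs : s ∈ genS π d hd D0) (g : GLn n) :
    l (π g s) = 0 := by
  have hcont : Continuous fun k : KU n => l (π (k : GLn n) (π g s)) :=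
    l.continuous.comp ((pi_cont π hπ (π g s)).comp continuous_subtype_val)
  have h1 : ∀ D : ℕ, ∀ φ ∈ PK n D, ∫ k, φ k * l (π (k : GLn n) (π g s)) ∂(muK n) = 0 := by
    intro D φ hφ
    obtain ⟨T, hT1, -, hT3⟩ := exists_avg π hπ hφ
    have hm : l.comp T ∈ Lam π D (genS π d hd D0) := by
      refine ⟨hT3 l, fun s' hs' => ?_⟩
      show l (T s') = 0
      rw [hT1 l s']
      have e : ∀ k : KU n, φ k * l (π (k : GLn n) s') = 0 := by
        intro k
        rw [hl _ (genS_K π d hd D0 k hs'), mul_zero]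
      simp only [e, integral_zero]
    have h2 := zero_b hn π hπ d hd D0 D hm hs g
    rw [← hT1 l (π g s)]
    exact h2
  have h3 := PK_orth _ hcont h1 1
  have h4 : l (π ((1 : KU n) : GLn n) (π g s)) = 0 := h3
  rw [Subgroup.coe_one, map_one] at h4
  exact h4

private theorem zero_d (π : GLn n →* (P →L[ℂ] P)) (hπ : IsCW π) (S : Submodule ℂ P)
    (hS : S ≠ ⊥) (l : P →L[ℂ] ℂ) (h : ∀ (g : GLn n), ∀ s ∈ S, l (π g s) = 0) : l = 0 := by
  let T : Submodule ℂ P := Submodule.span ℂ {x | ∃ (g : GLn n) (s : P), s ∈ S ∧ x = π g s}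
  have hST : S ≤ T := by
    intro s hs
    refine Submodule.subset_span ⟨1, s, hs, ?_⟩
    rw [map_one]
    rfl
  have hTg : ∀ (g : GLn n), ∀ v ∈ T, π g v ∈ T := by
    intro g v hv
    have hle : T ≤ T.comap ((π g : P →L[ℂ] P) : P →ₗ[ℂ] P) := by
      refine Submodule.span_le.2 ?_
      rintro _ ⟨g', s, hs, rfl⟩
      refine Submodule.subset_span ⟨g * g', s, hs, ?_⟩
      rw [map_mul]
      rfl
    exact hle hv
  have hTc : ∀ (g : GLn n), ∀ v ∈ T.topologicalClosure, π g v ∈ T.topologicalClosure := by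
    intro g v hv
    have h1 : Set.MapsTo (fun v => π g v) (T : Set P) (T : Set P) := fun v hv => hTg g v hv
    exact (h1.closure (π g).continuous) hv
  rcases hπ.irr T.topologicalClosure T.isClosed_topologicalClosure hTc with h1 | h1
  · exfalso
    apply hS
    rw [eq_bot_iff, ← h1]
    exact hST.trans T.le_topologicalClosure
  · have h2 : T ≤ LinearMap.ker (l : P →ₗ[ℂ] ℂ) := by
      refine Submodule.span_le.2 ?_
      rintro _ ⟨g, s, hs, rfl⟩
      exact h g s hs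
    have h3 : T.topologicalClosure ≤ LinearMap.ker (l : P →ₗ[ℂ] ℂ) :=
      Submodule.topologicalClosure_minimal _ h2 (isClosed_eq l.continuous continuous_const)
    ext v
    have h4 : v ∈ T.topologicalClosure := by
      rw [h1]
      trivial
    exact h3 h4

theorem genS_dense (hn : 0 < n) (π : GLn n →* (P →L[ℂ] P)) (hπ : IsCW π)
    (d : Mat n → P →L[ℂ] P) (hd : Der π d) (D0 : ℕ) (h0 : Xd π D0 ≠ ⊥) :
    Dense (genS π d hd D0 : Set P) := by
  refine dense_of_functional (genS π d hd D0) fun l hl => ?_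
  refine zero_d π hπ (genS π d hd D0) ?_ l fun g s hs => zero_c hn π hπ d hd D0 hl hs g
  intro h1
  apply h0
  rw [eq_bot_iff, ← h1]
  exact le_genS π d hd D0

end

end Pool.Agent.Work.MP_dd0ddf_al.AR
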