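import Pool.Agent.Work.MP_dd0ddf_al.AR.RGd
import Pool.Agent.Work.MP_dd0ddf_al.AR.RGs
import Pool.Agent.Work.MP_dd0ddf_al.AR.RAv

/-!
# MP_dd0ddf_al, archimedean part, block R, module RGe

`VK π` is generated by the vectors of degree at most `D0`, if there are nonzero ones.

PROOF. `genS ≤ VK` is `genS_le`.  Let `v ∈ Xd π D` (`mem_VK`), `E` from `exists_avgE` for `D`.  `S = genS π d hd D0`.
(a) `E s ∈ S` for `s ∈ S`: `s ∈ Xd π D1` for some `D1` (`genS_le`, `mem_VK`); `W = S ⊓ Xd π D1` is finite dimensional (`Xd_finite`), so closed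
(`Submodule.closed_of_finiteDimensional`), and `K`-stable (`genS_K`, `Xd_K`).  If `E s ∉ W` there is a continuous functional `l` vanishing on `W` with
`l (E s) ≠ 0` (Hahn-Banach; e.g. `RCLike.geometric_hahn_banach_...` for the closed convex set `W` and a subspace argument, or: work in the
finite dimensional space `Xd π D2`, `D2 = max D D1`, on which every linear functional is the restriction of an element of `Yd π D2` by `Xd_sep`
and dimension count).  But `l(E s) = ∫ φ k * l(π k s) = 0` since `π k s ∈ W`.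
(b) `W' = S ⊓ Xd π D` is finite dimensional, so closed; `E⁻¹(W')` is closed and contains the dense `S` (by (a) and `E s ∈ Xd π D`), so it is everything:
`v = E v ∈ W' ⊆ S`.
-/

set_option linter.unusedSectionVars false

namespace Pool.Agent.Work.MP_dd0ddf_al.AR

open scoped SchwartzMap Matrix.Norms.Elementwise ComplexConjugate ContDiff Topology
open Matrix MeasureTheory Filter Asymptotics

noncomputable section

variable {n : ℕ} {P : Type*} [AddCommGroup P] [Module ℂ P] [UniformSpace P] [IsUniformAddGroup P]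
  [ContinuousSMul ℂ P] [PolynormableSpace ℂ P] [T2Space P] [CompleteSpace P]
  [FirstCountableTopology P]

private theorem rge_sep (S : Submodule ℂ P) (hS : IsClosed (S : Set P)) (x : P) (hx : x ∉ S) :
    ∃ l : P →L[ℂ] ℂ, (∀ v ∈ S, l v = 0) ∧ l x ≠ 0 := by
  have hU : ((S : Set P))ᶜ ∈ 𝓝 x := hS.isOpen_compl.mem_nhds hx
  obtain ⟨T, r, hr, hT⟩ := ((PolynormableSpace.withSeminorms ℂ P).mem_nhds_iff x _).1 hU
  set q : Seminorm ℂ P := T.sup (fun p : {p : Seminorm ℂ P // Continuous p} => p.1) with hq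
  have hqc : Continuous q := by
    refine Finset.sup_induction (p := fun q : Seminorm ℂ P => Continuous q) ?_ ?_ ?_
    · exact continuous_const
    · intro a ha b hb
      exact ha.sup hb
    · intro b _
      exact b.2
  have hqx : ∀ s ∈ S, r ≤ q (x - s) := by
    intro s hs
    by_contra hlt
    push Not at hlt
    have h1 : s ∈ q.ball x r := by
      rw [Seminorm.mem_ball, ← neg_sub, map_neg_eq_map]
      exact hlt
    exact hT h1 hs
  have hxS : x ∉ (⟨S, 0⟩ : P →ₗ.[ℂ] ℂ).domain := hx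
  let g : P →ₗ.[ℂ] ℂ := LinearPMap.supSpanSingleton (⟨S, 0⟩ : P →ₗ.[ℂ] ℂ) x (r : ℂ) hxS
  have hg : ∀ v : g.domain, ‖g.toFun v‖ ≤ q v := by
    rintro ⟨v, hv⟩
    obtain ⟨s, hs, y, hy, rfl⟩ := Submodule.mem_sup.1 hv
    obtain ⟨c, rfl⟩ := Submodule.mem_span_singleton.1 hy
    have h2 : g.toFun ⟨s + c • x, hv⟩ = c * (r : ℂ) := by
      have h3 := LinearPMap.supSpanSingleton_apply_mk (⟨S, 0⟩ : P →ₗ.[ℂ] ℂ) x (r : ℂ) hxS s hs c
      have h4 : g.toFun ⟨s + c • x, hv⟩ =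
          (⟨S, 0⟩ : P →ₗ.[ℂ] ℂ) ⟨s, hs⟩ + c • (r : ℂ) := h3
      rw [h4, smul_eq_mul]
      have h5 : (⟨S, 0⟩ : P →ₗ.[ℂ] ℂ) ⟨s, hs⟩ = 0 := rfl
      rw [h5, zero_add]
    rw [h2, norm_mul, Complex.norm_real, Real.norm_eq_abs, abs_of_pos hr]
    by_cases hc : c = 0
    · have h0 : ‖c‖ * r = 0 := by rw [hc, norm_zero, zero_mul]
      rw [h0]
      exact apply_nonneg q _
    · have h6 := hqx (-(c⁻¹ • s)) (S.neg_mem (S.smul_mem _ hs))
      have h7 : s + c • x = c • (x - -(c⁻¹ • s)) := by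
        rw [sub_neg_eq_add, smul_add, smul_smul, mul_inv_cancel₀ hc, one_smul, add_comm]
      change ‖c‖ * r ≤ q (s + c • x)
      rw [h7, map_smul_eq_mul]
      exact mul_le_mul_of_nonneg_left h6 (norm_nonneg c)
  obtain ⟨l, hl, -⟩ :=
    Module.Dual.exists_continuous_extension_of_le_seminorm g.domain g.toFun hqc hg
  have hSg : ∀ v ∈ S, ∀ c : ℂ, v + c • x ∈ g.domain := fun v hv c =>
    Submodule.add_mem_sup hv (Submodule.smul_mem _ c (Submodule.mem_span_singleton_self x))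
  have hval : ∀ v (hv : v ∈ S) (c : ℂ), l (v + c • x) = c * (r : ℂ) := by
    intro v hv c
    have h8 := hl ⟨v + c • x, hSg v hv c⟩
    have h3 := LinearPMap.supSpanSingleton_apply_mk (⟨S, 0⟩ : P →ₗ.[ℂ] ℂ) x (r : ℂ) hxS v hv c
    have h4 : g.toFun ⟨v + c • x, hSg v hv c⟩ =
        (⟨S, 0⟩ : P →ₗ.[ℂ] ℂ) ⟨v, hv⟩ + c • (r : ℂ) := h3
    have h5 : (⟨S, 0⟩ : P →ₗ.[ℂ] ℂ) ⟨v, hv⟩ = 0 := rfl
    rw [h4, h5, zero_add, smul_eq_mul] at h8
    exact h8
  refine ⟨l, ?_, ?_⟩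
  · intro v hv
    have h9 := hval v hv 0
    rwa [zero_smul, add_zero, zero_mul] at h9
  · have h10 := hval 0 S.zero_mem 1
    rw [zero_add, one_smul, one_mul] at h10
    rw [h10]
    exact_mod_cast hr.ne'

private theorem rge_closed (π : GLn n →* (P →L[ℂ] P)) (hπ : IsCW π) (S : Submodule ℂ P) (D : ℕ) :
    IsClosed ((S ⊓ Xd π D : Submodule ℂ P) : Set P) := by
  have hfin : FiniteDimensional ℂ (Xd π D) := Xd_finite π hπ D
  have h2 : FiniteDimensional ℂ (S ⊓ Xd π D : Submodule ℂ P) :=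
    Submodule.finiteDimensional_of_le inf_le_right
  exact Submodule.closed_of_finiteDimensional _

theorem avg_mem (π : GLn n →* (P →L[ℂ] P)) (hπ : IsCW π) (S : Submodule ℂ P)
    (hS : S ≤ VK π) (hK : ∀ (k : KU n), ∀ s ∈ S, π (k : GLn n) s ∈ S) (φ : KU n → ℂ)
    (T : P →L[ℂ] P) (D : ℕ) (hTD : ∀ v, T v ∈ Xd π D)
    (hT : ∀ (l : P →L[ℂ] ℂ) (v : P), l (T v) = ∫ k, φ k * l (π (k : GLn n) v) ∂(muK n))
    {s : P} (hs : s ∈ S) : T s ∈ S := by
  obtain ⟨D1, hD1⟩ := mem_VK.1 (hS hs)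
  by_contra hTs
  obtain ⟨l, hl, hlx⟩ := rge_sep (S ⊓ Xd π D1) (rge_closed π hπ S D1) (T s)
    (fun h => hTs h.1)
  apply hlx
  rw [hT]
  have h0 : ∀ k : KU n, φ k * l (π (k : GLn n) s) = 0 := by
    intro k
    rw [hl _ ⟨hK k s hs, Xd_K π k hD1⟩, mul_zero]
  simp [h0]

theorem genS_eq (hn : 0 < n) (π : GLn n →* (P →L[ℂ] P)) (hπ : IsCW π)
    (d : Mat n → P →L[ℂ] P) (hd : Der π d) (D0 : ℕ) (h0 : Xd π D0 ≠ ⊥) :
    genS π d hd D0 = VK π := by
  apply le_antisymm (genS_le π d hd D0)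
  intro v hv
  obtain ⟨D, hD⟩ := mem_VK.1 hv
  obtain ⟨φ, E, -, hE1, hE2, -, hE4, -⟩ := exists_avgE π hπ D
  have hcl : IsClosed (E ⁻¹' ((genS π d hd D0 ⊓ Xd π D : Submodule ℂ P) : Set P)) :=
    (rge_closed π hπ (genS π d hd D0) D).preimage E.continuous
  have hsub : (genS π d hd D0 : Set P) ⊆
      E ⁻¹' ((genS π d hd D0 ⊓ Xd π D : Submodule ℂ P) : Set P) := by
    intro s hs
    exact ⟨avg_mem π hπ (genS π d hd D0) (genS_le π d hd D0)
      (fun k s hs => genS_K π d hd D0 k hs) φ E D hE2 hE1 hs, hE2 s⟩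
  have hd' := genS_dense hn π hπ d hd D0 h0
  have hv' : v ∈ closure (genS π d hd D0 : Set P) := hd' v
  have h1 := closure_minimal hsub hcl hv'
  have h2 : E v ∈ (genS π d hd D0 ⊓ Xd π D : Submodule ℂ P) := h1
  rw [hE4 v hD] at h2
  exact h2.1

end

end Pool.Agent.Work.MP_dd0ddf_al.AR
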