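import Pool.Agent.Work.MP_dd0ddf_al.AR.VF
import Pool.Agent.Work.MP_dd0ddf_al.AR.Left
import Pool.Agent.Work.MP_dd0ddf_al.AR.DivR1
import Pool.Agent.Work.MP_dd0ddf_al.AR.Obj
import Pool.Agent.Work.MP_dd0ddf_al.AR.GSc

/-!
# StepR1 (S-M): `T (opB v (opA v F)) = κ T (<v,v> F)`

Apply `vf` on `Ω = Od ε (m+1)` (open) with `v = vv ε m`, `q = i v` (smooth, `InfH`: `infH_vv`,
`infH_smul` with the constant `i`).  `Xm v (i v) = 2 Zm v` (`Xm_I`), `opA (i v) = i opA v`,
`opB (i v) = - i opB v`, `<i v, v> - <v, i v> = 2 i <v,v>`: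
`2 T (dG (g Zm v) F) = (1/a)(i T(opB v opA v F) + i T (opB v opA v F)) + 2 i c1 T (<v,v> F)`.
On `Ω` `g Zm v = Y1 g · g` (`g⁻¹ g = 1`), `left_eq` with `Y1_upper`, `Y1_diag`, `divb_Y1 = 0` (on
`Ω`; `mG (divb Y1) F = 0` because `F` vanishes outside `Ω`), `Re (Y1 k k) = 0`,
`Im (Y1 m m) = <v,v>`: `T (dG (g Zm v) F) = γ'_m T (<v,v> F)`.  So
`(i/a) T (opB v opA v F) = (γ'_m - i c1) T (<v,v> F)`, `κ = (a/i)(γ'_m - i c1)`.
(If two vector fields agree on `Ω` and `F ∈ TFs Ω`, then `dG X F = dG X' F`: outside the support of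
`F` the derivative of `F` is zero.)
-/

set_option linter.unusedSectionVars false

namespace Pool.Agent.Work.MP_dd0ddf_al.AR

open scoped SchwartzMap Matrix.Norms.Elementwise ComplexConjugate ContDiff Topology LineDeriv
open Matrix MeasureTheory Filter

noncomputable section

variable {n : ℕ}

private theorem cut_mG {K Ω : Set (Mat n)} (hKΩ : K ⊆ Ω) {F : XX n → ℂ} (hF : F ∈ TFK K)
    {c c' : Mat n → ℂ} (h : ∀ g ∈ Ω, c g = c' g) : mG c F = mG c' F := by
  funext x
  unfold mG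
  by_cases hx : x.1 ∈ K
  · rw [h _ (hKΩ hx)]
  · rw [hF.2.2 x hx, mul_zero, mul_zero]

private theorem cut_dG {K Ω : Set (Mat n)} (hK : IsCompact K) (hKΩ : K ⊆ Ω) {F : XX n → ℂ}
    (hF : F ∈ TFK K) {X X' : Mat n → Mat n} (h : ∀ g ∈ Ω, X g = X' g) : dG X F = dG X' F := by
  funext x
  unfold dG
  by_cases hx : x.1 ∈ K
  · rw [h _ (hKΩ hx)]
  · have hopen : IsOpen {y : XX n | y.1 ∉ K} := hK.isClosed.isOpen_compl.preimage continuous_fst
    have hev : F =ᶠ[𝓝 x] fun _ => (0 : ℂ) := by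
      filter_upwards [hopen.mem_nhds hx] with y hy
      exact hF.2.2 y hy
    have h0 : fderiv ℝ F x = 0 := by
      rw [hev.fderiv_eq]
      exact fderiv_const_apply _
    rw [h0]
    rfl

theorem step_R1 {ε : Fin n → ℝ} {a : ℝ} (ha : a ≠ 0) {γ γ' : Fin n → ℂ} {c1 : ℂ} (m : Fin n)
    {T : (XX n → ℂ) →ₗ[ℂ] ℂ} {Ω : Set (Mat n)} (hΩo : IsOpen Ω) (hΩ : Ω ⊆ Od ε ((m : ℕ) + 1))
    (hS : Sys ε a γ γ' c1 Ω T) {F : XX n → ℂ} (hF : F ∈ TFs Ω) :
    T (opB ε a (vv ε m) (opA ε a (vv ε m) F)) =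
      (a / Complex.I * (γ' m - Complex.I * c1)) *
        T (mG (fun g => hf ε (vv ε m g) (vv ε m g)) F) := by
  obtain ⟨K, hK, hKΩ, hFK⟩ := id hF
  have hv : ContDiffOn ℝ ∞ (vv ε m) Ω := contDiffOn_vv hΩ
  have hvH : InfH ε Ω (vv ε m) := infH_vv hΩo hΩ
  have hc : ContDiffOn ℝ ∞ (fun _ : Mat n => Complex.I) Ω := contDiffOn_const
  have hq : ContDiffOn ℝ ∞ (fun g => Complex.I • vv ε m g) Ω := hc.smul hv
  have hqH : InfH ε Ω (fun g => Complex.I • vv ε m g) :=
    infH_smul hΩo hc hv (fun g _ p q => by rw [fderiv_const_apply]; rfl) hvH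
  have hA : opA ε a (vv ε m) F ∈ TFK K := opA_mem ε a hΩo hK hKΩ hv hFK
  -- the right hand side of the equation for the vector field
  have e1 := vf hΩo hS hv hq hvH hqH hF
  have eA : opA ε a (fun g => Complex.I • vv ε m g) F = Complex.I • opA ε a (vv ε m) F := by
    rw [opA_smul_row ε a (fun _ => Complex.I) (vv ε m) F]
    rfl
  have eB : opB ε a (fun g => Complex.I • vv ε m g) (opA ε a (vv ε m) F) =
      (-Complex.I) • opB ε a (vv ε m) (opA ε a (vv ε m) F) := by
    rw [opB_smul_row ε a (fun _ => Complex.I) (vv ε m) (opA ε a (vv ε m) F)]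
    funext x
    simp only [mG, Complex.conj_I, Pi.smul_apply, smul_eq_mul]
  have eN : mG (fun g => hf ε (Complex.I • vv ε m g) (vv ε m g) -
      hf ε (vv ε m g) (Complex.I • vv ε m g)) F =
      (2 * Complex.I) • mG (fun g => hf ε (vv ε m g) (vv ε m g)) F := by
    funext x
    have h1 : hf ε (Complex.I • vv ε m x.1) (vv ε m x.1) =
        Complex.I * hf ε (vv ε m x.1) (vv ε m x.1) := by
      unfold hf
      rw [Finset.mul_sum]
      refine Finset.sum_congr rfl fun j _ => ?_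
      simp only [Pi.smul_apply, smul_eq_mul]
      ring
    have h2 : hf ε (vv ε m x.1) (Complex.I • vv ε m x.1) =
        -(Complex.I * hf ε (vv ε m x.1) (vv ε m x.1)) := by
      unfold hf
      rw [Finset.mul_sum, ← Finset.sum_neg_distrib]
      refine Finset.sum_congr rfl fun j _ => ?_
      simp only [Pi.smul_apply, smul_eq_mul, map_mul, Complex.conj_I]
      ring
    simp only [mG, Pi.smul_apply, smul_eq_mul, h1, h2]
    ring
  rw [eA, eB, eN, opB_smul ε a (vv ε m) Complex.I hA, map_smul, map_smul, map_smul] at e1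
  -- the left hand side
  have eX : dG (fun g => g * Xm ε (vv ε m g) (Complex.I • vv ε m g)) F =
      dG (fun g => Y1 ε m g * g) F + dG (fun g => Y1 ε m g * g) F := by
    rw [← dG_add_field]
    refine cut_dG hK hKΩ hFK fun g hg => ?_
    have hdet : g.det ≠ 0 := (hΩ hg).1
    have hinv : g⁻¹ * g = 1 := Matrix.nonsing_inv_mul g (isUnit_iff_ne_zero.2 hdet)
    have h1 : Y1 ε m g * g = g * Zm ε (vv ε m g) := by
      unfold Y1
      rw [Matrix.mul_assoc, hinv, Matrix.mul_one]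
    rw [h1, Xm_I, two_smul, Matrix.mul_add]
  have e2 := left_eq hΩo hS ((contDiffOn_Y1 ε m).mono hΩ)
    (fun g hg k l hkl => Y1_upper (hΩ hg) hkl) hF
  have eD : mG (divb (Y1 ε m)) F = 0 := by
    rw [cut_mG hKΩ hFK (c' := fun _ => 0) fun g hg => divb_Y1 (hΩ hg)]
    funext x
    simp [mG]
  have eR : ∀ k, mG (fun g => ((Y1 ε m g k k).re : ℂ)) F = 0 := by
    intro k
    rw [cut_mG hKΩ hFK (c' := fun _ => 0) fun g hg => ?_]
    · funext x
      simp [mG]
    · rw [Y1_diag (hΩ hg) k]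
      split_ifs with hk
      · simp [Complex.mul_re, ss_self_im (hΩ hg)]
      · simp
  have eI : ∀ k, mG (fun g => ((Y1 ε m g k k).im : ℂ)) F =
      if k = m then mG (fun g => hf ε (vv ε m g) (vv ε m g)) F else 0 := by
    intro k
    split_ifs with hk
    · refine cut_mG hKΩ hFK fun g hg => ?_
      rw [Y1_diag (hΩ hg) k, if_pos hk, ← ss_self (hΩ hg)]
      apply Complex.ext
      · simp [Complex.mul_im]
      · rw [ss_self_im (hΩ hg)]
        simp
    · rw [cut_mG hKΩ hFK (c' := fun _ => 0) fun g hg => ?_]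
      · funext x
        simp [mG]
      · rw [Y1_diag (hΩ hg) k, if_neg hk]
        simp
  have e3 : T (dG (fun g => Y1 ε m g * g) F) =
      γ' m * T (mG (fun g => hf ε (vv ε m g) (vv ε m g)) F) := by
    rw [e2, eD, map_zero, sub_zero]
    rw [Finset.sum_eq_single m]
    · rw [eR, eI, if_pos rfl, map_zero, mul_zero, zero_add]
    · intro k _ hk
      rw [eR, eI, if_neg hk, map_zero, mul_zero, mul_zero, add_zero]
    · intro h
      exact absurd (Finset.mem_univ m) h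
  rw [eX, map_add, e3] at e1
  have haC : (a : ℂ) ≠ 0 := Complex.ofReal_ne_zero.2 ha
  have hI : Complex.I ≠ 0 := Complex.I_ne_zero
  simp only [smul_eq_mul] at e1
  have e4 : γ' m * T (mG (fun g => hf ε (vv ε m g) (vv ε m g)) F) =
      Complex.I / a * T (opB ε a (vv ε m) (opA ε a (vv ε m) F)) +
        Complex.I * c1 * T (mG (fun g => hf ε (vv ε m g) (vv ε m g)) F) := by
    linear_combination (1 / 2 : ℂ) * e1
  have e5 : (a : ℂ) / Complex.I * (Complex.I / a) = 1 := by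
    field_simp
  linear_combination (-(a : ℂ) / Complex.I) * e4 -
    T (opB ε a (vv ε m) (opA ε a (vv ε m) F)) * e5

end

end Pool.Agent.Work.MP_dd0ddf_al.AR
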