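import Pool.Agent.Work.MP_dd0ddf_al.AR.LCont

/-!
# TEx (S-M): the distribution `T(F) = ∫ L(F(·,t))(t) dt`

* `exists_T`: the set `TFs (GLs n)` is a submodule (`TFs_zero`, `TFs_add`, `TFs_smul`); on it
  `F ↦ ∫ L(F(·,t))(t) dt` is linear (`eval_integrable`, `L` linear); extend it to a linear functional
  on all functions: `LinearMap.exists_extend`.
* `isDist_T`: for `F ∈ TFK K` with derivatives of order `≤ M` bounded by `B`: `L_bound` with
  `N = n + 1` for the slices (`slice_mem`, `slice_bound`):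
  `|L(F_t)(t)| ≤ C B (1 + ‖t‖)^{-(n+1)}`, integrable on `ℝ^n` (`integrable_one_add_norm` with
  exponent `n + 1 > finrank`), so `|T F| ≤ C' B`.
-/

set_option linter.unusedSectionVars false

namespace Pool.Agent.Work.MP_dd0ddf_al.AR

open scoped SchwartzMap Matrix.Norms.Elementwise ComplexConjugate ContDiff Topology LineDeriv
open Matrix MeasureTheory Filter

noncomputable section

variable {n : ℕ}

theorem exists_T {L : (Mat n → ℂ) →ₗ[ℂ] Sch n} (hL : ContTG L) :
    ∃ T : (XX n → ℂ) →ₗ[ℂ] ℂ, IsTof L T := by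
  let p : Submodule ℂ (XX n → ℂ) :=
    { carrier := TFs (GLs n)
      add_mem' := fun hF hG => TFs_add hF hG
      zero_mem' := TFs_zero
      smul_mem' := fun c _ hF => TFs_smul c hF }
  let T0 : p →ₗ[ℂ] ℂ :=
    { toFun := fun F => ∫ t : Fin n → ℝ, L (fun g => F.1 (g, t)) t
      map_add' := by
        intro F G
        have h : ∀ t : Fin n → ℝ, L (fun g => (F + G).1 (g, t)) t =
            L (fun g => F.1 (g, t)) t + L (fun g => G.1 (g, t)) t := by
          intro t
          have e : (fun g => (F + G).1 (g, t)) = (fun g => F.1 (g, t)) + fun g => G.1 (g, t) := rfl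
          rw [e, map_add]
          rfl
        simp only [h]
        exact integral_add (eval_integrable hL F.2) (eval_integrable hL G.2)
      map_smul' := by
        intro c F
        have h : ∀ t : Fin n → ℝ, L (fun g => (c • F).1 (g, t)) t =
            c • L (fun g => F.1 (g, t)) t := by
          intro t
          have e : (fun g => (c • F).1 (g, t)) = c • (fun g => F.1 (g, t)) := rfl
          rw [e, map_smul]
          rfl
        simp only [h]
        exact integral_smul c _ }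
  obtain ⟨T, hT⟩ := LinearMap.exists_extend T0
  refine ⟨T, ?_⟩
  intro F hF
  have h := LinearMap.congr_fun hT (⟨F, hF⟩ : p)
  exact h

theorem isDist_T {L : (Mat n → ℂ) →ₗ[ℂ] Sch n} (hL : ContTG L) {T : (XX n → ℂ) →ₗ[ℂ] ℂ}
    (hT : IsTof L T) : IsDist (GLs n) T := by
  intro K hK hKG
  obtain ⟨C, M, hC⟩ := L_bound hL hK hKG (n + 1)
  refine ⟨C * ∫ t : Fin n → ℝ, (1 + ‖t‖) ^ (-((n : ℝ) + 1)), M, ?_⟩
  intro F hF B hB
  have hint : Integrable (fun t : Fin n → ℝ => (1 + ‖t‖) ^ (-((n : ℝ) + 1))) := by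
    apply integrable_one_add_norm
    simp
  rw [hT F ⟨K, hK, hKG, hF⟩]
  have key : ∀ t : Fin n → ℝ, ‖L (fun g => F (g, t)) t‖ ≤
      (C * B) * (1 + ‖t‖) ^ (-((n : ℝ) + 1)) := by
    intro t
    have h1 := hC (fun g => F (g, t)) (slice_mem hF t) B
      (fun m hm g => (slice_bound hF t m g).trans (hB m hm (g, t))) t
    have hpos : (0 : ℝ) < 1 + ‖t‖ := by positivity
    have h2 : (1 + ‖t‖) ^ (-((n : ℝ) + 1)) = ((1 + ‖t‖) ^ (n + 1))⁻¹ := by
      rw [Real.rpow_neg hpos.le]
      congr 1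
      have : ((n : ℝ) + 1) = ((n + 1 : ℕ) : ℝ) := by push_cast; ring
      rw [this, Real.rpow_natCast]
    rw [h2, ← div_eq_mul_inv, le_div_iff₀ (by positivity), mul_comm]
    exact h1
  calc ‖∫ t : Fin n → ℝ, L (fun g => F (g, t)) t‖
      ≤ ∫ t : Fin n → ℝ, (C * B) * (1 + ‖t‖) ^ (-((n : ℝ) + 1)) :=
        norm_integral_le_of_norm_le (hint.const_mul _) (Eventually.of_forall key)
    _ = (C * ∫ t : Fin n → ℝ, (1 + ‖t‖) ^ (-((n : ℝ) + 1))) * B := by
        rw [integral_const_mul]
        ring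

end

end Pool.Agent.Work.MP_dd0ddf_al.AR
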