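import Pool.Agent.Work.MP_dd0ddf_al.AR.LCont
import Pool.Agent.Work.MP_dd0ddf_al.AR.TEx
import Pool.Agent.Work.MP_dd0ddf_al.AR.ParB

/-!
# TInt (M): integration by parts on the diagonal

`y_t = L(F(·,t)) ∈ Sch n`.
* `int_dT`: for real `τ`, `F^τ(g,t) = F(g, t + τ e_j)`: `∫ L(F(·, t + τ e_j))(t) dt
  = ∫ y_t(t - τ e_j) dt` (translation invariance, `integral_add_right_eq_self`).  Differentiate at
  `τ = 0`.  Left side: `T(F^τ)` with `T` from `exists_T`; by `hasFDerivAt_T` (with `P = ℝ`,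
  `isDist_T`) its derivative is `T(dT j F) = ∫ L((dT j F)(·,t))(t) dt`.  Right side: dominated
  convergence: `|y_t(t - τ e_j) - y_t(t)| ≤ C |τ|` for `t` in the (compact) set where
  `F(·,t) ≠ 0` (`L_slice_sup`, `slice_supp`), pointwise derivative `- (td j y_t)(t)`.
  So `∫ L((dT j F)(·,t))(t) dt = - ∫ (td j y_t)(t) dt`.
* `L((t_j F)(·,t))(t) = t_j y_t(t) = (tm j y_t)(t)` (`L` is linear; `smulLeftCLM_apply_apply`,
  the coordinate function has temperate growth).
* `int_opA`: `opA r F = - ∑ ε_j r_j (1/2) (dT j F + 2 a ε_j t_j F)`, so the integral is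
  `∑ ε_j r_j (1/2) (∫ (td j y_t)(t) dt - 2 a ε_j ∫ (tm j y_t)(t) dt) = ∫ (AA r y_t)(t) dt`
  (all functions integrable: apply `eval_integrable` to the continuous maps `td j ∘ L`, `tm j ∘ L`,
  which are again `ContTG`: `contTG_comp`).
-/

set_option linter.unusedSectionVars false

namespace Pool.Agent.Work.MP_dd0ddf_al.AR

open scoped SchwartzMap Matrix.Norms.Elementwise ComplexConjugate ContDiff Topology LineDeriv
open Matrix MeasureTheory Filter

noncomputable section

variable {n : ℕ}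

theorem contTG_comp {P Q : Type*} [AddCommGroup P] [Module ℂ P] [TopologicalSpace P]
    [AddCommGroup Q] [Module ℂ Q] [TopologicalSpace Q] {A : (Mat n → ℂ) →ₗ[ℂ] P}
    (hA : ContTG A) (φ : P →L[ℂ] Q) : ContTG ((φ : P →ₗ[ℂ] Q).comp A) := by
  intro K hK hKG U hU
  have hU' : φ ⁻¹' U ∈ 𝓝 (0 : P) := by
    have h : Tendsto φ (𝓝 0) (𝓝 (φ 0)) := φ.continuous.continuousAt
    rw [map_zero] at h
    exact h hU
  obtain ⟨δ, M, hδ, h⟩ := hA K hK hKG _ hU'
  exact ⟨δ, M, hδ, fun f hf hb => h f hf hb⟩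

private theorem ti_tm (j : Fin n) (y : Sch n) (t : Fin n → ℝ) : tm j y t = (t j : ℂ) * y t := by
  have h : (fun t : Fin n → ℝ => ((t j : ℝ) : ℂ)).HasTemperateGrowth := by
    have h1 := (Complex.ofRealCLM.comp
      (ContinuousLinearMap.proj (R := ℝ) (φ := fun _ : Fin n => ℝ) j)).hasTemperateGrowth
    exact h1
  unfold tm
  rw [SchwartzMap.smulLeftCLM_apply_apply h, smul_eq_mul]

private theorem ti_td (j : Fin n) (y : Sch n) (t : Fin n → ℝ) :
    td j y t = fderiv ℝ y t (Pi.single j 1) := by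
  unfold td
  rw [LineDeriv.lineDerivOpCLM_apply]
  exact SchwartzMap.lineDerivOp_apply_eq_fderiv _ _ _

private theorem ti_mem {K : Set (Mat n)} {F : XX n → ℂ} (hF : F ∈ TFK K) (e : Fin n → ℝ) :
    (fun x : XX n => F (x.1, x.2 + e)) ∈ TFK K := by
  refine ⟨hF.1.comp (contDiff_fst.prodMk (contDiff_snd.add contDiff_const)), ?_,
    fun x hx => hF.2.2 _ hx⟩
  have h1 : (fun x : XX n => F (x.1, x.2 + e)) =
      F ∘ (Homeomorph.addRight ((0 : Mat n), e)) := by
    funext x
    show F (x.1, x.2 + e) = F (x + (0, e))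
    congr 1
    ext1
    · show x.1 = x.1 + 0
      rw [add_zero]
    · rfl
  rw [h1]
  exact hF.2.1.comp_homeomorph _

private theorem ti_int_dT {L : (Mat n → ℂ) →ₗ[ℂ] Sch n} (hL : ContTG L) (j : Fin n)
    {F : XX n → ℂ} (hF : F ∈ TFs (GLs n)) :
    ∫ t : Fin n → ℝ, L (fun g => dT j F (g, t)) t =
      - ∫ t : Fin n → ℝ, (td j (L (fun g => F (g, t)))) t := by
  obtain ⟨K, hK, hKG, hFK⟩ := hF
  obtain ⟨T, hT⟩ := exists_T hL
  have hTK : IsDistK K T := isDist_T hL hT K hK hKG
  obtain ⟨R, hR⟩ := slice_supp hFK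
  obtain ⟨e, he⟩ : ∃ e : Fin n → ℝ, e = Pi.single j 1 := ⟨_, rfl⟩
  have hsh : ∀ τ : ℝ, (fun x : XX n => F (x.1, x.2 + τ • e)) ∈ TFK K := fun τ => ti_mem hFK _
  obtain ⟨A, hA⟩ : ∃ A : (ℝ × XX n) →L[ℝ] XX n, ∀ q, A q = (q.2.1, q.2.2 + q.1 • e) :=
    ⟨((ContinuousLinearMap.fst ℝ (Mat n) (Fin n → ℝ)).comp
      (ContinuousLinearMap.snd ℝ ℝ (XX n))).prod
      (((ContinuousLinearMap.snd ℝ (Mat n) (Fin n → ℝ)).comp
      (ContinuousLinearMap.snd ℝ ℝ (XX n))) + (ContinuousLinearMap.fst ℝ ℝ (XX n)).smulRight e),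
      fun q => rfl⟩
  have hΦe : (fun q : ℝ × XX n => F (q.2.1, q.2.2 + q.1 • e)) = F ∘ A := by
    funext q
    rw [Function.comp_apply, hA]
  have hΦ : ContDiff ℝ ∞ (fun q : ℝ × XX n => F (q.2.1, q.2.2 + q.1 • e)) := by
    rw [hΦe]
    exact hFK.1.comp A.contDiff
  obtain ⟨D, hD1, hD2⟩ := hasFDerivAt_T (P := ℝ) hK hTK hΦ (fun p x hx => hFK.2.2 _ hx) 0
    (V := Metric.ball 0 1) (Metric.ball_mem_nhds _ one_pos) (R + ‖e‖) (by
      intro q hq x hx
      have h1 : R < ‖x.2 + q • e‖ := by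
        have h2 : ‖x.2‖ ≤ ‖x.2 + q • e‖ + ‖q • e‖ := by
          have := norm_sub_le (x.2 + q • e) (q • e)
          rwa [add_sub_cancel_right] at this
        have h3 : ‖q • e‖ ≤ ‖e‖ := by
          rw [norm_smul]
          rw [mem_ball_zero_iff] at hq
          calc ‖q‖ * ‖e‖ ≤ 1 * ‖e‖ := mul_le_mul_of_nonneg_right hq.le (norm_nonneg _)
            _ = ‖e‖ := one_mul _
        linarith
      exact congrFun (hR _ h1) x.1)
  have hD : HasDerivAt (fun τ : ℝ => T (fun x => F (x.1, x.2 + τ • e))) (D 1) 0 :=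
    hD2.hasDerivAt
  have hD' : D 1 = ∫ t : Fin n → ℝ, L (fun g => dT j F (g, t)) t := by
    rw [hD1 1]
    have h1 : (fun x => fderiv ℝ (fun q : ℝ × XX n => F (q.2.1, q.2.2 + q.1 • e)) (0, x) (1, 0)) =
        dT j F := by
      funext x
      rw [hΦe]
      have hAx : A (0, x) = x := by
        rw [hA]
        show (x.1, x.2 + (0 : ℝ) • e) = x
        rw [zero_smul, add_zero]
      have hA1 : A (1, 0) = (0, e) := by
        rw [hA]
        show ((0 : Mat n), (0 : Fin n → ℝ) + (1 : ℝ) • e) = (0, e)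
        rw [one_smul, zero_add]
      have hd : DifferentiableAt ℝ F (A (0, x)) :=
        (hFK.1.differentiable (by simp)).differentiableAt
      have h9 : HasFDerivAt (F ∘ A) ((fderiv ℝ F (A (0, x))).comp A) (0, x) :=
        hd.hasFDerivAt.comp (0, x) A.hasFDerivAt
      refine (congrArg (fun D : (ℝ × XX n) →L[ℝ] ℂ => D (1, 0)) h9.fderiv).trans ?_
      show fderiv ℝ F (A (0, x)) (A (1, 0)) = dT j F x
      rw [hA1, hAx, he]
      rfl
    rw [h1]
    exact hT _ ⟨K, hK, hKG, dT_mem hK j hFK⟩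
  have hTe : ∀ τ : ℝ, T (fun x => F (x.1, x.2 + τ • e)) =
      ∫ t : Fin n → ℝ, L (fun g => F (g, t)) (t - τ • e) := by
    intro τ
    have h1 := hT _ (⟨K, hK, hKG, hsh τ⟩ : (fun x : XX n => F (x.1, x.2 + τ • e)) ∈ TFs (GLs n))
    rw [h1]
    have h2 := integral_sub_right_eq_self (μ := (volume : Measure (Fin n → ℝ)))
      (fun t : Fin n → ℝ => L (fun g => F (g, t + τ • e)) t) (τ • e)
    rw [← h2]
    simp only [sub_add_cancel]
  have hcont : ∀ τ : ℝ, Continuous fun t : Fin n → ℝ => L (fun g => F (g, t)) (t - τ • e) := by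
    intro τ
    have h1 := (eval_cont hL hK hKG (hsh τ)).1
    have h2 := h1.comp (continuous_id.sub (continuous_const (y := τ • e)))
    have h3 : (fun t : Fin n → ℝ => L (fun g => F (g, t)) (t - τ • e)) =
        (fun t : Fin n → ℝ => L (fun g => F (g, t + τ • e)) t) ∘ (fun t => id t - τ • e) := by
      funext t
      simp only [Function.comp_apply, id_eq, sub_add_cancel]
    rw [h3]
    exact h2
  obtain ⟨C, hC⟩ := L_slice_sup hL hK hKG hFK j
  have hC0 : ∀ t : Fin n → ℝ, R < ‖t‖ → L (fun g => F (g, t)) = 0 := by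
    intro t ht
    rw [hR t ht, map_zero]
  have hder := hasDerivAt_integral_of_dominated_loc_of_deriv_le (μ := (volume : Measure (Fin n → ℝ)))
    (F := fun (τ : ℝ) (t : Fin n → ℝ) => L (fun g => F (g, t)) (t - τ • e))
    (F' := fun (τ : ℝ) (t : Fin n → ℝ) => -(td j (L (fun g => F (g, t)))) (t - τ • e))
    (x₀ := (0 : ℝ)) (s := Set.univ)
    (bound := (Metric.closedBall (0 : Fin n → ℝ) R).indicator (fun _ => C))
    univ_mem
    (Filter.Eventually.of_forall fun τ => (hcont τ).aestronglyMeasurable)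
    (by
      have h1 := eval_integrable hL ⟨K, hK, hKG, hFK⟩
      simpa only [zero_smul, sub_zero] using h1)
    (by
      have h1 := (eval_cont (contTG_comp hL (td j)) hK hKG hFK).1
      have h2 : Continuous fun t : Fin n → ℝ => -(td j (L (fun g => F (g, t)))) (t - (0 : ℝ) • e) := by
        simp only [zero_smul, sub_zero]
        exact h1.neg
      exact h2.aestronglyMeasurable)
    (Filter.Eventually.of_forall fun t τ _ => by
      show ‖-(td j (L (fun g => F (g, t)))) (t - τ • e)‖ ≤ _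
      rw [norm_neg]
      by_cases ht : t ∈ Metric.closedBall (0 : Fin n → ℝ) R
      · rw [Set.indicator_of_mem ht]
        exact (hC t _).2
      · rw [Set.indicator_of_notMem ht]
        rw [mem_closedBall_zero_iff, not_le] at ht
        rw [hC0 t ht, map_zero]
        simp)
    ((continuousOn_const.integrableOn_compact
      (isCompact_closedBall (0 : Fin n → ℝ) R)).integrable_indicator measurableSet_closedBall)
    (Filter.Eventually.of_forall fun t τ _ => by
      have h1 : HasDerivAt (fun τ : ℝ => t - τ • e) (-e) τ := by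
        have h := ((hasDerivAt_id τ).smul_const e).const_sub t
        rw [one_smul] at h
        exact h
      have h2 : HasFDerivAt (L (fun g => F (g, t)) : (Fin n → ℝ) → ℂ)
          (fderiv ℝ (L (fun g => F (g, t))) (t - τ • e)) (t - τ • e) :=
        (L (fun g => F (g, t))).differentiableAt.hasFDerivAt
      have h3 := h2.comp_hasDerivAt τ h1
      have h4 : (fderiv ℝ (L (fun g => F (g, t))) (t - τ • e)) (-e) =
          -(td j (L (fun g => F (g, t)))) (t - τ • e) := by
        rw [map_neg, ti_td, he]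
      rw [h4] at h3
      exact h3)
  have hder2 := hder.2
  simp only [← hTe, zero_smul, sub_zero] at hder2
  have h5 := hD.unique hder2
  rw [hD'] at h5
  rw [h5, integral_neg]

private theorem ti_td_int {L : (Mat n → ℂ) →ₗ[ℂ] Sch n} (hL : ContTG L) (j : Fin n)
    {F : XX n → ℂ} (hF : F ∈ TFs (GLs n)) :
    Integrable fun t : Fin n → ℝ => (td j (L (fun g => F (g, t)))) t :=
  eval_integrable (contTG_comp hL (td j)) hF

private theorem ti_tm_int {L : (Mat n → ℂ) →ₗ[ℂ] Sch n} (hL : ContTG L) (j : Fin n)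
    {F : XX n → ℂ} (hF : F ∈ TFs (GLs n)) :
    Integrable fun t : Fin n → ℝ => (tm j (L (fun g => F (g, t)))) t :=
  eval_integrable (contTG_comp hL (tm j)) hF

private theorem ti_dT_int {L : (Mat n → ℂ) →ₗ[ℂ] Sch n} (hL : ContTG L) (j : Fin n)
    {F : XX n → ℂ} (hF : F ∈ TFs (GLs n)) :
    Integrable fun t : Fin n → ℝ => L (fun g => dT j F (g, t)) t := by
  obtain ⟨K, hK, hKG, hFK⟩ := hF
  exact eval_integrable hL ⟨K, hK, hKG, dT_mem hK j hFK⟩

private theorem ti_gen {L : (Mat n → ℂ) →ₗ[ℂ] Sch n} (hL : ContTG L)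
    {F : XX n → ℂ} (hF : F ∈ TFs (GLs n)) (p d : Fin n → ℂ) :
    ∫ t : Fin n → ℝ, L (fun g => -∑ j, p j * ((1 / 2) * (dT j F (g, t) + d j * (t j : ℂ) *
        F (g, t)))) t =
      ∫ t : Fin n → ℝ, ∑ j, (p j * (1 / 2)) * ((td j (L (fun g => F (g, t)))) t -
        d j * (tm j (L (fun g => F (g, t)))) t) := by
  have e1 : ∀ t : Fin n → ℝ, L (fun g => -∑ j, p j * ((1 / 2) * (dT j F (g, t) +
      d j * (t j : ℂ) * F (g, t)))) t = ∑ j, (-(p j * (1 / 2))) * (L (fun g => dT j F (g, t)) t +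
        d j * (tm j (L (fun g => F (g, t)))) t) := by
    intro t
    have h1 : (fun g => -∑ j, p j * ((1 / 2) * (dT j F (g, t) + d j * (t j : ℂ) * F (g, t)))) =
        ∑ j, (-(p j * (1 / 2))) • ((fun g => dT j F (g, t)) +
          (d j * (t j : ℂ)) • (fun g => F (g, t))) := by
      funext g
      rw [Finset.sum_apply, ← Finset.sum_neg_distrib]
      apply Finset.sum_congr rfl
      intro j _
      simp only [Pi.smul_apply, Pi.add_apply, smul_eq_mul]
      ring
    rw [h1, map_sum]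
    simp only [map_smul, map_add, _root_.sum_apply, _root_.smul_apply, _root_.add_apply,
      smul_eq_mul, ti_tm]
    apply Finset.sum_congr rfl
    intro j _
    ring
  simp only [e1]
  rw [integral_finsetSum, integral_finsetSum]
  · apply Finset.sum_congr rfl
    intro j _
    rw [integral_const_mul, integral_const_mul, integral_add (ti_dT_int hL j hF)
      ((ti_tm_int hL j hF).const_mul _), integral_sub (ti_td_int hL j hF)
      ((ti_tm_int hL j hF).const_mul _), ti_int_dT hL j hF]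
    ring
  · intro j _
    exact ((ti_td_int hL j hF).sub ((ti_tm_int hL j hF).const_mul _)).const_mul _
  · intro j _
    exact ((ti_dT_int hL j hF).add ((ti_tm_int hL j hF).const_mul _)).const_mul _

theorem int_opA (ε : Fin n → ℝ) (a : ℝ) {L : (Mat n → ℂ) →ₗ[ℂ] Sch n} (hL : ContTG L)
    (r : Fin n → ℂ) {F : XX n → ℂ} (hF : F ∈ TFs (GLs n)) :
    ∫ t : Fin n → ℝ, L (fun g => opA ε a (fun _ => r) F (g, t)) t =
      ∫ t : Fin n → ℝ, (AA ε a r (L (fun g => F (g, t)))) t := by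
  have h := ti_gen hL hF (fun j => (ε j : ℂ) * r j) (fun j => 2 * a * ε j)
  have e1 : ∀ t : Fin n → ℝ, (fun g => opA ε a (fun _ => r) F (g, t)) =
      fun g => -∑ j, (ε j : ℂ) * r j * ((1 / 2) * (dT j F (g, t) + 2 * a * ε j * (t j : ℂ) *
        F (g, t))) := fun t => rfl
  have e2 : ∀ t : Fin n → ℝ, (AA ε a r (L (fun g => F (g, t)))) t =
      ∑ j, ((ε j : ℂ) * r j * (1 / 2)) * ((td j (L (fun g => F (g, t)))) t -
        2 * a * ε j * (tm j (L (fun g => F (g, t)))) t) := by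
    intro t
    unfold AA
    simp only [_root_.sum_apply, _root_.smul_apply, _root_.sub_apply, smul_eq_mul]
  simp only [e1, e2]
  exact h

theorem int_opB (ε : Fin n → ℝ) (a : ℝ) {L : (Mat n → ℂ) →ₗ[ℂ] Sch n} (hL : ContTG L)
    (r : Fin n → ℂ) {F : XX n → ℂ} (hF : F ∈ TFs (GLs n)) :
    ∫ t : Fin n → ℝ, L (fun g => opB ε a (fun _ => r) F (g, t)) t =
      ∫ t : Fin n → ℝ, (BB ε a r (L (fun g => F (g, t)))) t := by
  have h := ti_gen hL hF (fun j => (ε j : ℂ) * conj (r j)) (fun j => -(2 * a * ε j))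
  have e1 : ∀ t : Fin n → ℝ, (fun g => opB ε a (fun _ => r) F (g, t)) =
      fun g => -∑ j, (ε j : ℂ) * conj (r j) * ((1 / 2) * (dT j F (g, t) +
        -(2 * a * ε j) * (t j : ℂ) * F (g, t))) := by
    intro t
    funext g
    unfold opB
    congr 1
    apply Finset.sum_congr rfl
    intro j _
    ring
  have e2 : ∀ t : Fin n → ℝ, (BB ε a r (L (fun g => F (g, t)))) t =
      ∑ j, ((ε j : ℂ) * conj (r j) * (1 / 2)) * ((td j (L (fun g => F (g, t)))) t -
        -(2 * a * ε j) * (tm j (L (fun g => F (g, t)))) t) := by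
    intro t
    unfold BB
    simp only [_root_.sum_apply, _root_.smul_apply, _root_.add_apply, smul_eq_mul]
    apply Finset.sum_congr rfl
    intro j _
    ring
  simp only [e1, e2]
  exact h

end

end Pool.Agent.Work.MP_dd0ddf_al.AR
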