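import Pool.Agent.Work.MP_dd0ddf_al.AR.SysX
import Pool.Agent.Work.MP_dd0ddf_al.AR.Inf

/-!
# VF (M): the equation for the vector fields `g ↦ g X(g)`, `X(g) = Xm (v g) (q g)`

`x X = <x,v> q - <x,q> v`.  With `u_jl = conj(v_j) q_l`:
`Xm v q = ∑_{j,l} Xm (e_j) (u_jl e_l)` and
`Xm (e_j) (u e_l) = Re u · Xm (e_j) (e_l) + Im u · Xm (e_j) (i e_l)`, `e_j = Pi.single j 1`.
So, with `Z_jl = Xm e_j e_l`, `Z'_jl = Xm e_j (i e_l)` (constant):
`dG (g X) F = ∑ [ Re u_jl dG (g Z_jl) F + Im u_jl dG (g Z'_jl) F ]`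
`= ∑ [ dG (g Z_jl) (Re u_jl F) - (D Re u_jl [g Z_jl]) F + dG (g Z'_jl) (Im u_jl F) - (D Im u_jl [g Z'_jl]) F ]`
(`dG_mG`).  The last terms sum to `0`: by `InfH`
`D u_jl [g Z] = conj((v Z)_j) q_l + conj(v_j) (q Z)_l`,
`x Z_jl = ε_j x_j e_l - ε_l x_l e_j`, `x Z'_jl = i ε_j x_j e_l + i ε_l x_l e_j`; so for `j ≠ l`:
`Re D u_jl[g Z_jl] + Im D u_jl[g Z'_jl] = 2 Re(ε_j conj(v_j) q_j - ε_l conj(v_l) q_l)`, antisymmetric
in `(j,l)`; for `j = l`: `Z_jj = 0` and `D u_jj[g Z'_jj] = conj(2 i ε_j v_j) q_j + conj(v_j) 2 i ε_j q_j = 0`.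
By `sys_X` (`p = e_j`, `q = e_l` resp. `i e_l`) applied to `Re u_jl F`, `Im u_jl F ∈ TFs Ω` and
linearity (`opA (c•r) F = mG c (opA r F)`, `opB (c•r) F = mG (conj c) (opB r F)`, `opA_mG`, `opB_mG`,
sums over rows `v = ∑ v_j e_j`):
`∑ (1/a) (opB e_j opA e_l (u_jl F) - opB e_l opA e_j (conj(u_jl) F)) = (1/a) (opB v opA q F - opB q opA v F)`
and `∑ c1 (u_jl hf(e_l, e_j) - conj(u_jl) hf(e_j, e_l)) F = c1 (<q,v> - <v,q>) F`.
-/

set_option linter.unusedSectionVars false

namespace Pool.Agent.Work.MP_dd0ddf_al.AR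

open scoped SchwartzMap Matrix.Norms.Elementwise ComplexConjugate ContDiff Topology LineDeriv
open Matrix MeasureTheory Filter

noncomputable section

variable {n : ℕ}

private theorem vf_hf_single (ε : Fin n → ℝ) (l j : Fin n) :
    hf ε (Pi.single l 1) (Pi.single j 1) = if l = j then (ε j : ℂ) else 0 := by
  unfold hf
  rw [Finset.sum_eq_single j]
  · rw [Pi.single_eq_same, map_one, mul_one, Pi.single_apply]
    by_cases h : j = l
    · rw [if_pos h, if_pos h.symm, mul_one]
    · rw [if_neg h, if_neg (fun h' => h h'.symm), mul_zero]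
  · intro i _ hi
    rw [Pi.single_eq_of_ne hi, map_zero, mul_zero]
  · intro h
    exact absurd (Finset.mem_univ j) h

private theorem vf_hf_right (ε : Fin n → ℝ) (x : Fin n → ℂ) (j : Fin n) :
    hf ε x (Pi.single j 1) = (ε j : ℂ) * x j := by
  unfold hf
  rw [Finset.sum_eq_single j]
  · rw [Pi.single_eq_same, map_one, mul_one]
  · intro i _ hi
    rw [Pi.single_eq_of_ne hi, map_zero, mul_zero]
  · intro h
    exact absurd (Finset.mem_univ j) h

private theorem vf_hf_smul_right (ε : Fin n → ℝ) (c : ℂ) (x y : Fin n → ℂ) :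
    hf ε x (c • y) = conj c * hf ε x y := by
  unfold hf
  rw [Finset.mul_sum]
  refine Finset.sum_congr rfl fun j _ => ?_
  rw [Pi.smul_apply, smul_eq_mul, map_mul]
  ring

private theorem vf_hf_smul_left (ε : Fin n → ℝ) (c : ℂ) (x y : Fin n → ℂ) :
    hf ε (c • x) y = c * hf ε x y := by
  unfold hf
  rw [Finset.mul_sum]
  refine Finset.sum_congr rfl fun j _ => ?_
  rw [Pi.smul_apply, smul_eq_mul]
  ring

private theorem vf_Xm_single (ε : Fin n → ℝ) (c : ℂ) (j l a b : Fin n) :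
    Xm ε (Pi.single j 1) (c • Pi.single l 1) a b =
      (ε a : ℂ) * c * ((Pi.single j 1 : Fin n → ℂ) a * (Pi.single l 1 : Fin n → ℂ) b) -
      ε a * conj c * ((Pi.single l 1 : Fin n → ℂ) a * (Pi.single j 1 : Fin n → ℂ) b) := by
  have h1 : ∀ i k : Fin n, conj ((Pi.single i 1 : Fin n → ℂ) k) =
      (Pi.single i 1 : Fin n → ℂ) k := by
    intro i k
    rw [Pi.single_apply]
    split_ifs
    · exact map_one _
    · exact map_zero _
  unfold Xm
  rw [Matrix.of_apply, Pi.smul_apply, Pi.smul_apply, smul_eq_mul, smul_eq_mul, map_mul, h1, h1]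
  ring

private theorem vf_expand0 (ε : Fin n → ℝ) (p q : Fin n → ℂ) :
    Xm ε p q = ∑ j, ∑ l, ((conj (p j) * q l).re • Xm ε (Pi.single j 1) (Pi.single l 1) +
      (conj (p j) * q l).im • Xm ε (Pi.single j 1) (Complex.I • Pi.single l 1)) := by
  ext a b
  rw [Matrix.sum_apply]
  have h1 : ∀ j l : Fin n, ((conj (p j) * q l).re • Xm ε (Pi.single j 1) (Pi.single l 1) +
      (conj (p j) * q l).im • Xm ε (Pi.single j 1) (Complex.I • Pi.single l 1)) a b =
      (ε a : ℂ) * (conj (p j) * q l) *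
        ((Pi.single j 1 : Fin n → ℂ) a * (Pi.single l 1 : Fin n → ℂ) b) -
      ε a * conj (conj (p j) * q l) *
        ((Pi.single l 1 : Fin n → ℂ) a * (Pi.single j 1 : Fin n → ℂ) b) := by
    intro j l
    have h2 := vf_Xm_single ε 1 j l a b
    rw [one_smul, map_one] at h2
    rw [Matrix.add_apply, Matrix.smul_apply, Matrix.smul_apply, vf_Xm_single, h2,
      Complex.conj_I, Complex.real_smul, Complex.real_smul]
    generalize conj (p j) * q l = w
    have e1 : w = (w.re : ℂ) + w.im * Complex.I := (Complex.re_add_im w).symm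
    have e2 : conj w = (w.re : ℂ) - w.im * Complex.I := by
      apply Complex.ext
      · simp
      · simp
    rw [e2]
    conv_rhs => rw [e1]
    simp only [Complex.add_re, Complex.ofReal_re, Complex.mul_re, Complex.I_re, mul_zero,
      Complex.ofReal_im, Complex.I_im, mul_one, sub_self, add_zero, Complex.add_im, Complex.mul_im,
      zero_mul, zero_add]
    ring
  simp only [Matrix.sum_apply, h1, Finset.sum_sub_distrib]
  unfold Xm
  rw [Matrix.of_apply]
  congr 1
  · rw [Finset.sum_eq_single a, Finset.sum_eq_single b]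
    · rw [Pi.single_eq_same, Pi.single_eq_same]
      ring
    · intro l _ hl
      rw [Pi.single_eq_of_ne (Ne.symm hl)]
      ring
    · intro h
      exact absurd (Finset.mem_univ b) h
    · intro j _ hj
      refine Finset.sum_eq_zero fun l _ => ?_
      rw [Pi.single_eq_of_ne (Ne.symm hj)]
      ring
    · intro h
      exact absurd (Finset.mem_univ a) h
  · rw [Finset.sum_eq_single b, Finset.sum_eq_single a]
    · rw [Pi.single_eq_same, Pi.single_eq_same, map_mul, Complex.conj_conj]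
      ring
    · intro l _ hl
      rw [Pi.single_eq_of_ne (Ne.symm hl)]
      ring
    · intro h
      exact absurd (Finset.mem_univ a) h
    · intro j _ hj
      refine Finset.sum_eq_zero fun l _ => ?_
      have z1 : (Pi.single j 1 : Fin n → ℂ) b = 0 := Pi.single_eq_of_ne (Ne.symm hj) 1
      rw [z1]
      ring
    · intro h
      exact absurd (Finset.mem_univ b) h

private theorem vf_expand (ε : Fin n → ℝ) (g : Mat n) (p q : Fin n → ℂ) :
    g * Xm ε p q = ∑ j, ∑ l,
      ((conj (p j) * q l).re • (g * Xm ε (Pi.single j 1) (Pi.single l 1)) +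
      (conj (p j) * q l).im • (g * Xm ε (Pi.single j 1) (Complex.I • Pi.single l 1))) := by
  conv_lhs => rw [vf_expand0 ε p q]
  rw [Matrix.mul_sum]
  refine Finset.sum_congr rfl fun j _ => ?_
  rw [Matrix.mul_sum]
  refine Finset.sum_congr rfl fun l _ => ?_
  rw [Matrix.mul_add, Matrix.mul_smul, Matrix.mul_smul]

private theorem vf_opA (ε : Fin n → ℝ) (a : ℝ) (r : Mat n → Fin n → ℂ) (F : XX n → ℂ) :
    opA ε a r F = ∑ l, mG (fun g => r g l) (opA ε a (fun _ => Pi.single l 1) F) := by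
  funext x
  rw [Finset.sum_apply]
  unfold opA mG
  beta_reduce
  rw [← Finset.sum_neg_distrib]
  refine Finset.sum_congr rfl fun l _ => ?_
  rw [Finset.sum_eq_single l]
  · rw [Pi.single_eq_same]
    ring
  · intro i _ hi
    rw [Pi.single_eq_of_ne hi]
    ring
  · intro h
    exact absurd (Finset.mem_univ l) h

private theorem vf_opB (ε : Fin n → ℝ) (a : ℝ) (r : Mat n → Fin n → ℂ) (F : XX n → ℂ) :
    opB ε a r F = ∑ l, mG (fun g => conj (r g l)) (opB ε a (fun _ => Pi.single l 1) F) := by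
  funext x
  rw [Finset.sum_apply]
  unfold opB mG
  beta_reduce
  rw [← Finset.sum_neg_distrib]
  refine Finset.sum_congr rfl fun l _ => ?_
  rw [Finset.sum_eq_single l]
  · rw [Pi.single_eq_same, map_one]
    ring
  · intro i _ hi
    rw [Pi.single_eq_of_ne hi, map_zero]
    ring
  · intro h
    exact absurd (Finset.mem_univ l) h

private theorem vf_opB_sum (ε : Fin n → ℝ) (a : ℝ) (r : Mat n → Fin n → ℂ) {K : Set (Mat n)}
    (s : Finset (Fin n)) (G : Fin n → XX n → ℂ) (hG : ∀ i, G i ∈ TFK K) :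
    opB ε a r (∑ i ∈ s, G i) = ∑ i ∈ s, opB ε a r (G i) := by
  classical
  induction s using Finset.induction_on with
  | empty =>
    rw [Finset.sum_empty, Finset.sum_empty]
    have h := opB_smul ε a r (0 : ℂ) (F := (0 : XX n → ℂ)) (TFK K).zero_mem
    rw [zero_smul, zero_smul] at h
    exact h
  | insert i s hi ih =>
    rw [Finset.sum_insert hi, Finset.sum_insert hi,
      opB_add ε a r (hG i) ((TFK K).sum_mem fun j _ => hG j), ih]

/-- `opB v opA q F = ∑ conj(v_j) q_l opB e_j opA e_l F` -/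
private theorem vf_BA (ε : Fin n → ℝ) (a : ℝ) {Ω K : Set (Mat n)} (hΩ : IsOpen Ω)
    (hK : IsCompact K) (hKΩ : K ⊆ Ω) {v q : Mat n → Fin n → ℂ}
    (hq : ContDiffOn ℝ ∞ q Ω) {F : XX n → ℂ} (hF : F ∈ TFK K) :
    opB ε a v (opA ε a q F) = ∑ j, ∑ l, mG (fun g => conj (v g j) * q g l)
      (opB ε a (fun _ => Pi.single j 1) (opA ε a (fun _ => Pi.single l 1) F)) := by
  rw [vf_opB]
  refine Finset.sum_congr rfl fun j _ => ?_
  have hA : ∀ l : Fin n, opA ε a (fun _ => Pi.single l 1) F ∈ TFK K := fun l =>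
    opA_mem ε a hΩ hK hKΩ contDiffOn_const hF
  have hql : ∀ l : Fin n, ContDiffOn ℝ ∞ (fun g => q g l) Ω := fun l =>
    (contDiffOn_pi.1 hq) l
  rw [vf_opA ε a q F, vf_opB_sum ε a _ Finset.univ _ fun l => mG_mem hΩ hK hKΩ (hql l) (hA l)]
  funext x
  unfold mG
  rw [Finset.sum_apply, Finset.sum_apply, Finset.mul_sum]
  refine Finset.sum_congr rfl fun l _ => ?_
  have h1 := congrFun (opB_mG ε a hΩ hK hKΩ (hql l) (fun _ => Pi.single j 1) (hA l)) x
  unfold mG at h1
  rw [h1, mul_assoc]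

private theorem vf_fderiv {Ω : Set (Mat n)} (hΩ : IsOpen Ω) {ε : Fin n → ℝ}
    {v q : Mat n → Fin n → ℂ} (hv : ContDiffOn ℝ ∞ v Ω) (hq : ContDiffOn ℝ ∞ q Ω)
    (hvH : InfH ε Ω v) (hqH : InfH ε Ω q) {g : Mat n} (hg : g ∈ Ω) (j l : Fin n)
    (p r : Fin n → ℂ) (L : ℂ →L[ℝ] ℂ) :
    dg (fun g => g * Xm ε p r) (fun g => L (conj (v g j) * q g l)) g =
      L (conj ((v g ᵥ* Xm ε p r) j) * q g l + conj (v g j) * (q g ᵥ* Xm ε p r) l) := by
  have hv1 : HasFDerivAt v (fderiv ℝ v g) g :=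
    ((hv.contDiffAt (hΩ.mem_nhds hg)).differentiableAt (by simp)).hasFDerivAt
  have hq1 : HasFDerivAt q (fderiv ℝ q g) g :=
    ((hq.contDiffAt (hΩ.mem_nhds hg)).differentiableAt (by simp)).hasFDerivAt
  have hv2 : HasFDerivAt (fun g => v g j)
      ((ContinuousLinearMap.proj j).comp (fderiv ℝ v g)) g := (hasFDerivAt_pi'.1 hv1) j
  have hq2 : HasFDerivAt (fun g => q g l)
      ((ContinuousLinearMap.proj l).comp (fderiv ℝ q g)) g := (hasFDerivAt_pi'.1 hq1) l
  have hv3 : HasFDerivAt (fun g => conj (v g j))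
      ((Complex.conjCLE : ℂ →L[ℝ] ℂ).comp ((ContinuousLinearMap.proj j).comp (fderiv ℝ v g))) g :=
    (Complex.conjCLE : ℂ →L[ℝ] ℂ).hasFDerivAt.comp g hv2
  have h1 := L.hasFDerivAt.comp g (hv3.mul hq2)
  have h2 : fderiv ℝ (fun g => L (conj (v g j) * q g l)) g = _ := h1.fderiv
  unfold dg
  rw [h2]
  change L (conj (v g j) • (fderiv ℝ q g (g * Xm ε p r)) l +
    q g l • conj ((fderiv ℝ v g (g * Xm ε p r)) j)) = _
  rw [hvH g hg, hqH g hg, smul_eq_mul, smul_eq_mul]
  congr 1
  ring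

private theorem vf_div {Ω : Set (Mat n)} (hΩ : IsOpen Ω) {ε : Fin n → ℝ}
    {v q : Mat n → Fin n → ℂ} (hv : ContDiffOn ℝ ∞ v Ω) (hq : ContDiffOn ℝ ∞ q Ω)
    (hvH : InfH ε Ω v) (hqH : InfH ε Ω q) {g : Mat n} (hg : g ∈ Ω) :
    ∑ j, ∑ l, (dg (fun g => g * Xm ε (Pi.single j 1) (Pi.single l 1))
        (fun g => (((conj (v g j) * q g l).re : ℝ) : ℂ)) g +
      dg (fun g => g * Xm ε (Pi.single j 1) (Complex.I • Pi.single l 1))
        (fun g => (((conj (v g j) * q g l).im : ℝ) : ℂ)) g) = 0 := by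
  have h1 : ∀ j l : Fin n, dg (fun g => g * Xm ε (Pi.single j 1) (Pi.single l 1))
        (fun g => (((conj (v g j) * q g l).re : ℝ) : ℂ)) g +
      dg (fun g => g * Xm ε (Pi.single j 1) (Complex.I • Pi.single l 1))
        (fun g => (((conj (v g j) * q g l).im : ℝ) : ℂ)) g =
      ((2 * (((ε j : ℂ) * (conj (v g j) * q g j)).re -
        ((ε l : ℂ) * (conj (v g l) * q g l)).re) : ℝ) : ℂ) := by
    intro j l
    have e1 := vf_fderiv hΩ hv hq hvH hqH hg j l (Pi.single j 1) (Pi.single l 1)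
      (Complex.ofRealCLM.comp Complex.reCLM)
    have e2 := vf_fderiv hΩ hv hq hvH hqH hg j l (Pi.single j 1) (Complex.I • Pi.single l 1)
      (Complex.ofRealCLM.comp Complex.imCLM)
    have e1' : dg (fun g => g * Xm ε (Pi.single j 1) (Pi.single l 1))
        (fun g => (((conj (v g j) * q g l).re : ℝ) : ℂ)) g = _ := e1
    have e2' : dg (fun g => g * Xm ε (Pi.single j 1) (Complex.I • Pi.single l 1))
        (fun g => (((conj (v g j) * q g l).im : ℝ) : ℂ)) g = _ := e2
    rw [e1', e2']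
    change ((((conj ((v g ᵥ* Xm ε (Pi.single j 1) (Pi.single l 1)) j) * q g l +
      conj (v g j) * (q g ᵥ* Xm ε (Pi.single j 1) (Pi.single l 1)) l).re : ℝ) : ℂ)) +
      ((((conj ((v g ᵥ* Xm ε (Pi.single j 1) (Complex.I • Pi.single l 1)) j) * q g l +
      conj (v g j) * (q g ᵥ* Xm ε (Pi.single j 1) (Complex.I • Pi.single l 1)) l).im : ℝ) : ℂ)) = _
    have f1 : conj ((v g ᵥ* Xm ε (Pi.single j 1) (Pi.single l 1)) j) * q g l +
        conj (v g j) * (q g ᵥ* Xm ε (Pi.single j 1) (Pi.single l 1)) l =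
        (ε j : ℂ) * (conj (v g j) * q g j) - (ε l : ℂ) * (conj (v g l) * q g l) := by
      rw [vecMul_Xm, vecMul_Xm]
      simp only [Pi.sub_apply, Pi.smul_apply, smul_eq_mul, vf_hf_right, map_sub, map_mul,
        Complex.conj_ofReal]
      by_cases hjl : j = l
      · subst hjl
        rw [Pi.single_eq_same, map_one]
        ring
      · have z1 : (Pi.single j 1 : Fin n → ℂ) l = 0 := Pi.single_eq_of_ne (Ne.symm hjl) 1
        have z2 : (Pi.single l 1 : Fin n → ℂ) j = 0 := Pi.single_eq_of_ne hjl 1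
        rw [z1, z2, Pi.single_eq_same, Pi.single_eq_same, map_one, map_zero]
        ring
    have f2 : conj ((v g ᵥ* Xm ε (Pi.single j 1) (Complex.I • Pi.single l 1)) j) * q g l +
        conj (v g j) * (q g ᵥ* Xm ε (Pi.single j 1) (Complex.I • Pi.single l 1)) l =
        Complex.I * ((ε j : ℂ) * (conj (v g j) * q g j) -
          (ε l : ℂ) * (conj (v g l) * q g l)) := by
      rw [vecMul_Xm, vecMul_Xm]
      simp only [Pi.sub_apply, Pi.smul_apply, smul_eq_mul, vf_hf_right, vf_hf_smul_right,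
        map_sub, map_mul, Complex.conj_ofReal, Complex.conj_I, map_neg]
      by_cases hjl : j = l
      · subst hjl
        rw [Pi.single_eq_same, map_one]
        ring
      · have z1 : (Pi.single j 1 : Fin n → ℂ) l = 0 := Pi.single_eq_of_ne (Ne.symm hjl) 1
        have z2 : (Pi.single l 1 : Fin n → ℂ) j = 0 := Pi.single_eq_of_ne hjl 1
        rw [z1, z2, Pi.single_eq_same, Pi.single_eq_same, map_one, map_zero]
        ring
    rw [f1, f2]
    generalize (ε j : ℂ) * (conj (v g j) * q g j) = x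
    generalize (ε l : ℂ) * (conj (v g l) * q g l) = y
    rw [← Complex.ofReal_add]
    congr 1
    simp only [Complex.sub_re, Complex.mul_im, Complex.I_re, Complex.I_im, Complex.sub_im]
    ring
  simp only [h1]
  have h2 : ∀ w : Fin n → ℝ, ∑ j, ∑ l, ((2 * (w j - w l) : ℝ) : ℂ) = 0 := by
    intro w
    have h3 : ∑ j, ∑ l, (2 * (w j - w l) : ℝ) = 0 := by
      have h4 : ∑ j, ∑ l, (2 * (w j - w l) : ℝ) = ∑ j, ∑ l, (2 * (w l - w j) : ℝ) :=
        Finset.sum_comm
      have h5 : ∑ j, ∑ l, (2 * (w l - w j) : ℝ) = -∑ j, ∑ l, (2 * (w j - w l) : ℝ) := by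
        rw [← Finset.sum_neg_distrib]
        refine Finset.sum_congr rfl fun j _ => ?_
        rw [← Finset.sum_neg_distrib]
        exact Finset.sum_congr rfl fun l _ => by ring
      linarith
    rw [← Complex.ofReal_zero, ← h3]
    push_cast
    rfl
  exact h2 fun j => ((ε j : ℂ) * (conj (v g j) * q g j)).re

private theorem vf_hf_sum (ε : Fin n → ℝ) (x y : Fin n → ℂ) :
    hf ε y x - hf ε x y = ∑ j, ∑ l,
      ((hf ε (Pi.single l 1) (Pi.single j 1) - hf ε (Pi.single j 1) (Pi.single l 1)) *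
        (((conj (x j) * y l).re : ℝ) : ℂ) +
      (hf ε (Complex.I • Pi.single l 1) (Pi.single j 1) -
        hf ε (Pi.single j 1) (Complex.I • Pi.single l 1)) *
        (((conj (x j) * y l).im : ℝ) : ℂ)) := by
  unfold hf
  rw [← Finset.sum_sub_distrib]
  refine Finset.sum_congr rfl fun j _ => ?_
  change _ = ∑ l, ((hf ε (Pi.single l 1) (Pi.single j 1) -
      hf ε (Pi.single j 1) (Pi.single l 1)) * (((conj (x j) * y l).re : ℝ) : ℂ) +
      (hf ε (Complex.I • Pi.single l 1) (Pi.single j 1) -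
        hf ε (Pi.single j 1) (Complex.I • Pi.single l 1)) *
        (((conj (x j) * y l).im : ℝ) : ℂ))
  rw [Finset.sum_eq_single j]
  · rw [vf_hf_smul_left, vf_hf_smul_right, vf_hf_single, if_pos rfl, Complex.conj_I, sub_self,
      zero_mul, zero_add]
    have h1 : (ε j : ℂ) * y j * conj (x j) - ε j * x j * conj (y j) =
        ε j * ((conj (x j) * y j) - conj (conj (x j) * y j)) := by
      rw [map_mul, Complex.conj_conj]
      ring
    rw [h1]
    generalize conj (x j) * y j = w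
    have e2 : w - conj w = 2 * (w.im * Complex.I) := by
      rw [Complex.sub_conj]
      push_cast
      ring
    rw [e2]
    ring
  · intro l _ hl
    rw [vf_hf_smul_left, vf_hf_smul_right, vf_hf_single, vf_hf_single, if_neg hl,
      if_neg (Ne.symm hl)]
    ring
  · intro h
    exact absurd (Finset.mem_univ j) h

theorem vf {ε : Fin n → ℝ} {a : ℝ} {γ γ' : Fin n → ℂ} {c1 : ℂ} {Ω : Set (Mat n)}
    (hΩ : IsOpen Ω) {T : (XX n → ℂ) →ₗ[ℂ] ℂ} (hS : Sys ε a γ γ' c1 Ω T)
    {v q : Mat n → Fin n → ℂ} (hv : ContDiffOn ℝ ∞ v Ω) (hq : ContDiffOn ℝ ∞ q Ω)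
    (hvH : InfH ε Ω v) (hqH : InfH ε Ω q) {F : XX n → ℂ} (hF : F ∈ TFs Ω) :
    T (dG (fun g => g * Xm ε (v g) (q g)) F) =
      (1 / a) * (T (opB ε a v (opA ε a q F)) - T (opB ε a q (opA ε a v F))) +
      c1 * T (mG (fun g => hf ε (q g) (v g) - hf ε (v g) (q g)) F) := by
  obtain ⟨K, hK, hKΩ, hF⟩ := hF
  have hu : ∀ j l : Fin n, ContDiffOn ℝ ∞ (fun g => conj (v g j) * q g l) Ω := by
    intro j l
    have h1 : ContDiffOn ℝ ∞ (fun g => v g j) Ω := (contDiffOn_pi.1 hv) j
    have h2 : ContDiffOn ℝ ∞ (fun g => q g l) Ω := (contDiffOn_pi.1 hq) l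
    exact ((Complex.conjCLE : ℂ →L[ℝ] ℂ).contDiff.comp_contDiffOn h1).mul h2
  have hR : ∀ j l : Fin n,
      ContDiffOn ℝ ∞ (fun g => (((conj (v g j) * q g l).re : ℝ) : ℂ)) Ω := fun j l =>
    (Complex.ofRealCLM.comp Complex.reCLM).contDiff.comp_contDiffOn (hu j l)
  have hI : ∀ j l : Fin n,
      ContDiffOn ℝ ∞ (fun g => (((conj (v g j) * q g l).im : ℝ) : ℂ)) Ω := fun j l =>
    (Complex.ofRealCLM.comp Complex.imCLM).contDiff.comp_contDiffOn (hu j l)
  have hFR : ∀ j l : Fin n, mG (fun g => (((conj (v g j) * q g l).re : ℝ) : ℂ)) F ∈ TFs Ω :=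
    fun j l => ⟨K, hK, hKΩ, mG_mem hΩ hK hKΩ (hR j l) hF⟩
  have hFI : ∀ j l : Fin n, mG (fun g => (((conj (v g j) * q g l).im : ℝ) : ℂ)) F ∈ TFs Ω :=
    fun j l => ⟨K, hK, hKΩ, mG_mem hΩ hK hKΩ (hI j l) hF⟩
  have hA : ∀ r : Fin n → ℂ, opA ε a (fun _ => r) F ∈ TFK K := fun r =>
    opA_mem ε a hΩ hK hKΩ contDiffOn_const hF
  -- step 1: the field as a sum of constant fields
  have s1 : dG (fun g => g * Xm ε (v g) (q g)) F = ∑ j, ∑ l,
      (dG (fun g => g * Xm ε (Pi.single j 1) (Pi.single l 1))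
        (mG (fun g => (((conj (v g j) * q g l).re : ℝ) : ℂ)) F) +
      dG (fun g => g * Xm ε (Pi.single j 1) (Complex.I • Pi.single l 1))
        (mG (fun g => (((conj (v g j) * q g l).im : ℝ) : ℂ)) F)) := by
    have h1 : (fun g => g * Xm ε (v g) (q g)) = fun g => ∑ j, ∑ l,
        ((conj (v g j) * q g l).re • (g * Xm ε (Pi.single j 1) (Pi.single l 1)) +
        (conj (v g j) * q g l).im • (g * Xm ε (Pi.single j 1) (Complex.I • Pi.single l 1))) :=
      funext fun g => vf_expand ε g (v g) (q g)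
    rw [h1, dG_sum_field]
    simp only [dG_sum_field, dG_add_field, dG_smul_field]
    funext x
    simp only [Finset.sum_apply, Pi.add_apply]
    by_cases hx : x.1 ∈ K
    · have h2 := vf_div hΩ hv hq hvH hqH (hKΩ hx)
      have h3 : ∀ j l : Fin n,
          dG (fun g => g * Xm ε (Pi.single j 1) (Pi.single l 1))
            (mG (fun g => (((conj (v g j) * q g l).re : ℝ) : ℂ)) F) x +
          dG (fun g => g * Xm ε (Pi.single j 1) (Complex.I • Pi.single l 1))
            (mG (fun g => (((conj (v g j) * q g l).im : ℝ) : ℂ)) F) x =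
          (mG (fun g => (((conj (v g j) * q g l).re : ℝ) : ℂ))
            (dG (fun g => g * Xm ε (Pi.single j 1) (Pi.single l 1)) F) x +
          mG (fun g => (((conj (v g j) * q g l).im : ℝ) : ℂ))
            (dG (fun g => g * Xm ε (Pi.single j 1) (Complex.I • Pi.single l 1)) F) x) +
          (dg (fun g => g * Xm ε (Pi.single j 1) (Pi.single l 1))
            (fun g => (((conj (v g j) * q g l).re : ℝ) : ℂ)) x.1 +
          dg (fun g => g * Xm ε (Pi.single j 1) (Complex.I • Pi.single l 1))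
            (fun g => (((conj (v g j) * q g l).im : ℝ) : ℂ)) x.1) * F x := by
        intro j l
        rw [dG_mG hΩ hK hKΩ (hR j l) _ hF, dG_mG hΩ hK hKΩ (hI j l) _ hF, Pi.add_apply,
          Pi.add_apply]
        unfold mG
        ring
      simp only [h3, Finset.sum_add_distrib, ← Finset.sum_mul]
      simp only [Finset.sum_add_distrib] at h2
      rw [h2, zero_mul, add_zero]
    · refine Finset.sum_congr rfl fun j _ => Finset.sum_congr rfl fun l _ => ?_
      have h2 : ∀ (X : Mat n → Mat n) {c : Mat n → ℂ}, ContDiffOn ℝ ∞ c Ω →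
          dG X (mG c F) x = mG c (dG X F) x := by
        intro X c hc
        rw [dG_mG hΩ hK hKΩ hc X hF, Pi.add_apply]
        unfold mG
        rw [hF.2.2 x hx, mul_zero, add_zero]
      rw [h2 _ (hR j l), h2 _ (hI j l)]
  -- step 2: the equations for the constant fields
  have s2 : ∀ (c : Mat n → ℂ), ContDiffOn ℝ ∞ c Ω → ∀ p r : Fin n → ℂ,
      T (dG (fun g => g * Xm ε p r) (mG c F)) =
      (1 / a) * (T (mG c (opB ε a (fun _ => p) (opA ε a (fun _ => r) F))) -
        T (mG c (opB ε a (fun _ => r) (opA ε a (fun _ => p) F)))) +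
      c1 * (hf ε r p - hf ε p r) * T (mG c F) := by
    intro c hc p r
    rw [sys_X hS p r ⟨K, hK, hKΩ, mG_mem hΩ hK hKΩ hc hF⟩,
      opA_mG ε a hΩ hK hKΩ hc _ hF, opB_mG ε a hΩ hK hKΩ hc _ (hA r),
      opA_mG ε a hΩ hK hKΩ hc _ hF, opB_mG ε a hΩ hK hKΩ hc _ (hA p)]
  -- step 3: complex linearity
  have hIA : ∀ (l : Fin n) (G : XX n → ℂ), opA ε a (fun _ => Complex.I • Pi.single l 1) G =
      Complex.I • opA ε a (fun _ => Pi.single l 1) G := by
    intro l G
    exact opA_smul_row ε a (fun _ => Complex.I) (fun _ => Pi.single l 1) G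
  have hIB : ∀ (l : Fin n) (G : XX n → ℂ), opB ε a (fun _ => Complex.I • Pi.single l 1) G =
      (-Complex.I) • opB ε a (fun _ => Pi.single l 1) G := by
    intro l G
    rw [opB_smul_row ε a (fun _ => Complex.I) (fun _ => Pi.single l 1) G]
    funext x
    unfold mG
    rw [Complex.conj_I]
    rfl
  have s3 : ∀ j l : Fin n,
      T (mG (fun g => (((conj (v g j) * q g l).re : ℝ) : ℂ))
        (opB ε a (fun _ => Pi.single j 1) (opA ε a (fun _ => Pi.single l 1) F))) +
      T (mG (fun g => (((conj (v g j) * q g l).im : ℝ) : ℂ))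
        (opB ε a (fun _ => Pi.single j 1) (opA ε a (fun _ => Complex.I • Pi.single l 1) F))) =
      T (mG (fun g => conj (v g j) * q g l)
        (opB ε a (fun _ => Pi.single j 1) (opA ε a (fun _ => Pi.single l 1) F))) := by
    intro j l
    rw [← map_add, hIA, opB_smul ε a _ _ (hA (Pi.single l 1))]
    congr 1
    funext x
    simp only [Pi.add_apply]
    unfold mG
    beta_reduce
    rw [Pi.smul_apply, smul_eq_mul]
    conv_rhs => rw [← Complex.re_add_im (conj (v x.1 j) * q x.1 l)]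
    ring
  have s4 : ∀ j l : Fin n,
      T (mG (fun g => (((conj (v g j) * q g l).re : ℝ) : ℂ))
        (opB ε a (fun _ => Pi.single l 1) (opA ε a (fun _ => Pi.single j 1) F))) +
      T (mG (fun g => (((conj (v g j) * q g l).im : ℝ) : ℂ))
        (opB ε a (fun _ => Complex.I • Pi.single l 1) (opA ε a (fun _ => Pi.single j 1) F))) =
      T (mG (fun g => conj (q g l) * v g j)
        (opB ε a (fun _ => Pi.single l 1) (opA ε a (fun _ => Pi.single j 1) F))) := by
    intro j l
    rw [← map_add, hIB]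
    congr 1
    funext x
    simp only [Pi.add_apply]
    unfold mG
    beta_reduce
    rw [Pi.smul_apply, smul_eq_mul]
    have e1 : conj (q x.1 l) * v x.1 j = conj (conj (v x.1 j) * q x.1 l) := by
      rw [map_mul, Complex.conj_conj]
      ring
    have e2 : ∀ w : ℂ, conj w = (w.re : ℂ) - w.im * Complex.I := by
      intro w
      apply Complex.ext
      · simp
      · simp
    rw [e1, e2 (conj (v x.1 j) * q x.1 l)]
    ring
  have s5 : T (mG (fun g => hf ε (q g) (v g) - hf ε (v g) (q g)) F) = ∑ j, ∑ l,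
      ((hf ε (Pi.single l 1) (Pi.single j 1) - hf ε (Pi.single j 1) (Pi.single l 1)) *
        T (mG (fun g => (((conj (v g j) * q g l).re : ℝ) : ℂ)) F) +
      (hf ε (Complex.I • Pi.single l 1) (Pi.single j 1) -
        hf ε (Pi.single j 1) (Complex.I • Pi.single l 1)) *
        T (mG (fun g => (((conj (v g j) * q g l).im : ℝ) : ℂ)) F)) := by
    have h1 : mG (fun g => hf ε (q g) (v g) - hf ε (v g) (q g)) F = ∑ j, ∑ l,
      ((hf ε (Pi.single l 1) (Pi.single j 1) - hf ε (Pi.single j 1) (Pi.single l 1)) •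
        (mG (fun g => (((conj (v g j) * q g l).re : ℝ) : ℂ)) F) +
      (hf ε (Complex.I • Pi.single l 1) (Pi.single j 1) -
        hf ε (Pi.single j 1) (Complex.I • Pi.single l 1)) •
        (mG (fun g => (((conj (v g j) * q g l).im : ℝ) : ℂ)) F)) := by
      funext x
      simp only [Finset.sum_apply, Pi.add_apply, Pi.smul_apply, smul_eq_mul]
      unfold mG
      beta_reduce
      rw [vf_hf_sum, Finset.sum_mul]
      refine Finset.sum_congr rfl fun j _ => ?_
      rw [Finset.sum_mul]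
      refine Finset.sum_congr rfl fun l _ => ?_
      ring
    rw [h1, map_sum]
    refine Finset.sum_congr rfl fun j _ => ?_
    rw [map_sum]
    refine Finset.sum_congr rfl fun l _ => ?_
    rw [map_add, map_smul, map_smul, smul_eq_mul, smul_eq_mul]
  rw [s1, map_sum, s5, vf_BA ε a hΩ hK hKΩ hq hF, vf_BA ε a hΩ hK hKΩ hv hF, map_sum, map_sum]
  have s6 : ∑ j, T (∑ l, mG (fun g => conj (q g j) * v g l)
      (opB ε a (fun _ => Pi.single j 1) (opA ε a (fun _ => Pi.single l 1) F))) =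
      ∑ j, ∑ l, T (mG (fun g => conj (q g l) * v g j)
      (opB ε a (fun _ => Pi.single l 1) (opA ε a (fun _ => Pi.single j 1) F))) := by
    simp only [map_sum]
    exact Finset.sum_comm
  rw [s6, ← Finset.sum_sub_distrib, Finset.mul_sum, Finset.mul_sum, ← Finset.sum_add_distrib]
  refine Finset.sum_congr rfl fun j _ => ?_
  rw [map_sum, map_sum, ← Finset.sum_sub_distrib, Finset.mul_sum, Finset.mul_sum,
    ← Finset.sum_add_distrib]
  refine Finset.sum_congr rfl fun l _ => ?_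
  rw [map_add, s2 _ (hR j l), s2 _ (hI j l), ← s3 j l, ← s4 j l]
  ring

end

end Pool.Agent.Work.MP_dd0ddf_al.AR
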