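import Pool.Agent.Work.MP_dd0ddf_al.AR.TF1

/-!
# Vz (M): the translations `V_z`

`V_z F (g, t) = exp(- i a ∑ η_j (2 t_j - ξ_j)) F(g, t - ξ)`, `ξ_j = ε_j Re(z v_j(g))`,
`η_j = Im(z v_j(g))`: the transpose of `ρ(w)`, `w_j = ε_j conj(z v_j)`.

* `Vz_mem`, `Vz_smooth`: `(z, g, t) ↦ V_z F (g, t)` is smooth: near points with `g ∈ Ω` it is a
  composition of smooth maps, near points with `g ∉ K` it is `0`.  Support: `g ∈ K` and
  `t - ξ(z, g)` in the support of `F`; `v` is bounded on `K`, so `‖t‖ ≤ R` for `z` bounded.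
* `Vz_fderiv`: with `dξ_j = ε_j Re(δ v_j)`, `dη_j = Im(δ v_j)`, `E` the exponential:
  `d(V_z F) = E [- i a ∑ (dη_j (2 t_j - ξ_j) - η_j dξ_j) F(t - ξ) - ∑ dξ_j (∂_j F)(t - ξ)]`,
  and `δ opA v (V_z F) + conj δ opB v (V_z F) = - ∑ (dξ_j ∂_j + 2 i a dη_j t_j) (V_z F)`
  (as `δ v_j D_j^+ + conj(δ v_j) D_j^- = Re(δ v_j) ∂_j + 2 i a ε_j Im(δ v_j) t_j`),
  `∂_j (V_z F) = E (∂_j F)(t - ξ) - 2 i a η_j V_z F`.  The difference is
  `i a ∑ (dη_j ξ_j - η_j dξ_j) V_z F = - i a Im(z conj δ) <v, v> V_z F`.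
  At points with `x.1 ∉ K` everything is `0`.
* `opA_Vz`, `opB_Vz`: `D_j^+ (V_z F) - V_z (D_j^+ F) = a conj(z v_j) V_z F`,
  `D_j^- (V_z F) - V_z (D_j^- F) = - a z v_j V_z F`.
-/

set_option linter.unusedSectionVars false

namespace Pool.Agent.Work.MP_dd0ddf_al.AR

open scoped SchwartzMap Matrix.Norms.Elementwise ComplexConjugate ContDiff Topology LineDeriv
open Matrix MeasureTheory Filter

noncomputable section

variable {n : ℕ}

/-- the transpose of `ρ(w)`, `w_j = ε_j conj(z v_j(g))` -/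
def Vz (ε : Fin n → ℝ) (a : ℝ) (v : Mat n → Fin n → ℂ) (z : ℂ) (F : XX n → ℂ) : XX n → ℂ :=
  fun x => Complex.exp (-(Complex.I * a * ∑ j, ((z * v x.1 j).im *
    (2 * x.2 j - ε j * (z * v x.1 j).re) : ℝ))) * F (x.1, fun j => x.2 j - ε j * (z * v x.1 j).re)

theorem Vz_zero (ε : Fin n → ℝ) (a : ℝ) (v : Mat n → Fin n → ℂ) (F : XX n → ℂ) :
    Vz ε a v 0 F = F := by
  funext x
  unfold Vz
  simp

private theorem vz_lin (A B : ℝ) : HasDerivAt (fun s : ℝ => A + s * B) B 0 := by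
  have h := ((hasDerivAt_id (0 : ℝ)).mul_const B).const_add A
  simpa using h

/-- the derivative along lines -/
private theorem vz_line (ε : Fin n → ℝ) (a : ℝ) (v : Mat n → Fin n → ℂ) {F : XX n → ℂ}
    (hF : ContDiff ℝ ∞ F) (z δ : ℂ) (g : Mat n) (t θ : Fin n → ℝ) :
    HasDerivAt (fun s : ℝ => Vz ε a v (z + s * δ) F (g, fun j => t j + s * θ j))
      (Complex.exp (-(Complex.I * a * ((∑ j, (z * v g j).im *
        (2 * t j - ε j * (z * v g j).re) : ℝ) : ℂ))) *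
        (-(Complex.I * a * ((∑ j, ((δ * v g j).im * (2 * t j - ε j * (z * v g j).re) +
          (z * v g j).im * (2 * θ j - ε j * (δ * v g j).re)) : ℝ) : ℂ)) *
          F (g, fun j => t j - ε j * (z * v g j).re) +
        fderiv ℝ F (g, fun j => t j - ε j * (z * v g j).re)
          (0, fun j => θ j - ε j * (δ * v g j).re))) 0 := by
  have him : ∀ (s : ℝ) (j : Fin n), ((z + s * δ) * v g j).im =
      (z * v g j).im + s * (δ * v g j).im := by
    intro s j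
    rw [add_mul, Complex.add_im, mul_assoc, Complex.im_ofReal_mul]
  have hre : ∀ (s : ℝ) (j : Fin n), ((z + s * δ) * v g j).re =
      (z * v g j).re + s * (δ * v g j).re := by
    intro s j
    rw [add_mul, Complex.add_re, mul_assoc, Complex.re_ofReal_mul]
  have h2 : HasDerivAt (fun s : ℝ => Complex.exp (-(Complex.I * a * ((∑ j,
      ((z * v g j).im + s * (δ * v g j).im) *
      (2 * (t j + s * θ j) - ε j * ((z * v g j).re + s * (δ * v g j).re)) : ℝ) : ℂ))))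
      (Complex.exp (-(Complex.I * a * ((∑ j, (z * v g j).im *
        (2 * t j - ε j * (z * v g j).re) : ℝ) : ℂ))) *
        (-(Complex.I * a * ((∑ j, ((δ * v g j).im * (2 * t j - ε j * (z * v g j).re) +
          (z * v g j).im * (2 * θ j - ε j * (δ * v g j).re)) : ℝ) : ℂ)))) 0 := by
    have h1 : HasDerivAt (fun s : ℝ => ∑ j, ((z * v g j).im + s * (δ * v g j).im) *
        (2 * (t j + s * θ j) - ε j * ((z * v g j).re + s * (δ * v g j).re)))
        (∑ j, ((δ * v g j).im * (2 * (t j + 0 * θ j) - ε j * ((z * v g j).re + 0 * (δ * v g j).re)) +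
          ((z * v g j).im + 0 * (δ * v g j).im) * (2 * θ j - ε j * (δ * v g j).re))) 0 := by
      apply HasDerivAt.fun_sum
      intro j _
      exact (vz_lin _ _).fun_mul (((vz_lin _ _).const_mul (2 : ℝ)).fun_sub
        ((vz_lin _ _).const_mul (ε j)))
    have e1 := ((h1.ofReal_comp.const_mul (Complex.I * (a : ℂ))).fun_neg).cexp
    convert e1 using 1
    simp only [zero_mul, add_zero]
  have h3 : HasDerivAt (fun s : ℝ => ((g, fun j => (t j + s * θ j) -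
      ε j * ((z * v g j).re + s * (δ * v g j).re)) : XX n))
      (0, fun j => θ j - ε j * (δ * v g j).re) 0 := by
    refine (hasDerivAt_const (0 : ℝ) g).prodMk ?_
    rw [hasDerivAt_pi]
    intro j
    exact (vz_lin _ _).fun_sub ((vz_lin _ _).const_mul (ε j))
  have h4 : HasDerivAt (fun s : ℝ => F (g, fun j => (t j + s * θ j) -
      ε j * ((z * v g j).re + s * (δ * v g j).re)))
      (fderiv ℝ F (g, fun j => t j - ε j * (z * v g j).re)
          (0, fun j => θ j - ε j * (δ * v g j).re)) 0 := by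
    have hd : HasFDerivAt F (fderiv ℝ F (g, fun j => t j - ε j * (z * v g j).re))
        (g, fun j => (t j + (0 : ℝ) * θ j) -
      ε j * ((z * v g j).re + (0 : ℝ) * (δ * v g j).re)) := by
      simp only [zero_mul, add_zero]
      exact (hF.differentiable (by simp)).differentiableAt.hasFDerivAt
    exact hd.comp_hasDerivAt (0 : ℝ) h3
  have h5 := h2.fun_mul h4
  have h6 : (fun s : ℝ => Vz ε a v (z + s * δ) F (g, fun j => t j + s * θ j)) =
      (fun s : ℝ => Complex.exp (-(Complex.I * a * ((∑ j,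
      ((z * v g j).im + s * (δ * v g j).im) *
      (2 * (t j + s * θ j) - ε j * ((z * v g j).re + s * (δ * v g j).re)) : ℝ) : ℂ))) *
      F (g, fun j => (t j + s * θ j) -
      ε j * ((z * v g j).re + s * (δ * v g j).re))) := by
    funext s
    simp only [Vz, him, hre]
  rw [h6]
  refine h5.congr_deriv ?_
  simp only [zero_mul, add_zero]
  ring

private theorem vz_contDiff (ε : Fin n → ℝ) (a : ℝ) {Ω K : Set (Mat n)} (hΩ : IsOpen Ω)
    (hK : IsCompact K) (hKΩ : K ⊆ Ω) {v : Mat n → Fin n → ℂ} (hv : ContDiffOn ℝ ∞ v Ω)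
    {F : XX n → ℂ} (hF : F ∈ TFK K) :
    ContDiff ℝ ∞ (fun p : ℂ × XX n => Vz ε a v p.1 F p.2) := by
  rw [contDiff_iff_contDiffAt]
  rintro ⟨z, g, t⟩
  by_cases hg : g ∈ K
  · have h1 : ContDiffAt ℝ ∞ v g := (hv g (hKΩ hg)).contDiffAt (hΩ.mem_nhds (hKΩ hg))
    have h2 : ContDiffAt ℝ ∞ (fun p : ℂ × XX n => v p.2.1) (z, g, t) :=
      ContDiffAt.comp (z, g, t) h1 (contDiff_fst.comp contDiff_snd).contDiffAt
    have h3 : ∀ j, ContDiffAt ℝ ∞ (fun p : ℂ × XX n => p.1 * v p.2.1 j) (z, g, t) := fun j =>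
      contDiff_fst.contDiffAt.mul ((contDiffAt_pi.1 h2) j)
    have h4 : ∀ j, ContDiffAt ℝ ∞ (fun p : ℂ × XX n => (p.1 * v p.2.1 j).im) (z, g, t) :=
      fun j => Complex.imCLM.contDiff.contDiffAt.comp (z, g, t) (h3 j)
    have h5 : ∀ j, ContDiffAt ℝ ∞ (fun p : ℂ × XX n => (p.1 * v p.2.1 j).re) (z, g, t) :=
      fun j => Complex.reCLM.contDiff.contDiffAt.comp (z, g, t) (h3 j)
    have h6 : ∀ j, ContDiffAt ℝ ∞ (fun p : ℂ × XX n => p.2.2 j) (z, g, t) := fun j =>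
      (contDiff_pi.1 (contDiff_snd.comp contDiff_snd :
        ContDiff ℝ ∞ (fun p : ℂ × XX n => p.2.2)) j).contDiffAt
    have h7 : ContDiffAt ℝ ∞ (fun p : ℂ × XX n => ∑ j, (p.1 * v p.2.1 j).im *
        (2 * p.2.2 j - ε j * (p.1 * v p.2.1 j).re)) (z, g, t) := by
      apply ContDiffAt.sum
      intro j _
      exact (h4 j).mul ((contDiffAt_const.mul (h6 j)).sub (contDiffAt_const.mul (h5 j)))
    have h8 : ContDiffAt ℝ ∞ (fun p : ℂ × XX n => ((∑ j, (p.1 * v p.2.1 j).im *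
        (2 * p.2.2 j - ε j * (p.1 * v p.2.1 j).re) : ℝ) : ℂ)) (z, g, t) :=
      Complex.ofRealCLM.contDiff.contDiffAt.comp (z, g, t) h7
    have h9 : ContDiffAt ℝ ∞ (fun p : ℂ × XX n => ((p.2.1, fun j => p.2.2 j -
        ε j * (p.1 * v p.2.1 j).re) : XX n)) (z, g, t) := by
      refine ContDiffAt.prodMk (contDiff_fst.comp contDiff_snd).contDiffAt ?_
      rw [contDiffAt_pi]
      intro j
      exact (h6 j).sub (contDiffAt_const.mul (h5 j))
    have h10 : ContDiffAt ℝ ∞ (fun p : ℂ × XX n => F (p.2.1, fun j => p.2.2 j -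
        ε j * (p.1 * v p.2.1 j).re)) (z, g, t) :=
      hF.1.contDiffAt.comp (z, g, t) h9
    exact ((contDiffAt_const.mul h8).neg.cexp).mul h10
  · have hev : (fun p : ℂ × XX n => Vz ε a v p.1 F p.2) =ᶠ[𝓝 (z, g, t)] fun _ => 0 := by
      have hop : IsOpen {p : ℂ × XX n | p.2.1 ∉ K} :=
        hK.isClosed.isOpen_compl.preimage (continuous_fst.comp continuous_snd)
      filter_upwards [hop.mem_nhds hg] with p hp
      unfold Vz
      rw [hF.2.2 (p.2.1, fun j => p.2.2 j - ε j * (p.1 * v p.2.1 j).re) hp, mul_zero]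
    exact contDiffAt_const.congr_of_eventuallyEq hev

private theorem vz_zero_of {K : Set (Mat n)} (ε : Fin n → ℝ) (a : ℝ) (v : Mat n → Fin n → ℂ)
    {F : XX n → ℂ} (hF : F ∈ TFK K) (z : ℂ) (x : XX n) (hx : x.1 ∉ K) : Vz ε a v z F x = 0 := by
  unfold Vz
  rw [hF.2.2 (x.1, fun j => x.2 j - ε j * (z * v x.1 j).re) hx, mul_zero]

private theorem vz_bdd (ε : Fin n → ℝ) (a : ℝ) {Ω K : Set (Mat n)}
    (hK : IsCompact K) (hKΩ : K ⊆ Ω) {v : Mat n → Fin n → ℂ} (hv : ContDiffOn ℝ ∞ v Ω)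
    {F : XX n → ℂ} (hF : F ∈ TFK K) (z : ℂ) :
    ∃ V ∈ 𝓝 z, ∃ R : ℝ, ∀ z' ∈ V, ∀ x : XX n, R < ‖x.2‖ → Vz ε a v z' F x = 0 := by
  obtain ⟨C, hC⟩ := hK.exists_bound_of_continuousOn (hv.continuousOn.mono hKΩ)
  obtain ⟨R0, hR0⟩ := hF.2.1.isCompact.isBounded.exists_norm_le
  refine ⟨Metric.ball z 1, Metric.ball_mem_nhds z one_pos,
    R0 + ‖ε‖ * ((‖z‖ + 1) * C), fun z' hz' x hx => ?_⟩
  by_contra hne
  have hxK : x.1 ∈ K := by
    by_contra h
    exact hne (vz_zero_of ε a v hF z' x h)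
  have hFne : F (x.1, fun j => x.2 j - ε j * (z' * v x.1 j).re) ≠ 0 := by
    intro h
    apply hne
    unfold Vz
    rw [h, mul_zero]
  have h1 := hR0 _ (subset_tsupport F hFne)
  have h2 : ‖(fun j => x.2 j - ε j * (z' * v x.1 j).re : Fin n → ℝ)‖ ≤ R0 :=
    (norm_snd_le (x.1, fun j => x.2 j - ε j * (z' * v x.1 j).re)).trans h1
  have h3 : ‖z'‖ ≤ ‖z‖ + 1 := by
    have h4 : ‖z' - z‖ < 1 := by
      rw [← dist_eq_norm]
      exact hz'
    calc ‖z'‖ = ‖z + (z' - z)‖ := by rw [add_sub_cancel]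
      _ ≤ ‖z‖ + ‖z' - z‖ := norm_add_le _ _
      _ ≤ ‖z‖ + 1 := by linarith
  have h5 := hC _ hxK
  have hC0 : 0 ≤ C := (norm_nonneg _).trans h5
  have h6 : ‖(fun j => ε j * (z' * v x.1 j).re : Fin n → ℝ)‖ ≤ ‖ε‖ * ((‖z‖ + 1) * C) := by
    rw [pi_norm_le_iff_of_nonneg (by positivity)]
    intro j
    rw [norm_mul]
    refine mul_le_mul (norm_le_pi_norm ε j) ?_ (norm_nonneg _) (norm_nonneg _)
    calc ‖(z' * v x.1 j).re‖ ≤ ‖z' * v x.1 j‖ := Complex.abs_re_le_norm _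
      _ = ‖z'‖ * ‖v x.1 j‖ := norm_mul _ _
      _ ≤ (‖z‖ + 1) * C := mul_le_mul h3 ((norm_le_pi_norm _ j).trans h5) (norm_nonneg _)
          (by positivity)
  have h7 : x.2 = (fun j => x.2 j - ε j * (z' * v x.1 j).re : Fin n → ℝ) +
      (fun j => ε j * (z' * v x.1 j).re) := by
    funext j
    simp
  have h8 : ‖x.2‖ ≤ R0 + ‖ε‖ * ((‖z‖ + 1) * C) := by
    rw [h7]
    exact (norm_add_le _ _).trans (add_le_add h2 h6)
  linarith

theorem Vz_mem (ε : Fin n → ℝ) (a : ℝ) {Ω K : Set (Mat n)} (hΩ : IsOpen Ω) (hK : IsCompact K)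
    (hKΩ : K ⊆ Ω) {v : Mat n → Fin n → ℂ} (hv : ContDiffOn ℝ ∞ v Ω) (z : ℂ) {F : XX n → ℂ}
    (hF : F ∈ TFK K) : Vz ε a v z F ∈ TFK K := by
  have h1 : ContDiff ℝ ∞ (fun x : XX n => ((z, x) : ℂ × XX n)) :=
    contDiff_const.prodMk contDiff_id
  have h2 := (vz_contDiff ε a hΩ hK hKΩ hv hF).comp h1
  have h4 : (fun p : ℂ × XX n => Vz ε a v p.1 F p.2) ∘ (fun x : XX n => ((z, x) : ℂ × XX n)) =
    Vz ε a v z F := by
    funext x
    rfl
  rw [h4] at h2
  have h3 : HasCompactSupport (Vz ε a v z F) := by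
    obtain ⟨V, hV, R, hR⟩ := vz_bdd ε a hK hKΩ hv hF z
    refine HasCompactSupport.intro (hK.prod (isCompact_closedBall (0 : Fin n → ℝ) R)) ?_
    intro x hx
    by_cases h1 : x.1 ∈ K
    · apply hR z (mem_of_mem_nhds hV)
      by_contra h2
      rw [not_lt] at h2
      exact hx ⟨h1, by rwa [mem_closedBall_zero_iff]⟩
    · exact vz_zero_of ε a v hF z x h1
  exact ⟨h2, h3, vz_zero_of ε a v hF z⟩

theorem Vz_smooth (ε : Fin n → ℝ) (a : ℝ) {Ω K : Set (Mat n)} (hΩ : IsOpen Ω)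
    (hK : IsCompact K) (hKΩ : K ⊆ Ω) {v : Mat n → Fin n → ℂ} (hv : ContDiffOn ℝ ∞ v Ω)
    {F : XX n → ℂ} (hF : F ∈ TFK K) :
    ContDiff ℝ ∞ (fun p : ℂ × XX n => Vz ε a v p.1 F p.2) ∧
      (∀ (z : ℂ) (x : XX n), x.1 ∉ K → Vz ε a v z F x = 0) ∧
      ∀ z : ℂ, ∃ V ∈ 𝓝 z, ∃ R : ℝ, ∀ z' ∈ V, ∀ x : XX n, R < ‖x.2‖ → Vz ε a v z' F x = 0 :=
  ⟨vz_contDiff ε a hΩ hK hKΩ hv hF, vz_zero_of ε a v hF, vz_bdd ε a hK hKΩ hv hF⟩

private theorem vz_sum (F : XX n → ℂ) (y : XX n) (u : Fin n → ℝ) :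
    fderiv ℝ F y (0, u) = ∑ j, (u j : ℂ) * dT j F y := by
  have h1 : ((0, u) : XX n) = ∑ j, u j • ((0, Pi.single j 1) : XX n) := by
    refine Prod.ext ?_ ?_
    · rw [Prod.fst_sum]
      simp
    · rw [Prod.snd_sum]
      funext i
      simp [Finset.sum_apply, Pi.single_apply]
  rw [h1, map_sum]
  refine Finset.sum_congr rfl fun j _ => ?_
  rw [map_smul, Complex.real_smul]
  rfl

private theorem vz_dT (ε : Fin n → ℝ) (a : ℝ) {Ω K : Set (Mat n)} (hΩ : IsOpen Ω)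
    (hK : IsCompact K) (hKΩ : K ⊆ Ω) {v : Mat n → Fin n → ℂ} (hv : ContDiffOn ℝ ∞ v Ω)
    {F : XX n → ℂ} (hF : F ∈ TFK K) (z : ℂ) (j : Fin n) (x : XX n) :
    dT j (Vz ε a v z F) x =
      Complex.exp (-(Complex.I * a * ((∑ j, (z * v x.1 j).im *
        (2 * x.2 j - ε j * (z * v x.1 j).re) : ℝ) : ℂ))) *
        (-(2 * Complex.I * a * ((z * v x.1 j).im : ℂ)) *
          F (x.1, fun j => x.2 j - ε j * (z * v x.1 j).re) +
        dT j F (x.1, fun j => x.2 j - ε j * (z * v x.1 j).re)) := by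
  have hV := Vz_mem ε a hΩ hK hKΩ hv z hF
  have h1 := vz_line ε a v hF.1 z 0 x.1 x.2 (Pi.single j 1)
  have h2 : HasDerivAt (fun s : ℝ => Vz ε a v z F (x.1, fun i => x.2 i + s * (Pi.single j 1 : Fin n → ℝ) i))
      (fderiv ℝ (Vz ε a v z F) x (0, Pi.single j 1)) 0 := by
    have hp : HasDerivAt (fun s : ℝ => ((x.1, fun i => x.2 i +
        s * (Pi.single j 1 : Fin n → ℝ) i) : XX n)) (0, Pi.single j 1) 0 := by
      refine (hasDerivAt_const (0 : ℝ) x.1).prodMk ?_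
      rw [hasDerivAt_pi]
      intro i
      exact vz_lin _ _
    have hd : HasFDerivAt (Vz ε a v z F) (fderiv ℝ (Vz ε a v z F) x)
        (x.1, fun i => x.2 i + (0 : ℝ) * (Pi.single j 1 : Fin n → ℝ) i) := by
      simp only [zero_mul, add_zero]
      exact (hV.1.differentiable (by simp)).differentiableAt.hasFDerivAt
    exact hd.comp_hasDerivAt (0 : ℝ) hp
  simp only [mul_zero, add_zero, zero_mul, Complex.zero_im, Complex.zero_re, zero_add,
    sub_zero] at h1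
  have h3 := h2.unique h1
  change fderiv ℝ (Vz ε a v z F) x (0, Pi.single j 1) = _
  rw [h3]
  congr 2
  have h4 : ∑ i, (z * v x.1 i).im * (2 * (Pi.single j 1 : Fin n → ℝ) i) =
      2 * (z * v x.1 j).im := by
    rw [Finset.sum_eq_single j]
    · rw [Pi.single_eq_same]
      ring
    · intro i _ hi
      rw [Pi.single_eq_of_ne hi]
      ring
    · intro h
      exact absurd (Finset.mem_univ j) h
  rw [h4]
  push_cast
  ring

private theorem vz_dz (ε : Fin n → ℝ) (a : ℝ) {Ω K : Set (Mat n)} (hΩ : IsOpen Ω)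
    (hK : IsCompact K) (hKΩ : K ⊆ Ω) {v : Mat n → Fin n → ℂ} (hv : ContDiffOn ℝ ∞ v Ω)
    {F : XX n → ℂ} (hF : F ∈ TFK K) (z δ : ℂ) (x : XX n) :
    fderiv ℝ (fun p : ℂ × XX n => Vz ε a v p.1 F p.2) (z, x) (δ, 0) =
      Complex.exp (-(Complex.I * a * ((∑ j, (z * v x.1 j).im *
        (2 * x.2 j - ε j * (z * v x.1 j).re) : ℝ) : ℂ))) *
        (-(Complex.I * a * ((∑ j, ((δ * v x.1 j).im * (2 * x.2 j - ε j * (z * v x.1 j).re) -
          (z * v x.1 j).im * (ε j * (δ * v x.1 j).re)) : ℝ) : ℂ)) *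
          F (x.1, fun j => x.2 j - ε j * (z * v x.1 j).re) -
        ∑ j, ((ε j * (δ * v x.1 j).re : ℝ) : ℂ) *
          dT j F (x.1, fun j => x.2 j - ε j * (z * v x.1 j).re)) := by
  have h1 := vz_line ε a v hF.1 z δ x.1 x.2 0
  have h2 : HasDerivAt (fun s : ℝ => Vz ε a v (z + s * δ) F x)
      (fderiv ℝ (fun p : ℂ × XX n => Vz ε a v p.1 F p.2) (z, x) (δ, 0)) 0 := by
    have hp : HasDerivAt (fun s : ℝ => ((z + s * δ, x) : ℂ × XX n)) (δ, 0) 0 := by
      refine HasDerivAt.prodMk ?_ (hasDerivAt_const (0 : ℝ) x)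
      have h3 := ((hasDerivAt_id (0 : ℝ)).ofReal_comp.mul_const δ).const_add z
      simpa using h3
    have hd : HasFDerivAt (fun p : ℂ × XX n => Vz ε a v p.1 F p.2)
        (fderiv ℝ (fun p : ℂ × XX n => Vz ε a v p.1 F p.2) (z, x))
        ((z + ((0 : ℝ) : ℂ) * δ, x) : ℂ × XX n) := by
      rw [Complex.ofReal_zero, zero_mul, add_zero]
      exact ((vz_contDiff ε a hΩ hK hKΩ hv hF).differentiable
        (by simp)).differentiableAt.hasFDerivAt
    exact hd.comp_hasDerivAt (0 : ℝ) hp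
  simp only [Pi.zero_apply, mul_zero, add_zero, zero_sub] at h1
  have h3 := h2.unique h1
  rw [h3, vz_sum]
  congr 1
  rw [sub_eq_add_neg, ← Finset.sum_neg_distrib]
  congr 1
  · congr 4
    refine Finset.sum_congr rfl fun j _ => ?_
    ring
  · refine Finset.sum_congr rfl fun j _ => ?_
    push_cast
    ring

private theorem vz_id1 (ε : ℝ) (hε : ε = 1 ∨ ε = -1) (a t : ℝ) (w z δ E F0 F1 : ℂ) :
    E * (-(Complex.I * a * (((δ * w).im * (2 * t - ε * (z * w).re) -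
        (z * w).im * (ε * (δ * w).re) : ℝ) : ℂ)) * F0) - E * (((ε * (δ * w).re : ℝ) : ℂ) * F1) =
      δ * (-((ε : ℂ) * w * ((1 / 2) * (E * (-(2 * Complex.I * a * (((z * w).im : ℝ) : ℂ)) * F0 + F1) +
        2 * a * ε * t * (E * F0))))) +
      conj δ * (-((ε : ℂ) * conj w * ((1 / 2) *
        (E * (-(2 * Complex.I * a * (((z * w).im : ℝ) : ℂ)) * F0 + F1) -
        2 * a * ε * t * (E * F0))))) -
      Complex.I * a * (((z * conj δ).im : ℝ) : ℂ) * ((ε : ℂ) * w * conj w * (E * F0)) := by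
  have h1 : (ε : ℂ) * ε = 1 := by
    rcases hε with h | h <;> rw [h] <;> norm_num
  have hI : Complex.I * Complex.I = -1 := Complex.I_mul_I
  have him : ∀ p : ℂ, ((p.im : ℝ) : ℂ) = -(Complex.I / 2) * (p - conj p) := by
    intro p
    rw [Complex.im_eq_sub_conj]
    have : (2 * Complex.I) ≠ 0 := by simp
    rw [div_eq_iff this]
    linear_combination (p - conj p) * hI
  have hre : ∀ p : ℂ, ((p.re : ℝ) : ℂ) = (p + conj p) / 2 := Complex.re_eq_add_conj
  push_cast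
  rw [him, him, him, hre, hre]
  simp only [map_mul, Complex.conj_conj]
  linear_combination (E * a * t * F0 * (δ * w - conj δ * conj w)) * hI +
    (E * a * t * F0 * (δ * w - conj δ * conj w)) * h1

theorem Vz_fderiv (ε : Fin n → ℝ) (hε : ∀ j, ε j = 1 ∨ ε j = -1) (a : ℝ) {Ω K : Set (Mat n)}
    (hΩ : IsOpen Ω) (hK : IsCompact K) (hKΩ : K ⊆ Ω) {v : Mat n → Fin n → ℂ}
    (hv : ContDiffOn ℝ ∞ v Ω) {F : XX n → ℂ} (hF : F ∈ TFK K) (z δ : ℂ) :
    (fun x => fderiv ℝ (fun p : ℂ × XX n => Vz ε a v p.1 F p.2) (z, x) (δ, 0)) =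
      δ • opA ε a v (Vz ε a v z F) + conj δ • opB ε a v (Vz ε a v z F) -
        (Complex.I * a * ((z * conj δ).im : ℝ)) •
          mG (fun g => hf ε (v g) (v g)) (Vz ε a v z F) := by
  funext x
  rw [vz_dz ε a hΩ hK hKΩ hv hF z δ x]
  simp only [Pi.add_apply, Pi.sub_apply, Pi.smul_apply, smul_eq_mul, opA, opB, mG, hf,
    vz_dT ε a hΩ hK hKΩ hv hF z]
  have hVz : Vz ε a v z F x = Complex.exp (-(Complex.I * a * ((∑ j, (z * v x.1 j).im *
        (2 * x.2 j - ε j * (z * v x.1 j).re) : ℝ) : ℂ))) *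
          F (x.1, fun j => x.2 j - ε j * (z * v x.1 j).re) := rfl
  rw [hVz]
  generalize Complex.exp (-(Complex.I * a * ((∑ j, (z * v x.1 j).im *
        (2 * x.2 j - ε j * (z * v x.1 j).re) : ℝ) : ℂ))) = E
  generalize F (x.1, fun j => x.2 j - ε j * (z * v x.1 j).re) = F0
  simp only [Complex.ofReal_sum, mul_sub E, Finset.mul_sum, Finset.sum_mul, ← Finset.sum_neg_distrib,
    ← Finset.sum_add_distrib, ← Finset.sum_sub_distrib]
  refine Finset.sum_congr rfl fun j _ => ?_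
  have h := vz_id1 (ε j) (hε j) a (x.2 j) (v x.1 j) z δ E F0
    (dT j F (x.1, fun j => x.2 j - ε j * (z * v x.1 j).re))
  linear_combination h

private theorem vz_id2 (ε : ℝ) (hε : ε = 1 ∨ ε = -1) (a t : ℝ) (w z E F0 F1 : ℂ) :
    -((ε : ℂ) * w * ((1 / 2) * (E * (-(2 * Complex.I * a * (((z * w).im : ℝ) : ℂ)) * F0 + F1) +
        2 * a * ε * t * (E * F0)))) =
      -(E * ((ε : ℂ) * w * ((1 / 2) * (F1 + 2 * a * ε * ((t - ε * (z * w).re : ℝ) : ℂ) * F0)))) -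
        a * conj z * ((ε : ℂ) * w * conj w * (E * F0)) := by
  have h1 : (ε : ℂ) * ε = 1 := by
    rcases hε with h | h <;> rw [h] <;> norm_num
  have hI : Complex.I * Complex.I = -1 := Complex.I_mul_I
  have him : ∀ p : ℂ, ((p.im : ℝ) : ℂ) = -(Complex.I / 2) * (p - conj p) := by
    intro p
    rw [Complex.im_eq_sub_conj]
    have : (2 * Complex.I) ≠ 0 := by simp
    rw [div_eq_iff this]
    linear_combination (p - conj p) * hI
  have hre : ∀ p : ℂ, ((p.re : ℝ) : ℂ) = (p + conj p) / 2 := Complex.re_eq_add_conj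
  push_cast
  rw [him, hre]
  simp only [map_mul]
  linear_combination (ε * w * E * a * F0 / 2 * (conj z * conj w - z * w)) * hI -
    (ε * w * E * a * F0 / 2 * (conj z * conj w + z * w)) * h1

private theorem vz_id3 (ε : ℝ) (hε : ε = 1 ∨ ε = -1) (a t : ℝ) (w z E F0 F1 : ℂ) :
    -((ε : ℂ) * conj w * ((1 / 2) *
        (E * (-(2 * Complex.I * a * (((z * w).im : ℝ) : ℂ)) * F0 + F1) -
        2 * a * ε * t * (E * F0)))) =
      -(E * ((ε : ℂ) * conj w * ((1 / 2) *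
        (F1 - 2 * a * ε * ((t - ε * (z * w).re : ℝ) : ℂ) * F0)))) +
        a * z * ((ε : ℂ) * w * conj w * (E * F0)) := by
  have h1 : (ε : ℂ) * ε = 1 := by
    rcases hε with h | h <;> rw [h] <;> norm_num
  have hI : Complex.I * Complex.I = -1 := Complex.I_mul_I
  have him : ∀ p : ℂ, ((p.im : ℝ) : ℂ) = -(Complex.I / 2) * (p - conj p) := by
    intro p
    rw [Complex.im_eq_sub_conj]
    have : (2 * Complex.I) ≠ 0 := by simp
    rw [div_eq_iff this]
    linear_combination (p - conj p) * hI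
  have hre : ∀ p : ℂ, ((p.re : ℝ) : ℂ) = (p + conj p) / 2 := Complex.re_eq_add_conj
  push_cast
  rw [him, hre]
  simp only [map_mul]
  linear_combination (ε * conj w * E * a * F0 / 2 * (conj z * conj w - z * w)) * hI +
    (ε * conj w * E * a * F0 / 2 * (conj z * conj w + z * w)) * h1

theorem opA_Vz (ε : Fin n → ℝ) (hε : ∀ j, ε j = 1 ∨ ε j = -1) (a : ℝ) {Ω K : Set (Mat n)}
    (hΩ : IsOpen Ω) (hK : IsCompact K) (hKΩ : K ⊆ Ω) {v : Mat n → Fin n → ℂ}
    (hv : ContDiffOn ℝ ∞ v Ω) {F : XX n → ℂ} (hF : F ∈ TFK K) (z : ℂ) :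
    opA ε a v (Vz ε a v z F) = Vz ε a v z (opA ε a v F) -
      (a * conj z) • mG (fun g => hf ε (v g) (v g)) (Vz ε a v z F) := by
  funext x
  have hVz : ∀ G : XX n → ℂ, Vz ε a v z G x = Complex.exp (-(Complex.I * a *
      ((∑ j, (z * v x.1 j).im * (2 * x.2 j - ε j * (z * v x.1 j).re) : ℝ) : ℂ))) *
          G (x.1, fun j => x.2 j - ε j * (z * v x.1 j).re) := fun G => rfl
  simp only [Pi.sub_apply, Pi.smul_apply, smul_eq_mul, mG, hf, hVz]
  simp only [opA, vz_dT ε a hΩ hK hKΩ hv hF z, hVz]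
  generalize Complex.exp (-(Complex.I * a * ((∑ j, (z * v x.1 j).im *
        (2 * x.2 j - ε j * (z * v x.1 j).re) : ℝ) : ℂ))) = E
  generalize F (x.1, fun j => x.2 j - ε j * (z * v x.1 j).re) = F0
  simp only [mul_neg, Finset.mul_sum, Finset.sum_mul, ← Finset.sum_neg_distrib,
    ← Finset.sum_sub_distrib]
  refine Finset.sum_congr rfl fun j _ => ?_
  have h := vz_id2 (ε j) (hε j) a (x.2 j) (v x.1 j) z E F0
    (dT j F (x.1, fun j => x.2 j - ε j * (z * v x.1 j).re))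
  linear_combination h

theorem opB_Vz (ε : Fin n → ℝ) (hε : ∀ j, ε j = 1 ∨ ε j = -1) (a : ℝ) {Ω K : Set (Mat n)}
    (hΩ : IsOpen Ω) (hK : IsCompact K) (hKΩ : K ⊆ Ω) {v : Mat n → Fin n → ℂ}
    (hv : ContDiffOn ℝ ∞ v Ω) {F : XX n → ℂ} (hF : F ∈ TFK K) (z : ℂ) :
    opB ε a v (Vz ε a v z F) = Vz ε a v z (opB ε a v F) +
      (a * z) • mG (fun g => hf ε (v g) (v g)) (Vz ε a v z F) := by
  funext x
  have hVz : ∀ G : XX n → ℂ, Vz ε a v z G x = Complex.exp (-(Complex.I * a *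
      ((∑ j, (z * v x.1 j).im * (2 * x.2 j - ε j * (z * v x.1 j).re) : ℝ) : ℂ))) *
          G (x.1, fun j => x.2 j - ε j * (z * v x.1 j).re) := fun G => rfl
  simp only [Pi.add_apply, Pi.smul_apply, smul_eq_mul, mG, hf, hVz]
  simp only [opB, vz_dT ε a hΩ hK hKΩ hv hF z, hVz]
  generalize Complex.exp (-(Complex.I * a * ((∑ j, (z * v x.1 j).im *
        (2 * x.2 j - ε j * (z * v x.1 j).re) : ℝ) : ℂ))) = E
  generalize F (x.1, fun j => x.2 j - ε j * (z * v x.1 j).re) = F0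
  simp only [mul_neg, Finset.mul_sum, Finset.sum_mul, ← Finset.sum_neg_distrib,
    ← Finset.sum_add_distrib]
  refine Finset.sum_congr rfl fun j _ => ?_
  have h := vz_id3 (ε j) (hε j) a (x.2 j) (v x.1 j) z E F0
    (dT j F (x.1, fun j => x.2 j - ε j * (z * v x.1 j).re))
  linear_combination h

end

end Pool.Agent.Work.MP_dd0ddf_al.AR
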