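import Pool.Agent.Work.MP_dd0ddf_al.AR.WHerm
import Pool.Agent.Work.MP_dd0ddf_al.AR.OCom

/-!
# MP_dd0ddf_al, archimedean part, W-block, module WAlg: commutation relations of AA, BB, QQ

Proofs.

The module OCom (proved, namespace `AR.O`) contains `O.td_tm`, `O.td_td`, `O.tm_tm` and
`O.AA_BB_comm : AA u (BB v y) = BB v (AA u y) + (a * hf ε u v) • y`, `O.AA_AA_comm`, `O.BB_BB_comm`.

`AA_add`, `AA_smul`, `BB_add`, `BB_smul`: from the definitions (`BB` is conjugate linear in `r`).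

`QQ_AA`: `QQ u (AA r f) = (i/a) AA u (BB u (AA r f)) = (i/a) AA u (AA r (BB u f) - a hf(r,u) f)`
`= (i/a) AA r (AA u (BB u f)) - i hf(r,u) AA u f = AA r (QQ u f) - AA (r ᵥ* Zm ε u) f`, because
`r ᵥ* Zm ε u = (i hf(r,u)) • u` (`vecMul_Zm`).  (`a ≠ 0` is used.)
`QQ_BB`: `QQ u (BB r f) = (i/a) AA u (BB r (BB u f)) = (i/a) (BB r (AA u (BB u f)) + a hf(u,r) BB u f)
= BB r (QQ u f) + i hf(u,r) BB u f`, and `BB (r ᵥ* Zm ε u) f = conj(i hf(r,u)) BB u f
= - i hf(u,r) BB u f` (`hf_conj`).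

`td_of_AB`, `tm_of_AB`: `AA e_l + BB e_l = ε_l td l`, `BB e_l - AA e_l = 2 a tm l` for
`e_l = Pi.single l 1` (`ε_l^2 = 1`).

`QQ_rel`: `QQ u f = (i/a) ∑_{j,l} ε_j u_j ε_l conj(u_l) (1/4) D_j^-(D_l^+ f)` and
`(Zm ε u) l j = i ε_l conj(u_l) u_j`, so `u_j conj(u_l) = - i ε_l (Zm ε u) l j` (`ε_l^2 = 1`); the
sum over `α` with the coefficients `c α` vanishes for every `(j, l)`.
-/

set_option linter.unusedSectionVars false

namespace Pool.Agent.Work.MP_dd0ddf_al.AR.WB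

open scoped SchwartzMap Matrix.Norms.Elementwise ComplexConjugate ContDiff Topology LineDeriv
open Matrix MeasureTheory Filter

variable {n : ℕ} {ε : Fin n → ℝ} {a : ℝ}

private theorem wa_AA (ε : Fin n → ℝ) (a : ℝ) (r : Fin n → ℂ) (f : Sch n) :
    AA ε a r f = ∑ j, ((ε j : ℂ) * r j * (1 / 2)) • (td j f - (2 * a * ε j : ℂ) • tm j f) := by
  unfold AA
  simp only [_root_.sum_apply, _root_.smul_apply, _root_.sub_apply]

private theorem wa_BB (ε : Fin n → ℝ) (a : ℝ) (r : Fin n → ℂ) (f : Sch n) :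
    BB ε a r f =
      ∑ j, ((ε j : ℂ) * conj (r j) * (1 / 2)) • (td j f + (2 * a * ε j : ℂ) • tm j f) := by
  unfold BB
  simp only [_root_.sum_apply, _root_.smul_apply, _root_.add_apply]

private theorem wa_QQ (ε : Fin n → ℝ) (a : ℝ) (u : Fin n → ℂ) (f : Sch n) :
    QQ ε a u f = (Complex.I / a) • AA ε a u (BB ε a u f) := rfl

theorem AA_add (r r' : Fin n → ℂ) (f : Sch n) :
    AA ε a (r + r') f = AA ε a r f + AA ε a r' f := by
  rw [wa_AA, wa_AA, wa_AA, ← Finset.sum_add_distrib]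
  refine Finset.sum_congr rfl fun j _ => ?_
  rw [Pi.add_apply, ← add_smul]
  congr 1
  ring

theorem AA_smul (c : ℂ) (r : Fin n → ℂ) (f : Sch n) : AA ε a (c • r) f = c • AA ε a r f := by
  rw [wa_AA, wa_AA, Finset.smul_sum]
  refine Finset.sum_congr rfl fun j _ => ?_
  rw [Pi.smul_apply, smul_eq_mul, smul_smul]
  congr 1
  ring

theorem BB_add (r r' : Fin n → ℂ) (f : Sch n) :
    BB ε a (r + r') f = BB ε a r f + BB ε a r' f := by
  rw [wa_BB, wa_BB, wa_BB, ← Finset.sum_add_distrib]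
  refine Finset.sum_congr rfl fun j _ => ?_
  rw [Pi.add_apply, ← add_smul, map_add]
  congr 1
  ring

theorem BB_smul (c : ℂ) (r : Fin n → ℂ) (f : Sch n) :
    BB ε a (c • r) f = conj c • BB ε a r f := by
  rw [wa_BB, wa_BB, Finset.smul_sum]
  refine Finset.sum_congr rfl fun j _ => ?_
  rw [Pi.smul_apply, smul_eq_mul, smul_smul, map_mul]
  congr 1
  ring

theorem QQ_AA (hep : ∀ j, ε j = 1 ∨ ε j = -1) (ha : a ≠ 0) (u r : Fin n → ℂ) (f : Sch n) :
    QQ ε a u (AA ε a r f) = AA ε a r (QQ ε a u f) - AA ε a (r ᵥ* Zm ε u) f := by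
  have hac : (a : ℂ) ≠ 0 := Complex.ofReal_ne_zero.mpr ha
  have h1 : BB ε a u (AA ε a r f) = AA ε a r (BB ε a u f) - ((a : ℂ) * hf ε r u) • f :=
    eq_sub_of_add_eq (O.AA_BB_comm hep a r u f).symm
  rw [wa_QQ, wa_QQ, h1, map_sub, map_smul, map_smul, O.AA_AA_comm ε a u r, vecMul_Zm, AA_smul,
    smul_sub, smul_smul]
  congr 2
  field_simp

theorem QQ_BB (hep : ∀ j, ε j = 1 ∨ ε j = -1) (ha : a ≠ 0) (u r : Fin n → ℂ) (f : Sch n) :
    QQ ε a u (BB ε a r f) = BB ε a r (QQ ε a u f) - BB ε a (r ᵥ* Zm ε u) f := by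
  have hac : (a : ℂ) ≠ 0 := Complex.ofReal_ne_zero.mpr ha
  rw [wa_QQ, wa_QQ, O.BB_BB_comm ε a u r, O.AA_BB_comm hep a u r, map_smul, vecMul_Zm, BB_smul,
    smul_add, smul_smul, sub_eq_add_neg, ← neg_smul]
  congr 2
  rw [map_mul, hf_conj, Complex.conj_I]
  field_simp

theorem td_of_AB (hep : ∀ j, ε j = 1 ∨ ε j = -1) (l : Fin n) (f : Sch n) :
    td l f = (ε l : ℂ) • (AA ε a (Pi.single l 1) f + BB ε a (Pi.single l 1) f) := by
  have h2 : (ε l : ℂ) * ε l = 1 := by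
    rcases hep l with h | h <;> rw [h] <;> norm_num
  have hA : AA ε a (Pi.single l 1) f =
      ((ε l : ℂ) * 1 * (1 / 2)) • (td l f - (2 * a * ε l : ℂ) • tm l f) := by
    rw [wa_AA, Finset.sum_eq_single l]
    · rw [Pi.single_eq_same]
    · intro j _ hj
      rw [Pi.single_eq_of_ne hj, mul_zero, zero_mul, zero_smul]
    · intro h
      exact absurd (Finset.mem_univ l) h
  have hB : BB ε a (Pi.single l 1) f =
      ((ε l : ℂ) * 1 * (1 / 2)) • (td l f + (2 * a * ε l : ℂ) • tm l f) := by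
    rw [wa_BB, Finset.sum_eq_single l]
    · rw [Pi.single_eq_same, map_one]
    · intro j _ hj
      rw [Pi.single_eq_of_ne hj, map_zero, mul_zero, zero_mul, zero_smul]
    · intro h
      exact absurd (Finset.mem_univ l) h
  rw [hA, hB]
  generalize td l f = x
  generalize tm l f = y
  have h3 : (ε l : ℂ) • (((ε l : ℂ) * 1 * (1 / 2)) • (x - (2 * a * ε l : ℂ) • y) +
      ((ε l : ℂ) * 1 * (1 / 2)) • (x + (2 * a * ε l : ℂ) • y)) = ((ε l : ℂ) * ε l) • x := by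
    module
  rw [h3, h2, one_smul]

theorem tm_of_AB (hep : ∀ j, ε j = 1 ∨ ε j = -1) (ha : a ≠ 0) (l : Fin n) (f : Sch n) :
    tm l f = (1 / (2 * a) : ℂ) • (BB ε a (Pi.single l 1) f - AA ε a (Pi.single l 1) f) := by
  have hac : (a : ℂ) ≠ 0 := Complex.ofReal_ne_zero.mpr ha
  have h2 : (ε l : ℂ) * ε l = 1 := by
    rcases hep l with h | h <;> rw [h] <;> norm_num
  have hA : AA ε a (Pi.single l 1) f =
      ((ε l : ℂ) * 1 * (1 / 2)) • (td l f - (2 * a * ε l : ℂ) • tm l f) := by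
    rw [wa_AA, Finset.sum_eq_single l]
    · rw [Pi.single_eq_same]
    · intro j _ hj
      rw [Pi.single_eq_of_ne hj, mul_zero, zero_mul, zero_smul]
    · intro h
      exact absurd (Finset.mem_univ l) h
  have hB : BB ε a (Pi.single l 1) f =
      ((ε l : ℂ) * 1 * (1 / 2)) • (td l f + (2 * a * ε l : ℂ) • tm l f) := by
    rw [wa_BB, Finset.sum_eq_single l]
    · rw [Pi.single_eq_same, map_one]
    · intro j _ hj
      rw [Pi.single_eq_of_ne hj, map_zero, mul_zero, zero_mul, zero_smul]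
    · intro h
      exact absurd (Finset.mem_univ l) h
  rw [hA, hB]
  generalize td l f = x
  generalize tm l f = y
  have h3 : (1 / (2 * a) : ℂ) • (((ε l : ℂ) * 1 * (1 / 2)) • (x + (2 * a * ε l : ℂ) • y) -
      ((ε l : ℂ) * 1 * (1 / 2)) • (x - (2 * a * ε l : ℂ) • y)) =
      ((1 / (2 * a) : ℂ) * (2 * a) * ((ε l : ℂ) * ε l)) • y := by
    module
  rw [h3, h2, mul_one, one_div, inv_mul_cancel₀ (mul_ne_zero two_ne_zero hac), one_smul]

theorem QQ_rel (hep : ∀ j, ε j = 1 ∨ ε j = -1) {ι : Type} [Fintype ι] (c : ι → ℝ)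
    (u : ι → Fin n → ℂ) (hrel : ∑ α, (c α : ℂ) • Zm ε (u α) = 0) (f : Sch n) :
    ∑ α, (c α : ℂ) • QQ ε a (u α) f = 0 := by
  have key : ∀ v : Fin n → ℂ, QQ ε a v f = ∑ j, ∑ l,
      ((1 / a : ℂ) * (ε j / 4) * Zm ε v l j) •
        (td j (td l f + (2 * a * ε l : ℂ) • tm l f) -
          (2 * a * ε j : ℂ) • tm j (td l f + (2 * a * ε l : ℂ) • tm l f)) := by
    intro v
    rw [wa_QQ, wa_AA, Finset.smul_sum]
    refine Finset.sum_congr rfl fun j _ => ?_
    rw [wa_BB]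
    have e1 : td j (∑ l, ((ε l : ℂ) * conj (v l) * (1 / 2)) •
        (td l f + (2 * a * ε l : ℂ) • tm l f)) - (2 * a * ε j : ℂ) •
        tm j (∑ l, ((ε l : ℂ) * conj (v l) * (1 / 2)) •
          (td l f + (2 * a * ε l : ℂ) • tm l f)) =
        ∑ l, ((ε l : ℂ) * conj (v l) * (1 / 2)) •
          (td j (td l f + (2 * a * ε l : ℂ) • tm l f) -
            (2 * a * ε j : ℂ) • tm j (td l f + (2 * a * ε l : ℂ) • tm l f)) := by
      rw [map_sum, map_sum, Finset.smul_sum, ← Finset.sum_sub_distrib]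
      refine Finset.sum_congr rfl fun l _ => ?_
      rw [map_smul, map_smul, smul_sub, smul_comm]
    rw [e1, Finset.smul_sum, Finset.smul_sum]
    refine Finset.sum_congr rfl fun l _ => ?_
    rw [smul_smul, smul_smul]
    congr 1
    unfold Zm
    rw [Matrix.of_apply]
    ring
  have e2 : ∀ α, (c α : ℂ) • QQ ε a (u α) f = ∑ j, ∑ l,
      ((1 / a : ℂ) * (ε j / 4) * ((c α : ℂ) * Zm ε (u α) l j)) •
        (td j (td l f + (2 * a * ε l : ℂ) • tm l f) -
          (2 * a * ε j : ℂ) • tm j (td l f + (2 * a * ε l : ℂ) • tm l f)) := by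
    intro α
    rw [key, Finset.smul_sum]
    refine Finset.sum_congr rfl fun j _ => ?_
    rw [Finset.smul_sum]
    refine Finset.sum_congr rfl fun l _ => ?_
    rw [smul_smul]
    congr 1
    ring
  rw [Finset.sum_congr rfl (fun α _ => e2 α), Finset.sum_comm]
  refine Finset.sum_eq_zero fun j _ => ?_
  rw [Finset.sum_comm]
  refine Finset.sum_eq_zero fun l _ => ?_
  rw [← Finset.sum_smul, ← Finset.mul_sum]
  have e3 : ∑ α, (c α : ℂ) * Zm ε (u α) l j = 0 := by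
    have h1 := congrFun (congrFun hrel l) j
    rw [Matrix.sum_apply] at h1
    simpa [Matrix.smul_apply] using h1
  rw [e3, mul_zero, zero_smul]

end Pool.Agent.Work.MP_dd0ddf_al.AR.WB
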