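import Pool.Agent.Work.MP_dd0ddf_al.AR.WDefs
import Pool.Agent.Work.MP_dd0ddf_al.AR.OUJ

/-!
# MP_dd0ddf_al, archimedean part, W-block, module WHerm: algebra in `U(V)`

`J = diagonal ε`, `J^2 = 1` (`hep`).  For matrices `h^*` is the conjugate transpose.

Proofs.

`nrm_eq`: `z * conj z = ‖z‖^2` (`Complex.mul_conj`, `Complex.normSq_eq_norm_sq`).
`hf_self_real`-type facts follow from it.

`star_mul_J_mul`: apply the definition of `UJ ε` to `v = Pi.single l 1`, `w = Pi.single j 1`: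
`skf ε (h v) (h w) = i (h^* J h)_{j l}`, `skf ε v w = i J_{j l}`.  So `h^* J h = J`.

`mul_J_mul_star`: from `h^* J h = J`: `(J h^* J) h = J J = 1`, so `h (J h^* J) = 1`
(`mul_eq_one_comm` for square matrices), and multiply by `J` on the right: `h J h^* = J`.  Also
`h⁻¹ = J h^* J`.

`hf_vecMul`: this is `O.UJ_mem_RU` (module OUJ, proved; its private lemmas can be copied).

`mulVec_fl`: `(h (fl r))_j = ∑_l h_{jl} ε_l conj(r_l) = (h J r^*)_j` and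
`fl (r h⁻¹) = J (r h⁻¹)^* = J (h⁻¹)^* r^* = J (J h^* J)^* r^* = J J h J r^* = h J r^*`.

`vecMul_Zm`, `Zm_sq`: `(x Zm)_l = ∑_j x_j i ε_j conj(u_j) u_l = i hf(x,u) u_l`;
`(Zm Zm)_{jl} = ∑_k (i ε_j conj(u_j) u_k)(i ε_k conj(u_k) u_l) = i hf(u,u) (i ε_j conj(u_j) u_l)`.

`Zm_conj`: `Zm ε u = i (fl u) ⊗ u` (`Matrix.vecMulVec (fl ε u) u` times `i`), so
`h Zm(u) h⁻¹ = i (h fl u) ⊗ (u h⁻¹) = i (fl (u h⁻¹)) ⊗ (u h⁻¹) = Zm (u h⁻¹)`.
`nrm_vecMul`: from `hf_vecMul` and `nrm_eq`.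
-/

set_option linter.unusedSectionVars false

namespace Pool.Agent.Work.MP_dd0ddf_al.AR.WB

open scoped SchwartzMap Matrix.Norms.Elementwise ComplexConjugate ContDiff Topology LineDeriv
open Matrix MeasureTheory Filter

variable {n : ℕ} {ε : Fin n → ℝ}

private noncomputable def whJ (ε : Fin n → ℝ) : Mat n := Matrix.diagonal fun j => (ε j : ℂ)

private theorem whJ_sq (hep : ∀ j, ε j = 1 ∨ ε j = -1) : whJ ε * whJ ε = 1 := by
  unfold whJ
  rw [Matrix.diagonal_mul_diagonal, ← Matrix.diagonal_one]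
  congr 1
  funext j
  rcases hep j with h | h <;> rw [h] <;> norm_num

private theorem wh_hf' (ε : Fin n → ℝ) (x y : Fin n → ℂ) :
    hf ε x y = star y ⬝ᵥ (whJ ε *ᵥ x) := by
  unfold hf whJ dotProduct
  refine Finset.sum_congr rfl fun j _ => ?_
  rw [Matrix.mulVec_diagonal]
  simp only [Pi.star_apply, RCLike.star_def]
  ring

private theorem wh_hf (ε : Fin n → ℝ) (x y : Fin n → ℂ) :
    hf ε x y = x ⬝ᵥ (whJ ε *ᵥ star y) := by
  unfold hf whJ dotProduct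
  refine Finset.sum_congr rfl fun j _ => ?_
  rw [Matrix.mulVec_diagonal]
  simp only [Pi.star_apply, RCLike.star_def]
  ring

private theorem wh_col {h : Mat n}
    (hh : ∀ v w, hf ε (h *ᵥ v) (h *ᵥ w) = hf ε v w) : hᴴ * whJ ε * h = whJ ε := by
  have key : ∀ v w : Fin n → ℂ,
      hf ε (h *ᵥ v) (h *ᵥ w) = star w ⬝ᵥ ((hᴴ * whJ ε * h) *ᵥ v) := by
    intro v w
    rw [wh_hf', Matrix.star_mulVec, ← Matrix.dotProduct_mulVec, Matrix.mulVec_mulVec,
      Matrix.mulVec_mulVec, Matrix.mul_assoc]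
  ext i k
  have h1 := hh (Pi.single k 1) (Pi.single i 1)
  rw [key, wh_hf'] at h1
  have e1 : (star (Pi.single i (1 : ℂ)) : Fin n → ℂ) = Pi.single i 1 := by
    funext l
    by_cases hl : l = i
    · subst hl
      simp
    · simp [Pi.single_eq_of_ne hl]
  rw [e1] at h1
  simpa using h1

theorem nrm_eq (ε : Fin n → ℝ) (u : Fin n → ℂ) : ((nrm ε u : ℝ) : ℂ) = hf ε u u := by
  unfold nrm hf
  push_cast
  refine Finset.sum_congr rfl fun j _ => ?_
  rw [mul_assoc, Complex.mul_conj, Complex.normSq_eq_norm_sq]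
  push_cast
  rfl

theorem hf_conj (ε : Fin n → ℝ) (x y : Fin n → ℂ) : conj (hf ε x y) = hf ε y x := by
  unfold hf
  rw [map_sum]
  refine Finset.sum_congr rfl fun j _ => ?_
  simp only [map_mul, Complex.conj_conj, Complex.conj_ofReal]
  ring

theorem star_mul_J_mul (h : UJ ε) :
    ((h : GLn n) : Mat n)ᴴ * Matrix.diagonal (fun j => (ε j : ℂ)) * ((h : GLn n) : Mat n) =
      Matrix.diagonal (fun j => (ε j : ℂ)) := by
  apply wh_col
  intro v w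
  have h2 := h.2 v w
  exact mul_left_cancel₀ Complex.I_ne_zero h2

private theorem wh_left (hep : ∀ j, ε j = 1 ∨ ε j = -1) (h : UJ ε) :
    (whJ ε * ((h : GLn n) : Mat n)ᴴ * whJ ε) * ((h : GLn n) : Mat n) = 1 := by
  have h1 : ((h : GLn n) : Mat n)ᴴ * whJ ε * ((h : GLn n) : Mat n) = whJ ε := star_mul_J_mul h
  calc (whJ ε * ((h : GLn n) : Mat n)ᴴ * whJ ε) * ((h : GLn n) : Mat n)
      = whJ ε * (((h : GLn n) : Mat n)ᴴ * whJ ε * ((h : GLn n) : Mat n)) := by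
        simp only [Matrix.mul_assoc]
    _ = 1 := by rw [h1, whJ_sq hep]

theorem mul_J_mul_star (hep : ∀ j, ε j = 1 ∨ ε j = -1) (h : UJ ε) :
    ((h : GLn n) : Mat n) * Matrix.diagonal (fun j => (ε j : ℂ)) * ((h : GLn n) : Mat n)ᴴ =
      Matrix.diagonal (fun j => (ε j : ℂ)) := by
  have h4 := mul_eq_one_comm.mp (wh_left hep h)
  change ((h : GLn n) : Mat n) * whJ ε * ((h : GLn n) : Mat n)ᴴ = whJ ε
  calc ((h : GLn n) : Mat n) * whJ ε * ((h : GLn n) : Mat n)ᴴ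
      = (((h : GLn n) : Mat n) * (whJ ε * ((h : GLn n) : Mat n)ᴴ * whJ ε)) * whJ ε := by
        simp only [Matrix.mul_assoc, whJ_sq hep, Matrix.mul_one]
    _ = whJ ε := by rw [h4, Matrix.one_mul]

private theorem wh_coe_inv (h : UJ ε) :
    (((h⁻¹ : UJ ε) : GLn n) : Mat n) = (((h : GLn n) : Mat n))⁻¹ := Matrix.coe_units_inv _

theorem inv_eq (hep : ∀ j, ε j = 1 ∨ ε j = -1) (h : UJ ε) :
    (((h⁻¹ : UJ ε) : GLn n) : Mat n) = Matrix.diagonal (fun j => (ε j : ℂ)) *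
      ((h : GLn n) : Mat n)ᴴ * Matrix.diagonal (fun j => (ε j : ℂ)) := by
  rw [wh_coe_inv]
  exact Matrix.inv_eq_left_inv (wh_left hep h)

theorem hf_vecMul (hep : ∀ j, ε j = 1 ∨ ε j = -1) (h : UJ ε) (x y : Fin n → ℂ) :
    hf ε (x ᵥ* ((h : GLn n) : Mat n)) (y ᵥ* ((h : GLn n) : Mat n)) = hf ε x y := by
  have hJ : ((h : GLn n) : Mat n) * whJ ε * ((h : GLn n) : Mat n)ᴴ = whJ ε := mul_J_mul_star hep h
  rw [wh_hf, Matrix.star_vecMul, ← Matrix.dotProduct_mulVec, Matrix.mulVec_mulVec,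
    Matrix.mulVec_mulVec, hJ, wh_hf]

private theorem fl_eq (ε : Fin n → ℝ) (r : Fin n → ℂ) : fl ε r = whJ ε *ᵥ star r := by
  funext j
  unfold fl whJ
  rw [Matrix.mulVec_diagonal]
  simp only [Pi.star_apply, RCLike.star_def]

private theorem whJ_star (ε : Fin n → ℝ) : (whJ ε)ᴴ = whJ ε := by
  unfold whJ
  rw [Matrix.diagonal_conjTranspose]
  congr 1
  funext j
  simp only [Pi.star_apply, RCLike.star_def, Complex.conj_ofReal]

theorem mulVec_fl (hep : ∀ j, ε j = 1 ∨ ε j = -1) (h : UJ ε) (r : Fin n → ℂ) :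
    ((h : GLn n) : Mat n) *ᵥ fl ε r = fl ε (r ᵥ* (((h⁻¹ : UJ ε) : GLn n) : Mat n)) := by
  have hi : (((h⁻¹ : UJ ε) : GLn n) : Mat n) = whJ ε * ((h : GLn n) : Mat n)ᴴ * whJ ε :=
    inv_eq hep h
  have hs : ((((h⁻¹ : UJ ε) : GLn n) : Mat n))ᴴ = whJ ε * ((h : GLn n) : Mat n) * whJ ε := by
    rw [hi, Matrix.conjTranspose_mul, Matrix.conjTranspose_mul, whJ_star,
      Matrix.conjTranspose_conjTranspose, Matrix.mul_assoc]
  rw [fl_eq, fl_eq, Matrix.star_vecMul, hs, Matrix.mulVec_mulVec, Matrix.mulVec_mulVec]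
  congr 1
  calc ((h : GLn n) : Mat n) * whJ ε = (whJ ε * whJ ε) * ((h : GLn n) : Mat n) * whJ ε := by
        rw [whJ_sq hep, Matrix.one_mul]
    _ = whJ ε * (whJ ε * ((h : GLn n) : Mat n) * whJ ε) := by simp only [Matrix.mul_assoc]

theorem vecMul_Zm (ε : Fin n → ℝ) (x u : Fin n → ℂ) :
    x ᵥ* Zm ε u = (Complex.I * hf ε x u) • u := by
  funext l
  unfold Zm hf
  simp only [Matrix.vecMul, dotProduct, Matrix.of_apply, Pi.smul_apply, smul_eq_mul,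
    Finset.mul_sum, Finset.sum_mul]
  refine Finset.sum_congr rfl fun j _ => ?_
  ring

private theorem Zm_eq (ε : Fin n → ℝ) (u : Fin n → ℂ) :
    Zm ε u = Complex.I • Matrix.vecMulVec (fl ε u) u := by
  ext j l
  unfold Zm fl
  simp only [Matrix.of_apply, Matrix.smul_apply, Matrix.vecMulVec_apply, smul_eq_mul]
  ring

theorem Zm_sq (ε : Fin n → ℝ) (u : Fin n → ℂ) :
    Zm ε u * Zm ε u = (Complex.I * ((nrm ε u : ℝ) : ℂ)) • Zm ε u := by
  ext j l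
  rw [nrm_eq]
  unfold Zm hf
  simp only [Matrix.mul_apply, Matrix.of_apply, Matrix.smul_apply, smul_eq_mul, Finset.mul_sum,
    Finset.sum_mul]
  refine Finset.sum_congr rfl fun i _ => ?_
  ring

theorem nrm_vecMul (hep : ∀ j, ε j = 1 ∨ ε j = -1) (h : UJ ε) (u : Fin n → ℂ) :
    nrm ε (u ᵥ* ((h : GLn n) : Mat n)) = nrm ε u := by
  have h1 : ((nrm ε (u ᵥ* ((h : GLn n) : Mat n)) : ℝ) : ℂ) = ((nrm ε u : ℝ) : ℂ) := by
    rw [nrm_eq, nrm_eq, hf_vecMul hep]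
  exact_mod_cast h1

theorem Zm_conj (hep : ∀ j, ε j = 1 ∨ ε j = -1) (h : UJ ε) (u : Fin n → ℂ) :
    ((h : GLn n) : Mat n) * Zm ε u * (((h⁻¹ : UJ ε) : GLn n) : Mat n) =
      Zm ε (u ᵥ* (((h⁻¹ : UJ ε) : GLn n) : Mat n)) := by
  rw [Zm_eq, Zm_eq, Matrix.mul_smul, Matrix.smul_mul, Matrix.mul_vecMulVec,
    Matrix.vecMulVec_mul, mulVec_fl hep]

end Pool.Agent.Work.MP_dd0ddf_al.AR.WB
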