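import Pool.Agent.Work.MP_dd0ddf_al.AR.WRho
import Pool.Agent.Work.MP_dd0ddf_al.AR.WHerm

/-!
# MP_dd0ddf_al, archimedean part, W-block, module WCom: `ω(h)` and the Heisenberg operators

Proofs.

`om_gen`: both sides are real linear in `v` (`gen_add`, `gen_real_smul`, `Matrix.mulVec_add`,
`Matrix.mulVec_smul`, linearity of `W.om h`), and
`v = ∑_l ((Re v_l : ℂ) • Pi.single l 1 + (Im v_l : ℂ) • Pi.single l I)`.  So it is enough to treat
`v = Pi.single l 1` and `v = Pi.single l I`.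
(1) `v = Pi.single l 1`: let `T τ` be the Schwartz function of `exists_rho_re` (choose).  By
`tendsto_tr` `(T τ - f)/τ → td l f` in `Sch n`; apply the continuous linear map `W.om h` and
evaluate at `t` (`tendsto_apply`): `((om h (T τ)) t - (om h f) t)/τ → (om h (td l f)) t`.  By
`W.compat`, `om h (T τ) = rhoF ε a (h *ᵥ Pi.single l τ) (om h f)`, and
`h *ᵥ Pi.single l (τ : ℂ) = (τ : ℂ) • (h *ᵥ Pi.single l 1)`; so by `hasDerivAt_rho`
(`hasDerivAt_iff_tendsto_slope_zero`; at `τ = 0` `rhoF ε a 0 F = F`) the same quotient tends to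
`gen ε a (h *ᵥ Pi.single l 1) (om h f) t`.  Uniqueness of limits, `gen_single_one`.
(2) `v = Pi.single l I`: the same with `exists_rho_im`, `tendsto_mu` (`b = 2 a ε l`) and
`gen_single_I`.

`om_AA`, `om_BB`: `AA_eq_gen`, `BB_eq_gen`, `om_gen`, `mulVec_fl`, and
`h *ᵥ (I • fl ε r) = I • fl ε (r ᵥ* h⁻¹)`.
-/

set_option linter.unusedSectionVars false

namespace Pool.Agent.Work.MP_dd0ddf_al.AR.WB

open scoped SchwartzMap Matrix.Norms.Elementwise ComplexConjugate ContDiff Topology LineDeriv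
open Matrix MeasureTheory Filter

variable {n : ℕ} {ε : Fin n → ℝ} {a : ℝ}

private theorem wc_rho_zero (ε : Fin n → ℝ) (a : ℝ) (w : Fin n → ℂ) (F : (Fin n → ℝ) → ℂ)
    (t : Fin n → ℝ) : rhoF ε a (((0 : ℝ) : ℂ) • w) F t = F t := by
  unfold rhoF
  simp

private theorem wc_key (W : Weil ε a) (h : UJ ε) (v : Fin n → ℂ) (f D : Sch n) (T : ℝ → Sch n)
    (hr : ∀ τ : ℝ, (T τ : (Fin n → ℝ) → ℂ) = rhoF ε a ((τ : ℂ) • v) f)
    (hT : Tendsto (fun τ : ℝ => ((τ : ℂ)⁻¹) • (T τ - f)) (𝓝[≠] 0) (𝓝 D)) :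
    W.om h D = gen ε a (((h : GLn n) : Mat n) *ᵥ v) (W.om h f) := by
  ext t
  have h1 : Tendsto (fun τ : ℝ => (W.om h) (((τ : ℂ)⁻¹) • (T τ - f))) (𝓝[≠] 0)
      (𝓝 (W.om h D)) := ((W.om h).continuous.tendsto D).comp hT
  have h2 := tendsto_apply h1 t
  have h3 := hasDerivAt_rho ε a (W.om h f) (((h : GLn n) : Mat n) *ᵥ v) t
  rw [hasDerivAt_iff_tendsto_slope_zero] at h3
  refine tendsto_nhds_unique h2 (h3.congr fun τ => ?_)
  have h4 := W.compat h ((τ : ℂ) • v) f (T τ) (hr τ)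
  rw [Matrix.mulVec_smul] at h4
  rw [wc_rho_zero, zero_add, ← h4, map_smul, map_sub]
  show τ⁻¹ • ((W.om h (T τ)) t - (W.om h f) t) =
    ((τ : ℂ)⁻¹) * ((W.om h (T τ)) t - (W.om h f) t)
  rw [Complex.real_smul, Complex.ofReal_inv]

private theorem wc_one (W : Weil ε a) (h : UJ ε) (l : Fin n) (f : Sch n) :
    W.om h (gen ε a (Pi.single l 1) f) =
      gen ε a (((h : GLn n) : Mat n) *ᵥ Pi.single l 1) (W.om h f) := by
  rw [gen_single_one]
  choose T hT1 hT2 using fun τ : ℝ => exists_rho_re ε a f l τ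
  refine wc_key W h (Pi.single l 1) f (td l f) T (fun τ => ?_) (tendsto_tr f l T hT2)
  rw [hT1]
  congr 1
  funext j
  by_cases hj : j = l
  · subst hj
    simp
  · rw [Pi.single_eq_of_ne hj, Pi.smul_apply, Pi.single_eq_of_ne hj, smul_zero]

private theorem wc_I (W : Weil ε a) (h : UJ ε) (l : Fin n) (f : Sch n) :
    W.om h (gen ε a (Pi.single l Complex.I) f) =
      gen ε a (((h : GLn n) : Mat n) *ᵥ Pi.single l Complex.I) (W.om h f) := by
  rw [gen_single_I]
  choose T hT1 hT2 using fun τ : ℝ => exists_rho_im ε a f l τ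
  refine wc_key W h (Pi.single l Complex.I) f _ T (fun τ => ?_)
    (tendsto_mu f l (2 * a * ε l) T hT2)
  rw [hT1]
  congr 1
  funext j
  by_cases hj : j = l
  · subst hj
    simp [mul_comm]
  · rw [Pi.single_eq_of_ne hj, Pi.smul_apply, Pi.single_eq_of_ne hj, smul_zero]

theorem om_gen (W : Weil ε a) (h : UJ ε) (v : Fin n → ℂ) (f : Sch n) :
    W.om h (gen ε a v f) = gen ε a (((h : GLn n) : Mat n) *ᵥ v) (W.om h f) := by
  have hadd : ∀ v w : Fin n → ℂ,
      W.om h (gen ε a v f) = gen ε a (((h : GLn n) : Mat n) *ᵥ v) (W.om h f) →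
      W.om h (gen ε a w f) = gen ε a (((h : GLn n) : Mat n) *ᵥ w) (W.om h f) →
      W.om h (gen ε a (v + w) f) =
        gen ε a (((h : GLn n) : Mat n) *ᵥ (v + w)) (W.om h f) := by
    intro v w hv hw
    rw [gen_add, map_add, Matrix.mulVec_add, gen_add, hv, hw]
  have hsmul : ∀ (c : ℝ) (v : Fin n → ℂ),
      W.om h (gen ε a v f) = gen ε a (((h : GLn n) : Mat n) *ᵥ v) (W.om h f) →
      W.om h (gen ε a ((c : ℂ) • v) f) =
        gen ε a (((h : GLn n) : Mat n) *ᵥ ((c : ℂ) • v)) (W.om h f) := by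
    intro c v hv
    rw [gen_real_smul, map_smul, Matrix.mulVec_smul, gen_real_smul, hv]
  have hz : ∀ F : Sch n, gen ε a 0 F = 0 := by
    intro F
    have h1 := gen_real_smul ε a 0 0 F
    rw [Complex.ofReal_zero, zero_smul, zero_smul] at h1
    exact h1
  have hzero : W.om h (gen ε a 0 f) = gen ε a (((h : GLn n) : Mat n) *ᵥ 0) (W.om h f) := by
    rw [Matrix.mulVec_zero, hz, hz, map_zero]
  have hsum : ∀ s : Finset (Fin n),
      W.om h (gen ε a (∑ l ∈ s, (((((v l).re : ℝ) : ℂ)) • (Pi.single l 1 : Fin n → ℂ) +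
        ((((v l).im : ℝ) : ℂ)) • (Pi.single l Complex.I : Fin n → ℂ))) f) =
      gen ε a (((h : GLn n) : Mat n) *ᵥ
        (∑ l ∈ s, (((((v l).re : ℝ) : ℂ)) • (Pi.single l 1 : Fin n → ℂ) +
        ((((v l).im : ℝ) : ℂ)) • (Pi.single l Complex.I : Fin n → ℂ)))) (W.om h f) := by
    intro s
    classical
    refine Finset.induction_on s ?_ ?_
    · rw [Finset.sum_empty]
      exact hzero
    · intro l s hl ih
      rw [Finset.sum_insert hl]
      exact hadd _ _ (hadd _ _ (hsmul _ _ (wc_one W h l f)) (hsmul _ _ (wc_I W h l f))) ih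
  have hv : v = ∑ l, (((((v l).re : ℝ) : ℂ)) • (Pi.single l 1 : Fin n → ℂ) +
      ((((v l).im : ℝ) : ℂ)) • (Pi.single l Complex.I : Fin n → ℂ)) := by
    funext j
    rw [Finset.sum_apply, Finset.sum_eq_single j]
    · rw [Pi.add_apply, Pi.smul_apply, Pi.smul_apply, Pi.single_eq_same, Pi.single_eq_same,
        smul_eq_mul, smul_eq_mul, mul_one, Complex.re_add_im]
    · intro l _ hl
      rw [Pi.add_apply, Pi.smul_apply, Pi.smul_apply, Pi.single_eq_of_ne (Ne.symm hl),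
        Pi.single_eq_of_ne (Ne.symm hl), smul_zero, smul_zero, add_zero]
    · intro h
      exact absurd (Finset.mem_univ j) h
  have h1 := hsum Finset.univ
  rw [← hv] at h1
  exact h1

theorem om_AA (hep : ∀ j, ε j = 1 ∨ ε j = -1) (W : Weil ε a) (h : UJ ε) (r : Fin n → ℂ)
    (f : Sch n) : W.om h (AA ε a r f) =
      AA ε a (r ᵥ* (((h⁻¹ : UJ ε) : GLn n) : Mat n)) (W.om h f) := by
  rw [AA_eq_gen ε a r hep f, map_smul, map_add, map_smul, om_gen, om_gen, Matrix.mulVec_smul,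
    mulVec_fl hep h r, ← AA_eq_gen ε a _ hep]

theorem om_BB (hep : ∀ j, ε j = 1 ∨ ε j = -1) (W : Weil ε a) (h : UJ ε) (r : Fin n → ℂ)
    (f : Sch n) : W.om h (BB ε a r f) =
      BB ε a (r ᵥ* (((h⁻¹ : UJ ε) : GLn n) : Mat n)) (W.om h f) := by
  rw [BB_eq_gen ε a r hep f, map_smul, map_sub, map_smul, om_gen, om_gen, Matrix.mulVec_smul,
    mulVec_fl hep h r, ← BB_eq_gen ε a _ hep]

end Pool.Agent.Work.MP_dd0ddf_al.AR.WB
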