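import Pool.Agent.Work.MP_dd0ddf_al.AR.Op

/-!
# MP_dd0ddf_al, archimedean part, W-block: definitions

* `nrm ε u = ∑ ε_j |u_j|^2` (a real number, `= hf ε u u`);
* `phi N τ = (exp(iNτ) - 1)/(iN)`, `phi 0 τ = τ`, so that `exp(τ Zm ε u) = 1 + phi N τ • Zm ε u`
  because `(Zm ε u)^2 = i N Zm ε u`;
* `fl ε r`: the column vector `ε_j conj(r_j)` attached to a row vector `r`;
* `gen ε a v`: the generator of the one-parameter group `τ ↦ ρ(τ v)`;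
* `OneP ε u γ`: `γ` is the one-parameter group `τ ↦ exp(τ Zm ε u)` in `U(V)`;
* `IsDer W u D`: `D` is the derivative at `0` of `τ ↦ W.om (exp(τ Zm ε u))`;
* `QQ ε a u = (i/a) A(u) A†(u)`.
-/

set_option linter.unusedSectionVars false

namespace Pool.Agent.Work.MP_dd0ddf_al.AR.WB

open scoped SchwartzMap Matrix.Norms.Elementwise ComplexConjugate ContDiff Topology LineDeriv
open Matrix MeasureTheory Filter

noncomputable section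

variable {n : ℕ}

/-- `∑ ε_j |u_j|^2` -/
def nrm (ε : Fin n → ℝ) (u : Fin n → ℂ) : ℝ := ∑ j, ε j * ‖u j‖ ^ 2

/-- `φ_N(τ) = (exp(iNτ) - 1)/(iN)`, `φ_0(τ) = τ` -/
def phi (N τ : ℝ) : ℂ :=
  if N = 0 then (τ : ℂ) else (Complex.exp (Complex.I * N * τ) - 1) / (Complex.I * N)

/-- the column vector `ε_j conj(r_j)` -/
def fl (ε : Fin n → ℝ) (r : Fin n → ℂ) : Fin n → ℂ := fun j => (ε j : ℂ) * conj (r j)

/-- the generator of `τ ↦ ρ(τ v)`: `∑ x_j ∂_j + 2 i a ε_j y_j t_j`, `v = x + iy` -/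
def gen (ε : Fin n → ℝ) (a : ℝ) (v : Fin n → ℂ) : Sch n →L[ℂ] Sch n :=
  ∑ j, ((((v j).re : ℝ) : ℂ) • td j + (2 * Complex.I * a * ε j * (((v j).im : ℝ) : ℂ)) • tm j)

/-- `γ(τ) = exp(τ Zm ε u)` -/
structure OneP (ε : Fin n → ℝ) (u : Fin n → ℂ) (γ : ℝ → UJ ε) : Prop where
  cont : Continuous γ
  add : ∀ x y, γ (x + y) = γ x * γ y
  val : ∀ τ, ((γ τ : GLn n) : Mat n) = 1 + phi (nrm ε u) τ • Zm ε u

/-- `D` is the derivative at `0` of `τ ↦ ω(exp(τ Zm ε u))` -/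
def IsDer {ε : Fin n → ℝ} {a : ℝ} (W : Weil ε a) (u : Fin n → ℂ)
    (D : Sch n →L[ℂ] Sch n) : Prop :=
  ∃ γ : ℝ → UJ ε, OneP ε u γ ∧ ∀ f : Sch n,
    Tendsto (fun τ : ℝ => ((τ : ℂ)⁻¹) • (W.om (γ τ) f - f)) (𝓝[≠] 0) (𝓝 (D f))

/-- `(i/a) A(u) A†(u)` -/
def QQ (ε : Fin n → ℝ) (a : ℝ) (u : Fin n → ℂ) : Sch n →L[ℂ] Sch n :=
  (Complex.I / a) • (AA ε a u).comp (BB ε a u)

end

end Pool.Agent.Work.MP_dd0ddf_al.AR.WB
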