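import Pool.Agent.Work.MP_dd0ddf_al.AR.WDefs

/-!
# MP_dd0ddf_al, archimedean part, W-block, module WPhi: the function `phi`

Proofs.  If `N = 0`, `phi 0 τ = τ` and everything is trivial.  If `N ≠ 0`,
`phi N τ = (exp(iNτ) - 1)/(iN)`, i.e. `i N phi = c - 1` with `c = exp(iNτ)`, `c * conj c = 1`.

`contDiff_phi`: composition of smooth functions (`Complex.ofRealCLM.contDiff`,
`Complex.contDiff_exp`; `ContDiff.div_const`), split on `N = 0` with `by_cases`.
`phi_add`: `phi x + phi y + i N phi x phi y = ((c_x - 1) + (c_y - 1) + (c_x - 1)(c_y - 1))/(iN)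
= (c_x c_y - 1)/(iN)`.
`phi_unitary`: multiply by `N`: `i N phi - i N conj(phi) ... `: `i N phi = c - 1`,
`- i N conj phi = conj c - 1`, `N^2 phi conj phi = (c - 1)(conj c - 1) = 2 - c - conj c`; the sum
of the three terms is `0`; divide by `N`.
`hasDerivAt_phi`: derivative at `0` is `1`.  `tendsto_phi`: `phi N (-τ)/τ → -1`,
from `hasDerivAt_phi` composed with `τ ↦ -τ` and `hasDerivAt_iff_tendsto_slope_zero`.
-/

set_option linter.unusedSectionVars false

namespace Pool.Agent.Work.MP_dd0ddf_al.AR.WB

open scoped SchwartzMap Matrix.Norms.Elementwise ComplexConjugate ContDiff Topology LineDeriv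
open Matrix MeasureTheory Filter

private theorem phi_eq_zero (τ : ℝ) : phi 0 τ = (τ : ℂ) := by
  simp [phi]

private theorem phi_eq {N : ℝ} (hN : N ≠ 0) (τ : ℝ) :
    phi N τ = (Complex.exp (Complex.I * N * τ) - 1) / (Complex.I * N) := by
  simp [phi, hN]

private theorem IN_ne {N : ℝ} (hN : N ≠ 0) : Complex.I * (N : ℂ) ≠ 0 :=
  mul_ne_zero Complex.I_ne_zero (by exact_mod_cast hN)

theorem contDiff_phi (N : ℝ) : ContDiff ℝ ∞ (fun τ : ℝ => phi N τ) := by
  by_cases hN : N = 0
  · subst hN
    simp only [phi_eq_zero]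
    exact Complex.ofRealCLM.contDiff
  · simp only [phi_eq hN]
    refine ContDiff.div_const (ContDiff.sub ?_ contDiff_const) _
    exact Complex.contDiff_exp.comp (contDiff_const.mul Complex.ofRealCLM.contDiff)

theorem phi_zero (N : ℝ) : phi N 0 = 0 := by
  by_cases hN : N = 0
  · subst hN
    simp [phi_eq_zero]
  · rw [phi_eq hN]
    simp

theorem hasDerivAt_phi (N : ℝ) : HasDerivAt (fun τ : ℝ => phi N τ) 1 0 := by
  by_cases hN : N = 0
  · subst hN
    simp only [phi_eq_zero]
    exact Complex.ofRealCLM.hasDerivAt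
  · simp only [phi_eq hN]
    have h1 : HasDerivAt (fun τ : ℝ => Complex.I * N * (τ : ℂ)) (Complex.I * N * 1) 0 :=
      Complex.ofRealCLM.hasDerivAt.const_mul (Complex.I * (N : ℂ))
    have h2 := (h1.cexp.sub_const (1 : ℂ)).div_const (Complex.I * (N : ℂ))
    have e : Complex.exp (Complex.I * N * ((0 : ℝ) : ℂ)) * (Complex.I * N * 1) /
        (Complex.I * N) = 1 := by
      rw [Complex.ofReal_zero, mul_zero, Complex.exp_zero, one_mul, mul_one]
      exact div_self (IN_ne hN)
    rw [e] at h2
    exact h2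

theorem phi_add (N x y : ℝ) :
    phi N (x + y) = phi N x + phi N y + Complex.I * N * phi N x * phi N y := by
  by_cases hN : N = 0
  · subst hN
    simp [phi_eq_zero]
  · have hc := IN_ne hN
    rw [phi_eq hN, phi_eq hN, phi_eq hN]
    have e : Complex.I * N * ((x + y : ℝ) : ℂ) = Complex.I * N * x + Complex.I * N * y := by
      push_cast
      ring
    rw [e, Complex.exp_add]
    generalize Complex.exp (Complex.I * N * x) = p
    generalize Complex.exp (Complex.I * N * y) = q
    generalize hw : Complex.I * (N : ℂ) = w at hc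
    field_simp
    ring

theorem phi_unitary (N τ : ℝ) :
    Complex.I * phi N τ - Complex.I * conj (phi N τ) + N * phi N τ * conj (phi N τ) = 0 := by
  by_cases hN : N = 0
  · subst hN
    simp [phi_eq_zero]
  · have hN' : (N : ℂ) ≠ 0 := by exact_mod_cast hN
    rw [phi_eq hN]
    have h1 : conj ((Complex.exp (Complex.I * N * τ) - 1) / (Complex.I * N)) =
        (Complex.exp (-(Complex.I * N * τ)) - 1) / (-(Complex.I * N)) := by
      rw [map_div₀, map_sub, ← Complex.exp_conj, map_one, map_mul, map_mul, Complex.conj_I,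
        Complex.conj_ofReal, Complex.conj_ofReal]
      congr 3
      · ring
      · ring
    have h2 : Complex.exp (Complex.I * N * τ) * Complex.exp (-(Complex.I * N * τ)) = 1 := by
      rw [← Complex.exp_add, add_neg_cancel, Complex.exp_zero]
    rw [h1]
    generalize Complex.exp (Complex.I * N * τ) = p at h2
    generalize Complex.exp (-(Complex.I * N * τ)) = q at h2
    have hI : Complex.I ≠ 0 := Complex.I_ne_zero
    have e : Complex.I * ((p - 1) / (Complex.I * N)) -
        Complex.I * ((q - 1) / (-(Complex.I * N))) +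
        N * ((p - 1) / (Complex.I * N)) * ((q - 1) / (-(Complex.I * N))) =
        ((p - 1) + (q - 1) - (p - 1) * (q - 1) / (Complex.I * Complex.I)) / N := by
      field_simp
      ring
    rw [e, Complex.I_mul_I]
    have : (p - 1) + (q - 1) - (p - 1) * (q - 1) / (-1) = p * q - 1 := by ring
    rw [this, h2, sub_self, zero_div]

theorem tendsto_phi (N : ℝ) :
    Tendsto (fun τ : ℝ => ((τ : ℂ)⁻¹) * phi N (-τ)) (𝓝[≠] 0) (𝓝 (-1)) := by
  have h0 : HasDerivAt (fun τ : ℝ => phi N τ) 1 (-0) := by
    rw [neg_zero]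
    exact hasDerivAt_phi N
  have h1 : HasDerivAt (fun τ : ℝ => phi N (-τ)) (-1) 0 := by
    have := h0.scomp (0 : ℝ) (hasDerivAt_neg (0 : ℝ))
    rw [neg_one_smul] at this
    exact this
  have h2 := h1.tendsto_slope_zero
  refine h2.congr fun t => ?_
  rw [zero_add, neg_zero, phi_zero, sub_zero, Complex.real_smul, Complex.ofReal_inv]

end Pool.Agent.Work.MP_dd0ddf_al.AR.WB
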