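import Pool.Agent.Work.MP_dd0ddf_al.AR.WHerm
import Pool.Agent.Work.MP_dd0ddf_al.AR.WPhi

/-!
# MP_dd0ddf_al, archimedean part, W-block, module WOneP: one-parameter groups in `U(V)`

Proofs.  `N = nrm ε u`, `Z = Zm ε u`, `Z^2 = iN Z` (`Zm_sq`), `M τ = 1 + phi N τ • Z`.
`M (x + y) = M x * M y` by `phi_add` and `Zm_sq`; `M 0 = 1` by `phi_zero`; so `M τ * M (-τ) = 1`,
so the inverse of the unit is `M (-τ)`.

It lies in `UJ ε`: by `O.exists_UJ` (module OUJ) it is enough that `hf (x M) (y M) = hf x y`, and by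
`vecMul_Zm` `x M = x + (phi i hf(x,u)) • u`.  `hf` is linear in the first and conjugate linear in
the second variable, so with `p = phi N τ`, `A = hf(x,u)`, `B = hf(u,y)` (`conj (hf(y,u)) = B`,
`hf_conj`), `hf(u,u) = N` (`nrm_eq`):
`hf (x M) (y M) = hf(x,y) + conj(p i hf(y,u)) A + p i A B + p i A conj(p i hf(y,u)) N`
`= hf(x,y) + A B (- i conj p + i p + N p conj p) = hf(x,y)` by `phi_unitary`.

`exists_oneP`: choose `γ τ : UJ ε` with value `M τ`.  `γ (x + y) = γ x * γ y` by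
`Subtype.ext (Units.ext _)`.  Continuity: `continuous_induced_rng` (subtype), and
`Units.continuous_iff` (both `M τ` and the inverse `M (-τ)` depend continuously on `τ`,
`contDiff_phi`).

`oneP_unique`: `Subtype.ext (Units.ext _)` and `val`.
`oneP_zero`: from `val` and `phi_zero`.  `oneP_inv`: `γ τ * γ (-τ) = γ 0 = 1`.
-/

set_option linter.unusedSectionVars false

namespace Pool.Agent.Work.MP_dd0ddf_al.AR.WB

open scoped SchwartzMap Matrix.Norms.Elementwise ComplexConjugate ContDiff Topology LineDeriv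
open Matrix MeasureTheory Filter

variable {n : ℕ} {ε : Fin n → ℝ}

private noncomputable def mf (N : ℝ) (Z : Mat n) (τ : ℝ) : Mat n := 1 + phi N τ • Z

private theorem mf_add {N : ℝ} {Z : Mat n} (hZ : Z * Z = (Complex.I * ((N : ℝ) : ℂ)) • Z)
    (x y : ℝ) : mf N Z (x + y) = mf N Z x * mf N Z y := by
  unfold mf
  rw [phi_add, add_mul, mul_add, mul_add, one_mul, one_mul, mul_one, smul_mul_assoc,
    mul_smul_comm, hZ, smul_smul, smul_smul]
  module

private theorem mf_zero (N : ℝ) (Z : Mat n) : mf N Z 0 = 1 := by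
  unfold mf
  rw [phi_zero, zero_smul, add_zero]

private theorem hf_left (x y u : Fin n → ℂ) (c : ℂ) :
    hf ε (x + c • u) y = hf ε x y + c * hf ε u y := by
  unfold hf
  rw [Finset.mul_sum, ← Finset.sum_add_distrib]
  refine Finset.sum_congr rfl fun j _ => ?_
  rw [Pi.add_apply, Pi.smul_apply, smul_eq_mul]
  ring

private theorem hf_right (x y u : Fin n → ℂ) (c : ℂ) :
    hf ε x (y + c • u) = hf ε x y + conj c * hf ε x u := by
  unfold hf
  rw [Finset.mul_sum, ← Finset.sum_add_distrib]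
  refine Finset.sum_congr rfl fun j _ => ?_
  rw [Pi.add_apply, Pi.smul_apply, smul_eq_mul, map_add, map_mul]
  ring

private theorem mf_mem (u : Fin n → ℂ) (τ : ℝ) :
    mf (nrm ε u) (Zm ε u) τ ∈ O.RU ε := by
  intro x y
  have e : ∀ z : Fin n → ℂ, z ᵥ* mf (nrm ε u) (Zm ε u) τ =
      z + (phi (nrm ε u) τ * (Complex.I * hf ε z u)) • u := by
    intro z
    unfold mf
    rw [Matrix.vecMul_add, Matrix.vecMul_one, Matrix.vecMul_smul, vecMul_Zm, smul_smul]
  rw [e, e, hf_left, hf_right, hf_right, map_mul, map_mul, Complex.conj_I, hf_conj, ← nrm_eq]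
  have h := phi_unitary (nrm ε u) τ
  linear_combination (hf ε x u * hf ε u y) * h -
    (hf ε x u * hf ε u y * ((nrm ε u : ℝ) : ℂ) * phi (nrm ε u) τ * conj (phi (nrm ε u) τ)) *
      Complex.I_sq

theorem exists_oneP (hep : ∀ j, ε j = 1 ∨ ε j = -1) (u : Fin n → ℂ) :
    ∃ γ : ℝ → UJ ε, OneP ε u γ := by
  choose γ hγ using fun τ : ℝ => O.exists_UJ hep (mf_mem (ε := ε) u τ)
  have hadd : ∀ x y, γ (x + y) = γ x * γ y := by
    intro x y
    refine Subtype.ext (Units.ext ?_)
    rw [Subgroup.coe_mul, Units.val_mul, hγ, hγ, hγ]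
    exact mf_add (Zm_sq ε u) x y
  have hzero : γ 0 = 1 := by
    refine Subtype.ext (Units.ext ?_)
    rw [hγ, mf_zero]
    rfl
  have hinv : ∀ τ, (γ τ)⁻¹ = γ (-τ) := by
    intro τ
    apply inv_eq_of_mul_eq_one_right
    rw [← hadd, add_neg_cancel, hzero]
  have hcm : Continuous (mf (nrm ε u) (Zm ε u)) := by
    unfold mf
    exact continuous_const.add
      ((contDiff_phi (nrm ε u)).continuous.smul (continuous_const (y := Zm ε u)))
  refine ⟨γ, ⟨?_, hadd, hγ⟩⟩
  apply continuous_induced_rng.2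
  apply Units.continuous_iff.2
  constructor
  · have e : (Units.val ∘ (Subtype.val ∘ γ) : ℝ → Mat n) = mf (nrm ε u) (Zm ε u) := by
      funext τ
      exact hγ τ
    rw [e]
    exact hcm
  · have e : (fun τ : ℝ => (((((Subtype.val ∘ γ) τ : GLn n))⁻¹ : GLn n) : Mat n)) =
        fun τ => mf (nrm ε u) (Zm ε u) (-τ) := by
      funext τ
      rw [← hγ (-τ), ← hinv τ]
      rfl
    rw [e]
    exact hcm.comp continuous_neg

theorem oneP_unique {u : Fin n → ℂ} {γ γ' : ℝ → UJ ε} (h : OneP ε u γ) (h' : OneP ε u γ') :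
    γ = γ' := by
  funext τ
  refine Subtype.ext (Units.ext ?_)
  rw [h.val, h'.val]

theorem oneP_zero {u : Fin n → ℂ} {γ : ℝ → UJ ε} (h : OneP ε u γ) : γ 0 = 1 := by
  refine Subtype.ext (Units.ext ?_)
  rw [h.val, phi_zero, zero_smul, add_zero]
  rfl

theorem oneP_inv {u : Fin n → ℂ} {γ : ℝ → UJ ε} (h : OneP ε u γ) (τ : ℝ) :
    (γ τ)⁻¹ = γ (-τ) := by
  apply inv_eq_of_mul_eq_one_right
  rw [← h.add, add_neg_cancel, oneP_zero h]

end Pool.Agent.Work.MP_dd0ddf_al.AR.WB
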