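import Pool.Agent.Work.MP_dd0ddf_al.AR.WCom
import Pool.Agent.Work.MP_dd0ddf_al.AR.WOneP
import Pool.Agent.Work.MP_dd0ddf_al.AR.WAlg

/-!
# MP_dd0ddf_al, archimedean part, W-block, module WDer: derivative of `ω` along `Zm ε u`

Proofs.

`exists_der`: `exists_oneP` and `W.smooth`.
`der_unique`: `oneP_unique` and uniqueness of limits in `Sch n` (a Hausdorff space).

`der_AA`: let `γ` be the one-parameter group.  By `om_AA`, `oneP_inv`, `OneP.val`: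
`om (γ τ) (AA r f) = AA (r ᵥ* (1 + phi(-τ) • Z)) (om (γ τ) f)
= AA r (om (γ τ) f) + phi(-τ) • AA (r ᵥ* Z) (om (γ τ) f)` (`AA_add`, `AA_smul`).  So
`τ⁻¹ • (om (γ τ) (AA r f) - AA r f) = AA r (τ⁻¹ • (om (γ τ) f - f))
+ (τ⁻¹ * phi(-τ)) • AA (r ᵥ* Z) (om (γ τ) f)`.  As `τ → 0`, `τ ≠ 0`: the left side tends to
`D (AA r f)`, the first term to `AA r (D f)` (continuity of `AA r`), and the second one to
`- AA (r ᵥ* Z) f` (`tendsto_phi`; `om (γ τ) f → om 1 f = f` by `W.cont`, continuity of `γ`,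
`oneP_zero`; continuity of `AA (r ᵥ* Z)` and of the scalar multiplication).  Uniqueness of limits.

`der_BB`: the same with `om_BB`, `BB_add`, `BB_smul`; `conj(τ⁻¹ * phi(-τ)) → -1`.

`der_conj`: `γ' τ = h * γ τ * h⁻¹` is continuous (`UJ ε` is a topological group) and additive;
`γ' τ = 1 + phi (nrm ε u) τ • Zm ε (u ᵥ* h⁻¹)` by `Zm_conj`, and `nrm ε (u ᵥ* h⁻¹) = nrm ε u` by
`nrm_vecMul` for `h⁻¹`.
`τ⁻¹ • (om (γ' τ) f - f) = om h (τ⁻¹ • (om (γ τ) (om h⁻¹ f) - om h⁻¹ f)) → om h (D (om h⁻¹ f))`.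
-/

set_option linter.unusedSectionVars false

namespace Pool.Agent.Work.MP_dd0ddf_al.AR.WB

open scoped SchwartzMap Matrix.Norms.Elementwise ComplexConjugate ContDiff Topology LineDeriv
open Matrix MeasureTheory Filter

variable {n : ℕ} {ε : Fin n → ℝ} {a : ℝ}

theorem exists_der (hep : ∀ j, ε j = 1 ∨ ε j = -1) (W : Weil ε a) (u : Fin n → ℂ) :
    ∃ D : Sch n →L[ℂ] Sch n, IsDer W u D := by
  obtain ⟨γ, hγ⟩ := exists_oneP hep u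
  obtain ⟨D, hD⟩ := W.smooth γ hγ.cont hγ.add
  exact ⟨D, γ, hγ, hD⟩

theorem der_unique (W : Weil ε a) {u : Fin n → ℂ} {D D' : Sch n →L[ℂ] Sch n}
    (h : IsDer W u D) (h' : IsDer W u D') : D = D' := by
  obtain ⟨γ, hγ, hD⟩ := h
  obtain ⟨γ', hγ', hD'⟩ := h'
  have e := oneP_unique hγ hγ'
  subst e
  ext1 f
  exact tendsto_nhds_unique (hD f) (hD' f)

private theorem wd_cont (W : Weil ε a) {u : Fin n → ℂ} {γ : ℝ → UJ ε} (hγ : OneP ε u γ)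
    (f : Sch n) : Tendsto (fun τ : ℝ => W.om (γ τ) f) (𝓝[≠] 0) (𝓝 f) := by
  have h1 : Continuous (fun τ : ℝ => W.om (γ τ) f) := (W.cont f).comp hγ.cont
  have h2 : Tendsto (fun τ : ℝ => W.om (γ τ) f) (𝓝 0) (𝓝 (W.om (γ 0) f)) := h1.tendsto 0
  rw [oneP_zero hγ, map_one] at h2
  exact h2.mono_left nhdsWithin_le_nhds

private theorem wd_vec {u : Fin n → ℂ} {γ : ℝ → UJ ε} (hγ : OneP ε u γ) (τ : ℝ)
    (r : Fin n → ℂ) : r ᵥ* ((((γ τ)⁻¹ : UJ ε) : GLn n) : Mat n) =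
      r + phi (nrm ε u) (-τ) • (r ᵥ* Zm ε u) := by
  rw [oneP_inv hγ, hγ.val, Matrix.vecMul_add, Matrix.vecMul_one, Matrix.vecMul_smul]

theorem der_AA (hep : ∀ j, ε j = 1 ∨ ε j = -1) (W : Weil ε a) {u : Fin n → ℂ}
    {D : Sch n →L[ℂ] Sch n} (hD : IsDer W u D) (r : Fin n → ℂ) (f : Sch n) :
    D (AA ε a r f) = AA ε a r (D f) - AA ε a (r ᵥ* Zm ε u) f := by
  obtain ⟨γ, hγ, hder⟩ := hD
  have hf0 := wd_cont W hγ f
  have hid : ∀ τ : ℝ, ((τ : ℂ)⁻¹) • (W.om (γ τ) (AA ε a r f) - AA ε a r f) =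
      AA ε a r (((τ : ℂ)⁻¹) • (W.om (γ τ) f - f)) +
        (((τ : ℂ)⁻¹) * phi (nrm ε u) (-τ)) • AA ε a (r ᵥ* Zm ε u) (W.om (γ τ) f) := by
    intro τ
    rw [om_AA hep, wd_vec hγ, AA_add, AA_smul, map_smul, map_sub]
    module
  have hl := hder (AA ε a r f)
  have hr1 : Tendsto (fun τ : ℝ => AA ε a r (((τ : ℂ)⁻¹) • (W.om (γ τ) f - f))) (𝓝[≠] 0)
      (𝓝 (AA ε a r (D f))) := ((AA ε a r).continuous.tendsto _).comp (hder f)
  have hr2 : Tendsto (fun τ : ℝ => (((τ : ℂ)⁻¹) * phi (nrm ε u) (-τ)) •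
      AA ε a (r ᵥ* Zm ε u) (W.om (γ τ) f)) (𝓝[≠] 0)
      (𝓝 ((-1 : ℂ) • AA ε a (r ᵥ* Zm ε u) f)) :=
    (tendsto_phi (nrm ε u)).smul (((AA ε a (r ᵥ* Zm ε u)).continuous.tendsto _).comp hf0)
  have hr := hr1.add hr2
  have e : (fun τ : ℝ => ((τ : ℂ)⁻¹) • (W.om (γ τ) (AA ε a r f) - AA ε a r f)) =
      fun τ : ℝ => AA ε a r (((τ : ℂ)⁻¹) • (W.om (γ τ) f - f)) +
        (((τ : ℂ)⁻¹) * phi (nrm ε u) (-τ)) • AA ε a (r ᵥ* Zm ε u) (W.om (γ τ) f) :=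
    funext hid
  rw [e] at hl
  rw [tendsto_nhds_unique hl hr, neg_one_smul, ← sub_eq_add_neg]

theorem der_BB (hep : ∀ j, ε j = 1 ∨ ε j = -1) (W : Weil ε a) {u : Fin n → ℂ}
    {D : Sch n →L[ℂ] Sch n} (hD : IsDer W u D) (r : Fin n → ℂ) (f : Sch n) :
    D (BB ε a r f) = BB ε a r (D f) - BB ε a (r ᵥ* Zm ε u) f := by
  obtain ⟨γ, hγ, hder⟩ := hD
  have hf0 := wd_cont W hγ f
  have hid : ∀ τ : ℝ, ((τ : ℂ)⁻¹) • (W.om (γ τ) (BB ε a r f) - BB ε a r f) =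
      BB ε a r (((τ : ℂ)⁻¹) • (W.om (γ τ) f - f)) +
        conj (((τ : ℂ)⁻¹) * phi (nrm ε u) (-τ)) • BB ε a (r ᵥ* Zm ε u) (W.om (γ τ) f) := by
    intro τ
    rw [om_BB hep, wd_vec hγ, BB_add, BB_smul, map_smul, map_sub, map_mul, map_inv₀,
      Complex.conj_ofReal]
    module
  have hl := hder (BB ε a r f)
  have hr1 : Tendsto (fun τ : ℝ => BB ε a r (((τ : ℂ)⁻¹) • (W.om (γ τ) f - f))) (𝓝[≠] 0)
      (𝓝 (BB ε a r (D f))) := ((BB ε a r).continuous.tendsto _).comp (hder f)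
  have hc : Tendsto (fun τ : ℝ => conj (((τ : ℂ)⁻¹) * phi (nrm ε u) (-τ))) (𝓝[≠] 0)
      (𝓝 (conj (-1 : ℂ))) :=
    (Complex.continuous_conj.tendsto _).comp (tendsto_phi (nrm ε u))
  have hr2 : Tendsto (fun τ : ℝ => conj (((τ : ℂ)⁻¹) * phi (nrm ε u) (-τ)) •
      BB ε a (r ᵥ* Zm ε u) (W.om (γ τ) f)) (𝓝[≠] 0)
      (𝓝 (conj (-1 : ℂ) • BB ε a (r ᵥ* Zm ε u) f)) :=
    hc.smul (((BB ε a (r ᵥ* Zm ε u)).continuous.tendsto _).comp hf0)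
  have hr := hr1.add hr2
  have e : (fun τ : ℝ => ((τ : ℂ)⁻¹) • (W.om (γ τ) (BB ε a r f) - BB ε a r f)) =
      fun τ : ℝ => BB ε a r (((τ : ℂ)⁻¹) • (W.om (γ τ) f - f)) +
        conj (((τ : ℂ)⁻¹) * phi (nrm ε u) (-τ)) • BB ε a (r ᵥ* Zm ε u) (W.om (γ τ) f) :=
    funext hid
  rw [e] at hl
  rw [tendsto_nhds_unique hl hr, map_neg, map_one, neg_one_smul, ← sub_eq_add_neg]

theorem der_conj (hep : ∀ j, ε j = 1 ∨ ε j = -1) (W : Weil ε a) {u : Fin n → ℂ}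
    {D : Sch n →L[ℂ] Sch n} (hD : IsDer W u D) (h : UJ ε) :
    IsDer W (u ᵥ* (((h⁻¹ : UJ ε) : GLn n) : Mat n)) ((W.om h).comp (D.comp (W.om h⁻¹))) := by
  obtain ⟨γ, hγ, hder⟩ := hD
  refine ⟨fun τ => h * γ τ * h⁻¹, ⟨?_, ?_, ?_⟩, ?_⟩
  · exact (continuous_const.mul hγ.cont).mul continuous_const
  · intro x y
    rw [hγ.add]
    group
  · intro τ
    have h1 : ((((h * γ τ * h⁻¹ : UJ ε)) : GLn n) : Mat n) =
        ((h : GLn n) : Mat n) * ((γ τ : GLn n) : Mat n) * (((h⁻¹ : UJ ε) : GLn n) : Mat n) := rfl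
    have h2 : ((h : GLn n) : Mat n) * (((h⁻¹ : UJ ε) : GLn n) : Mat n) = 1 := by
      have h3 : ((((h * h⁻¹ : UJ ε)) : GLn n) : Mat n) =
        ((h : GLn n) : Mat n) * (((h⁻¹ : UJ ε) : GLn n) : Mat n) := rfl
      rw [← h3, mul_inv_cancel]
      rfl
    rw [h1, hγ.val, Matrix.mul_add, Matrix.add_mul, Matrix.mul_one, h2, Matrix.mul_smul,
      Matrix.smul_mul, Zm_conj hep, nrm_vecMul hep]
  · intro f
    have h1 := hder (W.om h⁻¹ f)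
    have h2 := ((W.om h).continuous.tendsto _).comp h1
    refine h2.congr ?_
    intro τ
    have e1 : W.om h (W.om h⁻¹ f) = f := by
      have : (W.om h * W.om h⁻¹) f = f := by
        rw [← map_mul, mul_inv_cancel, map_one]
        rfl
      exact this
    have e2 : W.om h (W.om (γ τ) (W.om h⁻¹ f)) = W.om (h * γ τ * h⁻¹) f := by
      rw [map_mul, map_mul]
      rfl
    show W.om h (((τ : ℂ)⁻¹) • (W.om (γ τ) (W.om h⁻¹ f) - W.om h⁻¹ f)) = _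
    rw [map_smul, map_sub, e1, e2]

end Pool.Agent.Work.MP_dd0ddf_al.AR.WB
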