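import Pool.Agent.Work.MP_dd0ddf_al.AR.WHerm

/-!
# MP_dd0ddf_al, archimedean part, W-block, module WEl: two kinds of elements of `U(V)`

Proofs.

`exists_flip`: the diagonal matrix `d` with `d_l = -1` and `d_j = 1` otherwise is its own inverse,
and `hf ε (x d) (y d) = ∑ ε_j d_j x_j d_j conj y_j = hf ε x y`; `O.exists_UJ` (module OUJ) gives the
element of `UJ ε` with value `d`.

`exists_rot`: let `σ = ε_j ε_l = ±1` and take real `c, s ≠ 0` with `c^2 + σ s^2 = 1`
(`(3/5, 4/5)` if `σ = 1`, `(5/3, 4/3)` if `σ = -1`).  The matrix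
`h = 1 + (c - 1) (E_jj + E_ll) + s E_jl - σ s E_lj` has the rows
`e_j h = c e_j + s e_l`, `e_l h = c e_l - σ s e_j`, `e_k h = e_k` for `k ≠ j, l`.  `x h`: coordinates `(x h)_j = c x_j - σ s x_l`, `(x h)_l = s x_j + c x_l`, others
unchanged.  `hf (x h) (y h) - hf x y` = the contribution of `j, l`:
`ε_j (c x_j - σ s x_l) conj(c y_j - σ s y_l) + ε_l (s x_j + c x_l) conj(s y_j + c y_l)`;
with `ε_l = σ ε_j`, `σ^2 = 1` it is `ε_j (c^2 + σ s^2) x_j conj y_j + ε_l (c^2 + σ s^2) x_l conj y_l`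
(the mixed terms: `ε_j (-σ c s) + ε_l s c = 0`).  So `O.exists_UJ` applies.
(It may be convenient to define `h` as a matrix by rows with `Function.update`, or by the formula
`x ᵥ* h` through `LinearMap.toMatrix'`; or to use `Matrix.of fun p q => if p = j ∧ q = j then c else ...`.)
-/

set_option linter.unusedSectionVars false

namespace Pool.Agent.Work.MP_dd0ddf_al.AR.WB

open scoped SchwartzMap Matrix.Norms.Elementwise ComplexConjugate ContDiff Topology LineDeriv
open Matrix MeasureTheory Filter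

variable {n : ℕ} {ε : Fin n → ℝ}

theorem exists_flip (hep : ∀ j, ε j = 1 ∨ ε j = -1) (l : Fin n) :
    ∃ h : UJ ε, ∀ x : Fin n → ℂ, x ᵥ* ((h : GLn n) : Mat n) = Function.update x l (-x l) := by
  have hv : ∀ x : Fin n → ℂ, x ᵥ* Matrix.diagonal (fun j => if j = l then (-1 : ℂ) else 1) =
      Function.update x l (-x l) := by
    intro x
    funext k
    rw [Matrix.vecMul_diagonal]
    by_cases hk : k = l
    · subst hk
      simp
    · rw [if_neg hk, Function.update_of_ne hk, mul_one]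
  have hR : Matrix.diagonal (fun j => if j = l then (-1 : ℂ) else 1) ∈ O.RU ε := by
    intro x y
    unfold hf
    refine Finset.sum_congr rfl fun k _ => ?_
    rw [Matrix.vecMul_diagonal, Matrix.vecMul_diagonal]
    split_ifs
    · rw [map_mul, map_neg, map_one]
      ring
    · rw [mul_one, mul_one]
  obtain ⟨u, hu⟩ := O.exists_UJ hep hR
  refine ⟨u, fun x => ?_⟩
  rw [hu]
  exact hv x

private noncomputable def wr (ε : Fin n → ℝ) (j l : Fin n) (c s : ℝ) (x : Fin n → ℂ) : Fin n → ℂ :=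
  fun k => if k = j then (c : ℂ) * x j - ε j * ε l * s * x l else
    if k = l then (s : ℂ) * x j + c * x l else x k

private noncomputable def wm (ε : Fin n → ℝ) (j l : Fin n) (c s : ℝ) : Mat n :=
  Matrix.of fun p => wr ε j l c s (Pi.single p 1)

private theorem wm_mul (ε : Fin n → ℝ) (j l : Fin n) (c s : ℝ) (x : Fin n → ℂ) :
    x ᵥ* wm ε j l c s = wr ε j l c s x := by
  have hs : ∀ k : Fin n, ∑ p, x p * (Pi.single p (1 : ℂ) : Fin n → ℂ) k = x k := by
    intro k
    rw [Finset.sum_eq_single k]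
    · rw [Pi.single_eq_same, mul_one]
    · intro p _ hp
      rw [Pi.single_eq_of_ne (Ne.symm hp), mul_zero]
    · intro h
      exact absurd (Finset.mem_univ k) h
  funext k
  simp only [Matrix.vecMul, dotProduct, wm, Matrix.of_apply, wr]
  split_ifs with h1 h2
  · rw [← hs j, ← hs l, Finset.mul_sum, Finset.mul_sum, ← Finset.sum_sub_distrib]
    refine Finset.sum_congr rfl fun p _ => ?_
    ring
  · rw [← hs j, ← hs l, Finset.mul_sum, Finset.mul_sum, ← Finset.sum_add_distrib]
    refine Finset.sum_congr rfl fun p _ => ?_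
    ring
  · exact hs k

private theorem wm_mem (hep : ∀ j, ε j = 1 ∨ ε j = -1) (j l : Fin n) (hjl : j ≠ l) {c s : ℝ}
    (hc : c ^ 2 + ε j * ε l * s ^ 2 = 1) : wm ε j l c s ∈ O.RU ε := by
  intro x y
  rw [wm_mul, wm_mul, ← sub_eq_zero]
  unfold hf
  rw [← Finset.sum_sub_distrib, Finset.sum_eq_add j l hjl]
  · have hc' : (c : ℂ) ^ 2 + ε j * ε l * (s : ℂ) ^ 2 = 1 := by exact_mod_cast hc
    have h1 : ∀ z : Fin n → ℂ, wr ε j l c s z j = (c : ℂ) * z j - ε j * ε l * s * z l := by
      intro z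
      unfold wr
      rw [if_pos rfl]
    have h2 : ∀ z : Fin n → ℂ, wr ε j l c s z l = (s : ℂ) * z j + c * z l := by
      intro z
      unfold wr
      rw [if_neg (Ne.symm hjl), if_pos rfl]
    rw [h1, h1, h2, h2]
    simp only [map_add, map_sub, map_mul, Complex.conj_ofReal]
    rcases hep j with ej | ej <;> rcases hep l with el | el <;> rw [ej, el] at hc' ⊢ <;>
      push_cast at hc' ⊢
    · linear_combination (x j * conj (y j) + x l * conj (y l)) * hc'
    · linear_combination (x j * conj (y j) - x l * conj (y l)) * hc'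
    · linear_combination (-(x j * conj (y j)) + x l * conj (y l)) * hc'
    · linear_combination (-(x j * conj (y j)) - x l * conj (y l)) * hc'
  · intro k _ hk
    unfold wr
    rw [if_neg hk.1, if_neg hk.2, if_neg hk.1, if_neg hk.2, sub_self]
  · intro h
    exact absurd (Finset.mem_univ j) h
  · intro h
    exact absurd (Finset.mem_univ l) h

theorem exists_rot (hep : ∀ j, ε j = 1 ∨ ε j = -1) (j l : Fin n) (hjl : j ≠ l) :
    ∃ (h : UJ ε) (c s : ℝ), s ≠ 0 ∧ c ^ 2 + ε j * ε l * s ^ 2 = 1 ∧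
      (Pi.single j 1 : Fin n → ℂ) ᵥ* ((h : GLn n) : Mat n) =
        (c : ℂ) • Pi.single j 1 + (s : ℂ) • Pi.single l 1 := by
  obtain ⟨c, s, hs, hc⟩ : ∃ c s : ℝ, s ≠ 0 ∧ c ^ 2 + ε j * ε l * s ^ 2 = 1 := by
    rcases hep j with ej | ej <;> rcases hep l with el | el <;> rw [ej, el]
    · exact ⟨3 / 5, 4 / 5, by norm_num, by norm_num⟩
    · exact ⟨5 / 3, 4 / 3, by norm_num, by norm_num⟩
    · exact ⟨5 / 3, 4 / 3, by norm_num, by norm_num⟩
    · exact ⟨3 / 5, 4 / 5, by norm_num, by norm_num⟩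
  obtain ⟨u, hu⟩ := O.exists_UJ hep (wm_mem hep j l hjl hc)
  refine ⟨u, c, s, hs, hc, ?_⟩
  rw [hu, wm_mul]
  funext k
  unfold wr
  simp only [Pi.add_apply, Pi.smul_apply, smul_eq_mul, Pi.single_eq_same,
    Pi.single_eq_of_ne (Ne.symm hjl)]
  by_cases h1 : k = j
  · subst h1
    rw [if_pos rfl, Pi.single_eq_same, Pi.single_eq_of_ne hjl]
    ring
  · rw [if_neg h1]
    by_cases h2 : k = l
    · subst h2
      rw [if_pos rfl, Pi.single_eq_same, Pi.single_eq_of_ne h1]
      ring
    · rw [if_neg h2, Pi.single_eq_of_ne h1, Pi.single_eq_of_ne h2]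
      ring

end Pool.Agent.Work.MP_dd0ddf_al.AR.WB
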