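import Mathlib

/-!
# MP_dd0ddf_al, archimedean part, W-block, module WHadS: Hadamard's lemma for smooth functions

Proof.  `pint`: it suffices to prove for all `m : ℕ`, by induction on `m`, for ALL `G : Type`, that the
integral is `C^m` (`contDiff_infty`).  The module `Pool/Agent/Work/MP_e214ac_gt/R/PInt.lean` of the team
contains exactly this argument (private theorem `pint_contDiffOn`, for `ContDiffOn`, general `G`):
copy it here with `U = univ`, `V = univ` and `G = ℂ`.

`hadamard_smooth`: `G j t = ∫ s in 0..1, fderiv ℝ f (t0 + s • (t - t0)) (Pi.single j 1)`, smooth in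
`t` by `pint` (the integrand is a smooth function of `(t, s)`).  For fixed `t` the function
`s ↦ f (t0 + s • (t - t0))` has the derivative
`fderiv ℝ f (t0 + s • (t - t0)) (t - t0) = ∑_j (t j - t0 j) * fderiv ℝ f (..) (Pi.single j 1)`, so
`f t - f t0 = ∫ s in 0..1, ∑_j ... = ∑_j (t j - t0 j) * G j t`
(`intervalIntegral.integral_eq_sub_of_hasDerivAt`, `intervalIntegral.integral_finsetSum`,
`intervalIntegral.integral_const_mul`).
-/

set_option linter.unusedSectionVars false

namespace Pool.Agent.Work.MP_dd0ddf_al.AR.WB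

open scoped ContDiff Topology

section pintsec

variable {E : Type} [NormedAddCommGroup E] [NormedSpace ℝ E] [FiniteDimensional ℝ E]
  {G : Type} [NormedAddCommGroup G] [NormedSpace ℝ G]

/-- the derivative in the direction of the first factor -/
private noncomputable def pintD (F : E × ℝ → G) (p : E × ℝ) : E →L[ℝ] G :=
  (fderiv ℝ F p).comp (ContinuousLinearMap.inl ℝ E ℝ)

omit [FiniteDimensional ℝ E] in
private theorem pintD_contDiff (F : E × ℝ → G)
    (hF : ContDiff ℝ ∞ F) : ContDiff ℝ ∞ (pintD F) :=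
  (hF.fderiv_right (m := ∞) (by simp)).clm_comp contDiff_const

omit [FiniteDimensional ℝ E] in
private theorem pint_cont (F : E × ℝ → G) (hF : Continuous F) (x : E) :
    Continuous (fun t : ℝ => F (x, t)) :=
  hF.comp (by fun_prop)

omit [FiniteDimensional ℝ E] in
private theorem pint_intble (F : E × ℝ → G) (hF : Continuous F) (x : E) (a b : ℝ) :
    IntervalIntegrable (fun t : ℝ => F (x, t)) MeasureTheory.volume a b :=
  (pint_cont F hF x).intervalIntegrable a b

private theorem pint_hasFDerivAt (F : E × ℝ → G)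
    (hF : ContDiff ℝ ∞ F) (x₀ : E) :
    HasFDerivAt (fun x => ∫ t in (0 : ℝ)..1, F (x, t)) (∫ t in (0 : ℝ)..1, pintD F (x₀, t)) x₀ := by
  have hFc : Continuous F := hF.continuous
  have hDc : Continuous (pintD F) := (pintD_contDiff F hF).continuous
  have hKc : IsCompact (Metric.closedBall x₀ 1 ×ˢ Set.Icc (0 : ℝ) 1) :=
    (isCompact_closedBall x₀ 1).prod isCompact_Icc
  obtain ⟨C, hC⟩ := hKc.exists_bound_of_continuousOn hDc.continuousOn
  have hsub : ∀ t ∈ Set.uIoc (0 : ℝ) 1, t ∈ Set.Icc (0 : ℝ) 1 := by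
    intro t ht
    rw [Set.uIoc_of_le zero_le_one] at ht
    exact ⟨ht.1.le, ht.2⟩
  refine intervalIntegral.hasFDerivAt_integral_of_dominated_of_fderiv_le
    (F := fun x t => F (x, t)) (F' := fun x t => pintD F (x, t)) (bound := fun _ => C)
    (s := Metric.closedBall x₀ 1) (Metric.closedBall_mem_nhds x₀ one_pos) ?_
    (pint_intble F hFc x₀ 0 1) ?_ ?_ (by simp) ?_
  · filter_upwards with x
    exact (pint_intble F hFc x 0 1).aestronglyMeasurable_restrict_uIoc
  · exact (pint_intble (pintD F) hDc x₀ 0 1).aestronglyMeasurable_restrict_uIoc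
  · refine Filter.Eventually.of_forall fun t ht x hx => ?_
    exact hC (x, t) ⟨hx, hsub t ht⟩
  · refine Filter.Eventually.of_forall fun t ht x hx => ?_
    have h1 : HasFDerivAt F (fderiv ℝ F (x, t)) (x, t) :=
      ((hF.contDiffAt).differentiableAt (by simp)).hasFDerivAt
    exact h1.comp x (hasFDerivAt_prodMk_left x t)

end pintsec

private theorem pint_contDiff {E : Type} [NormedAddCommGroup E] [NormedSpace ℝ E]
    [FiniteDimensional ℝ E] (m : ℕ) :
    ∀ (G : Type) [NormedAddCommGroup G] [NormedSpace ℝ G] (F : E × ℝ → G),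
      ContDiff ℝ ∞ F → ContDiff ℝ m (fun x => ∫ t in (0 : ℝ)..1, F (x, t)) := by
  induction m with
  | zero =>
    intro G _ _ F hF
    rw [Nat.cast_zero, contDiff_zero]
    exact continuous_iff_continuousAt.2 fun x => (pint_hasFDerivAt F hF x).continuousAt
  | succ m ih =>
    intro G _ _ F hF
    rw [Nat.cast_succ, contDiff_succ_iff_hasFDerivAt]
    refine ⟨fun x => ∫ t in (0 : ℝ)..1, pintD F (x, t),
      ih (E →L[ℝ] G) (pintD F) (pintD_contDiff F hF), fun x => pint_hasFDerivAt F hF x⟩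

theorem pint {E : Type} [NormedAddCommGroup E] [NormedSpace ℝ E] [FiniteDimensional ℝ E]
    (F : E × ℝ → ℂ) (hF : ContDiff ℝ ∞ F) :
    ContDiff ℝ ∞ (fun x => ∫ t in (0 : ℝ)..1, F (x, t)) :=
  contDiff_infty.2 fun m => pint_contDiff m ℂ F hF

theorem hadamard_smooth {n : ℕ} (f : (Fin n → ℝ) → ℂ) (hf : ContDiff ℝ ∞ f) (t0 : Fin n → ℝ) :
    ∃ G : Fin n → (Fin n → ℝ) → ℂ, (∀ j, ContDiff ℝ ∞ (G j)) ∧
      ∀ t, f t = f t0 + ∑ j, ((t j - t0 j : ℝ) : ℂ) * G j t := by
  have hlin : ContDiff ℝ ∞ (fun p : (Fin n → ℝ) × ℝ => t0 + p.2 • (p.1 - t0)) :=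
    contDiff_const.add (contDiff_snd.smul (contDiff_fst.sub contDiff_const))
  have hF : ∀ j : Fin n, ContDiff ℝ ∞ (fun p : (Fin n → ℝ) × ℝ =>
      fderiv ℝ f (t0 + p.2 • (p.1 - t0)) (Pi.single j 1)) := by
    intro j
    have h1 : ContDiff ℝ ∞ (fun x => fderiv ℝ f x (Pi.single j (1 : ℝ))) :=
      (hf.fderiv_right (m := ∞) (by simp)).clm_apply contDiff_const
    exact h1.comp hlin
  refine ⟨fun j t => ∫ s in (0 : ℝ)..1, fderiv ℝ f (t0 + s • (t - t0)) (Pi.single j 1),
    fun j => pint _ (hF j), fun t => ?_⟩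
  have hder : ∀ s : ℝ, HasDerivAt (fun s : ℝ => f (t0 + s • (t - t0)))
      (fderiv ℝ f (t0 + s • (t - t0)) (t - t0)) s := by
    intro s
    have h1 : HasDerivAt (fun s : ℝ => t0 + s • (t - t0)) (t - t0) s := by
      have h2 := ((hasDerivAt_id s).smul_const (t - t0)).const_add t0
      simpa using h2
    have h3 : HasFDerivAt f (fderiv ℝ f (t0 + s • (t - t0))) (t0 + s • (t - t0)) :=
      ((hf.contDiffAt).differentiableAt (by simp)).hasFDerivAt
    exact h3.comp_hasDerivAt s h1
  have hexp : ∀ s : ℝ, fderiv ℝ f (t0 + s • (t - t0)) (t - t0) =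
      ∑ j, ((t j - t0 j : ℝ) : ℂ) * fderiv ℝ f (t0 + s • (t - t0)) (Pi.single j 1) := by
    intro s
    have h1 : t - t0 = ∑ j, (t j - t0 j) • (Pi.single j (1 : ℝ) : Fin n → ℝ) := by
      funext i
      rw [Finset.sum_apply]
      simp [Pi.single_apply]
    generalize t0 + s • (t - t0) = y
    rw [h1, map_sum]
    refine Finset.sum_congr rfl fun j _ => ?_
    rw [map_smul, Complex.real_smul]
  have hcj : ∀ j : Fin n, Continuous (fun s : ℝ =>
      fderiv ℝ f (t0 + s • (t - t0)) (Pi.single j 1)) := by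
    intro j
    exact (hF j).continuous.comp (by fun_prop : Continuous fun s : ℝ => (t, s))
  have hint : ∫ s in (0 : ℝ)..1, fderiv ℝ f (t0 + s • (t - t0)) (t - t0) = f t - f t0 := by
    have hc : Continuous (fun s : ℝ => fderiv ℝ f (t0 + s • (t - t0)) (t - t0)) := by
      simp_rw [hexp]
      exact continuous_finsetSum _ fun j _ => continuous_const.mul (hcj j)
    have h1 := intervalIntegral.integral_eq_sub_of_hasDerivAt
      (a := (0 : ℝ)) (b := 1) (fun s _ => hder s) (hc.intervalIntegrable 0 1)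
    rw [h1]
    simp
  have hsum : ∫ s in (0 : ℝ)..1, fderiv ℝ f (t0 + s • (t - t0)) (t - t0) =
      ∑ j, ((t j - t0 j : ℝ) : ℂ) *
        ∫ s in (0 : ℝ)..1, fderiv ℝ f (t0 + s • (t - t0)) (Pi.single j 1) := by
    simp_rw [hexp]
    rw [intervalIntegral.integral_finsetSum]
    · refine Finset.sum_congr rfl fun j _ => ?_
      rw [intervalIntegral.integral_const_mul]
    · intro j _
      exact (continuous_const.mul (hcj j)).intervalIntegrable 0 1
  rw [← hsum, hint]
  ring

end Pool.Agent.Work.MP_dd0ddf_al.AR.WB
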