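import Mathlib

/-!
# MP_dd0ddf_al, archimedean part, W-block, module WKap: division by `x` away from `0`

Proof.  Let `θ : ℝ → ℝ` be a `C^∞` function with `θ = 1` on `|x| ≤ 1` and `θ = 0` for `|x| ≥ 2`
(`ContDiffBump` with `rIn = 1`, `rOut = 2`), `κ x = (1 - θ x)/x` (`= 0` for `|x| ≤ 1`).  Then
`θ x + x κ x = 1` for all `x` (`x = 0`: `θ 0 = 1`).
`κ` is smooth: near a point `x ≠ 0` it is a quotient of smooth functions, near `0` it vanishes
identically.
Temperate growth: for every `m` the function `iteratedFDeriv ℝ m κ` is bounded: it is continuous, so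
bounded on the compact set `|x| ≤ 2`; for `|x| > 2` the function `κ` equals `1/x` near `x`, so
`‖iteratedFDeriv ℝ m κ x‖ = |iteratedDeriv m (fun x => x⁻¹) x| = m! |x|^{-(m+1)} ≤ m!`
(`norm_iteratedFDeriv_eq_norm_iteratedDeriv`, `iteratedDeriv_inv`/`iter_deriv_inv`, and
`Filter.EventuallyEq.iteratedFDeriv`).  So `HasTemperateGrowth` with `k = 0`.
-/

set_option linter.unusedSectionVars false

namespace Pool.Agent.Work.MP_dd0ddf_al.AR.WB

open scoped ContDiff Topology

private theorem kappa_bound {κ : ℝ → ℝ} (hκ : ContDiff ℝ ∞ κ)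
    (h : ∀ x : ℝ, 2 < |x| → κ =ᶠ[𝓝 x] fun y => y⁻¹) (m : ℕ) :
    ∃ C : ℝ, ∀ x, ‖iteratedFDeriv ℝ m κ x‖ ≤ C := by
  have hc : Continuous fun x => ‖iteratedFDeriv ℝ m κ x‖ :=
    (hκ.continuous_iteratedFDeriv (by exact_mod_cast le_top)).norm
  obtain ⟨C, hC⟩ := ((isCompact_Icc (a := (-2 : ℝ)) (b := 2)).image hc).bddAbove
  refine ⟨max C (m.factorial : ℝ), fun x => ?_⟩
  by_cases hx : |x| ≤ 2
  · exact (hC ⟨x, abs_le.1 hx, rfl⟩).trans (le_max_left _ _)
  · push Not at hx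
    refine le_trans ?_ (le_max_right _ _)
    have h1 : iteratedFDeriv ℝ m κ x = iteratedFDeriv ℝ m (fun y : ℝ => y⁻¹) x :=
      ((h x hx).iteratedFDeriv ℝ m).eq_of_nhds
    rw [h1, norm_iteratedFDeriv_eq_norm_iteratedDeriv, iteratedDeriv_eq_iterate, iter_deriv_inv,
      norm_mul, norm_mul, norm_pow, norm_neg, norm_one, one_pow, one_mul, Real.norm_natCast,
      norm_zpow, Real.norm_eq_abs]
    have h2 : |x| ^ (-1 - (m : ℤ)) ≤ 1 := by
      apply zpow_le_one_of_nonpos₀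
      · linarith
      · omega
    calc (m.factorial : ℝ) * |x| ^ (-1 - (m : ℤ)) ≤ (m.factorial : ℝ) * 1 :=
          mul_le_mul_of_nonneg_left h2 (Nat.cast_nonneg _)
      _ = (m.factorial : ℝ) := mul_one _

theorem exists_kappa : ∃ θ κ : ℝ → ℝ, ContDiff ℝ ∞ θ ∧ HasCompactSupport θ ∧
    Function.HasTemperateGrowth κ ∧ ∀ x, θ x + x * κ x = 1 := by
  let b : ContDiffBump (0 : ℝ) := ⟨1, 2, one_pos, one_lt_two⟩
  have hθ : ContDiff ℝ ∞ (b : ℝ → ℝ) := b.contDiff
  have h1 : ∀ x : ℝ, |x| ≤ 1 → b x = 1 := by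
    intro x hx
    apply b.one_of_mem_closedBall
    rw [mem_closedBall_zero_iff, Real.norm_eq_abs]
    exact hx
  have h0 : ∀ x : ℝ, 2 ≤ |x| → b x = 0 := by
    intro x hx
    apply b.zero_of_le_dist
    rw [dist_zero_right, Real.norm_eq_abs]
    exact hx
  let κ : ℝ → ℝ := fun x => (1 - b x) * x⁻¹
  have hκ : ContDiff ℝ ∞ κ := by
    rw [contDiff_iff_contDiffAt]
    intro x
    by_cases hx : x = 0
    · subst hx
      have he : κ =ᶠ[𝓝 (0 : ℝ)] fun _ => (0 : ℝ) := by
        filter_upwards [Metric.ball_mem_nhds (0 : ℝ) one_pos] with y hy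
        rw [mem_ball_zero_iff, Real.norm_eq_abs] at hy
        change (1 - b y) * y⁻¹ = 0
        rw [h1 y hy.le, sub_self, zero_mul]
      exact contDiffAt_const.congr_of_eventuallyEq he
    · exact (contDiffAt_const.sub hθ.contDiffAt).mul (contDiffAt_inv ℝ hx)
  refine ⟨b, κ, hθ, b.hasCompactSupport, ⟨hκ, fun m => ?_⟩, ?_⟩
  · obtain ⟨C, hC⟩ := kappa_bound hκ (by
      intro x hx
      have hop : IsOpen {y : ℝ | 2 < |y|} := isOpen_lt continuous_const continuous_abs
      filter_upwards [hop.mem_nhds hx] with y hy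
      change (1 - b y) * y⁻¹ = y⁻¹
      rw [h0 y (le_of_lt hy), sub_zero, one_mul]) m
    exact ⟨0, C, fun x => by
      rw [pow_zero, mul_one]
      exact hC x⟩
  · intro x
    change b x + x * ((1 - b x) * x⁻¹) = 1
    by_cases hx : x = 0
    · subst hx
      rw [h1 0 (by simp)]
      simp
    · field_simp
      ring

end Pool.Agent.Work.MP_dd0ddf_al.AR.WB
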