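import Pool.Agent.Work.MP_dd0ddf_al.AR.WMul
import Pool.Agent.Work.MP_dd0ddf_al.AR.WKap
import Pool.Agent.Work.MP_dd0ddf_al.AR.WHadS

/-!
# MP_dd0ddf_al, archimedean part, W-block, module WHad: Hadamard's lemma in the Schwartz space

Proofs.  Let `θ, κ` be as in `exists_kappa`; write `x_j = t j - t0 j`.

`unity`: for every finset `S` there are functions `K j` of temperate growth with
`∏_{j ∈ S} θ(x_j) + ∑_{j ∈ S} x_j K_j(t) = 1` for all `t`: induction on `S`; `S = ∅`: `1 = 1`.
For `insert l S`: `∏_S θ = ∏_S θ * (θ(x_l) + x_l κ(x_l)) = ∏_{insert l S} θ + x_l (κ(x_l) ∏_S θ)`;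
so `K_l = κ(x_l) ∏_{j ∈ S} θ(x_j)` and the other `K_j` are unchanged.  Temperate growth: `κ` and `θ`
(compact support, `HasCompactSupport.hasTemperateGrowth`) composed with the affine map
`t ↦ t j - t0 j` (`HasTemperateGrowth.comp`, `fun_prop`), products.

`hadamard_sch`: by `hadamard_smooth` `f t = ∑_j x_j G_j(t)` (`f t0 = 0`).  With `S = univ` in `unity`:
`f t = (∏_j θ(x_j)) f t + ∑_j x_j K_j(t) f t = ∑_j x_j (G_j(t) ∏_i θ(x_i) + K_j(t) f(t))`.  The
function `G_j(t) ∏_i θ(x_i)` is smooth with compact support (it vanishes unless all `x_i` lie in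
the compact set `tsupport θ`; `HasCompactSupport.intro`, `isCompact_univ_pi`), so it is a Schwartz
function (`HasCompactSupport.toSchwartzMap`); `K_j f` is `SchwartzMap.smulLeftCLM ℂ (K_j : _ → ℂ) f`.

`local_of_comm`: `f = ∑_j (tm j (F j) - (t0 j : ℂ) • F j)` by `hadamard_sch` (`O.tm_apply`), so
`E f = ∑_j (tm j (E (F j)) - (t0 j : ℂ) • E (F j))`, whose value at `t0` is `0` by `O.tm_apply`.
-/

set_option linter.unusedSectionVars false

namespace Pool.Agent.Work.MP_dd0ddf_al.AR.WB

open scoped SchwartzMap Matrix.Norms.Elementwise ComplexConjugate ContDiff Topology LineDeriv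
open Matrix MeasureTheory Filter

variable {n : ℕ}

private theorem tg_coord (t0 : Fin n → ℝ) (j : Fin n) :
    Function.HasTemperateGrowth (fun t : Fin n → ℝ => t j - t0 j) := by
  have h1 : Function.HasTemperateGrowth (fun t : Fin n → ℝ => t j) :=
    (ContinuousLinearMap.proj (R := ℝ) (φ := fun _ : Fin n => ℝ) j).hasTemperateGrowth
  exact h1.sub (Function.HasTemperateGrowth.const (t0 j))

private theorem tg_prod (g : Fin n → (Fin n → ℝ) → ℝ)
    (hg : ∀ j, Function.HasTemperateGrowth (g j)) (S : Finset (Fin n)) :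
    Function.HasTemperateGrowth (fun t : Fin n → ℝ => ∏ j ∈ S, g j t) := by
  classical
  induction S using Finset.induction_on with
  | empty =>
    simp only [Finset.prod_empty]
    exact Function.HasTemperateGrowth.const 1
  | insert l S hl ih =>
    simp only [Finset.prod_insert hl]
    exact (hg l).mul ih

theorem unity (θ κ : ℝ → ℝ) (h1 : ContDiff ℝ ∞ θ) (h2 : HasCompactSupport θ)
    (h3 : Function.HasTemperateGrowth κ) (h4 : ∀ x, θ x + x * κ x = 1) (t0 : Fin n → ℝ)
    (S : Finset (Fin n)) :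
    ∃ K : Fin n → (Fin n → ℝ) → ℝ, (∀ j, Function.HasTemperateGrowth (K j)) ∧
      ∀ t : Fin n → ℝ, ∏ j ∈ S, θ (t j - t0 j) + ∑ j ∈ S, (t j - t0 j) * K j t = 1 := by
  classical
  have hθ : Function.HasTemperateGrowth θ := h2.hasTemperateGrowth h1
  induction S using Finset.induction_on with
  | empty =>
    exact ⟨fun _ _ => 0, fun _ => Function.HasTemperateGrowth.zero, fun t => by simp⟩
  | insert l S hl ih =>
    obtain ⟨K, hK, hK'⟩ := ih
    have hP : Function.HasTemperateGrowth (fun t : Fin n → ℝ => ∏ j ∈ S, θ (t j - t0 j)) :=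
      tg_prod _ (fun j => hθ.comp (tg_coord t0 j)) S
    refine ⟨fun j => if j = l then (fun t => κ (t l - t0 l) * ∏ j ∈ S, θ (t j - t0 j)) else K j,
      ?_, ?_⟩
    · intro j
      by_cases hj : j = l
      · simp only [hj, if_true]
        exact (h3.comp (tg_coord t0 l)).mul hP
      · simp only [hj, if_false]
        exact hK j
    · intro t
      rw [Finset.prod_insert hl, Finset.sum_insert hl]
      have hs : ∑ j ∈ S, (t j - t0 j) *
          (if j = l then (fun t => κ (t l - t0 l) * ∏ j ∈ S, θ (t j - t0 j)) else K j :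
            (Fin n → ℝ) → ℝ) t = ∑ j ∈ S, (t j - t0 j) * K j t := by
        apply Finset.sum_congr rfl
        intro j hj
        rw [if_neg]
        rintro rfl
        exact hl hj
      rw [hs]
      simp only [if_true]
      have e1 := hK' t
      have e2 := h4 (t l - t0 l)
      linear_combination e1 + (∏ j ∈ S, θ (t j - t0 j)) * e2

theorem hadamard_sch (f : Sch n) (t0 : Fin n → ℝ) (h0 : f t0 = 0) :
    ∃ F : Fin n → Sch n, ∀ t, f t = ∑ j, ((t j - t0 j : ℝ) : ℂ) * F j t := by
  obtain ⟨θ, κ, h1, h2, h3, h4⟩ := exists_kappa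
  obtain ⟨K, hK, hK'⟩ := unity θ κ h1 h2 h3 h4 t0 Finset.univ
  obtain ⟨G, hG, hG'⟩ := hadamard_smooth (fun t => f t) (f.smooth ⊤) t0
  have hcs : ∀ j, HasCompactSupport
      (fun t : Fin n → ℝ => ((∏ i, θ (t i - t0 i) : ℝ) : ℂ) * G j t) := by
    intro j
    refine HasCompactSupport.intro (K := Set.pi Set.univ
      (fun i => (fun x : ℝ => x + t0 i) '' tsupport θ)) ?_ ?_
    · apply isCompact_univ_pi
      intro i
      exact h2.isCompact.image (by fun_prop)
    · intro t ht
      have : ∃ i, t i ∉ (fun x : ℝ => x + t0 i) '' tsupport θ := by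
        by_contra hcon
        push Not at hcon
        exact ht (fun i _ => hcon i)
      obtain ⟨i, hi⟩ := this
      have h5 : θ (t i - t0 i) = 0 := by
        apply image_eq_zero_of_notMem_tsupport
        intro hmem
        exact hi ⟨t i - t0 i, hmem, by simp⟩
      have h6 : ∏ i, θ (t i - t0 i) = 0 := Finset.prod_eq_zero (Finset.mem_univ i) h5
      rw [h6]
      simp
  have hsm : ∀ j, ContDiff ℝ ∞
      (fun t : Fin n → ℝ => ((∏ i, θ (t i - t0 i) : ℝ) : ℂ) * G j t) := by
    intro j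
    refine ContDiff.mul ?_ (hG j)
    have hp : ContDiff ℝ ∞ (fun t : Fin n → ℝ => ∏ i, θ (t i - t0 i)) := by
      apply contDiff_prod
      intro i _
      exact h1.comp ((contDiff_apply ℝ ℝ i).sub contDiff_const)
    exact Complex.ofRealCLM.contDiff.comp hp
  have hKC : ∀ j, Function.HasTemperateGrowth (fun t : Fin n → ℝ => ((K j t : ℝ) : ℂ)) := by
    intro j
    exact Function.HasTemperateGrowth.comp (Complex.ofRealCLM.hasTemperateGrowth) (hK j)
  refine ⟨fun j => (hcs j).toSchwartzMap (hsm j) +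
    SchwartzMap.smulLeftCLM ℂ (fun t : Fin n → ℝ => ((K j t : ℝ) : ℂ)) f, ?_⟩
  intro t
  have e0 : ∀ j, ((hcs j).toSchwartzMap (hsm j) +
      SchwartzMap.smulLeftCLM ℂ (fun t : Fin n → ℝ => ((K j t : ℝ) : ℂ)) f : Sch n) t =
      ((∏ i, θ (t i - t0 i) : ℝ) : ℂ) * G j t + ((K j t : ℝ) : ℂ) * f t := by
    intro j
    rw [_root_.add_apply, SchwartzMap.smulLeftCLM_apply_apply (hKC j), smul_eq_mul]
    rfl
  simp only [e0]
  have e1 : f t = ∑ j, ((t j - t0 j : ℝ) : ℂ) * G j t := by
    have := hG' t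
    rw [h0, zero_add] at this
    exact this
  have e2 : ((∏ i, θ (t i - t0 i) : ℝ) : ℂ) + ∑ j, ((t j - t0 j : ℝ) : ℂ) * ((K j t : ℝ) : ℂ)
      = 1 := by
    have := congrArg (fun x : ℝ => (x : ℂ)) (hK' t)
    simpa only [Complex.ofReal_add, Complex.ofReal_sum, Complex.ofReal_mul, Complex.ofReal_one]
      using this
  calc f t = (((∏ i, θ (t i - t0 i) : ℝ) : ℂ) +
        ∑ j, ((t j - t0 j : ℝ) : ℂ) * ((K j t : ℝ) : ℂ)) * f t := by rw [e2, one_mul]
    _ = ((∏ i, θ (t i - t0 i) : ℝ) : ℂ) * (∑ j, ((t j - t0 j : ℝ) : ℂ) * G j t) +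
        (∑ j, ((t j - t0 j : ℝ) : ℂ) * ((K j t : ℝ) : ℂ)) * f t := by rw [add_mul, ← e1]
    _ = _ := by
      rw [Finset.mul_sum, Finset.sum_mul, ← Finset.sum_add_distrib]
      apply Finset.sum_congr rfl
      intro j _
      ring

theorem local_of_comm (E : Sch n →ₗ[ℂ] Sch n) (ht : ∀ j f, E (tm j f) = tm j (E f))
    (t0 : Fin n → ℝ) (f : Sch n) (h0 : f t0 = 0) : E f t0 = 0 := by
  obtain ⟨F, hF⟩ := hadamard_sch f t0 h0
  have e : f = ∑ j, (tm j (F j) - (t0 j : ℂ) • F j) := by
    ext t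
    rw [hF t, _root_.sum_apply]
    apply Finset.sum_congr rfl
    intro j _
    rw [_root_.sub_apply, O.tm_apply, _root_.smul_apply, smul_eq_mul, Complex.ofReal_sub,
      sub_mul]
  rw [e, map_sum, _root_.sum_apply]
  apply Finset.sum_eq_zero
  intro j _
  rw [map_sub, map_smul, ht, _root_.sub_apply, O.tm_apply, _root_.smul_apply, smul_eq_mul,
    sub_self]

end Pool.Agent.Work.MP_dd0ddf_al.AR.WB
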