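import Pool.Agent.Work.MP_dd0ddf_al.AR.WOneP
import Pool.Agent.Work.MP_dd0ddf_al.AR.DL

/-!
# MP_dd0ddf_al, archimedean part, W-block, module WTst: `L (dg (g ↦ g Zm u) f) = D (L f)`

Proof.  Let `γ` be the one-parameter group of `hD`.  `tendsto_A_act` (module DL, proved) with
`x = fun _ => 1`, `y τ = 1 + phi (nrm ε u) τ • Zm ε u` (smooth by `contDiff_phi`, `y 0 = 1` by
`phi_zero`, `deriv y 0 = Zm ε u` by `hasDerivAt_phi`; `deriv x 0 = 0`) gives
`(τ : ℂ)⁻¹ • (L (fun g => f (1 * g * y τ)) - L f) → L (dg (fun g => 0 * g + g * Zm ε u) f)`.  By `OneP.val`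
`y τ` is the value of `γ τ`, so by `hL.right` the left side is
`(τ : ℂ)⁻¹ • (W.om (γ τ) (L f) - L f)`, which tends to `D (L f)`.  Uniqueness of limits (`Sch n` is
Hausdorff).
-/

set_option linter.unusedSectionVars false

namespace Pool.Agent.Work.MP_dd0ddf_al.AR.WB

open scoped SchwartzMap Matrix.Norms.Elementwise ComplexConjugate ContDiff Topology LineDeriv
open Matrix MeasureTheory Filter

variable {n : ℕ} {ε : Fin n → ℝ} {a : ℝ}

theorem equi_der (W : Weil ε a) {s : Fin n → ℂ} {k : Fin n → ℤ} {L : (Mat n → ℂ) →ₗ[ℂ] Sch n}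
    (hL : Equi W s k L) {u : Fin n → ℂ} {D : Sch n →L[ℂ] Sch n} (hD : IsDer W u D)
    (f : Mat n → ℂ) (hf : f ∈ TGs (GLs n)) :
    L (dg (fun g => g * Zm ε u) f) = D (L f) := by
  obtain ⟨γ, hγ, hder⟩ := hD
  obtain ⟨x, hx⟩ : ∃ x : ℝ → Mat n, x = fun _ => 1 := ⟨_, rfl⟩
  obtain ⟨y, hy⟩ : ∃ y : ℝ → Mat n, y = fun τ => 1 + phi (nrm ε u) τ • Zm ε u := ⟨_, rfl⟩
  have hxs : ContDiff ℝ ∞ x := by
    rw [hx]
    exact contDiff_const
  have hys : ContDiff ℝ ∞ y := by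
    rw [hy]
    exact contDiff_const.add ((contDiff_phi (nrm ε u)).smul contDiff_const)
  have hx0 : x 0 = 1 := by rw [hx]
  have hy0 : y 0 = 1 := by
    rw [hy]
    show 1 + phi (nrm ε u) 0 • Zm ε u = 1
    rw [phi_zero, zero_smul, add_zero]
  have hdx : deriv x 0 = 0 := by
    rw [hx]
    exact deriv_const _ _
  have hdy : deriv y 0 = Zm ε u := by
    rw [hy]
    have h1 : HasDerivAt (fun τ : ℝ => 1 + phi (nrm ε u) τ • Zm ε u) ((1 : ℂ) • Zm ε u) 0 :=
      ((hasDerivAt_phi (nrm ε u)).smul_const (Zm ε u)).const_add 1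
    exact h1.deriv.trans (one_smul ℂ (Zm ε u))
  have h := tendsto_A_act hL.cont hf hxs hys hx0 hy0
  rw [hdx, hdy] at h
  have e1 : (fun τ : ℝ => ((τ : ℂ)⁻¹) • (L (fun g => f (x τ * g * y τ)) - L f)) =
      fun τ : ℝ => ((τ : ℂ)⁻¹) • (W.om (γ τ) (L f) - L f) := by
    funext τ
    congr 2
    rw [← hL.right (γ τ) f hf]
    congr 1
    funext g
    rw [hγ.val, hx, hy]
    show f (1 * g * (1 + phi (nrm ε u) τ • Zm ε u)) = _
    rw [one_mul]
  have e2 : (fun g : Mat n => (0 : Mat n) * g + g * Zm ε u) = fun g => g * Zm ε u := by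
    funext g
    rw [zero_mul, zero_add]
  rw [e1, e2] at h
  exact tendsto_nhds_unique h (hder (L f))

end Pool.Agent.Work.MP_dd0ddf_al.AR.WB
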