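import Pool.Agent.Work.MP_dd0ddf_al.AR.WScal
import Pool.Agent.Work.MP_dd0ddf_al.AR.WTst

/-!
# MP_dd0ddf_al, archimedean part, W-block, module WLin: linear relations for `e`

Proofs.

`e_rel`: `D_α`: derivative for `u α` with `D_α y = QQ (u α) y + e (u α) • y`.  The function
`dg (fun g => g * Zm ε (u α)) f g = fderiv ℝ f g (g * Zm ε (u α))` is real linear in the matrix, so
`∑ α, (c α : ℂ) • dg (fun g => g * Zm ε (u α)) f = (g ↦ fderiv ℝ f g (g * ∑ (c α : ℂ) • Zm ε (u α))) = 0`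
(`c α` real: `(c α : ℂ) • z = c α • z` for `z : ℂ`, and `(c α : ℂ) • Z = c α • Z` for matrices).
Apply `L` and `equi_der`: `∑ (c α : ℂ) • D_α (L f) = 0`, i.e.
`∑ (c α : ℂ) • QQ (u α) (L f) + (∑ (c α : ℂ) * e (u α)) • L f = 0`; the first sum is `0` by
`QQ_rel`; `L f ≠ 0`.

`e_scale`: `Zm ε (c • u) = (‖c‖^2 : ℂ) • Zm ε u` (`conj(c u_j) c u_l = |c|^2 conj(u_j) u_l`); `e_rel`
with `ι = Fin 2`, coefficients `1, -‖c‖^2`, vectors `c • u, u`.
`e_para`: `Zm (p+q) + Zm (p-q) - 2 Zm p - 2 Zm q = 0` (entrywise); `e_rel` with `ι = Fin 4`.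
-/

set_option linter.unusedSectionVars false

namespace Pool.Agent.Work.MP_dd0ddf_al.AR.WB

open scoped SchwartzMap Matrix.Norms.Elementwise ComplexConjugate ContDiff Topology LineDeriv
open Matrix MeasureTheory Filter

variable {n : ℕ} {ε : Fin n → ℝ} {a : ℝ}

theorem e_rel (hep : ∀ j, ε j = 1 ∨ ε j = -1) (W : Weil ε a) {s : Fin n → ℂ} {k : Fin n → ℤ}
    {L : (Mat n → ℂ) →ₗ[ℂ] Sch n} (hL : Equi W s k L) (f : Mat n → ℂ) (hf : f ∈ TGs (GLs n))
    (hne : L f ≠ 0) {e : (Fin n → ℂ) → ℂ} (he : IsE W e) {ι : Type} [Fintype ι] (c : ι → ℝ)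
    (u : ι → Fin n → ℂ) (hrel : ∑ α, (c α : ℂ) • Zm ε (u α) = 0) :
    ∑ α, (c α : ℂ) * e (u α) = 0 := by
  choose D hD hDe using fun α => he (u α)
  have h0 : ∑ α, (c α : ℂ) • dg (fun g => g * Zm ε (u α)) f = 0 := by
    funext g
    rw [Finset.sum_apply]
    show ∑ α, (c α : ℂ) * fderiv ℝ f g (g * Zm ε (u α)) = 0
    have h1 : ∀ α, (c α : ℂ) * fderiv ℝ f g (g * Zm ε (u α)) =
        fderiv ℝ f g (c α • (g * Zm ε (u α))) := by
      intro α
      rw [map_smul, Complex.real_smul]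
    have h2 : ∑ α, c α • (g * Zm ε (u α)) = 0 := by
      have h3 : ∀ α, c α • (g * Zm ε (u α)) = g * ((c α : ℂ) • Zm ε (u α)) := by
        intro α
        rw [Matrix.mul_smul]
        ext i j
        simp
      rw [Finset.sum_congr rfl fun α _ => h3 α, ← Finset.mul_sum, hrel, mul_zero]
    rw [Finset.sum_congr rfl fun α _ => h1 α, ← map_sum, h2, map_zero]
  have h4 : ∑ α, (c α : ℂ) • D α (L f) = 0 := by
    have h5 := congrArg L h0
    rw [map_sum, map_zero] at h5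
    rw [← h5]
    refine Finset.sum_congr rfl fun α _ => ?_
    rw [map_smul, equi_der W hL (hD α) f hf]
  have h6 : (∑ α, (c α : ℂ) * e (u α)) • L f = 0 := by
    rw [Finset.sum_smul]
    have h7 := QQ_rel (a := a) hep c u hrel (L f)
    rw [← h4] at h7
    have h8 : ∑ α, (c α : ℂ) • D α (L f) =
        ∑ α, (c α : ℂ) • QQ ε a (u α) (L f) + ∑ α, ((c α : ℂ) * e (u α)) • L f := by
      rw [← Finset.sum_add_distrib]
      refine Finset.sum_congr rfl fun α _ => ?_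
      rw [hDe, smul_add, mul_smul]
    rw [h8] at h7
    exact (left_eq_add.mp h7)
  exact (smul_eq_zero.mp h6).resolve_right hne

theorem e_scale (hep : ∀ j, ε j = 1 ∨ ε j = -1) (W : Weil ε a) {s : Fin n → ℂ} {k : Fin n → ℤ}
    {L : (Mat n → ℂ) →ₗ[ℂ] Sch n} (hL : Equi W s k L) (f : Mat n → ℂ) (hf : f ∈ TGs (GLs n))
    (hne : L f ≠ 0) {e : (Fin n → ℂ) → ℂ} (he : IsE W e) (c : ℂ) (u : Fin n → ℂ) :
    e (c • u) = ((‖c‖ ^ 2 : ℝ) : ℂ) * e u := by
  have h := e_rel hep W hL f hf hne he (ι := Fin 2) ![1, -(‖c‖ ^ 2)] ![c • u, u] (by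
    rw [Fin.sum_univ_two]
    ext j l
    have hc : (starRingEnd ℂ) c * c = ((‖c‖ ^ 2 : ℝ) : ℂ) := by
      rw [Complex.conj_mul']
      push_cast
      rfl
    have hc2 : (starRingEnd ℂ) c * c = (‖c‖ : ℂ) ^ 2 := by
      rw [hc]
      push_cast
      rfl
    simp only [Zm, Matrix.add_apply, Matrix.smul_apply, Matrix.of_apply, Pi.smul_apply,
      smul_eq_mul, Matrix.cons_val_zero, Matrix.cons_val_one, Matrix.zero_apply, map_mul]
    push_cast
    linear_combination (Complex.I * ε j * (starRingEnd ℂ) (u j) * u l) * hc2)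
  rw [Fin.sum_univ_two] at h
  simp only [Matrix.cons_val_zero, Matrix.cons_val_one] at h
  push_cast at h ⊢
  linear_combination h

theorem e_para (hep : ∀ j, ε j = 1 ∨ ε j = -1) (W : Weil ε a) {s : Fin n → ℂ} {k : Fin n → ℤ}
    {L : (Mat n → ℂ) →ₗ[ℂ] Sch n} (hL : Equi W s k L) (f : Mat n → ℂ) (hf : f ∈ TGs (GLs n))
    (hne : L f ≠ 0) {e : (Fin n → ℂ) → ℂ} (he : IsE W e) (p q : Fin n → ℂ) :
    e (p + q) + e (p - q) = 2 * e p + 2 * e q := by
  have h := e_rel hep W hL f hf hne he (ι := Fin 4) ![1, 1, -2, -2] ![p + q, p - q, p, q] (by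
    rw [Fin.sum_univ_four]
    ext j l
    simp only [Zm, Matrix.add_apply, Matrix.smul_apply, Matrix.of_apply, Pi.add_apply,
      Pi.sub_apply, smul_eq_mul, Matrix.cons_val, Matrix.zero_apply, map_add, map_sub]
    push_cast
    ring)
  rw [Fin.sum_univ_four] at h
  simp only [Matrix.cons_val] at h
  push_cast at h
  linear_combination h

end Pool.Agent.Work.MP_dd0ddf_al.AR.WB
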