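import Pool.Agent.Work.MP_dd0ddf_al.AR.WSem

/-!
# MP_dd0ddf_al, archimedean part, W-block, module WMul: modulations on the Schwartz space

Proofs.

`norm_iteratedFDeriv_exp_le`: the function is `g ∘ L`, `L : (Fin n → ℝ) →L[ℝ] ℝ` the `l`-th
coordinate (`‖L‖ ≤ 1`), `g x = exp(i c x)`, `c` real.  `ContinuousLinearMap.iteratedFDeriv_comp_right`
and `ContinuousMultilinearMap.norm_compContinuousLinearMap_le` bound the norm by
`‖iteratedFDeriv ℝ m g (L x)‖ = ‖iteratedDeriv m g (L x)‖`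
(`norm_iteratedFDeriv_eq_norm_iteratedDeriv`) and `iteratedDeriv m g x = (i c)^m exp(i c x)` (by
induction with `iteratedDeriv_succ`), of norm `|c|^m` (`Complex.norm_exp_ofReal_mul_I`).

`exp_hasTemperateGrowth`: from `norm_iteratedFDeriv_exp_le`.

(`O.tm_apply` of ODefs: `tm l f x = x l * f x`.)

`bound_mu`: Leibniz: `norm_iteratedFDeriv_mul_le` gives (all `|s| ≤ 1`)
`‖iteratedFDeriv ℝ m (exp(i b s y_l) f(y)) x‖ ≤ ∑_{i ≤ m} (m choose i) |b s|^i ‖iteratedFDeriv ℝ (m-i) f x‖`,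
so `C = ∑_{i ≤ m} (m choose i) |b|^i p_{k,m-i}(f)` works (`SchwartzMap.le_seminorm`).

`tendsto_mu`: `tendsto_sch` with `F s x = exp(i b s x_l) f(x)`,
`F1 s x = exp(i b s x_l) (i b x_l f(x))`, `F2 s x = exp(i b s x_l) ((i b x_l)^2 f(x))`, which is
`exp(i b s x_l)` times the Schwartz function `(i b)^2 • tm l (tm l f)`; the bound is `bound_mu` for
this Schwartz function.
-/

set_option linter.unusedSectionVars false

namespace Pool.Agent.Work.MP_dd0ddf_al.AR.WB

open scoped SchwartzMap Matrix.Norms.Elementwise ComplexConjugate ContDiff Topology LineDeriv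
open Matrix MeasureTheory Filter

variable {n : ℕ}

private theorem wmul_deriv (c : ℝ) (m : ℕ) :
    iteratedDeriv m (fun x : ℝ => Complex.exp (Complex.I * c * (x : ℝ))) =
      fun x : ℝ => (Complex.I * c) ^ m * Complex.exp (Complex.I * c * (x : ℝ)) := by
  induction m with
  | zero =>
    funext x
    rw [iteratedDeriv_zero, pow_zero, one_mul]
  | succ m ih =>
    rw [iteratedDeriv_succ, ih]
    funext x
    have h1 : HasDerivAt (fun x : ℝ => Complex.I * c * (x : ℂ)) (Complex.I * c * 1) x :=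
      (Complex.ofRealCLM.hasDerivAt (x := x)).const_mul (Complex.I * (c : ℂ))
    have h2 := (h1.cexp).const_mul ((Complex.I * (c : ℂ)) ^ m)
    rw [h2.deriv]
    ring

private theorem wmul_contDiff (l : Fin n) (c : ℝ) :
    ContDiff ℝ ∞ (fun y : Fin n → ℝ => Complex.exp (Complex.I * c * ((y l : ℝ) : ℂ))) :=
  ContDiff.cexp (contDiff_const.mul (Complex.ofRealCLM.contDiff.comp (contDiff_apply ℝ ℝ l)))

theorem norm_iteratedFDeriv_exp_le (l : Fin n) (c : ℝ) (m : ℕ) (x : Fin n → ℝ) :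
    ‖iteratedFDeriv ℝ m (fun y : Fin n → ℝ => Complex.exp (Complex.I * c * (y l : ℝ))) x‖
      ≤ |c| ^ m := by
  have hg : ContDiff ℝ ∞ (fun x : ℝ => Complex.exp (Complex.I * c * (x : ℝ))) :=
    ContDiff.cexp (contDiff_const.mul Complex.ofRealCLM.contDiff)
  have h1 := (ContinuousLinearMap.proj (R := ℝ) (φ := fun _ : Fin n => ℝ) l).iteratedFDeriv_comp_right
    hg x (i := m) (by exact_mod_cast le_top)
  have h2 : (fun y : Fin n → ℝ => Complex.exp (Complex.I * c * (y l : ℝ))) =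
      (fun x : ℝ => Complex.exp (Complex.I * c * (x : ℝ))) ∘
        (ContinuousLinearMap.proj (R := ℝ) (φ := fun _ : Fin n => ℝ) l) := rfl
  rw [h2, h1]
  refine (ContinuousMultilinearMap.norm_compContinuousLinearMap_le _ _).trans ?_
  have h3 : ‖(ContinuousLinearMap.proj (R := ℝ) (φ := fun _ : Fin n => ℝ) l :
      (Fin n → ℝ) →L[ℝ] ℝ)‖ ≤ 1 :=
    ContinuousLinearMap.opNorm_le_bound _ zero_le_one fun y => by
      rw [one_mul]
      exact norm_le_pi_norm y l
  have h4 : ∏ _i : Fin m, ‖(ContinuousLinearMap.proj (R := ℝ) (φ := fun _ : Fin n => ℝ) l :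
      (Fin n → ℝ) →L[ℝ] ℝ)‖ ≤ 1 :=
    Finset.prod_le_one (fun _ _ => norm_nonneg _) fun _ _ => h3
  have h5 : ‖iteratedFDeriv ℝ m (fun x : ℝ => Complex.exp (Complex.I * c * (x : ℝ))) (x l)‖ =
      |c| ^ m := by
    rw [norm_iteratedFDeriv_eq_norm_iteratedDeriv, wmul_deriv]
    have h6 : Complex.I * (c : ℂ) * ((x l : ℝ) : ℂ) = ((c * x l : ℝ) : ℂ) * Complex.I := by
      push_cast
      ring
    rw [norm_mul, norm_pow, norm_mul, Complex.norm_I, one_mul, Complex.norm_real, h6,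
      Complex.norm_exp_ofReal_mul_I, mul_one, Real.norm_eq_abs]
  calc _ ≤ |c| ^ m * 1 := mul_le_mul h5.le h4 (Finset.prod_nonneg fun _ _ => norm_nonneg _)
        (by positivity)
    _ = |c| ^ m := mul_one _

theorem exp_hasTemperateGrowth (l : Fin n) (c : ℝ) :
    Function.HasTemperateGrowth
      (fun y : Fin n → ℝ => Complex.exp (Complex.I * c * ((y l : ℝ) : ℂ))) := by
  refine ⟨wmul_contDiff l c, fun m => ⟨0, |c| ^ m, fun x => ?_⟩⟩
  rw [pow_zero, mul_one]
  exact norm_iteratedFDeriv_exp_le l c m x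

theorem bound_mu (f : Sch n) (l : Fin n) (b : ℝ) (k m : ℕ) : ∃ C : ℝ, ∀ s : ℝ, |s| ≤ 1 → ∀ x,
    ‖x‖ ^ k * ‖iteratedFDeriv ℝ m
      (fun y : Fin n → ℝ => Complex.exp (Complex.I * b * s * ((y l : ℝ) : ℂ)) * f y) x‖ ≤ C := by
  refine ⟨∑ i ∈ Finset.range (m + 1), (m.choose i : ℝ) * |b| ^ i *
    SchwartzMap.seminorm ℝ k (m - i) f, fun s hs x => ?_⟩
  have h1 : (fun y : Fin n → ℝ => Complex.exp (Complex.I * b * s * ((y l : ℝ) : ℂ)) * f y) =
      fun y : Fin n → ℝ => Complex.exp (Complex.I * (b * s : ℝ) * ((y l : ℝ) : ℂ)) * f y := by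
    funext y
    congr 2
    push_cast
    ring
  rw [h1]
  have h2 := norm_iteratedFDeriv_mul_le (𝕜 := ℝ) (wmul_contDiff (n := n) l (b * s)) (f.smooth ⊤) x
    (n := m) (by exact_mod_cast le_top)
  calc ‖x‖ ^ k * _ ≤ ‖x‖ ^ k * _ := mul_le_mul_of_nonneg_left h2 (by positivity)
    _ ≤ _ := by
      rw [Finset.mul_sum]
      refine Finset.sum_le_sum fun i _ => ?_
      have h3 := norm_iteratedFDeriv_exp_le (n := n) l (b * s) i x
      have h4 : |b * s| ^ i ≤ |b| ^ i := by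
        apply pow_le_pow_left₀ (abs_nonneg _)
        rw [abs_mul]
        exact mul_le_of_le_one_right (abs_nonneg _) hs
      have h5 := SchwartzMap.le_seminorm ℝ k (m - i) f x
      calc ‖x‖ ^ k * ((m.choose i : ℝ) * ‖iteratedFDeriv ℝ i (fun y : Fin n → ℝ =>
              Complex.exp (Complex.I * (b * s : ℝ) * ((y l : ℝ) : ℂ))) x‖ *
              ‖iteratedFDeriv ℝ (m - i) f x‖)
          = ((m.choose i : ℝ) * ‖iteratedFDeriv ℝ i (fun y : Fin n → ℝ =>
              Complex.exp (Complex.I * (b * s : ℝ) * ((y l : ℝ) : ℂ))) x‖) *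
              (‖x‖ ^ k * ‖iteratedFDeriv ℝ (m - i) f x‖) := by ring
        _ ≤ ((m.choose i : ℝ) * |b| ^ i) * SchwartzMap.seminorm ℝ k (m - i) f := by
            apply mul_le_mul _ h5 (by positivity) (by positivity)
            exact mul_le_mul_of_nonneg_left (h3.trans h4) (by positivity)

theorem tendsto_mu (f : Sch n) (l : Fin n) (b : ℝ) (T : ℝ → Sch n)
    (hT : ∀ (τ : ℝ) (t : Fin n → ℝ),
      T τ t = Complex.exp (Complex.I * b * τ * ((t l : ℝ) : ℂ)) * f t) :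
    Tendsto (fun τ : ℝ => ((τ : ℂ)⁻¹) • (T τ - f)) (𝓝[≠] 0) (𝓝 ((Complex.I * b) • tm l f)) := by
  have hl : ContDiff ℝ ∞ (fun z : ℝ × (Fin n → ℝ) => ((z.2 l : ℝ) : ℂ)) :=
    Complex.ofRealCLM.contDiff.comp ((contDiff_apply ℝ ℝ l).comp contDiff_snd)
  have hs : ContDiff ℝ ∞ (fun z : ℝ × (Fin n → ℝ) => ((z.1 : ℝ) : ℂ)) :=
    Complex.ofRealCLM.contDiff.comp contDiff_fst
  have hE : ∀ (s : ℝ) (x : Fin n → ℝ),
      HasDerivAt (fun s : ℝ => Complex.exp (Complex.I * b * s * ((x l : ℝ) : ℂ)))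
        (Complex.exp (Complex.I * b * s * ((x l : ℝ) : ℂ)) * (Complex.I * b * (x l : ℝ))) s := by
    intro s x
    have h1 : HasDerivAt (fun s : ℝ => Complex.I * b * (s : ℂ) * ((x l : ℝ) : ℂ))
        (Complex.I * b * 1 * ((x l : ℝ) : ℂ)) s :=
      ((Complex.ofRealCLM.hasDerivAt (x := s)).const_mul (Complex.I * (b : ℂ))).mul_const _
    have h2 := h1.cexp
    rw [mul_one] at h2
    exact h2
  refine tendsto_sch f ((Complex.I * b) • tm l f) T
    (fun s x => Complex.exp (Complex.I * b * s * ((x l : ℝ) : ℂ)) * f x)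
    (fun s x => Complex.exp (Complex.I * b * s * ((x l : ℝ) : ℂ)) *
      (Complex.I * b * ((x l : ℝ) : ℂ) * f x))
    (fun s x => Complex.exp (Complex.I * b * s * ((x l : ℝ) : ℂ)) *
      (((Complex.I * b) ^ 2 • tm l (tm l f)) x)) ?_ ?_ ?_ hT ?_ ?_ ?_
  · exact (ContDiff.cexp ((contDiff_const.mul hs).mul hl)).mul ((f.smooth ⊤).comp contDiff_snd)
  · intro s x
    have h1 := (hE s x).mul_const (f x)
    refine h1.congr_deriv ?_
    ring
  · intro s x
    have h1 := (hE s x).mul_const (Complex.I * b * ((x l : ℝ) : ℂ) * f x)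
    refine h1.congr_deriv ?_
    change _ = Complex.exp (Complex.I * b * s * ((x l : ℝ) : ℂ)) *
      ((Complex.I * b) ^ 2 * tm l (tm l f) x)
    rw [O.tm_apply, O.tm_apply]
    ring
  · intro x
    simp
  · intro x
    change (Complex.I * b) * tm l f x = _
    rw [O.tm_apply]
    simp
    ring
  · intro k m
    exact bound_mu _ l b k m

end Pool.Agent.Work.MP_dd0ddf_al.AR.WB
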