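import Pool.Agent.Work.MP_dd0ddf_al.AR.WTr
import Pool.Agent.Work.MP_dd0ddf_al.AR.WMul

/-!
# MP_dd0ddf_al, archimedean part, W-block, module WRho: the operators `ρ(v)` and `gen`

Proofs.

`exists_rho_re`: `g = SchwartzMap.compSubConstCLM ℂ (-(τ • Pi.single l 1)) f` (translation); the
exponential factor of `rhoF` is `1` as all imaginary parts vanish.

`exists_rho_im`: `v = Pi.single l (i τ)` has real part `0` and imaginary part `τ` at `l`, so
`rhoF ε a v f t = exp(i a ε_l τ 2 t_l) f(t)`; `g = SchwartzMap.smulLeftCLM ℂ (exponential) f`, by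
`exp_hasTemperateGrowth` with `c = 2 a ε_l τ` and `SchwartzMap.smulLeftCLM_apply_apply`.

`hasDerivAt_rho`: `rhoF ε a (τ w) F t = exp(i a ∑ ε_j τ y_j (2 t_j + τ x_j)) F(t + τ x)`,
`w = x + i y`; product rule at `τ = 0`: `i a ∑ ε_j y_j 2 t_j F(t) + ∑ x_j ∂_j F(t)`, which is
`gen ε a w F t` (`O.td_apply`, `O.tm_apply`; `fderiv ℝ F t x = ∑ x_j fderiv ℝ F t (Pi.single j 1)`).

`gen_add`, `gen_real_smul`, `gen_single_one`, `gen_single_I`: from the definition.

`AA_eq_gen`, `BB_eq_gen`: with `v = fl ε r`, `i v`: `(gen v + i gen (i v))/2`: the coefficient of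
`td j` is `(Re v_j + i Re(i v_j))/2 = (Re v_j - i Im v_j)/2 = conj(v_j)/2 = ε_j r_j / 2` and that of
`tm j` is `2 i a ε_j (Im v_j + i Im (i v_j))/2 = i a ε_j (Im v_j + i Re v_j) = - a ε_j conj(v_j)
= - a ε_j ε_j r_j`, the same as in `AA` : `ε_j r_j (1/2) (-(2 a ε_j))`.
Similarly `(gen v - i gen (i v))/2` has coefficients `v_j / 2` and `a ε_j v_j`, the same as in `BB`.
(no condition on `ε` is needed.)
-/

set_option linter.unusedSectionVars false

namespace Pool.Agent.Work.MP_dd0ddf_al.AR.WB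

open scoped SchwartzMap Matrix.Norms.Elementwise ComplexConjugate ContDiff Topology LineDeriv
open Matrix MeasureTheory Filter

variable {n : ℕ} {ε : Fin n → ℝ} {a : ℝ}

private theorem gen_apply (ε : Fin n → ℝ) (a : ℝ) (v : Fin n → ℂ) (f : Sch n) :
    gen ε a v f = ∑ j, ((((v j).re : ℝ) : ℂ) • td j f +
      (2 * Complex.I * a * ε j * (((v j).im : ℝ) : ℂ)) • tm j f) := by
  unfold gen
  simp only [_root_.sum_apply, _root_.smul_apply, _root_.add_apply]

theorem exists_rho_re (ε : Fin n → ℝ) (a : ℝ) (f : Sch n) (l : Fin n) (τ : ℝ) :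
    ∃ g : Sch n, (g : (Fin n → ℝ) → ℂ) = rhoF ε a (Pi.single l (τ : ℂ)) f ∧
      ∀ t, g t = f (t + τ • Pi.single l 1) := by
  have key : ∀ t, (SchwartzMap.compSubConstCLM ℂ (-(τ • (Pi.single l 1 : Fin n → ℝ))) f) t =
      f (t + τ • Pi.single l 1) := by
    intro t
    rw [SchwartzMap.compSubConstCLM_apply, sub_neg_eq_add]
  refine ⟨_, ?_, key⟩
  funext t
  rw [key]
  unfold rhoF
  have h1 : ∀ j, ((Pi.single l (τ : ℂ) : Fin n → ℂ) j).im = 0 := by
    intro j
    by_cases hj : j = l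
    · subst hj
      rw [Pi.single_eq_same, Complex.ofReal_im]
    · rw [Pi.single_eq_of_ne hj, Complex.zero_im]
  have h2 : ∀ j, ((Pi.single l (τ : ℂ) : Fin n → ℂ) j).re =
      (τ • (Pi.single l 1 : Fin n → ℝ)) j := by
    intro j
    by_cases hj : j = l
    · subst hj
      rw [Pi.single_eq_same, Complex.ofReal_re, Pi.smul_apply, Pi.single_eq_same, smul_eq_mul,
        mul_one]
    · rw [Pi.single_eq_of_ne hj, Complex.zero_re, Pi.smul_apply, Pi.single_eq_of_ne hj,
        smul_zero]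
  have h3 : (∑ j, (ε j : ℂ) * (((Pi.single l (τ : ℂ) : Fin n → ℂ) j).im : ℝ) *
      (2 * t j + (((Pi.single l (τ : ℂ) : Fin n → ℂ) j).re : ℝ))) = 0 := by
    apply Finset.sum_eq_zero
    intro j _
    rw [h1 j, Complex.ofReal_zero, mul_zero, zero_mul]
  rw [h3, mul_zero, Complex.exp_zero, one_mul]
  congr 1
  funext j
  rw [h2 j, Pi.add_apply]

theorem exists_rho_im (ε : Fin n → ℝ) (a : ℝ) (f : Sch n) (l : Fin n) (τ : ℝ) :
    ∃ g : Sch n, (g : (Fin n → ℝ) → ℂ) = rhoF ε a (Pi.single l (Complex.I * τ)) f ∧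
      ∀ t, g t = Complex.exp (Complex.I * ((2 * a * ε l : ℝ) : ℂ) * τ * ((t l : ℝ) : ℂ)) * f t := by
  have key : ∀ t, (SchwartzMap.smulLeftCLM ℂ (fun y : Fin n → ℝ =>
      Complex.exp (Complex.I * ((2 * a * ε l * τ : ℝ) : ℂ) * ((y l : ℝ) : ℂ))) f) t =
      Complex.exp (Complex.I * ((2 * a * ε l : ℝ) : ℂ) * τ * ((t l : ℝ) : ℂ)) * f t := by
    intro t
    rw [SchwartzMap.smulLeftCLM_apply_apply (exp_hasTemperateGrowth l (2 * a * ε l * τ)),
      smul_eq_mul]
    congr 2
    push_cast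
    ring
  refine ⟨_, ?_, key⟩
  funext t
  rw [key]
  unfold rhoF
  have h1 : ∀ j, ((Pi.single l (Complex.I * τ) : Fin n → ℂ) j).im =
      (Pi.single l τ : Fin n → ℝ) j := by
    intro j
    by_cases hj : j = l
    · subst hj
      rw [Pi.single_eq_same, Pi.single_eq_same]
      simp
    · rw [Pi.single_eq_of_ne hj, Complex.zero_im, Pi.single_eq_of_ne hj]
  have h2 : ∀ j, ((Pi.single l (Complex.I * τ) : Fin n → ℂ) j).re = 0 := by
    intro j
    by_cases hj : j = l
    · subst hj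
      rw [Pi.single_eq_same]
      simp
    · rw [Pi.single_eq_of_ne hj, Complex.zero_re]
  have h3 : (∑ j, (ε j : ℂ) * (((Pi.single l (Complex.I * τ) : Fin n → ℂ) j).im : ℝ) *
      (2 * t j + (((Pi.single l (Complex.I * τ) : Fin n → ℂ) j).re : ℝ))) =
      (ε l : ℂ) * τ * (2 * t l) := by
    rw [Finset.sum_eq_single l]
    · rw [h1 l, h2 l, Pi.single_eq_same, Complex.ofReal_zero, add_zero]
    · intro j _ hj
      rw [h1 j, Pi.single_eq_of_ne hj, Complex.ofReal_zero, mul_zero, zero_mul]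
    · intro h
      exact absurd (Finset.mem_univ l) h
  rw [h3]
  congr 1
  · congr 1
    push_cast
    ring
  · congr 1
    funext j
    rw [h2 j, add_zero]

theorem hasDerivAt_rho (ε : Fin n → ℝ) (a : ℝ) (F : Sch n) (w : Fin n → ℂ) (t : Fin n → ℝ) :
    HasDerivAt (fun τ : ℝ => rhoF ε a ((τ : ℂ) • w) F t) (gen ε a w F t) 0 := by
  have hre : ∀ (τ : ℝ) (j : Fin n), (((τ : ℂ) • w) j).re = τ * (w j).re := by
    intro τ j
    rw [Pi.smul_apply, smul_eq_mul, Complex.re_ofReal_mul]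
  have him : ∀ (τ : ℝ) (j : Fin n), (((τ : ℂ) • w) j).im = τ * (w j).im := by
    intro τ j
    rw [Pi.smul_apply, smul_eq_mul, Complex.im_ofReal_mul]
  have hfun : (fun τ : ℝ => rhoF ε a ((τ : ℂ) • w) F t) = fun τ : ℝ =>
      Complex.exp (Complex.I * a * ((∑ j, ε j * (τ * (w j).im) * (2 * t j + τ * (w j).re) : ℝ) : ℂ)) *
        F (t + τ • fun j => (w j).re) := by
    funext τ
    unfold rhoF
    simp only [hre, him]
    congr 1
    push_cast
    rfl
  rw [hfun]
  -- the exponent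
  have hE1 : HasDerivAt (fun τ : ℝ => ∑ j, ε j * (τ * (w j).im) * (2 * t j + τ * (w j).re))
      (∑ j, ε j * (w j).im * (2 * t j)) 0 := by
    have h1 : ∀ j ∈ (Finset.univ : Finset (Fin n)),
        HasDerivAt (fun τ : ℝ => ε j * (τ * (w j).im) * (2 * t j + τ * (w j).re))
          (ε j * (w j).im * (2 * t j)) 0 := by
      intro j _
      have h2 : HasDerivAt (fun τ : ℝ => ε j * (τ * (w j).im)) (ε j * (1 * (w j).im)) 0 :=
        ((hasDerivAt_id (0 : ℝ)).mul_const _).const_mul _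
      have h3 : HasDerivAt (fun τ : ℝ => 2 * t j + τ * (w j).re) (1 * (w j).re) 0 :=
        ((hasDerivAt_id (0 : ℝ)).mul_const _).const_add _
      refine (h2.fun_mul h3).congr_deriv ?_
      ring
    have h5 := HasDerivAt.fun_sum h1
    exact h5
  have hE2 : HasDerivAt (fun τ : ℝ => Complex.exp (Complex.I * a *
      ((∑ j, ε j * (τ * (w j).im) * (2 * t j + τ * (w j).re) : ℝ) : ℂ)))
      (Complex.I * a * ((∑ j, ε j * (w j).im * (2 * t j) : ℝ) : ℂ)) 0 := by
    have h1 := ((hE1.ofReal_comp).const_mul (Complex.I * a)).cexp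
    convert h1 using 1
    simp
  have hG : HasDerivAt (fun τ : ℝ => F (t + τ • fun j => (w j).re))
      (fderiv ℝ F t (fun j => (w j).re)) 0 := by
    have h1 : HasDerivAt (fun τ : ℝ => t + τ • fun j => (w j).re) ((1 : ℝ) • fun j => (w j).re) 0 :=
      ((hasDerivAt_id (0 : ℝ)).smul_const _).const_add _
    have h2 : HasFDerivAt (F : (Fin n → ℝ) → ℂ) (fderiv ℝ F t) (t + (0 : ℝ) • fun j => (w j).re) := by
      rw [zero_smul, add_zero]
      exact (F.differentiableAt).hasFDerivAt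
    have h3 := h2.comp_hasDerivAt (0 : ℝ) h1
    rw [one_smul] at h3
    exact h3
  refine (hE2.fun_mul hG).congr_deriv ?_
  symm
  have hx : (fun j => (w j).re) = ∑ j, (w j).re • (Pi.single j (1 : ℝ) : Fin n → ℝ) := by
    funext i
    rw [Finset.sum_apply, Finset.sum_eq_single i]
    · rw [Pi.smul_apply, Pi.single_eq_same, smul_eq_mul, mul_one]
    · intro j _ hj
      rw [Pi.smul_apply, Pi.single_eq_of_ne (Ne.symm hj), smul_zero]
    · intro h
      exact absurd (Finset.mem_univ i) h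
  have hfd : fderiv ℝ F t (fun j => (w j).re) =
      ∑ j, ((w j).re : ℂ) * fderiv ℝ F t (Pi.single j 1) := by
    rw [hx, map_sum]
    apply Finset.sum_congr rfl
    intro j _
    rw [map_smul, Complex.real_smul]
  rw [hfd]
  simp only [zero_mul, mul_zero, Finset.sum_const_zero, Complex.ofReal_zero, Complex.exp_zero,
    one_mul, zero_smul, add_zero]
  rw [gen_apply]
  have hsum : ∀ (s : Finset (Fin n)) (G : Fin n → Sch n),
      (∑ j ∈ s, G j) t = ∑ j ∈ s, G j t := by
    intro s G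
    classical
    refine Finset.induction_on s ?_ ?_
    · rw [Finset.sum_empty, Finset.sum_empty]
      rfl
    · intro i s hi ih
      rw [Finset.sum_insert hi, Finset.sum_insert hi, ← ih]
      rfl
  rw [hsum, Complex.ofReal_sum, Finset.mul_sum, Finset.sum_mul, ← Finset.sum_add_distrib]
  apply Finset.sum_congr rfl
  intro j _
  have h6 : ((((w j).re : ℝ) : ℂ) • td j F +
      (2 * Complex.I * a * ε j * (((w j).im : ℝ) : ℂ)) • tm j F) t =
      (((w j).re : ℝ) : ℂ) * td j F t +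
      (2 * Complex.I * a * ε j * (((w j).im : ℝ) : ℂ)) * tm j F t := rfl
  rw [h6, O.td_apply, O.tm_apply]
  push_cast
  ring

theorem gen_add (ε : Fin n → ℝ) (a : ℝ) (v w : Fin n → ℂ) (f : Sch n) :
    gen ε a (v + w) f = gen ε a v f + gen ε a w f := by
  rw [gen_apply, gen_apply, gen_apply, ← Finset.sum_add_distrib]
  apply Finset.sum_congr rfl
  intro j _
  rw [Pi.add_apply, Complex.add_re, Complex.add_im, Complex.ofReal_add, Complex.ofReal_add]
  module

theorem gen_real_smul (ε : Fin n → ℝ) (a : ℝ) (c : ℝ) (v : Fin n → ℂ) (f : Sch n) :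
    gen ε a ((c : ℂ) • v) f = (c : ℂ) • gen ε a v f := by
  rw [gen_apply, gen_apply, Finset.smul_sum]
  apply Finset.sum_congr rfl
  intro j _
  rw [Pi.smul_apply, smul_eq_mul, Complex.re_ofReal_mul, Complex.im_ofReal_mul,
    Complex.ofReal_mul, Complex.ofReal_mul]
  module

theorem gen_single_one (ε : Fin n → ℝ) (a : ℝ) (l : Fin n) (f : Sch n) :
    gen ε a (Pi.single l 1) f = td l f := by
  rw [gen_apply, Finset.sum_eq_single l]
  · rw [Pi.single_eq_same, Complex.one_re, Complex.one_im, Complex.ofReal_one,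
      Complex.ofReal_zero, mul_zero, zero_smul, one_smul, add_zero]
  · intro j _ hj
    rw [Pi.single_eq_of_ne hj, Complex.zero_re, Complex.zero_im, Complex.ofReal_zero, mul_zero,
      zero_smul, zero_smul, add_zero]
  · intro h
    exact absurd (Finset.mem_univ l) h

theorem gen_single_I (ε : Fin n → ℝ) (a : ℝ) (l : Fin n) (f : Sch n) :
    gen ε a (Pi.single l Complex.I) f = (Complex.I * ((2 * a * ε l : ℝ) : ℂ)) • tm l f := by
  rw [gen_apply, Finset.sum_eq_single l]
  · rw [Pi.single_eq_same, Complex.I_re, Complex.I_im, Complex.ofReal_one,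
      Complex.ofReal_zero, zero_smul, zero_add, mul_one]
    congr 1
    push_cast
    ring
  · intro j _ hj
    rw [Pi.single_eq_of_ne hj, Complex.zero_re, Complex.zero_im, Complex.ofReal_zero, mul_zero,
      zero_smul, zero_smul, add_zero]
  · intro h
    exact absurd (Finset.mem_univ l) h

theorem AA_eq_gen (ε : Fin n → ℝ) (a : ℝ) (r : Fin n → ℂ) (hep : ∀ j, ε j = 1 ∨ ε j = -1)
    (f : Sch n) : AA ε a r f =
      (1 / 2 : ℂ) • (gen ε a (fl ε r) f + Complex.I • gen ε a (Complex.I • fl ε r) f) := by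
  have hA : AA ε a r f = ∑ j, ((ε j : ℂ) * r j * (1 / 2)) •
      (td j f - (2 * a * ε j : ℂ) • tm j f) := by
    unfold AA
    simp only [_root_.sum_apply, _root_.smul_apply, _root_.sub_apply]
  rw [hA, gen_apply, gen_apply, Finset.smul_sum, ← Finset.sum_add_distrib, Finset.smul_sum]
  apply Finset.sum_congr rfl
  intro j _
  have hz : (ε j : ℂ) * r j = ((fl ε r j).re : ℂ) - Complex.I * ((fl ε r j).im : ℂ) := by
    unfold fl
    apply Complex.ext <;> simp
  have h1 : ((Complex.I • fl ε r) j).re = -(fl ε r j).im := by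
    rw [Pi.smul_apply, smul_eq_mul, Complex.I_mul_re]
  have h2 : ((Complex.I • fl ε r) j).im = (fl ε r j).re := by
    rw [Pi.smul_apply, smul_eq_mul, Complex.I_mul_im]
  rw [hz, h1, h2, Complex.ofReal_neg]
  generalize ((fl ε r j).re : ℂ) = x
  generalize ((fl ε r j).im : ℂ) = y
  match_scalars
  · ring
  · linear_combination (-(a * ε j * x)) * Complex.I_sq

theorem BB_eq_gen (ε : Fin n → ℝ) (a : ℝ) (r : Fin n → ℂ) (hep : ∀ j, ε j = 1 ∨ ε j = -1)
    (f : Sch n) : BB ε a r f =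
      (1 / 2 : ℂ) • (gen ε a (fl ε r) f - Complex.I • gen ε a (Complex.I • fl ε r) f) := by
  have hB : BB ε a r f = ∑ j, ((ε j : ℂ) * conj (r j) * (1 / 2)) •
      (td j f + (2 * a * ε j : ℂ) • tm j f) := by
    unfold BB
    simp only [_root_.sum_apply, _root_.smul_apply, _root_.add_apply]
  rw [hB, gen_apply, gen_apply, Finset.smul_sum, ← Finset.sum_sub_distrib, Finset.smul_sum]
  apply Finset.sum_congr rfl
  intro j _
  have hz : (ε j : ℂ) * conj (r j) = ((fl ε r j).re : ℂ) + Complex.I * ((fl ε r j).im : ℂ) := by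
    unfold fl
    apply Complex.ext <;> simp
  have h1 : ((Complex.I • fl ε r) j).re = -(fl ε r j).im := by
    rw [Pi.smul_apply, smul_eq_mul, Complex.I_mul_re]
  have h2 : ((Complex.I • fl ε r) j).im = (fl ε r j).re := by
    rw [Pi.smul_apply, smul_eq_mul, Complex.I_mul_im]
  rw [hz, h1, h2, Complex.ofReal_neg]
  generalize ((fl ε r j).re : ℂ) = x
  generalize ((fl ε r j).im : ℂ) = y
  match_scalars
  · ring
  · linear_combination (a * ε j * x) * Complex.I_sq

end Pool.Agent.Work.MP_dd0ddf_al.AR.WB
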