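import Pool.Agent.Work.MP_dd0ddf_al.AR.WSem

/-!
# MP_dd0ddf_al, archimedean part, W-block, module WTr: translations on the Schwartz space

Proofs.

`bound_tr`: `iteratedFDeriv ℝ m (fun y => f (y + s • e)) x = iteratedFDeriv ℝ m f (x + s • e)`
(`iteratedFDeriv_comp_add_right`), and for `|s| ≤ 1`
`‖x‖^k ≤ (‖x + s • e‖ + ‖e‖)^k ≤ 2^k (‖x + s • e‖^k + ‖e‖^k)` (`add_pow_le` or
`max`), so `C = 2^k (p_{k,m}(f) + ‖e‖^k p_{0,m}(f))` with `p = SchwartzMap.seminorm ℝ` works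
(`SchwartzMap.le_seminorm`).

`tendsto_tr`: `tendsto_sch` with `e = Pi.single l 1`, `F s x = f (x + s • e)`,
`F1 s x = (td l f) (x + s • e)`, `F2 s x = (td l (td l f)) (x + s • e)`; `td l f x = fderiv ℝ f x e`
(`O.td_apply`); the chain rule; the
bound is `bound_tr` for `td l (td l f)`.
-/

set_option linter.unusedSectionVars false

namespace Pool.Agent.Work.MP_dd0ddf_al.AR.WB

open scoped SchwartzMap Matrix.Norms.Elementwise ComplexConjugate ContDiff Topology LineDeriv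
open Matrix MeasureTheory Filter

variable {n : ℕ}

theorem bound_tr (f : Sch n) (e : Fin n → ℝ) (k m : ℕ) : ∃ C : ℝ, ∀ s : ℝ, |s| ≤ 1 → ∀ x,
    ‖x‖ ^ k * ‖iteratedFDeriv ℝ m (fun y => f (y + s • e)) x‖ ≤ C := by
  refine ⟨2 ^ (k - 1) * (SchwartzMap.seminorm ℝ k m f + ‖e‖ ^ k * SchwartzMap.seminorm ℝ 0 m f),
    fun s hs x => ?_⟩
  have h0 : iteratedFDeriv ℝ m (fun y => f (y + s • e)) x = iteratedFDeriv ℝ m f (x + s • e) :=
    iteratedFDeriv_comp_add_right m (s • e) x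
  rw [h0]
  have h1 : ‖x‖ ≤ ‖x + s • e‖ + ‖e‖ := by
    have h2 : ‖x‖ ≤ ‖x + s • e‖ + ‖s • e‖ := by
      have h3 := norm_sub_le (x + s • e) (s • e)
      rwa [add_sub_cancel_right] at h3
    have h4 : ‖s • e‖ ≤ ‖e‖ := by
      rw [norm_smul, Real.norm_eq_abs]
      exact mul_le_of_le_one_left (norm_nonneg e) hs
    linarith
  have h5 : ‖x‖ ^ k ≤ 2 ^ (k - 1) * (‖x + s • e‖ ^ k + ‖e‖ ^ k) :=
    (pow_le_pow_left₀ (norm_nonneg x) h1 k).trans
      (add_pow_le (norm_nonneg _) (norm_nonneg _) k)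
  have h6 : ‖x + s • e‖ ^ k * ‖iteratedFDeriv ℝ m f (x + s • e)‖ ≤ SchwartzMap.seminorm ℝ k m f :=
    SchwartzMap.le_seminorm ℝ k m f (x + s • e)
  have h7 : ‖iteratedFDeriv ℝ m f (x + s • e)‖ ≤ SchwartzMap.seminorm ℝ 0 m f := by
    have h8 := SchwartzMap.le_seminorm ℝ 0 m f (x + s • e)
    rwa [pow_zero, one_mul] at h8
  calc ‖x‖ ^ k * ‖iteratedFDeriv ℝ m f (x + s • e)‖
      ≤ 2 ^ (k - 1) * (‖x + s • e‖ ^ k + ‖e‖ ^ k) * ‖iteratedFDeriv ℝ m f (x + s • e)‖ :=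
        mul_le_mul_of_nonneg_right h5 (norm_nonneg _)
    _ = 2 ^ (k - 1) * (‖x + s • e‖ ^ k * ‖iteratedFDeriv ℝ m f (x + s • e)‖ +
        ‖e‖ ^ k * ‖iteratedFDeriv ℝ m f (x + s • e)‖) := by ring
    _ ≤ _ := by
      gcongr

private theorem wtr_deriv (g : Sch n) (l : Fin n) (s : ℝ) (x : Fin n → ℝ) :
    HasDerivAt (fun s : ℝ => g (x + s • (Pi.single l 1 : Fin n → ℝ)))
      ((td l g) (x + s • (Pi.single l 1 : Fin n → ℝ))) s := by
  rw [O.td_apply]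
  have h1 : HasDerivAt (fun s : ℝ => x + s • (Pi.single l 1 : Fin n → ℝ))
      (Pi.single l 1 : Fin n → ℝ) s := by
    have h2 := ((hasDerivAt_id s).smul_const (Pi.single l 1 : Fin n → ℝ)).const_add x
    simpa using h2
  exact (g.differentiableAt.hasFDerivAt).comp_hasDerivAt s h1

theorem tendsto_tr (f : Sch n) (l : Fin n) (T : ℝ → Sch n)
    (hT : ∀ (τ : ℝ) (t : Fin n → ℝ), T τ t = f (t + τ • Pi.single l 1)) :
    Tendsto (fun τ : ℝ => ((τ : ℂ)⁻¹) • (T τ - f)) (𝓝[≠] 0) (𝓝 (td l f)) := by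
  refine tendsto_sch f (td l f) T (fun s x => f (x + s • (Pi.single l 1 : Fin n → ℝ)))
    (fun s x => (td l f) (x + s • (Pi.single l 1 : Fin n → ℝ)))
    (fun s x => (td l (td l f)) (x + s • (Pi.single l 1 : Fin n → ℝ))) ?_
    (fun s x => wtr_deriv f l s x) (fun s x => wtr_deriv (td l f) l s x) hT
    (fun x => by rw [zero_smul, add_zero]) (fun x => by rw [zero_smul, add_zero])
    (fun k m => bound_tr (td l (td l f)) (Pi.single l 1) k m)
  exact (f.smooth ⊤).comp (contDiff_snd.add (contDiff_fst.smul contDiff_const))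

end Pool.Agent.Work.MP_dd0ddf_al.AR.WB
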