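import Pool.Agent.Work.MP_dd0ddf_al.AR.WHad
import Pool.Agent.Work.MP_dd0ddf_al.AR.WTr

/-!
# MP_dd0ddf_al, archimedean part, W-block, module WSchur: Schur's lemma on the Schwartz space

Proof.  For `R > 0` let `χ_R` be a smooth compactly supported function on `Fin n → ℝ` with
`χ_R = 1` on the ball `‖t‖ ≤ R` (`ContDiffBump` at `0`, `rIn = R`, `rOut = R + 1`, composed with
`Complex.ofReal`), as a Schwartz function (`HasCompactSupport.toSchwartzMap`).

(1) For `f : Sch n` and `‖t0‖ < R`: `f - f(t0) • χ_R` vanishes at `t0`, so by `local_of_comm`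
`(E f)(t0) = f(t0) (E χ_R)(t0)`.
(2) `E χ_R` is constant on the open ball `‖t‖ < R`: for `t0` in it, `td l χ_R` vanishes at `t0`
(`χ_R` is constant near `t0`; `O.td_apply`), so `(E (td l χ_R))(t0) = 0` by `local_of_comm`, i.e.
`(td l (E χ_R))(t0) = 0` by `hd`, i.e. `fderiv ℝ (E χ_R) t0 (Pi.single l 1) = 0` for all `l`, so
`fderiv ℝ (E χ_R) t0 = 0`; the ball is open and convex
(`Convex.is_const_of_fderivWithin_eq_zero` or `IsOpen.is_const_of_fderiv_eq_zero`).
(3) `(E χ_R)(0) = χ_R(0) (E χ_1)(0) = (E χ_1)(0) =: c` by (1) with `R = 1`, `t0 = 0`.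
So `(E f)(t0) = c f(t0)` for all `f`, `t0` (take `R = ‖t0‖ + 1`).
-/

set_option linter.unusedSectionVars false

namespace Pool.Agent.Work.MP_dd0ddf_al.AR.WB

open scoped SchwartzMap Matrix.Norms.Elementwise ComplexConjugate ContDiff Topology LineDeriv
open Matrix MeasureTheory Filter

variable {n : ℕ}

private theorem exists_chi (n : ℕ) {R : ℝ} (hR : 0 < R) :
    ∃ χ : Sch n, ∀ t : Fin n → ℝ, ‖t‖ ≤ R → χ t = 1 := by
  let b : ContDiffBump (0 : Fin n → ℝ) := ⟨R, R + 1, hR, by linarith⟩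
  have h1 : HasCompactSupport (fun t : Fin n → ℝ => ((b t : ℝ) : ℂ)) :=
    b.hasCompactSupport.comp_left Complex.ofReal_zero
  have h2 : ContDiff ℝ ∞ (fun t : Fin n → ℝ => ((b t : ℝ) : ℂ)) :=
    Complex.ofRealCLM.contDiff.comp b.contDiff
  refine ⟨h1.toSchwartzMap h2, fun t ht => ?_⟩
  have h3 : b t = 1 := b.one_of_mem_closedBall (by rw [mem_closedBall_zero_iff]; exact ht)
  show ((b t : ℝ) : ℂ) = 1
  rw [h3, Complex.ofReal_one]

theorem schur (E : Sch n →ₗ[ℂ] Sch n) (ht : ∀ j f, E (tm j f) = tm j (E f))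
    (hd : ∀ j f, E (td j f) = td j (E f)) : ∃ c : ℂ, ∀ f, E f = c • f := by
  obtain ⟨χ1, h1⟩ := exists_chi n one_pos
  have key1 : ∀ (χ : Sch n) (t0 : Fin n → ℝ), χ t0 = 1 → ∀ f : Sch n,
      E f t0 = f t0 * E χ t0 := by
    intro χ t0 hχ f
    have h := local_of_comm E ht t0 (f - f t0 • χ) (by
      rw [_root_.sub_apply, _root_.smul_apply, hχ, smul_eq_mul, mul_one, sub_self])
    rw [map_sub, map_smul, _root_.sub_apply, _root_.smul_apply, smul_eq_mul] at h
    exact sub_eq_zero.1 h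
  have key2 : ∀ (R : ℝ), 0 < R → ∀ χ : Sch n, (∀ t : Fin n → ℝ, ‖t‖ ≤ R → χ t = 1) →
      ∀ t0 : Fin n → ℝ, ‖t0‖ < R → E χ t0 = E χ 0 := by
    intro R hR χ hχ t0 ht0
    have hfd : ∀ t : Fin n → ℝ, ‖t‖ < R → fderiv ℝ (E χ) t = 0 := by
      intro t htR
      have hl : ∀ l, fderiv ℝ (E χ) t (Pi.single l 1) = 0 := by
        intro l
        rw [← O.td_apply, ← hd]
        apply local_of_comm E ht
        rw [O.td_apply]
        have h2 : (χ : (Fin n → ℝ) → ℂ) =ᶠ[𝓝 t] fun _ => (1 : ℂ) := by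
          filter_upwards [Metric.isOpen_ball.mem_nhds (mem_ball_zero_iff.2 htR)] with s hs
          exact hχ s (mem_ball_zero_iff.1 hs).le
        rw [h2.fderiv_eq, fderiv_fun_const]
        rfl
      apply ContinuousLinearMap.coe_injective
      apply (Pi.basisFun ℝ (Fin n)).ext
      intro l
      rw [Pi.basisFun_apply]
      exact hl l
    refine Metric.isOpen_ball.is_const_of_fderiv_eq_zero (𝕜 := ℝ)
      (convex_ball (0 : Fin n → ℝ) R).isPreconnected (E χ).differentiable.differentiableOn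
      (fun t h => hfd t (mem_ball_zero_iff.1 h)) (mem_ball_zero_iff.2 ht0)
      (Metric.mem_ball_self hR)
  refine ⟨E χ1 0, fun f => ?_⟩
  ext t0
  obtain ⟨χ, hχ⟩ := exists_chi n (R := ‖t0‖ + 1) (by positivity)
  rw [_root_.smul_apply, smul_eq_mul, key1 χ t0 (hχ t0 (by linarith)) f,
    key2 (‖t0‖ + 1) (by positivity) χ hχ t0 (by linarith),
    key1 χ1 0 (h1 0 (by rw [norm_zero]; exact zero_le_one)) χ,
    hχ 0 (by rw [norm_zero]; positivity), one_mul, mul_comm]

end Pool.Agent.Work.MP_dd0ddf_al.AR.WB
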