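import Pool.Agent.Work.MP_dd0ddf_al.AR.WDer
import Pool.Agent.Work.MP_dd0ddf_al.AR.WSchur

/-!
# MP_dd0ddf_al, archimedean part, W-block, module WScal: `D_u = Q_u + e(u)`

Proofs.

`exists_scal`: `D` from `exists_der`; the linear map `E = D - QQ ε a u` commutes with all `AA r`,
`BB r` (`der_AA`, `QQ_AA`, `der_BB`, `QQ_BB`: the terms `AA (r ᵥ* Zm ε u) f` cancel), hence with
`td l` and `tm l` (`td_of_AB`, `tm_of_AB`); `schur`.
`exists_E`: `Classical.choice` (`choose`).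

`e_inv`: let `u' = u ᵥ* h⁻¹`.  `D f = QQ u f + e u • f`, `D` a derivative for `u`; by `der_conj`
`D' = om h ∘ D ∘ om h⁻¹` is a derivative for `u'`, and by `om_AA`, `om_BB` (`r = u`)
`D' f = (i/a) AA u' (BB u' f) + e u • f` (`om h (om h⁻¹ f) = f`).  By `der_unique` and the property of
`e` at `u'`: `QQ u' f + e u' • f = QQ u' f + e u • f` for all `f`; take `f ≠ 0`: `e u' = e u`.
Apply this to `h⁻¹` to get the statement.
-/

set_option linter.unusedSectionVars false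

namespace Pool.Agent.Work.MP_dd0ddf_al.AR.WB

open scoped SchwartzMap Matrix.Norms.Elementwise ComplexConjugate ContDiff Topology LineDeriv
open Matrix MeasureTheory Filter

variable {n : ℕ} {ε : Fin n → ℝ} {a : ℝ}

/-- `D_u = Q_u + e(u)` for all `u` -/
def IsE (W : Weil ε a) (e : (Fin n → ℂ) → ℂ) : Prop :=
  ∀ u, ∃ D : Sch n →L[ℂ] Sch n, IsDer W u D ∧ ∀ f, D f = QQ ε a u f + e u • f

theorem exists_scal (hep : ∀ j, ε j = 1 ∨ ε j = -1) (ha : a ≠ 0) (W : Weil ε a)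
    (u : Fin n → ℂ) :
    ∃ (D : Sch n →L[ℂ] Sch n) (e : ℂ), IsDer W u D ∧ ∀ f, D f = QQ ε a u f + e • f := by
  obtain ⟨D, hD⟩ := exists_der hep W u
  have hAA : ∀ (r : Fin n → ℂ) (f : Sch n),
      (D - QQ ε a u) (AA ε a r f) = AA ε a r ((D - QQ ε a u) f) := by
    intro r f
    rw [ContinuousLinearMap.sub_apply, ContinuousLinearMap.sub_apply, der_AA hep W hD r f,
      QQ_AA hep ha u r f, map_sub]
    abel
  have hBB : ∀ (r : Fin n → ℂ) (f : Sch n),
      (D - QQ ε a u) (BB ε a r f) = BB ε a r ((D - QQ ε a u) f) := by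
    intro r f
    rw [ContinuousLinearMap.sub_apply, ContinuousLinearMap.sub_apply, der_BB hep W hD r f,
      QQ_BB hep ha u r f, map_sub]
    abel
  obtain ⟨c, hc⟩ := schur ((D - QQ ε a u : Sch n →L[ℂ] Sch n) : Sch n →ₗ[ℂ] Sch n)
    (fun l f => by
      show (D - QQ ε a u) (tm l f) = tm l ((D - QQ ε a u) f)
      rw [tm_of_AB hep ha l f, tm_of_AB hep ha l ((D - QQ ε a u) f), map_smul, map_sub,
        hAA, hBB])
    (fun l f => by
      show (D - QQ ε a u) (td l f) = td l ((D - QQ ε a u) f)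
      rw [td_of_AB hep l f, td_of_AB (a := a) hep l ((D - QQ ε a u) f), map_smul, map_add,
        hAA, hBB])
  refine ⟨D, c, hD, fun f => ?_⟩
  have h1 : (D - QQ ε a u) f = c • f := hc f
  rw [ContinuousLinearMap.sub_apply] at h1
  rw [← h1]
  abel

theorem exists_E (hep : ∀ j, ε j = 1 ∨ ε j = -1) (ha : a ≠ 0) (W : Weil ε a) :
    ∃ e : (Fin n → ℂ) → ℂ, IsE W e := by
  choose D e h using fun u => exists_scal hep ha W u
  exact ⟨e, fun u => ⟨D u, (h u).1, (h u).2⟩⟩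

private theorem om_om_inv (W : Weil ε a) (h : UJ ε) (f : Sch n) :
    W.om h (W.om h⁻¹ f) = f := by
  rw [← ContinuousLinearMap.mul_apply, ← map_mul, mul_inv_cancel, map_one,
    ContinuousLinearMap.one_apply]

private theorem e_inv_aux (hep : ∀ j, ε j = 1 ∨ ε j = -1) (W : Weil ε a)
    {e : (Fin n → ℂ) → ℂ} (he : IsE W e) (y : Sch n) (hy : y ≠ 0) (h : UJ ε) (u : Fin n → ℂ) :
    e (u ᵥ* (((h⁻¹ : UJ ε) : GLn n) : Mat n)) = e u := by
  obtain ⟨D, hD, hDe⟩ := he u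
  obtain ⟨D', hD', hDe'⟩ := he (u ᵥ* (((h⁻¹ : UJ ε) : GLn n) : Mat n))
  have h1 := der_unique W hD' (der_conj hep W hD h)
  have h2 : D' y = QQ ε a (u ᵥ* (((h⁻¹ : UJ ε) : GLn n) : Mat n)) y + e u • y := by
    rw [h1]
    show W.om h (D (W.om h⁻¹ y)) = _
    rw [hDe, map_add, map_smul, om_om_inv]
    congr 1
    show W.om h ((Complex.I / a) • (AA ε a u) ((BB ε a u) (W.om h⁻¹ y))) =
      (Complex.I / a) • (AA ε a _) ((BB ε a _) y)
    rw [map_smul, om_AA hep, om_BB hep, om_om_inv]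
  rw [hDe'] at h2
  have h3 : e (u ᵥ* (((h⁻¹ : UJ ε) : GLn n) : Mat n)) • y = e u • y := add_left_cancel h2
  have h4 : (e (u ᵥ* (((h⁻¹ : UJ ε) : GLn n) : Mat n)) - e u) • y = 0 := by
    rw [sub_smul, h3, sub_self]
  rcases smul_eq_zero.1 h4 with h5 | h5
  · exact sub_eq_zero.1 h5
  · exact absurd h5 hy

theorem e_inv (hep : ∀ j, ε j = 1 ∨ ε j = -1) (ha : a ≠ 0) (W : Weil ε a)
    {e : (Fin n → ℂ) → ℂ} (he : IsE W e) (y : Sch n) (hy : y ≠ 0) (h : UJ ε) (u : Fin n → ℂ) :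
    e (u ᵥ* ((h : GLn n) : Mat n)) = e u := by
  have h1 := e_inv_aux hep W he y hy h⁻¹ u
  rwa [inv_inv] at h1

end Pool.Agent.Work.MP_dd0ddf_al.AR.WB
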