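import Mathlib

/-!
# MP_dd0ddf_al, archimedean part, W-block, module WTay: Taylor formula with parameters

`U(s, x) = F s x` is a `C^∞` function on `ℝ × E`.

Proofs.

`contDiff_partial`: `F1 s x = fderiv ℝ U (s, x) (1, 0)` (chain rule: `s ↦ F s x` is `U` composed
with the map `s ↦ (s, x)`, which has derivative `(1, 0)`; uniqueness of derivatives); so `F1` is
smooth (`ContDiff.fderiv_right` and `clm_apply`).

`hasDerivAt_iteratedFDeriv`: induction on `m`, for ALL normed spaces `G : Type` simultaneously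
(`induction m generalizing G` does not work directly with instances: state a private lemma
`∀ m : ℕ, ∀ (G : Type) [NormedAddCommGroup G] [NormedSpace ℝ G] (F F1 : ℝ → E → G), ...`).
* `m = 0`: `iteratedFDeriv_zero_eq_comp`: compose `h1` with the continuous linear equivalence
  `(continuousMultilinearCurryFin0 ℝ E G).symm`.
* `m + 1`: `iteratedFDeriv_succ_eq_comp_right`: `iteratedFDeriv ℝ (m+1) (F s) x` is the image of
  `iteratedFDeriv ℝ m (fun y => fderiv ℝ (F s) y) x` under a fixed continuous linear equivalence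
  (isometry).  Apply the induction hypothesis to `F' s y = fderiv ℝ (F s) y`,
  `F1' s y = fderiv ℝ (F1 s) y`, with values in `E →L[ℝ] G`.  Needed:
  (a) `F'` is jointly smooth: `fderiv ℝ (F s) y = (fderiv ℝ U (s, y)).comp (ContinuousLinearMap.inr ℝ ℝ E)`;
  (b) `HasDerivAt (fun s => fderiv ℝ (F s) y) (fderiv ℝ (F1 s) y) s`: by (a) the derivative of
  the left side is `(fderiv ℝ (fderiv ℝ U) (s, y) (1, 0)).comp inr`; and
  `F1 s y = fderiv ℝ U (s, y) (1, 0)` gives
  `fderiv ℝ (F1 s) y v = fderiv ℝ (fderiv ℝ U) (s, y) (0, v) (1, 0)`; the two agree by the symmetry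
  of the second derivative (`ContDiffAt.isSymmSndFDerivAt`, or `second_derivative_symmetric`).

`taylor2`: put `Φ s = iteratedFDeriv ℝ m (F s) x`, `Φ1`, `Φ2` the same for `F1`, `F2`.  By the
above (`F1` is smooth by `contDiff_partial`) `Φ' = Φ1`, `Φ1' = Φ2`.  For `|s| ≤ |τ|`:
`‖Φ1 s - Φ1 0‖ ≤ B |τ|` (mean value inequality `Convex.norm_image_sub_le_of_norm_hasDerivWithin_le`
on the interval `{s | |s| ≤ |τ|}`, which is convex); hence the function `s ↦ Φ s - s • Φ1 0` has a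
derivative of norm `≤ B |τ|` on this interval, so `‖Φ τ - Φ 0 - τ • Φ1 0‖ ≤ B |τ| |τ|`.  Finally
`iteratedFDeriv ℝ m (fun y => F τ y - F 0 y - τ • F1 0 y) x = Φ τ - Φ 0 - τ • Φ1 0` (linearity:
`iteratedFDeriv_sub_apply`, `iteratedFDeriv_const_smul_apply`; all functions are smooth in `y`).

`norm_iteratedFDeriv_slice_le`: `F s = V ∘ inr`, `V z = U (z + (s, 0))`;
`ContinuousLinearMap.iteratedFDeriv_comp_right` and `iteratedFDeriv_comp_add_right` give
`iteratedFDeriv ℝ m (F s) x = (iteratedFDeriv ℝ m U (s, x)).compContinuousLinearMap fun _ => inr`;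
`ContinuousMultilinearMap.norm_compContinuousLinearMap_le` and `‖inr‖ ≤ 1`.
-/

set_option linter.unusedSectionVars false

namespace Pool.Agent.Work.MP_dd0ddf_al.AR.WB

open scoped ContDiff Topology

section tay

variable {E G : Type} [NormedAddCommGroup E] [NormedSpace ℝ E] [NormedAddCommGroup G]
  [NormedSpace ℝ G]

private theorem F1_eq (F F1 : ℝ → E → G) (hF : ContDiff ℝ ∞ (fun z : ℝ × E => F z.1 z.2))
    (h1 : ∀ s x, HasDerivAt (fun s => F s x) (F1 s x) s) (s : ℝ) (x : E) :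
    F1 s x = fderiv ℝ (fun z : ℝ × E => F z.1 z.2) (s, x) ((1 : ℝ), (0 : E)) := by
  have hd : HasFDerivAt (fun z : ℝ × E => F z.1 z.2)
      (fderiv ℝ (fun z : ℝ × E => F z.1 z.2) (s, x)) (s, x) :=
    (hF.differentiable (by simp) (s, x)).hasFDerivAt
  have hc : HasDerivAt (fun s : ℝ => ((s, x) : ℝ × E)) ((1 : ℝ), (0 : E)) s :=
    (hasDerivAt_id s).prodMk (hasDerivAt_const s x)
  have hdc := hd.comp_hasDerivAt s hc
  exact (h1 s x).unique hdc

theorem contDiff_partial (F F1 : ℝ → E → G) (hF : ContDiff ℝ ∞ (fun z : ℝ × E => F z.1 z.2))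
    (h1 : ∀ s x, HasDerivAt (fun s => F s x) (F1 s x) s) :
    ContDiff ℝ ∞ (fun z : ℝ × E => F1 z.1 z.2) := by
  have h : (fun z : ℝ × E => F1 z.1 z.2) =
      fun z => fderiv ℝ (fun z : ℝ × E => F z.1 z.2) z ((1 : ℝ), (0 : E)) := by
    funext z
    exact F1_eq F F1 hF h1 z.1 z.2
  rw [h]
  exact (hF.fderiv_right (m := ∞) (by simp)).clm_apply contDiff_const

private theorem slice_fd (F : ℝ → E → G) (hF : ContDiff ℝ ∞ (fun z : ℝ × E => F z.1 z.2))
    (s : ℝ) (y : E) :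
    HasFDerivAt (F s)
      ((fderiv ℝ (fun z : ℝ × E => F z.1 z.2) (s, y)).comp (ContinuousLinearMap.inr ℝ ℝ E)) y := by
  have hd : HasFDerivAt (fun z : ℝ × E => F z.1 z.2)
      (fderiv ℝ (fun z : ℝ × E => F z.1 z.2) (s, y)) (s, y) :=
    (hF.differentiable (by simp) (s, y)).hasFDerivAt
  exact hd.comp y (hasFDerivAt_prodMk_right s y)

private theorem slice_cd (F : ℝ → E → G) (hF : ContDiff ℝ ∞ (fun z : ℝ × E => F z.1 z.2))
    (s : ℝ) : ContDiff ℝ ∞ (F s) :=
  hF.comp (contDiff_const.prodMk contDiff_id)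

private theorem hdi_aux : ∀ (m : ℕ) (G : Type) [NormedAddCommGroup G] [NormedSpace ℝ G]
    (F F1 : ℝ → E → G) (_ : ContDiff ℝ ∞ (fun z : ℝ × E => F z.1 z.2))
    (_ : ∀ s x, HasDerivAt (fun s => F s x) (F1 s x) s) (s : ℝ) (x : E),
    HasDerivAt (fun s => iteratedFDeriv ℝ m (F s) x) (iteratedFDeriv ℝ m (F1 s) x) s := by
  intro m
  induction m with
  | zero =>
    intro G _ _ F F1 hF h1 s x
    simp only [iteratedFDeriv_zero_eq_comp, Function.comp]
    exact ((continuousMultilinearCurryFin0 ℝ E G).symm.toContinuousLinearEquiv).hasFDerivAt.comp_hasDerivAt s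
      (h1 s x)
  | succ m ih =>
    intro G _ _ F F1 hF h1 s x
    simp only [iteratedFDeriv_succ_eq_comp_right, Function.comp]
    have hcd : ContDiff ℝ ∞ (fderiv ℝ (fun z : ℝ × E => F z.1 z.2)) :=
      hF.fderiv_right (m := ∞) (by simp)
    have hF' : ContDiff ℝ ∞ (fun z : ℝ × E => fderiv ℝ (F z.1) z.2) := by
      have : (fun z : ℝ × E => fderiv ℝ (F z.1) z.2) =
          fun z => (fderiv ℝ (fun z : ℝ × E => F z.1 z.2) z).comp
            (ContinuousLinearMap.inr ℝ ℝ E) := by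
        funext z
        exact (slice_fd F hF z.1 z.2).fderiv
      rw [this]
      exact hcd.clm_comp contDiff_const
    have h1' : ∀ (s : ℝ) (y : E), HasDerivAt (fun s => fderiv ℝ (F s) y) (fderiv ℝ (F1 s) y) s := by
      intro s y
      have e1 : (fun s => fderiv ℝ (F s) y) =
          fun s => (fderiv ℝ (fun z : ℝ × E => F z.1 z.2) (s, y)).comp
            (ContinuousLinearMap.inr ℝ ℝ E) := by
        funext s
        exact (slice_fd F hF s y).fderiv
      have hdd : HasFDerivAt (fderiv ℝ (fun z : ℝ × E => F z.1 z.2))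
          (fderiv ℝ (fderiv ℝ (fun z : ℝ × E => F z.1 z.2)) (s, y)) (s, y) :=
        (hcd.differentiable (by simp) (s, y)).hasFDerivAt
      have hc : HasDerivAt (fun s : ℝ => ((s, y) : ℝ × E)) ((1 : ℝ), (0 : E)) s :=
        (hasDerivAt_id s).prodMk (hasDerivAt_const s y)
      have h2 := hdd.comp_hasDerivAt s hc
      have h3 : HasDerivAt (fun s => (fderiv ℝ (fun z : ℝ × E => F z.1 z.2) (s, y)).comp
            (ContinuousLinearMap.inr ℝ ℝ E))
          ((fderiv ℝ (fderiv ℝ (fun z : ℝ × E => F z.1 z.2)) (s, y) ((1 : ℝ), (0 : E))).comp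
            (ContinuousLinearMap.inr ℝ ℝ E)) s := by
        have h4 := h2.clm_comp (hasDerivAt_const s (ContinuousLinearMap.inr ℝ ℝ E))
        simpa [Function.comp] using h4
      have e2 : fderiv ℝ (F1 s) y =
          (fderiv ℝ (fderiv ℝ (fun z : ℝ × E => F z.1 z.2)) (s, y) ((1 : ℝ), (0 : E))).comp
            (ContinuousLinearMap.inr ℝ ℝ E) := by
        have e3 : F1 s = fun y => fderiv ℝ (fun z : ℝ × E => F z.1 z.2) (s, y)
            ((1 : ℝ), (0 : E)) := by
          funext y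
          exact F1_eq F F1 hF h1 s y
        have h5 : HasFDerivAt (fun y => fderiv ℝ (fun z : ℝ × E => F z.1 z.2) (s, y))
            ((fderiv ℝ (fderiv ℝ (fun z : ℝ × E => F z.1 z.2)) (s, y)).comp
              (ContinuousLinearMap.inr ℝ ℝ E)) y :=
          hdd.comp y (hasFDerivAt_prodMk_right s y)
        have h6 := h5.clm_apply (hasFDerivAt_const ((1 : ℝ), (0 : E)) y)
        rw [e3, h6.fderiv]
        ext v
        have hsym : IsSymmSndFDerivAt ℝ (fun z : ℝ × E => F z.1 z.2) (s, y) :=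
          hF.contDiffAt.isSymmSndFDerivAt (by
            rw [minSmoothness_of_isRCLikeNormedField]
            exact WithTop.coe_le_coe.2 le_top)
        simpa using hsym ((0 : ℝ), v) ((1 : ℝ), (0 : E))
      rw [e1, e2]
      exact h3
    have h7 := ih (E →L[ℝ] G) (fun s y => fderiv ℝ (F s) y) (fun s y => fderiv ℝ (F1 s) y)
      hF' h1' s x
    exact ((continuousMultilinearCurryRightEquiv' ℝ m E G).symm.toContinuousLinearEquiv).hasFDerivAt.comp_hasDerivAt
      s h7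

theorem hasDerivAt_iteratedFDeriv (F F1 : ℝ → E → G)
    (hF : ContDiff ℝ ∞ (fun z : ℝ × E => F z.1 z.2))
    (h1 : ∀ s x, HasDerivAt (fun s => F s x) (F1 s x) s) (m : ℕ) (s : ℝ) (x : E) :
    HasDerivAt (fun s => iteratedFDeriv ℝ m (F s) x) (iteratedFDeriv ℝ m (F1 s) x) s :=
  hdi_aux m G F F1 hF h1 s x

theorem taylor2 (F F1 F2 : ℝ → E → G) (hF : ContDiff ℝ ∞ (fun z : ℝ × E => F z.1 z.2))
    (h1 : ∀ s x, HasDerivAt (fun s => F s x) (F1 s x) s)
    (h2 : ∀ s x, HasDerivAt (fun s => F1 s x) (F2 s x) s) (m : ℕ) (x : E) (τ B : ℝ)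
    (hB : ∀ s : ℝ, |s| ≤ |τ| → ‖iteratedFDeriv ℝ m (F2 s) x‖ ≤ B) :
    ‖iteratedFDeriv ℝ m (fun y => F τ y - F 0 y - τ • F1 0 y) x‖ ≤ B * τ ^ 2 := by
  have hF1 : ContDiff ℝ ∞ (fun z : ℝ × E => F1 z.1 z.2) := contDiff_partial F F1 hF h1
  have hB0 : 0 ≤ B := (norm_nonneg _).trans (hB 0 (by simp))
  have d1 := hasDerivAt_iteratedFDeriv F F1 hF h1 m
  have d2 := hasDerivAt_iteratedFDeriv F1 F2 hF1 h2 m
  have hconv : Convex ℝ (Set.Icc (-|τ|) |τ|) := convex_Icc _ _
  have h0 : (0 : ℝ) ∈ Set.Icc (-|τ|) |τ| := ⟨by simp, by simp⟩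
  have hτ : τ ∈ Set.Icc (-|τ|) |τ| := ⟨neg_abs_le τ, le_abs_self τ⟩
  have k1 : ∀ s ∈ Set.Icc (-|τ|) |τ|,
      ‖iteratedFDeriv ℝ m (F1 s) x - iteratedFDeriv ℝ m (F1 0) x‖ ≤ B * |τ| := by
    intro s hs
    have h3 := hconv.norm_image_sub_le_of_norm_hasDerivWithin_le
      (f := fun s => iteratedFDeriv ℝ m (F1 s) x) (f' := fun s => iteratedFDeriv ℝ m (F2 s) x)
      (C := B) (fun s _ => (d2 s x).hasDerivWithinAt) (fun s hs => hB s (abs_le.2 hs)) h0 hs
    refine h3.trans ?_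
    rw [sub_zero, Real.norm_eq_abs]
    exact mul_le_mul_of_nonneg_left (abs_le.2 hs) hB0
  have k2 := hconv.norm_image_sub_le_of_norm_hasDerivWithin_le
      (f := fun s => iteratedFDeriv ℝ m (F s) x - s • iteratedFDeriv ℝ m (F1 0) x)
      (f' := fun s => iteratedFDeriv ℝ m (F1 s) x - iteratedFDeriv ℝ m (F1 0) x)
      (C := B * |τ|) (fun s _ => by
        have h4 := (d1 s x).sub ((hasDerivAt_id s).smul_const (iteratedFDeriv ℝ m (F1 0) x))
        simp only [id, one_smul] at h4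
        exact h4.hasDerivWithinAt) k1 h0 hτ
  have hc : ∀ s, ContDiffAt ℝ (m : ℕ) (F s) x := fun s =>
    ((slice_cd F hF s).of_le (by exact_mod_cast le_top)).contDiffAt
  have hc1 : ∀ s, ContDiffAt ℝ (m : ℕ) (F1 s) x := fun s =>
    ((slice_cd F1 hF1 s).of_le (by exact_mod_cast le_top)).contDiffAt
  have e1 : iteratedFDeriv ℝ m (fun y => F τ y - F 0 y - τ • F1 0 y) x =
      iteratedFDeriv ℝ m (F τ) x - iteratedFDeriv ℝ m (F 0) x -
        τ • iteratedFDeriv ℝ m (F1 0) x := by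
    have e2 : (fun y => F τ y - F 0 y - τ • F1 0 y) = (F τ - F 0) - τ • F1 0 := rfl
    have c1 : ContDiffAt ℝ (m : ℕ) (F τ - F 0) x := (hc τ).sub (hc 0)
    have c2 : ContDiffAt ℝ (m : ℕ) (τ • F1 0) x := (hc1 0).const_smul τ
    rw [e2, iteratedFDeriv_sub_apply c1 c2,
      iteratedFDeriv_sub_apply (hc τ) (hc 0), iteratedFDeriv_const_smul_apply (hc1 0)]
  rw [e1]
  have e3 : iteratedFDeriv ℝ m (F τ) x - iteratedFDeriv ℝ m (F 0) x -
        τ • iteratedFDeriv ℝ m (F1 0) x =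
      (iteratedFDeriv ℝ m (F τ) x - τ • iteratedFDeriv ℝ m (F1 0) x) -
        (iteratedFDeriv ℝ m (F 0) x - (0 : ℝ) • iteratedFDeriv ℝ m (F1 0) x) := by
    rw [zero_smul]
    abel
  rw [e3]
  refine k2.trans ?_
  rw [sub_zero, Real.norm_eq_abs, mul_assoc, abs_mul_abs_self, sq]

theorem norm_iteratedFDeriv_slice_le (F : ℝ → E → G)
    (hF : ContDiff ℝ ∞ (fun z : ℝ × E => F z.1 z.2)) (m : ℕ) (s : ℝ) (x : E) :
    ‖iteratedFDeriv ℝ m (F s) x‖ ≤
      ‖iteratedFDeriv ℝ m (fun z : ℝ × E => F z.1 z.2) (s, x)‖ := by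
  set V : ℝ × E → G := fun z => (fun z : ℝ × E => F z.1 z.2) (z + (s, 0)) with hV
  have e1 : F s = V ∘ (ContinuousLinearMap.inr ℝ ℝ E) := by
    funext y
    simp [hV]
  have hVc : ContDiff ℝ ∞ V := hF.comp (contDiff_id.add contDiff_const)
  have e2 : iteratedFDeriv ℝ m (F s) x =
      (iteratedFDeriv ℝ m (fun z : ℝ × E => F z.1 z.2) (s, x)).compContinuousLinearMap
        fun _ => ContinuousLinearMap.inr ℝ ℝ E := by
    rw [e1, (ContinuousLinearMap.inr ℝ ℝ E).iteratedFDeriv_comp_right hVc x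
      (by exact_mod_cast le_top)]
    have e4 := iteratedFDeriv_comp_add_right (𝕜 := ℝ) (f := fun z : ℝ × E => F z.1 z.2) m
      ((s, 0) : ℝ × E) (ContinuousLinearMap.inr ℝ ℝ E x)
    rw [show V = (fun z => (fun z : ℝ × E => F z.1 z.2) (z + (s, 0))) from rfl, e4]
    simp
  rw [e2]
  refine (ContinuousMultilinearMap.norm_compContinuousLinearMap_le _ _).trans ?_
  have h1 : ‖ContinuousLinearMap.inr ℝ ℝ E‖ ≤ 1 := by
    refine ContinuousLinearMap.opNorm_le_bound _ zero_le_one fun v => ?_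
    simp [Prod.norm_def]
  have h2 : ∏ _i : Fin m, ‖ContinuousLinearMap.inr ℝ ℝ E‖ ≤ 1 :=
    Finset.prod_le_one (fun _ _ => norm_nonneg _) (fun _ _ => h1)
  exact mul_le_of_le_one_right (norm_nonneg _) h2

end tay

end Pool.Agent.Work.MP_dd0ddf_al.AR.WB
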