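import Pool.Agent.Work.MP_dd0ddf_al.AR.WDefs
import Pool.Agent.Work.MP_dd0ddf_al.AR.ODefs
import Pool.Agent.Work.MP_dd0ddf_al.AR.WTay

/-!
# MP_dd0ddf_al, archimedean part, W-block, module WSem: difference quotients in the Schwartz space

Proofs.

`tendsto_apply`: evaluation at `t` is continuous on the Schwartz space
(`SchwartzMap.toBoundedContinuousFunctionCLM ℂ (Fin n → ℝ) ℂ` followed by evaluation, or
`norm_le_seminorm`).

`tendsto_sch`: by `(schwartz_withSeminorms ℂ (Fin n → ℝ) ℂ).tendsto_nhds` it is enough to show, for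
all `k m`, that the seminorm `p = SchwartzMap.seminorm ℂ k m` of
`R τ = (τ : ℂ)⁻¹ • (T τ - f) - f'` tends to `0`.  Take `C ≥ 0` from `hb k m` (replace it by
`max C 0`).  For `0 < |τ| ≤ 1`: `SchwartzMap.seminorm_le_bound`: for all `x`,
`‖x‖^k * ‖iteratedFDeriv ℝ m (R τ) x‖ ≤ C * |τ|`: indeed
`R τ = (τ : ℂ)⁻¹ • (y ↦ F τ y - F 0 y - τ • F1 0 y)` as functions (`hT`, `h0`, `hf'`), so
`‖iteratedFDeriv ℝ m (R τ) x‖ = |τ|⁻¹ * ‖iteratedFDeriv ℝ m (y ↦ F τ y - F 0 y - τ • F1 0 y) x‖`,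
and if `‖x‖^k ≠ 0` put `B = C / ‖x‖^k` in `taylor2` (hypothesis `hB` holds by `hb`, as
`|s| ≤ |τ| ≤ 1`): the norm is `≤ (C / ‖x‖^k) * τ^2`.  If `‖x‖^k = 0` the claim is trivial.
Now let `τ → 0` (`squeeze`).
-/

set_option linter.unusedSectionVars false

namespace Pool.Agent.Work.MP_dd0ddf_al.AR.WB

open scoped SchwartzMap Matrix.Norms.Elementwise ComplexConjugate ContDiff Topology LineDeriv
open Matrix MeasureTheory Filter

variable {n : ℕ}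

theorem tendsto_apply {α : Type*} {l : Filter α} {T : α → Sch n} {f : Sch n}
    (h : Tendsto T l (𝓝 f)) (t : Fin n → ℝ) : Tendsto (fun τ => T τ t) l (𝓝 (f t)) := by
  have hc : Continuous (fun g : Sch n => g t) :=
    (BoundedContinuousFunction.lipschitz_eval_const t).continuous.comp
      (SchwartzMap.toBoundedContinuousFunctionCLM ℂ (Fin n → ℝ) ℂ).continuous
  exact (hc.tendsto f).comp h

private theorem wsem_slice (F : ℝ → (Fin n → ℝ) → ℂ)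
    (hF : ContDiff ℝ ∞ (fun z : ℝ × (Fin n → ℝ) => F z.1 z.2)) (s : ℝ) :
    ContDiff ℝ ∞ (F s) :=
  hF.comp (contDiff_const.prodMk contDiff_id)

private theorem wsem_key (f f' : Sch n) (T : ℝ → Sch n) (F F1 F2 : ℝ → (Fin n → ℝ) → ℂ)
    (hF : ContDiff ℝ ∞ (fun z : ℝ × (Fin n → ℝ) => F z.1 z.2))
    (h1 : ∀ s x, HasDerivAt (fun s => F s x) (F1 s x) s)
    (h2 : ∀ s x, HasDerivAt (fun s => F1 s x) (F2 s x) s)
    (hT : ∀ s x, T s x = F s x) (h0 : ∀ x, f x = F 0 x) (hf' : ∀ x, f' x = F1 0 x)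
    (k m : ℕ) (C : ℝ) (hC : 0 ≤ C)
    (hb : ∀ s : ℝ, |s| ≤ 1 → ∀ x, ‖x‖ ^ k * ‖iteratedFDeriv ℝ m (F2 s) x‖ ≤ C)
    (τ : ℝ) (hτ : τ ≠ 0) (hτ1 : |τ| ≤ 1) :
    SchwartzMap.seminorm ℂ k m (((τ : ℂ)⁻¹) • (T τ - f) - f') ≤ C * |τ| := by
  have hτ0 : 0 < |τ| := abs_pos.2 hτ
  refine SchwartzMap.seminorm_le_bound ℂ k m _ (by positivity) fun x => ?_
  set G : (Fin n → ℝ) → ℂ := fun y => F τ y - F 0 y - τ • F1 0 y with hG
  have hF1 := contDiff_partial F F1 hF h1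
  have hGc : ContDiff ℝ ∞ G :=
    ((wsem_slice F hF τ).sub (wsem_slice F hF 0)).sub ((wsem_slice F1 hF1 0).const_smul τ)
  have hR : (((((τ : ℂ)⁻¹) • (T τ - f) - f' : Sch n)) : (Fin n → ℝ) → ℂ) = (τ⁻¹ : ℝ) • G := by
    funext y
    have hτc : (τ : ℂ) ≠ 0 := by exact_mod_cast hτ
    simp only [SchwartzMap.sub_apply, SchwartzMap.smul_apply, hT, h0, hf', Pi.smul_apply, hG,
      smul_eq_mul, Complex.real_smul]
    push_cast
    field_simp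
  rw [hR, iteratedFDeriv_const_smul_apply (hGc.contDiffAt.of_le (by exact_mod_cast le_top)),
    norm_smul, norm_inv, Real.norm_eq_abs]
  rcases eq_or_lt_of_le (pow_nonneg (norm_nonneg x) k) with hA | hA
  · rw [← hA, zero_mul]
    positivity
  · have ht := taylor2 F F1 F2 hF h1 h2 m x τ (C / ‖x‖ ^ k) fun s hs => by
      rw [le_div_iff₀ hA, mul_comm]
      exact hb s (hs.trans hτ1) x
    calc ‖x‖ ^ k * (|τ|⁻¹ * ‖iteratedFDeriv ℝ m G x‖)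
        ≤ ‖x‖ ^ k * (|τ|⁻¹ * (C / ‖x‖ ^ k * τ ^ 2)) := by gcongr
      _ = C * |τ| := by
        rw [← sq_abs τ]
        field_simp

theorem tendsto_sch (f f' : Sch n) (T : ℝ → Sch n) (F F1 F2 : ℝ → (Fin n → ℝ) → ℂ)
    (hF : ContDiff ℝ ∞ (fun z : ℝ × (Fin n → ℝ) => F z.1 z.2))
    (h1 : ∀ s x, HasDerivAt (fun s => F s x) (F1 s x) s)
    (h2 : ∀ s x, HasDerivAt (fun s => F1 s x) (F2 s x) s)
    (hT : ∀ s x, T s x = F s x) (h0 : ∀ x, f x = F 0 x) (hf' : ∀ x, f' x = F1 0 x)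
    (hb : ∀ k m : ℕ, ∃ C : ℝ, ∀ s : ℝ, |s| ≤ 1 → ∀ x,
      ‖x‖ ^ k * ‖iteratedFDeriv ℝ m (F2 s) x‖ ≤ C) :
    Tendsto (fun τ : ℝ => ((τ : ℂ)⁻¹) • (T τ - f)) (𝓝[≠] 0) (𝓝 f') := by
  rw [(schwartz_withSeminorms ℂ (Fin n → ℝ) ℂ).tendsto_nhds]
  rintro ⟨k, m⟩ ε hε
  obtain ⟨C0, hC0⟩ := hb k m
  set C : ℝ := max C0 0 with hCd
  have hC : 0 ≤ C := le_max_right _ _
  have hδ : 0 < min 1 (ε / (C + 1)) := lt_min one_pos (by positivity)
  have hev : ∀ᶠ τ : ℝ in 𝓝[≠] 0, |τ| < min 1 (ε / (C + 1)) := by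
    apply mem_nhdsWithin_of_mem_nhds
    have := Metric.ball_mem_nhds (0 : ℝ) hδ
    filter_upwards [this] with τ hτ
    rwa [Metric.mem_ball, Real.dist_eq, sub_zero] at hτ
  filter_upwards [hev, self_mem_nhdsWithin] with τ hτ hne
  have hτ1 : |τ| ≤ 1 := (hτ.trans_le (min_le_left _ _)).le
  have hkey := wsem_key f f' T F F1 F2 hF h1 h2 hT h0 hf' k m C hC
    (fun s hs x => (hC0 s hs x).trans (le_max_left _ _)) τ hne hτ1
  refine lt_of_le_of_lt hkey ?_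
  have h3 : |τ| < ε / (C + 1) := hτ.trans_le (min_le_right _ _)
  rw [lt_div_iff₀ (by positivity)] at h3
  have h4 : 0 ≤ |τ| := abs_nonneg τ
  nlinarith

end Pool.Agent.Work.MP_dd0ddf_al.AR.WB
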